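import Mathlib

/-!
# Classes of modules, additive functions, `ℤ/2`-graded complexes
-/

set_option autoImplicit false

noncomputable section

namespace MSA

universe u v w

/-- A class of modules over `R` closed under isomorphisms, submodules, quotients, products. -/
structure Cls (R : Type w) [Ring R] where
  P : ∀ (M : Type u) [AddCommGroup M] [Module R M], Prop
  iso : ∀ {M N : Type u} [AddCommGroup M] [Module R M] [AddCommGroup N] [Module R N],
    (M ≃ₗ[R] N) → P M → P N
  zero : ∀ (M : Type u) [AddCommGroup M] [Module R M] [Subsingleton M], P M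
  sub : ∀ {M : Type u} [AddCommGroup M] [Module R M] (N : Submodule R M), P M → P N
  quo : ∀ {M : Type u} [AddCommGroup M] [Module R M] (N : Submodule R M), P M → P (M ⧸ N)
  prod : ∀ {M N : Type u} [AddCommGroup M] [Module R M] [AddCommGroup N] [Module R N],
    P M → P N → P (M × N)

/-- An additive function on a class of modules. Only its values on the class matter. -/
structure Adf {R : Type w} [Ring R] (C : Cls.{u} R) (A : Type v) [AddCommGroup A] where
  e : ∀ (M : Type u) [AddCommGroup M] [Module R M], A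
  iso : ∀ {M N : Type u} [AddCommGroup M] [Module R M] [AddCommGroup N] [Module R N],
    (M ≃ₗ[R] N) → C.P M → e M = e N
  add : ∀ {M : Type u} [AddCommGroup M] [Module R M] (N : Submodule R M),
    C.P M → e M = e N + e (M ⧸ N)

/-- Homology at `Y` of `X to Y (by g) to Z (by f)`. -/
abbrev Hm {R : Type w} [Ring R] {X Y Z : Type u} [AddCommGroup X] [AddCommGroup Y]
    [AddCommGroup Z] [Module R X] [Module R Y] [Module R Z] (g : X →ₗ[R] Y) (f : Y →ₗ[R] Z) :
    Type u :=
  (LinearMap.ker f) ⧸ ((LinearMap.range g).submoduleOf (LinearMap.ker f))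

/-- A `ℤ/2`-graded complex of `R`-modules. -/
structure Ch (R : Type w) [Ring R] where
  X0 : Type u
  X1 : Type u
  [a0 : AddCommGroup X0]
  [a1 : AddCommGroup X1]
  [m0 : Module R X0]
  [m1 : Module R X1]
  d0 : X0 →ₗ[R] X1
  d1 : X1 →ₗ[R] X0
  h10 : ∀ x, d1 (d0 x) = 0
  h01 : ∀ x, d0 (d1 x) = 0

attribute [instance] Ch.a0 Ch.a1 Ch.m0 Ch.m1

namespace Ch

variable {R : Type w} [Ring R]

/-- even homology -/
abbrev H0 (X : Ch.{u} R) : Type u := Hm X.d1 X.d0

/-- odd homology -/
abbrev H1 (X : Ch.{u} R) : Type u := Hm X.d0 X.d1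

/-- the homology lies in the class `C` -/
def InC (X : Ch.{u} R) (C : Cls.{u} R) : Prop := C.P X.H0 ∧ C.P X.H1

/-- Euler characteristic -/
def chi {C : Cls.{u} R} {A : Type v} [AddCommGroup A] (e : Adf C A) (X : Ch.{u} R) : A :=
  e.e X.H0 - e.e X.H1

/-- exactness -/
def Acy (X : Ch.{u} R) : Prop :=
  (∀ x, X.d0 x = 0 → ∃ y, X.d1 y = x) ∧ (∀ x, X.d1 x = 0 → ∃ y, X.d0 y = x)

/-- morphisms of complexes -/
structure Hom (X Y : Ch.{u} R) where
  f0 : X.X0 →ₗ[R] Y.X0
  f1 : X.X1 →ₗ[R] Y.X1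
  c0 : ∀ x, Y.d0 (f0 x) = f1 (X.d0 x)
  c1 : ∀ x, Y.d1 (f1 x) = f0 (X.d1 x)

/-- short exact sequences of complexes -/
structure Ses (X Y Z : Ch.{u} R) where
  i : Hom X Y
  q : Hom Y Z
  inj0 : Function.Injective i.f0
  inj1 : Function.Injective i.f1
  sur0 : Function.Surjective q.f0
  sur1 : Function.Surjective q.f1
  ex0 : ∀ y, q.f0 y = 0 ↔ ∃ x, i.f0 x = y
  ex1 : ∀ y, q.f1 y = 0 ↔ ∃ x, i.f1 x = y

/-- shift -/
def sh (X : Ch.{u} R) : Ch.{u} R where
  X0 := X.X1
  X1 := X.X0
  d0 := X.d1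
  d1 := X.d0
  h10 := X.h01
  h01 := X.h10

/-- restriction of scalars -/
def res {R' : Type*} [Ring R'] (X : Ch.{u} R) (f : R' →+* R) : Ch.{u} R' :=
  letI := Module.compHom X.X0 f
  letI := Module.compHom X.X1 f
  { X0 := X.X0
    X1 := X.X1
    d0 := { toFun := X.d0, map_add' := map_add X.d0, map_smul' := fun r x => map_smul X.d0 (f r) x }
    d1 := { toFun := X.d1, map_add' := map_add X.d1, map_smul' := fun r x => map_smul X.d1 (f r) x }
    h10 := X.h10
    h01 := X.h01 }

end Ch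

end MSA
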