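import Mathlib
import Pool.Agent.MSA.Ch

/-!
# Additive functions

PROOFS. `adf_zero`: `C.P M` by `C.zero`; `add` with `N = ⊥` gives `e M = e ⊥ + e (M ⧸ ⊥)`, all three
modules are zero, so isomorphic (`iso`), `e M = e M + e M`.
`adf_ses`: `N' = range i`; `K ≃ N'` (`LinearEquiv.ofInjective`), `M ⧸ N' ≃ N`
(`LinearMap.quotKerEquivOfSurjective` and `Submodule.quotEquivOfEq`), `C.sub`, `C.quo`, `C.iso`.
`cls_inj`, `cls_sur` in the same way. `adf_prod`: `adf_ses` with `inl`, `snd`, `C.prod`.
-/

set_option autoImplicit false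

noncomputable section

namespace MSA

universe u v w

variable {R : Type w} [Ring R] {C : Cls.{u} R} {A : Type v} [AddCommGroup A] (e : Adf C A)
variable {M N K : Type u} [AddCommGroup M] [AddCommGroup N] [AddCommGroup K]
variable [Module R M] [Module R N] [Module R K]

theorem adf_zero [Subsingleton M] : e.e M = 0 := by
  have hM : C.P M := C.zero M
  have h1 := e.add (⊥ : Submodule R M) hM
  have h2 : e.e M = e.e (⊥ : Submodule R M) := e.iso (0 : M ≃ₗ[R] (⊥ : Submodule R M)) hM
  have h3 : e.e M = e.e (M ⧸ (⊥ : Submodule R M)) := e.iso (0 : M ≃ₗ[R] (M ⧸ (⊥ : Submodule R M))) hM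
  rw [← h2, ← h3] at h1
  exact left_eq_add.1 h1

theorem cls_inj (i : K →ₗ[R] M) (hi : Function.Injective i) (hM : C.P M) : C.P K :=
  C.iso (LinearEquiv.ofInjective i hi).symm (C.sub (LinearMap.range i) hM)

theorem cls_sur (q : M →ₗ[R] N) (hq : Function.Surjective q) (hM : C.P M) : C.P N :=
  C.iso (q.quotKerEquivOfSurjective hq) (C.quo (LinearMap.ker q) hM)

/-- additivity on short exact sequences `0 → K → M → N → 0` -/
theorem adf_ses (hM : C.P M) (i : K →ₗ[R] M) (q : M →ₗ[R] N) (hi : Function.Injective i)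
    (hq : Function.Surjective q) (h : ∀ m, q m = 0 ↔ ∃ k, i k = m) : e.e M = e.e K + e.e N := by
  have h1 := e.add (LinearMap.ker q) hM
  have h2 : e.e (M ⧸ LinearMap.ker q) = e.e N :=
    e.iso (q.quotKerEquivOfSurjective hq) (C.quo (LinearMap.ker q) hM)
  have h3 : LinearMap.range i = LinearMap.ker q := by
    ext m
    rw [LinearMap.mem_range, LinearMap.mem_ker, h m]
  have h4 : e.e K = e.e (LinearMap.ker q) :=
    e.iso ((LinearEquiv.ofInjective i hi).trans (LinearEquiv.ofEq _ _ h3)) (cls_inj i hi hM)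
  rw [h1, h2, h4]

/-- products -/
theorem adf_prod (hM : C.P M) (hN : C.P N) : e.e (M × N) = e.e M + e.e N := by
  refine adf_ses e (C.prod hM hN) (LinearMap.inl R M N) (LinearMap.snd R M N)
    LinearMap.inl_injective LinearMap.snd_surjective fun m => ?_
  constructor
  · intro hm
    exact ⟨m.1, Prod.ext rfl hm.symm⟩
  · rintro ⟨k, rfl⟩
    rfl

end MSA
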