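import Mathlib

/-!
# Exterior algebra of `F^J` and coefficients in a module

`Finset J → Z` plays the role of `Λ_F(F^J) ⊗_F Z`. A linear endomorphism `f` of the exterior
algebra acts on it through its matrix.
-/

set_option autoImplicit false
set_option linter.unusedSectionVars false

noncomputable section

namespace MSA

universe u v w

variable {F : Type u} [Field F] {J : Type} [Fintype J] [LinearOrder J]

variable (F J) in
/-- the exterior algebra of `F^J` -/
abbrev EA : Type u := ExteriorAlgebra F (J → F)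

variable (F J) in
/-- the basis of the exterior algebra -/
def bE : Module.Basis (Finset J) F (EA F J) := (Pi.basisFun F J).ExteriorAlgebra

variable {Z : Type w} [AddCommGroup Z] [Module F Z]

/-- The action of `f : Λ → Λ` on `Λ ⊗ Z = (Finset J → Z)`. -/
def opE (f : EA F J →ₗ[F] EA F J) (x : Finset J → Z) : Finset J → Z :=
  fun B => ∑ A, ((bE F J).repr (f (bE F J A)) B) • x A

theorem opE_add_right (f : EA F J →ₗ[F] EA F J) (x y : Finset J → Z) :
    opE f (x + y) = opE f x + opE f y := by
  funext B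
  simp [opE, Finset.sum_add_distrib]

theorem opE_zero_right (f : EA F J →ₗ[F] EA F J) :
    opE f (0 : Finset J → Z) = 0 := by
  funext B
  simp [opE]

theorem opE_sum_right {α : Type*} (f : EA F J →ₗ[F] EA F J) (s : Finset α)
    (x : α → Finset J → Z) : opE f (∑ a ∈ s, x a) = ∑ a ∈ s, opE f (x a) := by
  classical
  induction s using Finset.induction_on with
  | empty => simp [opE_zero_right]
  | insert a s ha ih => rw [Finset.sum_insert ha, Finset.sum_insert ha, opE_add_right, ih]

theorem opE_add_left (f g : EA F J →ₗ[F] EA F J) (x : Finset J → Z) :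
    opE (f + g) x = opE f x + opE g x := by
  funext B
  simp [opE, Finset.sum_add_distrib, add_smul]

theorem opE_zero_left (x : Finset J → Z) : opE (0 : EA F J →ₗ[F] EA F J) x = 0 := by
  funext B
  simp [opE]

theorem opE_smul_left (c : F) (f : EA F J →ₗ[F] EA F J) (x : Finset J → Z) :
    opE (c • f) x = c • opE f x := by
  funext B
  simp [opE, Finset.smul_sum, smul_smul]

theorem opE_sum_left {α : Type*} (s : Finset α) (f : α → EA F J →ₗ[F] EA F J)
    (x : Finset J → Z) : opE (∑ a ∈ s, f a) x = ∑ a ∈ s, opE (f a) x := by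
  classical
  induction s using Finset.induction_on with
  | empty => simp [opE_zero_left]
  | insert a s ha ih => rw [Finset.sum_insert ha, Finset.sum_insert ha, opE_add_left, ih]

theorem opE_id (x : Finset J → Z) : opE (LinearMap.id : EA F J →ₗ[F] EA F J) x = x := by
  classical
  funext B
  simp only [opE, LinearMap.id_apply, Module.Basis.repr_self]
  rw [Finset.sum_eq_single B]
  · simp
  · intro A _ hA
    rw [Finsupp.single_eq_of_ne (by simpa using hA.symm), zero_smul]
  · simp

theorem opE_comp (f g : EA F J →ₗ[F] EA F J) (x : Finset J → Z) :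
    opE f (opE g x) = opE (f ∘ₗ g) x := by
  classical
  funext B
  simp only [opE, LinearMap.comp_apply, Finset.smul_sum, smul_smul]
  rw [Finset.sum_comm]
  refine Finset.sum_congr rfl fun A _ => ?_
  rw [← Finset.sum_smul]
  congr 1
  have h := (bE F J).sum_repr (g (bE F J A))
  conv_rhs => rw [← h]
  rw [map_sum, map_sum, Finsupp.finsetSum_apply]
  refine Finset.sum_congr rfl fun C _ => ?_
  rw [map_smul, map_smul, Finsupp.smul_apply, smul_eq_mul, mul_comm]

/-- compatibility with maps of coefficients -/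
theorem opE_map {Z' : Type*} [AddCommGroup Z'] [Module F Z'] (h : Z →+ Z')
    (hF : ∀ (c : F) z, h (c • z) = c • h z) (f : EA F J →ₗ[F] EA F J) (x : Finset J → Z) :
    opE f (fun A => h (x A)) = fun B => h (opE f x B) := by
  funext B
  simp [opE, map_sum, hF]

/-- contraction with the `j`-th coordinate -/
def ctr (j : J) : EA F J →ₗ[F] EA F J :=
  CliffordAlgebra.contractLeft (Q := (0 : QuadraticForm F (J → F))) (LinearMap.proj j)

/-- exterior multiplication by a vector -/
def wdg (v : J → F) : EA F J →ₗ[F] EA F J :=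
  LinearMap.mulLeft F (ExteriorAlgebra.ι F v)

/-- operators induced by linear maps -/
def mpE (f : (J → F) →ₗ[F] (J → F)) : EA F J →ₗ[F] EA F J :=
  (ExteriorAlgebra.map f).toLinearMap

theorem ctr_sq (j : J) : (ctr j : EA F J →ₗ[F] EA F J) ∘ₗ (ctr j : EA F J →ₗ[F] EA F J) = 0 :=
  LinearMap.ext fun x => CliffordAlgebra.contractLeft_contractLeft
    (Q := (0 : QuadraticForm F (J → F))) _ x

theorem ctr_comm (i j : J) : (ctr i : EA F J →ₗ[F] EA F J) ∘ₗ (ctr j : EA F J →ₗ[F] EA F J) =
    - ((ctr j : EA F J →ₗ[F] EA F J) ∘ₗ (ctr i : EA F J →ₗ[F] EA F J)) :=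
  LinearMap.ext fun x => CliffordAlgebra.contractLeft_comm
    (Q := (0 : QuadraticForm F (J → F))) _ _ x

theorem ctr_wdg (j : J) (v : J → F) :
    (ctr j : EA F J →ₗ[F] EA F J) ∘ₗ wdg v + wdg v ∘ₗ (ctr j : EA F J →ₗ[F] EA F J) =
      v j • (LinearMap.id : EA F J →ₗ[F] EA F J) := by
  refine LinearMap.ext fun x => ?_
  have h := CliffordAlgebra.contractLeft_ι_mul (Q := (0 : QuadraticForm F (J → F)))
    (LinearMap.proj j) v x
  have h' : (ctr j : EA F J →ₗ[F] EA F J) (ExteriorAlgebra.ι F v * x) =
    v j • x - ExteriorAlgebra.ι F v * ((ctr j : EA F J →ₗ[F] EA F J) x) := h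
  show (ctr j : EA F J →ₗ[F] EA F J) (ExteriorAlgebra.ι F v * x) +
    ExteriorAlgebra.ι F v * ((ctr j : EA F J →ₗ[F] EA F J) x) = v j • x
  rw [h']
  abel

theorem mpE_comp (f g : (J → F) →ₗ[F] (J → F)) : mpE (f ∘ₗ g) = mpE f ∘ₗ mpE g := by
  refine LinearMap.ext fun x => ?_
  show (ExteriorAlgebra.map (f ∘ₗ g)) x = (ExteriorAlgebra.map f) ((ExteriorAlgebra.map g) x)
  rw [← AlgHom.comp_apply, ExteriorAlgebra.map_comp_map]

theorem mpE_id : mpE (LinearMap.id : (J → F) →ₗ[F] (J → F)) = LinearMap.id := by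
  refine LinearMap.ext fun x => ?_
  show (ExteriorAlgebra.map LinearMap.id) x = x
  rw [ExteriorAlgebra.map_id]
  rfl

theorem mpE_wdg (f : (J → F) →ₗ[F] (J → F)) (v : J → F) :
    mpE f ∘ₗ wdg v = wdg (f v) ∘ₗ mpE f := by
  refine LinearMap.ext fun x => ?_
  show (ExteriorAlgebra.map f) (ExteriorAlgebra.ι F v * x) =
    ExteriorAlgebra.ι F (f v) * (ExteriorAlgebra.map f) x
  rw [map_mul, ExteriorAlgebra.map_apply_ι]

end MSA
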