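import Mathlib
import Pool.Agent.MSA.Ext

/-!
# Naturality of the contraction

PROOF. `LinearMap.ext`, then `CliffordAlgebra.left_induction` for the form `0` on `x` (an exterior
algebra is a Clifford algebra of the zero form): for `x = algebraMap r` both sides vanish
(`CliffordAlgebra.contractLeft_algebraMap`, `map_algebraMap`); sums are clear; for `ι v * x`:
`ctr j (Λf (ι v * x)) = ctr j (ι (f v) * Λf x) = (f v) j • Λf x - ι (f v) * ctr j (Λf x)`
(`CliffordAlgebra.contractLeft_ι_mul`), and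
`∑ i, (f e_i) j • Λf (ctr i (ι v * x)) = ∑ i, (f e_i) j • (v i • Λf x - ι (f v) * Λf (ctr i x))`,
with `∑ i, v i * (f e_i) j = (f v) j`.
-/

set_option autoImplicit false
set_option linter.unusedSectionVars false

noncomputable section

namespace MSA

universe u v w

variable {F : Type u} [Field F] {J : Type} [Fintype J] [LinearOrder J]

private theorem ctm_ctr_algebraMap (j : J) (r : F) :
    (ctr j : EA F J →ₗ[F] EA F J) (algebraMap F (EA F J) r) = 0 :=
  CliffordAlgebra.contractLeft_algebraMap (Q := (0 : QuadraticForm F (J → F))) _ r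

private theorem ctm_ctr_mul (j : J) (v : J → F) (x : EA F J) :
    (ctr j : EA F J →ₗ[F] EA F J) (ExteriorAlgebra.ι F v * x) =
      v j • x - ExteriorAlgebra.ι F v * ((ctr j : EA F J →ₗ[F] EA F J) x) :=
  CliffordAlgebra.contractLeft_ι_mul (Q := (0 : QuadraticForm F (J → F))) (LinearMap.proj j) v x

private theorem ctm_mpE_mul (f : (J → F) →ₗ[F] (J → F)) (v : J → F) (x : EA F J) :
    mpE f (ExteriorAlgebra.ι F v * x) = ExteriorAlgebra.ι F (f v) * mpE f x := by
  show (ExteriorAlgebra.map f) (ExteriorAlgebra.ι F v * x) =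
    ExteriorAlgebra.ι F (f v) * (ExteriorAlgebra.map f) x
  rw [map_mul, ExteriorAlgebra.map_apply_ι]

private theorem ctm_sum (j : J) (f : (J → F) →ₗ[F] (J → F)) (v : J → F) :
    ∑ i, f (Pi.single i 1) j * v i = f v j := by
  conv_rhs => rw [pi_eq_sum_univ' v]
  rw [map_sum, Finset.sum_apply]
  refine Finset.sum_congr rfl fun i _ => ?_
  rw [map_smul, Pi.smul_apply, smul_eq_mul, mul_comm]

/-- naturality of contraction: `e_j^* ⌟ (Λf) x = (Λf) (f^* e_j^* ⌟ x)` -/
theorem ctr_mpE (j : J) (f : (J → F) →ₗ[F] (J → F)) :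
    (ctr j : EA F J →ₗ[F] EA F J) ∘ₗ mpE f =
      ∑ i, (f (Pi.single i 1) j) • (mpE f ∘ₗ (ctr i : EA F J →ₗ[F] EA F J)) := by
  refine LinearMap.ext fun x => ?_
  rw [LinearMap.sum_apply]
  simp only [LinearMap.smul_apply, LinearMap.comp_apply]
  refine CliffordAlgebra.left_induction (Q := (0 : QuadraticForm F (J → F)))
    (P := fun x => (ctr j : EA F J →ₗ[F] EA F J) (mpE f x) =
      ∑ i, (f (Pi.single i 1) j) • (mpE f ((ctr i : EA F J →ₗ[F] EA F J) x))) ?_ ?_ ?_ x
  · intro r
    have h1 : mpE f (algebraMap F (EA F J) r) = algebraMap F (EA F J) r :=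
      (ExteriorAlgebra.map f).commutes r
    show (ctr j : EA F J →ₗ[F] EA F J) (mpE f (algebraMap F (EA F J) r)) =
      ∑ i, (f (Pi.single i 1) j) • (mpE f ((ctr i : EA F J →ₗ[F] EA F J)
        (algebraMap F (EA F J) r)))
    rw [h1, ctm_ctr_algebraMap]
    symm
    refine Finset.sum_eq_zero fun i _ => ?_
    rw [ctm_ctr_algebraMap, map_zero, smul_zero]
  · intro a b ha hb
    rw [map_add, map_add, ha, hb, ← Finset.sum_add_distrib]
    refine Finset.sum_congr rfl fun i _ => ?_
    rw [map_add, map_add, smul_add]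
  · intro a v ha
    show (ctr j : EA F J →ₗ[F] EA F J) (mpE f (ExteriorAlgebra.ι F v * a)) =
      ∑ i, (f (Pi.single i 1) j) • (mpE f ((ctr i : EA F J →ₗ[F] EA F J)
        (ExteriorAlgebra.ι F v * a)))
    rw [ctm_mpE_mul, ctm_ctr_mul, ha, ← ctm_sum j f v, Finset.sum_smul, Finset.mul_sum,
      ← Finset.sum_sub_distrib]
    refine Finset.sum_congr rfl fun i _ => ?_
    rw [ctm_ctr_mul, map_sub, map_smul, ctm_mpE_mul, smul_sub, smul_smul, mul_smul_comm]

end MSA
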