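import Mathlib
import Pool.Agent.MSA.Ext

/-!
# Parity of operators on the exterior algebra

PROOF. `bE A` is `Module.Basis.ExteriorAlgebra` of the standard basis; by
`ExteriorAlgebra.basis_eq_coe_basis` it is the image of the basis vector of `⋀^n`, `n = A.card`, and the
basis vectors with `A.card = n` are a basis of `⋀^n` (`exteriorPower`, `basis_repr`), which gives
`bE_mem` and `repr_of_mem` (`x` in `⋀^n` is a combination of the `bE A`, `A.card = n`: it is the image of
an element of `⋀[F]^n (J → F)`, expand it in `(Pi.basisFun F J).exteriorPower n`).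
`wdg v` maps `⋀^n` to `⋀^(n+1)` (`ι v` is in `⋀^1`, graded multiplication), `mpE f` maps `⋀^n` to `⋀^n`
(`⋀^n = (range ι)^n`, an algebra homomorphism maps `ι v` to `ι (f v)`), `ctr j` maps `⋀^(n+1)` to `⋀^n`
and `⋀^0` to `0`: induction on `n` with `⋀^(n+1) = range ι * ⋀^n` and
`ctr j (ι v * x) = v j • x - ι v * ctr j x` (`CliffordAlgebra.contractLeft_ι_mul`).
-/

set_option autoImplicit false
set_option linter.unusedSectionVars false

noncomputable section

namespace MSA

universe u v w

variable {F : Type u} [Field F] {J : Type} [Fintype J] [LinearOrder J]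
variable {Z : Type w} [AddCommGroup Z] [Module F Z]

/-! ## parity -/

/-- `f` preserves (`i = 0`) or reverses (`i = 1`) parity. -/
def ParE (i : ZMod 2) (f : EA F J →ₗ[F] EA F J) : Prop :=
  ∀ A B : Finset J, (bE F J).repr (f (bE F J A)) B ≠ 0 → (B.card : ZMod 2) = A.card + i

/-- `∧^n` is spanned by the basis vectors `bE A`, `A.card = n`. -/
theorem repr_of_mem (n : ℕ) (x : EA F J) (hx : x ∈ (⋀[F]^n (J → F) : Submodule F (EA F J)))
    (B : Finset J) (h : (bE F J).repr x B ≠ 0) : B.card = n := by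
  by_contra hB
  apply h
  have h1 := ((Pi.basisFun F J).exteriorPower n).mem_span
    (⟨x, hx⟩ : (⋀[F]^n (J → F) : Submodule F (EA F J)))
  have key : ∀ y : (⋀[F]^n (J → F) : Submodule F (EA F J)),
      y ∈ Submodule.span F (Set.range ((Pi.basisFun F J).exteriorPower n)) →
      (bE F J).repr (y : EA F J) B = 0 := by
    intro y hy
    induction hy using Submodule.span_induction with
    | mem z hz =>
      obtain ⟨s, rfl⟩ := hz
      have h2 : (((Pi.basisFun F J).exteriorPower n s :
          (⋀[F]^n (J → F) : Submodule F (EA F J))) : EA F J) = bE F J (s : Finset J) :=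
        (ExteriorAlgebra.basis_eq_coe_basis (Pi.basisFun F J) s).symm
      rw [h2, Module.Basis.repr_self]
      refine Finsupp.single_eq_of_ne ?_
      intro h3
      apply hB
      rw [h3]
      exact s.2
    | zero => simp
    | add a b _ _ ha hb => rw [Submodule.coe_add, map_add, Finsupp.add_apply, ha, hb, add_zero]
    | smul c a _ ha => rw [Submodule.coe_smul, map_smul, Finsupp.smul_apply, ha, smul_zero]
  exact key ⟨x, hx⟩ h1

theorem bE_mem (A : Finset J) :
    bE F J A ∈ (⋀[F]^A.card (J → F) : Submodule F (EA F J)) := by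
  have h2 := ExteriorAlgebra.basis_eq_coe_basis (Pi.basisFun F J)
    (⟨A, rfl⟩ : Set.powersetCard J A.card)
  have h3 : bE F J A = (Pi.basisFun F J).ExteriorAlgebra A := rfl
  rw [h3]
  erw [h2]
  exact Subtype.property _

private theorem parE_of30 {i : ZMod 2} (f : EA F J →ₗ[F] EA F J)
    (h : ∀ (n : ℕ) (x : EA F J), x ∈ (⋀[F]^n (J → F) : Submodule F (EA F J)) → f x = 0 ∨
      ∃ m : ℕ, (m : ZMod 2) = n + i ∧ f x ∈ (⋀[F]^m (J → F) : Submodule F (EA F J))) :
    ParE i f := by
  intro A B hB
  rcases h A.card (bE F J A) (bE_mem A) with h0 | ⟨m, hm, h1⟩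
  · rw [h0, map_zero, Finsupp.zero_apply] at hB
    exact absurd rfl hB
  · rw [repr_of_mem m _ h1 B hB, hm]

private theorem ctr_mem30 (j : J) (n : ℕ) : ∀ x : EA F J,
    x ∈ (⋀[F]^n (J → F) : Submodule F (EA F J)) →
    (n = 0 → (ctr j : EA F J →ₗ[F] EA F J) x = 0) ∧ (∀ k, n = k + 1 →
      (ctr j : EA F J →ₗ[F] EA F J) x ∈ (⋀[F]^k (J → F) : Submodule F (EA F J))) := by
  induction n with
  | zero =>
    intro x hx
    refine ⟨fun _ => ?_, fun k hk => absurd hk (by omega)⟩
    rw [ExteriorAlgebra.exteriorPower, pow_zero, Submodule.mem_one] at hx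
    obtain ⟨c, rfl⟩ := hx
    exact CliffordAlgebra.contractLeft_algebraMap (Q := (0 : QuadraticForm F (J → F))) _ c
  | succ n ih =>
    intro x hx
    refine ⟨fun h => absurd h (by omega), fun k hk => ?_⟩
    obtain rfl : n = k := by omega
    rw [ExteriorAlgebra.exteriorPower, pow_succ'] at hx
    induction hx using Submodule.mul_induction_on' with
    | mem_mul_mem m hm y hy =>
      obtain ⟨v, rfl⟩ := hm
      have h := CliffordAlgebra.contractLeft_ι_mul (Q := (0 : QuadraticForm F (J → F)))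
        (LinearMap.proj j) v y
      have h' : (ctr j : EA F J →ₗ[F] EA F J) (ExteriorAlgebra.ι F v * y) =
        v j • y - ExteriorAlgebra.ι F v * ((ctr j : EA F J →ₗ[F] EA F J) y) := h
      rw [h']
      refine Submodule.sub_mem _ (Submodule.smul_mem _ _ hy) ?_
      cases n with
      | zero => rw [(ih y hy).1 rfl, mul_zero]; exact Submodule.zero_mem _
      | succ l =>
        rw [ExteriorAlgebra.exteriorPower, pow_succ']
        exact Submodule.mul_mem_mul (LinearMap.mem_range_self _ _) ((ih y hy).2 l rfl)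
    | add a _ b _ ha hb => rw [map_add]; exact Submodule.add_mem _ ha hb

theorem parE_ctr (j : J) : ParE 1 (ctr j : EA F J →ₗ[F] EA F J) := by
  refine parE_of30 _ fun n x hx => ?_
  cases n with
  | zero => exact Or.inl ((ctr_mem30 j 0 x hx).1 rfl)
  | succ k =>
    refine Or.inr ⟨k, ?_, (ctr_mem30 j (k + 1) x hx).2 k rfl⟩
    rw [Nat.cast_succ, add_assoc, show (1 : ZMod 2) + 1 = 0 by decide, add_zero]

theorem parE_wdg (v : J → F) : ParE 1 (wdg v : EA F J →ₗ[F] EA F J) := by
  refine parE_of30 _ fun n x hx => Or.inr ⟨n + 1, by rw [Nat.cast_succ], ?_⟩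
  rw [ExteriorAlgebra.exteriorPower, pow_succ']
  exact Submodule.mul_mem_mul (LinearMap.mem_range_self _ _) hx

theorem parE_mpE (f : (J → F) →ₗ[F] (J → F)) : ParE 0 (mpE f) := by
  refine parE_of30 _ fun n x hx => Or.inr ⟨n, by rw [add_zero], ?_⟩
  have h1 : mpE f x ∈ Submodule.map (ExteriorAlgebra.map f).toLinearMap
      ((LinearMap.range (ExteriorAlgebra.ι F : (J → F) →ₗ[F] EA F J)) ^ n) :=
    ⟨x, hx, rfl⟩
  rw [Submodule.map_pow] at h1
  suffices h2 : Submodule.map (ExteriorAlgebra.map f).toLinearMap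
      (LinearMap.range (ExteriorAlgebra.ι F : (J → F) →ₗ[F] EA F J)) ≤
      LinearMap.range (ExteriorAlgebra.ι F : (J → F) →ₗ[F] EA F J) from
    SetLike.le_def.mp (pow_le_pow_left' h2 n) h1
  rintro y ⟨z, ⟨v, rfl⟩, rfl⟩
  refine ⟨f v, ?_⟩
  exact (ExteriorAlgebra.map_apply_ι f v).symm

theorem parE_opE {i : ZMod 2} {f : EA F J →ₗ[F] EA F J} (hf : ParE i f) (x : Finset J → Z)
    (k : ZMod 2) (hx : ∀ A, (A.card : ZMod 2) ≠ k → x A = 0) (B : Finset J)
    (hB : (B.card : ZMod 2) ≠ k + i) : opE f x B = 0 := by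
  unfold opE
  refine Finset.sum_eq_zero fun A _ => ?_
  by_cases h : (bE F J).repr (f (bE F J A)) B = 0
  · rw [h, zero_smul]
  · have h1 := hf A B h
    by_cases h2 : (A.card : ZMod 2) = k
    · rw [h2] at h1
      exact absurd h1 hB
    · rw [hx A h2, smul_zero]

end MSA
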