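import Mathlib

/-!
# Skew rings given by semilinear generators

`S` a commutative ring, `φ : Γ → S →+* S`. A module over `Rg φ` is an `S`-module together with an
additive map for every `g : Γ` that is semilinear with respect to `φ g`.
-/

set_option autoImplicit false

noncomputable section

namespace MSA

universe u v w

/-- The free monoid on `Γ`, acting on `S` through `φ`. -/
def FM {S : Type u} [CommRing S] {Γ : Type v} (_φ : Γ → S →+* S) : Type v := FreeMonoid Γ

section

variable {S : Type u} [CommRing S] {Γ : Type v} (φ : Γ → S →+* S)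

instance : Monoid (FM φ) := inferInstanceAs (Monoid (FreeMonoid Γ))

/-- the action of the free monoid -/
def actHom : FM φ →* (S →+* S) := (FreeMonoid.lift φ : FreeMonoid Γ →* (S →+* S))

instance : MulSemiringAction (FM φ) S := MulSemiringAction.compHom S (actHom φ)

/-- generators of the monoid -/
def fmOf (g : Γ) : FM φ := FreeMonoid.of g

theorem fm_induction {P : FM φ → Prop} (m : FM φ) (h1 : P 1) (h : ∀ g m, P m → P (fmOf φ g * m)) :
    P m := by
  have := @FreeMonoid.recOn Γ P m h1 h
  exact this

theorem act_of (g : Γ) (s : S) : fmOf φ g • s = φ g s := by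
  show (FreeMonoid.lift φ (FreeMonoid.of g)) s = _
  rw [FreeMonoid.lift_eval_of]

/-- The skew ring. -/
def Rg : Type (max u v) := SkewMonoidAlgebra S (FM φ)

instance : Ring (Rg φ) := inferInstanceAs (Ring (SkewMonoidAlgebra S (FM φ)))

/-- monomials -/
def rgS (m : FM φ) (s : S) : Rg φ := SkewMonoidAlgebra.single m s

theorem rgS_mul (m n : FM φ) (s t : S) : rgS φ m s * rgS φ n t = rgS φ (m * n) (s * (m • t)) :=
  SkewMonoidAlgebra.single_mul_single

/-- the generator `g` -/
def gam (g : Γ) : Rg φ := rgS φ (fmOf φ g) 1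

/-- the inclusion of `S` -/
def iot : S →+* Rg φ where
  toFun s := rgS φ 1 s
  map_one' := rfl
  map_mul' a b := by
    rw [rgS_mul, one_smul, one_mul]
  map_zero' := SkewMonoidAlgebra.single_zero _
  map_add' a b := SkewMonoidAlgebra.single_add _ a b

theorem gam_mul_iot (g : Γ) (s : S) : gam φ g * iot φ s = iot φ (φ g s) * gam φ g := by
  show rgS φ _ _ * rgS φ 1 s = rgS φ 1 (φ g s) * rgS φ _ _
  rw [rgS_mul, rgS_mul, act_of]
  simp

/-- Every element of the skew ring lies in the subring generated by `S` and `Γ`. -/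
theorem rg_induction {P : Rg φ → Prop} (x : Rg φ) (hS : ∀ s, P (iot φ s)) (hg : ∀ g, P (gam φ g))
    (hadd : ∀ x y, P x → P y → P (x + y)) (hmul : ∀ x y, P x → P y → P (x * y)) : P x := by
  have key : ∀ m : FM φ, P (rgS φ m 1) := by
    intro m
    refine fm_induction φ (P := fun m => P (rgS φ m 1)) m (hS 1) ?_
    intro g m hm
    have h1 := hmul _ _ (hg g) hm
    have h2 : gam φ g * rgS φ m 1 = rgS φ (fmOf φ g * m) 1 := by
      show rgS φ _ _ * _ = _
      rw [rgS_mul]
      simp
    rw [h2] at h1
    exact h1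
  refine SkewMonoidAlgebra.induction_on' (p := P) x ?_ ?_
  · intro m s
    have h1 := hmul _ _ (hS s) (key m)
    have h2 : iot φ s * rgS φ m 1 = rgS φ m s := by
      show rgS φ _ _ * _ = _
      rw [rgS_mul]
      simp
    rw [h2] at h1
    exact h1
  · intro x y hx hy
    exact hadd _ _ hx hy

/-- operators of the monoid -/
def fmHom {A : Type w} [Ring A] (f : Γ → A) : FM φ →* A :=
  (FreeMonoid.lift f : FreeMonoid Γ →* A)

theorem fmHom_of {A : Type w} [Ring A] (f : Γ → A) (g : Γ) :
    fmHom φ f (fmOf φ g) = f g := FreeMonoid.lift_eval_of f g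

/-- The ring homomorphism from the skew ring given by an image of `S` and of the generators. -/
def rgHom {A : Type w} [Ring A] (a : S →+* A) (f : Γ → A)
    (h : ∀ g s, f g * a s = a (φ g s) * f g) : Rg φ →+* A :=
  SkewMonoidAlgebra.liftNCRingHom a (fmHom φ f) (by
      intro s m
      refine fm_induction φ (P := fun m : FM φ => ∀ s : S,
        a (m • s) * (fmHom φ f m) = (fmHom φ f m) * a s) m ?_ ?_ s
      · intro s
        rw [one_smul, map_one]
        simp
      · intro g m hm s
        rw [map_mul, fmHom_of, mul_smul, act_of, mul_assoc, ← hm s, ← mul_assoc, ← mul_assoc, h])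

theorem rgHom_iot {A : Type w} [Ring A] (a : S →+* A) (f : Γ → A)
    (h : ∀ g s, f g * a s = a (φ g s) * f g) (s : S) :
    rgHom φ a f h (iot φ s) = a s := by
  show SkewMonoidAlgebra.liftNC (a : S →+ A) (fmHom φ f)
    (SkewMonoidAlgebra.single (1 : FM φ) s) = _
  rw [SkewMonoidAlgebra.liftNC_single, map_one, mul_one]
  rfl

theorem rgHom_gam {A : Type w} [Ring A] (a : S →+* A) (f : Γ → A)
    (h : ∀ g s, f g * a s = a (φ g s) * f g) (g : Γ) :
    rgHom φ a f h (gam φ g) = f g := by
  show SkewMonoidAlgebra.liftNC (a : S →+ A) (fmHom φ f)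
    (SkewMonoidAlgebra.single (fmOf φ g) (1 : S)) = _
  rw [SkewMonoidAlgebra.liftNC_single, fmHom_of]
  have h2 : ((a : S →+ A)) 1 = 1 := map_one a
  rw [h2, one_mul]

/-- Modules over the skew ring from semilinear operators. -/
@[reducible] def rgModule {M : Type w} [AddCommGroup M] (a : S →+* AddMonoid.End M)
    (f : Γ → AddMonoid.End M)
    (h : ∀ g s m, f g (a s m) = a (φ g s) (f g m)) : Module (Rg φ) M :=
  Module.compHom M (rgHom φ a f (fun g s => by ext m; exact h g s m))

theorem rgModule_iot {M : Type w} [AddCommGroup M] (a : S →+* AddMonoid.End M)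
    (f : Γ → AddMonoid.End M) (h : ∀ g s m, f g (a s m) = a (φ g s) (f g m)) (s : S) (m : M) :
    letI := rgModule φ a f h
    iot φ s • m = a s m := by
  show (rgHom φ a f (fun g s => by ext m; exact h g s m) (iot φ s)) m = _
  rw [rgHom_iot]

theorem rgModule_gam {M : Type w} [AddCommGroup M] (a : S →+* AddMonoid.End M)
    (f : Γ → AddMonoid.End M) (h : ∀ g s m, f g (a s m) = a (φ g s) (f g m)) (g : Γ) (m : M) :
    letI := rgModule φ a f h
    gam φ g • m = f g m := by
  show (rgHom φ a f (fun g s => by ext m; exact h g s m) (gam φ g)) m = _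
  rw [rgHom_gam]

end

section lin

variable {S : Type u} [CommRing S] {Γ : Type v} {φ : Γ → S →+* S}
variable {M N : Type*} [AddCommGroup M] [AddCommGroup N] [Module (Rg φ) M] [Module (Rg φ) N]

/-- An additive map that commutes with `S` and `Γ` is linear over the skew ring. -/
def mkLin (f : M →+ N) (hS : ∀ (s : S) m, f (iot φ s • m) = iot φ s • f m)
    (hg : ∀ (g : Γ) m, f (gam φ g • m) = gam φ g • f m) : M →ₗ[Rg φ] N where
  toFun := f
  map_add' := map_add f
  map_smul' r m := by
    revert m
    refine rg_induction φ (P := fun r => ∀ m, f (r • m) = (RingHom.id (Rg φ)) r • f m) r ?_ ?_ ?_ ?_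
    · intro s m; exact hS s m
    · intro g m; exact hg g m
    · intro x y hx hy m
      have h1 := hx m
      have h2 := hy m
      simp only [RingHom.id_apply] at h1 h2 ⊢
      rw [add_smul, map_add, h1, h2, add_smul]
    · intro x y hx hy m
      have h1 := hx (y • m)
      have h2 := hy m
      simp only [RingHom.id_apply] at h1 h2 ⊢
      rw [mul_smul, h1, h2, mul_smul]

@[simp] theorem mkLin_apply (f : M →+ N) (hS : ∀ (s : S) m, f (iot φ s • m) = iot φ s • f m)
    (hg : ∀ (g : Γ) m, f (gam φ g • m) = gam φ g • f m) (m : M) : mkLin f hS hg m = f m := rfl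

/-- A subgroup that is stable under `S` and `Γ` is a submodule over the skew ring. -/
def mkSub (N : AddSubgroup M) (hS : ∀ (s : S), ∀ m ∈ N, iot φ s • m ∈ N)
    (hg : ∀ (g : Γ), ∀ m ∈ N, gam φ g • m ∈ N) : Submodule (Rg φ) M where
  carrier := N
  add_mem' := N.add_mem
  zero_mem' := N.zero_mem
  smul_mem' r m hm := by
    revert m
    refine rg_induction φ (P := fun r => ∀ m, m ∈ (N : Set M) → r • m ∈ (N : Set M)) r ?_ ?_ ?_ ?_
    · intro s m hm; exact hS s m hm
    · intro g m hm; exact hg g m hm
    · intro x y hx hy m hm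
      rw [add_smul]
      exact N.add_mem (hx m hm) (hy m hm)
    · intro x y hx hy m hm
      rw [mul_smul]
      exact hx _ (hy m hm)

@[simp] theorem mem_mkSub (N : AddSubgroup M) (hS : ∀ (s : S), ∀ m ∈ N, iot φ s • m ∈ N)
    (hg : ∀ (g : Γ), ∀ m ∈ N, gam φ g • m ∈ N) (m : M) : m ∈ mkSub N hS hg ↔ m ∈ N := Iff.rfl

end lin

end MSA
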