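import Mathlib
import Pool.Agent.MSA.Rg
import Pool.Agent.MSA.Ch
import Pool.Agent.MSA.Ctm
import Pool.Agent.MSA.Par

/-!
# Koszul complexes with semilinear operators

`K : KS F φ` consists of a finite ordered set `J`, operators `rho g` on `F^J` and elements
`y j` of `S` with `φ g (y j) = ∑ i, (rho g e_j)_i * y i`.
`K.ch Z` is the Koszul complex `Λ(F^J) ⊗_F Z` as a `ℤ/2`-graded complex over `Rg φ`.
-/

set_option autoImplicit false
set_option linter.unusedSectionVars false

noncomputable section

namespace MSA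

universe u v w

/-- Koszul data. -/
structure KS (F : Type u) [Field F] {S : Type u} [CommRing S] [Algebra F S] {Γ : Type u}
    (φ : Γ → S →+* S) where
  J : Type
  [fJ : Fintype J]
  [lJ : LinearOrder J]
  rho : Γ → ((J → F) →ₗ[F] (J → F))
  y : J → S
  hy : ∀ g j, φ g (y j) = ∑ i, algebraMap F S (rho g (Pi.single j 1) i) * y i

attribute [instance] KS.fJ KS.lJ

/-- the generators act `F`-linearly on `S` -/
class FixF (F : Type u) [Field F] {S : Type u} [CommRing S] [Algebra F S] {Γ : Type u}
    (φ : Γ → S →+* S) : Prop where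
  fix : ∀ g (c : F), φ g (algebraMap F S c) = algebraMap F S c

/-- The `F`-space underlying a module over the skew ring. -/
@[reducible] def modF (F : Type u) [Field F] {S : Type u} [CommRing S] [Algebra F S] {Γ : Type u}
    (φ : Γ → S →+* S) (Z : Type u) [AddCommGroup Z] [Module (Rg φ) Z] : Module F Z :=
  Module.compHom Z ((iot φ).comp (algebraMap F S))

/-- The `S`-module underlying a module over the skew ring. -/
@[reducible] def modS {S : Type u} [CommRing S] {Γ : Type u}
    (φ : Γ → S →+* S) (Z : Type u) [AddCommGroup Z] [Module (Rg φ) Z] : Module S Z :=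
  Module.compHom Z (iot φ)

section

variable {F : Type u} [Field F] {S : Type u} [CommRing S] [Algebra F S] {Γ : Type u}
variable {φ : Γ → S →+* S} (K : KS F φ)
variable (Z : Type u) [AddCommGroup Z] [Module (Rg φ) Z]

/-- The total space of the Koszul complex. -/
def KS.Tot (K : KS F φ) (Z : Type u) : Type u := Finset K.J → Z

instance : AddCommGroup (K.Tot Z) := inferInstanceAs (AddCommGroup (Finset K.J → Z))

variable {Z}

/-- operators from the exterior algebra -/
def KS.op (f : EA F K.J →ₗ[F] EA F K.J) : K.Tot Z →+ K.Tot Z :=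
  letI := modF F φ Z
  { toFun := fun x => opE f x
    map_zero' := opE_zero_right f
    map_add' := fun x y => opE_add_right f x y }

theorem KS.op_apply (f : EA F K.J →ₗ[F] EA F K.J) (x : K.Tot Z) (B : Finset K.J) :
    K.op f x B = ∑ A, iot φ (algebraMap F S ((bE F K.J).repr (f (bE F K.J A)) B)) • x A := rfl

/-- multiplication by elements of `S`, as additive endomorphisms -/
def KS.sa : S →+* AddMonoid.End (K.Tot Z) where
  toFun s := { toFun := fun x A => iot φ s • x A
               map_zero' := by funext A; exact smul_zero _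
               map_add' := fun x y => by funext A; exact smul_add _ _ _ }
  map_one' := by ext x; funext A; show iot φ 1 • x A = x A; rw [map_one, one_smul]
  map_mul' s t := by
    ext x; funext A; show iot φ (s * t) • x A = iot φ s • iot φ t • x A; rw [map_mul, mul_smul]
  map_zero' := by ext x; funext A; show iot φ 0 • x A = 0; rw [map_zero, zero_smul]
  map_add' s t := by
    ext x; funext A; show iot φ (s + t) • x A = iot φ s • x A + iot φ t • x A
    rw [map_add, add_smul]

/-- the generators, as additive endomorphisms -/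
def KS.ga (g : Γ) : AddMonoid.End (K.Tot Z) :=
  (K.op (Z := Z) (mpE (K.rho g))).comp
    { toFun := fun x A => gam φ g • x A
      map_zero' := by funext A; exact smul_zero _
      map_add' := fun x y => by funext A; exact smul_add _ _ _ }

theorem KS.ga_sa (g : Γ) (s : S) (x : K.Tot Z) :
    K.ga g (K.sa s x) = K.sa (φ g s) (K.ga g x) := by
  funext B
  show ∑ A, iot φ _ • gam φ g • iot φ s • x A = iot φ (φ g s) • ∑ A, iot φ _ • gam φ g • x A
  rw [Finset.smul_sum]
  refine Finset.sum_congr rfl fun A _ => ?_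
  rw [← mul_smul (gam φ g), gam_mul_iot, mul_smul, ← mul_smul, ← mul_smul (iot φ (φ g s)), ← map_mul,
    ← map_mul, mul_comm]

instance KS.modTot : Module (Rg φ) (K.Tot Z) := rgModule φ K.sa K.ga K.ga_sa

theorem KS.iot_smul (s : S) (x : K.Tot Z) (A : Finset K.J) :
    (iot φ s • x) A = iot φ s • x A :=
  congrFun (rgModule_iot φ K.sa K.ga K.ga_sa s x) A

theorem KS.gam_smul (g : Γ) (x : K.Tot Z) (B : Finset K.J) :
    (gam φ g • x) B = ∑ A, iot φ (algebraMap F S ((bE F K.J).repr
      (mpE (K.rho g) (bE F K.J A)) B)) • gam φ g • x A :=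
  congrFun (rgModule_gam φ K.sa K.ga K.ga_sa g x) B

theorem KS.op_iot (f : EA F K.J →ₗ[F] EA F K.J) (s : S) (x : K.Tot Z) :
    K.op f (iot φ s • x) = iot φ s • K.op f x := by
  funext B
  rw [K.iot_smul, K.op_apply, K.op_apply, Finset.smul_sum]
  refine Finset.sum_congr rfl fun A _ => ?_
  rw [K.iot_smul, ← mul_smul, ← mul_smul, ← map_mul, ← map_mul, mul_comm]

theorem KS.op_comp (f g : EA F K.J →ₗ[F] EA F K.J) (x : K.Tot Z) :
    K.op f (K.op g x) = K.op (f ∘ₗ g) x :=
  letI := modF F φ Z
  opE_comp f g x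

theorem KS.op_id (x : K.Tot Z) : K.op LinearMap.id x = x :=
  letI := modF F φ Z
  opE_id x

theorem KS.op_add (f g : EA F K.J →ₗ[F] EA F K.J) (x : K.Tot Z) :
    K.op (f + g) x = K.op f x + K.op g x :=
  letI := modF F φ Z
  opE_add_left f g x

theorem KS.op_smul (c : F) (f : EA F K.J →ₗ[F] EA F K.J) (x : K.Tot Z) :
    K.op (c • f) x = iot φ (algebraMap F S c) • K.op f x := by
  letI := modF F φ Z
  funext B
  rw [K.iot_smul]
  exact congrFun (opE_smul_left c f x) B

theorem KS.op_sum {α : Type*} (s : Finset α) (f : α → EA F K.J →ₗ[F] EA F K.J) (x : K.Tot Z) :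
    K.op (∑ a ∈ s, f a) x = ∑ a ∈ s, K.op (f a) x :=
  letI := modF F φ Z
  opE_sum_left s f x

/-- pointwise action of the generators commutes with `op` -/
theorem KS.op_gam_pt [FixF F φ] (f : EA F K.J →ₗ[F] EA F K.J) (g : Γ) (x : K.Tot Z) :
    K.op f (fun A => gam φ g • x A : K.Tot Z) = fun B => gam φ g • K.op f x B := by
  funext B
  rw [K.op_apply, K.op_apply, Finset.smul_sum]
  refine Finset.sum_congr rfl fun A _ => ?_
  rw [← mul_smul, ← mul_smul, gam_mul_iot, FixF.fix]

theorem KS.gam_smul' (g : Γ) (x : K.Tot Z) :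
    gam φ g • x = K.op (mpE (K.rho g)) (fun A => gam φ g • x A : K.Tot Z) := by
  funext B
  exact K.gam_smul g x B

/-- the differential as an additive map -/
def KS.da (K : KS F φ) : K.Tot Z →+ K.Tot Z where
  toFun x := ∑ j, iot φ (K.y j) • K.op (ctr j) x
  map_zero' := by simp
  map_add' x y := by simp [smul_add, Finset.sum_add_distrib]

theorem KS.da_apply (x : K.Tot Z) : K.da x = ∑ j, iot φ (K.y j) • K.op (ctr j) x := rfl

theorem KS.da_iot (s : S) (x : K.Tot Z) : K.da (iot φ s • x) = iot φ s • K.da x := by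
  rw [K.da_apply, K.da_apply, Finset.smul_sum]
  refine Finset.sum_congr rfl fun j _ => ?_
  rw [K.op_iot, ← mul_smul, ← mul_smul, ← map_mul, ← map_mul, mul_comm]

theorem KS.da_gam [FixF F φ] (g : Γ) (x : K.Tot Z) : K.da (gam φ g • x) = gam φ g • K.da x := by
  rw [K.da_apply, K.da_apply, Finset.smul_sum]
  have h1 : ∀ j, gam φ g • iot φ (K.y j) • K.op (ctr j) x =
      ∑ i, iot φ (K.y i) • iot φ (algebraMap F S (K.rho g (Pi.single j 1) i)) •
        K.op (mpE (K.rho g) ∘ₗ ctr j) (fun A => gam φ g • x A : K.Tot Z) := by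
    intro j
    rw [← mul_smul, gam_mul_iot, mul_smul, K.hy, map_sum, Finset.sum_smul]
    refine Finset.sum_congr rfl fun i _ => ?_
    rw [← mul_smul (iot φ (K.y i)), ← map_mul, mul_comm (K.y i)]
    congr 1
    rw [K.gam_smul', ← K.op_comp, K.op_gam_pt (ctr j)]
  have h2 : ∀ j, iot φ (K.y j) • K.op (ctr j) (gam φ g • x) =
      ∑ i, iot φ (K.y j) • iot φ (algebraMap F S (K.rho g (Pi.single i 1) j)) •
        K.op (mpE (K.rho g) ∘ₗ ctr i) (fun A => gam φ g • x A : K.Tot Z) := by
    intro j
    rw [K.gam_smul', K.op_comp, ctr_mpE, K.op_sum, Finset.smul_sum]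
    refine Finset.sum_congr rfl fun i _ => ?_
    rw [K.op_smul]
  rw [Finset.sum_congr rfl fun j _ => h1 j, Finset.sum_congr rfl fun j _ => h2 j,
    Finset.sum_comm]

theorem KS.da_da (x : K.Tot Z) : K.da (K.da x) = 0 := by
  have h1 : K.da (K.da x) = ∑ q : K.J × K.J,
      iot φ (K.y q.1 * K.y q.2) • K.op (ctr q.1 ∘ₗ ctr q.2) x := by
    rw [Fintype.sum_prod_type, K.da_apply]
    refine Finset.sum_congr rfl fun j _ => ?_
    rw [K.da_apply, map_sum, Finset.smul_sum]
    refine Finset.sum_congr rfl fun i _ => ?_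
    rw [K.op_iot, K.op_comp, map_mul, mul_smul]
  rw [h1]
  refine Finset.sum_involution (fun q _ => (q.2, q.1)) ?_ ?_ (fun _ _ => Finset.mem_univ _)
    (fun _ _ => rfl)
  · rintro ⟨i, j⟩ _
    show iot φ (K.y i * K.y j) • K.op (ctr i ∘ₗ ctr j) x +
      iot φ (K.y j * K.y i) • K.op (ctr j ∘ₗ ctr i) x = 0
    rw [mul_comm (K.y j), ← smul_add, ← K.op_add, ctr_comm i j, neg_add_cancel]
    have : K.op (0 : EA F K.J →ₗ[F] EA F K.J) x = 0 := by
      letI := modF F φ Z
      exact opE_zero_left x
    rw [this, smul_zero]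
  · rintro ⟨i, j⟩ _ h h2
    have h3 : j = i := congrArg Prod.fst h2
    subst h3
    apply h
    show iot φ (K.y j * K.y j) • K.op (ctr j ∘ₗ ctr j) x = 0
    have : K.op (0 : EA F K.J →ₗ[F] EA F K.J) x = 0 := by
      letI := modF F φ Z
      exact opE_zero_left x
    rw [ctr_sq, this, smul_zero]

/-- the differential -/
def KS.d [FixF F φ] : K.Tot Z →ₗ[Rg φ] K.Tot Z := mkLin K.da K.da_iot K.da_gam

variable (Z)

/-- even (`i = 0`) and odd (`i = 1`) parts -/
def KS.part (i : ZMod 2) : Submodule (Rg φ) (K.Tot Z) :=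
  mkSub { carrier := {x : K.Tot Z | ∀ A : Finset K.J, (A.card : ZMod 2) ≠ i → x A = 0}
          zero_mem' := fun A _ => rfl
          add_mem' := fun {x y} hx hy A hA => by
            show x A + y A = 0
            rw [hx A hA, hy A hA, add_zero]
          neg_mem' := fun {x} hx A hA => by
            show - x A = 0
            rw [hx A hA, neg_zero] }
    (fun s x hx A hA => by
      rw [K.iot_smul, hx A hA, smul_zero])
    (fun g x hx A hA => by
      rw [K.gam_smul']
      letI := modF F φ Z
      refine parE_opE (parE_mpE (K.rho g)) (fun A => gam φ g • x A) i ?_ A (by rw [add_zero]; exact hA)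
      intro B hB
      rw [hx B hB, smul_zero])

theorem KS.mem_part {i : ZMod 2} {x : K.Tot Z} :
    x ∈ K.part Z i ↔ ∀ A : Finset K.J, (A.card : ZMod 2) ≠ i → x A = 0 := Iff.rfl

theorem KS.d_mem [FixF F φ] {i : ZMod 2} {x : K.Tot Z} (hx : x ∈ K.part Z i) :
    K.d x ∈ K.part Z (i + 1) := by
  letI := modF F φ Z
  intro A hA
  show (∑ j, iot φ (K.y j) • K.op (ctr j) x) A = 0
  rw [show (∑ j, iot φ (K.y j) • K.op (ctr j) x) A = ∑ j, (iot φ (K.y j) • K.op (ctr j) x) A from
    Finset.sum_apply A Finset.univ (fun j => (iot φ (K.y j) • K.op (ctr j) x : Finset K.J → Z))]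
  refine Finset.sum_eq_zero fun j _ => ?_
  rw [K.iot_smul]
  have := parE_opE (parE_ctr (F := F) j) x i hx A hA
  have h2 : K.op (ctr j) x A = 0 := this
  rw [h2, smul_zero]

/-- The Koszul complex. -/
def KS.ch [FixF F φ] : Ch.{u} (Rg φ) where
  X0 := K.part Z 0
  X1 := K.part Z 1
  d0 := K.d.restrict (fun x hx => by
    have := K.d_mem Z (i := 0) hx
    rwa [zero_add] at this)
  d1 := K.d.restrict (fun x hx => by
    have := K.d_mem Z (i := 1) hx
    rwa [show (1 : ZMod 2) + 1 = 0 from rfl] at this)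
  h10 := fun x => Subtype.ext (K.da_da x.1)
  h01 := fun x => Subtype.ext (K.da_da x.1)

end

end MSA
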