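import Mathlib
import Pool.Agent.MSA.Kos
import Pool.Agent.MSX.Defs

/-!
# The basic data: `F`, `L`, `p`, `σ`, `b`, the ring `S = L[x_0, ..., x_{p-1}]`, graded modules
-/

set_option autoImplicit false
set_option linter.unusedSectionVars false

noncomputable section

namespace MSA

universe u v w

/-- The basic data: bundled version of `Pool.Agent.MSX.Dat`. -/
structure Dat where
  F : Type u
  L : Type u
  [iF : Field F]
  [iL : Field L]
  [iA : Algebra F L]
  p : ℕ
  X : Pool.Agent.MSX.Dat p F L
  hd : X.Div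
  hinf : Infinite F

attribute [instance] Dat.iF Dat.iL Dat.iA Dat.hinf

/-- generators: `τ` and `θ_c`, `c ∈ Fˣ` -/
inductive Gn (F : Type u) [Field F] : Type u
  | tau : Gn F
  | th (c : Fˣ) : Gn F

/-- generators of the second ring: the previous ones and the cyclic shift -/
inductive Gk (F : Type u) [Field F] : Type u
  | bs (g : Gn F) : Gk F
  | cyc : Gk F

namespace Dat

variable (D : Dat.{u})

instance : Fact D.p.Prime := ⟨D.X.hp⟩

instance : NeZero D.p := ⟨D.X.hp.ne_zero⟩

/-- the generator of the Galois group -/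
abbrev s : D.L ≃ₐ[D.F] D.L := D.X.s

/-- the element `b` -/
abbrev b : D.F := D.X.b

/-- the polynomial ring -/
abbrev S : Type u := MvPolynomial (Fin D.p) D.L

/-- coefficient of `τ x_i = cf (i+1) * x_{i+1}` -/
def cf (i : Fin D.p) : D.F := if i = 0 then D.b else 1

/-- `τ` on `S` -/
def tauS : D.S →+* D.S := D.X.sig

theorem tauS_C (c : D.L) : D.tauS (MvPolynomial.C c) = MvPolynomial.C (D.s c) := D.X.sig_C c

theorem val_succ (i : Fin D.p) : (i + 1).val = (i.val + 1) % D.p := by
  rw [Fin.val_add]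
  have h1 : 1 < D.p := D.X.hp.one_lt
  have : ((1 : Fin D.p) : ℕ) = 1 := by
    rw [Fin.val_one', Nat.mod_eq_of_lt h1]
  rw [this]

theorem tauS_X (i : Fin D.p) : D.tauS (MvPolynomial.X i) =
    MvPolynomial.C (algebraMap D.F D.L (D.cf (i + 1))) * MvPolynomial.X (i + 1) := by
  by_cases h : i.val + 1 < D.p
  · have h1 : i + 1 = ⟨i.val + 1, h⟩ := by
      apply Fin.ext
      rw [val_succ, Nat.mod_eq_of_lt h]
    have h2 : i + 1 ≠ 0 := by
      rw [h1]
      intro h3
      have := congrArg Fin.val h3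
      simp at this
    rw [cf, if_neg h2, map_one, map_one, one_mul, h1]
    exact D.X.sig_X_lt h
  · have h1 : i + 1 = 0 := by
      apply Fin.ext
      have h3 : i.val + 1 = D.p := by omega
      rw [val_succ, h3, Nat.mod_self]
      rfl
    rw [h1, cf, if_pos rfl]
    exact D.X.sig_X_last h

/-- `θ_c` on `S` -/
def thS (c : D.Fˣ) : D.S →+* D.S :=
  MvPolynomial.eval₂Hom MvPolynomial.C
    (fun i => MvPolynomial.C (algebraMap D.F D.L (c : D.F)) * MvPolynomial.X i)

/-- all generators on `S` -/
def ph : Gn D.F → D.S →+* D.S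
  | Gn.tau => D.tauS
  | Gn.th c => D.thS c

/-- the skew ring -/
abbrev R : Type u := Rg D.ph

end Dat

/-- Weights: a type of generators that contains the `θ_c` and `τ`. -/
class HasTh (F : Type u) [Field F] (Γ : Type u) where
  th : Fˣ → Γ
  tau : Γ

instance (F : Type u) [Field F] : HasTh F (Gn F) := ⟨Gn.th, Gn.tau⟩

instance (F : Type u) [Field F] : HasTh F (Gk F) := ⟨fun c => Gk.bs (Gn.th c), Gk.bs Gn.tau⟩

section weights

variable {F : Type u} [Field F] {S : Type u} [CommRing S] [Algebra F S] {Γ : Type u} [HasTh F Γ]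
variable (F) (φ : Γ → S →+* S) (M : Type u) [AddCommGroup M] [Module (Rg φ) M]

/-- the subgroup of elements of weight `n` -/
def wt (n : ℤ) : AddSubgroup M where
  carrier := {m | ∀ c : Fˣ, gam φ (HasTh.th c) • m =
    iot φ (algebraMap F S ((c ^ n : Fˣ) : F)) • m}
  zero_mem' := fun c => by rw [smul_zero, smul_zero]
  add_mem' := fun {x y} hx hy c => by rw [smul_add, smul_add, hx c, hy c]
  neg_mem' := fun {x} hx c => by rw [smul_neg, smul_neg, hx c]

/-- `M` is the sum of its weight spaces, `τ` preserves weights and `τ^p = b^n` in weight `n`,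
weights are bounded below. -/
structure Wts (p : ℕ) (b : F) : Prop where
  span : (⨆ n, wt F φ M n) = ⊤
  tau : ∀ n, ∀ m ∈ wt F φ M n, gam φ (HasTh.tau F) • m ∈ wt F φ M n
  taup : ∀ n, ∀ m ∈ wt F φ M n, (gam φ (HasTh.tau F)) ^ p • m =
    iot φ (algebraMap F S (b ^ n)) • m

/-- finitely generated over `S` -/
def FinS {S : Type u} [CommRing S] {Γ : Type u} (φ : Γ → S →+* S) (M : Type u) [AddCommGroup M]
    [Module (Rg φ) M] : Prop :=
  @Module.Finite S M _ _ (modS φ M)

end weights

namespace Dat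

variable (D : Dat.{u})

section

variable (M : Type u) [AddCommGroup M] [Module D.R M]

/-- `M_n` as a vector space over `L` -/
def wtL (n : ℤ) : @Submodule D.L M _ _ (Module.compHom M ((iot D.ph).comp MvPolynomial.C)) :=
  letI := Module.compHom M ((iot D.ph).comp (MvPolynomial.C : D.L →+* D.S))
  { carrier := wt D.F D.ph M n
    zero_mem' := (wt D.F D.ph M n).zero_mem
    add_mem' := fun hx hy => (wt D.F D.ph M n).add_mem hx hy
    smul_mem' := by
      intro l m hm c
      show gam D.ph (HasTh.th c) • (iot D.ph (MvPolynomial.C l)) • m = _ • (iot D.ph _) • m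
      rw [← mul_smul, gam_mul_iot]
      have h1 : D.ph (HasTh.th c) (MvPolynomial.C l) = MvPolynomial.C l := by
        show MvPolynomial.eval₂Hom _ _ (MvPolynomial.C l) = _
        simp
      rw [h1, mul_smul, hm c, ← mul_smul, ← mul_smul, ← map_mul, ← map_mul, mul_comm] }

/-- the Hilbert function `n ↦ dim_L M_n` -/
def hf (n : ℤ) : ℕ :=
  @Module.finrank D.L (D.wtL M n) _ _ (@Submodule.module _ _ _ _
    (Module.compHom M ((iot D.ph).comp MvPolynomial.C)) (D.wtL M n))

/-- graded modules (objects) -/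
structure IsG : Prop where
  fin : FinS D.ph M
  wts : Wts D.F D.ph M D.p D.b

/-- `κ = (1 - q)^p * ∑ h(n) q^n`, as a function -/
def kap (n : ℤ) : ℤ := ∑ j ∈ Finset.range (D.p + 1), (-1) ^ j * (D.p.choose j : ℤ) *
  (D.hf M (n - j) : ℤ)

/-- the moments of `κ` -/
def mom (j : ℕ) : ℤ := ∑ᶠ n : ℤ, D.kap M n * n ^ j

/-- objects of codimension at least `c` -/
structure IsA (c : ℕ) : Prop where
  g : D.IsG M
  mom : ∀ j < c, D.mom M j = 0

end

end Dat

end MSA
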