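import Mathlib
import Pool.Agent.MSA.Base

/-!
# The second ring `S_k = L[Y_{i,j}]`, `i < p`, `j ∈ ℤ/k`

The slot variables are `x_i^{(l)} = ∑_j ζ^{j l} Y_{i,j}`; the cyclic shift multiplies `Y_{i,j}`
by `ζ^j`, so it maps `x_i^{(l)}` to `x_i^{(l+1)}`.
-/

set_option autoImplicit false
set_option linter.unusedSectionVars false

noncomputable section

namespace MSA

universe u v w

/-- Data for the Adams operation. -/
structure Adm (D : Dat.{u}) where
  k : ℕ
  [hk : Fact k.Prime]
  hkF : (k : D.F) ≠ 0
  z : D.F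
  hz : IsPrimitiveRoot z k

attribute [instance] Adm.hk

namespace Adm

variable {D : Dat.{u}} (A : Adm D)

instance : NeZero A.k := ⟨A.hk.out.ne_zero⟩

/-- `ζ^j` for `j ∈ ℤ/k` -/
def zp (j : ZMod A.k) : D.F := A.z ^ j.val

/-- the polynomial ring in `p * k` variables -/
abbrev S : Type u := MvPolynomial (Fin D.p × ZMod A.k) D.L

/-- `τ` on `S_k` -/
def tauS : A.S →+* A.S :=
  MvPolynomial.eval₂Hom (MvPolynomial.C.comp (D.s : D.L →+* D.L))
    (fun x => MvPolynomial.C (algebraMap D.F D.L (D.cf (x.1 + 1))) *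
      MvPolynomial.X (x.1 + 1, x.2))

/-- `θ_c` on `S_k` -/
def thS (c : D.Fˣ) : A.S →+* A.S :=
  MvPolynomial.eval₂Hom MvPolynomial.C
    (fun x => MvPolynomial.C (algebraMap D.F D.L (c : D.F)) * MvPolynomial.X x)

/-- the cyclic shift on `S_k` -/
def cyS : A.S →+* A.S :=
  MvPolynomial.eval₂Hom MvPolynomial.C
    (fun x => MvPolynomial.C (algebraMap D.F D.L (A.zp x.2)) * MvPolynomial.X x)

/-- all generators on `S_k` -/
def ph : Gk D.F → A.S →+* A.S
  | Gk.bs Gn.tau => A.tauS
  | Gk.bs (Gn.th c) => A.thS c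
  | Gk.cyc => A.cyS

/-- the second skew ring -/
abbrev R : Type u := Rg A.ph

/-- the `l`-th slot `S → S_k` -/
def slot (l : ZMod A.k) : D.S →+* A.S :=
  MvPolynomial.eval₂Hom MvPolynomial.C
    (fun i => ∑ j, MvPolynomial.C (algebraMap D.F D.L (A.zp (j * l))) * MvPolynomial.X (i, j))

/-- the average `S → S_k`, `x_i ↦ Y_{i,0}` -/
def avg : D.S →+* A.S :=
  MvPolynomial.eval₂Hom MvPolynomial.C (fun i => MvPolynomial.X (i, 0))

theorem avg_ph (g : Gn D.F) (f : D.S) : A.avg (D.ph g f) = A.ph (Gk.bs g) (A.avg f) := by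
  have h : (A.avg).comp (D.ph g) = (A.ph (Gk.bs g)).comp A.avg := by
    apply MvPolynomial.ringHom_ext
    · intro r
      cases g <;> simp [avg, ph, Dat.ph, tauS, thS, Dat.tauS_C, Dat.thS]
    · intro i
      cases g <;> simp [avg, ph, Dat.ph, tauS, thS, Dat.tauS_X, Dat.thS]
  exact congrArg (fun t => t f) h

/-- restriction of scalars `R → R_k` along the average -/
def res : D.R →+* A.R :=
  rgHom D.ph ((iot A.ph).comp A.avg) (fun g => gam A.ph (Gk.bs g)) (fun g f => by
    show gam A.ph (Gk.bs g) * iot A.ph (A.avg f) = iot A.ph (A.avg (D.ph g f)) * gam A.ph (Gk.bs g)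
    rw [avg_ph, gam_mul_iot])

instance fixF : FixF D.F A.ph where
  fix := by
    intro g c
    have h : algebraMap D.F A.S c = MvPolynomial.C (algebraMap D.F D.L c) := rfl
    rw [h]
    cases g with
    | bs g => cases g with
      | tau => simp [ph, tauS]
      | th c' => simp [ph, thS]
    | cyc => simp [ph, cyS]

/-! ## eigenspaces of the cyclic shift -/

section

variable (j : ZMod A.k) (H : Type u) [AddCommGroup H] [Module A.R H]

/-- The `ζ^j`-eigenspace of the shift, as a module over `R` (more precisely the largest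
`R`-submodule on which the shift acts as `ζ^j`). -/
def egs : @Submodule D.R H _ _ (Module.compHom H A.res) :=
  letI := Module.compHom H A.res
  { carrier := {h | ∀ r : D.R, gam A.ph Gk.cyc • A.res r • h =
      iot A.ph (algebraMap D.F A.S (A.zp j)) • A.res r • h}
    zero_mem' := fun r => by
      rw [smul_zero, smul_zero, smul_zero]
    add_mem' := fun {x y} hx hy r => by
      rw [smul_add, smul_add, smul_add]
      exact congrArg₂ (· + ·) (hx r) (hy r)
    smul_mem' := fun t x hx r => by
      have h1 : A.res r • t • x = A.res (r * t) • x := by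
        rw [map_mul, mul_smul]
        rfl
      rw [h1]
      exact hx (r * t) }

/-- the eigenspace as a type -/
def Eg : Type u := A.egs j H

instance : AddCommGroup (A.Eg j H) :=
  @Submodule.addCommGroup D.R H _ _ (Module.compHom H A.res) (A.egs j H)

instance : Module D.R (A.Eg j H) :=
  @Submodule.module D.R H _ _ (Module.compHom H A.res) (A.egs j H)

end

/-- the value of an additive function on the virtual module `H_0 - H_1` -/
def dl {Cl : Cls.{u} D.R} {B : Type v} [AddCommGroup B] (e : Adf Cl B) (H : Type u)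
    [AddCommGroup H] [Module A.R H] : B := e.e (A.Eg 0 H) - e.e (A.Eg 1 H)

/-! ## the Koszul data of the diagonal -/

/-- index set: pairs `(i, j)` with `j ≠ 0` -/
abbrev JT : Type := {x : Fin D.p × ZMod A.k // x.2 ≠ 0}

instance : LinearOrder A.JT :=
  LinearOrder.lift' (fun x : A.JT => toLex (x.1.1, x.1.2.val)) (fun x y h => by
    have h1 : (x.1.1, x.1.2.val) = (y.1.1, y.1.2.val) := toLex.injective h
    have h2 := congrArg Prod.fst h1
    have h3 := congrArg Prod.snd h1
    exact Subtype.ext (Prod.ext h2 (ZMod.val_injective _ h3)))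

/-- operators on `F^J` -/
def rhoT : Gk D.F → ((A.JT → D.F) →ₗ[D.F] (A.JT → D.F))
  | Gk.bs Gn.tau =>
    { toFun := fun v x => D.cf x.1.1 * v ⟨(x.1.1 - 1, x.1.2), x.2⟩
      map_add' := fun v w => by funext x; simp [mul_add]
      map_smul' := fun c v => by funext x; simp; ring }
  | Gk.bs (Gn.th c) => (c : D.F) • LinearMap.id
  | Gk.cyc =>
    { toFun := fun v x => A.zp x.1.2 * v x
      map_add' := fun v w => by funext x; simp [mul_add]
      map_smul' := fun c v => by funext x; simp; ring }

theorem kT_hy (g : Gk D.F) (j : A.JT) : A.ph g (MvPolynomial.X j.1) =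
    ∑ i : A.JT, algebraMap D.F A.S (A.rhoT g (Pi.single j 1) i) * MvPolynomial.X i.1 := by
  have ha : ∀ c : D.F, algebraMap D.F A.S c = MvPolynomial.C (algebraMap D.F D.L c) :=
    fun c => rfl
  cases g with
  | bs g => cases g with
    | tau =>
      rw [Finset.sum_eq_single (⟨(j.1.1 + 1, j.1.2), j.2⟩ : A.JT)]
      · simp [ph, tauS, rhoT, ha]
      · intro x _ hx
        have : (Pi.single j (1 : D.F) : A.JT → D.F) ⟨(x.1.1 - 1, x.1.2), x.2⟩ = 0 := by
          rw [Pi.single_eq_of_ne]
          intro h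
          apply hx
          rw [← h]
          apply Subtype.ext
          simp
        simp [rhoT, ha, this]
      · simp
    | th c =>
      rw [Finset.sum_eq_single j]
      · simp [ph, thS, rhoT, ha]
      · intro x _ hx
        simp [rhoT, ha, Pi.single_eq_of_ne hx]
      · simp
  | cyc =>
    rw [Finset.sum_eq_single j]
    · simp [ph, cyS, rhoT, ha]
    · intro x _ hx
      simp [rhoT, ha, Pi.single_eq_of_ne hx]
    · simp

/-- Koszul data: the variables `Y_{i,j}`, `j ≠ 0`. -/
def kT : KS D.F A.ph where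
  J := A.JT
  rho := A.rhoT
  y := fun x => MvPolynomial.X x.1
  hy := fun g j => by
    refine (A.kT_hy g j).trans ?_
    refine Finset.sum_congr rfl fun i _ => ?_
    have : ∀ (d1 d2 : DecidableEq A.JT), @Pi.single A.JT (fun _ => D.F) _ d1 j 1 =
        @Pi.single A.JT (fun _ => D.F) _ d2 j 1 := by
      intro d1 d2
      rw [Subsingleton.elim d1 d2]
    rw [this]

end Adm

end MSA
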