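import Mathlib
import Pool.Agent.MSA.BaseK

/-!
# Twists, the regular module, cyclic modules
-/

set_option autoImplicit false
set_option linter.unusedSectionVars false

noncomputable section

namespace MSA

universe u v w

section

variable {F : Type u} [Field F] {S : Type u} [CommRing S] [Algebra F S] {Γ : Type u}

/-- `M` with the generator `g` multiplied by the scalar `χ g`. -/
def Tw (_φ : Γ → S →+* S) (_χ : Γ → F) (M : Type u) : Type u := M

variable {φ : Γ → S →+* S} (χ : Γ → F) (M : Type u) [AddCommGroup M]

instance : AddCommGroup (Tw φ χ M) := inferInstanceAs (AddCommGroup M)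

variable [Module (Rg φ) M]

/-- `S` acts in the old way -/
def twS : S →+* AddMonoid.End (Tw φ χ M) where
  toFun s := { toFun := fun (m : M) => (iot φ s • m : M)
               map_zero' := smul_zero (A := M) _
               map_add' := smul_add (A := M) _ }
  map_one' := by
    refine AddMonoidHom.ext fun (m : M) => ?_
    show iot φ 1 • m = m
    rw [map_one, one_smul]
  map_mul' s t := by
    refine AddMonoidHom.ext fun (m : M) => ?_
    show iot φ (s * t) • m = iot φ s • iot φ t • m
    rw [map_mul, mul_smul]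
  map_zero' := by
    refine AddMonoidHom.ext fun (m : M) => ?_
    show iot φ 0 • m = 0
    rw [map_zero, zero_smul]
  map_add' s t := by
    refine AddMonoidHom.ext fun (m : M) => ?_
    show iot φ (s + t) • m = iot φ s • m + iot φ t • m
    rw [map_add, add_smul]

/-- the generators act with the scalar -/
def twG (g : Γ) : AddMonoid.End (Tw φ χ M) where
  toFun := fun (m : M) => (iot φ (algebraMap F S (χ g)) • gam φ g • m : M)
  map_zero' := by
    show iot φ _ • gam φ g • (0 : M) = 0
    rw [smul_zero, smul_zero]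
  map_add' := fun (m m' : M) => by
    show iot φ _ • gam φ g • (m + m') = iot φ _ • gam φ g • m + iot φ _ • gam φ g • m'
    rw [smul_add, smul_add]

theorem tw_aux (g : Γ) (s : S) (m : M) :
    iot φ (algebraMap F S (χ g)) • gam φ g • iot φ s • m =
      iot φ (φ g s) • iot φ (algebraMap F S (χ g)) • gam φ g • m := by
  rw [← mul_smul (gam φ g), gam_mul_iot, mul_smul, ← mul_smul, ← mul_smul (iot φ (φ g s)),
    ← map_mul, ← map_mul, mul_comm]

theorem tw_compat (g : Γ) (s : S) (m : Tw φ χ M) :
    twG χ M g (twS χ M s m) = twS χ M (φ g s) (twG χ M g m) :=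
  tw_aux χ M g s m

instance : Module (Rg φ) (Tw φ χ M) := rgModule φ (twS χ M) (twG χ M) (tw_compat χ M)

variable (φ) in
/-- the identity `M → Tw φ χ M` -/
def toTw : M ≃+ Tw φ χ M := AddEquiv.refl M

theorem tw_iot (s : S) (m : M) : iot φ s • toTw φ χ M m = toTw φ χ M (iot φ s • m) :=
  rgModule_iot φ (twS χ M) (twG χ M) (tw_compat χ M) s m

theorem tw_gam (g : Γ) (m : M) : gam φ g • toTw φ χ M m =
    toTw φ χ M (iot φ (algebraMap F S (χ g)) • gam φ g • m) :=
  rgModule_gam φ (twS χ M) (twG χ M) (tw_compat χ M) g m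

end

section

variable {S : Type u} [CommRing S] {Γ : Type u}

/-- `S` as a module over the skew ring. -/
def Sr (_φ : Γ → S →+* S) : Type u := S

variable (φ : Γ → S →+* S)

instance : CommRing (Sr φ) := inferInstanceAs (CommRing S)

/-- the identity `S → Sr φ` -/
def toSr : S ≃+* Sr φ := RingEquiv.refl S

/-- multiplication -/
def srS : S →+* AddMonoid.End (Sr φ) where
  toFun s := AddMonoidHom.mulLeft (toSr φ s)
  map_one' := by
    refine AddMonoidHom.ext fun x => ?_
    show toSr φ 1 * x = x
    rw [map_one, one_mul]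
  map_mul' s t := by
    refine AddMonoidHom.ext fun x => ?_
    show toSr φ (s * t) * x = toSr φ s * (toSr φ t * x)
    rw [map_mul, mul_assoc]
  map_zero' := by
    refine AddMonoidHom.ext fun x => ?_
    show toSr φ 0 * x = 0
    rw [map_zero, zero_mul]
  map_add' s t := by
    refine AddMonoidHom.ext fun x => ?_
    show toSr φ (s + t) * x = toSr φ s * x + toSr φ t * x
    rw [map_add, add_mul]

/-- the generators -/
def srG (g : Γ) : AddMonoid.End (Sr φ) where
  toFun x := toSr φ (φ g ((toSr φ).symm x))
  map_zero' := by rw [map_zero, map_zero, map_zero]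
  map_add' x y := by rw [map_add, map_add, map_add]

theorem sr_compat (g : Γ) (s : S) (m : Sr φ) : srG φ g (srS φ s m) = srS φ (φ g s) (srG φ g m) := by
  show toSr φ (φ g ((toSr φ).symm (toSr φ s * m))) =
    toSr φ (φ g s) * toSr φ (φ g ((toSr φ).symm m))
  rw [map_mul, map_mul, map_mul, RingEquiv.symm_apply_apply]

instance : Module (Rg φ) (Sr φ) := rgModule φ (srS φ) (srG φ) (sr_compat φ)

theorem sr_iot (s t : S) : iot φ s • (toSr φ t) = toSr φ (s * t) :=
  (rgModule_iot φ (srS φ) (srG φ) (sr_compat φ) s (toSr φ t)).trans (by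
    show toSr φ s * toSr φ t = _
    rw [map_mul])

theorem sr_gam (g : Γ) (t : S) : gam φ g • (toSr φ t) = toSr φ (φ g t) :=
  (rgModule_gam φ (srS φ) (srG φ) (sr_compat φ) g (toSr φ t)).trans (by
    show toSr φ (φ g ((toSr φ).symm (toSr φ t))) = _
    rw [RingEquiv.symm_apply_apply])

/-- The largest submodule of `Sr φ` that is contained in the ideal `I`. -/
def idl (I : Ideal S) : Submodule (Rg φ) (Sr φ) where
  carrier := {x | ∀ r : Rg φ, (toSr φ).symm (r • x) ∈ I}
  zero_mem' := fun r => by rw [smul_zero, map_zero]; exact I.zero_mem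
  add_mem' := fun {x y} hx hy r => by rw [smul_add, map_add]; exact I.add_mem (hx r) (hy r)
  smul_mem' := fun t x hx r => by rw [← mul_smul]; exact hx (r * t)

/-- stable ideals -/
def StI (I : Ideal S) : Prop := ∀ g : Γ, ∀ x ∈ I, φ g x ∈ I

theorem mem_idl {I : Ideal S} (h : StI φ I) (x : S) : toSr φ x ∈ idl φ I ↔ x ∈ I := by
  constructor
  · intro hx
    have := hx 1
    rwa [one_smul, RingEquiv.symm_apply_apply] at this
  · intro hx r
    have key : ∀ r : Rg φ, ∀ x ∈ I, (toSr φ).symm (r • toSr φ x) ∈ I := by
      intro r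
      refine rg_induction φ (P := fun r => ∀ x ∈ I, (toSr φ).symm (r • toSr φ x) ∈ I) r ?_ ?_ ?_ ?_
      · intro s x hx
        rw [sr_iot, RingEquiv.symm_apply_apply]
        exact I.mul_mem_left s hx
      · intro g x hx
        rw [sr_gam, RingEquiv.symm_apply_apply]
        exact h g x hx
      · intro a b ha hb x hx
        rw [add_smul, map_add]
        exact I.add_mem (ha x hx) (hb x hx)
      · intro a b ha hb x hx
        rw [mul_smul]
        have h1 := hb x hx
        have h2 := ha _ h1
        rwa [RingEquiv.apply_symm_apply] at h2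
    exact key r x hx

end

namespace Dat

variable (D : Dat.{u})

/-- the character of the twist by `S(-pn)` -/
def chi (n : ℤ) : Gn D.F → D.F
  | Gn.tau => D.b ^ n
  | Gn.th c => (c : D.F) ^ (D.p * n)

/-- the twist `M(-pn)` -/
abbrev T (n : ℤ) (M : Type u) : Type u := Tw D.ph (D.chi n) M

/-- the cyclic module `S / I` (for stable `I`) -/
abbrev Cy (I : Ideal D.S) : Type u := Sr D.ph ⧸ idl D.ph I

/-- invariants of degree `p n` -/
abbrev Iv (n : ℕ) (f : D.S) : Prop := D.X.Inv n f

/-- the module `S / (y, g)` -/
abbrev CI (y g : D.S) : Type u := D.Cy (Ideal.span {y, g})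

end Dat

end MSA
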