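import Mathlib
import Pool.Agent.MSA.Tw
import Pool.Agent.MSA.ChA
import Pool.Agent.MSX.Trip

/-!
# Operations on additive functions; good classes; the value on a list of families (part CLO)

All sorry-free. `Adf.mp` (push forward), `Adf.pr` (pair), `Adf.li` (linear combination). `D.GC C`: the class
`C` is closed under twists and contains the complete intersections `S / (y, g)`. `D.rho l e`: the sum of
`e (S / (y, g)) - e (S / (y, h))` over a list of `Trip`s.
-/

set_option autoImplicit false
set_option linter.unusedSectionVars false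

noncomputable section

namespace MSA

universe u v w v'

section adf

variable {R : Type w} [Ring R] {C : Cls.{u} R} {A : Type v} [AddCommGroup A]
variable {A' : Type v'} [AddCommGroup A']

/-- push forward along a homomorphism -/
def Adf.mp (e : Adf C A) (f : A →+ A') : Adf C A' where
  e := fun M _ _ => f (e.e M)
  iso := fun {M N} _ _ _ _ g h => by rw [e.iso g h]
  add := fun {M} _ _ N h => by rw [e.add N h, map_add]

/-- pairs -/
def Adf.pr (e : Adf C A) (e' : Adf C A') : Adf C (A × A') where
  e := fun M _ _ => (e.e M, e'.e M)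
  iso := fun {M N} _ _ _ _ g h => by rw [e.iso g h, e'.iso g h]
  add := fun {M} _ _ N h => by rw [e.add N h, e'.add N h, Prod.mk_add_mk]

/-- `a • e + b • e'` -/
def Adf.li (a b : ℤ) (e e' : Adf C A) : Adf C A where
  e := fun M _ _ => a • e.e M + b • e'.e M
  iso := fun {M N} _ _ _ _ g h => by rw [e.iso g h, e'.iso g h]
  add := fun {M} _ _ N h => by rw [e.add N h, e'.add N h, smul_add, smul_add]; abel

end adf

namespace Dat

variable (D : Dat.{u})

/-- the points of codimension one -/
abbrev Pt : Type u := Pool.Agent.MSX.HP D.p D.L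

/-- the fraction field of `S` -/
abbrev Qf : Type u := Pool.Agent.MSX.Q D.p D.L

/-- Classes that are closed under twists and contain the complete intersections. -/
structure GC (C : Cls.{u} D.R) : Prop where
  ci : ∀ {m n : ℕ} {y g : D.S}, D.Iv m y → D.Iv n g → y ≠ 0 → g ≠ 0 → IsRelPrime y g →
    C.P (D.CI y g)
  tw : ∀ (n : ℤ) (M : Type u) [AddCommGroup M] [Module D.R M], C.P M → C.P (D.T n M)

variable {D}

/-- twist invariance of an additive function -/
def TwI {C : Cls.{u} D.R} {B : Type v} [AddCommGroup B] (e : Adf C B) : Prop :=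
  ∀ (n : ℤ) (M : Type u) [AddCommGroup M] [Module D.R M], C.P M → e.e (D.T n M) = e.e M

variable (D)

/-- The value of an additive function on `∑ (S / (y, g) - S / (y, h))`. -/
def rho (l : List D.X.Trip) {C : Cls.{u} D.R} {B : Type v} [AddCommGroup B] (e : Adf C B) : B :=
  (l.map (fun T => e.e (D.CI T.y T.g) - e.e (D.CI T.y T.h))).sum

variable (l : List D.X.Trip) {C : Cls.{u} D.R} {B : Type v} [AddCommGroup B]

theorem rho_mp {B' : Type v'} [AddCommGroup B'] (e : Adf C B) (f : B →+ B') :
    D.rho l (e.mp f) = f (D.rho l e) := by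
  unfold rho
  rw [map_list_sum, List.map_map]
  congr 1
  refine List.map_congr_left fun T _ => ?_
  show f (e.e (D.CI T.y T.g)) - f (e.e (D.CI T.y T.h)) = f _
  rw [map_sub]

theorem rho_pr {B' : Type v'} [AddCommGroup B'] (e : Adf C B) (e' : Adf C B') :
    D.rho l (e.pr e') = (D.rho l e, D.rho l e') := by
  apply Prod.ext
  · have h := D.rho_mp l (e.pr e') (AddMonoidHom.fst B B')
    exact h.symm
  · have h := D.rho_mp l (e.pr e') (AddMonoidHom.snd B B')
    exact h.symm

theorem rho_li (a b : ℤ) (e e' : Adf C B) :
    D.rho l (Adf.li a b e e') = a • D.rho l e + b • D.rho l e' := by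
  unfold rho
  induction l with
  | nil => simp
  | cons T l ih =>
    rw [List.map_cons, List.sum_cons, ih, List.map_cons, List.sum_cons, List.map_cons,
      List.sum_cons, smul_add, smul_add]
    show a • e.e _ + b • e'.e _ - (a • e.e _ + b • e'.e _) + _ = _
    rw [smul_sub, smul_sub]
    abel

end Dat

end MSA
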