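import Mathlib
import Pool.Agent.MSA.Rh0

/-!
# The formal part of the main theorem (part CLO): induction over the vanishing level, last step
-/

set_option autoImplicit false
set_option linter.unusedSectionVars false

noncomputable section

namespace MSA

universe u v w v'

/-- an additive function vanishes on a class -/
def Adf.Van {R : Type w} [Ring R] {C : Cls.{u} R} {B : Type v} [AddCommGroup B] (e : Adf C B)
    (Cl : Cls.{u} R) : Prop :=
  ∀ (M : Type u) [AddCommGroup M] [Module R M], Cl.P M → e.e M = 0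

/-- The induction over the vanishing level. -/
theorem abs_ind {R : Type w} [Ring R] {C : Cls.{u} R} {B : Type v} [AddCommGroup B]
    (Cl : ℕ → Cls.{u} R) (p : ℕ) (k : ℤ) (ρ : Adf C B → B)
    (hli : ∀ (a b : ℤ) (e e' : Adf C B), ρ (Adf.li a b e e') = a • ρ e + b • ρ e')
    (psi : Adf C B → Adf C B) (ha : ∀ e, ρ (psi e) = k ^ 2 • ρ e)
    (hb : ∀ j, 3 ≤ j → j < p → ∀ e : Adf C B, e.Van (Cl (j + 1)) →
      ∀ (M : Type u) [AddCommGroup M] [Module R M], (Cl j).P M → (psi e).e M = k ^ j • e.e M)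
    (hc : ∀ e : Adf C B, e.Van (Cl 3) → ρ e = 0)
    (j : ℕ) (h3 : 3 ≤ j) (hj : j ≤ p) (e : Adf C B) (he : e.Van (Cl j)) :
    (∏ i ∈ Finset.Ico 3 j, (k ^ 2 - k ^ i)) • ρ e = 0 := by
  induction j, h3 using Nat.le_induction generalizing e with
  | base =>
    rw [Finset.Ico_self, Finset.prod_empty, one_smul]
    exact hc e he
  | succ j h3 ih =>
    have h1 := ih (by omega) (Adf.li 1 (-(k ^ j)) (psi e) e) (by
      intro M _ _ hM
      show (1 : ℤ) • (psi e).e M + (-(k ^ j)) • e.e M = 0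
      rw [hb j h3 (by omega) e he M hM, one_smul, neg_smul, add_neg_cancel])
    rw [hli, ha, one_smul, ← add_smul, smul_smul] at h1
    rw [Finset.prod_Ico_succ_top h3]
    exact h1

namespace Dat

variable (D : Dat.{u})

/-- The last step: from additive functions vanishing on `Cp` to all additive functions. `h` is the
Hilbert function. -/
theorem fin_step {C Cp : Cls.{u} D.R} {B : Type v} [AddCommGroup B] {H : Type v'}
    [AddCommGroup H] (hle : ∀ (M : Type u) [AddCommGroup M] [Module D.R M], Cp.P M → C.P M)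
    (e : Adf C B) (h : Adf C H) (l : List D.X.Trip) (N : ℤ)
    (h1 : ∀ (K : AddSubgroup (B × H)) (e' : Adf C ((B × H) ⧸ K)), e'.Van Cp → N • D.rho l e' = 0)
    (h2 : D.rho l h = 0)
    (h3 : ∀ (M M' : Type u) [AddCommGroup M] [Module D.R M] [AddCommGroup M'] [Module D.R M'],
      Cp.P M → Cp.P M' → h.e M = h.e M' → e.e M = e.e M') : N • D.rho l e = 0 := by
  obtain ⟨K, hK⟩ : ∃ K : AddSubgroup (B × H), K = AddSubgroup.closure
      {x | ∃ (M : Type u) (_ : AddCommGroup M) (_ : Module D.R M), Cp.P M ∧ x = (e.e M, h.e M)} :=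
    ⟨_, rfl⟩
  have hmem : ∀ (M : Type u) [AddCommGroup M] [Module D.R M], Cp.P M → (e.e M, h.e M) ∈ K := by
    intro M i1 i2 hM
    rw [hK]
    exact AddSubgroup.subset_closure ⟨M, i1, i2, hM, rfl⟩
  have h4 := h1 K ((e.pr h).mp (QuotientAddGroup.mk' K)) (by
    intro M _ _ hM
    show (QuotientAddGroup.mk' K) (e.e M, h.e M) = 0
    rw [QuotientAddGroup.mk'_apply, QuotientAddGroup.eq_zero_iff]
    exact hmem M hM)
  rw [D.rho_mp, D.rho_pr, ← map_zsmul, QuotientAddGroup.mk'_apply, QuotientAddGroup.eq_zero_iff,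
    h2] at h4
  have key : ∀ x ∈ K, ∃ (M M' : Type u) (_ : AddCommGroup M) (_ : Module D.R M)
      (_ : AddCommGroup M') (_ : Module D.R M'), Cp.P M ∧ Cp.P M' ∧
      x = (e.e M - e.e M', h.e M - h.e M') := by
    intro x hx
    have z1 : ∀ (i1 : AddCommGroup PUnit.{u+1}) (i2 : Module D.R PUnit.{u+1}),
        e.e PUnit.{u+1} = 0 := fun i1 i2 => adf_zero e
    have z2 : ∀ (i1 : AddCommGroup PUnit.{u+1}) (i2 : Module D.R PUnit.{u+1}),
        h.e PUnit.{u+1} = 0 := fun i1 i2 => adf_zero h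
    rw [hK] at hx
    refine AddSubgroup.closure_induction (p := fun x _ => ∃ (M M' : Type u) (_ : AddCommGroup M)
      (_ : Module D.R M) (_ : AddCommGroup M') (_ : Module D.R M'), Cp.P M ∧ Cp.P M' ∧
      x = (e.e M - e.e M', h.e M - h.e M')) ?_ ?_ ?_ ?_ hx
    · rintro _ ⟨M, i1, i2, hM, rfl⟩
      refine ⟨M, PUnit.{u+1}, i1, i2, inferInstance, inferInstance, hM, Cp.zero _, ?_⟩
      rw [z1, z2, sub_zero, sub_zero]
    · refine ⟨PUnit.{u+1}, PUnit.{u+1}, inferInstance, inferInstance, inferInstance,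
        inferInstance, Cp.zero _, Cp.zero _, ?_⟩
      rw [sub_self, sub_self]
      rfl
    · rintro _ _ _ _ ⟨M, M', i1, i2, i3, i4, hM, hM', rfl⟩ ⟨N, N', j1, j2, j3, j4, hN, hN', rfl⟩
      refine ⟨M × N, M' × N', inferInstance, inferInstance, inferInstance, inferInstance,
        Cp.prod hM hN, Cp.prod hM' hN', ?_⟩
      rw [adf_prod e (hle M hM) (hle N hN), adf_prod e (hle M' hM') (hle N' hN'),
        adf_prod h (hle M hM) (hle N hN), adf_prod h (hle M' hM') (hle N' hN'), Prod.mk_add_mk]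
      congr 1 <;> abel
    · rintro _ _ ⟨M, M', i1, i2, i3, i4, hM, hM', rfl⟩
      refine ⟨M', M, i3, i4, i1, i2, hM', hM, ?_⟩
      rw [Prod.neg_mk, neg_sub, neg_sub]
  obtain ⟨M, M', i1, i2, i3, i4, hM, hM', hx⟩ := key _ h4
  have h5 := congrArg Prod.fst hx
  have h6 := congrArg Prod.snd hx
  simp only [Prod.smul_fst, Prod.smul_snd, smul_zero] at h5 h6
  rw [h5, h3 M M' hM hM' (sub_eq_zero.1 h6.symm), sub_self]

end Dat

end MSA
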