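import Mathlib

/-!
# Evaluation of polynomials at commuting elements of a noncommutative algebra
-/

set_option autoImplicit false

noncomputable section

namespace MSA

universe u v w

variable {L : Type u} [Field L] {E : Type v} [Ring E] [Algebra L E] {σ : Type w}

/-- Evaluation at a commuting family. -/
def aevC (a : σ → E) (h : ∀ i j, a i * a j = a j * a i) : MvPolynomial σ L →ₐ[L] E :=
  letI : CommRing (Algebra.adjoin L (Set.range a)) :=
    Algebra.adjoinCommRingOfComm L (by
      rintro _ ⟨i, rfl⟩ _ ⟨j, rfl⟩
      exact h i j)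
  (Subalgebra.val (Algebra.adjoin L (Set.range a))).comp
    (MvPolynomial.aeval (fun i => ⟨a i, Algebra.subset_adjoin ⟨i, rfl⟩⟩))

theorem aevC_X (a : σ → E) (h : ∀ i j, a i * a j = a j * a i) (i : σ) :
    aevC a h (MvPolynomial.X i : MvPolynomial σ L) = a i := by
  simp [aevC]

theorem aevC_C (a : σ → E) (h : ∀ i j, a i * a j = a j * a i) (c : L) :
    aevC a h (MvPolynomial.C c : MvPolynomial σ L) = algebraMap L E c := by
  simp [aevC]

end MSA
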