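import Mathlib
import Pool.Agent.MSA.BaseK
import Pool.Agent.MSA.Aev

/-!
# The tensor power `M^{⊗ k}` over `L` as a module over `R_k`
-/

set_option autoImplicit false
set_option linter.unusedSectionVars false

noncomputable section

namespace MSA

universe u v w

/-- The `L`-space underlying a module over `R` (type synonym). -/
def UL (_D : Dat.{u}) (M : Type u) : Type u := M

instance (D : Dat.{u}) (M : Type u) [AddCommGroup M] : AddCommGroup (UL D M) :=
  inferInstanceAs (AddCommGroup M)

instance (D : Dat.{u}) (M : Type u) [AddCommGroup M] [Module D.R M] : Module D.R (UL D M) :=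
  inferInstanceAs (Module D.R M)

instance (D : Dat.{u}) (M : Type u) [AddCommGroup M] [Module D.R M] : Module D.L (UL D M) :=
  Module.compHom M ((iot D.ph).comp (MvPolynomial.C : D.L →+* D.S))

/-- An `L`-space twisted by a ring endomorphism of `L`. -/
def Twi {L : Type u} [Field L] (_r : L →+* L) (W : Type u) : Type u := W

instance {L : Type u} [Field L] (r : L →+* L) (W : Type u) [AddCommGroup W] :
    AddCommGroup (Twi r W) := inferInstanceAs (AddCommGroup W)

instance {L : Type u} [Field L] (r : L →+* L) (W : Type u) [AddCommGroup W] [Module L W] :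
    Module L (Twi r W) := Module.compHom W r

/-- multiplication by `x_i`, as an `L`-linear map -/
def xop (D : Dat.{u}) (M : Type u) [AddCommGroup M] [Module D.R M] (i : Fin D.p) :
    UL D M →ₗ[D.L] UL D M where
  toFun := fun m => iot D.ph (MvPolynomial.X i) • m
  map_add' := fun m m' => smul_add (iot D.ph (MvPolynomial.X i)) m m'
  map_smul' := fun c m => by
    show iot D.ph (MvPolynomial.X i) • iot D.ph (MvPolynomial.C c) • m =
      iot D.ph (MvPolynomial.C c) • iot D.ph (MvPolynomial.X i) • m
    rw [← mul_smul, ← mul_smul, ← map_mul, ← map_mul, mul_comm]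

theorem xop_comm (D : Dat.{u}) (M : Type u) [AddCommGroup M] [Module D.R M] (i j : Fin D.p)
    (m : UL D M) : xop D M i (xop D M j m) = xop D M j (xop D M i m) := by
  show iot D.ph (MvPolynomial.X i) • iot D.ph (MvPolynomial.X j) • m =
      iot D.ph (MvPolynomial.X j) • iot D.ph (MvPolynomial.X i) • m
  rw [← mul_smul, ← mul_smul, ← map_mul, ← map_mul, mul_comm]

/-- the generators as additive maps -/
def genA (D : Dat.{u}) (M : Type u) [AddCommGroup M] [Module D.R M] (g : Gn D.F) :
    UL D M →+ UL D M where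
  toFun m := gam D.ph g • m
  map_zero' := smul_zero _
  map_add' := smul_add _

theorem genA_tau (D : Dat.{u}) (M : Type u) [AddCommGroup M] [Module D.R M] (c : D.L)
    (m : UL D M) : genA D M Gn.tau (c • m) = (D.s : D.L →+* D.L) c • genA D M Gn.tau m := by
  show gam D.ph Gn.tau • iot D.ph (MvPolynomial.C c) • m =
    iot D.ph (MvPolynomial.C (D.s c)) • gam D.ph Gn.tau • m
  rw [← mul_smul, gam_mul_iot, mul_smul]
  have : D.ph Gn.tau (MvPolynomial.C c) = MvPolynomial.C (D.s c) := D.tauS_C c
  rw [this]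

theorem genA_th (D : Dat.{u}) (M : Type u) [AddCommGroup M] [Module D.R M] (c' : D.Fˣ) (c : D.L)
    (m : UL D M) : genA D M (Gn.th c') (c • m) = (RingHom.id D.L) c • genA D M (Gn.th c') m := by
  show gam D.ph (Gn.th c') • iot D.ph (MvPolynomial.C c) • m =
    iot D.ph (MvPolynomial.C c) • gam D.ph (Gn.th c') • m
  rw [← mul_smul, gam_mul_iot, mul_smul]
  have : D.ph (Gn.th c') (MvPolynomial.C c) = MvPolynomial.C c := by
    show MvPolynomial.eval₂Hom _ _ (MvPolynomial.C c) = _
    simp
  rw [this]

theorem genA_xop_tau (D : Dat.{u}) (M : Type u) [AddCommGroup M] [Module D.R M] (i : Fin D.p)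
    (m : UL D M) : genA D M Gn.tau (xop D M i m) =
      (algebraMap D.F D.L (D.cf (i + 1))) • xop D M (i + 1) (genA D M Gn.tau m) := by
  show gam D.ph Gn.tau • iot D.ph (MvPolynomial.X i) • m =
    iot D.ph (MvPolynomial.C _) • iot D.ph (MvPolynomial.X _) • gam D.ph Gn.tau • m
  rw [← mul_smul, gam_mul_iot, mul_smul]
  have h2 : D.ph Gn.tau (MvPolynomial.X i) =
    MvPolynomial.C (algebraMap D.F D.L (D.cf (i + 1))) * MvPolynomial.X (i + 1) := D.tauS_X i
  rw [h2, map_mul, mul_smul]

theorem genA_xop_th (D : Dat.{u}) (M : Type u) [AddCommGroup M] [Module D.R M] (c' : D.Fˣ)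
    (i : Fin D.p) (m : UL D M) : genA D M (Gn.th c') (xop D M i m) =
      (algebraMap D.F D.L (c' : D.F)) • xop D M i (genA D M (Gn.th c') m) := by
  show gam D.ph (Gn.th c') • iot D.ph (MvPolynomial.X i) • m =
    iot D.ph (MvPolynomial.C _) • iot D.ph (MvPolynomial.X _) • gam D.ph (Gn.th c') • m
  rw [← mul_smul, gam_mul_iot, mul_smul]
  have h2 : D.ph (Gn.th c') (MvPolynomial.X i) =
    MvPolynomial.C (algebraMap D.F D.L (c' : D.F)) * MvPolynomial.X i := by
    simp [Dat.ph, Dat.thS]
  rw [h2, map_mul, mul_smul]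

namespace Adm

variable {D : Dat.{u}} (A : Adm D)

section

variable (V : Type u) [AddCommGroup V] [Module D.L V]

/-- the tensor power of an `L`-space -/
abbrev PV : Type u := PiTensorProduct D.L (fun _ : ZMod A.k => V)

end

section

variable {V W : Type u} [AddCommGroup V] [Module D.L V] [AddCommGroup W] [Module D.L W]

/-- pure tensors -/
def tp (m : ZMod A.k → V) : A.PV V := PiTensorProduct.tprod D.L m

/-- the operator `f` in the slot `l` -/
def sl (l : ZMod A.k) (f : V →ₗ[D.L] V) : A.PV V →ₗ[D.L] A.PV V :=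
  PiTensorProduct.map (fun l' => if l' = l then f else LinearMap.id)

theorem sl_tp (l : ZMod A.k) (f : V →ₗ[D.L] V) (m : ZMod A.k → V) :
    A.sl l f (A.tp m) = A.tp (Function.update m l (f (m l))) := by
  show PiTensorProduct.map _ (PiTensorProduct.tprod D.L m) = _
  rw [PiTensorProduct.map_tprod]
  unfold tp
  congr 1
  funext l'
  by_cases h : l' = l
  · subst h
    simp
  · simp [h]

theorem pv_ext {U : Type*} [AddCommGroup U] {f g : A.PV V →+ U}
    (h : ∀ (c : D.L) m, f (c • A.tp m) = g (c • A.tp m)) : f = g := by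
  ext x
  induction x using PiTensorProduct.induction_on with
  | smul_tprod c m => exact h c m
  | add x y hx hy => rw [map_add, map_add, hx, hy]

theorem sl_comm (l l' : ZMod A.k) (f g : V →ₗ[D.L] V) (h : ∀ v, f (g v) = g (f v)) :
    A.sl l f * A.sl l' g = A.sl l' g * A.sl l f := by
  apply PiTensorProduct.ext
  ext m
  show A.sl l f (A.sl l' g (A.tp m)) = A.sl l' g (A.sl l f (A.tp m))
  rw [sl_tp, sl_tp, sl_tp, sl_tp]
  by_cases hl : l = l'
  · subst hl
    simp [h]
  · rw [Function.update_of_ne hl, Function.update_of_ne (Ne.symm hl),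
      Function.update_comm (Ne.symm hl)]

theorem tp_update_add (m : ZMod A.k → V) (l : ZMod A.k) (x y : V) :
    A.tp (Function.update m l (x + y)) =
      A.tp (Function.update m l x) + A.tp (Function.update m l y) :=
  (PiTensorProduct.tprod D.L).map_update_add m l x y

theorem tp_update_smul (m : ZMod A.k → V) (l : ZMod A.k) (c : D.L) (x : V) :
    A.tp (Function.update m l (c • x)) = c • A.tp (Function.update m l x) :=
  (PiTensorProduct.tprod D.L).map_update_smul m l c x

theorem update_comp_aux (f : V → W) (e : ZMod A.k ≃ ZMod A.k) (m : ZMod A.k → V) (l : ZMod A.k)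
    (x : V) : (fun i => f (Function.update m l x (e i))) =
      Function.update (fun i => f (m (e i))) (e.symm l) (f x) := by
  funext i
  by_cases h : i = e.symm l
  · subst h
    simp
  · have h' : e i ≠ l := fun h2 => h (by rw [← h2, Equiv.symm_apply_apply])
    rw [Function.update_of_ne h', Function.update_of_ne h]

theorem smp_aux_add (f : V →+ W) (e : ZMod A.k ≃ ZMod A.k) (m : ZMod A.k → V) (l : ZMod A.k)
    (x y : V) : A.tp (fun i => f (Function.update m l (x + y) (e i))) =
      A.tp (fun i => f (Function.update m l x (e i))) +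
        A.tp (fun i => f (Function.update m l y (e i))) := by
  have h := fun z => update_comp_aux A f e m l z
  rw [h, h, h, map_add, tp_update_add]

theorem smp_aux_smul (r : D.L →+* D.L) (f : V →+ W) (hf : ∀ (c : D.L) v, f (c • v) = r c • f v)
    (e : ZMod A.k ≃ ZMod A.k) (m : ZMod A.k → V) (l : ZMod A.k) (c : D.L)
    (x : V) : A.tp (fun i => f (Function.update m l (c • x) (e i))) =
      r c • A.tp (fun i => f (Function.update m l x (e i))) := by
  have h := fun z => update_comp_aux A f e m l z
  rw [h, h, hf, tp_update_smul]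

/-- the multilinear map behind `smp` -/
def smpM (r : D.L →+* D.L) (f : V →+ W) (hf : ∀ (c : D.L) v, f (c • v) = r c • f v)
    (e : ZMod A.k ≃ ZMod A.k) :
    MultilinearMap D.L (fun _ : ZMod A.k => V) (Twi r (A.PV W)) where
  toFun := fun m => (A.tp (fun l => f (m (e l))) : A.PV W)
  map_update_add' := by
    intro inst m l x y
    obtain rfl : inst = ZMod.decidableEq A.k := Subsingleton.elim _ _
    exact A.smp_aux_add f e m l x y
  map_update_smul' := by
    intro inst m l c x
    obtain rfl : inst = ZMod.decidableEq A.k := Subsingleton.elim _ _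
    exact A.smp_aux_smul r f hf e m l c x

/-- the linear map behind `smp` -/
def smpL (r : D.L →+* D.L) (f : V →+ W) (hf : ∀ (c : D.L) v, f (c • v) = r c • f v)
    (e : ZMod A.k ≃ ZMod A.k) : A.PV V →ₗ[D.L] Twi r (A.PV W) :=
  PiTensorProduct.lift (A.smpM r f hf e)

/-- Semilinear maps of tensor powers, composed with a permutation of the slots:
`⊗ m_l ↦ ⊗ f (m_{e l})`. -/
def smp (r : D.L →+* D.L) (f : V →+ W) (hf : ∀ (c : D.L) v, f (c • v) = r c • f v)
    (e : ZMod A.k ≃ ZMod A.k) : A.PV V →+ A.PV W where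
  toFun := A.smpL r f hf e
  map_zero' := (A.smpL r f hf e).map_zero
  map_add' := (A.smpL r f hf e).map_add

theorem smp_tp (r : D.L →+* D.L) (f : V →+ W) (hf : ∀ (c : D.L) v, f (c • v) = r c • f v)
    (e : ZMod A.k ≃ ZMod A.k) (m : ZMod A.k → V) :
    A.smp r f hf e (A.tp m) = A.tp (fun l => f (m (e l))) :=
  PiTensorProduct.lift.tprod (φ := A.smpM r f hf e) m

theorem smp_smul (r : D.L →+* D.L) (f : V →+ W) (hf : ∀ (c : D.L) v, f (c • v) = r c • f v)
    (e : ZMod A.k ≃ ZMod A.k) (c : D.L) (x : A.PV V) :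
    A.smp r f hf e (c • x) = r c • A.smp r f hf e x := by
  exact (A.smpL r f hf e).map_smul c x

theorem smp_sl (r : D.L →+* D.L) (f : V →+ W) (hf : ∀ (c : D.L) v, f (c • v) = r c • f v)
    (e : ZMod A.k ≃ ZMod A.k) (l : ZMod A.k) (x : V →ₗ[D.L] V) (x' : W →ₗ[D.L] W) (c' : D.L)
    (h : ∀ v, f (x v) = c' • x' (f v)) (z : A.PV V) :
    A.smp r f hf e (A.sl l x z) = c' • A.sl (e.symm l) x' (A.smp r f hf e z) := by
  have key : (A.smp r f hf e).comp (A.sl l x).toAddMonoidHom =
      ((c' • A.sl (e.symm l) x').toAddMonoidHom).comp (A.smp r f hf e) := by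
    apply A.pv_ext
    intro c m
    show A.smp r f hf e (A.sl l x (c • A.tp m)) =
      c' • A.sl (e.symm l) x' (A.smp r f hf e (c • A.tp m))
    have h1 : A.smp r f hf e (c • A.tp m) = r c • A.smp r f hf e (A.tp m) :=
      A.smp_smul r f hf e c _
    have h2 : A.smp r f hf e (c • A.tp (Function.update m l (x (m l)))) =
        r c • A.smp r f hf e (A.tp (Function.update m l (x (m l)))) := A.smp_smul r f hf e c _
    rw [map_smul, sl_tp, h1, h2, map_smul, smp_tp, smp_tp, sl_tp]
    have h3 := update_comp_aux A f e m l (x (m l))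
    rw [h3, h, tp_update_smul, smul_comm]
    congr 4
    rw [Equiv.apply_symm_apply]
  exact congrArg (fun t : A.PV V →+ A.PV W => t z) key

end

theorem zp_add (i j : ZMod A.k) : A.zp (i + j) = A.zp i * A.zp j := by
  unfold zp
  rw [← pow_add, ZMod.val_add]
  have h : A.z ^ A.k = 1 := A.hz.pow_eq_one
  conv_rhs => rw [← Nat.mod_add_div (i.val + j.val) A.k, pow_add, pow_mul, h, one_pow, mul_one]

theorem zp_zero : A.zp 0 = 1 := by
  unfold zp
  rw [ZMod.val_zero, pow_zero]

/-! ## the module structure over `R_k` -/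

section

variable {P : Type u} [AddCommGroup P] [Module D.L P]

theorem compat_gen {σ : Type*} (a : MvPolynomial σ D.L →+* AddMonoid.End P)
    (φ : MvPolynomial σ D.L →+* MvPolynomial σ D.L) (f : AddMonoid.End P)
    (hC : ∀ c, f * a (MvPolynomial.C c) = a (φ (MvPolynomial.C c)) * f)
    (hX : ∀ i, f * a (MvPolynomial.X i) = a (φ (MvPolynomial.X i)) * f)
    (s : MvPolynomial σ D.L) : f * a s = a (φ s) * f := by
  induction s using MvPolynomial.induction_on with
  | C c => exact hC c
  | add x y hx hy => rw [map_add, map_add, map_add, mul_add, add_mul, hx, hy]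
  | mul_X x i hx => rw [map_mul, map_mul, map_mul, ← mul_assoc, hx, mul_assoc, hX, mul_assoc]

/-- linear endomorphisms as additive endomorphisms -/
def toAE (P : Type u) [AddCommGroup P] [Module D.L P] :
    Module.End D.L P →+* AddMonoid.End P where
  toFun f := f.toAddMonoidHom
  map_one' := rfl
  map_mul' _ _ := rfl
  map_zero' := rfl
  map_add' _ _ := rfl

end

section

variable (V : Type u) [AddCommGroup V] [Module D.L V]
variable (x : Fin D.p → V →ₗ[D.L] V) (hx : ∀ i j v, x i (x j v) = x j (x i v))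

/-- the operators `Y_{i,j} = (1/k) ∑_l ζ^{-jl} x_i^{(l)}` -/
def yop (q : Fin D.p × ZMod A.k) : Module.End D.L (A.PV V) :=
  (algebraMap D.F D.L (A.k : D.F)⁻¹) • ∑ l, algebraMap D.F D.L (A.zp (-(q.2 * l))) • A.sl l (x q.1)

theorem yop_comm (hx : ∀ i j v, x i (x j v) = x j (x i v)) (q q' : Fin D.p × ZMod A.k) :
    A.yop V x q * A.yop V x q' = A.yop V x q' * A.yop V x q := by
  have h : Commute (A.yop V x q) (A.yop V x q') := by
    unfold yop
    refine Commute.smul_left (Commute.smul_right ?_ _) _
    refine Commute.sum_left _ _ _ fun l _ => Commute.sum_right _ _ _ fun l' _ => ?_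
    exact Commute.smul_left (Commute.smul_right (A.sl_comm l l' _ _ (hx _ _)) _) _
  exact h

/-- the action of `S_k` on the tensor power -/
def pka (hx : ∀ i j v, x i (x j v) = x j (x i v)) : A.S →+* AddMonoid.End (A.PV V) :=
  (toAE (A.PV V)).comp (aevC (A.yop V x) (A.yop_comm V x hx) : A.S →ₐ[D.L] _).toRingHom

theorem pka_C (hx : ∀ i j v, x i (x j v) = x j (x i v)) (c : D.L) (z : A.PV V) :
    A.pka V x hx (MvPolynomial.C c) z = c • z := by
  show (aevC (A.yop V x) (A.yop_comm V x hx) (MvPolynomial.C c : A.S)) z = _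
  rw [aevC_C]
  rfl

theorem pka_X (hx : ∀ i j v, x i (x j v) = x j (x i v)) (q : Fin D.p × ZMod A.k) (z : A.PV V) :
    A.pka V x hx (MvPolynomial.X q) z = A.yop V x q z := by
  show (aevC (A.yop V x) (A.yop_comm V x hx) (MvPolynomial.X q : A.S)) z = _
  rw [aevC_X]

end

section

variable (M : Type u) [AddCommGroup M] [Module D.R M]

/-- the tensor power of an object -/
def Pk : Type u := A.PV (UL D M)

instance : AddCommGroup (A.Pk M) := inferInstanceAs (AddCommGroup (A.PV (UL D M)))

instance : Module D.L (A.Pk M) := inferInstanceAs (Module D.L (A.PV (UL D M)))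

/-- action of `S_k` -/
def pks : A.S →+* AddMonoid.End (A.Pk M) := A.pka (UL D M) (xop D M) (xop_comm D M)

/-- action of the generators -/
def pkg : Gk D.F → AddMonoid.End (A.Pk M)
  | Gk.bs Gn.tau => A.smp (V := UL D M) (W := UL D M) (D.s : D.L →+* D.L) (genA D M Gn.tau)
      (genA_tau D M) (Equiv.refl _)
  | Gk.bs (Gn.th c') => A.smp (V := UL D M) (W := UL D M) (RingHom.id D.L)
      (genA D M (Gn.th c')) (genA_th D M c') (Equiv.refl _)
  | Gk.cyc => A.smp (V := UL D M) (W := UL D M) (RingHom.id D.L) (AddMonoidHom.id (UL D M))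
      (fun _ _ => rfl) (Equiv.subRight 1)

theorem smp_yop {V : Type u} [AddCommGroup V] [Module D.L V] (x : Fin D.p → V →ₗ[D.L] V)
    (r : D.L →+* D.L) (hr : ∀ c : D.F, r (algebraMap D.F D.L c) = algebraMap D.F D.L c)
    (f : V →+ V) (hf : ∀ (c : D.L) v, f (c • v) = r c • f v) (e : ZMod A.k ≃ ZMod A.k)
    (q q' : Fin D.p × ZMod A.k) (c' : D.L) (hq : q'.2 = q.2)
    (h : ∀ v, f (x q.1 v) = c' • x q'.1 (f v)) (a : ZMod A.k)
    (he : ∀ l, e.symm l = l + a) (z : A.PV V) :
    A.smp r f hf e (A.yop V x q z) =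
      (c' * algebraMap D.F D.L (A.zp (q.2 * a))) • A.yop V x q' (A.smp r f hf e z) := by
  have h1 : A.yop V x q z = (algebraMap D.F D.L (A.k : D.F)⁻¹) •
      ∑ l, algebraMap D.F D.L (A.zp (-(q.2 * l))) • A.sl l (x q.1) z := by
    simp [yop]
  have h2 : A.yop V x q' (A.smp r f hf e z) = (algebraMap D.F D.L (A.k : D.F)⁻¹) •
      ∑ l, algebraMap D.F D.L (A.zp (-(q.2 * l))) • A.sl l (x q'.1) (A.smp r f hf e z) := by
    simp [yop, hq]
  have h3 : ∑ l, algebraMap D.F D.L (A.zp (-(q.2 * l))) • A.sl l (x q'.1) (A.smp r f hf e z) =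
      ∑ l, algebraMap D.F D.L (A.zp (-(q.2 * (l + a)))) •
        A.sl (l + a) (x q'.1) (A.smp r f hf e z) :=
    (Equiv.sum_comp (Equiv.addRight a) (fun l =>
      algebraMap D.F D.L (A.zp (-(q.2 * l))) • A.sl l (x q'.1) (A.smp r f hf e z))).symm
  rw [h1, h2, h3, smp_smul, map_sum, hr, smul_comm (c' * _) (algebraMap D.F D.L (A.k : D.F)⁻¹),
    Finset.smul_sum, Finset.smul_sum, Finset.smul_sum]
  apply Finset.sum_congr rfl
  intro l _
  congr 1
  rw [smp_smul, hr, smp_sl A r f hf e l (x q.1) (x q'.1) c' h, he, smul_smul, smul_smul]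
  congr 1
  rw [mul_assoc, ← map_mul, ← zp_add, mul_comm]
  congr 3
  ring

theorem pk_compat (g : Gk D.F) (s : A.S) (z : A.Pk M) :
    A.pkg M g (A.pks M s z) = A.pks M (A.ph g s) (A.pkg M g z) := by
  have hCC : ∀ (c : D.L) (z : A.Pk M), A.pks M (MvPolynomial.C c) z = c • z := fun c z =>
    A.pka_C (UL D M) (xop D M) (xop_comm D M) c z
  have hXX : ∀ q (z : A.Pk M), A.pks M (MvPolynomial.X q) z = A.yop (UL D M) (xop D M) q z :=
    fun q z => A.pka_X (UL D M) (xop D M) (xop_comm D M) q z
  have key := compat_gen (P := A.Pk M) (A.pks M) (A.ph g) (A.pkg M g) ?_ ?_ s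
  · exact congrArg (fun t : AddMonoid.End (A.Pk M) => t z) key
  · intro c
    refine AddMonoidHom.ext fun z => ?_
    show A.pkg M g (A.pks M (MvPolynomial.C c) z) = A.pks M (A.ph g (MvPolynomial.C c)) (A.pkg M g z)
    rw [hCC]
    cases g with
    | bs g => cases g with
      | tau =>
        have : A.ph (Gk.bs Gn.tau) (MvPolynomial.C c) = MvPolynomial.C (D.s c) := by
          simp [ph, tauS]
        rw [this, hCC]
        exact A.smp_smul _ _ _ _ c z
      | th c' =>
        have : A.ph (Gk.bs (Gn.th c')) (MvPolynomial.C c) = MvPolynomial.C c := by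
          simp [ph, thS]
        rw [this, hCC]
        exact A.smp_smul _ _ _ _ c z
    | cyc =>
        have : A.ph Gk.cyc (MvPolynomial.C c) = MvPolynomial.C c := by
          simp [ph, cyS]
        rw [this, hCC]
        exact A.smp_smul _ _ _ _ c z
  · intro q
    refine AddMonoidHom.ext fun z => ?_
    show A.pkg M g (A.pks M (MvPolynomial.X q) z) = A.pks M (A.ph g (MvPolynomial.X q)) (A.pkg M g z)
    rw [hXX]
    cases g with
    | bs g => cases g with
      | tau =>
        have : A.ph (Gk.bs Gn.tau) (MvPolynomial.X q) =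
            MvPolynomial.C (algebraMap D.F D.L (D.cf (q.1 + 1))) *
              MvPolynomial.X (q.1 + 1, q.2) := by
          simp [ph, tauS]
        rw [this, map_mul]
        show _ = A.pks M _ (A.pks M _ _)
        rw [hCC, hXX]
        have h := A.smp_yop (V := UL D M) (xop D M) (D.s : D.L →+* D.L)
          (fun c => D.s.commutes c) (genA D M Gn.tau) (genA_tau D M) (Equiv.refl _) q
          (q.1 + 1, q.2) (algebraMap D.F D.L (D.cf (q.1 + 1))) rfl (genA_xop_tau D M q.1) 0
          (by simp) z
        rw [mul_zero, zp_zero, map_one, mul_one] at h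
        exact h
      | th c' =>
        have : A.ph (Gk.bs (Gn.th c')) (MvPolynomial.X q) =
            MvPolynomial.C (algebraMap D.F D.L (c' : D.F)) * MvPolynomial.X q := by
          simp [ph, thS]
        rw [this, map_mul]
        show _ = A.pks M _ (A.pks M _ _)
        rw [hCC, hXX]
        have h := A.smp_yop (V := UL D M) (xop D M) (RingHom.id D.L)
          (fun c => rfl) (genA D M (Gn.th c')) (genA_th D M c') (Equiv.refl _) q q
          (algebraMap D.F D.L (c' : D.F)) rfl (genA_xop_th D M c' q.1) 0 (by simp) z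
        rw [mul_zero, zp_zero, map_one, mul_one] at h
        exact h
    | cyc =>
        have : A.ph Gk.cyc (MvPolynomial.X q) =
            MvPolynomial.C (algebraMap D.F D.L (A.zp q.2)) * MvPolynomial.X q := by
          simp [ph, cyS]
        rw [this, map_mul]
        show _ = A.pks M _ (A.pks M _ _)
        rw [hCC, hXX]
        have h := A.smp_yop (V := UL D M) (xop D M) (RingHom.id D.L)
          (fun c => rfl) (AddMonoidHom.id (UL D M)) (fun c m => rfl) (Equiv.subRight 1) q q
          1 rfl (fun v => by rw [one_smul]; rfl) 1 (by intro l; rfl) z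
        rw [mul_one, one_mul] at h
        exact h

instance : Module A.R (A.Pk M) := rgModule A.ph (A.pks M) (A.pkg M) (A.pk_compat M)

end

end Adm

end MSA
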