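import Mathlib
import Pool.Agent.MSA.Tw
import Pool.Agent.MSA.Pk

/-!
# Predicates used in the ADM part
-/

set_option autoImplicit false
set_option linter.unusedSectionVars false

noncomputable section

namespace MSA

universe u v w

instance Dat.fixF (D : Dat.{u}) : FixF D.F D.ph where
  fix := by
    intro g c
    have h : algebraMap D.F D.S c = MvPolynomial.C (algebraMap D.F D.L c) := rfl
    rw [h]
    cases g with
    | tau =>
      show D.tauS _ = _
      rw [Dat.tauS_C, AlgEquiv.commutes]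
    | th c' => simp [Dat.ph, Dat.thS]

namespace Dat

variable (D : Dat.{u})

section

variable (M : Type u) [AddCommGroup M] [Module D.R M]

/-- `M_n` is finite dimensional over `L` -/
def FdW (n : ℤ) : Prop :=
  @Module.Finite D.L (D.wtL M n) _ _ (@Submodule.module _ _ _ _
    (Module.compHom M ((iot D.ph).comp MvPolynomial.C)) (D.wtL M n))

/-- Graded modules with finite dimensional weight spaces, bounded below (not necessarily finitely
generated). -/
structure IsW : Prop where
  wts : Wts D.F D.ph M D.p D.b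
  fd : ∀ n, D.FdW M n
  bd : ∃ n₀ : ℤ, ∀ n < n₀, wt D.F D.ph M n = ⊥

/-- invariant elements of weight `p n` -/
def minv (n : ℤ) : AddSubgroup M where
  carrier := {m | m ∈ wt D.F D.ph M (D.p * n) ∧
    gam D.ph Gn.tau • m = iot D.ph (algebraMap D.F D.S (D.b ^ n)) • m}
  zero_mem' := ⟨AddSubgroup.zero_mem _, by rw [smul_zero, smul_zero]⟩
  add_mem' := fun {x y} hx hy => ⟨AddSubgroup.add_mem _ hx.1 hy.1, by
    rw [smul_add, smul_add, hx.2, hy.2]⟩
  neg_mem' := fun {x} hx => ⟨AddSubgroup.neg_mem _ hx.1, by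
    rw [smul_neg, smul_neg, hx.2]⟩

/-- the leading coefficient (times a factorial): `(-1)^c * μ_c` -/
def E (c : ℕ) : ℤ := (-1) ^ c * D.mom M c

variable {M}

/-- annihilator of an element -/
def annI (m : M) : Ideal D.S where
  carrier := {s | iot D.ph s • m = 0}
  zero_mem' := by
    show iot D.ph 0 • m = 0
    rw [map_zero, zero_smul]
  add_mem' := fun {a b} ha hb => by
    show iot D.ph (a + b) • m = 0
    rw [map_add, add_smul, show iot D.ph a • m = 0 from ha, show iot D.ph b • m = 0 from hb,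
      add_zero]
  smul_mem' := fun c x hx => by
    show iot D.ph (c * x) • m = 0
    rw [map_mul, mul_smul, show iot D.ph x • m = 0 from hx, smul_zero]

end

/-- Prime objects of codimension `c`. -/
structure IsQ (c : ℕ) (q : Ideal D.S) : Prop where
  st : StI D.ph q
  a : D.IsA (D.Cy q) c
  na : ¬ D.IsA (D.Cy q) (c + 1)
  reg : ∀ (n : ℕ) (r : D.S), D.Iv n r → r ∉ q → ∀ s, r * s ∈ q → s ∈ q
  pure : ∀ N : Submodule D.R (D.Cy q), D.IsA N (c + 1) → N = ⊥

end Dat

namespace Adm

variable {D : Dat.{u}} (A : Adm D)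

section

variable (Z : Type u) [AddCommGroup Z] [Module A.R Z]

/-- good modules over `R_k` (not necessarily finitely generated) -/
structure IsK : Prop where
  wts : Wts D.F A.ph Z D.p D.b
  cyk : ∀ z : Z, (gam A.ph Gk.cyc) ^ A.k • z = z
  com : ∀ (g : Gn D.F) (z : Z), gam A.ph Gk.cyc • gam A.ph (Gk.bs g) • z =
    gam A.ph (Gk.bs g) • gam A.ph Gk.cyc • z

/-- good finitely generated modules over `R_k` -/
structure IsZ : Prop where
  fin : FinS A.ph Z
  k : A.IsK Z

/-- the variables `Y_{i,j}`, `j ≠ 0`, act as zero -/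
def KilY : Prop := ∀ (x : Fin D.p × ZMod A.k), x.2 ≠ 0 → ∀ z : Z,
  iot A.ph (MvPolynomial.X x) • z = 0

/-- the ideal `I` of `S` acts as zero through the slot `0` -/
def Kil0 (I : Ideal D.S) : Prop := ∀ s ∈ I, ∀ z : Z, iot A.ph (A.slot 0 s) • z = 0

end

/-- The complex `T(Z)`. -/
def tch (Z : Type u) [AddCommGroup Z] [Module A.R Z] : Ch.{u} A.R := A.kT.ch Z

end Adm

/-- weights on a Koszul datum -/
structure KW {F : Type u} [Field F] {S : Type u} [CommRing S] [Algebra F S] {Γ : Type u}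
    [HasTh F Γ] {φ : Γ → S →+* S} (K : KS F φ) (p : ℕ) (b : F) where
  dg : K.J → ℤ
  hth : ∀ (c : Fˣ) (j : K.J), K.rho (HasTh.th c) (Pi.single j 1) =
    ((c ^ dg j : Fˣ) : F) • (Pi.single j 1 : K.J → F)
  htau : ∀ j i : K.J, K.rho (HasTh.tau F) (Pi.single j 1) i ≠ 0 → dg i = dg j
  htp : ∀ j : K.J, (K.rho (HasTh.tau F) ^ p) (Pi.single j 1) =
    (b ^ dg j) • (Pi.single j 1 : K.J → F)

/-- cyclic symmetry of a Koszul datum over `S_k` -/
structure KC {D : Dat.{u}} (A : Adm D) (K : KS D.F A.ph) : Prop where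
  cyk : K.rho Gk.cyc ^ A.k = 1
  com : ∀ g : Gn D.F, K.rho Gk.cyc * K.rho (Gk.bs g) = K.rho (Gk.bs g) * K.rho Gk.cyc

end MSA
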