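import Mathlib
import Pool.Agent.MSA.Prd
import Pool.Agent.MSX.Sig

/-!
# Devissage: definitions

Twists of maps, multiplication by an invariant, submodules.
-/

set_option autoImplicit false
set_option linter.unusedSectionVars false

noncomputable section

namespace MSA

universe u v w

open MvPolynomial

namespace Dat

variable (D : Dat.{u})

section

variable {M N : Type u} [AddCommGroup M] [Module D.R M] [AddCommGroup N] [Module D.R N]

/-- The twist of a linear map. -/
def twM (n : ℤ) (f : M →ₗ[D.R] N) : D.T n M →ₗ[D.R] D.T n N :=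
  mkLin (M := D.T n M) (N := D.T n N)
    { toFun := fun m => toTw D.ph (D.chi n) N (f ((toTw D.ph (D.chi n) M).symm m))
      map_zero' := by rw [map_zero, map_zero, map_zero]
      map_add' := fun x y => by rw [map_add, map_add, map_add] }
    (fun s m => by
      show toTw D.ph (D.chi n) N (f ((toTw D.ph (D.chi n) M).symm
        (iot D.ph s • toTw D.ph (D.chi n) M ((toTw D.ph (D.chi n) M).symm m)))) = iot D.ph s •
          toTw D.ph (D.chi n) N (f ((toTw D.ph (D.chi n) M).symm m))
      rw [tw_iot, AddEquiv.symm_apply_apply, map_smul, tw_iot])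
    (fun g m => by
      show toTw D.ph (D.chi n) N (f ((toTw D.ph (D.chi n) M).symm
        (gam D.ph g • toTw D.ph (D.chi n) M ((toTw D.ph (D.chi n) M).symm m)))) = gam D.ph g •
          toTw D.ph (D.chi n) N (f ((toTw D.ph (D.chi n) M).symm m))
      rw [tw_gam, AddEquiv.symm_apply_apply, tw_gam]
      exact congrArg _ ((map_smul f _ _).trans (congrArg _ (map_smul f _ _))))

theorem twM_apply (n : ℤ) (f : M →ₗ[D.R] N) (m : M) :
    D.twM n f (toTw D.ph (D.chi n) M m) = toTw D.ph (D.chi n) N (f m) := rfl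

theorem thS_hom (c : D.Fˣ) {r : D.S} {k : ℕ} (h : r.IsHomogeneous k) :
    D.thS c r = algebraMap D.F D.S ((c : D.F) ^ k) * r := by
  have ha : algebraMap D.F D.S ((c : D.F) ^ k) = C (algebraMap D.F D.L (c : D.F) ^ k) := by
    show C (algebraMap D.F D.L _) = _
    rw [map_pow]
  rw [ha]
  unfold thS
  rw [coe_eval₂Hom, eval₂_eq']
  have h3 : r = ∑ d ∈ r.support, C (coeff d r) * ∏ i, MvPolynomial.X i ^ d i := by
    conv_lhs => rw [← eval₂_eta r, eval₂_eq']
  conv_rhs => rw [h3]
  rw [Finset.mul_sum]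
  refine Finset.sum_congr rfl fun d hd => ?_
  have h4 : ∑ i, d i = k := by
    have h5 := h.degree_eq_sum_deg_support hd
    rw [h5]
    refine (Finset.sum_subset (Finset.subset_univ _) fun i _ hi => ?_).symm
    exact Finsupp.notMem_support_iff.1 hi
  simp only [mul_pow, Finset.prod_mul_distrib, Finset.prod_pow_eq_pow_sum, h4]
  rw [map_pow]
  ring

theorem iv_ph {n : ℕ} {r : D.S} (h : D.Iv n r) (g : Gn D.F) :
    D.ph g r = algebraMap D.F D.S (D.chi n g) * r := by
  cases g with
  | tau =>
    show D.tauS r = algebraMap D.F D.S (D.b ^ (n : ℤ)) * r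
    rw [zpow_natCast]
    refine h.2.trans ?_
    show C (D.X.bL ^ n) * r = C (algebraMap D.F D.L (D.b ^ n)) * r
    rw [map_pow (algebraMap D.F D.L)]
    rfl
  | th c =>
    show D.thS c r = algebraMap D.F D.S ((c : D.F) ^ ((D.p : ℤ) * (n : ℤ))) * r
    rw [← Nat.cast_mul, zpow_natCast]
    exact D.thS_hom c h.1

variable (M) in
/-- Multiplication by an invariant `r` of degree `p n`, as a linear map `M(-pn) → M`. -/
def mulI {n : ℕ} {r : D.S} (h : D.Iv n r) : D.T n M →ₗ[D.R] M :=
  mkLin (M := D.T n M) (N := M)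
    { toFun := fun m => iot D.ph r • ((toTw D.ph (D.chi n) M).symm m)
      map_zero' := by rw [map_zero, smul_zero]
      map_add' := fun x y => by rw [map_add, smul_add] }
    (fun s m => by
      show iot D.ph r • ((toTw D.ph (D.chi n) M).symm
        (iot D.ph s • toTw D.ph (D.chi n) M ((toTw D.ph (D.chi n) M).symm m))) = iot D.ph s •
          iot D.ph r • ((toTw D.ph (D.chi n) M).symm m)
      rw [tw_iot, AddEquiv.symm_apply_apply, ← mul_smul, ← mul_smul, ← map_mul, ← map_mul,
        mul_comm])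
    (fun g m => by
      show iot D.ph r • ((toTw D.ph (D.chi n) M).symm
        (gam D.ph g • toTw D.ph (D.chi n) M ((toTw D.ph (D.chi n) M).symm m))) = gam D.ph g •
          iot D.ph r • ((toTw D.ph (D.chi n) M).symm m)
      rw [tw_gam, AddEquiv.symm_apply_apply, ← mul_smul (gam D.ph g), gam_mul_iot, mul_smul,
        D.iv_ph h, ← mul_smul, ← map_mul, mul_comm])

theorem mulI_apply {n : ℕ} {r : D.S} (h : D.Iv n r) (m : M) :
    D.mulI M h (toTw D.ph (D.chi n) M m) = iot D.ph r • m := rfl

/-- The map `S(-pn) → M`, `f ↦ f m`, for an invariant element `m` of weight `p n`. -/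
def orb {n : ℤ} {m : M} (h : m ∈ D.minv M n) : D.T n (Sr D.ph) →ₗ[D.R] M :=
  mkLin (M := D.T n (Sr D.ph)) (N := M)
    { toFun := fun f => iot D.ph ((toSr D.ph).symm ((toTw D.ph (D.chi n) (Sr D.ph)).symm f)) • m
      map_zero' := by rw [map_zero, map_zero, map_zero, zero_smul]
      map_add' := fun x y => by rw [map_add, map_add, map_add, add_smul] }
    (fun s f => by
      show iot D.ph ((toSr D.ph).symm ((toTw D.ph (D.chi n) (Sr D.ph)).symm
        (iot D.ph s • toTw D.ph (D.chi n) (Sr D.ph) (toSr D.ph ((toSr D.ph).symm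
          ((toTw D.ph (D.chi n) (Sr D.ph)).symm f)))))) • m = iot D.ph s • iot D.ph
            ((toSr D.ph).symm ((toTw D.ph (D.chi n) (Sr D.ph)).symm f)) • m
      rw [tw_iot, AddEquiv.symm_apply_apply, sr_iot, RingEquiv.symm_apply_apply, map_mul,
        mul_smul])
    (fun g f => by
      show iot D.ph ((toSr D.ph).symm ((toTw D.ph (D.chi n) (Sr D.ph)).symm
        (gam D.ph g • toTw D.ph (D.chi n) (Sr D.ph) (toSr D.ph ((toSr D.ph).symm
          ((toTw D.ph (D.chi n) (Sr D.ph)).symm f)))))) • m = gam D.ph g • iot D.ph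
            ((toSr D.ph).symm ((toTw D.ph (D.chi n) (Sr D.ph)).symm f)) • m
      have hm : gam D.ph g • m = iot D.ph (algebraMap D.F D.S (D.chi n g)) • m := by
        cases g with
        | tau => exact h.2
        | th c =>
          refine (h.1 c).trans ?_
          show _ = iot D.ph (algebraMap D.F D.S ((c : D.F) ^ ((D.p : ℤ) * n))) • m
          rw [Units.val_zpow_eq_zpow_val]
      rw [tw_gam, AddEquiv.symm_apply_apply, sr_gam, sr_iot, RingEquiv.symm_apply_apply,
        ← mul_smul, gam_mul_iot, mul_smul, hm, ← mul_smul, ← map_mul, mul_comm])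

theorem orb_apply {n : ℤ} {m : M} (h : m ∈ D.minv M n) (f : D.S) :
    D.orb h (toTw D.ph (D.chi n) (Sr D.ph) (toSr D.ph f)) = iot D.ph f • m := rfl

variable (M) in
/-- The submodule of the elements killed by an invariant. -/
def killI {n : ℕ} {r : D.S} (h : D.Iv n r) : Submodule D.R M :=
  mkSub
    { carrier := {m : M | iot D.ph r • m = 0}
      zero_mem' := smul_zero _
      add_mem' := fun {x y} hx hy => by
        show iot D.ph r • (x + y) = 0
        rw [smul_add, show iot D.ph r • x = 0 from hx, show iot D.ph r • y = 0 from hy, add_zero]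
      neg_mem' := fun {x} hx => by
        show iot D.ph r • (-x) = 0
        rw [smul_neg, show iot D.ph r • x = 0 from hx, neg_zero] }
    (fun s m hm => by
      show iot D.ph r • iot D.ph s • m = 0
      rw [← mul_smul, ← map_mul, mul_comm, map_mul, mul_smul, show iot D.ph r • m = 0 from hm,
        smul_zero])
    (fun g m hm => by
      have hm' : iot D.ph r • m = 0 := hm
      have h1 : gam D.ph g • iot D.ph r • m = 0 := by rw [hm', smul_zero]
      have h2 : iot D.ph (algebraMap D.F D.S (D.chi n g)) • iot D.ph r • gam D.ph g • m = 0 := by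
        rw [← mul_smul (gam D.ph g), gam_mul_iot, D.iv_ph h, map_mul, mul_smul, mul_smul] at h1
        exact h1
      have hc : D.chi n g ≠ 0 := by
        cases g with
        | tau => exact zpow_ne_zero _ D.X.b_ne
        | th c => exact zpow_ne_zero _ c.ne_zero
      show iot D.ph r • gam D.ph g • m = 0
      have h3 : iot D.ph (algebraMap D.F D.S (D.chi n g)⁻¹) •
          iot D.ph (algebraMap D.F D.S (D.chi n g)) • iot D.ph r • gam D.ph g • m = 0 := by
        rw [h2, smul_zero]
      rwa [← mul_smul, ← map_mul, ← map_mul, inv_mul_cancel₀ hc, map_one, map_one, one_smul] at h3)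

theorem mem_killI {n : ℕ} {r : D.S} (h : D.Iv n r) (m : M) :
    m ∈ D.killI M h ↔ iot D.ph r • m = 0 := Iff.rfl

theorem mom_zero [Subsingleton M] (j : ℕ) : D.mom M j = 0 := by
  have h1 : ∀ n, D.hf M n = 0 := by
    intro n
    unfold hf
    let _ := Module.compHom M ((iot D.ph).comp (C : D.L →+* D.S))
    exact Module.finrank_zero_of_subsingleton
  have h2 : ∀ n, D.kap M n = 0 := by
    intro n
    unfold kap
    refine Finset.sum_eq_zero fun j _ => ?_
    rw [h1, Nat.cast_zero, mul_zero]
  unfold mom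
  refine finsum_eq_zero_of_forall_eq_zero fun n => ?_
  rw [h2, zero_mul]

theorem isQ_one {c : ℕ} {q : Ideal D.S} (hq : D.IsQ c q) : (1 : D.S) ∉ q := by
  intro h1
  have h2 : idl D.ph q = ⊤ := by
    rw [eq_top_iff]
    intro x _
    have h3 := (mem_idl D.ph hq.st ((toSr D.ph).symm x)).2 (by
      rw [(Ideal.eq_top_iff_one q).2 h1]
      exact Submodule.mem_top)
    rwa [RingEquiv.apply_symm_apply] at h3
  have h4 : Subsingleton (D.Cy q) := Submodule.Quotient.subsingleton_iff.2 h2
  exact hq.na ⟨hq.a.g, fun j _ => D.mom_zero j⟩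

variable (M) in
/-- The submodule of the elements killed by an invariant outside of the prime object `q`. -/
def tor {c : ℕ} {q : Ideal D.S} (hq : D.IsQ c q) : Submodule D.R M :=
  mkSub
    { carrier := {m : M | ∃ (n : ℕ) (r : D.S), D.Iv n r ∧ r ∉ q ∧ iot D.ph r • m = 0}
      zero_mem' := ⟨0, 1, ⟨by rw [mul_zero]; exact isHomogeneous_one _ _, by simp⟩, D.isQ_one hq, smul_zero _⟩
      add_mem' := fun {x y} hx hy => by
        obtain ⟨n, r, hr, hrq, h1⟩ := hx
        obtain ⟨n', r', hr', hrq', h2⟩ := hy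
        refine ⟨n + n', r * r', Pool.Agent.MSX.Dat.Inv.mul D.X hr hr', fun h => hrq' (hq.reg n r hr hrq r' h), ?_⟩
        rw [smul_add, map_mul, mul_smul, mul_smul, h2, smul_zero, add_zero, ← mul_smul, ← map_mul,
          mul_comm, map_mul, mul_smul, h1, smul_zero]
      neg_mem' := fun {x} hx => by
        obtain ⟨n, r, hr, hrq, h1⟩ := hx
        exact ⟨n, r, hr, hrq, by rw [smul_neg, h1, neg_zero]⟩ }
    (fun s m hm => by
      obtain ⟨n, r, hr, hrq, h1⟩ := hm
      exact ⟨n, r, hr, hrq, (D.killI M hr).smul_mem (iot D.ph s) h1⟩)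
    (fun g m hm => by
      obtain ⟨n, r, hr, hrq, h1⟩ := hm
      exact ⟨n, r, hr, hrq, (D.killI M hr).smul_mem (gam D.ph g) h1⟩)

theorem mem_tor {c : ℕ} {q : Ideal D.S} (hq : D.IsQ c q) (m : M) :
    m ∈ D.tor M hq ↔ ∃ (n : ℕ) (r : D.S), D.Iv n r ∧ r ∉ q ∧ iot D.ph r • m = 0 := Iff.rfl

end

end Dat

end MSA
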