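import Mathlib
import Pool.Agent.MSA.DvD

/-!
# Twists: functoriality

PROOFS. The underlying group of `D.T n M` is `M` (`toTw`); `iot s • toTw m = toTw (iot s • m)` (`tw_iot`),
`gam g • toTw m = toTw (iot (algebraMap (χ_n g)) • gam g • m)` (`tw_gam`), `χ_0 = 1`,
`χ_m g * χ_n g = χ_(m+n) g` (`zpow_add₀`; `b ≠ 0`, `c ≠ 0`; `D.p * (m + n)`).  All maps are the identity
on the underlying groups (`mkLin`).  `tw_iso`: `twM n e`, inverse `twM n e.symm`.
-/

set_option autoImplicit false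
set_option linter.unusedSectionVars false

noncomputable section

namespace MSA

universe u v w

open MvPolynomial

namespace Dat

variable (D : Dat.{u})

variable {M N : Type u} [AddCommGroup M] [Module D.R M] [AddCommGroup N] [Module D.R N]

theorem twM_inj (n : ℤ) {f : M →ₗ[D.R] N} (hf : Function.Injective f) :
    Function.Injective (D.twM n f) := by
  intro x y h
  have h1 : toTw D.ph (D.chi n) N (f ((toTw D.ph (D.chi n) M).symm x)) =
      toTw D.ph (D.chi n) N (f ((toTw D.ph (D.chi n) M).symm y)) := h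
  exact (toTw D.ph (D.chi n) M).symm.injective (hf ((toTw D.ph (D.chi n) N).injective h1))

theorem twM_surj (n : ℤ) {f : M →ₗ[D.R] N} (hf : Function.Surjective f) :
    Function.Surjective (D.twM n f) := by
  intro y
  obtain ⟨m, hm⟩ := hf ((toTw D.ph (D.chi n) N).symm y)
  refine ⟨toTw D.ph (D.chi n) M m, ?_⟩
  rw [twM_apply, hm, AddEquiv.apply_symm_apply]

/-- The twist of an exact sequence is exact. -/
theorem twM_exact {K : Type u} [AddCommGroup K] [Module D.R K] (n : ℤ) {i : K →ₗ[D.R] M}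
    {q : M →ₗ[D.R] N} (h : ∀ m, q m = 0 ↔ ∃ k, i k = m) (m : D.T n M) :
    D.twM n q m = 0 ↔ ∃ k, D.twM n i k = m := by
  constructor
  · intro h1
    have h2 : toTw D.ph (D.chi n) N (q ((toTw D.ph (D.chi n) M).symm m)) = 0 := h1
    rw [map_eq_zero_iff _ (toTw D.ph (D.chi n) N).injective] at h2
    obtain ⟨k, hk⟩ := (h _).1 h2
    refine ⟨toTw D.ph (D.chi n) K k, ?_⟩
    rw [twM_apply, hk, AddEquiv.apply_symm_apply]
  · rintro ⟨k, rfl⟩
    have h2 : q (i ((toTw D.ph (D.chi n) K).symm k)) = 0 := (h _).2 ⟨_, rfl⟩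
    have h3 : D.twM n q (D.twM n i k) = toTw D.ph (D.chi n) N
        (q (i ((toTw D.ph (D.chi n) K).symm k))) := by
      have h4 : D.twM n i k = toTw D.ph (D.chi n) M (i ((toTw D.ph (D.chi n) K).symm k)) := rfl
      rw [h4, twM_apply]
    rw [h3, h2, map_zero]

theorem tw_iso (n : ℤ) (e : M ≃ₗ[D.R] N) : Nonempty (D.T n M ≃ₗ[D.R] D.T n N) :=
  ⟨LinearEquiv.ofBijective (D.twM n (e : M →ₗ[D.R] N))
    ⟨D.twM_inj n e.injective, D.twM_surj n e.surjective⟩⟩

theorem chi_ne (n : ℤ) (g : Gn D.F) : D.chi n g ≠ 0 := by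
  cases g with
  | tau => exact zpow_ne_zero _ D.X.b_ne
  | th c => exact zpow_ne_zero _ c.ne_zero

theorem chi_add (m n : ℤ) (g : Gn D.F) : D.chi m g * D.chi n g = D.chi (m + n) g := by
  cases g with
  | tau =>
    show D.b ^ m * D.b ^ n = D.b ^ (m + n)
    exact (zpow_add₀ D.X.b_ne m n).symm
  | th c =>
    show (c : D.F) ^ ((D.p : ℤ) * m) * (c : D.F) ^ ((D.p : ℤ) * n) =
      (c : D.F) ^ ((D.p : ℤ) * (m + n))
    rw [mul_add]
    exact (zpow_add₀ c.ne_zero _ _).symm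

theorem chi_zero (g : Gn D.F) : D.chi 0 g = 1 := by
  cases g with
  | tau =>
    show D.b ^ (0 : ℤ) = 1
    exact zpow_zero _
  | th c =>
    show (c : D.F) ^ ((D.p : ℤ) * 0) = 1
    rw [mul_zero]
    exact zpow_zero _

variable {D} in
/-- an additive equivalence that commutes with `S` and the generators -/
theorem tw_mk (e : M ≃+ N) (hS : ∀ (s : D.S) m, e (iot D.ph s • m) = iot D.ph s • e m)
    (hg : ∀ (g : Gn D.F) m, e (gam D.ph g • m) = gam D.ph g • e m) :
    Nonempty (M ≃ₗ[D.R] N) :=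
  ⟨LinearEquiv.ofBijective (mkLin (φ := D.ph) (M := M) (N := N) e.toAddMonoidHom hS hg)
    e.bijective⟩

variable (M)

theorem tw_tw (m n : ℤ) : Nonempty (D.T m (D.T n M) ≃ₗ[D.R] D.T (m + n) M) := by
  refine tw_mk (D := D) (M := D.T m (D.T n M)) (N := D.T (m + n) M)
    (((toTw D.ph (D.chi m) (D.T n M)).symm.trans (toTw D.ph (D.chi n) M).symm).trans
      (toTw D.ph (D.chi (m + n)) M)) ?_ ?_
  · intro s x
    obtain ⟨y, rfl⟩ := (toTw D.ph (D.chi m) (D.T n M)).surjective x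
    obtain ⟨z, rfl⟩ := (toTw D.ph (D.chi n) M).surjective y
    rw [tw_iot, tw_iot]
    simp only [AddEquiv.trans_apply, AddEquiv.symm_apply_apply]
    rw [tw_iot]
  · intro g x
    obtain ⟨y, rfl⟩ := (toTw D.ph (D.chi m) (D.T n M)).surjective x
    obtain ⟨z, rfl⟩ := (toTw D.ph (D.chi n) M).surjective y
    rw [tw_gam, tw_gam, tw_iot]
    simp only [AddEquiv.trans_apply, AddEquiv.symm_apply_apply]
    rw [tw_gam, ← D.chi_add, map_mul, map_mul, mul_smul]

theorem tw_zero : Nonempty (D.T 0 M ≃ₗ[D.R] M) := by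
  refine tw_mk (D := D) (M := D.T 0 M) (N := M) (toTw D.ph (D.chi 0) M).symm ?_ ?_
  · intro s x
    obtain ⟨y, rfl⟩ := (toTw D.ph (D.chi 0) M).surjective x
    rw [tw_iot]
    simp only [AddEquiv.symm_apply_apply]
  · intro g x
    obtain ⟨y, rfl⟩ := (toTw D.ph (D.chi 0) M).surjective x
    rw [tw_gam]
    simp only [AddEquiv.symm_apply_apply]
    rw [D.chi_zero, map_one, map_one, one_smul]

theorem tw_neg (n : ℤ) : Nonempty (D.T n (D.T (-n) M) ≃ₗ[D.R] M) := by
  have h1 := D.tw_tw M n (-n)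
  rw [add_neg_cancel] at h1
  obtain ⟨e1⟩ := h1
  obtain ⟨e2⟩ := D.tw_zero M
  exact ⟨e1.trans e2⟩

end Dat

end MSA
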