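import Mathlib
import Pool.Agent.MSA.TwF

/-!
# Annihilators of invariant elements

PROOFS. `m ∈ minv M n`: `gam g • m = iot (algebraMap (χ_n g)) • m` for all generators `g` (as in the
definition of `D.orb`).
`annI_st`: `iot s • m = 0` implies `0 = gam g • iot s • m = iot (φ_g s) • iot (χ_n g) • m`, and `χ_n g` is
invertible (`chi_ne`).
`mem_span_minv`: the range of `D.orb h` is a submodule; it contains `m` (`f = 1`) and is contained in
the span.
`cyc_iso`: `D.orb h : D.T n (Sr) → M` has range `span {m}` and `D.orb h (toTw (toSr f)) = 0` iff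
`f ∈ annI m` iff `toSr f ∈ idl (annI m)` (`mem_idl`, `annI_st`); the surjection `twM n (mkQ)` from
`D.T n (Sr)` onto `D.T n (Cy (annI m))` has the same kernel.  Use `LinearMap.quotKerEquivOfSurjective`
twice.
`annI_mono`: `x = iot s • m` (`mem_span_minv`), and `S` is commutative.
`cy_kill`: `x = mkQ (toSr f)`, `iot s • x = mkQ (toSr (s f))`.
`cy_top`: `Cy q = 0` iff `1 ∈ q`.
`cy_le`: for stable ideals `q ≤ q'` the quotient map `Cy q → Cy q'`, with kernel `(idl q').map mkQ`.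
-/

set_option autoImplicit false
set_option linter.unusedSectionVars false

noncomputable section

namespace MSA

universe u v w

open MvPolynomial

namespace Dat

variable (D : Dat.{u})

variable {M : Type u} [AddCommGroup M] [Module D.R M]

private theorem inv_gam {n : ℤ} {m : M} (h : m ∈ D.minv M n) (g : Gn D.F) :
    gam D.ph g • m = iot D.ph (algebraMap D.F D.S (D.chi n g)) • m := by
  cases g with
  | tau => exact h.2
  | th c =>
    refine (h.1 c).trans ?_
    show _ = iot D.ph (algebraMap D.F D.S ((c : D.F) ^ ((D.p : ℤ) * n))) • m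
    rw [Units.val_zpow_eq_zpow_val]

private theorem mem_annI {m : M} {s : D.S} : s ∈ D.annI m ↔ iot D.ph s • m = 0 := Iff.rfl

theorem annI_st {n : ℤ} {m : M} (h : m ∈ D.minv M n) : StI D.ph (D.annI m) := by
  intro g x hx
  rw [mem_annI] at hx ⊢
  have h1 : gam D.ph g • iot D.ph x • m = 0 := by rw [hx, smul_zero]
  have h2 : iot D.ph (algebraMap D.F D.S (D.chi n g)) • iot D.ph (D.ph g x) • m = 0 := by
    rw [← mul_smul, gam_mul_iot, mul_smul, D.inv_gam h g, ← mul_smul, ← map_mul, mul_comm,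
      map_mul, mul_smul] at h1
    exact h1
  have h3 : iot D.ph (algebraMap D.F D.S (D.chi n g)⁻¹) •
      iot D.ph (algebraMap D.F D.S (D.chi n g)) • iot D.ph (D.ph g x) • m = 0 := by
    rw [h2, smul_zero]
  rwa [← mul_smul, ← map_mul, ← map_mul, inv_mul_cancel₀ (D.chi_ne n g), map_one, map_one,
    one_smul] at h3

theorem mem_span_minv {n : ℤ} {m : M} (h : m ∈ D.minv M n) (x : M) :
    x ∈ Submodule.span D.R {m} ↔ ∃ s : D.S, iot D.ph s • m = x := by
  constructor
  · intro hx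
    have h1 : Submodule.span D.R {m} ≤ LinearMap.range (D.orb h) := by
      rw [Submodule.span_le, Set.singleton_subset_iff]
      refine ⟨toTw D.ph (D.chi n) (Sr D.ph) (toSr D.ph 1), ?_⟩
      rw [orb_apply, map_one, one_smul]
    obtain ⟨f, hf⟩ := h1 hx
    exact ⟨(toSr D.ph).symm ((toTw D.ph (D.chi n) (Sr D.ph)).symm f), hf⟩
  · rintro ⟨s, rfl⟩
    exact Submodule.smul_mem _ _ (Submodule.mem_span_singleton_self m)

theorem annI_mono {n : ℤ} {m : M} (h : m ∈ D.minv M n) {x : M}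
    (hx : x ∈ Submodule.span D.R {m}) : D.annI m ≤ D.annI x := by
  obtain ⟨s, rfl⟩ := (D.mem_span_minv h x).1 hx
  intro t ht
  rw [mem_annI] at ht ⊢
  rw [← mul_smul, ← map_mul, mul_comm, map_mul, mul_smul, ht, smul_zero]

theorem annI_eq_top {m : M} (h : (1 : D.S) ∈ D.annI m) : m = 0 := by
  rw [mem_annI, map_one, one_smul] at h
  exact h

theorem cy_mk (q : Ideal D.S) (s f : D.S) : iot D.ph s • (idl D.ph q).mkQ (toSr D.ph f) =
    (idl D.ph q).mkQ (toSr D.ph (s * f)) := by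
  rw [← map_smul, sr_iot]

theorem cy_mk_eq_zero {q : Ideal D.S} (hq : StI D.ph q) (f : D.S) :
    (idl D.ph q).mkQ (toSr D.ph f) = 0 ↔ f ∈ q := by
  rw [Submodule.mkQ_apply, Submodule.Quotient.mk_eq_zero, mem_idl D.ph hq]

/-- An ideal acts as zero on its cyclic module. -/
theorem cy_kill {q : Ideal D.S} (hq : StI D.ph q) (s : D.S) (hs : s ∈ q) (x : D.Cy q) :
    iot D.ph s • x = 0 := by
  obtain ⟨y, rfl⟩ := (idl D.ph q).mkQ_surjective x
  obtain ⟨f, rfl⟩ := (toSr D.ph).surjective y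
  rw [cy_mk, D.cy_mk_eq_zero hq]
  exact q.mul_mem_right f hs

theorem idl_le {q q' : Ideal D.S} (hq : StI D.ph q) (hq' : StI D.ph q') :
    idl D.ph q ≤ idl D.ph q' ↔ q ≤ q' := by
  constructor
  · intro h x hx
    exact (mem_idl D.ph hq' x).1 (h ((mem_idl D.ph hq x).2 hx))
  · intro h y hy
    obtain ⟨x, rfl⟩ := (toSr D.ph).surjective y
    exact (mem_idl D.ph hq' x).2 (h ((mem_idl D.ph hq x).1 hy))

theorem cyc_iso {n : ℤ} {m : M} (h : m ∈ D.minv M n) :
    Nonempty (D.T n (D.Cy (D.annI m)) ≃ₗ[D.R] (Submodule.span D.R {m} : Submodule D.R M)) := by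
  have hst := D.annI_st h
  let f₁ : D.T n (Sr D.ph) →ₗ[D.R] (Submodule.span D.R {m} : Submodule D.R M) :=
    (D.orb h).codRestrict (Submodule.span D.R {m}) (fun f => (D.mem_span_minv h _).2
      ⟨(toSr D.ph).symm ((toTw D.ph (D.chi n) (Sr D.ph)).symm f), rfl⟩)
  let f₂ : D.T n (Sr D.ph) →ₗ[D.R] D.T n (D.Cy (D.annI m)) :=
    D.twM n (idl D.ph (D.annI m)).mkQ
  have h₁ : Function.Surjective f₁ := by
    rintro ⟨x, hx⟩
    obtain ⟨s, hs⟩ := (D.mem_span_minv h x).1 hx
    exact ⟨toTw D.ph (D.chi n) (Sr D.ph) (toSr D.ph s), Subtype.ext hs⟩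
  have h₂ : Function.Surjective f₂ := D.twM_surj n (Submodule.mkQ_surjective _)
  have hk : LinearMap.ker f₂ = LinearMap.ker f₁ := by
    ext a
    obtain ⟨y, rfl⟩ := (toTw D.ph (D.chi n) (Sr D.ph)).surjective a
    obtain ⟨f, rfl⟩ := (toSr D.ph).surjective y
    rw [LinearMap.mem_ker, LinearMap.mem_ker]
    have e1 : f₂ (toTw D.ph (D.chi n) (Sr D.ph) (toSr D.ph f)) = 0 ↔
        (idl D.ph (D.annI m)).mkQ (toSr D.ph f) = 0 := by
      show D.twM n _ _ = 0 ↔ _
      rw [twM_apply]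
      exact (toTw D.ph (D.chi n) (D.Cy (D.annI m))).map_eq_zero_iff
    have e2 : f₁ (toTw D.ph (D.chi n) (Sr D.ph) (toSr D.ph f)) = 0 ↔ iot D.ph f • m = 0 :=
      Subtype.ext_iff
    rw [e1, e2, D.cy_mk_eq_zero hst]
    exact Iff.rfl
  exact ⟨(f₂.quotKerEquivOfSurjective h₂).symm.trans
    ((Submodule.quotEquivOfEq _ _ hk).trans (f₁.quotKerEquivOfSurjective h₁))⟩

/-- The cyclic module of a larger stable ideal is a quotient. -/
theorem cy_le {q q' : Ideal D.S} (hq : StI D.ph q) (hq' : StI D.ph q') (h : q ≤ q') :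
    Nonempty ((D.Cy q ⧸ (idl D.ph q').map (idl D.ph q).mkQ) ≃ₗ[D.R] D.Cy q') :=
  ⟨Submodule.quotientQuotientEquivQuotient _ _ ((D.idl_le hq hq').2 h)⟩

/-- If `r ∈ q'` is an invariant then the cyclic module of `q' ≥ q` is a quotient of the cokernel of
the multiplication by `r` on `Cy q`. -/
theorem cy_coker {q q' : Ideal D.S} (hq : StI D.ph q) (hq' : StI D.ph q') (h : q ≤ q') {n : ℕ}
    {r : D.S} (hr : D.Iv n r) (hrq : r ∈ q') :
    ∃ f : (D.Cy q ⧸ LinearMap.range (D.mulI (D.Cy q) hr)) →ₗ[D.R] D.Cy q',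
      Function.Surjective f := by
  have hle := (D.idl_le hq hq').2 h
  let F : D.Cy q →ₗ[D.R] D.Cy q' := (idl D.ph q).liftQ (idl D.ph q').mkQ (by
    rw [Submodule.ker_mkQ]
    exact hle)
  have hF : Function.Surjective F := by
    intro y
    obtain ⟨z, rfl⟩ := (idl D.ph q').mkQ_surjective y
    exact ⟨(idl D.ph q).mkQ z, rfl⟩
  refine ⟨(LinearMap.range (D.mulI (D.Cy q) hr)).liftQ F ?_, ?_⟩
  · rintro _ ⟨a, rfl⟩
    obtain ⟨x, rfl⟩ := (toTw D.ph (D.chi n) (D.Cy q)).surjective a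
    rw [LinearMap.mem_ker, mulI_apply, map_smul]
    exact D.cy_kill hq' r hrq _
  · intro y
    obtain ⟨x, rfl⟩ := hF y
    exact ⟨Submodule.Quotient.mk x, rfl⟩

end Dat

end MSA
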