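import Mathlib
import Pool.Agent.MSA.Rh0

/-!
# Relative primality and points of codimension one; orbits of points (part CLO)

PROOFS (theorems of `Pool.Agent.MSX`: `hom_dvd`, `hom_zero`, `exists_irr`, `sg_dvd`, `sg_iter`, `sg_inj`).
`rp_of_pt`: let `c ∣ f`, `c ∣ g`. `c` is homogeneous of some degree `i` (`hom_dvd`), `c ≠ 0`. If `i = 0` it is a
nonzero constant (`hom_zero`), a unit. If `i > 0` there is a point `P` with `P.gen ∣ c` (`exists_irr`), so `P.gen`
divides `f` and `g`: contradiction.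
`rp_pt`: `P.gen` would be a unit (`P.gen_irr.not_isUnit`).
`iv_sg`: `D.X.sg_dvd P f : (D.X.sg P).gen ∣ D.X.sig f ↔ P.gen ∣ f` and `D.X.sig f = C (D.X.bL ^ m) * f`, the constant is
a unit (as in the private `dvd_inv` of `MSX/Trip`).
`iv_iter`: induction (`Function.iterate_succ_apply'`).
`orS`: the relation `∃ i, sg^[i] P = P'`. Symmetric: `sg^[p] = id` (`D.X.sg_iter`), so if `sg^[i] P = P'` then
`sg^[p * i - i] P' = sg^[p * i] P = P` (`Function.iterate_add_apply`, `Function.iterate_mul`, `Function.iterate_fixed`).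
`pt_oro`: `Quotient.mk_out`. `oro_pt`: `Quotient.out_eq`. `iv_pt`: `pt_oro` and `iv_iter`.
`rp_iv`: `rp_of_pt`; if `P'.gen` divides `x` then `P' = sg^[i] P` by `hx`, so `P'.gen ∣ f` gives `P.gen ∣ f` (`iv_iter`).
-/

set_option autoImplicit false
set_option linter.unusedSectionVars false

noncomputable section

namespace MSA

universe u v w v'

namespace Dat

variable (D : Dat.{u})

theorem rp_of_pt {f g : D.S} {n : ℕ} (hf : f.IsHomogeneous n) (f0 : f ≠ 0)
    (h : ∀ P : D.Pt, P.gen ∣ f → ¬ P.gen ∣ g) : IsRelPrime f g := by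
  intro c hcf hcg
  have c0 : c ≠ 0 := by
    rintro rfl
    exact f0 (zero_dvd_iff.1 hcf)
  obtain ⟨k, hk⟩ := hcf
  have hf' : (c * k).IsHomogeneous n := by rw [← hk]; exact hf
  obtain ⟨i, j, _, hi, _⟩ := Pool.Agent.MSX.hom_of_mul hf' (by rw [← hk]; exact f0)
  rcases Nat.eq_zero_or_pos i with h0 | hpos
  · subst h0
    obtain ⟨a, ha⟩ := Pool.Agent.MSX.hom_zero hi
    have ha0 : a ≠ 0 := by
      rintro rfl
      rw [map_zero] at ha
      exact c0 ha
    rw [ha]
    exact (IsUnit.mk0 a ha0).map MvPolynomial.C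
  · obtain ⟨P, hP⟩ := Pool.Agent.MSX.exists_irr hi c0 hpos
    exact absurd (hP.trans hcg) (h P (hP.trans ⟨k, hk⟩))

theorem rp_pt {f g : D.S} (h : IsRelPrime f g) (P : D.Pt) (h1 : P.gen ∣ f) : ¬ P.gen ∣ g := by
  intro h2
  exact P.gen_irr.not_isUnit (h h1 h2)

theorem iv_sg {m : ℕ} {f : D.S} (hf : D.Iv m f) (P : D.Pt) :
    (D.X.sg P).gen ∣ f ↔ P.gen ∣ f := by
  rw [← D.X.sg_dvd P f, hf.2]
  have hc : D.X.bL ^ m ≠ 0 := pow_ne_zero _ D.X.bL_ne
  exact (((IsUnit.mk0 _ hc).map (MvPolynomial.C : D.L →+* D.S)).dvd_mul_left).symm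

theorem iv_iter {m : ℕ} {f : D.S} (hf : D.Iv m f) (P : D.Pt) (i : ℕ) :
    (D.X.sg^[i] P).gen ∣ f ↔ P.gen ∣ f := by
  induction i with
  | zero => rfl
  | succ i ih =>
    rw [Function.iterate_succ_apply', D.iv_sg hf, ih]

/-- points in one orbit -/
def orS : Setoid D.Pt where
  r := fun P P' => ∃ i : ℕ, D.X.sg^[i] P = P'
  iseqv := by
    refine ⟨fun P => ⟨0, rfl⟩, ?_, ?_⟩
    · rintro P P' ⟨i, hi⟩
      have h1 : ∀ (j : ℕ) (Q : D.Pt), D.X.sg^[D.p * j] Q = Q := by
        intro j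
        induction j with
        | zero => intro Q; rfl
        | succ j ih =>
          intro Q
          rw [Nat.mul_succ, Function.iterate_add_apply, D.X.sg_iter, ih]
      refine ⟨D.p * i - i, ?_⟩
      have h2 : D.p * i - i + i = D.p * i := by
        have : i ≤ D.p * i := Nat.le_mul_of_pos_left i D.X.hp.pos
        omega
      rw [← hi, ← Function.iterate_add_apply, h2, h1]
    · rintro P P' P'' ⟨i, hi⟩ ⟨j, hj⟩
      exact ⟨j + i, by rw [Function.iterate_add_apply, hi, hj]⟩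

/-- the set of orbits -/
def Or : Type u := Quotient D.orS

/-- a point of the orbit -/
def pt (o : D.Or) : D.Pt := Quotient.out (s := D.orS) o

/-- the orbit of a point -/
def oro (P : D.Pt) : D.Or := Quotient.mk D.orS P

theorem pt_oro (P : D.Pt) : ∃ i : ℕ, D.X.sg^[i] (D.pt (D.oro P)) = P :=
  Quotient.mk_out (s := D.orS) P

theorem oro_pt (o : D.Or) : D.oro (D.pt o) = o := Quotient.out_eq (s := D.orS) o

theorem oro_iter (P : D.Pt) (i : ℕ) : D.oro (D.X.sg^[i] P) = D.oro P := by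
  symm
  exact Quotient.sound (s := D.orS) ⟨i, rfl⟩

theorem pt_inj : Function.Injective D.pt := by
  intro o o' h
  rw [← D.oro_pt o, ← D.oro_pt o', h]

theorem iv_pt {m : ℕ} {f : D.S} (hf : D.Iv m f) (P : D.Pt) :
    (D.pt (D.oro P)).gen ∣ f ↔ P.gen ∣ f := by
  obtain ⟨i, hi⟩ := D.pt_oro P
  rw [← D.iv_iter hf (D.pt (D.oro P)) i, hi]

/-- An invariant all of whose points are conjugate to `P` is relatively prime to the invariants that
do not vanish at `P`. -/
theorem rp_iv {m n : ℕ} {x f : D.S} {P : D.Pt} (hx : D.Iv m x) (x0 : x ≠ 0) (hf : D.Iv n f)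
    (h : ∀ P' : D.Pt, P'.gen ∣ x → ∃ i : ℕ, D.X.sg^[i] P = P') (hP : ¬ P.gen ∣ f) :
    IsRelPrime x f := by
  refine D.rp_of_pt hx.1 x0 fun P' h1 h2 => ?_
  obtain ⟨i, hi⟩ := h P' h1
  rw [← hi] at h2
  exact hP ((D.iv_iter hf P i).1 h2)

end Dat

end MSA
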