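import Mathlib
import Pool.Agent.MSA.OrA
import Pool.Agent.MSX.CnvA
import Pool.Agent.MSX.CnvB

/-!
# Prime avoidance for invariants (part CLO)

PROOFS.
`exists_inv_at`. Choose a variable `X j` not divisible by `P.gen` (`D.X.ca_var P`) and `f = X j ^ (p m)`, homogeneous of
degree `p m`, not divisible by `P.gen` (`P.gen_prime.dvd_of_dvd_pow`). For `c ∈ L` the trace
`D.X.tr m (C c * f) = ∑_{i<p} C (b^(-m i)) * C (s^i c) * sig^[i] f` is in `Inv m` (`inv_tr`; `sig_iter_C`). If
`P.gen` divided it for all `c`, then in the field `kap P`: `∑_{i<p} χ_i(c) u_i = 0` for all `c`, where `χ_i : L →* kap P`,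
`χ_i c = red P (C (s^i c))`, `u_i = red P (C (b^(-m i)) * sig^[i] f)`, `u_0 = red P f ≠ 0`. The characters `χ_i`, `i < p`,
are distinct (`D.s` has order `p`: `MSX.of_prime` for `D.s.toRingEquiv` as in the proof of `inv_gen` in `MSX/CnvB`, and
`red P ∘ C` is injective, a ring homomorphism of a field), so they are linearly independent over `kap P`
(Dedekind: `linearIndependent_monoidHom`, composed with the injective map `i ↦ χ_i`, `LinearIndependent.comp`,
`Fintype.linearIndependent_iff`): contradiction. For `c` with `¬ P.gen ∣ tr m (C c * f)` take `r` this trace.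

`exists_rp`. Let `𝒫` be the finite set of the points on `y` (`MSX.finite_dvd`). If it is empty take
`r = y0 ^ m` (`MSX.Dat.inv_y0`, `Inv.pow`, `y0_ne`). Otherwise let `V` be the `F`-subspace of the `f` with `D.Iv m f`
(`Inv.add`, `Inv.smul`; `c • f = C (algebraMap c) * f`: `MvPolynomial.algebraMap_apply`/`Algebra.smul_def`) and
`V_P ⊂ V`, `P ∈ 𝒫`, the subspace of the `f` divisible by `P.gen`; `V_P ≠ ⊤` by `exists_inv_at`. `F` is infinite, so `V` is
not the union of the `V_P` (`Subspace.biUnion_ne_univ_of_top_notMem`). An element `r` outside is not zero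
(`dvd_zero`), and `rp_of_pt`.
-/

set_option autoImplicit false
set_option linter.unusedSectionVars false

noncomputable section

namespace MSA

universe u v w v'

private theorem av_ex_ne {M K : Type u} [Field M] [Field K] (s : M ≃+* M) (ι : M →+* K) (n : ℕ)
    (hn : 0 < n) (hd : ∀ i, 0 < i → i < n → ∃ x, s^[i] x ≠ x) (a : ℕ → K) (ha : a 0 ≠ 0) :
    ∃ c : M, ∑ i ∈ Finset.range n, a i * ι (s^[i] c) ≠ 0 := by
  by_contra hcon
  push Not at hcon
  have hinj : Function.Injective
      (fun i : Fin n => (ι : M →* K).comp (Pool.Agent.MSX.itm s i.val)) := by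
    intro i j hij
    have h2 : Pool.Agent.MSX.itm s i.val = Pool.Agent.MSX.itm s j.val := by
      refine MonoidHom.ext fun x => ι.injective ?_
      exact congrArg (fun f : M →* K => f x) hij
    rcases lt_trichotomy i.val j.val with h | h | h
    · exact (Pool.Agent.MSX.itm_inj_aux s n hd i.val j.val h j.isLt h2).elim
    · exact Fin.ext h
    · exact (Pool.Agent.MSX.itm_inj_aux s n hd j.val i.val h i.isLt h2.symm).elim
  have hli := (linearIndependent_monoidHom M K).comp
    (fun i : Fin n => (ι : M →* K).comp (Pool.Agent.MSX.itm s i.val)) hinj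
  rw [Fintype.linearIndependent_iff] at hli
  have h0 := hli (fun i => a i.val) (by
    funext c
    have := hcon c
    rw [← Fin.sum_univ_eq_sum_range (fun i => a i * ι (s^[i] c)) n] at this
    simpa [Finset.sum_apply, Pool.Agent.MSX.itm_apply] using this) ⟨0, hn⟩
  exact ha h0

namespace Dat

variable (D : Dat.{u})

theorem exists_inv_at (P : D.Pt) (m : ℕ) : ∃ r : D.S, D.Iv m r ∧ ¬ P.gen ∣ r := by
  obtain ⟨j, hj⟩ := D.X.ca_var P
  obtain ⟨f, hf0⟩ : ∃ f : D.S, f = MvPolynomial.X j ^ (D.p * m) := ⟨_, rfl⟩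
  have hf : f.IsHomogeneous (D.p * m) := by
    rw [hf0]
    exact MvPolynomial.isHomogeneous_X_pow j _
  have hfP : ¬ P.gen ∣ f := by
    rw [hf0]
    exact fun h => hj (P.gen_prime.dvd_of_dvd_pow h)
  have hs : ∀ x, (D.X.s.toRingEquiv)^[D.p] x = x := fun x => by rw [D.X.s_iter, D.X.s_pow]
  have hne : D.X.s.toRingEquiv ≠ RingEquiv.refl D.L := by
    intro h
    apply D.X.s_ne
    ext x
    exact congrArg (fun e : D.L ≃+* D.L => e x) h
  obtain ⟨c, hc⟩ := av_ex_ne D.X.s.toRingEquiv
    ((Pool.Agent.MSX.red P).comp (MvPolynomial.C : D.L →+* D.S)) D.p D.X.hp.pos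
    (Pool.Agent.MSX.of_prime D.X.s.toRingEquiv D.p D.X.hp hs hne)
    (fun i => Pool.Agent.MSX.red P
      (MvPolynomial.C ((D.X.bL ^ (m * i))⁻¹) * D.X.sig^[i] f)) (by
      show Pool.Agent.MSX.red P
        (MvPolynomial.C ((D.X.bL ^ (m * 0))⁻¹) * D.X.sig^[0] f) ≠ 0
      rw [mul_zero, pow_zero, inv_one, map_one, one_mul, Function.iterate_zero_apply]
      exact fun h => hfP ((Pool.Agent.MSX.red_eq_zero P f).1 h))
  refine ⟨D.X.tr m (MvPolynomial.C c * f), D.X.inv_tr (hf.C_mul c), ?_⟩
  intro h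
  apply hc
  rw [← Pool.Agent.MSX.red_eq_zero] at h
  rw [← h]
  unfold Pool.Agent.MSX.Dat.tr
  rw [map_sum]
  refine Finset.sum_congr rfl fun i _ => ?_
  rw [iterate_map_mul, D.X.sig_iter_C, D.X.s_iter]
  simp only [map_mul, RingHom.comp_apply]
  ring

/-- An invariant of given degree relatively prime to `y`. -/
theorem exists_rp {n : ℕ} {y : D.S} (hy : y.IsHomogeneous n) (y0 : y ≠ 0) (m : ℕ) :
    ∃ r : D.S, D.Iv m r ∧ r ≠ 0 ∧ IsRelPrime y r := by
  classical
  have hfin : {P : D.Pt | P.gen ∣ y}.Finite := Pool.Agent.MSX.finite_dvd y0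
  by_cases hE : ∃ P : D.Pt, P.gen ∣ y
  · obtain ⟨P0, hP0⟩ := hE
    let V : Submodule D.F D.S :=
      { carrier := {f | D.Iv m f}
        add_mem' := fun ha hb => Pool.Agent.MSX.Dat.Inv.add D.X ha hb
        zero_mem' := ⟨MvPolynomial.isHomogeneous_zero _ _ _, by rw [map_zero, mul_zero]⟩
        smul_mem' := fun c f hf => by
          have h1 : c • f = MvPolynomial.C (algebraMap D.F D.L c) * f := Algebra.smul_def c f
          show D.Iv m (c • f)
          rw [h1]
          exact Pool.Agent.MSX.Dat.Inv.smul D.X hf c }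
    let W : D.Pt → Submodule D.F V := fun P =>
      { carrier := {f | P.gen ∣ f.1}
        add_mem' := fun ha hb => dvd_add ha hb
        zero_mem' := dvd_zero _
        smul_mem' := fun c f hf => by
          have h1 : c • f.1 = MvPolynomial.C (algebraMap D.F D.L c) * f.1 :=
            Algebra.smul_def c f.1
          show P.gen ∣ c • f.1
          rw [h1]
          exact dvd_mul_of_dvd_right hf _ }
    have htop : (⊤ : Submodule D.F V) ∉ hfin.toFinset.image W := by
      intro h
      obtain ⟨P, -, hP⟩ := Finset.mem_image.1 h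
      obtain ⟨r, hr, hrP⟩ := D.exists_inv_at P m
      apply hrP
      have h2 : (⟨r, hr⟩ : V) ∈ W P := by
        rw [hP]
        exact Submodule.mem_top
      exact h2
    have hne := Subspace.biUnion_ne_univ_of_top_notMem htop
    rw [Ne, Set.eq_univ_iff_forall, not_forall] at hne
    obtain ⟨r, hr⟩ := hne
    have hr' : ∀ P : D.Pt, P.gen ∣ y → ¬ P.gen ∣ r.1 := by
      intro P hP hPr
      apply hr
      rw [Set.mem_iUnion₂]
      exact ⟨W P, Finset.mem_image_of_mem W (hfin.mem_toFinset.2 hP), hPr⟩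
    refine ⟨r.1, r.2, ?_, D.rp_of_pt hy y0 hr'⟩
    intro h0
    apply hr' P0 hP0
    rw [h0]
    exact dvd_zero _
  · refine ⟨Pool.Agent.MSX.Dat.y0 ^ m, ?_, pow_ne_zero m Pool.Agent.MSX.Dat.y0_ne,
      D.rp_of_pt hy y0 fun P hP _ => hE ⟨P, hP⟩⟩
    have h1 := Pool.Agent.MSX.Dat.Inv.pow D.X D.X.inv_y0 m
    rw [one_mul] at h1
    exact h1

end Dat

end MSA
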