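import Mathlib

/-!
# A bilinear form on `O →₀ ℤ` given by its values off the diagonal (part CLO)

`bet s a b = ∑_{i ≠ j} a_i b_j s i j`.

PROOFS. Everything is `Finsupp.sum` algebra: `Finsupp.sum_add_index'`, `Finsupp.sum_zero_index`,
`Finsupp.sum_single_index`, `Finsupp.sum_neg_index`, `add_smul`, `zero_smul`, `mul_comm`. It may help to define the
additive homomorphism `betH s : (O →₀ ℤ) →+ (O →₀ ℤ) →+ B` (`Finsupp.liftAddHom` twice) and to show
`bet s a b = betH s a b`. `bet_symm`: `Finsupp.sum_comm` (or `Finset.sum_comm`) and symmetry of `s` off the diagonal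
(`if i = j` is symmetric). `bet_expand`: by definition, `bet_single_left`.
`bet_finsum`: `a.sum` is the finite sum over the support; `finsum_eq_sum_of_support_subset`.
-/

set_option autoImplicit false
set_option linter.unusedSectionVars false

noncomputable section

namespace MSA

universe u v

open Classical in
/-- the form with values `s i j` for `i ≠ j` and `0` on the diagonal -/
def bet {O : Type u} {B : Type v} [AddCommGroup B] (s : O → O → B) (a b : O →₀ ℤ) : B :=
  a.sum (fun i m => b.sum (fun j n => (m * n) • (if i = j then 0 else s i j)))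

section

variable {O : Type u} {B : Type v} [AddCommGroup B] (s : O → O → B)

theorem bet_add_left (a a' b : O →₀ ℤ) : bet s (a + a') b = bet s a b + bet s a' b := by
  classical
  unfold bet
  refine Finsupp.sum_add_index' ?_ ?_
  · intro i
    refine Finset.sum_eq_zero fun j _ => ?_
    beta_reduce
    rw [zero_mul, zero_smul]
  · intro i m m'
    rw [← Finsupp.sum_add]
    refine Finset.sum_congr rfl fun j _ => ?_
    beta_reduce
    rw [add_mul, add_smul]

theorem bet_add_right (a b b' : O →₀ ℤ) : bet s a (b + b') = bet s a b + bet s a b' := by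
  classical
  unfold bet
  rw [← Finsupp.sum_add]
  refine Finset.sum_congr rfl fun i _ => ?_
  refine Finsupp.sum_add_index' ?_ ?_
  · intro j
    rw [mul_zero, zero_smul]
  · intro j n n'
    rw [mul_add, add_smul]

theorem bet_zero_left (b : O →₀ ℤ) : bet s 0 b = 0 :=
  map_zero (AddMonoidHom.mk' (fun a => bet s a b) (fun a a' => bet_add_left s a a' b))

theorem bet_zero_right (a : O →₀ ℤ) : bet s a 0 = 0 :=
  map_zero (AddMonoidHom.mk' (fun b => bet s a b) (fun b b' => bet_add_right s a b b'))

theorem bet_smul_left (n : ℤ) (a b : O →₀ ℤ) : bet s (n • a) b = n • bet s a b :=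
  map_zsmul (AddMonoidHom.mk' (fun a => bet s a b) (fun a a' => bet_add_left s a a' b)) n a

theorem bet_smul_right (n : ℤ) (a b : O →₀ ℤ) : bet s a (n • b) = n • bet s a b :=
  map_zsmul (AddMonoidHom.mk' (fun b => bet s a b) (fun b b' => bet_add_right s a b b')) n b

theorem bet_sub_left (a a' b : O →₀ ℤ) : bet s (a - a') b = bet s a b - bet s a' b :=
  map_sub (AddMonoidHom.mk' (fun a => bet s a b) (fun a a' => bet_add_left s a a' b)) a a'

theorem bet_sub_right (a b b' : O →₀ ℤ) : bet s a (b - b') = bet s a b - bet s a b' :=
  map_sub (AddMonoidHom.mk' (fun b => bet s a b) (fun b b' => bet_add_right s a b b')) b b'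

open Classical in
theorem bet_single_left (i : O) (b : O →₀ ℤ) :
    bet s (Finsupp.single i 1) b = b.sum (fun j n => n • (if i = j then 0 else s i j)) := by
  unfold bet
  rw [Finsupp.sum_single_index]
  · refine Finset.sum_congr rfl fun j _ => ?_
    beta_reduce
    rw [one_mul]
  · refine Finset.sum_eq_zero fun j _ => ?_
    beta_reduce
    rw [zero_mul, zero_smul]

open Classical in
theorem bet_single_single (i j : O) :
    bet s (Finsupp.single i 1) (Finsupp.single j 1) = if i = j then 0 else s i j := by
  rw [bet_single_left, Finsupp.sum_single_index, one_smul]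
  rw [zero_smul]

theorem bet_eq_sum (a b : O →₀ ℤ) :
    bet s a b = ∑ i ∈ a.support, a i • bet s (Finsupp.single i 1) b := by
  classical
  refine Finset.sum_congr rfl fun i _ => ?_
  rw [bet_single_left]
  refine Eq.trans ?_ (Finset.smul_sum).symm
  refine Finset.sum_congr rfl fun j _ => ?_
  beta_reduce
  rw [mul_smul]

theorem bet_single_ne {i j : O} (h : i ≠ j) :
    bet s (Finsupp.single i 1) (Finsupp.single j 1) = s i j := by
  classical
  rw [bet_single_single, if_neg h]

theorem bet_single_same (i : O) : bet s (Finsupp.single i 1) (Finsupp.single i 1) = 0 := by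
  classical
  rw [bet_single_single, if_pos rfl]

theorem bet_symm (hs : ∀ i j, s i j = s j i) (a b : O →₀ ℤ) : bet s a b = bet s b a := by
  classical
  unfold bet
  rw [Finsupp.sum_comm]
  refine Finset.sum_congr rfl fun j _ => Finset.sum_congr rfl fun i _ => ?_
  show (a i * b j) • _ = (b j * a i) • _
  rw [mul_comm (a i)]
  by_cases h : i = j
  · rw [if_pos h, if_pos h.symm]
  · rw [if_neg h, if_neg (Ne.symm h), hs i j]

/-- expansion in the first variable, as a `finsum` -/
theorem bet_finsum (a b : O →₀ ℤ) :
    bet s a b = ∑ᶠ i, a i • bet s (Finsupp.single i 1) b := by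
  rw [bet_eq_sum]
  refine (finsum_eq_sum_of_support_subset _ ?_).symm
  intro i hi
  rw [Finset.mem_coe, Finsupp.mem_support_iff]
  intro h
  exact hi (by
    show a i • _ = 0
    rw [h, zero_smul])

theorem bet_finsum_fin (a b : O →₀ ℤ) :
    {i | a i • bet s (Finsupp.single i 1) b ≠ 0}.Finite := by
  refine (a.support.finite_toSet).subset ?_
  intro i hi
  rw [Finset.mem_coe, Finsupp.mem_support_iff]
  intro h
  exact hi (by rw [h, zero_smul])

end

end MSA
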