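import Mathlib
import Pool.Agent.MSA.DvD

/-!
# Descent for the cyclic extension `L/F`

PROOFS. `exists_dual`: the powers `s^i`, `0 ≤ i < p`, are distinct homomorphisms `L → L` (`s ≠ 1`,
`s^p = 1`, `p` prime: if `s^i = s^j`, `i < j < p`, then `s^(j-i) = 1` and `j - i` is prime to `p`, so `s = 1`),
hence linearly independent over `L` (Dedekind: `linearIndependent_monoidHom`).  So the vectors
`(s^i l)_{i < p}`, `l ∈ L`, span `L^p` (otherwise a nonzero linear functional `∑ a_i x_i` vanishes on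
them: `∑ a_i s^i = 0`); write the first unit vector as a linear combination of them.

`descent0`: for `x ∈ V` put `Tr x = ∑_{i<p} t^i x`; `t (Tr x) = Tr x` because `t^p = 1`.  With `l, l'` of
`exists_dual`: `∑_j l'_j Tr (l_j v) = ∑_i (∑_j l'_j s^i(l_j)) t^i v = v`.

`descent`: put `V = wt M (p n)` (an `L`-space through `iot (C l)`, it is stable: `D.wtL M (p n)`) and
`t m = iot (algebraMap (b^(-n))) • gam tau • m`; `t` is semilinear (`gam_mul_iot`, `D.tauS_C`), it
preserves the weight (`hM.tau`), `t^p m = b^(-p n) τ^p m = m` (`hM.taup`; `τ` commutes with `F`: `FixF`).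
`t m = m` iff `m ∈ minv M n`.  Then `descent0`; an element of the span is a finite sum.
`exists_minv`: one of the `m' i` is not in `N`.
-/

set_option autoImplicit false
set_option linter.unusedSectionVars false

noncomputable section

namespace MSA

universe u v w

open MvPolynomial

namespace Dat

variable (D : Dat.{u})

theorem de_pow_inj {i j : ℕ} (hi : i < D.p) (hj : j < D.p) (h : D.s ^ i = D.s ^ j) : i = j := by
  have h1 : D.s ^ D.p = 1 := AlgEquiv.ext D.X.s_pow
  have h2 : orderOf D.s = D.p := orderOf_eq_prime h1 D.X.s_ne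
  exact pow_injOn_Iio_orderOf (by rw [Set.mem_Iio, h2]; exact hi)
    (by rw [Set.mem_Iio, h2]; exact hj) h

theorem de_linInd : LinearIndependent D.L (fun i : Fin D.p => fun x : D.L => (D.s ^ (i : ℕ)) x) := by
  let g : Fin D.p → (D.L →* D.L) := fun i =>
    ((D.s ^ (i : ℕ) : D.L ≃ₐ[D.F] D.L) : D.L →+* D.L).toMonoidHom
  have hg : Function.Injective g := by
    intro i j hij
    apply Fin.ext
    apply D.de_pow_inj i.2 j.2
    apply AlgEquiv.ext
    intro x
    exact DFunLike.congr_fun hij x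
  exact (linearIndependent_monoidHom D.L D.L).comp g hg

theorem de_span : Submodule.span D.L
    (Set.range (fun (x : D.L) => fun i : Fin D.p => (D.s ^ (i : ℕ)) x)) = ⊤ := by
  by_contra hne
  obtain ⟨f, hf, hle⟩ := Submodule.exists_le_ker_of_lt_top _ (lt_top_iff_ne_top.2 hne)
  apply hf
  have h1 : ∀ x : D.L, ∑ i : Fin D.p, f (Pi.single i 1) * (D.s ^ (i : ℕ)) x = 0 := by
    intro x
    have h2 : f (fun i : Fin D.p => (D.s ^ (i : ℕ)) x) = 0 :=
      LinearMap.mem_ker.1 (hle (Submodule.subset_span ⟨x, rfl⟩))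
    rw [pi_eq_sum_univ' (fun i : Fin D.p => (D.s ^ (i : ℕ)) x), map_sum] at h2
    rw [← h2]
    refine Finset.sum_congr rfl fun i _ => ?_
    rw [map_smul, smul_eq_mul, mul_comm]
  have h3 := Fintype.linearIndependent_iff.1 D.de_linInd (fun i => f (Pi.single i 1)) (by
    funext x
    rw [Finset.sum_apply]
    exact h1 x)
  apply LinearMap.pi_ext'
  intro i
  ext
  exact h3 i

theorem exists_dual : ∃ (N : ℕ) (l l' : Fin N → D.L), ∀ i < D.p,
    ∑ j, l' j * (D.s ^ i) (l j) = if i = 0 then 1 else 0 := by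
  have hp : 0 < D.p := D.X.hp.pos
  have h1 : (Pi.single (⟨0, hp⟩ : Fin D.p) (1 : D.L) : Fin D.p → D.L) ∈ Submodule.span D.L
      (Set.range (fun (x : D.L) => fun i : Fin D.p => (D.s ^ (i : ℕ)) x)) := by
    rw [D.de_span]
    exact Submodule.mem_top
  obtain ⟨N, l', g, hg⟩ := Submodule.mem_span_set'.1 h1
  choose l hl using fun j => (g j).2
  refine ⟨N, l, l', fun i hi => ?_⟩
  have h2 := congrFun hg ⟨i, hi⟩
  rw [Finset.sum_apply] at h2
  have h3 : ∑ j, l' j * (D.s ^ i) (l j) = ∑ j, (l' j • (g j : Fin D.p → D.L)) ⟨i, hi⟩ := by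
    refine Finset.sum_congr rfl fun j _ => ?_
    rw [Pi.smul_apply, smul_eq_mul, ← hl j]
  rw [h3, h2, Pi.single_apply]
  by_cases h : i = 0
  · rw [if_pos h, if_pos (Fin.ext h)]
  · rw [if_neg h, if_neg]
    intro h4
    exact h (congrArg Fin.val h4)

/-- Descent for a semilinear automorphism of order `p`. -/
theorem descent0 {V : Type v} [AddCommGroup V] [Module D.L V] (t : V →+ V)
    (ht : ∀ (l : D.L) (v : V), t (l • v) = D.s l • t v) (hp : ∀ v, t^[D.p] v = v) (v : V) :
    v ∈ Submodule.span D.L {w : V | t w = w} := by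
  have hTr : ∀ x : V, t (∑ i ∈ Finset.range D.p, t^[i] x) = ∑ i ∈ Finset.range D.p, t^[i] x := by
    intro x
    have h1 : t (∑ i ∈ Finset.range D.p, t^[i] x) = ∑ i ∈ Finset.range D.p, t^[i + 1] x := by
      rw [map_sum]
      refine Finset.sum_congr rfl fun i _ => ?_
      rw [Function.iterate_succ_apply']
    have h2 := Finset.sum_range_succ (fun i => t^[i] x) D.p
    have h3 := Finset.sum_range_succ' (fun i => t^[i] x) D.p
    rw [h3, hp x] at h2
    rw [h1]
    exact add_right_cancel h2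
  have hit : ∀ (i : ℕ) (l : D.L) (x : V), t^[i] (l • x) = (D.s ^ i) l • t^[i] x := by
    intro i l x
    induction i with
    | zero =>
      rw [Function.iterate_zero, id, id, pow_zero]
      rfl
    | succ i ih =>
      rw [Function.iterate_succ_apply', ih, ht, Function.iterate_succ_apply', pow_succ']
      rfl
  obtain ⟨N, l, l', hl⟩ := D.exists_dual
  have h4 : v = ∑ j, l' j • ∑ i ∈ Finset.range D.p, t^[i] (l j • v) := by
    have h5 : ∀ j, l' j • ∑ i ∈ Finset.range D.p, t^[i] (l j • v) =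
        ∑ i ∈ Finset.range D.p, (l' j * (D.s ^ i) (l j)) • t^[i] v := by
      intro j
      rw [Finset.smul_sum]
      refine Finset.sum_congr rfl fun i _ => ?_
      rw [hit, ← mul_smul]
    rw [Finset.sum_congr rfl fun j _ => h5 j, Finset.sum_comm]
    have h6 : ∀ i ∈ Finset.range D.p, ∑ j, (l' j * (D.s ^ i) (l j)) • t^[i] v =
        if i = 0 then v else 0 := by
      intro i hi
      rw [← Finset.sum_smul, hl i (Finset.mem_range.1 hi)]
      by_cases h : i = 0
      · rw [if_pos h, if_pos h, h, one_smul]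
        rfl
      · rw [if_neg h, if_neg h, zero_smul]
    rw [Finset.sum_congr rfl h6, Finset.sum_ite_eq' (Finset.range D.p) 0 (fun _ => v),
      if_pos (Finset.mem_range.2 D.X.hp.pos)]
  rw [h4]
  refine Submodule.sum_mem _ fun j _ => Submodule.smul_mem _ _ (Submodule.subset_span ?_)
  exact hTr _

variable {M : Type u} [AddCommGroup M] [Module D.R M]

theorem descent (hM : Wts D.F D.ph M D.p D.b) (n : ℤ) {m : M}
    (hm : m ∈ wt D.F D.ph M (D.p * n)) : ∃ (k : ℕ) (l : Fin k → D.L) (m' : Fin k → M),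
    (∀ i, m' i ∈ D.minv M n) ∧ m = ∑ i, iot D.ph (C (l i)) • m' i := by
  let _ := Module.compHom M ((iot D.ph).comp (C : D.L →+* D.S))
  have hF : ∀ (g : Gn D.F) (a : D.F) (x : M), gam D.ph g • iot D.ph (algebraMap D.F D.S a) • x =
      iot D.ph (algebraMap D.F D.S a) • gam D.ph g • x := by
    intro g a x
    rw [← mul_smul, gam_mul_iot, FixF.fix (φ := D.ph), mul_smul]
  have hmul : ∀ (a a' : D.F) (x : M), iot D.ph (algebraMap D.F D.S a) •
      iot D.ph (algebraMap D.F D.S a') • x = iot D.ph (algebraMap D.F D.S (a * a')) • x := by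
    intro a a' x
    rw [← mul_smul, ← map_mul, ← map_mul]
  have hw : ∀ (a : D.F) (x : M), x ∈ wt D.F D.ph M (D.p * n) →
      iot D.ph (algebraMap D.F D.S a) • x ∈ wt D.F D.ph M (D.p * n) := by
    intro a x hx c
    rw [hF, hx c, hmul, hmul, mul_comm]
  let t : (D.wtL M (D.p * n)) →+ (D.wtL M (D.p * n)) :=
    { toFun := fun v => ⟨iot D.ph (algebraMap D.F D.S (D.b ^ (-n))) • gam D.ph Gn.tau • (v : M),
        hw _ _ (hM.tau _ _ v.2)⟩
      map_zero' := by
        apply Subtype.ext
        show iot D.ph (algebraMap D.F D.S (D.b ^ (-n))) • gam D.ph Gn.tau • (0 : M) = 0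
        rw [smul_zero, smul_zero]
      map_add' := fun x y => by
        apply Subtype.ext
        show iot D.ph (algebraMap D.F D.S (D.b ^ (-n))) • gam D.ph Gn.tau • ((x : M) + (y : M)) =
          iot D.ph (algebraMap D.F D.S (D.b ^ (-n))) • gam D.ph Gn.tau • (x : M) +
            iot D.ph (algebraMap D.F D.S (D.b ^ (-n))) • gam D.ph Gn.tau • (y : M)
        rw [smul_add, smul_add] }
  have htv : ∀ v : D.wtL M (D.p * n), ((t v : D.wtL M (D.p * n)) : M) =
      iot D.ph (algebraMap D.F D.S (D.b ^ (-n))) • gam D.ph Gn.tau • (v : M) := fun v => rfl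
  have h1 : ∀ (l : D.L) (v : D.wtL M (D.p * n)), t (l • v) = D.s l • t v := by
    intro l v
    apply Subtype.ext
    show iot D.ph (algebraMap D.F D.S (D.b ^ (-n))) • gam D.ph Gn.tau • iot D.ph (C l) • (v : M) =
      iot D.ph (C (D.s l)) • iot D.ph (algebraMap D.F D.S (D.b ^ (-n))) • gam D.ph Gn.tau • (v : M)
    have h2 : D.ph Gn.tau (C l) = C (D.s l) := D.tauS_C l
    have hcomm : ∀ (a a' : D.S) (x : M), iot D.ph a • iot D.ph a' • x =
        iot D.ph a' • iot D.ph a • x := by
      intro a a' x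
      rw [← mul_smul, ← map_mul, mul_comm, map_mul, mul_smul]
    rw [← mul_smul (gam D.ph Gn.tau), gam_mul_iot, h2, mul_smul, hcomm]
  have h2 : ∀ (i : ℕ) (v : D.wtL M (D.p * n)), ((t^[i] v : D.wtL M (D.p * n)) : M) =
      iot D.ph (algebraMap D.F D.S ((D.b ^ (-n)) ^ i)) • (gam D.ph Gn.tau) ^ i • (v : M) := by
    intro i v
    induction i with
    | zero =>
      rw [Function.iterate_zero, id, pow_zero, pow_zero, map_one, map_one, one_smul, one_smul]
    | succ i ih =>
      rw [Function.iterate_succ_apply', htv, ih, hF, hmul, ← pow_succ', pow_succ' (gam D.ph Gn.tau),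
        mul_smul]
  have h3 : ∀ v : D.wtL M (D.p * n), t^[D.p] v = v := by
    intro v
    apply Subtype.ext
    have h4 : (gam D.ph Gn.tau) ^ D.p • (v : M) =
        iot D.ph (algebraMap D.F D.S (D.b ^ ((D.p : ℤ) * n))) • (v : M) := hM.taup _ _ v.2
    have h5 : (D.b ^ (-n)) ^ D.p * D.b ^ ((D.p : ℤ) * n) = 1 := by
      rw [← zpow_natCast, ← zpow_mul, ← zpow_add₀ D.X.b_ne]
      have : -n * (D.p : ℤ) + (D.p : ℤ) * n = 0 := by ring
      rw [this, zpow_zero]
    rw [h2, h4, hmul, h5, map_one, map_one, one_smul]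
  have h4 := D.descent0 t h1 h3 ⟨m, hm⟩
  obtain ⟨k, l, g, hg⟩ := Submodule.mem_span_set'.1 h4
  refine ⟨k, l, fun i => ((g i : D.wtL M (D.p * n)) : M), fun i => ⟨(g i : D.wtL M (D.p * n)).2, ?_⟩, ?_⟩
  · have h5 : t (g i : D.wtL M (D.p * n)) = (g i : D.wtL M (D.p * n)) := (g i).2
    have h6 := congrArg (fun v : D.wtL M (D.p * n) => (v : M)) h5
    have h7 : iot D.ph (algebraMap D.F D.S (D.b ^ (-n))) • gam D.ph Gn.tau •
        ((g i : D.wtL M (D.p * n)) : M) = ((g i : D.wtL M (D.p * n)) : M) := h6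
    have h8 : D.b ^ n * D.b ^ (-n) = 1 := by
      rw [← zpow_add₀ D.X.b_ne, add_neg_cancel, zpow_zero]
    show gam D.ph Gn.tau • ((g i : D.wtL M (D.p * n)) : M) =
      iot D.ph (algebraMap D.F D.S (D.b ^ n)) • ((g i : D.wtL M (D.p * n)) : M)
    conv_rhs => rw [← h7]
    rw [hmul, h8, map_one, map_one, one_smul]
  · have h5 := congrArg (fun v : D.wtL M (D.p * n) => (v : M)) hg
    have h6 : ((∑ i, l i • (g i : D.wtL M (D.p * n)) : D.wtL M (D.p * n)) : M) = m := h5
    rw [Submodule.coe_sum] at h6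
    exact h6.symm

theorem exists_minv (hM : Wts D.F D.ph M D.p D.b) (N : Submodule D.R M) (n : ℤ) {m : M}
    (hm : m ∈ wt D.F D.ph M (D.p * n)) (hN : m ∉ N) : ∃ m' ∈ D.minv M n, m' ∉ N := by
  obtain ⟨k, l, m', h1, h2⟩ := D.descent hM n hm
  by_contra h3
  apply hN
  rw [h2]
  refine N.sum_mem fun i _ => N.smul_mem _ ?_
  by_contra h4
  exact h3 ⟨m' i, h1 i, h4⟩

end Dat

end MSA
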