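import Mathlib
import Pool.Agent.MSA.Prd

/-!
# Weights

General facts for modules over a skew ring whose generators contain `θ_c`, `c ∈ Fˣ`, `F` infinite.

PROOFS. `wt_indep`: let `f` have support `s`, `|s| ≥ 1`. `F` is infinite, so there is `c ∈ Fˣ` with
`c^(n-n') ≠ 1` for all `n ≠ n'` in `s` (each equation `c^d = 1`, `d ≠ 0`, has finitely many solutions). The
operator `gam (th c)` is `F`-linear (`FixF`) and acts on `f n` as `c^n`; eigenvectors for distinct
eigenvalues are independent (`Module.End.eigenvectors_linearIndependent` or Vandermonde, with the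
`F`-structure `modF F φ M`). `wt_mem_sub`: with the same `c`, the vectors `∑ c^{in} f n`, `i = 0, 1, ...`, lie in
`N` and the Vandermonde matrix is invertible. `wt_decomp`: `AddSubgroup` supremum induction
(`AddSubgroup.iSup_induction`). `wts_sub`: `wt_mem_sub`. `wts_quo`: images of weight vectors. `wt_lift`:
decompose a lift of `m'`; its components in weights `≠ n` map to `0` by `wt_indep` in `M'`.
-/

set_option autoImplicit false
set_option linter.unusedSectionVars false

noncomputable section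

namespace MSA

universe u v w

variable {F : Type u} [Field F] [Infinite F] {S : Type u} [CommRing S] [Algebra F S]
variable {Γ : Type u} [HasTh F Γ] {φ : Γ → S →+* S} [FixF F φ]
variable {M M' : Type u} [AddCommGroup M] [Module (Rg φ) M] [AddCommGroup M'] [Module (Rg φ) M']
variable {p : ℕ} {b : F}

/-- a unit whose powers with exponents in a finite set are distinct -/
theorem wt_exists_unit {F : Type u} [Field F] [Infinite F] (s : Finset ℤ) :
    ∃ c : Fˣ, ∀ n ∈ s, n ≠ 0 → c ^ n ≠ 1 := by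
  classical
  let P : Polynomial F := Polynomial.X *
    ∏ d ∈ s.filter (fun d => d ≠ 0), (Polynomial.X ^ d.natAbs - 1)
  have hP : P ≠ 0 := by
    refine mul_ne_zero Polynomial.X_ne_zero (Finset.prod_ne_zero_iff.2 ?_)
    intro d hd
    have h1 : d.natAbs ≠ 0 := Int.natAbs_ne_zero.2 (Finset.mem_filter.1 hd).2
    have h2 := Polynomial.X_pow_sub_C_ne_zero (Nat.pos_of_ne_zero h1) (1 : F)
    rwa [map_one] at h2
  obtain ⟨x, hx⟩ : ∃ x, Polynomial.eval x P ≠ 0 := by
    by_contra h
    rw [not_exists] at h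
    apply hP
    apply Polynomial.funext
    intro x
    rw [Polynomial.eval_zero]
    exact not_not.1 (h x)
  have hx1 : Polynomial.eval x P = x *
      ∏ d ∈ s.filter (fun d => d ≠ 0), (x ^ d.natAbs - 1) := by
    rw [Polynomial.eval_mul, Polynomial.eval_X, Polynomial.eval_prod]
    congr 1
    refine Finset.prod_congr rfl fun d _ => ?_
    rw [Polynomial.eval_sub, Polynomial.eval_pow, Polynomial.eval_X, Polynomial.eval_one]
  rw [hx1] at hx
  have hx0 : x ≠ 0 := left_ne_zero_of_mul hx
  have hx2 := Finset.prod_ne_zero_iff.1 (right_ne_zero_of_mul hx)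
  refine ⟨Units.mk0 x hx0, fun n hn hn0 h => ?_⟩
  have h1 : (Units.mk0 x hx0) ^ n.natAbs = 1 := pow_natAbs_eq_one.2 h
  apply hx2 n (Finset.mem_filter.2 ⟨hn, hn0⟩)
  have h2 := congrArg (fun u : Fˣ => (u : F)) h1
  simp only [Units.val_pow_eq_pow_val, Units.val_mk0, Units.val_one] at h2
  rw [h2, sub_self]

theorem wt_smul {n : ℤ} {m : M} (hm : m ∈ wt F φ M n) (a : F) :
    iot φ (algebraMap F S a) • m ∈ wt F φ M n := by
  intro c
  rw [← mul_smul, gam_mul_iot, FixF.fix (φ := φ), mul_smul, hm c, ← mul_smul, ← mul_smul,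
    ← map_mul, ← map_mul, ← map_mul, ← map_mul, mul_comm]

theorem wt_sep (N : Submodule (Rg φ) M) (c : Fˣ) (s : Finset ℤ)
    (hc : ∀ n ∈ s, ∀ n' ∈ s, n ≠ n' → c ^ n ≠ c ^ n') (f : ℤ → M)
    (hf : ∀ n, f n ∈ wt F φ M n) (h : ∑ n ∈ s, f n ∈ N) : ∀ n ∈ s, f n ∈ N := by
  classical
  induction s using Finset.induction_on generalizing f with
  | empty =>
    intro n hn
    exact absurd hn (Finset.notMem_empty n)
  | insert a s ha ih =>
    have key : ∀ n ∈ s, f n ∈ N := by
      intro n hn
      have h1 : ∑ n ∈ s, iot φ (algebraMap F S (((c ^ n : Fˣ) : F) - ((c ^ a : Fˣ) : F))) • f n ∈ N := by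
        have h2 : ∑ n ∈ s, iot φ (algebraMap F S (((c ^ n : Fˣ) : F) - ((c ^ a : Fˣ) : F))) • f n =
            gam φ (HasTh.th c) • (∑ n ∈ insert a s, f n) -
              iot φ (algebraMap F S ((c ^ a : Fˣ) : F)) • (∑ n ∈ insert a s, f n) := by
          rw [Finset.sum_insert ha, smul_add, smul_add, hf a c, add_sub_add_left_eq_sub,
            Finset.smul_sum, Finset.smul_sum, ← Finset.sum_sub_distrib]
          refine Finset.sum_congr rfl fun k _ => ?_
          rw [hf k c, map_sub, map_sub, sub_smul]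
        rw [h2]
        exact N.sub_mem (N.smul_mem _ h) (N.smul_mem _ h)
      have h3 := ih (fun n hn n' hn' => hc n (Finset.mem_insert_of_mem hn) n'
        (Finset.mem_insert_of_mem hn'))
        (fun n => iot φ (algebraMap F S (((c ^ n : Fˣ) : F) - ((c ^ a : Fˣ) : F))) • f n)
        (fun n => wt_smul (hf n) _) h1 n hn
      have h4 : ((c ^ n : Fˣ) : F) - ((c ^ a : Fˣ) : F) ≠ 0 := by
        rw [sub_ne_zero]
        intro h5
        refine hc n (Finset.mem_insert_of_mem hn) a (Finset.mem_insert_self a s) ?_ (Units.ext h5)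
        rintro rfl
        exact ha hn
      have h5 := N.smul_mem (iot φ (algebraMap F S ((((c ^ n : Fˣ) : F) - ((c ^ a : Fˣ) : F))⁻¹))) h3
      rw [← mul_smul, ← map_mul, ← map_mul, inv_mul_cancel₀ h4, map_one, map_one, one_smul] at h5
      exact h5
    intro n hn
    rcases Finset.mem_insert.1 hn with rfl | hn
    · rw [Finset.sum_insert ha] at h
      exact (N.add_mem_iff_left (N.sum_mem key)).1 h
    · exact key n hn

theorem wt_mem_sub (N : Submodule (Rg φ) M) (f : ℤ →₀ M) (hf : ∀ n, f n ∈ wt F φ M n)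
    (h : f.sum (fun _ x => x) ∈ N) (n : ℤ) : f n ∈ N := by
  classical
  obtain ⟨c, hc⟩ := wt_exists_unit (F := F)
    ((f.support ×ˢ f.support).image (fun x : ℤ × ℤ => x.1 - x.2))
  by_cases hn : n ∈ f.support
  · refine wt_sep N c f.support ?_ f hf h n hn
    intro k hk k' hk' hne heq
    refine hc (k - k') (Finset.mem_image.2 ⟨(k, k'), Finset.mem_product.2 ⟨hk, hk'⟩, rfl⟩)
      (sub_ne_zero.2 hne) ?_
    rw [zpow_sub, heq, mul_inv_cancel]
  · rw [Finsupp.notMem_support_iff.1 hn]
    exact N.zero_mem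

theorem wt_indep (f : ℤ →₀ M) (hf : ∀ n, f n ∈ wt F φ M n) (h : f.sum (fun _ x => x) = 0) :
    f = 0 := by
  ext n
  have h1 := wt_mem_sub (⊥ : Submodule (Rg φ) M) f hf (by rw [h]; exact Submodule.zero_mem _) n
  rw [Submodule.mem_bot] at h1
  rw [h1, Finsupp.zero_apply]

theorem wt_decomp (hM : Wts F φ M p b) (m : M) :
    ∃ f : ℤ →₀ M, (∀ n, f n ∈ wt F φ M n) ∧ f.sum (fun _ x => x) = m := by
  classical
  have hm : m ∈ ⨆ n, wt F φ M n := by
    rw [hM.span]
    exact AddSubgroup.mem_top m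
  induction hm using AddSubgroup.iSup_induction' with
  | hp i x hx =>
    refine ⟨Finsupp.single i x, ?_, ?_⟩
    · intro n
      by_cases hn : n = i
      · subst hn
        rw [Finsupp.single_eq_same]
        exact hx
      · rw [Finsupp.single_eq_of_ne hn]
        exact AddSubgroup.zero_mem _
    · rw [Finsupp.sum_single_index rfl]
  | h1 =>
    refine ⟨0, ?_, ?_⟩
    · intro n
      rw [Finsupp.zero_apply]
      exact AddSubgroup.zero_mem _
    · rw [Finsupp.sum_zero_index]
  | hadd x y hx hy h1 h2 =>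
    obtain ⟨f, hf, hf2⟩ := h1
    obtain ⟨g, hg, hg2⟩ := h2
    refine ⟨f + g, ?_, ?_⟩
    · intro n
      rw [Finsupp.add_apply]
      exact AddSubgroup.add_mem _ (hf n) (hg n)
    · rw [Finsupp.sum_add_index' (fun _ => rfl) (fun _ _ _ => rfl), hf2, hg2]

theorem wt_map (q : M →ₗ[Rg φ] M') {n : ℤ} {m : M} (hm : m ∈ wt F φ M n) :
    q m ∈ wt F φ M' n := by
  intro c
  rw [← map_smul, hm c, map_smul]

theorem wt_lift (hM : Wts F φ M p b) (q : M →ₗ[Rg φ] M') (hq : Function.Surjective q) {n : ℤ}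
    {m' : M'} (hm : m' ∈ wt F φ M' n) : ∃ m ∈ wt F φ M n, q m = m' := by
  classical
  obtain ⟨m, rfl⟩ := hq m'
  obtain ⟨f, hf, hfm⟩ := wt_decomp hM m
  refine ⟨f n, hf n, ?_⟩
  have h1 : (f.mapRange q (map_zero q) - Finsupp.single n (q m) : ℤ →₀ M') = 0 := by
    apply wt_indep (F := F) (φ := φ)
    · intro k
      rw [Finsupp.sub_apply, Finsupp.mapRange_apply]
      refine AddSubgroup.sub_mem _ (wt_map q (hf k)) ?_
      by_cases hk : k = n
      · subst hk
        rw [Finsupp.single_eq_same]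
        exact hm
      · rw [Finsupp.single_eq_of_ne hk]
        exact AddSubgroup.zero_mem _
    · rw [Finsupp.sum_sub_index (fun _ _ _ => rfl), Finsupp.sum_mapRange_index (fun _ => rfl),
        Finsupp.sum_single_index rfl, sub_eq_zero]
      conv_rhs => rw [← hfm]
      rw [Finsupp.sum, Finsupp.sum, map_sum]
  have h2 := DFunLike.congr_fun h1 n
  rw [Finsupp.sub_apply, Finsupp.mapRange_apply, Finsupp.single_eq_same, Finsupp.zero_apply,
    sub_eq_zero] at h2
  exact h2

theorem wt_iSup_map (q : M →ₗ[Rg φ] M') {m : M} (hm : m ∈ ⨆ n, wt F φ M n) :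
    q m ∈ ⨆ n, wt F φ M' n := by
  induction hm using AddSubgroup.iSup_induction' with
  | hp i x hx => exact AddSubgroup.mem_iSup_of_mem i (wt_map q hx)
  | h1 =>
    rw [map_zero]
    exact AddSubgroup.zero_mem _
  | hadd x y hx hy h1 h2 =>
    rw [map_add]
    exact AddSubgroup.add_mem _ h1 h2

theorem wts_sub (hM : Wts F φ M p b) (N : Submodule (Rg φ) M) : Wts F φ N p b := by
  have hsub : ∀ n (x : N), x ∈ wt F φ N n ↔ (x : M) ∈ wt F φ M n := by
    intro n x
    constructor
    · intro hx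
      exact wt_map N.subtype hx
    · intro hx c
      exact Subtype.ext (hx c)
  refine ⟨?_, ?_, ?_⟩
  · rw [eq_top_iff]
    intro x _
    obtain ⟨f, hf, hfx⟩ := wt_decomp hM (x : M)
    have hN : ∀ n, f n ∈ N := wt_mem_sub N f hf (by rw [hfx]; exact x.2)
    have h1 : x = ∑ n ∈ f.support, (⟨f n, hN n⟩ : N) := by
      apply Subtype.ext
      rw [Submodule.coe_sum]
      exact hfx.symm
    rw [h1]
    refine AddSubgroup.sum_mem _ fun n _ => AddSubgroup.mem_iSup_of_mem n ?_
    exact (hsub n _).2 (hf n)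
  · intro n m hm
    exact (hsub n _).2 (hM.tau n m ((hsub n m).1 hm))
  · intro n m hm
    exact Subtype.ext (hM.taup n m ((hsub n m).1 hm))

theorem wts_quo (hM : Wts F φ M p b) (N : Submodule (Rg φ) M) : Wts F φ (M ⧸ N) p b := by
  refine ⟨?_, ?_, ?_⟩
  · rw [eq_top_iff]
    intro x _
    obtain ⟨m, rfl⟩ := N.mkQ_surjective x
    apply wt_iSup_map N.mkQ
    rw [hM.span]
    exact AddSubgroup.mem_top m
  · intro n x hx
    obtain ⟨m, hm, rfl⟩ := wt_lift hM N.mkQ N.mkQ_surjective hx
    rw [← map_smul]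
    exact wt_map N.mkQ (hM.tau n m hm)
  · intro n x hx
    obtain ⟨m, hm, rfl⟩ := wt_lift hM N.mkQ N.mkQ_surjective hx
    rw [← map_smul, hM.taup n m hm, map_smul]

theorem wts_prod (hM : Wts F φ M p b) (hM' : Wts F φ M' p b) : Wts F φ (M × M') p b := by
  refine ⟨?_, ?_, ?_⟩
  · rw [eq_top_iff]
    rintro ⟨x, y⟩ _
    have h1 : ((x, y) : M × M') = LinearMap.inl (Rg φ) M M' x + LinearMap.inr (Rg φ) M M' y := by
      rw [LinearMap.inl_apply, LinearMap.inr_apply, Prod.mk_add_mk, add_zero, zero_add]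
    rw [h1]
    refine AddSubgroup.add_mem _ (wt_iSup_map _ ?_) (wt_iSup_map _ ?_)
    · rw [hM.span]
      exact AddSubgroup.mem_top x
    · rw [hM'.span]
      exact AddSubgroup.mem_top y
  · intro n x hx c
    exact Prod.ext (hM.tau n x.1 (wt_map (LinearMap.fst (Rg φ) M M') hx) c)
      (hM'.tau n x.2 (wt_map (LinearMap.snd (Rg φ) M M') hx) c)
  · intro n x hx
    exact Prod.ext (hM.taup n x.1 (wt_map (LinearMap.fst (Rg φ) M M') hx))
      (hM'.taup n x.2 (wt_map (LinearMap.snd (Rg φ) M M') hx))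

theorem wts_iso (e : M ≃ₗ[Rg φ] M') (hM : Wts F φ M p b) : Wts F φ M' p b := by
  refine ⟨?_, ?_, ?_⟩
  · rw [eq_top_iff]
    intro x _
    rw [← e.apply_symm_apply x]
    apply wt_iSup_map e.toLinearMap
    rw [hM.span]
    exact AddSubgroup.mem_top _
  · intro n x hx
    have h1 := wt_map e.symm.toLinearMap hx
    have h2 := wt_map e.toLinearMap (hM.tau n _ h1)
    rw [map_smul] at h2
    change gam φ (HasTh.tau F) • e (e.symm x) ∈ _ at h2
    rwa [e.apply_symm_apply] at h2
  · intro n x hx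
    have h1 := wt_map e.symm.toLinearMap hx
    have h2 := congrArg e (hM.taup n _ h1)
    rw [map_smul, map_smul] at h2
    change (gam φ (HasTh.tau F)) ^ p • e (e.symm x) = _ • e (e.symm x) at h2
    rwa [e.apply_symm_apply] at h2

theorem wts_zero [Subsingleton M] : Wts F φ M p b := by
  refine ⟨?_, ?_, ?_⟩
  · rw [eq_top_iff]
    intro x _
    rw [Subsingleton.elim x 0]
    exact AddSubgroup.zero_mem _
  · intro n x _
    rw [Subsingleton.elim (gam φ (HasTh.tau F) • x) 0]
    exact AddSubgroup.zero_mem _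
  · intro n x _
    exact Subsingleton.elim _ _

end MSA
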