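import Mathlib
import Pool.Agent.MSA.De
import Pool.Agent.MSA.Wt

/-!
# Weights and invariants of the polynomial ring

PROOFS. `sr_wt`: `gam (th c) • toSr f = toSr (thS c f)` (`sr_gam`); if `f` is homogeneous of degree `n`
then `thS c f = c^n f` (`D.thS_hom`).  Conversely the coefficient of `thS c f` at `d` is
`c^|d| * coeff d f` (write `f` as the sum of its homogeneous components, `thS_hom`), so
`(c^|d| - c^n) * coeff d f = 0` for all `c ∈ Fˣ`; `F` is infinite and `z^|d| - z^n` is a nonzero Laurent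
polynomial for `|d| ≠ n`, so some `c ∈ Fˣ` satisfies `c^|d| ≠ c^n` and `coeff d f = 0` unless `|d| = n`
(here `n : ℤ`; for `n < 0` all coefficients vanish).
`iv_iff`: `D.ph Gn.tau = tauS = D.X.sig` and `sr_wt` for `p n`.
`iot_wt`: `gam (th c) • iot f • m = iot (thS c f) • gam (th c) • m = iot (c^k f) • iot (c^n) • m`.
`iot_minv`: the same for `τ`, with `D.iv_ph`.
`lift_minv`: `x ∈ wt (M ⧸ N) (p n)` lifts to `m ∈ wt M (p n)` (`wt_lift` for `N.mkQ`); `m ∉ N'`; then
`exists_minv` for `N'`.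
-/

set_option autoImplicit false
set_option linter.unusedSectionVars false

noncomputable section

namespace MSA

universe u v w

open MvPolynomial

namespace Dat

variable (D : Dat.{u})

private theorem thS_coeff (c : D.Fˣ) (f : D.S) (d : Fin D.p →₀ ℕ) :
    coeff d (D.thS c f) = algebraMap D.F D.L ((c : D.F) ^ (d.sum fun _ e => e)) * coeff d f := by
  induction f using MvPolynomial.induction_on' with
  | monomial u a =>
    have h1 : (monomial u a : D.S).IsHomogeneous (u.sum fun _ e => e) :=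
      isHomogeneous_monomial a rfl
    rw [D.thS_hom c h1]
    have h2 : algebraMap D.F D.S ((c : D.F) ^ (u.sum fun _ e => e)) =
        C (algebraMap D.F D.L ((c : D.F) ^ (u.sum fun _ e => e))) := rfl
    rw [h2, coeff_C_mul, coeff_monomial]
    by_cases h : u = d
    · rw [if_pos h, h]
    · rw [if_neg h, mul_zero, mul_zero]
  | add p q hp hq => rw [map_add, coeff_add, coeff_add, hp, hq, mul_add]

private theorem sr_wt_aux (n : ℤ) (f : D.S) :
    toSr D.ph f ∈ wt D.F D.ph (Sr D.ph) n ↔ ∀ (c : D.Fˣ) (d : Fin D.p →₀ ℕ),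
      algebraMap D.F D.L ((c : D.F) ^ (d.sum fun _ e => e)) * coeff d f =
        algebraMap D.F D.L ((c ^ n : D.Fˣ) : D.F) * coeff d f := by
  have h0 : ∀ c : D.Fˣ, (gam D.ph (HasTh.th c) • toSr D.ph f =
      iot D.ph (algebraMap D.F D.S ((c ^ n : D.Fˣ) : D.F)) • toSr D.ph f) ↔
      ∀ d : Fin D.p →₀ ℕ, algebraMap D.F D.L ((c : D.F) ^ (d.sum fun _ e => e)) * coeff d f =
        algebraMap D.F D.L ((c ^ n : D.Fˣ) : D.F) * coeff d f := by
    intro c
    rw [sr_gam, sr_iot]
    have h1 : D.ph (HasTh.th c) f = D.thS c f := rfl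
    have h2 : algebraMap D.F D.S ((c ^ n : D.Fˣ) : D.F) =
        C (algebraMap D.F D.L ((c ^ n : D.Fˣ) : D.F)) := rfl
    rw [h1, h2]
    constructor
    · intro h d
      have h3 := congrArg (coeff d) ((toSr D.ph).injective h)
      rwa [D.thS_coeff, coeff_C_mul] at h3
    · intro h
      congr 1
      refine MvPolynomial.ext _ _ fun d => ?_
      rw [D.thS_coeff, coeff_C_mul, h d]
  exact forall_congr' h0

theorem sr_wt (n : ℤ) (f : D.S) :
    toSr D.ph f ∈ wt D.F D.ph (Sr D.ph) n ↔ ∀ d ∈ f.support, ((d.sum fun _ e => e : ℕ) : ℤ) = n := by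
  rw [sr_wt_aux]
  constructor
  · intro h d hd
    have hd' : coeff d f ≠ 0 := mem_support_iff.1 hd
    obtain ⟨c, hc⟩ := wt_exists_unit (F := D.F) {((d.sum fun _ e => e : ℕ) : ℤ) - n}
    by_contra hne
    have h1 := hc _ (Finset.mem_singleton_self _) (sub_ne_zero.2 hne)
    apply h1
    have h2 := mul_right_cancel₀ hd' (h c d)
    have h3 := (algebraMap D.F D.L).injective h2
    have h4 : c ^ (((d.sum fun _ e => e : ℕ) : ℤ)) = c ^ n := by
      apply Units.ext
      rw [← h3, zpow_natCast, Units.val_pow_eq_pow_val]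
    rw [zpow_sub, h4, mul_inv_cancel]
  · intro h c d
    by_cases hd : coeff d f = 0
    · rw [hd, mul_zero, mul_zero]
    · have h1 := h d (mem_support_iff.2 hd)
      rw [← h1, zpow_natCast, Units.val_pow_eq_pow_val]

private theorem des_weight (d : Fin D.p →₀ ℕ) :
    Finsupp.weight (1 : Fin D.p → ℕ) d = d.sum fun _ e => e := by
  simp [Finsupp.weight, Finsupp.linearCombination, Finsupp.sum]

theorem sr_wt_nat (n : ℕ) (f : D.S) :
    toSr D.ph f ∈ wt D.F D.ph (Sr D.ph) n ↔ f.IsHomogeneous n := by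
  rw [sr_wt]
  constructor
  · intro h d hd
    have h1 := h d (mem_support_iff.2 hd)
    have h2 : (d.sum fun _ e => e : ℕ) = n := by exact_mod_cast h1
    rw [← h2]
    exact D.des_weight d
  · intro h d hd
    have h1 := h (mem_support_iff.1 hd)
    rw [← h1]
    exact congrArg Nat.cast (D.des_weight d).symm

theorem sr_wt_neg {n : ℤ} (hn : n < 0) {f : D.S} (h : toSr D.ph f ∈ wt D.F D.ph (Sr D.ph) n) :
    f = 0 := by
  rw [sr_wt] at h
  rw [← support_eq_empty, Finset.eq_empty_iff_forall_notMem]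
  intro d hd
  have h1 := h d hd
  omega

theorem iv_iff (n : ℕ) (f : D.S) : D.Iv n f ↔ toSr D.ph f ∈ D.minv (Sr D.ph) n := by
  have h1 : (toSr D.ph f ∈ wt D.F D.ph (Sr D.ph) ((D.p : ℤ) * (n : ℤ))) ↔
      f.IsHomogeneous (D.p * n) := by
    rw [← Nat.cast_mul]
    exact D.sr_wt_nat (D.p * n) f
  have h2 : (gam D.ph Gn.tau • toSr D.ph f =
      iot D.ph (algebraMap D.F D.S (D.b ^ (n : ℤ))) • toSr D.ph f) ↔
      D.X.sig f = C (D.X.bL ^ n) * f := by
    rw [sr_gam, sr_iot, zpow_natCast]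
    have h3 : algebraMap D.F D.S (D.b ^ n) = C (D.X.bL ^ n) := by
      show C (algebraMap D.F D.L (D.b ^ n)) = C (D.X.bL ^ n)
      rw [map_pow (algebraMap D.F D.L)]
      rfl
    rw [h3]
    exact (toSr D.ph).injective.eq_iff
  exact (and_congr h1 h2).symm

variable {M : Type u} [AddCommGroup M] [Module D.R M]

theorem iot_wt {k : ℕ} {f : D.S} (hf : f.IsHomogeneous k) {n : ℤ} {m : M}
    (hm : m ∈ wt D.F D.ph M n) : iot D.ph f • m ∈ wt D.F D.ph M (n + k) := by
  intro c
  have h1 : D.ph (HasTh.th c) f = algebraMap D.F D.S ((c : D.F) ^ k) * f := D.thS_hom c hf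
  rw [← mul_smul, gam_mul_iot, mul_smul, hm c, h1, ← mul_smul, ← mul_smul, ← map_mul, ← map_mul]
  congr 2
  rw [zpow_add, zpow_natCast, Units.val_mul, Units.val_pow_eq_pow_val, map_mul]
  ring

theorem iot_minv {k : ℕ} {r : D.S} (hr : D.Iv k r) {n : ℤ} {m : M}
    (hm : m ∈ D.minv M n) : iot D.ph r • m ∈ D.minv M (n + k) := by
  refine ⟨?_, ?_⟩
  · have h1 := D.iot_wt hr.1 hm.1
    have h2 : (D.p : ℤ) * n + ((D.p * k : ℕ) : ℤ) = D.p * (n + k) := by
      push_cast
      ring
    rwa [h2] at h1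
  · have h1 := D.iv_ph hr Gn.tau
    rw [← mul_smul, gam_mul_iot, mul_smul, hm.2, h1, ← mul_smul, ← mul_smul, ← map_mul, ← map_mul]
    congr 2
    show algebraMap D.F D.S (D.b ^ (k : ℤ)) * r * algebraMap D.F D.S (D.b ^ n) = _
    rw [zpow_add₀ D.X.b_ne, map_mul]
    ring

/-- An invariant of a quotient that is not in the image of `N'` gives an invariant of the module
outside of `N'`. -/
theorem lift_minv (hM : Wts D.F D.ph M D.p D.b) (N N' : Submodule D.R M) (n : ℤ) {x : M ⧸ N}
    (hx : x ∈ wt D.F D.ph (M ⧸ N) (D.p * n)) (hN : x ∉ N'.map N.mkQ) :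
    ∃ m ∈ D.minv M n, m ∉ N' := by
  obtain ⟨m, hm, rfl⟩ := wt_lift hM N.mkQ N.mkQ_surjective hx
  exact D.exists_minv hM N' n hm fun h => hN (Submodule.mem_map_of_mem h)

end Dat

end MSA
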