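import Mathlib
import Pool.Agent.MSA.Wt

/-!
# Closure properties of the predicates on modules over `R_k`

PROOFS. `Wts` passes to submodules, quotients, products and isomorphic modules (`MSA/Wt`: `wts_sub`,
`wts_quo`, `wts_iso`, `wts_prod`); the identities pass trivially. `FinS`: `S_k` is Noetherian
(`MvPolynomial.isNoetherianRing`); for a submodule `N` over `R_k` put `letI := modS A.ph Z`, view `N` as an
`S_k`-submodule, `IsNoetherian`; quotient: `Module.Finite.of_surjective`.
-/

set_option autoImplicit false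
set_option linter.unusedSectionVars false

noncomputable section

namespace MSA

universe u v w

/-- a linear map over the skew ring is linear over `S` -/
def ik_linS {S : Type u} [CommRing S] {Γ : Type u} (φ : Γ → S →+* S)
    {M N : Type u} [AddCommGroup M] [Module (Rg φ) M] [AddCommGroup N] [Module (Rg φ) N]
    (f : M →ₗ[Rg φ] N) : @LinearMap S S _ _ (RingHom.id S) M N _ _ (modS φ M) (modS φ N) :=
  let _ := modS φ M
  let _ := modS φ N
  { toFun := f
    map_add' := map_add f
    map_smul' := fun s m => f.map_smul (iot φ s) m }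

theorem ik_finS_surj {S : Type u} [CommRing S] {Γ : Type u} (φ : Γ → S →+* S)
    {M N : Type u} [AddCommGroup M] [Module (Rg φ) M] [AddCommGroup N] [Module (Rg φ) N]
    (f : M →ₗ[Rg φ] N) (hf : Function.Surjective f) (h : FinS φ M) : FinS φ N := by
  let _ := modS φ M
  let _ := modS φ N
  have h1 : Module.Finite S M := h
  exact Module.Finite.of_surjective (ik_linS φ f) hf

/-- submodules of finitely generated modules -/
theorem finS_sub {S : Type u} [CommRing S] [IsNoetherianRing S] {Γ : Type u} (φ : Γ → S →+* S)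
    {M : Type u} [AddCommGroup M] [Module (Rg φ) M] (h : FinS φ M) (N : Submodule (Rg φ) M) :
    FinS φ N := by
  let _ := modS φ M
  let _ := modS φ N
  have h1 : Module.Finite S M := h
  have h2 : IsNoetherian S M := isNoetherian_of_isNoetherianRing_of_finite S M
  exact Module.Finite.of_injective (ik_linS φ N.subtype) N.injective_subtype

theorem finS_quo {S : Type u} [CommRing S] {Γ : Type u} (φ : Γ → S →+* S)
    {M : Type u} [AddCommGroup M] [Module (Rg φ) M] (h : FinS φ M) (N : Submodule (Rg φ) M) :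
    FinS φ (M ⧸ N) := by
  exact ik_finS_surj φ N.mkQ N.mkQ_surjective h

theorem finS_prod {S : Type u} [CommRing S] {Γ : Type u} (φ : Γ → S →+* S)
    {M N : Type u} [AddCommGroup M] [Module (Rg φ) M] [AddCommGroup N] [Module (Rg φ) N]
    (h : FinS φ M) (h' : FinS φ N) : FinS φ (M × N) := by
  let _ := modS φ M
  let _ := modS φ N
  have h1 : Module.Finite S M := h
  have h2 : Module.Finite S N := h'
  have h3 : Module.Finite S (M × N) := inferInstance
  exact h3

theorem finS_iso {S : Type u} [CommRing S] {Γ : Type u} (φ : Γ → S →+* S)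
    {M N : Type u} [AddCommGroup M] [Module (Rg φ) M] [AddCommGroup N] [Module (Rg φ) N]
    (e : M ≃ₗ[Rg φ] N) (h : FinS φ M) : FinS φ N := by
  exact ik_finS_surj φ e.toLinearMap e.surjective h

namespace Adm

variable {D : Dat.{u}} (A : Adm D)

variable {Z Z' : Type u} [AddCommGroup Z] [Module A.R Z] [AddCommGroup Z'] [Module A.R Z']

theorem isK_sub (h : A.IsK Z) (N : Submodule A.R Z) : A.IsK N := by
  exact ⟨wts_sub h.wts N, fun z => Subtype.ext (h.cyk z), fun g z => Subtype.ext (h.com g z)⟩

theorem isK_quo (h : A.IsK Z) (N : Submodule A.R Z) : A.IsK (Z ⧸ N) := by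
  refine ⟨wts_quo h.wts N, fun z => ?_, fun g z => ?_⟩
  · obtain ⟨x, rfl⟩ := Submodule.Quotient.mk_surjective N z
    rw [← Submodule.Quotient.mk_smul, h.cyk]
  · obtain ⟨x, rfl⟩ := Submodule.Quotient.mk_surjective N z
    rw [← Submodule.Quotient.mk_smul, ← Submodule.Quotient.mk_smul, ← Submodule.Quotient.mk_smul,
      ← Submodule.Quotient.mk_smul, h.com]

theorem isK_prod (h : A.IsK Z) (h' : A.IsK Z') : A.IsK (Z × Z') := by
  exact ⟨wts_prod h.wts h'.wts, fun z => Prod.ext (h.cyk z.1) (h'.cyk z.2),
    fun g z => Prod.ext (h.com g z.1) (h'.com g z.2)⟩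

theorem isK_iso (e : Z ≃ₗ[A.R] Z') (h : A.IsK Z) : A.IsK Z' := by
  refine ⟨wts_iso e h.wts, fun z => ?_, fun g z => ?_⟩
  · obtain ⟨x, rfl⟩ := e.surjective z
    rw [← map_smul, h.cyk]
  · obtain ⟨x, rfl⟩ := e.surjective z
    rw [← map_smul, ← map_smul, ← map_smul, ← map_smul, h.com]

theorem isK_zero [Subsingleton Z] : A.IsK Z := by
  exact ⟨wts_zero, fun _ => Subsingleton.elim _ _, fun _ _ => Subsingleton.elim _ _⟩

theorem isZ_sub (h : A.IsZ Z) (N : Submodule A.R Z) : A.IsZ N := by
  have h1 : IsNoetherianRing A.S := MvPolynomial.isNoetherianRing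
  exact ⟨finS_sub A.ph h.fin N, A.isK_sub h.k N⟩

theorem isZ_quo (h : A.IsZ Z) (N : Submodule A.R Z) : A.IsZ (Z ⧸ N) := by
  exact ⟨finS_quo A.ph h.fin N, A.isK_quo h.k N⟩

end Adm

end MSA
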