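import Mathlib
import Pool.Agent.MSA.IsKA
import Pool.Agent.MSA.TwF

/-!
# Closure properties of the finitely generated graded modules; twists

PROOFS. `wt_tw`: on `D.T n M` the generator `th c` acts as `c ^ (p n) • gam (th c)` (`tw_gam`, `Dat.chi`), so
`gam (th c) • toTw m = toTw (iot (c^(p n)) • gam (th c) • m)`; it is `iot (c^k) • toTw m = toTw (iot (c^k) • m)` iff
`gam (th c) • m = iot (c^(k - p n)) • m` (multiply by the inverse of `c^(p n)`; `map_mul`, `zpow_sub`).
`wts_tw`: `span`: the map `toTw` is an additive isomorphism and maps `wt M k` onto `wt (T n M) (k + p n)`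
(`AddSubgroup.iSup_induction'` or `wt_decomp`). `tau`: `gam tau • toTw m = toTw (iot (b^n) • gam tau • m)`
and `wt_smul` of MSA/Wt. `taup`: by induction `(gam tau)^i • toTw m = toTw (iot (b^(n i)) • (gam tau)^i • m)`
(`F` commutes with `gam tau`: `gam_mul_iot`, `FixF.fix`), and `b^(n p) * b^(k - p n) = b^k`.
`finS_tw`: `toTw` is `S`-linear (`tw_iot`), `Module.Finite.of_surjective`.
-/

set_option autoImplicit false
set_option linter.unusedSectionVars false

noncomputable section

namespace MSA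

universe u v w

namespace Dat

variable (D : Dat.{u})

variable {M M' : Type u} [AddCommGroup M] [Module D.R M] [AddCommGroup M'] [Module D.R M']

theorem isG_sub (h : D.IsG M) (N : Submodule D.R M) : D.IsG N := by
  have h1 : IsNoetherianRing D.S := MvPolynomial.isNoetherianRing
  exact ⟨finS_sub D.ph h.fin N, wts_sub h.wts N⟩

theorem isG_quo (h : D.IsG M) (N : Submodule D.R M) : D.IsG (M ⧸ N) :=
  ⟨finS_quo D.ph h.fin N, wts_quo h.wts N⟩

theorem isG_prod (h : D.IsG M) (h' : D.IsG M') : D.IsG (M × M') :=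
  ⟨finS_prod D.ph h.fin h'.fin, wts_prod h.wts h'.wts⟩

theorem isG_iso (e : M ≃ₗ[D.R] M') (h : D.IsG M) : D.IsG M' :=
  ⟨finS_iso D.ph e h.fin, wts_iso e h.wts⟩

theorem finS_zero [Subsingleton M] : FinS D.ph M := by
  let _ := modS D.ph M
  have h : Module.Finite D.S M := inferInstance
  exact h

theorem isG_zero [Subsingleton M] : D.IsG M := ⟨D.finS_zero, wts_zero⟩

private theorem hfa_ee (x y : D.F) (m : M) :
    iot D.ph (algebraMap D.F D.S x) • iot D.ph (algebraMap D.F D.S y) • m =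
      iot D.ph (algebraMap D.F D.S (x * y)) • m := by
  rw [← mul_smul, ← map_mul, ← map_mul]

private theorem hfa_one (m : M) : iot D.ph (algebraMap D.F D.S 1) • m = m := by
  rw [map_one, map_one, one_smul]

theorem wt_tw (n k : ℤ) (m : M) : toTw D.ph (D.chi n) M m ∈ wt D.F D.ph (D.T n M) k ↔
    m ∈ wt D.F D.ph M (k - D.p * n) := by
  have key : ∀ c : D.Fˣ, gam D.ph (HasTh.th c) • toTw D.ph (D.chi n) M m =
      iot D.ph (algebraMap D.F D.S ((c ^ k : D.Fˣ) : D.F)) • toTw D.ph (D.chi n) M m ↔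
      gam D.ph (HasTh.th c) • m =
        iot D.ph (algebraMap D.F D.S ((c ^ (k - D.p * n) : D.Fˣ) : D.F)) • m := by
    intro c
    have h1 : D.chi n (HasTh.th c) = ((c ^ ((D.p : ℤ) * n) : D.Fˣ) : D.F) :=
      (Units.val_zpow_eq_zpow_val c _).symm
    rw [tw_gam, tw_iot, (toTw D.ph (D.chi n) M).injective.eq_iff, h1]
    constructor
    · intro h
      have h2 := congrArg (fun y => iot D.ph (algebraMap D.F D.S
        (((c ^ ((D.p : ℤ) * n))⁻¹ : D.Fˣ) : D.F)) • y) h
      have h3 : iot D.ph (algebraMap D.F D.S (((c ^ ((D.p : ℤ) * n))⁻¹ : D.Fˣ) : D.F)) •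
          iot D.ph (algebraMap D.F D.S ((c ^ ((D.p : ℤ) * n) : D.Fˣ) : D.F)) •
            gam D.ph (HasTh.th c) • m =
          iot D.ph (algebraMap D.F D.S (((c ^ ((D.p : ℤ) * n))⁻¹ : D.Fˣ) : D.F)) •
          iot D.ph (algebraMap D.F D.S ((c ^ k : D.Fˣ) : D.F)) • m := h2
      rw [D.hfa_ee, D.hfa_ee, ← Units.val_mul, ← Units.val_mul, inv_mul_cancel, Units.val_one,
        D.hfa_one] at h3
      rw [h3, zpow_sub, mul_comm]
    · intro h
      rw [h, D.hfa_ee, ← Units.val_mul, zpow_sub, mul_comm, inv_mul_cancel_right]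
  constructor
  · intro h c
    exact (key c).1 (h c)
  · intro h c
    exact (key c).2 (h c)

theorem wts_tw (h : Wts D.F D.ph M D.p D.b) (n : ℤ) : Wts D.F D.ph (D.T n M) D.p D.b := by
  have hs : ∀ x : D.T n M, ∃ m : M, x = toTw D.ph (D.chi n) M m := fun x =>
    ⟨(toTw D.ph (D.chi n) M).symm x, ((toTw D.ph (D.chi n) M).apply_symm_apply x).symm⟩
  refine ⟨?_, ?_, ?_⟩
  · rw [eq_top_iff]
    intro x _
    obtain ⟨m, hm⟩ := hs x
    rw [hm]
    obtain ⟨f, hf, hfm⟩ := wt_decomp h m
    have h1 : toTw D.ph (D.chi n) M m = ∑ j ∈ f.support, toTw D.ph (D.chi n) M (f j) := by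
      rw [← map_sum]
      exact congrArg _ hfm.symm
    rw [h1]
    refine AddSubgroup.sum_mem _ fun j _ => AddSubgroup.mem_iSup_of_mem (j + D.p * n) ?_
    rw [wt_tw, add_sub_cancel_right]
    exact hf j
  · intro k x hx
    obtain ⟨m, hm⟩ := hs x
    rw [hm, wt_tw] at hx
    rw [hm]
    rw [tw_gam, wt_tw]
    exact wt_smul (h.tau _ _ hx) _
  · intro k x hx
    obtain ⟨m, hm⟩ := hs x
    rw [hm, wt_tw] at hx
    rw [hm]
    have key : ∀ i : ℕ, (gam D.ph (HasTh.tau D.F)) ^ i • toTw D.ph (D.chi n) M m =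
        toTw D.ph (D.chi n) M (iot D.ph (algebraMap D.F D.S (D.b ^ (n * i))) •
          (gam D.ph (HasTh.tau D.F)) ^ i • m) := by
      intro i
      induction i with
      | zero =>
        rw [pow_zero, one_smul, one_smul, Nat.cast_zero, mul_zero, zpow_zero, D.hfa_one]
      | succ i ih =>
        have h1 : D.chi n (HasTh.tau D.F) = D.b ^ n := rfl
        rw [pow_succ', mul_smul, ih, tw_gam, h1, ← mul_smul (gam D.ph (HasTh.tau D.F)),
          gam_mul_iot, FixF.fix (φ := D.ph), mul_smul, D.hfa_ee, ← mul_smul (gam D.ph _),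
          ← pow_succ', ← zpow_add₀ D.X.b_ne]
        congr 5
        push_cast
        ring
    rw [key, h.taup _ _ hx, D.hfa_ee, ← zpow_add₀ D.X.b_ne, tw_iot]
    congr 5
    ring

theorem finS_tw (h : FinS D.ph M) (n : ℤ) : FinS D.ph (D.T n M) := by
  let _ := modS D.ph M
  let _ := modS D.ph (D.T n M)
  have h1 : Module.Finite D.S M := h
  let e : M →ₗ[D.S] D.T n M :=
    { toFun := toTw D.ph (D.chi n) M
      map_add' := map_add _
      map_smul' := fun s m => (tw_iot (D.chi n) M s m).symm }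
  exact Module.Finite.of_surjective e (toTw D.ph (D.chi n) M).surjective

theorem isG_tw (h : D.IsG M) (n : ℤ) : D.IsG (D.T n M) := ⟨D.finS_tw h.fin n, D.wts_tw h.wts n⟩

end Dat

end MSA
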