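import Mathlib
import Pool.Agent.MSA.HfA
import Pool.Agent.MSA.ChA

/-!
# Hilbert functions: additivity

`D.wL M n` is the weight space `wt M n` as an `L`-subspace of `UL D M`; `D.hf M n` is its dimension.

PROOFS. `isW_sub`: `wts_sub`; `wL N n` embeds in `wL M n` (`D.wLm N.subtype n`), so it is finite; bounded below
clear (an element of `wt N n` has its value in `wt M n = ⊥`). `isW_quo`: `wts_quo`, `D.wLm N.mkQ n` is surjective
(`wLm_surj`, by `wt_lift`). `isW_prod`: `wts_prod`; `wL (M × M') n` is contained in the product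
(`wt_map` for `fst`, `snd`), i.e. `x ↦ (fst x, snd x)` is an injective linear map into a finite space. `isW_iso`:
`wts_iso`, `D.wLm e`, `D.wLm e.symm`. `isW_tw`: `wts_tw`, `wt_tw`; `wL (T a M) n` is `wL M (n - p a)` (the `L`-structures
agree by `tw_iot`). `hf_iso`, `hf_tw`: linear equivalence of the weight spaces, `LinearEquiv.finrank_eq`.
`hf_add`: `LinearMap.finrank_range_add_finrank_ker` for `D.wLm N.mkQ n`, which is surjective, and its kernel is the
image of the injective map `D.wLm N.subtype n` (the rank is additive also without `hM`, but `hM.fd n` makes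
it easy). `hf_eq_zero`: `Submodule.finrank_eq_zero` with `hM.fd n`. `hf_sub_le`, `hf_quo_le`: `hf_add`.
-/

set_option autoImplicit false
set_option linter.unusedSectionVars false

noncomputable section

namespace MSA

universe u v w

namespace Dat

variable (D : Dat.{u})

variable {M M' : Type u} [AddCommGroup M] [Module D.R M] [AddCommGroup M'] [Module D.R M']

variable (M) in
/-- the weight space as a subspace of `UL D M` -/
def wL (n : ℤ) : Submodule D.L (UL D M) := D.wtL M n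

theorem mem_wL (n : ℤ) (x : UL D M) : x ∈ D.wL M n ↔ (x : M) ∈ wt D.F D.ph M n := Iff.rfl

theorem hf_wL (n : ℤ) : D.hf M n = Module.finrank D.L (D.wL M n) := rfl

theorem fd_wL (n : ℤ) : D.FdW M n ↔ Module.Finite D.L (D.wL M n) := Iff.rfl

/-- the `L`-linear map underlying a linear map -/
def lL (f : M →ₗ[D.R] M') : UL D M →ₗ[D.L] UL D M' where
  toFun := f
  map_add' := map_add f
  map_smul' c x := f.map_smul (iot D.ph (MvPolynomial.C c)) x

/-- a linear map on the weight spaces -/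
def wLm (f : M →ₗ[D.R] M') (n : ℤ) : D.wL M n →ₗ[D.L] D.wL M' n :=
  (D.lL f).restrict (fun _ hx => wt_map f hx)

theorem wLm_inj (f : M →ₗ[D.R] M') (hf : Function.Injective f) (n : ℤ) :
    Function.Injective (D.wLm f n) := fun _ _ h => Subtype.ext (hf (congrArg Subtype.val h))

theorem wLm_surj (h : D.IsW M) (f : M →ₗ[D.R] M') (hf : Function.Surjective f) (n : ℤ) :
    Function.Surjective (D.wLm f n) := by
  rintro ⟨y, hy⟩
  obtain ⟨m, hm, h1⟩ := wt_lift h.wts f hf hy
  exact ⟨⟨m, hm⟩, Subtype.ext h1⟩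

theorem isW_sub (h : D.IsW M) (N : Submodule D.R M) : D.IsW N := by
  refine ⟨wts_sub h.wts N, fun n => ?_, ?_⟩
  · rw [fd_wL]
    have : Module.Finite D.L (D.wL M n) := (D.fd_wL n).1 (h.fd n)
    exact Module.Finite.of_injective (D.wLm N.subtype n) (D.wLm_inj _ N.injective_subtype n)
  · obtain ⟨n₀, hn⟩ := h.bd
    refine ⟨n₀, fun n hlt => ?_⟩
    rw [eq_bot_iff]
    intro x hx
    have h1 : (x : M) ∈ wt D.F D.ph M n := wt_map N.subtype hx
    rw [hn n hlt, AddSubgroup.mem_bot] at h1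
    rw [AddSubgroup.mem_bot]
    exact Subtype.ext h1

theorem isW_quo (h : D.IsW M) (N : Submodule D.R M) : D.IsW (M ⧸ N) := by
  refine ⟨wts_quo h.wts N, fun n => ?_, ?_⟩
  · rw [fd_wL]
    have : Module.Finite D.L (D.wL M n) := (D.fd_wL n).1 (h.fd n)
    exact Module.Finite.of_surjective (D.wLm N.mkQ n) (D.wLm_surj h _ N.mkQ_surjective n)
  · obtain ⟨n₀, hn⟩ := h.bd
    refine ⟨n₀, fun n hlt => ?_⟩
    rw [eq_bot_iff]
    intro x hx
    obtain ⟨m, hm, h1⟩ := wt_lift h.wts N.mkQ N.mkQ_surjective hx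
    rw [hn n hlt, AddSubgroup.mem_bot] at hm
    rw [AddSubgroup.mem_bot, ← h1, hm, map_zero]

theorem isW_prod (h : D.IsW M) (h' : D.IsW M') : D.IsW (M × M') := by
  refine ⟨wts_prod h.wts h'.wts, fun n => ?_, ?_⟩
  · rw [fd_wL]
    have : Module.Finite D.L (D.wL M n) := (D.fd_wL n).1 (h.fd n)
    have : Module.Finite D.L (D.wL M' n) := (D.fd_wL n).1 (h'.fd n)
    refine Module.Finite.of_injective ((D.wLm (LinearMap.fst D.R M M') n).prod
      (D.wLm (LinearMap.snd D.R M M') n)) ?_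
    intro x y hxy
    have h1 := congrArg Prod.fst hxy
    have h2 := congrArg Prod.snd hxy
    exact Subtype.ext (Prod.ext (congrArg Subtype.val h1) (congrArg Subtype.val h2))
  · obtain ⟨n₀, hn⟩ := h.bd
    obtain ⟨n₁, hn'⟩ := h'.bd
    refine ⟨min n₀ n₁, fun n hlt => ?_⟩
    rw [eq_bot_iff]
    intro x hx
    have h1 : x.1 ∈ wt D.F D.ph M n := wt_map (LinearMap.fst D.R M M') hx
    have h2 : x.2 ∈ wt D.F D.ph M' n := wt_map (LinearMap.snd D.R M M') hx
    rw [hn n (lt_of_lt_of_le hlt (min_le_left _ _)), AddSubgroup.mem_bot] at h1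
    rw [hn' n (lt_of_lt_of_le hlt (min_le_right _ _)), AddSubgroup.mem_bot] at h2
    rw [AddSubgroup.mem_bot]
    exact Prod.ext h1 h2

/-- an isomorphism on the weight spaces -/
private def wLe (e : M ≃ₗ[D.R] M') (n : ℤ) : D.wL M n ≃ₗ[D.L] D.wL M' n :=
  LinearEquiv.ofBijective (D.wLm (e : M →ₗ[D.R] M') n) ⟨D.wLm_inj _ e.injective n, by
    rintro ⟨y, hy⟩
    exact ⟨⟨e.symm y, wt_map (e.symm : M' →ₗ[D.R] M) hy⟩, Subtype.ext (e.apply_symm_apply y)⟩⟩

theorem isW_iso (e : M ≃ₗ[D.R] M') (h : D.IsW M) : D.IsW M' := by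
  refine ⟨wts_iso e h.wts, fun n => ?_, ?_⟩
  · rw [fd_wL]
    have : Module.Finite D.L (D.wL M n) := (D.fd_wL n).1 (h.fd n)
    exact Module.Finite.equiv (D.wLe e n)
  · obtain ⟨n₀, hn⟩ := h.bd
    refine ⟨n₀, fun n hlt => ?_⟩
    rw [eq_bot_iff]
    intro x hx
    have h1 : e.symm x ∈ wt D.F D.ph M n := wt_map (e.symm : M' →ₗ[D.R] M) hx
    rw [hn n hlt, AddSubgroup.mem_bot] at h1
    rw [AddSubgroup.mem_bot]
    exact (e.symm.map_eq_zero_iff).1 h1

theorem isW_zero [Subsingleton M] : D.IsW M := by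
  refine ⟨wts_zero, fun n => ?_, ⟨0, fun n _ => ?_⟩⟩
  · rw [fd_wL]
    have h1 : Subsingleton (UL D M) := inferInstanceAs (Subsingleton M)
    infer_instance
  · rw [eq_bot_iff]
    intro x _
    rw [AddSubgroup.mem_bot]
    exact Subsingleton.elim _ _

/-- the weight spaces of a twist -/
private def wLt (a n : ℤ) : D.wL M (n - D.p * a) ≃ₗ[D.L] D.wL (D.T a M) n where
  toFun x := ⟨toTw D.ph (D.chi a) M x.1, (D.wt_tw (M := M) a n x.1).2 x.2⟩
  invFun y := ⟨(toTw D.ph (D.chi a) M).symm y.1,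
    (D.wt_tw (M := M) a n ((toTw D.ph (D.chi a) M).symm y.1)).1 y.2⟩
  left_inv x := Subtype.ext ((toTw D.ph (D.chi a) M).symm_apply_apply x.1)
  right_inv y := Subtype.ext ((toTw D.ph (D.chi a) M).apply_symm_apply y.1)
  map_add' x y := Subtype.ext (map_add (toTw D.ph (D.chi a) M) x.1 y.1)
  map_smul' c x := Subtype.ext
    (tw_iot (φ := D.ph) (D.chi a) M (MvPolynomial.C c) x.1).symm

theorem isW_tw (h : D.IsW M) (n : ℤ) : D.IsW (D.T n M) := by
  refine ⟨D.wts_tw h.wts n, fun k => ?_, ?_⟩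
  · rw [fd_wL]
    have : Module.Finite D.L (D.wL M (k - D.p * n)) := (D.fd_wL _).1 (h.fd _)
    exact Module.Finite.equiv (D.wLt n k)
  · obtain ⟨n₀, hn⟩ := h.bd
    refine ⟨n₀ + D.p * n, fun k hlt => ?_⟩
    rw [eq_bot_iff]
    intro x hx
    obtain ⟨m, rfl⟩ := (toTw D.ph (D.chi n) M).surjective x
    have h1 := (D.wt_tw n k m).1 hx
    rw [hn _ (by omega), AddSubgroup.mem_bot] at h1
    rw [AddSubgroup.mem_bot, h1, map_zero]

theorem hf_iso (e : M ≃ₗ[D.R] M') (n : ℤ) : D.hf M n = D.hf M' n := by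
  rw [hf_wL, hf_wL]
  exact (D.wLe e n).finrank_eq

private theorem wt_sub_mem {D : Dat.{u}} {M : Type u} [AddCommGroup M] [Module D.R M]
    (N : Submodule D.R M) {x : M} (hx : x ∈ N) {n : ℤ} (hn : x ∈ wt D.F D.ph M n) :
    ∃ y : N, y ∈ wt D.F D.ph N n ∧ (y : M) = x := by
  refine ⟨⟨x, hx⟩, ?_, rfl⟩
  intro c
  apply Subtype.ext
  exact hn c

theorem hf_add (hM : D.IsW M) (N : Submodule D.R M) (n : ℤ) :
    D.hf M n = D.hf N n + D.hf (M ⧸ N) n := by
  rw [hf_wL, hf_wL, hf_wL]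
  have : Module.Finite D.L (D.wL M n) := (D.fd_wL n).1 (hM.fd n)
  have h1 := LinearMap.finrank_range_add_finrank_ker (D.wLm N.mkQ n)
  have h2 : LinearMap.range (D.wLm N.mkQ n) = ⊤ :=
    LinearMap.range_eq_top.2 (D.wLm_surj hM _ N.mkQ_surjective n)
  have h3 : LinearMap.ker (D.wLm N.mkQ n) = LinearMap.range (D.wLm N.subtype n) := by
    ext x
    rw [LinearMap.mem_ker, LinearMap.mem_range]
    constructor
    · intro hx
      have h4 : N.mkQ (x.1 : M) = 0 := congrArg Subtype.val hx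
      rw [Submodule.mkQ_apply, Submodule.Quotient.mk_eq_zero] at h4
      obtain ⟨y, hy, hxy⟩ := wt_sub_mem (D := D) N h4 x.2
      exact ⟨⟨y, hy⟩, Subtype.ext hxy⟩
    · rintro ⟨y, rfl⟩
      apply Subtype.ext
      exact (Submodule.Quotient.mk_eq_zero N).2 (y.1 : N).2
  have h5 : Module.finrank D.L (LinearMap.range (D.wLm N.subtype n)) =
      Module.finrank D.L (D.wL N n) :=
    LinearMap.finrank_range_of_inj (D.wLm_inj _ N.injective_subtype n)
  rw [h3, h5, h2, finrank_top] at h1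
  omega

theorem hf_tw (a n : ℤ) : D.hf (D.T a M) n = D.hf M (n - D.p * a) := by
  rw [hf_wL, hf_wL]
  exact (D.wLt a n).finrank_eq.symm

theorem hf_eq_zero (hM : D.IsW M) (n : ℤ) : D.hf M n = 0 ↔ wt D.F D.ph M n = ⊥ := by
  rw [hf_wL]
  have : Module.Finite D.L (D.wL M n) := (D.fd_wL n).1 (hM.fd n)
  rw [Submodule.finrank_eq_zero]
  constructor
  · intro h
    rw [eq_bot_iff]
    intro x hx
    have h1 : @Membership.mem (UL D M) (Submodule D.L (UL D M)) _ (D.wL M n) x := hx
    rw [h] at h1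
    have h2 : @Eq (UL D M) x 0 := (Submodule.mem_bot D.L (M := UL D M)).1 h1
    exact (AddSubgroup.mem_bot).2 h2
  · intro h
    rw [eq_bot_iff]
    intro x hx
    have h1 : (show M from x) ∈ wt D.F D.ph M n := hx
    rw [h] at h1
    exact (Submodule.mem_bot D.L).2 ((AddSubgroup.mem_bot).1 h1)

theorem hf_zero [Subsingleton M] (n : ℤ) : D.hf M n = 0 := by
  rw [hf_wL]
  have h1 : Subsingleton (UL D M) := inferInstanceAs (Subsingleton M)
  exact Module.finrank_zero_of_subsingleton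

theorem hf_sub_le (hM : D.IsW M) (N : Submodule D.R M) (n : ℤ) : D.hf N n ≤ D.hf M n := by
  rw [D.hf_add hM N]
  exact Nat.le_add_right _ _

theorem hf_quo_le (hM : D.IsW M) (N : Submodule D.R M) (n : ℤ) : D.hf (M ⧸ N) n ≤ D.hf M n := by
  rw [D.hf_add hM N]
  exact Nat.le_add_left _ _

/-- The class of the graded modules with finite dimensional weight spaces, bounded below. -/
def cW : Cls.{u} D.R where
  P := fun M _ _ => D.IsW M
  iso := fun e h => D.isW_iso e h
  zero := fun _ _ _ _ => D.isW_zero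
  sub := fun N h => D.isW_sub h N
  quo := fun N h => D.isW_quo h N
  prod := fun h h' => D.isW_prod h h'

/-- The Hilbert function is additive. -/
def hfA (n : ℤ) : Adf D.cW ℤ where
  e := fun M _ _ => (D.hf M n : ℤ)
  iso := fun e _ => by rw [D.hf_iso e n]
  add := fun N h => by rw [D.hf_add h N n, Nat.cast_add]

theorem hf_ses {K : Type u} [AddCommGroup K] [Module D.R K] (hM : D.IsW M) (i : K →ₗ[D.R] M)
    (q : M →ₗ[D.R] M') (hi : Function.Injective i) (hq : Function.Surjective q)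
    (h : ∀ m, q m = 0 ↔ ∃ k, i k = m) (n : ℤ) : D.hf M n = D.hf K n + D.hf M' n := by
  have h1 := adf_ses (D.hfA n) (C := D.cW) hM i q hi hq h
  have h2 : (D.hf M n : ℤ) = D.hf K n + D.hf M' n := h1
  exact_mod_cast h2

theorem hf_prod (h : D.IsW M) (h' : D.IsW M') (n : ℤ) :
    D.hf (M × M') n = D.hf M n + D.hf M' n := by
  have h1 := adf_prod (D.hfA n) (C := D.cW) h h'
  have h2 : (D.hf (M × M') n : ℤ) = D.hf M n + D.hf M' n := h1
  exact_mod_cast h2

end Dat

end MSA
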