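import Mathlib
import Pool.Agent.MSA.HfB
import Pool.Agent.MSA.DeS

/-!
# Homogeneous generators of a finitely generated graded module

PROOFS. `fin_hom`: `homogeneousSubmodule` is `Finsupp.supported` on the exponents of degree `k`
(`MvPolynomial.homogeneousSubmodule_eq_finsupp_supported`), a finite set (`Fin D.p →₀ ℕ` with `degree = k`:
`Finsupp.finite_of_degree_le` or bounded exponents), so it is spanned by finitely many monomials.
`gens`: `h.fin` gives finitely many generators of `M` over `S` (`Module.Finite` for `modS D.ph M`,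
`Module.Finite.exists_fin` or `Submodule.fg_iff_exists_fin_generating_family`); by `wt_decomp` each of them is a finite
sum of weight vectors, take all these components as `g` (re-index a finite type by `Fin s`,
`Finite.exists_equiv_fin`); then every `x` is `∑ iot (f i) • g i`. If `x ∈ wt M n`, write every `f i` as the sum of its
homogeneous components (`MvPolynomial.sum_homogeneousComponent`), `iot (component of degree k) • g i ∈ wt M (d i + k)`
(`iot_wt` of MSA/DeS), and compare the components of weight `n`: `x = ∑ i, iot (homogeneousComponent (n - d i).toNat (f i)) • g i`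
over the `i` with `d i ≤ n` (`wt_indep` for the `Finsupp` of the differences, as in the proof of `hb_span` in MSA/PwHb,
or `wt_mem_sub`). `gen_le`: the sum map `∏ i, homogeneousSubmodule (n - d i).toNat → wL M n`, restricted to the `i`
with `d i ≤ n`, is surjective. `IsG.isW`: `gens` and `gen_le` (`fin_hom`); for `n` smaller than all `d i` every `x` in
`wt M n` is `0`.
-/

set_option autoImplicit false
set_option linter.unusedSectionVars false

noncomputable section

namespace MSA

universe u v w

open MvPolynomial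

namespace Dat

variable (D : Dat.{u})

theorem fin_hom (k : ℕ) : Module.Finite D.L (homogeneousSubmodule (Fin D.p) D.L k) :=
  Module.Finite.iff_fg.2 (homogeneousSubmodule_fg _ _ k)

variable {M : Type u} [AddCommGroup M] [Module D.R M]

variable (M) in
/-- A finite system of homogeneous generators. -/
structure Gens where
  s : ℕ
  g : Fin s → M
  d : Fin s → ℤ
  mem : ∀ i, g i ∈ wt D.F D.ph M (d i)
  gen : ∀ x : M, ∃ f : Fin s → D.S, x = ∑ i, iot D.ph (f i) • g i
  hom : ∀ n : ℤ, ∀ x ∈ wt D.F D.ph M n, ∃ f : Fin s → D.S,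
    (∀ i, (f i).IsHomogeneous (n - d i).toNat) ∧ (∀ i, n < d i → f i = 0) ∧
      x = ∑ i, iot D.ph (f i) • g i

private theorem gens_aux (h : D.IsG M) : ∃ (ι : Type) (_ : Fintype ι) (g : ι → M) (d : ι → ℤ),
    (∀ i, g i ∈ wt D.F D.ph M (d i)) ∧
      ∀ x : M, ∃ f : ι → D.S, x = ∑ i, iot D.ph (f i) • g i := by
  classical
  have h1 := h.fin
  unfold FinS at h1
  let _ := modS D.ph M
  obtain ⟨s0, g0, hg0⟩ := h1.exists_fin
  choose f hf hf2 using fun i : Fin s0 => wt_decomp h.wts (g0 i)
  refine ⟨(i : Fin s0) × {n : ℤ // n ∈ (f i).support}, inferInstance, fun x => f x.1 x.2.1,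
    fun x => x.2.1, fun x => hf x.1 x.2.1, fun x => ?_⟩
  have hx : x ∈ Submodule.span D.S (Set.range g0) := by
    rw [hg0]
    exact Submodule.mem_top
  obtain ⟨c, hc⟩ := (Submodule.mem_span_range_iff_exists_fun D.S).1 hx
  refine ⟨fun y => c y.1, ?_⟩
  rw [← hc, Fintype.sum_sigma]
  refine Finset.sum_congr rfl fun i _ => ?_
  show iot D.ph (c i) • g0 i = ∑ n : {n : ℤ // n ∈ (f i).support}, iot D.ph (c i) • f i n.1
  rw [← Finset.smul_sum]
  congr 1
  conv_lhs => rw [← hf2 i]
  rw [Finsupp.sum]
  exact (Finset.sum_coe_sort (f i).support (fun n => f i n)).symm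

private theorem gens_comp {s : ℕ} (g : Fin s → M) (d : Fin s → ℤ)
    (mem : ∀ i, g i ∈ wt D.F D.ph M (d i)) (n : ℤ) (x : M) (hx : x ∈ wt D.F D.ph M n)
    (f : Fin s → D.S) (hf : x = ∑ i, iot D.ph (f i) • g i) : ∃ f : Fin s → D.S,
    (∀ i, (f i).IsHomogeneous (n - d i).toNat) ∧ (∀ i, n < d i → f i = 0) ∧
      x = ∑ i, iot D.ph (f i) • g i := by
  classical
  obtain ⟨G, hG⟩ : ∃ G : ℤ →₀ M, G = ∑ i, ∑ j ∈ Finset.range ((f i).totalDegree + 1),
    Finsupp.single (d i + j) (iot D.ph (homogeneousComponent j (f i)) • g i) := ⟨_, rfl⟩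
  have hGk : ∀ k, G k = ∑ i, ∑ j ∈ Finset.range ((f i).totalDegree + 1),
      (if d i + j = k then iot D.ph (homogeneousComponent j (f i)) • g i else 0) := by
    intro k
    rw [hG, Finsupp.finsetSum_apply]
    refine Finset.sum_congr rfl fun i _ => ?_
    rw [Finsupp.finsetSum_apply]
    refine Finset.sum_congr rfl fun j _ => ?_
    by_cases hk : d i + j = k
    · subst hk
      rw [Finsupp.single_eq_same, if_pos rfl]
    · rw [Finsupp.single_eq_of_ne (fun h => hk h.symm), if_neg hk]
  have hGw : ∀ k, G k ∈ wt D.F D.ph M k := by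
    intro k
    rw [hGk]
    refine AddSubgroup.sum_mem _ fun i _ => AddSubgroup.sum_mem _ fun j _ => ?_
    by_cases hk : d i + j = k
    · rw [if_pos hk, ← hk]
      exact D.iot_wt (homogeneousComponent_isHomogeneous j (f i)) (mem i)
    · rw [if_neg hk]
      exact AddSubgroup.zero_mem _
  have hGs : G.sum (fun _ y => y) = x := by
    rw [hG, ← Finsupp.sum_finsetSum_index (fun _ => rfl) (fun _ _ _ => rfl), hf]
    refine Finset.sum_congr rfl fun i _ => ?_
    rw [← Finsupp.sum_finsetSum_index (fun _ => rfl) (fun _ _ _ => rfl)]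
    have h2 : ∀ j ∈ Finset.range ((f i).totalDegree + 1),
        (Finsupp.single (d i + j) (iot D.ph (homogeneousComponent j (f i)) • g i)).sum
          (fun _ y => y) = iot D.ph (homogeneousComponent j (f i)) • g i :=
      fun j _ => Finsupp.sum_single_index rfl
    rw [Finset.sum_congr rfl h2, ← Finset.sum_smul, ← map_sum, sum_homogeneousComponent]
  have h3 : G - Finsupp.single n x = 0 := by
    apply wt_indep (F := D.F) (φ := D.ph)
    · intro k
      rw [Finsupp.sub_apply]
      refine AddSubgroup.sub_mem _ (hGw k) ?_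
      by_cases hk : k = n
      · subst hk
        rw [Finsupp.single_eq_same]
        exact hx
      · rw [Finsupp.single_eq_of_ne hk]
        exact AddSubgroup.zero_mem _
    · rw [Finsupp.sum_sub_index (fun _ _ _ => rfl), Finsupp.sum_single_index rfl, hGs, sub_self]
  have h4 := DFunLike.congr_fun h3 n
  rw [Finsupp.sub_apply, Finsupp.single_eq_same, Finsupp.zero_apply, sub_eq_zero] at h4
  refine ⟨fun i => ∑ j ∈ Finset.range ((f i).totalDegree + 1),
    (if d i + j = n then homogeneousComponent j (f i) else 0), ?_, ?_, ?_⟩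
  · intro i
    refine IsHomogeneous.sum _ _ _ fun j _ => ?_
    by_cases hk : d i + j = n
    · rw [if_pos hk]
      have h5 : (n - d i).toNat = j := by omega
      rw [h5]
      exact homogeneousComponent_isHomogeneous j (f i)
    · rw [if_neg hk]
      exact isHomogeneous_zero _ _ _
  · intro i hi
    refine Finset.sum_eq_zero fun j _ => ?_
    rw [if_neg]
    omega
  · rw [← h4, hGk]
    refine Finset.sum_congr rfl fun i _ => ?_
    rw [map_sum, Finset.sum_smul]
    refine Finset.sum_congr rfl fun j _ => ?_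
    by_cases hk : d i + j = n
    · rw [if_pos hk, if_pos hk]
    · rw [if_neg hk, if_neg hk, map_zero, zero_smul]

theorem gens (h : D.IsG M) : Nonempty (D.Gens M) := by
  obtain ⟨ι, hι, g, d, hm, hg⟩ := D.gens_aux h
  let e : ι ≃ Fin (Fintype.card ι) := Fintype.equivFin ι
  have hm' : ∀ i, g (e.symm i) ∈ wt D.F D.ph M (d (e.symm i)) := fun i => hm _
  have hg' : ∀ x : M, ∃ f : Fin (Fintype.card ι) → D.S,
      x = ∑ i, iot D.ph (f i) • g (e.symm i) := by
    intro x
    obtain ⟨f, hf⟩ := hg x
    refine ⟨fun i => f (e.symm i), ?_⟩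
    rw [hf]
    exact (Equiv.sum_comp e.symm (fun i => iot D.ph (f i) • g i)).symm
  exact ⟨⟨Fintype.card ι, fun i => g (e.symm i), fun i => d (e.symm i), hm', hg', fun n x hx => by
    obtain ⟨f, hf⟩ := hg' x
    exact D.gens_comp _ _ hm' n x hx f hf⟩⟩

/-- evaluation on a weight vector -/
def evG (k : ℕ) (m : M) : homogeneousSubmodule (Fin D.p) D.L k →ₗ[D.L] UL D M where
  toFun f := iot D.ph (f : D.S) • m
  map_add' f g := by
    show iot D.ph ((f : D.S) + g) • m = iot D.ph (f : D.S) • m + iot D.ph (g : D.S) • m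
    rw [map_add, add_smul]
  map_smul' c f := by
    show iot D.ph (c • (f : D.S)) • m = iot D.ph (C c) • iot D.ph (f : D.S) • m
    rw [← mul_smul, ← map_mul, smul_eq_C_mul]

theorem evG_apply (k : ℕ) (m : M) (f : homogeneousSubmodule (Fin D.p) D.L k) :
    D.evG k m f = iot D.ph (f : D.S) • m := rfl

theorem gen_le (G : D.Gens M) (n : ℤ) :
    D.wL M n ≤ ⨆ i : {i // G.d i ≤ n}, LinearMap.range (D.evG (n - G.d i).toNat (G.g i)) := by
  intro x hx
  obtain ⟨f, hf1, hf2, hf3⟩ := G.hom n x hx
  have h1 : x = (∑ i, (iot D.ph (f i) • G.g i : UL D M) : UL D M) := hf3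
  rw [h1]
  refine Submodule.sum_mem (M := UL D M) _ fun i _ => ?_
  by_cases hi : G.d i ≤ n
  · refine Submodule.mem_iSup_of_mem (⟨i, hi⟩ : {i // G.d i ≤ n}) ?_
    exact ⟨⟨f i, hf1 i⟩, rfl⟩
  · have h2 : (iot D.ph (f i) • G.g i : UL D M) = 0 := by
      rw [hf2 i (not_le.1 hi), map_zero]
      exact zero_smul _ _
    rw [h2]
    exact Submodule.zero_mem _

theorem IsG.isW {D : Dat.{u}} {M : Type u} [AddCommGroup M] [Module D.R M] (h : D.IsG M) :
    D.IsW M := by
  obtain ⟨G⟩ := D.gens h
  refine ⟨h.wts, fun n => ?_, ?_⟩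
  · rw [D.fd_wL]
    have h1 : ∀ k, Module.Finite D.L (homogeneousSubmodule (Fin D.p) D.L k) := D.fin_hom
    have h2 : Module.Finite D.L ↥(⨆ i : {i // G.d i ≤ n},
        LinearMap.range (D.evG (n - G.d i).toNat (G.g i))) := by
      have h3 : ∀ i : {i // G.d i ≤ n}, Module.Finite D.L
          ↥(LinearMap.range (D.evG (n - G.d i).toNat (G.g i))) := fun i => Module.Finite.range _
      exact Submodule.finite_iSup _
    exact Submodule.finiteDimensional_of_le (D.gen_le G n)
  · obtain ⟨n₀, hn₀⟩ := (Set.finite_range G.d).bddBelow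
    refine ⟨n₀, fun n hn => ?_⟩
    rw [eq_bot_iff]
    intro x hx
    obtain ⟨f, -, hf2, hf3⟩ := G.hom n x hx
    rw [AddSubgroup.mem_bot, hf3]
    refine Finset.sum_eq_zero fun i _ => ?_
    rw [hf2 i (lt_of_lt_of_le hn (hn₀ ⟨i, rfl⟩)), map_zero, zero_smul]

end Dat

end MSA
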