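import Mathlib
import Pool.Agent.MSA.HfG

/-!
# The regular module is graded

PROOF. `wts_sr`: `span`: `toSr f` is the sum of the `toSr (homogeneousComponent k f)`, which have weight `k` by
`sr_wt_nat` (MSA/DeS). `tau`: if `n < 0` then `m = 0` (`sr_wt_neg`), otherwise `m = toSr f`, `f` homogeneous
(`sr_wt_nat`), `gam tau • toSr f = toSr (tauS f)` (`sr_gam`), `D.X.sig_hom`. `taup`: `(gam tau)^p • toSr f =
toSr (sig^[p] f)` (iterate `sr_gam`), `D.X.sig_iter`. `isG_sr`: `Sr` is generated by `toSr 1` over `S` (`sr_iot`).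
-/

set_option autoImplicit false
set_option linter.unusedSectionVars false

noncomputable section

namespace MSA

universe u v w

open MvPolynomial

namespace Dat

variable (D : Dat.{u})

private theorem sr_tau_iter (f : D.S) (k : ℕ) :
    (gam D.ph (HasTh.tau D.F)) ^ k • toSr D.ph f = toSr D.ph (D.X.sig^[k] f) := by
  induction k with
  | zero => rw [pow_zero, one_smul]; rfl
  | succ k ih =>
    rw [pow_succ', mul_smul, ih, sr_gam, Function.iterate_succ_apply']
    rfl

theorem wts_sr : Wts D.F D.ph (Sr D.ph) D.p D.b where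
  span := by
    rw [eq_top_iff]
    rintro m -
    obtain ⟨f, rfl⟩ := (toSr D.ph).surjective m
    have h1 : toSr D.ph f = ∑ i ∈ Finset.range (f.totalDegree + 1),
        toSr D.ph (homogeneousComponent i f) := by
      rw [← map_sum, MvPolynomial.sum_homogeneousComponent]
    rw [h1]
    refine AddSubgroup.sum_mem _ fun k _ => ?_
    exact AddSubgroup.mem_iSup_of_mem (k : ℤ)
      ((D.sr_wt_nat k _).2 (homogeneousComponent_isHomogeneous k f))
  tau := by
    intro n m hm
    obtain ⟨f, rfl⟩ := (toSr D.ph).surjective m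
    rw [sr_gam]
    rcases lt_or_ge n 0 with hn | hn
    · rw [D.sr_wt_neg hn hm, map_zero, map_zero]
      exact AddSubgroup.zero_mem _
    · obtain ⟨k, rfl⟩ := Int.eq_ofNat_of_zero_le hn
      exact (D.sr_wt_nat k _).2 (D.X.sig_hom ((D.sr_wt_nat k _).1 hm))
  taup := by
    intro n m hm
    obtain ⟨f, rfl⟩ := (toSr D.ph).surjective m
    rcases lt_or_ge n 0 with hn | hn
    · rw [D.sr_wt_neg hn hm, map_zero, smul_zero, smul_zero]
    · obtain ⟨k, rfl⟩ := Int.eq_ofNat_of_zero_le hn
      have hf := (D.sr_wt_nat k _).1 hm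
      rw [sr_tau_iter, sr_iot]
      congr 1
      have h3 : algebraMap D.F D.S (D.b ^ (k : ℤ)) = C (D.X.bL ^ k) := by
        rw [zpow_natCast]
        show C (algebraMap D.F D.L (D.b ^ k)) = C (D.X.bL ^ k)
        rw [map_pow (algebraMap D.F D.L)]
        rfl
      rw [h3]
      exact D.X.sig_iter hf

theorem isG_sr : D.IsG (Sr D.ph) := by
  refine ⟨?_, D.wts_sr⟩
  show @Module.Finite D.S (Sr D.ph) _ _ (modS D.ph (Sr D.ph))
  let _ := modS D.ph (Sr D.ph)
  refine ⟨⟨{toSr D.ph 1}, ?_⟩⟩
  rw [eq_top_iff]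
  rintro m -
  obtain ⟨f, rfl⟩ := (toSr D.ph).surjective m
  rw [Finset.coe_singleton, Submodule.mem_span_singleton]
  refine ⟨f, ?_⟩
  show iot D.ph f • toSr D.ph 1 = toSr D.ph f
  rw [sr_iot, mul_one]

end Dat

end MSA
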