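import Mathlib
import Pool.Agent.MSA.Kos

/-!
# Functoriality of the Koszul complex in the coefficients
-/

set_option autoImplicit false
set_option linter.unusedSectionVars false

noncomputable section

namespace MSA

universe u v w

variable {F : Type u} [Field F] {S : Type u} [CommRing S] [Algebra F S] {Γ : Type u}
variable {φ : Γ → S →+* S} (K : KS F φ)
variable {Z Z' Z'' : Type u} [AddCommGroup Z] [Module (Rg φ) Z] [AddCommGroup Z']
variable [Module (Rg φ) Z'] [AddCommGroup Z''] [Module (Rg φ) Z'']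

/-- pointwise map, additive version -/
def KS.tma (q : Z →ₗ[Rg φ] Z') : K.Tot Z →+ K.Tot Z' where
  toFun x := fun A => q (x A)
  map_zero' := by funext A; exact map_zero q
  map_add' x y := by funext A; exact map_add q _ _

theorem KS.tma_apply (q : Z →ₗ[Rg φ] Z') (x : K.Tot Z) (A : Finset K.J) :
    K.tma q x A = q (x A) := rfl

theorem KS.tma_op (q : Z →ₗ[Rg φ] Z') (f : EA F K.J →ₗ[F] EA F K.J) (x : K.Tot Z) :
    K.tma q (K.op f x) = K.op f (K.tma q x) := by
  funext B
  rw [K.tma_apply, K.op_apply, K.op_apply, map_sum]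
  refine Finset.sum_congr rfl fun A _ => ?_
  rw [map_smul, K.tma_apply]

/-- pointwise map -/
def KS.tmap (q : Z →ₗ[Rg φ] Z') : K.Tot Z →ₗ[Rg φ] K.Tot Z' :=
  mkLin (K.tma q)
    (fun s x => by
      funext A
      rw [K.tma_apply, K.iot_smul, K.iot_smul, map_smul, K.tma_apply])
    (fun g x => by
      rw [K.gam_smul', K.gam_smul', K.tma_op]
      congr 1
      funext A
      rw [K.tma_apply, map_smul, K.tma_apply])

theorem KS.tmap_apply (q : Z →ₗ[Rg φ] Z') (x : K.Tot Z) (A : Finset K.J) :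
    K.tmap q x A = q (x A) := rfl

theorem KS.tmap_d [FixF F φ] (q : Z →ₗ[Rg φ] Z') (x : K.Tot Z) :
    K.d (K.tmap q x) = K.tmap q (K.d x) := by
  show K.da (K.tma q x) = K.tmap q (K.da x)
  rw [K.da_apply, K.da_apply, map_sum]
  refine Finset.sum_congr rfl fun j _ => ?_
  rw [map_smul, ← K.tma_op]
  rfl

theorem KS.tmap_mem (q : Z →ₗ[Rg φ] Z') (i : ZMod 2) (x : K.Tot Z) (hx : x ∈ K.part Z i) :
    K.tmap q x ∈ K.part Z' i := fun A hA => by
  rw [K.tmap_apply, hx A hA, map_zero]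

/-- the induced map on even or odd parts -/
def KS.pmap (q : Z →ₗ[Rg φ] Z') (i : ZMod 2) : K.part Z i →ₗ[Rg φ] K.part Z' i :=
  (K.tmap q).restrict (fun x hx => K.tmap_mem q i x hx)

theorem KS.pmap_apply (q : Z →ₗ[Rg φ] Z') (i : ZMod 2) (x : K.part Z i) (A : Finset K.J) :
    (K.pmap q i x).1 A = q (x.1 A) := rfl

/-- functoriality -/
def KS.map [FixF F φ] (q : Z →ₗ[Rg φ] Z') : Ch.Hom (K.ch Z) (K.ch Z') where
  f0 := K.pmap q 0
  f1 := K.pmap q 1
  c0 := fun x => Subtype.ext (K.tmap_d q x.1)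
  c1 := fun x => Subtype.ext (K.tmap_d q x.1)

theorem KS.pmap_inj (i : Z →ₗ[Rg φ] Z') (hi : Function.Injective i) (k : ZMod 2) :
    Function.Injective (K.pmap i k) := by
  intro x y h
  apply Subtype.ext
  funext A
  apply hi
  rw [← K.pmap_apply i k x A, ← K.pmap_apply i k y A, h]

theorem KS.pmap_surj (q : Z →ₗ[Rg φ] Z') (hq : Function.Surjective q) (k : ZMod 2) :
    Function.Surjective (K.pmap q k) := by
  classical
  intro y
  choose g hg using hq
  refine ⟨⟨fun A => if (A.card : ZMod 2) ≠ k then 0 else g (y.1 A), fun A hA => if_pos hA⟩, ?_⟩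
  apply Subtype.ext
  funext A
  rw [K.pmap_apply]
  show q (if (A.card : ZMod 2) ≠ k then 0 else g (y.1 A)) = y.1 A
  by_cases hA : (A.card : ZMod 2) ≠ k
  · rw [if_pos hA, map_zero, y.2 A hA]
  · rw [if_neg hA, hg]

theorem KS.pmap_exact (i : Z →ₗ[Rg φ] Z') (q : Z' →ₗ[Rg φ] Z'')
    (h : ∀ m, q m = 0 ↔ ∃ x, i x = m) (k : ZMod 2) (y : K.part Z' k) :
    K.pmap q k y = 0 ↔ ∃ x, K.pmap i k x = y := by
  classical
  constructor
  · intro hy
    have h1 : ∀ A, ∃ x, i x = y.1 A := fun A => (h _).mp (by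
      rw [← K.pmap_apply q k y A, hy]
      rfl)
    choose g hg using h1
    refine ⟨⟨fun A => if (A.card : ZMod 2) ≠ k then 0 else g A, fun A hA => if_pos hA⟩, ?_⟩
    apply Subtype.ext
    funext A
    rw [K.pmap_apply]
    show i (if (A.card : ZMod 2) ≠ k then 0 else g A) = y.1 A
    by_cases hA : (A.card : ZMod 2) ≠ k
    · rw [if_pos hA, map_zero, y.2 A hA]
    · rw [if_neg hA, hg]
  · rintro ⟨x, rfl⟩
    apply Subtype.ext
    funext A
    rw [K.pmap_apply, K.pmap_apply]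
    exact (h _).mpr ⟨_, rfl⟩

/-- short exact sequences of coefficients give short exact sequences of complexes -/
def KS.ses [FixF F φ] (i : Z →ₗ[Rg φ] Z') (q : Z' →ₗ[Rg φ] Z'') (hi : Function.Injective i)
    (hq : Function.Surjective q) (h : ∀ m, q m = 0 ↔ ∃ x, i x = m) :
    Ch.Ses (K.ch Z) (K.ch Z') (K.ch Z'') where
  i := K.map i
  q := K.map q
  inj0 := K.pmap_inj i hi 0
  inj1 := K.pmap_inj i hi 1
  sur0 := K.pmap_surj q hq 0
  sur1 := K.pmap_surj q hq 1
  ex0 := K.pmap_exact i q h 0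
  ex1 := K.pmap_exact i q h 1

end MSA
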