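import Mathlib
import Pool.Agent.MSA.Kex
import Pool.Agent.MSA.IsKA

/-!
# Homology of the Koszul complex: the elements `y_j` act as zero, finiteness

PROOFS. `ctr_wdg` with `v = e_j`: on `K.Tot Z` put `W = K.op (wdg (Pi.single j 1))`; then
`K.d (W x) + W (K.d x) = iot (y j) • x` (`op_comp`, `op_add`, `op_iot`), and `W` maps `part i` to `part (i+1)`
(`parE_wdg`, `parE_opE`). For a cycle `x`: `iot (y j) • x = K.d (W x)` is a boundary.
`hom_ann`: clear (pointwise). `hom_fin`: `K.Tot Z` is finitely generated over `S` (finitely many copies of `Z`),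
submodule and quotient (`finS_sub`, `finS_quo`).
-/

set_option autoImplicit false
set_option linter.unusedSectionVars false

noncomputable section

namespace MSA

universe u v w

variable {F : Type u} [Field F] {S : Type u} [CommRing S] [Algebra F S] {Γ : Type u}
variable {φ : Γ → S →+* S} [FixF F φ] (K : KS F φ)
variable {Z : Type u} [AddCommGroup Z] [Module (Rg φ) Z]

theorem d_wdg (j : K.J) (x : K.Tot Z) :
    K.d (K.op (wdg (Pi.single j 1)) x) + K.op (wdg (Pi.single j 1)) (K.d x) =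
      iot φ (K.y j) • x := by
  show K.da (K.op (wdg (Pi.single j 1)) x) + K.op (wdg (Pi.single j 1)) (K.da x) = _
  rw [K.da_apply, K.da_apply, map_sum, ← Finset.sum_add_distrib, Finset.sum_eq_single j]
  · rw [K.op_iot, K.op_comp, K.op_comp, ← smul_add, ← K.op_add, ctr_wdg, K.op_smul, K.op_id,
      Pi.single_eq_same, map_one, map_one, one_smul]
  · intro i _ hi
    rw [K.op_iot, K.op_comp, K.op_comp, ← smul_add, ← K.op_add, ctr_wdg, K.op_smul, K.op_id,
      Pi.single_eq_of_ne hi, map_zero, map_zero, zero_smul, smul_zero]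
  · intro h
    exact absurd (Finset.mem_univ j) h

theorem wdg_mem (v : K.J → F) (i : ZMod 2) (x : K.Tot Z) (hx : x ∈ K.part Z i) :
    K.op (wdg v) x ∈ K.part Z (i + 1) := by
  letI := modF F φ Z
  intro A hA
  exact parE_opE (parE_wdg v) x i hx A hA

theorem hom_y0 (j : K.J) (x : (K.ch Z).H0) : iot φ (K.y j) • x = 0 := by
  obtain ⟨z, rfl⟩ := Submodule.mkQ_surjective _ x
  rw [← map_smul]
  refine (Submodule.Quotient.mk_eq_zero _).2 ?_
  have hz : K.d z.1.1 = 0 := congrArg Subtype.val z.2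
  have hw : K.op (wdg (Pi.single j 1)) z.1.1 ∈ K.part Z 1 := by
    have h := wdg_mem K (Pi.single j 1) 0 z.1.1 z.1.2
    rwa [zero_add] at h
  refine ⟨⟨K.op (wdg (Pi.single j 1)) z.1.1, hw⟩, Subtype.ext ?_⟩
  have h := d_wdg K j z.1.1
  rw [hz, map_zero, add_zero] at h
  exact h

theorem hom_y1 (j : K.J) (x : (K.ch Z).H1) : iot φ (K.y j) • x = 0 := by
  obtain ⟨z, rfl⟩ := Submodule.mkQ_surjective _ x
  rw [← map_smul]
  refine (Submodule.Quotient.mk_eq_zero _).2 ?_
  have hz : K.d z.1.1 = 0 := congrArg Subtype.val z.2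
  have hw : K.op (wdg (Pi.single j 1)) z.1.1 ∈ K.part Z 0 := by
    have h := wdg_mem K (Pi.single j 1) 1 z.1.1 z.1.2
    rwa [show (1 : ZMod 2) + 1 = 0 from rfl] at h
  refine ⟨⟨K.op (wdg (Pi.single j 1)) z.1.1, hw⟩, Subtype.ext ?_⟩
  have h := d_wdg K j z.1.1
  rw [hz, map_zero, add_zero] at h
  exact h

theorem hom_ann0 (s : S) (h : ∀ z : Z, iot φ s • z = 0) (x : (K.ch Z).H0) :
    iot φ s • x = 0 := by
  obtain ⟨z, rfl⟩ := Submodule.mkQ_surjective _ x
  rw [← map_smul]
  have hz : iot φ s • z = 0 := by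
    refine Subtype.ext (Subtype.ext ?_)
    funext A
    show (iot φ s • z.1.1) A = 0
    rw [K.iot_smul, h]
  rw [hz, map_zero]

theorem hom_ann1 (s : S) (h : ∀ z : Z, iot φ s • z = 0) (x : (K.ch Z).H1) :
    iot φ s • x = 0 := by
  obtain ⟨z, rfl⟩ := Submodule.mkQ_surjective _ x
  rw [← map_smul]
  have hz : iot φ s • z = 0 := by
    refine Subtype.ext (Subtype.ext ?_)
    funext A
    show (iot φ s • z.1.1) A = 0
    rw [K.iot_smul, h]
  rw [hz, map_zero]

theorem tot_fin (h : FinS φ Z) : FinS φ (K.Tot Z) := by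
  let _ := modS φ Z
  have h1 : Module.Finite S Z := h
  have h2 : Module.Finite S (Finset K.J → Z) := Module.Finite.pi
  let _ := modS φ (K.Tot Z)
  let f : (Finset K.J → Z) →ₗ[S] K.Tot Z :=
    { toFun := fun x => x
      map_add' := fun _ _ => rfl
      map_smul' := fun s x => by
        funext A
        exact (K.iot_smul s x A).symm }
  exact Module.Finite.of_surjective f (fun x => ⟨x, rfl⟩)

theorem hom_fin0 [IsNoetherianRing S] (h : FinS φ Z) : FinS φ (K.ch Z).H0 :=
  finS_quo φ (finS_sub φ (finS_sub φ (tot_fin K h) (K.part Z 0)) (LinearMap.ker (K.ch Z).d0)) _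

theorem hom_fin1 [IsNoetherianRing S] (h : FinS φ Z) : FinS φ (K.ch Z).H1 :=
  finS_quo φ (finS_sub φ (finS_sub φ (tot_fin K h) (K.part Z 1)) (LinearMap.ker (K.ch Z).d1)) _

end MSA
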