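import Mathlib
import Pool.Agent.MSA.Wt

/-!
# Weights and cyclic symmetry on the Koszul complex

PROOFS. `mpE_diag`: `bE A` is the product of the `ι e_j`, `j ∈ A` (in increasing order: `ιMulti_family`), `mpE f`
is an algebra homomorphism, so `mpE f (bE A) = ∏ c_j • bE A` (`ExteriorAlgebra.basis_apply`,
`exteriorPower.map`/`AlternatingMap.map_smul_univ`).
`mpE_dg`: the `F`-span of the `bE B` with `∑_B dg = n` is denoted `V_n`; the product of elements of `V_n` and `V_m`
is in `V_(n+m)` (`basis_mul_of_disjoint`, `basis_mul_of_not_disjoint`), and `mpE f (ι e_j) = ι (f e_j)` lies in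
`V_(dg j)`; so `mpE f (bE A) ∈ V_(∑_A dg)`.
`wts_tot`: for `z` of weight `n` the function `Pi.single A z` has weight `n + ∑_{j ∈ A} dg j` (`K.gam_smul`,
`mpE_diag`), these span (every `x` is the sum of the `Pi.single A (x A)`, decompose `x A`). `τ` preserves weights:
`mpE_dg` and `Wts.tau`. `τ^p`: `gam τ ^ p • x = op (mpE (rho τ) ^ p) (pointwise gam τ ^ p)` by induction
(`gam_smul'`, `op_gam_pt`, `op_comp`, `mpE_comp`), `mpE (rho τ ^ p)` is diagonal by `htp`; for `x` of weight `n`
each `x A` has weight `n - ∑_A dg`. (To see that the components `x A` of a weight vector `x` are weight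
vectors: `K.gam_smul` and `mpE_diag`.)
`isK_tot`: `cyc^k` acts on `x` as `op (mpE (rho cyc ^ k))` composed with the pointwise `cyc^k = 1`; the
commutation is checked in the same way (`mpE_comp`, `op_comp`, `op_gam_pt`).
`kTw`: `dg = 1`; `rho τ` is `e_(i,j) ↦ cf (i+1) e_(i+1,j)`, its `p`-th power is `b`
(`∏_{i : Fin p} cf i = b`; iterate). `kTc`: `ζ^{jk} = 1`; the two operators commute because `rho cyc` only
depends on `j`.
-/

set_option autoImplicit false
set_option linter.unusedSectionVars false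

noncomputable section

namespace MSA

universe u v w

section

variable {F : Type u} [Field F] {J : Type} [Fintype J] [LinearOrder J]

private theorem bE_eq (A : Finset J) : bE F J A = ExteriorAlgebra.ιMulti F A.card
    (fun i => (Pi.single (A.orderEmbOfFin rfl i) 1 : J → F)) := by
  have h := ExteriorAlgebra.basis_apply (Pi.basisFun F J) A
  refine h.trans ?_
  show ExteriorAlgebra.ιMulti F A.card _ = _
  congr 1
  funext i
  simp [Set.powersetCard.ofFinEmbEquiv_symm_apply]

private theorem prod_ord {M : Type*} [CommMonoid M] (A : Finset J) (c : J → M) :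
    ∏ i, c (A.orderEmbOfFin rfl i) = ∏ j ∈ A, c j := by
  conv_rhs => rw [← Finset.map_orderEmbOfFin_univ A rfl]
  rw [Finset.prod_map]
  rfl

private theorem sum_ord {M : Type*} [AddCommMonoid M] (A : Finset J) (c : J → M) :
    ∑ i, c (A.orderEmbOfFin rfl i) = ∑ j ∈ A, c j := by
  conv_rhs => rw [← Finset.map_orderEmbOfFin_univ A rfl]
  rw [Finset.sum_map]
  rfl

theorem mpE_diag (f : (J → F) →ₗ[F] (J → F)) (c : J → F)
    (hf : ∀ j, f (Pi.single j 1) = c j • (Pi.single j 1 : J → F)) (A : Finset J) :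
    mpE f (bE F J A) = (∏ j ∈ A, c j) • bE F J A := by
  rw [bE_eq A]
  show ExteriorAlgebra.map f (ExteriorAlgebra.ιMulti F A.card _) = _
  rw [ExteriorAlgebra.map_apply_ιMulti]
  have h1 : (f ∘ fun i => (Pi.single (A.orderEmbOfFin rfl i) 1 : J → F)) =
      fun i => c (A.orderEmbOfFin rfl i) • (Pi.single (A.orderEmbOfFin rfl i) 1 : J → F) := by
    funext i
    exact hf _
  rw [h1, ← prod_ord A c]
  exact (ExteriorAlgebra.ιMulti F A.card).toMultilinearMap.map_smul_univ _ _

private theorem bE_empty : bE F J ∅ = 1 := by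
  rw [bE_eq]
  exact ExteriorAlgebra.ιMulti_zero_apply _

private theorem bE_sing (j : J) : bE F J {j} = ExteriorAlgebra.ι F (Pi.single j 1 : J → F) := by
  rw [bE_eq]
  have h : ∀ (n : ℕ) (hn : n = 1) (v : Fin n → (J → F)),
      ExteriorAlgebra.ιMulti F n v = ExteriorAlgebra.ι F (v ⟨0, by omega⟩) := by
    rintro n rfl v
    rw [ExteriorAlgebra.ιMulti_succ_apply, ExteriorAlgebra.ιMulti_zero_apply, mul_one]
    rfl
  rw [h _ (Finset.card_singleton j)]
  congr 2
  exact Finset.orderEmbOfFin_singleton j _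

/-- products with a basis vector -/
private theorem bE_mul (j : J) (C B : Finset J)
    (h : (bE F J).repr (ExteriorAlgebra.ι F (Pi.single j 1 : J → F) * bE F J C) B ≠ 0) :
    j ∉ C ∧ B = insert j C := by
  rw [← bE_sing] at h
  by_cases hj : j ∈ C
  · exfalso
    apply h
    have h1 := ExteriorAlgebra.basis_mul_of_not_disjoint (Pi.basisFun F J)
      (⟨{j}, rfl⟩ : Set.powersetCard J (Finset.card {j})) (⟨C, rfl⟩ : Set.powersetCard J C.card)
      (by simpa using hj)
    have h2 : bE F J {j} * bE F J C = 0 := h1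
    rw [h2, map_zero, Finsupp.zero_apply]
  · refine ⟨hj, ?_⟩
    have hd : Disjoint ({j} : Finset J) C := by simpa using hj
    have h1 := ExteriorAlgebra.basis_mul_of_disjoint (Pi.basisFun F J)
      (⟨{j}, rfl⟩ : Set.powersetCard J (Finset.card {j})) (⟨C, rfl⟩ : Set.powersetCard J C.card) hd
    have h2 : bE F J {j} * bE F J C =
      (Set.powersetCard.permOfDisjoint (s := (⟨{j}, rfl⟩ : Set.powersetCard J (Finset.card {j})))
        (t := (⟨C, rfl⟩ : Set.powersetCard J C.card)) hd).sign • bE F J (({j} : Finset J).disjUnion C hd) := h1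
    rw [h2] at h
    by_contra hB
    apply h
    have h3 : ({j} : Finset J).disjUnion C hd = insert j C := by
      ext x
      simp
    rw [h3]
    have h4 : (bE F J).repr (bE F J (insert j C)) B = 0 := by
      rw [Module.Basis.repr_self]
      exact Finsupp.single_eq_of_ne hB
    rcases Int.units_eq_one_or (Set.powersetCard.permOfDisjoint
        (s := (⟨{j}, rfl⟩ : Set.powersetCard J (Finset.card {j})))
        (t := (⟨C, rfl⟩ : Set.powersetCard J C.card)) hd).sign with h5 | h5
    · rw [h5, one_smul, h4]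
    · rw [h5, Units.neg_smul, one_smul, map_neg, Finsupp.neg_apply, h4, neg_zero]

private theorem dg_aux (dg : J → ℤ) (n : ℕ) : ∀ (v : Fin n → (J → F)) (a : Fin n → ℤ),
    (∀ i j, v i j ≠ 0 → dg j = a i) → ∀ B : Finset J,
      (bE F J).repr (ExteriorAlgebra.ιMulti F n v) B ≠ 0 → ∑ j ∈ B, dg j = ∑ i, a i := by
  induction n with
  | zero =>
    intro v a _ B hB
    rw [ExteriorAlgebra.ιMulti_zero_apply, ← bE_empty, Module.Basis.repr_self] at hB
    have : B = ∅ := by
      by_contra h
      exact hB (Finsupp.single_eq_of_ne h)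
    subst this
    simp
  | succ n ih =>
    intro v a hv B hB
    rw [ExteriorAlgebra.ιMulti_succ_apply] at hB
    set x := ExteriorAlgebra.ιMulti F n (Matrix.vecTail v) with hx
    have e1 : ExteriorAlgebra.ι F (v 0) * x = ∑ j, ∑ C, (v 0 j * (bE F J).repr x C) •
        (ExteriorAlgebra.ι F (Pi.single j 1 : J → F) * bE F J C) := by
      conv_lhs => rw [pi_eq_sum_univ' (v 0), ← (bE F J).sum_repr x]
      rw [map_sum, Finset.sum_mul]
      refine Finset.sum_congr rfl fun j _ => ?_
      rw [map_smul, Finset.mul_sum]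
      refine Finset.sum_congr rfl fun C _ => ?_
      rw [smul_mul_smul_comm]
    rw [e1, map_sum, Finsupp.finsetSum_apply] at hB
    obtain ⟨j, _, hj⟩ := Finset.exists_ne_zero_of_sum_ne_zero hB
    rw [map_sum, Finsupp.finsetSum_apply] at hj
    obtain ⟨C, _, hC⟩ := Finset.exists_ne_zero_of_sum_ne_zero hj
    rw [map_smul, Finsupp.smul_apply, smul_eq_mul] at hC
    have h1 := left_ne_zero_of_mul (left_ne_zero_of_mul hC)
    have h2 := right_ne_zero_of_mul (left_ne_zero_of_mul hC)
    obtain ⟨hjC, rfl⟩ := bE_mul j C B (right_ne_zero_of_mul hC)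
    rw [Finset.sum_insert hjC, Fin.sum_univ_succ, hv 0 j h1]
    congr 1
    exact ih (Matrix.vecTail v) (fun i => a i.succ) (fun i j h => hv i.succ j h) C h2

theorem mpE_dg (f : (J → F) →ₗ[F] (J → F)) (dg : J → ℤ)
    (hf : ∀ j i, f (Pi.single j 1) i ≠ 0 → dg i = dg j) (A B : Finset J)
    (h : (bE F J).repr (mpE f (bE F J A)) B ≠ 0) : ∑ j ∈ B, dg j = ∑ j ∈ A, dg j := by
  rw [bE_eq A] at h
  have e : mpE f (ExteriorAlgebra.ιMulti F A.card
      (fun i => (Pi.single (A.orderEmbOfFin rfl i) 1 : J → F))) =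
      ExteriorAlgebra.ιMulti F A.card
        (fun i => f (Pi.single (A.orderEmbOfFin rfl i) 1 : J → F)) :=
    ExteriorAlgebra.map_apply_ιMulti f _
  rw [e] at h
  rw [dg_aux dg A.card _ (fun i => dg (A.orderEmbOfFin rfl i)) (fun i j hij => hf _ j hij) B h,
    sum_ord A dg]

end

section

variable {F : Type u} [Field F] {S : Type u} [CommRing S] [Algebra F S]
variable {Γ : Type u} {φ : Γ → S →+* S} (K : KS F φ)
variable {Z : Type u} [AddCommGroup Z] [Module (Rg φ) Z]

private theorem op_diag (f : (K.J → F) →ₗ[F] (K.J → F)) (c : K.J → F)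
    (hf : ∀ j, f (Pi.single j 1) = c j • (Pi.single j 1 : K.J → F)) (x : K.Tot Z)
    (B : Finset K.J) :
    K.op (mpE f) x B = iot φ (algebraMap F S (∏ j ∈ B, c j)) • x B := by
  rw [K.op_apply, Finset.sum_eq_single B]
  · rw [mpE_diag f c hf, map_smul, Module.Basis.repr_self, Finsupp.smul_apply,
      Finsupp.single_eq_same, smul_eq_mul, mul_one]
  · intro A _ hA
    rw [mpE_diag f c hf, map_smul, Module.Basis.repr_self, Finsupp.smul_apply,
      Finsupp.single_eq_of_ne hA.symm, smul_zero, map_zero, map_zero, zero_smul]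
  · intro h
    exact absurd (Finset.mem_univ B) h

private theorem mpE_one : mpE (1 : (K.J → F) →ₗ[F] (K.J → F)) = LinearMap.id := mpE_id

private theorem mpE_mul (f g : (K.J → F) →ₗ[F] (K.J → F)) :
    mpE (f * g) = mpE f ∘ₗ mpE g := mpE_comp f g

/-- pointwise action -/
private def ptw (r : Rg φ) (x : K.Tot Z) : K.Tot Z := fun A => r • x A

private theorem ptw_apply (r : Rg φ) (x : K.Tot Z) (A : Finset K.J) :
    ptw K r x A = r • x A := rfl

private theorem ptw_one (x : K.Tot Z) : ptw K 1 x = x := by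
  funext A
  exact one_smul _ _

private theorem ptw_mul (r s : Rg φ) (x : K.Tot Z) : ptw K (r * s) x = ptw K r (ptw K s x) := by
  funext A
  exact mul_smul _ _ _

private theorem gam_ptw (g : Γ) (x : K.Tot Z) :
    gam φ g • x = K.op (mpE (K.rho g)) (ptw K (gam φ g) x) := K.gam_smul' g x

private theorem op_ptw [FixF F φ] (f : EA F K.J →ₗ[F] EA F K.J) (g : Γ) (x : K.Tot Z) :
    K.op f (ptw K (gam φ g) x) = ptw K (gam φ g) (K.op f x) := K.op_gam_pt f g x

private theorem gam_op [FixF F φ] (g : Γ) (f : EA F K.J →ₗ[F] EA F K.J) (x : K.Tot Z) :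
    gam φ g • K.op f x = K.op (mpE (K.rho g) ∘ₗ f) (ptw K (gam φ g) x) := by
  rw [gam_ptw, ← op_ptw, K.op_comp]

private theorem gam_pow [FixF F φ] (g : Γ) (m : ℕ) (x : K.Tot Z) :
    (gam φ g) ^ m • x = K.op (mpE (K.rho g ^ m)) (ptw K ((gam φ g) ^ m) x) := by
  induction m with
  | zero =>
    rw [pow_zero, pow_zero, mpE_one, K.op_id, one_smul, ptw_one]
  | succ m ih =>
    rw [pow_succ', mul_smul, ih, gam_op, pow_succ', mpE_mul, ptw_mul]

private theorem gam_gam [FixF F φ] (g g' : Γ) (x : K.Tot Z) :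
    gam φ g • gam φ g' • x = K.op (mpE (K.rho g * K.rho g'))
      (ptw K (gam φ g * gam φ g') x) := by
  rw [gam_ptw K g' x, gam_op, mpE_mul, ptw_mul]

end

section

variable {F : Type u} [Field F] [Infinite F] {S : Type u} [CommRing S] [Algebra F S]
variable {Γ : Type u} [HasTh F Γ] {φ : Γ → S →+* S} [FixF F φ] (K : KS F φ)
variable {Z : Type u} [AddCommGroup Z] [Module (Rg φ) Z] {p : ℕ} {b : F}

private theorem iot_alg_mul (a c : F) (z : Z) :
    iot φ (algebraMap F S a) • iot φ (algebraMap F S c) • z = iot φ (algebraMap F S (a * c)) • z := by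
  rw [← mul_smul, ← map_mul, ← map_mul]

private theorem prod_zpow (c : Fˣ) (dg : K.J → ℤ) (A : Finset K.J) :
    ∏ j ∈ A, ((c ^ dg j : Fˣ) : F) = ((c ^ (∑ j ∈ A, dg j) : Fˣ) : F) := by
  classical
  induction A using Finset.induction_on with
  | empty => simp
  | insert a s ha ih => rw [Finset.prod_insert ha, ih, Finset.sum_insert ha, zpow_add, Units.val_mul]

private theorem prod_zpow' (hb : b ≠ 0) (dg : K.J → ℤ) (A : Finset K.J) :
    ∏ j ∈ A, b ^ dg j = b ^ (∑ j ∈ A, dg j) := by
  classical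
  induction A using Finset.induction_on with
  | empty => simp
  | insert a s ha ih => rw [Finset.prod_insert ha, ih, Finset.sum_insert ha, zpow_add₀ hb]

private theorem iot_cancel (u : Fˣ) {z z' : Z}
    (h : iot φ (algebraMap F S (u : F)) • z = iot φ (algebraMap F S (u : F)) • z') : z = z' := by
  have key : ∀ z : Z, iot φ (algebraMap F S ((u⁻¹ : Fˣ) : F)) •
      iot φ (algebraMap F S (u : F)) • z = z := by
    intro z
    rw [iot_alg_mul, ← Units.val_mul, inv_mul_cancel, Units.val_one, map_one, map_one, one_smul]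
  rw [← key z, h, key z']

/-- weight of a component -/
theorem wt_comp (w : KW K p b) (n : ℤ) (x : K.Tot Z) :
    x ∈ wt F φ (K.Tot Z) n ↔ ∀ A : Finset K.J, x A ∈ wt F φ Z (n - ∑ j ∈ A, w.dg j) := by
  have h1 : ∀ (c : Fˣ) (A : Finset K.J), (gam φ (HasTh.th c) • x) A =
      iot φ (algebraMap F S ((c ^ (∑ j ∈ A, w.dg j) : Fˣ) : F)) • gam φ (HasTh.th c) • x A := by
    intro c A
    rw [gam_ptw, op_diag K (K.rho (HasTh.th c)) (fun j => ((c ^ w.dg j : Fˣ) : F)) (w.hth c),
      prod_zpow, ptw_apply]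
  have h2 : ∀ (c : Fˣ) (A : Finset K.J),
      (iot φ (algebraMap F S ((c ^ n : Fˣ) : F)) • x) A =
        iot φ (algebraMap F S ((c ^ (∑ j ∈ A, w.dg j) : Fˣ) : F)) •
          iot φ (algebraMap F S ((c ^ (n - ∑ j ∈ A, w.dg j) : Fˣ) : F)) • x A := by
    intro c A
    rw [K.iot_smul, iot_alg_mul, ← Units.val_mul, ← zpow_add]
    congr 6
    ring
  constructor
  · intro hx A c
    have h3 := congrFun (hx c) A
    rw [h1, h2] at h3
    exact iot_cancel _ h3
  · intro hx c
    funext A
    rw [h1, h2, hx A c]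

theorem wts_tot (w : KW K p b) (hb : b ≠ 0) (hZ : Wts F φ Z p b) :
    Wts F φ (K.Tot Z) p b where
  span := by
    classical
    rw [eq_top_iff]
    intro x _
    have h1 : x = ∑ A : Finset K.J, (Pi.single A (x A) : Finset K.J → Z) :=
      (Finset.univ_sum_single (x : Finset K.J → Z)).symm
    have h2 : ∀ (A : Finset K.J) (z : Z),
        (Pi.single A z : K.Tot Z) ∈ ⨆ n, wt F φ (K.Tot Z) n := by
      intro A z
      obtain ⟨f, hf, hfz⟩ := wt_decomp hZ z
      have h3 : (Pi.single A z : Finset K.J → Z) =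
          ∑ n ∈ f.support, (Pi.single A (f n) : Finset K.J → Z) := by
        rw [← hfz, Finsupp.sum]
        exact map_sum (AddMonoidHom.single (fun _ : Finset K.J => Z) A) _ _
      have h4 : (∑ n ∈ f.support, (Pi.single A (f n) : K.Tot Z) : K.Tot Z) ∈
          ⨆ n, wt F φ (K.Tot Z) n := by
        refine AddSubgroup.sum_mem _ fun n _ => ?_
        refine AddSubgroup.mem_iSup_of_mem (n + ∑ j ∈ A, w.dg j) ?_
        refine (wt_comp K w _ _).2 ?_
        intro B
        by_cases hB : B = A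
        · subst hB
          rw [add_sub_cancel_right]
          have : (Pi.single B (f n) : K.Tot Z) B = f n := Pi.single_eq_same _ _
          rw [this]
          exact hf n
        · have : (Pi.single A (f n) : K.Tot Z) B = 0 := Pi.single_eq_of_ne hB _
          rw [this]
          exact AddSubgroup.zero_mem _
      exact h3 ▸ h4
    have h5 : (∑ A : Finset K.J, (Pi.single A (x A) : K.Tot Z) : K.Tot Z) ∈
        ⨆ n, wt F φ (K.Tot Z) n := AddSubgroup.sum_mem _ fun A _ => h2 A (x A)
    exact h1 ▸ h5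
  tau := by
    intro n x hx
    rw [wt_comp K w] at hx ⊢
    intro B
    rw [K.gam_smul]
    refine AddSubgroup.sum_mem _ fun A _ => ?_
    by_cases h : (bE F K.J).repr (mpE (K.rho (HasTh.tau F)) (bE F K.J A)) B = 0
    · rw [h, map_zero, map_zero, zero_smul]
      exact AddSubgroup.zero_mem _
    · rw [mpE_dg _ w.dg w.htau A B h]
      exact wt_smul (hZ.tau _ _ (hx A)) _
  taup := by
    intro n x hx
    rw [wt_comp K w] at hx
    funext B
    rw [gam_pow, op_diag K _ (fun j => b ^ w.dg j) w.htp, prod_zpow' K hb, ptw_apply,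
      hZ.taup _ _ (hx B), iot_alg_mul, K.iot_smul, ← zpow_add₀ hb, add_sub_cancel]

end

namespace Adm

variable {D : Dat.{u}} (A : Adm D)

theorem isK_tot (K : KS D.F A.ph) (w : KW K D.p D.b) (c : KC A K) {Z : Type u} [AddCommGroup Z]
    [Module A.R Z] (hZ : A.IsK Z) : A.IsK (K.Tot Z) where
  wts := wts_tot K w D.X.b_ne hZ.wts
  cyk := by
    intro x
    rw [gam_pow, c.cyk, mpE_one, K.op_id]
    funext B
    exact hZ.cyk (x B)
  com := by
    intro g x
    rw [gam_gam, gam_gam, c.com g]
    congr 1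
    funext B
    rw [ptw_apply, ptw_apply, mul_smul, mul_smul]
    exact hZ.com g (x B)

theorem kTw_th (c : D.Fˣ) (j : A.kT.J) : A.kT.rho (HasTh.th c) (Pi.single j 1) =
    ((c ^ (1 : ℤ) : D.Fˣ) : D.F) • (Pi.single j 1 : A.kT.J → D.F) := by
  rw [zpow_one]
  rfl

private theorem ofNat_succ (m : ℕ) :
    Fin.ofNat D.p (m + 1) = Fin.ofNat D.p m + 1 := by
  apply Fin.ext
  rw [Dat.val_succ]
  show (m + 1) % D.p = (m % D.p + 1) % D.p
  simp

private theorem ofNat_p : Fin.ofNat D.p D.p = 0 := by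
  apply Fin.ext
  show D.p % D.p = 0
  exact Nat.mod_self _

private theorem tau_pow (m : ℕ) (v : A.JT → D.F) (x : A.JT) :
    ((A.rhoT (Gk.bs Gn.tau)) ^ m) v x =
      (∏ i ∈ Finset.range m, D.cf (x.1.1 - Fin.ofNat D.p i)) *
        v ⟨(x.1.1 - Fin.ofNat D.p m, x.1.2), x.2⟩ := by
  induction m generalizing v with
  | zero =>
    have h0 : Fin.ofNat D.p 0 = 0 := by
      apply Fin.ext
      show 0 % D.p = 0
      exact Nat.zero_mod _
    rw [pow_zero, Finset.prod_range_zero, one_mul, h0]
    show v x = v _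
    congr 1
    apply Subtype.ext
    apply Prod.ext
    · exact (sub_zero _).symm
    · rfl
  | succ m ih =>
    rw [pow_succ, Module.End.mul_apply, ih, Finset.prod_range_succ]
    show _ * (D.cf (x.1.1 - Fin.ofNat D.p m) * v ⟨(x.1.1 - Fin.ofNat D.p m - 1, x.1.2), _⟩) = _
    rw [mul_assoc]
    congr 3
    apply Subtype.ext
    apply Prod.ext
    · show x.1.1 - Fin.ofNat D.p m - 1 = x.1.1 - Fin.ofNat D.p (m + 1)
      rw [ofNat_succ, sub_sub]
    · rfl

private theorem prod_cf (x : Fin D.p) :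
    ∏ i ∈ Finset.range D.p, D.cf (x - Fin.ofNat D.p i) = D.b := by
  have h1 : ∏ i ∈ Finset.range D.p, D.cf (x - Fin.ofNat D.p i) =
      ∏ i : Fin D.p, D.cf (x - i) := by
    rw [← Fin.prod_univ_eq_prod_range (fun i : ℕ => D.cf (x - Fin.ofNat D.p i)) D.p]
    refine Finset.prod_congr rfl fun i _ => ?_
    congr 2
    apply Fin.ext
    show i.val % D.p = i.val
    exact Nat.mod_eq_of_lt i.2
  rw [h1]
  have h2 : ∏ i : Fin D.p, D.cf (x - i) = ∏ i : Fin D.p, D.cf i :=
    Equiv.prod_comp (Equiv.subLeft x) D.cf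
  rw [h2]
  unfold Dat.cf
  rw [Finset.prod_ite_eq' Finset.univ (0 : Fin D.p) (fun _ => D.b), if_pos (Finset.mem_univ _)]

theorem kTw_tp (j : A.kT.J) : (A.kT.rho (HasTh.tau D.F) ^ D.p) (Pi.single j 1) =
    (D.b ^ (1 : ℤ)) • (Pi.single j 1 : A.kT.J → D.F) := by
  rw [zpow_one]
  have h : ∀ (v : A.JT → D.F), ((A.rhoT (Gk.bs Gn.tau)) ^ D.p) v = D.b • v := by
    intro v
    funext x
    rw [tau_pow, prod_cf]
    show D.b * v _ = D.b * v x
    congr 2
    apply Subtype.ext
    apply Prod.ext
    · show x.1.1 - Fin.ofNat D.p D.p = x.1.1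
      rw [ofNat_p, sub_zero]
    · rfl
  exact h _

/-- the weights of the diagonal datum -/
def kTw : KW A.kT D.p D.b where
  dg := fun _ => 1
  hth := A.kTw_th
  htau := fun _ _ _ => rfl
  htp := A.kTw_tp

private theorem cyc_pow (m : ℕ) (v : A.JT → D.F) (x : A.JT) :
    ((A.rhoT Gk.cyc) ^ m) v x = A.zp x.1.2 ^ m * v x := by
  induction m generalizing v with
  | zero => simp
  | succ m ih =>
    rw [pow_succ, Module.End.mul_apply, ih]
    show _ * (A.zp x.1.2 * v x) = _
    ring

theorem kTc : KC A A.kT where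
  cyk := by
    have h : ∀ (v : A.JT → D.F), ((A.rhoT Gk.cyc) ^ A.k) v = v := by
      intro v
      funext x
      rw [cyc_pow]
      have h1 : A.zp x.1.2 ^ A.k = 1 := by
        unfold zp
        rw [← pow_mul, mul_comm, pow_mul, A.hz.pow_eq_one, one_pow]
      rw [h1, one_mul]
    exact LinearMap.ext h
  com := by
    intro g
    cases g with
    | tau =>
      refine LinearMap.ext fun v => ?_
      funext x
      show A.zp x.1.2 * (D.cf x.1.1 * v _) = D.cf x.1.1 * (A.zp x.1.2 * v _)
      ring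
    | th c =>
      refine LinearMap.ext fun v => ?_
      funext x
      show A.zp x.1.2 * ((c : D.F) * v x) = (c : D.F) * (A.zp x.1.2 * v x)
      ring

end Adm

end MSA
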