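import Mathlib
import Pool.Agent.MSA.Prd
import Pool.Agent.MSA.DvD

/-!
# Free graded modules, generically exact complexes, additive functions on them (MS, PART RES)

`Fbs D X ι`: a homogeneous `S`-basis of the `D.R`-module `X`, whose `L`-span is stable under `τ`.
`D.IsF X`: `X` has a finite homogeneous basis. `D.IsO X n`: the same, with all weights equal to `n`.
`D.Dom X`: complexes with such terms whose homology vanishes at every point of codimension one.
`PsiT D H`: functions on such complexes, additive on short exact sequences, zero on exact complexes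
whose terms have basis vectors in one weight only.
-/

set_option autoImplicit false
set_option linter.unusedSectionVars false

noncomputable section

namespace MSA

universe u v w

open MvPolynomial

/-- A homogeneous basis over `S` with `τ`-stable `L`-span. -/
structure Fbs (D : Dat.{u}) (X : Type u) [AddCommGroup X] [Module D.R X] (ι : Type) where
  w : ι → X
  n : ι → ℤ
  c : ι → ι →₀ D.L
  hw : ∀ i, w i ∈ wt D.F D.ph X (n i)
  hc : ∀ i j, c i j ≠ 0 → n j = n i
  tau : ∀ i, gam D.ph Gn.tau • w i = (c i).sum (fun j a => iot D.ph (C a) • w j)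
  taup : ∀ i, (gam D.ph Gn.tau) ^ D.p • w i = iot D.ph (algebraMap D.F D.S (D.b ^ n i)) • w i
  ind : ∀ f : ι →₀ D.S, f.sum (fun i s => iot D.ph s • w i) = 0 → f = 0
  span : ∀ x : X, ∃ f : ι →₀ D.S, f.sum (fun i s => iot D.ph s • w i) = x

namespace Dat

variable (D : Dat.{u})

/-- finite homogeneous basis -/
def IsF (X : Type u) [AddCommGroup X] [Module D.R X] : Prop :=
  ∃ r : ℕ, Nonempty (Fbs D X (Fin r))

/-- finite homogeneous basis of weight `n` -/
def IsO (X : Type u) [AddCommGroup X] [Module D.R X] (n : ℤ) : Prop :=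
  ∃ (r : ℕ) (h : Fbs D X (Fin r)), ∀ i, h.n i = n

/-- Complexes of free modules, exact at every point of codimension one. -/
structure Dom (X : Ch.{u} D.R) : Prop where
  f0 : D.IsF X.X0
  f1 : D.IsF X.X1
  ex0 : ∀ (P : Pool.Agent.MSX.HP D.p D.L) (x : X.X0), X.d0 x = 0 →
    ∃ s : D.S, s ∉ P.I ∧ ∃ y, X.d1 y = iot D.ph s • x
  ex1 : ∀ (P : Pool.Agent.MSX.HP D.p D.L) (x : X.X1), X.d1 x = 0 →
    ∃ s : D.S, s ∉ P.I ∧ ∃ y, X.d0 y = iot D.ph s • x

end Dat

/-- Additive functions on the complexes of `D.Dom`. -/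
structure PsiT (D : Dat.{u}) (H : Type v) [AddCommGroup H] where
  v : Ch.{u} D.R → H
  add : ∀ {X Y Z : Ch.{u} D.R}, D.Dom X → D.Dom Y → D.Dom Z → Ch.Ses X Y Z → v Y = v X + v Z
  zero : ∀ (X : Ch.{u} D.R) (n : ℤ), D.Dom X → X.Acy → D.IsO X.X0 n → D.IsO X.X1 n → v X = 0

/-! ## the Koszul data of the variables and of two invariants -/

namespace Dat

variable (D : Dat.{u})

/-- operators on `F^p`: `τ e_i = cf (i+1) e_(i+1)`, `θ_c = c` -/
def rhoV : Gn D.F → ((Fin D.p → D.F) →ₗ[D.F] (Fin D.p → D.F))
  | Gn.tau =>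
    { toFun := fun v x => D.cf x * v (x - 1)
      map_add' := fun v w => by funext x; simp [mul_add]
      map_smul' := fun c v => by funext x; simp; ring }
  | Gn.th c => (c : D.F) • LinearMap.id

theorem kV_hy (g : Gn D.F) (j : Fin D.p) : D.ph g (MvPolynomial.X j) =
    ∑ i : Fin D.p, algebraMap D.F D.S (D.rhoV g (Pi.single j 1) i) * MvPolynomial.X i := by
  have ha : ∀ c : D.F, algebraMap D.F D.S c = C (algebraMap D.F D.L c) := fun c => rfl
  cases g with
  | tau =>
    rw [Finset.sum_eq_single (j + 1)]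
    · have h1 : D.ph Gn.tau (MvPolynomial.X j) = C (algebraMap D.F D.L (D.cf (j + 1))) * MvPolynomial.X (j + 1) := D.tauS_X j
      rw [h1, ha]
      simp [rhoV]
    · intro x _ hx
      have : (Pi.single j (1 : D.F) : Fin D.p → D.F) (x - 1) = 0 := by
        rw [Pi.single_eq_of_ne]
        intro h
        apply hx
        rw [← h]
        simp
      simp [rhoV, this]
    · simp
  | th c =>
    rw [Finset.sum_eq_single j]
    · simp [ph, thS, rhoV, ha]
    · intro x _ hx
      simp [rhoV, Pi.single_eq_of_ne hx]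
    · simp

/-- Koszul data: the variables. -/
def kV : KS D.F D.ph where
  J := Fin D.p
  rho := D.rhoV
  y := fun x => MvPolynomial.X x
  hy := fun g j => by
    convert D.kV_hy g j

/-- diagonal operators on `F^k` for invariants of degrees `p e_j` -/
def rhoI {k : ℕ} (e : Fin k → ℕ) (g : Gn D.F) : (Fin k → D.F) →ₗ[D.F] (Fin k → D.F) where
  toFun v x := D.chi (e x) g * v x
  map_add' v w := by funext x; simp [mul_add]
  map_smul' c v := by
    funext x
    simp only [Pi.smul_apply, smul_eq_mul, RingHom.id_apply]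
    ring

theorem kI_hy {k : ℕ} (e : Fin k → ℕ) (y : Fin k → D.S) (h : ∀ j, D.Iv (e j) (y j)) (g : Gn D.F)
    (j : Fin k) : D.ph g (y j) =
      ∑ i : Fin k, algebraMap D.F D.S (D.rhoI e g (Pi.single j 1) i) * y i := by
  rw [Finset.sum_eq_single j]
  · rw [D.iv_ph (h j)]
    simp [rhoI]
  · intro x _ hx
    simp [rhoI, Pi.single_eq_of_ne hx]
  · simp

/-- Koszul data: invariants `y j` of degrees `p e_j`. -/
def kI {k : ℕ} (e : Fin k → ℕ) (y : Fin k → D.S) (h : ∀ j, D.Iv (e j) (y j)) : KS D.F D.ph where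
  J := Fin k
  rho := D.rhoI e
  y := y
  hy := fun g j => by
    convert D.kI_hy e y h g j

/-- Koszul data of two invariants. -/
def kCI {m n : ℕ} {y g : D.S} (hy : D.Iv m y) (hg : D.Iv n g) : KS D.F D.ph :=
  D.kI ![m, n] ![y, g] (by
    intro j
    fin_cases j
    · exact hy
    · exact hg)

end Dat

end MSA
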