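import Mathlib
import Pool.Agent.MSA.HfB
import Pool.Agent.MSA.KWt
import Pool.Agent.MSA.KHo
import Pool.Agent.MSA.Rdf

/-!
# The Koszul complex of all variables

The Koszul datum `D.kV` of the variables (and `rhoV`, `kV_hy`) is defined in MSA/Rdf.

PROOFS. `kVw_th`: scalar.
`kVw_tp`: `rho tau (e_j) = cf (j+1) e_(j+1)`; the `p`-th iterate is `∏_(i) cf i = b` (as `Adm.kTw_tp` in MSA/KWt:
`Function.iterate`, or: the operator `rho tau ^ p` on `v` is `(∏_(l<p) cf (i - l)) * v (i - p)`, and `i - p = i`,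
`∏ over a full period = ∏ i, cf i = b`).
`isW_tot`: `wts_tot` (`D.X.b_ne`); the weight space of weight `n` of `K.Tot M` embeds in the product of the weight
spaces `wt M (n - |B|)` (`wt_comp`, `dg = 1`), finite; bounded below: `n < n₀` implies `n - |B| < n₀`.
`hf_part`: `x ↦ (x B)_B`, `B` with `|B| = i` in `ℤ/2`, is an `L`-linear isomorphism from `wL (kV.part M i) n` onto the
product of the `wL M (n - |B|)` (`wt_comp` for `Tot`; `x ∈ part i` has weight `n` in `part i` iff in `Tot`;
the `L`-action is pointwise by `K.iot_smul`): `Module.finrank_pi_fintype`.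
`kap_part`: sum over the subsets `B` by cardinality: `Finset.sum_powerset_apply_card` or
`Finset.sum_fiberwise`, `Finset.card_powersetCard`; `(-1)^j` is `1` for even and `-1` for odd `j`.
-/

set_option autoImplicit false
set_option linter.unusedSectionVars false

noncomputable section

namespace MSA

universe u v w

open MvPolynomial

namespace Dat

variable (D : Dat.{u})

theorem kVw_th (c : D.Fˣ) (j : D.kV.J) : D.kV.rho (HasTh.th c) (Pi.single j 1) =
    ((c ^ (1 : ℤ) : D.Fˣ) : D.F) • (Pi.single j 1 : D.kV.J → D.F) := by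
  rw [zpow_one]
  rfl

private theorem hs_succ (m : ℕ) :
    Fin.ofNat D.p (m + 1) = Fin.ofNat D.p m + 1 := by
  apply Fin.ext
  rw [Dat.val_succ]
  show (m + 1) % D.p = (m % D.p + 1) % D.p
  simp

private theorem hs_p : Fin.ofNat D.p D.p = 0 := by
  apply Fin.ext
  show D.p % D.p = 0
  exact Nat.mod_self _

private theorem hs_pow (m : ℕ) (v : Fin D.p → D.F) (x : Fin D.p) :
    ((D.rhoV Gn.tau) ^ m) v x =
      (∏ i ∈ Finset.range m, D.cf (x - Fin.ofNat D.p i)) * v (x - Fin.ofNat D.p m) := by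
  induction m generalizing v with
  | zero =>
    have h0 : Fin.ofNat D.p 0 = 0 := by
      apply Fin.ext
      show 0 % D.p = 0
      exact Nat.zero_mod _
    rw [pow_zero, Finset.prod_range_zero, one_mul, h0, sub_zero]
    rfl
  | succ m ih =>
    rw [pow_succ, Module.End.mul_apply, ih, Finset.prod_range_succ]
    show _ * (D.cf (x - Fin.ofNat D.p m) * v (x - Fin.ofNat D.p m - 1)) = _
    rw [mul_assoc, D.hs_succ, sub_sub]

private theorem hs_cf (x : Fin D.p) :
    ∏ i ∈ Finset.range D.p, D.cf (x - Fin.ofNat D.p i) = D.b := by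
  have h1 : ∏ i ∈ Finset.range D.p, D.cf (x - Fin.ofNat D.p i) =
      ∏ i : Fin D.p, D.cf (x - i) := by
    rw [← Fin.prod_univ_eq_prod_range (fun i : ℕ => D.cf (x - Fin.ofNat D.p i)) D.p]
    refine Finset.prod_congr rfl fun i _ => ?_
    congr 2
    apply Fin.ext
    show i.val % D.p = i.val
    exact Nat.mod_eq_of_lt i.2
  rw [h1]
  have h2 : ∏ i : Fin D.p, D.cf (x - i) = ∏ i : Fin D.p, D.cf i :=
    Equiv.prod_comp (Equiv.subLeft x) D.cf
  rw [h2]
  unfold Dat.cf
  rw [Finset.prod_ite_eq' Finset.univ (0 : Fin D.p) (fun _ => D.b), if_pos (Finset.mem_univ _)]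

theorem kVw_tp (j : D.kV.J) : (D.kV.rho (HasTh.tau D.F) ^ D.p) (Pi.single j 1) =
    (D.b ^ (1 : ℤ)) • (Pi.single j 1 : D.kV.J → D.F) := by
  rw [zpow_one]
  have h : ∀ (v : Fin D.p → D.F), ((D.rhoV Gn.tau) ^ D.p) v = D.b • v := by
    intro v
    funext x
    rw [hs_pow, hs_cf, hs_p, sub_zero]
    rfl
  exact h _

/-- the weights -/
def kVw : KW D.kV D.p D.b where
  dg := fun _ => 1
  hth := D.kVw_th
  htau := fun _ _ _ => rfl
  htp := D.kVw_tp

variable {M : Type u} [AddCommGroup M] [Module D.R M]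

/-- the weights of the components -/
private theorem hs_comp (n : ℤ) (x : D.kV.Tot M) :
    x ∈ wt D.F D.ph (D.kV.Tot M) n ↔
      ∀ B : Finset (Fin D.p), x B ∈ wt D.F D.ph M (n - (B.card : ℤ)) := by
  have h1 : ∀ B : Finset (Fin D.p), ∑ j ∈ B, D.kVw.dg j = (B.card : ℤ) := by
    intro B
    show ∑ j ∈ B, (1 : ℤ) = (B.card : ℤ)
    rw [Finset.sum_const, nsmul_eq_mul, mul_one]
  have h2 := wt_comp D.kV (Z := M) D.kVw n x
  have h3 : ∀ B : Finset (Fin D.p), (x B ∈ wt D.F D.ph M (n - ∑ j ∈ B, D.kVw.dg j)) =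
      (x B ∈ wt D.F D.ph M (n - (B.card : ℤ))) := fun B =>
    congrArg (fun t : ℤ => x B ∈ wt D.F D.ph M (n - t)) (h1 B)
  exact ⟨fun hx B => (h3 B).mp (h2.1 hx B), fun hx => h2.2 fun B => (h3 B).mpr (hx B)⟩

/-- the components of a weight vector -/
private def hsC (n : ℤ) : D.wL (D.kV.Tot M) n →ₗ[D.L]
    ((B : Finset (Fin D.p)) → D.wL M (n - (B.card : ℤ))) where
  toFun x B := ⟨(x.1 : D.kV.Tot M) B, (D.hs_comp n x.1).1 x.2 B⟩
  map_add' _ _ := rfl
  map_smul' c x := by
    funext B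
    exact Subtype.ext (D.kV.iot_smul (MvPolynomial.C c) x.1 B)

private theorem hsC_inj (n : ℤ) : Function.Injective (D.hsC (M := M) n) := by
  intro x y hxy
  apply Subtype.ext
  funext B
  exact congrArg Subtype.val (congrFun hxy B)

theorem isW_tot (h : D.IsW M) : D.IsW (D.kV.Tot M) where
  wts := wts_tot D.kV D.kVw D.X.b_ne h.wts
  fd := by
    intro n
    have h1 : ∀ B : Finset (Fin D.p), Module.Finite D.L (D.wL M (n - (B.card : ℤ))) :=
      fun B => h.fd _
    exact Module.Finite.of_injective (D.hsC (M := M) n) (D.hsC_inj n)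
  bd := by
    obtain ⟨n₀, hn⟩ := h.bd
    refine ⟨n₀, fun n hlt => ?_⟩
    rw [eq_bot_iff]
    intro x hx
    rw [AddSubgroup.mem_bot]
    funext B
    have h1 := (D.hs_comp n x).1 hx B
    have h2 : (0 : ℤ) ≤ (B.card : ℤ) := Int.natCast_nonneg _
    rw [hn _ (by omega), AddSubgroup.mem_bot] at h1
    exact h1

theorem hf_part (h : D.IsW M) (i : ZMod 2) (n : ℤ) : D.hf (D.kV.part M i) n =
    ∑ B ∈ (Finset.univ : Finset (Finset (Fin D.p))).filter (fun B => (B.card : ZMod 2) = i),
      D.hf M (n - B.card) := by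
  classical
  have h1 : ∀ B : {B : Finset (Fin D.p) // (B.card : ZMod 2) = i},
      Module.Finite D.L (D.wL M (n - (B.1.card : ℤ))) := fun B => h.fd _
  let f : D.wL (D.kV.part M i) n →ₗ[D.L]
      ((B : {B : Finset (Fin D.p) // (B.card : ZMod 2) = i}) → D.wL M (n - (B.1.card : ℤ))) :=
    { toFun := fun x B => ⟨(x.1 : D.kV.part M i).1 B.1,
        (D.hs_comp n _).1 (wt_map (D.kV.part M i).subtype x.2) B.1⟩
      map_add' := fun _ _ => rfl
      map_smul' := fun c x => by
        funext B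
        exact Subtype.ext (D.kV.iot_smul (MvPolynomial.C c) (x.1 : D.kV.part M i).1 B.1) }
  have hinj : Function.Injective f := by
    intro x y hxy
    apply Subtype.ext
    apply Subtype.ext
    funext B
    by_cases hB : (B.card : ZMod 2) = i
    · exact congrArg Subtype.val (congrFun hxy ⟨B, hB⟩)
    · exact ((x.1 : D.kV.part M i).2 B hB).trans ((y.1 : D.kV.part M i).2 B hB).symm
  have hsurj : Function.Surjective f := by
    intro y
    let z : D.kV.Tot M := fun B => if hB : (B.card : ZMod 2) = i then (y ⟨B, hB⟩).1 else 0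
    have hz : z ∈ D.kV.part M i := fun B hB => dif_neg hB
    have hw : (⟨z, hz⟩ : D.kV.part M i) ∈ wt D.F D.ph (D.kV.part M i) n := by
      have h2 : z ∈ wt D.F D.ph (D.kV.Tot M) n := by
        rw [D.hs_comp]
        intro B
        by_cases hB : (B.card : ZMod 2) = i
        · have h3 : z B = (y ⟨B, hB⟩).1 := dif_pos hB
          rw [h3]
          exact (y ⟨B, hB⟩).2
        · have h3 : z B = 0 := dif_neg hB
          rw [h3]
          exact AddSubgroup.zero_mem _
      intro c
      exact Subtype.ext (h2 c)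
    refine ⟨⟨⟨z, hz⟩, hw⟩, ?_⟩
    funext B
    apply Subtype.ext
    exact dif_pos B.2
  rw [D.hf_wL, LinearEquiv.finrank_eq (LinearEquiv.ofBijective f ⟨hinj, hsurj⟩),
    Module.finrank_pi_fintype]
  rw [Finset.sum_subtype (p := fun B : Finset (Fin D.p) => (B.card : ZMod 2) = i) _
    (fun B => by rw [Finset.mem_filter]; exact and_iff_right (Finset.mem_univ B))]
  rfl

theorem kap_part (h : D.IsW M) (n : ℤ) :
    D.kap M n = (D.hf (D.kV.part M 0) n : ℤ) - D.hf (D.kV.part M 1) n := by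
  classical
  rw [D.hf_part h, D.hf_part h, Nat.cast_sum, Nat.cast_sum, Finset.sum_filter, Finset.sum_filter,
    ← Finset.sum_sub_distrib]
  have h1 : ∀ B : Finset (Fin D.p),
      ((if (B.card : ZMod 2) = 0 then ((D.hf M (n - B.card) : ℕ) : ℤ) else 0) -
        (if (B.card : ZMod 2) = 1 then ((D.hf M (n - B.card) : ℕ) : ℤ) else 0)) =
      (-1) ^ B.card * (D.hf M (n - B.card) : ℤ) := by
    intro B
    rcases Nat.even_or_odd B.card with hB | hB
    · have h2 : (B.card : ZMod 2) = 0 := (ZMod.natCast_eq_zero_iff_even).2 hB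
      rw [h2, if_pos rfl, if_neg zero_ne_one, hB.neg_one_pow, one_mul, sub_zero]
    · have h2 : (B.card : ZMod 2) = 1 := (ZMod.natCast_eq_one_iff_odd).2 hB
      rw [h2, if_neg one_ne_zero, if_pos rfl, hB.neg_one_pow, zero_sub, neg_one_mul]
  rw [Finset.sum_congr rfl fun B _ => h1 B, ← Finset.powerset_univ,
    Finset.sum_powerset_apply_card (fun j : ℕ => (-1) ^ j * (D.hf M (n - j) : ℤ))]
  unfold kap
  rw [Finset.card_univ, Fintype.card_fin]
  refine Finset.sum_congr rfl fun j _ => ?_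
  rw [nsmul_eq_mul]
  ring

end Dat

end MSA
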