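import Mathlib

/-!
# Numerical functions `h : ℤ → ℤ` and `κ = (1-q)^p h` (no modules in this file)

PROOFS.
`kp_inv`: for `p = 1`: `h n = ∑_{m ≤ n} κ m` (telescoping, `h` is zero below). In general `kp (p+1) h = kp p (Δ h)`,
`Δ h n = h n - h (n-1)` (Pascal), and `∑_{m ≤ l ≤ n} choose (l-m+p-1) (p-1) = choose (n-m+p) p`. (`Hb` is not needed for
the induction: do it for all `h : ℤ → ℤ` that are zero below with `kp p h` of finite support.)
`h_sum`: polynomial growth from `kp_inv`, or by induction on `p`: if `g n e^(-tn)` is (absolutely) summable over `ℤ`, `g` zero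
below, `h n = ∑_{m ≤ n} g m`, then `h n e^(-tn)` is summable (convolution with `∑_{d ≥ 0} e^(-td)`).
`pt_eq`: `e^(-tn) kp p h n = ∑_j (-1)^j choose p j e^(-tj) (h (n-j) e^(-t(n-j)))`, sum over `n`, binomial theorem.
`pt_pos`: `pt_eq`. `pt_le`: `∑' h' n e^(-tn) ≤ ∑_i ∑' h (n + a i) e^(-tn) = ∑_i e^(t a i) ∑' h n e^(-tn)` and `pt_eq`.
`pt_lim`: `e^(-tm) = ∑_{i ≤ c} (-tm)^i / i! + O(t^(c+1))` for every `m` of the finite support, sum up:
`Pt κ t = ∑_{i ≤ c} (-t)^i mo κ i / i! + O(t^(c+1))`.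
`mo_nonneg`: `pt_lim`, `pt_pos`. `mo_van`: strong induction on `j < c`: `Pt κ' t / t^j` is between `0` and
`(∑ e^(t a i)) t^(c-j) (Pt κ t / t^c) → 0`, so by `pt_lim` (moments `< j` vanish) the `j`-th moment is zero.
`fin_iff`: (→) for `n` above the support of `κ`, `kp_inv`: `h n = ∑_m κ m choose (n-m+p-1) (p-1)`, a polynomial in `m` of
degree `p - 1` over `ℚ`. (←) `pt_eq`: `Pt κ t = (1-e^(-t))^p * (finite sum)`, so `Pt κ t / t^j → 0` for `j < p`; strong
induction with `pt_lim`. `mo_shift`: binomial theorem, `mo κ' j = ∑_i choose j i a^(j-i) mo κ i`.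
-/

set_option autoImplicit false

noncomputable section

namespace MSA

open Filter Topology

/-- `κ = (1-q)^p * h` as a function -/
def kp (p : ℕ) (h : ℤ → ℤ) (n : ℤ) : ℤ :=
  ∑ j ∈ Finset.range (p + 1), (-1) ^ j * (p.choose j : ℤ) * h (n - j)

/-- moments -/
def mo (κ : ℤ → ℤ) (j : ℕ) : ℤ := ∑ᶠ n : ℤ, κ n * n ^ j

/-- numerical functions that come from finitely generated modules -/
structure Hb (p : ℕ) (h : ℤ → ℤ) : Prop where
  nn : ∀ n, 0 ≤ h n
  bd : ∃ n₀ : ℤ, ∀ n < n₀, h n = 0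
  fin : (Function.support (kp p h)).Finite

/-- the Laurent polynomial `∑ κ m q^m` at `q = e^(-t)` -/
def Pt (κ : ℤ → ℤ) (t : ℝ) : ℝ := ∑ᶠ m : ℤ, (κ m : ℝ) * Real.exp (-(t * m))

variable {p : ℕ} {h h' : ℤ → ℤ}

theorem kp_add (n : ℤ) : kp p (h + h') n = kp p h n + kp p h' n := by
  unfold kp
  rw [← Finset.sum_add_distrib]
  refine Finset.sum_congr rfl fun j _ => ?_
  rw [Pi.add_apply, mul_add]

theorem kp_shift (a n : ℤ) : kp p (fun n => h (n - a)) n = kp p h (n - a) := by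
  unfold kp
  refine Finset.sum_congr rfl fun j _ => ?_
  rw [sub_right_comm]

/-- coefficients of `(1-q)^(-p)` -/
def nu1_kc : ℕ → ℤ → ℤ
  | 0, d => if d = 0 then 1 else 0
  | p + 1, d => if 0 ≤ d then ((d.toNat + p).choose p : ℤ) else 0

theorem nu1_kc_z (d : ℤ) : nu1_kc 0 d = if d = 0 then 1 else 0 := rfl

theorem nu1_kc_s (p : ℕ) (d : ℤ) :
    nu1_kc (p + 1) d = if 0 ≤ d then ((d.toNat + p).choose p : ℤ) else 0 := rfl

theorem nu1_kc_neg (p : ℕ) {d : ℤ} (hd : d < 0) : nu1_kc p d = 0 := by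
  cases p with
  | zero => rw [nu1_kc_z, if_neg hd.ne]
  | succ p => rw [nu1_kc_s, if_neg (not_le.2 hd)]

theorem nu1_kc_zero (p : ℕ) : nu1_kc p 0 = 1 := by
  cases p with
  | zero => rw [nu1_kc_z, if_pos rfl]
  | succ p => rw [nu1_kc_s, if_pos le_rfl, Int.toNat_zero, zero_add, Nat.choose_self, Nat.cast_one]

theorem nu1_kc_nat (p n : ℕ) : nu1_kc (p + 1) (n : ℤ) = ((n + p).choose p : ℤ) := by
  rw [nu1_kc_s, if_pos (Int.natCast_nonneg n), Int.toNat_natCast]

theorem nu1_kc_sub (p : ℕ) (d : ℤ) : nu1_kc (p + 1) d - nu1_kc (p + 1) (d - 1) = nu1_kc p d := by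
  rcases lt_trichotomy d 0 with hd | hd | hd
  · rw [nu1_kc_neg _ hd, nu1_kc_neg _ hd, nu1_kc_neg _ (by omega), sub_zero]
  · rw [hd, nu1_kc_zero, nu1_kc_zero, nu1_kc_neg _ (by omega), sub_zero]
  · obtain ⟨n, rfl⟩ : ∃ n : ℕ, d = (n : ℤ) + 1 := ⟨(d - 1).toNat, by omega⟩
    rw [add_sub_cancel_right, nu1_kc_nat]
    have h1 := nu1_kc_nat p (n + 1)
    rw [Nat.cast_add, Nat.cast_one] at h1
    rw [h1]
    cases p with
    | zero =>
      rw [Nat.choose_zero_right, Nat.choose_zero_right, sub_self, nu1_kc_z, if_neg (by omega)]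
    | succ p =>
      have h2 := nu1_kc_nat p (n + 1)
      rw [Nat.cast_add, Nat.cast_one] at h2
      rw [h2]
      have h3 : n + 1 + (p + 1) = (n + (p + 1)) + 1 := by ring
      rw [h3, Nat.choose_succ_succ, Nat.cast_add, add_sub_cancel_right]
      have h4 : n + 1 + p = n + (p + 1) := by ring
      rw [h4]

theorem nu1_kp_zero (h : ℤ → ℤ) (n : ℤ) : kp 0 h n = h n := by
  unfold kp
  rw [zero_add, Finset.sum_range_one]
  simp

theorem nu1_kp_succ (p : ℕ) (h : ℤ → ℤ) (n : ℤ) :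
    kp (p + 1) h n = kp p (fun n => h n - h (n - 1)) n := by
  have h1 : kp p (fun n => h n - h (n - 1)) n = kp p h n - kp p h (n - 1) := by
    unfold kp
    rw [← Finset.sum_sub_distrib]
    refine Finset.sum_congr rfl fun j _ => ?_
    rw [mul_sub, sub_right_comm]
  have h2 : kp p h n = ∑ j ∈ Finset.range (p + 1),
      (-1) ^ (j + 1) * (p.choose (j + 1) : ℤ) * h (n - ((j + 1 : ℕ) : ℤ)) + h n := by
    unfold kp
    have h3 := Finset.sum_range_succ' (fun j : ℕ => (-1 : ℤ) ^ j * (p.choose j : ℤ) * h (n - j))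
      (p + 1)
    rw [Finset.sum_range_succ, Nat.choose_succ_self, Nat.cast_zero, mul_zero, zero_mul,
      add_zero] at h3
    rw [h3]
    simp
  have h4 : kp p h (n - 1) = -∑ j ∈ Finset.range (p + 1),
      (-1) ^ (j + 1) * (p.choose j : ℤ) * h (n - ((j + 1 : ℕ) : ℤ)) := by
    unfold kp
    rw [← Finset.sum_neg_distrib]
    refine Finset.sum_congr rfl fun j _ => ?_
    have h5 : n - 1 - (j : ℤ) = n - ((j + 1 : ℕ) : ℤ) := by push_cast; ring
    rw [h5, pow_succ]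
    ring
  rw [h1, h2, h4, sub_neg_eq_add]
  unfold kp
  rw [Finset.sum_range_succ', add_right_comm, ← Finset.sum_add_distrib]
  have h6 : (-1 : ℤ) ^ 0 * ((p + 1).choose 0 : ℤ) * h (n - ((0 : ℕ) : ℤ)) = h n := by simp
  rw [h6]
  congr 1
  refine Finset.sum_congr rfl fun j _ => ?_
  rw [Nat.choose_succ_succ]
  push_cast
  ring

theorem nu1_kp_step {u : ℤ → ℤ} {n₀ : ℤ} (h0 : ∀ n < n₀, u n = 0) (h1 : ∀ n, u n = u (n - 1)) (n : ℤ) :
    u n = 0 := by
  have h2 : ∀ k : ℕ, u n = u (n - k) := by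
    intro k
    induction k with
    | zero => rw [Nat.cast_zero, sub_zero]
    | succ k ih =>
      rw [ih, h1 (n - k)]
      congr 1
      push_cast
      ring
  rw [h2 (n - n₀ + 1).toNat]
  apply h0
  omega

theorem nu1_kp_inv_aux (p : ℕ) : ∀ (h : ℤ → ℤ) (n₀ : ℤ), (∀ n < n₀, h n = 0) → ∀ S : Finset ℤ,
    (∀ m, kp p h m ≠ 0 → m ∈ S) → ∀ n, h n = ∑ m ∈ S, kp p h m * nu1_kc p (n - m) := by
  induction p with
  | zero =>
    intro h n₀ hb S hS n
    have h1 : ∀ m ∈ S, kp 0 h m * nu1_kc 0 (n - m) = if m = n then h n else 0 := by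
      intro m _
      rw [nu1_kp_zero, nu1_kc_z]
      by_cases hm : m = n
      · rw [if_pos hm, hm, sub_self, if_pos rfl, mul_one]
      · rw [if_neg hm, if_neg (by omega), mul_zero]
    rw [Finset.sum_congr rfl h1, Finset.sum_ite_eq']
    by_cases hn : n ∈ S
    · rw [if_pos hn]
    · rw [if_neg hn]
      by_contra hne
      exact hn (hS n (by rw [nu1_kp_zero]; exact hne))
  | succ p ih =>
    intro h n₀ hb S hS n
    have h1 : ∀ m, kp (p + 1) h m = kp p (fun n => h n - h (n - 1)) m := nu1_kp_succ p h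
    have h2 := ih (fun n => h n - h (n - 1)) n₀ (fun k hk => by
      show h k - h (k - 1) = 0
      rw [hb k hk, hb (k - 1) (by omega), sub_zero]) S (fun m hm => hS m (by rw [h1]; exact hm))
    obtain ⟨b, hb'⟩ := S.bddBelow
    have h3 := nu1_kp_step (u := fun n => h n - ∑ m ∈ S, kp (p + 1) h m * nu1_kc (p + 1) (n - m))
      (n₀ := min n₀ b) ?_ ?_ n
    · exact sub_eq_zero.1 h3
    · intro k hk
      show h k - ∑ m ∈ S, kp (p + 1) h m * nu1_kc (p + 1) (k - m) = 0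
      rw [hb k (lt_of_lt_of_le hk (min_le_left _ _)), Finset.sum_eq_zero, sub_zero]
      intro m hm
      have h4 : b ≤ m := hb' (Finset.mem_coe.2 hm)
      have h5 := lt_of_lt_of_le hk (min_le_right _ _)
      rw [nu1_kc_neg _ (by omega), mul_zero]
    · intro k
      show h k - ∑ m ∈ S, kp (p + 1) h m * nu1_kc (p + 1) (k - m) =
        h (k - 1) - ∑ m ∈ S, kp (p + 1) h m * nu1_kc (p + 1) (k - 1 - m)
      have h4 : ∑ m ∈ S, kp (p + 1) h m * nu1_kc (p + 1) (k - m) -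
          ∑ m ∈ S, kp (p + 1) h m * nu1_kc (p + 1) (k - 1 - m) = h k - h (k - 1) := by
        have h5 := h2 k
        rw [← Finset.sum_sub_distrib]
        refine Eq.trans ?_ h5.symm
        refine Finset.sum_congr rfl fun m _ => ?_
        rw [← mul_sub, h1, sub_right_comm k 1 m, nu1_kc_sub]
      linarith

theorem nu1_kc_summable (p : ℕ) {t : ℝ} (ht : 0 < t) :
    Summable (fun n : ℤ => (nu1_kc p n : ℝ) * Real.exp (-(t * n))) := by
  have hinj : Function.Injective (fun n : ℕ => (n : ℤ)) := Nat.cast_injective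
  have hout : ∀ x ∉ Set.range (fun n : ℕ => (n : ℤ)),
      (nu1_kc p x : ℝ) * Real.exp (-(t * x)) = 0 := by
    intro x hx
    have h1 : x < 0 := by
      by_contra h2
      exact hx ⟨x.toNat, by
        show (x.toNat : ℤ) = x
        omega⟩
    rw [nu1_kc_neg p h1, Int.cast_zero, zero_mul]
  rw [← hinj.summable_iff hout]
  have hexp : ∀ n : ℕ, Real.exp (-(t * ((n : ℤ) : ℝ))) = Real.exp (-t) ^ n := by
    intro n
    rw [← Real.exp_nat_mul]
    congr 1
    push_cast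
    ring
  cases p with
  | zero =>
    refine summable_of_ne_finset_zero (s := {0}) ?_
    intro n hn
    rw [Finset.mem_singleton] at hn
    show (nu1_kc 0 (n : ℤ) : ℝ) * _ = 0
    rw [nu1_kc_z, if_neg (by exact_mod_cast hn), Int.cast_zero, zero_mul]
  | succ p =>
    have h1 := summable_choose_mul_geometric_of_norm_lt_one p (r := Real.exp (-t)) (by
      rw [Real.norm_eq_abs, abs_of_pos (Real.exp_pos _)]
      exact Real.exp_lt_one_iff.2 (by linarith))
    refine h1.congr fun n => ?_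
    show _ = (nu1_kc (p + 1) (n : ℤ) : ℝ) * Real.exp (-(t * ((n : ℤ) : ℝ)))
    rw [hexp, nu1_kc_nat]
    push_cast
    ring

theorem nu1_exp_shift_summable {f : ℤ → ℤ} {t : ℝ}
    (hf : Summable (fun n : ℤ => (f n : ℝ) * Real.exp (-(t * n)))) (a : ℤ) :
    Summable (fun n : ℤ => (f (n - a) : ℝ) * Real.exp (-(t * n))) ∧
      ∑' n : ℤ, (f (n - a) : ℝ) * Real.exp (-(t * n)) =
        Real.exp (-(t * a)) * ∑' n : ℤ, (f n : ℝ) * Real.exp (-(t * n)) := by
  have h1 : (fun n : ℤ => (f (n - a) : ℝ) * Real.exp (-(t * n))) =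
      fun n => Real.exp (-(t * a)) *
        ((fun n : ℤ => (f n : ℝ) * Real.exp (-(t * n))) ∘ (Equiv.subRight a)) n := by
    funext n
    show _ = Real.exp (-(t * a)) * ((f (n - a) : ℝ) * Real.exp (-(t * ((n - a : ℤ) : ℝ))))
    have h2 : Real.exp (-(t * n)) = Real.exp (-(t * a)) * Real.exp (-(t * ((n - a : ℤ) : ℝ))) := by
      rw [← Real.exp_add]
      congr 1
      push_cast
      ring
    rw [h2]
    ring
  rw [h1]
  constructor
  · exact ((Equiv.subRight a).summable_iff.2 hf).mul_left _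
  · rw [tsum_mul_left]
    congr 1
    exact (Equiv.subRight a).tsum_eq (fun n : ℤ => (f n : ℝ) * Real.exp (-(t * n)))

theorem kp_inv (hp : 0 < p) (H : Hb p h) (n : ℤ) :
    h n = ∑ m ∈ H.fin.toFinset, kp p h m *
      (if m ≤ n then (((n - m).toNat + p - 1).choose (p - 1) : ℤ) else 0) := by
  obtain ⟨n₀, hb⟩ := H.bd
  have h1 := nu1_kp_inv_aux p h n₀ hb H.fin.toFinset (fun m hm => H.fin.mem_toFinset.2 hm) n
  rw [h1]
  refine Finset.sum_congr rfl fun m _ => ?_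
  congr 1
  obtain ⟨q, rfl⟩ := Nat.exists_eq_add_of_le' hp
  rw [nu1_kc_s]
  by_cases hm : m ≤ n
  · rw [if_pos hm, if_pos (by omega)]
    rfl
  · rw [if_neg hm, if_neg (by omega)]

theorem h_sum (H : Hb p h) {t : ℝ} (ht : 0 < t) :
    Summable (fun n : ℤ => (h n : ℝ) * Real.exp (-(t * n))) := by
  obtain ⟨n₀, hb⟩ := H.bd
  have h1 := nu1_kp_inv_aux p h n₀ hb H.fin.toFinset (fun m hm => H.fin.mem_toFinset.2 hm)
  have h2 : (fun n : ℤ => (h n : ℝ) * Real.exp (-(t * n))) = fun n : ℤ =>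
      ∑ m ∈ H.fin.toFinset, (kp p h m : ℝ) * ((nu1_kc p (n - m) : ℝ) * Real.exp (-(t * n))) := by
    funext n
    conv_lhs => rw [h1 n]
    push_cast
    rw [Finset.sum_mul]
    refine Finset.sum_congr rfl fun m _ => ?_
    ring
  rw [h2]
  exact summable_sum fun m _ => (nu1_exp_shift_summable (nu1_kc_summable p ht) m).1.mul_left _

theorem pt_eq (H : Hb p h) {t : ℝ} (ht : 0 < t) :
    Pt (kp p h) t = (1 - Real.exp (-t)) ^ p * ∑' n : ℤ, (h n : ℝ) * Real.exp (-(t * n)) := by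
  have hs := h_sum H ht
  have h1 : Pt (kp p h) t = ∑' n : ℤ, (kp p h n : ℝ) * Real.exp (-(t * n)) := by
    unfold Pt
    refine (tsum_eq_finsum ?_).symm
    refine H.fin.subset ?_
    intro n hn h0
    apply hn
    show (kp p h n : ℝ) * _ = 0
    rw [h0, Int.cast_zero, zero_mul]
  have h2 : ∀ n : ℤ, (kp p h n : ℝ) * Real.exp (-(t * n)) =
      ∑ j ∈ Finset.range (p + 1), ((-1 : ℝ) ^ j * (p.choose j : ℝ)) *
        ((h (n - (j : ℤ)) : ℝ) * Real.exp (-(t * n))) := by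
    intro n
    unfold kp
    push_cast
    rw [Finset.sum_mul]
    refine Finset.sum_congr rfl fun j _ => ?_
    ring
  have h5 : ∀ j ∈ Finset.range (p + 1), Summable (fun n : ℤ => ((-1 : ℝ) ^ j * (p.choose j : ℝ)) *
        ((h (n - (j : ℤ)) : ℝ) * Real.exp (-(t * n)))) :=
    fun j _ => (nu1_exp_shift_summable hs (j : ℤ)).1.mul_left _
  rw [h1, tsum_congr h2, Summable.tsum_finsetSum h5]
  have h3 : ∀ j ∈ Finset.range (p + 1), ∑' n : ℤ, ((-1 : ℝ) ^ j * (p.choose j : ℝ)) *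
        ((h (n - (j : ℤ)) : ℝ) * Real.exp (-(t * n))) =
      ((-Real.exp (-t)) ^ j * 1 ^ (p - j) * (p.choose j : ℝ)) *
        ∑' n : ℤ, (h n : ℝ) * Real.exp (-(t * n)) := by
    intro j _
    rw [tsum_mul_left, (nu1_exp_shift_summable hs (j : ℤ)).2]
    have h4 : Real.exp (-(t * ((j : ℤ) : ℝ))) = Real.exp (-t) ^ j := by
      rw [← Real.exp_nat_mul]
      congr 1
      push_cast
      ring
    rw [h4, neg_pow (Real.exp (-t)), one_pow]
    ring
  rw [Finset.sum_congr rfl h3, ← Finset.sum_mul, ← add_pow]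
  congr 2
  ring

theorem nu1_pt_fac {t : ℝ} (ht : 0 < t) (p : ℕ) : 0 ≤ (1 - Real.exp (-t)) ^ p := by
  have h1 : Real.exp (-t) < 1 := Real.exp_lt_one_iff.2 (by linarith)
  exact pow_nonneg (by linarith) _

theorem pt_pos (H : Hb p h) {t : ℝ} (ht : 0 < t) : 0 ≤ Pt (kp p h) t := by
  rw [pt_eq H ht]
  refine mul_nonneg (nu1_pt_fac ht p) (tsum_nonneg fun n => mul_nonneg ?_ (Real.exp_pos _).le)
  exact_mod_cast H.nn n

theorem pt_le (H : Hb p h) (H' : Hb p h') {ι : Type*} (s : Finset ι) (a : ι → ℤ)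
    (hle : ∀ n, h' n ≤ ∑ i ∈ s, h (n + a i)) {t : ℝ} (ht : 0 < t) :
    Pt (kp p h') t ≤ (∑ i ∈ s, Real.exp (t * a i)) * Pt (kp p h) t := by
  have hs := h_sum H ht
  rw [pt_eq H' ht, pt_eq H ht]
  have h1 : ∀ i ∈ s, Summable (fun n : ℤ => (h (n - -a i) : ℝ) * Real.exp (-(t * n))) :=
    fun i _ => (nu1_exp_shift_summable hs (-a i)).1
  have h2 : ∑' n : ℤ, (h' n : ℝ) * Real.exp (-(t * n)) ≤
      ∑' n : ℤ, ∑ i ∈ s, (h (n - -a i) : ℝ) * Real.exp (-(t * n)) := by
    refine Summable.tsum_le_tsum ?_ (h_sum H' ht) (summable_sum h1)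
    intro n
    rw [← Finset.sum_mul]
    refine mul_le_mul_of_nonneg_right ?_ (Real.exp_pos _).le
    have h3 := hle n
    have h4 : ∀ i ∈ s, h (n + a i) = h (n - -a i) := fun i _ => by rw [sub_neg_eq_add]
    rw [Finset.sum_congr rfl h4] at h3
    exact_mod_cast h3
  have h5 : ∑' n : ℤ, ∑ i ∈ s, (h (n - -a i) : ℝ) * Real.exp (-(t * n)) =
      (∑ i ∈ s, Real.exp (t * a i)) * ∑' n : ℤ, (h n : ℝ) * Real.exp (-(t * n)) := by
    rw [Summable.tsum_finsetSum h1, Finset.sum_mul]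
    refine Finset.sum_congr rfl fun i _ => ?_
    rw [(nu1_exp_shift_summable hs (-a i)).2]
    congr 2
    push_cast
    ring
  rw [h5] at h2
  calc (1 - Real.exp (-t)) ^ p * ∑' n : ℤ, (h' n : ℝ) * Real.exp (-(t * n)) ≤
      (1 - Real.exp (-t)) ^ p * ((∑ i ∈ s, Real.exp (t * a i)) *
        ∑' n : ℤ, (h n : ℝ) * Real.exp (-(t * n))) := mul_le_mul_of_nonneg_left h2 (nu1_pt_fac ht p)
    _ = _ := by ring

end MSA
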