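import Mathlib
import Pool.Agent.MSA.Nu1

/-!
# Moments

PROOFS: see the header of `MSA/Nu1`.
-/

set_option autoImplicit false

noncomputable section

namespace MSA

open Filter Topology

variable {p : ℕ} {h h' : ℤ → ℤ} {κ κ' : ℤ → ℤ}

private theorem supp_mul_pow (κ : ℤ → ℤ) (j : ℕ) :
    (Function.support fun n : ℤ => κ n * n ^ j) ⊆ Function.support κ := by
  intro n hn hk
  apply hn
  show κ n * n ^ j = 0
  rw [hk, zero_mul]

private theorem mo_eq_sum {κ : ℤ → ℤ} {s : Finset ℤ} (hs : Function.support κ ⊆ ↑s) (j : ℕ) :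
    mo κ j = ∑ n ∈ s, κ n * n ^ j :=
  finsum_eq_sum_of_support_subset _ ((supp_mul_pow κ j).trans hs)

private theorem pt_eq_sum {κ : ℤ → ℤ} {s : Finset ℤ} (hs : Function.support κ ⊆ ↑s) (t : ℝ) :
    Pt κ t = ∑ m ∈ s, (κ m : ℝ) * Real.exp (-(t * m)) := by
  refine finsum_eq_sum_of_support_subset _ (Set.Subset.trans ?_ hs)
  intro n hn hk
  apply hn
  show (κ n : ℝ) * Real.exp (-(t * n)) = 0
  rw [hk, Int.cast_zero, zero_mul]

theorem mo_add (hk : (Function.support κ).Finite) (hk' : (Function.support κ').Finite) (j : ℕ) :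
    mo (κ + κ') j = mo κ j + mo κ' j := by
  have h1 : Function.support κ ⊆ ↑(hk.toFinset ∪ hk'.toFinset) := by
    intro n hn
    simp only [Finset.coe_union, Set.Finite.coe_toFinset, Set.mem_union]
    exact Or.inl hn
  have h2 : Function.support κ' ⊆ ↑(hk.toFinset ∪ hk'.toFinset) := by
    intro n hn
    simp only [Finset.coe_union, Set.Finite.coe_toFinset, Set.mem_union]
    exact Or.inr hn
  have h3 : Function.support (κ + κ') ⊆ ↑(hk.toFinset ∪ hk'.toFinset) := by
    refine (Function.support_add κ κ').trans ?_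
    exact Set.union_subset h1 h2
  rw [mo_eq_sum h1, mo_eq_sum h2, mo_eq_sum h3, ← Finset.sum_add_distrib]
  refine Finset.sum_congr rfl fun n _ => ?_
  simp only [Pi.add_apply]
  ring

theorem mo_neg (j : ℕ) : mo (-κ) j = - mo κ j := by
  unfold mo
  rw [← finsum_neg_distrib]
  refine finsum_congr fun n => ?_
  simp only [Pi.neg_apply]
  ring

theorem pt_lim (hk : (Function.support κ).Finite) (c : ℕ) (hm : ∀ j < c, mo κ j = 0) :
    Tendsto (fun t : ℝ => Pt κ t / t ^ c) (𝓝[>] 0)
      (𝓝 ((-1) ^ c * (mo κ c : ℝ) / (c.factorial : ℝ))) := by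
  have hs : Function.support κ ⊆ ↑hk.toFinset := by simp
  -- the remainders
  have hR : ∀ m : ℤ, Tendsto (fun t : ℝ => (Real.exp (-(t * m)) -
      ∑ i ∈ Finset.range (c + 1), (-(t * m)) ^ i / (i.factorial : ℝ)) / t ^ c) (𝓝[>] 0) (𝓝 0) := by
    intro m
    have h1 : Tendsto (fun t : ℝ => -(t * m)) (𝓝 0) (𝓝 0) := by
      have h2 : Continuous fun t : ℝ => -(t * m) := by fun_prop
      have h3 := h2.tendsto 0
      simpa using h3
    have h2 := (Real.exp_sub_sum_range_succ_isLittleO_pow c).comp_tendsto h1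
    have h3 : (fun t : ℝ => (-(t * m)) ^ c) =O[𝓝 0] fun t : ℝ => t ^ c := by
      have h4 : (fun t : ℝ => (-(t * m)) ^ c) = fun t : ℝ => (-(m : ℝ)) ^ c * t ^ c := by
        funext t
        rw [← mul_pow]
        ring
      rw [h4]
      exact Asymptotics.isBigO_const_mul_self _ _ _
    have h4 := h2.trans_isBigO h3
    exact (h4.tendsto_div_nhds_zero).mono_left nhdsWithin_le_nhds
  -- the main term
  have hmain : ∀ t : ℝ, ∑ m ∈ hk.toFinset, (κ m : ℝ) *
      ∑ i ∈ Finset.range (c + 1), (-(t * m)) ^ i / (i.factorial : ℝ) =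
      (-1) ^ c * (mo κ c : ℝ) / (c.factorial : ℝ) * t ^ c := by
    intro t
    have h1 : ∑ m ∈ hk.toFinset, (κ m : ℝ) *
        ∑ i ∈ Finset.range (c + 1), (-(t * m)) ^ i / (i.factorial : ℝ) =
        ∑ i ∈ Finset.range (c + 1), (-t) ^ i / (i.factorial : ℝ) * (mo κ i : ℝ) := by
      simp only [Finset.mul_sum]
      rw [Finset.sum_comm]
      refine Finset.sum_congr rfl fun i _ => ?_
      rw [mo_eq_sum hs, Int.cast_sum, Finset.mul_sum]
      refine Finset.sum_congr rfl fun m _ => ?_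
      push_cast
      have h2 : (-(t * (m : ℝ))) ^ i = (-t) ^ i * (m : ℝ) ^ i := by
        rw [← mul_pow]
        ring
      rw [h2]
      ring
    rw [h1, Finset.sum_range_succ, Finset.sum_eq_zero, zero_add]
    · have h2 : (-t) ^ c = (-1) ^ c * t ^ c := by
        rw [← mul_pow]
        ring
      rw [h2]
      ring
    · intro i hi
      rw [hm i (Finset.mem_range.1 hi), Int.cast_zero, mul_zero]
  have heq : ∀ᶠ t : ℝ in 𝓝[>] 0, ∑ m ∈ hk.toFinset, (κ m : ℝ) * ((Real.exp (-(t * m)) -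
      ∑ i ∈ Finset.range (c + 1), (-(t * m)) ^ i / (i.factorial : ℝ)) / t ^ c) +
      (-1) ^ c * (mo κ c : ℝ) / (c.factorial : ℝ) = Pt κ t / t ^ c := by
    filter_upwards [self_mem_nhdsWithin] with t ht
    have ht0 : t ^ c ≠ 0 := pow_ne_zero _ (ne_of_gt ht)
    rw [pt_eq_sum hs]
    have h1 : (-1) ^ c * (mo κ c : ℝ) / (c.factorial : ℝ) =
        (∑ m ∈ hk.toFinset, (κ m : ℝ) *
          ∑ i ∈ Finset.range (c + 1), (-(t * m)) ^ i / (i.factorial : ℝ)) / t ^ c := by
      rw [hmain t, eq_div_iff ht0]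
    rw [h1, Finset.sum_div, Finset.sum_div, ← Finset.sum_add_distrib]
    refine Finset.sum_congr rfl fun m _ => ?_
    ring
  refine Tendsto.congr' heq ?_
  have h1 : Tendsto (fun t : ℝ => ∑ m ∈ hk.toFinset, (κ m : ℝ) * ((Real.exp (-(t * m)) -
      ∑ i ∈ Finset.range (c + 1), (-(t * m)) ^ i / (i.factorial : ℝ)) / t ^ c)) (𝓝[>] 0)
      (𝓝 (∑ m ∈ hk.toFinset, (κ m : ℝ) * 0)) :=
    tendsto_finsetSum _ fun m _ => (hR m).const_mul _
  have h2 := h1.add_const ((-1) ^ c * (mo κ c : ℝ) / (c.factorial : ℝ))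
  simpa using h2

theorem mo_nonneg (H : Hb p h) (c : ℕ) (hm : ∀ j < c, mo (kp p h) j = 0) :
    0 ≤ (-1) ^ c * mo (kp p h) c := by
  have h1 := pt_lim H.fin c hm
  have h2 : 0 ≤ (-1) ^ c * (mo (kp p h) c : ℝ) / (c.factorial : ℝ) := by
    refine ge_of_tendsto h1 ?_
    filter_upwards [self_mem_nhdsWithin] with t ht
    exact div_nonneg (pt_pos H ht) (pow_nonneg (le_of_lt ht) _)
  have h3 : (0 : ℝ) < (c.factorial : ℝ) := by exact_mod_cast c.factorial_pos
  have h4 : 0 ≤ (-1) ^ c * (mo (kp p h) c : ℝ) := by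
    have h5 := mul_nonneg h2 h3.le
    rwa [div_mul_cancel₀ _ h3.ne'] at h5
  exact_mod_cast h4

theorem mo_van (H : Hb p h) (H' : Hb p h') {ι : Type*} (s : Finset ι) (a : ι → ℤ)
    (hle : ∀ n, h' n ≤ ∑ i ∈ s, h (n + a i)) (c : ℕ) (hm : ∀ j < c, mo (kp p h) j = 0) :
    ∀ j < c, mo (kp p h') j = 0 := by
  intro j
  induction j using Nat.strong_induction_on with
  | _ j ih =>
  intro hj
  have h1 := pt_lim H'.fin j (fun i hi => ih i hi (hi.trans hj))
  have h2 : Tendsto (fun t : ℝ => Pt (kp p h') t / t ^ j) (𝓝[>] 0) (𝓝 0) := by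
    have h3 := pt_lim H.fin c hm
    have h4 : Tendsto (fun t : ℝ => (∑ i ∈ s, Real.exp (t * a i)) * t ^ (c - j)) (𝓝[>] 0)
        (𝓝 0) := by
      have h5 : Continuous fun t : ℝ => (∑ i ∈ s, Real.exp (t * a i)) * t ^ (c - j) := by
        fun_prop
      have h6 := h5.tendsto 0
      have h7 : (0 : ℝ) ^ (c - j) = 0 := zero_pow (by omega)
      simp only [h7, mul_zero] at h6
      exact h6.mono_left nhdsWithin_le_nhds
    have h5 := h4.mul h3
    rw [zero_mul] at h5
    refine squeeze_zero' ?_ ?_ h5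
    · filter_upwards [self_mem_nhdsWithin] with t ht
      exact div_nonneg (pt_pos H' ht) (pow_nonneg (le_of_lt ht) _)
    · filter_upwards [self_mem_nhdsWithin] with t ht
      have ht' : (0 : ℝ) < t := ht
      have h6 := pt_le H H' s a hle ht'
      have h7 : t ^ c = t ^ (c - j) * t ^ j := by
        rw [← pow_add]
        congr 1
        omega
      rw [div_le_iff₀ (pow_pos ht' _)]
      refine h6.trans (le_of_eq ?_)
      rw [h7]
      have h8 : t ^ (c - j) ≠ 0 := pow_ne_zero _ ht'.ne'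
      have h9 : t ^ j ≠ 0 := pow_ne_zero _ ht'.ne'
      field_simp
  have h3 := tendsto_nhds_unique h1 h2
  have h4 : (0 : ℝ) < (j.factorial : ℝ) := by exact_mod_cast j.factorial_pos
  rw [div_eq_zero_iff] at h3
  rcases h3 with h3 | h3
  · rcases mul_eq_zero.1 h3 with h5 | h5
    · exact absurd h5 (pow_ne_zero _ (by norm_num))
    · exact_mod_cast h5
  · exact absurd h3 h4.ne'

private theorem fin_of_mo (H : Hb p h) (hm : ∀ j < p, mo (kp p h) j = 0) :
    ∃ n₁ : ℤ, ∀ n > n₁, h n = 0 := by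
  rcases Nat.eq_zero_or_pos p with rfl | hp
  · have h1 : ∀ n, kp 0 h n = h n := fun n => by simp [kp]
    have h2 := H.fin.bddAbove
    obtain ⟨N, hN⟩ := h2
    refine ⟨N, fun n hn => ?_⟩
    by_contra hne
    have h3 : n ∈ Function.support (kp 0 h) := by
      rw [Function.mem_support, h1]
      exact hne
    exact absurd (hN h3) (not_le.2 hn)
  · obtain ⟨N, hN⟩ := H.fin.bddAbove
    refine ⟨N, fun n hn => ?_⟩
    obtain ⟨k, rfl⟩ : ∃ k, p = k + 1 := ⟨p - 1, by omega⟩
    have hs : Function.support (kp (k + 1) h) ⊆ ↑H.fin.toFinset := by simp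
    -- the polynomial in `m`
    set P : Polynomial ℤ :=
      (ascPochhammer ℤ k).comp (Polynomial.C (n + 1) - Polynomial.X) with hP
    have hdeg : P.natDegree < k + 1 := by
      have h1 : (Polynomial.C (n + 1) - Polynomial.X : Polynomial ℤ).natDegree ≤ 1 := by
        refine (Polynomial.natDegree_sub_le _ _).trans ?_
        rw [Polynomial.natDegree_C, Polynomial.natDegree_X]
        exact le_of_eq (by simp)
      have h2 : P.natDegree ≤ k * 1 := by
        rw [hP]
        refine Polynomial.natDegree_comp_le.trans ?_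
        rw [ascPochhammer_natDegree]
        exact Nat.mul_le_mul_left _ h1
      omega
    have hval : ∀ m ∈ H.fin.toFinset, (k.factorial : ℤ) *
        (if m ≤ n then (((n - m).toNat + (k + 1) - 1).choose (k + 1 - 1) : ℤ) else 0) =
        P.eval m := by
      intro m hmem
      have hle : m ≤ n := by
        have h1 : m ∈ Function.support (kp (k + 1) h) := by simpa using hmem
        exact (hN h1).trans hn.le
      rw [if_pos hle]
      have h2 : (n - m).toNat + (k + 1) - 1 = (n - m).toNat + k := by omega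
      have h3 : k + 1 - 1 = k := by omega
      rw [h2, h3]
      have h4 := Nat.ascFactorial_eq_factorial_mul_choose (n - m).toNat k
      have h5 : ((((n - m).toNat + 1).ascFactorial k : ℕ) : ℤ) =
          (ascPochhammer ℤ k).eval (((n - m).toNat + 1 : ℕ) : ℤ) :=
        (ascPochhammer_nat_eq_natCast_ascFactorial ℤ _ _).symm
      rw [h4] at h5
      push_cast at h5
      rw [h5, hP, Polynomial.eval_comp]
      congr 1
      simp only [Polynomial.eval_sub, Polynomial.eval_C, Polynomial.eval_X]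
      have h6 : ((n - m).toNat : ℤ) = n - m := Int.toNat_of_nonneg (by omega)
      rw [h6]
      ring
    have h1 := kp_inv hp H n
    have h2 : (k.factorial : ℤ) * h n = 0 := by
      rw [h1, Finset.mul_sum]
      have h3 : ∀ m ∈ H.fin.toFinset, (k.factorial : ℤ) * (kp (k + 1) h m *
          (if m ≤ n then (((n - m).toNat + (k + 1) - 1).choose (k + 1 - 1) : ℤ) else 0)) =
          ∑ i ∈ Finset.range (k + 1), P.coeff i * (kp (k + 1) h m * m ^ i) := by
        intro m hmem
        have h4 : (k.factorial : ℤ) * (kp (k + 1) h m *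
          (if m ≤ n then (((n - m).toNat + (k + 1) - 1).choose (k + 1 - 1) : ℤ) else 0)) =
          kp (k + 1) h m * ((k.factorial : ℤ) *
          (if m ≤ n then (((n - m).toNat + (k + 1) - 1).choose (k + 1 - 1) : ℤ) else 0)) := by
          ring
        rw [h4, hval m hmem, Polynomial.eval_eq_sum_range' hdeg, Finset.mul_sum]
        refine Finset.sum_congr rfl fun i _ => ?_
        ring
      rw [Finset.sum_congr rfl h3, Finset.sum_comm]
      refine Finset.sum_eq_zero fun i hi => ?_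
      rw [← Finset.mul_sum, ← mo_eq_sum hs, hm i (Finset.mem_range.1 hi), mul_zero]
    rcases mul_eq_zero.1 h2 with h3 | h3
    · exact absurd h3 (by exact_mod_cast k.factorial_ne_zero)
    · exact h3

private theorem binom_zero (p j : ℕ) (hj : j < p) (m : ℤ) :
    ∑ i ∈ Finset.range (p + 1), (-1) ^ i * (p.choose i : ℤ) * (m + i) ^ j = 0 := by
  have h1 := congrFun (fwdDiff_iter_pow_eq_zero_of_lt (R := ℤ) hj) m
  rw [fwdDiff_iter_eq_sum_shift] at h1
  have h2 : ∑ i ∈ Finset.range (p + 1), (-1) ^ i * (p.choose i : ℤ) * (m + i) ^ j =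
      (-1) ^ p * ∑ k ∈ Finset.range (p + 1),
        ((-1 : ℤ) ^ (p - k) * p.choose k) • (m + k • (1 : ℤ)) ^ j := by
    rw [Finset.mul_sum]
    refine Finset.sum_congr rfl fun i hi => ?_
    have hi' : i ≤ p := Nat.lt_succ_iff.1 (Finset.mem_range.1 hi)
    have h3 : (-1 : ℤ) ^ i = (-1) ^ p * (-1) ^ (p - i) := by
      rw [← pow_add]
      have h4 : p + (p - i) = i + 2 * (p - i) := by omega
      rw [h4, pow_add, pow_mul]
      simp
    rw [h3]
    simp only [smul_eq_mul, nsmul_eq_mul, mul_one]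
    ring
  rw [h2]
  have h3 : ∑ k ∈ Finset.range (p + 1),
        ((-1 : ℤ) ^ (p - k) * p.choose k) • (m + k • (1 : ℤ)) ^ j = 0 := h1
  rw [h3, mul_zero]

private theorem mo_of_fin (H : Hb p h) (n₁ : ℤ) (hn : ∀ n > n₁, h n = 0) :
    ∀ j < p, mo (kp p h) j = 0 := by
  intro j hj
  obtain ⟨n₀, hn₀⟩ := H.bd
  have hsup : Function.support h ⊆ ↑(Finset.Icc n₀ n₁) := by
    intro n hne
    rw [Finset.coe_Icc]
    constructor
    · by_contra hlt
      exact hne (hn₀ n (not_le.1 hlt))
    · by_contra hlt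
      exact hne (hn n (not_le.1 hlt))
  have h1 : ∀ i : ℕ, (Function.support fun n : ℤ =>
      (-1) ^ i * (p.choose i : ℤ) * h (n - i) * n ^ j).Finite := by
    intro i
    refine (Finset.Icc (n₀ + i) (n₁ + i)).finite_toSet.subset ?_
    intro n hne
    have h2 : h (n - i) ≠ 0 := by
      intro h0
      apply hne
      show (-1) ^ i * (p.choose i : ℤ) * h (n - i) * n ^ j = 0
      rw [h0]
      ring
    have h3 := hsup h2
    rw [Finset.coe_Icc] at h3 ⊢
    constructor
    · have := h3.1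
      omega
    · have := h3.2
      omega
  have h2 : mo (kp p h) j = ∑ i ∈ Finset.range (p + 1), ∑ᶠ n : ℤ,
      (-1) ^ i * (p.choose i : ℤ) * h (n - i) * n ^ j := by
    unfold mo
    rw [← finsum_sum_comm]
    · refine finsum_congr fun n => ?_
      unfold kp
      rw [Finset.sum_mul]
    · exact fun i _ => h1 i
  have h3 : ∀ i : ℕ, ∑ᶠ n : ℤ, (-1) ^ i * (p.choose i : ℤ) * h (n - i) * n ^ j =
      ∑ m ∈ Finset.Icc n₀ n₁, h m * ((-1) ^ i * (p.choose i : ℤ) * (m + i) ^ j) := by
    intro i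
    have h4 : ∑ᶠ n : ℤ, (-1) ^ i * (p.choose i : ℤ) * h (n - i) * n ^ j =
        ∑ᶠ m : ℤ, (-1) ^ i * (p.choose i : ℤ) * h m * (m + i) ^ j := by
      have h5 := finsum_comp_equiv (Equiv.subRight (i : ℤ))
        (f := fun m : ℤ => (-1) ^ i * (p.choose i : ℤ) * h m * (m + i) ^ j)
      rw [← h5]
      refine finsum_congr fun n => ?_
      simp only [Equiv.subRight_apply, sub_add_cancel]
    rw [h4, finsum_eq_sum_of_support_subset (s := Finset.Icc n₀ n₁)]
    · refine Finset.sum_congr rfl fun m _ => ?_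
      ring
    · refine Set.Subset.trans ?_ hsup
      intro m hne h0
      apply hne
      show (-1) ^ i * (p.choose i : ℤ) * h m * (m + i) ^ j = 0
      rw [h0]
      ring
  rw [h2, Finset.sum_congr rfl fun i _ => h3 i, Finset.sum_comm]
  refine Finset.sum_eq_zero fun m _ => ?_
  rw [← Finset.mul_sum, binom_zero p j hj m, mul_zero]

theorem fin_iff (H : Hb p h) :
    (∀ j < p, mo (kp p h) j = 0) ↔ ∃ n₁ : ℤ, ∀ n > n₁, h n = 0 :=
  ⟨fin_of_mo H, fun ⟨n₁, hn⟩ => mo_of_fin H n₁ hn⟩

theorem mo_shift (hk : (Function.support κ).Finite) (a : ℤ) (c : ℕ) (hm : ∀ j < c, mo κ j = 0) :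
    (∀ j < c, mo (fun n => κ (n - a)) j = 0) ∧ mo (fun n => κ (n - a)) c = mo κ c := by
  have hs : Function.support κ ⊆ ↑hk.toFinset := by simp
  have h1 : ∀ j : ℕ, mo (fun n => κ (n - a)) j =
      ∑ i ∈ Finset.range (j + 1), (j.choose i : ℤ) * a ^ (j - i) * mo κ i := by
    intro j
    have h2 : mo (fun n => κ (n - a)) j = ∑ᶠ m : ℤ, κ m * (m + a) ^ j := by
      unfold mo
      rw [← finsum_comp_equiv (Equiv.subRight a) (f := fun m : ℤ => κ m * (m + a) ^ j)]
      refine finsum_congr fun n => ?_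
      simp only [Equiv.subRight_apply, sub_add_cancel]
    rw [h2, finsum_eq_sum_of_support_subset (s := hk.toFinset)]
    · have h3 : ∀ m ∈ hk.toFinset, κ m * (m + a) ^ j =
          ∑ i ∈ Finset.range (j + 1), (j.choose i : ℤ) * a ^ (j - i) * (κ m * m ^ i) := by
        intro m _
        rw [add_pow, Finset.mul_sum]
        refine Finset.sum_congr rfl fun i _ => ?_
        ring
      rw [Finset.sum_congr rfl h3, Finset.sum_comm]
      refine Finset.sum_congr rfl fun i _ => ?_
      rw [← Finset.mul_sum, ← mo_eq_sum hs]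
    · refine Set.Subset.trans ?_ hs
      intro m hne h0
      apply hne
      show κ m * (m + a) ^ j = 0
      rw [h0, zero_mul]
  constructor
  · intro j hj
    rw [h1 j]
    refine Finset.sum_eq_zero fun i hi => ?_
    have hi' : i < j + 1 := Finset.mem_range.1 hi
    rw [hm i (by omega), mul_zero]
  · rw [h1 c, Finset.sum_range_succ, Finset.sum_eq_zero, zero_add]
    · simp
    · intro i hi
      rw [hm i (Finset.mem_range.1 hi), mul_zero]

end MSA
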