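import Mathlib
import Pool.Agent.MSA.ChA

/-!
# Euler characteristic

PROOFS. `range f` of a linear map is a quotient of the source and a submodule of the target. `X.H0` is the
quotient of `ker d0` by `(range d1).submoduleOf (ker d0)`, and `(range d1).submoduleOf (ker d0) ≃ range d1` because
`range d1 ≤ ker d0` (`h01`; `Submodule.submoduleOfEquivOfLe`). So (for modules in the class)
`e (ker d0) = e (range d1) + e H0`, `e X0 = e (ker d0) + e (range d0)` (`adf_ses` for `d0 : X0 → range d0`), and the
same with `0`, `1` exchanged: `e X0 - e X1 = e H0 - e H1`.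
-/

set_option autoImplicit false

noncomputable section

namespace MSA

universe u v w

variable {R : Type w} [Ring R] {C : Cls.{u} R} {A : Type v} [AddCommGroup A] (e : Adf C A)

theorem cls_H0 (X : Ch.{u} R) (h0 : C.P X.X0) : C.P X.H0 :=
  C.quo _ (C.sub _ h0)

theorem cls_H1 (X : Ch.{u} R) (h1 : C.P X.X1) : C.P X.H1 :=
  C.quo _ (C.sub _ h1)

/-- rank formula for a linear map from a module of the class -/
theorem e_ker_range {M N : Type u} [AddCommGroup M] [AddCommGroup N] [Module R M] [Module R N]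
    (f : M →ₗ[R] N) (hM : C.P M) :
    e.e M = e.e (LinearMap.ker f) + e.e (LinearMap.range f) := by
  rw [e.add (LinearMap.ker f) hM, e.iso f.quotKerEquivRange (C.quo _ hM)]

/-- the value of the homology -/
theorem e_hm {X Y Z : Type u} [AddCommGroup X] [AddCommGroup Y]
    [AddCommGroup Z] [Module R X] [Module R Y] [Module R Z] (g : X →ₗ[R] Y) (f : Y →ₗ[R] Z)
    (h : ∀ x, f (g x) = 0) (hY : C.P Y) :
    e.e (LinearMap.ker f) = e.e (LinearMap.range g) + e.e (Hm g f) := by
  have hle : LinearMap.range g ≤ LinearMap.ker f := by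
    rintro _ ⟨x, rfl⟩
    exact h x
  have h1 := e.add ((LinearMap.range g).submoduleOf (LinearMap.ker f)) (C.sub _ hY)
  have h2 := e.iso (Submodule.submoduleOfEquivOfLe hle) (C.sub _ (C.sub _ hY))
  rw [h1, h2]

theorem chi_eq (X : Ch.{u} R) (h0 : C.P X.X0) (h1 : C.P X.X1) :
    X.chi e = e.e X.X0 - e.e X.X1 := by
  have a0 := e_ker_range e X.d0 h0
  have a1 := e_ker_range e X.d1 h1
  have b0 := e_hm e X.d1 X.d0 X.h01 h0
  have b1 := e_hm e X.d0 X.d1 X.h10 h1
  show e.e (Hm X.d1 X.d0) - e.e (Hm X.d0 X.d1) = _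
  rw [a0, a1, b0, b1]
  abel

end MSA
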