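import Mathlib
import Pool.Agent.MSA.HsA
import Pool.Agent.MSA.HfG
import Pool.Agent.MSA.PwEu
import Pool.Agent.MSA.Nu2

/-!
# The theorem of Hilbert and Serre

PROOFS. `fin_of_killed`: take `G : D.Gens M`; for `n` different from all `G.d i` every `x ∈ wt M n` is
`∑ iot (f i) • g i` with `f i` homogeneous of degree `(n - d i).toNat > 0` or `f i = 0`; a homogeneous polynomial of
positive degree is a sum of multiples of variables (every monomial of its support is divisible by a
variable), so it kills `g i`: `x = 0`, `wt M n = ⊥`, `hf M n = 0` (`hf_eq_zero`, `IsG.isW`).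
`kap_eu`: `kap_part` and `chi_eq` (MSA/PwEu) for `X = D.kV.ch M`, `e = D.hfA n`, class `D.cW`
(`isW_tot`, `isW_sub`).
`kapFin`: `kap_eu`; `H0`, `H1` are `IsG` (`hom_fin0`, `hom_fin1` for `fin`, and `IsW.wts` from `cls_H0`, `cls_H1` for the
class `D.cW`), killed by the variables (`hom_y0`, `hom_y1`): `fin_of_killed`; the support of the difference is
contained in the union.
`hb`: nonnegativity is clear, bounded below by `h.isW.bd` and `hf_eq_zero`, finite support by `kapFin`.
-/

set_option autoImplicit false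
set_option linter.unusedSectionVars false

noncomputable section

namespace MSA

universe u v w

open MvPolynomial

namespace Dat

variable (D : Dat.{u})

variable {M : Type u} [AddCommGroup M] [Module D.R M]

private theorem hs_kill (hX : ∀ (i : Fin D.p) (m : M), iot D.ph (MvPolynomial.X i) • m = 0) {f : D.S} {k : ℕ}
    (hf : f.IsHomogeneous k) (hk : k ≠ 0) (m : M) : iot D.ph f • m = 0 := by
  have h1 : Ideal.span (MvPolynomial.X '' (Set.univ : Set (Fin D.p))) ≤ D.annI m := by
    rw [Ideal.span_le]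
    rintro _ ⟨i, -, rfl⟩
    exact hX i m
  have h2 : f ∈ Ideal.span (MvPolynomial.X '' (Set.univ : Set (Fin D.p))) := by
    rw [MvPolynomial.mem_ideal_span_X_image]
    intro d hd
    have h5 := hf.degree_eq_sum_deg_support hd
    by_contra hc
    push Not at hc
    apply hk
    rw [h5]
    exact Finset.sum_eq_zero fun i _ => hc i (Set.mem_univ i)
  exact h1 h2

theorem fin_of_killed (h : D.IsG M)
    (hX : ∀ (i : Fin D.p) (m : M), iot D.ph (MvPolynomial.X i) • m = 0) : {n : ℤ | D.hf M n ≠ 0}.Finite := by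
  obtain ⟨G⟩ := D.gens h
  refine (Set.finite_range G.d).subset fun n hn => ?_
  by_contra hc
  apply hn
  rw [D.hf_eq_zero h.isW]
  rw [eq_bot_iff]
  intro x hx
  obtain ⟨f, f1, f2, f3⟩ := G.hom n x hx
  rw [AddSubgroup.mem_bot, f3]
  refine Finset.sum_eq_zero fun i _ => ?_
  rcases lt_trichotomy n (G.d i) with hlt | heq | hgt
  · rw [f2 i hlt, map_zero, zero_smul]
  · exact absurd ⟨i, heq.symm⟩ hc
  · exact D.hs_kill hX (f1 i) (by omega) (G.g i)

theorem kap_eu (h : D.IsW M) (n : ℤ) :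
    D.kap M n = (D.hf (D.kV.ch M).H0 n : ℤ) - D.hf (D.kV.ch M).H1 n := by
  rw [D.kap_part h]
  exact (chi_eq (C := D.cW) (D.hfA n) (D.kV.ch M) (D.isW_sub (D.isW_tot h) _)
    (D.isW_sub (D.isW_tot h) _)).symm

theorem IsG.kapFin {D : Dat.{u}} {M : Type u} [AddCommGroup M] [Module D.R M] (h : D.IsG M) :
    {n : ℤ | D.kap M n ≠ 0}.Finite := by
  have i1 : IsNoetherianRing D.S := MvPolynomial.isNoetherianRing
  have w0 : D.IsW (D.kV.ch M).X0 := D.isW_sub (D.isW_tot h.isW) _
  have w1 : D.IsW (D.kV.ch M).X1 := D.isW_sub (D.isW_tot h.isW) _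
  have c0 : D.IsW (D.kV.ch M).H0 := cls_H0 (C := D.cW) (D.kV.ch M) w0
  have c1 : D.IsW (D.kV.ch M).H1 := cls_H1 (C := D.cW) (D.kV.ch M) w1
  have g0 : D.IsG (D.kV.ch M).H0 := ⟨hom_fin0 D.kV h.fin, c0.wts⟩
  have g1 : D.IsG (D.kV.ch M).H1 := ⟨hom_fin1 D.kV h.fin, c1.wts⟩
  have f0 := D.fin_of_killed g0 (fun i m => hom_y0 D.kV i m)
  have f1 := D.fin_of_killed g1 (fun i m => hom_y1 D.kV i m)
  refine (f0.union f1).subset fun n hn => ?_
  by_contra hc
  apply hn
  rw [Set.mem_union, not_or] at hc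
  have e0 : D.hf (D.kV.ch M).H0 n = 0 := by
    by_contra hh
    exact hc.1 hh
  have e1 : D.hf (D.kV.ch M).H1 n = 0 := by
    by_contra hh
    exact hc.2 hh
  rw [D.kap_eu h.isW, e0, e1]
  simp

/-- the Hilbert function as a numerical function -/
theorem hb (h : D.IsG M) : Hb D.p (fun n => (D.hf M n : ℤ)) := by
  refine ⟨fun n => Int.natCast_nonneg _, ?_, h.kapFin⟩
  obtain ⟨n₀, hn₀⟩ := h.isW.bd
  refine ⟨n₀, fun n hn => ?_⟩
  show (D.hf M n : ℤ) = 0
  rw [(D.hf_eq_zero h.isW n).2 (hn₀ n hn)]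
  rfl

theorem kap_kp (n : ℤ) : D.kap M n = kp D.p (fun n => (D.hf M n : ℤ)) n := rfl

theorem mom_mo (j : ℕ) : D.mom M j = mo (kp D.p (fun n => (D.hf M n : ℤ))) j := rfl

end Dat

end MSA
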