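import Mathlib
import Pool.Agent.MSA.Hs

/-!
# Moments of graded modules, the classes `IsA c`

PROOFS. `mom_mo` and `hb`: everything is a statement of MSA/Nu1, MSA/Nu2 for `h n = hf M n`.
`mom_iso`: `hf_iso` (`funext`). `mom_add`: `hf_add`, `kp_add`, `mo_add` (`hb.fin`). `mom_ses`: `hf_ses` in the same
way. `kap_tw`: `hf_tw`, `kp_shift`. `isA_ext`: `mom_add`. `isA_le`: `mo_van` (cast the inequality to `ℤ`).
`isA_sub`, `isA_quo`: `isA_le` with one index (`Finset.univ : Finset Unit`, `a = 0`), `hf_sub_le`, `hf_quo_le`.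
`isA_prod`: `isG_prod`, moments add (`hf_prod`, `kp_add`, `mo_add`). `isA_iso`, `isA_zero`: clear (`mom_zero` in MSA/DvD).
`E_nonneg`: `mo_nonneg`. `isA_succ`: clear. `mom_tw`, `isA_tw`: `kap_tw` and `mo_shift` (for `IsA M c` and every `j ≤ c`
apply it to `isA_mono`). `isA_p_iff`: `fin_iff` (`hf M n = 0` in `ℕ` iff in `ℤ`).
-/

set_option autoImplicit false
set_option linter.unusedSectionVars false

noncomputable section

namespace MSA

universe u v w

namespace Dat

variable (D : Dat.{u})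

variable {M M' : Type u} [AddCommGroup M] [Module D.R M] [AddCommGroup M'] [Module D.R M']

theorem kap_iso (e : M ≃ₗ[D.R] M') (n : ℤ) : D.kap M n = D.kap M' n := by
  unfold kap
  refine Finset.sum_congr rfl fun j _ => ?_
  rw [D.hf_iso e]

theorem mom_iso (e : M ≃ₗ[D.R] M') (j : ℕ) : D.mom M j = D.mom M' j := by
  have h : D.kap M = D.kap M' := funext fun n => D.kap_iso e n
  unfold mom
  rw [h]

theorem mom_add (hM : D.IsG M) (N : Submodule D.R M) (j : ℕ) :
    D.mom M j = D.mom N j + D.mom (M ⧸ N) j := by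
  rw [D.mom_mo, D.mom_mo, D.mom_mo, ← mo_add (D.hb (D.isG_sub hM N)).fin
    (D.hb (D.isG_quo hM N)).fin]
  congr 1
  funext n
  rw [Pi.add_apply, ← kp_add]
  congr 1
  funext k
  rw [Pi.add_apply, D.hf_add hM.isW N k, Nat.cast_add]

theorem mom_ses {K : Type u} [AddCommGroup K] [Module D.R K] (hM : D.IsG M) (i : K →ₗ[D.R] M)
    (q : M →ₗ[D.R] M') (hi : Function.Injective i) (hq : Function.Surjective q)
    (h : ∀ m, q m = 0 ↔ ∃ k, i k = m) (j : ℕ) : D.mom M j = D.mom K j + D.mom M' j := by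
  have h3 : LinearMap.range i = LinearMap.ker q := by
    ext m
    exact (h m).symm
  rw [D.mom_add hM (LinearMap.ker q) j, D.mom_iso (q.quotKerEquivOfSurjective hq) j,
    ← D.mom_iso ((LinearEquiv.ofInjective i hi).trans (LinearEquiv.ofEq _ _ h3)) j]

theorem kap_tw (a n : ℤ) : D.kap (D.T a M) n = D.kap M (n - D.p * a) := by
  unfold kap
  refine Finset.sum_congr rfl fun j _ => ?_
  rw [D.hf_tw, sub_right_comm]

variable {c c' : ℕ}

theorem isA_mono (h : D.IsA M c) (hc : c' ≤ c) : D.IsA M c' :=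
  ⟨h.g, fun j hj => h.mom j (lt_of_lt_of_le hj hc)⟩

theorem isA_ext (hM : D.IsG M) (N : Submodule D.R M) (h1 : D.IsA N c) (h2 : D.IsA (M ⧸ N) c) :
    D.IsA M c := by
  refine ⟨hM, fun j hj => ?_⟩
  rw [D.mom_add hM N j, h1.mom j hj, h2.mom j hj, add_zero]

/-- comparison of Hilbert functions up to shifts -/
theorem isA_le (hM : D.IsA M c) {X : Type u} [AddCommGroup X] [Module D.R X] (hX : D.IsG X)
    {t : ℕ} (a : Fin t → ℤ) (hle : ∀ n, D.hf X n ≤ ∑ i, D.hf M (n + a i)) : D.IsA X c := by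
  refine ⟨hX, fun j hj => ?_⟩
  refine mo_van (D.hb hM.g) (D.hb hX) Finset.univ a (fun n => ?_) c (fun j hj => hM.mom j hj) j hj
  have h1 := hle n
  exact_mod_cast h1

theorem isA_sub (h : D.IsA M c) (N : Submodule D.R M) : D.IsA N c := by
  refine D.isA_le h (D.isG_sub h.g N) (fun _ : Fin 1 => 0) fun n => ?_
  rw [Fin.sum_univ_one, add_zero]
  exact D.hf_sub_le h.g.isW N n

theorem isA_quo (h : D.IsA M c) (N : Submodule D.R M) : D.IsA (M ⧸ N) c := by
  refine D.isA_le h (D.isG_quo h.g N) (fun _ : Fin 1 => 0) fun n => ?_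
  rw [Fin.sum_univ_one, add_zero]
  exact D.hf_quo_le h.g.isW N n

theorem isA_prod (h : D.IsA M c) (h' : D.IsA M' c) : D.IsA (M × M') c := by
  have hG := D.isG_prod h.g h'.g
  refine ⟨hG, fun j hj => ?_⟩
  have h1 := D.mom_ses hG (LinearMap.inl D.R M M') (LinearMap.snd D.R M M')
    LinearMap.inl_injective LinearMap.snd_surjective (fun m => by
      constructor
      · intro hm
        exact ⟨m.1, Prod.ext rfl hm.symm⟩
      · rintro ⟨k, rfl⟩
        rfl) j
  rw [h1, h.mom j hj, h'.mom j hj, add_zero]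

theorem isA_iso (e : M ≃ₗ[D.R] M') (h : D.IsA M c) : D.IsA M' c := by
  exact ⟨D.isG_iso e h.g, fun j hj => by rw [← D.mom_iso e j, h.mom j hj]⟩

theorem isA_zero [Subsingleton M] : D.IsA M c := by
  exact ⟨D.isG_zero, fun j _ => D.mom_zero j⟩

theorem E_nonneg (h : D.IsA M c) : 0 ≤ D.E M c := by
  exact mo_nonneg (D.hb h.g) c h.mom

theorem isA_succ (h : D.IsA M c) (h0 : D.mom M c = 0) : D.IsA M (c + 1) := by
  refine ⟨h.g, fun j hj => ?_⟩
  rcases Nat.lt_succ_iff_lt_or_eq.1 hj with h1 | rfl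
  · exact h.mom j h1
  · exact h0

theorem isA_tw (h : D.IsA M c) (n : ℤ) : D.IsA (D.T n M) c := by
  refine ⟨D.isG_tw h.g n, fun j hj => ?_⟩
  have h1 : D.kap (D.T n M) = fun k => D.kap M (k - D.p * n) := funext fun k => D.kap_tw n k
  have h2 := (mo_shift (D.hb h.g).fin (D.p * n) c h.mom).1 j hj
  unfold mom
  rw [h1]
  exact h2

theorem mom_tw (h : D.IsA M c) (n : ℤ) : D.mom (D.T n M) c = D.mom M c := by
  have h1 : D.kap (D.T n M) = fun k => D.kap M (k - D.p * n) := funext fun k => D.kap_tw n k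
  have h2 := (mo_shift (D.hb h.g).fin (D.p * n) c h.mom).2
  unfold mom
  rw [h1]
  exact h2

theorem isA_p_iff (hM : D.IsG M) : D.IsA M D.p ↔ ∃ n₀ : ℤ, ∀ n > n₀, D.hf M n = 0 := by
  have h1 := fin_iff (D.hb hM)
  constructor
  · intro h
    obtain ⟨n₀, hn⟩ := h1.1 h.mom
    exact ⟨n₀, fun n hn' => by exact_mod_cast hn n hn'⟩
  · rintro ⟨n₀, hn⟩
    exact ⟨hM, h1.2 ⟨n₀, fun n hn' => by exact_mod_cast hn n hn'⟩⟩

/-- The class of the modules of codimension at least `c`. -/
def cA (c : ℕ) : Cls.{u} D.R where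
  P := fun M _ _ => D.IsA M c
  iso := fun e h => D.isA_iso e h
  zero := fun _ _ _ _ => D.isA_zero
  sub := fun N h => D.isA_sub h N
  quo := fun N h => D.isA_quo h N
  prod := fun h h' => D.isA_prod h h'

/-- the moments as additive functions -/
def momF (c : ℕ) : Adf (D.cA 2) ℤ where
  e := fun M _ _ => D.mom M c
  iso := fun e _ => D.mom_iso e c
  add := fun N h => D.mom_add h.g N c

/-- the Hilbert function as an additive function -/
def hfF : Adf (D.cA 2) (ℤ → ℤ) where
  e := fun M _ _ n => (D.hf M n : ℤ)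
  iso := fun e _ => by
    funext n
    rw [D.hf_iso e n]
  add := fun N h => by
    funext n
    show (D.hf _ n : ℤ) = D.hf N n + D.hf _ n
    rw [D.hf_add h.g.isW N n, Nat.cast_add]

end Dat

end MSA
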