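import Mathlib
import Pool.Agent.MSA.Mo
import Pool.Agent.MSA.HfS
import Pool.Agent.MSA.An

/-!
# Complete intersections `S / (y, g)`: exact sequences, Hilbert functions, codimension

PROOFS. `st_span`: `D.iv_ph`: `ph gen y = (scalar) * y`; for an element `∑ a_i y_i` of the span use
`Ideal.span` induction or `Ideal.mem_span_pair`.
`mulI_sr_inj`: `S` is a domain. `cy_ex`: `mkQ x = 0` iff `x = toSr f`, `f ∈ span {y}` (`mem_idl`), iff `f = y * z`
(`mulI_apply`, `sr_iot`).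
`mulI_cy_inj`: `x = mkQ (toSr f)`; `iot g • x = mkQ (toSr (g f)) = 0` (`cy_mk`, `cy_mk_eq_zero`) means `y ∣ g f`, so `y ∣ f`
(`IsRelPrime.dvd_of_dvd_mul_left`; `S` is a unique factorization domain).
`ci_ex`: `q` is the map of quotients (`Submodule.mapQ` or `factor`, `idl_le`); `q x = 0`, `x = mkQ (toSr f)`, iff
`f ∈ span {y, g}` iff `f = a y + b g` (`Ideal.mem_span_pair`) iff `x = iot g • mkQ (toSr b)`.
`isA_Cy`: `IsG` by `isG_quo`, `isG_sr`; `mom_ses` for `cy_ex`, `mulI_sr_inj`: `mom Sr 0 = mom (T m Sr) 0 + mom (Cy) 0`, and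
`mom (T m Sr) 0 = mom Sr 0` (`mom_tw` with `c = 0`).
`isA_CI`: the same with `ci_ex`, `mulI_cy_inj`: the moments of order `j = 0, 1` of `T n (Cy)` and `Cy` agree
(`mom_tw` with `c = j`, `isA_mono`), so `mom (CI) j = 0`.
`hf_CI`: `hf_ses` for `ci_ex` and `hf_tw`: `hf (CI y g) k = hf (Cy) k - hf (Cy) (k - p n)`.
`hf_Cy` in the same way from `cy_ex`. `ci_comm`: the ideals are equal (`Set.pair_comm`). `ci_congr`: equal ideals.
-/

set_option autoImplicit false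
set_option linter.unusedSectionVars false

noncomputable section

namespace MSA

universe u v w

open MvPolynomial

namespace Dat

variable (D : Dat.{u}) {m n : ℕ} {y g h : D.S}

theorem st_span1 (hy : D.Iv m y) : StI D.ph (Ideal.span {y}) := by
  intro k x hx
  obtain ⟨a, rfl⟩ := Ideal.mem_span_singleton'.1 hx
  rw [map_mul, D.iv_ph hy, ← mul_assoc]
  exact Ideal.mul_mem_left _ _ (Ideal.subset_span rfl)

theorem st_span2 (hy : D.Iv m y) (hg : D.Iv n g) : StI D.ph (Ideal.span {y, g}) := by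
  intro k x hx
  obtain ⟨a, b, rfl⟩ := Ideal.mem_span_pair.1 hx
  rw [map_add, map_mul, map_mul, D.iv_ph hy, D.iv_ph hg]
  exact Ideal.mem_span_pair.2 ⟨D.ph k a * algebraMap D.F D.S (D.chi m k),
    D.ph k b * algebraMap D.F D.S (D.chi n k), by ring⟩

theorem mulI_sr_inj (hy : D.Iv m y) (y0 : y ≠ 0) :
    Function.Injective (D.mulI (Sr D.ph) hy) := by
  rw [injective_iff_map_eq_zero]
  intro a ha
  obtain ⟨x, rfl⟩ := (toTw D.ph (D.chi m) (Sr D.ph)).surjective a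
  obtain ⟨f, rfl⟩ := (toSr D.ph).surjective x
  rw [mulI_apply, sr_iot, map_eq_zero_iff _ (toSr D.ph).injective, mul_eq_zero] at ha
  rw [ha.resolve_left y0, map_zero, map_zero]

theorem cy_ex (hy : D.Iv m y) (x : Sr D.ph) : (idl D.ph (Ideal.span {y})).mkQ x = 0 ↔
    ∃ z, D.mulI (Sr D.ph) hy z = x := by
  obtain ⟨f, rfl⟩ := (toSr D.ph).surjective x
  rw [D.cy_mk_eq_zero (D.st_span1 hy), Ideal.mem_span_singleton]
  constructor
  · rintro ⟨z, rfl⟩
    exact ⟨toTw D.ph (D.chi m) (Sr D.ph) (toSr D.ph z), by rw [mulI_apply, sr_iot]⟩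
  · rintro ⟨a, ha⟩
    obtain ⟨x, rfl⟩ := (toTw D.ph (D.chi m) (Sr D.ph)).surjective a
    obtain ⟨z, rfl⟩ := (toSr D.ph).surjective x
    rw [mulI_apply, sr_iot] at ha
    exact ⟨z, ((toSr D.ph).injective ha).symm⟩

theorem mulI_cy_inj (hy : D.Iv m y) (hg : D.Iv n g) (hr : IsRelPrime y g) :
    Function.Injective (D.mulI (D.Cy (Ideal.span {y})) hg) := by
  rw [injective_iff_map_eq_zero]
  intro a ha
  obtain ⟨x, rfl⟩ := (toTw D.ph (D.chi n) (D.Cy (Ideal.span {y}))).surjective a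
  obtain ⟨x, rfl⟩ := (idl D.ph (Ideal.span {y})).mkQ_surjective x
  obtain ⟨f, rfl⟩ := (toSr D.ph).surjective x
  rw [mulI_apply, D.cy_mk, D.cy_mk_eq_zero (D.st_span1 hy), Ideal.mem_span_singleton] at ha
  have h1 : y ∣ f := hr.dvd_of_dvd_mul_left ha
  have h2 : (idl D.ph (Ideal.span {y})).mkQ (toSr D.ph f) = 0 :=
    (D.cy_mk_eq_zero (D.st_span1 hy) f).2 (Ideal.mem_span_singleton.2 h1)
  rw [h2, map_zero]

theorem ci_ex (hy : D.Iv m y) (hg : D.Iv n g) :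
    ∃ q : D.Cy (Ideal.span {y}) →ₗ[D.R] D.CI y g, Function.Surjective q ∧
      (∀ f : D.S, q ((idl D.ph (Ideal.span {y})).mkQ (toSr D.ph f)) =
        (idl D.ph (Ideal.span {y, g})).mkQ (toSr D.ph f)) ∧
      ∀ x, q x = 0 ↔ ∃ z, D.mulI (D.Cy (Ideal.span {y})) hg z = x := by
  have hst := D.st_span1 hy
  have hst2 := D.st_span2 hy hg
  have hle0 : Ideal.span {y} ≤ Ideal.span {y, g} :=
    Ideal.span_mono (Set.singleton_subset_iff.2 (Set.mem_insert y {g}))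
  have hle := (D.idl_le hst hst2).2 hle0
  refine ⟨(idl D.ph (Ideal.span {y})).liftQ (idl D.ph (Ideal.span {y, g})).mkQ (by
    rw [Submodule.ker_mkQ]
    exact hle), ?_, fun f => rfl, ?_⟩
  · intro z
    obtain ⟨z, rfl⟩ := (idl D.ph (Ideal.span {y, g})).mkQ_surjective z
    exact ⟨(idl D.ph (Ideal.span {y})).mkQ z, rfl⟩
  · intro x
    obtain ⟨x, rfl⟩ := (idl D.ph (Ideal.span {y})).mkQ_surjective x
    obtain ⟨f, rfl⟩ := (toSr D.ph).surjective x
    rw [Submodule.mkQ_apply, Submodule.liftQ_apply, D.cy_mk_eq_zero hst2, Ideal.mem_span_pair]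
    constructor
    · rintro ⟨a, b, rfl⟩
      refine ⟨toTw D.ph (D.chi n) _ ((idl D.ph (Ideal.span {y})).mkQ (toSr D.ph b)), ?_⟩
      rw [mulI_apply, D.cy_mk, ← Submodule.mkQ_apply, ← sub_eq_zero, ← map_sub, ← map_sub,
        D.cy_mk_eq_zero hst, Ideal.mem_span_singleton]
      exact ⟨-a, by ring⟩
    · rintro ⟨a, ha⟩
      obtain ⟨x, rfl⟩ := (toTw D.ph (D.chi n) (D.Cy (Ideal.span {y}))).surjective a
      obtain ⟨x, rfl⟩ := (idl D.ph (Ideal.span {y})).mkQ_surjective x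
      obtain ⟨b, rfl⟩ := (toSr D.ph).surjective x
      rw [mulI_apply, D.cy_mk, ← Submodule.mkQ_apply, ← sub_eq_zero, ← map_sub, ← map_sub,
        D.cy_mk_eq_zero hst, Ideal.mem_span_singleton] at ha
      obtain ⟨c, hc⟩ := ha
      exact ⟨-c, b, by linear_combination hc⟩

theorem isG_Cy (I : Ideal D.S) : D.IsG (D.Cy I) := D.isG_quo D.isG_sr _

theorem isA_Cy (hy : D.Iv m y) (y0 : y ≠ 0) : D.IsA (D.Cy (Ideal.span {y})) 1 := by
  refine ⟨D.isG_Cy _, fun j hj => ?_⟩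
  obtain rfl : j = 0 := by omega
  have h1 := D.mom_ses D.isG_sr (D.mulI (Sr D.ph) hy) (idl D.ph (Ideal.span {y})).mkQ
    (D.mulI_sr_inj hy y0) (Submodule.mkQ_surjective _) (D.cy_ex hy) 0
  have h2 : D.IsA (Sr D.ph) 0 := ⟨D.isG_sr, fun j hj => absurd hj (Nat.not_lt_zero _)⟩
  have h3 := D.mom_tw h2 m
  rw [h3] at h1
  linarith

theorem isA_CI (hy : D.Iv m y) (hg : D.Iv n g) (y0 : y ≠ 0) (g0 : g ≠ 0) (hr : IsRelPrime y g) :
    D.IsA (D.CI y g) 2 := by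
  refine ⟨D.isG_Cy _, fun j hj => ?_⟩
  obtain ⟨q, hq, -, hex⟩ := D.ci_ex hy hg
  have h1 := D.mom_ses (D.isG_Cy _) (D.mulI (D.Cy (Ideal.span {y})) hg) q
    (D.mulI_cy_inj hy hg hr) hq hex j
  have h2 : D.IsA (D.Cy (Ideal.span {y})) j := D.isA_mono (D.isA_Cy hy y0) (by omega)
  have h3 := D.mom_tw h2 n
  rw [h3] at h1
  linarith

theorem hf_CI (hy : D.Iv m y) (hg : D.Iv n g) (hh : D.Iv n h) (y0 : y ≠ 0) (g0 : g ≠ 0)
    (h0 : h ≠ 0) (hr : IsRelPrime y g) (hr' : IsRelPrime y h) (k : ℤ) :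
    D.hf (D.CI y g) k = D.hf (D.CI y h) k := by
  obtain ⟨q, hq, -, hex⟩ := D.ci_ex hy hg
  obtain ⟨q', hq', -, hex'⟩ := D.ci_ex hy hh
  have h1 := D.hf_ses (D.isG_Cy _).isW (D.mulI (D.Cy (Ideal.span {y})) hg) q
    (D.mulI_cy_inj hy hg hr) hq hex k
  have h2 := D.hf_ses (D.isG_Cy _).isW (D.mulI (D.Cy (Ideal.span {y})) hh) q'
    (D.mulI_cy_inj hy hh hr') hq' hex' k
  omega

theorem ci_comm (y g : D.S) : Nonempty (D.CI y g ≃ₗ[D.R] D.CI g y) :=
  ⟨Submodule.quotEquivOfEq _ _ (by rw [Set.pair_comm])⟩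

theorem ci_congr {y g y' g' : D.S} (he : Ideal.span {y, g} = Ideal.span {y', g'}) :
    Nonempty (D.CI y g ≃ₗ[D.R] D.CI y' g') :=
  ⟨Submodule.quotEquivOfEq _ _ (by rw [he])⟩

end Dat

end MSA
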