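import Mathlib
import Pool.Agent.MSA.Prd

/-!
# Eigenspaces of the cyclic shift: maps and exactness

`A.Eg j H` is the subgroup of the `h` with `gam cyc • res r • h = ζ^j • res r • h` for all `r`; if the
shift commutes with the other generators (`A.IsK H`) this is just the eigenspace.

PROOFS.
`eg_mem`: `r = 1` gives one direction. Conversely for `IsK H` the set of `r : D.R` such that
`gam cyc • res r • h = res r • gam cyc • h` for all `h` is closed under sums and products and contains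
`iot s` (`res (iot s) = iot (avg s)` and `ph cyc (avg s) = avg s`, as `zp 0 = 1`) and `gam g`
(`IsK.com`): `rg_induction`; and `ζ^j ∈ F` commutes with `res r` (the generators fix `F`: `A.fixF`,
`gam_mul_iot`; `S_k` is commutative).
`eg_sum`: with `P_j h = k⁻¹ ∑_{i<k} ζ^{-ji} cyc^i h` one has `∑_j P_j h = h`
(`∑_j ζ^{-ji} = 0` for `0 < i < k`, `IsPrimitiveRoot.geom_sum_eq_zero` or the orthogonality of characters) and
`cyc P_j h = ζ^j P_j h` because `cyc^k = 1`.
`egm_surj`: lift `h'` to `h`, apply `P_j`; `q (P_j h) = P_j h' = h'`. `egm_exact`: an element of the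
eigenspace killed by `q` is `i x`, and `i (P_j x) = P_j (i x) = i x`.
-/

set_option autoImplicit false
set_option linter.unusedSectionVars false

noncomputable section

namespace MSA

universe u v w

namespace Adm

variable {D : Dat.{u}} (A : Adm D)

variable {H H' H'' : Type u} [AddCommGroup H] [Module A.R H] [AddCommGroup H'] [Module A.R H']
variable [AddCommGroup H''] [Module A.R H'']

/-- the inclusion `Eg j H → H` -/
def egi (j : ZMod A.k) : A.Eg j H →+ H where
  toFun x := x.1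
  map_zero' := rfl
  map_add' _ _ := rfl

theorem egi_inj (j : ZMod A.k) : Function.Injective (A.egi (H := H) j) := fun _ _ h => Subtype.ext h

theorem egi_smul (j : ZMod A.k) (r : D.R) (x : A.Eg j H) :
    A.egi j (r • x) = A.res r • A.egi j x := rfl

theorem egi_mem (j : ZMod A.k) (x : A.Eg j H) (r : D.R) :
    gam A.ph Gk.cyc • A.res r • A.egi j x =
      iot A.ph (algebraMap D.F A.S (A.zp j)) • A.res r • A.egi j x := x.2 r

/-- construct elements of the eigenspace -/
def egk (j : ZMod A.k) (h : H) (hh : ∀ r : D.R, gam A.ph Gk.cyc • A.res r • h =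
    iot A.ph (algebraMap D.F A.S (A.zp j)) • A.res r • h) : A.Eg j H := ⟨h, hh⟩

theorem egi_egk (j : ZMod A.k) (h : H) (hh) : A.egi j (A.egk j h hh) = h := rfl

/-- the map induced by a linear map on eigenspaces -/
def egm (j : ZMod A.k) (f : H →ₗ[A.R] H') : A.Eg j H →ₗ[D.R] A.Eg j H' where
  toFun x := A.egk j (f (A.egi j x)) (fun r => by
    have h := congrArg f (A.egi_mem j x r)
    rw [f.map_smul, f.map_smul, f.map_smul, f.map_smul] at h
    exact h)
  map_add' x y := A.egi_inj j (map_add f _ _)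
  map_smul' r x := A.egi_inj j (f.map_smul (A.res r) (A.egi j x))

theorem egi_egm (j : ZMod A.k) (f : H →ₗ[A.R] H') (x : A.Eg j H) :
    A.egi j (A.egm j f x) = f (A.egi j x) := rfl

private def ecF : D.F →+* A.R := (iot A.ph).comp (algebraMap D.F A.S)

private theorem cyc_ecF (c : D.F) :
    gam A.ph Gk.cyc * A.ecF c = A.ecF c * gam A.ph Gk.cyc := by
  show gam A.ph Gk.cyc * iot A.ph _ = iot A.ph _ * _
  rw [gam_mul_iot, FixF.fix]

private theorem cyc_avg (s : D.S) : A.ph Gk.cyc (A.avg s) = A.avg s := by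
  have h : (A.ph Gk.cyc).comp A.avg = A.avg := by
    apply MvPolynomial.ringHom_ext
    · intro r
      simp [avg, ph, cyS]
    · intro i
      simp [avg, ph, cyS, zp]
  exact congrArg (fun t => t s) h

private theorem res_iot (s : D.S) : A.res (iot D.ph s) = iot A.ph (A.avg s) :=
  rgHom_iot D.ph ((iot A.ph).comp A.avg) (fun g => gam A.ph (Gk.bs g)) _ s

private theorem res_gam (g : Gn D.F) : A.res (gam D.ph g) = gam A.ph (Gk.bs g) :=
  rgHom_gam D.ph ((iot A.ph).comp A.avg) (fun g => gam A.ph (Gk.bs g)) _ g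

private theorem ecF_res (c : D.F) (r : D.R) : A.ecF c * A.res r = A.res r * A.ecF c := by
  refine rg_induction D.ph (P := fun r => A.ecF c * A.res r = A.res r * A.ecF c) r ?_ ?_ ?_ ?_
  · intro s
    rw [res_iot]
    show iot A.ph _ * iot A.ph _ = iot A.ph _ * iot A.ph _
    rw [← map_mul, ← map_mul, mul_comm]
  · intro g
    rw [res_gam]
    show iot A.ph _ * _ = gam A.ph _ * iot A.ph _
    rw [gam_mul_iot, FixF.fix]
  · intro x y hx hy
    rw [map_add, mul_add, add_mul, hx, hy]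
  · intro x y hx hy
    rw [map_mul, ← mul_assoc, hx, mul_assoc, hy, mul_assoc]

private theorem cyc_res (hK : A.IsK H) (r : D.R) (h : H) :
    gam A.ph Gk.cyc • A.res r • h = A.res r • gam A.ph Gk.cyc • h := by
  revert h
  refine rg_induction D.ph (P := fun r => ∀ h : H, gam A.ph Gk.cyc • A.res r • h =
    A.res r • gam A.ph Gk.cyc • h) r ?_ ?_ ?_ ?_
  · intro s h
    rw [res_iot, ← mul_smul, gam_mul_iot, cyc_avg, mul_smul]
  · intro g h
    rw [res_gam]
    exact hK.com g h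
  · intro x y hx hy h
    rw [map_add, add_smul, smul_add, hx, hy, add_smul]
  · intro x y hx hy h
    rw [map_mul, mul_smul, hx, hy, mul_smul]

theorem eg_mem (hK : A.IsK H) (j : ZMod A.k) (h : H) :
    (∀ r : D.R, gam A.ph Gk.cyc • A.res r • h =
      iot A.ph (algebraMap D.F A.S (A.zp j)) • A.res r • h) ↔
    gam A.ph Gk.cyc • h = iot A.ph (algebraMap D.F A.S (A.zp j)) • h := by
  constructor
  · intro hh
    have h1 := hh 1
    rwa [map_one, one_smul] at h1
  · intro hh r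
    have h2 := A.ecF_res (A.zp j) r
    rw [A.cyc_res hK, hh, ← mul_smul, ← mul_smul]
    exact congrArg (fun t => t • h) h2.symm

private theorem zmod_sum {M : Type*} [AddCommMonoid M] (k : ℕ) [NeZero k] (f : ℕ → M) :
    ∑ j : ZMod k, f j.val = ∑ i ∈ Finset.range k, f i := by
  cases k with
  | zero => exact absurd rfl (NeZero.ne 0)
  | succ n => exact Fin.sum_univ_eq_sum_range f (n + 1)

private theorem zp_ne (j : ZMod A.k) : A.zp j ≠ 0 :=
  pow_ne_zero _ (A.hz.ne_zero (NeZero.ne A.k))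

private theorem zp_pow (j : ZMod A.k) : A.zp j ^ A.k = 1 := by
  unfold zp
  rw [← pow_mul, mul_comm, pow_mul, A.hz.pow_eq_one, one_pow]

private theorem zp_sum {i : ℕ} (hi : i < A.k) :
    ∑ j : ZMod A.k, ((A.zp j)⁻¹) ^ i = if i = 0 then (A.k : D.F) else 0 := by
  have h1 : ∀ j : ZMod A.k, ((A.zp j)⁻¹) ^ i = ((A.z ^ i)⁻¹) ^ j.val := by
    intro j
    unfold zp
    rw [inv_pow, inv_pow, ← pow_mul, ← pow_mul, mul_comm]
  rw [Finset.sum_congr rfl fun j _ => h1 j, zmod_sum A.k (fun m => ((A.z ^ i)⁻¹) ^ m)]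
  split_ifs with h0
  · rw [h0]
    simp
  · have h2 : (A.z ^ i)⁻¹ ≠ 1 := by
      intro h
      rw [inv_eq_one, A.hz.pow_eq_one_iff_dvd] at h
      have := Nat.le_of_dvd (by omega) h
      omega
    have h3 := geom_sum_mul ((A.z ^ i)⁻¹) A.k
    have h4 : ((A.z ^ i)⁻¹) ^ A.k = 1 := by
      rw [inv_pow, ← pow_mul, mul_comm, pow_mul, A.hz.pow_eq_one, one_pow, inv_one]
    rw [h4, sub_self] at h3
    exact (mul_eq_zero.1 h3).resolve_right (sub_ne_zero.2 h2)

/-- the projection on the eigenspace -/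
private def prj (j : ZMod A.k) : A.R :=
  A.ecF ((A.k : D.F)⁻¹) * ∑ i ∈ Finset.range A.k, A.ecF (((A.zp j)⁻¹) ^ i) * gam A.ph Gk.cyc ^ i

private theorem prj_sum : ∑ j, A.prj j = 1 := by
  unfold prj
  rw [← Finset.mul_sum, Finset.sum_comm]
  have h1 : ∀ i ∈ Finset.range A.k, ∑ j : ZMod A.k, A.ecF (((A.zp j)⁻¹) ^ i) *
      gam A.ph Gk.cyc ^ i = if i = 0 then A.ecF (A.k : D.F) else 0 := by
    intro i hi
    rw [← Finset.sum_mul, ← map_sum, A.zp_sum (Finset.mem_range.1 hi)]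
    split_ifs with h0
    · rw [h0, pow_zero, mul_one]
    · rw [map_zero, zero_mul]
  rw [Finset.sum_congr rfl h1, Finset.sum_ite_eq' (Finset.range A.k) 0,
    if_pos (Finset.mem_range.2 (NeZero.pos A.k)), ← map_mul, inv_mul_cancel₀ A.hkF, map_one]

private theorem cyc_prj (j : ZMod A.k) : gam A.ph Gk.cyc * A.prj j =
    A.ecF (A.zp j) * A.prj j +
      A.ecF (A.zp j) * A.ecF ((A.k : D.F)⁻¹) * (gam A.ph Gk.cyc ^ A.k - 1) := by
  obtain ⟨g, hg⟩ : ∃ g : ℕ → A.R, g = fun i => A.ecF (((A.zp j)⁻¹) ^ i) * gam A.ph Gk.cyc ^ i :=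
    ⟨_, rfl⟩
  have hp : A.prj j = A.ecF ((A.k : D.F)⁻¹) * ∑ i ∈ Finset.range A.k, g i := by
    rw [hg]
    rfl
  have h1 : ∀ i, gam A.ph Gk.cyc * g i = A.ecF (A.zp j) * g (i + 1) := by
    intro i
    rw [hg]
    show gam A.ph Gk.cyc * (A.ecF (((A.zp j)⁻¹) ^ i) * gam A.ph Gk.cyc ^ i) =
      A.ecF (A.zp j) * (A.ecF (((A.zp j)⁻¹) ^ (i + 1)) * gam A.ph Gk.cyc ^ (i + 1))
    rw [← mul_assoc, cyc_ecF, mul_assoc, ← pow_succ', ← mul_assoc, ← map_mul]
    congr 2
    rw [pow_succ', ← mul_assoc, mul_inv_cancel₀ (A.zp_ne j), one_mul]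
  have h2 : ∑ i ∈ Finset.range A.k, g (i + 1) =
      ∑ i ∈ Finset.range A.k, g i + (gam A.ph Gk.cyc ^ A.k - 1) := by
    have e1 := Finset.sum_range_succ g A.k
    have e2 := Finset.sum_range_succ' g A.k
    have g0 : g 0 = 1 := by
      rw [hg]
      show A.ecF (((A.zp j)⁻¹) ^ 0) * gam A.ph Gk.cyc ^ 0 = 1
      rw [pow_zero, map_one, pow_zero, mul_one]
    have gk : g A.k = gam A.ph Gk.cyc ^ A.k := by
      rw [hg]
      show A.ecF (((A.zp j)⁻¹) ^ A.k) * gam A.ph Gk.cyc ^ A.k = _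
      rw [inv_pow, zp_pow, inv_one, map_one, one_mul]
    rw [g0] at e2
    rw [gk, e2] at e1
    rw [add_sub, ← e1, add_sub_cancel_right]
  rw [hp, ← mul_assoc, cyc_ecF, mul_assoc, Finset.mul_sum, Finset.sum_congr rfl fun i _ => h1 i,
    ← Finset.mul_sum, h2, mul_add, mul_add, ← mul_assoc, ← mul_assoc, ← mul_assoc, ← map_mul,
    ← map_mul, mul_comm (A.k : D.F)⁻¹]

private theorem prj_mem (hK : A.IsK H) (j : ZMod A.k) (h : H) :
    gam A.ph Gk.cyc • A.prj j • h = iot A.ph (algebraMap D.F A.S (A.zp j)) • A.prj j • h := by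
  have h1 : (gam A.ph Gk.cyc ^ A.k - 1) • h = 0 := by
    rw [sub_smul, hK.cyk h, one_smul, sub_self]
  rw [← mul_smul, cyc_prj, add_smul, mul_smul _ (gam A.ph Gk.cyc ^ A.k - 1), h1, smul_zero,
    add_zero, mul_smul]
  rfl

private theorem cyc_pow (j : ZMod A.k) (h : H)
    (hh : gam A.ph Gk.cyc • h = iot A.ph (algebraMap D.F A.S (A.zp j)) • h) (i : ℕ) :
    gam A.ph Gk.cyc ^ i • h = A.ecF (A.zp j ^ i) • h := by
  induction i with
  | zero => rw [pow_zero, pow_zero, map_one]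
  | succ i ih =>
    have h2 : iot A.ph (algebraMap D.F A.S (A.zp j)) = A.ecF (A.zp j) := rfl
    rw [pow_succ', mul_smul, ih, ← mul_smul, cyc_ecF, mul_smul, hh, h2, ← mul_smul, ← map_mul,
      pow_succ]

private theorem prj_eq (j : ZMod A.k) (h : H)
    (hh : gam A.ph Gk.cyc • h = iot A.ph (algebraMap D.F A.S (A.zp j)) • h) :
    A.prj j • h = h := by
  unfold prj
  rw [mul_smul, Finset.sum_smul]
  have h1 : ∀ i ∈ Finset.range A.k, (A.ecF (((A.zp j)⁻¹) ^ i) * gam A.ph Gk.cyc ^ i) • h = h := by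
    intro i _
    rw [mul_smul, A.cyc_pow j h hh, ← mul_smul, ← map_mul, ← mul_pow,
      inv_mul_cancel₀ (A.zp_ne j), one_pow, map_one, one_smul]
  rw [Finset.sum_congr rfl h1, Finset.sum_const, Finset.card_range]
  have h2 : A.k • h = A.ecF (A.k : D.F) • h := by
    rw [map_natCast, Nat.cast_smul_eq_nsmul]
  rw [h2, ← mul_smul, ← map_mul, inv_mul_cancel₀ A.hkF, map_one, one_smul]

/-- `H` is the sum of its eigenspaces. -/
theorem eg_sum (hK : A.IsK H) (h : H) : ∃ x : ∀ j, A.Eg j H, h = ∑ j, A.egi j (x j) := by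
  refine ⟨fun j => A.egk j (A.prj j • h) ((A.eg_mem hK j _).2 (A.prj_mem hK j h)), ?_⟩
  have h1 : ∀ j, A.egi j (A.egk j (A.prj j • h) ((A.eg_mem hK j _).2 (A.prj_mem hK j h))) =
      A.prj j • h := fun j => rfl
  rw [Finset.sum_congr rfl fun j _ => h1 j, ← Finset.sum_smul, prj_sum, one_smul]

theorem egm_inj (j : ZMod A.k) (f : H →ₗ[A.R] H') (hf : Function.Injective f) :
    Function.Injective (A.egm j f) := by
  intro x y h
  apply A.egi_inj j
  apply hf
  rw [← egi_egm, ← egi_egm, h]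

theorem egm_surj (hK : A.IsK H) (j : ZMod A.k) (q : H →ₗ[A.R] H') (hq : Function.Surjective q) :
    Function.Surjective (A.egm j q) := by
  intro y
  obtain ⟨h, hh⟩ := hq (A.egi j y)
  have hy : gam A.ph Gk.cyc • A.egi j y =
      iot A.ph (algebraMap D.F A.S (A.zp j)) • A.egi j y := by
    have h1 := A.egi_mem j y 1
    rwa [map_one, one_smul] at h1
  refine ⟨A.egk j (A.prj j • h) ((A.eg_mem hK j _).2 (A.prj_mem hK j h)), ?_⟩
  apply A.egi_inj j
  rw [egi_egm, egi_egk, map_smul, hh, A.prj_eq j _ hy]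

theorem egm_exact (hK : A.IsK H) (j : ZMod A.k) (i : H →ₗ[A.R] H') (q : H' →ₗ[A.R] H'')
    (hi : Function.Injective i) (h : ∀ m, q m = 0 ↔ ∃ x, i x = m) (y : A.Eg j H') :
    A.egm j q y = 0 ↔ ∃ x, A.egm j i x = y := by
  have hy : gam A.ph Gk.cyc • A.egi j y =
      iot A.ph (algebraMap D.F A.S (A.zp j)) • A.egi j y := by
    have h1 := A.egi_mem j y 1
    rwa [map_one, one_smul] at h1
  constructor
  · intro h0
    have h1 : q (A.egi j y) = 0 := by
      rw [← egi_egm, h0, map_zero]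
    obtain ⟨x, hx⟩ := (h _).1 h1
    refine ⟨A.egk j (A.prj j • x) ((A.eg_mem hK j _).2 (A.prj_mem hK j x)), ?_⟩
    apply A.egi_inj j
    rw [egi_egm, egi_egk, map_smul, hx, A.prj_eq j _ hy]
  · rintro ⟨x, rfl⟩
    apply A.egi_inj j
    rw [egi_egm, egi_egm, map_zero]
    exact (h _).2 ⟨_, rfl⟩

end Adm

end MSA
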