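import Mathlib
import Pool.Agent.MSA.EgA
import Pool.Agent.MSA.IsKA
import Pool.Agent.MSA.ChA

/-!
# The class of modules over `R_k` with eigenspaces in a given class

PROOFS. For a submodule `N` of `H`: `A.Eg j N` is isomorphic to a submodule of `A.Eg j H` (`egm_inj` for
`N.subtype`), for the quotient `A.Eg j H → A.Eg j (H ⧸ N)` is surjective (`egm_surj` for `mkQ`): `cls_inj`,
`cls_sur`. Product: `A.Eg j (H × H') ≃ A.Eg j H × A.Eg j H'` (or: it injects into the product by
`egm fst`, `egm snd`). Isomorphism: `egm` of the isomorphism is bijective. `dlA`: `iso` by `egm`; `add`: the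
sequence `0 → Eg j N → Eg j H → Eg j (H ⧸ N) → 0` is exact (`egm_exact`), `adf_ses`.
-/

set_option autoImplicit false
set_option linter.unusedSectionVars false

noncomputable section

namespace MSA

universe u v w

namespace Adm

variable {D : Dat.{u}} (A : Adm D)

/-- membership in the class: good, the `Y_{i,j}`, `j ≠ 0`, act as zero, the eigenspaces lie in `Cl` -/
structure InK (Cl : Cls.{u} D.R) (H : Type u) [AddCommGroup H] [Module A.R H] : Prop where
  k : A.IsK H
  y : A.KilY H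
  e : ∀ j, Cl.P (A.Eg j H)

theorem ck_iso (Cl : Cls.{u} D.R) {M N : Type u} [AddCommGroup M] [Module A.R M] [AddCommGroup N]
    [Module A.R N] (f : M ≃ₗ[A.R] N) (h : A.InK Cl M) : A.InK Cl N := by
  refine ⟨A.isK_iso f h.k, ?_, ?_⟩
  · intro x hx z
    have h1 := congrArg f (h.y x hx (f.symm z))
    rw [map_zero, LinearEquiv.map_smul, f.apply_symm_apply] at h1
    exact h1
  · intro j
    exact cls_inj (C := Cl) (A.egm j (f.symm : N →ₗ[A.R] M)) (A.egm_inj j _ f.symm.injective)
      (h.e j)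

theorem ck_zero (Cl : Cls.{u} D.R) (M : Type u) [AddCommGroup M] [Module A.R M] [Subsingleton M] :
    A.InK Cl M := by
  refine ⟨A.isK_zero, fun x hx z => Subsingleton.elim _ _, ?_⟩
  intro j
  have : Subsingleton (A.Eg j M) := ⟨fun x y => A.egi_inj j (Subsingleton.elim _ _)⟩
  exact Cl.zero (A.Eg j M)

theorem ck_sub (Cl : Cls.{u} D.R) {M : Type u} [AddCommGroup M] [Module A.R M]
    (N : Submodule A.R M) (h : A.InK Cl M) : A.InK Cl N := by
  refine ⟨A.isK_sub h.k N, ?_, ?_⟩
  · intro x hx z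
    exact Subtype.ext (h.y x hx z.1)
  · intro j
    exact cls_inj (C := Cl) (A.egm j N.subtype) (A.egm_inj j _ N.subtype_injective) (h.e j)

theorem ck_quo (Cl : Cls.{u} D.R) {M : Type u} [AddCommGroup M] [Module A.R M]
    (N : Submodule A.R M) (h : A.InK Cl M) : A.InK Cl (M ⧸ N) := by
  refine ⟨A.isK_quo h.k N, ?_, ?_⟩
  · intro x hx z
    obtain ⟨m, rfl⟩ := N.mkQ_surjective z
    rw [← map_smul, h.y x hx m, map_zero]
  · intro j
    exact cls_sur (C := Cl) (A.egm j N.mkQ) (A.egm_surj h.k j _ N.mkQ_surjective) (h.e j)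

theorem ck_prod (Cl : Cls.{u} D.R) {M N : Type u} [AddCommGroup M] [Module A.R M] [AddCommGroup N]
    [Module A.R N] (h : A.InK Cl M) (h' : A.InK Cl N) : A.InK Cl (M × N) := by
  refine ⟨A.isK_prod h.k h'.k, ?_, ?_⟩
  · intro x hx z
    exact Prod.ext (h.y x hx z.1) (h'.y x hx z.2)
  · intro j
    refine cls_inj (C := Cl) ((A.egm j (LinearMap.fst A.R M N)).prod
      (A.egm j (LinearMap.snd A.R M N))) ?_ (Cl.prod (h.e j) (h'.e j))
    intro x y hxy
    have h1 : A.egm j (LinearMap.fst A.R M N) x = A.egm j (LinearMap.fst A.R M N) y :=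
      congrArg Prod.fst hxy
    have h2 : A.egm j (LinearMap.snd A.R M N) x = A.egm j (LinearMap.snd A.R M N) y :=
      congrArg Prod.snd hxy
    have h3 := congrArg (A.egi j) h1
    have h4 := congrArg (A.egi j) h2
    rw [A.egi_egm, A.egi_egm] at h3 h4
    exact A.egi_inj j (Prod.ext h3 h4)

/-- the class of modules over `R_k` defined by `Cl` -/
def cK (Cl : Cls.{u} D.R) : Cls.{u} A.R where
  P := fun H _ _ => A.InK Cl H
  iso := A.ck_iso Cl
  zero := A.ck_zero Cl
  sub := A.ck_sub Cl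
  quo := A.ck_quo Cl
  prod := A.ck_prod Cl

theorem dl_iso {Cl : Cls.{u} D.R} {B : Type v} [AddCommGroup B] (e : Adf Cl B) {M N : Type u}
    [AddCommGroup M] [Module A.R M] [AddCommGroup N] [Module A.R N] (f : M ≃ₗ[A.R] N)
    (h : (A.cK Cl).P M) : A.dl e M = A.dl e N := by
  have h1 : ∀ j, e.e (A.Eg j M) = e.e (A.Eg j N) := fun j =>
    e.iso (LinearEquiv.ofBijective (A.egm j (f : M →ₗ[A.R] N))
      ⟨A.egm_inj j _ f.injective, A.egm_surj h.k j _ f.surjective⟩) (h.e j)
  unfold dl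
  rw [h1 0, h1 1]

theorem dl_add {Cl : Cls.{u} D.R} {B : Type v} [AddCommGroup B] (e : Adf Cl B) {M : Type u}
    [AddCommGroup M] [Module A.R M] (N : Submodule A.R M)
    (h : (A.cK Cl).P M) : A.dl e M = A.dl e N + A.dl e (M ⧸ N) := by
  have h1 : ∀ j, e.e (A.Eg j M) = e.e (A.Eg j N) + e.e (A.Eg j (M ⧸ N)) := by
    intro j
    refine adf_ses e (h.e j) (A.egm j N.subtype) (A.egm j N.mkQ)
      (A.egm_inj j _ N.subtype_injective) (A.egm_surj h.k j _ N.mkQ_surjective) ?_
    intro y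
    refine A.egm_exact (A.isK_sub h.k N) j N.subtype N.mkQ N.subtype_injective ?_ y
    intro m
    rw [Submodule.mkQ_apply, Submodule.Quotient.mk_eq_zero]
    exact ⟨fun hm => ⟨⟨m, hm⟩, rfl⟩, fun ⟨x, hx⟩ => hx ▸ x.2⟩
  unfold dl
  rw [h1 0, h1 1]
  abel

/-- the additive function `H ↦ e (H_0) - e (H_1)` -/
def dlA {Cl : Cls.{u} D.R} {B : Type v} [AddCommGroup B] (e : Adf Cl B) : Adf (A.cK Cl) B where
  e := fun H _ _ => A.dl e H
  iso := A.dl_iso e
  add := A.dl_add e

end Adm

end MSA
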