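import Mathlib
import Pool.Agent.MSA.Prd

/-!
# Slots generate `S_k`; the tensor power on pure tensors

PROOFS.
`slot_gen`: `X (i,j) = C (1/k) * ∑_l C (ζ^{-jl}) * slot l (X i)` (insert the definition of `slot`;
`∑_l ζ^{(j'-j) l} = 0` for `j' ≠ j`, `= k` for `j' = j`), so a subring that contains all `slot l s` (hence the
constants `C c = slot 0 (C c)`) is everything (`MvPolynomial.induction_on`).
`lin_slot`: `slot_gen` for the subring of the `s` with `f (iot s • z) = iot s • f z` for all `z`.
`slot_tpk`: for fixed `l` both sides are additive in `s`; the set of `s` for which the formula holds for all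
`m` is a subring; `C c`: `pka_C`, multilinearity; `X i`: `slot l (X i) = ∑_j C (ζ^{jl}) X (i,j)` acts as
`∑_j ζ^{jl} yop (i,j) = sl l (xop i)` (orthogonality), then `sl_tp`.
`tpk_closure`: `PiTensorProduct` induction; `c • tpk m = tpk (update m 0 (c • m 0))`.
`bs_tpk`, `cyc_tpk`: `rgModule_gam` and `smp_tp`.
-/

set_option autoImplicit false
set_option linter.unusedSectionVars false

noncomputable section

namespace MSA

universe u v w

namespace Adm

variable {D : Dat.{u}} (A : Adm D)

theorem slot_C (l : ZMod A.k) (c : D.L) : A.slot l (MvPolynomial.C c) = MvPolynomial.C c := by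
  simp [slot]

theorem zp_sum (j : ZMod A.k) : ∑ l : ZMod A.k, A.zp (j * l) = if j = 0 then (A.k : D.F) else 0 := by
  by_cases hj : j = 0
  · subst hj
    rw [if_pos rfl]
    simp only [zero_mul, zp_zero, Finset.sum_const, Finset.card_univ, ZMod.card, nsmul_eq_mul,
      mul_one]
  · rw [if_neg hj]
    have h1 : ∑ l : ZMod A.k, A.zp (j * l) = A.zp j * ∑ l : ZMod A.k, A.zp (j * l) := by
      conv_lhs => rw [← Equiv.sum_comp (Equiv.addLeft (1 : ZMod A.k))]
      rw [Finset.mul_sum]
      refine Finset.sum_congr rfl fun l _ => ?_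
      rw [← zp_add]
      congr 1
      simp [mul_add]
    have h2 : A.zp j ≠ 1 := by
      intro h
      have h3 : A.k ∣ j.val := (A.hz.pow_eq_one_iff_dvd j.val).1 h
      have h4 : j.val < A.k := ZMod.val_lt j
      have h5 : j.val = 0 := Nat.eq_zero_of_dvd_of_lt h3 h4
      exact hj ((ZMod.val_eq_zero j).1 h5)
    have h3 : (1 - A.zp j) * ∑ l : ZMod A.k, A.zp (j * l) = 0 := by
      rw [sub_mul, one_mul, ← h1, sub_self]
    exact (mul_eq_zero.1 h3).resolve_left (sub_ne_zero.2 (Ne.symm h2))

private theorem slot_X (l : ZMod A.k) (i : Fin D.p) : A.slot l (MvPolynomial.X i) =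
    ∑ j, MvPolynomial.C (algebraMap D.F D.L (A.zp (j * l))) * MvPolynomial.X (i, j) := by
  simp [slot]

private theorem X_slot (i : Fin D.p) (j : ZMod A.k) : (MvPolynomial.X (i, j) : A.S) =
    MvPolynomial.C (algebraMap D.F D.L (A.k : D.F)⁻¹) *
      ∑ l, MvPolynomial.C (algebraMap D.F D.L (A.zp (-(j * l)))) * A.slot l (MvPolynomial.X i) := by
  have h1 : ∑ l, (MvPolynomial.C (algebraMap D.F D.L (A.zp (-(j * l)))) *
      A.slot l (MvPolynomial.X i) : A.S) =
      MvPolynomial.C (algebraMap D.F D.L (A.k : D.F)) * MvPolynomial.X (i, j) := by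
    simp only [slot_X, Finset.mul_sum]
    rw [Finset.sum_comm]
    have h2 : ∀ j' : ZMod A.k, ∑ l : ZMod A.k,
        (MvPolynomial.C (algebraMap D.F D.L (A.zp (-(j * l)))) *
          (MvPolynomial.C (algebraMap D.F D.L (A.zp (j' * l))) * MvPolynomial.X (i, j')) : A.S) =
        MvPolynomial.C (algebraMap D.F D.L (∑ l : ZMod A.k, A.zp ((j' - j) * l))) *
          MvPolynomial.X (i, j') := by
      intro j'
      rw [map_sum, map_sum, Finset.sum_mul]
      refine Finset.sum_congr rfl fun l _ => ?_
      rw [← mul_assoc, ← map_mul, ← map_mul, ← zp_add]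
      congr 4
      ring
    simp only [h2, zp_sum]
    rw [Finset.sum_eq_single j]
    · rw [if_pos (sub_self j)]
    · intro j' _ hj'
      rw [if_neg (sub_ne_zero.2 hj'), map_zero, map_zero, zero_mul]
    · intro h
      exact absurd (Finset.mem_univ j) h
  rw [h1, ← mul_assoc, ← map_mul, ← map_mul, inv_mul_cancel₀ A.hkF, map_one, map_one, one_mul]

/-- The slots generate. -/
theorem slot_gen (P : Subring A.S) (h : ∀ l s, A.slot l s ∈ P) : P = ⊤ := by
  have hC : ∀ c : D.L, (MvPolynomial.C c : A.S) ∈ P := fun c => by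
    have := h 0 (MvPolynomial.C c)
    rwa [slot_C] at this
  have hall : ∀ s : A.S, s ∈ P := by
    intro s
    induction s using MvPolynomial.induction_on with
    | C c => exact hC c
    | add p q hp hq => exact P.add_mem hp hq
    | mul_X p x hp =>
      refine P.mul_mem hp ?_
      obtain ⟨i, j⟩ := x
      rw [X_slot]
      exact P.mul_mem (hC _) (P.sum_mem fun l _ => P.mul_mem (hC _) (h l _))
  rw [eq_top_iff]
  intro s _
  exact hall s

/-- `slot l s - avg s` lies in the ideal generated by the `Y_{i,j}`, `j ≠ 0`. -/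
theorem slot_sub_avg (l : ZMod A.k) (s : D.S) : A.slot l s - A.avg s ∈
    Ideal.span (Set.range (fun x : A.JT => (MvPolynomial.X x.1 : A.S))) := by
  have h : (Ideal.Quotient.mk (Ideal.span (Set.range
      (fun x : A.JT => (MvPolynomial.X x.1 : A.S))))).comp (A.slot l) =
      (Ideal.Quotient.mk (Ideal.span (Set.range
      (fun x : A.JT => (MvPolynomial.X x.1 : A.S))))).comp A.avg := by
    apply MvPolynomial.ringHom_ext
    · intro c
      simp [avg, slot_C]
    · intro i
      rw [RingHom.comp_apply, RingHom.comp_apply]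
      have ha : A.avg (MvPolynomial.X i) = MvPolynomial.X (i, 0) := by simp [avg]
      rw [ha, slot_X, map_sum, Finset.sum_eq_single 0]
      · rw [zero_mul, zp_zero, map_one, map_one, one_mul]
      · intro j _ hj
        have hm : (MvPolynomial.X (i, j) : A.S) ∈ Ideal.span (Set.range
            (fun x : A.JT => (MvPolynomial.X x.1 : A.S))) :=
          Ideal.subset_span ⟨(⟨(i, j), hj⟩ : A.JT), rfl⟩
        rw [map_mul, Ideal.Quotient.eq_zero_iff_mem.2 hm, mul_zero]
      · intro h
        exact absurd (Finset.mem_univ _) h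
  rw [← Ideal.Quotient.eq_zero_iff_mem, map_sub, sub_eq_zero]
  exact congrArg (fun t => t s) h

section

variable {Z Z' : Type u} [AddCommGroup Z] [Module A.R Z] [AddCommGroup Z'] [Module A.R Z']

/-- An additive map commuting with the slots and the generators is linear. -/
def linSlot (f : Z →+ Z')
    (hS : ∀ (l : ZMod A.k) (s : D.S) z, f (iot A.ph (A.slot l s) • z) = iot A.ph (A.slot l s) • f z)
    (hg : ∀ g z, f (gam A.ph g • z) = gam A.ph g • f z) : Z →ₗ[A.R] Z' :=
  mkLin f (fun s => by
    have h := A.slot_gen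
      { carrier := {s | ∀ z, f (iot A.ph s • z) = iot A.ph s • f z}
        mul_mem' := fun {a b} ha hb z => by
          rw [map_mul, mul_smul, mul_smul, ha, hb]
        one_mem' := fun z => by
          show f (iot A.ph 1 • z) = iot A.ph 1 • f z
          rw [map_one, one_smul, one_smul]
        add_mem' := fun {a b} ha hb z => by
          rw [map_add, add_smul, add_smul, map_add, ha, hb]
        zero_mem' := fun z => by
          show f (iot A.ph 0 • z) = iot A.ph 0 • f z
          rw [map_zero, zero_smul, zero_smul, map_zero]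
        neg_mem' := fun {a} ha z => by
          rw [map_neg, neg_smul, neg_smul, map_neg, ha] } hS
    have h2 : s ∈ (⊤ : Subring A.S) := Subring.mem_top s
    rw [← h] at h2
    exact h2) hg

theorem linSlot_apply (f : Z →+ Z') (hS) (hg) (z : Z) : A.linSlot f hS hg z = f z := rfl

/-- a subgroup stable under the slots and the generators is a submodule -/
theorem sub_slot (N : AddSubgroup Z) (hS : ∀ (l : ZMod A.k) (s : D.S), ∀ z ∈ N,
    iot A.ph (A.slot l s) • z ∈ N) (s : A.S) (z : Z) (hz : z ∈ N) : iot A.ph s • z ∈ N := by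
  have h := A.slot_gen
      { carrier := {s | ∀ z ∈ N, iot A.ph s • z ∈ N}
        mul_mem' := fun {a b} ha hb z hz => by
          rw [map_mul, mul_smul]
          exact ha _ (hb z hz)
        one_mem' := fun z hz => by
          show iot A.ph 1 • z ∈ N
          rw [map_one, one_smul]
          exact hz
        add_mem' := fun {a b} ha hb z hz => by
          rw [map_add, add_smul]
          exact N.add_mem (ha z hz) (hb z hz)
        zero_mem' := fun z hz => by
          show iot A.ph 0 • z ∈ N
          rw [map_zero, zero_smul]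
          exact N.zero_mem
        neg_mem' := fun {a} ha z hz => by
          rw [map_neg, neg_smul]
          exact N.neg_mem (ha z hz) } (fun l s z hz => hS l s z hz)
  have h2 : s ∈ (⊤ : Subring A.S) := Subring.mem_top s
  rw [← h] at h2
  exact h2 z hz

end

section

variable {M M' M'' : Type u} [AddCommGroup M] [Module D.R M] [AddCommGroup M'] [Module D.R M']
variable [AddCommGroup M''] [Module D.R M'']

/-- pure tensors in the tensor power -/
def tpk (m : ZMod A.k → M) : A.Pk M := A.tp (V := UL D M) m

private theorem tpk_smul_aux (c : D.L) (l : ZMod A.k) (m : ZMod A.k → M) : A.tpk (Function.update m l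
    (iot D.ph (MvPolynomial.C c) • m l)) = (c • A.tp (V := UL D M) m : A.PV (UL D M)) := by
  have h := A.tp_update_smul (V := UL D M) m l c (m l)
  rw [Function.update_eq_self] at h
  exact h

theorem tpk_closure : AddSubgroup.closure (Set.range (A.tpk (M := M))) = ⊤ := by
  have h : ∀ x : A.Pk M, x ∈ AddSubgroup.closure (Set.range (A.tpk (M := M))) := by
    intro x
    refine PiTensorProduct.induction_on (motive := fun x : A.PV (UL D M) =>
      (x : A.Pk M) ∈ AddSubgroup.closure (Set.range (A.tpk (M := M)))) x ?_ ?_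
    · intro c m
      exact AddSubgroup.subset_closure ⟨_, A.tpk_smul_aux c 0 m⟩
    · intro x y hx hy
      exact AddSubgroup.add_mem _ hx hy
  rw [eq_top_iff]
  intro x _
  exact h x

theorem tpk_ext {U : Type*} [AddCommGroup U] {f g : A.Pk M →+ U}
    (h : ∀ m, f (A.tpk m) = g (A.tpk m)) : f = g := by
  refine AddMonoidHom.ext fun x => ?_
  have hx : x ∈ AddSubgroup.closure (Set.range (A.tpk (M := M))) := by
    rw [tpk_closure]
    exact AddSubgroup.mem_top x
  refine AddSubgroup.closure_induction (p := fun x _ => f x = g x) ?_ ?_ ?_ ?_ hx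
  · rintro _ ⟨m, rfl⟩
    exact h m
  · rw [map_zero, map_zero]
  · intro a b _ _ ha hb
    rw [map_add, map_add, ha, hb]
  · intro a _ ha
    rw [map_neg, map_neg, ha]

theorem tpk_update_add (m : ZMod A.k → M) (l : ZMod A.k) (x y : M) :
    A.tpk (Function.update m l (x + y)) =
      A.tpk (Function.update m l x) + A.tpk (Function.update m l y) :=
  A.tp_update_add (V := UL D M) m l x y

private theorem pk_iot (s : A.S) (z : A.Pk M) : iot A.ph s • z = A.pks M s z :=
  rgModule_iot A.ph (A.pks M) (A.pkg M) (A.pk_compat M) s z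

private theorem pk_gam (g : Gk D.F) (z : A.Pk M) : gam A.ph g • z = A.pkg M g z :=
  rgModule_gam A.ph (A.pks M) (A.pkg M) (A.pk_compat M) g z

private theorem sum_yop {V : Type u} [AddCommGroup V] [Module D.L V] (x : Fin D.p → V →ₗ[D.L] V)
    (i : Fin D.p) (l : ZMod A.k) :
    ∑ j, algebraMap D.F D.L (A.zp (j * l)) • A.yop V x (i, j) = A.sl l (x i) := by
  have h2 : ∀ l' : ZMod A.k, ∑ j : ZMod A.k, algebraMap D.F D.L (A.zp (j * l)) *
      (algebraMap D.F D.L (A.k : D.F)⁻¹ * algebraMap D.F D.L (A.zp (-(j * l')))) =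
      algebraMap D.F D.L ((A.k : D.F)⁻¹ * ∑ j, A.zp ((l - l') * j)) := by
    intro l'
    rw [Finset.mul_sum, map_sum]
    refine Finset.sum_congr rfl fun j _ => ?_
    rw [mul_left_comm, ← map_mul, ← map_mul, ← zp_add]
    congr 3
    ring
  unfold yop
  simp only [Finset.smul_sum, smul_smul]
  rw [Finset.sum_comm]
  simp only [← Finset.sum_smul, h2, zp_sum]
  rw [Finset.sum_eq_single l]
  · rw [if_pos (sub_self l), inv_mul_cancel₀ A.hkF, map_one, one_smul]
  · intro l' _ hl'
    rw [if_neg (sub_ne_zero.2 (Ne.symm hl')), mul_zero, map_zero, zero_smul]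
  · intro h
    exact absurd (Finset.mem_univ l) h

private theorem slotX_pk (l : ZMod A.k) (i : Fin D.p) (z : A.Pk M) :
    iot A.ph (A.slot l (MvPolynomial.X i)) • z = A.sl (V := UL D M) l (xop D M i) z := by
  rw [pk_iot, slot_X, map_sum]
  have h1 : ∀ j : ZMod A.k, A.pks M (MvPolynomial.C (algebraMap D.F D.L (A.zp (j * l))) *
      MvPolynomial.X (i, j)) z =
      (algebraMap D.F D.L (A.zp (j * l)) • A.yop (UL D M) (xop D M) (i, j)) z := by
    intro j
    rw [map_mul]
    show A.pks M _ (A.pks M _ z) = _
    have hCC : ∀ (c : D.L) (z : A.Pk M), A.pks M (MvPolynomial.C c) z = c • z := fun c z =>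
      A.pka_C (UL D M) (xop D M) (xop_comm D M) c z
    have hXX : ∀ q (z : A.Pk M), A.pks M (MvPolynomial.X q) z =
        A.yop (UL D M) (xop D M) q z :=
      fun q z => A.pka_X (UL D M) (xop D M) (xop_comm D M) q z
    rw [hCC, hXX]
    rfl
  have h2 := congrArg (fun t : Module.End D.L (A.PV (UL D M)) => t z)
    (A.sum_yop (xop D M) i l)
  rw [← h2]
  show _ = (∑ j, algebraMap D.F D.L (A.zp (j * l)) • A.yop (UL D M) (xop D M) (i, j) :
    Module.End D.L (A.PV (UL D M))) z
  rw [LinearMap.sum_apply]
  refine Eq.trans (AddMonoidHom.finsetSum_apply _ _ _) ?_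
  exact Finset.sum_congr rfl fun j _ => h1 j

theorem slot_tpk (l : ZMod A.k) (s : D.S) (m : ZMod A.k → M) :
    iot A.ph (A.slot l s) • A.tpk m = A.tpk (Function.update m l (iot D.ph s • m l)) := by
  induction s using MvPolynomial.induction_on generalizing m with
  | C c =>
    rw [slot_C, pk_iot, tpk_smul_aux]
    exact A.pka_C (UL D M) (xop D M) (xop_comm D M) c _
  | add p q hp hq =>
    rw [map_add, map_add, add_smul, hp, hq, map_add, add_smul, tpk_update_add]
  | mul_X p i hp =>
    rw [map_mul, map_mul, mul_smul, slotX_pk]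
    have h := A.sl_tp (V := UL D M) l (xop D M i) m
    have h2 : A.sl (V := UL D M) l (xop D M i) (A.tpk m) =
      A.tpk (Function.update m l (iot D.ph (MvPolynomial.X i) • m l)) := h
    rw [h2, hp, Function.update_self, Function.update_idem, map_mul, mul_smul]

theorem bs_tpk (g : Gn D.F) (m : ZMod A.k → M) :
    gam A.ph (Gk.bs g) • A.tpk m = A.tpk (fun l => gam D.ph g • m l) := by
  rw [pk_gam]
  cases g with
  | tau =>
    exact A.smp_tp (V := UL D M) (W := UL D M) (D.s : D.L →+* D.L) (genA D M Gn.tau)
      (genA_tau D M) (Equiv.refl _) m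
  | th c' =>
    exact A.smp_tp (V := UL D M) (W := UL D M) (RingHom.id D.L)
      (genA D M (Gn.th c')) (genA_th D M c') (Equiv.refl _) m

theorem cyc_tpk (m : ZMod A.k → M) :
    gam A.ph Gk.cyc • A.tpk m = A.tpk (fun l => m (l - 1)) := by
  rw [pk_gam]
  exact A.smp_tp (V := UL D M) (W := UL D M) (RingHom.id D.L) (AddMonoidHom.id (UL D M))
      (fun _ _ => rfl) (Equiv.subRight 1) m

/-- `L`-linear maps (additive, commuting with the constants) induce maps of tensor powers; one
map for each slot. -/
def pfm (f : ZMod A.k → (M →+ M'))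
    (hf : ∀ l (c : D.L) m, f l (iot D.ph (MvPolynomial.C c) • m) =
      iot D.ph (MvPolynomial.C c) • f l m) : A.Pk M →+ A.Pk M' :=
  (PiTensorProduct.map (R := D.L) (s := fun _ : ZMod A.k => UL D M) (t := fun _ => UL D M')
    (fun l => ({ toFun := f l
                 map_add' := map_add (f l)
                 map_smul' := hf l } : UL D M →ₗ[D.L] UL D M'))).toAddMonoidHom

theorem pfm_tpk (f : ZMod A.k → (M →+ M')) (hf) (m : ZMod A.k → M) :
    A.pfm f hf (A.tpk m) = A.tpk (fun l => f l (m l)) :=
  PiTensorProduct.map_tprod (R := D.L) (s := fun _ : ZMod A.k => UL D M)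
    (t := fun _ => UL D M') _ m

theorem lin_C (f : M →ₗ[D.R] M') (c : D.L) (m : M) : f (iot D.ph (MvPolynomial.C c) • m) =
    iot D.ph (MvPolynomial.C c) • f m := f.map_smul _ _

/-- functoriality of the tensor power -/
def pkm (f : M →ₗ[D.R] M') : A.Pk M →ₗ[A.R] A.Pk M' :=
  A.linSlot (A.pfm (fun _ => f.toAddMonoidHom) (fun _ => lin_C f))
    (fun l s z => by
      have h : (A.pfm (fun _ => f.toAddMonoidHom) (fun _ => lin_C f)).comp
          (DistribSMul.toAddMonoidHom (A.Pk M) (iot A.ph (A.slot l s))) =
          (DistribSMul.toAddMonoidHom (A.Pk M') (iot A.ph (A.slot l s))).comp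
            (A.pfm (fun _ => f.toAddMonoidHom) (fun _ => lin_C f)) := by
        apply A.tpk_ext
        intro m
        show A.pfm _ _ (iot A.ph (A.slot l s) • A.tpk m) = iot A.ph (A.slot l s) • A.pfm _ _ (A.tpk m)
        rw [pfm_tpk, slot_tpk, slot_tpk, pfm_tpk]
        congr 1
        funext l'
        by_cases hl : l' = l
        · subst hl
          simp
        · simp [hl]
      exact congrArg (fun t : A.Pk M →+ A.Pk M' => t z) h)
    (fun g z => by
      have h : (A.pfm (fun _ => f.toAddMonoidHom) (fun _ => lin_C f)).comp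
          (DistribSMul.toAddMonoidHom (A.Pk M) (gam A.ph g)) =
          (DistribSMul.toAddMonoidHom (A.Pk M') (gam A.ph g)).comp
            (A.pfm (fun _ => f.toAddMonoidHom) (fun _ => lin_C f)) := by
        apply A.tpk_ext
        intro m
        show A.pfm _ _ (gam A.ph g • A.tpk m) = gam A.ph g • A.pfm _ _ (A.tpk m)
        rw [pfm_tpk]
        cases g with
        | bs g =>
          rw [bs_tpk, bs_tpk, pfm_tpk]
          congr 1
          funext l
          exact f.map_smul _ _
        | cyc =>
          rw [cyc_tpk, cyc_tpk, pfm_tpk]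
      exact congrArg (fun t : A.Pk M →+ A.Pk M' => t z) h)

theorem pkm_tpk (f : M →ₗ[D.R] M') (m : ZMod A.k → M) :
    A.pkm f (A.tpk m) = A.tpk (fun l => f (m l)) := A.pfm_tpk _ _ m

end

end Adm

end MSA
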