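import Mathlib
import Pool.Agent.MSA.Slo
import Pool.Agent.MSA.EgA
import Pool.Agent.MSA.IsKA
import Pool.Agent.MSA.IsKA

/-!
# Eigenspaces of finitely generated modules on which the `Y_{i,j}`, `j ≠ 0`, act as zero

PROOFS.
`slot_avg`: `slot_sub_avg` and `KilY` (the annihilator of `h` in `S_k` is an ideal, the variables lie in it).
`eg_wts`: the weight spaces of `A.Eg j H` are the intersections with those of `H` (`res (gam (th c)) =
gam (bs (th c))`, `res (iot f) = iot (avg f)`, `avg` fixes `F`). Weight decomposition of an element of the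
eigenspace: its components are obtained from it by operators of the skew ring (`wt_mem_sub` for the
submodule over the subring, or: apply `P_j` of `MSA/EgA` to the components in `H` (the shift preserves
weights since it commutes with `bs (th c)`)).
`eg_fin`: let `h_1, ..., h_r` generate `H` over `S_k`. By `KilY` and `slot_avg` (`S_k` is generated by the slots,
`slot_gen`) they generate `H` over `S` through `avg`. The projections `P_j h_i` (`EgA`, `eg_sum`) generate
`A.Eg j H` over `S`: `P_j (iot (avg s) • h) = iot (avg s) • P_j h`.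
`eg_kil`: for `s ∈ I`: `iot s` acts on the eigenspace as `iot (avg s) = iot (slot 0 s)`.
-/

set_option autoImplicit false
set_option linter.unusedSectionVars false

noncomputable section

namespace MSA

universe u v w

namespace Adm

variable {D : Dat.{u}} (A : Adm D)

variable {H : Type u} [AddCommGroup H] [Module A.R H]

theorem slot_avg (hY : A.KilY H) (l : ZMod A.k) (s : D.S) (h : H) :
    iot A.ph (A.slot l s) • h = iot A.ph (A.avg s) • h := by
  have key : ∀ t ∈ Ideal.span (Set.range (fun x : A.JT => (MvPolynomial.X x.1 : A.S))),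
      iot A.ph t • h = 0 := by
    intro t ht
    refine Submodule.span_induction (p := fun t _ => iot A.ph t • h = 0) ?_ ?_ ?_ ?_ ht
    · rintro _ ⟨x, rfl⟩
      exact hY x.1 x.2 h
    · rw [map_zero, zero_smul]
    · intro a b _ _ ha hb
      rw [map_add, add_smul, ha, hb, add_zero]
    · intro a b _ hb
      rw [smul_eq_mul, map_mul, mul_smul, hb, smul_zero]
  have h1 := key _ (A.slot_sub_avg l s)
  rw [map_sub, sub_smul, sub_eq_zero] at h1
  exact h1

theorem res_iot (s : D.S) : A.res (iot D.ph s) = iot A.ph (A.avg s) :=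
  rgHom_iot D.ph ((iot A.ph).comp A.avg) (fun g => gam A.ph (Gk.bs g)) _ s

theorem res_gam (g : Gn D.F) : A.res (gam D.ph g) = gam A.ph (Gk.bs g) :=
  rgHom_gam D.ph ((iot A.ph).comp A.avg) (fun g => gam A.ph (Gk.bs g)) _ g

private theorem egg_avgF (a : D.F) : A.avg (algebraMap D.F D.S a) = algebraMap D.F A.S a := by
  have h1 : algebraMap D.F D.S a = MvPolynomial.C (algebraMap D.F D.L a) := rfl
  have h2 : algebraMap D.F A.S a = MvPolynomial.C (algebraMap D.F D.L a) := rfl
  rw [h1, h2]
  simp [avg]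

theorem eg_wt (j : ZMod A.k) (n : ℤ) (x : A.Eg j H) :
    x ∈ wt D.F D.ph (A.Eg j H) n ↔ A.egi j x ∈ wt D.F A.ph H n := by
  have e1 : ∀ c : D.Fˣ, A.egi j (gam D.ph (HasTh.th c) • x) =
      gam A.ph (HasTh.th c) • A.egi j x := by
    intro c
    rw [egi_smul]
    exact congrArg (fun t => t • A.egi j x) (A.res_gam (HasTh.th c))
  have e2 : ∀ a : D.F, A.egi j (iot D.ph (algebraMap D.F D.S a) • x) =
      iot A.ph (algebraMap D.F A.S a) • A.egi j x := by
    intro a
    rw [egi_smul, res_iot, egg_avgF]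
  constructor
  · intro hx c
    have h1 := congrArg (A.egi j) (hx c)
    rw [e1, e2] at h1
    exact h1
  · intro hx c
    apply A.egi_inj j
    rw [e1, e2]
    exact hx c

theorem egg_cyc_wt (hK : A.IsK H) {n : ℤ} {m : H} (hm : m ∈ wt D.F A.ph H n) :
    gam A.ph Gk.cyc • m ∈ wt D.F A.ph H n := by
  intro c
  have h1 : gam A.ph (HasTh.th c) • gam A.ph Gk.cyc • m =
      gam A.ph Gk.cyc • gam A.ph (HasTh.th c) • m := (hK.com (Gn.th c) m).symm
  rw [h1, hm c, ← mul_smul, gam_mul_iot, FixF.fix (φ := A.ph), mul_smul]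

theorem egg_comp (hK : A.IsK H) (j : ZMod A.k) (f : ℤ →₀ H) (hf : ∀ n, f n ∈ wt D.F A.ph H n)
    (h : gam A.ph Gk.cyc • (f.sum fun _ x => x) =
      iot A.ph (algebraMap D.F A.S (A.zp j)) • (f.sum fun _ x => x)) (n : ℤ) :
    gam A.ph Gk.cyc • f n = iot A.ph (algebraMap D.F A.S (A.zp j)) • f n := by
  obtain ⟨T, hT⟩ : ∃ T : H →+ H, ∀ x, T x = gam A.ph Gk.cyc • x -
      iot A.ph (algebraMap D.F A.S (A.zp j)) • x :=
    ⟨DistribSMul.toAddMonoidHom H (gam A.ph Gk.cyc) -
      DistribSMul.toAddMonoidHom H (iot A.ph (algebraMap D.F A.S (A.zp j))), fun x => rfl⟩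
  have h1 : (f.mapRange T (map_zero T) : ℤ →₀ H) = 0 := by
    apply wt_indep (F := D.F) (φ := A.ph)
    · intro k
      rw [Finsupp.mapRange_apply, hT]
      exact AddSubgroup.sub_mem _ (A.egg_cyc_wt hK (hf k)) (wt_smul (hf k) _)
    · rw [Finsupp.sum_mapRange_index (fun _ => rfl)]
      have h2 : (f.sum fun _ x => T x) = T (f.sum fun _ x => x) := by
        rw [Finsupp.sum, Finsupp.sum, map_sum]
      rw [h2, hT, h, sub_self]
  have h3 := DFunLike.congr_fun h1 n
  rw [Finsupp.mapRange_apply, hT, Finsupp.zero_apply, sub_eq_zero] at h3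
  exact h3

theorem eg_wts (hK : A.IsK H) (j : ZMod A.k) : Wts D.F D.ph (A.Eg j H) D.p D.b := by
  refine ⟨?_, ?_, ?_⟩
  · rw [eq_top_iff]
    intro x _
    obtain ⟨f, hf, hfx⟩ := wt_decomp hK.wts (A.egi j x)
    have hx : gam A.ph Gk.cyc • A.egi j x =
        iot A.ph (algebraMap D.F A.S (A.zp j)) • A.egi j x := by
      have h1 := A.egi_mem j x 1
      rwa [map_one, one_smul] at h1
    have hc := A.egg_comp hK j f hf (by rw [hfx]; exact hx)
    have h1 : x = ∑ n ∈ f.support, A.egk j (f n) ((A.eg_mem hK j _).2 (hc n)) := by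
      apply A.egi_inj j
      rw [map_sum]
      exact hfx.symm
    rw [h1]
    refine AddSubgroup.sum_mem _ fun n _ => AddSubgroup.mem_iSup_of_mem n ?_
    rw [eg_wt]
    exact hf n
  · intro n m hm
    rw [eg_wt] at hm ⊢
    have h1 : A.egi j (gam D.ph (HasTh.tau D.F) • m) =
        gam A.ph (HasTh.tau D.F) • A.egi j m := by
      rw [egi_smul]
      exact congrArg (fun t => t • A.egi j m) (A.res_gam (HasTh.tau D.F))
    rw [h1]
    exact hK.wts.tau n _ hm
  · intro n m hm
    rw [eg_wt] at hm
    apply A.egi_inj j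
    have h1 : A.res (gam D.ph (HasTh.tau D.F)) = gam A.ph (HasTh.tau D.F) :=
      A.res_gam (HasTh.tau D.F)
    rw [egi_smul, egi_smul, map_pow, h1, res_iot, egg_avgF]
    exact hK.wts.taup n _ hm

/-- every element of `S_k` acts on `H` as an element of `S` -/
theorem egg_act (hY : A.KilY H) (s : A.S) :
    ∃ s' : D.S, ∀ h : H, iot A.ph s • h = iot A.ph (A.avg s') • h := by
  have h := A.slot_gen
    { carrier := {s | ∃ s' : D.S, ∀ h : H, iot A.ph s • h = iot A.ph (A.avg s') • h}
      mul_mem' := by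
        rintro a b ⟨a', ha⟩ ⟨b', hb⟩
        refine ⟨a' * b', fun h => ?_⟩
        rw [map_mul, mul_smul, hb, ha, map_mul, map_mul, mul_smul]
      one_mem' := ⟨1, fun h => by rw [map_one, map_one, map_one]⟩
      add_mem' := by
        rintro a b ⟨a', ha⟩ ⟨b', hb⟩
        refine ⟨a' + b', fun h => ?_⟩
        rw [map_add, add_smul, hb, ha, map_add, map_add, add_smul]
      zero_mem' := ⟨0, fun h => by rw [map_zero, map_zero, map_zero]⟩
      neg_mem' := by
        rintro a ⟨a', ha⟩
        refine ⟨-a', fun h => ?_⟩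
        rw [map_neg, neg_smul, ha, map_neg, map_neg, neg_smul] }
    (fun l s => ⟨s, fun h => A.slot_avg hY l s h⟩)
  have h2 : s ∈ (⊤ : Subring A.S) := Subring.mem_top s
  rw [← h] at h2
  exact h2

theorem egg_fin (hF : FinS A.ph H) (hY : A.KilY H) :
    @FinS D.S _ (Gn D.F) D.ph H _ (Module.compHom H A.res) := by
  let i0 : Module D.R H := Module.compHom H A.res
  have hr : ∀ (s : D.S) (h : H), iot D.ph s • h = iot A.ph (A.avg s) • h := by
    intro s h
    show A.res (iot D.ph s) • h = _
    rw [res_iot]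
  let i1 : Module A.S H := modS A.ph H
  let i2 : Module D.S H := modS D.ph H
  have hF' : Module.Finite A.S H := hF
  obtain ⟨t, ht⟩ := hF'.fg_top
  have key : Submodule.span D.S (t : Set H) = ⊤ := by
    let N' : Submodule A.S H :=
      { carrier := Submodule.span D.S (t : Set H)
        add_mem' := fun ha hb => Submodule.add_mem _ ha hb
        zero_mem' := Submodule.zero_mem _
        smul_mem' := by
          intro s x hx
          obtain ⟨s', hs'⟩ := A.egg_act hY s
          have h1 : s • x = s' • x := by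
            show iot A.ph s • x = iot D.ph s' • x
            rw [hs', hr]
          rw [h1]
          exact Submodule.smul_mem _ s' hx }
    have h1 : Submodule.span A.S (t : Set H) ≤ N' := Submodule.span_le.2 Submodule.subset_span
    rw [ht] at h1
    rw [eq_top_iff]
    intro x _
    exact h1 (Submodule.mem_top : x ∈ (⊤ : Submodule A.S H))
  exact (⟨⟨t, key⟩⟩ : Module.Finite D.S H)

theorem eg_fin (hZ : A.IsZ H) (hY : A.KilY H) (j : ZMod A.k) : FinS D.ph (A.Eg j H) := by
  let i0 : Module D.R H := Module.compHom H A.res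
  have h0 : IsNoetherianRing D.S := MvPolynomial.isNoetherianRing
  have h1 : FinS D.ph H := A.egg_fin hZ.fin hY
  exact finS_sub D.ph h1 (A.egs j H)

theorem eg_isG (hZ : A.IsZ H) (hY : A.KilY H) (j : ZMod A.k) : D.IsG (A.Eg j H) :=
  ⟨A.eg_fin hZ hY j, A.eg_wts hZ.k j⟩

theorem eg_kil (hY : A.KilY H) (I : Ideal D.S) (hI : A.Kil0 H I) (j : ZMod A.k) (s : D.S)
    (hs : s ∈ I) (x : A.Eg j H) : iot D.ph s • x = 0 := by
  apply A.egi_inj j
  rw [egi_smul, res_iot, map_zero, ← A.slot_avg hY 0 s]
  exact hI s hs _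

end Adm

end MSA
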