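import Mathlib
import Pool.Agent.MSA.KWt
import Pool.Agent.MSA.KHo
import Pool.Agent.MSA.EgG
import Pool.Agent.MSA.CK

/-!
# The homology of `T(Z)` is good

PROOFS. `tch_isZ0/1`: `isK_tot` for `A.kT` with `kTw`, `kTc`; `part i` is a submodule, the homology a
subquotient (`isK_sub`, `isK_quo`); finiteness `hom_fin0/1` (`S_k` Noetherian). `tch_kilY`: `hom_y0/1` (the `y_j` are
exactly the variables `Y_{i,j}`, `j ≠ 0`). `tch_kil0`: `hom_ann0/1`. `fin_T`: `eg_isG`, `eg_kil` and the hypothesis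
`hcl` (an object killed by `I` lies in `Cl`).
-/

set_option autoImplicit false
set_option linter.unusedSectionVars false

noncomputable section

namespace MSA

universe u v w

namespace Adm

variable {D : Dat.{u}} (A : Adm D)

variable {Z : Type u} [AddCommGroup Z] [Module A.R Z]

theorem tch_isK0 (h : A.IsK Z) : A.IsK (A.tch Z).H0 :=
  A.isK_quo (A.isK_sub (A.isK_sub (A.isK_tot A.kT A.kTw A.kTc h) (A.kT.part Z 0)) _) _

theorem tch_isK1 (h : A.IsK Z) : A.IsK (A.tch Z).H1 :=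
  A.isK_quo (A.isK_sub (A.isK_sub (A.isK_tot A.kT A.kTw A.kTc h) (A.kT.part Z 1)) _) _

theorem tch_isZ0 (h : A.IsZ Z) : A.IsZ (A.tch Z).H0 := by
  have h1 : IsNoetherianRing A.S := MvPolynomial.isNoetherianRing
  exact ⟨hom_fin0 A.kT h.fin, A.tch_isK0 h.k⟩

theorem tch_isZ1 (h : A.IsZ Z) : A.IsZ (A.tch Z).H1 := by
  have h1 : IsNoetherianRing A.S := MvPolynomial.isNoetherianRing
  exact ⟨hom_fin1 A.kT h.fin, A.tch_isK1 h.k⟩

theorem tch_kilY0 : A.KilY (A.tch Z).H0 := fun x hx z =>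
  hom_y0 A.kT (⟨x, hx⟩ : A.JT) z

theorem tch_kilY1 : A.KilY (A.tch Z).H1 := fun x hx z =>
  hom_y1 A.kT (⟨x, hx⟩ : A.JT) z

theorem tch_kil0 (I : Ideal D.S) (h : A.Kil0 Z I) :
    A.Kil0 (A.tch Z).H0 I ∧ A.Kil0 (A.tch Z).H1 I :=
  ⟨fun s hs x => hom_ann0 A.kT (A.slot 0 s) (h s hs) x,
    fun s hs x => hom_ann1 A.kT (A.slot 0 s) (h s hs) x⟩

/-- If all objects killed by `I` lie in `Cl`, the homology of `T(Z)` lies in `cK Cl`. -/
theorem fin_T (Cl : Cls.{u} D.R) (I : Ideal D.S)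
    (hcl : ∀ (M : Type u) [AddCommGroup M] [Module D.R M], D.IsG M →
      (∀ s ∈ I, ∀ m : M, iot D.ph s • m = 0) → Cl.P M)
    (hZ : A.IsZ Z) (hI : A.Kil0 Z I) : (A.tch Z).InC (A.cK Cl) := by
  have hk := A.tch_kil0 I hI
  refine ⟨⟨A.tch_isK0 hZ.k, A.tch_kilY0, fun j => ?_⟩, ⟨A.tch_isK1 hZ.k, A.tch_kilY1, fun j => ?_⟩⟩
  · exact hcl _ (A.eg_isG (A.tch_isZ0 hZ) A.tch_kilY0 j)
      (fun s hs m => A.eg_kil A.tch_kilY0 I hk.1 j s hs m)
  · exact hcl _ (A.eg_isG (A.tch_isZ1 hZ) A.tch_kilY1 j)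
      (fun s hs m => A.eg_kil A.tch_kilY1 I hk.2 j s hs m)

end Adm

end MSA
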