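import Mathlib
import Pool.Agent.MSA.FinT

/-!
# The tensor power `A.Pk M` of a good module is good

PROOFS. `tpk_wt`: `bs_tpk`: `θ_c` maps `tpk m` to `tpk (c^(n l) • m l)`, and scalars `c ∈ F` come out of every slot
(`slot_tpk` for `s = C c`, `slot_C`; product over `l`: `Finset` induction or `PiTensorProduct` multilinearity
`MultilinearMap.map_smul_univ` in the `L`-module structure of `UL D M`).
`tpk_gen_wt`: for fixed `m` write each `m l` as a finite sum of weight vectors (`wt_decomp`) and expand slot by slot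
(`tpk_update_add`): the set of `m` such that `tpk m` lies in the closure is all, by induction on the number of slots
that are not weight vectors.
`isK_pk`: `span`: `tpk_gen_wt`. `θ_c` and `τ` commute on `tpk m` with weight vectors `m l` (both generators fix `F`),
hence on `A.Pk M`, hence `τ` preserves the weight spaces. `τ^p` acts on `tpk m` as `b^(∑ n l)`; a vector of weight `n` is a
sum of pure tensors of weight vectors, those with `∑ n l ≠ n` cancel by `wt_indep` (group them by weight).
`cyc^k` and `com`: on pure tensors (`tpk_ext`, `cyc_tpk`, `bs_tpk`).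
`fin_pk`: if `m_1, ..., m_r` generate `M` over `S`, then the `tpk (fun l => m_(i l))`, `i : ZMod k → Fin r`, generate:
the `S_k`-span contains `tpk (fun l => s_l • m_(i l)) = (∏ slot l s_l) • tpk ..` (`slot_tpk`, slot by slot) and is
closed under sums in one slot. `kil0_pk`: `slot_tpk` with `l = 0`, `tpk_update_add` for zero.
`pk_egG0/1`: `isZ_pk`, `tch_isZ0/1`, `tch_kilY0/1`, `eg_isG`.
-/

set_option autoImplicit false
set_option linter.unusedSectionVars false

noncomputable section

namespace MSA

universe u v w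

namespace Adm

variable {D : Dat.{u}} (A : Adm D)

variable {M : Type u} [AddCommGroup M] [Module D.R M]

private theorem a_zero (m : ZMod A.k → M) (l : ZMod A.k) :
    A.tpk (Function.update m l 0) = 0 := by
  have h := A.tpk_update_add m l 0 0
  rw [add_zero] at h
  exact left_eq_add.1 h

private theorem a_sum {ι : Type*} (m : ZMod A.k → M) (l : ZMod A.k) (s : Finset ι) (x : ι → M) :
    A.tpk (Function.update m l (∑ i ∈ s, x i)) = ∑ i ∈ s, A.tpk (Function.update m l (x i)) := by
  classical
  induction s using Finset.induction_on with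
  | empty =>
    rw [Finset.sum_empty, Finset.sum_empty]
    exact A.a_zero m l
  | insert a s ha ih =>
    rw [Finset.sum_insert ha, Finset.sum_insert ha, A.tpk_update_add, ih]

private theorem a_slot (l : ZMod A.k) (a : D.F) :
    A.slot l (algebraMap D.F D.S a) = algebraMap D.F A.S a :=
  A.slot_C l (algebraMap D.F D.L a)

private theorem a_scal_aux (m : ZMod A.k → M) (a : ZMod A.k → D.F) (s : Finset (ZMod A.k)) :
    A.tpk (fun l => if l ∈ s then iot D.ph (algebraMap D.F D.S (a l)) • m l else m l) =
      iot A.ph (algebraMap D.F A.S (∏ l ∈ s, a l)) • A.tpk m := by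
  classical
  induction s using Finset.induction_on with
  | empty =>
    have h0 : (fun l : ZMod A.k => if l ∈ (∅ : Finset (ZMod A.k)) then
        iot D.ph (algebraMap D.F D.S (a l)) • m l else m l) = m := by
      funext l
      exact if_neg (Finset.notMem_empty l)
    rw [Finset.prod_empty, map_one, map_one, one_smul, h0]
  | insert b s hb ih =>
    rw [Finset.prod_insert hb, map_mul, map_mul, mul_smul, ← ih, ← A.a_slot b, A.slot_tpk]
    congr 1
    funext l
    by_cases hl : l = b
    · subst hl
      rw [Function.update_self, if_pos (Finset.mem_insert_self l s), if_neg hb]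
    · rw [Function.update_of_ne hl]
      by_cases hs : l ∈ s
      · rw [if_pos hs, if_pos (Finset.mem_insert_of_mem hs)]
      · rw [if_neg hs, if_neg]
        intro h
        rcases Finset.mem_insert.1 h with h | h
        · exact hl h
        · exact hs h

private theorem a_scal (m : ZMod A.k → M) (a : ZMod A.k → D.F) :
    A.tpk (fun l => iot D.ph (algebraMap D.F D.S (a l)) • m l) =
      iot A.ph (algebraMap D.F A.S (∏ l, a l)) • A.tpk m := by
  rw [← A.a_scal_aux m a Finset.univ]
  congr 1
  funext l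
  rw [if_pos (Finset.mem_univ l)]

private theorem a_zpow {G : Type*} [CommGroup G] (c : G) {ι : Type*} (s : Finset ι) (n : ι → ℤ) :
    ∏ l ∈ s, c ^ n l = c ^ (∑ l ∈ s, n l) := by
  classical
  induction s using Finset.induction_on with
  | empty => rw [Finset.prod_empty, Finset.sum_empty, zpow_zero]
  | insert a s ha ih => rw [Finset.prod_insert ha, Finset.sum_insert ha, zpow_add, ih]

private theorem a_zpow0 {F : Type*} [Field F] (c : F) (hc : c ≠ 0) {ι : Type*} (s : Finset ι)
    (n : ι → ℤ) : ∏ l ∈ s, c ^ n l = c ^ (∑ l ∈ s, n l) := by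
  classical
  induction s using Finset.induction_on with
  | empty => rw [Finset.prod_empty, Finset.sum_empty, zpow_zero]
  | insert a s ha ih => rw [Finset.prod_insert ha, Finset.sum_insert ha, zpow_add₀ hc, ih]

theorem tpk_wt (m : ZMod A.k → M) (n : ZMod A.k → ℤ) (h : ∀ l, m l ∈ wt D.F D.ph M (n l)) :
    A.tpk m ∈ wt D.F A.ph (A.Pk M) (∑ l, n l) := by
  intro c
  show gam A.ph (Gk.bs (Gn.th c)) • A.tpk m = _
  rw [A.bs_tpk]
  have h1 : (fun l => gam D.ph (Gn.th c) • m l) =
      fun l => iot D.ph (algebraMap D.F D.S ((c ^ n l : D.Fˣ) : D.F)) • m l := by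
    funext l
    exact h l c
  rw [h1, A.a_scal m (fun l => ((c ^ n l : D.Fˣ) : D.F)), ← a_zpow c Finset.univ n, Units.coe_prod]

private theorem a_gen (h : Wts D.F D.ph M D.p D.b) (N : AddSubgroup (A.Pk M))
    (hN : ∀ (m : ZMod A.k → M) (n : ZMod A.k → ℤ), (∀ l, m l ∈ wt D.F D.ph M (n l)) →
      A.tpk m ∈ N) (s : Finset (ZMod A.k)) :
    ∀ m : ZMod A.k → M, (∀ l, l ∉ s → ∃ n, m l ∈ wt D.F D.ph M n) → A.tpk m ∈ N := by
  classical
  induction s using Finset.induction_on with
  | empty =>
    intro m hm
    have hm' : ∀ l, ∃ n, m l ∈ wt D.F D.ph M n := fun l => hm l (Finset.notMem_empty l)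
    choose n hn using hm'
    exact hN m n hn
  | insert a s ha ih =>
    intro m hm
    obtain ⟨f, hf, hf2⟩ := wt_decomp h (m a)
    have h1 : m = Function.update m a (∑ n ∈ f.support, f n) := by
      have h2 : ∑ n ∈ f.support, f n = m a := hf2
      rw [h2, Function.update_eq_self]
    rw [h1, A.a_sum]
    refine AddSubgroup.sum_mem _ fun n _ => ih _ ?_
    intro l hl
    by_cases hla : l = a
    · subst hla
      rw [Function.update_self]
      exact ⟨n, hf n⟩
    · rw [Function.update_of_ne hla]
      exact hm l (fun h3 => (Finset.mem_insert.1 h3).elim hla hl)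

private theorem a_top (h : Wts D.F D.ph M D.p D.b) (N : AddSubgroup (A.Pk M))
    (hN : ∀ (m : ZMod A.k → M) (n : ZMod A.k → ℤ), (∀ l, m l ∈ wt D.F D.ph M (n l)) →
      A.tpk m ∈ N) : N = ⊤ := by
  rw [eq_top_iff, ← A.tpk_closure (M := M), AddSubgroup.closure_le]
  rintro _ ⟨m, rfl⟩
  exact A.a_gen h N hN Finset.univ m (fun l hl => absurd (Finset.mem_univ l) hl)

theorem tpk_gen_wt (h : Wts D.F D.ph M D.p D.b) :
    AddSubgroup.closure {z : A.Pk M | ∃ (m : ZMod A.k → M) (n : ZMod A.k → ℤ),
      (∀ l, m l ∈ wt D.F D.ph M (n l)) ∧ z = A.tpk m} = ⊤ :=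
  A.a_top h _ fun m n hm => AddSubgroup.subset_closure ⟨m, n, hm, rfl⟩

private theorem a_comm (h : Wts D.F D.ph M D.p D.b) (c : D.Fˣ) (x : M) :
    gam D.ph (Gn.th c) • gam D.ph Gn.tau • x = gam D.ph Gn.tau • gam D.ph (Gn.th c) • x := by
  have hx : x ∈ ⨆ n, wt D.F D.ph M n := by
    rw [h.span]
    exact AddSubgroup.mem_top x
  induction hx using AddSubgroup.iSup_induction' with
  | hp n x hx =>
    have h1 := h.tau n x hx c
    have h2 := hx c
    change gam D.ph (Gn.th c) • gam D.ph Gn.tau • x = _ • gam D.ph Gn.tau • x at h1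
    change gam D.ph (Gn.th c) • x = _ at h2
    rw [h1, h2, ← mul_smul, ← mul_smul, gam_mul_iot, FixF.fix (φ := D.ph)]
  | h1 => rw [smul_zero, smul_zero, smul_zero]
  | hadd x y hx hy h1 h2 =>
    rw [smul_add, smul_add, smul_add, smul_add, h1, h2]

private theorem a_ext2 (r r' : A.R) (h : ∀ m : ZMod A.k → M, r • A.tpk m = r' • A.tpk m)
    (z : A.Pk M) : r • z = r' • z := by
  have h1 : (DistribSMul.toAddMonoidHom (A.Pk M) r) = DistribSMul.toAddMonoidHom (A.Pk M) r' := by
    apply A.tpk_ext
    intro m
    exact h m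
  exact congrArg (fun t : A.Pk M →+ A.Pk M => t z) h1

private theorem a_wt_eq {Z : Type u} [AddCommGroup Z] [Module A.R Z] (G : ℤ → AddSubgroup Z)
    (hG : ∀ n, G n ≤ wt D.F A.ph Z n) (htop : ⨆ n, G n = ⊤) (n : ℤ) (z : Z)
    (hz : z ∈ wt D.F A.ph Z n) : z ∈ G n := by
  classical
  have h1 : ∃ f : ℤ →₀ Z, (∀ n, f n ∈ G n) ∧ f.sum (fun _ x => x) = z := by
      have key : ∀ u ∈ ⨆ n, G n, ∃ f : ℤ →₀ Z, (∀ n, f n ∈ G n) ∧ f.sum (fun _ x => x) = u := by
        intro u hu
        induction hu using AddSubgroup.iSup_induction' with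
        | hp i x hx =>
          refine ⟨Finsupp.single i x, ?_, ?_⟩
          · intro n
            by_cases hn : n = i
            · subst hn
              rw [Finsupp.single_eq_same]
              exact hx
            · rw [Finsupp.single_eq_of_ne hn]
              exact AddSubgroup.zero_mem _
          · rw [Finsupp.sum_single_index rfl]
        | h1 =>
          refine ⟨0, ?_, ?_⟩
          · intro n
            rw [Finsupp.zero_apply]
            exact AddSubgroup.zero_mem _
          · rw [Finsupp.sum_zero_index]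
        | hadd x y hx hy h1 h2 =>
          obtain ⟨f, hf, hf2⟩ := h1
          obtain ⟨g, hg, hg2⟩ := h2
          refine ⟨f + g, ?_, ?_⟩
          · intro n
            rw [Finsupp.add_apply]
            exact AddSubgroup.add_mem _ (hf n) (hg n)
          · rw [Finsupp.sum_add_index' (fun _ => rfl) (fun _ _ _ => rfl), hf2, hg2]
      exact key z (by rw [htop]; exact AddSubgroup.mem_top z)
  obtain ⟨f, hf, hf2⟩ := h1
  have h2 : (f - Finsupp.single n z : ℤ →₀ Z) = 0 := by
    apply wt_indep (F := D.F) (φ := A.ph)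
    · intro k
      rw [Finsupp.sub_apply]
      refine AddSubgroup.sub_mem _ (hG k (hf k)) ?_
      by_cases hk : k = n
      · subst hk
        rw [Finsupp.single_eq_same]
        exact hz
      · rw [Finsupp.single_eq_of_ne hk]
        exact AddSubgroup.zero_mem _
    · rw [Finsupp.sum_sub_index (fun _ _ _ => rfl), Finsupp.sum_single_index rfl, hf2, sub_self]
  have h3 := DFunLike.congr_fun h2 n
  rw [Finsupp.sub_apply, Finsupp.single_eq_same, Finsupp.zero_apply, sub_eq_zero] at h3
  rw [← h3]
  exact hf n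

private theorem a_pk_comm (h : Wts D.F D.ph M D.p D.b) (c : D.Fˣ) (z : A.Pk M) :
    gam A.ph (Gk.bs (Gn.th c)) • gam A.ph (Gk.bs Gn.tau) • z =
      gam A.ph (Gk.bs Gn.tau) • gam A.ph (Gk.bs (Gn.th c)) • z := by
  rw [← mul_smul, ← mul_smul]
  refine A.a_ext2 _ _ ?_ z
  intro m
  rw [mul_smul, mul_smul, A.bs_tpk, A.bs_tpk, A.bs_tpk, A.bs_tpk]
  congr 1
  funext l
  exact a_comm h c (m l)

private theorem a_pow_bs (g : Gn D.F) (m : ZMod A.k → M) (j : ℕ) :
    (gam A.ph (Gk.bs g)) ^ j • A.tpk m = A.tpk (fun l => (gam D.ph g) ^ j • m l) := by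
  induction j with
  | zero =>
    have h0 : (fun l => (gam D.ph g) ^ 0 • m l) = m := by
      funext l
      rw [pow_zero, one_smul]
    rw [h0, pow_zero, one_smul]
  | succ j ih =>
    rw [pow_succ', mul_smul, ih, A.bs_tpk]
    congr 1
    funext l
    rw [pow_succ', mul_smul]

private theorem a_pow_cyc (m : ZMod A.k → M) (j : ℕ) :
    (gam A.ph Gk.cyc) ^ j • A.tpk m = A.tpk (fun l => m (l - (j : ZMod A.k))) := by
  induction j with
  | zero =>
    have h0 : (fun l : ZMod A.k => m (l - ((0 : ℕ) : ZMod A.k))) = m := by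
      funext l
      rw [Nat.cast_zero, sub_zero]
    rw [h0, pow_zero, one_smul]
  | succ j ih =>
    rw [pow_succ', mul_smul, ih, A.cyc_tpk]
    congr 1
    funext l
    congr 1
    rw [Nat.cast_succ]
    ring

/-- vectors of weight `n` with the right `τ^p` -/
private def gsub (n : ℤ) : AddSubgroup (A.Pk M) where
  carrier := {z | z ∈ wt D.F A.ph (A.Pk M) n ∧ (gam A.ph (Gk.bs Gn.tau)) ^ D.p • z =
    iot A.ph (algebraMap D.F A.S (D.b ^ n)) • z}
  zero_mem' := ⟨AddSubgroup.zero_mem _, by rw [smul_zero, smul_zero]⟩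
  add_mem' := fun {x y} hx hy => ⟨AddSubgroup.add_mem _ hx.1 hy.1, by
    rw [smul_add, smul_add, hx.2, hy.2]⟩
  neg_mem' := fun {x} hx => ⟨AddSubgroup.neg_mem _ hx.1, by
    rw [smul_neg, smul_neg, hx.2]⟩

private theorem a_gsub_top (h : Wts D.F D.ph M D.p D.b) :
    (⨆ n, A.gsub (M := M) n) = ⊤ := by
  apply A.a_top h
  intro m n hm
  refine AddSubgroup.mem_iSup_of_mem (∑ l, n l) ⟨A.tpk_wt m n hm, ?_⟩
  rw [A.a_pow_bs]
  have h1 : (fun l => (gam D.ph Gn.tau) ^ D.p • m l) =
      fun l => iot D.ph (algebraMap D.F D.S (D.b ^ n l)) • m l := by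
    funext l
    exact h.taup (n l) (m l) (hm l)
  rw [h1, A.a_scal m (fun l => D.b ^ n l), a_zpow0 D.b D.X.b_ne]

theorem isK_pk (h : Wts D.F D.ph M D.p D.b) : A.IsK (A.Pk M) := by
  refine ⟨⟨?_, ?_, ?_⟩, ?_, ?_⟩
  · rw [eq_top_iff, ← A.a_gsub_top h]
    exact iSup_mono fun n z hz => hz.1
  · intro n z hz c
    have h2 := hz c
    change gam A.ph (Gk.bs (Gn.th c)) • z = _ at h2
    show gam A.ph (Gk.bs (Gn.th c)) • gam A.ph (Gk.bs Gn.tau) • z = _
    rw [A.a_pk_comm h c z, h2, ← mul_smul, gam_mul_iot, FixF.fix (φ := A.ph), mul_smul]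
    rfl
  · intro n z hz
    exact (A.a_wt_eq (A.gsub (M := M)) (fun n z hz => hz.1) (A.a_gsub_top h) n z hz).2
  · intro z
    have h1 := A.a_ext2 (M := M) ((gam A.ph Gk.cyc) ^ A.k) 1 ?_ z
    · rw [h1, one_smul]
    · intro m
      rw [A.a_pow_cyc, one_smul]
      congr 1
      funext l
      rw [ZMod.natCast_self, sub_zero]
  · intro g z
    rw [← mul_smul, ← mul_smul]
    refine A.a_ext2 _ _ ?_ z
    intro m
    rw [mul_smul, mul_smul, A.bs_tpk, A.cyc_tpk, A.cyc_tpk, A.bs_tpk]

theorem fin_pk (h : FinS D.ph M) : FinS A.ph (A.Pk M) := by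
  classical
  let _ := modS D.ph M
  let _ := modS A.ph (A.Pk M)
  have h0 : Module.Finite D.S M := h
  obtain ⟨r, g, hg⟩ := Module.Finite.exists_fin (R := D.S) (M := M)
  let T : Set (A.Pk M) := Set.range (fun i : ZMod A.k → Fin r => A.tpk (fun l => g (i l)))
  have key : ∀ (s : Finset (ZMod A.k)) (m : ZMod A.k → M), (∀ l, l ∉ s → ∃ i, m l = g i) →
      A.tpk m ∈ Submodule.span A.S T := by
    intro s
    induction s using Finset.induction_on with
    | empty =>
      intro m hm
      have hm' : ∀ l, ∃ i, m l = g i := fun l => hm l (Finset.notMem_empty l)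
      choose i hi using hm'
      refine Submodule.subset_span ⟨i, ?_⟩
      show A.tpk (fun l => g (i l)) = A.tpk m
      congr 1
      funext l
      exact (hi l).symm
    | insert a s ha ih =>
      intro m hm
      have hma : m a ∈ Submodule.span D.S (Set.range g) := by
        rw [hg]
        exact Submodule.mem_top
      have h2 : ∀ x ∈ Submodule.span D.S (Set.range g),
          A.tpk (Function.update m a x) ∈ Submodule.span A.S T := by
        intro x hx
        induction hx using Submodule.span_induction with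
        | mem x hx =>
          obtain ⟨i, rfl⟩ := hx
          refine ih _ ?_
          intro l hl
          by_cases hla : l = a
          · subst hla
            rw [Function.update_self]
            exact ⟨i, rfl⟩
          · rw [Function.update_of_ne hla]
            exact hm l (fun h3 => (Finset.mem_insert.1 h3).elim hla hl)
        | zero =>
          rw [A.a_zero]
          exact Submodule.zero_mem _
        | add x y hx hy h1 h2 =>
          rw [A.tpk_update_add]
          exact Submodule.add_mem _ h1 h2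
        | smul c x hx h1 =>
          have h3 : A.tpk (Function.update m a (c • x)) =
              A.slot a c • A.tpk (Function.update m a x) := by
            show A.tpk (Function.update m a (iot D.ph c • x)) =
              iot A.ph (A.slot a c) • A.tpk (Function.update m a x)
            rw [A.slot_tpk, Function.update_self, Function.update_idem]
          rw [h3]
          exact Submodule.smul_mem _ _ h1
      have h3 := h2 _ hma
      rwa [Function.update_eq_self] at h3
  have htop : Submodule.span A.S T = ⊤ := by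
    rw [eq_top_iff]
    intro z _
    have hz : z ∈ AddSubgroup.closure (Set.range (A.tpk (M := M))) := by
      rw [A.tpk_closure]
      exact AddSubgroup.mem_top z
    refine AddSubgroup.closure_induction (p := fun x _ => x ∈ Submodule.span A.S T)
      ?_ ?_ ?_ ?_ hz
    · rintro _ ⟨m, rfl⟩
      exact key Finset.univ m (fun l hl => absurd (Finset.mem_univ l) hl)
    · exact Submodule.zero_mem _
    · intro a b _ _ ha hb
      exact Submodule.add_mem _ ha hb
    · intro a _ ha
      exact Submodule.neg_mem _ ha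
  have h4 : Module.Finite A.S (A.Pk M) :=
    ⟨Submodule.fg_def.2 ⟨T, Set.finite_range _, htop⟩⟩
  exact h4

theorem isZ_pk (h : D.IsG M) : A.IsZ (A.Pk M) := ⟨A.fin_pk h.fin, A.isK_pk h.wts⟩

theorem kil0_pk (I : Ideal D.S) (hI : ∀ s ∈ I, ∀ m : M, iot D.ph s • m = 0) :
    A.Kil0 (A.Pk M) I := by
  intro s hs z
  have h1 := A.a_ext2 (M := M) (iot A.ph (A.slot 0 s)) 0 ?_ z
  · rw [h1, zero_smul]
  · intro m
    rw [A.slot_tpk, hI s hs, A.a_zero, zero_smul]

theorem pk_egG0 (h : D.IsG M) (j : ZMod A.k) : D.IsG (A.Eg j (A.tch (A.Pk M)).H0) :=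
  A.eg_isG (A.tch_isZ0 (A.isZ_pk h)) A.tch_kilY0 j

theorem pk_egG1 (h : D.IsG M) (j : ZMod A.k) : D.IsG (A.Eg j (A.tch (A.Pk M)).H1) :=
  A.eg_isG (A.tch_isZ1 (A.isZ_pk h)) A.tch_kilY1 j

end Adm

end MSA
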