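import Mathlib
import Pool.Agent.MSA.PkA

/-!
# The filtration of the tensor power by the number of slots in a submodule

`A.fil N r` is generated by the pure tensors with at least `r` slots in `N`.

PROOFS. `fil_zero`: `tpk_closure`. `fil_top`: there are only `k` slots. `pkm_surj`: lift the slots of a pure tensor.
`pkm_inj`: an injective `L`-linear map has an `L`-linear left inverse `g`; `pfm g` is a left inverse
(`tpk_ext`). `exists_prj`: `Submodule.exists_isCompl` for `N` as a subspace of the `L`-space `UL D M`.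
`fil_tele`: change the slots outside `T` one at a time (`Finset` induction); each difference is
`tpk (update .. l (m l - m' l))` (`tpk_update_add`), with the slots of `T` and `l` in `N`.
`fil_one`: `≤`: a slot in `N` is mapped to `0`. `≥`: let `s : M ⧸ N → M` be an `L`-linear section of the projection,
`z ↦ pfm s (pkm mkQ z) - z` maps a pure tensor `tpk m` to `tpk (s (mkQ (m l))) - tpk m`, in `fil N 1` by `fil_tele`
with `T = ∅`; so for `pkm mkQ z = 0` we get `z ∈ fil N 1`. `fil_k`: a pure tensor with `k` slots in `N` comes from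
`N`.
-/

set_option autoImplicit false
set_option linter.unusedSectionVars false

noncomputable section

namespace MSA

universe u v w

namespace Adm

variable {D : Dat.{u}} (A : Adm D)

variable {M M' : Type u} [AddCommGroup M] [Module D.R M] [AddCommGroup M'] [Module D.R M']

/-- at least `r` slots in `N` -/
def Cnt (N : Submodule D.R M) (r : ℕ) (m : ZMod A.k → M) : Prop :=
  ∃ T : Finset (ZMod A.k), r ≤ T.card ∧ ∀ l ∈ T, m l ∈ N

/-- the filtration as a subgroup -/
def filG (N : Submodule D.R M) (r : ℕ) : AddSubgroup (A.Pk M) :=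
  AddSubgroup.closure {z | ∃ m : ZMod A.k → M, A.Cnt N r m ∧ z = A.tpk m}

theorem filG_map (N : Submodule D.R M) (r r' : ℕ) (f : A.Pk M →+ A.Pk M)
    (h : ∀ m : ZMod A.k → M, A.Cnt N r m → f (A.tpk m) ∈ A.filG N r') (z : A.Pk M)
    (hz : z ∈ A.filG N r) : f z ∈ A.filG N r' := by
  refine AddSubgroup.closure_induction (p := fun z _ => f z ∈ A.filG N r') ?_ ?_ ?_ ?_ hz
  · rintro _ ⟨m, hm, rfl⟩
    exact h m hm
  · rw [map_zero]
    exact AddSubgroup.zero_mem _
  · intro x y _ _ hx hy
    rw [map_add]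
    exact AddSubgroup.add_mem _ hx hy
  · intro x _ hx
    rw [map_neg]
    exact AddSubgroup.neg_mem _ hx

theorem tpk_mem (N : Submodule D.R M) (r : ℕ) (m : ZMod A.k → M) (h : A.Cnt N r m) :
    A.tpk m ∈ A.filG N r := AddSubgroup.subset_closure ⟨m, h, rfl⟩

theorem filG_slot (N : Submodule D.R M) (r : ℕ) (l : ZMod A.k) (s : D.S) (z : A.Pk M)
    (hz : z ∈ A.filG N r) : iot A.ph (A.slot l s) • z ∈ A.filG N r := by
  refine A.filG_map N r r (DistribSMul.toAddMonoidHom (A.Pk M) (iot A.ph (A.slot l s))) ?_ z hz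
  intro m hm
  show iot A.ph (A.slot l s) • A.tpk m ∈ _
  rw [slot_tpk]
  apply tpk_mem
  obtain ⟨T, hT, h⟩ := hm
  refine ⟨T, hT, fun l' hl' => ?_⟩
  by_cases e : l' = l
  · subst e
    rw [Function.update_self]
    exact N.smul_mem _ (h _ hl')
  · rw [Function.update_of_ne e]
    exact h _ hl'

theorem filG_gam (N : Submodule D.R M) (r : ℕ) (g : Gk D.F) (z : A.Pk M)
    (hz : z ∈ A.filG N r) : gam A.ph g • z ∈ A.filG N r := by
  refine A.filG_map N r r (DistribSMul.toAddMonoidHom (A.Pk M) (gam A.ph g)) ?_ z hz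
  intro m hm
  show gam A.ph g • A.tpk m ∈ _
  obtain ⟨T, hT, h⟩ := hm
  cases g with
  | bs g =>
    rw [bs_tpk]
    apply tpk_mem
    exact ⟨T, hT, fun l hl => N.smul_mem _ (h l hl)⟩
  | cyc =>
    rw [cyc_tpk]
    apply tpk_mem
    refine ⟨T.map (addRightEmbedding 1), by rwa [Finset.card_map], fun l hl => ?_⟩
    rw [Finset.mem_map] at hl
    obtain ⟨l', hl', rfl⟩ := hl
    show m (l' + 1 - 1) ∈ N
    rw [add_sub_cancel_right]
    exact h l' hl'

/-- the filtration -/
def fil (N : Submodule D.R M) (r : ℕ) : Submodule A.R (A.Pk M) :=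
  mkSub (A.filG N r) (fun s z hz => A.sub_slot (A.filG N r) (A.filG_slot N r) s z hz)
    (A.filG_gam N r)

theorem mem_fil (N : Submodule D.R M) (r : ℕ) (z : A.Pk M) : z ∈ A.fil N r ↔ z ∈ A.filG N r :=
  Iff.rfl

/-- the graded pieces -/
abbrev gr (N : Submodule D.R M) (r : ℕ) : Type u :=
  A.fil N r ⧸ (A.fil N (r + 1)).submoduleOf (A.fil N r)

theorem fil_anti (N : Submodule D.R M) {r r' : ℕ} (h : r ≤ r') : A.fil N r' ≤ A.fil N r := by
  intro z hz
  exact AddSubgroup.closure_mono (by
    rintro _ ⟨m, ⟨T, hT, h'⟩, rfl⟩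
    exact ⟨m, ⟨T, h.trans hT, h'⟩, rfl⟩) hz

private theorem pk_mem (z : A.Pk M) : z ∈ AddSubgroup.closure (Set.range (A.tpk (M := M))) := by
  rw [tpk_closure]
  exact AddSubgroup.mem_top z

theorem fil_zero (N : Submodule D.R M) : A.fil N 0 = ⊤ := by
  rw [eq_top_iff]
  intro z _
  refine AddSubgroup.closure_mono ?_ (A.pk_mem z)
  rintro _ ⟨m, rfl⟩
  exact ⟨m, ⟨∅, Nat.zero_le _, fun l hl => absurd hl (Finset.notMem_empty l)⟩, rfl⟩

theorem fil_top (N : Submodule D.R M) : A.fil N (A.k + 1) = ⊥ := by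
  rw [eq_bot_iff]
  intro z hz
  rw [Submodule.mem_bot]
  refine AddSubgroup.closure_induction (p := fun z _ => z = 0) ?_ rfl ?_ ?_ hz
  · rintro _ ⟨m, ⟨T, hT, -⟩, rfl⟩
    have h1 := Finset.card_le_univ T
    rw [ZMod.card] at h1
    omega
  · intro x y _ _ hx hy
    rw [hx, hy, add_zero]
  · intro x _ hx
    rw [hx, neg_zero]

/-- an `R`-linear map as an `L`-linear map -/
private def linL (f : M →ₗ[D.R] M') : UL D M →ₗ[D.L] UL D M' where
  toFun := f
  map_add' := map_add f
  map_smul' := fun c m => lin_C f c m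

private theorem linL_inv (i : M →ₗ[D.R] M') (hi : Function.Injective i) : ∃ g : M' →+ M,
    (∀ (c : D.L) m, g (iot D.ph (MvPolynomial.C c) • m) = iot D.ph (MvPolynomial.C c) • g m) ∧
    ∀ m, g (i m) = m := by
  obtain ⟨g, hg⟩ := LinearMap.exists_leftInverse_of_injective (linL i) (LinearMap.ker_eq_bot.2 hi)
  exact ⟨g.toAddMonoidHom, fun c m => g.map_smul c m, fun m => LinearMap.congr_fun hg m⟩

private theorem linL_sec (q : M →ₗ[D.R] M') (hq : Function.Surjective q) : ∃ g : M' →+ M,
    (∀ (c : D.L) m, g (iot D.ph (MvPolynomial.C c) • m) = iot D.ph (MvPolynomial.C c) • g m) ∧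
    ∀ m, q (g m) = m := by
  obtain ⟨g, hg⟩ := LinearMap.exists_rightInverse_of_surjective (linL q) (LinearMap.range_eq_top.2 hq)
  exact ⟨g.toAddMonoidHom, fun c m => g.map_smul c m, fun m => LinearMap.congr_fun hg m⟩

theorem exists_prj (N : Submodule D.R M) : ∃ q : M →+ M,
    (∀ (c : D.L) m, q (iot D.ph (MvPolynomial.C c) • m) = iot D.ph (MvPolynomial.C c) • q m) ∧
    (∀ m, q m ∈ N) ∧ ∀ m ∈ N, q m = m := by
  obtain ⟨g, h1, h2⟩ := linL_inv N.subtype N.injective_subtype
  refine ⟨N.subtype.toAddMonoidHom.comp g, fun c m => ?_, fun m => (g m).2, fun m hm => ?_⟩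
  · show ((g (iot D.ph (MvPolynomial.C c) • m) : N) : M) = iot D.ph (MvPolynomial.C c) • ((g m : N) : M)
    rw [h1]
    rfl
  · show ((g m : N) : M) = m
    have h3 := h2 ⟨m, hm⟩
    exact congrArg Subtype.val h3

theorem fil_tele (N : Submodule D.R M) (m m' : ZMod A.k → M) (T : Finset (ZMod A.k))
    (hT : ∀ l ∈ T, m' l = m l ∧ m l ∈ N) (h : ∀ l, m' l - m l ∈ N) :
    A.tpk m' - A.tpk m ∈ A.fil N (T.card + 1) := by
  classical
  have key : ∀ U : Finset (ZMod A.k),
      A.tpk (fun l => if l ∈ U then m' l else m l) - A.tpk m ∈ A.fil N (T.card + 1) := by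
    intro U
    induction U using Finset.induction_on with
    | empty =>
      have h0 : (fun l => if l ∈ (∅ : Finset (ZMod A.k)) then m' l else m l) = m := by
        funext l
        rw [if_neg (Finset.notMem_empty l)]
      rw [h0, sub_self]
      exact Submodule.zero_mem _
    | insert l U hl ih =>
      set mU : ZMod A.k → M := fun l => if l ∈ U then m' l else m l with hmU
      have hUl : mU l = m l := if_neg hl
      have h1 : (fun l' => if l' ∈ insert l U then m' l' else m l') = Function.update mU l (m' l) := by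
        funext l'
        by_cases e : l' = l
        · rw [e, Function.update_self, if_pos (Finset.mem_insert_self l U)]
        · rw [Function.update_of_ne e, hmU]
          by_cases e' : l' ∈ U
          · simp only [if_pos e', if_pos (Finset.mem_insert_of_mem e')]
          · have e'' : l' ∉ insert l U := by
              rw [Finset.mem_insert]
              rintro (h | h)
              · exact e h
              · exact e' h
            simp only [if_neg e', if_neg e'']
      rw [h1]
      by_cases hlT : l ∈ T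
      · have h2 : Function.update mU l (m' l) = mU := by
          rw [(hT l hlT).1, ← hUl, Function.update_eq_self]
        rw [h2]
        exact ih
      · have h2 : A.tpk (Function.update mU l (m' l)) =
            A.tpk (Function.update mU l (m' l - m l)) + A.tpk mU := by
          have h3 := A.tpk_update_add mU l (m' l - m l) (m l)
          rw [sub_add_cancel] at h3
          rw [h3]
          congr 2
          rw [← hUl, Function.update_eq_self]
        rw [h2, add_sub_assoc]
        refine Submodule.add_mem _ ?_ ih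
        refine A.tpk_mem N _ _ ⟨insert l T, by rw [Finset.card_insert_of_notMem hlT], fun l' hl' => ?_⟩
        by_cases e : l' = l
        · rw [e, Function.update_self]
          exact h l
        · rw [Function.update_of_ne e]
          have hlT' : l' ∈ T := Finset.mem_of_mem_insert_of_ne hl' e
          have h5 := hT l' hlT'
          show (if l' ∈ U then m' l' else m l') ∈ N
          split_ifs
          · rw [h5.1]
            exact h5.2
          · exact h5.2
  have h2 := key Finset.univ
  simp only [Finset.mem_univ, if_true] at h2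
  exact h2

theorem pkm_surj (q : M →ₗ[D.R] M') (hq : Function.Surjective q) :
    Function.Surjective (A.pkm q) := by
  intro z
  refine AddSubgroup.closure_induction (p := fun z _ => ∃ w, A.pkm q w = z) ?_ ?_ ?_ ?_ (A.pk_mem z)
  · rintro _ ⟨m, rfl⟩
    choose g hg using hq
    refine ⟨A.tpk (fun l => g (m l)), ?_⟩
    rw [pkm_tpk]
    congr 1
    funext l
    exact hg _
  · exact ⟨0, map_zero _⟩
  · rintro x y _ _ ⟨w, rfl⟩ ⟨w', rfl⟩
    exact ⟨w + w', map_add _ _ _⟩
  · rintro x _ ⟨w, rfl⟩
    exact ⟨-w, map_neg _ _⟩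

theorem pkm_inj (i : M →ₗ[D.R] M') (hi : Function.Injective i) :
    Function.Injective (A.pkm i) := by
  obtain ⟨g, h1, h2⟩ := linL_inv i hi
  have h3 : (A.pfm (fun _ => g) (fun _ => h1)).comp (A.pkm i).toAddMonoidHom =
      AddMonoidHom.id (A.Pk M) := by
    apply A.tpk_ext
    intro m
    show A.pfm (fun _ => g) (fun _ => h1) (A.pkm i (A.tpk m)) = A.tpk m
    rw [pkm_tpk, pfm_tpk]
    congr 1
    funext l
    exact h2 _
  refine Function.LeftInverse.injective (g := A.pfm (fun _ => g) (fun _ => h1)) fun z => ?_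
  exact congrArg (fun t : A.Pk M →+ A.Pk M => t z) h3

private theorem tpk_zero_slot (m : ZMod A.k → M) (l : ZMod A.k) (h : m l = 0) : A.tpk m = 0 := by
  have h1 := A.tpk_update_add m l 0 0
  rw [add_zero, ← h, Function.update_eq_self] at h1
  exact left_eq_add.1 h1

theorem fil_one (N : Submodule D.R M) : A.fil N 1 = LinearMap.ker (A.pkm N.mkQ) := by
  apply le_antisymm
  · intro z hz
    rw [LinearMap.mem_ker]
    refine AddSubgroup.closure_induction (p := fun z _ => A.pkm N.mkQ z = 0) ?_ (map_zero _) ?_ ?_ hz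
    · rintro _ ⟨m, ⟨T, hT, h⟩, rfl⟩
      obtain ⟨l, hl⟩ := Finset.card_pos.1 (Nat.lt_of_lt_of_le Nat.zero_lt_one hT)
      rw [pkm_tpk]
      refine A.tpk_zero_slot _ l ?_
      exact (Submodule.Quotient.mk_eq_zero N).2 (h l hl)
    · intro x y _ _ hx hy
      rw [map_add, hx, hy, add_zero]
    · intro x _ hx
      rw [map_neg, hx, neg_zero]
  · intro z hz
    rw [LinearMap.mem_ker] at hz
    obtain ⟨g, h1, h2⟩ := linL_sec N.mkQ (Submodule.mkQ_surjective N)
    have key : ∀ z : A.Pk M, A.pfm (fun _ => g) (fun _ => h1) (A.pkm N.mkQ z) - z ∈ A.fil N 1 := by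
      intro z
      refine AddSubgroup.closure_induction
        (p := fun z _ => A.pfm (fun _ => g) (fun _ => h1) (A.pkm N.mkQ z) - z ∈ A.fil N 1)
        ?_ ?_ ?_ ?_ (A.pk_mem z)
      · rintro _ ⟨m, rfl⟩
        rw [pkm_tpk, pfm_tpk]
        refine A.fil_tele N m (fun l => g (N.mkQ (m l))) ∅ (fun l hl => absurd hl (Finset.notMem_empty l))
          fun l => ?_
        have h3 : N.mkQ (g (N.mkQ (m l)) - m l) = 0 := by
          rw [map_sub, h2, sub_self]
        exact (Submodule.Quotient.mk_eq_zero N).1 h3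
      · rw [map_zero, map_zero, sub_zero]
        exact Submodule.zero_mem _
      · intro x y _ _ hx hy
        rw [map_add, map_add, add_sub_add_comm]
        exact Submodule.add_mem _ hx hy
      · intro x _ hx
        rw [map_neg, map_neg, neg_sub_neg, ← neg_sub]
        exact Submodule.neg_mem _ hx
    have h3 := key z
    rw [hz, map_zero, zero_sub] at h3
    exact (Submodule.neg_mem_iff _).1 h3

theorem fil_k (N : Submodule D.R M) : A.fil N A.k = LinearMap.range (A.pkm N.subtype) := by
  apply le_antisymm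
  · intro z hz
    refine AddSubgroup.closure_induction (p := fun z _ => z ∈ LinearMap.range (A.pkm N.subtype))
      ?_ (Submodule.zero_mem _) ?_ ?_ hz
    · rintro _ ⟨m, ⟨T, hT, h⟩, rfl⟩
      have hu : T = Finset.univ := by
        apply Finset.eq_univ_of_card
        have h1 := Finset.card_le_univ T
        rw [ZMod.card] at h1 ⊢
        omega
      refine ⟨A.tpk (fun l => ⟨m l, h l (by rw [hu]; exact Finset.mem_univ l)⟩), ?_⟩
      rw [pkm_tpk]
      rfl
    · intro x y _ _ hx hy
      exact Submodule.add_mem _ hx hy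
    · intro x _ hx
      exact Submodule.neg_mem _ hx
  · rintro _ ⟨w, rfl⟩
    refine AddSubgroup.closure_induction (p := fun w _ => A.pkm N.subtype w ∈ A.fil N A.k)
      ?_ ?_ ?_ ?_ (A.pk_mem w)
    · rintro _ ⟨m, rfl⟩
      rw [pkm_tpk]
      refine A.tpk_mem N _ _ ⟨Finset.univ, ?_, fun l _ => (m l).2⟩
      rw [Finset.card_univ, ZMod.card]
    · rw [map_zero]
      exact Submodule.zero_mem _
    · intro x y _ _ hx hy
      rw [map_add]
      exact Submodule.add_mem _ hx hy
    · intro x _ hx
      rw [map_neg]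
      exact Submodule.neg_mem _ hx

theorem pkm_comp {M'' : Type u} [AddCommGroup M''] [Module D.R M''] (f : M →ₗ[D.R] M')
    (g : M' →ₗ[D.R] M'') (z : A.Pk M) : A.pkm g (A.pkm f z) = A.pkm (g ∘ₗ f) z := by
  have h : (A.pkm g).toAddMonoidHom.comp (A.pkm f).toAddMonoidHom =
      (A.pkm (g ∘ₗ f)).toAddMonoidHom := by
    apply A.tpk_ext
    intro m
    show A.pkm g (A.pkm f (A.tpk m)) = A.pkm (g ∘ₗ f) (A.tpk m)
    rw [pkm_tpk, pkm_tpk, pkm_tpk]
    rfl
  exact congrArg (fun t : A.Pk M →+ A.Pk M'' => t z) h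

theorem pkm_id (z : A.Pk M) : A.pkm (LinearMap.id : M →ₗ[D.R] M) z = z := by
  have h : (A.pkm (LinearMap.id : M →ₗ[D.R] M)).toAddMonoidHom = AddMonoidHom.id (A.Pk M) := by
    apply A.tpk_ext
    intro m
    show A.pkm (LinearMap.id : M →ₗ[D.R] M) (A.tpk m) = A.tpk m
    rw [pkm_tpk]
    rfl
  exact congrArg (fun t : A.Pk M →+ A.Pk M => t z) h

theorem pk_iso (e : M ≃ₗ[D.R] M') : Nonempty (A.Pk M ≃ₗ[A.R] A.Pk M') := by
  refine ⟨LinearEquiv.ofLinearMap (A.pkm e.toLinearMap) (A.pkm e.symm.toLinearMap) ?_ ?_⟩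
  · refine LinearMap.ext fun z => ?_
    have h : e.toLinearMap ∘ₗ e.symm.toLinearMap = LinearMap.id :=
      LinearMap.ext fun x => e.apply_symm_apply x
    show A.pkm e.toLinearMap (A.pkm e.symm.toLinearMap z) = z
    rw [pkm_comp, h, pkm_id]
  · refine LinearMap.ext fun z => ?_
    have h : e.symm.toLinearMap ∘ₗ e.toLinearMap = LinearMap.id :=
      LinearMap.ext fun x => e.symm_apply_apply x
    show A.pkm e.symm.toLinearMap (A.pkm e.toLinearMap z) = z
    rw [pkm_comp, h, pkm_id]

end Adm

end MSA
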