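import Mathlib
import Pool.Agent.MSA.ChA

/-!
# Quasi-isomorphisms

PROOFS. `qis`: the map `H0 X → H0 Y` induced by `q` is surjective: for `y ∈ ker d0` choose `x` with
`q x = y`; then `q (d0 x) = 0`, `d1 (d0 x) = 0`, so by `a1` there is `x'` with `q x' = 0`, `d0 x' = d0 x`;
replace `x` by `x - x'`. Injective: `x ∈ ker d0` with `q x = d1 y`, `y = q x'`, then `x - d1 x'` is in the
kernel of `q` and of `d0`, so by `a0` it is `d1 x''`. The other degree is the same (use the shift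
`Ch.sh` and the first half). `LinearEquiv.ofBijective`.
`qis_of_iso` is a special case of `qis`. `chi_congr`: `C.iso` and `e.iso`.
`chi_of_zero_diff`: `ker = ⊤`, `range = ⊥`, so `H0 ≃ X0`, `H1 ≃ X1`.
-/

set_option autoImplicit false

noncomputable section

namespace MSA

universe u v w

variable {R : Type w} [Ring R] {C : Cls.{u} R} {A : Type v} [AddCommGroup A] (e : Adf C A)

/-- comparison of homology at one place -/
theorem hm_equiv {X Y Z X' Y' Z' : Type u} [AddCommGroup X] [AddCommGroup Y] [AddCommGroup Z]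
    [AddCommGroup X'] [AddCommGroup Y'] [AddCommGroup Z'] [Module R X] [Module R Y] [Module R Z]
    [Module R X'] [Module R Y'] [Module R Z'] (g : X →ₗ[R] Y) (f : Y →ₗ[R] Z)
    (g' : X' →ₗ[R] Y') (f' : Y' →ₗ[R] Z') (b : Y →ₗ[R] Y')
    (hf : ∀ x, f x = 0 → f' (b x) = 0)
    (hg : ∀ x, ∃ y, g' y = b (g x))
    (hs : ∀ y, f' y = 0 → ∃ x, f x = 0 ∧ b x = y)
    (hi : ∀ x, f x = 0 → ∀ y, g' y = b x → ∃ z, g z = x) :
    Nonempty (Hm g f ≃ₗ[R] Hm g' f') := by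
  let φ : LinearMap.ker f →ₗ[R] LinearMap.ker f' :=
    b.restrict (fun x hx => LinearMap.mem_ker.2 (hf x (LinearMap.mem_ker.1 hx)))
  have hφ : ∀ x : LinearMap.ker f, (φ x : Y') = b x := fun x => rfl
  have hle : (LinearMap.range g).submoduleOf (LinearMap.ker f) ≤
      ((LinearMap.range g').submoduleOf (LinearMap.ker f')).comap φ := by
    intro x hx
    obtain ⟨z, hz⟩ := hx
    obtain ⟨y, hy⟩ := hg z
    refine ⟨y, ?_⟩
    rw [hy]
    change b (g z) = (φ x : Y')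
    rw [hφ, hz]
    rfl
  refine ⟨LinearEquiv.ofBijective (Submodule.mapQ _ _ φ hle) ⟨?_, ?_⟩⟩
  · rw [injective_iff_map_eq_zero]
    intro x hx
    obtain ⟨x, rfl⟩ := Submodule.Quotient.mk_surjective _ x
    rw [Submodule.mapQ_apply, Submodule.Quotient.mk_eq_zero] at hx
    obtain ⟨y, hy⟩ := hx
    rw [Submodule.Quotient.mk_eq_zero]
    exact hi x (LinearMap.mem_ker.1 x.2) y hy
  · intro y
    obtain ⟨y, rfl⟩ := Submodule.Quotient.mk_surjective _ y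
    obtain ⟨x, hx, hxy⟩ := hs y (LinearMap.mem_ker.1 y.2)
    refine ⟨Submodule.Quotient.mk ⟨x, LinearMap.mem_ker.2 hx⟩, ?_⟩
    rw [Submodule.mapQ_apply]
    congr 1
    exact Subtype.ext hxy

theorem qisH0 {X Y : Ch.{u} R} (q : Ch.Hom X Y) (h0 : Function.Surjective q.f0)
    (h1 : Function.Surjective q.f1)
    (a0 : ∀ x, q.f0 x = 0 → X.d0 x = 0 → ∃ y, q.f1 y = 0 ∧ X.d1 y = x)
    (a1 : ∀ x, q.f1 x = 0 → X.d1 x = 0 → ∃ y, q.f0 y = 0 ∧ X.d0 y = x) :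
    Nonempty (X.H0 ≃ₗ[R] Y.H0) := by
  refine hm_equiv X.d1 X.d0 Y.d1 Y.d0 q.f0 ?_ ?_ ?_ ?_
  · intro x hx
    rw [q.c0, hx, map_zero]
  · intro x
    exact ⟨q.f1 x, q.c1 x⟩
  · intro y hy
    obtain ⟨x, rfl⟩ := h0 y
    rw [q.c0] at hy
    obtain ⟨x', hx', hd⟩ := a1 (X.d0 x) hy (X.h10 x)
    exact ⟨x - x', by rw [map_sub, hd, sub_self], by rw [map_sub, hx', sub_zero]⟩
  · intro x hx y hy
    obtain ⟨x', rfl⟩ := h1 y
    rw [q.c1] at hy
    obtain ⟨z, -, hz⟩ := a0 (x - X.d1 x') (by rw [map_sub, hy, sub_self])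
      (by rw [map_sub, hx, X.h01, sub_zero])
    exact ⟨z + x', by rw [map_add, hz, sub_add_cancel]⟩

/-- a surjective morphism with acyclic kernel is a quasi-isomorphism -/
theorem qis {X Y : Ch.{u} R} (q : Ch.Hom X Y) (h0 : Function.Surjective q.f0)
    (h1 : Function.Surjective q.f1)
    (a0 : ∀ x, q.f0 x = 0 → X.d0 x = 0 → ∃ y, q.f1 y = 0 ∧ X.d1 y = x)
    (a1 : ∀ x, q.f1 x = 0 → X.d1 x = 0 → ∃ y, q.f0 y = 0 ∧ X.d0 y = x) :
    Nonempty (X.H0 ≃ₗ[R] Y.H0) ∧ Nonempty (X.H1 ≃ₗ[R] Y.H1) := by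
  refine ⟨qisH0 q h0 h1 a0 a1, ?_⟩
  exact qisH0 (X := X.sh) (Y := Y.sh) ⟨q.f1, q.f0, q.c1, q.c0⟩ h1 h0 a1 a0

/-- isomorphic complexes have isomorphic homology -/
theorem qis_of_iso {X Y : Ch.{u} R} (q : Ch.Hom X Y) (h0 : Function.Bijective q.f0)
    (h1 : Function.Bijective q.f1) :
    Nonempty (X.H0 ≃ₗ[R] Y.H0) ∧ Nonempty (X.H1 ≃ₗ[R] Y.H1) := by
  refine qis q h0.2 h1.2 ?_ ?_
  · intro x hx _
    have h2 : x = 0 := h0.1 (by rw [hx, map_zero])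
    exact ⟨0, by rw [map_zero], by rw [map_zero, h2]⟩
  · intro x hx _
    have h2 : x = 0 := h1.1 (by rw [hx, map_zero])
    exact ⟨0, by rw [map_zero], by rw [map_zero, h2]⟩

/-- Isomorphic homology: class and Euler characteristic. -/
theorem chi_congr {X Y : Ch.{u} R} (h0 : Nonempty (X.H0 ≃ₗ[R] Y.H0))
    (h1 : Nonempty (X.H1 ≃ₗ[R] Y.H1)) (hX : X.InC C) : Y.InC C ∧ X.chi e = Y.chi e := by
  obtain ⟨f0⟩ := h0
  obtain ⟨f1⟩ := h1
  refine ⟨⟨C.iso f0 hX.1, C.iso f1 hX.2⟩, ?_⟩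
  unfold Ch.chi
  rw [e.iso f0 hX.1, e.iso f1 hX.2]

theorem hm_zero {X Y Z : Type u} [AddCommGroup X] [AddCommGroup Y] [AddCommGroup Z]
    [Module R X] [Module R Y] [Module R Z] (g : X →ₗ[R] Y) (f : Y →ₗ[R] Z)
    (hg : ∀ x, g x = 0) (hf : ∀ x, f x = 0) : Nonempty (Hm g f ≃ₗ[R] Y) := by
  have h1 : (LinearMap.range g).submoduleOf (LinearMap.ker f) = ⊥ := by
    rw [eq_bot_iff]
    intro x hx
    obtain ⟨z, hz⟩ := hx
    rw [hg] at hz
    rw [Submodule.mem_bot]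
    exact Subtype.ext hz.symm
  have h2 : LinearMap.ker f = ⊤ := by
    rw [eq_top_iff]
    intro x _
    exact LinearMap.mem_ker.2 (hf x)
  exact ⟨(Submodule.quotEquivOfEqBot _ h1).trans (LinearEquiv.ofTop _ h2)⟩

/-- zero differentials -/
theorem chi_of_zero_diff {X : Ch.{u} R} (h0 : ∀ x, X.d0 x = 0) (h1 : ∀ x, X.d1 x = 0)
    (hX : X.InC C) : C.P X.X0 ∧ C.P X.X1 ∧ X.chi e = e.e X.X0 - e.e X.X1 := by
  obtain ⟨f0⟩ := hm_zero X.d1 X.d0 h1 h0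
  obtain ⟨f1⟩ := hm_zero X.d0 X.d1 h0 h1
  refine ⟨C.iso f0 hX.1, C.iso f1 hX.2, ?_⟩
  unfold Ch.chi
  rw [e.iso f0 hX.1, e.iso f1 hX.2]

end MSA
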