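import Mathlib
import Pool.Agent.MSA.PkA
import Pool.Agent.MSA.Qis

/-!
# Twists of coefficients, homology and eigenspaces

`A.cch a` is the character `cyc ↦ ζ^a`, `bs _ ↦ 1`.

PROOFS.
`hom_tw0/1`: the identity `K.Tot (Tw φ χ Z) → Tw φ χ (K.Tot Z)` is additive and commutes with `iot s` (`iot_smul`,
`tw_iot`) and with the generators: `gam g` acts on `K.Tot (Tw φ χ Z)` by `op (mpE (rho g))` composed with the pointwise
`iot (χ g) • gam g` (`gam_smul'`, `tw_gam`); the scalar comes out of `op` (`op_iot`); it preserves the parts and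
commutes with `K.d` (`da_apply`: only `iot (y j)` and `op` occur). So `ker` and `range` correspond and the quotients
are isomorphic: `Tw` of a submodule / quotient is a submodule / quotient of `Tw` (`mkLin` in both directions).
`eg_tw`: the shift acts on `Tw (cch a) H` as `ζ^a cyc`, `A.res r` acts in the same way for all `r : D.R`
(`rg_induction`: `res (iot s) = iot (avg s)`, `res (gam g) = gam (bs g)`, `cch a (bs g) = 1`); so the condition
`ζ^a cyc (res r h) = ζ^j res r h` is `cyc (res r h) = ζ^(j-a) res r h` (`zp_add`: `ζ^k = 1`).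
`dl_tw`: `f : H ≃ Tw (cch a) H` gives `Eg j H ≃ Eg j (Tw (cch a) H) ≃ Eg (j-a) H` for all `j`; iterate: `Eg j H ≃
Eg (j - n a) H`; `k` is prime and `a ≠ 0`, so some `n` has `1 - n a = 0`: `Eg 1 H ≃ Eg 0 H`, and `e.iso`.
`chi_tw`: from `f : Z ≃ Tw (cch a) Z` one gets `(A.tch Z).H0 ≃ (A.tch (Tw (cch a) Z)).H0 ≃ Tw (cch a) (A.tch Z).H0`
(`KS.map` and `qis_of_iso`, `hom_tw0`), then `dl_tw`.
-/

set_option autoImplicit false
set_option linter.unusedSectionVars false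

noncomputable section

namespace MSA

universe u v w

section auxA

variable {F : Type u} [Field F] {S : Type u} [CommRing S] [Algebra F S] {Γ : Type u}
variable {φ : Γ → S →+* S} (χ : Γ → F)

/-- homology of twisted maps -/
private theorem hm_tw {X Y Z X' Y' Z' : Type u} [AddCommGroup X] [AddCommGroup Y] [AddCommGroup Z]
    [AddCommGroup X'] [AddCommGroup Y'] [AddCommGroup Z'] [Module (Rg φ) X] [Module (Rg φ) Y]
    [Module (Rg φ) Z] [Module (Rg φ) X'] [Module (Rg φ) Y'] [Module (Rg φ) Z']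
    (g : X →ₗ[Rg φ] Y) (f : Y →ₗ[Rg φ] Z) (g' : X' →ₗ[Rg φ] Y') (f' : Y' →ₗ[Rg φ] Z')
    (a : X' ≃+ X) (b : Y' ≃+ Y) (c : Z' ≃+ Z)
    (hS : ∀ (s : S) y, b (iot φ s • y) = iot φ s • b y)
    (hg : ∀ (γ : Γ) y, b (gam φ γ • y) = iot φ (algebraMap F S (χ γ)) • gam φ γ • b y)
    (hf : ∀ y, c (f' y) = f (b y)) (hgg : ∀ x, b (g' x) = g (a x)) :
    Nonempty (Hm g' f' ≃ₗ[Rg φ] Tw φ χ (Hm g f)) := by
  have hk : ∀ y, f' y = 0 → f (b y) = 0 := fun y hy => by rw [← hf, hy, map_zero]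
  have hk' : ∀ y, f (b y) = 0 → f' y = 0 := fun y hy => by
    apply c.injective
    rw [hf, hy, map_zero]
  let β : LinearMap.ker f' →+ LinearMap.ker f :=
    { toFun := fun x => ⟨b x.1, hk x.1 x.2⟩
      map_zero' := Subtype.ext (map_zero b)
      map_add' := fun x y => Subtype.ext (map_add b x.1 y.1) }
  have hβS : ∀ (s : S) x, β (iot φ s • x) = iot φ s • β x := fun s x => Subtype.ext (hS s x.1)
  have hβg : ∀ (γ : Γ) x, β (gam φ γ • x) = iot φ (algebraMap F S (χ γ)) • gam φ γ • β x :=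
    fun γ x => Subtype.ext (hg γ x.1)
  let Φ0 : LinearMap.ker f' →+ Tw φ χ (Hm g f) :=
    ((toTw φ χ (Hm g f)).toAddMonoidHom.comp
      (((LinearMap.range g).submoduleOf (LinearMap.ker f)).mkQ.toAddMonoidHom)).comp β
  have hΦ0 : ∀ x, Φ0 x = toTw φ χ (Hm g f)
      (((LinearMap.range g).submoduleOf (LinearMap.ker f)).mkQ (β x)) := fun _ => rfl
  let Φ : LinearMap.ker f' →ₗ[Rg φ] Tw φ χ (Hm g f) := mkLin Φ0
    (fun s x => by
      rw [hΦ0, hΦ0, hβS, LinearMap.map_smul, ← tw_iot])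
    (fun γ x => by
      rw [hΦ0, hΦ0, hβg, LinearMap.map_smul, LinearMap.map_smul, tw_gam])
  have hΦ : ∀ x, Φ x = toTw φ χ (Hm g f)
      (((LinearMap.range g).submoduleOf (LinearMap.ker f)).mkQ (β x)) := fun _ => rfl
  have hsurj : Function.Surjective Φ := by
    intro y
    obtain ⟨y1, rfl⟩ := (toTw φ χ (Hm g f)).surjective y
    obtain ⟨y2, rfl⟩ := Submodule.mkQ_surjective _ y1
    refine ⟨⟨b.symm y2.1, hk' _ ?_⟩, ?_⟩
    · rw [AddEquiv.apply_symm_apply]
      exact y2.2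
    · rw [hΦ]
      congr 2
      exact Subtype.ext (AddEquiv.apply_symm_apply b y2.1)
  have hker : (LinearMap.range g').submoduleOf (LinearMap.ker f') = LinearMap.ker Φ := by
    ext x
    rw [LinearMap.mem_ker, hΦ, map_eq_zero_iff (toTw φ χ (Hm g f)) (toTw φ χ (Hm g f)).injective,
      Submodule.mkQ_apply, Submodule.Quotient.mk_eq_zero]
    constructor
    · rintro ⟨z, hz⟩
      exact ⟨a z, by
        rw [← hgg, hz]
        rfl⟩
    · rintro ⟨z, hz⟩
      refine ⟨a.symm z, b.injective ?_⟩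
      rw [hgg, AddEquiv.apply_symm_apply, hz]
      rfl
  exact ⟨(Submodule.quotEquivOfEq _ _ hker).trans (LinearMap.quotKerEquivOfSurjective Φ hsurj)⟩

variable (K : KS F φ) (Z : Type u) [AddCommGroup Z] [Module (Rg φ) Z]

private theorem tws_iot (s : S) (m : Tw φ χ Z) :
    (toTw φ χ Z).symm (iot φ s • m) = iot φ s • (toTw φ χ Z).symm m := by
  rw [AddEquiv.symm_apply_eq, ← tw_iot, AddEquiv.apply_symm_apply]

private theorem tws_gam (g : Γ) (m : Tw φ χ Z) :
    (toTw φ χ Z).symm (gam φ g • m) =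
      iot φ (algebraMap F S (χ g)) • gam φ g • (toTw φ χ Z).symm m := by
  rw [AddEquiv.symm_apply_eq, ← tw_gam, AddEquiv.apply_symm_apply]

/-- the identity on the total spaces -/
private def ttw : K.Tot (Tw φ χ Z) ≃+ K.Tot Z where
  toFun x := fun A => (toTw φ χ Z).symm (x A)
  invFun x := fun A => toTw φ χ Z (x A)
  left_inv x := by
    funext A
    exact AddEquiv.apply_symm_apply _ _
  right_inv x := by
    funext A
    exact AddEquiv.symm_apply_apply _ _
  map_add' x y := by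
    funext A
    exact map_add (toTw φ χ Z).symm _ _

private theorem ttw_apply (x : K.Tot (Tw φ χ Z)) (A : Finset K.J) :
    ttw χ K Z x A = (toTw φ χ Z).symm (x A) := rfl

private theorem ttw_iot (s : S) (x : K.Tot (Tw φ χ Z)) :
    ttw χ K Z (iot φ s • x) = iot φ s • ttw χ K Z x := by
  funext A
  rw [ttw_apply, K.iot_smul, K.iot_smul, tws_iot, ttw_apply]

private theorem ttw_op (f : EA F K.J →ₗ[F] EA F K.J) (x : K.Tot (Tw φ χ Z)) :
    ttw χ K Z (K.op f x) = K.op f (ttw χ K Z x) := by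
  funext B
  rw [ttw_apply, K.op_apply, K.op_apply, map_sum]
  refine Finset.sum_congr rfl fun A _ => ?_
  rw [tws_iot, ttw_apply]

private theorem ttw_gam (g : Γ) (x : K.Tot (Tw φ χ Z)) :
    ttw χ K Z (gam φ g • x) = iot φ (algebraMap F S (χ g)) • gam φ g • ttw χ K Z x := by
  rw [K.gam_smul', ttw_op, K.gam_smul' g (ttw χ K Z x), ← K.op_iot]
  congr 1
  funext A
  rw [K.iot_smul, ttw_apply, tws_gam, ttw_apply]

private theorem ttw_da (x : K.Tot (Tw φ χ Z)) :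
    ttw χ K Z (K.da x) = K.da (ttw χ K Z x) := by
  rw [K.da_apply, K.da_apply, map_sum]
  refine Finset.sum_congr rfl fun j _ => ?_
  rw [ttw_iot, ttw_op]

private theorem ttw_mem (i : ZMod 2) (x : K.Tot (Tw φ χ Z)) :
    ttw χ K Z x ∈ K.part Z i ↔ x ∈ K.part (Tw φ χ Z) i := by
  rw [K.mem_part, K.mem_part]
  refine forall_congr' fun A => imp_congr_right fun _ => ?_
  rw [ttw_apply, map_eq_zero_iff (toTw φ χ Z).symm (toTw φ χ Z).symm.injective]

/-- the identity on the parts -/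
private def ptw (i : ZMod 2) : K.part (Tw φ χ Z) i ≃+ K.part Z i where
  toFun x := ⟨ttw χ K Z x.1, (ttw_mem χ K Z i x.1).2 x.2⟩
  invFun x := ⟨(ttw χ K Z).symm x.1, (ttw_mem χ K Z i _).1 (by
    rw [AddEquiv.apply_symm_apply]
    exact x.2)⟩
  left_inv x := Subtype.ext (AddEquiv.symm_apply_apply _ _)
  right_inv x := Subtype.ext (AddEquiv.apply_symm_apply _ _)
  map_add' x y := Subtype.ext (map_add (ttw χ K Z) _ _)

end auxA

section

variable {F : Type u} [Field F] {S : Type u} [CommRing S] [Algebra F S] {Γ : Type u}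
variable {φ : Γ → S →+* S} [FixF F φ] (K : KS F φ) (χ : Γ → F)
variable (Z : Type u) [AddCommGroup Z] [Module (Rg φ) Z]

theorem hom_tw0 : Nonempty ((K.ch (Tw φ χ Z)).H0 ≃ₗ[Rg φ] Tw φ χ (K.ch Z).H0) :=
  hm_tw χ (K.ch Z).d1 (K.ch Z).d0 (K.ch (Tw φ χ Z)).d1 (K.ch (Tw φ χ Z)).d0
    (ptw χ K Z 1) (ptw χ K Z 0) (ptw χ K Z 1)
    (fun s y => Subtype.ext (ttw_iot χ K Z s y.1)) (fun g y => Subtype.ext (ttw_gam χ K Z g y.1))
    (fun y => Subtype.ext (ttw_da χ K Z y.1)) (fun x => Subtype.ext (ttw_da χ K Z x.1))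

theorem hom_tw1 : Nonempty ((K.ch (Tw φ χ Z)).H1 ≃ₗ[Rg φ] Tw φ χ (K.ch Z).H1) :=
  hm_tw χ (K.ch Z).d0 (K.ch Z).d1 (K.ch (Tw φ χ Z)).d0 (K.ch (Tw φ χ Z)).d1
    (ptw χ K Z 0) (ptw χ K Z 1) (ptw χ K Z 0)
    (fun s y => Subtype.ext (ttw_iot χ K Z s y.1)) (fun g y => Subtype.ext (ttw_gam χ K Z g y.1))
    (fun y => Subtype.ext (ttw_da χ K Z y.1)) (fun x => Subtype.ext (ttw_da χ K Z x.1))

variable {Z}

theorem tw_map {Z' : Type u} [AddCommGroup Z'] [Module (Rg φ) Z'] (f : Z ≃ₗ[Rg φ] Z') :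
    Nonempty (Tw φ χ Z ≃ₗ[Rg φ] Tw φ χ Z') := by
  let G : Tw φ χ Z →+ Tw φ χ Z' := ((toTw φ χ Z').toAddMonoidHom.comp
    (f : Z →ₗ[Rg φ] Z').toAddMonoidHom).comp (toTw φ χ Z).symm.toAddMonoidHom
  have hG : ∀ x, G x = toTw φ χ Z' (f ((toTw φ χ Z).symm x)) := fun _ => rfl
  refine ⟨LinearEquiv.ofBijective (mkLin G (fun s x => ?_) (fun g x => ?_)) ⟨?_, ?_⟩⟩
  · rw [hG, hG, tws_iot, LinearEquiv.map_smul, tw_iot]
  · rw [hG, hG, tws_gam, LinearEquiv.map_smul, LinearEquiv.map_smul, tw_gam]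
  · intro x y h
    have h1 : G x = G y := h
    rw [hG, hG] at h1
    exact (toTw φ χ Z).symm.injective (f.injective ((toTw φ χ Z').injective h1))
  · intro y
    refine ⟨toTw φ χ Z (f.symm ((toTw φ χ Z').symm y)), ?_⟩
    change G (toTw φ χ Z (f.symm ((toTw φ χ Z').symm y))) = y
    rw [hG, AddEquiv.symm_apply_apply, LinearEquiv.apply_symm_apply, AddEquiv.apply_symm_apply]

end

namespace Adm

variable {D : Dat.{u}} (A : Adm D)

/-- the character `cyc ↦ ζ^a` -/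
def cch (a : ZMod A.k) : Gk D.F → D.F
  | Gk.bs _ => 1
  | Gk.cyc => A.zp a

variable (H : Type u) [AddCommGroup H] [Module A.R H]

private theorem twres_iot (s : D.S) : A.res (iot D.ph s) = iot A.ph (A.avg s) :=
  rgHom_iot D.ph ((iot A.ph).comp A.avg) (fun g => gam A.ph (Gk.bs g)) _ s

private theorem twres_gam (g : Gn D.F) : A.res (gam D.ph g) = gam A.ph (Gk.bs g) :=
  rgHom_gam D.ph ((iot A.ph).comp A.avg) (fun g => gam A.ph (Gk.bs g)) _ g

private theorem tw_res (a : ZMod A.k) (r : D.R) (h : H) :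
    A.res r • toTw A.ph (A.cch a) H h = toTw A.ph (A.cch a) H (A.res r • h) := by
  revert h
  refine rg_induction D.ph (P := fun r => ∀ h : H, A.res r • toTw A.ph (A.cch a) H h =
    toTw A.ph (A.cch a) H (A.res r • h)) r ?_ ?_ ?_ ?_
  · intro s h
    rw [twres_iot, tw_iot]
  · intro g h
    rw [twres_gam, tw_gam]
    have h1 : A.cch a (Gk.bs g) = 1 := rfl
    rw [h1, map_one, map_one, one_smul]
  · intro x y hx hy h
    rw [map_add, add_smul, hx, hy, add_smul, map_add]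
  · intro x y hx hy h
    rw [map_mul, mul_smul, hy, hx, mul_smul]

private theorem zp_smul (i j : ZMod A.k) (h : H) :
    iot A.ph (algebraMap D.F A.S (A.zp i)) • iot A.ph (algebraMap D.F A.S (A.zp j)) • h =
      iot A.ph (algebraMap D.F A.S (A.zp (i + j))) • h := by
  rw [← mul_smul, ← map_mul, ← map_mul, ← zp_add]

private theorem tw_cond (a j : ZMod A.k) (h : H) (r : D.R) :
    gam A.ph Gk.cyc • A.res r • toTw A.ph (A.cch a) H h =
        iot A.ph (algebraMap D.F A.S (A.zp j)) • A.res r • toTw A.ph (A.cch a) H h ↔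
      gam A.ph Gk.cyc • A.res r • h =
        iot A.ph (algebraMap D.F A.S (A.zp (j - a))) • A.res r • h := by
  rw [tw_res, tw_gam, tw_iot]
  have h1 : A.cch a Gk.cyc = A.zp a := rfl
  rw [h1]
  constructor
  · intro h2
    have h3 := (toTw A.ph (A.cch a) H).injective h2
    have h4 := congrArg (fun z => iot A.ph (algebraMap D.F A.S (A.zp (-a))) • z) h3
    simp only [zp_smul] at h4
    rw [neg_add_cancel, zp_zero, map_one, map_one, one_smul, neg_add_eq_sub] at h4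
    exact h4
  · intro h2
    rw [h2, zp_smul, add_sub_cancel]

theorem eg_tw (a j : ZMod A.k) :
    Nonempty (A.Eg j (Tw A.ph (A.cch a) H) ≃ₗ[D.R] A.Eg (j - a) H) := by
  have h1 : ∀ x : A.Eg j (Tw A.ph (A.cch a) H),
      toTw A.ph (A.cch a) H ((toTw A.ph (A.cch a) H).symm (A.egi j x)) = A.egi j x := fun x =>
    AddEquiv.apply_symm_apply _ _
  exact ⟨{
    toFun := fun x => A.egk (j - a) ((toTw A.ph (A.cch a) H).symm (A.egi j x)) (fun r =>
      (tw_cond A H a j _ r).1 (by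
        rw [h1 x]
        exact A.egi_mem j x r))
    invFun := fun y => A.egk j (toTw A.ph (A.cch a) H (A.egi (j - a) y)) (fun r =>
      (tw_cond A H a j _ r).2 (A.egi_mem (j - a) y r))
    map_add' := fun x y => A.egi_inj (j - a) (map_add (toTw A.ph (A.cch a) H).symm _ _)
    map_smul' := fun r x => A.egi_inj (j - a) (by
      change (toTw A.ph (A.cch a) H).symm (A.res r • A.egi j x) =
        A.res r • (toTw A.ph (A.cch a) H).symm (A.egi j x)
      rw [AddEquiv.symm_apply_eq, ← tw_res, h1 x])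
    left_inv := fun x => A.egi_inj j (AddEquiv.apply_symm_apply _ _)
    right_inv := fun y => A.egi_inj (j - a) (AddEquiv.symm_apply_apply _ _) }⟩

variable {H}

private theorem eg_equiv {H' : Type u} [AddCommGroup H'] [Module A.R H'] (f : H ≃ₗ[A.R] H')
    (j : ZMod A.k) : Nonempty (A.Eg j H ≃ₗ[D.R] A.Eg j H') := by
  refine ⟨LinearEquiv.ofBijective (A.egm j (f : H →ₗ[A.R] H')) ⟨A.egm_inj j _ f.injective, ?_⟩⟩
  intro y
  refine ⟨A.egm j (f.symm : H' →ₗ[A.R] H) y, A.egi_inj j ?_⟩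
  rw [A.egi_egm, A.egi_egm]
  exact f.apply_symm_apply _

private theorem eg_iter (a : ZMod A.k) (f : Nonempty (H ≃ₗ[A.R] Tw A.ph (A.cch a) H))
    (j : ZMod A.k) (n : ℕ) : Nonempty (A.Eg j H ≃ₗ[D.R] A.Eg (j - n * a) H) := by
  induction n with
  | zero =>
    have h : j - ((0:ℕ) : ZMod A.k) * a = j := by
      rw [Nat.cast_zero, zero_mul, sub_zero]
    rw [h]
    exact ⟨LinearEquiv.refl _ _⟩
  | succ n ih =>
    have h : j - ((n + 1 : ℕ) : ZMod A.k) * a = j - (n : ZMod A.k) * a - a := by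
      push_cast
      ring
    rw [h]
    obtain ⟨f⟩ := f
    obtain ⟨g1⟩ := ih
    obtain ⟨g2⟩ := eg_equiv A f (j - (n : ZMod A.k) * a)
    obtain ⟨g3⟩ := A.eg_tw H a (j - (n : ZMod A.k) * a)
    exact ⟨(g1.trans g2).trans g3⟩

theorem dl_tw {Cl : Cls.{u} D.R} {B : Type v} [AddCommGroup B] (e : Adf Cl B) (a : ZMod A.k)
    (ha : a ≠ 0) (hH : (A.cK Cl).P H) (f : Nonempty (H ≃ₗ[A.R] Tw A.ph (A.cch a) H)) :
    A.dl e H = 0 := by
  have h1 := eg_iter A a f 1 (a⁻¹).val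
  have h2 : (1 : ZMod A.k) - (((a⁻¹).val : ℕ) : ZMod A.k) * a = 0 := by
    rw [ZMod.natCast_zmod_val, inv_mul_cancel₀ ha, sub_self]
  rw [h2] at h1
  obtain ⟨g⟩ := h1
  have hH' : A.InK Cl H := hH
  have h3 := e.iso g (hH'.e 1)
  unfold dl
  rw [h3, sub_self]

theorem chi_tw {Z : Type u} [AddCommGroup Z] [Module A.R Z] {Cl : Cls.{u} D.R} {B : Type v}
    [AddCommGroup B] (e : Adf Cl B) (a : ZMod A.k) (ha : a ≠ 0) (hZ : (A.tch Z).InC (A.cK Cl))
    (f : Nonempty (Z ≃ₗ[A.R] Tw A.ph (A.cch a) Z)) : (A.tch Z).chi (A.dlA e) = 0 := by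
  obtain ⟨f⟩ := f
  obtain ⟨q0, q1⟩ := qis_of_iso (A.kT.map (f : Z →ₗ[A.R] Tw A.ph (A.cch a) Z))
    ⟨A.kT.pmap_inj _ f.injective 0, A.kT.pmap_surj _ f.surjective 0⟩
    ⟨A.kT.pmap_inj _ f.injective 1, A.kT.pmap_surj _ f.surjective 1⟩
  obtain ⟨q0⟩ := q0
  obtain ⟨q1⟩ := q1
  obtain ⟨t0⟩ := hom_tw0 A.kT (A.cch a) Z
  obtain ⟨t1⟩ := hom_tw1 A.kT (A.cch a) Z
  have h0 : A.dl e (A.tch Z).H0 = 0 := A.dl_tw e a ha hZ.1 ⟨q0.trans t0⟩
  have h1 : A.dl e (A.tch Z).H1 = 0 := A.dl_tw e a ha hZ.2 ⟨q1.trans t1⟩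
  change A.dl e (A.tch Z).H0 - A.dl e (A.tch Z).H1 = 0
  rw [h0, h1, sub_self]

end Adm

end MSA
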