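import Mathlib
import Pool.Agent.MSA.Fil
import Pool.Agent.MSA.TwK

/-!
# The graded pieces are isomorphic to twists of themselves

PROOF. Let `q : M →+ M` be an `L`-linear projection onto `N` (`exists_prj`), for `l : ZMod k` put
`v_l m = ζ^l • q m + (m - q m)`, `v'_l m = ζ^(-l) • q m + (m - q m)` (`ζ^l ∈ F` acts through `C (algebraMap ..)`; `zp l`,
`zp (-l)`); they commute with the constants and are inverse to each other (not needed). `u = A.pfm v`.
(1) `u` maps `fil N r` to `fil N r` for all `r` (`v_l N ≤ N`, `filG_map`), so it induces `ū` on `gr N r`.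
(2) `uact`: for `T` with `m l ∈ N` for `l ∈ T`: `u (tpk m) - ζ^(∑_{l ∈ T} l) • tpk m ∈ fil N (|T| + 1)`: apply `fil_tele` to
`m' l = v_l (m l)` and `m'' l = if l ∈ T then ζ^l • m l else m l`, then take the scalars out of `tpk m''`
(`slot_tpk` with `s = C c`, `slot_C`; `zp_add`).
(3) `ū` commutes with `iot (slot l s)` and `gam (bs g)` and satisfies `ū (cyc z) = ζ^r cyc (ū z)` on `gr N r`: it is
enough to check this on the classes of `tpk m` with `m l ∈ N` for `l ∈ T`, `r ≤ |T|`; shrink `T` so that `|T| = r`; then use (2)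
for both sides: the slots in `T` stay in `N` (for `cyc`: `cyc_tpk`, the set `T` is replaced by `T + 1` and
`∑_{l ∈ T+1} l = ∑_{l ∈ T} l + r` in `ZMod k`); `ζ^a ∈ F` commutes with everything (`FixF`, `gam_mul_iot`).
(4) `ū^k = 1` on `gr N r` by (2) (`ζ^k = 1`; `ū (ζ^a • z) = ζ^a • ū z`), so `ū` is bijective. (Or use `v'`.)
(5) `f = toTw ∘ ū : gr N r → Tw (cch r) (gr N r)` is linear (`linSlot`; `tw_iot`, `tw_gam`: the shift acts on the twist as
`ζ^r cyc`, the other generators as before) and bijective.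
-/

set_option autoImplicit false
set_option linter.unusedSectionVars false

noncomputable section

namespace MSA

universe u v w

namespace Adm

variable {D : Dat.{u}} (A : Adm D)

variable {M : Type u} [AddCommGroup M] [Module D.R M]

/-- `ζ^l` on `N`, the identity on a complement (`q` a projection onto `N`) -/
def vop (q : M →+ M) (l : ZMod A.k) : M →+ M where
  toFun m := iot D.ph (MvPolynomial.C (algebraMap D.F D.L (A.zp l))) • q m + (m - q m)
  map_zero' := by rw [map_zero, smul_zero, sub_zero, add_zero]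
  map_add' m m' := by
    rw [map_add, smul_add]
    abel

theorem vop_C (q : M →+ M) (hq : ∀ (c : D.L) m, q (iot D.ph (MvPolynomial.C c) • m) =
    iot D.ph (MvPolynomial.C c) • q m) (l : ZMod A.k) (c : D.L) (m : M) :
    A.vop q l (iot D.ph (MvPolynomial.C c) • m) = iot D.ph (MvPolynomial.C c) • A.vop q l m := by
  show iot D.ph _ • q _ + (_ - q _) = _ • (iot D.ph _ • q m + (m - q m))
  rw [hq, smul_add, smul_sub, ← mul_smul, ← mul_smul, ← map_mul (iot D.ph), ← map_mul (iot D.ph),
    mul_comm (MvPolynomial.C c) (MvPolynomial.C (algebraMap D.F D.L (A.zp l)))]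

private theorem fu_slot (l : ZMod A.k) (a : D.F) :
    A.slot l (algebraMap D.F D.S a) = algebraMap D.F A.S a :=
  A.slot_C l (algebraMap D.F D.L a)

private theorem fu_scal (m : ZMod A.k → M) (a : ZMod A.k → D.F) (s : Finset (ZMod A.k)) :
    A.tpk (fun l => if l ∈ s then iot D.ph (algebraMap D.F D.S (a l)) • m l else m l) =
      iot A.ph (algebraMap D.F A.S (∏ l ∈ s, a l)) • A.tpk m := by
  classical
  induction s using Finset.induction_on with
  | empty =>
    have h0 : (fun l : ZMod A.k => if l ∈ (∅ : Finset (ZMod A.k)) then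
        iot D.ph (algebraMap D.F D.S (a l)) • m l else m l) = m := by
      funext l
      exact if_neg (Finset.notMem_empty l)
    rw [Finset.prod_empty, map_one, map_one, one_smul, h0]
  | insert b s hb ih =>
    rw [Finset.prod_insert hb, map_mul, map_mul, mul_smul, ← ih, ← A.fu_slot b, A.slot_tpk]
    congr 1
    funext l
    by_cases hl : l = b
    · subst hl
      rw [Function.update_self, if_pos (Finset.mem_insert_self l s), if_neg hb]
    · rw [Function.update_of_ne hl]
      by_cases hs : l ∈ s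
      · rw [if_pos hs, if_pos (Finset.mem_insert_of_mem hs)]
      · rw [if_neg hs, if_neg]
        intro h
        rcases Finset.mem_insert.1 h with h | h
        · exact hl h
        · exact hs h

private theorem fu_prod (s : Finset (ZMod A.k)) : ∏ l ∈ s, A.zp l = A.zp (∑ l ∈ s, l) := by
  classical
  induction s using Finset.induction_on with
  | empty => rw [Finset.prod_empty, Finset.sum_empty, zp_zero]
  | insert b s hb ih => rw [Finset.prod_insert hb, Finset.sum_insert hb, zp_add, ih]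

private theorem vop_apply (q : M →+ M) (l : ZMod A.k) (m : M) :
    A.vop q l m = iot D.ph (algebraMap D.F D.S (A.zp l)) • q m + (m - q m) := rfl

private theorem vop_memN (N : Submodule D.R M) (q : M →+ M) (hi : ∀ m ∈ N, q m = m)
    (l : ZMod A.k) (m : M) (hm : m ∈ N) :
    A.vop q l m = iot D.ph (algebraMap D.F D.S (A.zp l)) • m := by
  rw [vop_apply, hi m hm, sub_self, add_zero]

theorem uact (N : Submodule D.R M) (q : M →+ M) (hq : ∀ (c : D.L) m,
    q (iot D.ph (MvPolynomial.C c) • m) = iot D.ph (MvPolynomial.C c) • q m)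
    (hN : ∀ m, q m ∈ N) (hi : ∀ m ∈ N, q m = m) (m : ZMod A.k → M) (T : Finset (ZMod A.k))
    (hT : ∀ l ∈ T, m l ∈ N) :
    A.pfm (A.vop q) (A.vop_C q hq) (A.tpk m) -
      iot A.ph (algebraMap D.F A.S (A.zp (∑ l ∈ T, l))) • A.tpk m ∈ A.fil N (T.card + 1) := by
  rw [pfm_tpk, ← A.fu_prod T, ← A.fu_scal m A.zp T]
  refine A.fil_tele N _ _ T ?_ ?_
  · intro l hl
    rw [if_pos hl, A.vop_memN N q hi l _ (hT l hl)]
    exact ⟨rfl, N.smul_mem _ (hT l hl)⟩
  · intro l
    by_cases hl : l ∈ T
    · rw [if_pos hl, A.vop_memN N q hi l _ (hT l hl), sub_self]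
      exact N.zero_mem
    · rw [if_neg hl, vop_apply]
      have h1 : iot D.ph (algebraMap D.F D.S (A.zp l)) • q (m l) + (m l - q (m l)) - m l =
          iot D.ph (algebraMap D.F D.S (A.zp l)) • q (m l) - q (m l) := by abel
      rw [h1]
      exact N.sub_mem (N.smul_mem _ (hN _)) (hN _)

private theorem fu_cong (N : Submodule D.R M) (r : ℕ) (f g : A.Pk M →+ A.Pk M)
    (h : ∀ (m : ZMod A.k → M) (T : Finset (ZMod A.k)), T.card = r → (∀ l ∈ T, m l ∈ N) →
      f (A.tpk m) - g (A.tpk m) ∈ A.fil N (r + 1)) (z : A.Pk M) (hz : z ∈ A.fil N r) :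
    f z - g z ∈ A.fil N (r + 1) := by
  refine A.filG_map N r (r + 1) (f - g) ?_ z hz
  rintro m ⟨T, hT, hm⟩
  obtain ⟨T', hT', hc⟩ := Finset.exists_subset_card_eq hT
  exact h m T' hc fun l hl => hm l (hT' hl)

private theorem fu_inv (N : Submodule D.R M) (q : M →+ M) (hq : ∀ (c : D.L) m,
    q (iot D.ph (MvPolynomial.C c) • m) = iot D.ph (MvPolynomial.C c) • q m)
    (hN : ∀ m, q m ∈ N) (hi : ∀ m ∈ N, q m = m) (l : ZMod A.k) (m : M) :
    A.vop q (-l) (A.vop q l m) = m := by
  have h1 : q (A.vop q l m) = iot D.ph (algebraMap D.F D.S (A.zp l)) • q m := by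
    rw [vop_apply, map_add, map_sub, hi (q m) (hN m), sub_self, add_zero]
    have h2 := hq (algebraMap D.F D.L (A.zp l)) (q m)
    rw [hi (q m) (hN m)] at h2
    exact h2
  rw [vop_apply, h1, ← mul_smul, ← map_mul (iot D.ph), ← map_mul (algebraMap D.F D.S), ← zp_add,
    neg_add_cancel, zp_zero, map_one, map_one, one_smul, vop_apply]
  abel

private theorem fu_pres (N : Submodule D.R M) (q : M →+ M)
    (hN : ∀ m, q m ∈ N) (hi : ∀ m ∈ N, q m = m) (e : ZMod A.k → ZMod A.k) (hC) (r : ℕ)
    (z : A.Pk M) (hz : z ∈ A.fil N r) : A.pfm (fun l => A.vop q (e l)) hC z ∈ A.fil N r := by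
  refine A.filG_map N r r (A.pfm (fun l => A.vop q (e l)) hC) ?_ z hz
  rintro m ⟨T, hT, hm⟩
  rw [pfm_tpk]
  refine A.tpk_mem N r _ ⟨T, hT, fun l hl => ?_⟩
  show A.vop q (e l) (m l) ∈ N
  rw [A.vop_memN N q hi (e l) _ (hm l hl)]
  exact N.smul_mem _ (hm l hl)

theorem gr_tw (N : Submodule D.R M) (r : ℕ) :
    Nonempty (A.gr N r ≃ₗ[A.R] Tw A.ph (A.cch (r : ZMod A.k)) (A.gr N r)) := by
  classical
  obtain ⟨q, hq, hN, hi⟩ := exists_prj N
  set u : A.Pk M →+ A.Pk M := A.pfm (A.vop q) (A.vop_C q hq) with hu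
  set u' : A.Pk M →+ A.Pk M := A.pfm (fun l => A.vop q (-l)) (fun l => A.vop_C q hq (-l)) with hu'
  have huu' : ∀ z, u' (u z) = z := by
    intro z
    have h1 : u'.comp u = AddMonoidHom.id _ := by
      apply A.tpk_ext
      intro m
      show u' (u (A.tpk m)) = A.tpk m
      rw [hu, hu', pfm_tpk, pfm_tpk]
      congr 1
      funext l
      exact A.fu_inv N q hq hN hi l (m l)
    exact congrArg (fun t : A.Pk M →+ A.Pk M => t z) h1
  have hu'u : ∀ z, u (u' z) = z := by
    intro z
    have h1 : u.comp u' = AddMonoidHom.id _ := by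
      apply A.tpk_ext
      intro m
      show u (u' (A.tpk m)) = A.tpk m
      rw [hu, hu', pfm_tpk, pfm_tpk]
      congr 1
      funext l
      have h2 := A.fu_inv N q hq hN hi (-l) (m l)
      rw [neg_neg] at h2
      exact h2
    exact congrArg (fun t : A.Pk M →+ A.Pk M => t z) h1
  have pu : ∀ (r : ℕ) (z : A.Pk M), z ∈ A.fil N r → u z ∈ A.fil N r := fun r z hz =>
    A.fu_pres N q hN hi (fun l => l) (A.vop_C q hq) r z hz
  have pu' : ∀ (r : ℕ) (z : A.Pk M), z ∈ A.fil N r → u' z ∈ A.fil N r := fun r z hz =>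
    A.fu_pres N q hN hi (fun l => -l) (fun l => A.vop_C q hq (-l)) r z hz
  have hact : ∀ (m : ZMod A.k → M) (T : Finset (ZMod A.k)), T.card = r → (∀ l ∈ T, m l ∈ N) →
      u (A.tpk m) - iot A.ph (algebraMap D.F A.S (A.zp (∑ l ∈ T, l))) • A.tpk m ∈
        A.fil N (r + 1) := by
    intro m T hT hm
    have h1 := A.uact N q hq hN hi m T hm
    rw [hT] at h1
    exact h1
  have kS : ∀ (l : ZMod A.k) (s : D.S) (z : A.Pk M), z ∈ A.fil N r →
      u (iot A.ph (A.slot l s) • z) - iot A.ph (A.slot l s) • u z ∈ A.fil N (r + 1) := by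
    intro l s z hz
    refine A.fu_cong N r (u.comp (DistribSMul.toAddMonoidHom (A.Pk M) (iot A.ph (A.slot l s))))
      ((DistribSMul.toAddMonoidHom (A.Pk M) (iot A.ph (A.slot l s))).comp u) ?_ z hz
    intro m T hT hm
    show u (iot A.ph (A.slot l s) • A.tpk m) - iot A.ph (A.slot l s) • u (A.tpk m) ∈ _
    have h1 := hact (Function.update m l (iot D.ph s • m l)) T hT (fun l' hl' => by
      by_cases e : l' = l
      · subst e
        rw [Function.update_self]
        exact N.smul_mem _ (hm _ hl')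
      · rw [Function.update_of_ne e]
        exact hm _ hl')
    have h2 := (A.fil N (r + 1)).smul_mem (iot A.ph (A.slot l s)) (hact m T hT hm)
    rw [← A.slot_tpk] at h1
    have h3 := (A.fil N (r + 1)).sub_mem h1 h2
    rw [smul_sub, ← mul_smul, ← mul_smul, ← map_mul (iot A.ph), ← map_mul (iot A.ph),
      mul_comm (algebraMap D.F A.S (A.zp (∑ l ∈ T, l))) (A.slot l s), sub_sub_sub_cancel_right] at h3
    exact h3
  have kg : ∀ (g : Gk D.F) (z : A.Pk M), z ∈ A.fil N r →
      u (gam A.ph g • z) - iot A.ph (algebraMap D.F A.S (A.cch (r : ZMod A.k) g)) •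
        gam A.ph g • u z ∈ A.fil N (r + 1) := by
    intro g z hz
    refine A.fu_cong N r (u.comp (DistribSMul.toAddMonoidHom (A.Pk M) (gam A.ph g)))
      ((DistribSMul.toAddMonoidHom (A.Pk M) (iot A.ph (algebraMap D.F A.S
        (A.cch (r : ZMod A.k) g)))).comp ((DistribSMul.toAddMonoidHom (A.Pk M)
          (gam A.ph g)).comp u)) ?_ z hz
    intro m T hT hm
    show u (gam A.ph g • A.tpk m) - iot A.ph (algebraMap D.F A.S (A.cch (r : ZMod A.k) g)) •
      gam A.ph g • u (A.tpk m) ∈ _
    have h2 := (A.fil N (r + 1)).smul_mem (iot A.ph (algebraMap D.F A.S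
      (A.cch (r : ZMod A.k) g))) ((A.fil N (r + 1)).smul_mem (gam A.ph g) (hact m T hT hm))
    have h4 : ∀ (c : D.F) (z : A.Pk M), gam A.ph g • iot A.ph (algebraMap D.F A.S c) • z =
        iot A.ph (algebraMap D.F A.S c) • gam A.ph g • z := by
      intro c z
      rw [← mul_smul, gam_mul_iot, FixF.fix (φ := A.ph), mul_smul]
    rw [smul_sub, smul_sub, h4, ← mul_smul (iot A.ph (algebraMap D.F A.S (A.cch _ g)))
      (iot A.ph (algebraMap D.F A.S (A.zp _))), ← map_mul (iot A.ph), ← map_mul (algebraMap D.F A.S)]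
      at h2
    cases g with
    | bs g =>
      have h1 := hact (fun l => gam D.ph g • m l) T hT (fun l hl => N.smul_mem _ (hm l hl))
      rw [← A.bs_tpk] at h1
      have h5 : A.cch (r : ZMod A.k) (Gk.bs g) = 1 := rfl
      rw [h5] at h2 ⊢
      rw [one_mul] at h2
      have h3 := (A.fil N (r + 1)).sub_mem h1 h2
      rw [sub_sub_sub_cancel_right] at h3
      exact h3
    | cyc =>
      have h1 := hact (fun l => m (l - 1)) (T.map (addRightEmbedding 1))
        (by rw [Finset.card_map, hT]) (fun l hl => by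
          rw [Finset.mem_map] at hl
          obtain ⟨l', hl', rfl⟩ := hl
          show m (l' + 1 - 1) ∈ N
          rw [add_sub_cancel_right]
          exact hm l' hl')
      rw [← A.cyc_tpk] at h1
      have h5 : A.cch (r : ZMod A.k) Gk.cyc = A.zp (r : ZMod A.k) := rfl
      have h6 : ∑ l ∈ T.map (addRightEmbedding (1 : ZMod A.k)), l = (r : ZMod A.k) + ∑ l ∈ T, l := by
        rw [Finset.sum_map]
        simp only [addRightEmbedding_apply]
        rw [Finset.sum_add_distrib, Finset.sum_const, hT, nsmul_eq_mul, mul_one, add_comm]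
      rw [h6] at h1
      rw [h5, ← zp_add] at h2
      rw [h5]
      have h3 := (A.fil N (r + 1)).sub_mem h1 h2
      rw [sub_sub_sub_cancel_right] at h3
      exact h3
  let U : A.fil N r →+ A.fil N r :=
    { toFun := fun z => ⟨u z.1, pu r z.1 z.2⟩
      map_zero' := Subtype.ext (map_zero u)
      map_add' := fun x y => Subtype.ext (map_add u x.1 y.1) }
  let Q := (A.fil N (r + 1)).submoduleOf (A.fil N r)
  let Φ0 : A.fil N r →+ Tw A.ph (A.cch (r : ZMod A.k)) (A.gr N r) :=
    ((toTw A.ph (A.cch (r : ZMod A.k)) (A.gr N r)).toAddMonoidHom.comp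
      Q.mkQ.toAddMonoidHom).comp U
  have hΦ0 : ∀ x, Φ0 x = toTw A.ph (A.cch (r : ZMod A.k)) (A.gr N r) (Q.mkQ (U x)) := fun _ => rfl
  have hQ : ∀ x y : A.fil N r, x.1 - y.1 ∈ A.fil N (r + 1) → Q.mkQ x = Q.mkQ y := by
    intro x y hxy
    rw [Submodule.mkQ_apply, Submodule.mkQ_apply, Submodule.Quotient.eq]
    exact hxy
  let Φ : A.fil N r →ₗ[A.R] Tw A.ph (A.cch (r : ZMod A.k)) (A.gr N r) := A.linSlot Φ0
    (fun l s z => by
      rw [hΦ0, hΦ0, tw_iot, ← LinearMap.map_smul]
      congr 1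
      exact hQ _ _ (kS l s z.1 z.2))
    (fun g z => by
      rw [hΦ0, hΦ0, tw_gam, ← LinearMap.map_smul, ← LinearMap.map_smul]
      congr 1
      exact hQ _ _ (kg g z.1 z.2))
  have hΦ : ∀ x, Φ x = toTw A.ph (A.cch (r : ZMod A.k)) (A.gr N r) (Q.mkQ (U x)) := fun _ => rfl
  have hsurj : Function.Surjective Φ := by
    intro y
    obtain ⟨y1, rfl⟩ := (toTw A.ph (A.cch (r : ZMod A.k)) (A.gr N r)).surjective y
    obtain ⟨y2, rfl⟩ := Submodule.mkQ_surjective _ y1
    refine ⟨⟨u' y2.1, pu' r _ y2.2⟩, ?_⟩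
    rw [hΦ]
    congr 2
    exact Subtype.ext (hu'u y2.1)
  have hker : Q = LinearMap.ker Φ := by
    ext x
    rw [LinearMap.mem_ker, hΦ, map_eq_zero_iff _ (toTw A.ph (A.cch (r : ZMod A.k))
      (A.gr N r)).injective, Submodule.mkQ_apply, Submodule.Quotient.mk_eq_zero]
    constructor
    · intro hx
      exact pu (r + 1) x.1 hx
    · intro hx
      have h1 := pu' (r + 1) _ hx
      change u' (u x.1) ∈ _ at h1
      rw [huu'] at h1
      exact h1
  exact ⟨(Submodule.quotEquivOfEq _ _ hker).trans (LinearMap.quotKerEquivOfSurjective Φ hsurj)⟩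

end Adm

end MSA
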