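import Mathlib
import Pool.Agent.MSA.ChA

/-!
# The hexagon

PROOF. Write `H0 X = ker d0 / range d1`, `H1 X = ker d1 / range d0` for the three complexes. The
morphisms `i`, `q` induce `i0 : H0 X → H0 Y`, `q0 : H0 Y → H0 Z`, `i1, q1` (`Submodule.mapQ` on the
kernels) and there are connecting maps `δ0 : H0 Z → H1 X`, `δ1 : H1 Z → H0 X` (snake lemma: for
`z ∈ ker d0` choose `y` with `q y = z`, then `d0 y = i x`; class of `x`). The hexagon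
`H0 X → H0 Y → H0 Z → H1 X → H1 Y → H1 Z → H0 X` is exact at all six places.
If you prefer avoid maps and use subgroups: put `A0 = range δ1 ≤ H0 X`, etc. With the six images
`I1 = range i0`, `I2 = range q0`, `I3 = range δ0`, `I4 = range i1`, `I5 = range q1`, `I6 = range δ1`
additivity (`adf_ses`, all modules in the class because of `cls_inj`, `cls_sur`) gives
`e (H0 X) = e I6 + e I1`, `e (H0 Y) = e I1 + e I2`, `e (H0 Z) = e I2 + e I3`, `e (H1 X) = e I3 + e I4`,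
`e (H1 Y) = e I4 + e I5`, `e (H1 Z) = e I5 + e I6`; so
`e (H0 Y) - e (H1 Y) = (e (H0 X) - e (H1 X)) + (e (H0 Z) - e (H1 Z))`.
To define a linear map out of a quotient by a choice (the connecting map) it is convenient to prove that
the relation `{(z, x) | ∃ y, q y = z ∧ d y = i x}` gives a well defined function (choice) and is linear,
or to use `LinearMap` composition with the inverse of the bijection `X / ker → ...`.
Mathlib has `SnakeLemma` (`Mathlib/Algebra/Module/SnakeLemma.lean`: `SnakeLemma.δ`, `δ'`), which can be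
used for `X.X0 / range d1 → ker d1` etc. You may use two files.
-/

set_option autoImplicit false

noncomputable section

namespace MSA

universe u v w

variable {R : Type w} [Ring R] {C : Cls.{u} R} {A : Type v} [AddCommGroup A] (e : Adf C A)

section raw

variable {X0 X1 Y0 Y1 Z0 Z1 : Type u} [AddCommGroup X0] [AddCommGroup X1] [AddCommGroup Y0]
  [AddCommGroup Y1] [AddCommGroup Z0] [AddCommGroup Z1] [Module R X0] [Module R X1] [Module R Y0]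
  [Module R Y1] [Module R Z0] [Module R Z1]

private theorem mem_so {M : Type u} [AddCommGroup M] [Module R M] {N K : Submodule R M} {x : K} :
    x ∈ N.submoduleOf K ↔ (x : M) ∈ N := Iff.rfl

/-- the class of a cycle -/
private def hcl (g : X1 →ₗ[R] X0) (f : X0 →ₗ[R] X1) (x : X0) (hx : f x = 0) : Hm g f :=
  Submodule.Quotient.mk ⟨x, LinearMap.mem_ker.2 hx⟩

private theorem hcl_zero (g : X1 →ₗ[R] X0) (f : X0 →ₗ[R] X1) (x : X0) (hx : f x = 0) :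
    hcl g f x hx = 0 ↔ ∃ y, g y = x := by
  unfold hcl
  rw [Submodule.Quotient.mk_eq_zero, mem_so, LinearMap.mem_range]

private theorem hcl_surj (g : X1 →ₗ[R] X0) (f : X0 →ₗ[R] X1) (h : Hm g f) :
    ∃ x hx, hcl g f x hx = h := by
  obtain ⟨⟨x, hx⟩, rfl⟩ := Submodule.Quotient.mk_surjective _ h
  exact ⟨x, LinearMap.mem_ker.1 hx, rfl⟩

private theorem hcl_congr (g : X1 →ₗ[R] X0) (f : X0 →ₗ[R] X1) {x x' : X0} (hx : f x = 0)
    (hx' : f x' = 0) (h : ∃ y, g y = x - x') : hcl g f x hx = hcl g f x' hx' := by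
  unfold hcl
  rw [Submodule.Quotient.eq, mem_so]
  exact LinearMap.mem_range.2 h

/-- the map in homology -/
private def hmp (g : X1 →ₗ[R] X0) (f : X0 →ₗ[R] X1) (g' : Y1 →ₗ[R] Y0) (f' : Y0 →ₗ[R] Y1)
    (φ : X0 →ₗ[R] Y0) (h1 : ∀ x, f x = 0 → f' (φ x) = 0) (h2 : ∀ w, ∃ w', g' w' = φ (g w)) :
    Hm g f →ₗ[R] Hm g' f' :=
  Submodule.mapQ _ _ (φ.restrict (p := LinearMap.ker f) (q := LinearMap.ker f')
    fun x hx => LinearMap.mem_ker.2 (h1 x (LinearMap.mem_ker.1 hx))) (by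
      rintro ⟨x, hx⟩ h
      rw [mem_so, LinearMap.mem_range] at h
      obtain ⟨y, hy⟩ := h
      rw [Submodule.mem_comap, mem_so, LinearMap.mem_range]
      obtain ⟨w, hw⟩ := h2 y
      refine ⟨w, ?_⟩
      rw [hw, hy]
      rfl)

private theorem hmp_cl (g : X1 →ₗ[R] X0) (f : X0 →ₗ[R] X1) (g' : Y1 →ₗ[R] Y0) (f' : Y0 →ₗ[R] Y1)
    (φ : X0 →ₗ[R] Y0) (h1 : ∀ x, f x = 0 → f' (φ x) = 0) (h2 : ∀ w, ∃ w', g' w' = φ (g w))
    (x : X0) (hx : f x = 0) :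
    hmp g f g' f' φ h1 h2 (hcl g f x hx) = hcl g' f' (φ x) (h1 x hx) := rfl

private theorem ex_lift {L A B : Type*} [AddCommGroup L] [AddCommGroup A] [AddCommGroup B]
    [Module R L] [Module R A] [Module R B] (r : L →ₗ[R] A) (hr : Function.Surjective r)
    (d : L →ₗ[R] B) (h : ∀ y, r y = 0 → d y = 0) : ∃ δ : A →ₗ[R] B, ∀ y, δ (r y) = d y := by
  refine ⟨((LinearMap.ker r).liftQ d fun y hy => LinearMap.mem_ker.2
    (h y (LinearMap.mem_ker.1 hy))).comp (r.quotKerEquivOfSurjective hr).symm.toLinearMap, ?_⟩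
  intro y
  have h1 : (r.quotKerEquivOfSurjective hr).symm (r y) = (LinearMap.ker r).mkQ y := by
    rw [LinearEquiv.symm_apply_eq]
    rfl
  rw [LinearMap.comp_apply, LinearEquiv.coe_coe, h1]
  rfl

/-- short exact sequences, unbundled -/
private structure Rw (dX0 : X0 →ₗ[R] X1) (dX1 : X1 →ₗ[R] X0) (dY0 : Y0 →ₗ[R] Y1)
    (dY1 : Y1 →ₗ[R] Y0) (dZ0 : Z0 →ₗ[R] Z1) (dZ1 : Z1 →ₗ[R] Z0) (i0 : X0 →ₗ[R] Y0)
    (i1 : X1 →ₗ[R] Y1) (q0 : Y0 →ₗ[R] Z0) (q1 : Y1 →ₗ[R] Z1) : Prop where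
  y10 : ∀ x, dY1 (dY0 x) = 0
  y01 : ∀ x, dY0 (dY1 x) = 0
  ci0 : ∀ x, dY0 (i0 x) = i1 (dX0 x)
  ci1 : ∀ x, dY1 (i1 x) = i0 (dX1 x)
  cq0 : ∀ x, dZ0 (q0 x) = q1 (dY0 x)
  cq1 : ∀ x, dZ1 (q1 x) = q0 (dY1 x)
  inj0 : Function.Injective i0
  inj1 : Function.Injective i1
  sur0 : Function.Surjective q0
  sur1 : Function.Surjective q1
  ex0 : ∀ y, q0 y = 0 ↔ ∃ x, i0 x = y
  ex1 : ∀ y, q1 y = 0 ↔ ∃ x, i1 x = y

variable {dX0 : X0 →ₗ[R] X1} {dX1 : X1 →ₗ[R] X0} {dY0 : Y0 →ₗ[R] Y1} {dY1 : Y1 →ₗ[R] Y0}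
  {dZ0 : Z0 →ₗ[R] Z1} {dZ1 : Z1 →ₗ[R] Z0} {i0 : X0 →ₗ[R] Y0} {i1 : X1 →ₗ[R] Y1}
  {q0 : Y0 →ₗ[R] Z0} {q1 : Y1 →ₗ[R] Z1}

private theorem Rw.sh (s : Rw dX0 dX1 dY0 dY1 dZ0 dZ1 i0 i1 q0 q1) :
    Rw dX1 dX0 dY1 dY0 dZ1 dZ0 i1 i0 q1 q0 :=
  ⟨s.y01, s.y10, s.ci1, s.ci0, s.cq1, s.cq0, s.inj1, s.inj0, s.sur1, s.sur0, s.ex1, s.ex0⟩

private def Rw.I (s : Rw dX0 dX1 dY0 dY1 dZ0 dZ1 i0 i1 q0 q1) : Hm dX1 dX0 →ₗ[R] Hm dY1 dY0 :=
  hmp dX1 dX0 dY1 dY0 i0 (fun x hx => by rw [s.ci0, hx, map_zero]) fun w => ⟨i1 w, s.ci1 w⟩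

private def Rw.Q (s : Rw dX0 dX1 dY0 dY1 dZ0 dZ1 i0 i1 q0 q1) : Hm dY1 dY0 →ₗ[R] Hm dZ1 dZ0 :=
  hmp dY1 dY0 dZ1 dZ0 q0 (fun x hx => by rw [s.cq0, hx, map_zero]) fun w => ⟨q1 w, s.cq1 w⟩

private theorem Rw.I_cl (s : Rw dX0 dX1 dY0 dY1 dZ0 dZ1 i0 i1 q0 q1) (x : X0) (hx : dX0 x = 0)
    (hy : dY0 (i0 x) = 0) : s.I (hcl dX1 dX0 x hx) = hcl dY1 dY0 (i0 x) hy := rfl

private theorem Rw.Q_cl (s : Rw dX0 dX1 dY0 dY1 dZ0 dZ1 i0 i1 q0 q1) (y : Y0) (hy : dY0 y = 0)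
    (hz : dZ0 (q0 y) = 0) : s.Q (hcl dY1 dY0 y hy) = hcl dZ1 dZ0 (q0 y) hz := rfl

private theorem Rw.iz (s : Rw dX0 dX1 dY0 dY1 dZ0 dZ1 i0 i1 q0 q1) {x : X0} (hx : dX0 x = 0) :
    dY0 (i0 x) = 0 := by rw [s.ci0, hx, map_zero]

private theorem Rw.qz (s : Rw dX0 dX1 dY0 dY1 dZ0 dZ1 i0 i1 q0 q1) {y : Y0} (hy : dY0 y = 0) :
    dZ0 (q0 y) = 0 := by rw [s.cq0, hy, map_zero]

private theorem Rw.mid (s : Rw dX0 dX1 dY0 dY1 dZ0 dZ1 i0 i1 q0 q1) :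
    LinearMap.ker s.Q = LinearMap.range s.I := by
  ext h
  obtain ⟨y, hy, rfl⟩ := hcl_surj dY1 dY0 h
  rw [LinearMap.mem_ker, LinearMap.mem_range, s.Q_cl y hy (s.qz hy), hcl_zero]
  constructor
  · rintro ⟨z, hz⟩
    obtain ⟨y1, rfl⟩ := s.sur1 z
    rw [s.cq1] at hz
    have h1 : q0 (y - dY1 y1) = 0 := by rw [map_sub, hz, sub_self]
    obtain ⟨x, hx⟩ := (s.ex0 _).1 h1
    have h2 : dX0 x = 0 := by
      apply s.inj1
      rw [← s.ci0, hx, map_sub, hy, s.y01, sub_zero, map_zero]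
    refine ⟨hcl dX1 dX0 x h2, ?_⟩
    rw [s.I_cl x h2 (s.iz h2)]
    apply hcl_congr
    refine ⟨-y1, ?_⟩
    rw [hx, map_neg]
    abel
  · rintro ⟨g, hg⟩
    obtain ⟨x, hx, rfl⟩ := hcl_surj dX1 dX0 g
    have h1 : s.Q (s.I (hcl dX1 dX0 x hx)) = s.Q (hcl dY1 dY0 y hy) := by rw [hg]
    rw [s.I_cl x hx (s.iz hx), s.Q_cl _ (s.iz hx) (s.qz (s.iz hx)), s.Q_cl y hy (s.qz hy)] at h1
    rw [← hcl_zero dZ1 dZ0 _ (s.qz hy), ← h1, hcl_zero]
    refine ⟨0, ?_⟩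
    rw [map_zero]
    exact ((s.ex0 _).2 ⟨x, rfl⟩).symm

private theorem Rw.conn (s : Rw dX0 dX1 dY0 dY1 dZ0 dZ1 i0 i1 q0 q1) :
    ∃ δ : Hm dZ1 dZ0 →ₗ[R] Hm dX0 dX1,
      LinearMap.ker δ = LinearMap.range s.Q ∧ LinearMap.range δ = LinearMap.ker s.sh.I := by
  let L : Submodule R Y0 := LinearMap.ker (q1.comp dY0)
  have hL : ∀ y : L, q1 (dY0 y) = 0 := fun y => LinearMap.mem_ker.1 y.2
  let g1 : L →ₗ[R] LinearMap.range i1 := (dY0.comp L.subtype).codRestrict _ fun y => by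
    obtain ⟨x, hx⟩ := (s.ex1 _).1 (hL y)
    exact ⟨x, hx⟩
  let g0 : L →ₗ[R] X1 := (LinearEquiv.ofInjective i1 s.inj1).symm.toLinearMap.comp g1
  have hg0 : ∀ y : L, i1 (g0 y) = dY0 y := by
    intro y
    have h1 : (LinearEquiv.ofInjective i1 s.inj1) (g0 y) = g1 y :=
      LinearEquiv.apply_symm_apply _ _
    exact congrArg Subtype.val h1
  have hcyc : ∀ y : L, dX1 (g0 y) = 0 := by
    intro y
    apply s.inj0
    rw [← s.ci1, hg0, s.y10, map_zero]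
  let dd : L →ₗ[R] Hm dX0 dX1 := (Submodule.mkQ _).comp
    (g0.codRestrict (LinearMap.ker dX1) fun y => LinearMap.mem_ker.2 (hcyc y))
  have hdd : ∀ y : L, dd y = hcl dX0 dX1 (g0 y) (hcyc y) := fun y => rfl
  have hcz : ∀ y : L, dZ0 (q0 y) = 0 := by
    intro y
    rw [s.cq0, hL]
  let rr : L →ₗ[R] Hm dZ1 dZ0 := (Submodule.mkQ _).comp
    ((q0.comp L.subtype).codRestrict (LinearMap.ker dZ0)
      fun y => LinearMap.mem_ker.2 (hcz y))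
  have hrr : ∀ y : L, rr y = hcl dZ1 dZ0 (q0 y) (hcz y) := fun y => rfl
  have hrs : Function.Surjective rr := by
    intro h
    obtain ⟨z, hz, rfl⟩ := hcl_surj dZ1 dZ0 h
    obtain ⟨y, rfl⟩ := s.sur0 z
    refine ⟨⟨y, ?_⟩, rfl⟩
    rw [LinearMap.mem_ker, LinearMap.comp_apply, ← s.cq0, hz]
  have hker : ∀ y : L, rr y = 0 → dd y = 0 := by
    intro y h
    rw [hrr, hcl_zero] at h
    obtain ⟨z, hz⟩ := h
    obtain ⟨y1, rfl⟩ := s.sur1 z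
    rw [s.cq1] at hz
    have h1 : q0 (y - dY1 y1) = 0 := by rw [map_sub, hz, sub_self]
    obtain ⟨x, hx⟩ := (s.ex0 _).1 h1
    rw [hdd, hcl_zero]
    refine ⟨x, ?_⟩
    apply s.inj1
    rw [hg0, ← s.ci0, hx, map_sub, s.y01, sub_zero]
  obtain ⟨δ, hδ⟩ := ex_lift rr hrs dd hker
  refine ⟨δ, ?_, ?_⟩
  · ext h
    obtain ⟨y, rfl⟩ := hrs h
    rw [LinearMap.mem_ker, LinearMap.mem_range, hδ, hdd, hcl_zero]
    constructor
    · rintro ⟨x, hx⟩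
      have h1 : dY0 (y - i0 x) = 0 := by
        rw [map_sub, s.ci0, hx, hg0, sub_self]
      refine ⟨hcl dY1 dY0 _ h1, ?_⟩
      rw [s.Q_cl _ h1 (s.qz h1), hrr]
      apply hcl_congr
      refine ⟨0, ?_⟩
      rw [map_zero, map_sub, (s.ex0 _).2 ⟨x, rfl⟩]
      abel
    · rintro ⟨g, hg⟩
      obtain ⟨y', hy', rfl⟩ := hcl_surj dY1 dY0 g
      have hy'L : y' ∈ L := by
        rw [LinearMap.mem_ker, LinearMap.comp_apply, hy', map_zero]
      have h1 : rr ⟨y', hy'L⟩ = rr y := by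
        rw [← hg, s.Q_cl _ hy' (s.qz hy')]
        rfl
      have h2 : dd (⟨y', hy'L⟩ - y) = 0 := hker _ (by rw [map_sub, h1, sub_self])
      rw [← hcl_zero dX0 dX1 _ (hcyc y), ← hdd]
      rw [map_sub] at h2
      rw [← sub_eq_zero.1 h2, hdd, hcl_zero]
      refine ⟨0, ?_⟩
      rw [map_zero]
      apply s.inj1
      rw [hg0, map_zero]
      exact hy'.symm
  · ext h
    rw [LinearMap.mem_range, LinearMap.mem_ker]
    constructor
    · rintro ⟨g, rfl⟩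
      obtain ⟨y, rfl⟩ := hrs g
      rw [hδ, hdd, s.sh.I_cl _ (hcyc y) (s.sh.iz (hcyc y)), hcl_zero]
      exact ⟨y, (hg0 y).symm⟩
    · intro h0
      obtain ⟨x, hx, rfl⟩ := hcl_surj dX0 dX1 h
      rw [s.sh.I_cl _ hx (s.sh.iz hx), hcl_zero] at h0
      obtain ⟨y, hy⟩ := h0
      have hyL : y ∈ L := by
        rw [LinearMap.mem_ker, LinearMap.comp_apply, hy]
        exact (s.ex1 _).2 ⟨x, rfl⟩
      refine ⟨rr ⟨y, hyL⟩, ?_⟩
      rw [hδ, hdd]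
      apply hcl_congr
      refine ⟨0, ?_⟩
      rw [map_zero]
      have h3 : g0 ⟨y, hyL⟩ = x := by
        apply s.inj1
        rw [hg0]
        exact hy
      rw [h3, sub_self]

end raw

private theorem adf_ker_range {M N : Type u} [AddCommGroup M] [AddCommGroup N] [Module R M]
    [Module R N] (hM : C.P M) (f : M →ₗ[R] N) :
    e.e M = e.e (LinearMap.ker f) + e.e (LinearMap.range f) := by
  refine adf_ses e hM (LinearMap.ker f).subtype f.rangeRestrict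
    (Submodule.injective_subtype _) f.surjective_rangeRestrict ?_
  intro m
  constructor
  · intro h
    refine ⟨⟨m, ?_⟩, rfl⟩
    rw [LinearMap.mem_ker]
    exact congrArg Subtype.val h
  · rintro ⟨k, rfl⟩
    apply Subtype.ext
    exact LinearMap.mem_ker.1 k.2

/-- Additivity of the Euler characteristic on short exact sequences of complexes. -/
theorem chi_ses {X Y Z : Ch.{u} R} (s : Ch.Ses X Y Z) (hX : X.InC C) (hY : Y.InC C)
    (hZ : Z.InC C) : Y.chi e = X.chi e + Z.chi e := by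
  have r : Rw X.d0 X.d1 Y.d0 Y.d1 Z.d0 Z.d1 s.i.f0 s.i.f1 s.q.f0 s.q.f1 :=
    ⟨Y.h10, Y.h01, s.i.c0, s.i.c1, s.q.c0, s.q.c1, s.inj0, s.inj1, s.sur0, s.sur1, s.ex0, s.ex1⟩
  obtain ⟨δ0, h1, h2⟩ := r.conn
  obtain ⟨δ1, h3, h4⟩ := r.sh.conn
  have h5 := r.mid
  have h6 := r.sh.mid
  have e1 := adf_ker_range e hX.1 r.I
  have e2 := adf_ker_range e hY.1 r.Q
  have e3 := adf_ker_range e hZ.1 δ0
  have e4 := adf_ker_range e hX.2 r.sh.I
  have e5 := adf_ker_range e hY.2 r.sh.Q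
  have e6 := adf_ker_range e hZ.2 δ1
  have h7 : LinearMap.range δ1 = LinearMap.ker r.I := h4
  rw [← h7] at e1
  rw [h5] at e2
  rw [h1] at e3
  rw [← h2] at e4
  rw [h6] at e5
  rw [h3] at e6
  unfold Ch.chi
  rw [e1, e2, e3, e4, e5, e6]
  abel

end MSA
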