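import Mathlib
import Pool.Agent.MSA.FilU
import Pool.Agent.MSA.Hex

/-!
# The Adams operation on additive functions

`A.psiv e M = χ(T(M^{⊗k}))`, measured by `H ↦ e (H_0) - e (H_1)`.

PROOFS. `tch_iso`: `KS.map` of the isomorphism, `qis_of_iso`, `chi_congr`.
`tch_in`: `fin_T` with `I = D.Ann M` (`kil0_pk`; `Kil0` passes to submodules and quotients).
`psiv_iso`: `pk_iso`, `tch_iso`.
`psiv_add`: write `c r = (A.tch (A.fil N r)).chi`. By `KS.ses` for `0 → fil N (r+1) → fil N r → gr N r → 0` and `chi_ses`: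
`c r = c (r+1) + (A.tch (A.gr N r)).chi`. For `0 < r < k` the last term is `0` (`gr_tw`, `chi_tw`, `(r : ZMod k) ≠ 0`),
so `c 1 = c k`. `c k` is `psiv e N` (`fil_k`, `pkm_inj`: `A.Pk N ≃ range`), `c 0 = psiv e M` (`fil_zero`,
`Submodule.topEquiv`), and `gr N 0 ≃ A.Pk (M ⧸ N)` (`fil_one`, `pkm_surj`): `psiv e M = c 0 = c 1 + psiv e (M ⧸ N) =
psiv e N + psiv e (M ⧸ N)`. All complexes have homology in the class by `tch_in` (`isZ_sub`, `isZ_quo`, `isZ_pk`);
for `Pk N` and `Pk (M ⧸ N)`: transport the membership along the isomorphisms (`chi_congr`).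
-/

set_option autoImplicit false
set_option linter.unusedSectionVars false

noncomputable section

namespace MSA

universe u v w

/-- the annihilator of a module -/
def Dat.Ann (D : Dat.{u}) (M : Type u) [AddCommGroup M] [Module D.R M] : Ideal D.S where
  carrier := {s | ∀ m : M, iot D.ph s • m = 0}
  zero_mem' := fun m => by rw [map_zero, zero_smul]
  add_mem' := fun {a b} ha hb m => by rw [map_add, add_smul, ha m, hb m, add_zero]
  smul_mem' := fun c x hx m => by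
    show iot D.ph (c * x) • m = 0
    rw [map_mul, mul_smul, hx m, smul_zero]

/-- Classes defined by the support: all objects are good, and a good module killed by the
annihilator of an object of the class lies in the class. -/
def Dat.Spp (D : Dat.{u}) (Cl : Cls.{u} D.R) : Prop :=
  ∀ (M : Type u) [AddCommGroup M] [Module D.R M], Cl.P M → D.IsG M ∧
    ∀ (X : Type u) [AddCommGroup X] [Module D.R X], D.IsG X →
      (∀ s ∈ D.Ann M, ∀ x : X, iot D.ph s • x = 0) → Cl.P X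

namespace Adm

variable {D : Dat.{u}} (A : Adm D)

theorem tch_iso {Z Z' : Type u} [AddCommGroup Z] [Module A.R Z] [AddCommGroup Z'] [Module A.R Z']
    {Cl : Cls.{u} D.R} {B : Type v} [AddCommGroup B] (e : Adf Cl B) (f : Z ≃ₗ[A.R] Z')
    (h : (A.tch Z).InC (A.cK Cl)) : (A.tch Z').InC (A.cK Cl) ∧
      (A.tch Z).chi (A.dlA e) = (A.tch Z').chi (A.dlA e) := by
  have h1 : Nonempty ((A.tch Z).H0 ≃ₗ[A.R] (A.tch Z').H0) ∧
      Nonempty ((A.tch Z).H1 ≃ₗ[A.R] (A.tch Z').H1) :=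
    qis_of_iso (A.kT.map (f : Z →ₗ[A.R] Z'))
      ⟨A.kT.pmap_inj _ f.injective 0, A.kT.pmap_surj _ f.surjective 0⟩
      ⟨A.kT.pmap_inj _ f.injective 1, A.kT.pmap_surj _ f.surjective 1⟩
  exact chi_congr (A.dlA e) h1.1 h1.2 h

theorem tch_in {Cl : Cls.{u} D.R} (hCl : D.Spp Cl) {M : Type u} [AddCommGroup M] [Module D.R M]
    (hM : Cl.P M) {Z : Type u} [AddCommGroup Z] [Module A.R Z] (hZ : A.IsZ Z)
    (hk : A.Kil0 Z (D.Ann M)) : (A.tch Z).InC (A.cK Cl) :=
  A.fin_T Cl (D.Ann M) (fun X _ _ hX hkX => (hCl M hM).2 X hX hkX) hZ hk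

theorem kil0_sub {Z : Type u} [AddCommGroup Z] [Module A.R Z] {I : Ideal D.S} (h : A.Kil0 Z I)
    (N : Submodule A.R Z) : A.Kil0 N I := fun s hs z => Subtype.ext (h s hs z.1)

theorem kil0_quo {Z : Type u} [AddCommGroup Z] [Module A.R Z] {I : Ideal D.S} (h : A.Kil0 Z I)
    (N : Submodule A.R Z) : A.Kil0 (Z ⧸ N) I := by
  intro s hs z
  obtain ⟨z, rfl⟩ := N.mkQ_surjective z
  rw [← map_smul, h s hs z, map_zero]

/-- the value -/
def psiv {Cl : Cls.{u} D.R} {B : Type v} [AddCommGroup B] (e : Adf Cl B) (M : Type u)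
    [AddCommGroup M] [Module D.R M] : B := (A.tch (A.Pk M)).chi (A.dlA e)

theorem psi_in {Cl : Cls.{u} D.R} (hCl : D.Spp Cl) {M : Type u} [AddCommGroup M] [Module D.R M]
    (hM : Cl.P M) : (A.tch (A.Pk M)).InC (A.cK Cl) :=
  A.tch_in hCl hM (A.isZ_pk (hCl M hM).1) (A.kil0_pk _ (fun _ hs m => hs m))

theorem psiv_iso {Cl : Cls.{u} D.R} (hCl : D.Spp Cl) {B : Type v} [AddCommGroup B] (e : Adf Cl B)
    {M N : Type u} [AddCommGroup M] [Module D.R M] [AddCommGroup N] [Module D.R N]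
    (f : M ≃ₗ[D.R] N) (hM : Cl.P M) : A.psiv e M = A.psiv e N := by
  obtain ⟨g⟩ := A.pk_iso f
  exact (A.tch_iso e g (A.psi_in hCl hM)).2

theorem psiv_add {Cl : Cls.{u} D.R} (hCl : D.Spp Cl) {B : Type v} [AddCommGroup B] (e : Adf Cl B)
    {M : Type u} [AddCommGroup M] [Module D.R M] (N : Submodule D.R M) (hM : Cl.P M) :
    A.psiv e M = A.psiv e N + A.psiv e (M ⧸ N) := by
  have hZ := A.isZ_pk (hCl M hM).1
  have hK : A.Kil0 (A.Pk M) (D.Ann M) := A.kil0_pk _ (fun _ hs m => hs m)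
  have hF : ∀ r, (A.tch (A.fil N r)).InC (A.cK Cl) := fun r =>
    A.tch_in hCl hM (A.isZ_sub hZ _) (A.kil0_sub hK _)
  have hgr : ∀ r, (A.tch (A.gr N r)).InC (A.cK Cl) := fun r =>
    A.tch_in hCl hM (A.isZ_quo (A.isZ_sub hZ _) _) (A.kil0_quo (A.kil0_sub hK _) _)
  have step : ∀ r, (A.tch (A.fil N r)).chi (A.dlA e) =
      (A.tch (A.fil N (r + 1))).chi (A.dlA e) + (A.tch (A.gr N r)).chi (A.dlA e) := by
    intro r
    refine chi_ses (A.dlA e) (A.kT.ses (Submodule.inclusion (A.fil_anti N (Nat.le_succ r)))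
      (Submodule.mkQ _) (Submodule.inclusion_injective _) (Submodule.mkQ_surjective _) ?_)
      (hF (r + 1)) (hF r) (hgr r)
    intro m
    rw [Submodule.mkQ_apply, Submodule.Quotient.mk_eq_zero]
    constructor
    · intro hm
      exact ⟨⟨m.1, hm⟩, rfl⟩
    · rintro ⟨x, rfl⟩
      exact x.2
  have hz : ∀ r, 0 < r → r < A.k → (A.tch (A.gr N r)).chi (A.dlA e) = 0 := by
    intro r h0 h1
    refine A.chi_tw e (r : ZMod A.k) ?_ (hgr r) (A.gr_tw N r)
    intro h
    rw [ZMod.natCast_eq_zero_iff] at h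
    exact absurd (Nat.le_of_dvd h0 h) (by omega)
  have h1k : ∀ j, 1 + j ≤ A.k → (A.tch (A.fil N 1)).chi (A.dlA e) =
      (A.tch (A.fil N (1 + j))).chi (A.dlA e) := by
    intro j
    induction j with
    | zero => intro _; rfl
    | succ j ih =>
      intro hj
      rw [ih (by omega), step (1 + j), hz (1 + j) (by omega) (by omega), add_zero]
      rfl
  have hkp : 0 < A.k := Nat.pos_of_ne_zero A.hk.out.ne_zero
  have hk1 := h1k (A.k - 1) (by omega)
  rw [show 1 + (A.k - 1) = A.k by omega] at hk1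
  have e1 : A.fil N A.k ≃ₗ[A.R] A.Pk N :=
    (LinearEquiv.ofEq _ _ (A.fil_k N)).trans
      (LinearEquiv.ofInjective (A.pkm N.subtype) (A.pkm_inj _ N.subtype_injective)).symm
  have e0 : A.fil N 0 ≃ₗ[A.R] A.Pk M :=
    (LinearEquiv.ofEq _ _ (A.fil_zero N)).trans Submodule.topEquiv
  have e2 : Nonempty (A.gr N 0 ≃ₗ[A.R] A.Pk (M ⧸ N)) := by
    have hs : Function.Surjective ((A.pkm N.mkQ).comp (A.fil N 0).subtype) := by
      intro y
      obtain ⟨z, hz⟩ := A.pkm_surj N.mkQ N.mkQ_surjective y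
      have hz0 : z ∈ A.fil N 0 := by
        rw [A.fil_zero N]
        exact Submodule.mem_top
      exact ⟨⟨z, hz0⟩, hz⟩
    have hker : (A.fil N (0 + 1)).submoduleOf (A.fil N 0) =
        LinearMap.ker ((A.pkm N.mkQ).comp (A.fil N 0).subtype) := by
      ext x
      have h1 : (x : A.Pk M) ∈ A.fil N 1 ↔ A.pkm N.mkQ (x : A.Pk M) = 0 := by
        rw [A.fil_one N, LinearMap.mem_ker]
      rw [LinearMap.mem_ker]
      exact h1
    exact ⟨(Submodule.quotEquivOfEq _ _ hker).trans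
      (((A.pkm N.mkQ).comp (A.fil N 0).subtype).quotKerEquivOfSurjective hs)⟩
  obtain ⟨e2⟩ := e2
  have v0 := (A.tch_iso e e0 (hF 0)).2
  have v1 := (A.tch_iso e e1 (hF A.k)).2
  have v2 := (A.tch_iso e e2 (hgr 0)).2
  have s0 : (A.tch (A.fil N 0)).chi (A.dlA e) =
      (A.tch (A.fil N 1)).chi (A.dlA e) + (A.tch (A.gr N 0)).chi (A.dlA e) := step 0
  rw [v0, hk1, v1, v2] at s0
  exact s0

/-- The Adams operation on additive functions. -/
def psiA {Cl : Cls.{u} D.R} (hCl : D.Spp Cl) {B : Type v} [AddCommGroup B] (e : Adf Cl B) :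
    Adf Cl B where
  e := fun M _ _ => A.psiv e M
  iso := A.psiv_iso hCl e
  add := A.psiv_add hCl e

end Adm

end MSA
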