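import Mathlib
import Pool.Agent.MSA.Mo
import Pool.Agent.MSA.Psi

/-!
# The classes `cA c` are defined by the support

PROOFS. `rank_le`: `range φ ≃ H / ker φ` is a quotient of `H / ker ψ ≃ range ψ` because `ker ψ ≤ ker φ`
(`LinearMap.quotKerEquivRange`, `Submodule.mapQ` or: `finrank_range_add_finrank_ker` for both and
`Submodule.finrank_mono`).
`hf_ann_le`: `G : D.Gens X` (weights `d i`) and `G' : D.Gens M` (weights `e j`). By `gen_le` and `finrank` of a finite
supremum (`Submodule.finrank_iSup_le`/induction; or use a surjection from the product of the ranges)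
`hf X n ≤ ∑_(i, d i ≤ n) finrank (range (evG (n - d i).toNat (G.g i)))`. For `k = (n - d i).toNat` compare
`φ = evG k (G.g i)` with `ψ : f ↦ (iot f • G'.g j)_j`, which has values in `∏_j wL M (e j + k)` (`iot_wt`): if `ψ f = 0`
then `iot f` kills all generators of `M`, so `f ∈ D.Ann M` (`S` commutative, `G'.gen`) and `φ f = 0` by `h`. So
`finrank (range φ) ≤ ∑_j hf M (e j + k)` (`rank_le`), and `e j + k = n + (e j - d i)`. Take the index set
`Fin G.s × Fin G'.s ≃ Fin (G.s * G'.s)` (`finProdFinEquiv`), `a (i, j) = e j - d i`.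
`cA_spp`: `hf_ann_le` and `isA_le`.
-/

set_option autoImplicit false
set_option linter.unusedSectionVars false

noncomputable section

namespace MSA

universe u v w

open MvPolynomial

private theorem spp_sup {L V : Type u} [Field L] [AddCommGroup V] [Module L V] {ι : Type v}
    (s : Finset ι) (W : ι → Submodule L V) (hW : ∀ i, Module.Finite L (W i)) :
    Module.Finite L ↥(s.sup W) ∧
      Module.finrank L ↥(s.sup W) ≤ ∑ i ∈ s, Module.finrank L (W i) := by
  classical
  induction s using Finset.induction_on with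
  | empty =>
    rw [Finset.sup_empty, Finset.sum_empty]
    exact ⟨inferInstance, by rw [finrank_bot]⟩
  | insert i s hi ih =>
    obtain ⟨h1, h2⟩ := ih
    rw [Finset.sup_insert, Finset.sum_insert hi]
    have h3 := hW i
    exact ⟨Submodule.finite_sup _ _,
      (Submodule.finrank_add_le_finrank_add_finrank _ _).trans (Nat.add_le_add_left h2 _)⟩

theorem rank_le {L : Type u} [Field L] {H V W : Type u} [AddCommGroup H] [Module L H]
    [AddCommGroup V] [Module L V] [AddCommGroup W] [Module L W] [Module.Finite L H]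
    [Module.Finite L W] (f : H →ₗ[L] V) (g : H →ₗ[L] W) (h : ∀ x, g x = 0 → f x = 0) :
    Module.finrank L (LinearMap.range f) ≤ Module.finrank L W := by
  have h1 := LinearMap.finrank_range_add_finrank_ker f
  have h2 := LinearMap.finrank_range_add_finrank_ker g
  have h3 : LinearMap.ker g ≤ LinearMap.ker f := fun x hx => h x hx
  have h4 := Submodule.finrank_mono h3
  have h5 := Submodule.finrank_le (LinearMap.range g)
  omega

namespace Dat

variable (D : Dat.{u})

variable {M X : Type u} [AddCommGroup M] [Module D.R M] [AddCommGroup X] [Module D.R X]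

private theorem spp_ann (G' : D.Gens M) (s : D.S) (hs : ∀ j, iot D.ph s • G'.g j = 0) :
    s ∈ D.Ann M := by
  intro m
  obtain ⟨f, hf⟩ := G'.gen m
  rw [hf, Finset.smul_sum]
  refine Finset.sum_eq_zero fun j _ => ?_
  rw [← mul_smul, ← map_mul, mul_comm, map_mul, mul_smul, hs j, smul_zero]

private theorem spp_one (hM : D.IsG M) (G : D.Gens X) (G' : D.Gens M)
    (h : ∀ s ∈ D.Ann M, ∀ x : X, iot D.ph s • x = 0) (n : ℤ) (i : Fin G.s) (hi : G.d i ≤ n) :
    Module.finrank D.L (LinearMap.range (D.evG (n - G.d i).toNat (G.g i))) ≤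
      ∑ j, D.hf M (n + (G'.d j - G.d i)) := by
  obtain ⟨k, hk⟩ : ∃ k : ℕ, k = (n - G.d i).toNat := ⟨_, rfl⟩
  have hk2 : ∀ j, n + (G'.d j - G.d i) = G'.d j + k := fun j => by omega
  rw [← hk]
  have hfin : Module.Finite D.L (homogeneousSubmodule (Fin D.p) D.L k) := D.fin_hom k
  have hw : ∀ j : Fin G'.s, Module.Finite D.L (D.wL M (G'.d j + k)) := fun j =>
    (D.fd_wL (M := M) (G'.d j + k)).1 (hM.isW.fd _)
  let g : homogeneousSubmodule (Fin D.p) D.L k →ₗ[D.L] ((j : Fin G'.s) → D.wL M (G'.d j + k)) :=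
    LinearMap.pi fun j => (D.evG k (G'.g j)).codRestrict (D.wL M (G'.d j + k))
      (fun f => D.iot_wt f.2 (G'.mem j))
  have h1 := rank_le (D.evG k (G.g i)) g (fun x hx => by
    have h2 : (x : D.S) ∈ D.Ann M := by
      refine D.spp_ann G' _ fun j => ?_
      have h3 := congrArg Subtype.val (congrFun hx j)
      exact h3
    exact h _ h2 (G.g i))
  refine h1.trans (le_of_eq ?_)
  rw [Module.finrank_pi_fintype]
  refine Finset.sum_congr rfl fun j _ => ?_
  rw [hk2 j]
  rfl

theorem hf_ann_le (hM : D.IsG M) (hX : D.IsG X)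
    (h : ∀ s ∈ D.Ann M, ∀ x : X, iot D.ph s • x = 0) :
    ∃ (t : ℕ) (a : Fin t → ℤ), ∀ n, D.hf X n ≤ ∑ i, D.hf M (n + a i) := by
  classical
  obtain ⟨G⟩ := D.gens hX
  obtain ⟨G'⟩ := D.gens hM
  refine ⟨G.s * G'.s, fun x => G'.d (finProdFinEquiv.symm x).2 - G.d (finProdFinEquiv.symm x).1,
    fun n => ?_⟩
  have e1 : ∑ x : Fin (G.s * G'.s), D.hf M (n + (G'.d (finProdFinEquiv.symm x).2 -
      G.d (finProdFinEquiv.symm x).1)) = ∑ i : Fin G.s, ∑ j : Fin G'.s,
        D.hf M (n + (G'.d j - G.d i)) := by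
    rw [← Fintype.sum_prod_type' (fun (i : Fin G.s) (j : Fin G'.s) =>
      D.hf M (n + (G'.d j - G.d i)))]
    exact Equiv.sum_comp finProdFinEquiv.symm
      (fun y : Fin G.s × Fin G'.s => D.hf M (n + (G'.d y.2 - G.d y.1)))
  rw [e1]
  have hW : ∀ i, Module.Finite D.L
      ↥(LinearMap.range (D.evG (n - G.d i).toNat (G.g i))) := fun i => by
    have := D.fin_hom (n - G.d i).toNat
    exact Module.Finite.range _
  obtain ⟨h1, h2⟩ := spp_sup (Finset.univ.filter fun i => G.d i ≤ n)
    (fun i => LinearMap.range (D.evG (n - G.d i).toNat (G.g i))) hW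
  have h3 : D.wL X n ≤ (Finset.univ.filter fun i => G.d i ≤ n).sup
      (fun i => LinearMap.range (D.evG (n - G.d i).toNat (G.g i))) := by
    refine (D.gen_le G n).trans (iSup_le fun i => ?_)
    exact Finset.le_sup (f := fun i => LinearMap.range (D.evG (n - G.d i).toNat (G.g i)))
      (Finset.mem_filter.2 ⟨Finset.mem_univ i.1, i.2⟩)
  rw [D.hf_wL]
  refine (Submodule.finrank_mono h3).trans (h2.trans ?_)
  refine (Finset.sum_le_sum fun i hi => ?_).trans
    (Finset.sum_le_sum_of_subset (Finset.filter_subset _ _))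
  exact D.spp_one hM G G' h n i (Finset.mem_filter.1 hi).2

theorem cA_spp (c : ℕ) : D.Spp (D.cA c) := by
  intro M _ _ hM
  refine ⟨hM.g, ?_⟩
  intro X _ _ hX h
  obtain ⟨t, a, ha⟩ := D.hf_ann_le hM.g hX h
  exact D.isA_le hM hX a ha

end Dat

end MSA
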