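import Mathlib
import Pool.Agent.MSA.CIx
import Pool.Agent.MSA.SppA

/-!
# Part NUM: everything about Hilbert functions, moments and the classes `cA`

This file only collects the imports: HfA, HfB (closure properties, additivity of `hf`), HfG (homogeneous
generators, `IsG.isW`), HfS (`isG_sr`), HsA, Hs (`IsG.kapFin`, `hb`), Mo (moments, `cA`, `momF`, `hfF`), SppA
(`cA_spp`), CIx (`isA_CI`, `hf_CI`, exact sequences of complete intersections).
-/
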