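import Mathlib
import Pool.Agent.MSA.CA
import Pool.Agent.MSA.DeS

/-!
# Generation in large weights

PROOFS. `wt_gen`: `M` is generated over `S` by finitely many elements (`hM.fin`, `modS`); each of them is a
finite sum of weight vectors (`wt_decomp`), so `M = ∑ S g_a` with `g_a ∈ wt M (d_a)`, `a` in a finite set.
Let `d₀` be the maximum of the `d_a`.  Let `m ∈ wt M (j+1)`, `j ≥ d₀`, `m = ∑ f_a g_a`; replace `f_a` by
its homogeneous component of degree `j + 1 - d_a ≥ 1` (the components of `m` in the other weights vanish: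
`wt_indep`, `iot_wt`).  A homogeneous polynomial of positive degree is `∑ X_i f_i` with `f_i` homogeneous
of degree one less, so `m = ∑_i X_i (∑_a f_{a,i} g_a)`.
`wt_zero_of`: by `wt_gen`, for `j ≥ d₀`: `wt M j = ⊥` implies `wt M (j+1) = ⊥`; every interval of length
`p` contains a multiple of `p`.
`isA_p_of`: `isA_p_iff`, `hf_eq_zero`.
-/

set_option autoImplicit false
set_option linter.unusedSectionVars false

noncomputable section

namespace MSA

universe u v w

namespace Dat

variable (D : Dat.{u})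

variable {M : Type u} [AddCommGroup M] [Module D.R M]

open MvPolynomial in
private theorem gt_hom {k : ℕ} {f : D.S} (hf : f.IsHomogeneous (k + 1)) :
    ∃ h : Fin D.p → D.S, (∀ i, (h i).IsHomogeneous k) ∧ f = ∑ i, MvPolynomial.X i * h i := by
  classical
  have hex : ∀ d ∈ f.support, ∃ i, d i ≠ 0 := by
    intro d hd
    by_contra hc
    push Not at hc
    have h0 : d = 0 := Finsupp.ext hc
    have h1 := hf (mem_support_iff.1 hd)
    rw [h0, map_zero] at h1
    omega
  choose! c hc using hex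
  have hsub : ∀ d ∈ f.support, d - Finsupp.single (c d) 1 + Finsupp.single (c d) 1 = d := by
    intro d hd
    apply tsub_add_cancel_of_le
    rw [Finsupp.single_le_iff]
    exact Nat.one_le_iff_ne_zero.2 (hc d hd)
  refine ⟨fun i => ∑ d ∈ f.support with c d = i,
    monomial (d - Finsupp.single i 1) (coeff d f), ?_, ?_⟩
  · intro i
    refine IsHomogeneous.sum _ _ _ fun d hd => ?_
    obtain ⟨hd1, hd2⟩ := Finset.mem_filter.1 hd
    subst hd2
    apply isHomogeneous_monomial
    have h1 := hf (mem_support_iff.1 hd1)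
    have h2 : Finsupp.weight (1 : Fin D.p → ℕ) d =
        (d - Finsupp.single (c d) 1).degree + 1 := by
      conv_lhs => rw [← hsub d hd1]
      rw [map_add]
      have h3 : Finsupp.weight (1 : Fin D.p → ℕ) (Finsupp.single (c d) 1) = 1 := by
        simp [Finsupp.weight, Finsupp.linearCombination]
      rw [h3]
      congr 1
      rw [Finsupp.degree_eq_weight_one]
      rfl
    omega
  · have h1 : ∀ i, MvPolynomial.X i * (∑ d ∈ f.support with c d = i,
        monomial (d - Finsupp.single i 1) (coeff d f)) =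
        ∑ d ∈ f.support with c d = i, monomial d (coeff d f) := by
      intro i
      rw [Finset.mul_sum]
      refine Finset.sum_congr rfl fun d hd => ?_
      obtain ⟨hd1, hd2⟩ := Finset.mem_filter.1 hd
      subst hd2
      rw [mul_comm, MvPolynomial.X, monomial_mul, mul_one, hsub d hd1]
    rw [Finset.sum_congr rfl fun i _ => h1 i, Finset.sum_fiberwise]
    exact (support_sum_monomial_coeff f).symm

theorem wt_gen (hM : D.IsG M) : ∃ d₀ : ℤ, ∀ j ≥ d₀, ∀ m ∈ wt D.F D.ph M (j + 1),
    ∃ m' : Fin D.p → M, (∀ i, m' i ∈ wt D.F D.ph M j) ∧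
      m = ∑ i, iot D.ph (MvPolynomial.X i) • m' i := by
  obtain ⟨G⟩ := D.gens hM
  obtain ⟨d₀, hd₀⟩ := (Set.finite_range G.d).bddAbove
  refine ⟨d₀, fun j hj m hm => ?_⟩
  obtain ⟨f, hf1, -, hf3⟩ := G.hom (j + 1) m hm
  have hdj : ∀ a, G.d a ≤ j := fun a => (hd₀ ⟨a, rfl⟩).trans hj
  have h1 : ∀ a, ∃ h : Fin D.p → D.S, (∀ i, (h i).IsHomogeneous (j - G.d a).toNat) ∧
      f a = ∑ i, MvPolynomial.X i * h i := by
    intro a
    have h2 := hf1 a
    have h3 : (j + 1 - G.d a).toNat = (j - G.d a).toNat + 1 := by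
      have := hdj a
      omega
    rw [h3] at h2
    exact D.gt_hom h2
  choose h hh1 hh2 using h1
  refine ⟨fun i => ∑ a, iot D.ph (h a i) • G.g a, fun i => ?_, ?_⟩
  · refine AddSubgroup.sum_mem _ fun a _ => ?_
    have h2 := D.iot_wt (hh1 a i) (G.mem a)
    have h3 : G.d a + ((j - G.d a).toNat : ℤ) = j := by
      have := hdj a
      omega
    rwa [h3] at h2
  · have h2 : ∀ i, iot D.ph (MvPolynomial.X i : D.S) • ∑ a, iot D.ph (h a i) • G.g a =
        ∑ a, iot D.ph (MvPolynomial.X i * h a i) • G.g a := by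
      intro i
      rw [Finset.smul_sum]
      refine Finset.sum_congr rfl fun a _ => ?_
      rw [map_mul, mul_smul]
    rw [Finset.sum_congr rfl fun i _ => h2 i, Finset.sum_comm, hf3]
    refine Finset.sum_congr rfl fun a _ => ?_
    rw [hh2 a, map_sum, Finset.sum_smul]

theorem wt_zero_of (hM : D.IsG M) (h : ∀ n : ℤ, wt D.F D.ph M (D.p * n) = ⊥) :
    ∃ n₀ : ℤ, ∀ n > n₀, wt D.F D.ph M n = ⊥ := by
  obtain ⟨d₀, hd⟩ := D.wt_gen hM
  have hp : (1 : ℤ) ≤ D.p := by exact_mod_cast D.X.hp.one_lt.le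
  have h0 : d₀ ≤ (D.p : ℤ) * max d₀ 0 := by
    have h1 : (1 : ℤ) * max d₀ 0 ≤ (D.p : ℤ) * max d₀ 0 :=
      mul_le_mul_of_nonneg_right hp (le_max_right _ _)
    have h2 := le_max_left d₀ 0
    omega
  refine ⟨(D.p : ℤ) * max d₀ 0, fun n hn => ?_⟩
  refine Int.leInduction (motive := fun n _ => wt D.F D.ph M n = ⊥) (h _) ?_ n hn.le
  intro j hj ih
  rw [eq_bot_iff]
  intro m hm
  obtain ⟨m', hm1, hm2⟩ := hd j (h0.trans hj) m hm
  rw [AddSubgroup.mem_bot, hm2]
  refine Finset.sum_eq_zero fun i _ => ?_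
  have h3 := hm1 i
  rw [ih, AddSubgroup.mem_bot] at h3
  rw [h3, smul_zero]

/-- A graded module without elements of weight divisible by `p` is of finite length. -/
theorem isA_p_of (hM : D.IsG M) (h : ∀ n : ℤ, wt D.F D.ph M (D.p * n) = ⊥) :
    D.IsA M D.p := by
  obtain ⟨n₀, hn⟩ := D.wt_zero_of hM h
  exact (D.isA_p_iff hM).2 ⟨n₀, fun n hn' => (D.hf_eq_zero hM.isW n).2 (hn n hn')⟩

end Dat

end MSA
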