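import Mathlib
import Pool.Agent.MSA.CA

/-!
# The largest submodule of codimension at least `c`

PROOFS. `noeth`: a submodule over `D.R` is a submodule over `S` (`modS`), `M` is a Noetherian `S`-module
(`hM.fin`, `MvPolynomial.isNoetherianRing`), so every nonempty set of `D.R`-submodules has a maximal
element.
`isA_sup`: `N ⊔ N'` is a quotient of `N × N'` (`cls_sur (D.cA c)` and `(D.cA c).prod`).
`exists_sml`: a maximal element of `{N | IsA N c}` (it contains `⊥`); `isA_sup`.
`sml_quo`: `N''` is a submodule of `M ⧸ N`; its preimage `N'` contains `N`, `N' / N ≃ N''` and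
`isA_ext` for the module `N'` shows `IsA N' c`, so `N' ≤ N` and `N'' = ⊥`.
`isA_sum`: finite sums, induction with `isA_sup`.
-/

set_option autoImplicit false
set_option linter.unusedSectionVars false

noncomputable section

namespace MSA

universe u v w

namespace Dat

variable (D : Dat.{u})

variable {M : Type u} [AddCommGroup M] [Module D.R M]

theorem noeth (hM : D.IsG M) : IsNoetherian D.R M := by
  have hN : IsNoetherianRing D.S := MvPolynomial.isNoetherianRing
  let _ := modS D.ph M
  have hf : Module.Finite D.S M := hM.fin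
  have h1 : IsNoetherian D.S M := isNoetherian_of_isNoetherianRing_of_finite D.S M
  have h2 : WellFoundedGT (Submodule D.S M) := isNoetherian_iff'.1 h1
  rw [isNoetherian_iff']
  let f : Submodule D.R M → Submodule D.S M := fun N =>
    { carrier := N
      add_mem' := N.add_mem
      zero_mem' := N.zero_mem
      smul_mem' := fun s m hm => N.smul_mem (iot D.ph s) hm }
  have hm : ∀ (N : Submodule D.R M) (x : M), x ∈ f N ↔ x ∈ N := fun N x => Iff.rfl
  have hf' : StrictMono f := by
    intro N N' h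
    rw [SetLike.lt_iff_le_and_exists] at h ⊢
    obtain ⟨h3, x, h4, h5⟩ := h
    exact ⟨fun y hy => (hm N' y).2 (h3 ((hm N y).1 hy)), x, (hm N' x).2 h4,
      fun h6 => h5 ((hm N x).1 h6)⟩
  exact hf'.wellFoundedGT

theorem isA_of_le {c : ℕ} {N N' : Submodule D.R M} (h : N ≤ N') (h' : D.IsA N' c) : D.IsA N c := by
  exact cls_inj (C := D.cA c) (Submodule.inclusion h) (Submodule.inclusion_injective h) h'

theorem isA_sup {c : ℕ} {N N' : Submodule D.R M} (h : D.IsA N c) (h' : D.IsA N' c) :
    D.IsA (N ⊔ N' : Submodule D.R M) c := by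
  refine cls_sur (C := D.cA c) (M := N × N') (LinearMap.coprod
    (Submodule.inclusion (le_sup_left : N ≤ N ⊔ N')) (Submodule.inclusion (le_sup_right : N' ≤ N ⊔ N')))
    ?_ ((D.cA c).prod h h')
  rintro ⟨x, hx⟩
  obtain ⟨y, hy, z, hz, rfl⟩ := Submodule.mem_sup.1 hx
  exact ⟨(⟨y, hy⟩, ⟨z, hz⟩), rfl⟩

theorem exists_sml (hM : D.IsG M) (c : ℕ) : ∃ N : Submodule D.R M, D.IsA N c ∧
    ∀ N' : Submodule D.R M, D.IsA N' c → N' ≤ N := by
  have hn := D.noeth hM
  obtain ⟨N, hN, hmax⟩ := set_has_maximal_iff_noetherian.2 hn {N : Submodule D.R M | D.IsA N c}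
    ⟨⊥, (D.cA c).zero _⟩
  refine ⟨N, hN, fun N' hN' => ?_⟩
  have h1 := hmax (N ⊔ N') (D.isA_sup hN hN')
  have h2 : N = N ⊔ N' := eq_of_le_of_not_lt le_sup_left h1
  rw [h2]
  exact le_sup_right

theorem sml_quo (hM : D.IsG M) {c : ℕ} {N : Submodule D.R M} (hN : D.IsA N c)
    (h : ∀ N' : Submodule D.R M, D.IsA N' c → N' ≤ N) (N'' : Submodule D.R (M ⧸ N))
    (h'' : D.IsA N'' c) : N'' = ⊥ := by
  let N' : Submodule D.R M := N''.comap N.mkQ
  let q : N' →ₗ[D.R] N'' := (N.mkQ.comp N'.subtype).codRestrict N'' (fun x => x.2)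
  have h1 : D.IsA (LinearMap.ker q) c := by
    let i : LinearMap.ker q →ₗ[D.R] N := ((N'.subtype).comp (LinearMap.ker q).subtype).codRestrict N
      (fun x => by
        have h2 : q x.1 = 0 := x.2
        have h3 : N.mkQ ((x.1 : N') : M) = 0 := congrArg Subtype.val h2
        rw [Submodule.mkQ_apply, Submodule.Quotient.mk_eq_zero] at h3
        exact h3)
    refine cls_inj (C := D.cA c) i ?_ hN
    intro x y hxy
    have h5 : ((x.1 : N') : M) = ((y.1 : N') : M) := congrArg (fun z : N => (z : M)) hxy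
    exact Subtype.ext (Subtype.ext h5)
  have h2 : D.IsA (N' ⧸ LinearMap.ker q) c := by
    refine cls_inj (C := D.cA c) ((LinearMap.range q).subtype.comp
      (q.quotKerEquivRange : (N' ⧸ LinearMap.ker q) →ₗ[D.R] LinearMap.range q)) ?_ h''
    exact Subtype.val_injective.comp q.quotKerEquivRange.injective
  have h3 : D.IsA N' c := D.isA_ext (D.isG_sub hM N') (LinearMap.ker q) h1 h2
  rw [eq_bot_iff]
  intro x hx
  obtain ⟨m, rfl⟩ := N.mkQ_surjective x
  have h4 : m ∈ N := h N' h3 hx
  rw [Submodule.mem_bot, Submodule.mkQ_apply, Submodule.Quotient.mk_eq_zero]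
  exact h4

end Dat

end MSA
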