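import Mathlib
import Pool.Agent.MSA.Gt
import Pool.Agent.MSA.Sml
import Pool.Agent.MSA.An

/-!
# Modules which are not small contain big cyclic submodules generated by invariants

PROOFS. `exists_big`: let `N` be the largest submodule of `M` in `cA (c+1)` (`exists_sml`) and suppose
that `span {m}` is in `cA (c+1)` for all `n` and `m ∈ minv M n`; then `m ∈ N` for all these `m`.  By
`lift_minv` (with `N' = N`; a nonzero `x ∈ M ⧸ N` is not in `N.map N.mkQ = ⊥`) the weight spaces of
`M ⧸ N` of weight `p n` vanish.  `M ⧸ N` is in `cA p` by `isA_p_of`, so in `cA (c+1)` (`isA_mono`),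
and `isA_ext` gives `IsA M (c+1)`.
`exists_inv_ne`: `exists_big`, and `span {0} = ⊥` is in `cA (c+1)` (`(D.cA (c+1)).zero`).
`iv_not_mem`: if all invariants of degree `p n` are in `q` then by `iv_iff` and `exists_minv` (for `Sr` and
`idl q`) all homogeneous polynomials of degree `p n` are in `q`, so all homogeneous polynomials of
degree `≥ p n`; the weight spaces of `Cy q` of weight `≥ p n` vanish (`wt_lift`, `sr_wt_nat`), so `Cy q` is in
`cA p` by `isA_p_iff`, `hf_eq_zero`.
`incl_small`: let `N' = (idl q').map (idl q).mkQ`.  If it is not in `cA (c+1)`, `exists_inv_ne` gives a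
nonzero invariant `x` of `N'`, of weight `p n`.  The restriction `idl q' → N'` of `mkQ` is surjective, so
`x` is the image of some `y ∈ wt (idl q') (p n)` (`wt_lift`), and `y ∉ idl q`; `exists_minv` for
the module `idl q'` and the submodule `(idl q).comap (idl q').subtype` gives `m' ∈ minv (idl q') n`,
`m' ∉ idl q`; `n ≥ 0` (`sr_wt_neg`), and `iv_iff` makes it an invariant in `q'`, not in `q`: contradiction.
-/

set_option autoImplicit false
set_option linter.unusedSectionVars false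

noncomputable section

namespace MSA

universe u v w

namespace Dat

variable (D : Dat.{u})

variable {M : Type u} [AddCommGroup M] [Module D.R M]

theorem exists_big (hM : D.IsG M) {c : ℕ} (hc : c < D.p) (h : ¬ D.IsA M (c + 1)) :
    ∃ (n : ℤ) (m : M), m ∈ D.minv M n ∧
      ¬ D.IsA (Submodule.span D.R {m} : Submodule D.R M) (c + 1) := by
  obtain ⟨N, hN, hmax⟩ := D.exists_sml hM (c + 1)
  by_contra hcon
  push Not at hcon
  apply h
  have h1 : ∀ (n : ℤ), ∀ m ∈ D.minv M n, m ∈ N := by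
    intro n m hm
    exact hmax _ (hcon n m hm) (Submodule.mem_span_singleton_self m)
  refine D.isA_ext hM N hN ?_
  have h2 : D.IsA (M ⧸ N) D.p := by
    refine D.isA_p_of (D.isG_quo hM N) fun n => ?_
    rw [eq_bot_iff]
    intro x hx
    rw [AddSubgroup.mem_bot]
    by_contra hx0
    obtain ⟨m, hm, hmN⟩ := D.lift_minv hM.wts N N n hx (by
      rw [Submodule.mkQ_map_self, Submodule.mem_bot]
      exact hx0)
    exact hmN (h1 n m hm)
  exact D.isA_mono h2 hc

theorem exists_inv_ne (hM : D.IsG M) {c : ℕ} (hc : c < D.p) (h : ¬ D.IsA M (c + 1)) :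
    ∃ (n : ℤ) (m : M), m ∈ D.minv M n ∧ m ≠ 0 := by
  obtain ⟨n, m, hm, hA⟩ := D.exists_big hM hc h
  refine ⟨n, m, hm, ?_⟩
  rintro rfl
  apply hA
  have : Subsingleton (Submodule.span D.R {(0 : M)} : Submodule D.R M) := by
    rw [Submodule.span_zero_singleton]
    infer_instance
  exact D.isA_zero

private theorem big_hom {q : Ideal D.S} {k : ℕ}
    (hq : ∀ f : D.S, f.IsHomogeneous k → f ∈ q) {n : ℕ} (hn : k ≤ n) {f : D.S}
    (hf : f.IsHomogeneous n) : f ∈ q := by
  rw [f.as_sum]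
  refine q.sum_mem fun d hd => ?_
  have h1 : d.degree = n := by
    have := hf (MvPolynomial.mem_support_iff.1 hd)
    rw [← this, Finsupp.degree_eq_weight_one]
    rfl
  obtain ⟨e, he, hek⟩ := Finsupp.exists_le_degree_eq d k (by rw [h1]; exact hn)
  have h2 : MvPolynomial.monomial d (MvPolynomial.coeff d f) =
      MvPolynomial.monomial (d - e) (MvPolynomial.coeff d f) * MvPolynomial.monomial e (1 : D.L) := by
    rw [MvPolynomial.monomial_mul, tsub_add_cancel_of_le he, mul_one]
  rw [h2]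
  exact q.mul_mem_left _ (hq _ (MvPolynomial.isHomogeneous_monomial _ hek))

/-- In every degree divisible by `p` there is an invariant outside of `q` if `S / q` is not of finite
length. -/
theorem iv_not_mem {q : Ideal D.S} (hq : StI D.ph q) (h : ¬ D.IsA (D.Cy q) D.p) (n : ℕ) :
    ∃ r, D.Iv n r ∧ r ∉ q := by
  by_contra hcon
  push Not at hcon
  apply h
  have h1 : ∀ f : D.S, f.IsHomogeneous (D.p * n) → f ∈ q := by
    intro f hf
    by_contra hfq
    have h2 : toSr D.ph f ∈ wt D.F D.ph (Sr D.ph) ((D.p : ℤ) * (n : ℤ)) := by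
      have := (D.sr_wt_nat (D.p * n) f).2 hf
      rwa [Nat.cast_mul] at this
    obtain ⟨m', hm', hn'⟩ := D.exists_minv D.wts_sr (idl D.ph q) n h2
      (fun h3 => hfq ((mem_idl D.ph hq f).1 h3))
    obtain ⟨r, rfl⟩ := (toSr D.ph).surjective m'
    exact hn' ((mem_idl D.ph hq r).2 (hcon r ((D.iv_iff n r).2 hm')))
  rw [D.isA_p_iff (D.isG_Cy q)]
  refine ⟨((D.p * n : ℕ) : ℤ), fun k hk => ?_⟩
  rw [D.hf_eq_zero (D.isG_Cy q).isW, eq_bot_iff]
  intro x hx
  rw [AddSubgroup.mem_bot]
  obtain ⟨y, hy, rfl⟩ := wt_lift D.wts_sr (idl D.ph q).mkQ (idl D.ph q).mkQ_surjective hx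
  obtain ⟨f, rfl⟩ := (toSr D.ph).surjective y
  rw [D.cy_mk_eq_zero hq]
  obtain ⟨k', rfl⟩ := Int.eq_ofNat_of_zero_le (le_trans (Int.natCast_nonneg _) hk.le)
  exact D.big_hom h1 (by exact_mod_cast hk.le) ((D.sr_wt_nat k' f).1 hy)

/-- If all invariants of `q'` are in `q` then `q' / (q' ∩ q)` is small. -/
theorem incl_small {q q' : Ideal D.S} (hq : StI D.ph q) (hq' : StI D.ph q')
    (h : ∀ (n : ℕ) (r : D.S), D.Iv n r → r ∈ q' → r ∈ q) {c : ℕ} (hc : c < D.p) :
    D.IsA ((idl D.ph q').map (idl D.ph q).mkQ : Submodule D.R (D.Cy q)) (c + 1) := by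
  by_contra hcon
  have hG : D.IsG ((idl D.ph q').map (idl D.ph q).mkQ : Submodule D.R (D.Cy q)) :=
    D.isG_sub (D.isG_Cy q) _
  obtain ⟨n, x, hx, hx0⟩ := D.exists_inv_ne hG hc hcon
  let g : idl D.ph q' →ₗ[D.R] ((idl D.ph q').map (idl D.ph q).mkQ : Submodule D.R (D.Cy q)) :=
    (idl D.ph q).mkQ.submoduleMap (idl D.ph q')
  have hg : Function.Surjective g := (idl D.ph q).mkQ.submoduleMap_surjective (idl D.ph q')
  have hW : Wts D.F D.ph (idl D.ph q') D.p D.b := wts_sub D.wts_sr _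
  obtain ⟨y, hy, rfl⟩ := wt_lift hW g hg hx.1
  have hy0 : y ∉ (idl D.ph q).comap (idl D.ph q').subtype := by
    intro hy1
    apply hx0
    apply Subtype.ext
    exact (Submodule.Quotient.mk_eq_zero _).2 hy1
  obtain ⟨m', hm', hn'⟩ := D.exists_minv hW _ n hy hy0
  obtain ⟨f, hf⟩ := (toSr D.ph).surjective (m' : Sr D.ph)
  have hmem : toSr D.ph f ∈ D.minv (Sr D.ph) n := by
    rw [hf]
    refine ⟨wt_map (idl D.ph q').subtype hm'.1, ?_⟩
    exact congrArg Subtype.val hm'.2
  have hfq' : f ∈ q' := by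
    rw [← mem_idl D.ph hq', hf]
    exact m'.2
  have hfq : f ∉ q := by
    rw [← mem_idl D.ph hq, hf]
    exact hn'
  rcases lt_or_ge n 0 with hn | hn
  · have h1 : (D.p : ℤ) * n < 0 := mul_neg_of_pos_of_neg (by exact_mod_cast D.X.hp.pos) hn
    have h2 := D.sr_wt_neg h1 hmem.1
    rw [h2] at hfq
    exact hfq q.zero_mem
  · obtain ⟨k, rfl⟩ := Int.eq_ofNat_of_zero_le hn
    exact hfq (h k f ((D.iv_iff k f).2 hmem) hfq')

end Dat

end MSA
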