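import Mathlib
import Pool.Agent.MSA.Kex

/-!
# Operators between exterior algebras of different spaces

`K.hop K' f : K.Tot Z → K'.Tot Z` for `f : Λ(F^J) → Λ(F^J')`, the same formula as `K.op`.

PROOFS.
`mpH_comp`, `mpH_id`, `mpH_wdg`: as `mpE_comp`, `mpE_id`, `mpE_wdg` (file Ext) word by word.
`ctr_mpH`: as `ctr_mpE` (file Ctm) word by word.
`wdg_wdg`: `ι v * ι v = 0` (`ExteriorAlgebra.ι_sq_zero`). `wdg_comm`: `ι v * ι w = - ι w * ι v`
(`ExteriorAlgebra.ι_add_mul_swap`). `wdg_add`, `wdg_smul`, `wdg_zero`: `ι` is linear.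
`hop_comp`: as `opE_comp`: expand `f (bE A)` in the basis `bE F K'.J`, apply `g` (linear), exchange the sums
(`map_mul`, `mul_smul`; all coefficients are in the commutative ring `S`).
`hop_add`, `hop_neg`, `hop_smul`, `hop_sum`, `hop_zero`: linearity of the coefficients, as in the file Kos.
`hop_iot`: as `op_iot`. `hop_tma`: as `tma_op`. `hop_gam_pt`: as `op_gam_pt`.
`hop_wdg_eq`: `hop_comp`.
`mpH_par`: as `parE_mpE` (file Par): `mpH f` maps `⋀^n` to `⋀^n` (`⋀^n = (range ι)^n`, an algebra homomorphism maps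
`ι v` to `ι (f v)`: `Submodule.map_pow`), and `bE_mem`, `repr_of_mem`. `hop_mem`: as `parE_opE`: a summand with
`x A ≠ 0` has `A.card = i` in `ZMod 2`; its coefficient at `B` is zero unless `B.card = A.card`.
`hop_coeff`: if all coordinates of `x` lie in an additive subgroup `N` of `Z` that is stable under `iot (algebraMap c)`,
`c : F`, then so do the coordinates of `K.hop K' f x` (`AddSubgroup.sum_mem`).
-/

set_option autoImplicit false
set_option linter.unusedSectionVars false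

noncomputable section

namespace MSA

universe u v w

section

variable {F : Type u} [Field F] {J J' J'' : Type} [Fintype J] [LinearOrder J] [Fintype J']
variable [LinearOrder J'] [Fintype J''] [LinearOrder J'']

/-- the algebra map of exterior algebras -/
def mpH (f : (J → F) →ₗ[F] (J' → F)) : EA F J →ₗ[F] EA F J' :=
  (ExteriorAlgebra.map f).toLinearMap

theorem mpH_self (f : (J → F) →ₗ[F] (J → F)) : mpH f = mpE f := rfl

theorem mpH_comp (f : (J' → F) →ₗ[F] (J'' → F)) (g : (J → F) →ₗ[F] (J' → F)) :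
    mpH (f ∘ₗ g) = mpH f ∘ₗ mpH g := by
  refine LinearMap.ext fun x => ?_
  show (ExteriorAlgebra.map (f ∘ₗ g)) x = (ExteriorAlgebra.map f) ((ExteriorAlgebra.map g) x)
  rw [← AlgHom.comp_apply, ExteriorAlgebra.map_comp_map]

theorem mpH_id : mpH (LinearMap.id : (J → F) →ₗ[F] (J → F)) = LinearMap.id := by
  refine LinearMap.ext fun x => ?_
  show (ExteriorAlgebra.map LinearMap.id) x = x
  rw [ExteriorAlgebra.map_id]
  rfl

theorem mpH_wdg (f : (J → F) →ₗ[F] (J' → F)) (v : J → F) :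
    mpH f ∘ₗ wdg v = wdg (f v) ∘ₗ mpH f := by
  refine LinearMap.ext fun x => ?_
  show (ExteriorAlgebra.map f) (ExteriorAlgebra.ι F v * x) =
    ExteriorAlgebra.ι F (f v) * (ExteriorAlgebra.map f) x
  rw [map_mul, ExteriorAlgebra.map_apply_ι]

private theorem oph_ctr_algebraMap (j : J) (r : F) :
    (ctr j : EA F J →ₗ[F] EA F J) (algebraMap F (EA F J) r) = 0 :=
  CliffordAlgebra.contractLeft_algebraMap (Q := (0 : QuadraticForm F (J → F))) _ r

private theorem oph_ctr_mul (j : J) (v : J → F) (x : EA F J) :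
    (ctr j : EA F J →ₗ[F] EA F J) (ExteriorAlgebra.ι F v * x) =
      v j • x - ExteriorAlgebra.ι F v * ((ctr j : EA F J →ₗ[F] EA F J) x) :=
  CliffordAlgebra.contractLeft_ι_mul (Q := (0 : QuadraticForm F (J → F))) (LinearMap.proj j) v x

private theorem oph_mpH_mul (f : (J → F) →ₗ[F] (J' → F)) (v : J → F) (x : EA F J) :
    mpH f (ExteriorAlgebra.ι F v * x) = ExteriorAlgebra.ι F (f v) * mpH f x := by
  show (ExteriorAlgebra.map f) (ExteriorAlgebra.ι F v * x) =
    ExteriorAlgebra.ι F (f v) * (ExteriorAlgebra.map f) x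
  rw [map_mul, ExteriorAlgebra.map_apply_ι]

private theorem oph_sum (j : J') (f : (J → F) →ₗ[F] (J' → F)) (v : J → F) :
    ∑ i, f (Pi.single i 1) j * v i = f v j := by
  conv_rhs => rw [pi_eq_sum_univ' v]
  rw [map_sum, Finset.sum_apply]
  refine Finset.sum_congr rfl fun i _ => ?_
  rw [map_smul, Pi.smul_apply, smul_eq_mul, mul_comm]

/-- naturality of contraction -/
theorem ctr_mpH (j : J') (f : (J → F) →ₗ[F] (J' → F)) :
    (ctr j : EA F J' →ₗ[F] EA F J') ∘ₗ mpH f =
      ∑ i, (f (Pi.single i 1) j) • (mpH f ∘ₗ (ctr i : EA F J →ₗ[F] EA F J)) := by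
  refine LinearMap.ext fun x => ?_
  rw [LinearMap.sum_apply]
  simp only [LinearMap.smul_apply, LinearMap.comp_apply]
  refine CliffordAlgebra.left_induction (Q := (0 : QuadraticForm F (J → F)))
    (P := fun x => (ctr j : EA F J' →ₗ[F] EA F J') (mpH f x) =
      ∑ i, (f (Pi.single i 1) j) • (mpH f ((ctr i : EA F J →ₗ[F] EA F J) x))) ?_ ?_ ?_ x
  · intro r
    have h1 : mpH f (algebraMap F (EA F J) r) = algebraMap F (EA F J') r :=
      (ExteriorAlgebra.map f).commutes r
    show (ctr j : EA F J' →ₗ[F] EA F J') (mpH f (algebraMap F (EA F J) r)) =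
      ∑ i, (f (Pi.single i 1) j) • (mpH f ((ctr i : EA F J →ₗ[F] EA F J)
        (algebraMap F (EA F J) r)))
    rw [h1, oph_ctr_algebraMap]
    symm
    refine Finset.sum_eq_zero fun i _ => ?_
    rw [oph_ctr_algebraMap, map_zero, smul_zero]
  · intro a b ha hb
    rw [map_add, map_add, ha, hb, ← Finset.sum_add_distrib]
    refine Finset.sum_congr rfl fun i _ => ?_
    rw [map_add, map_add, smul_add]
  · intro a v ha
    show (ctr j : EA F J' →ₗ[F] EA F J') (mpH f (ExteriorAlgebra.ι F v * a)) =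
      ∑ i, (f (Pi.single i 1) j) • (mpH f ((ctr i : EA F J →ₗ[F] EA F J)
        (ExteriorAlgebra.ι F v * a)))
    rw [oph_mpH_mul, oph_ctr_mul, ha, ← oph_sum j f v, Finset.sum_smul, Finset.mul_sum,
      ← Finset.sum_sub_distrib]
    refine Finset.sum_congr rfl fun i _ => ?_
    rw [oph_ctr_mul, map_sub, map_smul, oph_mpH_mul, smul_sub, smul_smul, mul_smul_comm]

theorem wdg_wdg (v : J → F) :
    (wdg v : EA F J →ₗ[F] EA F J) ∘ₗ (wdg v : EA F J →ₗ[F] EA F J) = 0 := by
  refine LinearMap.ext fun x => ?_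
  show ExteriorAlgebra.ι F v * (ExteriorAlgebra.ι F v * x) = 0
  rw [← mul_assoc, ExteriorAlgebra.ι_sq_zero, zero_mul]

theorem wdg_comm (v w : J → F) : (wdg v : EA F J →ₗ[F] EA F J) ∘ₗ (wdg w : EA F J →ₗ[F] EA F J) =
    - ((wdg w : EA F J →ₗ[F] EA F J) ∘ₗ (wdg v : EA F J →ₗ[F] EA F J)) := by
  refine LinearMap.ext fun x => ?_
  show ExteriorAlgebra.ι F v * (ExteriorAlgebra.ι F w * x) =
    -(ExteriorAlgebra.ι F w * (ExteriorAlgebra.ι F v * x))
  rw [← mul_assoc, ← mul_assoc, eq_neg_iff_add_eq_zero, ← add_mul,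
    ExteriorAlgebra.ι_add_mul_swap, zero_mul]

theorem wdg_add (v w : J → F) :
    (wdg (v + w) : EA F J →ₗ[F] EA F J) = wdg v + wdg w := by
  refine LinearMap.ext fun x => ?_
  show ExteriorAlgebra.ι F (v + w) * x = ExteriorAlgebra.ι F v * x + ExteriorAlgebra.ι F w * x
  rw [map_add, add_mul]

theorem wdg_smul (c : F) (v : J → F) :
    (wdg (c • v) : EA F J →ₗ[F] EA F J) = c • wdg v := by
  refine LinearMap.ext fun x => ?_
  show ExteriorAlgebra.ι F (c • v) * x = c • (ExteriorAlgebra.ι F v * x)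
  rw [map_smul, smul_mul_assoc]

theorem wdg_zero : (wdg (0 : J → F) : EA F J →ₗ[F] EA F J) = 0 := by
  refine LinearMap.ext fun x => ?_
  show ExteriorAlgebra.ι F (0 : J → F) * x = 0
  rw [map_zero, zero_mul]

/-- `mpH f` preserves the degree -/
theorem mpH_par (f : (J → F) →ₗ[F] (J' → F)) (A : Finset J) (B : Finset J')
    (h : (bE F J').repr (mpH f (bE F J A)) B ≠ 0) : B.card = A.card := by
  refine repr_of_mem A.card _ ?_ B h
  have h1 : mpH f (bE F J A) ∈ Submodule.map (ExteriorAlgebra.map f).toLinearMap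
      ((LinearMap.range (ExteriorAlgebra.ι F : (J → F) →ₗ[F] EA F J)) ^ A.card) :=
    ⟨bE F J A, bE_mem A, rfl⟩
  rw [Submodule.map_pow] at h1
  suffices h2 : Submodule.map (ExteriorAlgebra.map f).toLinearMap
      (LinearMap.range (ExteriorAlgebra.ι F : (J → F) →ₗ[F] EA F J)) ≤
      LinearMap.range (ExteriorAlgebra.ι F : (J' → F) →ₗ[F] EA F J') from
    SetLike.le_def.mp (pow_le_pow_left' h2 A.card) h1
  rintro y ⟨z, ⟨v, rfl⟩, rfl⟩
  refine ⟨f v, ?_⟩
  exact (ExteriorAlgebra.map_apply_ι f v).symm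

end

section

variable {F : Type u} [Field F] {S : Type u} [CommRing S] [Algebra F S] {Γ : Type u}
variable {φ : Γ → S →+* S} (K K' K'' : KS F φ)
variable {Z Z' : Type u} [AddCommGroup Z] [Module (Rg φ) Z] [AddCommGroup Z'] [Module (Rg φ) Z']

/-- operators from the exterior algebra of `K` to the one of `K'` -/
def KS.hop (f : EA F K.J →ₗ[F] EA F K'.J) : K.Tot Z →+ K'.Tot Z where
  toFun x := fun B => ∑ A, iot φ (algebraMap F S ((bE F K'.J).repr (f (bE F K.J A)) B)) • x A
  map_zero' := by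
    funext B
    exact Finset.sum_eq_zero fun A _ => smul_zero _
  map_add' x y := by
    funext B
    refine Eq.trans (Finset.sum_congr rfl fun A _ => ?_) Finset.sum_add_distrib
    exact smul_add _ _ _

theorem KS.hop_apply (f : EA F K.J →ₗ[F] EA F K'.J) (x : K.Tot Z) (B : Finset K'.J) :
    K.hop K' f x B = ∑ A, iot φ (algebraMap F S ((bE F K'.J).repr (f (bE F K.J A)) B)) • x A := rfl

theorem KS.hop_self (f : EA F K.J →ₗ[F] EA F K.J) (x : K.Tot Z) : K.hop K f x = K.op f x := rfl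

theorem KS.hop_comp (g : EA F K'.J →ₗ[F] EA F K''.J) (f : EA F K.J →ₗ[F] EA F K'.J)
    (x : K.Tot Z) : K'.hop K'' g (K.hop K' f x) = K.hop K'' (g ∘ₗ f) x := by
  funext B
  have h0 : K'.hop K'' g (K.hop K' f x) B = ∑ C, ∑ A,
      (iot φ (algebraMap F S ((bE F K''.J).repr (g (bE F K'.J C)) B)) *
        iot φ (algebraMap F S ((bE F K'.J).repr (f (bE F K.J A)) C))) • x A := by
    rw [K'.hop_apply]
    refine Finset.sum_congr rfl fun C _ => ?_
    rw [K.hop_apply, Finset.smul_sum]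
    refine Finset.sum_congr rfl fun A _ => ?_
    rw [mul_smul]
  rw [h0, K.hop_apply, Finset.sum_comm]
  refine Finset.sum_congr rfl fun A _ => ?_
  rw [← Finset.sum_smul]
  congr 1
  have h := (bE F K'.J).sum_repr (f (bE F K.J A))
  rw [LinearMap.comp_apply]
  conv_rhs => rw [← h]
  rw [map_sum, map_sum, Finsupp.finsetSum_apply, map_sum, map_sum]
  refine Finset.sum_congr rfl fun C _ => ?_
  rw [map_smul, map_smul, Finsupp.smul_apply, smul_eq_mul, mul_comm (((bE F K'.J).repr (f (bE F K.J A))) C),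
    map_mul, map_mul]

/-- the same for `op` on the left -/
theorem KS.op_hop (g : EA F K'.J →ₗ[F] EA F K'.J) (f : EA F K.J →ₗ[F] EA F K'.J)
    (x : K.Tot Z) : K'.op g (K.hop K' f x) = K.hop K' (g ∘ₗ f) x := K.hop_comp K' K' g f x

/-- the same for `op` on the right -/
theorem KS.hop_op (g : EA F K.J →ₗ[F] EA F K'.J) (f : EA F K.J →ₗ[F] EA F K.J)
    (x : K.Tot Z) : K.hop K' g (K.op f x) = K.hop K' (g ∘ₗ f) x := K.hop_comp K K' g f x

theorem KS.hop_add (f g : EA F K.J →ₗ[F] EA F K'.J) (x : K.Tot Z) :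
    K.hop K' (f + g) x = K.hop K' f x + K.hop K' g x := by
  funext B
  refine Eq.trans (Finset.sum_congr rfl fun A _ => ?_) Finset.sum_add_distrib
  rw [LinearMap.add_apply, map_add, Finsupp.add_apply, map_add, map_add, add_smul]

theorem KS.hop_zero (x : K.Tot Z) : K.hop K' (0 : EA F K.J →ₗ[F] EA F K'.J) x = 0 := by
  funext B
  refine Finset.sum_eq_zero fun A _ => ?_
  rw [LinearMap.zero_apply, map_zero, Finsupp.zero_apply, map_zero, map_zero, zero_smul]

theorem KS.hop_neg (f : EA F K.J →ₗ[F] EA F K'.J) (x : K.Tot Z) :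
    K.hop K' (-f) x = - K.hop K' f x := by
  rw [eq_neg_iff_add_eq_zero, ← K.hop_add K', neg_add_cancel, K.hop_zero K']

theorem KS.hop_smul (c : F) (f : EA F K.J →ₗ[F] EA F K'.J) (x : K.Tot Z) :
    K.hop K' (c • f) x = iot φ (algebraMap F S c) • K.hop K' f x := by
  funext B
  rw [K'.iot_smul, K.hop_apply, K.hop_apply, Finset.smul_sum]
  refine Finset.sum_congr rfl fun A _ => ?_
  rw [LinearMap.smul_apply, map_smul, Finsupp.smul_apply, smul_eq_mul, map_mul, map_mul, mul_smul]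

theorem KS.hop_sum {α : Type*} (s : Finset α) (f : α → EA F K.J →ₗ[F] EA F K'.J) (x : K.Tot Z) :
    K.hop K' (∑ a ∈ s, f a) x = ∑ a ∈ s, K.hop K' (f a) x := by
  classical
  induction s using Finset.induction_on with
  | empty => rw [Finset.sum_empty, Finset.sum_empty, K.hop_zero K']
  | insert a s ha ih => rw [Finset.sum_insert ha, Finset.sum_insert ha, K.hop_add K', ih]

theorem KS.hop_iot (f : EA F K.J →ₗ[F] EA F K'.J) (s : S) (x : K.Tot Z) :
    K.hop K' f (iot φ s • x) = iot φ s • K.hop K' f x := by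
  funext B
  rw [K'.iot_smul, K.hop_apply, K.hop_apply, Finset.smul_sum]
  refine Finset.sum_congr rfl fun A _ => ?_
  rw [K.iot_smul, ← mul_smul, ← mul_smul, ← map_mul, ← map_mul, mul_comm]

theorem KS.hop_tma (q : Z →ₗ[Rg φ] Z') (f : EA F K.J →ₗ[F] EA F K'.J) (x : K.Tot Z) :
    K'.tma q (K.hop K' f x) = K.hop K' f (K.tma q x) := by
  funext B
  rw [K'.tma_apply, K.hop_apply, K.hop_apply, map_sum]
  refine Finset.sum_congr rfl fun A _ => ?_
  rw [map_smul, K.tma_apply]

/-- pointwise action of the generators commutes with `hop` -/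
theorem KS.hop_gam_pt [FixF F φ] (f : EA F K.J →ₗ[F] EA F K'.J) (g : Γ) (x : K.Tot Z) :
    K.hop K' f (fun A => gam φ g • x A : K.Tot Z) = fun B => gam φ g • K.hop K' f x B := by
  funext B
  rw [K.hop_apply, K.hop_apply, Finset.smul_sum]
  refine Finset.sum_congr rfl fun A _ => ?_
  rw [← mul_smul, ← mul_smul, gam_mul_iot, FixF.fix]

theorem KS.hop_mem (f : (K.J → F) →ₗ[F] (K'.J → F)) (i : ZMod 2) (x : K.Tot Z)
    (hx : x ∈ K.part Z i) : K.hop K' (mpH f) x ∈ K'.part Z i := by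
  intro B hB
  rw [K.hop_apply]
  refine Finset.sum_eq_zero fun A _ => ?_
  by_cases h : (bE F K'.J).repr (mpH f (bE F K.J A)) B = 0
  · rw [h, map_zero, map_zero, zero_smul]
  · have h1 := mpH_par f A B h
    have h2 : (A.card : ZMod 2) ≠ i := by
      rw [← h1]
      exact hB
    rw [hx A h2, smul_zero]

theorem KS.hop_coeff (f : EA F K.J →ₗ[F] EA F K'.J) (N : AddSubgroup Z)
    (hN : ∀ (c : F), ∀ z ∈ N, iot φ (algebraMap F S c) • z ∈ N) (x : K.Tot Z)
    (hx : ∀ A, x A ∈ N) (B : Finset K'.J) : K.hop K' f x B ∈ N := by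
  rw [K.hop_apply]
  exact AddSubgroup.sum_mem N fun A _ => hN _ _ (hx A)

end

end MSA
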