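import Mathlib
import Pool.Agent.MSA.Oph

/-!
# The ideal generated by vectors in the exterior algebra

PROOFS.
`exI_elt`: `CliffordAlgebra.left_induction` (form `0`) on `x` as in the file Ctm. For `x = algebraMap r`: `mpE p x = x`, take all
`a l = 0`. Sums: add the `a l`. For `ι w * x` with `x = mpE p x + ∑ ι (v l) * a l`:
`ι w * x - mpE p (ι w * x) = ι w * x - ι (p w) * mpE p x = ι w * (x - mpE p x) + ι (w - p w) * mpE p x`; the first term is
`∑ ι w * ι (v l) * a l = ∑ ι (v l) * (- ι w * a l)` (`wdg_comm`); in the second term `w - p w = ∑ c l • v l`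
(an element of the span: `Submodule.mem_span_image_iff..`, or `Submodule.span_induction` to produce `c : ℕ → F` with
`w - p w = ∑ l ∈ range n, c l • v l`), so it is `∑ ι (v l) * (c l • mpE p x)`.
`exI`: choose the `a l` of `exI_elt` for the basis vectors `x = bE A` and define `h l` by `(bE F J).constr`;
both sides agree on the basis (`Module.Basis.ext`).
`exists_prj`: `W = span (v '' Iio n)`; `W.mkQ` has a linear section `s` (`LinearMap.exists_rightInverse_of_surjective`);
`p = s ∘ W.mkQ`: `p (v l) = s 0 = 0` and `mkQ (w - p w) = 0`.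
`exists_sec`: `LinearMap.exists_rightInverse_of_surjective` (`range f = ⊤`).
-/

set_option autoImplicit false
set_option linter.unusedSectionVars false

noncomputable section

namespace MSA

universe u v w

variable {F : Type u} [Field F] {J J' : Type} [Fintype J] [LinearOrder J] [Fintype J']
variable [LinearOrder J']

/-- an element of the span of finitely many vectors -/
theorem span_coef (v : ℕ → J → F) (n : ℕ) (w : J → F)
    (h : w ∈ Submodule.span F (v '' Set.Iio n)) :
    ∃ c : ℕ → F, w = ∑ l ∈ Finset.range n, c l • v l := by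
  have h1 : v '' Set.Iio n = Set.range fun i : Fin n => v i := by
    ext x
    constructor
    · rintro ⟨l, hl, rfl⟩
      exact ⟨⟨l, hl⟩, rfl⟩
    · rintro ⟨l, rfl⟩
      exact ⟨l, l.2, rfl⟩
  rw [h1, Submodule.mem_span_range_iff_exists_fun] at h
  obtain ⟨c, hc⟩ := h
  refine ⟨fun l => if hl : l < n then c ⟨l, hl⟩ else 0, ?_⟩
  rw [Finset.sum_range, ← hc]
  refine Finset.sum_congr rfl fun i _ => ?_
  beta_reduce
  rw [dif_pos i.2]

theorem exI_elt (v : ℕ → J → F) (n : ℕ) (p : (J → F) →ₗ[F] (J → F))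
    (hp : ∀ w, w - p w ∈ Submodule.span F (v '' Set.Iio n)) (x : EA F J) :
    ∃ a : ℕ → EA F J, x = mpE p x + ∑ l ∈ Finset.range n, wdg (v l) (a l) := by
  refine CliffordAlgebra.left_induction (Q := (0 : QuadraticForm F (J → F)))
    (P := fun x => ∃ a : ℕ → EA F J,
      x = mpE p x + ∑ l ∈ Finset.range n, wdg (v l) (a l)) ?_ ?_ ?_ x
  · intro r
    refine ⟨fun _ => 0, ?_⟩
    have h1 : mpE p (algebraMap F (EA F J) r) = algebraMap F (EA F J) r :=
      (ExteriorAlgebra.map p).commutes r
    have h2 : ∑ l ∈ Finset.range n, (wdg (v l) : EA F J →ₗ[F] EA F J) 0 = 0 :=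
      Finset.sum_eq_zero fun l _ => map_zero _
    refine Eq.trans ?_ (congrArg₂ (· + ·) h1.symm h2.symm)
    exact (add_zero _).symm
  · rintro x y ⟨a, ha⟩ ⟨b, hb⟩
    refine ⟨fun l => a l + b l, ?_⟩
    have h1 : ∑ l ∈ Finset.range n, (wdg (v l) : EA F J →ₗ[F] EA F J) (a l + b l) =
        ∑ l ∈ Finset.range n, (wdg (v l) : EA F J →ₗ[F] EA F J) (a l) +
          ∑ l ∈ Finset.range n, (wdg (v l) : EA F J →ₗ[F] EA F J) (b l) := by
      rw [← Finset.sum_add_distrib]
      exact Finset.sum_congr rfl fun l _ => map_add _ _ _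
    have h2 : mpE p (x + y : EA F J) = mpE p (x : EA F J) + mpE p (y : EA F J) := map_add _ _ _
    refine Eq.trans ?_ (congrArg₂ (· + ·) h2.symm h1.symm)
    refine (congrArg₂ (· + ·) ha hb).trans ?_
    exact add_add_add_comm _ _ _ _
  · rintro x w ⟨a, ha⟩
    obtain ⟨c, hc⟩ := span_coef v n (w - p w) (hp w)
    refine ⟨fun l => c l • mpE p (x : EA F J) - wdg w (a l), ?_⟩
    have e1 : mpE p (wdg w (x : EA F J)) = wdg (p w) (mpE p (x : EA F J)) :=
      LinearMap.congr_fun (mpE_wdg p w) x
    have e2 : wdg w (x : EA F J) = wdg (p w) (mpE p (x : EA F J)) +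
        wdg (w - p w) (mpE p (x : EA F J)) +
        ∑ l ∈ Finset.range n, wdg w (wdg (v l) (a l)) := by
      have h3 : wdg w (x : EA F J) = wdg w (mpE p (x : EA F J)) +
          wdg w (∑ l ∈ Finset.range n, wdg (v l) (a l)) := by
        rw [← map_add]
        exact congrArg _ ha
      rw [h3, map_sum]
      congr 1
      have h4 : (wdg w : EA F J →ₗ[F] EA F J) = wdg (p w) + wdg (w - p w) := by
        rw [← wdg_add]
        congr 1
        abel
      conv_lhs => rw [h4]
      rfl
    have e3 : wdg (w - p w) (mpE p (x : EA F J)) =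
        ∑ l ∈ Finset.range n, wdg (v l) (c l • mpE p (x : EA F J)) := by
      have h5 : ∀ s : Finset ℕ, (wdg (∑ l ∈ s, c l • v l) : EA F J →ₗ[F] EA F J) =
          ∑ l ∈ s, c l • wdg (v l) := by
        intro s
        induction s using Finset.induction_on with
        | empty => rw [Finset.sum_empty, Finset.sum_empty, wdg_zero]
        | insert i s hi ih => rw [Finset.sum_insert hi, Finset.sum_insert hi, wdg_add, ih, wdg_smul]
      rw [hc, h5, LinearMap.sum_apply]
      refine Finset.sum_congr rfl fun l _ => ?_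
      rw [LinearMap.smul_apply, map_smul]
    have e4 : ∀ l, wdg w (wdg (v l) (a l)) = - wdg (v l) (wdg w (a l)) := fun l =>
      LinearMap.congr_fun (wdg_comm w (v l)) (a l)
    have e5 : ∑ l ∈ Finset.range n, wdg (v l) (c l • mpE p (x : EA F J) - wdg w (a l)) =
        ∑ l ∈ Finset.range n, wdg (v l) (c l • mpE p (x : EA F J)) +
          ∑ l ∈ Finset.range n, wdg w (wdg (v l) (a l)) := by
      rw [← Finset.sum_add_distrib]
      refine Finset.sum_congr rfl fun l _ => ?_
      rw [map_sub, e4, sub_eq_add_neg]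
    have e6 : wdg w (x : EA F J) = mpE p (wdg w (x : EA F J)) +
        ∑ l ∈ Finset.range n, wdg (v l) (c l • mpE p (x : EA F J) - wdg w (a l)) := by
      rw [e5, e1, ← add_assoc, ← e3]
      exact e2
    exact e6

/-- `x - Λ(p) x` lies in the ideal generated by the `v l`, if the image of `1 - p` lies in their span. -/
theorem exI (v : ℕ → J → F) (n : ℕ) (p : (J → F) →ₗ[F] (J → F))
    (hp : ∀ w, w - p w ∈ Submodule.span F (v '' Set.Iio n)) :
    ∃ h : ℕ → EA F J →ₗ[F] EA F J,
      (LinearMap.id : EA F J →ₗ[F] EA F J) = mpE p + ∑ l ∈ Finset.range n, wdg (v l) ∘ₗ h l := by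
  choose a ha using fun A : Finset J => exI_elt v n p hp (bE F J A)
  refine ⟨fun l => (bE F J).constr F fun A => a A l, ?_⟩
  refine (bE F J).ext fun A => ?_
  rw [LinearMap.id_apply, LinearMap.add_apply, LinearMap.sum_apply]
  conv_lhs => rw [ha A]
  congr 1
  refine Finset.sum_congr rfl fun l _ => ?_
  rw [LinearMap.comp_apply, Module.Basis.constr_basis]

/-- projections -/
theorem exists_prj (v : ℕ → J → F) (n : ℕ) : ∃ p : (J → F) →ₗ[F] (J → F),
    (∀ l < n, p (v l) = 0) ∧ ∀ w, w - p w ∈ Submodule.span F (v '' Set.Iio n) := by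
  obtain ⟨s, hs⟩ := LinearMap.exists_rightInverse_of_surjective
    (Submodule.span F (v '' Set.Iio n)).mkQ (Submodule.range_mkQ _)
  refine ⟨s ∘ₗ (Submodule.span F (v '' Set.Iio n)).mkQ, fun l hl => ?_, fun w => ?_⟩
  · rw [LinearMap.comp_apply]
    have h1 : (Submodule.span F (v '' Set.Iio n)).mkQ (v l) = 0 := by
      rw [Submodule.mkQ_apply, Submodule.Quotient.mk_eq_zero]
      exact Submodule.subset_span ⟨l, hl, rfl⟩
    rw [h1, map_zero]
  · rw [← Submodule.Quotient.mk_eq_zero, ← Submodule.mkQ_apply, map_sub, sub_eq_zero]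
    exact (LinearMap.congr_fun hs ((Submodule.span F (v '' Set.Iio n)).mkQ w)).symm

/-- sections -/
theorem exists_sec (f : (J → F) →ₗ[F] (J' → F)) (hf : Function.Surjective f) :
    ∃ s : (J' → F) →ₗ[F] (J → F), ∀ w, f (s w) = w := by
  obtain ⟨s, hs⟩ := LinearMap.exists_rightInverse_of_surjective f (LinearMap.range_eq_top.2 hf)
  exact ⟨s, fun w => LinearMap.congr_fun hs w⟩

end MSA
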