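import Mathlib
import Pool.Agent.MSA.Oph

/-!
# Maps of Koszul complexes induced by linear maps of the index spaces

`f : F^J → F^J'` equivariant, `q : Z → Z'` linear, and the elements `K.y j` act on `Z'` as the elements `K'.yv (f e_j)`.

PROOFS.
`yv_single`, `yv_add`, `yv_smul`, `yv_sum`: clear. `da_wdg`: as `d_wdg` in the file KHo: expand `K.da` as the sum over `j` of
`iot (y j) • op (ctr j)`, `op_comp`, `op_add`, `ctr_wdg`: the `j`-th terms add up to `iot (y j) • op (v j • id) x =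
iot (y j * algebraMap (v j)) • x`.
`yv_comp`: `v = ∑ v j • e_j`; both sides are additive in `v`: `iot (K.yv v) • z = ∑ j, iot (algebraMap (v j)) • iot (K.y j) • z`
and `K'.yv (f v) = ∑ j, algebraMap (v j) * K'.yv (f e_j)`.
`hma_iot`: `hop_iot`, `tma_apply`, `iot_smul`. `hma_gam`: `gam g • x = op (mpE (rho g)) (pointwise gam g)` (`gam_smul'`) on both
sides; `tma_op`, `hop_comp`, `mpH_comp` (`mpE = mpH`), `hf`, `hop_gam_pt`, linearity of `q`.
`hma_da`: `K'.da (hop (mpH f) w) = ∑ j', iot (K'.y j') • hop (ctr j' ∘ mpH f) w` (`op_hop`), `ctr_mpH`, `hop_sum`, `hop_smul`,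
exchange the sums: `∑ i, (∑ j', iot (K'.y j' * algebraMap (f e_i j'))) • hop (mpH f ∘ ctr i) w`; the inner sum acts on `Z'` as
`iot (K'.yv (f e_i))`, which is the action of `iot (K.y i)` (`hy`); and `hop (mpH f ∘ ctr i) w = hop (mpH f) (op (ctr i) w)`
(`hop_op`), `tma_op`, `hop_iot`.
`hma_mem`: `hop_mem` and `tmap_mem`.
-/

set_option autoImplicit false
set_option linter.unusedSectionVars false

noncomputable section

namespace MSA

universe u v w

variable {F : Type u} [Field F] {S : Type u} [CommRing S] [Algebra F S] {Γ : Type u}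
variable {φ : Γ → S →+* S} (K K' : KS F φ)
variable {Z Z' : Type u} [AddCommGroup Z] [Module (Rg φ) Z] [AddCommGroup Z'] [Module (Rg φ) Z']

/-- the element of `S` that belongs to a vector -/
def KS.yv (K : KS F φ) (v : K.J → F) : S := ∑ j, algebraMap F S (v j) * K.y j

theorem KS.yv_zero : K.yv 0 = 0 := by
  unfold KS.yv
  refine Finset.sum_eq_zero fun j _ => ?_
  rw [Pi.zero_apply, map_zero, zero_mul]

theorem KS.yv_single (j : K.J) : K.yv (Pi.single j 1) = K.y j := by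
  classical
  unfold KS.yv
  rw [Finset.sum_eq_single j]
  · rw [Pi.single_eq_same, map_one, one_mul]
  · intro i _ hi
    rw [Pi.single_eq_of_ne hi, map_zero, zero_mul]
  · intro h
    exact absurd (Finset.mem_univ j) h

theorem KS.yv_add (v w : K.J → F) : K.yv (v + w) = K.yv v + K.yv w := by
  unfold KS.yv
  rw [← Finset.sum_add_distrib]
  refine Finset.sum_congr rfl fun j _ => ?_
  rw [Pi.add_apply, map_add, add_mul]

theorem KS.yv_smul (c : F) (v : K.J → F) : K.yv (c • v) = algebraMap F S c * K.yv v := by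
  unfold KS.yv
  rw [Finset.mul_sum]
  refine Finset.sum_congr rfl fun j _ => ?_
  rw [Pi.smul_apply, smul_eq_mul, map_mul, mul_assoc]

theorem KS.yv_sum {α : Type*} (s : Finset α) (v : α → K.J → F) :
    K.yv (∑ a ∈ s, v a) = ∑ a ∈ s, K.yv (v a) := by
  classical
  induction s using Finset.induction_on with
  | empty => rw [Finset.sum_empty, Finset.sum_empty, K.yv_zero]
  | insert a s ha ih => rw [Finset.sum_insert ha, Finset.sum_insert ha, K.yv_add, ih]

theorem KS.da_wdg (v : K.J → F) (x : K.Tot Z) :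
    K.da (K.op (wdg v) x) + K.op (wdg v) (K.da x) = iot φ (K.yv v) • x := by
  rw [K.da_apply, K.da_apply, map_sum, ← Finset.sum_add_distrib]
  unfold KS.yv
  rw [map_sum, Finset.sum_smul]
  refine Finset.sum_congr rfl fun j _ => ?_
  rw [K.op_iot, ← smul_add, K.op_comp, K.op_comp, ← K.op_add, ctr_wdg, K.op_smul, K.op_id,
    ← mul_smul, ← map_mul, mul_comm]

variable {K K'}

/-- the condition on the elements, for all vectors -/
theorem KS.yv_comp {f : (K.J → F) →ₗ[F] (K'.J → F)}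
    (hy : ∀ (j : K.J) (z : Z'), iot φ (K.y j) • z = iot φ (K'.yv (f (Pi.single j 1))) • z)
    (v : K.J → F) (z : Z') : iot φ (K.yv v) • z = iot φ (K'.yv (f v)) • z := by
  classical
  have hv : v = ∑ j, v j • (Pi.single j 1 : K.J → F) := by
    funext i
    rw [Finset.sum_apply, Finset.sum_eq_single i]
    · rw [Pi.smul_apply, Pi.single_eq_same, smul_eq_mul, mul_one]
    · intro j _ hj
      rw [Pi.smul_apply, Pi.single_eq_of_ne hj.symm, smul_zero]
    · intro h
      exact absurd (Finset.mem_univ i) h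
  have h1 : K'.yv (f v) = ∑ j, algebraMap F S (v j) * K'.yv (f (Pi.single j 1)) := by
    conv_lhs => rw [hv]
    rw [map_sum, K'.yv_sum]
    refine Finset.sum_congr rfl fun j _ => ?_
    rw [map_smul, K'.yv_smul]
  rw [h1]
  unfold KS.yv
  rw [map_sum, map_sum, Finset.sum_smul, Finset.sum_smul]
  refine Finset.sum_congr rfl fun j _ => ?_
  rw [map_mul, map_mul, mul_smul, mul_smul, hy]
  rfl

/-- the map, additive version -/
def KS.hma (f : (K.J → F) →ₗ[F] (K'.J → F)) (q : Z →ₗ[Rg φ] Z') : K.Tot Z →+ K'.Tot Z' :=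
  (K.hop K' (mpH f)).comp (K.tma q)

theorem KS.hma_apply (f : (K.J → F) →ₗ[F] (K'.J → F)) (q : Z →ₗ[Rg φ] Z') (x : K.Tot Z) :
    KS.hma f q x = K.hop K' (mpH f) (K.tma q x) := rfl

theorem KS.hma_iot (f : (K.J → F) →ₗ[F] (K'.J → F)) (q : Z →ₗ[Rg φ] Z') (s : S) (x : K.Tot Z) :
    KS.hma f q (iot φ s • x) = iot φ s • KS.hma f q x := by
  rw [KS.hma_apply, KS.hma_apply, ← K.hop_iot]
  congr 1
  funext A
  rw [K.tma_apply, K.iot_smul, K.iot_smul, map_smul, K.tma_apply]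

theorem KS.hma_gam [FixF F φ] {f : (K.J → F) →ₗ[F] (K'.J → F)}
    (hf : ∀ g v, f (K.rho g v) = K'.rho g (f v)) (q : Z →ₗ[Rg φ] Z') (g : Γ) (x : K.Tot Z) :
    KS.hma f q (gam φ g • x) = gam φ g • KS.hma f q x := by
  obtain ⟨y, hy⟩ : ∃ y : K.Tot Z, y = (fun A => gam φ g • x A : K.Tot Z) := ⟨_, rfl⟩
  have h0 : gam φ g • x = K.op (mpE (K.rho g)) y := by
    rw [hy]
    exact K.gam_smul' g x
  have h1 : K.tma q y = (fun A => gam φ g • K.tma q x A : K.Tot Z') := by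
    funext A
    rw [hy]
    exact map_smul q _ _
  have h2 : mpH f ∘ₗ mpE (K.rho g) = mpE (K'.rho g) ∘ₗ mpH f := by
    rw [← mpH_self, ← mpH_self, ← mpH_comp, ← mpH_comp]
    congr 1
    exact LinearMap.ext fun v => hf g v
  have h3 : K.hop K' (mpH f) (K.tma q y) = (fun B => gam φ g • K.hop K' (mpH f) (K.tma q x) B) := by
    rw [h1]
    exact K.hop_gam_pt K' (mpH f) g (K.tma q x)
  rw [KS.hma_apply, h0, K.tma_op, K.hop_op, h2, ← K.op_hop, h3, KS.hma_apply]
  exact (K'.gam_smul' g _).symm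

theorem KS.hma_da [FixF F φ] {f : (K.J → F) →ₗ[F] (K'.J → F)} (q : Z →ₗ[Rg φ] Z')
    (hy : ∀ (j : K.J) (z : Z'), iot φ (K.y j) • z = iot φ (K'.yv (f (Pi.single j 1))) • z)
    (x : K.Tot Z) : K'.da (KS.hma f q x) = KS.hma f q (K.da x) := by
  classical
  rw [KS.hma_apply, KS.hma_apply, K'.da_apply, K.da_apply, map_sum, map_sum]
  have h1 : ∀ j', iot φ (K'.y j') • K'.op (ctr j') (K.hop K' (mpH f) (K.tma q x)) =
      ∑ i, iot φ (algebraMap F S (f (Pi.single i 1) j') * K'.y j') •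
        K.hop K' (mpH f ∘ₗ ctr i) (K.tma q x) := by
    intro j'
    rw [K.op_hop, ctr_mpH, K.hop_sum, Finset.smul_sum]
    refine Finset.sum_congr rfl fun i _ => ?_
    rw [K.hop_smul, ← mul_smul, ← map_mul, mul_comm]
  rw [Finset.sum_congr rfl fun j' _ => h1 j', Finset.sum_comm]
  refine Finset.sum_congr rfl fun i _ => ?_
  have h2 : K.tma q (iot φ (K.y i) • K.op (ctr i) x) = iot φ (K.y i) • K.tma q (K.op (ctr i) x) := by
    funext A
    rw [K.tma_apply, K.iot_smul, K.iot_smul, map_smul, K.tma_apply]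
  rw [← Finset.sum_smul, ← map_sum, h2, K.hop_iot, K.tma_op, K.hop_op]
  funext B
  rw [K'.iot_smul, K'.iot_smul, hy]
  rfl

theorem KS.hma_mem (f : (K.J → F) →ₗ[F] (K'.J → F)) (q : Z →ₗ[Rg φ] Z') (i : ZMod 2)
    (x : K.Tot Z) (hx : x ∈ K.part Z i) : KS.hma f q x ∈ K'.part Z' i := by
  exact K.hop_mem K' f i (K.tma q x) (K.tmap_mem q i x hx)

/-- the map as a linear map -/
def KS.hml [FixF F φ] {f : (K.J → F) →ₗ[F] (K'.J → F)}
    (hf : ∀ g v, f (K.rho g v) = K'.rho g (f v)) (q : Z →ₗ[Rg φ] Z') :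
    K.Tot Z →ₗ[Rg φ] K'.Tot Z' :=
  mkLin (KS.hma f q) (KS.hma_iot f q) (KS.hma_gam hf q)

theorem KS.hml_apply [FixF F φ] {f : (K.J → F) →ₗ[F] (K'.J → F)}
    (hf : ∀ g v, f (K.rho g v) = K'.rho g (f v)) (q : Z →ₗ[Rg φ] Z') (x : K.Tot Z) :
    KS.hml hf q x = KS.hma f q x := rfl

/-- The map of Koszul complexes. -/
def KS.hmap [FixF F φ] {f : (K.J → F) →ₗ[F] (K'.J → F)}
    (hf : ∀ g v, f (K.rho g v) = K'.rho g (f v)) (q : Z →ₗ[Rg φ] Z')
    (hy : ∀ (j : K.J) (z : Z'), iot φ (K.y j) • z = iot φ (K'.yv (f (Pi.single j 1))) • z) :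
    Ch.Hom (K.ch Z) (K'.ch Z') where
  f0 := (KS.hml hf q).restrict (fun x hx => KS.hma_mem f q 0 x hx)
  f1 := (KS.hml hf q).restrict (fun x hx => KS.hma_mem f q 1 x hx)
  c0 := fun x => Subtype.ext (KS.hma_da q hy x.1)
  c1 := fun x => Subtype.ext (KS.hma_da q hy x.1)

theorem KS.hmap_f0 [FixF F φ] {f : (K.J → F) →ₗ[F] (K'.J → F)}
    (hf : ∀ g v, f (K.rho g v) = K'.rho g (f v)) (q : Z →ₗ[Rg φ] Z')
    (hy : ∀ (j : K.J) (z : Z'), iot φ (K.y j) • z = iot φ (K'.yv (f (Pi.single j 1))) • z)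
    (x : K.part Z 0) : ((KS.hmap hf q hy).f0 x : K'.part Z' 0).1 = KS.hma f q x.1 := rfl

theorem KS.hmap_f1 [FixF F φ] {f : (K.J → F) →ₗ[F] (K'.J → F)}
    (hf : ∀ g v, f (K.rho g v) = K'.rho g (f v)) (q : Z →ₗ[Rg φ] Z')
    (hy : ∀ (j : K.J) (z : Z'), iot φ (K.y j) • z = iot φ (K'.yv (f (Pi.single j 1))) • z)
    (x : K.part Z 1) : ((KS.hmap hf q hy).f1 x : K'.part Z' 1).1 = KS.hma f q x.1 := rfl

end MSA
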