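import Mathlib
import Pool.Agent.MSA.ExI
import Pool.Agent.MSA.Hmp

/-!
# Acyclicity of the ideal part of a Koszul complex

`r l = K.yv (v l)`.  `riG φ Z r i` is the subgroup `r_0 Z + ... + r_(i-1) Z` of `Z`; `K.KI v i x` says that
`x ∈ Λ ⊗ Z` lies in `∑_(l<i) (v_l ∧ (Λ ⊗ Z) + r_l (Λ ⊗ Z))`.  Everything is linear over `S` only; the generators do not occur.

PROOFS.
`riG_iot`: `iot s • iot (r l) • c = iot (r l) • iot s • c` (`S` is commutative).
`ki_add`, `ki_neg`, `ki_zero`: add the coefficients.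
`ki_mono`: extend by zero (`Finset.sum` over a larger range; put `a l = b l = 0` for `l ≥ i`).
`ki_da`: `da (op (wdg (v l)) a) = iot (r l) • a - op (wdg (v l)) (da a)` (`da_wdg`), `da (iot (r l) • b) = iot (r l) • da b`.
`ki_wdg`: `op (wdg w) (op (wdg (v l)) a) = op (wdg (v l)) (- op (wdg w) a)` (`op_comp`, `wdg_comm`), and `op_iot`.
`ki_of_prj`: let `p` satisfy `w - p w ∈ span (v '' Iio n)`. If all coordinates of `op (mpE p) x` lie in `riG .. i` then there are
`k`, `a` with `KI v i k` and `x = k + ∑ l ∈ range n, op (wdg (v l)) (a l)`: `exI` (apply `op` to `id = mpE p + ∑ wdg (v l) ∘ h l`: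
`op_id`, `op_add`, `op_sum`, `op_comp`); the coordinates `(op (mpE p) x) A = ∑_(l<i) iot (r l) • c A l` (choose), so
`op (mpE p) x = ∑_(l<i) iot (r l) • (fun A => c A l)` (`iot_smul`) satisfies `KI v i`.
`ki_prj`: if `p (v l) = 0` for `l < i` and `KI v i x` then all coordinates of `op (mpE p) x` lie in `riG .. i`:
`op (mpE p) (op (wdg (v l)) a) = op (wdg (p (v l)) ∘ mpE p) a = 0` (`mpE_wdg`, `wdg_zero`),
`op (mpE p) (iot (r l) • b) = iot (r l) • op (mpE p) b` (`op_iot`).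
`ki_step`: (regularity) if `iot (r i) • a = k + op (wdg (v i)) c` with `KI v i k` and `i < n` then
`a = k' + op (wdg (v i)) c'` with `KI v i k'`.  Take `p` of `exists_prj` for `i + 1`: `p (v l) = 0` for `l ≤ i`. Then
`iot (r i) • op (mpE p) a = op (mpE p) (iot (r i) • a) = op (mpE p) k` has coordinates in `riG .. i` (`ki_prj`), so by `hr i` the
coordinates of `op (mpE p) a` lie in `riG .. i`; `ki_of_prj` with `n = i + 1` gives
`a = k + ∑ l ∈ range (i+1), op (wdg (v l)) (a l)`, and the terms with `l < i` satisfy `KI v i`.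
`ki_acy`: induction on `i`. `i = 0`: `x = 0`, `y = 0`. Step: `x = k + op (wdg (v i)) a + iot (r i) • b`, `KI v i k`. Put
`y0 = op (wdg (v i)) b` (`KI v (i+1) y0`). `x - da y0 = k + op (wdg (v i)) a'` with `a' = a + da b` (`da_wdg`). As
`da x = 0`, `da (da y0) = 0`: `0 = da k + iot (r i) • a' - op (wdg (v i)) (da a')`; by `ki_da` and `ki_step`,
`a' = k' + op (wdg (v i)) c'`, `KI v i k'`. So `op (wdg (v i)) a' = op (wdg (v i)) k'` (`wdg_wdg`) satisfies `KI v i`
(`ki_wdg`), hence `x - da y0` satisfies `KI v i` and is a cycle: `x - da y0 = da y1`, `KI v i y1` (induction), `y = y0 + y1`.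
-/

set_option autoImplicit false
set_option linter.unusedSectionVars false

noncomputable section

namespace MSA

universe u v w

variable {F : Type u} [Field F] {S : Type u} [CommRing S] [Algebra F S] {Γ : Type u}
variable (φ : Γ → S →+* S) (Z : Type u) [AddCommGroup Z] [Module (Rg φ) Z]

/-- `r_0 Z + ... + r_(i-1) Z` -/
def riG (r : ℕ → S) (i : ℕ) : AddSubgroup Z where
  carrier := {z | ∃ c : ℕ → Z, z = ∑ l ∈ Finset.range i, iot φ (r l) • c l}
  zero_mem' := ⟨fun _ => 0, by simp⟩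
  add_mem' := by
    rintro _ _ ⟨c, rfl⟩ ⟨c', rfl⟩
    exact ⟨fun l => c l + c' l, by simp [Finset.sum_add_distrib]⟩
  neg_mem' := by
    rintro _ ⟨c, rfl⟩
    exact ⟨fun l => - c l, by simp⟩

theorem mem_riG (r : ℕ → S) (i : ℕ) (z : Z) :
    z ∈ riG φ Z r i ↔ ∃ c : ℕ → Z, z = ∑ l ∈ Finset.range i, iot φ (r l) • c l := Iff.rfl

/-- weakly regular sequences -/
def WReg (r : ℕ → S) (n : ℕ) : Prop :=
  ∀ i < n, ∀ z : Z, iot φ (r i) • z ∈ riG φ Z r i → z ∈ riG φ Z r i

variable {φ Z}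

theorem riG_iot (r : ℕ → S) (i : ℕ) (s : S) (z : Z) (hz : z ∈ riG φ Z r i) :
    iot φ s • z ∈ riG φ Z r i := by
  obtain ⟨c, rfl⟩ := hz
  refine ⟨fun l => iot φ s • c l, ?_⟩
  rw [Finset.smul_sum]
  refine Finset.sum_congr rfl fun l _ => ?_
  rw [← mul_smul, ← mul_smul, ← map_mul, ← map_mul, mul_comm]

variable (K : KS F φ)

/-- the ideal part -/
def KS.KI (v : ℕ → K.J → F) (i : ℕ) (x : K.Tot Z) : Prop :=
  ∃ a b : ℕ → K.Tot Z,
    x = ∑ l ∈ Finset.range i, (K.op (wdg (v l)) (a l) + iot φ (K.yv (v l)) • b l)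

private theorem tot_sum_apply {ι : Type*} (s : Finset ι) (f : ι → K.Tot Z) (A : Finset K.J) :
    (∑ l ∈ s, f l) A = ∑ l ∈ s, f l A :=
  Finset.sum_apply A s (f : ι → Finset K.J → Z)

private theorem tot_add_apply (x y : K.Tot Z) (A : Finset K.J) : (x + y) A = x A + y A := rfl

private theorem op_zero' (x : K.Tot Z) : K.op (0 : EA F K.J →ₗ[F] EA F K.J) x = 0 :=
  K.hop_zero K x

private theorem op_neg' (f : EA F K.J →ₗ[F] EA F K.J) (x : K.Tot Z) :
    K.op (-f) x = - K.op f x := K.hop_neg K f x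

theorem ki_zero (v : ℕ → K.J → F) (i : ℕ) : K.KI v i (0 : K.Tot Z) := by
  refine ⟨fun _ => 0, fun _ => 0, ?_⟩
  symm
  refine Finset.sum_eq_zero fun l _ => ?_
  rw [map_zero, smul_zero, add_zero]

theorem ki_add {v : ℕ → K.J → F} {i : ℕ} {x y : K.Tot Z} (hx : K.KI v i x) (hy : K.KI v i y) :
    K.KI v i (x + y) := by
  obtain ⟨a, b, rfl⟩ := hx
  obtain ⟨a', b', rfl⟩ := hy
  refine ⟨fun l => a l + a' l, fun l => b l + b' l, ?_⟩
  rw [← Finset.sum_add_distrib]
  refine Finset.sum_congr rfl fun l _ => ?_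
  rw [map_add, smul_add]
  abel

theorem ki_neg {v : ℕ → K.J → F} {i : ℕ} {x : K.Tot Z} (hx : K.KI v i x) :
    K.KI v i (-x) := by
  obtain ⟨a, b, rfl⟩ := hx
  refine ⟨fun l => - a l, fun l => - b l, ?_⟩
  rw [← Finset.sum_neg_distrib]
  refine Finset.sum_congr rfl fun l _ => ?_
  rw [map_neg, smul_neg]
  abel

theorem ki_mono {v : ℕ → K.J → F} {i j : ℕ} (hij : i ≤ j) {x : K.Tot Z} (hx : K.KI v i x) :
    K.KI v j x := by
  obtain ⟨a, b, rfl⟩ := hx
  refine ⟨fun l => if l < i then a l else 0, fun l => if l < i then b l else 0, ?_⟩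
  rw [← Finset.sum_subset (Finset.range_mono hij) (f := fun l =>
    K.op (wdg (v l)) (if l < i then a l else 0) + iot φ (K.yv (v l)) • (if l < i then b l else 0))]
  · refine Finset.sum_congr rfl fun l hl => ?_
    rw [if_pos (Finset.mem_range.mp hl), if_pos (Finset.mem_range.mp hl)]
  · intro l _ hl
    have hl' : ¬ l < i := fun h => hl (Finset.mem_range.mpr h)
    show K.op (wdg (v l)) (if l < i then a l else 0) +
      iot φ (K.yv (v l)) • (if l < i then b l else 0) = 0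
    rw [if_neg hl', if_neg hl', map_zero, smul_zero, add_zero]

private theorem ki_wdg_self (v : ℕ → K.J → F) {i l : ℕ} (hl : l < i) (a : K.Tot Z) :
    K.KI v i (K.op (wdg (v l)) a) := by
  refine ki_mono K (Nat.succ_le_of_lt hl) ⟨fun m => if m = l then a else 0, fun _ => 0, ?_⟩
  rw [Finset.sum_range_succ, Finset.sum_eq_zero, zero_add]
  · show K.op (wdg (v l)) a =
      K.op (wdg (v l)) (if l = l then a else 0) + iot φ (K.yv (v l)) • (0 : K.Tot Z)
    rw [if_pos rfl, smul_zero, add_zero]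
  · intro m hm
    show K.op (wdg (v m)) (if m = l then a else 0) + iot φ (K.yv (v m)) • (0 : K.Tot Z) = 0
    rw [if_neg (Finset.mem_range.mp hm).ne, map_zero, smul_zero, add_zero]

private theorem ki_sum_wdg (v : ℕ → K.J → F) (i : ℕ) (a : ℕ → K.Tot Z) :
    K.KI v i (∑ l ∈ Finset.range i, K.op (wdg (v l)) (a l)) := by
  refine ⟨a, fun _ => 0, ?_⟩
  refine Finset.sum_congr rfl fun l _ => ?_
  rw [smul_zero, add_zero]

theorem ki_da {v : ℕ → K.J → F} {i : ℕ} {x : K.Tot Z} (hx : K.KI v i x) :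
    K.KI v i (K.da x) := by
  obtain ⟨a, b, rfl⟩ := hx
  refine ⟨fun l => - K.da (a l), fun l => a l + K.da (b l), ?_⟩
  rw [map_sum]
  refine Finset.sum_congr rfl fun l _ => ?_
  rw [map_add, K.da_iot, map_neg, smul_add, ← K.da_wdg (v l) (a l)]
  abel

theorem ki_wdg {v : ℕ → K.J → F} {i : ℕ} (w : K.J → F) {x : K.Tot Z} (hx : K.KI v i x) :
    K.KI v i (K.op (wdg w) x) := by
  obtain ⟨a, b, rfl⟩ := hx
  refine ⟨fun l => - K.op (wdg w) (a l), fun l => K.op (wdg w) (b l), ?_⟩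
  rw [map_sum]
  refine Finset.sum_congr rfl fun l _ => ?_
  rw [map_add, K.op_iot, K.op_comp, map_neg, K.op_comp, wdg_comm w (v l), op_neg']

theorem ki_of_prj {v : ℕ → K.J → F} (i n : ℕ) (p : (K.J → F) →ₗ[F] (K.J → F))
    (hp : ∀ w, w - p w ∈ Submodule.span F (v '' Set.Iio n)) (x : K.Tot Z)
    (hx : ∀ A, K.op (mpE p) x A ∈ riG φ Z (fun l => K.yv (v l)) i) :
    ∃ (k : K.Tot Z) (a : ℕ → K.Tot Z), K.KI v i k ∧
      x = k + ∑ l ∈ Finset.range n, K.op (wdg (v l)) (a l) := by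
  obtain ⟨h, hh⟩ := exI v n p hp
  choose c hc using hx
  refine ⟨K.op (mpE p) x, fun l => K.op (h l) x, ⟨fun _ => 0, fun l => (fun A => c A l : K.Tot Z),
    ?_⟩, ?_⟩
  · funext A
    rw [hc A, tot_sum_apply]
    refine Finset.sum_congr rfl fun l _ => ?_
    rw [map_zero, zero_add, K.iot_smul]
  · conv_lhs => rw [← K.op_id x, hh, K.op_add, K.op_sum]
    congr 1
    refine Finset.sum_congr rfl fun l _ => ?_
    rw [K.op_comp]

private theorem op_prj (p : (K.J → F) →ₗ[F] (K.J → F)) (w : K.J → F) (hp : p w = 0)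
    (a : K.Tot Z) : K.op (mpE p) (K.op (wdg w) a) = 0 := by
  rw [K.op_comp, mpE_wdg, hp, wdg_zero, LinearMap.zero_comp, op_zero']

theorem ki_prj {v : ℕ → K.J → F} (i : ℕ) (p : (K.J → F) →ₗ[F] (K.J → F))
    (hp : ∀ l < i, p (v l) = 0) {x : K.Tot Z} (hx : K.KI v i x) (A : Finset K.J) :
    K.op (mpE p) x A ∈ riG φ Z (fun l => K.yv (v l)) i := by
  obtain ⟨a, b, rfl⟩ := hx
  refine ⟨fun l => K.op (mpE p) (b l) A, ?_⟩
  rw [map_sum, tot_sum_apply]
  refine Finset.sum_congr rfl fun l hl => ?_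
  rw [map_add, op_prj K p (v l) (hp l (Finset.mem_range.mp hl)), zero_add, K.op_iot, K.iot_smul]

theorem ki_step {v : ℕ → K.J → F} {n : ℕ} (hr : WReg φ Z (fun l => K.yv (v l)) n) {i : ℕ}
    (hi : i < n) (a k c : K.Tot Z) (hk : K.KI v i k)
    (h : iot φ (K.yv (v i)) • a = k + K.op (wdg (v i)) c) :
    ∃ k' c' : K.Tot Z, K.KI v i k' ∧ a = k' + K.op (wdg (v i)) c' := by
  obtain ⟨p, hp0, hp1⟩ := exists_prj v (i + 1)
  have h1 : ∀ A, K.op (mpE p) a A ∈ riG φ Z (fun l => K.yv (v l)) i := by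
    intro A
    refine hr i hi _ ?_
    show iot φ (K.yv (v i)) • K.op (mpE p) a A ∈ _
    rw [← K.iot_smul, ← K.op_iot, h, map_add, op_prj K p (v i) (hp0 i (Nat.lt_succ_self i)),
      add_zero]
    exact ki_prj K i p (fun l hl => hp0 l (Nat.lt_succ_of_lt hl)) hk A
  obtain ⟨k1, a1, hk1, ha1⟩ := ki_of_prj K i (i + 1) p hp1 a h1
  refine ⟨k1 + ∑ l ∈ Finset.range i, K.op (wdg (v l)) (a1 l), a1 i,
    ki_add K hk1 (ki_sum_wdg K v i a1), ?_⟩
  rw [ha1, Finset.sum_range_succ, add_assoc]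

/-- The ideal part is acyclic. -/
theorem ki_acy {v : ℕ → K.J → F} {n : ℕ} (hr : WReg φ Z (fun l => K.yv (v l)) n) (i : ℕ)
    (hi : i ≤ n) (x : K.Tot Z) (hx : K.KI v i x) (hd : K.da x = 0) :
    ∃ y : K.Tot Z, K.KI v i y ∧ K.da y = x := by
  induction i generalizing x with
  | zero =>
    obtain ⟨a, b, rfl⟩ := hx
    exact ⟨0, ki_zero K v 0, by simp⟩
  | succ i ih =>
    obtain ⟨a0, b0, hx⟩ := hx
    rw [Finset.sum_range_succ] at hx
    have hk : K.KI v i (∑ l ∈ Finset.range i,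
      (K.op (wdg (v l)) (a0 l) + iot φ (K.yv (v l)) • b0 l)) := ⟨a0, b0, rfl⟩
    generalize (∑ l ∈ Finset.range i,
      (K.op (wdg (v l)) (a0 l) + iot φ (K.yv (v l)) • b0 l)) = k at hx hk
    generalize a0 i = a at hx
    generalize b0 i = b at hx
    -- the first approximation
    have hy0 : K.KI v (i + 1) (K.op (wdg (v i)) b) := ki_wdg_self K v (Nat.lt_succ_self i) b
    have hx1 : x - K.da (K.op (wdg (v i)) b) = k + K.op (wdg (v i)) (a + K.da b) := by
      rw [hx, map_add, ← K.da_wdg (v i) b]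
      abel
    have hd1 : K.da (x - K.da (K.op (wdg (v i)) b)) = 0 := by
      rw [map_sub, hd, K.da_da, sub_zero]
    generalize a + K.da b = a' at hx1
    rw [hx1, map_add] at hd1
    have hd2 := K.da_wdg (v i) a'
    have h2 : iot φ (K.yv (v i)) • a' = - K.da k + K.op (wdg (v i)) (K.da a') := by
      rw [← hd2]
      have : K.da (K.op (wdg (v i)) a') = - K.da k := by
        rw [eq_neg_iff_add_eq_zero, add_comm]
        exact hd1
      rw [this]
    obtain ⟨k', c', hk', ha'⟩ := ki_step K hr (Nat.lt_of_succ_le hi) a' (- K.da k) (K.da a')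
      (ki_neg K (ki_da K hk)) h2
    have h3 : K.op (wdg (v i)) a' = K.op (wdg (v i)) k' := by
      rw [ha', map_add, K.op_comp, wdg_wdg, op_zero', add_zero]
    have h4 : K.KI v i (x - K.da (K.op (wdg (v i)) b)) := by
      rw [hx1, h3]
      exact ki_add K hk (ki_wdg K (v i) hk')
    obtain ⟨y1, hy1, hy1'⟩ := ih (Nat.le_of_succ_le hi) _ h4 (by
      rw [map_sub, hd, K.da_da, sub_zero])
    refine ⟨K.op (wdg (v i)) b + y1, ki_add K hy0 (ki_mono K (Nat.le_succ i) hy1), ?_⟩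
    rw [map_add, hy1']
    abel

end MSA
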