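import Mathlib
import Pool.Agent.MSA.Cor
import Pool.Agent.MSA.Qis

/-!
# The collapse theorem

`f : F^J → F^J'` surjective and equivariant, with kernel spanned by `v 0, ..., v (n-1)`; `q : Z → Z'` surjective with kernel
`r_0 Z + ... + r_(n-1) Z`, `r l = K.yv (v l)`, and `r_0, ..., r_(n-1)` is a weakly regular sequence on `Z`. Then
`Λ(f) ⊗ q : K.ch Z → K'.ch Z'` is a quasi-isomorphism.

PROOFS.
`pp_mem`, `pp_add`: clear. `pp_self`: `x` in `part i` iff `pp i x = x`. `pp_split`: `x = pp i x + pp (i+1) x` (the elements of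
`ZMod 2` are `i`, `i + 1`). `pp_da`: `da (pp i x)` is in `part (i+1)`, `da (pp (i+1) x)` in `part i` (`d_mem`), apply `pp (i+1)` to
`da x = da (pp i x) + da (pp (i+1) x)`. `pp_hma`: the same with `hma_mem`.
`col_ki`: let `s` be a section of `f` (`exists_sec`), `p = s ∘ f`: `w - p w ∈ ker f = span (v '' Iio n)`. The coordinates of
`op (mpE p) x = hop (mpH s) (hop (mpH f) x)` (`hop_comp`, `mpH_comp`, `mpH_self`) lie in `riG .. n`: `hop_coeff` for
`N = riG φ Z r n` (stable by `riG_iot`), as `q ((hop (mpH f) x) B) = (hma f q x) B = 0` (`hop_tma`) and `hk`. Then `ki_of_prj` with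
`i = n`: `x = k + ∑_(l<n) op (wdg (v l)) (a l)`, which is `KI v n` (`ki_add`).
`ki_col`: `hma f q (op (wdg (v l)) a) = hop (mpH f ∘ wdg (v l)) .. = hop (wdg (f (v l)) ∘ mpH f) .. = 0` as `f (v l) = 0`
(`hop_tma`, `tma_op`, `hop_op`, `mpH_wdg`, `wdg_zero`, `hop_zero`); `hma f q (iot (r l) • b) = iot (K.yv (v l)) • hma f q b`
(`hma_iot`), whose coordinates are `iot (K.yv (v l)) • z = iot (K'.yv (f (v l))) • z = 0` (`yv_comp`, `yv_zero`).
`hma_surj`: for `y` choose `y'` with `q (y' A) = y A` and `x = K'.hop K (mpH s) y'`; then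
`hma f q x = hop (mpH f) (hop (mpH s) (tma q y')) = hop (mpH (f ∘ s)) y = y` (`hop_tma`, `hop_comp`, `mpH_id`).
`col_acy`: `col_ki`, `ki_acy` with `i = n`, `ki_col`, then `pp (i+1)` of the result (`pp_da`, `pp_hma`, `pp_self`).
`col`: `Qis.qis` for `KS.hmap hf q hy`.
-/

set_option autoImplicit false
set_option linter.unusedSectionVars false

noncomputable section

namespace MSA

universe u v w

variable {F : Type u} [Field F] {S : Type u} [CommRing S] [Algebra F S] {Γ : Type u}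
variable {φ : Γ → S →+* S} [FixF F φ]
variable {Z Z' : Type u} [AddCommGroup Z] [Module (Rg φ) Z] [AddCommGroup Z'] [Module (Rg φ) Z']

section parity

variable (K : KS F φ)

/-- projection to the even or odd part -/
def KS.pp (i : ZMod 2) (x : K.Tot Z) : K.Tot Z :=
  fun A => if (A.card : ZMod 2) = i then x A else 0

private theorem zm_ne : ∀ c i : ZMod 2, c = i → ¬ c = i + 1 := by decide

private theorem zm_eq : ∀ c i : ZMod 2, ¬ c = i → c = i + 1 := by decide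

private theorem zm_ne' : ∀ i : ZMod 2, ¬ i = i + 1 := by decide

private theorem zm_add : ∀ i : ZMod 2, i + 1 + 1 = i := by decide

private theorem pp_add (i : ZMod 2) (x y : K.Tot Z) : K.pp i (x + y) = K.pp i x + K.pp i y := by
  funext A
  have h2 : (K.pp i x + K.pp i y) A = K.pp i x A + K.pp i y A := rfl
  rw [h2]
  by_cases h : (A.card : ZMod 2) = i
  · have h1 : K.pp i x A = x A := if_pos h
    have h3 : K.pp i y A = y A := if_pos h
    have h4 : K.pp i (x + y) A = (x + y) A := if_pos h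
    rw [h1, h3, h4]
    rfl
  · have h1 : K.pp i x A = 0 := if_neg h
    have h3 : K.pp i y A = 0 := if_neg h
    have h4 : K.pp i (x + y) A = 0 := if_neg h
    rw [h1, h3, h4, add_zero]

private theorem pp_out {i j : ZMod 2} (hij : ¬ i = j) {x : K.Tot Z} (hx : x ∈ K.part Z i) :
    K.pp j x = 0 := by
  funext A
  by_cases h : (A.card : ZMod 2) = j
  · have h1 : K.pp j x A = x A := if_pos h
    rw [h1, hx A (fun h2 => hij (h2.symm.trans h))]
    rfl
  · exact if_neg h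

private theorem pp_zero' (j : ZMod 2) : K.pp j (0 : K.Tot Z) = 0 := by
  funext A
  by_cases h : (A.card : ZMod 2) = j
  · have h1 : K.pp j (0 : K.Tot Z) A = (0 : K.Tot Z) A := if_pos h
    rw [h1]
  · exact if_neg h

theorem pp_mem (i : ZMod 2) (x : K.Tot Z) : K.pp i x ∈ K.part Z i := by
  intro A hA
  exact if_neg hA

theorem pp_self (i : ZMod 2) (x : K.Tot Z) (hx : x ∈ K.part Z i) : K.pp i x = x := by
  funext A
  by_cases h : (A.card : ZMod 2) = i
  · exact if_pos h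
  · have h1 : K.pp i x A = 0 := if_neg h
    rw [h1, hx A h]

theorem pp_split (i : ZMod 2) (x : K.Tot Z) : x = K.pp i x + K.pp (i + 1) x := by
  funext A
  have h2 : (K.pp i x + K.pp (i + 1) x) A = K.pp i x A + K.pp (i + 1) x A := rfl
  rw [h2]
  by_cases h : (A.card : ZMod 2) = i
  · have h1 : K.pp i x A = x A := if_pos h
    have h3 : K.pp (i + 1) x A = 0 := if_neg (zm_ne _ _ h)
    rw [h1, h3, add_zero]
  · have h1 : K.pp i x A = 0 := if_neg h
    have h3 : K.pp (i + 1) x A = x A := if_pos (zm_eq _ _ h)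
    rw [h1, h3, zero_add]

theorem pp_da (i : ZMod 2) (x : K.Tot Z) : K.da (K.pp i x) = K.pp (i + 1) (K.da x) := by
  have h1 : K.da (K.pp i x) ∈ K.part Z (i + 1) := K.d_mem Z (pp_mem K i x)
  have h2 : K.da (K.pp (i + 1) x) ∈ K.part Z (i + 1 + 1) := K.d_mem Z (pp_mem K (i + 1) x)
  conv_rhs => rw [pp_split K i x, map_add, pp_add, pp_self K _ _ h1,
    pp_out K (fun h => zm_ne' _ h.symm) h2, add_zero]

end parity

variable {K K' : KS F φ}

theorem pp_hma (f : (K.J → F) →ₗ[F] (K'.J → F)) (q : Z →ₗ[Rg φ] Z') (i : ZMod 2) (x : K.Tot Z) :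
    KS.hma f q (K.pp i x) = K'.pp i (KS.hma f q x) := by
  have h1 : KS.hma f q (K.pp i x) ∈ K'.part Z' i := KS.hma_mem f q i _ (pp_mem K i x)
  have h2 : KS.hma f q (K.pp (i + 1) x) ∈ K'.part Z' (i + 1) :=
    KS.hma_mem f q (i + 1) _ (pp_mem K (i + 1) x)
  conv_rhs => rw [pp_split K i x, map_add, pp_add, pp_self K' _ _ h1,
    pp_out K' (fun h => zm_ne' _ h.symm) h2, add_zero]

theorem hma_surj {f : (K.J → F) →ₗ[F] (K'.J → F)} (hfs : Function.Surjective f)
    {q : Z →ₗ[Rg φ] Z'} (hq : Function.Surjective q) :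
    Function.Surjective (KS.hma (K := K) (K' := K') f q) := by
  intro y
  choose g hg using hq
  obtain ⟨s, hs⟩ := exists_sec f hfs
  have hfs' : f ∘ₗ s = LinearMap.id := LinearMap.ext fun w => hs w
  refine ⟨K'.hop K (mpH s) (fun A => g (y A) : K'.Tot Z), ?_⟩
  rw [KS.hma_apply, K'.hop_tma K, K'.hop_comp K K', ← mpH_comp, hfs', mpH_id, KS.hop_self,
    K'.op_id]
  funext A
  rw [KS.tma_apply]
  exact hg (y A)

theorem col_ki {f : (K.J → F) →ₗ[F] (K'.J → F)} (hfs : Function.Surjective f)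
    {q : Z →ₗ[Rg φ] Z'} {v : ℕ → K.J → F} {n : ℕ}
    (hv : Submodule.span F (v '' Set.Iio n) = LinearMap.ker f)
    (hk : ∀ z : Z, q z = 0 → z ∈ riG φ Z (fun l => K.yv (v l)) n) (x : K.Tot Z)
    (hx : KS.hma (K := K) (K' := K') f q x = 0) : K.KI v n x := by
  obtain ⟨s, hs⟩ := exists_sec f hfs
  have hp : ∀ w, w - (s ∘ₗ f) w ∈ Submodule.span F (v '' Set.Iio n) := by
    intro w
    rw [hv, LinearMap.mem_ker, map_sub, LinearMap.comp_apply, hs, sub_self]
  have hw : ∀ A, K.hop K' (mpH f) x A ∈ riG φ Z (fun l => K.yv (v l)) n := by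
    intro A
    apply hk
    have h1 := congrFun (K.hop_tma K' q (mpH f) x) A
    rw [KS.tma_apply] at h1
    rw [h1, ← KS.hma_apply, hx]
    rfl
  obtain ⟨k, a, hk', hx'⟩ := ki_of_prj K n n (s ∘ₗ f) hp x (by
    intro A
    rw [← KS.hop_self, ← mpH_self, mpH_comp, ← K.hop_comp K' K]
    exact K'.hop_coeff K (mpH s) (riG φ Z (fun l => K.yv (v l)) n)
      (fun c z hz => riG_iot _ _ _ _ hz) _ hw A)
  rw [hx']
  refine ki_add K hk' ⟨a, fun _ => 0, ?_⟩
  refine Finset.sum_congr rfl fun l _ => ?_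
  rw [smul_zero, add_zero]

theorem ki_col {f : (K.J → F) →ₗ[F] (K'.J → F)} {q : Z →ₗ[Rg φ] Z'}
    (hy : ∀ (j : K.J) (z : Z'), iot φ (K.y j) • z = iot φ (K'.yv (f (Pi.single j 1))) • z)
    {v : ℕ → K.J → F} {n : ℕ} (hv : ∀ l < n, f (v l) = 0) (x : K.Tot Z)
    (hx : K.KI v n x) : KS.hma (K := K) (K' := K') f q x = 0 := by
  obtain ⟨a, c, rfl⟩ := hx
  rw [map_sum]
  refine Finset.sum_eq_zero fun l hl => ?_
  have hl' : f (v l) = 0 := hv l (Finset.mem_range.1 hl)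
  have h1 : KS.hma (K := K) (K' := K') f q (K.op (wdg (v l)) (a l)) = 0 := by
    rw [KS.hma_apply, K.tma_op, K.hop_op K', mpH_wdg, hl', wdg_zero, LinearMap.zero_comp,
      K.hop_zero K']
  have h2 : KS.hma (K := K) (K' := K') f q (iot φ (K.yv (v l)) • c l) = 0 := by
    rw [KS.hma_iot]
    funext A
    rw [KS.iot_smul, KS.yv_comp hy (v l), hl', KS.yv_zero, map_zero, zero_smul]
    rfl
  rw [map_add, h1, h2, add_zero]

theorem col_acy {f : (K.J → F) →ₗ[F] (K'.J → F)} (hfs : Function.Surjective f)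
    {q : Z →ₗ[Rg φ] Z'}
    (hy : ∀ (j : K.J) (z : Z'), iot φ (K.y j) • z = iot φ (K'.yv (f (Pi.single j 1))) • z)
    {v : ℕ → K.J → F} {n : ℕ} (hv : Submodule.span F (v '' Set.Iio n) = LinearMap.ker f)
    (hr : WReg φ Z (fun l => K.yv (v l)) n)
    (hk : ∀ z : Z, q z = 0 → z ∈ riG φ Z (fun l => K.yv (v l)) n) (i : ZMod 2) (x : K.Tot Z)
    (hxi : x ∈ K.part Z i) (hx : KS.hma (K := K) (K' := K') f q x = 0) (hd : K.da x = 0) :
    ∃ y ∈ K.part Z (i + 1), KS.hma (K := K) (K' := K') f q y = 0 ∧ K.da y = x := by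
  have hv' : ∀ l < n, f (v l) = 0 := by
    intro l hl
    have h1 : v l ∈ LinearMap.ker f := by
      rw [← hv]
      exact Submodule.subset_span ⟨l, hl, rfl⟩
    exact LinearMap.mem_ker.1 h1
  obtain ⟨y, hy1, hy2⟩ := ki_acy K hr n le_rfl x (col_ki hfs hv hk x hx) hd
  refine ⟨K.pp (i + 1) y, pp_mem K _ y, ?_, ?_⟩
  · rw [pp_hma, ki_col hy hv' y hy1, pp_zero']
  · rw [pp_da, hy2, zm_add, pp_self K i x hxi]

variable (K K')

/-- THE COLLAPSE THEOREM. -/
theorem KS.col (f : (K.J → F) →ₗ[F] (K'.J → F)) (hf : ∀ g v, f (K.rho g v) = K'.rho g (f v))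
    (hfs : Function.Surjective f) (q : Z →ₗ[Rg φ] Z') (hq : Function.Surjective q)
    (hy : ∀ (j : K.J) (z : Z'), iot φ (K.y j) • z = iot φ (K'.yv (f (Pi.single j 1))) • z)
    (v : ℕ → K.J → F) (n : ℕ) (hv : Submodule.span F (v '' Set.Iio n) = LinearMap.ker f)
    (hr : WReg φ Z (fun l => K.yv (v l)) n)
    (hk : ∀ z : Z, q z = 0 → z ∈ riG φ Z (fun l => K.yv (v l)) n) :
    Nonempty ((K.ch Z).H0 ≃ₗ[Rg φ] (K'.ch Z').H0) ∧
      Nonempty ((K.ch Z).H1 ≃ₗ[Rg φ] (K'.ch Z').H1) := by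
  refine qis (KS.hmap hf q hy) ?_ ?_ ?_ ?_
  · intro y
    obtain ⟨x, hx⟩ := hma_surj (K := K) (K' := K') hfs hq y.1
    refine ⟨⟨K.pp 0 x, pp_mem K 0 x⟩, Subtype.ext ?_⟩
    rw [KS.hmap_f0]
    change KS.hma f q (K.pp 0 x) = y.1
    rw [pp_hma, hx, pp_self K' 0 y.1 y.2]
  · intro y
    obtain ⟨x, hx⟩ := hma_surj (K := K) (K' := K') hfs hq y.1
    refine ⟨⟨K.pp 1 x, pp_mem K 1 x⟩, Subtype.ext ?_⟩
    rw [KS.hmap_f1]
    change KS.hma f q (K.pp 1 x) = y.1
    rw [pp_hma, hx, pp_self K' 1 y.1 y.2]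
  · intro x hx hd
    have hx' : KS.hma (K := K) (K' := K') f q x.1 = 0 := congrArg Subtype.val hx
    have hd' : K.da x.1 = 0 := congrArg Subtype.val hd
    obtain ⟨y, hy1, hy2, hy3⟩ := col_acy hfs hy hv hr hk 0 x.1 x.2 hx' hd'
    rw [zero_add] at hy1
    exact ⟨⟨y, hy1⟩, Subtype.ext hy2, Subtype.ext hy3⟩
  · intro x hx hd
    have hx' : KS.hma (K := K) (K' := K') f q x.1 = 0 := congrArg Subtype.val hx
    have hd' : K.da x.1 = 0 := congrArg Subtype.val hd
    obtain ⟨y, hy1, hy2, hy3⟩ := col_acy hfs hy hv hr hk 1 x.1 x.2 hx' hd'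
    rw [show (1 : ZMod 2) + 1 = 0 from rfl] at hy1
    exact ⟨⟨y, hy1⟩, Subtype.ext hy2, Subtype.ext hy3⟩

end MSA
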