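import Mathlib
import Pool.Agent.MSA.Col

/-!
# Sums of Koszul data

PROOFS.
`col_snd`: `KS.col` for `f = KS.psnd K1 K2` (coordinates in the second summand): `hf`: both sides are `K2.rho g (v ∘ inr)`;
surjective: `Sum.elim 0 w`; `hy`: for `j = inl i` one has `psnd (Pi.single (inl i) 1) = 0`, so both sides are `0` (`yv_zero`);
for `j = inr i` one has `psnd (Pi.single (inr i) 1) = Pi.single i 1` and `yv_single`. The vectors are
`v' l = Sum.elim (v l) 0`; `yv (v' l) = K1.yv (v l)` (`Fintype.sum_sum_type`); the span of the `v' l` is the image of the span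
`⊤` of the `v l` under the linear map `w ↦ Sum.elim w 0` (`Submodule.map_span`, `Set.image_image`), i.e. its range, which is the
kernel of `psnd`. `col_fst` in the same way.
(In `hy` of `KS.add` and with `Pi.single` beware of the decidability instances: they come from the linear order `lJ`;
`Subsingleton.elim` or `Pi.single_apply`/`convert` help, as in the definition of `A.kT`.)
-/

set_option autoImplicit false
set_option linter.unusedSectionVars false

noncomputable section

namespace MSA

universe u v w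

variable {F : Type u} [Field F] {S : Type u} [CommRing S] [Algebra F S] {Γ : Type u}
variable {φ : Γ → S →+* S}

/-- lexicographic order on the sum -/
@[reducible] def sumOrd (I J : Type) [LinearOrder I] [LinearOrder J] : LinearOrder (I ⊕ J) :=
  LinearOrder.lift' (fun x : I ⊕ J => (toLex x : I ⊕ₗ J)) (fun _ _ h => toLex.injective h)

section

variable {I J : Type}

/-- block operators -/
def blk (f : (I → F) →ₗ[F] (I → F)) (g : (J → F) →ₗ[F] (J → F)) :
    (I ⊕ J → F) →ₗ[F] (I ⊕ J → F) where
  toFun v := Sum.elim (f (fun i => v (Sum.inl i))) (g (fun j => v (Sum.inr j)))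
  map_add' v w := by
    funext x
    cases x with
    | inl i => exact congrFun (map_add f _ _) i
    | inr j => exact congrFun (map_add g _ _) j
  map_smul' c v := by
    funext x
    cases x with
    | inl i => exact congrFun (map_smul f _ _) i
    | inr j => exact congrFun (map_smul g _ _) j

end

theorem add_hy (K1 K2 : KS F φ) (g : Γ) (j : K1.J ⊕ K2.J) (d : DecidableEq (K1.J ⊕ K2.J)) :
    φ g (Sum.elim K1.y K2.y j) = ∑ i, algebraMap F S (blk (K1.rho g) (K2.rho g)
      (Pi.single j 1) i) * Sum.elim K1.y K2.y i := by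
  classical
  rw [Fintype.sum_sum_type]
  cases j with
  | inl j =>
    have h1 : ∀ i : K1.J, (blk (K1.rho g) (K2.rho g) (Pi.single (Sum.inl j) 1 : K1.J ⊕ K2.J → F))
        (Sum.inl i) = K1.rho g (Pi.single j 1) i := by
      intro i
      show K1.rho g (fun i => (Pi.single (Sum.inl j) 1 : K1.J ⊕ K2.J → F) (Sum.inl i)) i = _
      refine congrFun (congrArg _ ?_) i
      funext i'
      simp only [Pi.single_apply, Sum.inl.injEq]
    have h2 : ∀ i : K2.J, (blk (K1.rho g) (K2.rho g) (Pi.single (Sum.inl j) 1 : K1.J ⊕ K2.J → F))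
        (Sum.inr i) = 0 := by
      intro i
      show K2.rho g (fun i => (Pi.single (Sum.inl j) 1 : K1.J ⊕ K2.J → F) (Sum.inr i)) i = _
      have h3 : (fun i => (Pi.single (Sum.inl j) 1 : K1.J ⊕ K2.J → F) (Sum.inr i)) = 0 := by
        funext i'
        simp [Pi.single_apply]
      rw [h3, map_zero]
      rfl
    simp only [h1, h2, map_zero, zero_mul, Finset.sum_const_zero, add_zero, Sum.elim_inl]
    exact K1.hy g j
  | inr j =>
    have h1 : ∀ i : K1.J, (blk (K1.rho g) (K2.rho g) (Pi.single (Sum.inr j) 1 : K1.J ⊕ K2.J → F))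
        (Sum.inl i) = 0 := by
      intro i
      show K1.rho g (fun i => (Pi.single (Sum.inr j) 1 : K1.J ⊕ K2.J → F) (Sum.inl i)) i = _
      have h3 : (fun i => (Pi.single (Sum.inr j) 1 : K1.J ⊕ K2.J → F) (Sum.inl i)) = 0 := by
        funext i'
        simp [Pi.single_apply]
      rw [h3, map_zero]
      rfl
    have h2 : ∀ i : K2.J, (blk (K1.rho g) (K2.rho g) (Pi.single (Sum.inr j) 1 : K1.J ⊕ K2.J → F))
        (Sum.inr i) = K2.rho g (Pi.single j 1) i := by
      intro i
      show K2.rho g (fun i => (Pi.single (Sum.inr j) 1 : K1.J ⊕ K2.J → F) (Sum.inr i)) i = _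
      refine congrFun (congrArg _ ?_) i
      funext i'
      simp only [Pi.single_apply, Sum.inr.injEq]
    simp only [h1, h2, map_zero, zero_mul, Finset.sum_const_zero, zero_add, Sum.elim_inr]
    exact K2.hy g j

/-- the sum of two Koszul data -/
def KS.add (K1 K2 : KS F φ) : KS F φ where
  J := K1.J ⊕ K2.J
  lJ := sumOrd K1.J K2.J
  rho g := blk (K1.rho g) (K2.rho g)
  y := Sum.elim K1.y K2.y
  hy := fun g j => add_hy K1 K2 g j _

/-- coordinates in the first summand -/
def KS.pfst (K1 K2 : KS F φ) : ((K1.add K2).J → F) →ₗ[F] (K1.J → F) where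
  toFun v i := v (Sum.inl i)
  map_add' _ _ := rfl
  map_smul' _ _ := rfl

/-- coordinates in the second summand -/
def KS.psnd (K1 K2 : KS F φ) : ((K1.add K2).J → F) →ₗ[F] (K2.J → F) where
  toFun v i := v (Sum.inr i)
  map_add' _ _ := rfl
  map_smul' _ _ := rfl

theorem add_yv (K1 K2 : KS F φ) (v : K1.J → F) (w : K2.J → F) :
    (K1.add K2).yv (Sum.elim v w : K1.J ⊕ K2.J → F) = K1.yv v + K2.yv w := by
  show ∑ j : K1.J ⊕ K2.J, algebraMap F S ((Sum.elim v w : K1.J ⊕ K2.J → F) j) *
    Sum.elim K1.y K2.y j = _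
  rw [Fintype.sum_sum_type]
  rfl

/-- inclusion of the first block -/
private def kadL (K1 K2 : KS F φ) : (K1.J → F) →ₗ[F] ((K1.add K2).J → F) where
  toFun v := (Sum.elim v 0 : K1.J ⊕ K2.J → F)
  map_add' v w := by
    funext x
    rcases x with i | j
    · rfl
    · exact (add_zero (0 : F)).symm
  map_smul' c v := by
    funext x
    rcases x with i | j
    · rfl
    · exact (smul_zero c).symm

/-- inclusion of the second block -/
private def kadR (K1 K2 : KS F φ) : (K2.J → F) →ₗ[F] ((K1.add K2).J → F) where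
  toFun v := (Sum.elim 0 v : K1.J ⊕ K2.J → F)
  map_add' v w := by
    funext x
    rcases x with i | j
    · exact (add_zero (0 : F)).symm
    · rfl
  map_smul' c v := by
    funext x
    rcases x with i | j
    · exact (smul_zero c).symm
    · rfl

private theorem kadL_yv (K1 K2 : KS F φ) (v : K1.J → F) :
    (K1.add K2).yv (kadL K1 K2 v) = K1.yv v := by
  have h := add_yv K1 K2 v 0
  rw [KS.yv_zero, add_zero] at h
  exact h

private theorem kadR_yv (K1 K2 : KS F φ) (v : K2.J → F) :
    (K1.add K2).yv (kadR K1 K2 v) = K2.yv v := by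
  have h := add_yv K1 K2 0 v
  rw [KS.yv_zero, zero_add] at h
  exact h

private theorem kad_ker_snd (K1 K2 : KS F φ) :
    LinearMap.range (kadL K1 K2) = LinearMap.ker (KS.psnd K1 K2) := by
  ext x
  constructor
  · rintro ⟨w, rfl⟩
    rw [LinearMap.mem_ker]
    rfl
  · intro hx
    rw [LinearMap.mem_ker] at hx
    refine ⟨fun i => x (Sum.inl i), ?_⟩
    funext j
    rcases j with i | j
    · rfl
    · exact (congrFun hx j).symm

private theorem kad_ker_fst (K1 K2 : KS F φ) :
    LinearMap.range (kadR K1 K2) = LinearMap.ker (KS.pfst K1 K2) := by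
  ext x
  constructor
  · rintro ⟨w, rfl⟩
    rw [LinearMap.mem_ker]
    rfl
  · intro hx
    rw [LinearMap.mem_ker] at hx
    refine ⟨fun i => x (Sum.inr i), ?_⟩
    funext j
    rcases j with i | j
    · exact (congrFun hx i).symm
    · rfl

private theorem kad_span {V W : Type*} [AddCommGroup V] [Module F V] [AddCommGroup W] [Module F W]
    (f : V →ₗ[F] W) (v : ℕ → V) (n : ℕ) (hv : Submodule.span F (v '' Set.Iio n) = ⊤) :
    Submodule.span F ((fun l => f (v l)) '' Set.Iio n) = LinearMap.range f := by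
  have h1 : (fun l => f (v l)) '' Set.Iio n = f '' (v '' Set.Iio n) := (Set.image_image f v _).symm
  rw [h1, Submodule.span_image, hv, Submodule.map_top]

variable [FixF F φ]
variable {Z Z' : Type u} [AddCommGroup Z] [Module (Rg φ) Z] [AddCommGroup Z'] [Module (Rg φ) Z']

/-- collapse of the first summand -/
theorem KS.col_snd (K1 K2 : KS F φ) (q : Z →ₗ[Rg φ] Z') (hq : Function.Surjective q)
    (hy : ∀ (j : K1.J) (z : Z'), iot φ (K1.y j) • z = 0)
    (v : ℕ → K1.J → F) (n : ℕ) (hv : Submodule.span F (v '' Set.Iio n) = ⊤)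
    (hr : WReg φ Z (fun l => K1.yv (v l)) n)
    (hk : ∀ z : Z, q z = 0 → z ∈ riG φ Z (fun l => K1.yv (v l)) n) :
    Nonempty (((K1.add K2).ch Z).H0 ≃ₗ[Rg φ] (K2.ch Z').H0) ∧
      Nonempty (((K1.add K2).ch Z).H1 ≃ₗ[Rg φ] (K2.ch Z').H1) := by
  have e : (fun l => (K1.add K2).yv (kadL K1 K2 (v l))) = fun l => K1.yv (v l) :=
    funext fun l => kadL_yv K1 K2 (v l)
  refine KS.col (K1.add K2) K2 (KS.psnd K1 K2) (fun g w => rfl) ?_ q hq ?_
    (fun l => kadL K1 K2 (v l)) n ?_ (by rw [e]; exact hr) (by rw [e]; exact hk)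
  · intro w
    exact ⟨kadR K1 K2 w, rfl⟩
  · intro j z
    rcases j with i | i
    · have h1 : KS.psnd K1 K2 (Pi.single (Sum.inl i : (K1.add K2).J) 1) = 0 := by
        funext i'
        show (Pi.single (Sum.inl i : (K1.add K2).J) 1 : (K1.add K2).J → F) (Sum.inr i') = 0
        exact Pi.single_eq_of_ne (by intro h; cases h) _
      rw [h1, KS.yv_zero, map_zero, zero_smul]
      exact hy i z
    · have h1 : KS.psnd K1 K2 (Pi.single (Sum.inr i : (K1.add K2).J) 1) = Pi.single i 1 := by
        funext i'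
        show (Pi.single (Sum.inr i : (K1.add K2).J) 1 : (K1.add K2).J → F) (Sum.inr i') =
          (Pi.single i 1 : K2.J → F) i'
        by_cases hi : i' = i
        · subst hi
          rw [Pi.single_eq_same, Pi.single_eq_same]
        · rw [Pi.single_eq_of_ne hi]
          exact @Pi.single_eq_of_ne (K1.add K2).J (fun _ => F) _ _ _ _
            (fun h => hi (Sum.inr.inj h)) _
      rw [h1, KS.yv_single]
      rfl
  · rw [kad_span (kadL K1 K2) v n hv, kad_ker_snd]

/-- collapse of the second summand -/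
theorem KS.col_fst (K1 K2 : KS F φ) (q : Z →ₗ[Rg φ] Z') (hq : Function.Surjective q)
    (hy : ∀ (j : K2.J) (z : Z'), iot φ (K2.y j) • z = 0)
    (v : ℕ → K2.J → F) (n : ℕ) (hv : Submodule.span F (v '' Set.Iio n) = ⊤)
    (hr : WReg φ Z (fun l => K2.yv (v l)) n)
    (hk : ∀ z : Z, q z = 0 → z ∈ riG φ Z (fun l => K2.yv (v l)) n) :
    Nonempty (((K1.add K2).ch Z).H0 ≃ₗ[Rg φ] (K1.ch Z').H0) ∧
      Nonempty (((K1.add K2).ch Z).H1 ≃ₗ[Rg φ] (K1.ch Z').H1) := by
  have e : (fun l => (K1.add K2).yv (kadR K1 K2 (v l))) = fun l => K2.yv (v l) :=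
    funext fun l => kadR_yv K1 K2 (v l)
  refine KS.col (K1.add K2) K1 (KS.pfst K1 K2) (fun g w => rfl) ?_ q hq ?_
    (fun l => kadR K1 K2 (v l)) n ?_ (by rw [e]; exact hr) (by rw [e]; exact hk)
  · intro w
    exact ⟨kadL K1 K2 w, rfl⟩
  · intro j z
    rcases j with i | i
    · have h1 : KS.pfst K1 K2 (Pi.single (Sum.inl i : (K1.add K2).J) 1) = Pi.single i 1 := by
        funext i'
        show (Pi.single (Sum.inl i : (K1.add K2).J) 1 : (K1.add K2).J → F) (Sum.inl i') =
          (Pi.single i 1 : K1.J → F) i'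
        by_cases hi : i' = i
        · subst hi
          rw [Pi.single_eq_same, Pi.single_eq_same]
        · rw [Pi.single_eq_of_ne hi]
          exact @Pi.single_eq_of_ne (K1.add K2).J (fun _ => F) _ _ _ _
            (fun h => hi (Sum.inl.inj h)) _
      rw [h1, KS.yv_single]
      rfl
    · have h1 : KS.pfst K1 K2 (Pi.single (Sum.inr i : (K1.add K2).J) 1) = 0 := by
        funext i'
        show (Pi.single (Sum.inr i : (K1.add K2).J) 1 : (K1.add K2).J → F) (Sum.inl i') = 0
        exact Pi.single_eq_of_ne (by intro h; cases h) _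
      rw [h1, KS.yv_zero, map_zero, zero_smul]
      exact hy i z
  · rw [kad_span (kadR K1 K2) v n hv, kad_ker_fst]

end MSA
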