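import Mathlib
import Pool.Agent.MSA.Slo

/-!
# Operators in one slot of the tensor power

PROOFS.
`sop` is `pfm` for the family `l' ↦ if l' = l then f else id`. `sop_tpk`: `pfm_tpk`. `sop_slot`, `sop_slot_self`, `sop_comp`:
on pure tensors (`tpk_ext` for the two additive maps of `z`), `slot_tpk`, `Function.update_comm`, `update_idem`.
`sop_mod`: the set of the `z` for which the conclusion holds is a subgroup (add the `z'`) and contains the pure tensors:
`tpk m - tpk (update m l (f (m l))) = tpk (update m l (m l - f (m l)))` (`tpk_update_add` for `m l = f (m l) + (m l - f (m l))`,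
`update_eq_self`) `= tpk (update m l (iot s • m')) = iot (slot l s) • tpk (update m l m')` (`slot_tpk`, `update_idem`);
`tpk_closure`.
`pk_tel`: for `T : Finset (ZMod k)` let `E_T = pfm (fun l => if l ∈ T then e else id)`; `z - E_T z ∈ N` by induction on `T`:
`E_{insert a T} z = sop a e (E_T z)`, and `w - sop a e w ∈ N` for all `w` (closure of the pure tensors, `hN`). `T = univ`.
`exists_lam`: multiplication by `y` is an injective `D.L`-linear endomorphism of `UL D M`
(`LinearMap.exists_leftInverse_of_injective`); the `D.L`-structure is `c • m = iot (C c) • m`.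
`exists_mu`: let `y` be the `D.L`-linear multiplication by `y` on `V = UL D M`, `W = range y`, `π = W.mkQ`; multiplication by `g`
maps `W` to `W` and induces an endomorphism `g'` of `V ⧸ W` (`Submodule.mapQ`), injective by `h`; let `λ` be a left inverse of `g'`
and `σ` a section of `π` (`exists_rightInverse_of_surjective`); `μ = σ ∘ λ ∘ π`: `μ (y m) = σ (λ 0) = 0`,
`π (m - μ (g m)) = π m - λ (g' (π m)) = 0`.
-/

set_option autoImplicit false
set_option linter.unusedSectionVars false

noncomputable section

namespace MSA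

universe u v w

open MvPolynomial

/-- additive maps that commute with the constants -/
def CLin (D : Dat.{u}) {M M' : Type u} [AddCommGroup M] [Module D.R M] [AddCommGroup M']
    [Module D.R M'] (f : M →+ M') : Prop :=
  ∀ (c : D.L) m, f (iot D.ph (C c) • m) = iot D.ph (C c) • f m

namespace Adm

variable {D : Dat.{u}} (A : Adm D)

variable {M : Type u} [AddCommGroup M] [Module D.R M]

/-- the operator `f` in the slot `l` -/
def sop (l : ZMod A.k) (f : M →+ M) (hf : CLin D f) : A.Pk M →+ A.Pk M :=
  A.pfm (fun l' => if l' = l then f else AddMonoidHom.id M) (fun l' c m => by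
    by_cases h : l' = l
    · rw [if_pos h]
      exact hf c m
    · rw [if_neg h]
      rfl)

private theorem tpk_ind {P : A.Pk M → Prop} (h1 : ∀ m, P (A.tpk m)) (h0 : P 0)
    (h2 : ∀ x y, P x → P y → P (x + y)) (h3 : ∀ x, P x → P (-x)) (z : A.Pk M) : P z := by
  have hz : z ∈ AddSubgroup.closure (Set.range (A.tpk (M := M))) := by
    rw [tpk_closure]
    exact AddSubgroup.mem_top z
  refine AddSubgroup.closure_induction (p := fun x _ => P x) ?_ h0 ?_ ?_ hz
  · rintro _ ⟨m, rfl⟩
    exact h1 m
  · intro a b _ _ ha hb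
    exact h2 a b ha hb
  · intro a _ ha
    exact h3 a ha

private theorem tpk_sub (m : ZMod A.k → M) (l : ZMod A.k) (x : M) :
    A.tpk m - A.tpk (Function.update m l x) = A.tpk (Function.update m l (m l - x)) := by
  have h := A.tpk_update_add m l x (m l - x)
  rw [add_sub_cancel, Function.update_eq_self] at h
  rw [h, add_sub_cancel_left]

/-- the operator `e` in the slots of `T` -/
private def sopE (e : M →+ M) (he : CLin D e) (T : Finset (ZMod A.k)) : A.Pk M →+ A.Pk M :=
  A.pfm (fun l => if l ∈ T then e else AddMonoidHom.id M) (fun l c m => by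
    by_cases h : l ∈ T
    · rw [if_pos h]
      exact he c m
    · rw [if_neg h]
      rfl)

private theorem sopE_tpk (e : M →+ M) (he : CLin D e) (T : Finset (ZMod A.k))
    (m : ZMod A.k → M) :
    A.sopE e he T (A.tpk m) = A.tpk (fun l => if l ∈ T then e (m l) else m l) := by
  unfold sopE
  rw [pfm_tpk]
  congr 1
  funext l
  by_cases h : l ∈ T
  · rw [if_pos h, if_pos h]
  · rw [if_neg h, if_neg h]
    rfl

private theorem sopE_empty (e : M →+ M) (he : CLin D e) (z : A.Pk M) :
    A.sopE e he ∅ z = z := by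
  have h : A.sopE e he ∅ = AddMonoidHom.id (A.Pk M) := by
    apply A.tpk_ext
    intro m
    rw [sopE_tpk]
    simp
  exact congrArg (fun t : A.Pk M →+ A.Pk M => t z) h

private theorem sopE_univ (e : M →+ M) (he : CLin D e) (z : A.Pk M) :
    A.sopE e he Finset.univ z = A.pfm (fun _ => e) (fun _ => he) z := by
  have h : A.sopE e he Finset.univ = A.pfm (fun _ => e) (fun _ => he) := by
    apply A.tpk_ext
    intro m
    rw [sopE_tpk, pfm_tpk]
    simp
  exact congrArg (fun t : A.Pk M →+ A.Pk M => t z) h

variable (D M) in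
/-- multiplication by `y` as a linear map over `L` -/
private def sopY (y : D.S) : UL D M →ₗ[D.L] UL D M where
  toFun m := iot D.ph y • m
  map_add' m m' := smul_add _ m m'
  map_smul' c m := by
    show iot D.ph y • (iot D.ph (C c) • m) = iot D.ph (C c) • (iot D.ph y • m)
    rw [← mul_smul, ← mul_smul, ← map_mul, ← map_mul, mul_comm]

theorem sop_tpk (l : ZMod A.k) (f : M →+ M) (hf : CLin D f) (m : ZMod A.k → M) :
    A.sop l f hf (A.tpk m) = A.tpk (Function.update m l (f (m l))) := by
  unfold sop
  rw [pfm_tpk]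
  congr 1
  funext l'
  by_cases h : l' = l
  · subst h
    simp
  · simp [h]

private theorem sopE_insert (e : M →+ M) (he : CLin D e) (a : ZMod A.k) (T : Finset (ZMod A.k))
    (ha : a ∉ T) (z : A.Pk M) :
    A.sopE e he (insert a T) z = A.sop a e he (A.sopE e he T z) := by
  have h : A.sopE e he (insert a T) = (A.sop a e he).comp (A.sopE e he T) := by
    apply A.tpk_ext
    intro m
    rw [AddMonoidHom.comp_apply, sopE_tpk, sopE_tpk, sop_tpk]
    congr 1
    funext l
    by_cases h : l = a
    · subst h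
      simp [ha]
    · rw [Function.update_of_ne h]
      simp [Finset.mem_insert, h]
  exact congrArg (fun t : A.Pk M →+ A.Pk M => t z) h

theorem sop_slot {l l' : ZMod A.k} (hl : l' ≠ l) (f : M →+ M) (hf : CLin D f) (s : D.S)
    (z : A.Pk M) : A.sop l f hf (iot A.ph (A.slot l' s) • z) =
      iot A.ph (A.slot l' s) • A.sop l f hf z := by
  have h : (A.sop l f hf).comp (DistribSMul.toAddMonoidHom (A.Pk M) (iot A.ph (A.slot l' s))) =
      (DistribSMul.toAddMonoidHom (A.Pk M) (iot A.ph (A.slot l' s))).comp (A.sop l f hf) := by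
    apply A.tpk_ext
    intro m
    show A.sop l f hf (iot A.ph (A.slot l' s) • A.tpk m) =
      iot A.ph (A.slot l' s) • A.sop l f hf (A.tpk m)
    rw [slot_tpk, sop_tpk, sop_tpk, slot_tpk, Function.update_of_ne (Ne.symm hl),
      Function.update_of_ne hl, Function.update_comm hl]
  exact congrArg (fun t : A.Pk M →+ A.Pk M => t z) h

theorem sop_slot_self (l : ZMod A.k) (f g : M →+ M) (hf : CLin D f) (hg : CLin D g) (s : D.S)
    (h : ∀ m, f (iot D.ph s • m) = g m) (z : A.Pk M) :
    A.sop l f hf (iot A.ph (A.slot l s) • z) = A.sop l g hg z := by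
  have h : (A.sop l f hf).comp (DistribSMul.toAddMonoidHom (A.Pk M) (iot A.ph (A.slot l s))) =
      A.sop l g hg := by
    apply A.tpk_ext
    intro m
    show A.sop l f hf (iot A.ph (A.slot l s) • A.tpk m) = A.sop l g hg (A.tpk m)
    rw [slot_tpk, sop_tpk, sop_tpk, Function.update_self, Function.update_idem, h]
  exact congrArg (fun t : A.Pk M →+ A.Pk M => t z) h

theorem sop_id (l : ZMod A.k) (h : CLin D (AddMonoidHom.id M)) (z : A.Pk M) :
    A.sop l (AddMonoidHom.id M) h z = z := by
  have h : A.sop l (AddMonoidHom.id M) h = AddMonoidHom.id (A.Pk M) := by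
    apply A.tpk_ext
    intro m
    rw [sop_tpk, AddMonoidHom.id_apply, AddMonoidHom.id_apply, Function.update_eq_self]
  exact congrArg (fun t : A.Pk M →+ A.Pk M => t z) h

theorem sop_zero (l : ZMod A.k) (h : CLin D (0 : M →+ M)) (z : A.Pk M) :
    A.sop l (0 : M →+ M) h z = 0 := by
  have h : A.sop l (0 : M →+ M) h = 0 := by
    apply A.tpk_ext
    intro m
    rw [sop_tpk, AddMonoidHom.zero_apply, AddMonoidHom.zero_apply]
    have h1 := A.tpk_update_add m l 0 0
    rw [add_zero] at h1
    exact left_eq_add.1 h1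
  exact congrArg (fun t : A.Pk M →+ A.Pk M => t z) h

/-- If `m - f m ∈ s M` for all `m` then `z - f_l z ∈ slot_l(s) Pk M` for all `z`. -/
theorem sop_mod (l : ZMod A.k) (f : M →+ M) (hf : CLin D f) (s : D.S)
    (h : ∀ m, ∃ m', m - f m = iot D.ph s • m') (z : A.Pk M) :
    ∃ z', z - A.sop l f hf z = iot A.ph (A.slot l s) • z' := by
  refine A.tpk_ind (P := fun z => ∃ z', z - A.sop l f hf z = iot A.ph (A.slot l s) • z')
    ?_ ?_ ?_ ?_ z
  · intro m
    obtain ⟨m', hm'⟩ := h (m l)
    refine ⟨A.tpk (Function.update m l m'), ?_⟩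
    rw [sop_tpk, tpk_sub, hm', slot_tpk, Function.update_self, Function.update_idem]
  · exact ⟨0, by rw [map_zero, sub_zero, smul_zero]⟩
  · rintro x y ⟨x', hx⟩ ⟨y', hy⟩
    refine ⟨x' + y', ?_⟩
    rw [smul_add, ← hx, ← hy, map_add]
    abel
  · rintro x ⟨x', hx⟩
    refine ⟨-x', ?_⟩
    rw [smul_neg, ← hx, map_neg]
    abel

/-- telescope -/
theorem pk_tel (e : M →+ M) (he : CLin D e) (N : AddSubgroup (A.Pk M))
    (hN : ∀ (l : ZMod A.k) (m : ZMod A.k → M),
      A.tpk (Function.update m l (m l - e (m l))) ∈ N) (z : A.Pk M) :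
    z - A.pfm (fun _ => e) (fun _ => he) z ∈ N := by
  have hs : ∀ (a : ZMod A.k) (w : A.Pk M), w - A.sop a e he w ∈ N := by
    intro a w
    refine A.tpk_ind (P := fun w => w - A.sop a e he w ∈ N) ?_ ?_ ?_ ?_ w
    · intro m
      rw [sop_tpk, tpk_sub]
      exact hN a m
    · show (0 : A.Pk M) - A.sop a e he 0 ∈ N
      rw [map_zero, sub_zero]
      exact N.zero_mem
    · intro x y hx hy
      have h1 : x + y - A.sop a e he (x + y) = (x - A.sop a e he x) + (y - A.sop a e he y) := by
        rw [map_add]
        abel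
      rw [h1]
      exact N.add_mem hx hy
    · intro x hx
      have h1 : -x - A.sop a e he (-x) = -(x - A.sop a e he x) := by
        rw [map_neg]
        abel
      rw [h1]
      exact N.neg_mem hx
  have key : ∀ (T : Finset (ZMod A.k)), z - A.sopE e he T z ∈ N := by
    intro T
    induction T using Finset.induction_on with
    | empty =>
      rw [sopE_empty, sub_self]
      exact N.zero_mem
    | insert a T ha ih =>
      rw [sopE_insert]
      have h1 : z - A.sop a e he (A.sopE e he T z) = (z - A.sopE e he T z) +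
          (A.sopE e he T z - A.sop a e he (A.sopE e he T z)) := by
        abel
      rw [h1]
      exact N.add_mem ih (hs a _)
      exact ha
  have h2 := key Finset.univ
  rwa [sopE_univ] at h2

variable (D) in
theorem exists_lam (y : D.S) (h : ∀ m : M, iot D.ph y • m = 0 → m = 0) :
    ∃ f : M →+ M, CLin D f ∧ ∀ m, f (iot D.ph y • m) = m := by
  have hk : LinearMap.ker (sopY D M y) = ⊥ := by
    rw [LinearMap.ker_eq_bot']
    intro m hm
    exact h m hm
  obtain ⟨g, hg⟩ := LinearMap.exists_leftInverse_of_injective (sopY D M y) hk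
  refine ⟨(g.toAddMonoidHom : UL D M →+ UL D M), fun c m => g.map_smul c m, fun m => ?_⟩
  exact congrArg (fun t : UL D M →ₗ[D.L] UL D M => t m) hg

variable (D) in
theorem exists_mu (y g : D.S)
    (h : ∀ m m' : M, iot D.ph g • m = iot D.ph y • m' → ∃ m'', m = iot D.ph y • m'') :
    ∃ f : M →+ M, CLin D f ∧ (∀ m, f (iot D.ph y • m) = 0) ∧
      ∀ m, ∃ m', m - f (iot D.ph g • m) = iot D.ph y • m' := by
  have hle : LinearMap.range (sopY D M y) ≤
      (LinearMap.range (sopY D M y)).comap (sopY D M g) := by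
    rintro _ ⟨m, rfl⟩
    refine ⟨sopY D M g m, ?_⟩
    show iot D.ph y • (iot D.ph g • m) = iot D.ph g • (iot D.ph y • m)
    rw [← mul_smul, ← mul_smul, ← map_mul, ← map_mul, mul_comm]
  have hk : LinearMap.ker ((LinearMap.range (sopY D M y)).mapQ (LinearMap.range (sopY D M y))
      (sopY D M g) hle) = ⊥ := by
    rw [LinearMap.ker_eq_bot']
    intro x hx
    obtain ⟨m, rfl⟩ := Submodule.Quotient.mk_surjective _ x
    rw [Submodule.mapQ_apply, Submodule.Quotient.mk_eq_zero] at hx
    obtain ⟨m', hm'⟩ := hx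
    obtain ⟨m'', hm''⟩ := h m m' hm'.symm
    rw [Submodule.Quotient.mk_eq_zero]
    exact ⟨m'', hm''.symm⟩
  obtain ⟨la, hla⟩ := LinearMap.exists_leftInverse_of_injective _ hk
  obtain ⟨si, hsi⟩ := LinearMap.exists_rightInverse_of_surjective
    (LinearMap.range (sopY D M y)).mkQ (LinearMap.range_eq_top.2 (Submodule.mkQ_surjective _))
  have hla' : ∀ m : UL D M, la (Submodule.Quotient.mk (sopY D M g m)) =
      Submodule.Quotient.mk m := fun m =>
    congrArg (fun t => t (Submodule.Quotient.mk m)) hla
  have hsi' : ∀ x, (LinearMap.range (sopY D M y)).mkQ (si x) = x := fun x =>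
    congrArg (fun t => t x) hsi
  refine ⟨((si ∘ₗ la ∘ₗ (LinearMap.range (sopY D M y)).mkQ).toAddMonoidHom :
    UL D M →+ UL D M), fun c m =>
      (si ∘ₗ la ∘ₗ (LinearMap.range (sopY D M y)).mkQ).map_smul c m, fun m => ?_, fun m => ?_⟩
  · show si (la ((LinearMap.range (sopY D M y)).mkQ (sopY D M y m))) = 0
    have h1 : (LinearMap.range (sopY D M y)).mkQ (sopY D M y m) = 0 := by
      rw [Submodule.mkQ_apply, Submodule.Quotient.mk_eq_zero]
      exact ⟨m, rfl⟩
    rw [h1, map_zero, map_zero]
  · have h1 : ∀ m : UL D M, m - si (la ((LinearMap.range (sopY D M y)).mkQ (sopY D M g m))) ∈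
        LinearMap.range (sopY D M y) := by
      intro m
      rw [← Submodule.Quotient.mk_eq_zero, Submodule.Quotient.mk_sub]
      have h2 := hsi' (la ((LinearMap.range (sopY D M y)).mkQ (sopY D M g m)))
      rw [Submodule.mkQ_apply] at h2
      rw [h2]
      exact sub_eq_zero.2 (hla' m).symm
    obtain ⟨m', hm'⟩ := h1 m
    exact ⟨m', hm'.symm⟩

variable (D) in
/-- sections -/
theorem exists_sct {M' : Type u} [AddCommGroup M'] [Module D.R M'] (q : M →ₗ[D.R] M')
    (hq : Function.Surjective q) : ∃ s : M' →+ M, CLin D s ∧ ∀ m, q (s m) = m := by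
  let ql : UL D M →ₗ[D.L] UL D M' :=
    { toFun := fun m => q m
      map_add' := fun x y => q.map_add x y
      map_smul' := fun c m => q.map_smul (iot D.ph (C c)) m }
  obtain ⟨si, hsi⟩ := LinearMap.exists_rightInverse_of_surjective ql
    (LinearMap.range_eq_top.2 hq)
  refine ⟨(si.toAddMonoidHom : UL D M' →+ UL D M), fun c m => si.map_smul c m, fun m => ?_⟩
  exact congrArg (fun t : UL D M' →ₗ[D.L] UL D M' => t m) hsi

end Adm

end MSA
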