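import Mathlib
import Pool.Agent.MSA.Slo
import Pool.Agent.MSA.Kex
import Pool.Agent.MSA.DvD
import Pool.Agent.MSA.ChA
import Pool.Agent.MSA.CK

/-!
# Complete intersections: definitions

* `A.ev0 : S_k → S`, `Y_{i,0} ↦ x_i`, `Y_{i,j} ↦ 0` for `j ≠ 0`;
* `A.Up M`: the `R`-module `M` as a module over `R_k` (through `ev0`, the shift acts trivially);
* `A.kW d`: the Koszul datum with `J = {0, 1} × (ℤ/k ∖ 0)` and all elements zero.
-/

set_option autoImplicit false
set_option linter.unusedSectionVars false

noncomputable section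

namespace MSA

universe u v w

open MvPolynomial

namespace Adm

variable {D : Dat.{u}} (A : Adm D)

/-- `Y_{i,0} ↦ x_i`, `Y_{i,j} ↦ 0` for `j ≠ 0` -/
def ev0 : A.S →+* D.S :=
  MvPolynomial.eval₂Hom MvPolynomial.C (fun x => if x.2 = 0 then MvPolynomial.X x.1 else 0)

theorem ev0_C (c : D.L) : A.ev0 (C c) = C c := by simp [ev0]

theorem ev0_X (x : Fin D.p × ZMod A.k) : A.ev0 (X x) = if x.2 = 0 then X x.1 else 0 := by
  simp [ev0]

theorem ev0_bs (g : Gn D.F) (s : A.S) : A.ev0 (A.ph (Gk.bs g) s) = D.ph g (A.ev0 s) := by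
  have h : A.ev0.comp (A.ph (Gk.bs g)) = (D.ph g).comp A.ev0 := by
    apply MvPolynomial.ringHom_ext
    · intro c
      cases g <;> simp [ev0, ph, Dat.ph, tauS, thS, Dat.tauS_C, Dat.thS]
    · intro x
      cases g with
      | tau =>
        by_cases hx : x.2 = 0
        · simp [ev0, ph, Dat.ph, tauS, Dat.tauS_X, hx]
        · simp [ev0, ph, Dat.ph, tauS, hx]
      | th c =>
        by_cases hx : x.2 = 0
        · simp [ev0, ph, Dat.ph, thS, Dat.thS, hx]
        · simp [ev0, ph, Dat.ph, thS, hx]
  exact congrArg (fun t => t s) h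

theorem ev0_cyc (s : A.S) : A.ev0 (A.ph Gk.cyc s) = A.ev0 s := by
  have h : A.ev0.comp (A.ph Gk.cyc) = A.ev0 := by
    apply MvPolynomial.ringHom_ext
    · intro c
      simp [ev0, ph, cyS]
    · intro x
      by_cases hx : x.2 = 0
      · simp [ev0, ph, cyS, hx, zp_zero]
      · simp [ev0, ph, cyS, hx]
  exact congrArg (fun t => t s) h

theorem ev0_avg (s : D.S) : A.ev0 (A.avg s) = s := by
  have h : A.ev0.comp A.avg = RingHom.id D.S := by
    apply MvPolynomial.ringHom_ext
    · intro c
      simp [ev0, avg]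
    · intro i
      simp [ev0, avg]
  exact congrArg (fun t => t s) h

theorem ev0_slot (l : ZMod A.k) (s : D.S) : A.ev0 (A.slot l s) = s := by
  have h : A.ev0.comp (A.slot l) = RingHom.id D.S := by
    apply MvPolynomial.ringHom_ext
    · intro c
      simp [ev0, slot]
    · intro i
      simp [ev0, slot, zp_zero]
  exact congrArg (fun t => t s) h

section

variable (M : Type u)

/-- The `R`-module `M` as a module over `R_k`. -/
def Up (_A : Adm D) (M : Type u) : Type u := M

variable [AddCommGroup M]

instance : AddCommGroup (A.Up M) := inferInstanceAs (AddCommGroup M)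

variable [Module D.R M]

/-- `S_k` acts through `ev0` -/
def upS : A.S →+* AddMonoid.End (A.Up M) where
  toFun s := { toFun := fun (m : M) => (iot D.ph (A.ev0 s) • m : M)
               map_zero' := smul_zero (A := M) _
               map_add' := smul_add (A := M) _ }
  map_one' := by
    refine AddMonoidHom.ext fun (m : M) => ?_
    show iot D.ph (A.ev0 1) • m = m
    rw [map_one, map_one, one_smul]
  map_mul' s t := by
    refine AddMonoidHom.ext fun (m : M) => ?_
    show iot D.ph (A.ev0 (s * t)) • m = iot D.ph (A.ev0 s) • iot D.ph (A.ev0 t) • m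
    rw [map_mul, map_mul, mul_smul]
  map_zero' := by
    refine AddMonoidHom.ext fun (m : M) => ?_
    show iot D.ph (A.ev0 0) • m = 0
    rw [map_zero, map_zero, zero_smul]
  map_add' s t := by
    refine AddMonoidHom.ext fun (m : M) => ?_
    show iot D.ph (A.ev0 (s + t)) • m = iot D.ph (A.ev0 s) • m + iot D.ph (A.ev0 t) • m
    rw [map_add, map_add, add_smul]

/-- the generators -/
def upG : Gk D.F → AddMonoid.End (A.Up M)
  | Gk.bs g => { toFun := fun (m : M) => (gam D.ph g • m : M)
                 map_zero' := smul_zero (A := M) _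
                 map_add' := smul_add (A := M) _ }
  | Gk.cyc => AddMonoidHom.id (A.Up M)

theorem up_compat (g : Gk D.F) (s : A.S) (m : A.Up M) :
    A.upG M g (A.upS M s m) = A.upS M (A.ph g s) (A.upG M g m) := by
  cases g with
  | bs g =>
    have h : ∀ m : M, gam D.ph g • iot D.ph (A.ev0 s) • m =
        iot D.ph (A.ev0 (A.ph (Gk.bs g) s)) • gam D.ph g • m := by
      intro m
      rw [← mul_smul, gam_mul_iot, mul_smul, ev0_bs]
    exact h m
  | cyc =>
    have h : ∀ m : M, iot D.ph (A.ev0 s) • m = iot D.ph (A.ev0 (A.ph Gk.cyc s)) • m := by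
      intro m
      rw [ev0_cyc]
    exact h m

instance : Module A.R (A.Up M) := rgModule A.ph (A.upS M) (A.upG M) (A.up_compat M)

/-- the identity `M → Up M` -/
def toUp : M ≃+ A.Up M := AddEquiv.refl M

theorem up_iot (s : A.S) (m : M) :
    iot A.ph s • A.toUp M m = A.toUp M (iot D.ph (A.ev0 s) • m) :=
  rgModule_iot A.ph (A.upS M) (A.upG M) (A.up_compat M) s m

theorem up_bs (g : Gn D.F) (m : M) :
    gam A.ph (Gk.bs g) • A.toUp M m = A.toUp M (gam D.ph g • m) :=
  rgModule_gam A.ph (A.upS M) (A.upG M) (A.up_compat M) (Gk.bs g) m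

theorem up_cyc (m : M) : gam A.ph Gk.cyc • A.toUp M m = A.toUp M m :=
  rgModule_gam A.ph (A.upS M) (A.upG M) (A.up_compat M) Gk.cyc m

variable {M} in
/-- functoriality -/
def upM {N : Type u} [AddCommGroup N] [Module D.R N] (f : M →ₗ[D.R] N) :
    A.Up M →ₗ[A.R] A.Up N :=
  mkLin (M := A.Up M) (N := A.Up N)
    { toFun := fun m => A.toUp N (f ((A.toUp M).symm m))
      map_zero' := by rw [map_zero, map_zero, map_zero]
      map_add' := fun x y => by rw [map_add, map_add, map_add] }
    (fun s m => by
      show A.toUp N (f ((A.toUp M).symm (iot A.ph s • A.toUp M ((A.toUp M).symm m)))) =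
        iot A.ph s • A.toUp N (f ((A.toUp M).symm m))
      rw [up_iot, AddEquiv.symm_apply_apply, map_smul, up_iot])
    (fun g m => by
      show A.toUp N (f ((A.toUp M).symm (gam A.ph g • A.toUp M ((A.toUp M).symm m)))) =
        gam A.ph g • A.toUp N (f ((A.toUp M).symm m))
      cases g with
      | bs g => rw [up_bs, AddEquiv.symm_apply_apply, map_smul, up_bs]
      | cyc => rw [up_cyc, AddEquiv.symm_apply_apply, up_cyc])

theorem upM_apply {N : Type u} [AddCommGroup N] [Module D.R N] (f : M →ₗ[D.R] N) (m : M) :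
    A.upM f (A.toUp M m) = A.toUp N (f m) := rfl

end

/-! ## the Koszul datum `W + W` -/

/-- index set of `kW`: pairs `(s, j)` with `j ≠ 0` -/
abbrev JW : Type := {x : Fin 2 × ZMod A.k // x.2 ≠ 0}

instance : LinearOrder A.JW :=
  LinearOrder.lift' (fun x : A.JW => toLex (x.1.1, x.1.2.val)) (fun x y h => by
    have h1 : (x.1.1, x.1.2.val) = (y.1.1, y.1.2.val) := toLex.injective h
    have h2 := congrArg Prod.fst h1
    have h3 := congrArg Prod.snd h1
    exact Subtype.ext (Prod.ext h2 (ZMod.val_injective _ h3)))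

/-- diagonal operators -/
def dgo {J : Type} (c : J → D.F) : (J → D.F) →ₗ[D.F] (J → D.F) where
  toFun v x := c x * v x
  map_add' v w := by funext x; simp [mul_add]
  map_smul' a v := by funext x; simp; ring

/-- the character of the basis vector `(s, j)` -/
def chW (d : Fin 2 → ℕ) (g : Gk D.F) (x : Fin 2 × ZMod A.k) : D.F :=
  match g with
  | Gk.bs g => D.chi (d x.1) g
  | Gk.cyc => A.zp x.2

/-- The Koszul datum `W + W` (all elements are zero). -/
def kW (d : Fin 2 → ℕ) : KS D.F A.ph where
  J := A.JW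
  rho g := dgo (fun x : A.JW => A.chW d g x.1)
  y := fun _ => 0
  hy := fun g j => by
    rw [map_zero]
    refine (Finset.sum_eq_zero fun i _ => ?_).symm
    rw [mul_zero]

end Adm

end MSA
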