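import Mathlib
import Pool.Agent.MSA.CiD

/-!
# The elements `hat j r = (1/k) ∑_l ζ^{-jl} slot_l(r)` and the Koszul datum of two invariants

PROOFS.
`ph_slot_bs`, `ph_slot_cyc`: equality of ring homomorphisms `D.S → S_k`, `MvPolynomial.ringHom_ext`: on constants `slot_C`,
`D.tauS_C`; on `X i`: `slot l (X i) = ∑_j C (ζ^{jl}) X (i,j)`; `τ X (i,j) = C (cf (i+1)) X (i+1,j)`, `D.tauS_X`;
`cyc X (i,j) = C (ζ^j) X (i,j)` and `zp_add`: `ζ^{j l} ζ^j = ζ^{j (l+1)}`.
`hat_slot`: `∑_j ζ^{jl} (1/k) ∑_l' ζ^{-jl'} slot l' r = ∑_l' (1/k) (∑_j ζ^{j(l-l')}) slot l' r` and `zp_sum`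
(compare `sum_yop` in the file Slo).
`ph_hat_bs`: `ph_slot_bs`, `D.iv_ph h g : D.ph g r = algebraMap (χ_n g) * r`, `slot l (algebraMap c) = algebraMap c`, the
generators fix `F` (`fixF`). `ph_hat_cyc`: `ph_slot_cyc`, shift the summation index by `1` (`Equiv.sum_comp (Equiv.addRight 1)`), `zp_add`.
`ev0_hat`: `ev0_slot`, `ev0_C`, `∑_l ζ^{-jl} = 0` for `j ≠ 0`, `= k` for `j = 0` (`zp_sum` for `-j`), `hkF`.
`kQ_hy`: `dgo c (Pi.single j 1) i = c i * (Pi.single j 1) i`: only `i = j` contributes (`Finset.sum_eq_single`), `ph_hat_bs`,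
`ph_hat_cyc`.
-/

set_option autoImplicit false
set_option linter.unusedSectionVars false

noncomputable section

namespace MSA

universe u v w

open MvPolynomial

namespace Adm

variable {D : Dat.{u}} (A : Adm D)

private theorem hat_slot_X (l : ZMod A.k) (i : Fin D.p) : A.slot l (MvPolynomial.X i) =
    ∑ j, MvPolynomial.C (algebraMap D.F D.L (A.zp (j * l))) * MvPolynomial.X (i, j) := by
  simp [slot]

private theorem hat_alg (c : D.F) : algebraMap D.F A.S c = C (algebraMap D.F D.L c) := rfl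

private theorem hat_slot_alg (l : ZMod A.k) (c : D.F) :
    A.slot l (algebraMap D.F D.S c) = algebraMap D.F A.S c := by
  have h : algebraMap D.F D.S c = C (algebraMap D.F D.L c) := rfl
  rw [h, slot_C, hat_alg]

private theorem hat_ev0_alg (c : D.F) : A.ev0 (algebraMap D.F A.S c) = algebraMap D.F D.S c := by
  rw [hat_alg, ev0_C]
  rfl

private theorem hat_fix (g : Gk D.F) (c : D.F) :
    A.ph g (algebraMap D.F A.S c) = algebraMap D.F A.S c := FixF.fix g c

theorem ph_slot_bs (g : Gn D.F) (l : ZMod A.k) (s : D.S) :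
    A.ph (Gk.bs g) (A.slot l s) = A.slot l (D.ph g s) := by
  have h : (A.ph (Gk.bs g)).comp (A.slot l) = (A.slot l).comp (D.ph g) := by
    apply MvPolynomial.ringHom_ext
    · intro c
      cases g <;> simp [slot, ph, Dat.ph, tauS, thS, Dat.tauS_C, Dat.thS]
    · intro i
      rw [RingHom.comp_apply, RingHom.comp_apply, hat_slot_X, map_sum]
      cases g with
      | tau =>
        have h1 : D.ph Gn.tau (X i) =
          C (algebraMap D.F D.L (D.cf (i + 1))) * X (i + 1) := D.tauS_X i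
        rw [h1, map_mul, slot_C, hat_slot_X, Finset.mul_sum]
        refine Finset.sum_congr rfl fun j _ => ?_
        rw [map_mul, mul_left_comm]
        congr 1
        · exact A.hat_fix (Gk.bs Gn.tau) _
        · simp [ph, tauS]
      | th c =>
        have h1 : D.ph (Gn.th c) (X i) = C (algebraMap D.F D.L (c : D.F)) * X i := by
          simp [Dat.ph, Dat.thS]
        rw [h1, map_mul, slot_C, hat_slot_X, Finset.mul_sum]
        refine Finset.sum_congr rfl fun j _ => ?_
        rw [map_mul, mul_left_comm]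
        congr 1
        · exact A.hat_fix (Gk.bs (Gn.th c)) _
        · simp [ph, thS]
  exact congrArg (fun t => t s) h

theorem ph_slot_cyc (l : ZMod A.k) (s : D.S) : A.ph Gk.cyc (A.slot l s) = A.slot (l + 1) s := by
  have h : (A.ph Gk.cyc).comp (A.slot l) = A.slot (l + 1) := by
    apply MvPolynomial.ringHom_ext
    · intro c
      rw [RingHom.comp_apply, slot_C, slot_C]
      simp [ph, cyS]
    · intro i
      rw [RingHom.comp_apply, hat_slot_X, hat_slot_X, map_sum]
      refine Finset.sum_congr rfl fun j _ => ?_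
      have h1 : A.ph Gk.cyc (X (i, j)) = C (algebraMap D.F D.L (A.zp j)) * X (i, j) := by
        simp [ph, cyS]
      have h2 : A.ph Gk.cyc (C (algebraMap D.F D.L (A.zp (j * l)))) =
          C (algebraMap D.F D.L (A.zp (j * l))) := A.hat_fix Gk.cyc _
      rw [map_mul, h1, h2, ← mul_assoc, ← map_mul, ← map_mul, ← zp_add, mul_add, mul_one]
  exact congrArg (fun t => t s) h

/-- `(1/k) ∑_l ζ^{-jl} slot_l(r)` -/
def hat (j : ZMod A.k) (r : D.S) : A.S :=
  algebraMap D.F A.S (A.k : D.F)⁻¹ * ∑ l, algebraMap D.F A.S (A.zp (-(j * l))) * A.slot l r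

theorem hat_slot (l : ZMod A.k) (r : D.S) :
    A.slot l r = ∑ j, algebraMap D.F A.S (A.zp (j * l)) * A.hat j r := by
  have h2 : ∀ l' : ZMod A.k, ∑ j : ZMod A.k, (A.zp (j * l) *
      ((A.k : D.F)⁻¹ * A.zp (-(j * l')))) = if l' = l then 1 else 0 := by
    intro l'
    have h3 : ∀ j : ZMod A.k, A.zp (j * l) * ((A.k : D.F)⁻¹ * A.zp (-(j * l'))) =
        (A.k : D.F)⁻¹ * A.zp ((l - l') * j) := by
      intro j
      rw [mul_left_comm, ← zp_add]
      congr 2
      ring
    rw [Finset.sum_congr rfl fun j _ => h3 j, ← Finset.mul_sum, zp_sum]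
    by_cases h : l' = l
    · rw [if_pos h, if_pos (sub_eq_zero.2 h.symm), inv_mul_cancel₀ A.hkF]
    · rw [if_neg h, if_neg (fun h' => h (sub_eq_zero.1 h').symm), mul_zero]
  have h4 : ∀ j : ZMod A.k, algebraMap D.F A.S (A.zp (j * l)) * A.hat j r =
      ∑ l' : ZMod A.k, algebraMap D.F A.S (A.zp (j * l) *
        ((A.k : D.F)⁻¹ * A.zp (-(j * l')))) * A.slot l' r := by
    intro j
    rw [hat, Finset.mul_sum, Finset.mul_sum]
    refine Finset.sum_congr rfl fun l' _ => ?_
    rw [map_mul, map_mul]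
    ring
  rw [Finset.sum_congr rfl fun j _ => h4 j, Finset.sum_comm]
  have h5 : ∀ l' : ZMod A.k, ∑ j : ZMod A.k, algebraMap D.F A.S (A.zp (j * l) *
        ((A.k : D.F)⁻¹ * A.zp (-(j * l')))) * A.slot l' r = if l' = l then A.slot l' r else 0 := by
    intro l'
    rw [← Finset.sum_mul, ← map_sum, h2]
    split_ifs
    · rw [map_one, one_mul]
    · rw [map_zero, zero_mul]
  rw [Finset.sum_congr rfl fun l' _ => h5 l', Finset.sum_ite_eq', if_pos (Finset.mem_univ _)]

theorem ph_hat_bs {n : ℕ} {r : D.S} (h : D.Iv n r) (g : Gn D.F) (j : ZMod A.k) :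
    A.ph (Gk.bs g) (A.hat j r) = algebraMap D.F A.S (D.chi n g) * A.hat j r := by
  rw [hat, map_mul, hat_fix, map_sum, mul_left_comm (algebraMap D.F A.S (D.chi n g))]
  congr 1
  rw [Finset.mul_sum]
  refine Finset.sum_congr rfl fun l _ => ?_
  rw [map_mul, hat_fix, ph_slot_bs, D.iv_ph h g, map_mul, hat_slot_alg, mul_left_comm]

theorem ph_hat_cyc (r : D.S) (j : ZMod A.k) :
    A.ph Gk.cyc (A.hat j r) = algebraMap D.F A.S (A.zp j) * A.hat j r := by
  rw [hat, map_mul, hat_fix, map_sum, mul_left_comm (algebraMap D.F A.S (A.zp j))]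
  congr 1
  rw [Finset.mul_sum, ← Equiv.sum_comp (Equiv.addRight (1 : ZMod A.k)) (fun l => algebraMap D.F A.S (A.zp j) *
    (algebraMap D.F A.S (A.zp (-(j * l))) * A.slot l r))]
  refine Finset.sum_congr rfl fun l _ => ?_
  rw [map_mul, hat_fix, ph_slot_cyc, Equiv.coe_addRight, ← mul_assoc, ← map_mul, ← zp_add]
  congr 3
  ring

theorem ev0_hat (j : ZMod A.k) (r : D.S) : A.ev0 (A.hat j r) = if j = 0 then r else 0 := by
  rw [hat, map_mul, map_sum, hat_ev0_alg]
  have h1 : ∀ l : ZMod A.k, A.ev0 (algebraMap D.F A.S (A.zp (-(j * l))) * A.slot l r) =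
      algebraMap D.F D.S (A.zp (-j * l)) * r := by
    intro l
    rw [map_mul, hat_ev0_alg, ev0_slot, neg_mul]
  rw [Finset.sum_congr rfl fun l _ => h1 l, ← Finset.sum_mul, ← map_sum, zp_sum, ← mul_assoc,
    ← map_mul]
  by_cases h : j = 0
  · rw [if_pos h, if_pos (neg_eq_zero.2 h), inv_mul_cancel₀ A.hkF, map_one, one_mul]
  · rw [if_neg h, if_neg (fun h' => h (neg_eq_zero.1 h')), mul_zero, map_zero, zero_mul]

/-! ## the Koszul datum of two invariants -/

/-- index set of `kQ` -/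
abbrev JQ : Type := Fin 2 × ZMod A.k

/-- order on `JQ` -/
@[reducible] def ordQ : LinearOrder A.JQ :=
  LinearOrder.lift' (fun x : A.JQ => toLex (x.1, x.2.val)) (fun x y h => by
    have h1 : (x.1, x.2.val) = (y.1, y.2.val) := toLex.injective h
    have h2 := congrArg Prod.fst h1
    have h3 := congrArg Prod.snd h1
    exact Prod.ext h2 (ZMod.val_injective _ h3))

theorem kQ_hy (d : Fin 2 → ℕ) (r : Fin 2 → D.S) (h : ∀ s, D.Iv (d s) (r s)) (g : Gk D.F)
    (j : A.JQ) (dd : DecidableEq A.JQ) : A.ph g (A.hat j.2 (r j.1)) =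
    ∑ i : A.JQ, algebraMap D.F A.S (dgo (fun x : A.JQ => A.chW d g x) (Pi.single j 1) i) *
      A.hat i.2 (r i.1) := by
  have h1 : ∀ i : A.JQ, dgo (fun x : A.JQ => A.chW d g x) (Pi.single j 1) i =
      A.chW d g i * (Pi.single j (1 : D.F) : A.JQ → D.F) i := fun i => rfl
  rw [Finset.sum_eq_single j]
  · rw [h1, Pi.single_eq_same, mul_one]
    cases g with
    | bs g => exact A.ph_hat_bs (h j.1) g j.2
    | cyc => exact A.ph_hat_cyc (r j.1) j.2
  · intro i _ hi
    rw [h1, Pi.single_eq_of_ne hi, mul_zero, map_zero, zero_mul]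
  · intro hn
    exact absurd (Finset.mem_univ j) hn

/-- The Koszul datum of the elements `hat j (r s)`, `s = 0, 1`, `j ∈ ℤ/k`. -/
def kQ (d : Fin 2 → ℕ) (r : Fin 2 → D.S) (h : ∀ s, D.Iv (d s) (r s)) : KS D.F A.ph where
  J := A.JQ
  lJ := A.ordQ
  rho g := dgo (fun x : A.JQ => A.chW d g x)
  y x := A.hat x.2 (r x.1)
  hy := fun g j => A.kQ_hy d r h g j _

/-- The vectors `∑_j ζ^{jl} e_{(s,j)}`, `i = 2 l + s`. -/
def vQ (i : ℕ) : A.JQ → D.F :=
  fun x => if x.1.val = i % 2 then A.zp (x.2 * ((i / 2 : ℕ) : ZMod A.k)) else 0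

/-- the sequence `slot_l (r s)`, `i = 2 l + s` -/
def sQ (r : Fin 2 → D.S) (i : ℕ) : A.S :=
  A.slot ((i / 2 : ℕ) : ZMod A.k) (r (if i % 2 = 0 then 0 else 1))

end Adm

end MSA
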