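import Mathlib
import Pool.Agent.MSA.Hat
import Pool.Agent.MSA.Hmp

/-!
# The slot basis of `kQ`

PROOFS.
`vQ_span`: for `(s, j) : A.JQ` one has `Pi.single (s, j) 1 = ∑_(l<k) (k⁻¹ ζ^{-jl}) • vQ (2 l + s)`: at `x = (s', j')` with
`s' ≠ s` both sides are `0`; for `s' = s` the right side is `k⁻¹ ∑_l ζ^{(j'-j) l}` (`zp_add`, `zp_sum`: the sum over
`l ∈ range k` of a function of `(l : ZMod k)` is the sum over `ZMod k`, compare `zmod_sum` in the file EgA; `(2 l + s) % 2 = s`,
`(2 l + s) / 2 = l`). All `2 l + s < 2 k`. The `Pi.single x 1` span (`pi_eq_sum_univ`).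
`yv_vQ`: unfold `KS.yv`, `Fintype.sum_prod_type`, only the `s` with `s.val = i % 2` contributes, `hat_slot`.
`yv_single`-type statements for `kQ`: `yQ_single`.
-/

set_option autoImplicit false
set_option linter.unusedSectionVars false

noncomputable section

namespace MSA

universe u v w

open MvPolynomial

namespace Adm

variable {D : Dat.{u}} (A : Adm D)

private theorem vq_zp_sum (j : ZMod A.k) :
    ∑ l : ZMod A.k, A.zp (j * l) = if j = 0 then (A.k : D.F) else 0 := A.zp_sum j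

private theorem vq_apply (s : Fin 2) (l : ZMod A.k) (x : A.JQ) :
    A.vQ (2 * l.val + s.val) x = if x.1 = s then A.zp (x.2 * l) else 0 := by
  unfold vQ
  have h1 : (2 * l.val + s.val) % 2 = s.val := by
    have := s.2
    omega
  have h2 : (2 * l.val + s.val) / 2 = l.val := by
    have := s.2
    omega
  rw [h1, h2, ZMod.natCast_zmod_val]
  by_cases h : x.1 = s
  · rw [if_pos h, if_pos (congrArg Fin.val h)]
  · rw [if_neg h, if_neg (fun h' => h (Fin.ext h'))]

private theorem vq_single (s : Fin 2) (j : ZMod A.k) :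
    (Pi.single (s, j) 1 : A.JQ → D.F) =
      ∑ l : ZMod A.k, ((A.k : D.F)⁻¹ * A.zp (-(j * l))) • A.vQ (2 * l.val + s.val) := by
  funext x
  rw [Finset.sum_apply]
  have h1 : ∀ l : ZMod A.k, (((A.k : D.F)⁻¹ * A.zp (-(j * l))) • A.vQ (2 * l.val + s.val)) x =
      (A.k : D.F)⁻¹ * (if x.1 = s then A.zp ((x.2 - j) * l) else 0) := by
    intro l
    rw [Pi.smul_apply, A.vq_apply, smul_eq_mul, mul_assoc]
    congr 1
    by_cases h : x.1 = s
    · rw [if_pos h, if_pos h, ← A.zp_add]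
      congr 1
      ring
    · rw [if_neg h, if_neg h, mul_zero]
  rw [Finset.sum_congr rfl fun l _ => h1 l, ← Finset.mul_sum]
  by_cases h : x.1 = s
  · have h2 : ∀ l : ZMod A.k, (if x.1 = s then A.zp ((x.2 - j) * l) else 0) =
        A.zp ((x.2 - j) * l) := fun l => if_pos h
    rw [Finset.sum_congr rfl fun l _ => h2 l, A.vq_zp_sum]
    by_cases h3 : x.2 = j
    · have h4 : x = (s, j) := Prod.ext h h3
      rw [if_pos (sub_eq_zero.2 h3), inv_mul_cancel₀ A.hkF, h4, Pi.single_eq_same]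
    · rw [if_neg (sub_ne_zero.2 h3), mul_zero, Pi.single_eq_of_ne]
      intro h4
      exact h3 (congrArg Prod.snd h4)
  · have h2 : ∀ l : ZMod A.k, (if x.1 = s then A.zp ((x.2 - j) * l) else 0) = 0 :=
      fun l => if_neg h
    rw [Finset.sum_congr rfl fun l _ => h2 l, Finset.sum_const_zero, mul_zero,
      Pi.single_eq_of_ne]
    intro h4
    exact h (congrArg Prod.fst h4)

theorem vQ_span : Submodule.span D.F (A.vQ '' Set.Iio (2 * A.k)) =
    (⊤ : Submodule D.F (A.JQ → D.F)) := by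
  rw [Submodule.eq_top_iff']
  intro w
  have hw : w = ∑ x : A.JQ, w x • (Pi.single x 1 : A.JQ → D.F) := by
    funext y
    rw [Finset.sum_apply, Finset.sum_eq_single y]
    · rw [Pi.smul_apply, Pi.single_eq_same, smul_eq_mul, mul_one]
    · intro x _ hx
      rw [Pi.smul_apply, Pi.single_eq_of_ne hx.symm, smul_zero]
    · intro h
      exact absurd (Finset.mem_univ y) h
  rw [hw]
  refine Submodule.sum_mem _ fun x _ => Submodule.smul_mem _ _ ?_
  obtain ⟨s, j⟩ := x
  rw [A.vq_single]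
  refine Submodule.sum_mem _ fun l _ => Submodule.smul_mem _ _ (Submodule.subset_span ?_)
  refine ⟨_, ?_, rfl⟩
  have h1 := l.val_lt
  have h2 := s.2
  rw [Set.mem_Iio]
  omega

theorem yv_vQ (d : Fin 2 → ℕ) (r : Fin 2 → D.S) (h : ∀ s, D.Iv (d s) (r s)) (i : ℕ) :
    (A.kQ d r h).yv (A.vQ i) = A.sQ r i := by
  show (∑ x : Fin 2 × ZMod A.k, algebraMap D.F A.S (A.vQ i x) * A.hat x.2 (r x.1)) = _
  rw [Fintype.sum_prod_type, Fin.sum_univ_two]
  unfold sQ vQ
  rcases Nat.mod_two_eq_zero_or_one i with h0 | h0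
  · rw [h0, if_pos rfl, A.hat_slot]
    have h1 : ∑ x : ZMod A.k, algebraMap D.F A.S (if ((1 : Fin 2), x).1.val = 0 then
        A.zp (((1 : Fin 2), x).2 * ((i / 2 : ℕ) : ZMod A.k)) else 0) *
          A.hat ((1 : Fin 2), x).2 (r ((1 : Fin 2), x).1) = 0 := by
      refine Finset.sum_eq_zero fun x _ => ?_
      rw [if_neg (by simp), map_zero, zero_mul]
    rw [h1, add_zero]
    refine Finset.sum_congr rfl fun x _ => ?_
    rw [if_pos (by simp)]
  · rw [h0, if_neg one_ne_zero, A.hat_slot]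
    have h1 : ∑ x : ZMod A.k, algebraMap D.F A.S (if ((0 : Fin 2), x).1.val = 1 then
        A.zp (((0 : Fin 2), x).2 * ((i / 2 : ℕ) : ZMod A.k)) else 0) *
          A.hat ((0 : Fin 2), x).2 (r ((0 : Fin 2), x).1) = 0 := by
      refine Finset.sum_eq_zero fun x _ => ?_
      rw [if_neg (by simp), map_zero, zero_mul]
    rw [h1, zero_add]
    refine Finset.sum_congr rfl fun x _ => ?_
    rw [if_pos (by simp)]

theorem yQ_single (d : Fin 2 → ℕ) (r : Fin 2 → D.S) (h : ∀ s, D.Iv (d s) (r s)) (x : A.JQ)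
    (dd : DecidableEq A.JQ) :
    (A.kQ d r h).yv (Pi.single x 1 : A.JQ → D.F) = A.hat x.2 (r x.1) := by
  show (∑ y : Fin 2 × ZMod A.k, algebraMap D.F A.S ((Pi.single x 1 : A.JQ → D.F) y) *
    A.hat y.2 (r y.1)) = _
  rw [Finset.sum_eq_single x]
  · rw [Pi.single_eq_same, map_one, one_mul]
  · intro y _ hy
    rw [Pi.single_eq_of_ne hy, map_zero, zero_mul]
  · intro h
    exact absurd (Finset.mem_univ x) h

end Adm

end MSA
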