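import Mathlib
import Pool.Agent.MSA.Vq
import Pool.Agent.MSA.Sop
import Pool.Agent.MSA.Cor

/-!
# The slot sequence `slot_0 y, slot_0 g, slot_1 y, slot_1 g, ...` on the tensor power

`sQ r i = slot (i/2) (r (i%2))`.

PROOFS.
`wreg_sQ`: `i < 2 k`, `l = i / 2 < k`; for `i' < i` with `i' / 2 < l` the slots `(i'/2 : ZMod k)` and `(l : ZMod k)` are different
(both numbers are `< k`: `ZMod.natCast_eq_natCast_iff'`, `Nat.mod_eq_of_lt`).
CASE `i = 2 l`: `iot (slot l (r 0)) • z = ∑_(i'<2l) iot (sQ r i') • c i'`. With `f` of `exists_lam` for `r 0` apply `sop l f`: left side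
`sop l id z = z` (`sop_slot_self`, `sop_id`), right side `∑ iot (sQ r i') • sop l f (c i')` (`sop_slot`).
CASE `i = 2 l + 1`: `iot (slot l (r 1)) • z = ∑_(i'<2l) iot (sQ r i') • c i' + iot (slot l (r 0)) • c (2 l)` (`Finset.sum_range_succ`).
With `f` of `exists_mu` for `r 0`, `r 1` apply `sop l f`: the last term goes to `sop l 0 .. = 0`; the left side is
`sop l g' z` with `g' m = f (iot (r 1) • m)` (an additive map that commutes with the constants), and
`z - sop l g' z = iot (slot l (r 0)) • z'` (`sop_mod`). So `z = ∑_(i'<2l) iot (sQ r i') • sop l f (c i') + iot (slot l (r 0)) • z'`, which is in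
`riG .. (2 l + 1)`.
`ker_sQ`: let `s` be a section of `q` (`exists_sct`), `e = s ∘ q : M →+ M`. `pfm e z = pfm s (pkm q z) = 0` (check
`pfm (s ∘ q) = pfm s ∘ pkm q` on pure tensors, `tpk_ext`), and `z - pfm e z ∈ N` by `pk_tel` with `N = riG .. (2 k)`:
`q (m l - e (m l)) = 0`, so `m l - e (m l) = iot (r 0) • a + iot (r 1) • b` and
`tpk (update m l ..) = iot (slot l (r 0)) • tpk (update m l a) + iot (slot l (r 1)) • tpk (update m l b)` (`tpk_update_add`, `slot_tpk`);
`slot l (r 0) = sQ r (2 l.val)`, `slot l (r 1) = sQ r (2 l.val + 1)`, `l.val < k`; a single term is in `riG` (take the coefficients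
`Pi.single`/`if`), a subgroup.
`kil_hat`: `hat` is a combination of the `slot l (r s)`, which act as zero on `Pk M'` (pure tensors: `tpk (update m l 0) = 0`,
compare `kil0_pk`).
-/

set_option autoImplicit false
set_option linter.unusedSectionVars false

noncomputable section

namespace MSA

universe u v w

open MvPolynomial

namespace Adm

variable {D : Dat.{u}} (A : Adm D)

variable {M M' : Type u} [AddCommGroup M] [Module D.R M] [AddCommGroup M'] [Module D.R M']

private theorem single_mem_riG (r : ℕ → A.S) (n i : ℕ) (hi : i < n) (z : A.Pk M) :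
    iot A.ph (r i) • z ∈ riG A.ph (A.Pk M) r n := by
  refine ⟨fun l => if l = i then z else 0, ?_⟩
  rw [Finset.sum_eq_single i]
  · show iot A.ph (r i) • z = iot A.ph (r i) • (if i = i then z else 0)
    rw [if_pos rfl]
  · intro l _ hl
    show iot A.ph (r l) • (if l = i then z else 0) = 0
    rw [if_neg hl, smul_zero]
  · intro h
    exact absurd (Finset.mem_range.2 hi) h

private theorem sQ_even (r : Fin 2 → D.S) (l : ℕ) :
    A.sQ r (2 * l) = A.slot (l : ZMod A.k) (r 0) := by
  have h1 : (2 * l) / 2 = l := by omega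
  have h2 : (2 * l) % 2 = 0 := by omega
  unfold sQ
  rw [h1, h2, if_pos rfl]

private theorem sQ_odd (r : Fin 2 → D.S) (l : ℕ) :
    A.sQ r (2 * l + 1) = A.slot (l : ZMod A.k) (r 1) := by
  have h1 : (2 * l + 1) / 2 = l := by omega
  have h2 : (2 * l + 1) % 2 = 1 := by omega
  unfold sQ
  rw [h1, h2, if_neg one_ne_zero]

private theorem cast_ne {a b : ℕ} (ha : a < b) (hb : b < A.k) :
    (a : ZMod A.k) ≠ (b : ZMod A.k) := by
  intro h
  rw [ZMod.natCast_eq_natCast_iff', Nat.mod_eq_of_lt (ha.trans hb), Nat.mod_eq_of_lt hb] at h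
  omega

theorem wreg_sQ (r : Fin 2 → D.S) (h0 : ∀ m : M, iot D.ph (r 0) • m = 0 → m = 0)
    (h1 : ∀ m m' : M, iot D.ph (r 1) • m = iot D.ph (r 0) • m' → ∃ m'', m = iot D.ph (r 0) • m'') :
    WReg A.ph (A.Pk M) (A.sQ r) (2 * A.k) := by
  intro i hi z hz
  obtain ⟨l, hl⟩ : ∃ l, l = i / 2 := ⟨_, rfl⟩
  have hlk : l < A.k := by omega
  rcases Nat.mod_two_eq_zero_or_one i with he | he
  · have hi' : i = 2 * l := by omega
    subst hi'
    clear hl
    obtain ⟨f, hf, hfy⟩ := exists_lam D (M := M) (r 0) h0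
    obtain ⟨c, hc⟩ := hz
    refine ⟨fun i' => A.sop (l : ZMod A.k) f hf (c i'), ?_⟩
    have hid : CLin D (AddMonoidHom.id M) := fun _ _ => rfl
    have h2 := congrArg (A.sop (l : ZMod A.k) f hf) hc
    rw [map_sum, sQ_even, A.sop_slot_self _ f (AddMonoidHom.id M) hf hid (r 0) hfy,
      A.sop_id] at h2
    rw [h2]
    refine Finset.sum_congr rfl fun i' hi' => ?_
    have hi2 : i' / 2 < l := by
      have := Finset.mem_range.1 hi'
      omega
    exact A.sop_slot (A.cast_ne hi2 hlk) f hf _ _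
  · have hi' : i = 2 * l + 1 := by omega
    subst hi'
    clear hl
    obtain ⟨f, hf, hf0, hf1⟩ := exists_mu D (M := M) (r 0) (r 1) h1
    obtain ⟨c, hc⟩ := hz
    have hg' : CLin D (f.comp (DistribSMul.toAddMonoidHom M (iot D.ph (r 1)))) := by
      intro c m
      show f (iot D.ph (r 1) • iot D.ph (C c) • m) = iot D.ph (C c) • f (iot D.ph (r 1) • m)
      rw [← hf, ← mul_smul, ← mul_smul, ← map_mul, ← map_mul, mul_comm]
    have hz0 : CLin D (0 : M →+ M) := fun _ _ => (smul_zero _).symm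
    obtain ⟨z', hz'⟩ := A.sop_mod (l : ZMod A.k) _ hg' (r 0) hf1 z
    have h2 := congrArg (A.sop (l : ZMod A.k) f hf) hc
    rw [Finset.sum_range_succ, map_add, map_sum, sQ_odd, sQ_even,
      A.sop_slot_self _ f _ hf hg' (r 1) (fun _ => rfl),
      A.sop_slot_self _ f 0 hf hz0 (r 0) hf0,
      A.sop_zero, add_zero] at h2
    have h3 : z = (∑ i' ∈ Finset.range (2 * l), iot A.ph (A.sQ r i') •
        A.sop (l : ZMod A.k) f hf (c i')) + iot A.ph (A.sQ r (2 * l)) • z' := by
      rw [sQ_even, ← hz', h2, add_comm, sub_add_eq_add_sub, eq_sub_iff_add_eq]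
      congr 1
      refine Finset.sum_congr rfl fun i' hi' => ?_
      have hi2 : i' / 2 < l := by
        have := Finset.mem_range.1 hi'
        omega
      exact A.sop_slot (A.cast_ne hi2 hlk) f hf _ _
    refine ⟨fun i' => if i' < 2 * l then A.sop (l : ZMod A.k) f hf (c i') else z', ?_⟩
    have h4 : ∀ i' ∈ Finset.range (2 * l), iot A.ph (A.sQ r i') •
        (if i' < 2 * l then A.sop (l : ZMod A.k) f hf (c i') else z') =
        iot A.ph (A.sQ r i') • A.sop (l : ZMod A.k) f hf (c i') := by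
      intro i' hi'
      rw [if_pos (Finset.mem_range.1 hi')]
    have h5 : iot A.ph (A.sQ r (2 * l)) •
        (if 2 * l < 2 * l then A.sop (l : ZMod A.k) f hf (c (2 * l)) else z') =
        iot A.ph (A.sQ r (2 * l)) • z' := by
      rw [if_neg (lt_irrefl _)]
    show z = ∑ i' ∈ Finset.range (2 * l + 1), iot A.ph (A.sQ r i') •
        (if i' < 2 * l then A.sop (l : ZMod A.k) f hf (c i') else z')
    rw [Finset.sum_range_succ, h5, Finset.sum_congr rfl h4]
    exact h3

theorem slot_mem_riG (r : Fin 2 → D.S) (l : ZMod A.k) (s : Fin 2) (z : A.Pk M) :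
    iot A.ph (A.slot l (r s)) • z ∈ riG A.ph (A.Pk M) (A.sQ r) (2 * A.k) := by
  have hl : l.val < A.k := ZMod.val_lt l
  have hc : ((l.val : ℕ) : ZMod A.k) = l := ZMod.natCast_zmod_val l
  match s with
  | 0 =>
    have h := A.single_mem_riG (A.sQ r) (2 * A.k) (2 * l.val) (by omega) z
    rw [sQ_even, hc] at h
    exact h
  | 1 =>
    have h := A.single_mem_riG (A.sQ r) (2 * A.k) (2 * l.val + 1) (by omega) z
    rw [sQ_odd, hc] at h
    exact h

theorem ker_sQ (r : Fin 2 → D.S) (q : M →ₗ[D.R] M') (hq : Function.Surjective q)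
    (hk : ∀ m, q m = 0 → ∃ a b, m = iot D.ph (r 0) • a + iot D.ph (r 1) • b) (z : A.Pk M)
    (hz : A.pkm q z = 0) : z ∈ riG A.ph (A.Pk M) (A.sQ r) (2 * A.k) := by
  obtain ⟨s, hs, hqs⟩ := exists_sct D q hq
  have he : CLin D (s.comp q.toAddMonoidHom) := by
    intro c m
    show s (q (iot D.ph (C c) • m)) = iot D.ph (C c) • s (q m)
    rw [← hs, ← q.map_smul]
  have h1 : A.pfm (fun _ => s.comp q.toAddMonoidHom) (fun _ => he) =
      (A.pfm (fun _ => s) (fun _ => hs)).comp (A.pkm q).toAddMonoidHom := by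
    apply A.tpk_ext
    intro m
    show A.pfm _ _ (A.tpk m) = A.pfm _ _ (A.pkm q (A.tpk m))
    rw [pkm_tpk]
    exact (A.pfm_tpk _ (fun _ => he) m).trans (A.pfm_tpk _ (fun _ => hs) _).symm
  have h2 : A.pfm (fun _ => s.comp q.toAddMonoidHom) (fun _ => he) z = 0 := by
    rw [h1]
    show A.pfm _ _ (A.pkm q z) = 0
    rw [hz, map_zero]
  have h3 := A.pk_tel (s.comp q.toAddMonoidHom) he (riG A.ph (A.Pk M) (A.sQ r) (2 * A.k)) ?_ z
  · rw [h2, sub_zero] at h3
    exact h3
  · intro l m
    have h4 : q (m l - (s.comp q.toAddMonoidHom) (m l)) = 0 := by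
      rw [map_sub]
      show q (m l) - q (s (q (m l))) = 0
      rw [hqs, sub_self]
    obtain ⟨a, b, hab⟩ := hk _ h4
    rw [hab, tpk_update_add]
    have h5 : ∀ (t : Fin 2) (a : M), A.tpk (Function.update m l (iot D.ph (r t) • a)) =
        iot A.ph (A.slot l (r t)) • A.tpk (Function.update m l a) := by
      intro t a
      rw [slot_tpk, Function.update_self, Function.update_idem]
    rw [h5, h5]
    exact AddSubgroup.add_mem _ (A.slot_mem_riG r l 0 _) (A.slot_mem_riG r l 1 _)

theorem kil_slot (s : D.S) (h : ∀ m : M, iot D.ph s • m = 0) (l : ZMod A.k) (z : A.Pk M) :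
    iot A.ph (A.slot l s) • z = 0 := by
  have h1 : DistribSMul.toAddMonoidHom (A.Pk M) (iot A.ph (A.slot l s)) =
      (0 : A.Pk M →+ A.Pk M) := by
    apply A.tpk_ext
    intro m
    show iot A.ph (A.slot l s) • A.tpk m = 0
    rw [slot_tpk, h]
    have h2 := A.tpk_update_add m l 0 0
    rw [add_zero] at h2
    exact left_eq_add.1 h2
  exact congrArg (fun t : A.Pk M →+ A.Pk M => t z) h1

theorem kil_hat (s : D.S) (h : ∀ m : M, iot D.ph s • m = 0) (j : ZMod A.k) (z : A.Pk M) :
    iot A.ph (A.hat j s) • z = 0 := by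
  unfold hat
  rw [map_mul, mul_smul, map_sum, Finset.sum_smul, Finset.sum_eq_zero, smul_zero]
  intro l _
  rw [map_mul, mul_smul, A.kil_slot s h, smul_zero]

end Adm

end MSA
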