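import Mathlib
import Pool.Agent.MSA.CiD
import Pool.Agent.MSA.Cor

/-!
# The variables `Y_{i,j}`, `j ≠ 0`, form a regular sequence on `S_k`

`vT 0, ..., vT (N-1)` is an enumeration of the standard basis of `F^JT`, `N = card JT`.

PROOFS.
`vT_span`: every `Pi.single x 1` is `vT ((Fintype.equivFin A.JT) x)`; these span (`pi_eq_sum_univ`).
`yT_single`, `yv_vT`: `KS.yv` of a standard basis vector is `X x.1`.
`wreg_vT`: for `z = toSr t` the condition `iot (X x) • z ∈ riG .. i` says that `X x * t` lies in the ideal generated by the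
variables `X (e l)`, `l < i` (`sr_iot`; an element of `riG` is such a combination, and conversely an element of
`Ideal.span (X '' s)` for the finite set `s` of the first `i` variables is a combination `∑_(l<i) X (e l) * c l`:
`Submodule.span_induction`, or `Ideal.span` as a `Finset` sum); by `MvPolynomial.mem_ideal_span_X_image` (a polynomial is in
the ideal iff every monomial of its support contains a variable from `s`) `t` lies in the ideal, because `x ∉ s`: the
monomials of `X x * t` are the monomials of `t` times `x` (`MvPolynomial.coeff_X_mul`, `support_X_mul`).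
`skq`: `s ↦ toUp (toSr (ev0 s))` is linear: `up_iot`, `up_bs`, `up_cyc`, `sr_iot`, `sr_gam`, `ev0_bs`, `ev0_cyc`; surjective:
`ev0_avg`. `ker_skq`: if `ev0 t = 0` then every monomial of `t` contains a variable `(i,j)`, `j ≠ 0`: `t - avg (ev0 t)` lies in
the ideal generated by these variables (the set of the `t` with this property is a subring containing constants and
variables: compare the two ring homomorphisms into the quotient, as in `slot_sub_avg`), then as in `wreg_vT` with all variables.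
-/

set_option autoImplicit false
set_option linter.unusedSectionVars false

noncomputable section

namespace MSA

universe u v w

open MvPolynomial

namespace Adm

variable {D : Dat.{u}} (A : Adm D)

/-- enumeration of the standard basis -/
def vT (i : ℕ) : A.JT → D.F :=
  fun x => if (Fintype.equivFin A.JT x : ℕ) = i then 1 else 0

private theorem vT_apply (x y : A.JT) : A.vT (Fintype.equivFin A.JT x : ℕ) y =
    if y = x then 1 else 0 := by
  unfold vT
  by_cases h : y = x
  · subst h
    rw [if_pos rfl, if_pos rfl]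
  · rw [if_neg h, if_neg]
    intro h1
    exact h ((Fintype.equivFin A.JT).injective (Fin.ext h1))

theorem vT_span : Submodule.span D.F (A.vT '' Set.Iio (Fintype.card A.JT)) =
    (⊤ : Submodule D.F (A.JT → D.F)) := by
  rw [eq_top_iff]
  intro v _
  have h1 : v = ∑ x : A.JT, v x • A.vT (Fintype.equivFin A.JT x : ℕ) := by
    funext y
    rw [Finset.sum_apply, Finset.sum_eq_single y]
    · rw [Pi.smul_apply, vT_apply, if_pos rfl, smul_eq_mul, mul_one]
    · intro x _ hx
      rw [Pi.smul_apply, vT_apply, if_neg (Ne.symm hx), smul_zero]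
    · intro h
      exact absurd (Finset.mem_univ y) h
  rw [h1]
  refine Submodule.sum_mem _ fun x _ => Submodule.smul_mem _ _ (Submodule.subset_span ?_)
  exact ⟨_, (Fintype.equivFin A.JT x).isLt, rfl⟩

theorem yv_vT (x : A.JT) : A.kT.yv (A.vT (Fintype.equivFin A.JT x : ℕ)) = X x.1 := by
  show ∑ j : A.JT, algebraMap D.F A.S (A.vT (Fintype.equivFin A.JT x : ℕ) j) * X j.1 = X x.1
  rw [Finset.sum_eq_single x]
  · rw [vT_apply, if_pos rfl, map_one, one_mul]
  · intro y _ hy
    rw [vT_apply, if_neg hy, map_zero, zero_mul]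
  · intro h
    exact absurd (Finset.mem_univ x) h

/-- the first `i` variables -/
private def vV (i : ℕ) : Set (Fin D.p × ZMod A.k) :=
  {y | ∃ x : A.JT, x.1 = y ∧ (Fintype.equivFin A.JT x : ℕ) < i}

private theorem yv_vT' (l : ℕ) (hl : l < Fintype.card A.JT) :
    A.kT.yv (A.vT l) = X ((Fintype.equivFin A.JT).symm ⟨l, hl⟩).1 := by
  have h := A.yv_vT ((Fintype.equivFin A.JT).symm ⟨l, hl⟩)
  rw [Equiv.apply_symm_apply] at h
  exact h

private theorem riG_iff (i : ℕ) (hi : i ≤ Fintype.card A.JT) (t : A.S) :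
    toSr A.ph t ∈ riG A.ph (Sr A.ph) (fun l => A.kT.yv (A.vT l)) i ↔
      t ∈ Ideal.span (X '' A.vV i : Set A.S) := by
  constructor
  · rintro ⟨c, hc⟩
    have h1 : t = ∑ l ∈ Finset.range i, A.kT.yv (A.vT l) * (toSr A.ph).symm (c l) := by
      apply (toSr A.ph).injective
      rw [hc, map_sum]
      refine Finset.sum_congr rfl fun l _ => ?_
      rw [← sr_iot, RingEquiv.apply_symm_apply]
    rw [h1]
    refine Ideal.sum_mem _ fun l hl => Ideal.mul_mem_right _ _ ?_
    have hl1 : l < i := Finset.mem_range.1 hl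
    rw [A.yv_vT' l (lt_of_lt_of_le hl1 hi)]
    refine Ideal.subset_span ⟨_, ⟨_, rfl, ?_⟩, rfl⟩
    rw [Equiv.apply_symm_apply]
    exact hl1
  · intro ht
    refine Submodule.span_induction
      (p := fun t _ => toSr A.ph t ∈ riG A.ph (Sr A.ph) (fun l => A.kT.yv (A.vT l)) i)
      ?_ ?_ ?_ ?_ ht
    · rintro _ ⟨y, ⟨x, rfl, hx⟩, rfl⟩
      refine ⟨fun l => if l = (Fintype.equivFin A.JT x : ℕ) then toSr A.ph 1 else 0, ?_⟩
      rw [Finset.sum_eq_single (Fintype.equivFin A.JT x : ℕ)]
      · show toSr A.ph (X x.1) = iot A.ph (A.kT.yv (A.vT (Fintype.equivFin A.JT x : ℕ))) •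
          (if (Fintype.equivFin A.JT x : ℕ) = (Fintype.equivFin A.JT x : ℕ) then toSr A.ph 1 else 0)
        rw [if_pos rfl, sr_iot, mul_one, yv_vT]
      · intro l _ hl
        show iot A.ph (A.kT.yv (A.vT l)) •
          (if l = (Fintype.equivFin A.JT x : ℕ) then toSr A.ph 1 else 0) = 0
        rw [if_neg hl, smul_zero]
      · intro h
        exact absurd (Finset.mem_range.2 hx) h
    · rw [map_zero]
      exact AddSubgroup.zero_mem _
    · intro a b _ _ ha hb
      rw [map_add]
      exact AddSubgroup.add_mem _ ha hb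
    · intro a b _ hb
      rw [smul_eq_mul, ← sr_iot]
      exact riG_iot _ _ _ _ hb

theorem wreg_vT : WReg A.ph (Sr A.ph) (fun l => A.kT.yv (A.vT l)) (Fintype.card A.JT) := by
  intro i hi z hz
  obtain ⟨t, rfl⟩ := (toSr A.ph).surjective z
  have hz' : iot A.ph (A.kT.yv (A.vT i)) • toSr A.ph t ∈
      riG A.ph (Sr A.ph) (fun l => A.kT.yv (A.vT l)) i := hz
  rw [sr_iot, A.riG_iff i hi.le, A.yv_vT' i hi, mem_ideal_span_X_image] at hz'
  rw [A.riG_iff i hi.le, mem_ideal_span_X_image]
  intro m hm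
  have hm1 : coeff m t ≠ 0 := mem_support_iff.1 hm
  obtain ⟨y, hy, hy1⟩ := hz' (Finsupp.single ((Fintype.equivFin A.JT).symm ⟨i, hi⟩).1 1 + m)
    (by rw [mem_support_iff, coeff_X_mul]; exact hm1)
  refine ⟨y, hy, ?_⟩
  obtain ⟨x, rfl, hx⟩ := hy
  have hne : ((Fintype.equivFin A.JT).symm ⟨i, hi⟩).1 ≠ x.1 := by
    intro h
    have h2 : (Fintype.equivFin A.JT).symm ⟨i, hi⟩ = x := Subtype.ext h
    rw [← h2, Equiv.apply_symm_apply] at hx
    exact lt_irrefl _ hx
  rw [Finsupp.add_apply, Finsupp.single_eq_of_ne' hne, zero_add] at hy1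
  exact hy1

theorem skq_iot (s : A.S) (z : Sr A.ph) :
    A.toUp (Sr D.ph) (toSr D.ph (A.ev0 ((toSr A.ph).symm (iot A.ph s • z)))) =
      iot A.ph s • A.toUp (Sr D.ph) (toSr D.ph (A.ev0 ((toSr A.ph).symm z))) := by
  obtain ⟨t, rfl⟩ := (toSr A.ph).surjective z
  rw [sr_iot, RingEquiv.symm_apply_apply, RingEquiv.symm_apply_apply, up_iot, sr_iot, map_mul A.ev0]

theorem skq_gam (g : Gk D.F) (z : Sr A.ph) :
    A.toUp (Sr D.ph) (toSr D.ph (A.ev0 ((toSr A.ph).symm (gam A.ph g • z)))) =
      gam A.ph g • A.toUp (Sr D.ph) (toSr D.ph (A.ev0 ((toSr A.ph).symm z))) := by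
  obtain ⟨t, rfl⟩ := (toSr A.ph).surjective z
  rw [sr_gam, RingEquiv.symm_apply_apply, RingEquiv.symm_apply_apply]
  cases g with
  | bs g => rw [up_bs, sr_gam, ev0_bs]
  | cyc => rw [up_cyc, ev0_cyc]

/-- the map `S_k → S` -/
def skq : Sr A.ph →ₗ[A.R] A.Up (Sr D.ph) :=
  mkLin
    { toFun := fun z => A.toUp (Sr D.ph) (toSr D.ph (A.ev0 ((toSr A.ph).symm z)))
      map_zero' := by rw [map_zero, map_zero, map_zero, map_zero]
      map_add' := fun x y => by rw [map_add, map_add, map_add, map_add] }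
    A.skq_iot A.skq_gam

theorem skq_apply (t : A.S) : A.skq (toSr A.ph t) = A.toUp (Sr D.ph) (toSr D.ph (A.ev0 t)) := rfl

theorem skq_surj : Function.Surjective A.skq := by
  intro y
  obtain ⟨m, rfl⟩ := (A.toUp (Sr D.ph)).surjective y
  obtain ⟨s, rfl⟩ := (toSr D.ph).surjective m
  exact ⟨toSr A.ph (A.avg s), by rw [skq_apply, ev0_avg]⟩

private theorem mk_ev0 (t : A.S) : t - A.avg (A.ev0 t) ∈
    Ideal.span (X '' A.vV (Fintype.card A.JT) : Set A.S) := by
  have h : (Ideal.Quotient.mk (Ideal.span (X '' A.vV (Fintype.card A.JT) : Set A.S))) =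
      (Ideal.Quotient.mk (Ideal.span (X '' A.vV (Fintype.card A.JT) : Set A.S))).comp
        (A.avg.comp A.ev0) := by
    apply MvPolynomial.ringHom_ext
    · intro c
      simp [avg, ev0_C]
    · rintro ⟨i, j⟩
      rw [RingHom.comp_apply, RingHom.comp_apply, ev0_X]
      by_cases hj : j = 0
      · rw [if_pos hj]
        have ha : A.avg (X i) = X (i, 0) := by simp [avg]
        rw [ha, hj]
      · rw [if_neg hj, map_zero, map_zero, Ideal.Quotient.eq_zero_iff_mem]
        refine Ideal.subset_span ⟨_, ⟨(⟨(i, j), hj⟩ : A.JT), rfl, ?_⟩, rfl⟩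
        exact (Fintype.equivFin A.JT _).isLt
  rw [← Ideal.Quotient.eq_zero_iff_mem, map_sub, sub_eq_zero]
  exact congrArg (fun f => f t) h

theorem ker_skq (z : Sr A.ph) (hz : A.skq z = 0) :
    z ∈ riG A.ph (Sr A.ph) (fun l => A.kT.yv (A.vT l)) (Fintype.card A.JT) := by
  obtain ⟨t, rfl⟩ := (toSr A.ph).surjective z
  rw [A.riG_iff _ le_rfl]
  have h1 : A.ev0 t = 0 := by
    rw [skq_apply] at hz
    have h2 := (A.toUp (Sr D.ph)).injective (hz.trans (map_zero (A.toUp (Sr D.ph))).symm)
    exact (toSr D.ph).injective (h2.trans (map_zero (toSr D.ph)).symm)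
  have h3 := A.mk_ev0 t
  rw [h1, map_zero, sub_zero] at h3
  exact h3

end Adm

end MSA
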