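import Mathlib
import Pool.Agent.MSA.Rsl
import Pool.Agent.MSA.Rva
import Pool.Agent.MSA.Kad
import Pool.Agent.MSA.Fil

/-!
# The three collapses

PROOFS.
`ciA`: `KS.col_snd` for `K1 = kQ d r h`, `K2 = kT`, `q = pkm q`, `v = vQ`, `n = 2 k`: surjective `pkm_surj`; `hy`: `kil_hat` (each `r s`
kills `M'`: `q` is surjective and `iot (r s) • q m = q (iot (r s) • m) = 0` by `hk`); `vQ_span`; `yv_vQ` turns the sequence into
`sQ r`: `wreg_sQ`, `ker_sQ`.
`ciB`: `KS.col_fst` for `K1 = kQ d r h`, `K2 = kT`, `q = skq`, `v = vT`, `n = card JT`: `skq_surj`; `hy`: `iot (X x.1)` acts on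
`Up` as `iot (ev0 (X x.1)) = iot 0` (`up_iot`, `ev0_X`); `vT_span`, `wreg_vT`, `ker_skq`.
`ciC`: `KS.col` for `K = kQ d r h`, `K' = kW d`, `f` = restriction of functions from `JQ` to `JW` (`rQW`), `q = upM q`,
`v i = e_(0,0)` for `i = 0`, `e_(1,0)` for `i = 1` (`vW`), `n = 2`. `hf`: both operators are diagonal with the same entries.
`f` surjective: extend by zero. `hy`: `K'.y = 0`, so `K'.yv = 0`; for `j = (s, 0)`: `iot (hat 0 (r s))` acts on `Up M'` as
`iot (ev0 ..) = iot (r s)` (`ev0_hat`), which is zero on `M'`; for `j = (s, j')`, `j' ≠ 0`, `ev0 (hat j' _) = 0`. Kernel of `f`: functions supported on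
the two points `(0,0)`, `(1,0)`. `K.yv (vW s) = hat 0 (r s)` (`yQ_single`). Regularity: on `Up M` the elements act as `r 0`, `r 1`: `h0`, `h1`
(`riG .. 0 = {0}`, `riG .. 1 = (r 0) M`). Kernel: `hk`.
-/

set_option autoImplicit false
set_option linter.unusedSectionVars false

noncomputable section

namespace MSA

universe u v w

open MvPolynomial

namespace Adm

variable {D : Dat.{u}} (A : Adm D)

variable {M M' : Type u} [AddCommGroup M] [Module D.R M] [AddCommGroup M'] [Module D.R M']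

private theorem kill_h75 (r : Fin 2 → D.S) (q : M →ₗ[D.R] M') (hq : Function.Surjective q)
    (hk : ∀ m, q m = 0 ↔ ∃ a b, m = iot D.ph (r 0) • a + iot D.ph (r 1) • b) (s : Fin 2) (m : M') :
    iot D.ph (r s) • m = 0 := by
  obtain ⟨m, rfl⟩ := hq m
  rw [← map_smul, hk]
  fin_cases s
  · exact ⟨m, 0, by
      rw [smul_zero, add_zero]
      rfl⟩
  · exact ⟨0, m, by
      rw [smul_zero, zero_add]
      rfl⟩

/-- collapse of `kQ` on tensor powers -/
theorem ciA (d : Fin 2 → ℕ) (r : Fin 2 → D.S) (h : ∀ s, D.Iv (d s) (r s))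
    (h0 : ∀ m : M, iot D.ph (r 0) • m = 0 → m = 0)
    (h1 : ∀ m m' : M, iot D.ph (r 1) • m = iot D.ph (r 0) • m' → ∃ m'', m = iot D.ph (r 0) • m'')
    (q : M →ₗ[D.R] M') (hq : Function.Surjective q)
    (hk : ∀ m, q m = 0 ↔ ∃ a b, m = iot D.ph (r 0) • a + iot D.ph (r 1) • b) :
    Nonempty ((((A.kQ d r h).add A.kT).ch (A.Pk M)).H0 ≃ₗ[A.R] (A.tch (A.Pk M')).H0) ∧
      Nonempty ((((A.kQ d r h).add A.kT).ch (A.Pk M)).H1 ≃ₗ[A.R] (A.tch (A.Pk M')).H1) := by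
  have e : (fun l => (A.kQ d r h).yv (A.vQ l)) = A.sQ r := funext (A.yv_vQ d r h)
  refine KS.col_snd (A.kQ d r h) A.kT (A.pkm q) (A.pkm_surj q hq) ?_ A.vQ (2 * A.k) A.vQ_span ?_ ?_
  · intro j z
    exact A.kil_hat (r j.1) (kill_h75 r q hq hk j.1) j.2 z
  · rw [e]
    exact A.wreg_sQ r h0 h1
  · rw [e]
    exact A.ker_sQ r q hq (fun m hm => (hk m).1 hm)

/-- collapse of `kT` on `S_k` -/
theorem ciB (d : Fin 2 → ℕ) (r : Fin 2 → D.S) (h : ∀ s, D.Iv (d s) (r s)) :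
    Nonempty ((((A.kQ d r h).add A.kT).ch (Sr A.ph)).H0 ≃ₗ[A.R]
        ((A.kQ d r h).ch (A.Up (Sr D.ph))).H0) ∧
      Nonempty ((((A.kQ d r h).add A.kT).ch (Sr A.ph)).H1 ≃ₗ[A.R]
        ((A.kQ d r h).ch (A.Up (Sr D.ph))).H1) := by
  refine KS.col_fst (A.kQ d r h) A.kT A.skq A.skq_surj ?_ A.vT (Fintype.card A.JT) A.vT_span A.wreg_vT
    A.ker_skq
  intro j z
  obtain ⟨z, rfl⟩ := (A.toUp (Sr D.ph)).surjective z
  show iot A.ph (X j.1) • A.toUp (Sr D.ph) z = 0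
  rw [up_iot, ev0_X, if_neg j.2, map_zero, zero_smul, map_zero]

/-- restriction of functions from `JQ` to `JW` -/
def rQW (d : Fin 2 → ℕ) (r : Fin 2 → D.S) (h : ∀ s, D.Iv (d s) (r s)) :
    ((A.kQ d r h).J → D.F) →ₗ[D.F] ((A.kW d).J → D.F) where
  toFun := fun (v : A.JQ → D.F) (x : A.JW) => v x.1
  map_add' _ _ := rfl
  map_smul' _ _ := rfl

/-- the two invariant vectors -/
def vW (i : ℕ) : A.JQ → D.F := fun x => if x.1.val = i ∧ x.2 = 0 then 1 else 0

private theorem yv_vW_h75 (d : Fin 2 → ℕ) (r : Fin 2 → D.S) (h : ∀ s, D.Iv (d s) (r s)) (s : Fin 2) :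
    (A.kQ d r h).yv (A.vW s.val) = A.hat 0 (r s) := by
  have e : A.vW s.val = (Pi.single ((s, 0) : A.JQ) 1 : A.JQ → D.F) := by
    funext x
    unfold vW
    by_cases hx : x = (s, 0)
    · subst hx
      rw [Pi.single_eq_same, if_pos ⟨rfl, rfl⟩]
    · rw [Pi.single_eq_of_ne hx, if_neg]
      rintro ⟨h1, h2⟩
      exact hx (Prod.ext (Fin.ext h1) h2)
  rw [e]
  exact A.yQ_single d r h (s, 0) _

private theorem up_hat_h75 (s : D.S) (m : M) :
    iot A.ph (A.hat 0 s) • A.toUp M m = A.toUp M (iot D.ph s • m) := by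
  rw [up_iot, ev0_hat, if_pos rfl]

private theorem span_vW_h75 (d : Fin 2 → ℕ) (r : Fin 2 → D.S) (h : ∀ s, D.Iv (d s) (r s)) :
    Submodule.span D.F (@Set.image ℕ ((A.kQ d r h).J → D.F) A.vW (Set.Iio 2)) =
      LinearMap.ker (A.rQW d r h) := by
  apply le_antisymm
  · rw [Submodule.span_le]
    rintro _ ⟨i, -, rfl⟩
    show A.rQW d r h (A.vW i) = 0
    funext x
    show (if x.1.1.val = i ∧ x.1.2 = 0 then (1 : D.F) else 0) = 0
    exact if_neg fun h => x.2 h.2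
  · intro w hw
    have hw' : ∀ x : A.JQ, x.2 ≠ 0 → w x = 0 := by
      intro x hx
      exact congrFun (LinearMap.mem_ker.1 hw) (⟨x, hx⟩ : A.JW)
    have e : w = w ((0, 0) : A.JQ) • (A.vW 0 : (A.kQ d r h).J → D.F) +
        w ((1, 0) : A.JQ) • (A.vW 1 : (A.kQ d r h).J → D.F) := by
      funext x
      show w x = w ((0, 0) : A.JQ) * A.vW 0 x + w ((1, 0) : A.JQ) * A.vW 1 x
      obtain ⟨s, j⟩ := x
      by_cases hj : j = 0
      · subst hj
        fin_cases s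
        · have e0 : A.vW 0 ((0 : Fin 2), (0 : ZMod A.k)) = 1 := if_pos ⟨rfl, rfl⟩
          have e1 : A.vW 1 ((0 : Fin 2), (0 : ZMod A.k)) = 0 := if_neg fun h => absurd (show (0 : ℕ) = 1 from h.1) (by decide)
          show w ((0 : Fin 2), (0 : ZMod A.k)) = w ((0, 0) : A.JQ) * A.vW 0 ((0 : Fin 2), (0 : ZMod A.k)) +
            w ((1, 0) : A.JQ) * A.vW 1 ((0 : Fin 2), (0 : ZMod A.k))
          rw [e0, e1, mul_one, mul_zero, add_zero]
        · have e0 : A.vW 0 ((1 : Fin 2), (0 : ZMod A.k)) = 0 :=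
            if_neg fun h => absurd (show (1 : ℕ) = 0 from h.1) (by decide)
          have e1 : A.vW 1 ((1 : Fin 2), (0 : ZMod A.k)) = 1 := if_pos ⟨rfl, rfl⟩
          show w ((1 : Fin 2), (0 : ZMod A.k)) = w ((0, 0) : A.JQ) * A.vW 0 ((1 : Fin 2), (0 : ZMod A.k)) +
            w ((1, 0) : A.JQ) * A.vW 1 ((1 : Fin 2), (0 : ZMod A.k))
          rw [e0, e1, mul_one, mul_zero, zero_add]
      · have e0 : A.vW 0 (s, j) = 0 := if_neg fun h => hj h.2
        have e1 : A.vW 1 (s, j) = 0 := if_neg fun h => hj h.2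
        rw [e0, e1, mul_zero, mul_zero, add_zero]
        exact hw' (s, j) hj
    rw [e]
    refine Submodule.add_mem _ (Submodule.smul_mem _ _ (Submodule.subset_span ⟨0, ?_, rfl⟩))
      (Submodule.smul_mem _ _ (Submodule.subset_span ⟨1, ?_, rfl⟩))
    · exact Nat.zero_lt_two
    · exact Nat.one_lt_two

/-- collapse of the invariant vectors -/
theorem ciC (d : Fin 2 → ℕ) (r : Fin 2 → D.S) (h : ∀ s, D.Iv (d s) (r s))
    (h0 : ∀ m : M, iot D.ph (r 0) • m = 0 → m = 0)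
    (h1 : ∀ m m' : M, iot D.ph (r 1) • m = iot D.ph (r 0) • m' → ∃ m'', m = iot D.ph (r 0) • m'')
    (q : M →ₗ[D.R] M') (hq : Function.Surjective q)
    (hk : ∀ m, q m = 0 ↔ ∃ a b, m = iot D.ph (r 0) • a + iot D.ph (r 1) • b) :
    Nonempty (((A.kQ d r h).ch (A.Up M)).H0 ≃ₗ[A.R] ((A.kW d).ch (A.Up M')).H0) ∧
      Nonempty (((A.kQ d r h).ch (A.Up M)).H1 ≃ₗ[A.R] ((A.kW d).ch (A.Up M')).H1) := by
  have y0 : (A.kQ d r h).yv (A.vW 0) = A.hat 0 (r 0) := A.yv_vW_h75 d r h 0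
  have y1 : (A.kQ d r h).yv (A.vW 1) = A.hat 0 (r 1) := A.yv_vW_h75 d r h 1
  refine KS.col (A.kQ d r h) (A.kW d) (A.rQW d r h) (fun g v => rfl) ?_ (A.upM q) ?_ ?_ A.vW 2
    (A.span_vW_h75 d r h) ?_ ?_
  · intro w
    refine ⟨(fun x : A.JQ => if hx : x.2 ≠ 0 then w (⟨x, hx⟩ : A.JW) else 0 : A.JQ → D.F), ?_⟩
    funext x
    exact dif_pos x.2
  · intro z
    obtain ⟨z, rfl⟩ := (A.toUp M').surjective z
    obtain ⟨m, rfl⟩ := hq z
    exact ⟨A.toUp M m, rfl⟩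
  · intro j z
    obtain ⟨z, rfl⟩ := (A.toUp M').surjective z
    have e1 : (A.kW d).yv (A.rQW d r h (Pi.single j 1)) = 0 := by
      unfold KS.yv
      exact Finset.sum_eq_zero fun i _ => mul_zero _
    rw [e1, map_zero, zero_smul]
    show iot A.ph (A.hat j.2 (r j.1)) • A.toUp M' z = 0
    rw [up_iot, ev0_hat]
    by_cases hj : j.2 = 0
    · rw [if_pos hj, kill_h75 r q hq hk, map_zero]
    · rw [if_neg hj, map_zero, zero_smul, map_zero]
  · intro i hi z hz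
    obtain ⟨z, rfl⟩ := (A.toUp M).surjective z
    obtain ⟨c, hc⟩ := hz
    rcases (by omega : i = 0 ∨ i = 1) with rfl | rfl
    · rw [Finset.range_zero, Finset.sum_empty] at hc
      have hc' : iot A.ph ((A.kQ d r h).yv (A.vW 0)) • A.toUp M z = 0 := hc
      rw [y0, up_hat_h75, map_eq_zero_iff _ (A.toUp M).injective] at hc'
      rw [h0 z hc', map_zero]
      exact AddSubgroup.zero_mem _
    · rw [Finset.sum_range_one] at hc
      have hc' : iot A.ph ((A.kQ d r h).yv (A.vW 1)) • A.toUp M z =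
        iot A.ph ((A.kQ d r h).yv (A.vW 0)) • c 0 := hc
      obtain ⟨c0, hc0⟩ := (A.toUp M).surjective (c 0)
      rw [← hc0, y0, y1, up_hat_h75, up_hat_h75] at hc'
      obtain ⟨m, hm⟩ := h1 z c0 ((A.toUp M).injective hc')
      refine ⟨fun _ => A.toUp M m, ?_⟩
      rw [Finset.sum_range_one]
      show A.toUp M z = iot A.ph ((A.kQ d r h).yv (A.vW 0)) • A.toUp M m
      rw [y0, up_hat_h75, hm]
  · intro z hz
    obtain ⟨z, rfl⟩ := (A.toUp M).surjective z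
    rw [upM_apply, map_eq_zero_iff _ (A.toUp M').injective, hk] at hz
    obtain ⟨a, b, rfl⟩ := hz
    refine ⟨fun i => if i = 0 then A.toUp M a else A.toUp M b, ?_⟩
    rw [Finset.sum_range_succ, Finset.sum_range_one]
    show _ = iot A.ph ((A.kQ d r h).yv (A.vW 0)) • A.toUp M a +
      iot A.ph ((A.kQ d r h).yv (A.vW 1)) • A.toUp M b
    rw [y0, y1, up_hat_h75, up_hat_h75, map_add]

end Adm

end MSA
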