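import Mathlib
import Pool.Agent.MSA.Slo

/-!
# The tensor power of `S` is `S_k`

PROOFS.
`skm`: `m ↦ ∏_l slot l (m l)` is `D.L`-multilinear: additive in each slot, and `slot l (C c * s) = C c * slot l s` (`slot_C`)
(`Finset.prod_update_of_mem` or `Finset.prod_erase_mul`); `ski` is its `PiTensorProduct.lift`; `ski_tpk`: `lift.tprod`.
`ski_slot`: for `z = tpk m` (`tpk_ext`): `slot_tpk`, the product over the updated family is `slot l s` times the old product.
`ski_gam`: on pure tensors: `bs_tpk`, `sr_gam`, `ph (bs g) (∏ slot l (m l)) = ∏ slot l (ph g (m l))` (`ph_slot_bs`: equality of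
ring homomorphisms, `MvPolynomial.ringHom_ext`); `cyc_tpk`, `ph cyc (slot l s) = slot (l+1) s`, reindex the product
(`Equiv.prod_comp (Equiv.addRight 1)`). (The two formulas for `ph (slot l s)` are also in the file Hat; you may import Hat.)
`skj`: `s ↦ iot s • tpk 1`, `gam g • tpk 1 = tpk 1`. `ski (skj s) = s * ski (tpk 1) = s` (linearity). `skj (ski (tpk m)) =
(∏ slot l (m l)) • tpk 1 = tpk m` (`slot_tpk`, induction over the slots: for `T : Finset (ZMod k)`,
`iot (∏_(l ∈ T) slot l (m l)) • tpk 1 = tpk (fun l => if l ∈ T then m l else 1)`). So `ski` is bijective.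
-/

set_option autoImplicit false
set_option linter.unusedSectionVars false

noncomputable section

namespace MSA

universe u v w

open MvPolynomial

namespace Adm

variable {D : Dat.{u}} (A : Adm D)

private theorem sk_X (l : ZMod A.k) (i : Fin D.p) : A.slot l (MvPolynomial.X i) =
    ∑ j, MvPolynomial.C (algebraMap D.F D.L (A.zp (j * l))) * MvPolynomial.X (i, j) := by
  simp [slot]

private theorem sk_bs (g : Gn D.F) (l : ZMod A.k) (s : D.S) :
    A.ph (Gk.bs g) (A.slot l s) = A.slot l (D.ph g s) := by
  have h : (A.ph (Gk.bs g)).comp (A.slot l) = (A.slot l).comp (D.ph g) := by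
    apply MvPolynomial.ringHom_ext
    · intro r
      cases g with
      | tau =>
        have h1 : D.ph Gn.tau (MvPolynomial.C r) = MvPolynomial.C (D.s r) := D.tauS_C r
        rw [RingHom.comp_apply, RingHom.comp_apply, h1, slot_C, slot_C]
        simp [ph, tauS]
      | th c =>
        have h1 : D.ph (Gn.th c) (MvPolynomial.C r) = MvPolynomial.C r := by
          simp [Dat.ph, Dat.thS]
        rw [RingHom.comp_apply, RingHom.comp_apply, h1, slot_C]
        simp [ph, thS]
    · intro i
      cases g with
      | tau =>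
        have h1 : D.ph Gn.tau (MvPolynomial.X i) =
          MvPolynomial.C (algebraMap D.F D.L (D.cf (i + 1))) * MvPolynomial.X (i + 1) := D.tauS_X i
        rw [RingHom.comp_apply, RingHom.comp_apply, h1, map_mul, slot_C, sk_X, sk_X, map_sum,
          Finset.mul_sum]
        refine Finset.sum_congr rfl fun j _ => ?_
        have h2 : A.ph (Gk.bs Gn.tau) (MvPolynomial.C (algebraMap D.F D.L (A.zp (j * l)))) =
            MvPolynomial.C (algebraMap D.F D.L (A.zp (j * l))) := by
          simp [ph, tauS]
        have h3 : A.ph (Gk.bs Gn.tau) (MvPolynomial.X (i, j)) =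
            MvPolynomial.C (algebraMap D.F D.L (D.cf (i + 1))) * MvPolynomial.X (i + 1, j) := by
          simp [ph, tauS]
        rw [map_mul, h2, h3]
        ring
      | th c =>
        have h1 : D.ph (Gn.th c) (MvPolynomial.X i) =
            MvPolynomial.C (algebraMap D.F D.L (c : D.F)) * MvPolynomial.X i := by
          simp [Dat.ph, Dat.thS]
        rw [RingHom.comp_apply, RingHom.comp_apply, h1, map_mul, slot_C, sk_X, map_sum,
          Finset.mul_sum]
        refine Finset.sum_congr rfl fun j _ => ?_
        have h2 : A.ph (Gk.bs (Gn.th c)) (MvPolynomial.C (algebraMap D.F D.L (A.zp (j * l)))) =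
            MvPolynomial.C (algebraMap D.F D.L (A.zp (j * l))) := by
          simp [ph, thS]
        have h3 : A.ph (Gk.bs (Gn.th c)) (MvPolynomial.X (i, j)) =
            MvPolynomial.C (algebraMap D.F D.L (c : D.F)) * MvPolynomial.X (i, j) := by
          simp [ph, thS]
        rw [map_mul, h2, h3]
        ring
  exact congrArg (fun t => t s) h

private theorem sk_cyc (l : ZMod A.k) (s : D.S) :
    A.ph Gk.cyc (A.slot l s) = A.slot (l + 1) s := by
  have h : (A.ph Gk.cyc).comp (A.slot l) = A.slot (l + 1) := by
    apply MvPolynomial.ringHom_ext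
    · intro r
      rw [RingHom.comp_apply, slot_C, slot_C]
      simp [ph, cyS]
    · intro i
      rw [RingHom.comp_apply, sk_X, sk_X, map_sum]
      refine Finset.sum_congr rfl fun j _ => ?_
      have h2 : A.ph Gk.cyc (MvPolynomial.C (algebraMap D.F D.L (A.zp (j * l)))) =
          MvPolynomial.C (algebraMap D.F D.L (A.zp (j * l))) := by
        simp [ph, cyS]
      have h3 : A.ph Gk.cyc (MvPolynomial.X (i, j)) =
          MvPolynomial.C (algebraMap D.F D.L (A.zp j)) * MvPolynomial.X (i, j) := by
        simp [ph, cyS]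
      rw [map_mul, h2, h3, ← mul_assoc, ← map_mul, ← map_mul, ← zp_add, mul_add, mul_one]
  exact congrArg (fun t => t s) h

private theorem sk_upd (m : ZMod A.k → Sr D.ph) (i : ZMod A.k) (x : Sr D.ph) :
    ∏ l, A.slot l ((toSr D.ph).symm (Function.update m i x l)) =
      A.slot i ((toSr D.ph).symm x) *
        ∏ l ∈ Finset.univ.erase i, A.slot l ((toSr D.ph).symm (m l)) := by
  rw [← Finset.mul_prod_erase Finset.univ _ (Finset.mem_univ i), Function.update_self]
  congr 1
  refine Finset.prod_congr rfl fun l hl => ?_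
  rw [Function.update_of_ne (Finset.ne_of_mem_erase hl)]

private theorem sk_add (m : ZMod A.k → Sr D.ph) (i : ZMod A.k) (x y : Sr D.ph) :
    ∏ l, A.slot l ((toSr D.ph).symm (Function.update m i (x + y) l)) =
      ∏ l, A.slot l ((toSr D.ph).symm (Function.update m i x l)) +
        ∏ l, A.slot l ((toSr D.ph).symm (Function.update m i y l)) := by
  rw [sk_upd, sk_upd, sk_upd, map_add, map_add, add_mul]

private theorem sk_smul (m : ZMod A.k → Sr D.ph) (i : ZMod A.k) (c : D.L) (x : Sr D.ph) :
    ∏ l, A.slot l ((toSr D.ph).symm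
        (Function.update m i (iot D.ph (MvPolynomial.C c) • x) l)) =
      c • ∏ l, A.slot l ((toSr D.ph).symm (Function.update m i x l)) := by
  have h1 : (toSr D.ph).symm (iot D.ph (MvPolynomial.C c) • x) =
      MvPolynomial.C c * (toSr D.ph).symm x := by
    have h2 := sr_iot D.ph (MvPolynomial.C c) ((toSr D.ph).symm x)
    rw [RingEquiv.apply_symm_apply] at h2
    rw [h2, RingEquiv.symm_apply_apply]
  rw [sk_upd, sk_upd, h1, map_mul, slot_C, MvPolynomial.smul_eq_C_mul, mul_assoc]

/-- the multilinear map behind `exists_ski` -/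
private def skm : MultilinearMap D.L (fun _ : ZMod A.k => UL D (Sr D.ph)) A.S where
  toFun := fun m => ∏ l, A.slot l ((toSr D.ph).symm ((m : ZMod A.k → Sr D.ph) l))
  map_update_add' := by
    intro inst m l x y
    obtain rfl : inst = ZMod.decidableEq A.k := Subsingleton.elim _ _
    exact A.sk_add m l x y
  map_update_smul' := by
    intro inst m l c x
    obtain rfl : inst = ZMod.decidableEq A.k := Subsingleton.elim _ _
    exact A.sk_smul m l c x

/-- The multiplication map `S^{⊗ k} → S_k`. -/
theorem exists_ski : ∃ f : A.Pk (Sr D.ph) →+ Sr A.ph, ∀ m : ZMod A.k → Sr D.ph,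
    f (A.tpk m) = toSr A.ph (∏ l, A.slot l ((toSr D.ph).symm (m l))) := by
  refine ⟨{ toFun := fun z => toSr A.ph (PiTensorProduct.lift A.skm z)
            map_zero' := ?_
            map_add' := ?_ }, ?_⟩
  · show toSr A.ph (PiTensorProduct.lift A.skm 0) = 0
    rw [map_zero, map_zero]
  · intro x y
    show toSr A.ph (PiTensorProduct.lift A.skm _) = _
    have h : PiTensorProduct.lift A.skm (x + y : A.PV (UL D (Sr D.ph))) =
      PiTensorProduct.lift A.skm x + PiTensorProduct.lift A.skm y :=
      map_add (PiTensorProduct.lift A.skm) x y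
    exact congrArg (toSr A.ph) h
  · intro m
    exact congrArg (toSr A.ph) (PiTensorProduct.lift.tprod (φ := A.skm) m)

/-- The tensor power of `S` is `S_k`. -/
theorem pk_sr : Nonempty (A.Pk (Sr D.ph) ≃ₗ[A.R] Sr A.ph) := by
  obtain ⟨f, hf⟩ := A.exists_ski
  have hS : ∀ (l : ZMod A.k) (s : D.S) z, f (iot A.ph (A.slot l s) • z) =
      iot A.ph (A.slot l s) • f z := by
    intro l s z
    have h : f.comp (DistribSMul.toAddMonoidHom (A.Pk (Sr D.ph)) (iot A.ph (A.slot l s))) =
        (DistribSMul.toAddMonoidHom (Sr A.ph) (iot A.ph (A.slot l s))).comp f := by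
      apply A.tpk_ext
      intro m
      show f (iot A.ph (A.slot l s) • A.tpk m) = iot A.ph (A.slot l s) • f (A.tpk m)
      have h1 : (toSr D.ph).symm (iot D.ph s • m l) = s * (toSr D.ph).symm (m l) := by
        have h2 := sr_iot D.ph s ((toSr D.ph).symm (m l))
        rw [RingEquiv.apply_symm_apply] at h2
        rw [h2, RingEquiv.symm_apply_apply]
      rw [slot_tpk, hf, hf, sr_iot]
      refine congrArg (toSr A.ph) ?_
      rw [sk_upd, h1, map_mul, mul_assoc,
        Finset.mul_prod_erase Finset.univ (fun l => A.slot l ((toSr D.ph).symm (m l)))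
          (Finset.mem_univ l)]
    exact congrArg (fun t : A.Pk (Sr D.ph) →+ Sr A.ph => t z) h
  have hg : ∀ g z, f (gam A.ph g • z) = gam A.ph g • f z := by
    intro g z
    have h : f.comp (DistribSMul.toAddMonoidHom (A.Pk (Sr D.ph)) (gam A.ph g)) =
        (DistribSMul.toAddMonoidHom (Sr A.ph) (gam A.ph g)).comp f := by
      apply A.tpk_ext
      intro m
      show f (gam A.ph g • A.tpk m) = gam A.ph g • f (A.tpk m)
      cases g with
      | bs g =>
        rw [bs_tpk, hf, hf, sr_gam]
        refine congrArg (toSr A.ph) ?_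
        rw [map_prod]
        refine Finset.prod_congr rfl fun l _ => ?_
        rw [sk_bs]
        congr 1
        have h2 := sr_gam D.ph g ((toSr D.ph).symm (m l))
        rw [RingEquiv.apply_symm_apply] at h2
        rw [h2, RingEquiv.symm_apply_apply]
      | cyc =>
        rw [cyc_tpk, hf, hf, sr_gam]
        refine congrArg (toSr A.ph) ?_
        rw [map_prod, ← Equiv.prod_comp (Equiv.addRight (1 : ZMod A.k))]
        refine Finset.prod_congr rfl fun l _ => ?_
        rw [sk_cyc, Equiv.coe_addRight, add_sub_cancel_right]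
    exact congrArg (fun t : A.Pk (Sr D.ph) →+ Sr A.ph => t z) h
  have hone : f (A.tpk (fun _ => toSr D.ph 1)) = toSr A.ph 1 := by
    rw [hf]
    congr 1
    refine Finset.prod_eq_one fun l _ => ?_
    rw [RingEquiv.symm_apply_apply, map_one]
  have hT : ∀ (m : ZMod A.k → Sr D.ph) (T : Finset (ZMod A.k)),
      iot A.ph (∏ l ∈ T, A.slot l ((toSr D.ph).symm (m l))) • A.tpk (fun _ => toSr D.ph 1) =
        A.tpk (fun l => if l ∈ T then m l else toSr D.ph 1) := by
    intro m T
    induction T using Finset.induction_on with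
    | empty =>
      rw [Finset.prod_empty, map_one, one_smul]
      congr 1
    | insert a T ha ih =>
      rw [Finset.prod_insert ha, map_mul, mul_smul, ih, slot_tpk]
      congr 1
      funext l
      by_cases hl : l = a
      · subst hl
        rw [Function.update_self, if_pos (Finset.mem_insert_self _ _), if_neg ha, sr_iot, mul_one,
          RingEquiv.apply_symm_apply]
      · rw [Function.update_of_ne hl]
        by_cases hT : l ∈ T
        · rw [if_pos hT, if_pos (Finset.mem_insert_of_mem hT)]
        · rw [if_neg hT, if_neg (fun h => (Finset.mem_insert.1 h).elim hl hT)]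
  have hj : ∀ z, iot A.ph ((toSr A.ph).symm (f z)) • A.tpk (fun _ => toSr D.ph 1) = z := by
    intro z
    have h : ((AddMonoidHom.mk' (fun y : Sr A.ph => iot A.ph ((toSr A.ph).symm y) •
        A.tpk (fun _ => toSr D.ph 1)) (fun a b => by
          rw [map_add, map_add, add_smul])) : Sr A.ph →+ A.Pk (Sr D.ph)).comp f =
        AddMonoidHom.id _ := by
      apply A.tpk_ext
      intro m
      show iot A.ph ((toSr A.ph).symm (f (A.tpk m))) • A.tpk (fun _ => toSr D.ph 1) = A.tpk m
      rw [hf, RingEquiv.symm_apply_apply, hT]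
      congr 1
      funext l
      rw [if_pos (Finset.mem_univ l)]
    exact congrArg (fun t : A.Pk (Sr D.ph) →+ A.Pk (Sr D.ph) => t z) h
  refine ⟨LinearEquiv.ofBijective (A.linSlot f hS hg) ⟨?_, ?_⟩⟩
  · intro x y hxy
    have hxy' : f x = f y := hxy
    rw [← hj x, ← hj y, hxy']
  · intro y
    refine ⟨iot A.ph ((toSr A.ph).symm y) • A.tpk (fun _ => toSr D.ph 1), ?_⟩
    rw [map_smul, linSlot_apply, hone, sr_iot, mul_one, RingEquiv.apply_symm_apply]

end Adm

end MSA
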