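import Mathlib
import Pool.Agent.MSA.CiA
import Pool.Agent.MSA.Sk
import Pool.Agent.MSA.Psi

/-!
# The Adams operation on complete intersections

PROOFS.
`ci_h0`: `z = toSr t`: `iot y • toSr t = toSr (y t)` (`sr_iot`), a domain. `ci_h1`: `g t = y t'` gives `y ∣ g t`, hence `y ∣ t`
(`IsRelPrime.dvd_of_dvd_mul_left`, `S` is a unique factorization domain). `ci_hk`: the kernel of `mkQ` is `idl (span {y, g})`, the ideal
is stable (`D.iv_ph`), so it is `{toSr t : t ∈ span {y, g}}` (`mem_idl`), `Ideal.mem_span_pair`.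
`ch_cong`: `KS.map` of the isomorphism, `qis_of_iso` (`pmap_inj`, `pmap_surj`).
`ci_iso`: with `r = ![y, g]`, `d = ![m, n]`: `T(Pk C) ~ (kQ + kT)(Pk S)` (`ciA`) `≅ (kQ + kT)(Sr A.ph)` (`pk_sr`, `ch_cong`) `~ kQ (Up S)` (`ciB`)
`~ kW (Up C)` (`ciC`).
`psiv_CI`: `psi_in` (class), `chi_congr` with `ci_iso`, and `kW_chi` (file Lsum, helper7).
-/

set_option autoImplicit false
set_option linter.unusedSectionVars false

noncomputable section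

namespace MSA

universe u v w

open MvPolynomial

/-- isomorphic coefficients -/
theorem ch_cong {F : Type u} [Field F] {S : Type u} [CommRing S] [Algebra F S] {Γ : Type u}
    {φ : Γ → S →+* S} [FixF F φ] (K : KS F φ) {Z Z' : Type u} [AddCommGroup Z] [Module (Rg φ) Z]
    [AddCommGroup Z'] [Module (Rg φ) Z'] (f : Z ≃ₗ[Rg φ] Z') :
    Nonempty ((K.ch Z).H0 ≃ₗ[Rg φ] (K.ch Z').H0) ∧
      Nonempty ((K.ch Z).H1 ≃ₗ[Rg φ] (K.ch Z').H1) :=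
  qis_of_iso (K.map (f : Z →ₗ[Rg φ] Z'))
    ⟨K.pmap_inj _ f.injective 0, K.pmap_surj _ f.surjective 0⟩
    ⟨K.pmap_inj _ f.injective 1, K.pmap_surj _ f.surjective 1⟩

namespace Adm

variable {D : Dat.{u}} (A : Adm D)

theorem ci_h0 (y : D.S) (hy : y ≠ 0) (z : Sr D.ph) (h : iot D.ph y • z = 0) : z = 0 := by
  obtain ⟨t, rfl⟩ := (toSr D.ph).surjective z
  rw [sr_iot, map_eq_zero_iff _ (toSr D.ph).injective] at h
  rw [(mul_eq_zero.1 h).resolve_left hy, map_zero]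

theorem ci_h1 (y g : D.S) (hr : IsRelPrime y g) (z z' : Sr D.ph)
    (h : iot D.ph g • z = iot D.ph y • z') : ∃ z'', z = iot D.ph y • z'' := by
  obtain ⟨t, rfl⟩ := (toSr D.ph).surjective z
  obtain ⟨t', rfl⟩ := (toSr D.ph).surjective z'
  rw [sr_iot, sr_iot] at h
  have h1 : g * t = y * t' := (toSr D.ph).injective h
  have h2 : y ∣ g * t := ⟨t', h1⟩
  obtain ⟨c, hc⟩ := hr.dvd_of_dvd_mul_left h2
  exact ⟨toSr D.ph c, by rw [sr_iot, hc]⟩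

private theorem ci_st {m n : ℕ} {y g : D.S} (hy : D.Iv m y) (hg : D.Iv n g) :
    StI D.ph (Ideal.span {y, g}) := by
  intro γ x hx
  rw [Ideal.mem_span_pair] at hx ⊢
  obtain ⟨a, b, rfl⟩ := hx
  refine ⟨D.ph γ a * algebraMap D.F D.S (D.chi m γ), D.ph γ b * algebraMap D.F D.S (D.chi n γ), ?_⟩
  rw [map_add, map_mul, map_mul, D.iv_ph hy, D.iv_ph hg]
  ring

theorem ci_hk {m n : ℕ} {y g : D.S} (hy : D.Iv m y) (hg : D.Iv n g) (z : Sr D.ph) :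
    (idl D.ph (Ideal.span {y, g})).mkQ z = 0 ↔ ∃ a b, z = iot D.ph y • a + iot D.ph g • b := by
  obtain ⟨t, rfl⟩ := (toSr D.ph).surjective z
  rw [Submodule.mkQ_apply, Submodule.Quotient.mk_eq_zero, mem_idl D.ph (ci_st hy hg),
    Ideal.mem_span_pair]
  constructor
  · rintro ⟨a, b, hab⟩
    refine ⟨toSr D.ph a, toSr D.ph b, ?_⟩
    rw [sr_iot, sr_iot, ← map_add, ← hab, mul_comm a, mul_comm b]
  · rintro ⟨a, b, hab⟩
    obtain ⟨a, rfl⟩ := (toSr D.ph).surjective a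
    obtain ⟨b, rfl⟩ := (toSr D.ph).surjective b
    rw [sr_iot, sr_iot, ← map_add] at hab
    refine ⟨a, b, ?_⟩
    rw [(toSr D.ph).injective hab, mul_comm a, mul_comm b]

theorem ci_iso {m n : ℕ} {y g : D.S} (hy : D.Iv m y) (hg : D.Iv n g) (hy0 : y ≠ 0)
    (hr : IsRelPrime y g) :
    Nonempty ((A.tch (A.Pk (D.CI y g))).H0 ≃ₗ[A.R] ((A.kW ![m, n]).ch (A.Up (D.CI y g))).H0) ∧
      Nonempty ((A.tch (A.Pk (D.CI y g))).H1 ≃ₗ[A.R]
        ((A.kW ![m, n]).ch (A.Up (D.CI y g))).H1) := by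
  have hI : ∀ s : Fin 2, D.Iv ((![m, n] : Fin 2 → ℕ) s) ((![y, g] : Fin 2 → D.S) s) := by
    intro s
    fin_cases s
    · exact hy
    · exact hg
  have h0 : ∀ z : Sr D.ph, iot D.ph ((![y, g] : Fin 2 → D.S) 0) • z = 0 → z = 0 :=
    fun z hz => ci_h0 y hy0 z hz
  have h1 : ∀ z z' : Sr D.ph, iot D.ph ((![y, g] : Fin 2 → D.S) 1) • z =
      iot D.ph ((![y, g] : Fin 2 → D.S) 0) • z' →
      ∃ z'', z = iot D.ph ((![y, g] : Fin 2 → D.S) 0) • z'' :=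
    fun z z' hz => ci_h1 y g hr z z' hz
  have hk : ∀ z : Sr D.ph, (idl D.ph (Ideal.span {y, g})).mkQ z = 0 ↔
      ∃ a b, z = iot D.ph ((![y, g] : Fin 2 → D.S) 0) • a +
        iot D.ph ((![y, g] : Fin 2 → D.S) 1) • b := fun z => ci_hk hy hg z
  have hq : Function.Surjective (idl D.ph (Ideal.span {y, g})).mkQ :=
    (idl D.ph (Ideal.span {y, g})).mkQ_surjective
  obtain ⟨f⟩ := A.pk_sr
  obtain ⟨⟨a0⟩, ⟨a1⟩⟩ := A.ciA ![m, n] ![y, g] hI h0 h1 (idl D.ph (Ideal.span {y, g})).mkQ hq hk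
  obtain ⟨⟨b0⟩, ⟨b1⟩⟩ := ch_cong ((A.kQ ![m, n] ![y, g] hI).add A.kT) f
  obtain ⟨⟨c0⟩, ⟨c1⟩⟩ := A.ciB ![m, n] ![y, g] hI
  obtain ⟨⟨d0⟩, ⟨d1⟩⟩ := A.ciC ![m, n] ![y, g] hI h0 h1 (idl D.ph (Ideal.span {y, g})).mkQ hq hk
  exact ⟨⟨a0.symm.trans (b0.trans (c0.trans d0))⟩, ⟨a1.symm.trans (b1.trans (c1.trans d1))⟩⟩

end Adm

end MSA
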