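import Mathlib
import Pool.Agent.MSA.ChA

/-!
# Additive functions on finite products

PROOF. For `ι = Fin n` by induction on `n`: `Fin.consLinearEquiv : (M 0 × Π i, M i.succ) ≃ₗ[R] Π i, M i`
(or `LinearEquiv` by hand), `C.prod`, `C.iso`, `adf_prod`, `e.iso`, `Fin.sum_univ_succ`; `n = 0`: `C.zero`, `adf_zero`.
In general `Fintype.equivFin ι` and `LinearEquiv.piCongrLeft` (or `piCongrLeft'`), `Equiv.sum_comp`.
-/

set_option autoImplicit false

noncomputable section

namespace MSA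

universe u v w

variable {R : Type w} [Ring R] {C : Cls.{u} R} {A : Type v} [AddCommGroup A] (e : Adf C A)

theorem adf_piFin (n : ℕ) : ∀ (M : Fin n → Type u) [∀ i, AddCommGroup (M i)]
    [∀ i, Module R (M i)] (_ : ∀ i, C.P (M i)),
    C.P (∀ i, M i) ∧ e.e (∀ i, M i) = ∑ i, e.e (M i) := by
  induction n with
  | zero =>
    intro M _ _ _
    have : Subsingleton (∀ i, M i) := ⟨fun x y => funext fun i => i.elim0⟩
    refine ⟨C.zero _, ?_⟩
    rw [adf_zero e]
    simp
  | succ n ih =>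
    intro M _ _ h
    obtain ⟨h1, h2⟩ := ih (fun i => M i.succ) (fun i => h i.succ)
    have f : (M 0 × (∀ i : Fin n, M i.succ)) ≃ₗ[R] (∀ i, M i) := Fin.consLinearEquiv R M
    have h3 : C.P (M 0 × (∀ i : Fin n, M i.succ)) := C.prod (h 0) h1
    refine ⟨C.iso f h3, ?_⟩
    rw [← e.iso f h3, adf_prod e (h 0) h1, h2, Fin.sum_univ_succ]

theorem adf_pi {ι : Type} [Fintype ι] (M : ι → Type u) [∀ i, AddCommGroup (M i)]
    [∀ i, Module R (M i)] (h : ∀ i, C.P (M i)) :
    C.P (∀ i, M i) ∧ e.e (∀ i, M i) = ∑ i, e.e (M i) := by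
  classical
  let g := Fintype.equivFin ι
  obtain ⟨h1, h2⟩ := adf_piFin e _ (fun i => M (g.symm i)) (fun i => h _)
  have f : (∀ i, M i) ≃ₗ[R] (∀ i, M (g.symm i)) := LinearEquiv.piCongrLeft' R M g
  refine ⟨C.iso f.symm h1, ?_⟩
  rw [← e.iso f.symm h1, h2]
  exact Equiv.sum_comp g.symm (fun i => e.e (M i))

end MSA
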