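import Mathlib

/-!
# A sum over pairs of subsets of `ℤ/k ∖ 0`

`lsN k a s` = number of the subsets `T` of `ℤ/k ∖ 0` with `a` elements and sum `s`.
PROOFS. `lsN_step`: let `M a s` be the number of the subsets of `ℤ/k` with `a` elements and sum `s`. For `0 < a < k`
the number `a` is a unit of `ℤ/k` and `T ↦ T + c` (`Finset.map (addRightEmbedding c)`, it adds `a * c` to the sum) gives `M a s = M a t` for all `s, t`.
`M (a+1) s = lsN (a+1) s + lsN a s` (`0 ∉ T`, or `T = insert 0 T'`).
`lsN_diff`: induction on `a` from `lsN_zero` and `lsN_step`.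
`lsN_conv`: by `lsN_diff` with `t = 1`, `(-1)^a * lsN a s = [s = 0] + β` with `β = (-1)^a * lsN a 1` for all `s` (note `(1 : ZMod k) ≠ 0`),
likewise `γ` for `b`; `∑_s ([s = 0] + β) ([t - s = 0] + γ) = [t = 0] + β + γ + k β γ`; subtract the cases `t = 0`, `t = 1`.
`ls_split`: `T ↦ (T0, T1)`, `T_i = {j : (i, j) ∈ T}` is a bijection of `Finset {x // x.2 ≠ 0}` onto the pairs of subsets of
`univ.erase 0` (`Finset.sum_bij'` or `Finset.sum_nbij'` to `powerset ×ˢ powerset`), the sum of the `x.2` is `∑ T0 + ∑ T1`.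
`ls_comb`: `ls_split`, `Finset.sum_powerset` (group by the cardinality: `Finset.sum_powerset_apply_card` does not apply; use
`Finset.powerset_card_disjiUnion` or `Finset.sum_fiberwise`), then for fixed cardinalities `a, b ≤ k - 1` the coefficient of `f a b` is
`(-1)^(a+b) (∑_s lsN a s * lsN b (0 - s) - ∑_s lsN a s * lsN b (1 - s)) = 1`.
-/

set_option autoImplicit false
set_option linter.unusedSectionVars false

namespace MSA

variable (k : ℕ) [NeZero k]

/-- number of the subsets of `ℤ/k ∖ 0` with `a` elements and sum `s` -/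
def lsN (a : ℕ) (s : ZMod k) : ℕ :=
  (((Finset.univ.erase (0 : ZMod k)).powersetCard a).filter (fun T => ∑ x ∈ T, x = s)).card

theorem lsN_zero (s : ZMod k) : lsN k 0 s = if s = 0 then 1 else 0 := by
  unfold lsN
  rw [Finset.powersetCard_zero, Finset.filter_singleton, Finset.sum_empty]
  by_cases h : s = 0
  · rw [if_pos h.symm, if_pos h, Finset.card_singleton]
  · rw [if_neg (fun h' => h h'.symm), if_neg h, Finset.card_empty]

/-- number of the subsets of `ℤ/k` with `a` elements and sum `s` -/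
private def lsM (a : ℕ) (s : ZMod k) : ℕ :=
  (((Finset.univ : Finset (ZMod k)).powersetCard a).filter (fun T => ∑ x ∈ T, x = s)).card

private theorem lsM_shift_mem (a : ℕ) (c s : ZMod k) (T : Finset (ZMod k))
    (hT : T ∈ ((Finset.univ : Finset (ZMod k)).powersetCard a).filter (fun T => ∑ x ∈ T, x = s)) :
    T.map (addRightEmbedding c) ∈
      ((Finset.univ : Finset (ZMod k)).powersetCard a).filter
        (fun T => ∑ x ∈ T, x = s + a * c) := by
  rw [Finset.mem_filter, Finset.mem_powersetCard] at hT ⊢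
  refine ⟨⟨Finset.subset_univ _, by rw [Finset.card_map, hT.1.2]⟩, ?_⟩
  rw [Finset.sum_map]
  simp only [addRightEmbedding_apply]
  rw [Finset.sum_add_distrib, hT.2, Finset.sum_const, hT.1.2, nsmul_eq_mul]

private theorem lsM_const (hk : k.Prime) (a : ℕ) (ha0 : 0 < a) (ha : a < k) (s t : ZMod k) :
    lsM k a s = lsM k a t := by
  have hF : Fact k.Prime := ⟨hk⟩
  have ha1 : (a : ZMod k) ≠ 0 := by
    rw [Ne, ZMod.natCast_eq_zero_iff]
    exact Nat.not_dvd_of_pos_of_lt ha0 ha
  obtain ⟨c, hc⟩ : ∃ c : ZMod k, c = (a : ZMod k)⁻¹ * (t - s) := ⟨_, rfl⟩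
  have hac : (a : ZMod k) * c = t - s := by
    rw [hc, ← mul_assoc, mul_inv_cancel₀ ha1, one_mul]
  unfold lsM
  refine Finset.card_nbij' (fun T => T.map (addRightEmbedding c))
    (fun T => T.map (addRightEmbedding (-c))) ?_ ?_ ?_ ?_
  · intro T hT
    have h1 := lsM_shift_mem k a c s T hT
    have h2 : s + a * c = t := by rw [hac]; ring
    rwa [h2] at h1
  · intro T hT
    have h1 := lsM_shift_mem k a (-c) t T hT
    have h2 : t + a * (-c) = s := by rw [mul_neg, hac]; ring
    rwa [h2] at h1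
  · intro T _
    ext x
    simp
  · intro T _
    ext x
    simp

private theorem lsM_succ (a : ℕ) (s : ZMod k) : lsM k (a + 1) s = lsN k (a + 1) s + lsN k a s := by
  unfold lsM lsN
  have hu : (Finset.univ : Finset (ZMod k)) = insert 0 (Finset.univ.erase (0 : ZMod k)) := by
    rw [Finset.insert_erase (Finset.mem_univ _)]
  have h0 : (0 : ZMod k) ∉ Finset.univ.erase (0 : ZMod k) := Finset.notMem_erase _ _
  conv_lhs => rw [hu]
  rw [Finset.powersetCard_succ_insert h0, Finset.filter_union, Finset.card_union_of_disjoint]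
  · congr 1
    rw [Finset.filter_image, Finset.card_image_of_injOn]
    · congr 1
      refine Finset.filter_congr fun T hT => ?_
      rw [Finset.mem_powersetCard] at hT
      rw [Finset.sum_insert (fun h => h0 (hT.1 h)), zero_add]
    · intro T hT T' hT' h
      rw [Finset.mem_coe, Finset.mem_filter, Finset.mem_powersetCard] at hT hT'
      have h1 : (insert (0 : ZMod k) T).erase 0 = (insert (0 : ZMod k) T').erase 0 :=
        congrArg (fun U => Finset.erase U 0) h
      rwa [Finset.erase_insert (fun h => h0 (hT.1.1 h)),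
        Finset.erase_insert (fun h => h0 (hT'.1.1 h))] at h1
  · rw [Finset.disjoint_left]
    intro T hT hT'
    rw [Finset.mem_filter, Finset.mem_powersetCard] at hT
    rw [Finset.mem_filter, Finset.mem_image] at hT'
    obtain ⟨⟨U, _, rfl⟩, _⟩ := hT'
    exact h0 (hT.1.1 (Finset.mem_insert_self _ _))

theorem lsN_step (hk : k.Prime) (a : ℕ) (ha : a + 1 < k) (s t : ZMod k) :
    lsN k (a + 1) s + lsN k a s = lsN k (a + 1) t + lsN k a t := by
  rw [← lsM_succ, ← lsM_succ]
  exact lsM_const k hk (a + 1) (Nat.succ_pos a) ha s t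

theorem lsN_diff (hk : k.Prime) (a : ℕ) (ha : a < k) (s t : ZMod k) :
    (lsN k a s : ℤ) - lsN k a t =
      (-1) ^ a * ((if s = 0 then 1 else 0) - (if t = 0 then 1 else 0)) := by
  induction a with
  | zero =>
    rw [lsN_zero, lsN_zero]
    push_cast
    ring
  | succ a ih =>
    have h1 := lsN_step k hk a ha s t
    have h2 := ih (by omega)
    have h3 : (lsN k (a + 1) s : ℤ) + lsN k a s = lsN k (a + 1) t + lsN k a t := by
      exact_mod_cast h1
    rw [pow_succ]
    linear_combination h3 - h2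

private theorem lsN_val (hk : k.Prime) (a : ℕ) (ha : a < k) (s : ZMod k) :
    (lsN k a s : ℤ) = lsN k a 1 + (-1) ^ a * (if s = 0 then 1 else 0) := by
  have hF : Fact k.Prime := ⟨hk⟩
  have h1 := lsN_diff k hk a ha s 1
  rw [if_neg (one_ne_zero : (1 : ZMod k) ≠ 0)] at h1
  linear_combination h1

private theorem lsN_cv (hk : k.Prime) (a b : ℕ) (ha : a < k) (hb : b < k) (t : ZMod k) :
    ∑ s : ZMod k, (lsN k a s * lsN k b (t - s) : ℤ) =
      k * (lsN k a 1 * lsN k b 1) + (-1) ^ b * lsN k a 1 + (-1) ^ a * lsN k b 1 +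
        (-1) ^ a * (-1) ^ b * (if t = 0 then 1 else 0) := by
  have h1 : ∀ s : ZMod k, (lsN k a s * lsN k b (t - s) : ℤ) =
      (lsN k a 1 * lsN k b 1 : ℤ) + (if s = t then (-1) ^ b * (lsN k a 1 : ℤ) else 0) +
        (if s = 0 then (-1) ^ a * (lsN k b 1 : ℤ) +
          (-1) ^ a * (-1) ^ b * (if t = 0 then 1 else 0) else 0) := by
    intro s
    rw [lsN_val k hk a ha s, lsN_val k hk b hb (t - s)]
    by_cases hs : s = 0
    · rw [if_pos hs, if_pos hs, hs, sub_zero]
      by_cases ht : t = 0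
      · rw [if_pos ht, if_pos ht.symm]
        ring
      · rw [if_neg ht, if_neg (fun h => ht h.symm)]
        ring
    · rw [if_neg hs, if_neg hs]
      by_cases ht : s = t
      · rw [if_pos ht, if_pos (by rw [ht, sub_self])]
        ring
      · rw [if_neg ht, if_neg (fun h => ht (sub_eq_zero.1 h).symm)]
        ring
  rw [Finset.sum_congr rfl fun s _ => h1 s, Finset.sum_add_distrib, Finset.sum_add_distrib,
    Finset.sum_ite_eq', Finset.sum_ite_eq', if_pos (Finset.mem_univ _), if_pos (Finset.mem_univ _),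
    Finset.sum_const, Finset.card_univ, ZMod.card, nsmul_eq_mul]
  ring

theorem lsN_conv (hk : k.Prime) (a b : ℕ) (ha : a < k) (hb : b < k) :
    ∑ s : ZMod k, (lsN k a s * lsN k b (0 - s) : ℤ) - ∑ s : ZMod k, (lsN k a s * lsN k b (1 - s) : ℤ) =
      (-1) ^ (a + b) := by
  have hF : Fact k.Prime := ⟨hk⟩
  rw [lsN_cv k hk a b ha hb, lsN_cv k hk a b ha hb, if_pos rfl,
    if_neg (one_ne_zero : (1 : ZMod k) ≠ 0), pow_add]
  ring

theorem ls_split {B : Type*} [AddCommGroup B] (g : ZMod k → ℕ → ℕ → B) :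
    ∑ T : Finset {x : Fin 2 × ZMod k // x.2 ≠ 0}, g (∑ x ∈ T, x.1.2)
        (T.filter (fun x => x.1.1 = 0)).card (T.filter (fun x => x.1.1 = 1)).card =
      ∑ T0 ∈ (Finset.univ.erase (0 : ZMod k)).powerset, ∑ T1 ∈ (Finset.univ.erase (0 : ZMod k)).powerset,
        g (∑ x ∈ T0, x + ∑ x ∈ T1, x) T0.card T1.card := by
  classical
  rw [← Finset.sum_product']
  have hinj : ∀ (e : Fin 2) (T : Finset {x : Fin 2 × ZMod k // x.2 ≠ 0}),
      Set.InjOn (fun x : {x : Fin 2 × ZMod k // x.2 ≠ 0} => x.1.2)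
        (T.filter (fun x => x.1.1 = e) : Finset {x : Fin 2 × ZMod k // x.2 ≠ 0}) := by
    intro e T x hx y hy h
    rw [Finset.mem_coe, Finset.mem_filter] at hx hy
    exact Subtype.ext (Prod.ext (hx.2.trans hy.2.symm) h)
  refine Finset.sum_nbij'
    (fun T => ((T.filter (fun x => x.1.1 = 0)).image (fun x => x.1.2),
      (T.filter (fun x => x.1.1 = 1)).image (fun x => x.1.2)))
    (fun P => Finset.univ.filter
      (fun x => (x.1.1 = 0 ∧ x.1.2 ∈ P.1) ∨ (x.1.1 = 1 ∧ x.1.2 ∈ P.2))) ?_ ?_ ?_ ?_ ?_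
  · intro T _
    rw [Finset.mem_product, Finset.mem_powerset, Finset.mem_powerset]
    constructor
    · intro y hy
      obtain ⟨x, _, rfl⟩ := Finset.mem_image.1 hy
      exact Finset.mem_erase.2 ⟨x.2, Finset.mem_univ _⟩
    · intro y hy
      obtain ⟨x, _, rfl⟩ := Finset.mem_image.1 hy
      exact Finset.mem_erase.2 ⟨x.2, Finset.mem_univ _⟩
  · intro P _
    exact Finset.mem_univ _
  · intro T _
    ext x
    rw [Finset.mem_filter]
    constructor
    · rintro ⟨_, ⟨h0, h1⟩ | ⟨h0, h1⟩⟩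
      · obtain ⟨y, hy, hyx⟩ := Finset.mem_image.1 h1
        rw [Finset.mem_filter] at hy
        have : y = x := Subtype.ext (Prod.ext (hy.2.trans h0.symm) hyx)
        rw [← this]
        exact hy.1
      · obtain ⟨y, hy, hyx⟩ := Finset.mem_image.1 h1
        rw [Finset.mem_filter] at hy
        have : y = x := Subtype.ext (Prod.ext (hy.2.trans h0.symm) hyx)
        rw [← this]
        exact hy.1
    · intro hx
      refine ⟨Finset.mem_univ _, ?_⟩
      have h2 : x.1.1 = 0 ∨ x.1.1 = 1 := by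
        generalize x.1.1 = e
        fin_cases e
        · left; rfl
        · right; rfl
      rcases h2 with h2 | h2
      · exact Or.inl ⟨h2, Finset.mem_image.2 ⟨x, Finset.mem_filter.2 ⟨hx, h2⟩, rfl⟩⟩
      · exact Or.inr ⟨h2, Finset.mem_image.2 ⟨x, Finset.mem_filter.2 ⟨hx, h2⟩, rfl⟩⟩
  · intro P hP
    rw [Finset.mem_product, Finset.mem_powerset, Finset.mem_powerset] at hP
    refine Prod.ext ?_ ?_
    · ext y
      constructor
      · intro hy
        obtain ⟨x, hx, rfl⟩ := Finset.mem_image.1 hy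
        rw [Finset.mem_filter, Finset.mem_filter] at hx
        rcases hx.1.2 with h | h
        · exact h.2
        · exact absurd (hx.2.symm.trans h.1) (by decide)
      · intro hy
        have hy0 : y ≠ 0 := (Finset.mem_erase.1 (hP.1 hy)).1
        exact Finset.mem_image.2 ⟨⟨(0, y), hy0⟩, Finset.mem_filter.2
          ⟨Finset.mem_filter.2 ⟨Finset.mem_univ _, Or.inl ⟨rfl, hy⟩⟩, rfl⟩, rfl⟩
    · ext y
      constructor
      · intro hy
        obtain ⟨x, hx, rfl⟩ := Finset.mem_image.1 hy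
        rw [Finset.mem_filter, Finset.mem_filter] at hx
        rcases hx.1.2 with h | h
        · exact absurd (h.1.symm.trans hx.2) (by decide)
        · exact h.2
      · intro hy
        have hy0 : y ≠ 0 := (Finset.mem_erase.1 (hP.2 hy)).1
        exact Finset.mem_image.2 ⟨⟨(1, y), hy0⟩, Finset.mem_filter.2
          ⟨Finset.mem_filter.2 ⟨Finset.mem_univ _, Or.inr ⟨rfl, hy⟩⟩, rfl⟩, rfl⟩
  · intro T _
    have h1 : ∑ x ∈ T, x.1.2 = ∑ y ∈ (T.filter (fun x => x.1.1 = 0)).image (fun x => x.1.2), y +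
        ∑ y ∈ (T.filter (fun x => x.1.1 = 1)).image (fun x => x.1.2), y := by
      rw [Finset.sum_image (hinj 0 T), Finset.sum_image (hinj 1 T),
        ← Finset.sum_filter_add_sum_filter_not T (fun x => x.1.1 = 0)]
      congr 1
      refine Finset.sum_congr (Finset.filter_congr fun x _ => ?_) fun _ _ => rfl
      generalize x.1.1 = e
      fin_cases e <;> simp
    rw [h1]
    change g _ _ _ = g _ ((T.filter (fun x => x.1.1 = 0)).image (fun x => x.1.2)).card
      ((T.filter (fun x => x.1.1 = 1)).image (fun x => x.1.2)).card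
    rw [Finset.card_image_of_injOn (hinj 0 T), Finset.card_image_of_injOn (hinj 1 T)]

private theorem ls_grp {B : Type*} [AddCommGroup B] (h : ZMod k → ℕ → B) :
    ∑ T ∈ (Finset.univ.erase (0 : ZMod k)).powerset, h (∑ x ∈ T, x) T.card =
      ∑ a : Fin k, ∑ s : ZMod k, (lsN k a s : ℤ) • h s a := by
  have hc : (Finset.univ.erase (0 : ZMod k)).card + 1 = k := by
    rw [Finset.card_erase_add_one (Finset.mem_univ _), Finset.card_univ, ZMod.card]
  rw [Finset.sum_powerset, hc, Finset.sum_range]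
  refine Finset.sum_congr rfl fun a _ => ?_
  rw [← Finset.sum_fiberwise _ (fun T : Finset (ZMod k) => ∑ x ∈ T, x)]
  refine Finset.sum_congr rfl fun s _ => ?_
  have h1 : ∀ T ∈ ((Finset.univ.erase (0 : ZMod k)).powersetCard a).filter
      (fun T => ∑ x ∈ T, x = s), h (∑ x ∈ T, x) T.card = h s a := by
    intro T hT
    rw [Finset.mem_filter, Finset.mem_powersetCard] at hT
    rw [hT.2, hT.1.2]
  rw [Finset.sum_congr rfl h1, Finset.sum_const, natCast_zsmul]
  rfl

/-- the combinatorial identity -/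
theorem ls_comb (hk : k.Prime) {B : Type*} [AddCommGroup B] (f : ℕ → ℕ → B) :
    ∑ T : Finset {x : Fin 2 × ZMod k // x.2 ≠ 0},
        (((-1 : ℤ)) ^ T.card * ((if ∑ x ∈ T, x.1.2 = 0 then 1 else 0) -
          (if ∑ x ∈ T, x.1.2 = 1 then 1 else 0))) •
        f (T.filter (fun x => x.1.1 = 0)).card (T.filter (fun x => x.1.1 = 1)).card =
      ∑ a : Fin k, ∑ b : Fin k, f a b := by
  classical
  have e1 : ∀ T : Finset {x : Fin 2 × ZMod k // x.2 ≠ 0},
      T.card = (T.filter (fun x => x.1.1 = 0)).card + (T.filter (fun x => x.1.1 = 1)).card := by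
    intro T
    rw [← Finset.card_filter_add_card_filter_not (s := T) (fun x => x.1.1 = 0)]
    congr 2
    refine Finset.filter_congr fun x _ => ?_
    generalize x.1.1 = e
    fin_cases e <;> simp
  have e2 : ∑ T : Finset {x : Fin 2 × ZMod k // x.2 ≠ 0},
        (((-1 : ℤ)) ^ T.card * ((if ∑ x ∈ T, x.1.2 = 0 then 1 else 0) -
          (if ∑ x ∈ T, x.1.2 = 1 then 1 else 0))) •
        f (T.filter (fun x => x.1.1 = 0)).card (T.filter (fun x => x.1.1 = 1)).card =
      ∑ T : Finset {x : Fin 2 × ZMod k // x.2 ≠ 0},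
        (fun (s : ZMod k) (a b : ℕ) => (((-1 : ℤ)) ^ (a + b) * ((if s = 0 then 1 else 0) -
          (if s = 1 then 1 else 0))) • f a b) (∑ x ∈ T, x.1.2)
        (T.filter (fun x => x.1.1 = 0)).card (T.filter (fun x => x.1.1 = 1)).card := by
    refine Finset.sum_congr rfl fun T _ => ?_
    rw [e1 T]
  rw [e2]
  refine (ls_split k (fun (s : ZMod k) (a b : ℕ) => (((-1 : ℤ)) ^ (a + b) *
    ((if s = 0 then 1 else 0) - (if s = 1 then 1 else 0))) • f a b)).trans ?_
  have e3 : ∀ T0 ∈ (Finset.univ.erase (0 : ZMod k)).powerset,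
      ∑ T1 ∈ (Finset.univ.erase (0 : ZMod k)).powerset,
        (fun (s : ZMod k) (a b : ℕ) => (((-1 : ℤ)) ^ (a + b) * ((if s = 0 then 1 else 0) -
          (if s = 1 then 1 else 0))) • f a b) (∑ x ∈ T0, x + ∑ x ∈ T1, x) T0.card T1.card =
      (fun (s : ZMod k) (a : ℕ) => ∑ b : Fin k, ∑ t : ZMod k, (lsN k b t : ℤ) •
        ((((-1 : ℤ)) ^ (a + (b : ℕ)) * ((if s + t = 0 then 1 else 0) -
          (if s + t = 1 then 1 else 0))) • f a b)) (∑ x ∈ T0, x) T0.card := by
    intro T0 _
    exact ls_grp k (fun (t : ZMod k) (b : ℕ) => (((-1 : ℤ)) ^ (T0.card + b) *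
      ((if ∑ x ∈ T0, x + t = 0 then 1 else 0) -
          (if ∑ x ∈ T0, x + t = 1 then 1 else 0))) • f T0.card b)
  refine (Finset.sum_congr rfl e3).trans ((ls_grp k (fun (s : ZMod k) (a : ℕ) =>
    ∑ b : Fin k, ∑ t : ZMod k, (lsN k b t : ℤ) •
        ((((-1 : ℤ)) ^ (a + (b : ℕ)) * ((if s + t = 0 then 1 else 0) -
          (if s + t = 1 then 1 else 0))) • f a b))).trans ?_)
  refine Finset.sum_congr rfl fun a _ => ?_
  have e4 : ∀ s : ZMod k, (lsN k a s : ℤ) • (∑ b : Fin k, ∑ t : ZMod k, (lsN k b t : ℤ) •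
        ((((-1 : ℤ)) ^ ((a : ℕ) + (b : ℕ)) * ((if s + t = 0 then 1 else 0) -
          (if s + t = 1 then 1 else 0))) • f a b)) =
      ∑ b : Fin k, ((lsN k a s : ℤ) * ∑ t : ZMod k, (lsN k b t : ℤ) *
        (((-1 : ℤ)) ^ ((a : ℕ) + (b : ℕ)) * ((if s + t = 0 then 1 else 0) -
          (if s + t = 1 then 1 else 0)))) • f a b := by
    intro s
    rw [Finset.smul_sum]
    refine Finset.sum_congr rfl fun b _ => ?_
    rw [mul_smul, Finset.sum_smul]
    congr 1
    exact Finset.sum_congr rfl fun t _ => (mul_smul _ _ _).symm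
  rw [Finset.sum_congr rfl fun s _ => e4 s, Finset.sum_comm]
  refine Finset.sum_congr rfl fun b _ => ?_
  rw [← Finset.sum_smul]
  have e5 : ∀ s : ZMod k, ∑ t : ZMod k, (lsN k b t : ℤ) *
        (((-1 : ℤ)) ^ ((a : ℕ) + (b : ℕ)) * ((if s + t = 0 then 1 else 0) -
          (if s + t = 1 then 1 else 0))) =
      (-1) ^ ((a : ℕ) + (b : ℕ)) * ((lsN k b (0 - s) : ℤ) - lsN k b (1 - s)) := by
    intro s
    have h1 : ∀ t : ZMod k, (lsN k b t : ℤ) *
        (((-1 : ℤ)) ^ ((a : ℕ) + (b : ℕ)) * ((if s + t = 0 then 1 else 0) -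
          (if s + t = 1 then 1 else 0))) =
        (if t = 0 - s then (-1) ^ ((a : ℕ) + (b : ℕ)) * (lsN k b t : ℤ) else 0) -
          (if t = 1 - s then (-1) ^ ((a : ℕ) + (b : ℕ)) * (lsN k b t : ℤ) else 0) := by
      intro t
      have h2 : ∀ c : ZMod k, (s + t = c ↔ t = c - s) := fun c => by
        rw [eq_sub_iff_add_eq, add_comm]
      simp only [h2]
      split_ifs <;> ring
    rw [Finset.sum_congr rfl fun t _ => h1 t, Finset.sum_sub_distrib, Finset.sum_ite_eq',
      Finset.sum_ite_eq', if_pos (Finset.mem_univ _), if_pos (Finset.mem_univ _)]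
    ring
  have e6 : ∑ s : ZMod k, (lsN k a s : ℤ) * ∑ t : ZMod k, (lsN k b t : ℤ) *
        (((-1 : ℤ)) ^ ((a : ℕ) + (b : ℕ)) * ((if s + t = 0 then 1 else 0) -
          (if s + t = 1 then 1 else 0))) = 1 := by
    have h1 : ∀ s : ZMod k, (lsN k a s : ℤ) * ∑ t : ZMod k, (lsN k b t : ℤ) *
        (((-1 : ℤ)) ^ ((a : ℕ) + (b : ℕ)) * ((if s + t = 0 then 1 else 0) -
          (if s + t = 1 then 1 else 0))) =
        (-1) ^ ((a : ℕ) + (b : ℕ)) * ((lsN k a s * lsN k b (0 - s) : ℤ) -
          (lsN k a s * lsN k b (1 - s) : ℤ)) := by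
      intro s
      rw [e5 s]
      ring
    rw [Finset.sum_congr rfl fun s _ => h1 s, ← Finset.mul_sum, Finset.sum_sub_distrib,
      lsN_conv k hk a b a.2 b.2, ← mul_pow]
    norm_num
  rw [e6, one_smul]

end MSA
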