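import Mathlib
import Pool.Agent.MSA.CiD
import Pool.Agent.MSA.EgG
import Pool.Agent.MSA.KWt

/-!
# Eigenspaces of `Λ(W + W) ⊗ C`

`A.kW d` has diagonal operators and zero elements. A subset `T` of `A.JW` gives the component `x ↦ x T` of
`(A.kW d).Tot (A.Up C)`; `bs g` acts on it as `chi (lsL T) g • gam g` (a twist of `C`), `cyc` as `zp (∑_T)`.

PROOFS. `kW_bs`, `kW_cyc`: `K.gam_smul`, `mpE_diag` with `c = fun x => A.chW d g x.1` (for `dgo`: `dgo c (Pi.single j 1) = c j • Pi.single j 1`),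
`Module.Basis.repr_self`, only the term `A = T` survives (as in `op_diag` of KWt); `∏_{x ∈ T} D.chi (d x) g = D.chi (∑ d x) g`
(`zpow`, `D.X.b_ne`), `∏_{x ∈ T} zp x.2 = zp (∑ x.2)` (`A.zp_add`, `A.zp_zero`), `up_cyc`.
`kW_eg`: `H = (A.kW d).part (A.Up C) i`. `f : (Π T : A.LsJ i j, D.T (lsL T) C) → H` maps `x` to the function
`T ↦ if h : (T.card = i ∧ ∑ = j) then A.toUp C (x ⟨T, h⟩) else 0`; it lies in the eigenspace by `A.eg_mem hK` and `kW_cyc` (componentwise), so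
`f' : _ →ₗ[D.R] A.Eg j H` by `mkLin` and `egk`: for `s ∈ S`: `res_iot`, `iot_smul`, `up_iot`, `ev0_avg`, `tw_iot`; for `g`: `res_gam`, `kW_bs`, `up_bs`,
`tw_gam`, `ev0 (algebraMap c) = algebraMap c`. Injective: look at the component `T`. Surjective: for `h` in the eigenspace, `cyc • h = zp j • h`
(`egi_mem` with `r = 1`), so `(zp (∑_T) - zp j) • h T = 0`, and `zp` is injective (`A.hz`, `IsPrimitiveRoot.pow_inj`, `ZMod.val_lt`), so `h T = 0`
if `∑_T ≠ j` (a nonzero scalar of `F` acts injectively); if `T.card ≠ i` then `h T = 0` by `mem_part`. `LinearEquiv.ofBijective`.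
-/

set_option autoImplicit false
set_option linter.unusedSectionVars false

noncomputable section

namespace MSA

universe u v w

namespace Adm

variable {D : Dat.{u}} (A : Adm D) (d : Fin 2 → ℕ)

/-- the twist of the component `T` -/
def lsL (T : Finset A.JW) : ℤ := ∑ x ∈ T, (d x.1.1 : ℤ)

/-- index set of the components in parity `i`, eigenvalue `ζ^j` -/
abbrev LsJ (i : ZMod 2) (j : ZMod A.k) : Type :=
  {T : Finset A.JW // (T.card : ZMod 2) = i ∧ ∑ x ∈ T, x.1.2 = j}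

theorem zp_injW (i j : ZMod A.k) (h : A.zp i = A.zp j) : i = j := by
  unfold zp at h
  exact ZMod.val_injective _ (A.hz.pow_inj (ZMod.val_lt i) (ZMod.val_lt j) h)

private theorem lsE_chi_zero (g : Gn D.F) : D.chi 0 g = 1 := by
  cases g with
  | tau => exact zpow_zero _
  | th c =>
    show (c : D.F) ^ ((D.p : ℤ) * 0) = 1
    rw [mul_zero, zpow_zero]

private theorem lsE_chi_add (m n : ℤ) (g : Gn D.F) : D.chi (m + n) g = D.chi m g * D.chi n g := by
  cases g with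
  | tau => exact zpow_add₀ D.X.b_ne m n
  | th c =>
    show (c : D.F) ^ ((D.p : ℤ) * (m + n)) = (c : D.F) ^ ((D.p : ℤ) * m) * (c : D.F) ^ ((D.p : ℤ) * n)
    rw [mul_add, zpow_add₀ c.ne_zero]

theorem chW_bs_sum (T : Finset A.JW) (g : Gn D.F) :
    ∏ x ∈ T, A.chW d (Gk.bs g) x.1 = D.chi (A.lsL d T) g := by
  classical
  unfold lsL
  induction T using Finset.induction_on with
  | empty =>
    rw [Finset.prod_empty, Finset.sum_empty, lsE_chi_zero]
  | insert a s ha ih =>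
    rw [Finset.prod_insert ha, Finset.sum_insert ha, lsE_chi_add, ih]
    rfl

theorem chW_cyc_sum (T : Finset A.JW) : ∏ x ∈ T, A.chW d Gk.cyc x.1 = A.zp (∑ x ∈ T, x.1.2) := by
  classical
  induction T using Finset.induction_on with
  | empty =>
    rw [Finset.prod_empty, Finset.sum_empty, zp_zero]
  | insert a s ha ih =>
    rw [Finset.prod_insert ha, Finset.sum_insert ha, zp_add, ih]
    rfl

private theorem lsE_rho (g : Gk D.F) (j : (A.kW d).J) : (A.kW d).rho g (Pi.single j 1) =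
    A.chW d g j.1 • (Pi.single j 1 : (A.kW d).J → D.F) := by
  funext x
  show A.chW d g x.1 * (Pi.single j 1 : (A.kW d).J → D.F) x =
    A.chW d g j.1 * (Pi.single j 1 : (A.kW d).J → D.F) x
  by_cases h : x = j
  · rw [h]
  · rw [Pi.single_eq_of_ne h, mul_zero, mul_zero]

private theorem lsE_diag {Z : Type u} [AddCommGroup Z] [Module A.R Z] (g : Gk D.F)
    (x : (A.kW d).Tot Z) (T : Finset (A.kW d).J) :
    (gam A.ph g • x) T =
      iot A.ph (algebraMap D.F A.S (∏ y ∈ T, A.chW d g y.1)) • gam A.ph g • x T := by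
  have key : ∀ B : Finset (A.kW d).J, mpE ((A.kW d).rho g) (bE D.F (A.kW d).J B) =
      (∏ y ∈ B, A.chW d g y.1) • bE D.F (A.kW d).J B := fun B =>
    mpE_diag ((A.kW d).rho g) (fun y : (A.kW d).J => A.chW d g y.1) (A.lsE_rho d g) B
  refine ((A.kW d).gam_smul g x T).trans ?_
  refine (Finset.sum_eq_single T ?_ ?_).trans ?_
  rotate_left 2
  · rw [key, map_smul, Module.Basis.repr_self, Finsupp.smul_apply,
      Finsupp.single_eq_same, smul_eq_mul, mul_one]
  · intro B _ hB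
    rw [key, map_smul, Module.Basis.repr_self, Finsupp.smul_apply,
      Finsupp.single_eq_of_ne hB.symm, smul_zero, map_zero, map_zero, zero_smul]
  · intro h
    exact absurd (Finset.mem_univ T) h

variable (C : Type u) [AddCommGroup C] [Module D.R C]

theorem kW_bs (g : Gn D.F) (x : (A.kW d).Tot (A.Up C)) (T : Finset A.JW) :
    (gam A.ph (Gk.bs g) • x) T =
      iot A.ph (algebraMap D.F A.S (D.chi (A.lsL d T) g)) • gam A.ph (Gk.bs g) • x T := by
  rw [← A.chW_bs_sum d T g]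
  exact A.lsE_diag d (Gk.bs g) x T

theorem kW_cyc (x : (A.kW d).Tot (A.Up C)) (T : Finset A.JW) :
    (gam A.ph Gk.cyc • x) T =
      iot A.ph (algebraMap D.F A.S (A.zp (∑ y ∈ T, y.1.2))) • x T := by
  rw [← A.chW_cyc_sum d T]
  refine (A.lsE_diag d Gk.cyc x T).trans ?_
  congr 1
  exact A.up_cyc C (x T)

private theorem lsE_da (x : (A.kW d).Tot (A.Up C)) : (A.kW d).da x = 0 := by
  rw [KS.da_apply]
  refine Finset.sum_eq_zero fun j _ => ?_
  have h : (A.kW d).y j = 0 := rfl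
  rw [h, map_zero, zero_smul]

theorem kW_d0 (x : ((A.kW d).ch (A.Up C)).X0) : ((A.kW d).ch (A.Up C)).d0 x = 0 :=
  Subtype.ext (A.lsE_da d C x.1)

theorem kW_d1 (x : ((A.kW d).ch (A.Up C)).X1) : ((A.kW d).ch (A.Up C)).d1 x = 0 :=
  Subtype.ext (A.lsE_da d C x.1)

/-- the vector with given components -/
private def lsV (i : ZMod 2) (j : ZMod A.k) (x : ∀ T : A.LsJ i j, D.T (A.lsL d T.1) C) :
    (A.kW d).Tot (A.Up C) :=
  fun (T : Finset A.JW) =>
    if h : ((T.card : ZMod 2) = i ∧ ∑ y ∈ T, y.1.2 = j) then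
      A.toUp C ((toTw D.ph (D.chi (A.lsL d T)) C).symm (x ⟨T, h⟩)) else 0

private theorem lsV_pos {i : ZMod 2} {j : ZMod A.k}
    (x : ∀ T : A.LsJ i j, D.T (A.lsL d T.1) C) (T : Finset A.JW)
    (h : ((T.card : ZMod 2) = i ∧ ∑ y ∈ T, y.1.2 = j)) :
    A.lsV d C i j x T = A.toUp C ((toTw D.ph (D.chi (A.lsL d T)) C).symm (x ⟨T, h⟩)) :=
  dif_pos h

private theorem lsV_neg {i : ZMod 2} {j : ZMod A.k}
    (x : ∀ T : A.LsJ i j, D.T (A.lsL d T.1) C) (T : Finset A.JW)
    (h : ¬ ((T.card : ZMod 2) = i ∧ ∑ y ∈ T, y.1.2 = j)) :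
    A.lsV d C i j x T = 0 :=
  dif_neg h

private theorem lsV_mem {i : ZMod 2} {j : ZMod A.k}
    (x : ∀ T : A.LsJ i j, D.T (A.lsL d T.1) C) :
    A.lsV d C i j x ∈ (A.kW d).part (A.Up C) i :=
  fun T hT => A.lsV_neg d C x T (fun h => hT h.1)

private theorem lsV_cyc {i : ZMod 2} {j : ZMod A.k}
    (x : ∀ T : A.LsJ i j, D.T (A.lsL d T.1) C) :
    gam A.ph Gk.cyc • A.lsV d C i j x =
      iot A.ph (algebraMap D.F A.S (A.zp j)) • A.lsV d C i j x := by
  refine funext fun (T : Finset A.JW) => ?_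
  refine (A.kW_cyc d C _ T).trans ?_
  refine Eq.trans ?_ ((A.kW d).iot_smul _ _ T).symm
  by_cases h : ((T.card : ZMod 2) = i ∧ ∑ y ∈ T, y.1.2 = j)
  · rw [h.2]
  · rw [A.lsV_neg d C x T h, smul_zero, smul_zero]

private theorem lsV_add {i : ZMod 2} {j : ZMod A.k}
    (x y : ∀ T : A.LsJ i j, D.T (A.lsL d T.1) C) :
    A.lsV d C i j (x + y) = A.lsV d C i j x + A.lsV d C i j y := by
  refine funext fun (T : Finset A.JW) => ?_
  show A.lsV d C i j (x + y) T = A.lsV d C i j x T + A.lsV d C i j y T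
  by_cases h : ((T.card : ZMod 2) = i ∧ ∑ y ∈ T, y.1.2 = j)
  · rw [A.lsV_pos d C _ T h, A.lsV_pos d C _ T h, A.lsV_pos d C _ T h, ← map_add, ← map_add]
    rfl
  · rw [A.lsV_neg d C _ T h, A.lsV_neg d C _ T h, A.lsV_neg d C _ T h, add_zero]

private theorem lsE_alg (c : D.F) : A.ev0 (algebraMap D.F A.S c) = algebraMap D.F D.S c := by
  have h1 : algebraMap D.F A.S c = MvPolynomial.C (algebraMap D.F D.L c) := rfl
  have h2 : algebraMap D.F D.S c = MvPolynomial.C (algebraMap D.F D.L c) := rfl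
  rw [h1, h2, ev0_C]

private theorem lsV_iot {i : ZMod 2} {j : ZMod A.k}
    (x : ∀ T : A.LsJ i j, D.T (A.lsL d T.1) C) (s : D.S) :
    A.lsV d C i j (iot D.ph s • x) = iot A.ph (A.avg s) • A.lsV d C i j x := by
  refine funext fun (T : Finset A.JW) => ?_
  refine Eq.trans ?_ ((A.kW d).iot_smul _ _ T).symm
  by_cases h : ((T.card : ZMod 2) = i ∧ ∑ y ∈ T, y.1.2 = j)
  · rw [A.lsV_pos d C _ T h, A.lsV_pos d C _ T h, up_iot, ev0_avg]
    congr 1
    obtain ⟨m, hm⟩ : ∃ m : C, toTw D.ph (D.chi (A.lsL d T)) C m = x ⟨T, h⟩ :=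
      (toTw D.ph (D.chi (A.lsL d T)) C).surjective _
    have e1 : (iot D.ph s • x) ⟨T, h⟩ = iot D.ph s • x ⟨T, h⟩ := rfl
    rw [e1, ← hm, AddEquiv.symm_apply_apply]
    have e2 := tw_iot (φ := D.ph) (D.chi (A.lsL d T)) C s m
    exact (congrArg (toTw D.ph (D.chi (A.lsL d T)) C).symm e2).trans
      (AddEquiv.symm_apply_apply _ _)
  · rw [A.lsV_neg d C _ T h, A.lsV_neg d C _ T h, smul_zero]

private theorem lsV_gam {i : ZMod 2} {j : ZMod A.k}
    (x : ∀ T : A.LsJ i j, D.T (A.lsL d T.1) C) (g : Gn D.F) :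
    A.lsV d C i j (gam D.ph g • x) = gam A.ph (Gk.bs g) • A.lsV d C i j x := by
  refine funext fun (T : Finset A.JW) => ?_
  refine Eq.trans ?_ (A.kW_bs d C g _ T).symm
  by_cases h : ((T.card : ZMod 2) = i ∧ ∑ y ∈ T, y.1.2 = j)
  · rw [A.lsV_pos d C _ T h, A.lsV_pos d C _ T h, up_bs, up_iot, lsE_alg]
    congr 1
    obtain ⟨m, hm⟩ : ∃ m : C, toTw D.ph (D.chi (A.lsL d T)) C m = x ⟨T, h⟩ :=
      (toTw D.ph (D.chi (A.lsL d T)) C).surjective _
    have e1 : (gam D.ph g • x) ⟨T, h⟩ = gam D.ph g • x ⟨T, h⟩ := rfl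
    rw [e1, ← hm, AddEquiv.symm_apply_apply]
    have e2 := tw_gam (φ := D.ph) (D.chi (A.lsL d T)) C g m
    exact (congrArg (toTw D.ph (D.chi (A.lsL d T)) C).symm e2).trans
      (AddEquiv.symm_apply_apply _ _)
  · rw [A.lsV_neg d C _ T h, A.lsV_neg d C _ T h, smul_zero, smul_zero]

theorem kW_eg (i : ZMod 2) (j : ZMod A.k) (hK : A.IsK ((A.kW d).part (A.Up C) i)) :
    Nonempty ((∀ T : A.LsJ i j, D.T (A.lsL d T.1) C) ≃ₗ[D.R]
      A.Eg j ((A.kW d).part (A.Up C) i)) := by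
  obtain ⟨f0, hf0⟩ : ∃ f0 : (∀ T : A.LsJ i j, D.T (A.lsL d T.1) C) →
      A.Eg j ((A.kW d).part (A.Up C) i), ∀ x, A.egi j (f0 x) = ⟨A.lsV d C i j x, A.lsV_mem d C x⟩ :=
    ⟨fun x => A.egk j ⟨A.lsV d C i j x, A.lsV_mem d C x⟩
      ((A.eg_mem hK j _).2 (Subtype.ext (A.lsV_cyc d C x))), fun x => rfl⟩
  have hadd : ∀ x y, f0 (x + y) = f0 x + f0 y := by
    intro x y
    apply A.egi_inj j
    rw [map_add, hf0, hf0, hf0]
    exact Subtype.ext (A.lsV_add d C x y)
  let f1 : (∀ T : A.LsJ i j, D.T (A.lsL d T.1) C) →+ A.Eg j ((A.kW d).part (A.Up C) i) :=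
    AddMonoidHom.mk' f0 hadd
  have hf1 : ∀ x, A.egi j (f1 x) = ⟨A.lsV d C i j x, A.lsV_mem d C x⟩ := hf0
  let f : (∀ T : A.LsJ i j, D.T (A.lsL d T.1) C) →ₗ[D.R] A.Eg j ((A.kW d).part (A.Up C) i) :=
    mkLin f1
      (fun s x => by
        apply A.egi_inj j
        rw [egi_smul, hf1, hf1, res_iot]
        exact Subtype.ext (A.lsV_iot d C x s))
      (fun g x => by
        apply A.egi_inj j
        rw [egi_smul, hf1, hf1, res_gam]
        exact Subtype.ext (A.lsV_gam d C x g))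
  have hf : ∀ x, A.egi j (f x) = ⟨A.lsV d C i j x, A.lsV_mem d C x⟩ := hf0
  refine ⟨LinearEquiv.ofBijective f ⟨?_, ?_⟩⟩
  · intro x y hxy
    have h1 : A.lsV d C i j x = A.lsV d C i j y := by
      have h2 := congrArg (A.egi j) hxy
      rw [hf, hf] at h2
      exact congrArg Subtype.val h2
    funext T
    have h3 := congrFun h1 T.1
    have h4 := (A.lsV_pos d C x T.1 T.2).symm.trans (h3.trans (A.lsV_pos d C y T.1 T.2))
    exact (toTw D.ph (D.chi (A.lsL d T.1)) C).symm.injective ((A.toUp C).injective h4)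
  · intro y
    have hy : gam A.ph Gk.cyc • A.egi j y =
        iot A.ph (algebraMap D.F A.S (A.zp j)) • A.egi j y := by
      have h1 := A.egi_mem j y 1
      rwa [map_one, one_smul] at h1
    obtain ⟨v, hv⟩ : ∃ v : (A.kW d).Tot (A.Up C), v = (A.egi j y).1 := ⟨_, rfl⟩
    have hv1 : ∀ T : Finset A.JW, (T.card : ZMod 2) ≠ i → v T = 0 := by
      rw [hv]
      exact (A.egi j y).2
    have hv2 : gam A.ph Gk.cyc • v = iot A.ph (algebraMap D.F A.S (A.zp j)) • v := by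
      rw [hv]
      exact congrArg Subtype.val hy
    have hv3 : ∀ T : Finset A.JW, ∑ y ∈ T, y.1.2 ≠ j → v T = 0 := by
      intro T hT
      have h1 := congrFun hv2 T
      have h2 : iot A.ph (algebraMap D.F A.S (A.zp (∑ y ∈ T, y.1.2))) • v T =
          iot A.ph (algebraMap D.F A.S (A.zp j)) • v T :=
        (A.kW_cyc d C v T).symm.trans (h1.trans ((A.kW d).iot_smul _ _ T))
      have h3 : A.zp (∑ y ∈ T, y.1.2) - A.zp j ≠ 0 := by
        rw [sub_ne_zero]
        intro h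
        exact hT (A.zp_injW _ _ h)
      have h4 : iot A.ph (algebraMap D.F A.S (A.zp (∑ y ∈ T, y.1.2) - A.zp j)) • v T = 0 := by
        rw [map_sub, map_sub, sub_smul, h2, sub_self]
      have h5 : iot A.ph (algebraMap D.F A.S (A.zp (∑ y ∈ T, y.1.2) - A.zp j)⁻¹) •
          iot A.ph (algebraMap D.F A.S (A.zp (∑ y ∈ T, y.1.2) - A.zp j)) • v T =
          iot A.ph (algebraMap D.F A.S (A.zp (∑ y ∈ T, y.1.2) - A.zp j)⁻¹) • 0 :=
        congrArg (fun t => iot A.ph (algebraMap D.F A.S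
          (A.zp (∑ y ∈ T, y.1.2) - A.zp j)⁻¹) • t) h4
      rw [← mul_smul, ← map_mul, ← map_mul, inv_mul_cancel₀ h3, map_one, map_one, one_smul,
        smul_zero] at h5
      exact h5
    have hv4 : A.lsV d C i j
        (fun T => toTw D.ph (D.chi (A.lsL d T.1)) C ((A.toUp C).symm (v T.1))) = v := by
      refine funext fun (T : Finset A.JW) => ?_
      by_cases h : ((T.card : ZMod 2) = i ∧ ∑ y ∈ T, y.1.2 = j)
      · refine (A.lsV_pos d C _ T h).trans ?_
        rw [AddEquiv.symm_apply_apply, AddEquiv.apply_symm_apply]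
      · refine (A.lsV_neg d C _ T h).trans ?_
        by_cases h1 : (T.card : ZMod 2) = i
        · exact (hv3 T (fun h2 => h ⟨h1, h2⟩)).symm
        · exact (hv1 T h1).symm
    refine ⟨fun T => toTw D.ph (D.chi (A.lsL d T.1)) C ((A.toUp C).symm (v T.1)), ?_⟩
    apply A.egi_inj j
    rw [hf]
    exact Subtype.ext (hv4.trans hv)

end Adm

end MSA
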