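import Mathlib
import Pool.Agent.MSA.LsA
import Pool.Agent.MSA.LsC
import Pool.Agent.MSA.LsE
import Pool.Agent.MSA.Qis

/-!
# The Euler characteristic of `Λ(W + W) ⊗ C`

PROOF. `chi_of_zero_diff` (`kW_d0`, `kW_d1`): `chi = dl e (part 0) - dl e (part 1)`, and `part 0`, `part 1` are good (`InK.k`).
`kW_eg` and `adf_pi`: `e (Eg j (part i)) = ∑_{T : LsJ i j} e (D.T (lsL T) C)`; `lsL T = d 0 * a + d 1 * b` with `a`, `b` the numbers
of `x ∈ T` with first coordinate `0`, `1`; both are `< k`. Sum over `T : Finset A.JW` with the signs, then `ls_comb`.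
-/

set_option autoImplicit false
set_option linter.unusedSectionVars false

noncomputable section

namespace MSA

universe u v w

namespace Adm

variable {D : Dat.{u}} (A : Adm D) (d : Fin 2 → ℕ)

theorem lsL_eq (T : Finset A.JW) : A.lsL d T =
    (d 0 : ℤ) * (T.filter (fun x => x.1.1 = 0)).card +
      (d 1 : ℤ) * (T.filter (fun x => x.1.1 = 1)).card := by
  unfold lsL
  rw [← Finset.sum_filter_add_sum_filter_not T (fun x => x.1.1 = 0)]
  have h1 : T.filter (fun x => ¬ x.1.1 = 0) = T.filter (fun x => x.1.1 = 1) := by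
    apply Finset.filter_congr
    intro x _
    have := Fin.exists_fin_two.1 ⟨x.1.1, rfl⟩
    constructor
    · intro h
      rcases this with h2 | h2
      · exact absurd h2 h
      · exact h2
    · intro h h2
      rw [h] at h2
      exact absurd h2 (by decide)
  rw [h1, Finset.sum_congr rfl (g := fun _ => (d 0 : ℤ))
    (fun x hx => by rw [(Finset.mem_filter.1 hx).2]), Finset.sum_const,
    Finset.sum_congr rfl (g := fun _ => (d 1 : ℤ))
    (fun x hx => by rw [(Finset.mem_filter.1 hx).2]), Finset.sum_const, nsmul_eq_mul,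
    nsmul_eq_mul, mul_comm, mul_comm (_ : ℤ) (d 1 : ℤ)]

theorem card_lt (T : Finset A.JW) (i : Fin 2) :
    (T.filter (fun x => x.1.1 = i)).card < A.k := by
  have h1 : (T.filter (fun x => x.1.1 = i)).card ≤ ((Finset.univ : Finset (ZMod A.k)).erase 0).card := by
    apply Finset.card_le_card_of_injOn (fun x => x.1.2)
    · intro x _
      rw [Finset.mem_coe, Finset.mem_erase]
      exact ⟨x.2, Finset.mem_univ _⟩
    · intro x hx y hy hxy
      rw [Finset.mem_coe, Finset.mem_filter] at hx hy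
      exact Subtype.ext (Prod.ext (hx.2.trans hy.2.symm) hxy)
  rw [Finset.card_erase_of_mem (Finset.mem_univ _), Finset.card_univ, ZMod.card] at h1
  have := A.hk.out.pos
  omega

theorem eg_part_sum {Cl : Cls.{u} D.R} {B : Type v} [AddCommGroup B] (e : Adf Cl B)
    (C : Type u) [AddCommGroup C] [Module D.R C]
    (hC : ∀ a b : ℕ, a < A.k → b < A.k → Cl.P (D.T (d 0 * a + d 1 * b) C))
    (i : ZMod 2) (j : ZMod A.k) (hK : A.IsK ((A.kW d).part (A.Up C) i)) :
    e.e (A.Eg j ((A.kW d).part (A.Up C) i)) = ∑ T : Finset A.JW,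
      (if ((T.card : ZMod 2) = i ∧ ∑ x ∈ T, x.1.2 = j) then (1 : ℤ) else 0) •
        e.e (D.T (d 0 * (T.filter (fun x => x.1.1 = 0)).card +
          d 1 * (T.filter (fun x => x.1.1 = 1)).card) C) := by
  obtain ⟨f⟩ := A.kW_eg d C i j hK
  have hP : ∀ T : Finset A.JW, Cl.P (D.T (A.lsL d T) C) := by
    intro T
    rw [A.lsL_eq d T]
    exact hC _ _ (A.card_lt T 0) (A.card_lt T 1)
  obtain ⟨h1, h2⟩ := adf_pi e (fun T : A.LsJ i j => D.T (A.lsL d T.1) C) (fun T => hP T.1)
  rw [← e.iso f h1, h2]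
  have h3 : ∀ T : Finset A.JW, e.e (D.T (A.lsL d T) C) =
      e.e (D.T (d 0 * (T.filter (fun x => x.1.1 = 0)).card +
          d 1 * (T.filter (fun x => x.1.1 = 1)).card) C) := by
    intro T
    rw [A.lsL_eq d T]
  rw [Finset.sum_congr rfl fun T _ => h3 T.1]
  simp only [ite_smul, one_smul, zero_smul]
  rw [← Finset.sum_filter]
  refine (Finset.sum_subtype (p := fun T : Finset A.JW => (T.card : ZMod 2) = i ∧
    ∑ x ∈ T, x.1.2 = j) _ (fun T => ?_) (fun T : Finset A.JW =>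
      e.e (D.T (d 0 * (T.filter (fun x => x.1.1 = 0)).card +
          d 1 * (T.filter (fun x => x.1.1 = 1)).card) C))).symm
  rw [Finset.mem_filter]
  exact ⟨fun h => h.2, fun h => ⟨Finset.mem_univ _, h⟩⟩

theorem sign_aux (T : Finset A.JW) (q : Prop) [Decidable q] :
    ((if ((T.card : ZMod 2) = 0 ∧ q) then (1 : ℤ) else 0) -
      (if ((T.card : ZMod 2) = 1 ∧ q) then (1 : ℤ) else 0)) = (-1) ^ T.card * (if q then 1 else 0) := by
  rcases Nat.even_or_odd T.card with h | h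
  · have h0 : (T.card : ZMod 2) = 0 := (ZMod.natCast_eq_zero_iff_even).2 h
    rw [h0, h.neg_one_pow]
    by_cases hq : q <;> simp [hq]
  · have h0 : (T.card : ZMod 2) = 1 := (ZMod.natCast_eq_one_iff_odd).2 h
    rw [h0, h.neg_one_pow]
    by_cases hq : q <;> simp [hq]

theorem kW_chi {Cl : Cls.{u} D.R} {B : Type v} [AddCommGroup B] (e : Adf Cl B)
    (C : Type u) [AddCommGroup C] [Module D.R C]
    (hC : ∀ a b : ℕ, a < A.k → b < A.k → Cl.P (D.T (d 0 * a + d 1 * b) C))
    (hI : ((A.kW d).ch (A.Up C)).InC (A.cK Cl)) :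
    ((A.kW d).ch (A.Up C)).chi (A.dlA e) =
      ∑ a : Fin A.k, ∑ b : Fin A.k, e.e (D.T (d 0 * a + d 1 * b) C) := by
  obtain ⟨h1, h2, h3⟩ := chi_of_zero_diff (A.dlA e) (A.kW_d0 d C) (A.kW_d1 d C) hI
  have k0 : A.IsK ((A.kW d).part (A.Up C) 0) := h1.k
  have k1 : A.IsK ((A.kW d).part (A.Up C) 1) := h2.k
  rw [h3]
  show (e.e (A.Eg 0 ((A.kW d).part (A.Up C) 0)) - e.e (A.Eg 1 ((A.kW d).part (A.Up C) 0))) -
    (e.e (A.Eg 0 ((A.kW d).part (A.Up C) 1)) - e.e (A.Eg 1 ((A.kW d).part (A.Up C) 1))) = _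
  rw [A.eg_part_sum d e C hC 0 0 k0, A.eg_part_sum d e C hC 0 1 k0,
    A.eg_part_sum d e C hC 1 0 k1, A.eg_part_sum d e C hC 1 1 k1,
    ← Finset.sum_sub_distrib, ← Finset.sum_sub_distrib, ← Finset.sum_sub_distrib]
  refine Eq.trans ?_ (ls_comb A.k A.hk.out (fun a b => e.e (D.T (d 0 * a + d 1 * b) C)))
  refine Finset.sum_congr rfl fun T _ => ?_
  rw [← sub_smul, ← sub_smul, ← sub_smul]
  congr 1
  rw [mul_sub, ← A.sign_aux T, ← A.sign_aux T]
  ring

end Adm

end MSA
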