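import Mathlib
import Pool.Agent.MSA.Ci
import Pool.Agent.MSA.Ls
import Pool.Agent.MSA.CA

/-!
# The Adams operation on complete intersections: final formula
-/

set_option autoImplicit false
set_option linter.unusedSectionVars false

noncomputable section

namespace MSA

universe u v w

namespace Adm

variable {D : Dat.{u}} (A : Adm D)

/-- `(ψ^* e)(S/(y,g)) = ∑_{a,b<k} e(S/(y,g) twisted by m a + n b)`. -/
theorem psi_ci {B : Type v} [AddCommGroup B] (e : Adf (D.cA 2) B) {m n : ℕ} {y g : D.S}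
    (hy : D.Iv m y) (hg : D.Iv n g) (y0 : y ≠ 0) (g0 : g ≠ 0) (h : IsRelPrime y g) :
    A.psiv e (D.CI y g) = ∑ a : Fin A.k, ∑ b : Fin A.k,
      e.e (D.T ((m * a.val + n * b.val : ℕ) : ℤ) (D.CI y g)) := by
  have hM : (D.cA 2).P (D.CI y g) := D.isA_CI hy hg y0 g0 h
  have h1 := A.psi_in (D.cA_spp 2) hM
  obtain ⟨i0, i1⟩ := A.ci_iso hy hg y0 h
  obtain ⟨h2, h3⟩ := chi_congr (A.dlA e) i0 i1 h1
  have h4 := A.kW_chi ![m, n] e (D.CI y g) (fun a b _ _ => D.isA_tw hM _) h2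
  show (A.tch (A.Pk (D.CI y g))).chi (A.dlA e) = _
  rw [h3, h4]
  refine Finset.sum_congr rfl fun a _ => Finset.sum_congr rfl fun b _ => ?_
  have h5 : (((![m, n] : Fin 2 → ℕ) 0 : ℕ) : ℤ) * (a.val : ℤ) +
      (((![m, n] : Fin 2 → ℕ) 1 : ℕ) : ℤ) * (b.val : ℤ) =
      ((m * a.val + n * b.val : ℕ) : ℤ) := by
    push_cast
    simp
  have h6 : ∀ t t' : ℤ, t = t' → e.e (D.T t (D.CI y g)) = e.e (D.T t' (D.CI y g)) := by
    intro t t' ht
    subst ht
    rfl
  exact h6 _ _ h5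

end Adm

end MSA
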