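import Mathlib
import Pool.Agent.MSA.Big

/-!
# Existence of prime objects

PROOFS. `isQ_ann`: `q = annI m`, `Cy q` twisted by `n` is isomorphic to `span {m} ≤ M` (`cyc_iso`).
* `st`: `annI_st`.
* `a`: `span {m}` is in `cA c` (submodule), so `D.T n (Cy q)` is, so `Cy q` is (`isA_tw` with `-n`, `tw_neg`
  with `n` replaced by `-n`, or `tw_tw` and `tw_zero`).
* `na`: if `Cy q` is in `cA (c+1)` then so are `D.T n (Cy q)` and `span {m}`; by `hs` it is `⊥`, so `m = 0`.
* `pure`: let `N ≤ Cy q` be in `cA (c+1)`.  `D.T n N → D.T n (Cy q) ≃ span {m} → M` is injective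
  (`twM_inj`); its range is isomorphic to `D.T n N`, so in `cA (c+1)`, so `⊥` by `hs`; so `N = ⊥`.
* `reg`: let `r ∈ Iv k`, `r ∉ q`, `r s ∈ q`, `s ∉ q`.  `K = killI M r ⊓ span {m}` contains
  `iot s • m ≠ 0`, so it is not in `cA (c+1)` by `hs`; `exists_inv_ne` for the module `K` gives an
  invariant `0 ≠ m' ∈ K`, `m' ∈ minv M n'`.  `annI m ≤ annI m'` (`annI_mono`) and `r ∈ annI m'`,
  `r ∉ annI m`: contradiction with `hmax`.
`exists_isQ`: by `exists_inv_ne` the set of the ideals `annI m`, `m ≠ 0` in some `minv M n`, is nonempty;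
`S` is Noetherian, so it has a maximal element; `isQ_ann`.
-/

set_option autoImplicit false
set_option linter.unusedSectionVars false

noncomputable section

namespace MSA

universe u v w

namespace Dat

variable (D : Dat.{u})

variable {M : Type u} [AddCommGroup M] [Module D.R M]

private theorem isA_untw30 {X : Type u} [AddCommGroup X] [Module D.R X] {c : ℕ} (n : ℤ)
    (h : D.IsA (D.T n X) c) : D.IsA X c := by
  have h1 := D.isA_tw h (-n)
  obtain ⟨e1⟩ := D.tw_tw X (-n) n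
  rw [neg_add_cancel] at e1
  obtain ⟨e2⟩ := D.tw_zero X
  exact D.isA_iso (e1.trans e2) h1

theorem isQ_ann {c : ℕ} (hc : c < D.p) (hM : D.IsA M c)
    (hs : ∀ N : Submodule D.R M, D.IsA N (c + 1) → N = ⊥) {n : ℤ} {m : M} (h : m ∈ D.minv M n)
    (h0 : m ≠ 0) (hmax : ∀ (n' : ℤ) (m' : M), m' ∈ D.minv M n' → m' ≠ 0 →
      D.annI m ≤ D.annI m' → D.annI m' ≤ D.annI m) : D.IsQ c (D.annI m) := by
  obtain ⟨e⟩ := D.cyc_iso h
  refine ⟨D.annI_st h, ?_, ?_, ?_, ?_⟩
  · exact D.isA_untw30 n (D.isA_iso e.symm (D.isA_sub hM _))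
  · intro h1
    have h2 := hs _ (D.isA_iso e (D.isA_tw h1 n))
    have h3 : m ∈ (Submodule.span D.R {m} : Submodule D.R M) := Submodule.mem_span_singleton_self m
    rw [h2, Submodule.mem_bot] at h3
    exact h0 h3
  · intro k r hr hrq s hrs
    by_contra hsq
    have h1 : iot D.ph s • m ≠ 0 := hsq
    have h2 : ¬ D.IsA (D.killI M hr ⊓ Submodule.span D.R {m} : Submodule D.R M) (c + 1) := by
      intro h3
      have h4 := hs _ h3
      have h5 : iot D.ph s • m ∈ (D.killI M hr ⊓ Submodule.span D.R {m} : Submodule D.R M) := by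
        refine ⟨(D.mem_killI hr _).2 ?_, Submodule.smul_mem _ _ (Submodule.mem_span_singleton_self m)⟩
        have h6 : iot D.ph (r * s) • m = 0 := hrs
        rw [map_mul, mul_smul] at h6
        exact h6
      rw [h4, Submodule.mem_bot] at h5
      exact h1 h5
    obtain ⟨n', m', hm', hm0⟩ := D.exists_inv_ne (D.isG_sub hM.g _) hc h2
    have hm'' : (m' : M) ∈ D.minv M n' :=
      ⟨fun c => congrArg Subtype.val (hm'.1 c), congrArg Subtype.val hm'.2⟩
    have h7 : D.annI m ≤ D.annI (m' : M) := D.annI_mono h m'.2.2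
    have h8 := hmax n' m' hm'' (fun h9 => hm0 (Subtype.ext h9)) h7
    exact hrq (h8 ((D.mem_killI hr _).1 m'.2.1))
  · intro N hN
    let f : D.T n N →ₗ[D.R] M := (Submodule.span D.R {m} : Submodule D.R M).subtype ∘ₗ
      e.toLinearMap ∘ₗ D.twM n N.subtype
    have hf : Function.Injective f :=
      (Submodule.injective_subtype _).comp (e.injective.comp
        (D.twM_inj n (Submodule.injective_subtype N)))
    have h1 := hs _ (D.isA_iso (LinearEquiv.ofInjective f hf) (D.isA_tw hN n))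
    rw [eq_bot_iff]
    intro x hx
    have h2 : f (toTw D.ph (D.chi n) N ⟨x, hx⟩) ∈ LinearMap.range f := LinearMap.mem_range_self _ _
    rw [h1, Submodule.mem_bot] at h2
    have h3 : toTw D.ph (D.chi n) N ⟨x, hx⟩ = 0 := hf (h2.trans (map_zero f).symm)
    have h4 : (⟨x, hx⟩ : N) = 0 := (toTw D.ph (D.chi n) N).injective (h3.trans (map_zero _).symm)
    rw [Submodule.mem_bot]
    exact congrArg Subtype.val h4

theorem exists_isQ {c : ℕ} (hc : c < D.p) (hM : D.IsA M c)
    (hs : ∀ N : Submodule D.R M, D.IsA N (c + 1) → N = ⊥) (hne : ¬ D.IsA M (c + 1)) :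
    ∃ (n : ℤ) (m : M), m ∈ D.minv M n ∧ m ≠ 0 ∧ D.IsQ c (D.annI m) := by
  obtain ⟨n0, m0, h0, h0'⟩ := D.exists_inv_ne hM.g hc hne
  let A : Set (Ideal D.S) := {I | ∃ (n : ℤ) (m : M), m ∈ D.minv M n ∧ m ≠ 0 ∧ I = D.annI m}
  have hA : A.Nonempty := ⟨_, n0, m0, h0, h0', rfl⟩
  have hnoe : IsNoetherian D.S D.S := (inferInstance : IsNoetherianRing D.S)
  obtain ⟨I, ⟨n, m, hm, hm0, rfl⟩, hmax⟩ := set_has_maximal_iff_noetherian.mpr hnoe A hA
  refine ⟨n, m, hm, hm0, D.isQ_ann hc hM hs hm hm0 fun n' m' hm' hm0' hle => ?_⟩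
  by_contra hcon
  exact hmax _ ⟨n', m', hm', hm0', rfl⟩ (lt_of_le_not_ge hle hcon)

end Dat

end MSA
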