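import Mathlib
import Pool.Agent.MSA.Big

/-!
# Prime objects: cokernels of invariants are small, twist invariance

PROOFS. `mulI_inj`: `x = mkQ (toSr f)`, `iot r • x = mkQ (toSr (r f))` (`cy_mk`), `cy_mk_eq_zero`, `hq.reg`.
`coker_small`: `0 → D.T n (Cy q) → Cy q → coker → 0` is exact (`mulI_inj`); `mom c` is additive
(`mom_add` for the range, `mom_iso`), `mom (D.T n (Cy q)) c = mom (Cy q) c` (`mom_tw`), so
`mom coker c = 0`; `coker` is in `cA c` (quotient), so in `cA (c+1)` by `isA_succ`.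
`e_tw_nat`: `adf_ses` for this sequence (`Cy q` is in `cA 2` by `isA_mono`) and `he`; `r` from `iv_not_mem`
(`Cy q` is not in `cA p`: `isA_mono` and `hq.na`).
`e_tw`: `n ≥ 0` is `e_tw_nat`.  For `n = -k`: twist the sequence for `k` by `-k`:
`0 → D.T (-k) (D.T k (Cy q)) → D.T (-k) (Cy q) → D.T (-k) coker → 0` (`twM_inj`, `twM_exact`, `twM_surj`), the
first term is isomorphic to `Cy q` (`tw_neg` with `n = -k`), the last one is in `cA (c+1)` (`isA_tw`).
`qsub`: `incl_small` and `hq.pure` give `(idl q').map mkQ = ⊥`, so `q' ≤ q` (`cy_mk_eq_zero`).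
`qeq`: if `q ≠ q'` then by `qsub` (roles exchanged: not `q' ≤ q`) there is an invariant `r ∈ q'`,
`r ∉ q`; `Cy q'` is a quotient of the cokernel (`cy_coker`), which is in `cA (c+1)`: contradiction
to `hq'.na`.
`exists_iv_diff`: otherwise all invariants of `q'` are in `q`, `q' ≤ q` by `qsub` and `q' = q` by `qeq`.
-/

set_option autoImplicit false
set_option linter.unusedSectionVars false

noncomputable section

namespace MSA

universe u v w

namespace Dat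

variable (D : Dat.{u})

theorem mulI_inj {c : ℕ} {q : Ideal D.S} (hq : D.IsQ c q) {n : ℕ} {r : D.S} (hr : D.Iv n r)
    (hrq : r ∉ q) : Function.Injective (D.mulI (D.Cy q) hr) := by
  rw [injective_iff_map_eq_zero]
  intro x hx
  obtain ⟨m, rfl⟩ := (toTw D.ph (D.chi n) (D.Cy q)).surjective x
  rw [mulI_apply] at hx
  obtain ⟨s, rfl⟩ := (idl D.ph q).mkQ_surjective m
  obtain ⟨f, rfl⟩ := (toSr D.ph).surjective s
  rw [D.cy_mk, D.cy_mk_eq_zero hq.st] at hx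
  have h1 := hq.reg n r hr hrq f hx
  rw [(D.cy_mk_eq_zero hq.st f).2 h1, map_zero]

private theorem te_ex {c : ℕ} {q : Ideal D.S} (_hq : D.IsQ c q) {n : ℕ} {r : D.S}
    (hr : D.Iv n r) (m : D.Cy q) : (LinearMap.range (D.mulI (D.Cy q) hr)).mkQ m = 0 ↔
      ∃ k, D.mulI (D.Cy q) hr k = m := by
  rw [Submodule.mkQ_apply, Submodule.Quotient.mk_eq_zero, LinearMap.mem_range]

theorem coker_small {c : ℕ} {q : Ideal D.S} (hq : D.IsQ c q) {n : ℕ} {r : D.S} (hr : D.Iv n r)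
    (hrq : r ∉ q) : D.IsA (D.Cy q ⧸ LinearMap.range (D.mulI (D.Cy q) hr)) (c + 1) := by
  refine D.isA_succ (D.isA_quo hq.a _) ?_
  have h1 := D.mom_ses hq.a.g (D.mulI (D.Cy q) hr) (LinearMap.range (D.mulI (D.Cy q) hr)).mkQ
    (D.mulI_inj hq hr hrq) (Submodule.mkQ_surjective _) (D.te_ex hq hr) c
  rw [D.mom_tw hq.a n] at h1
  linarith

private theorem te_np {c : ℕ} (hc : c < D.p) {q : Ideal D.S} (hq : D.IsQ c q) :
    ¬ D.IsA (D.Cy q) D.p := fun h => hq.na (D.isA_mono h hc)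

private theorem te_nat {c : ℕ} (hc2 : 2 ≤ c) (hc : c < D.p) {q : Ideal D.S} (hq : D.IsQ c q)
    {B : Type v} [AddCommGroup B] (e : Adf (D.cA 2) B)
    (he : ∀ (N : Type u) [AddCommGroup N] [Module D.R N], D.IsA N (c + 1) → e.e N = 0) (n : ℕ) :
    e.e (D.T n (D.Cy q)) = e.e (D.Cy q) := by
  obtain ⟨r, hr, hrq⟩ := D.iv_not_mem hq.st (D.te_np hc hq) n
  have h1 := adf_ses e (C := D.cA 2) (D.isA_mono hq.a hc2) (D.mulI (D.Cy q) hr)
    (LinearMap.range (D.mulI (D.Cy q) hr)).mkQ (D.mulI_inj hq hr hrq)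
    (Submodule.mkQ_surjective _) (D.te_ex hq hr)
  rw [he _ (D.coker_small hq hr hrq), add_zero] at h1
  exact h1.symm

private theorem te_back {M : Type u} [AddCommGroup M] [Module D.R M] (j k : ℤ) (h : j + k = 0) :
    Nonempty (D.T j (D.T k M) ≃ₗ[D.R] M) := by
  have e1 := D.tw_tw M j k
  rw [h] at e1
  obtain ⟨f⟩ := e1
  obtain ⟨g⟩ := D.tw_zero M
  exact ⟨f.trans g⟩

theorem e_tw {c : ℕ} (hc2 : 2 ≤ c) (hc : c < D.p) {q : Ideal D.S} (hq : D.IsQ c q)
    {B : Type v} [AddCommGroup B] (e : Adf (D.cA 2) B)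
    (he : ∀ (N : Type u) [AddCommGroup N] [Module D.R N], D.IsA N (c + 1) → e.e N = 0) (n : ℤ) :
    e.e (D.T n (D.Cy q)) = e.e (D.Cy q) := by
  have h2 : D.IsA (D.Cy q) 2 := D.isA_mono hq.a hc2
  rcases le_or_gt 0 n with hn | hn
  · obtain ⟨k, rfl⟩ := Int.eq_ofNat_of_zero_le hn
    exact D.te_nat hc2 hc hq e he k
  · obtain ⟨k, hk⟩ := Int.eq_ofNat_of_zero_le (show 0 ≤ -n by omega)
    obtain ⟨r, hr, hrq⟩ := D.iv_not_mem hq.st (D.te_np hc hq) k
    have h1 := adf_ses e (C := D.cA 2) (D.isA_tw h2 n) (D.twM n (D.mulI (D.Cy q) hr))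
      (D.twM n (LinearMap.range (D.mulI (D.Cy q) hr)).mkQ)
      (D.twM_inj n (D.mulI_inj hq hr hrq))
      (D.twM_surj n (Submodule.mkQ_surjective _)) (D.twM_exact n (D.te_ex hq hr))
    rw [he _ (D.isA_tw (D.coker_small hq hr hrq) n), add_zero] at h1
    obtain ⟨f⟩ := D.te_back (M := D.Cy q) n k (by omega)
    rw [h1]
    exact e.iso f (D.isA_tw (D.isA_tw h2 k) n)

theorem qsub {c : ℕ} (hc : c < D.p) {q q' : Ideal D.S} (hq : D.IsQ c q) (hq' : StI D.ph q')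
    (h : ∀ (n : ℕ) (r : D.S), D.Iv n r → r ∈ q' → r ∈ q) : q' ≤ q := by
  have h1 := hq.pure _ (D.incl_small hq.st hq' h hc)
  intro f hf
  rw [← D.cy_mk_eq_zero hq.st]
  have h2 : (idl D.ph q).mkQ (toSr D.ph f) ∈ (idl D.ph q').map (idl D.ph q).mkQ :=
    Submodule.mem_map_of_mem ((mem_idl D.ph hq' f).2 hf)
  rw [h1] at h2
  exact (Submodule.mem_bot _).1 h2

theorem qeq {c : ℕ} (hc : c < D.p) {q q' : Ideal D.S} (hq : D.IsQ c q) (hq' : D.IsQ c q')
    (h : q ≤ q') : q = q' := by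
  refine le_antisymm h (D.qsub hc hq hq'.st fun n r hr hrq' => ?_)
  by_contra hrq
  obtain ⟨f, hf⟩ := D.cy_coker hq.st hq'.st h hr hrq'
  exact hq'.na (cls_sur (C := D.cA (c + 1)) f hf (D.coker_small hq hr hrq))

theorem exists_iv_diff {c : ℕ} (hc : c < D.p) {q q' : Ideal D.S} (hq : D.IsQ c q)
    (hq' : D.IsQ c q') (h : q ≠ q') : ∃ (n : ℕ) (r : D.S), D.Iv n r ∧ r ∈ q' ∧ r ∉ q := by
  by_contra hno
  apply h
  refine (D.qeq hc hq' hq (D.qsub hc hq hq'.st fun n r hr hrq' => ?_)).symm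
  by_contra hrq
  exact hno ⟨n, r, hr, hrq', hrq⟩

end Dat

end MSA
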