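import Mathlib
import Pool.Agent.MSA.Dq
import Pool.Agent.MSA.Te

/-!
# Devissage

PROOFS. `mom_pos`: `E_nonneg hq.a`, and `mom (Cy q) c = 0` would give `IsA (Cy q) (c+1)` (`isA_succ`).
`dv_step`: let `N₀` be the largest submodule of `M` in `cA (c+1)` (`exists_sml`) and `M₁ = M ⧸ N₀`; `M₁` has
no nonzero submodule in `cA (c+1)` (`sml_quo`), it is in `cA c`, not in `cA (c+1)` (`isA_ext`).  Let
`m ∈ minv M₁ n`, `q = annI m` be as in `exists_isQ` and `N` the preimage of `span {m}` in `M`.  For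
`e` as in the statement: `e N = e N₀ + e (span {m}) = e (span {m}) = e (D.T n (Cy q)) = e (Cy q)`
(`adf_ses` for `N₀ → N → span {m}`, `cyc_iso`, `e_tw`).  The same for `mom c` (`mom_add`, `mom_iso`, `mom_tw`;
`mom N₀ c = 0`).  If `s` kills `M`, it kills `M₁`, so `s ∈ annI m`.
`devissage`: induction on the natural number `(E M c).toNat` (`E_nonneg`), over all modules `M`.  If
`IsA M (c+1)` (`mom M c = 0`): `l = []`.  Otherwise `dv_step`: `M ⧸ N` is in `cA c`,
`E (M ⧸ N) c = E M c - E (Cy q) c < E M c` by `mom_pos`; `l = q :: l'`; elements which kill `M` kill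
`M ⧸ N`; `e M = e N + e (M ⧸ N)` (`e.add`).
-/

set_option autoImplicit false
set_option linter.unusedSectionVars false

noncomputable section

namespace MSA

universe u v w

namespace Dat

variable (D : Dat.{u})

theorem mom_pos {c : ℕ} {q : Ideal D.S} (hq : D.IsQ c q) : 0 < D.E (D.Cy q) c := by
  refine lt_of_le_of_ne (D.E_nonneg hq.a) fun h => hq.na (D.isA_succ hq.a ?_)
  have h1 : (-1 : ℤ) ^ c * D.mom (D.Cy q) c = 0 := h.symm
  exact (mul_eq_zero.1 h1).resolve_left (pow_ne_zero _ (by norm_num))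

theorem dv_step {c : ℕ} (hc2 : 2 ≤ c) (hc : c < D.p) {M : Type u} [AddCommGroup M]
    [Module D.R M] (hM : D.IsA M c) (hne : ¬ D.IsA M (c + 1)) :
    ∃ (N : Submodule D.R M) (q : Ideal D.S), D.IsQ c q ∧
      (∀ s : D.S, (∀ m : M, iot D.ph s • m = 0) → s ∈ q) ∧ D.mom N c = D.mom (D.Cy q) c ∧
      ∀ (B : Type v) [AddCommGroup B] (e : Adf (D.cA 2) B),
        (∀ (N : Type u) [AddCommGroup N] [Module D.R N], D.IsA N (c + 1) → e.e N = 0) →
        e.e N = e.e (D.Cy q) := by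
  obtain ⟨N₀, hN₀, hmax⟩ := D.exists_sml hM.g (c + 1)
  obtain ⟨n, m, hm, hm0, hq⟩ := D.exists_isQ hc (D.isA_quo hM N₀)
    (fun N'' h => D.sml_quo hM.g hN₀ hmax N'' h) (fun h => hne (D.isA_ext hM.g N₀ hN₀ h))
  obtain ⟨f⟩ := D.cyc_iso hm
  let W : Submodule D.R (M ⧸ N₀) := Submodule.span D.R {m}
  let N : Submodule D.R M := W.comap N₀.mkQ
  have hle : N₀ ≤ N := by
    intro x hx
    show N₀.mkQ x ∈ W
    rw [Submodule.mkQ_apply, (Submodule.Quotient.mk_eq_zero N₀).2 hx]
    exact W.zero_mem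
  let i : N₀ →ₗ[D.R] N := Submodule.inclusion hle
  let π : N →ₗ[D.R] W := LinearMap.restrict N₀.mkQ (fun x hx => hx)
  have hi : Function.Injective i := Submodule.inclusion_injective hle
  have hπ : Function.Surjective π := by
    rintro ⟨y, hy⟩
    obtain ⟨x, rfl⟩ := N₀.mkQ_surjective y
    exact ⟨⟨x, hy⟩, rfl⟩
  have hex : ∀ x : N, π x = 0 ↔ ∃ k, i k = x := by
    intro x
    have h1 : π x = 0 ↔ N₀.mkQ (x : M) = 0 := Subtype.ext_iff
    rw [h1, Submodule.mkQ_apply, Submodule.Quotient.mk_eq_zero]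
    constructor
    · intro h
      exact ⟨⟨x, h⟩, rfl⟩
    · rintro ⟨k, rfl⟩
      exact k.2
  refine ⟨N, D.annI m, hq, fun s hs => ?_, ?_, fun B _ e he => ?_⟩
  · show iot D.ph s • m = 0
    obtain ⟨x, rfl⟩ := N₀.mkQ_surjective m
    rw [← map_smul, hs x, map_zero]
  · rw [D.mom_ses (D.isA_sub hM N).g i π hi hπ hex c, hN₀.mom c (Nat.lt_succ_self c), zero_add,
      ← D.mom_iso f c, D.mom_tw hq.a n]
  · rw [adf_ses e (D.isA_mono (D.isA_sub hM N) hc2) i π hi hπ hex, he N₀ hN₀, zero_add,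
      ← e.iso f (D.isA_mono (D.isA_tw hq.a n) hc2)]
    exact D.e_tw hc2 hc hq e he n

private theorem dv_aux {c : ℕ} (hc2 : 2 ≤ c) (hc : c < D.p) (k : ℕ) : ∀ (M : Type u)
    [AddCommGroup M] [Module D.R M], D.IsA M c → D.E M c < k →
    ∃ l : List (Ideal D.S), (∀ q ∈ l, D.IsQ c q) ∧
      (∀ q ∈ l, ∀ s : D.S, (∀ m : M, iot D.ph s • m = 0) → s ∈ q) ∧
      D.mom M c = (l.map fun q => D.mom (D.Cy q) c).sum ∧
      ∀ (B : Type v) [AddCommGroup B] (e : Adf (D.cA 2) B),
        (∀ (N : Type u) [AddCommGroup N] [Module D.R N], D.IsA N (c + 1) → e.e N = 0) →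
        e.e M = (l.map fun q => e.e (D.Cy q)).sum := by
  induction k with
  | zero =>
    intro M _ _ hM h
    have h1 := D.E_nonneg hM
    simp only [Nat.cast_zero] at h
    omega
  | succ k ih =>
    intro M _ _ hM h
    by_cases hA : D.IsA M (c + 1)
    · refine ⟨[], by simp, by simp, ?_, fun B _ e he => ?_⟩
      · rw [hA.mom c (Nat.lt_succ_self c)]
        rfl
      · rw [he M hA]
        rfl
    · obtain ⟨N, q, hq, hk, hm, he1⟩ := D.dv_step.{u, v} hc2 hc hM hA
      have h1 := D.mom_add hM.g N c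
      have h2 : D.E M c = D.E N c + D.E (M ⧸ N) c := by
        unfold E
        rw [h1, mul_add]
      have h3 : D.E N c = D.E (D.Cy q) c := by
        unfold E
        rw [hm]
      have h4 := D.mom_pos hq
      obtain ⟨l, hl1, hl2, hl3, hl4⟩ := ih (M ⧸ N) (D.isA_quo hM N) (by
        push_cast at h
        omega)
      refine ⟨q :: l, ?_, ?_, ?_, fun B _ e he => ?_⟩
      · intro q' hq'
        rcases List.mem_cons.1 hq' with rfl | h5
        · exact hq
        · exact hl1 q' h5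
      · intro q' hq' s hs
        rcases List.mem_cons.1 hq' with rfl | h5
        · exact hk s hs
        · refine hl2 q' h5 s fun y => ?_
          obtain ⟨x, rfl⟩ := N.mkQ_surjective y
          rw [← map_smul, hs x, map_zero]
      · rw [h1, hm, hl3, List.map_cons, List.sum_cons]
      · rw [e.add N (D.isA_mono hM hc2), he1 B e he, hl4 B e he, List.map_cons, List.sum_cons]

theorem devissage {c : ℕ} (hc2 : 2 ≤ c) (hc : c < D.p) {M : Type u} [AddCommGroup M]
    [Module D.R M] (hM : D.IsA M c) :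
    ∃ l : List (Ideal D.S), (∀ q ∈ l, D.IsQ c q) ∧
      (∀ q ∈ l, ∀ s : D.S, (∀ m : M, iot D.ph s • m = 0) → s ∈ q) ∧
      D.mom M c = (l.map fun q => D.mom (D.Cy q) c).sum ∧
      ∀ (B : Type v) [AddCommGroup B] (e : Adf (D.cA 2) B),
        (∀ (N : Type u) [AddCommGroup N] [Module D.R N], D.IsA N (c + 1) → e.e N = 0) →
        e.e M = (l.map fun q => e.e (D.Cy q)).sum :=
  D.dv_aux hc2 hc ((D.E M c).toNat + 1) M hM (by
    push_cast
    have := Int.self_le_toNat (D.E M c)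
    omega)

/-- On the modules in `cA c` which are killed by a prime object `q` additive functions are multiples
of the rank. -/
theorem rk {c : ℕ} (hc2 : 2 ≤ c) (hc : c < D.p) {q : Ideal D.S} (hq : D.IsQ c q) {N : Type u}
    [AddCommGroup N] [Module D.R N] (hN : D.IsA N c)
    (hk : ∀ s ∈ q, ∀ x : N, iot D.ph s • x = 0) :
    ∃ m : ℕ, D.mom N c = m * D.mom (D.Cy q) c ∧
      ∀ (B : Type v) [AddCommGroup B] (e : Adf (D.cA 2) B),
        (∀ (N : Type u) [AddCommGroup N] [Module D.R N], D.IsA N (c + 1) → e.e N = 0) →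
        e.e N = m • e.e (D.Cy q) := by
  obtain ⟨l, hl1, hl2, hl3, hl4⟩ := D.devissage.{u, v} hc2 hc hN
  have hl : ∀ q' ∈ l, q' = q := fun q' hq' =>
    (D.qeq hc hq (hl1 q' hq') fun s hs => hl2 q' hq' s (hk s hs)).symm
  obtain ⟨k, hk'⟩ : ∃ k, l = List.replicate k q := ⟨_, List.eq_replicate_of_mem hl⟩
  subst hk'
  refine ⟨k, ?_, fun B _ e he => ?_⟩
  · rw [hl3]
    simp
  · rw [hl4 B e he]
    simp

end Dat

end MSA
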