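import Mathlib
import Pool.Agent.MSA.De
import Pool.Agent.MSA.Wt

/-!
# Nonzero homomorphisms between modules of one weight killed by the variables

PROOF of `exists_hom`. `W`, `W'` are vector spaces over `L` (through `iot (C l)`), and on both the
operator `τ = gam tau` is semilinear (`τ (l w) = s(l) τ w`) with `τ^p = b^n` (`hW.taup`).  Let `V` be the
`L`-space of the `L`-linear maps `W → W'`; it is nonzero (both spaces are nonzero).  For `f ∈ V` put
`t f = b^(-n) τ ∘ f ∘ τ^(p-1)`, again `L`-linear (`s^p = 1`), `t (l f) = s(l) t f`, and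
`t^p f = b^(-n p) τ^p ∘ f ∘ τ^(p(p-1)) = f` (`b ∈ F` commutes with everything).  By `descent0` there is
`f ≠ 0` with `t f = f` (otherwise the span of the fixed vectors is zero).  Then
`f ∘ τ = (t f) ∘ τ = b^(-n) τ ∘ f ∘ τ^p = τ ∘ f`.  So `f` commutes with `τ`.  `f` commutes with `θ_c` (it acts
as `c^n` on both sides), with `iot (C l)` and with `iot X_i` (zero on both sides), so with `iot s` for
all `s ∈ S` (`MvPolynomial.induction_on`): `mkLin`.
-/

set_option autoImplicit false
set_option linter.unusedSectionVars false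

noncomputable section

namespace MSA

universe u v w

namespace Dat

variable (D : Dat.{u})

/-- scalars from `F` -/
def fl1sc (a : D.F) : D.R := iot D.ph (MvPolynomial.C (algebraMap D.F D.L a))

theorem fl1sc_def (a : D.F) : D.fl1sc a = iot D.ph (algebraMap D.F D.S a) := rfl

theorem fl1sc_mul (a a' : D.F) : D.fl1sc (a * a') = D.fl1sc a * D.fl1sc a' := by
  unfold fl1sc
  rw [map_mul, map_mul, map_mul]

theorem fl1sc_one : D.fl1sc 1 = 1 := by
  unfold fl1sc
  rw [map_one, map_one, map_one]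

section

variable {M : Type u} [AddCommGroup M] [Module D.R M]

theorem fl1_semi (l : D.L) (m : M) : gam D.ph Gn.tau • iot D.ph (MvPolynomial.C l) • m =
    iot D.ph (MvPolynomial.C (D.s l)) • gam D.ph Gn.tau • m := by
  rw [← mul_smul, gam_mul_iot, mul_smul]
  rw [show D.ph Gn.tau (MvPolynomial.C l) = MvPolynomial.C (D.s l) from D.tauS_C l]

theorem fl1_semi_pow (k : ℕ) (l : D.L) (m : M) :
    (gam D.ph Gn.tau) ^ k • iot D.ph (MvPolynomial.C l) • m =
      iot D.ph (MvPolynomial.C ((D.s ^ k) l)) • (gam D.ph Gn.tau) ^ k • m := by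
  induction k with
  | zero =>
    rw [pow_zero, pow_zero, one_smul, one_smul]
    rfl
  | succ k ih =>
    rw [pow_succ', mul_smul, ih, fl1_semi, mul_smul, pow_succ']
    rfl

theorem fl1_fsc (a : D.F) (m : M) :
    gam D.ph Gn.tau • D.fl1sc a • m = D.fl1sc a • gam D.ph Gn.tau • m := by
  unfold fl1sc
  rw [fl1_semi, AlgEquiv.commutes]

theorem fl1_fsc_pow (k : ℕ) (a : D.F) (m : M) :
    (gam D.ph Gn.tau) ^ k • D.fl1sc a • m = D.fl1sc a • (gam D.ph Gn.tau) ^ k • m := by
  induction k with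
  | zero => rw [pow_zero, one_smul, one_smul]
  | succ k ih => rw [pow_succ', mul_smul, ih, fl1_fsc, mul_smul]

theorem fl1_taup (n : ℤ) (hM : Wts D.F D.ph M D.p D.b) (h1 : ∀ m : M, m ∈ wt D.F D.ph M n) (m : M) :
    (gam D.ph Gn.tau) ^ D.p • m = D.fl1sc (D.b ^ n) • m := hM.taup n m (h1 m)

theorem fl1_taupk (n : ℤ) (hM : Wts D.F D.ph M D.p D.b) (h1 : ∀ m : M, m ∈ wt D.F D.ph M n)
    (k : ℕ) (m : M) :
    (gam D.ph Gn.tau) ^ (D.p * k) • m = D.fl1sc ((D.b ^ n) ^ k) • m := by
  induction k with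
  | zero => rw [mul_zero, pow_zero, pow_zero, fl1sc_one]
  | succ k ih =>
    rw [mul_add, mul_one, add_comm, pow_add, mul_smul, ih, fl1_fsc_pow, D.fl1_taup n hM h1,
      ← mul_smul, ← fl1sc_mul, ← pow_succ]

end

theorem exists_hom {W W' : Type u} [AddCommGroup W] [Module D.R W] [AddCommGroup W']
    [Module D.R W'] (n : ℤ) (hW : Wts D.F D.ph W D.p D.b) (hW' : Wts D.F D.ph W' D.p D.b)
    (h1 : ∀ w : W, w ∈ wt D.F D.ph W n) (h1' : ∀ w : W', w ∈ wt D.F D.ph W' n)
    (hX : ∀ (i : Fin D.p) (w : W), iot D.ph (MvPolynomial.X i) • w = 0)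
    (hX' : ∀ (i : Fin D.p) (w : W'), iot D.ph (MvPolynomial.X i) • w = 0)
    [Nontrivial W] [Nontrivial W'] : ∃ f : W →ₗ[D.R] W', f ≠ 0 := by
  let mW : Module D.L W := Module.compHom W ((iot D.ph).comp (MvPolynomial.C : D.L →+* D.S))
  let mW' : Module D.L W' := Module.compHom W' ((iot D.ph).comp (MvPolynomial.C : D.L →+* D.S))
  have sW : ∀ (l : D.L) (w : W), l • w = iot D.ph (MvPolynomial.C l) • w := fun _ _ => rfl
  have sW' : ∀ (l : D.L) (w : W'), l • w = iot D.ph (MvPolynomial.C l) • w := fun _ _ => rfl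
  have lin : ∀ (f : W →ₗ[D.L] W') (l : D.L) (w : W),
      f (iot D.ph (MvPolynomial.C l) • w) = iot D.ph (MvPolynomial.C l) • f w :=
    fun f l w => f.map_smul l w
  have linF : ∀ (f : W →ₗ[D.L] W') (a : D.F) (w : W), f (D.fl1sc a • w) = D.fl1sc a • f w :=
    fun f a w => lin f _ w
  have hp0 : 0 < D.p := D.X.hp.pos
  have hp1 : D.p - 1 + 1 = D.p := Nat.sub_add_cancel hp0
  have hsp : ∀ l : D.L, D.s ((D.s ^ (D.p - 1)) l) = l := by
    intro l
    have h2 : D.s * D.s ^ (D.p - 1) = 1 := by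
      rw [← pow_succ', hp1]
      exact AlgEquiv.ext D.X.s_pow
    exact DFunLike.congr_fun h2 l
  have hcomm : ∀ (a : D.F) (l : D.L) (w : W'), D.fl1sc a • iot D.ph (MvPolynomial.C l) • w =
      iot D.ph (MvPolynomial.C l) • D.fl1sc a • w := by
    intro a l w
    unfold fl1sc
    rw [← mul_smul, ← map_mul, mul_comm, map_mul, mul_smul]
  let t0 : (W →ₗ[D.L] W') → (W →ₗ[D.L] W') := fun f =>
    { toFun := fun w => D.fl1sc (D.b ^ (-n)) • gam D.ph Gn.tau •
        f ((gam D.ph Gn.tau) ^ (D.p - 1) • w)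
      map_add' := fun x y => by
        rw [smul_add, map_add, smul_add, smul_add]
      map_smul' := fun l w => by
        rw [RingHom.id_apply, sW, sW', fl1_semi_pow, lin, fl1_semi, hcomm, hsp] }
  have ht0 : ∀ f w, t0 f w = D.fl1sc (D.b ^ (-n)) • gam D.ph Gn.tau •
      f ((gam D.ph Gn.tau) ^ (D.p - 1) • w) := fun _ _ => rfl
  let t : (W →ₗ[D.L] W') →+ (W →ₗ[D.L] W') :=
    { toFun := t0
      map_zero' := by
        refine LinearMap.ext fun w => ?_
        rw [ht0, LinearMap.zero_apply, LinearMap.zero_apply, smul_zero, smul_zero]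
      map_add' := fun f g => by
        refine LinearMap.ext fun w => ?_
        rw [ht0, LinearMap.add_apply, LinearMap.add_apply, ht0, ht0, smul_add, smul_add] }
  have ht : ∀ f w, t f w = D.fl1sc (D.b ^ (-n)) • gam D.ph Gn.tau •
      f ((gam D.ph Gn.tau) ^ (D.p - 1) • w) := fun _ _ => rfl
  have hts : ∀ (l : D.L) (f : W →ₗ[D.L] W'), t (l • f) = D.s l • t f := by
    intro l f
    refine LinearMap.ext fun w => ?_
    rw [ht, LinearMap.smul_apply, LinearMap.smul_apply, ht, sW', sW', fl1_semi, hcomm]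
  have hti : ∀ (i : ℕ) (f : W →ₗ[D.L] W') (w : W), (t^[i] f) w =
      D.fl1sc ((D.b ^ (-n)) ^ i) • (gam D.ph Gn.tau) ^ i •
        f ((gam D.ph Gn.tau) ^ (i * (D.p - 1)) • w) := by
    intro i f
    induction i with
    | zero =>
      intro w
      rw [Function.iterate_zero, id, pow_zero, pow_zero, zero_mul, pow_zero, fl1sc_one, one_smul,
        one_smul, one_smul]
    | succ i ih =>
      intro w
      have e : (gam D.ph Gn.tau) ^ (i * (D.p - 1)) • (gam D.ph Gn.tau) ^ (D.p - 1) • w =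
          (gam D.ph Gn.tau) ^ ((i + 1) * (D.p - 1)) • w := by
        rw [← mul_smul, ← pow_add]
        congr 2
        ring
      rw [Function.iterate_succ_apply', ht, ih, fl1_fsc, e, ← mul_smul (D.fl1sc _) (D.fl1sc _),
        ← fl1sc_mul, ← pow_succ', ← mul_smul (gam D.ph Gn.tau) (gam D.ph Gn.tau ^ i),
        ← pow_succ' (gam D.ph Gn.tau)]
  have htp : ∀ f, t^[D.p] f = f := by
    intro f
    refine LinearMap.ext fun w => ?_
    rw [hti, D.fl1_taupk n hW h1, linF, D.fl1_taup n hW' h1', ← mul_smul, ← mul_smul, ← fl1sc_mul,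
      ← fl1sc_mul]
    have e : (D.b ^ (-n)) ^ D.p * (D.b ^ n * (D.b ^ n) ^ (D.p - 1)) = 1 := by
      rw [← pow_succ', hp1, ← mul_pow, ← zpow_add₀ D.X.b_ne, neg_add_cancel, zpow_zero, one_pow]
    first
      | rw [e, fl1sc_one, one_smul]
      | rw [mul_assoc, e, fl1sc_one, one_smul]
  -- a nonzero linear map
  obtain ⟨f0, hf0⟩ : ∃ f : W →ₗ[D.L] W', f ≠ 0 := by
    obtain ⟨w, hw⟩ := exists_ne (0 : W)
    obtain ⟨w', hw'⟩ := exists_ne (0 : W')
    have h2 : ∃ g : Module.Dual D.L W, g w ≠ 0 := by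
      by_contra h3
      push Not at h3
      exact hw ((Module.forall_dual_apply_eq_zero_iff D.L w).1 h3)
    obtain ⟨g, hg⟩ := h2
    refine ⟨g.smulRight w', fun h3 => ?_⟩
    have h4 := DFunLike.congr_fun h3 w
    rw [LinearMap.smulRight_apply, LinearMap.zero_apply, smul_eq_zero] at h4
    exact h4.elim hg hw'
  obtain ⟨f, hf, hfne⟩ : ∃ f : W →ₗ[D.L] W', t f = f ∧ f ≠ 0 := by
    by_contra h2
    push Not at h2
    have h3 := D.descent0 t hts htp f0
    have h4 : Submodule.span D.L {w : W →ₗ[D.L] W' | t w = w} = ⊥ := by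
      rw [Submodule.span_eq_bot]
      exact fun x hx => h2 x hx
    rw [h4, Submodule.mem_bot] at h3
    exact hf0 h3
  -- it commutes with `τ`
  have hfτ : ∀ w, f (gam D.ph Gn.tau • w) = gam D.ph Gn.tau • f w := by
    intro w
    have e : (gam D.ph Gn.tau) ^ (D.p - 1) • gam D.ph Gn.tau • w = D.fl1sc (D.b ^ n) • w := by
      rw [← mul_smul, ← pow_succ, hp1, D.fl1_taup n hW h1]
    conv_lhs => rw [← hf]
    rw [ht, e, linF, fl1_fsc, ← mul_smul, ← fl1sc_mul,
      ← zpow_add₀ D.X.b_ne, neg_add_cancel, zpow_zero, fl1sc_one, one_smul]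
  refine ⟨mkLin f.toAddMonoidHom ?_ ?_, ?_⟩
  · intro s w
    show f (iot D.ph s • w) = iot D.ph s • f w
    induction s using MvPolynomial.induction_on generalizing w with
    | C l => exact lin f l w
    | add p q hp hq => rw [map_add, add_smul, map_add, hp, hq, add_smul]
    | mul_X p i hp => rw [map_mul, mul_smul, hX, smul_zero, map_zero, mul_smul, hX', smul_zero]
  · intro g w
    show f (gam D.ph g • w) = gam D.ph g • f w
    cases g with
    | tau => exact hfτ w
    | th c =>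
      have h2 : gam D.ph (Gn.th c) • w = D.fl1sc ((c ^ n : D.Fˣ) : D.F) • w := h1 w c
      have h3 : gam D.ph (Gn.th c) • f w = D.fl1sc ((c ^ n : D.Fˣ) : D.F) • f w := h1' (f w) c
      rw [h2, h3, linF]
  · intro h2
    apply hfne
    refine LinearMap.ext fun w => ?_
    exact DFunLike.congr_fun h2 w

end Dat

end MSA
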