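import Mathlib
import Pool.Agent.MSA.Fl1
import Pool.Agent.MSA.CA
import Pool.Agent.MSA.DeS

/-!
# Isomorphic submodules of modules of one weight; the top weight

PROOFS. `common`: induction on `D.hf W n`, for all `W`.  Let `f : W → W'` be as in `exists_hom`,
`K = ker f`.  If `K = ⊥`: `N = ⊤`, `N' = range f`.  Otherwise `K` satisfies the same hypotheses
(`isG_sub`; weights and `X_i` are clear), `hf K n = hf W n - hf (W ⧸ K) n < hf W n` (`hf_add`; `W ⧸ K` is not
zero and all its elements have weight `n`, so `hf (W ⧸ K) n ≠ 0` by `hf_eq_zero`); map the submodule of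
`K` given by induction to `W`.
`top_sub`: the subgroup `wt M n` is stable under all `gam g` (`τ`: `Wts.tau`; `θ_c` acts as a constant
in `F`) and under `iot s` by `MvPolynomial.induction_on`: `iot (C l)` preserves `wt M n`, `iot X_i` maps
`wt M n` to `wt M (n+1) = ⊥` (`iot_wt`; `X_i` is homogeneous of degree one).
-/

set_option autoImplicit false
set_option linter.unusedSectionVars false

noncomputable section

namespace MSA

universe u v w

namespace Dat

variable (D : Dat.{u})

private theorem common_aux {W' : Type u} [AddCommGroup W'] [Module D.R W'] (n : ℤ)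
    (hW' : D.IsG W') (h1' : ∀ w : W', w ∈ wt D.F D.ph W' n)
    (hX' : ∀ (i : Fin D.p) (w : W'), iot D.ph (MvPolynomial.X i) • w = 0) [Nontrivial W']
    (h : ℕ) : ∀ (W : Type u) [AddCommGroup W] [Module D.R W], D.hf W n = h → D.IsG W →
      (∀ w : W, w ∈ wt D.F D.ph W n) →
      (∀ (i : Fin D.p) (w : W), iot D.ph (MvPolynomial.X i) • w = 0) → Nontrivial W →
      ∃ (N : Submodule D.R W) (N' : Submodule D.R W'), N ≠ ⊥ ∧ Nonempty (N ≃ₗ[D.R] N') := by
  induction h using Nat.strong_induction_on with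
  | _ h ih =>
    intro W _ _ hh hW h1 hX hnt
    obtain ⟨f, hf⟩ := D.exists_hom n hW.wts hW'.wts h1 h1' hX hX'
    by_cases hK : LinearMap.ker f = ⊥
    · refine ⟨⊤, LinearMap.range f, top_ne_bot, ⟨?_⟩⟩
      exact Submodule.topEquiv.trans (LinearEquiv.ofInjective f (LinearMap.ker_eq_bot.1 hK))
    · have hKn : Nontrivial (LinearMap.ker f) := Submodule.nontrivial_iff_ne_bot.2 hK
      have hKG : D.IsG (LinearMap.ker f) := D.isG_sub hW _
      have hlt : D.hf (LinearMap.ker f) n < h := by
        rw [← hh, D.hf_add hW.isW (LinearMap.ker f) n]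
        have h2 : D.hf (W ⧸ LinearMap.ker f) n ≠ 0 := by
          rw [Ne, D.hf_eq_zero (D.isW_quo hW.isW _)]
          intro h0
          apply hf
          ext w
          have h3 : (LinearMap.ker f).mkQ w ∈ wt D.F D.ph (W ⧸ LinearMap.ker f) n :=
            wt_map _ (h1 w)
          rw [h0, AddSubgroup.mem_bot, Submodule.mkQ_apply, Submodule.Quotient.mk_eq_zero] at h3
          exact h3
        omega
      obtain ⟨N, N', hN, ⟨e⟩⟩ := ih _ hlt (LinearMap.ker f) rfl hKG
        (fun w c => Subtype.ext (h1 w c)) (fun i w => Subtype.ext (hX i w)) hKn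
      refine ⟨N.map (LinearMap.ker f).subtype, N', ?_, ⟨?_⟩⟩
      · rw [Submodule.ne_bot_iff] at hN ⊢
        obtain ⟨x, hx, hx0⟩ := hN
        exact ⟨x, Submodule.mem_map_of_mem hx, fun h0 => hx0 (Subtype.ext h0)⟩
      · exact (Submodule.equivMapOfInjective (LinearMap.ker f).subtype
          (LinearMap.ker f).injective_subtype N).symm.trans e

theorem common {W W' : Type u} [AddCommGroup W] [Module D.R W] [AddCommGroup W']
    [Module D.R W'] (n : ℤ) (hW : D.IsG W) (hW' : D.IsG W')
    (h1 : ∀ w : W, w ∈ wt D.F D.ph W n) (h1' : ∀ w : W', w ∈ wt D.F D.ph W' n)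
    (hX : ∀ (i : Fin D.p) (w : W), iot D.ph (MvPolynomial.X i) • w = 0)
    (hX' : ∀ (i : Fin D.p) (w : W'), iot D.ph (MvPolynomial.X i) • w = 0)
    [Nontrivial W] [Nontrivial W'] : ∃ (N : Submodule D.R W) (N' : Submodule D.R W'),
      N ≠ ⊥ ∧ Nonempty (N ≃ₗ[D.R] N') :=
  D.common_aux n hW' h1' hX' _ W rfl hW h1 hX inferInstance

theorem top_sub {M : Type u} [AddCommGroup M] [Module D.R M] (hM : Wts D.F D.ph M D.p D.b)
    {n : ℤ} (h : wt D.F D.ph M (n + 1) = ⊥) : ∃ U : Submodule D.R M,
      (∀ x, x ∈ U ↔ x ∈ wt D.F D.ph M n) ∧ (∀ x : U, x ∈ wt D.F D.ph U n) ∧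
      ∀ (i : Fin D.p) (x : U), iot D.ph (MvPolynomial.X i) • x = 0 := by
  have hX : ∀ (i : Fin D.p), ∀ m ∈ wt D.F D.ph M n, iot D.ph (MvPolynomial.X i) • m = 0 := by
    intro i m hm
    have h1 := D.iot_wt (MvPolynomial.isHomogeneous_X D.L i) hm
    rw [Nat.cast_one, h, AddSubgroup.mem_bot] at h1
    exact h1
  have hS : ∀ (s : D.S), ∀ m ∈ wt D.F D.ph M n, iot D.ph s • m ∈ wt D.F D.ph M n := by
    intro s
    induction s using MvPolynomial.induction_on with
    | C l =>
      intro m hm
      have h1 := D.iot_wt (MvPolynomial.isHomogeneous_C (Fin D.p) l) hm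
      rwa [Nat.cast_zero, add_zero] at h1
    | add x y hx hy =>
      intro m hm
      rw [map_add, add_smul]
      exact AddSubgroup.add_mem _ (hx m hm) (hy m hm)
    | mul_X x i hx =>
      intro m hm
      rw [map_mul, mul_smul, hX i m hm, smul_zero]
      exact AddSubgroup.zero_mem _
  have hg : ∀ (g : Gn D.F), ∀ m ∈ wt D.F D.ph M n, gam D.ph g • m ∈ wt D.F D.ph M n := by
    intro g m hm
    cases g with
    | tau => exact hM.tau n m hm
    | th c =>
      have h1 : gam D.ph (Gn.th c) • m =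
        iot D.ph (algebraMap D.F D.S ((c ^ n : D.Fˣ) : D.F)) • m := hm c
      rw [h1]
      exact wt_smul hm _
  refine ⟨mkSub (wt D.F D.ph M n) hS hg, fun x => Iff.rfl, fun x c => ?_, fun i x => ?_⟩
  · exact Subtype.ext (x.2 c)
  · exact Subtype.ext (hX i x x.2)

end Dat

end MSA
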