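import Mathlib
import Pool.Agent.MSA.Fl2

/-!
# Modules of finite length with the same Hilbert function

PROOF. `hf_supp`: `IsG.isW` (bounded below), `isA_p_iff`, `hf_eq_zero`.
`fl_step`: let `n` be the largest weight with `hf M n ≠ 0` (it exists by `hf_supp` because `M ≠ 0`: all
weight spaces zero would give `M = 0` by `Wts.span`, `hf_eq_zero`); it is also the largest weight of
`M'`.  `top_sub` gives `U ≤ M`, `U' ≤ M'`, both not zero; `common` gives nonzero isomorphic
submodules `N ≤ U`, `N' ≤ U'`; map them to `M`, `M'`.  `hf (M ⧸ N) j = hf M j - hf N j` (`hf_add`), the same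
for `M'`, and `hf N = hf N'` (`hf_iso`).
`fl`: induction on `d = ∑ᶠ n, hf M n` (finite support), for all `M`, `M'`.  If `M = 0` then all `hf M' n`
vanish and `M' = 0`: both values are zero (`adf_zero`).  Otherwise `fl_step`: `e M = e N + e (M ⧸ N)`,
`e M' = e N' + e (M' ⧸ N')` (`M`, `M'` are in `cA 2`: `isA_mono`, `2 ≤ p`), `e N = e N'`, and
`e (M ⧸ N) = e (M' ⧸ N')` by induction (`N ≠ 0` has a nonzero weight space, so the sum decreases).
-/

set_option autoImplicit false
set_option linter.unusedSectionVars false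

noncomputable section

namespace MSA

universe u v w

namespace Dat

variable (D : Dat.{u})

theorem hf_supp {M : Type u} [AddCommGroup M] [Module D.R M] (hM : D.IsA M D.p) :
    {n : ℤ | D.hf M n ≠ 0}.Finite := by
  obtain ⟨n₀, h0⟩ := hM.g.isW.bd
  obtain ⟨n₁, h1⟩ := (D.isA_p_iff hM.g).1 hM
  refine (Set.finite_Icc n₀ n₁).subset fun n hn => ?_
  constructor
  · by_contra hlt
    exact hn ((D.hf_eq_zero hM.g.isW n).2 (h0 n (not_le.1 hlt)))
  · by_contra hlt
    exact hn (h1 n (not_le.1 hlt))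

theorem hf_all_zero {M : Type u} [AddCommGroup M] [Module D.R M] (hM : D.IsG M)
    (h : ∀ n, D.hf M n = 0) : Subsingleton M := by
  have h1 : (⨆ n, wt D.F D.ph M n) = ⊥ := by
    rw [iSup_eq_bot]
    exact fun n => (D.hf_eq_zero hM.isW n).1 (h n)
  rw [hM.wts.span] at h1
  refine ⟨fun x y => ?_⟩
  have hx : x ∈ (⊤ : AddSubgroup M) := AddSubgroup.mem_top x
  have hy : y ∈ (⊤ : AddSubgroup M) := AddSubgroup.mem_top y
  rw [h1, AddSubgroup.mem_bot] at hx hy
  rw [hx, hy]

private theorem fl_sub_ne {M : Type u} [AddCommGroup M] [Module D.R M] (U : Submodule D.R M)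
    (N : Submodule D.R U) (hN : N ≠ ⊥) : N.map U.subtype ≠ ⊥ := by
  intro h
  apply hN
  apply Submodule.map_injective_of_injective U.injective_subtype
  rw [h, Submodule.map_bot]

private theorem fl_nontriv {M : Type u} [AddCommGroup M] [Module D.R M] (hM : D.IsG M) {n : ℤ}
    (hn : D.hf M n ≠ 0) (U : Submodule D.R M) (hU : ∀ x, x ∈ U ↔ x ∈ wt D.F D.ph M n) :
    Nontrivial U := by
  have h1 : wt D.F D.ph M n ≠ ⊥ := fun h => hn ((D.hf_eq_zero hM.isW n).2 h)
  obtain ⟨x, hx0⟩ := AddSubgroup.ne_bot_iff_exists_ne_zero.1 h1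
  refine ⟨⟨⟨(x : M), (hU x).2 x.2⟩, 0, fun h => hx0 ?_⟩⟩
  have h2 : (x : M) = 0 := congrArg Subtype.val h
  exact Subtype.ext h2

theorem fl_step {M M' : Type u} [AddCommGroup M] [Module D.R M] [AddCommGroup M']
    [Module D.R M'] (hM : D.IsA M D.p) (hM' : D.IsA M' D.p) (h : ∀ n, D.hf M n = D.hf M' n)
    [Nontrivial M] : ∃ (N : Submodule D.R M) (N' : Submodule D.R M'), N ≠ ⊥ ∧
      Nonempty (N ≃ₗ[D.R] N') ∧ ∀ n, D.hf (M ⧸ N) n = D.hf (M' ⧸ N') n := by
  have hfin := D.hf_supp hM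
  have hne : hfin.toFinset.Nonempty := by
    by_contra hcon
    rw [Finset.not_nonempty_iff_eq_empty] at hcon
    have h1 : ∀ n, D.hf M n = 0 := by
      intro n
      by_contra hn
      have h2 : n ∈ hfin.toFinset := by
        rw [Set.Finite.mem_toFinset]
        exact hn
      rw [hcon] at h2
      exact absurd h2 (Finset.notMem_empty n)
    have h3 := D.hf_all_zero hM.g h1
    exact not_subsingleton M h3
  obtain ⟨n, hn1, hn2⟩ : ∃ n, D.hf M n ≠ 0 ∧ ∀ k, n < k → D.hf M k = 0 := by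
    refine ⟨hfin.toFinset.max' hne, ?_, fun k hk => ?_⟩
    · have h1 := hfin.toFinset.max'_mem hne
      rw [Set.Finite.mem_toFinset] at h1
      exact h1
    · by_contra hk0
      have h1 : k ∈ hfin.toFinset := by
        rw [Set.Finite.mem_toFinset]
        exact hk0
      exact absurd (Finset.le_max' _ k h1) (not_le.2 hk)
  have hw : wt D.F D.ph M (n + 1) = ⊥ :=
    (D.hf_eq_zero hM.g.isW _).1 (hn2 (n + 1) (lt_add_one n))
  have hw' : wt D.F D.ph M' (n + 1) = ⊥ :=
    (D.hf_eq_zero hM'.g.isW _).1 (by rw [← h]; exact hn2 (n + 1) (lt_add_one n))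
  obtain ⟨U, hU1, hU2, hU3⟩ := D.top_sub hM.g.wts hw
  obtain ⟨U', hU1', hU2', hU3'⟩ := D.top_sub hM'.g.wts hw'
  have hnt : Nontrivial U := D.fl_nontriv hM.g hn1 U hU1
  have hnt' : Nontrivial U' := D.fl_nontriv hM'.g (by rw [← h]; exact hn1) U' hU1'
  obtain ⟨N, N', hN, ⟨f⟩⟩ := D.common n (D.isG_sub hM.g U) (D.isG_sub hM'.g U') hU2 hU2' hU3 hU3'
  have e1 : N ≃ₗ[D.R] N.map U.subtype := Submodule.equivMapOfInjective U.subtype
    U.injective_subtype N
  have e2 : N' ≃ₗ[D.R] N'.map U'.subtype := Submodule.equivMapOfInjective U'.subtype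
    U'.injective_subtype N'
  have e3 : N.map U.subtype ≃ₗ[D.R] N'.map U'.subtype := (e1.symm.trans f).trans e2
  refine ⟨N.map U.subtype, N'.map U'.subtype, D.fl_sub_ne U N hN, ⟨e3⟩, fun k => ?_⟩
  have h1 := D.hf_add hM.g.isW (N.map U.subtype) k
  have h2 := D.hf_add hM'.g.isW (N'.map U'.subtype) k
  have h3 := D.hf_iso e3 k
  have h4 := h k
  omega

theorem fl {M M' : Type u} [AddCommGroup M] [Module D.R M] [AddCommGroup M'] [Module D.R M']
    (hM : D.IsA M D.p) (hM' : D.IsA M' D.p) (h : ∀ n, D.hf M n = D.hf M' n)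
    {B : Type v} [AddCommGroup B] (e : Adf (D.cA 2) B) : e.e M = e.e M' := by
  obtain ⟨d, hd⟩ : ∃ d, (∑ᶠ n, D.hf M n) = d := ⟨_, rfl⟩
  induction d using Nat.strong_induction_on generalizing M M' with
  | _ d ih =>
  rcases subsingleton_or_nontrivial M with hs | hs
  · have hs' : Subsingleton M' := D.hf_all_zero hM'.g fun n => by rw [← h n, D.hf_zero]
    rw [adf_zero e, adf_zero e]
  · obtain ⟨N, N', hN, ⟨f⟩, hq⟩ := D.fl_step hM hM' h
    have h2 : 2 ≤ D.p := D.X.hp.two_le
    have hA : D.IsA M 2 := D.isA_mono hM h2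
    have hA' : D.IsA M' 2 := D.isA_mono hM' h2
    have h3 : e.e M = e.e N + e.e (M ⧸ N) := e.add N hA
    have h4 : e.e M' = e.e N' + e.e (M' ⧸ N') := e.add N' hA'
    have h5 : e.e N = e.e N' := e.iso f (D.isA_sub hA N)
    have hsupN := D.hf_supp (D.isA_sub hM N)
    have hsupQ := D.hf_supp (D.isA_quo hM N)
    have hsum : (∑ᶠ n, D.hf M n) = (∑ᶠ n, D.hf N n) + ∑ᶠ n, D.hf (M ⧸ N) n := by
      rw [← finsum_add_distrib hsupN hsupQ]
      exact finsum_congr fun n => D.hf_add hM.g.isW N n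
    have hpos : 0 < ∑ᶠ n, D.hf N n := by
      have hNn : Nontrivial N := (Submodule.nontrivial_iff_ne_bot).2 hN
      obtain ⟨n, hn⟩ : ∃ n, D.hf N n ≠ 0 := by
        by_contra hcon
        push Not at hcon
        exact not_subsingleton N (D.hf_all_zero (D.isG_sub hM.g N) hcon)
      have h6 : D.hf N n ≤ ∑ᶠ n, D.hf N n := by
        rw [finsum_eq_sum_of_support_subset (s := hsupN.toFinset) _ (by
          intro k hk
          rw [Set.Finite.coe_toFinset]
          exact hk)]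
        refine Finset.single_le_sum (f := fun n => D.hf N n) (fun k _ => Nat.zero_le _) ?_
        rw [Set.Finite.mem_toFinset]
        exact hn
      omega
    have h7 : e.e (M ⧸ N) = e.e (M' ⧸ N') :=
      ih (∑ᶠ n, D.hf (M ⧸ N) n) (by omega) (D.isA_quo hM N) (D.isA_quo hM' N') hq rfl
    rw [h3, h4, h5, h7]

end Dat

end MSA
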