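import Mathlib
import Pool.Agent.MSA.Dv

/-!
# The torsion submodule at a prime object

`tor M hq` is the submodule of the elements of `M` killed by some invariant outside of `q`.

PROOFS. Products of invariants outside of `q` are invariants outside of `q` (`Inv.mul`, `hq.reg`).
`tor_sub`, `tor_map`: clear.
`tor_quo`: if `iot r • x ∈ tor M`, then `iot r' • iot r • x = 0` and `r' r ∉ q`.
`one_inv`: `K` is generated over `S` by finitely many elements (`hK.fin`, `modS`), each killed by some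
invariant `r_a ∉ q`; take the product (it kills the generators, so `K`: `S` is commutative).
`tor_mk`: `N.mkQ x ∈ tor (M ⧸ N)` iff `iot r • x ∈ N` for some invariant `r ∉ q`.
`sat_mom`: `one_inv` for `K ⧸ N`: an invariant `r ∉ q` of degree `p n` with `r K ≤ N`.  Multiplication
`D.mulI K hr : D.T n K → K` is injective (`tor K = ⊥`), its range `R₁` is contained in `N`.
`E R₁ c = E (D.T n K) c = E K c` (`mom_iso`, `mom_tw`); `R₁ ≤ N ≤ K` and additivity with
`E_nonneg` give `E R₁ c ≤ E N c ≤ E K c`, so all are equal.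
-/

set_option autoImplicit false
set_option linter.unusedSectionVars false

noncomputable section

namespace MSA

universe u v w

namespace Dat

variable (D : Dat.{u})

variable {M N : Type u} [AddCommGroup M] [Module D.R M] [AddCommGroup N] [Module D.R N]

theorem tor_sub {c : ℕ} {q : Ideal D.S} (hq : D.IsQ c q) (N : Submodule D.R M) (x : N) :
    x ∈ D.tor N hq ↔ (x : M) ∈ D.tor M hq := by
  rw [D.mem_tor, D.mem_tor]
  constructor
  · rintro ⟨n, r, h1, h2, h3⟩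
    exact ⟨n, r, h1, h2, congrArg Subtype.val h3⟩
  · rintro ⟨n, r, h1, h2, h3⟩
    exact ⟨n, r, h1, h2, Subtype.ext h3⟩

theorem tor_map {c : ℕ} {q : Ideal D.S} (hq : D.IsQ c q) (f : M →ₗ[D.R] N) {x : M}
    (hx : x ∈ D.tor M hq) : f x ∈ D.tor N hq := by
  rw [D.mem_tor] at hx ⊢
  obtain ⟨n, r, h1, h2, h3⟩ := hx
  exact ⟨n, r, h1, h2, by rw [← map_smul, h3, map_zero]⟩

private theorem tq_mk {c : ℕ} {q : Ideal D.S} (hq : D.IsQ c q) (N : Submodule D.R M) (x : M) :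
    N.mkQ x ∈ D.tor (M ⧸ N) hq ↔
      ∃ (n : ℕ) (r : D.S), D.Iv n r ∧ r ∉ q ∧ iot D.ph r • x ∈ N := by
  rw [D.mem_tor]
  have key : ∀ r : D.S, iot D.ph r • N.mkQ x = 0 ↔ iot D.ph r • x ∈ N := by
    intro r
    rw [← map_smul, Submodule.mkQ_apply, Submodule.Quotient.mk_eq_zero]
  constructor
  · rintro ⟨n, r, h1, h2, h3⟩
    exact ⟨n, r, h1, h2, (key r).1 h3⟩
  · rintro ⟨n, r, h1, h2, h3⟩
    exact ⟨n, r, h1, h2, (key r).2 h3⟩

theorem tor_quo {c : ℕ} {q : Ideal D.S} (hq : D.IsQ c q) :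
    D.tor (M ⧸ D.tor M hq) hq = ⊥ := by
  rw [eq_bot_iff]
  intro y hy
  obtain ⟨x, rfl⟩ := (D.tor M hq).mkQ_surjective y
  obtain ⟨n, r, h1, h2, h3⟩ := (D.tq_mk hq _ x).1 hy
  obtain ⟨n', r', h1', h2', h3'⟩ := (D.mem_tor hq _).1 h3
  rw [Submodule.mem_bot, Submodule.mkQ_apply, Submodule.Quotient.mk_eq_zero, D.mem_tor]
  refine ⟨n' + n, r' * r, Pool.Agent.MSX.Dat.Inv.mul D.X h1' h1,
    fun h => h2 (hq.reg n' r' h1' h2' r h), ?_⟩
  rw [map_mul, mul_smul, h3']

theorem tor_mk {c : ℕ} {q : Ideal D.S} (hq : D.IsQ c q) (N : Submodule D.R M) (x : M) :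
    N.mkQ x ∈ D.tor (M ⧸ N) hq ↔
      ∃ (n : ℕ) (r : D.S), D.Iv n r ∧ r ∉ q ∧ iot D.ph r • x ∈ N := D.tq_mk hq N x

theorem one_inv {c : ℕ} {q : Ideal D.S} (hq : D.IsQ c q) (hM : D.IsG M)
    (h : D.tor M hq = ⊤) :
    ∃ (n : ℕ) (r : D.S), D.Iv n r ∧ r ∉ q ∧ ∀ x : M, iot D.ph r • x = 0 := by
  classical
  obtain ⟨G⟩ := D.gens hM
  have key : ∀ T : Finset (Fin G.s), ∃ (n : ℕ) (r : D.S), D.Iv n r ∧ r ∉ q ∧
      ∀ i ∈ T, iot D.ph r • G.g i = 0 := by
    intro T
    induction T using Finset.induction_on with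
    | empty =>
      exact ⟨0, 1, ⟨by rw [mul_zero]; exact MvPolynomial.isHomogeneous_one _ _, by simp⟩,
        D.isQ_one hq, fun i hi => absurd hi (Finset.notMem_empty i)⟩
    | insert i T _ ih =>
      obtain ⟨n, r, h1, h2, h3⟩ := ih
      have hi : G.g i ∈ D.tor M hq := by
        rw [h]
        exact Submodule.mem_top
      obtain ⟨n', r', h1', h2', h3'⟩ := (D.mem_tor hq _).1 hi
      refine ⟨n' + n, r' * r, Pool.Agent.MSX.Dat.Inv.mul D.X h1' h1,
        fun h => h2 (hq.reg n' r' h1' h2' r h), fun j hj => ?_⟩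
      rcases Finset.mem_insert.1 hj with rfl | hj
      · rw [mul_comm, map_mul, mul_smul, h3', smul_zero]
      · rw [map_mul, mul_smul, h3 j hj, smul_zero]
  obtain ⟨n, r, h1, h2, h3⟩ := key Finset.univ
  refine ⟨n, r, h1, h2, fun x => ?_⟩
  obtain ⟨f, hf⟩ := G.gen x
  rw [hf, Finset.smul_sum]
  refine Finset.sum_eq_zero fun j _ => ?_
  rw [← mul_smul, ← map_mul, mul_comm, map_mul, mul_smul, h3 j (Finset.mem_univ j), smul_zero]

theorem sat_mom {c : ℕ} {q : Ideal D.S} (hq : D.IsQ c q) (hM : D.IsA M c)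
    (ht : D.tor M hq = ⊥) (N : Submodule D.R M) (hN : D.tor (M ⧸ N) hq = ⊤) :
    D.mom N c = D.mom M c := by
  obtain ⟨n, r, h1, h2, h3⟩ := D.one_inv hq (D.isG_quo hM.g N) hN
  have h4 : ∀ x : M, iot D.ph r • x ∈ N := by
    intro x
    have h5 := h3 (N.mkQ x)
    rwa [← map_smul, Submodule.mkQ_apply, Submodule.Quotient.mk_eq_zero] at h5
  obtain ⟨f, hf⟩ : ∃ f : D.T n M →ₗ[D.R] N, ∀ m : M,
      (f (toTw D.ph (D.chi n) M m) : M) = iot D.ph r • m :=
    ⟨(D.mulI M h1).codRestrict N (fun y => h4 ((toTw D.ph (D.chi n) M).symm y)), fun m => rfl⟩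
  have hinj : Function.Injective f := by
    rw [← LinearMap.ker_eq_bot, eq_bot_iff]
    intro y hy
    obtain ⟨m, rfl⟩ := (toTw D.ph (D.chi n) M).surjective y
    have h5 : iot D.ph r • m = 0 := by
      rw [← hf m, LinearMap.mem_ker.1 hy]
      rfl
    have h6 : m ∈ D.tor M hq := (D.mem_tor hq m).2 ⟨n, r, h1, h2, h5⟩
    rw [ht, Submodule.mem_bot] at h6
    rw [h6, map_zero]
    exact Submodule.zero_mem _
  have hNA := D.isA_sub hM N
  have e1 : D.mom (LinearMap.range f) c = D.mom M c := by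
    rw [← D.mom_iso (LinearEquiv.ofInjective f hinj) c, D.mom_tw hM n]
  have e2 := D.mom_add hNA.g (LinearMap.range f) c
  have e3 := D.mom_add hM.g N c
  have e4 := D.E_nonneg (D.isA_quo hNA (LinearMap.range f))
  have e5 := D.E_nonneg (D.isA_quo hM N)
  unfold E at e4 e5
  rw [e1] at e2
  have e6 : D.mom (N ⧸ LinearMap.range f) c + D.mom (M ⧸ N) c = 0 := by linarith
  have e7 : (-1 : ℤ) ^ c * D.mom (M ⧸ N) c = 0 := by
    have e8 : (-1 : ℤ) ^ c * D.mom (N ⧸ LinearMap.range f) c +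
        (-1 : ℤ) ^ c * D.mom (M ⧸ N) c = 0 := by
      rw [← mul_add, e6, mul_zero]
    linarith
  have e9 : D.mom (M ⧸ N) c = 0 := by
    rcases mul_eq_zero.1 e7 with h | h
    · exact absurd h (pow_ne_zero _ (by norm_num))
    · exact h
  rw [e3, e9, add_zero]

end Dat

end MSA
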