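import Mathlib
import Pool.Agent.MSA.Tq

/-!
# The length at a prime object of codimension two

`lq M = E (M ⧸ tor M) 2`.

PROOFS. `lq_iso`: an isomorphism maps `tor` onto `tor` (`tor_map` in both directions), so it induces an
isomorphism of the quotients; `mom_iso`.
`lq_add`: let `M' = M ⧸ tor M` (`tor M' = ⊥` by `tor_quo`), `N' = N.map (tor M).mkQ ≤ M'` (isomorphic to
`N ⧸ tor N` by `tor_sub`), and `K = (tor (M' ⧸ N')).comap N'.mkQ`, the elements `y` of `M'` with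
`r y ∈ N'` for some invariant `r ∉ q` (`tor_mk`); `N' ≤ K`.  `mom K 2 = mom N' 2` by `sat_mom` for the module
`K` and the submodule `N'` of `K` (`tor K = ⊥` by `tor_sub`; `K ⧸ N'` is torsion).  `M' ⧸ K` is isomorphic
to `(M ⧸ N) ⧸ tor (M ⧸ N)`: both are quotients of `M` by the submodule
`{x | ∃ r ∉ q invariant, r x ∈ N}` (if `r (x mod tor) ∈ N'` then `r x = y + z`, `y ∈ N`, `r' z = 0`,
so `r' r x ∈ N`).  So `E M' 2 = E K 2 + E (M' ⧸ K) 2 = lq N + lq (M ⧸ N)` (`mom_add`).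
`lq_van`: the quotient is in `cA 3`, so its `mom 2` is zero.
`lq_self`: `tor (Cy q) = ⊥` by `hq.reg` (`cy_mk`, `cy_mk_eq_zero`), `mom_pos`, `mom_iso`
(`Submodule.quotEquivOfEqBot`).
`lq_other`: `exists_iv_diff` gives an invariant `r ∈ q'`, `r ∉ q`; it kills `Cy q'` (`cy_kill`), so
`tor (Cy q') = ⊤` and the quotient is zero (`mom_zero`).
-/

set_option autoImplicit false
set_option linter.unusedSectionVars false

noncomputable section

namespace MSA

universe u v w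

namespace Dat

variable (D : Dat.{u})

variable {M N : Type u} [AddCommGroup M] [Module D.R M] [AddCommGroup N] [Module D.R N]

variable (M) in
/-- The length of `M` at `q`, times `E (Cy q) 2`. -/
def lq {q : Ideal D.S} (hq : D.IsQ 2 q) : ℤ := D.E (M ⧸ D.tor M hq) 2

theorem lq_iso {q : Ideal D.S} (hq : D.IsQ 2 q) (f : M ≃ₗ[D.R] N) : D.lq M hq = D.lq N hq := by
  have h1 : (D.tor M hq).map (f : M →ₗ[D.R] N) = D.tor N hq := by
    apply le_antisymm
    · rintro _ ⟨x, hx, rfl⟩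
      exact D.tor_map hq (f : M →ₗ[D.R] N) hx
    · intro y hy
      refine ⟨f.symm y, D.tor_map hq (f.symm : N →ₗ[D.R] M) hy, ?_⟩
      exact f.apply_symm_apply y
  unfold lq E
  rw [D.mom_iso (Submodule.Quotient.equiv _ _ f h1)]

theorem lq_add {q : Ideal D.S} (hq : D.IsQ 2 q) (hM : D.IsA M 2) (N : Submodule D.R M) :
    D.lq M hq = D.lq N hq + D.lq (M ⧸ N) hq := by
  have hle : N ≤ (D.tor (M ⧸ N) hq).comap N.mkQ := by
    intro x hx
    have h0 : N.mkQ x = 0 := (Submodule.Quotient.mk_eq_zero N).2 hx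
    rw [Submodule.mem_comap, h0]
    exact Submodule.zero_mem _
  have hle' : D.tor M hq ≤ (D.tor (M ⧸ N) hq).comap N.mkQ := fun x hx => D.tor_map hq N.mkQ hx
  have e1 : D.mom (M ⧸ D.tor M hq) 2 =
      D.mom (((D.tor (M ⧸ N) hq).comap N.mkQ).map (D.tor M hq).mkQ) 2 +
        D.mom (M ⧸ (D.tor (M ⧸ N) hq).comap N.mkQ) 2 := by
    rw [D.mom_add (D.isG_quo hM.g (D.tor M hq)) (((D.tor (M ⧸ N) hq).comap N.mkQ).map (D.tor M hq).mkQ) 2]
    congr 1
    exact D.mom_iso (Submodule.quotientQuotientEquivQuotient _ _ hle') 2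
  have e2 : D.mom (M ⧸ (D.tor (M ⧸ N) hq).comap N.mkQ) 2 = D.mom ((M ⧸ N) ⧸ D.tor (M ⧸ N) hq) 2 := by
    have h3 : ((D.tor (M ⧸ N) hq).comap N.mkQ).map N.mkQ = D.tor (M ⧸ N) hq :=
      Submodule.map_comap_eq_of_surjective (Submodule.mkQ_surjective N) _
    rw [← D.mom_iso (Submodule.quotientQuotientEquivQuotient N _ hle) 2]
    exact D.mom_iso (Submodule.quotEquivOfEq _ _ h3) 2
  have hKN : N.map (D.tor M hq).mkQ ≤ ((D.tor (M ⧸ N) hq).comap N.mkQ).map (D.tor M hq).mkQ :=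
    Submodule.map_mono hle
  have e3 : D.mom (((D.tor (M ⧸ N) hq).comap N.mkQ).map (D.tor M hq).mkQ) 2 =
      D.mom (N.map (D.tor M hq).mkQ) 2 := by
    generalize hK : ((D.tor (M ⧸ N) hq).comap N.mkQ).map (D.tor M hq).mkQ = K at *
    have hA : D.IsA K 2 := D.isA_sub (D.isA_quo hM _) K
    have ht : D.tor K hq = ⊥ := by
      rw [eq_bot_iff]
      intro x hx
      rw [D.tor_sub hq, D.tor_quo hq, Submodule.mem_bot] at hx
      rw [Submodule.mem_bot]
      exact Subtype.ext hx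
    have hs : D.tor (K ⧸ (N.map (D.tor M hq).mkQ).submoduleOf K) hq = ⊤ := by
      rw [eq_top_iff]
      intro z _
      obtain ⟨y, rfl⟩ := Submodule.mkQ_surjective _ z
      rw [D.tor_mk hq]
      obtain ⟨x, hx, hxy⟩ : ∃ x, x ∈ (D.tor (M ⧸ N) hq).comap N.mkQ ∧ (D.tor M hq).mkQ x = y := by
        have hy : (y : M ⧸ D.tor M hq) ∈ ((D.tor (M ⧸ N) hq).comap N.mkQ).map (D.tor M hq).mkQ := by
          rw [hK]
          exact y.2
        exact hy
      obtain ⟨n, r, hr, hrq, h4⟩ := (D.tor_mk hq N x).1 hx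
      refine ⟨n, r, hr, hrq, ?_⟩
      refine ⟨iot D.ph r • x, h4, ?_⟩
      rw [map_smul, hxy]
      rfl
    rw [← D.sat_mom hq hA ht _ hs]
    exact D.mom_iso (Submodule.submoduleOfEquivOfLe hKN) 2
  have e4 : D.mom (N.map (D.tor M hq).mkQ) 2 = D.mom (N ⧸ D.tor N hq) 2 := by
    have h5 : LinearMap.ker ((D.tor M hq).mkQ.comp N.subtype) = D.tor N hq := by
      ext x
      rw [LinearMap.mem_ker, D.tor_sub hq]
      exact Submodule.Quotient.mk_eq_zero _
    have h6 : LinearMap.range ((D.tor M hq).mkQ.comp N.subtype) = N.map (D.tor M hq).mkQ := by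
      rw [LinearMap.range_comp, Submodule.range_subtype]
    rw [D.mom_iso (Submodule.quotEquivOfEq _ _ h5).symm 2,
      D.mom_iso ((D.tor M hq).mkQ.comp N.subtype).quotKerEquivRange 2,
      D.mom_iso (LinearEquiv.ofEq _ _ h6) 2]
  unfold lq E
  rw [e1, e2, e3, e4, mul_add]

/-- The length as an additive function. -/
def lqA {q : Ideal D.S} (hq : D.IsQ 2 q) : Adf (D.cA 2) ℤ where
  e := fun M _ _ => D.lq M hq
  iso := fun f _ => D.lq_iso hq f
  add := fun N h => D.lq_add hq h N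

theorem lq_van {q : Ideal D.S} (hq : D.IsQ 2 q) (hM : D.IsA M 3) : D.lq M hq = 0 := by
  unfold lq E
  rw [(D.isA_quo hM (D.tor M hq)).mom 2 (by norm_num), mul_zero]

theorem lq_self {q : Ideal D.S} (hq : D.IsQ 2 q) : D.lq (D.Cy q) hq ≠ 0 := by
  have h1 : D.tor (D.Cy q) hq = ⊥ := by
    rw [eq_bot_iff]
    intro x hx
    obtain ⟨n, r, hr, hrq, h2⟩ := (D.mem_tor hq x).1 hx
    obtain ⟨y, rfl⟩ := (idl D.ph q).mkQ_surjective x
    obtain ⟨f, rfl⟩ := (toSr D.ph).surjective y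
    rw [D.cy_mk, D.cy_mk_eq_zero hq.st] at h2
    rw [Submodule.mem_bot, D.cy_mk_eq_zero hq.st]
    exact hq.reg n r hr hrq f h2
  have h3 := D.mom_pos hq
  have h4 : D.lq (D.Cy q) hq = D.E (D.Cy q) 2 := by
    unfold lq E
    rw [D.mom_iso (Submodule.quotEquivOfEqBot _ h1) 2]
  rw [h4]
  exact h3.ne'

theorem lq_other (hp : 2 < D.p) {q q' : Ideal D.S} (hq : D.IsQ 2 q) (hq' : D.IsQ 2 q')
    (h : q ≠ q') : D.lq (D.Cy q') hq = 0 := by
  obtain ⟨n, r, hr, hrq', hrq⟩ := D.exists_iv_diff hp hq hq' h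
  have h1 : D.tor (D.Cy q') hq = ⊤ := by
    rw [eq_top_iff]
    intro x _
    exact (D.mem_tor hq x).2 ⟨n, r, hr, hrq, D.cy_kill hq'.st r hrq' x⟩
  have h2 : Subsingleton (D.Cy q' ⧸ D.tor (D.Cy q') hq) := Submodule.Quotient.subsingleton_iff.2 h1
  unfold lq E
  rw [D.mom_zero 2, mul_zero]

end Dat

end MSA
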