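import Mathlib
import Pool.Agent.MSA.Rh0

/-!
# Cyclic modules, multiplication by an invariant (part CLO)

PROOFS.
`ph_iv`: `Gn.tau`: `hf.2` (`D.ph Gn.tau = D.tauS = D.X.sig`, `D.chi n Gn.tau = D.b ^ (n : ℤ)`, `D.X.bL` is the
image of `D.b`; `zpow_natCast`). `Gn.th c`: `thS c` is `eval₂Hom C (X i ↦ C c * X i)`; on a homogeneous
polynomial of degree `p n` it is multiplication by `C c ^ (p n)`: write `f` as a sum of monomials
(as in the proof of `MSX.Dat.sig_iter`: `f = ∑ d ∈ f.support, C (coeff d f) * ∏ i, X i ^ d i`, `eval₂_eq'`,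
`∑ i, d i = p n` on the support), `D.chi n (Gn.th c) = c ^ (D.p * (n : ℤ))`.

`stI_iv`: `Submodule.span_induction`: for a generator `f`: `φ_g f = C _ * f` (`ph_iv`); `φ_g (x + y)`,
`φ_g (a * x) = φ_g a * φ_g x`.

`cy_ses`: `i : D.T n (D.Cy J) → D.Cy I`, `[s] ↦ [r * s]` and `q : D.Cy I → D.Cy (I ⊔ span {r})`, `[s] ↦ [s]`.
`q` is `Submodule.mapQ`/`factor` for `idl I ≤ idl (I ⊔ span {r})` (`mem_idl` with `StI` for both ideals; the second
is stable by `hI` and `stI_iv`). `i`: first the additive map `Sr D.ph → D.Cy I`, `x ↦ [toSr r * x]`, it kills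
`idl J` (`mem_idl`, `h`), so it descends to an additive map of `D.Cy J` (`QuotientAddGroup.lift`, or
`Submodule.liftQ` over `ℤ`/as `AddMonoidHom`); compose with `(toTw ..).symm`; linearity by `mkLin`: on
classes `[toSr s]`: `tw_iot`, `tw_gam`, `sr_iot`, `sr_gam`, and `φ_g (r * s) = C (χ_n g) * r * φ_g s` (`ph_iv`), where
`algebraMap D.F D.S c = C (algebraMap D.F D.L c)` is `rfl`. Injective: `h`. `q` surjective: clear.
Exactness: `[x]` with `x ∈ I ⊔ span {r}` is `[i + r * s] = [r * s]` (`Submodule.mem_sup`,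
`Ideal.mem_span_singleton'`). Then `adf_ses`.

`rp_span`: if `g * s = a * y + b * (g * g')` then `y ∣ g * (s - b * g')`, so `y ∣ s - b * g'`
(`IsRelPrime.dvd_of_dvd_mul_left`; `D.S` is a UFD, so a `DecompositionMonoid`), so `s ∈ (y, g')`; the converse is
clear (`Ideal.mem_span_pair`).

`ci_mul`: `cy_ses` with `I = (y, g g')`, `J = (y, g')`, `r = g`; `I ⊔ span {g} = span {y, g}`. Membership of
`CI y (g g')` in `C`: `hC.ci`, `IsRelPrime.mul_right`, `Inv.mul`.

`ci_unit`: the ideal is everything (`Ideal.eq_top_of_isUnit_mem`), so `D.CI y g` is zero (`mem_idl` with `StI ⊤`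
trivial; every class `[s]` is zero): `adf_zero`; the twist of a zero module is a zero module.

`ci_tw`: `ci_mul` for `g * r` and for `r * g` (the same element):
`e (CI y g) + e (T n (CI y r)) = e (CI y r) + e (T l (CI y g))`, and the same with `h` for `g`; subtract.
-/

set_option autoImplicit false
set_option linter.unusedSectionVars false

noncomputable section

namespace MSA

universe u v w v'

namespace Dat

variable (D : Dat.{u})

variable {D} in
theorem scal_hom (a : D.L) {m : ℕ} {f : D.S} (h : f.IsHomogeneous m) :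
    MvPolynomial.eval₂Hom MvPolynomial.C (fun i => MvPolynomial.C a * MvPolynomial.X i) f =
      MvPolynomial.C (a ^ m) * f := by
  have h3 : f = ∑ d ∈ f.support, MvPolynomial.C (MvPolynomial.coeff d f) *
      ∏ i, MvPolynomial.X i ^ d i := by
    conv_lhs => rw [← MvPolynomial.eval₂_eta f, MvPolynomial.eval₂_eq']
  rw [MvPolynomial.coe_eval₂Hom, MvPolynomial.eval₂_eq']
  conv_rhs => rw [h3]
  rw [Finset.mul_sum]
  refine Finset.sum_congr rfl fun d hd => ?_
  have h4 : ∑ i, d i = m := by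
    have h5 := h.degree_eq_sum_deg_support hd
    rw [h5]
    refine (Finset.sum_subset (Finset.subset_univ _) fun i _ hi => ?_).symm
    exact Finsupp.notMem_support_iff.1 hi
  simp only [mul_pow, Finset.prod_mul_distrib, Finset.prod_pow_eq_pow_sum, h4]
  rw [map_pow]
  ring

theorem ph_iv {n : ℕ} {f : D.S} (hf : D.Iv n f) (g : Gn D.F) :
    D.ph g f = MvPolynomial.C (algebraMap D.F D.L (D.chi n g)) * f := by
  cases g with
  | tau =>
    have h := hf.2
    show D.X.sig f = MvPolynomial.C (algebraMap D.F D.L (D.b ^ (n : ℤ))) * f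
    have e : algebraMap D.F D.L (D.b ^ n) = D.X.bL ^ n := map_pow _ _ _
    rw [h, zpow_natCast, e]
  | th c =>
    show D.thS c f = MvPolynomial.C (algebraMap D.F D.L ((c : D.F) ^ ((D.p : ℤ) * (n : ℤ)))) * f
    have h1 : ((D.p : ℤ) * (n : ℤ)) = ((D.p * n : ℕ) : ℤ) := by push_cast; rfl
    rw [h1, zpow_natCast, map_pow]
    exact scal_hom _ hf.1

theorem stI_iv {s : Set D.S} (hs : ∀ f ∈ s, ∃ n, D.Iv n f) : StI D.ph (Ideal.span s) := by
  intro g x hx
  refine Submodule.span_induction (p := fun x _ => D.ph g x ∈ Ideal.span s) ?_ ?_ ?_ ?_ hx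
  · intro f hf
    obtain ⟨n, hn⟩ := hs f hf
    rw [D.ph_iv hn]
    exact Ideal.mul_mem_left _ _ (Ideal.subset_span hf)
  · rw [map_zero]
    exact Ideal.zero_mem _
  · intro x y _ _ h1 h2
    rw [map_add]
    exact Ideal.add_mem _ h1 h2
  · intro a x _ h1
    rw [smul_eq_mul, map_mul]
    exact Ideal.mul_mem_left _ _ h1

theorem stI_ci {m n : ℕ} {y g : D.S} (hy : D.Iv m y) (hg : D.Iv n g) :
    StI D.ph (Ideal.span {y, g}) := D.stI_iv (by
  intro f hf
  rcases hf with rfl | hf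
  · exact ⟨m, hy⟩
  · rw [Set.mem_singleton_iff] at hf
    exact ⟨n, hf ▸ hg⟩)

/-- the class of `x` in `S / I` -/
def cl (I : Ideal D.S) (x : D.S) : D.Cy I := Submodule.Quotient.mk (toSr D.ph x)

theorem cl_surj (I : Ideal D.S) (m : D.Cy I) : ∃ x, D.cl I x = m := by
  obtain ⟨x, rfl⟩ := Submodule.Quotient.mk_surjective _ m
  exact ⟨(toSr D.ph).symm x, by unfold cl; rw [RingEquiv.apply_symm_apply]⟩

theorem cl_eq_zero {I : Ideal D.S} (hI : StI D.ph I) (x : D.S) : D.cl I x = 0 ↔ x ∈ I := by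
  unfold cl
  rw [Submodule.Quotient.mk_eq_zero, mem_idl D.ph hI]

theorem cl_add (I : Ideal D.S) (x y : D.S) : D.cl I (x + y) = D.cl I x + D.cl I y := by
  unfold cl
  rw [map_add, Submodule.Quotient.mk_add]

theorem cl_sub (I : Ideal D.S) (x y : D.S) : D.cl I (x - y) = D.cl I x - D.cl I y := by
  unfold cl
  rw [map_sub, Submodule.Quotient.mk_sub]

theorem cl_iot (I : Ideal D.S) (s x : D.S) : iot D.ph s • D.cl I x = D.cl I (s * x) := by
  unfold cl
  rw [← Submodule.Quotient.mk_smul, sr_iot]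

theorem cl_gam (I : Ideal D.S) (g : Gn D.F) (x : D.S) :
    gam D.ph g • D.cl I x = D.cl I (D.ph g x) := by
  unfold cl
  rw [← Submodule.Quotient.mk_smul, sr_gam]

/-- the class of `x` in the twist of `S / J` -/
def tcl (n : ℤ) (J : Ideal D.S) (x : D.S) : D.T n (D.Cy J) :=
  toTw D.ph (D.chi n) (D.Cy J) (D.cl J x)

theorem tcl_surj (n : ℤ) (J : Ideal D.S) (m : D.T n (D.Cy J)) : ∃ x, D.tcl n J x = m := by
  obtain ⟨x, hx⟩ := D.cl_surj J ((toTw D.ph (D.chi n) (D.Cy J)).symm m)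
  exact ⟨x, by unfold tcl; rw [hx, AddEquiv.apply_symm_apply]⟩

theorem stI_sup {I : Ideal D.S} (hI : StI D.ph I) {n : ℕ} {r : D.S} (hr : D.Iv n r) :
    StI D.ph (I ⊔ Ideal.span {r}) := by
  have h0 : StI D.ph (Ideal.span {r}) := D.stI_iv (by
    intro f hf
    rw [Set.mem_singleton_iff] at hf
    exact ⟨n, hf ▸ hr⟩)
  intro g x hx
  obtain ⟨a, ha, b, hb, rfl⟩ := Submodule.mem_sup.1 hx
  rw [map_add]
  exact Ideal.add_mem _ (Ideal.mem_sup_left (hI g a ha)) (Ideal.mem_sup_right (h0 g b hb))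

/-- the projection `S / I → S / (I + (r))` -/
def cyQ (I : Ideal D.S) (r : D.S) : D.Cy I →ₗ[D.R] D.Cy (I ⊔ Ideal.span {r}) :=
  Submodule.mapQ _ _ LinearMap.id (fun _ hx t => Ideal.mem_sup_left (hx t))

theorem cyQ_apply (I : Ideal D.S) (r x : D.S) :
    D.cyQ I r (D.cl I x) = D.cl (I ⊔ Ideal.span {r}) x := rfl

/-- multiplication by `r` as an additive map -/
def cyA {I J : Ideal D.S} (hI : StI D.ph I) (hJ : StI D.ph J) {r : D.S}
    (h : ∀ s, r * s ∈ I ↔ s ∈ J) : D.Cy J →+ D.Cy I :=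
  QuotientAddGroup.lift (idl D.ph J).toAddSubgroup
    (((idl D.ph I).mkQ : Sr D.ph →+ D.Cy I).comp (AddMonoidHom.mulLeft (toSr D.ph r)))
    (by
      intro x hx
      obtain ⟨s, rfl⟩ := (toSr D.ph).surjective x
      have h1 : s ∈ J := (mem_idl D.ph hJ s).1 hx
      show Submodule.Quotient.mk (toSr D.ph r * toSr D.ph s) = 0
      rw [Submodule.Quotient.mk_eq_zero, ← map_mul, mem_idl D.ph hI]
      exact (h s).2 h1)

theorem cyA_apply {I J : Ideal D.S} (hI : StI D.ph I) (hJ : StI D.ph J) {r : D.S}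
    (h : ∀ s, r * s ∈ I ↔ s ∈ J) (x : D.S) : D.cyA hI hJ h (D.cl J x) = D.cl I (r * x) := by
  show Submodule.Quotient.mk (toSr D.ph r * toSr D.ph x) = _
  rw [← map_mul]
  rfl

/-- multiplication by `r` -/
def cyI {I J : Ideal D.S} (hI : StI D.ph I) (hJ : StI D.ph J) {n : ℕ} {r : D.S}
    (hr : D.Iv n r) (h : ∀ s, r * s ∈ I ↔ s ∈ J) : D.T n (D.Cy J) →ₗ[D.R] D.Cy I :=
  mkLin ((D.cyA hI hJ h).comp (toTw D.ph (D.chi n) (D.Cy J)).symm.toAddMonoidHom)
    (by
      intro s m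
      obtain ⟨x, rfl⟩ := D.tcl_surj n J m
      unfold tcl
      rw [tw_iot, D.cl_iot]
      show D.cyA hI hJ h (D.cl J (s * x)) = iot D.ph s • D.cyA hI hJ h (D.cl J x)
      rw [D.cyA_apply, D.cyA_apply, D.cl_iot]
      congr 1
      ring)
    (by
      intro g m
      obtain ⟨x, rfl⟩ := D.tcl_surj n J m
      unfold tcl
      rw [tw_gam, D.cl_gam, D.cl_iot]
      show D.cyA hI hJ h (D.cl J (algebraMap D.F D.S (D.chi n g) * D.ph g x)) =
        gam D.ph g • D.cyA hI hJ h (D.cl J x)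
      rw [D.cyA_apply, D.cyA_apply, D.cl_gam, map_mul, D.ph_iv hr]
      congr 1
      have e1 : algebraMap D.F D.S (D.chi n g) =
        MvPolynomial.C (algebraMap D.F D.L (D.chi n g)) := rfl
      rw [e1]
      ring)

theorem cyI_apply {I J : Ideal D.S} (hI : StI D.ph I) (hJ : StI D.ph J) {n : ℕ} {r : D.S}
    (hr : D.Iv n r) (h : ∀ s, r * s ∈ I ↔ s ∈ J) (x : D.S) :
    D.cyI hI hJ hr h (D.tcl n J x) = D.cl I (r * x) :=
  D.cyA_apply hI hJ h x

theorem sub_ci {y g : D.S} (h : IsUnit g) : Subsingleton (D.CI y g) := by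
  have h1 : Ideal.span {y, g} = ⊤ :=
    Ideal.eq_top_of_isUnit_mem _ (Ideal.subset_span (by simp)) h
  have h2 : idl D.ph (Ideal.span {y, g}) = ⊤ := by
    rw [h1, eq_top_iff]
    intro x _ t
    exact Submodule.mem_top
  show Subsingleton (Sr D.ph ⧸ idl D.ph (Ideal.span {y, g}))
  rw [h2]
  infer_instance

variable {C : Cls.{u} D.R} {B : Type v} [AddCommGroup B] (e : Adf C B)

/-- The short exact sequence `0 → T n (S / J) → S / I → S / (I + (r)) → 0`. -/
theorem cy_ses {I J : Ideal D.S} (hI : StI D.ph I) (hJ : StI D.ph J) {n : ℕ} {r : D.S}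
    (hr : D.Iv n r) (h : ∀ s, r * s ∈ I ↔ s ∈ J) (hC : C.P (D.Cy I)) :
    e.e (D.Cy I) = e.e (D.T n (D.Cy J)) + e.e (D.Cy (I ⊔ Ideal.span {r})) := by
  have hS := D.stI_sup hI hr
  refine adf_ses e hC (D.cyI hI hJ hr h) (D.cyQ I r) ?_ ?_ ?_
  · rw [injective_iff_map_eq_zero]
    intro m hm
    obtain ⟨t, rfl⟩ := D.tcl_surj n J m
    rw [D.cyI_apply, D.cl_eq_zero hI, h] at hm
    have h1 := (D.cl_eq_zero hJ t).2 hm
    unfold tcl
    rw [h1, map_zero]
  · intro m
    obtain ⟨t, rfl⟩ := D.cl_surj _ m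
    exact ⟨D.cl I t, D.cyQ_apply I r t⟩
  · intro m
    obtain ⟨x, rfl⟩ := D.cl_surj I m
    rw [D.cyQ_apply, D.cl_eq_zero hS]
    constructor
    · intro hx
      obtain ⟨a, ha, b, hb, rfl⟩ := Submodule.mem_sup.1 hx
      obtain ⟨s, rfl⟩ := Ideal.mem_span_singleton'.1 hb
      refine ⟨D.tcl n J s, ?_⟩
      rw [D.cyI_apply, D.cl_add, (D.cl_eq_zero hI a).2 ha, zero_add, mul_comm]
    · rintro ⟨k, hk⟩
      obtain ⟨s, rfl⟩ := D.tcl_surj n J k
      rw [D.cyI_apply] at hk
      have h1 : D.cl I (r * s - x) = 0 := by rw [D.cl_sub, hk, sub_self]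
      rw [D.cl_eq_zero hI] at h1
      have h2 : x = r * s - (r * s - x) := by ring
      rw [h2]
      exact Ideal.sub_mem _ (Ideal.mul_mem_right _ _ (Ideal.mem_sup_right
        (Ideal.mem_span_singleton_self r))) (Ideal.mem_sup_left h1)

theorem cy_congr {I J : Ideal D.S} (h : I = J) : e.e (D.Cy I) = e.e (D.Cy J) := by
  subst h
  rfl

theorem ci_symm (y g : D.S) : e.e (D.CI y g) = e.e (D.CI g y) :=
  D.cy_congr e (by rw [Set.pair_comm])

/-- the class only depends on the residue class of `g` modulo `y` -/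
theorem ci_mod {y g h : D.S} (hd : y ∣ g - h) : e.e (D.CI y g) = e.e (D.CI y h) := by
  refine D.cy_congr e ?_
  obtain ⟨a, ha⟩ := hd
  apply le_antisymm
  · rw [Ideal.span_le]
    rintro x (rfl | hx)
    · exact Ideal.subset_span (by simp)
    · rw [Set.mem_singleton_iff] at hx
      rw [hx]
      exact Ideal.mem_span_pair.2 ⟨a, 1, by linear_combination -ha⟩
  · rw [Ideal.span_le]
    rintro x (rfl | hx)
    · exact Ideal.subset_span (by simp)
    · rw [Set.mem_singleton_iff] at hx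
      rw [hx]
      exact Ideal.mem_span_pair.2 ⟨-a, 1, by linear_combination ha⟩

theorem rp_span {y g g' s : D.S} (h : IsRelPrime y g) :
    g * s ∈ Ideal.span {y, g * g'} ↔ s ∈ Ideal.span {y, g'} := by
  rw [Ideal.mem_span_pair, Ideal.mem_span_pair]
  constructor
  · rintro ⟨a, b, hab⟩
    have h1 : y ∣ g * (s - b * g') := ⟨a, by linear_combination -hab⟩
    obtain ⟨c, hc⟩ := h.dvd_of_dvd_mul_left h1
    exact ⟨c, b, by linear_combination -hc⟩
  · rintro ⟨a, b, hab⟩
    exact ⟨g * a, b, by linear_combination g * hab⟩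

theorem ci_mul (hC : D.GC C) {m n n' : ℕ} {y g g' : D.S} (hy : D.Iv m y) (hg : D.Iv n g)
    (hg' : D.Iv n' g') (y0 : y ≠ 0) (g0 : g ≠ 0) (g0' : g' ≠ 0) (h : IsRelPrime y g)
    (h' : IsRelPrime y g') :
    e.e (D.CI y (g * g')) = e.e (D.CI y g) + e.e (D.T n (D.CI y g')) := by
  have hgg : D.Iv (n + n') (g * g') := Pool.Agent.MSX.Dat.Inv.mul D.X hg hg'
  have h1 := D.cy_ses e (D.stI_ci hy hgg) (D.stI_ci hy hg') hg (fun s => D.rp_span h)
    (hC.ci hy hgg y0 (mul_ne_zero g0 g0') (h.mul_right h'))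
  rw [add_comm] at h1
  refine h1.trans ?_
  congr 1
  refine D.cy_congr e ?_
  apply le_antisymm
  · rw [sup_le_iff]
    constructor
    · rw [Ideal.span_le]
      rintro x (rfl | hx)
      · exact Ideal.subset_span (by simp)
      · rw [Set.mem_singleton_iff] at hx
        rw [hx]
        exact Ideal.mul_mem_right _ _ (Ideal.subset_span (by simp))
    · exact Ideal.span_mono (by simp)
  · rw [Ideal.span_le]
    rintro x (rfl | hx)
    · exact Ideal.mem_sup_left (Ideal.subset_span (by simp))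
    · rw [Set.mem_singleton_iff] at hx
      rw [hx]
      exact Ideal.mem_sup_right (Ideal.mem_span_singleton_self g)

theorem ci_unit {y g : D.S} (h : IsUnit g) : e.e (D.CI y g) = 0 := by
  have := D.sub_ci (y := y) h
  exact adf_zero e

theorem ci_unit_tw {y g : D.S} (h : IsUnit g) (n : ℤ) : e.e (D.T n (D.CI y g)) = 0 := by
  have h1 := D.sub_ci (y := y) h
  have : Subsingleton (D.T n (D.CI y g)) :=
    (toTw D.ph (D.chi n) (D.CI y g)).symm.injective.subsingleton
  exact adf_zero e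

/-- The difference `CI y g - CI y h`, `g`, `h` of the same degree, is invariant under twists. -/
theorem ci_tw (hC : D.GC C) {m n l : ℕ} {y g h r : D.S} (hy : D.Iv m y) (hg : D.Iv n g)
    (hh : D.Iv n h) (hr : D.Iv l r) (y0 : y ≠ 0) (g0 : g ≠ 0) (h0 : h ≠ 0) (r0 : r ≠ 0)
    (cg : IsRelPrime y g) (ch : IsRelPrime y h) (cr : IsRelPrime y r) :
    e.e (D.T l (D.CI y g)) - e.e (D.T l (D.CI y h)) = e.e (D.CI y g) - e.e (D.CI y h) := by
  have h1 := D.ci_mul e hC hy hg hr y0 g0 r0 cg cr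
  have h2 := D.ci_mul e hC hy hr hg y0 r0 g0 cr cg
  have h3 := D.ci_mul e hC hy hh hr y0 h0 r0 ch cr
  have h4 := D.ci_mul e hC hy hr hh y0 r0 h0 cr ch
  rw [mul_comm g r, h2] at h1
  rw [mul_comm h r, h4] at h3
  have h5 := congrArg₂ (fun a b => a - b) h1 h3
  simp only [add_sub_add_left_eq_sub, add_sub_add_right_eq_sub] at h5
  exact h5

end Dat

end MSA
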