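import Mathlib
import Pool.Agent.MSA.Rh1
import Pool.Agent.MSA.Av
import Pool.Agent.MSA.Abs

/-!
# The Adams operation multiplies `rho` by `k ^ 2` (part CLO)
-/

set_option autoImplicit false
set_option linter.unusedSectionVars false

noncomputable section

namespace MSA

universe u v w v'

namespace Dat

variable (D : Dat.{u})

variable {C : Cls.{u} D.R} {B : Type v} [AddCommGroup B]

/-- twist invariance of the value of a `Trip` -/
theorem trip_tw (hC : D.GC C) (e : Adf C B) (T : D.X.Trip) (a : ℕ) :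
    e.e (D.T a (D.CI T.y T.g)) - e.e (D.T a (D.CI T.y T.h)) =
      e.e (D.CI T.y T.g) - e.e (D.CI T.y T.h) := by
  obtain ⟨r, hr, r0, cr⟩ := D.exists_rp T.hy.1 T.y0 a
  exact D.ci_tw e hC T.hy T.hg T.hh hr T.y0 T.g0 T.h0 r0 (D.rp_of_pt T.hy.1 T.y0 T.cg)
    (D.rp_of_pt T.hy.1 T.y0 T.ch) cr

/-- If `e'` has the values of the Adams operation on complete intersections then `rho` is
multiplied by `k ^ 2`. -/
theorem rho_psi (hC : D.GC C) (e e' : Adf C B) (k : ℕ)
    (h : ∀ (m n : ℕ) (y g : D.S), D.Iv m y → D.Iv n g → y ≠ 0 → g ≠ 0 → IsRelPrime y g →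
      e'.e (D.CI y g) = ∑ a : Fin k, ∑ b : Fin k,
        e.e (D.T ((m * a.val + n * b.val : ℕ) : ℤ) (D.CI y g)))
    (l : List D.X.Trip) : D.rho l e' = (k : ℤ) ^ 2 • D.rho l e := by
  unfold rho
  induction l with
  | nil => simp
  | cons T l ih =>
    rw [List.map_cons, List.sum_cons, ih, List.map_cons, List.sum_cons, smul_add]
    congr 1
    have hg := h T.m T.n T.y T.g T.hy T.hg T.y0 T.g0 (D.rp_of_pt T.hy.1 T.y0 T.cg)
    have hh := h T.m T.n T.y T.h T.hy T.hh T.y0 T.h0 (D.rp_of_pt T.hy.1 T.y0 T.ch)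
    rw [hg, hh, ← Finset.sum_sub_distrib]
    have h1 : ∀ a : Fin k, (∑ b : Fin k, e.e (D.T ((T.m * a.val + T.n * b.val : ℕ) : ℤ)
        (D.CI T.y T.g))) - ∑ b : Fin k, e.e (D.T ((T.m * a.val + T.n * b.val : ℕ) : ℤ)
        (D.CI T.y T.h)) = (k : ℤ) • (e.e (D.CI T.y T.g) - e.e (D.CI T.y T.h)) := by
      intro a
      rw [← Finset.sum_sub_distrib, Finset.sum_congr rfl fun b _ => D.trip_tw hC e T _,
        Finset.sum_const, Finset.card_univ, Fintype.card_fin, natCast_zsmul]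
    rw [Finset.sum_congr rfl fun a _ => h1 a, Finset.sum_const, Finset.card_univ,
      Fintype.card_fin, ← natCast_zsmul, smul_smul, sq]

end Dat

end MSA
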