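import Mathlib
import Pool.Agent.MSA.OrA
import Pool.Agent.MSX.CnvA
import Pool.Agent.MSX.CnvB

/-!
# Orbit primes and factorization of invariants (part CLO)

PROOFS.
`exists_pi`. Case `D.X.sg P = P`: `D.X.inv_gen D.hd P hP` gives `m`, `w ≠ 0` with `f = C w * P.gen` in `Inv m`; `C w` is
a unit; `m > 0` because `P.deg = p m` is positive (`gen_deg_pos`, `f ≠ 0` has degree `P.deg`;
`MvPolynomial.IsHomogeneous.inj_right`); `y' = C w`; `P'.gen ∣ f` gives `P'.gen ∣ P.gen`, so `P' = P` (`gen_dvd_gen`),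
`i = 0`; `P.gen ∣ h` gives `f ∣ h`.
Case `D.X.sg P ≠ P`: `f = D.X.nm P.gen = ∏ i ∈ range p, sig^[i] P.gen` in `Inv P.deg` (`inv_nm`), `P.deg > 0`. With
`p = m + 1` and `y' = D.X.caE m P.gen`: `ca_nm`, `ca_E_not` (`MSX/CnvA`). `ca_nm_dvd` gives the statement on `P'`.
If `P.gen ∣ h`, `h` in `Inv n`: `(sg^[i] P).gen ∣ h` for all `i` (`iv_iter`), so `sig^[i] P.gen ∣ h` (`ca_gen_iter`:
associated); the factors `sig^[i] P.gen`, `i < p`, are pairwise relatively prime: they are irreducible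
(`sig_irr`) and `sig^[i] P.gen ∣ sig^[j] P.gen`, `i ≠ j`, would give `sg^[i] P = sg^[j] P` (`gen_dvd_gen` and
`ca_gen_iter`), and for `i < j` injectivity of `sg` gives `sg^[j - i] P = P`, against `ca_iter_ne`;
(`Irreducible.coprime_iff_not_dvd`-like lemma: `Irreducible.isRelPrime_iff_not_dvd`);
`Finset.prod_dvd_of_isRelPrime`.

`iv_div`: `hom_of_mul` for `x * f`: `x` homogeneous of degree `i`, `f` of degree `j`, `i + j = p m`, and `i = p a`
(`IsHomogeneous.inj_right`), so `p ∣ j`, `j = p m'`. Then `sig x * sig f = C (b^m) * (x * f)` and `sig x = C (b^a) * x`,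
cancel `x` and `C (b^a)` (`b^m = b^a * b^m'`).

`pi_dvd`: `exists_pi` for `P = D.pt o`.

`iv_ind`: strong induction on `m`. `m = 0`: `D.X.inv_zero` (`f = C (algebraMap c)`, `c ≠ 0`). `m > 0`: `exists_irr`
(degree `p m > 0`) gives `P` with `P.gen ∣ f`; with `o = D.oro P`: `(D.pt o).gen ∣ f` (`iv_pt`), so `D.pi o ∣ f`
(`pi_dvd`), `f = D.pi o * f'`; `iv_div`: `m = D.dg o + m'`, `f'` in `Inv m'`; `m' < m` by `dg_pos`.

`iv_cancel`: strong induction on `m`: if `(D.pt o).gen ∣ f` then `f = D.pi o * f'` as before and apply the induction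
hypothesis to `f'`; otherwise `k = 0`.
-/

set_option autoImplicit false
set_option linter.unusedSectionVars false

noncomputable section

namespace MSA

universe u v w v'

namespace Dat

variable (D : Dat.{u})

private theorem sig_iter_irr (P : D.Pt) (i : ℕ) : Irreducible (D.X.sig^[i] P.gen) := by
  induction i with
  | zero => exact P.gen_irr
  | succ i ih =>
    rw [Function.iterate_succ_apply']
    exact D.X.sig_irr ih

private theorem iter_ne_lt {P : D.Pt} (hP : D.X.sg P ≠ P) {i j : ℕ} (hij : i < j) (hj : j < D.p) :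
    D.X.sg^[i] P ≠ D.X.sg^[j] P := by
  intro h
  have h1 : D.X.sg^[j] P = D.X.sg^[i] (D.X.sg^[j - i] P) := by
    rw [← Function.iterate_add_apply]
    congr 1
    omega
  rw [h1] at h
  have h2 := (D.X.sg_inj.iterate i) h
  exact D.X.ca_iter_ne hP (by omega : 0 < j - i) (by omega) h2.symm

private theorem iter_ne {P : D.Pt} (hP : D.X.sg P ≠ P) {i j : ℕ} (hij : i ≠ j) (hi : i < D.p)
    (hj : j < D.p) : D.X.sg^[i] P ≠ D.X.sg^[j] P := by
  rcases lt_or_gt_of_ne hij with h | h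
  · exact D.iter_ne_lt hP h hj
  · exact (D.iter_ne_lt hP h hi).symm

theorem exists_pi (P : D.Pt) : ∃ (m : ℕ) (f : D.S), 0 < m ∧ D.Iv m f ∧
    (∃ y', f = P.gen * y' ∧ ¬ P.gen ∣ y') ∧
    (∀ P' : D.Pt, P'.gen ∣ f → ∃ i : ℕ, D.X.sg^[i] P = P') ∧
    ∀ (n : ℕ) (h : D.S), D.Iv n h → P.gen ∣ h → f ∣ h := by
  by_cases hP : D.X.sg P = P
  · obtain ⟨m, w, hw, hm⟩ := D.X.inv_gen D.hd P hP
    have hu : IsUnit (MvPolynomial.C w : D.S) := (IsUnit.mk0 w hw).map MvPolynomial.C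
    have hg0 := P.gen_irr.ne_zero
    have hmp : 0 < m := by
      have h1 : (MvPolynomial.C w * P.gen : D.S).IsHomogeneous P.deg := P.gen_hom.C_mul w
      have h2 := h1.inj_right hm.1 (mul_ne_zero hu.ne_zero hg0)
      have h3 := Pool.Agent.MSX.gen_deg_pos P
      rcases Nat.eq_zero_or_pos m with rfl | h
      · rw [mul_zero] at h2
        omega
      · exact h
    refine ⟨m, MvPolynomial.C w * P.gen, hmp, hm, ⟨MvPolynomial.C w, mul_comm _ _,
      fun h => P.gen_irr.not_isUnit (isUnit_of_dvd_unit h hu)⟩, ?_, ?_⟩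
    · intro P' h
      have h1 : P'.gen ∣ P.gen := (hu.dvd_mul_left).1 h
      exact ⟨0, (Pool.Agent.MSX.gen_dvd_gen h1).symm⟩
    · intro n h _ h1
      exact (hu.mul_left_dvd).2 h1
  · obtain ⟨m, hm⟩ : ∃ m, D.p = m + 1 := ⟨D.p - 1, by have := D.X.hp.pos; omega⟩
    refine ⟨P.deg, D.X.nm P.gen, Pool.Agent.MSX.gen_deg_pos P, D.X.inv_nm P.gen_hom,
      ⟨D.X.caE m P.gen, D.X.ca_nm hm P.gen, D.X.ca_E_not hP hm⟩,
      fun P' h => D.X.ca_nm_dvd h, ?_⟩
    intro n h hh h1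
    show ∏ i ∈ Finset.range D.p, D.X.sig^[i] P.gen ∣ h
    refine Finset.prod_dvd_of_isRelPrime ?_ ?_
    · intro i hi j hj hij
      have hi' : i < D.p := by simpa using hi
      have hj' : j < D.p := by simpa using hj
      refine (D.sig_iter_irr P i).isRelPrime_iff_not_dvd.2 fun h2 => ?_
      have h3 : (D.X.sg^[i] P).gen ∣ (D.X.sg^[j] P).gen :=
        ((D.X.ca_gen_iter P i).dvd.trans h2).trans (D.X.ca_gen_iter P j).symm.dvd
      exact D.iter_ne hP hij hi' hj' (Pool.Agent.MSX.gen_dvd_gen h3)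
    · intro i _
      exact (D.X.ca_gen_iter P i).symm.dvd.trans ((D.iv_iter hh P i).2 h1)

/-- the degree (divided by `p`) of the invariant attached to an orbit -/
def dg (o : D.Or) : ℕ := (D.exists_pi (D.pt o)).choose

/-- the invariant attached to an orbit -/
def pi (o : D.Or) : D.S := (D.exists_pi (D.pt o)).choose_spec.choose

theorem dg_pos (o : D.Or) : 0 < D.dg o := (D.exists_pi (D.pt o)).choose_spec.choose_spec.1

theorem pi_iv (o : D.Or) : D.Iv (D.dg o) (D.pi o) :=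
  (D.exists_pi (D.pt o)).choose_spec.choose_spec.2.1

theorem pi_gen (o : D.Or) : ∃ y', D.pi o = (D.pt o).gen * y' ∧ ¬ (D.pt o).gen ∣ y' :=
  (D.exists_pi (D.pt o)).choose_spec.choose_spec.2.2.1

theorem pi_pt (o : D.Or) (P' : D.Pt) (h : P'.gen ∣ D.pi o) : ∃ i : ℕ, D.X.sg^[i] (D.pt o) = P' :=
  (D.exists_pi (D.pt o)).choose_spec.choose_spec.2.2.2.1 P' h

theorem pi_dvd (o : D.Or) {n : ℕ} {h : D.S} (hh : D.Iv n h) (h1 : (D.pt o).gen ∣ h) : D.pi o ∣ h :=
  (D.exists_pi (D.pt o)).choose_spec.choose_spec.2.2.2.2 n h hh h1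

theorem pi_gen_dvd (o : D.Or) : (D.pt o).gen ∣ D.pi o := by
  obtain ⟨y', h, -⟩ := D.pi_gen o
  exact ⟨y', h⟩

theorem pi_ne (o : D.Or) : D.pi o ≠ 0 := by
  obtain ⟨y', h, h'⟩ := D.pi_gen o
  rw [h]
  refine mul_ne_zero (D.pt o).gen_irr.ne_zero ?_
  rintro rfl
  exact h' (dvd_zero _)

theorem iv_div {a m : ℕ} {x f : D.S} (hx : D.Iv a x) (hxf : D.Iv m (x * f)) (x0 : x ≠ 0)
    (f0 : f ≠ 0) : ∃ m' : ℕ, m = a + m' ∧ D.Iv m' f := by
  obtain ⟨i, j, hij, hi, hj⟩ := Pool.Agent.MSX.hom_of_mul hxf.1 (mul_ne_zero x0 f0)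
  have hi' : i = D.p * a := hi.inj_right hx.1 x0
  have hle : a ≤ m := by
    by_contra h
    push Not at h
    have h1 : D.p * m < D.p * a := Nat.mul_lt_mul_of_pos_left h D.X.hp.pos
    omega
  obtain ⟨m', rfl⟩ := Nat.exists_eq_add_of_le hle
  have hj' : j = D.p * m' := by
    rw [mul_add] at hij
    omega
  refine ⟨m', rfl, ?_, ?_⟩
  · rw [← hj']
    exact hj
  · have h1 := hxf.2
    have h2 := hx.2
    rw [map_mul D.X.sig, h2, pow_add, map_mul MvPolynomial.C] at h1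
    have h3 : MvPolynomial.C (D.X.bL ^ a) * x ≠ 0 :=
      mul_ne_zero (by
        rw [Ne, MvPolynomial.C_eq_zero]
        exact pow_ne_zero _ D.X.bL_ne) x0
    apply mul_left_cancel₀ h3
    rw [h1]
    ring

/-- Induction principle for invariants. -/
theorem iv_ind {P : ℕ → D.S → Prop}
    (hc : ∀ c : D.F, c ≠ 0 → P 0 (MvPolynomial.C (algebraMap D.F D.L c)))
    (hm : ∀ (o : D.Or) (m : ℕ) (f : D.S), D.Iv m f → f ≠ 0 → P m f → P (D.dg o + m) (D.pi o * f))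
    {m : ℕ} {f : D.S} (hf : D.Iv m f) (f0 : f ≠ 0) : P m f := by
  induction m using Nat.strong_induction_on generalizing f with
  | _ m ih =>
  rcases Nat.eq_zero_or_pos m with rfl | hpos
  · obtain ⟨c, rfl⟩ := D.X.inv_zero hf
    refine hc c ?_
    rintro rfl
    apply f0
    rw [map_zero, map_zero]
  · obtain ⟨P', hP'⟩ := Pool.Agent.MSX.exists_irr hf.1 f0 (Nat.mul_pos D.X.hp.pos hpos)
    obtain ⟨f', rfl⟩ := D.pi_dvd (D.oro P') hf ((D.iv_pt hf P').2 hP')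
    have f0' : f' ≠ 0 := right_ne_zero_of_mul f0
    obtain ⟨m', rfl, hm'⟩ := D.iv_div (D.pi_iv (D.oro P')) hf (D.pi_ne _) f0'
    have h1 := D.dg_pos (D.oro P')
    exact hm _ _ _ hm' f0' (ih m' (by omega) hm' f0')

theorem iv_cancel (o : D.Or) {m : ℕ} {f : D.S} (hf : D.Iv m f) (f0 : f ≠ 0) :
    ∃ (k m' : ℕ) (f' : D.S), D.Iv m' f' ∧ m = k * D.dg o + m' ∧ f = D.pi o ^ k * f' ∧
      ¬ (D.pt o).gen ∣ f' := by
  induction m using Nat.strong_induction_on generalizing f with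
  | _ m ih =>
  by_cases hd : (D.pt o).gen ∣ f
  · obtain ⟨f', rfl⟩ := D.pi_dvd o hf hd
    have f0' : f' ≠ 0 := right_ne_zero_of_mul f0
    obtain ⟨m', rfl, hm'⟩ := D.iv_div (D.pi_iv o) hf (D.pi_ne _) f0'
    have h1 := D.dg_pos o
    obtain ⟨k, m'', f'', h2, h3, h4, h5⟩ := ih m' (by omega) hm' f0'
    refine ⟨k + 1, m'', f'', h2, ?_, ?_, h5⟩
    · rw [h3]
      ring
    · rw [h4]
      ring
  · exact ⟨0, m, f, hf, by simp, by simp, hd⟩

theorem pi_rp {o : D.Or} {n : ℕ} {f : D.S} (hf : D.Iv n f) (h : ¬ (D.pt o).gen ∣ f) :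
    IsRelPrime (D.pi o) f := D.rp_iv (D.pi_iv o) (D.pi_ne o) hf (D.pi_pt o) h

theorem pi_rp_pi {o o' : D.Or} (h : o ≠ o') : IsRelPrime (D.pi o) (D.pi o') := by
  refine D.pi_rp (D.pi_iv o') fun h1 => ?_
  obtain ⟨i, hi⟩ := D.pi_pt o' _ h1
  have h2 := D.oro_iter (D.pt o') i
  rw [hi, D.oro_pt, D.oro_pt] at h2
  exact h h2

end Dat

end MSA
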