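import Mathlib
import Pool.Agent.MSA.OrB
import Pool.Agent.MSA.Bet
import Pool.Agent.MSX.Fam

/-!
# Divisors of elements of the function field (part CLO)

`D.dv x : D.Or →₀ ℤ` has the values `(pl (D.pt o)).v x`.
-/

set_option autoImplicit false
set_option linter.unusedSectionVars false

noncomputable section

namespace MSA

universe u v w v'

open Pool.Agent.MSX (pl)

namespace Dat

variable (D : Dat.{u})

/-- `S → Qf` -/
abbrev al : D.S →+* D.Qf := algebraMap D.S D.Qf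

theorem al_ne {f : D.S} (h : f ≠ 0) : D.al f ≠ 0 := (map_ne_zero_iff _ Pool.Agent.MSX.Q_inj).2 h

theorem dv_fin (x : D.Qf) : (Function.support fun o : D.Or => (pl (D.pt o)).v x).Finite :=
  (Pool.Agent.MSX.v_finite x).preimage D.pt_inj.injOn

/-- the divisor of an element of the fraction field -/
def dv (x : D.Qf) : D.Or →₀ ℤ := Finsupp.ofSupportFinite (fun o => (pl (D.pt o)).v x) (D.dv_fin x)

theorem dv_apply (x : D.Qf) (o : D.Or) : D.dv x o = (pl (D.pt o)).v x := rfl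

theorem dv_mul {x y : D.Qf} (hx : x ≠ 0) (hy : y ≠ 0) : D.dv (x * y) = D.dv x + D.dv y := by
  ext o
  rw [dv_apply, (pl (D.pt o)).v_mul x y hx hy]
  rfl

theorem dv_inv (x : D.Qf) : D.dv x⁻¹ = - D.dv x := by
  ext o
  rw [dv_apply, (pl (D.pt o)).v_inv x]
  rfl

theorem dv_div {x y : D.Qf} (hx : x ≠ 0) (hy : y ≠ 0) : D.dv (x / y) = D.dv x - D.dv y := by
  ext o
  rw [dv_apply, (pl (D.pt o)).v_div hx hy]
  rfl

theorem dv_zpow {x : D.Qf} (hx : x ≠ 0) (n : ℤ) : D.dv (x ^ n) = n • D.dv x := by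
  ext o
  rw [dv_apply, (pl (D.pt o)).v_zpow x n hx]
  rfl

theorem dv_one : D.dv 1 = 0 := by
  ext o
  rw [dv_apply, (pl (D.pt o)).v_one]
  rfl

theorem dv_C (c : D.L) : D.dv (D.al (MvPolynomial.C c)) = 0 := by
  ext o
  rw [dv_apply]
  by_cases hc : c = 0
  · rw [hc, map_zero, map_zero, (pl (D.pt o)).v_zero]
    rfl
  · refine (Pool.Agent.MSX.pl_unit (D.pt o) _ fun h => ?_).1
    exact (D.pt o).gen_irr.not_isUnit (isUnit_of_dvd_unit h ((IsUnit.mk0 c hc).map _))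

theorem dv_eq_zero {f : D.S} {o : D.Or} (h : ¬ (D.pt o).gen ∣ f) : D.dv (D.al f) o = 0 :=
  (Pool.Agent.MSX.pl_unit (D.pt o) f h).1

theorem dv_pi (o : D.Or) : D.dv (D.al (D.pi o)) = Finsupp.single o 1 := by
  ext o'
  by_cases h : o = o'
  · subst h
    rw [Finsupp.single_eq_same, dv_apply]
    obtain ⟨y', h1, h2⟩ := D.pi_gen o
    have hy : y' ≠ 0 := by
      rintro rfl
      exact h2 (dvd_zero _)
    rw [h1, map_mul, (pl (D.pt o)).v_mul _ _ (D.al_ne (D.pt o).gen_irr.ne_zero) (D.al_ne hy),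
      (Pool.Agent.MSX.pl_gen (D.pt o)).1, (Pool.Agent.MSX.pl_unit (D.pt o) y' h2).1, add_zero]
  · rw [Finsupp.single_eq_of_ne (Ne.symm h)]
    exact D.dv_eq_zero (D.rp_pt (D.pi_rp_pi (Ne.symm h)) _ (D.pi_gen_dvd o'))

theorem dv_pi_mul (o : D.Or) {f : D.S} (hf : f ≠ 0) :
    D.dv (D.al (D.pi o * f)) = Finsupp.single o 1 + D.dv (D.al f) := by
  rw [map_mul, D.dv_mul (D.al_ne (D.pi_ne o)) (D.al_ne hf), D.dv_pi]

end Dat

end MSA
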