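import Mathlib
import Pool.Agent.MSA.Rh1
import Pool.Agent.MSA.OrD

/-!
# The values on complete intersections in terms of divisors; the local relation (part CLO)

Here `C` is a good class (`D.GC C`) and `e` a twist invariant additive function (`TwI e`).

PROOFS.
`ci_bet`. First for `y = D.pi o`: `D.iv_ind` for the predicate `P n g := IsRelPrime (D.pi o) g → e (CI (pi o) g) =
bet (sy e) (single o 1) (dv (al g))`. Constants `g = C _ ≠ 0`: `ci_unit`, `dv_C`, `bet_zero_right`. `g = pi l * f`: `l ≠ o`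
(otherwise `pi o ∣ g`, and `pi o` would be a unit: it is divisible by `(pt o).gen`), `pi o` is relatively prime to
`pi l` and to `f` (`IsRelPrime.of_mul_right_left` etc.), `ci_mul` and `hT` (with `hC.ci` for the membership) give
`e (CI (pi o) (pi l * f)) = e (CI (pi o) (pi l)) + e (CI (pi o) f)`; `dv_pi_mul`, `bet_add_right`, `bet_single_ne`.
General `y`: `D.iv_ind` for `P m y := ∀ n g, D.Iv n g → g ≠ 0 → IsRelPrime y g → ...`. Constants: `ci_symm`, `ci_unit`,
`dv_C`, `bet_zero_left`. `y = pi o * f`: `ci_symm`, `ci_mul` for `CI g (pi o * f)`, `hT`, `ci_symm` twice, the first step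
for `pi o` and the induction hypothesis for `f`; `dv_pi_mul`, `bet_add_left`.

`loc_one`. `D.X.K_rep`: `x = al f / al h`, `f`, `h` in `Iv m`, `h ≠ 0`, and `f ≠ 0` because `x ≠ 0`. `iv_cancel o`:
`f = pi o ^ k * f'`, `h = pi o ^ k' * h'`, `f'`, `h'` not divisible by `(pt o).gen`, `f'` in `Iv m1`, `h'` in `Iv m2`,
`k * dg o + m1 = m = k' * dg o + m2`. `dv (al f) = k • single o 1 + dv (al f')` (`dv_mul`, powers: `dv_zpow` with
`zpow_natCast`, `dv_pi`), the same for `h`; evaluate at `o` (`dv_eq_zero` for `f'`, `h'`): `v x = k - k' = 0`. So `k = k'`,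
`m1 = m2`, `x = al f' / al h'` (`mul_div_mul_left`), `ac x = red f' / red h'` (`ac_div`, `pl_unit`), so `red f' = red h'`,
`(pt o).gen ∣ f' - h'` (`red_eq_zero`). `f' - h'` is in `Iv m1` (degree and `sig` are additive), so `pi o ∣ f' - h'`
(`pi_dvd`), and `ci_mod` gives `e (CI (pi o) f') = e (CI (pi o) h')`. By `ci_bet` (relative primality: `pi_rp`) and
`dv_pi`: `bet (sy e) (single o 1) (dv (al f')) = bet (sy e) (single o 1) (dv (al h'))`; `dv_div`, `bet_sub_right`.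

`loc_eq`: `loc_one` for `x / x'` (in `D.X.K`: `div_mem`; `v_div`, `ac_div`, `A_eq_iff`), `dv_div`, `bet_sub_right`.
-/

set_option autoImplicit false
set_option linter.unusedSectionVars false

noncomputable section

namespace MSA

universe u v w v'

open Pool.Agent.MSX (pl)

namespace Dat

variable (D : Dat.{u})

variable {C : Cls.{u} D.R} {B : Type v} [AddCommGroup B]

/-- the value on the complete intersection of two orbit primes -/
def sy (e : Adf C B) (o l : D.Or) : B := e.e (D.CI (D.pi o) (D.pi l))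

theorem sy_symm (e : Adf C B) (o l : D.Or) : D.sy e o l = D.sy e l o := D.ci_symm e _ _

/-- the homomorphism attached to an orbit -/
def lam (e : Adf C B) (o : D.Or) (x : D.Qf) : B :=
  bet (D.sy e) (Finsupp.single o 1) (D.dv x)

theorem lam_mul (e : Adf C B) (o : D.Or) {x y : D.Qf} (hx : x ≠ 0) (hy : y ≠ 0) :
    D.lam e o (x * y) = D.lam e o x + D.lam e o y := by
  unfold lam
  rw [D.dv_mul hx hy, bet_add_right]

theorem lam_div (e : Adf C B) (o : D.Or) {x y : D.Qf} (hx : x ≠ 0) (hy : y ≠ 0) :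
    D.lam e o (x / y) = D.lam e o x - D.lam e o y := by
  unfold lam
  rw [D.dv_div hx hy, bet_sub_right]

theorem lam_zpow (e : Adf C B) (o : D.Or) {x : D.Qf} (hx : x ≠ 0) (n : ℤ) :
    D.lam e o (x ^ n) = n • D.lam e o x := by
  unfold lam
  rw [D.dv_zpow hx, bet_smul_right]

theorem lam_one (e : Adf C B) (o : D.Or) : D.lam e o 1 = 0 := by
  unfold lam
  rw [D.dv_one, bet_zero_right]

variable (e : Adf C B)

private theorem ci_mul' (hC : D.GC C) (hT : TwI e) {m n n' : ℕ} {y g g' : D.S} (hy : D.Iv m y)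
    (hg : D.Iv n g) (hg' : D.Iv n' g') (y0 : y ≠ 0) (g0 : g ≠ 0) (g0' : g' ≠ 0)
    (h : IsRelPrime y (g * g')) :
    e.e (D.CI y (g * g')) = e.e (D.CI y g) + e.e (D.CI y g') := by
  have h1 : IsRelPrime y g := IsRelPrime.of_mul_right_left h
  have h2 : IsRelPrime y g' := IsRelPrime.of_mul_right_right h
  rw [D.ci_mul e hC hy hg hg' y0 g0 g0' h1 h2, hT n _ (hC.ci hy hg' y0 g0' h2)]

private theorem ci_pi (hC : D.GC C) (hT : TwI e) (o : D.Or) {n : ℕ} {g : D.S} (hg : D.Iv n g)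
    (g0 : g ≠ 0) :
    IsRelPrime (D.pi o) g →
      e.e (D.CI (D.pi o) g) = bet (D.sy e) (Finsupp.single o 1) (D.dv (D.al g)) := by
  refine D.iv_ind (P := fun _ g => IsRelPrime (D.pi o) g →
      e.e (D.CI (D.pi o) g) = bet (D.sy e) (Finsupp.single o 1) (D.dv (D.al g))) ?_ ?_ hg g0
  · intro c hc _
    have hc' : algebraMap D.F D.L c ≠ 0 := (map_ne_zero _).2 hc
    rw [D.ci_unit e ((IsUnit.mk0 _ hc').map MvPolynomial.C), D.dv_C, bet_zero_right]
  · intro l m f hf f0 ih h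
    have h1 : IsRelPrime (D.pi o) (D.pi l) := IsRelPrime.of_mul_right_left h
    have h2 : IsRelPrime (D.pi o) f := IsRelPrime.of_mul_right_right h
    have hne : o ≠ l := by
      rintro rfl
      exact (D.pt o).gen_irr.not_isUnit (h1 (D.pi_gen_dvd o) (D.pi_gen_dvd o))
    rw [D.ci_mul' e hC hT (D.pi_iv o) (D.pi_iv l) hf (D.pi_ne o) (D.pi_ne l) f0 h, ih h2,
      D.dv_pi_mul l f0, bet_add_right, bet_single_ne _ hne]
    rfl

theorem ci_bet (hC : D.GC C) (hT : TwI e) {m n : ℕ} {y g : D.S} (hy : D.Iv m y) (hg : D.Iv n g)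
    (y0 : y ≠ 0) (g0 : g ≠ 0) (h : IsRelPrime y g) :
    e.e (D.CI y g) = bet (D.sy e) (D.dv (D.al y)) (D.dv (D.al g)) := by
  revert h
  refine D.iv_ind (P := fun _ y => IsRelPrime y g →
      e.e (D.CI y g) = bet (D.sy e) (D.dv (D.al y)) (D.dv (D.al g))) ?_ ?_ hy y0
  · intro c hc _
    have hc' : algebraMap D.F D.L c ≠ 0 := (map_ne_zero _).2 hc
    rw [D.ci_symm, D.ci_unit e ((IsUnit.mk0 _ hc').map MvPolynomial.C), D.dv_C, bet_zero_left]
  · intro o k f hf f0 ih h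
    have h' : IsRelPrime g (D.pi o * f) := h.symm
    have h1 : IsRelPrime g (D.pi o) := IsRelPrime.of_mul_right_left h'
    have h2 : IsRelPrime g f := IsRelPrime.of_mul_right_right h'
    rw [D.ci_symm, D.ci_mul' e hC hT hg (D.pi_iv o) hf g0 (D.pi_ne o) f0 h',
      D.ci_symm e g (D.pi o), D.ci_symm e g f, ih h2.symm,
      D.ci_pi e hC hT o hg g0 h1.symm, D.dv_pi_mul o f0, bet_add_left]

private theorem dv_pow_mul (o : D.Or) (k : ℕ) {f : D.S} (hf : f ≠ 0) :
    D.dv (D.al (D.pi o ^ k * f)) = (k : ℤ) • Finsupp.single o 1 + D.dv (D.al f) := by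
  induction k with
  | zero => rw [pow_zero, one_mul, Nat.cast_zero, zero_smul, zero_add]
  | succ k ih =>
    rw [pow_succ', mul_assoc, D.dv_pi_mul o (mul_ne_zero (pow_ne_zero _ (D.pi_ne o)) hf), ih,
      Nat.cast_succ, add_smul, one_smul]
    abel

private theorem iv_sub {m : ℕ} {f g : D.S} (hf : D.Iv m f) (hg : D.Iv m g) : D.Iv m (f - g) := by
  refine ⟨hf.1.sub hg.1, ?_⟩
  rw [map_sub, hf.2, hg.2, mul_sub]

theorem loc_one (hC : D.GC C) (hT : TwI e) (o : D.Or) {x : D.Qf} (hx : x ∈ D.X.K) (x0 : x ≠ 0)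
    (hv : (pl (D.pt o)).v x = 0) (ha : (pl (D.pt o)).ac x = 1) : D.lam e o x = 0 := by
  obtain ⟨m, f, h, hf, hh, h0, rfl⟩ := D.X.K_rep hx
  have f0 : f ≠ 0 := by
    rintro rfl
    apply x0
    rw [map_zero, zero_div]
  obtain ⟨k, m1, f', hf', e1, rfl, nf⟩ := D.iv_cancel o hf f0
  obtain ⟨k', m2, h', hh', e2, rfl, nh⟩ := D.iv_cancel o hh h0
  have f0' : f' ≠ 0 := right_ne_zero_of_mul f0
  have h0' : h' ≠ 0 := right_ne_zero_of_mul h0
  have d1 : D.dv (D.al (D.pi o ^ k * f') / D.al (D.pi o ^ k' * h')) o = 0 := hv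
  rw [D.dv_div (D.al_ne f0) (D.al_ne h0), D.dv_pow_mul o k f0', D.dv_pow_mul o k' h0'] at d1
  have d2 : (k : ℤ) - (k' : ℤ) = 0 := by
    have d3 := D.dv_eq_zero nf
    have d4 := D.dv_eq_zero nh
    simp only [Finsupp.sub_apply, Finsupp.add_apply, Finsupp.smul_apply, Finsupp.single_eq_same,
      d3, d4, smul_eq_mul, mul_one, add_zero] at d1
    exact d1
  have hk : k = k' := by omega
  subst hk
  have hm : m1 = m2 := by omega
  subst hm
  have hp : D.al (D.pi o ^ k) ≠ 0 := D.al_ne (pow_ne_zero _ (D.pi_ne o))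
  have ex : D.al (D.pi o ^ k * f') / D.al (D.pi o ^ k * h') = D.al f' / D.al h' := by
    rw [map_mul, map_mul, mul_div_mul_left _ _ hp]
  have ha' : (pl (D.pt o)).ac (D.al f' / D.al h') = 1 := by
    rw [← ex]
    exact ha
  rw [(pl (D.pt o)).ac_div, (Pool.Agent.MSX.pl_unit (D.pt o) f' nf).2,
    (Pool.Agent.MSX.pl_unit (D.pt o) h' nh).2] at ha'
  have hr0 : Pool.Agent.MSX.red (D.pt o) h' ≠ 0 := fun hz =>
    nh ((Pool.Agent.MSX.red_eq_zero _ _).1 hz)
  have hr : Pool.Agent.MSX.red (D.pt o) (f' - h') = 0 := by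
    rw [map_sub, sub_eq_zero]
    exact (div_eq_one_iff_eq hr0).1 ha'
  have hd : D.pi o ∣ f' - h' :=
    D.pi_dvd o (D.iv_sub hf' hh') ((Pool.Agent.MSX.red_eq_zero _ _).1 hr)
  have hc := D.ci_mod e hd
  rw [D.ci_bet e hC hT (D.pi_iv o) hf' (D.pi_ne o) f0' (D.pi_rp hf' nf),
    D.ci_bet e hC hT (D.pi_iv o) hh' (D.pi_ne o) h0' (D.pi_rp hh' nh), D.dv_pi] at hc
  have hl : D.lam e o (D.al f' / D.al h') = 0 := by
    rw [D.lam_div e o (D.al_ne f0') (D.al_ne h0')]
    unfold lam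
    rw [hc, sub_self]
  show D.lam e o (D.al (D.pi o ^ k * f') / D.al (D.pi o ^ k * h')) = 0
  rw [ex]
  exact hl

theorem loc_eq (hC : D.GC C) (hT : TwI e) (o : D.Or) {x x' : D.Qf} (hx : x ∈ D.X.K)
    (hx' : x' ∈ D.X.K) (x0 : x ≠ 0) (x0' : x' ≠ 0) (hv : (pl (D.pt o)).v x = 0)
    (hv' : (pl (D.pt o)).v x' = 0) (ha : (pl (D.pt o)).A x = (pl (D.pt o)).A x') :
    D.lam e o x = D.lam e o x' := by
  have h1 : D.lam e o (x / x') = 0 := by
    refine D.loc_one e hC hT o (div_mem hx hx') (div_ne_zero x0 x0') ?_ ?_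
    · rw [(pl (D.pt o)).v_div x0 x0', hv, hv', sub_zero]
    · rw [(pl (D.pt o)).ac_div, ((pl (D.pt o)).A_eq_iff x0 x0').1 ha,
        div_self ((pl (D.pt o)).ac_ne _ x0')]
  rw [D.lam_div e o x0 x0'] at h1
  exact sub_eq_zero.1 h1

end Dat

end MSA
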