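import Mathlib
import Pool.Agent.MSA.Rh3

/-!
# The relation coming from `K₂` of the function field, 1 (part CLO)

`e` an additive function on a class of modules over `D.R`, `λ_o = D.lam e o`.

PROOFS.
`sum_lam`: `bet_finsum` and the definition of `lam` (`dv x o = (pl (pt o)).v x`); `sum_lam_fin`: `bet_finsum_fin`.

`k2_rep`: `MK.K2_induction`. Symbol `S a b`, `a b : D.X.K` nonzero: `f o = b ^ v_o(a) / a ^ v_o(b)` (in `Qf`; `zpow_mem`,
`div_mem`), `v_o (f o) = v_o(a) v_o(b) - v_o(b) v_o(a) = 0` (`v_div`, `v_zpow`); `D.X.tmK (S a b) (pt o) =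
(pl (pt o)).tame (S a b)` (`K2.map_S`, `tmA` is `AddMonoidHom.pi`), `tame_S`: equal to
`(v a * v b) • m1 + v a • A b - v b • A a`, twice the first term is zero (`MK.Val.two_m1`), and
`A (f o) = v a • A b - v b • A a` (`A_div`, `A_zpow`). `f o ≠ 1` only if `v_o(a) ≠ 0` or `v_o(b) ≠ 0` (`dv_fin`).
`λ_o (f o) = v_o(a) • λ_o(b) - v_o(b) • λ_o(a)` (`lam_div`, `lam_zpow`), so the sum is `bet (dv a) (dv b) - bet (dv b) (dv a)`
(`sum_lam`, `sum_lam_fin`, `finsum_sub_distrib`), zero by `bet_symm` and `sy_symm`. Zero: `f o = 1` (`A_one`, `v_one`).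
Sum of `w` and `w'`: `f o * f' o`; `finsum_add_distrib` (supports are finite: `λ_o 1 = 0`, `lam_one`).
-/

set_option autoImplicit false
set_option linter.unusedSectionVars false

noncomputable section

namespace MSA

universe u v w v'

open Pool.Agent.MSX (pl)
open Pool.Agent (MK.K2)

namespace Dat

variable (D : Dat.{u})

variable {C : Cls.{u} D.R} {B : Type v} [AddCommGroup B] (e : Adf C B)

theorem sum_lam (x : D.Qf) (b : D.Qf) :
    bet (D.sy e) (D.dv x) (D.dv b) = ∑ᶠ o, (pl (D.pt o)).v x • D.lam e o b :=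
  bet_finsum (D.sy e) (D.dv x) (D.dv b)

theorem sum_lam_fin (x : D.Qf) (b : D.Qf) :
    (Function.support fun o => (pl (D.pt o)).v x • D.lam e o b).Finite :=
  bet_finsum_fin (D.sy e) (D.dv x) (D.dv b)

private theorem rh4_tmK (a b : D.X.K) (P : D.Pt) :
    D.X.tmK (Pool.Agent.MK.S a b) P = (pl P).tame (Pool.Agent.MK.S (a : D.Qf) (b : D.Qf)) := by
  show (pl P).tame (Pool.Agent.MK.K2.map D.X.K.subtype (Pool.Agent.MK.S a b)) = _
  rw [Pool.Agent.MK.K2.map_S]
  rfl

theorem k2_rep (w : Pool.Agent.MK.K2 D.X.K) : ∃ f : D.Or → D.Qf, (∀ o, f o ∈ D.X.K) ∧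
    (∀ o, f o ≠ 0) ∧ (∀ o, (pl (D.pt o)).v (f o) = 0) ∧
    (∀ o, (2 : ℤ) • D.X.tmK w (D.pt o) = (2 : ℤ) • (pl (D.pt o)).A (f o)) ∧
    {o | f o ≠ 1}.Finite ∧ ∑ᶠ o, D.lam e o (f o) = 0 := by
  induction w using Pool.Agent.MK.K2_induction with
  | hS a b ha hb =>
    have ha' : (a : D.Qf) ≠ 0 := fun h => ha (Subtype.ext h)
    have hb' : (b : D.Qf) ≠ 0 := fun h => hb (Subtype.ext h)
    refine ⟨fun o => (b : D.Qf) ^ (pl (D.pt o)).v (a : D.Qf) / (a : D.Qf) ^ (pl (D.pt o)).v (b : D.Qf),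
      fun o => div_mem (zpow_mem b.2 _) (zpow_mem a.2 _),
      fun o => div_ne_zero (zpow_ne_zero _ hb') (zpow_ne_zero _ ha'), fun o => ?_, fun o => ?_, ?_, ?_⟩
    · rw [(pl (D.pt o)).v_div (zpow_ne_zero _ hb') (zpow_ne_zero _ ha'),
        (pl (D.pt o)).v_zpow _ _ hb', (pl (D.pt o)).v_zpow _ _ ha', mul_comm, sub_self]
    · rw [rh4_tmK, (pl (D.pt o)).tame_S ha' hb',
        (pl (D.pt o)).A_div (zpow_ne_zero _ hb') (zpow_ne_zero _ ha'),
        (pl (D.pt o)).A_zpow _ _ hb', (pl (D.pt o)).A_zpow _ _ ha', add_sub_assoc, zsmul_add]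
      have h0 := Pool.Agent.MK.Val.two_m1 (k := Pool.Agent.MSX.kap (D.pt o))
      rw [← mul_zsmul, mul_comm, mul_zsmul, h0, zsmul_zero, zero_add]
    · refine ((D.dv_fin (a : D.Qf)).union (D.dv_fin (b : D.Qf))).subset fun o ho => ?_
      by_contra hn
      rw [Set.mem_union, not_or, Function.mem_support, not_not, Function.mem_support, not_not] at hn
      apply ho
      show (b : D.Qf) ^ (pl (D.pt o)).v (a : D.Qf) / (a : D.Qf) ^ (pl (D.pt o)).v (b : D.Qf) = 1
      rw [hn.1, hn.2, zpow_zero, zpow_zero, div_one]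
    · have h1 : (fun o => D.lam e o ((b : D.Qf) ^ (pl (D.pt o)).v (a : D.Qf) /
          (a : D.Qf) ^ (pl (D.pt o)).v (b : D.Qf))) = fun o =>
          (pl (D.pt o)).v (a : D.Qf) • D.lam e o (b : D.Qf) -
            (pl (D.pt o)).v (b : D.Qf) • D.lam e o (a : D.Qf) := by
        funext o
        rw [D.lam_div e o (zpow_ne_zero _ hb') (zpow_ne_zero _ ha'), D.lam_zpow e o hb',
          D.lam_zpow e o ha']
      rw [h1, finsum_sub_distrib (D.sum_lam_fin e _ _) (D.sum_lam_fin e _ _), ← D.sum_lam,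
        ← D.sum_lam, bet_symm _ (D.sy_symm e), sub_self]
  | hz =>
    refine ⟨fun _ => 1, fun _ => one_mem _, fun _ => one_ne_zero, fun o => (pl (D.pt o)).v_one,
      fun o => ?_, ?_, ?_⟩
    · rw [(pl (D.pt o)).A_one, map_zero]
      rfl
    · simp
    · have h1 : (fun o => D.lam e o (1 : D.Qf)) = fun _ => 0 := by
        funext o
        exact D.lam_one e o
      rw [h1, finsum_zero]
  | hadd x y hx hy =>
    obtain ⟨f, h1, h2, h3, h4, h5, h6⟩ := hx
    obtain ⟨f', h1', h2', h3', h4', h5', h6'⟩ := hy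
    have hfin : ∀ {f : D.Or → D.Qf}, {o | f o ≠ 1}.Finite →
        (Function.support fun o => D.lam e o (f o)).Finite := by
      intro f hf
      refine hf.subset fun o ho h => ho ?_
      show D.lam e o (f o) = 0
      rw [h, D.lam_one]
    refine ⟨fun o => f o * f' o, fun o => mul_mem (h1 o) (h1' o), fun o => mul_ne_zero (h2 o) (h2' o),
      fun o => ?_, fun o => ?_, ?_, ?_⟩
    · rw [(pl (D.pt o)).v_mul _ _ (h2 o) (h2' o), h3, h3', add_zero]
    · rw [(pl (D.pt o)).A_mul (h2 o) (h2' o), zsmul_add, ← h4, ← h4', map_add, ← zsmul_add]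
      rfl
    · refine (h5.union h5').subset fun o ho => ?_
      by_contra hn
      rw [Set.mem_union, not_or] at hn
      apply ho
      have e1 : f o = 1 := not_not.1 hn.1
      have e2 : f' o = 1 := not_not.1 hn.2
      show f o * f' o = 1
      rw [e1, e2, mul_one]
    · have h7 : (fun o => D.lam e o (f o * f' o)) = fun o => D.lam e o (f o) + D.lam e o (f' o) := by
        funext o
        exact D.lam_mul e o (h2 o) (h2' o)
      rw [h7, finsum_add_distrib (hfin h5) (hfin h5'), h6, h6', add_zero]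

end Dat

end MSA
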