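import Mathlib
import Pool.Agent.MSA.Rh4

/-!
# The relation coming from `K₂` of the function field, 2 (part CLO)

`C` a good class, `e` a twist invariant additive function, `λ_o = D.lam e o`.

PROOFS.
`trip_val`: `ci_bet` twice (`rp_of_pt` with `T.cg`, `T.ch`), `bet_sub_right`, `dv_div`, `sum_lam`.
`trip_loc`: `x = (al T.g / al T.h) ^ v` with `v = v_o (al T.y)`. In `K`: `D.X.K_of_inv`, `zpow_mem`. If `v ≠ 0` then
`(pt o).gen ∣ T.y` (else `pl_unit` gives `v = 0`), so `(pt o).gen` divides neither `T.g` nor `T.h` and `v_o (g/h) = 0`; so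
`v_o x = v * v_o (g/h) = 0` in all cases. `A x = v • (A g - A h) = T.fam (pt o)` (`A_zpow`, `A_div`, definition of
`Trip.fam`). `λ_o x = v • λ_o (g/h)` (`lam_zpow`).
`list_loc`: induction on the list, product of the elements (`A_mul`, `v_mul`, `lam_mul`); the empty list: `x = 1`.

`closed_k2`: let `S_o = (l.map (fun T => v_o (al T.y) • λ_o (g/h))).sum`, `x` from `list_loc` at `o`, `f` from `k2_rep`.
`A (x ^ (2 n)) = 2 n • A x = 2 • tmK w (pt o) = 2 • A (f o) = A ((f o) ^ 2)` (evaluate `hw` at `pt o`), so `loc_eq` gives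
`(2 n) • S_o = 2 • λ_o (f o)` (`lam_zpow`). `rho l e = ∑ᶠ o, S_o` (`trip_val`; interchange the sum over the list with the
`finsum`, by induction on the list, all supports are finite: `sum_lam_fin`); so
`(2 n) • rho l e = ∑ᶠ o, (2 n) • S_o = ∑ᶠ o, 2 • λ_o (f o) = 2 • ∑ᶠ o, λ_o (f o) = 0` (`smul_finsum'` with finite
support or `AddMonoidHom.map_finsum`; the support of `λ_o (f o)` is contained in `{o | f o ≠ 1}`, `lam_one`).
-/

set_option autoImplicit false
set_option linter.unusedSectionVars false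

noncomputable section

namespace MSA

universe u v w v'

open Pool.Agent.MSX (pl)
open Pool.Agent (MK.K2)

namespace Dat

variable (D : Dat.{u})

variable {C : Cls.{u} D.R} {B : Type v} [AddCommGroup B] (e : Adf C B)

theorem trip_val (hC : D.GC C) (hT : TwI e) (T : D.X.Trip) :
    e.e (D.CI T.y T.g) - e.e (D.CI T.y T.h) =
      ∑ᶠ o, (pl (D.pt o)).v (D.al T.y) • D.lam e o (D.al T.g / D.al T.h) := by
  rw [D.ci_bet e hC hT T.hy T.hg T.y0 T.g0 (D.rp_of_pt T.hy.1 T.y0 T.cg),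
    D.ci_bet e hC hT T.hy T.hh T.y0 T.h0 (D.rp_of_pt T.hy.1 T.y0 T.ch), ← bet_sub_right,
    ← D.dv_div (D.al_ne T.g0) (D.al_ne T.h0), D.sum_lam e]

theorem trip_loc (T : D.X.Trip) (o : D.Or) : ∃ x : D.Qf, x ∈ D.X.K ∧ x ≠ 0 ∧
    (pl (D.pt o)).v x = 0 ∧ (pl (D.pt o)).A x = T.fam (D.pt o) ∧
    D.lam e o x = (pl (D.pt o)).v (D.al T.y) • D.lam e o (D.al T.g / D.al T.h) := by
  have hg : D.al T.g ≠ 0 := D.al_ne T.g0
  have hh : D.al T.h ≠ 0 := D.al_ne T.h0
  have hgh : D.al T.g / D.al T.h ≠ 0 := div_ne_zero hg hh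
  refine ⟨(D.al T.g / D.al T.h) ^ ((pl (D.pt o)).v (D.al T.y)),
    zpow_mem (D.X.K_of_inv T.hg T.hh T.h0) _, zpow_ne_zero _ hgh, ?_, ?_, D.lam_zpow e o hgh _⟩
  · rw [(pl (D.pt o)).v_zpow _ _ hgh]
    by_cases hd : (D.pt o).gen ∣ T.y
    · rw [(pl (D.pt o)).v_div hg hh, (Pool.Agent.MSX.pl_unit (D.pt o) T.g (T.cg _ hd)).1,
        (Pool.Agent.MSX.pl_unit (D.pt o) T.h (T.ch _ hd)).1, sub_zero, mul_zero]
    · rw [(Pool.Agent.MSX.pl_unit (D.pt o) T.y hd).1, zero_mul]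
  · rw [(pl (D.pt o)).A_zpow _ _ hgh, (pl (D.pt o)).A_div hg hh]
    rfl

theorem list_loc (l : List D.X.Trip) (o : D.Or) : ∃ x : D.Qf, x ∈ D.X.K ∧ x ≠ 0 ∧
    (pl (D.pt o)).v x = 0 ∧
    (pl (D.pt o)).A x = (l.map Pool.Agent.MSX.Dat.Trip.fam).sum (D.pt o) ∧
    D.lam e o x = (l.map (fun T : D.X.Trip =>
      (pl (D.pt o)).v (D.al T.y) • D.lam e o (D.al T.g / D.al T.h))).sum := by
  induction l with
  | nil =>
    refine ⟨1, one_mem _, one_ne_zero, (pl (D.pt o)).v_one, ?_, ?_⟩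
    · rw [(pl (D.pt o)).A_one]
      rfl
    · rw [D.lam_one]
      rfl
  | cons T l ih =>
    obtain ⟨x, hx, x0, hv, hA, hl⟩ := ih
    obtain ⟨y, hy, y0, hv', hA', hl'⟩ := D.trip_loc e T o
    refine ⟨y * x, mul_mem hy hx, mul_ne_zero y0 x0, ?_, ?_, ?_⟩
    · rw [(pl (D.pt o)).v_mul _ _ y0 x0, hv, hv', add_zero]
    · rw [(pl (D.pt o)).A_mul y0 x0, hA, hA', List.map_cons, List.sum_cons]
      rfl
    · rw [D.lam_mul e o y0 x0, hl, hl', List.map_cons, List.sum_cons]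

private theorem rho_sum (hC : D.GC C) (hT : TwI e) (l : List D.X.Trip) :
    D.rho l e = ∑ᶠ o, (l.map (fun T : D.X.Trip =>
      (pl (D.pt o)).v (D.al T.y) • D.lam e o (D.al T.g / D.al T.h))).sum ∧
    (Function.support fun o => (l.map (fun T : D.X.Trip =>
      (pl (D.pt o)).v (D.al T.y) • D.lam e o (D.al T.g / D.al T.h))).sum).Finite := by
  induction l with
  | nil =>
    constructor
    · show (0 : B) = ∑ᶠ o : D.Or, (0 : B)
      rw [finsum_zero]
    · refine Set.finite_empty.subset fun o ho => ?_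
      exact ho rfl
  | cons T l ih =>
    obtain ⟨h1, h2⟩ := ih
    have h3 := D.sum_lam_fin e (D.al T.y) (D.al T.g / D.al T.h)
    have h4 : (fun o => ((T :: l).map (fun T : D.X.Trip =>
        (pl (D.pt o)).v (D.al T.y) • D.lam e o (D.al T.g / D.al T.h))).sum) =
        fun o => (pl (D.pt o)).v (D.al T.y) • D.lam e o (D.al T.g / D.al T.h) +
          (l.map (fun T : D.X.Trip =>
            (pl (D.pt o)).v (D.al T.y) • D.lam e o (D.al T.g / D.al T.h))).sum := by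
      funext o
      rw [List.map_cons, List.sum_cons]
    rw [h4]
    constructor
    · rw [finsum_add_distrib h3 h2, ← h1, ← D.trip_val e hC hT T]
      rfl
    · exact (h3.union h2).subset (Function.support_add _ _)

/-- The relation coming from an element of `K₂` of the function field. -/
theorem closed_k2 (hC : D.GC C) (hT : TwI e) (l : List D.X.Trip) (n : ℕ)
    (w : Pool.Agent.MK.K2 D.X.K)
    (hw : n • (l.map Pool.Agent.MSX.Dat.Trip.fam).sum = D.X.tmK w) :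
    (2 * n : ℤ) • D.rho l e = 0 := by
  obtain ⟨f, hfK, hf0, hfv, hfA, hfin, hsum⟩ := D.k2_rep e w
  obtain ⟨hr, hs⟩ := D.rho_sum e hC hT l
  have key : ∀ o : D.Or, (2 * n : ℤ) • (l.map (fun T : D.X.Trip =>
      (pl (D.pt o)).v (D.al T.y) • D.lam e o (D.al T.g / D.al T.h))).sum =
      (2 : ℤ) • D.lam e o (f o) := by
    intro o
    obtain ⟨x, hx, x0, hv, hA, hl⟩ := D.list_loc e l o
    have h1 : (pl (D.pt o)).A (x ^ (2 * n : ℤ)) = (pl (D.pt o)).A (f o ^ (2 : ℤ)) := by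
      rw [(pl (D.pt o)).A_zpow _ _ x0, (pl (D.pt o)).A_zpow _ _ (hf0 o), ← hfA o, ← hw, hA,
        Pi.smul_apply, mul_smul, natCast_zsmul]
    have h2 := D.loc_eq e hC hT o (zpow_mem hx (2 * n : ℤ)) (zpow_mem (hfK o) (2 : ℤ))
      (zpow_ne_zero _ x0) (zpow_ne_zero _ (hf0 o))
      (by rw [(pl (D.pt o)).v_zpow _ _ x0, hv, mul_zero])
      (by rw [(pl (D.pt o)).v_zpow _ _ (hf0 o), hfv o, mul_zero]) h1
    rw [D.lam_zpow e o x0, D.lam_zpow e o (hf0 o), hl] at h2
    exact h2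
  have hs' : (Function.support fun o => D.lam e o (f o)).Finite := by
    refine hfin.subset fun o ho h => ho ?_
    show D.lam e o (f o) = 0
    rw [h, D.lam_one]
  rw [hr, smul_finsum' _ hs, finsum_congr key, ← smul_finsum' _ hs', hsum, smul_zero]

end Dat

end MSA
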