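import Mathlib
import Pool.Agent.MSA.CA
import Pool.Agent.MSA.Rh5
import Pool.Agent.MSA.Mn1

/-!
# The main theorem with the properties of the Adams operation as hypotheses (part CLO)
-/

set_option autoImplicit false
set_option linter.unusedSectionVars false

noncomputable section

namespace MSA

universe u v w v'

namespace Dat

variable (D : Dat.{u})

theorem gcA : D.GC (D.cA 2) where
  ci := fun hy hg y0 g0 h => D.isA_CI hy hg y0 g0 h
  tw := fun n _ _ _ hM => D.isA_tw hM n

/-- `rho` as a finite sum over a family of modules -/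
theorem rho_fam (l : List D.X.Trip) {B : Type v} [AddCommGroup B] (e : Adf (D.cA 2) B) :
    D.rho l e = ∑ i : Bool × Fin l.length, (bif i.1 then (1 : ℤ) else -1) •
      e.e (D.CI (l.get i.2).y (bif i.1 then (l.get i.2).g else (l.get i.2).h)) := by
  rw [Fintype.sum_prod_type, Fintype.sum_bool, ← Finset.sum_add_distrib]
  simp only [cond_true, cond_false, one_smul, neg_smul]
  have h1 : ∀ f : D.X.Trip → B, (l.map f).sum = ∑ i : Fin l.length, f (l.get i) := by
    intro f
    induction l with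
    | nil => simp
    | cons T l ih =>
      rw [List.map_cons, List.sum_cons, ih]
      exact (Fin.sum_univ_succ (fun i : Fin (T :: l).length => f ((T :: l).get i))).symm
  unfold rho
  rw [h1]
  refine Finset.sum_congr rfl fun i _ => ?_
  rw [sub_eq_add_neg]

theorem rho_hf (l : List D.X.Trip) : D.rho l D.hfF = 0 := by
  unfold rho
  refine List.sum_eq_zero fun x hx => ?_
  obtain ⟨T, -, rfl⟩ := List.mem_map.1 hx
  rw [sub_eq_zero]
  funext k
  exact congrArg (Nat.cast : ℕ → ℤ) (D.hf_CI T.hy T.hg T.hh T.y0 T.g0 T.h0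
    (D.rp_of_pt T.hy.1 T.y0 T.cg) (D.rp_of_pt T.hy.1 T.y0 T.ch) k)

/-- The main theorem, hypotheses made explicit. -/
theorem main_closed {k : ℕ} (hp : 2 < D.p)
    (psi : ∀ {B : Type v} [AddCommGroup B], Adf (D.cA 2) B → Adf (D.cA 2) B)
    (hci : ∀ {B : Type v} [AddCommGroup B] (e : Adf (D.cA 2) B) (m n : ℕ) (y g : D.S),
      D.Iv m y → D.Iv n g → y ≠ 0 → g ≠ 0 → IsRelPrime y g →
      (psi e).e (D.CI y g) = ∑ a : Fin k, ∑ b : Fin k,
        e.e (D.T ((m * a.val + n * b.val : ℕ) : ℤ) (D.CI y g)))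
    (hwei : ∀ {B : Type v} [AddCommGroup B] (e : Adf (D.cA 2) B) (j : ℕ), 3 ≤ j → j < D.p →
      e.Van (D.cA (j + 1)) → ∀ (M : Type u) [AddCommGroup M] [Module D.R M], D.IsA M j →
      (psi e).e M = (k : ℤ) ^ j • e.e M)
    (hfl : ∀ {B : Type v} [AddCommGroup B] (e : Adf (D.cA 2) B) (M M' : Type u)
      [AddCommGroup M] [Module D.R M] [AddCommGroup M'] [Module D.R M'], D.IsA M D.p →
      D.IsA M' D.p → (∀ n, D.hf M n = D.hf M' n) → e.e M = e.e M')
    (l : List D.X.Trip)
    (hcl : ∀ {B : Type v} [AddCommGroup B] (e : Adf (D.cA 2) B), e.Van (D.cA 3) → D.rho l e = 0)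
    {B : Type v} [AddCommGroup B] (e : Adf (D.cA 2) B) :
    (∏ j ∈ Finset.Ico 3 D.p, ((k : ℤ) ^ 2 - (k : ℤ) ^ j)) • D.rho l e = 0 := by
  refine D.fin_step (Cp := D.cA D.p) (fun M _ _ hM => D.isA_mono hM hp.le) e D.hfF l _ ?_
    (D.rho_hf l) ?_
  · intro K e' he'
    exact abs_ind D.cA D.p k (fun e => D.rho l e) (D.rho_li l) psi
      (fun e => D.rho_psi D.gcA e (psi e) k (hci e) l)
      (fun j h3 hj e he M _ _ hM => hwei e j h3 hj he M hM)
      (fun e he => hcl e he) D.p hp le_rfl e' he'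
  · intro M M' _ _ _ _ hM hM' h
    exact hfl e M M' hM hM' fun n => by
      have := congrFun h n
      exact Nat.cast_injective (R := ℤ) this

end Dat

end MSA
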