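import Mathlib
import Pool.Agent.MSA.Lq

/-!
# Torsion-freeness of the second subquotient

PROOFS. `list_comb`: `((l i).map f).sum = ∑ q ∈ s, (l i).count q • f q` for a finite set `s` that contains
the elements of all `l i` (`Finset.sum_list_map_count` and `Finset.sum_subset`), exchange the sums.
`torfree`: let `l i` be the list of `devissage` (universe `v`) for `M i`, `c = 2`.  For a prime object `q`
apply its last statement to `(D.lqA hq).push` with values in `ULift.{v} ℤ` (`lq_van`):
`lq (M i) = ((l i).count q) * lq (Cy q)` (`lq_other` kills the other terms).  The hypothesis for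
`e' = D.lqA hq` gives `n * (∑ a_i count_q (l i)) * lq (Cy q) = 0`, so `∑ a_i count_q (l i) = 0`
(`lq_self`).  Then the last statement of `devissage` for `e` and `list_comb`.
-/

set_option autoImplicit false
set_option linter.unusedSectionVars false

noncomputable section

namespace MSA

universe u v w w'

/-- Push an additive function forward along a homomorphism. -/
def Adf.push {R : Type w} [Ring R] {C : Cls.{u} R} {A : Type v} [AddCommGroup A] {A' : Type w'}
    [AddCommGroup A'] (e : Adf C A) (f : A →+ A') : Adf C A' where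
  e := fun M _ _ => f (e.e M)
  iso := fun g h => congrArg f (e.iso g h)
  add := fun N h => by rw [e.add N h, map_add]

open Classical in
theorem list_comb {ι : Type*} {α : Type*} {B : Type*} [Fintype ι] [AddCommGroup B]
    (l : ι → List α) (a : ι → ℤ)
    (h : ∀ q, (∃ i, q ∈ l i) → ∑ i, a i * ((l i).count q : ℤ) = 0) (f : α → B) :
    ∑ i, a i • ((l i).map f).sum = 0 := by
  let s : Finset α := Finset.univ.biUnion fun i => (l i).toFinset
  have h1 : ∀ i, ((l i).map f).sum = ∑ q ∈ s, (l i).count q • f q := by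
    intro i
    rw [Finset.sum_list_map_count]
    refine Finset.sum_subset ?_ ?_
    · intro q hq
      exact Finset.mem_biUnion.2 ⟨i, Finset.mem_univ i, hq⟩
    · intro q _ hq
      rw [List.count_eq_zero.2 fun hc => hq (List.mem_toFinset.2 hc), zero_smul]
  calc ∑ i, a i • ((l i).map f).sum
      = ∑ i, ∑ q ∈ s, (a i * ((l i).count q : ℤ)) • f q := by
        refine Finset.sum_congr rfl fun i _ => ?_
        rw [h1, Finset.smul_sum]
        refine Finset.sum_congr rfl fun q _ => ?_
        rw [mul_smul, natCast_zsmul]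
    _ = ∑ q ∈ s, (∑ i, a i * ((l i).count q : ℤ)) • f q := by
        rw [Finset.sum_comm]
        exact Finset.sum_congr rfl fun q _ => (Finset.sum_smul).symm
    _ = 0 := by
        refine Finset.sum_eq_zero fun q hq => ?_
        obtain ⟨i, _, hi⟩ := Finset.mem_biUnion.1 hq
        rw [h q ⟨i, List.mem_toFinset.1 hi⟩, zero_smul]

namespace Dat

variable (D : Dat.{u})

theorem torfree (hp : 2 < D.p) {ι : Type w} [Fintype ι] (M : ι → Type u)
    [∀ i, AddCommGroup (M i)] [∀ i, Module D.R (M i)] (hM : ∀ i, D.IsA (M i) 2) (a : ι → ℤ)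
    (n : ℤ) (hn : n ≠ 0)
    (h : ∀ e' : Adf (D.cA 2) ℤ, (∀ (N : Type u) [AddCommGroup N] [Module D.R N],
      D.IsA N 3 → e'.e N = 0) → n * ∑ i, a i * e'.e (M i) = 0)
    {B : Type v} [AddCommGroup B] (e : Adf (D.cA 2) B)
    (he : ∀ (N : Type u) [AddCommGroup N] [Module D.R N], D.IsA N 3 → e.e N = 0) :
    ∑ i, a i • e.e (M i) = 0 := by
  classical
  choose l hl1 hl2 hl3 hl4 using fun i => devissage.{u, v} D (le_refl 2) hp (hM i)
  have h1 : ∀ i, e.e (M i) = ((l i).map fun q => e.e (D.Cy q)).sum := fun i => hl4 i B e he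
  simp only [h1]
  refine list_comb l a ?_ _
  rintro q ⟨i₀, hi₀⟩
  have hq : D.IsQ 2 q := hl1 i₀ q hi₀
  have hv : ∀ (N : Type u) [AddCommGroup N] [Module D.R N], D.IsA N 3 → (D.lqA hq).e N = 0 :=
    fun N _ _ hN => D.lq_van hq hN
  let up : ℤ →+ ULift.{v} ℤ := (AddEquiv.ulift (α := ℤ)).symm.toAddMonoidHom
  have hup : ∀ x : ℤ, (up x).down = x := fun x => rfl
  have h2 : ∀ i, D.lq (M i) hq = ((l i).count q : ℤ) * D.lq (D.Cy q) hq := by
    intro i
    have h3 := hl4 i (ULift.{v} ℤ) ((D.lqA hq).push up) (fun N _ _ hN => by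
      show up ((D.lqA hq).e N) = 0
      rw [hv N hN, map_zero])
    have h4 : ((l i).map fun q' => ((D.lqA hq).push up).e (D.Cy q')).sum =
        (l i).count q • ((D.lqA hq).push up).e (D.Cy q) := by
      refine List.sum_map_eq_nsmul_single q _ fun q' hne hq' => ?_
      show up (D.lq (D.Cy q') hq) = 0
      rw [D.lq_other hp hq (hl1 i q' hq') (Ne.symm hne), map_zero]
    rw [h4] at h3
    have h5 : up (D.lq (M i) hq) = up (((l i).count q : ℤ) * D.lq (D.Cy q) hq) := by
      refine h3.trans ?_
      show (l i).count q • up (D.lq (D.Cy q) hq) = _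
      rw [← map_nsmul, nsmul_eq_mul]
    have h6 := congrArg ULift.down h5
    rwa [hup, hup] at h6
  have h7 := h (D.lqA hq) hv
  have h8 : ∑ i, a i * (D.lqA hq).e (M i) =
      (∑ i, a i * ((l i).count q : ℤ)) * D.lq (D.Cy q) hq := by
    rw [Finset.sum_mul]
    refine Finset.sum_congr rfl fun i _ => ?_
    show a i * D.lq (M i) hq = _
    rw [h2, mul_assoc]
  rw [h8] at h7
  rcases mul_eq_zero.1 h7 with h9 | h9
  · exact absurd h9 hn
  · rcases mul_eq_zero.1 h9 with h10 | h10
    · exact h10
    · exact absurd h10 (D.lq_self hq)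

end Dat

end MSA
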