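import Mathlib
import Pool.Agent.MSA.Dv

/-!
# Twist invariance of additive functions on subquotients

PROOFS. `etw_iso`: `tw_iso`.  `etw_add`: `adf_ses` for the twist of `0 → N → M → M ⧸ N → 0`
(`twM_inj`, `twM_surj`, `twM_exact`), `D.T n M` is in `cA 2` by `isA_tw`.
`tw_van`: `D.etw n e` is additive on `cA 2` and vanishes on `cA (c+1)` (`isA_tw`).  Let `l` be the list of
`devissage` for `M`; `e (D.T n M) = ∑ e (D.T n (Cy q)) = ∑ e (Cy q) = e M` (`e_tw`).
-/

set_option autoImplicit false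
set_option linter.unusedSectionVars false

noncomputable section

namespace MSA

universe u v w

namespace Dat

variable (D : Dat.{u}) {B : Type v} [AddCommGroup B]

theorem etw_iso (n : ℤ) (e : Adf (D.cA 2) B) {M N : Type u} [AddCommGroup M] [Module D.R M]
    [AddCommGroup N] [Module D.R N] (f : M ≃ₗ[D.R] N) (h : D.IsA M 2) :
    e.e (D.T n M) = e.e (D.T n N) := by
  obtain ⟨g⟩ := D.tw_iso n f
  exact e.iso g (D.isA_tw h n)

theorem etw_add (n : ℤ) (e : Adf (D.cA 2) B) {M : Type u} [AddCommGroup M] [Module D.R M]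
    (N : Submodule D.R M) (h : D.IsA M 2) :
    e.e (D.T n M) = e.e (D.T n N) + e.e (D.T n (M ⧸ N)) := by
  refine adf_ses e (D.isA_tw h n) (D.twM n N.subtype) (D.twM n N.mkQ)
    (D.twM_inj n N.injective_subtype) (D.twM_surj n N.mkQ_surjective) (D.twM_exact n fun m => ?_)
  rw [Submodule.mkQ_apply, Submodule.Quotient.mk_eq_zero]
  constructor
  · intro hm
    exact ⟨⟨m, hm⟩, rfl⟩
  · rintro ⟨k, rfl⟩
    exact k.2

/-- The additive function `M ↦ e (M(-pn))`. -/
def etw (n : ℤ) (e : Adf (D.cA 2) B) : Adf (D.cA 2) B where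
  e := fun M _ _ => e.e (D.T n M)
  iso := fun f h => D.etw_iso n e f h
  add := fun N h => D.etw_add n e N h

theorem tw_van {c : ℕ} (hc2 : 2 ≤ c) (hc : c < D.p) (e : Adf (D.cA 2) B)
    (he : ∀ (N : Type u) [AddCommGroup N] [Module D.R N], D.IsA N (c + 1) → e.e N = 0)
    {M : Type u} [AddCommGroup M] [Module D.R M] (hM : D.IsA M c) (n : ℤ) :
    e.e (D.T n M) = e.e M := by
  obtain ⟨l, hl, -, -, he'⟩ := D.devissage.{u, v} hc2 hc hM
  have h1 := he' B e he
  have h2 : e.e (D.T n M) = (l.map fun q => e.e (D.T n (D.Cy q))).sum :=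
    he' B (D.etw n e) (fun N _ _ hN => he (D.T n N) (D.isA_tw hN n))
  rw [h1, h2]
  congr 1
  exact List.map_congr_left fun q hq => D.e_tw hc2 hc (hl q hq) e he n

end Dat

end MSA
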