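import Mathlib
import Pool.Agent.MSA.Wt
import Pool.Agent.MSA.ChA

/-!
# The class of modules over `R` with finite dimensional weight spaces (auxiliary to MSA/PwCl)
-/

set_option autoImplicit false
set_option linter.unusedSectionVars false

noncomputable section

namespace MSA

universe u v w

namespace PwClX

variable (D : Dat.{u})

/-- the structure of an `L`-vector space -/
abbrev mL (M : Type u) [AddCommGroup M] [Module D.R M] : Module D.L M :=
  Module.compHom M ((iot D.ph).comp (MvPolynomial.C : D.L →+* D.S))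

attribute [local instance] mL

variable {D}
variable {M N : Type u} [AddCommGroup M] [Module D.R M] [AddCommGroup N] [Module D.R N]

/-- the map induced on the weight spaces -/
def wm (q : M →ₗ[D.R] N) (n : ℤ) : D.wtL M n →ₗ[D.L] D.wtL N n where
  toFun x := ⟨q x.1, wt_map q x.2⟩
  map_add' x y := Subtype.ext (map_add q x.1 y.1)
  map_smul' l x := Subtype.ext (map_smul q (iot D.ph (MvPolynomial.C l)) x.1)

theorem wm_inj (q : M →ₗ[D.R] N) (hq : Function.Injective q) (n : ℤ) :
    Function.Injective (wm q n) := fun _ _ h => Subtype.ext (hq (congrArg Subtype.val h))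

theorem wm_surj (hM : Wts D.F D.ph M D.p D.b) (q : M →ₗ[D.R] N) (hq : Function.Surjective q)
    (n : ℤ) : Function.Surjective (wm q n) := by
  intro y
  obtain ⟨m, hm, hmy⟩ := wt_lift hM q hq y.2
  exact ⟨⟨m, hm⟩, Subtype.ext hmy⟩

theorem iw_inj (q : M →ₗ[D.R] N) (hq : Function.Injective q) (h : D.IsW N) : D.IsW M := by
  refine ⟨wts_iso (LinearEquiv.ofInjective q hq).symm (wts_sub h.wts (LinearMap.range q)), ?_, ?_⟩
  · intro n
    have h1 : Module.Finite D.L (D.wtL N n) := h.fd n
    have h2 : Module.Finite D.L (D.wtL M n) := Module.Finite.of_injective (wm q n) (wm_inj q hq n)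
    exact h2
  · obtain ⟨n₀, hn₀⟩ := h.bd
    refine ⟨n₀, fun n hn => ?_⟩
    rw [eq_bot_iff]
    intro x hx
    have h1 : q x ∈ wt D.F D.ph N n := wt_map q hx
    rw [hn₀ n hn, AddSubgroup.mem_bot] at h1
    rw [AddSubgroup.mem_bot]
    exact hq (by rw [h1, map_zero])

theorem iw_surj (q : M →ₗ[D.R] N) (hq : Function.Surjective q) (h : D.IsW M) : D.IsW N := by
  refine ⟨wts_iso (q.quotKerEquivOfSurjective hq) (wts_quo h.wts (LinearMap.ker q)), ?_, ?_⟩
  · intro n
    have h1 : Module.Finite D.L (D.wtL M n) := h.fd n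
    have h2 : Module.Finite D.L (D.wtL N n) :=
      Module.Finite.of_surjective (wm q n) (wm_surj h.wts q hq n)
    exact h2
  · obtain ⟨n₀, hn₀⟩ := h.bd
    refine ⟨n₀, fun n hn => ?_⟩
    rw [eq_bot_iff]
    intro x hx
    obtain ⟨m, hm, rfl⟩ := wt_lift h.wts q hq hx
    rw [hn₀ n hn, AddSubgroup.mem_bot] at hm
    rw [AddSubgroup.mem_bot, hm, map_zero]

theorem iw_zero [Subsingleton M] : D.IsW M := by
  refine ⟨wts_zero, ?_, ?_⟩
  · intro n
    have h2 : Module.Finite D.L (D.wtL M n) := Module.Finite.of_finite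
    exact h2
  · refine ⟨0, fun n _ => ?_⟩
    rw [eq_bot_iff]
    intro x _
    rw [Subsingleton.elim x 0]
    exact AddSubgroup.zero_mem _

theorem iw_prod (h : D.IsW M) (h' : D.IsW N) : D.IsW (M × N) := by
  refine ⟨wts_prod h.wts h'.wts, ?_, ?_⟩
  · intro n
    have h1 : Module.Finite D.L (D.wtL M n) := h.fd n
    have h2 : Module.Finite D.L (D.wtL N n) := h'.fd n
    have h3 : Module.Finite D.L (D.wtL (M × N) n) :=
      Module.Finite.of_injective ((wm (LinearMap.fst D.R M N) n).prod
        (wm (LinearMap.snd D.R M N) n)) (by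
        intro x y hxy
        have h4 := congrArg Prod.fst hxy
        have h5 := congrArg Prod.snd hxy
        exact Subtype.ext (Prod.ext (congrArg Subtype.val h4) (congrArg Subtype.val h5)))
    exact h3
  · obtain ⟨n₀, hn₀⟩ := h.bd
    obtain ⟨n₁, hn₁⟩ := h'.bd
    refine ⟨min n₀ n₁, fun n hn => ?_⟩
    rw [eq_bot_iff]
    intro x hx
    have h1 : x.1 ∈ wt D.F D.ph M n := wt_map (LinearMap.fst D.R M N) hx
    have h2 : x.2 ∈ wt D.F D.ph N n := wt_map (LinearMap.snd D.R M N) hx
    rw [hn₀ n (lt_of_lt_of_le hn (min_le_left _ _)), AddSubgroup.mem_bot] at h1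
    rw [hn₁ n (lt_of_lt_of_le hn (min_le_right _ _)), AddSubgroup.mem_bot] at h2
    rw [AddSubgroup.mem_bot]
    exact Prod.ext h1 h2

variable (D) in
/-- the class of graded modules with finite dimensional weight spaces -/
def clW : Cls.{u} D.R where
  P := fun M _ _ => D.IsW M
  iso := fun f h => iw_surj (f : _ →ₗ[D.R] _) f.surjective h
  zero := fun M _ _ _ => iw_zero
  sub := fun N h => iw_inj N.subtype N.subtype_injective h
  quo := fun N h => iw_surj N.mkQ N.mkQ_surjective h
  prod := fun h h' => iw_prod h h'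

theorem hf_eq (n : ℤ) : D.hf M n = Module.finrank D.L (D.wtL M n) := rfl

theorem hf_is (n : ℤ) (f : M ≃ₗ[D.R] N) (h : D.IsW M) : D.hf M n = D.hf N n := by
  rw [hf_eq, hf_eq]
  exact LinearEquiv.finrank_eq (LinearEquiv.ofBijective (wm (f : M →ₗ[D.R] N) n)
    ⟨wm_inj _ f.injective n, wm_surj h.wts _ f.surjective n⟩)

theorem hf_ad (n : ℤ) (N : Submodule D.R M) (h : D.IsW M) :
    D.hf M n = D.hf N n + D.hf (M ⧸ N) n := by
  rw [hf_eq, hf_eq, hf_eq]
  have h1 : Module.Finite D.L (D.wtL M n) := h.fd n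
  have h2 := LinearMap.finrank_range_add_finrank_ker (wm N.mkQ n)
  rw [LinearMap.range_eq_top.2 (wm_surj h.wts N.mkQ N.mkQ_surjective n), finrank_top] at h2
  have h3 : LinearMap.ker (wm N.mkQ n) = LinearMap.range (wm N.subtype n) := by
    ext x
    constructor
    · intro hx
      have h4 : N.mkQ x.1 = 0 := congrArg Subtype.val hx
      rw [Submodule.mkQ_apply, Submodule.Quotient.mk_eq_zero] at h4
      exact ⟨⟨⟨x.1, h4⟩, fun c => Subtype.ext (x.2 c)⟩, rfl⟩
    · rintro ⟨y, rfl⟩
      refine Subtype.ext ?_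
      show N.mkQ y.1.1 = 0
      rw [Submodule.mkQ_apply, Submodule.Quotient.mk_eq_zero]
      exact y.1.2
  rw [h3, LinearMap.finrank_range_of_inj (wm_inj _ N.subtype_injective n)] at h2
  omega

variable (D) in
/-- the Hilbert function as an additive function -/
def hfA (n : ℤ) : Adf (clW D) ℤ where
  e := fun M _ _ => (D.hf M n : ℤ)
  iso := fun f h => congrArg Nat.cast (hf_is n f h)
  add := fun N h => by rw [hf_ad n N h, Nat.cast_add]

end PwClX

end MSA
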