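import Mathlib
import Pool.Agent.MSA.PwEu
import Pool.Agent.MSA.CK
import Pool.Agent.MSA.PwClX

/-!
# The class of good modules over `R_k` with finite dimensional weight spaces

PROOFS. As in MSA/CK (`ck_*`, `dl_iso`, `dl_add`): for a submodule `N` of `H` the module `A.Eg j N` is isomorphic to a
submodule of `A.Eg j H` (`egm_inj`), `A.Eg j H → A.Eg j (H ⧸ N)` is surjective (`egm_surj`), product: `A.Eg j (H × H')`
injects into `A.Eg j H × A.Eg j H'`; `Dat.isW_sub`, `isW_quo`, `isW_prod`, `isW_iso`, `isW_zero` of part NUM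
(MSA/Hf or MSA/CA) and `isK_*` (MSA/IsKA). `hfE_iso`: `egm` of an isomorphism is bijective, `Dat.hf_iso`. `hfE_add`: the
sequence `0 → Eg j N → Eg j H → Eg j (H ⧸ N) → 0` is exact (`egm_exact`), `Dat.hf_add`, `Dat.hf_iso` (or
`adf_ses` for the class of the modules with `IsW` and the additive function `hf`).
-/

set_option autoImplicit false
set_option linter.unusedSectionVars false

noncomputable section

namespace MSA

universe u v w

namespace Adm

variable {D : Dat.{u}} (A : Adm D)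

/-- good modules whose eigenspaces have finite dimensional weight spaces -/
structure InW (H : Type u) [AddCommGroup H] [Module A.R H] : Prop where
  k : A.IsK H
  w : ∀ j, D.IsW (A.Eg j H)

theorem cw_iso {M N : Type u} [AddCommGroup M] [Module A.R M] [AddCommGroup N]
    [Module A.R N] (f : M ≃ₗ[A.R] N) (h : A.InW M) : A.InW N := by
  refine ⟨A.isK_iso f h.k, ?_⟩
  intro j
  exact PwClX.iw_inj (A.egm j (f.symm : N →ₗ[A.R] M)) (A.egm_inj j _ f.symm.injective) (h.w j)

theorem cw_zero (M : Type u) [AddCommGroup M] [Module A.R M] [Subsingleton M] :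
    A.InW M := by
  refine ⟨A.isK_zero, ?_⟩
  intro j
  have : Subsingleton (A.Eg j M) := ⟨fun x y => A.egi_inj j (Subsingleton.elim _ _)⟩
  exact PwClX.iw_zero

theorem cw_sub {M : Type u} [AddCommGroup M] [Module A.R M]
    (N : Submodule A.R M) (h : A.InW M) : A.InW N := by
  refine ⟨A.isK_sub h.k N, ?_⟩
  intro j
  exact PwClX.iw_inj (A.egm j N.subtype) (A.egm_inj j _ N.subtype_injective) (h.w j)

theorem cw_quo {M : Type u} [AddCommGroup M] [Module A.R M]
    (N : Submodule A.R M) (h : A.InW M) : A.InW (M ⧸ N) := by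
  refine ⟨A.isK_quo h.k N, ?_⟩
  intro j
  exact PwClX.iw_surj (A.egm j N.mkQ) (A.egm_surj h.k j _ N.mkQ_surjective) (h.w j)

theorem cw_prod {M N : Type u} [AddCommGroup M] [Module A.R M] [AddCommGroup N]
    [Module A.R N] (h : A.InW M) (h' : A.InW N) : A.InW (M × N) := by
  refine ⟨A.isK_prod h.k h'.k, ?_⟩
  intro j
  refine PwClX.iw_inj ((A.egm j (LinearMap.fst A.R M N)).prod
    (A.egm j (LinearMap.snd A.R M N))) ?_ (PwClX.iw_prod (h.w j) (h'.w j))
  intro x y hxy
  have h1 : A.egm j (LinearMap.fst A.R M N) x = A.egm j (LinearMap.fst A.R M N) y :=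
    congrArg Prod.fst hxy
  have h2 : A.egm j (LinearMap.snd A.R M N) x = A.egm j (LinearMap.snd A.R M N) y :=
    congrArg Prod.snd hxy
  have h3 := congrArg (A.egi j) h1
  have h4 := congrArg (A.egi j) h2
  rw [A.egi_egm, A.egi_egm] at h3 h4
  exact A.egi_inj j (Prod.ext h3 h4)

/-- the class -/
def cW : Cls.{u} A.R where
  P := fun H _ _ => A.InW H
  iso := A.cw_iso
  zero := A.cw_zero
  sub := A.cw_sub
  quo := A.cw_quo
  prod := A.cw_prod

theorem hfE_iso (j : ZMod A.k) (n : ℤ) {M N : Type u}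
    [AddCommGroup M] [Module A.R M] [AddCommGroup N] [Module A.R N] (f : M ≃ₗ[A.R] N)
    (h : A.cW.P M) : (D.hf (A.Eg j M) n : ℤ) = (D.hf (A.Eg j N) n : ℤ) := by
  exact (PwClX.hfA D n).iso (LinearEquiv.ofBijective (A.egm j (f : M →ₗ[A.R] N))
    ⟨A.egm_inj j _ f.injective, A.egm_surj h.k j _ f.surjective⟩) (h.w j)

theorem hfE_add (j : ZMod A.k) (n : ℤ) {M : Type u}
    [AddCommGroup M] [Module A.R M] (N : Submodule A.R M) (h : A.cW.P M) :
    (D.hf (A.Eg j M) n : ℤ) = (D.hf (A.Eg j N) n : ℤ) + (D.hf (A.Eg j (M ⧸ N)) n : ℤ) := by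
  refine adf_ses (PwClX.hfA D n) (h.w j) (A.egm j N.subtype) (A.egm j N.mkQ)
    (A.egm_inj j _ N.subtype_injective) (A.egm_surj h.k j _ N.mkQ_surjective) ?_
  intro y
  refine A.egm_exact (A.isK_sub h.k N) j N.subtype N.mkQ N.subtype_injective ?_ y
  intro m
  rw [Submodule.mkQ_apply, Submodule.Quotient.mk_eq_zero]
  exact ⟨fun hm => ⟨⟨m, hm⟩, rfl⟩, fun ⟨x, hx⟩ => hx ▸ x.2⟩

/-- the additive function `H ↦ hf (Eg j H) n` -/
def hfE (j : ZMod A.k) (n : ℤ) : Adf A.cW ℤ where
  e := fun H _ _ => (D.hf (A.Eg j H) n : ℤ)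
  iso := A.hfE_iso j n
  add := A.hfE_add j n

end Adm

end MSA
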