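import Mathlib

/-!
# A polynomial identity

PROOF. For `s : ZMod k` put `c_s = ∑_(∑B = s) (-1)^|B| X^|B|` in `ℂ[X]`. Let `ω` be a primitive `k`-th root of unity
in `ℂ`. For `a : ZMod k`: `∑_s ω^(a s) c_s = ∑_B ∏_(x ∈ B) (- ω^(a x.2) X) = ∏_x (1 - ω^(a x.2) X)`
(`Finset.prod_add` / `Finset.prod_one_add`), which is `(∏_(j ≠ 0) (1 - ω^(a j) X))^p`. For `a ≠ 0` the map `j ↦ a j`
permutes the nonzero elements, so it is `(∏_(j ≠ 0) (1 - ω^j X))^p = (∑_(i<k) X^i)^p` (`∏_(all j) (1 - ω^j X) = 1 - X^k`,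
`IsPrimitiveRoot` / `X_pow_sub_one_eq_prod`, and cancel `1 - X`). Call this `G`; for `a = 0` call the value `G_0`.
Fourier inversion: `k c_s = ∑_a ω^(-a s) (∑_t ω^(a t) c_t) = G_0 + G ∑_(a ≠ 0) ω^(-a s)`, and
`∑_(a ≠ 0) ω^(-a s) = -1` for `s ≠ 0` and `k - 1` for `s = 0`. So `k (c_0 - c_1) = k G`. The statement over `ℤ`
follows because `ℤ[X] → ℂ[X]` is injective.
-/

set_option autoImplicit false

noncomputable section

namespace MSA

open Polynomial

private abbrev PwT (p k : ℕ) : Type := {x : Fin p × ZMod k // x.2 ≠ 0}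

private def pwc (p k : ℕ) [NeZero k] (s : ZMod k) : ℤ[X] :=
  ∑ B : Finset (PwT p k), if ∑ x ∈ B, x.1.2 = s then C ((-1) ^ B.card) * X ^ B.card else 0

private def pwe (p k : ℕ) [hk : Fact k.Prime] (a : ZMod k) (ha : a ≠ 0) : PwT p k ≃ PwT p k where
  toFun x := ⟨(x.1.1, a * x.1.2), mul_ne_zero ha x.2⟩
  invFun x := ⟨(x.1.1, a⁻¹ * x.1.2), mul_ne_zero (inv_ne_zero ha) x.2⟩
  left_inv x := by
    apply Subtype.ext
    apply Prod.ext
    · rfl
    · change a⁻¹ * (a * x.1.2) = x.1.2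
      rw [← mul_assoc, inv_mul_cancel₀ ha, one_mul]
  right_inv x := by
    apply Subtype.ext
    apply Prod.ext
    · rfl
    · change a * (a⁻¹ * x.1.2) = x.1.2
      rw [← mul_assoc, mul_inv_cancel₀ ha, one_mul]

private theorem pwc_mul (p k : ℕ) [hk : Fact k.Prime] (a : ZMod k) (ha : a ≠ 0) (s : ZMod k) :
    pwc p k (a * s) = pwc p k s := by
  unfold pwc
  symm
  refine Fintype.sum_equiv (Equiv.finsetCongr (pwe p k a ha)) _ _ fun B => ?_
  have h1 : ∑ x ∈ (Equiv.finsetCongr (pwe p k a ha)) B, x.1.2 = a * ∑ x ∈ B, x.1.2 := by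
    rw [Equiv.finsetCongr_apply, Finset.sum_map, Finset.mul_sum]
    rfl
  have h2 : ((Equiv.finsetCongr (pwe p k a ha)) B).card = B.card := by
    rw [Equiv.finsetCongr_apply, Finset.card_map]
  rw [h1, h2]
  by_cases h : ∑ x ∈ B, x.1.2 = s
  · rw [if_pos h, if_pos (by rw [h])]
  · rw [if_neg h, if_neg (fun h' => h (mul_left_cancel₀ ha h'))]

private theorem pwc_ne (p k : ℕ) [hk : Fact k.Prime] (s : ZMod k) (hs : s ≠ 0) :
    pwc p k s = pwc p k 1 := by
  have h := pwc_mul p k s hs 1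
  rw [mul_one] at h
  exact h

private theorem pw_roots (k : ℕ) [hk : Fact k.Prime] (y : ℂ) :
    ∏ j : ZMod k, (1 - ZMod.stdAddChar j * y) = 1 - y ^ k := by
  have hk0 : k ≠ 0 := hk.out.ne_zero
  have hp := Complex.isPrimitiveRoot_exp k hk0
  have h1 := hp.pow_sub_pow_eq_prod_sub_mul 1 y hk.out.pos
  have h2 : Finset.univ.image (fun j : ZMod k => ZMod.stdAddChar j) =
      nthRootsFinset k (1 : ℂ) := by
    apply Finset.eq_of_subset_of_card_le
    · intro z hz
      obtain ⟨j, -, rfl⟩ := Finset.mem_image.1 hz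
      rw [mem_nthRootsFinset hk.out.pos, ← AddChar.map_nsmul_eq_pow]
      simp
    · rw [hp.card_nthRootsFinset, Finset.card_image_of_injective _ ZMod.injective_stdAddChar]
      simp [ZMod.card]
  rw [one_pow] at h1
  rw [h1, ← h2, Finset.prod_image]
  intro a _ b _ hab
  exact ZMod.injective_stdAddChar hab

private theorem pw_geom (k : ℕ) [hk : Fact k.Prime] :
    ∏ j : ZMod k, (if j ≠ 0 then (1 - C (ZMod.stdAddChar j) * X : ℂ[X]) else 1) =
      ∑ i ∈ Finset.range k, X ^ i := by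
  have h1 : ∏ j : ZMod k, (1 - C (ZMod.stdAddChar j) * X : ℂ[X]) = 1 - X ^ k := by
    apply Polynomial.funext
    intro y
    rw [eval_prod]
    simp only [eval_sub, eval_one, eval_mul, eval_C, eval_X, eval_pow]
    exact pw_roots k y
  have h2 : (1 - X : ℂ[X]) * ∑ i ∈ Finset.range k, X ^ i = 1 - X ^ k := mul_neg_geom_sum X k
  have h3 : (1 - X : ℂ[X]) ≠ 0 := by
    intro h
    have h' := congrArg (eval 0) h
    simp at h'
  apply mul_left_cancel₀ h3
  rw [h2, ← h1, ← Finset.mul_prod_erase Finset.univ (fun j : ZMod k =>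
    (1 - C (ZMod.stdAddChar j) * X : ℂ[X])) (Finset.mem_univ 0)]
  congr 1
  · simp
  · rw [← Finset.mul_prod_erase Finset.univ (fun j : ZMod k =>
      (if j ≠ 0 then (1 - C (ZMod.stdAddChar j) * X : ℂ[X]) else 1)) (Finset.mem_univ 0)]
    rw [if_neg (by simp), one_mul]
    refine Finset.prod_congr rfl fun j hj => ?_
    rw [if_pos (Finset.ne_of_mem_erase hj)]

private theorem pw_prod (p k : ℕ) [hk : Fact k.Prime] :
    ∏ x : PwT p k, (1 + -(C (ZMod.stdAddChar x.1.2) * X : ℂ[X])) =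
      (∑ i ∈ Finset.range k, X ^ i) ^ p := by
  have h1 : ∏ x : PwT p k, (1 + -(C (ZMod.stdAddChar x.1.2) * X : ℂ[X])) =
      ∏ x ∈ (Finset.univ : Finset (Fin p × ZMod k)).filter (fun x => x.2 ≠ 0),
        (1 + -(C (ZMod.stdAddChar x.2) * X : ℂ[X])) := by
    symm
    exact Finset.prod_subtype _ (fun x => by simp) _
  rw [h1, Finset.prod_filter, ← Finset.univ_product_univ, Finset.prod_product]
  simp only
  rw [Finset.prod_const, Finset.card_univ, Fintype.card_fin, ← pw_geom k]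
  simp only [sub_eq_add_neg]

private theorem pw_charsum {k : ℕ} [NeZero k] {ι : Type} (B : Finset ι) (f : ι → ZMod k) :
    (ZMod.stdAddChar (∑ x ∈ B, f x) : ℂ) = ∏ x ∈ B, ZMod.stdAddChar (f x) := by
  classical
  induction B using Finset.induction_on with
  | empty => simp
  | insert a s ha ih => rw [Finset.sum_insert ha, Finset.prod_insert ha, AddChar.map_add_eq_mul, ih]

private theorem pw_sum (p k : ℕ) [hk : Fact k.Prime] :
    ∏ x : PwT p k, (1 + -(C (ZMod.stdAddChar x.1.2) * X : ℂ[X])) =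
      ∑ s : ZMod k, C (ZMod.stdAddChar s) * (pwc p k s).map (Int.castRingHom ℂ) := by
  have h1 : ∀ s : ZMod k, C (ZMod.stdAddChar s) * (pwc p k s).map (Int.castRingHom ℂ) =
      ∑ B : Finset (PwT p k), if ∑ x ∈ B, x.1.2 = s then
        (C (ZMod.stdAddChar s) * (C ((-1) ^ B.card) * X ^ B.card) : ℂ[X]) else 0 := by
    intro s
    unfold pwc
    rw [Polynomial.map_sum, Finset.mul_sum]
    refine Finset.sum_congr rfl fun B _ => ?_
    by_cases h : ∑ x ∈ B, x.1.2 = s
    · rw [if_pos h, if_pos h]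
      simp
    · rw [if_neg h, if_neg h]
      simp
  rw [Finset.sum_congr rfl fun s _ => h1 s, Finset.sum_comm, Finset.prod_one_add,
    Finset.powerset_univ]
  refine Finset.sum_congr rfl fun B _ => ?_
  rw [Finset.sum_ite_eq, if_pos (Finset.mem_univ _), pw_charsum, map_prod]
  rw [show (∏ x ∈ B, -(C (ZMod.stdAddChar x.1.2) * X : ℂ[X])) =
    ∏ x ∈ B, (C (ZMod.stdAddChar x.1.2) * (-X) : ℂ[X]) from
      Finset.prod_congr rfl fun x _ => by rw [mul_neg]]
  rw [Finset.prod_mul_distrib, Finset.prod_const, neg_pow]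
  simp

theorem pw_poly (p k : ℕ) [hk : Fact k.Prime] :
    (∑ B : Finset {x : Fin p × ZMod k // x.2 ≠ 0},
      (C ((-1) ^ B.card * ((if ∑ x ∈ B, x.1.2 = 0 then 1 else 0) -
        (if ∑ x ∈ B, x.1.2 = 1 then 1 else 0))) * X ^ B.card : ℤ[X])) =
      (∑ i ∈ Finset.range k, X ^ i) ^ p := by
  have h1 : (∑ B : Finset {x : Fin p × ZMod k // x.2 ≠ 0},
      (C ((-1) ^ B.card * ((if ∑ x ∈ B, x.1.2 = 0 then 1 else 0) -
        (if ∑ x ∈ B, x.1.2 = 1 then 1 else 0))) * X ^ B.card : ℤ[X])) =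
      pwc p k 0 - pwc p k 1 := by
    unfold pwc
    rw [← Finset.sum_sub_distrib]
    refine Finset.sum_congr rfl fun B _ => ?_
    by_cases h0 : ∑ x ∈ B, x.1.2 = 0
    · by_cases h1 : ∑ x ∈ B, x.1.2 = 1
      · rw [if_pos h0, if_pos h1, if_pos h0, if_pos h1]
        simp
      · rw [if_pos h0, if_neg h1, if_pos h0, if_neg h1]
        simp
    · by_cases h1 : ∑ x ∈ B, x.1.2 = 1
      · rw [if_neg h0, if_pos h1, if_neg h0, if_pos h1]
        simp
      · rw [if_neg h0, if_neg h1, if_neg h0, if_neg h1]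
        simp
  rw [h1]
  apply Polynomial.map_injective (Int.castRingHom ℂ) Int.cast_injective
  have h2 := (pw_sum p k).symm.trans (pw_prod p k)
  have hne : (ZMod.stdAddChar : AddChar (ZMod k) ℂ) ≠ 1 := by
    intro h
    have h3 := ZMod.injective_stdAddChar (N := k) (a₁ := 1) (a₂ := 0) (by rw [h]; simp)
    exact one_ne_zero h3
  have h4 : ∑ s : ZMod k, (ZMod.stdAddChar s : ℂ) = 0 := AddChar.sum_eq_zero_of_ne_one hne
  have h5 : ∑ s : ZMod k, C (ZMod.stdAddChar s) * (pwc p k s).map (Int.castRingHom ℂ) =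
      (pwc p k 0).map (Int.castRingHom ℂ) - (pwc p k 1).map (Int.castRingHom ℂ) := by
    have h6 : ∀ s : ZMod k, C (ZMod.stdAddChar s) * (pwc p k s).map (Int.castRingHom ℂ) =
        C (ZMod.stdAddChar s) * (pwc p k 1).map (Int.castRingHom ℂ) +
        if s = 0 then (pwc p k 0).map (Int.castRingHom ℂ) -
          (pwc p k 1).map (Int.castRingHom ℂ) else 0 := by
      intro s
      by_cases hs : s = 0
      · subst hs
        rw [if_pos rfl, AddChar.map_zero_eq_one, C_1]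
        ring
      · rw [if_neg hs, pwc_ne p k s hs, add_zero]
    rw [Finset.sum_congr rfl fun s _ => h6 s, Finset.sum_add_distrib, ← Finset.sum_mul,
      ← map_sum, h4, C_0, zero_mul, zero_add, Finset.sum_ite_eq', if_pos (Finset.mem_univ _)]
  rw [Polynomial.map_sub, ← h5, h2, Polynomial.map_pow, Polynomial.map_sum]
  simp

end MSA
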