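import Mathlib
import Pool.Agent.MSA.PwPoly

/-!
# The numerical part of the Adams operation

PROOFS. Let `T` be the shift operator on functions `ℤ → ℤ`, `(T f) n = f (n - 1)`, an element of
`Module.End ℤ (ℤ → ℤ)`; for `P : ℤ[X]`: `(aeval T P) f n = ∑_m P_m f (n - m)` (`aeval` of `C a * X^m`), and `aeval`
is multiplicative. `kapf p f = aeval T ((1 - X)^p) f` (binomial theorem). The function
`n ↦ ∑_B (-1)^|B| ([∑B = 0] - [∑B = 1]) h' (n - |B|)` is `aeval T (left side of pw_poly) h'`, so by `pw_poly`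
`kapf p` of it is `aeval T ((1 - X)^p (∑_(i<k) X^i)^p) h' = aeval T ((1 - X^k)^p) h'`
(`mul_geom_sum` / `geom_sum_mul`), whose value at `n` is `∑_j (-1)^j binom(p,j) h' (n - k j)`, with
`h' = dil k h`: if `k ∣ n` it is `kapf p h (n / k)`, otherwise `0`.
`dil_mom`: `finsum` over the multiples of `k` (`finsum_mem_range` for the injective map `m ↦ k m`,
`finsum_mem_eq_of...`; terms outside the range are zero), then `mul_finsum`-like: `(k m)^c = k^c m^c`
(if the support of `g n * n^c` is infinite both sides are `0`; `k ≠ 0`; use `smul_finsum` or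
`finsum_mul'`-free argument by cases).
-/

set_option autoImplicit false

noncomputable section

namespace MSA

open Polynomial

/-- `(1 - q)^p` applied to a function -/
def kapf (p : ℕ) (f : ℤ → ℤ) (n : ℤ) : ℤ :=
  ∑ j ∈ Finset.range (p + 1), (-1) ^ j * (p.choose j : ℤ) * f (n - j)

/-- `f(n/k)` for multiples of `k` and zero otherwise -/
def dil (k : ℕ) (f : ℤ → ℤ) (n : ℤ) : ℤ := if (k : ℤ) ∣ n then f (n / k) else 0

/-- the shift operator -/
private def pkT : Module.End ℤ (ℤ → ℤ) where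
  toFun f := fun n => f (n - 1)
  map_add' _ _ := rfl
  map_smul' _ _ := rfl

private theorem pkT_pow (m : ℕ) (f : ℤ → ℤ) (n : ℤ) : (pkT ^ m) f n = f (n - m) := by
  induction m generalizing n with
  | zero => simp
  | succ m ih =>
    rw [pow_succ', Module.End.mul_apply]
    change (pkT ^ m) f (n - 1) = _
    rw [ih]
    congr 1
    push_cast
    ring

private theorem pkT_mono (a : ℤ) (m : ℕ) (f : ℤ → ℤ) (n : ℤ) :
    (aeval pkT (C a * X ^ m : ℤ[X])) f n = a * f (n - m) := by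
  rw [map_mul, map_pow, aeval_X, aeval_C, Module.End.mul_apply, Module.algebraMap_end_apply]
  change a * ((pkT ^ m) f) n = _
  rw [pkT_pow]

private theorem pkT_sum {ι : Type} (s : Finset ι) (a : ι → ℤ) (m : ι → ℕ) (f : ℤ → ℤ) (n : ℤ) :
    (aeval pkT (∑ i ∈ s, (C (a i) * X ^ m i : ℤ[X]))) f n = ∑ i ∈ s, a i * f (n - m i) := by
  rw [map_sum, LinearMap.sum_apply, Finset.sum_apply]
  exact Finset.sum_congr rfl fun i _ => pkT_mono _ _ _ _

private theorem pk_binom (p k : ℕ) : ((1 - X ^ k) ^ p : ℤ[X]) =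
    ∑ j ∈ Finset.range (p + 1), C ((-1) ^ j * (p.choose j : ℤ)) * X ^ (k * j) := by
  rw [show (1 - X ^ k : ℤ[X]) = -X ^ k + 1 by ring, add_pow]
  refine Finset.sum_congr rfl fun j _ => ?_
  rw [one_pow, mul_one, neg_pow, ← pow_mul, C_mul, C_pow, C_neg, C_1]
  have h : (C (p.choose j : ℤ) : ℤ[X]) = ((p.choose j : ℕ) : ℤ[X]) := by simp
  rw [h]
  ring

private theorem pk_kapf (p : ℕ) (f : ℤ → ℤ) (n : ℤ) :
    kapf p f n = (aeval pkT ((1 - X) ^ p : ℤ[X])) f n := by
  have h := pk_binom p 1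
  rw [pow_one] at h
  rw [h, pkT_sum]
  unfold kapf
  refine Finset.sum_congr rfl fun j _ => ?_
  rw [one_mul]

theorem kapf_add (p : ℕ) (f g : ℤ → ℤ) (n : ℤ) :
    kapf p (fun m => f m + g m) n = kapf p f n + kapf p g n := by
  unfold kapf
  rw [← Finset.sum_add_distrib]
  exact Finset.sum_congr rfl fun j _ => mul_add _ _ _

theorem kapf_sub (p : ℕ) (f g : ℤ → ℤ) (n : ℤ) :
    kapf p (fun m => f m - g m) n = kapf p f n - kapf p g n := by
  unfold kapf
  rw [← Finset.sum_sub_distrib]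
  exact Finset.sum_congr rfl fun j _ => mul_sub _ _ _

theorem pw_kap (p k : ℕ) [hk : Fact k.Prime] (h : ℤ → ℤ) (n : ℤ) :
    kapf p (fun m => ∑ B : Finset {x : Fin p × ZMod k // x.2 ≠ 0},
      (-1) ^ B.card * (((if ∑ x ∈ B, x.1.2 = 0 then 1 else 0) -
        (if ∑ x ∈ B, x.1.2 = 1 then 1 else 0)) * dil k h (m - B.card))) n =
      dil k (kapf p h) n := by
  have hk0 : (k : ℤ) ≠ 0 := by exact_mod_cast hk.out.ne_zero
  have h1 : (fun m : ℤ => ∑ B : Finset {x : Fin p × ZMod k // x.2 ≠ 0},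
      (-1) ^ B.card * (((if ∑ x ∈ B, x.1.2 = 0 then 1 else 0) -
        (if ∑ x ∈ B, x.1.2 = 1 then 1 else 0)) * dil k h (m - B.card))) =
      (aeval pkT (∑ B : Finset {x : Fin p × ZMod k // x.2 ≠ 0},
      (C ((-1) ^ B.card * ((if ∑ x ∈ B, x.1.2 = 0 then 1 else 0) -
        (if ∑ x ∈ B, x.1.2 = 1 then 1 else 0))) * X ^ B.card : ℤ[X]))) (dil k h) := by
    funext m
    rw [pkT_sum]
    exact Finset.sum_congr rfl fun B _ => (mul_assoc _ _ _).symm
  rw [h1, pk_kapf, ← Module.End.mul_apply, ← map_mul, pw_poly, ← mul_pow, mul_neg_geom_sum,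
    pk_binom, pkT_sum]
  by_cases hn : (k : ℤ) ∣ n
  · obtain ⟨q, rfl⟩ := hn
    rw [dil, if_pos (dvd_mul_right _ _), Int.mul_ediv_cancel_left _ hk0]
    unfold kapf
    refine Finset.sum_congr rfl fun j _ => ?_
    have h2 : (k : ℤ) * q - ((k * j : ℕ) : ℤ) = k * (q - j) := by push_cast; ring
    rw [h2, dil, if_pos (dvd_mul_right _ _), Int.mul_ediv_cancel_left _ hk0]
  · rw [dil, if_neg hn]
    refine Finset.sum_eq_zero fun j _ => ?_
    have h2 : ¬ (k : ℤ) ∣ n - ((k * j : ℕ) : ℤ) := by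
      intro h3
      apply hn
      have h4 : (k : ℤ) ∣ ((k * j : ℕ) : ℤ) := by
        push_cast
        exact dvd_mul_right _ _
      have h5 := dvd_add h3 h4
      rwa [sub_add_cancel] at h5
    rw [dil, if_neg h2, mul_zero]

theorem dil_mom (k : ℕ) (hk : k ≠ 0) (g : ℤ → ℤ) (c : ℕ) :
    ∑ᶠ n : ℤ, dil k g n * n ^ c = (k : ℤ) ^ c * ∑ᶠ n : ℤ, g n * n ^ c := by
  classical
  have hk0 : (k : ℤ) ≠ 0 := by exact_mod_cast hk
  have hinj : Function.Injective (fun m : ℤ => (k : ℤ) * m) := fun a b hab =>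
    mul_left_cancel₀ hk0 hab
  have h1 : ∑ᶠ n : ℤ, dil k g n * n ^ c =
      ∑ᶠ n ∈ Set.range (fun m : ℤ => (k : ℤ) * m), dil k g n * n ^ c := by
    refine finsum_congr fun n => ?_
    by_cases hn : n ∈ Set.range (fun m : ℤ => (k : ℤ) * m)
    · rw [finsum_eq_if, if_pos hn]
    · rw [finsum_eq_if, if_neg hn]
      have h2 : ¬ (k : ℤ) ∣ n := by
        rintro ⟨q, rfl⟩
        exact hn ⟨q, rfl⟩
      rw [dil, if_neg h2, zero_mul]
  rw [h1, finsum_mem_range hinj, ← smul_eq_mul, smul_finsum]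
  refine finsum_congr fun m => ?_
  rw [dil, if_pos (dvd_mul_right _ _), Int.mul_ediv_cancel_left _ hk0, smul_eq_mul, mul_pow]
  ring

end MSA
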