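import Mathlib

/-!
# Words and their phase

Words `w : ZMod k → ι`, `k` prime, with the cyclic shift `w ↦ w (· + c)`.

PROOFS. `word_stab`: `w (l + c) = w l` for all `l` gives `w (l + m • c) = w l`, and every element of `ZMod k`
is a multiple of `c ≠ 0` (`l' = l + ((l' - l) * c⁻¹).val • c`, `ZMod k` is a field).
`word_phase`: the setoid `w ~ w'` iff there is `c` with `w' = w (· + c)`; `r w` = `Quotient.out` of the class of
`w`; choose `a w` with `w = (r w) (· + a w)` (`Quotient.mk_out`, symmetry). For `w' = w (· + c)`: `r w' = r w`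
and `r w (l + a w') = w' l = w (l + c) = r w (l + c + a w)`, so `r w` is invariant under the shift by
`a w' - (a w + c)`; if this is not `0` then `r w`, hence `w`, is constant by `word_stab`.
-/

set_option autoImplicit false

noncomputable section

namespace MSA

variable {k : ℕ} [hk : Fact k.Prime] {ι : Type*}

/-- constant words -/
def CstW (w : ZMod k → ι) : Prop := ∀ l l' : ZMod k, w l = w l'

theorem word_stab (w : ZMod k → ι) (c : ZMod k) (hc : c ≠ 0) (h : ∀ l, w (l + c) = w l) :
    CstW w := by
  have : NeZero k := ⟨hk.out.ne_zero⟩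
  have key : ∀ m : ℕ, ∀ l : ZMod k, w (l + m * c) = w l := by
    intro m
    induction m with
    | zero =>
      intro l
      rw [Nat.cast_zero, zero_mul, add_zero]
    | succ m ih =>
      intro l
      rw [Nat.cast_succ, add_mul, one_mul, ← add_assoc, h, ih]
  intro l l'
  have e : l + (((l' - l) * c⁻¹).val : ZMod k) * c = l' := by
    rw [ZMod.natCast_zmod_val, mul_assoc, inv_mul_cancel₀ hc, mul_one, add_sub_cancel]
  rw [← e, key]

/-- the setoid of words up to the cyclic shift -/
private def shS (k : ℕ) (ι : Type*) : Setoid (ZMod k → ι) where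
  r w w' := ∃ c : ZMod k, w' = fun l => w (l + c)
  iseqv :=
    { refl := fun w => ⟨0, by simp only [add_zero]⟩
      symm := by
        rintro w w' ⟨c, rfl⟩
        refine ⟨-c, ?_⟩
        funext l
        change w l = w (l + -c + c)
        rw [neg_add_cancel_right]
      trans := by
        rintro w w' w'' ⟨c, rfl⟩ ⟨d, rfl⟩
        refine ⟨d + c, ?_⟩
        funext l
        change w (l + d + c) = w (l + (d + c))
        rw [add_assoc] }

/-- the phase of a nonconstant word -/
theorem word_phase : ∃ ph : (ZMod k → ι) → ZMod k, ∀ w : ZMod k → ι, ¬ CstW w →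
    ∀ c : ZMod k, ph (fun l => w (l + c)) = ph w + c := by
  obtain ⟨r, hr⟩ : ∃ r : (ZMod k → ι) → (ZMod k → ι),
      r = fun w => (Quotient.mk (shS k ι) w).out := ⟨_, rfl⟩
  have h1 : ∀ w : ZMod k → ι, ∃ a : ZMod k, w = fun l => r w (l + a) := by
    intro w
    rw [hr]
    exact Quotient.exact (s := shS k ι) (Quotient.out_eq (Quotient.mk (shS k ι) w))
  have h2 : ∀ (w : ZMod k → ι) (c : ZMod k), r (fun l => w (l + c)) = r w := by
    intro w c
    have e : Quotient.mk (shS k ι) (fun l => w (l + c)) = Quotient.mk (shS k ι) w :=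
      (Quotient.sound (s := shS k ι) ⟨c, rfl⟩).symm
    rw [hr]
    exact congrArg (fun q => Quotient.out q) e
  choose a ha using h1
  refine ⟨a, fun w hw c => ?_⟩
  by_contra hne
  apply hw
  obtain ⟨w', hw'⟩ : ∃ w' : ZMod k → ι, w' = fun l => w (l + c) := ⟨_, rfl⟩
  rw [← hw'] at hne
  have h3 : r w' = r w := by
    rw [hw']
    exact h2 w c
  have h4 : ∀ l : ZMod k, r w (l + a w') = r w (l + c + a w) := by
    intro l
    have e1 : w' l = r w' (l + a w') := congrFun (ha w') l
    have e2 : w' l = w (l + c) := congrFun hw' l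
    have e3 : w (l + c) = r w (l + c + a w) := congrFun (ha w) (l + c)
    rw [← h3, ← e1, e2, e3, h3]
  have h5 : ∀ l : ZMod k, r w (l + (a w' - (a w + c))) = r w l := by
    intro l
    have h6 := h4 (l - (a w + c))
    have e1 : l - (a w + c) + a w' = l + (a w' - (a w + c)) := by ring
    have e2 : l - (a w + c) + c + a w = l := by ring
    rw [e1, e2] at h6
    exact h6
  have h7 := word_stab (r w) _ (sub_ne_zero.2 hne) h5
  intro l l'
  rw [congrFun (ha w) l, congrFun (ha w) l']
  exact h7 _ _

end MSA
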