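import Mathlib
import Pool.Agent.MSA.PwPh

/-!
# Eigenspaces of the shift on functions on words

PROOFS. `fxW_fin`: the restriction to `s` is an injective linear map into the functions on the finite set `s`.
`fxW_dim`: split `s = s' ∪ s''` (nonconstant and constant words; both are stable under the shift):
`fxW s c ≃ fxW s' c × fxW s'' c` (multiply by the indicator function of `s'` and of `s''`).
Constant words are fixed by the shift, so `f w = c * f w`: `fxW s'' c = 0` for `c = z^a ≠ 1` (`a ≠ 0`, `z`
primitive) and `fxW s'' 1` = all functions on `s''`, dimension the number of constant words in `s`.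
For nonconstant words let `ph` be the phase (`word_phase`), `u w = z ^ (ph w).val`; `u` has no zeros and
`u (w (· + 1)) = z * u w` for nonconstant `w` (`z ^ k = 1`), so multiplication by `u ^ a.val` is an isomorphism
`fxW s' 1 ≃ fxW s' (z ^ a.val)`. Hence `finrank (fxW s (z ^ a.val)) = d + (if a = 0 then number of constant words
else 0)` with `d` independent of `a`.
-/

set_option autoImplicit false

noncomputable section

namespace MSA

universe u v

variable {k : ℕ} [hk : Fact k.Prime] {ι : Type v} {L : Type u} [Field L]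

/-- functions on words supported in `s` with `f (w (· + 1)) = c * f w` -/
def fxW (s : Set (ZMod k → ι)) (c : L) : Submodule L ((ZMod k → ι) → L) where
  carrier := {f | (∀ w, w ∉ s → f w = 0) ∧ ∀ w, f (fun l => w (l + 1)) = c * f w}
  zero_mem' := ⟨fun _ _ => rfl, fun w => by
    show (0 : L) = c * 0
    rw [mul_zero]⟩
  add_mem' := fun {f g} hf hg => ⟨fun w hw => by
    show f w + g w = 0
    rw [hf.1 w hw, hg.1 w hw, add_zero], fun w => by
    show f _ + g _ = c * (f w + g w)
    rw [hf.2 w, hg.2 w, mul_add]⟩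
  smul_mem' := fun a f hf => ⟨fun w hw => by
    show a * f w = 0
    rw [hf.1 w hw, mul_zero], fun w => by
    show a * f _ = c * (a * f w)
    rw [hf.2 w, mul_left_comm]⟩

theorem fxW_fin (s : Set (ZMod k → ι)) (hs : s.Finite) (c : L) :
    Module.Finite L (fxW s c) := by
  have hf : Finite s := hs
  let T : fxW s c →ₗ[L] (s → L) :=
    { toFun := fun f w => f.1 w.1
      map_add' := fun _ _ => rfl
      map_smul' := fun _ _ => rfl }
  refine Module.Finite.of_injective T ?_
  intro f g h
  apply Subtype.ext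
  funext w
  by_cases hw : w ∈ s
  · exact congrFun h ⟨w, hw⟩
  · rw [f.2.1 w hw, g.2.1 w hw]

private theorem cst_sh {w : ZMod k → ι} (h : CstW w) : (fun l => w (l + 1)) = w := by
  funext l
  exact h _ _

private theorem cst_iff (w : ZMod k → ι) : CstW (fun l => w (l + 1)) ↔ CstW w := by
  constructor
  · intro h l l'
    have h1 := h (l - 1) (l' - 1)
    simpa using h1
  · intro h
    rw [cst_sh h]
    exact h

private theorem fxW_mono {s s' : Set (ZMod k → ι)} (h : s ⊆ s') (c : L) : fxW s c ≤ fxW s' c :=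
  fun _ hf => ⟨fun w hw => hf.1 w fun h' => hw (h h'), hf.2⟩

/-- multiplication by a function -/
private def mW (g : (ZMod k → ι) → L) {s s' : Set (ZMod k → ι)} {c c' : L}
    (h : ∀ f ∈ fxW s c, (fun w => g w * f w) ∈ fxW s' c') : fxW s c →ₗ[L] fxW s' c' where
  toFun f := ⟨fun w => g w * f.1 w, h f.1 f.2⟩
  map_add' f f' := by
    apply Subtype.ext
    funext w
    exact mul_add _ _ _
  map_smul' a f := by
    apply Subtype.ext
    funext w
    exact mul_left_comm _ _ _

private theorem mW_inj (g : (ZMod k → ι) → L) (hg : ∀ w, g w ≠ 0) {s s' : Set (ZMod k → ι)}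
    {c c' : L} (h : ∀ f ∈ fxW s c, (fun w => g w * f w) ∈ fxW s' c') :
    Function.Injective (mW g h) := by
  intro f f' hff
  apply Subtype.ext
  funext w
  have h1 := congrArg (fun F : fxW s' c' => F.1 w) hff
  exact mul_left_cancel₀ (hg w) h1

private theorem dim_split (s : Set (ZMod k → ι)) (hs : s.Finite) (c : L) :
    Module.finrank L (fxW s c) = Module.finrank L (fxW {w | w ∈ s ∧ ¬ CstW w} c) +
      Module.finrank L (fxW {w | w ∈ s ∧ CstW w} c) := by
  classical
  have h1 := fxW_fin {w | w ∈ s ∧ ¬ CstW w} (hs.subset fun w hw => hw.1) c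
  have h2 := fxW_fin {w | w ∈ s ∧ CstW w} (hs.subset fun w hw => hw.1) c
  have h3 := Submodule.finrank_sup_add_finrank_inf_eq (fxW {w | w ∈ s ∧ ¬ CstW w} c)
    (fxW {w | w ∈ s ∧ CstW w} c)
  have h4 : fxW {w | w ∈ s ∧ ¬ CstW w} c ⊓ fxW {w | w ∈ s ∧ CstW w} c = ⊥ := by
    rw [eq_bot_iff]
    intro f hf
    rw [Submodule.mem_bot]
    funext w
    by_cases hw : CstW w
    · exact hf.1.1 w fun h => h.2 hw
    · exact hf.2.1 w fun h => hw h.2
  have h5 : fxW {w | w ∈ s ∧ ¬ CstW w} c ⊔ fxW {w | w ∈ s ∧ CstW w} c = fxW s c := by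
    refine le_antisymm (sup_le (fxW_mono (fun w hw => hw.1) c) (fxW_mono (fun w hw => hw.1) c)) ?_
    intro f hf
    refine Submodule.mem_sup.2 ⟨fun w => if CstW w then 0 else f w, ⟨?_, ?_⟩,
      fun w => if CstW w then f w else 0, ⟨?_, ?_⟩, ?_⟩
    · intro w hw
      show (if CstW w then 0 else f w) = 0
      split_ifs with h
      · rfl
      · exact hf.1 w fun h' => hw ⟨h', h⟩
    · intro w
      show (if CstW (fun l => w (l + 1)) then 0 else f (fun l => w (l + 1))) =
        c * (if CstW w then 0 else f w)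
      by_cases h : CstW w
      · rw [if_pos h, if_pos ((cst_iff w).2 h), mul_zero]
      · rw [if_neg h, if_neg (fun h' => h ((cst_iff w).1 h')), hf.2 w]
    · intro w hw
      show (if CstW w then f w else 0) = 0
      split_ifs with h
      · exact hf.1 w fun h' => hw ⟨h', h⟩
      · rfl
    · intro w
      show (if CstW (fun l => w (l + 1)) then f (fun l => w (l + 1)) else 0) =
        c * (if CstW w then f w else 0)
      by_cases h : CstW w
      · rw [if_pos h, if_pos ((cst_iff w).2 h), hf.2 w]
      · rw [if_neg h, if_neg (fun h' => h ((cst_iff w).1 h')), mul_zero]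
    · funext w
      show (if CstW w then 0 else f w) + (if CstW w then f w else 0) = f w
      split_ifs
      · exact zero_add _
      · exact add_zero _
  rw [h4, h5, finrank_bot, add_zero] at h3
  exact h3

private theorem dim_non (z : L) (hz : IsPrimitiveRoot z k) (s : Set (ZMod k → ι)) (hs : s.Finite)
    (a : ZMod k) : Module.finrank L (fxW {w | w ∈ s ∧ ¬ CstW w} (z ^ a.val)) =
      Module.finrank L (fxW {w | w ∈ s ∧ ¬ CstW w} (1 : L)) := by
  have h1 := fun c : L => fxW_fin {w | w ∈ s ∧ ¬ CstW w} (hs.subset fun w hw => hw.1) c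
  obtain ⟨ph, hph⟩ := word_phase (k := k) (ι := ι)
  have hz0 : z ≠ 0 := hz.ne_zero hk.out.ne_zero
  have hu0 : ∀ w, z ^ (ph w).val ≠ 0 := fun w => pow_ne_zero _ hz0
  have hu : ∀ w : ZMod k → ι, ¬ CstW w → z ^ (ph (fun l => w (l + 1))).val = z * z ^ (ph w).val := by
    intro w hw
    rw [hph w hw 1, ← pow_succ', ZMod.val_add, ZMod.val_one_eq_one_mod]
    rw [← pow_mod_orderOf z ((ph w).val + 1), ← hz.eq_orderOf, Nat.add_mod_mod]
  refine le_antisymm ?_ ?_
  · refine LinearMap.finrank_le_finrank_of_injective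
      (f := mW (fun w => ((z ^ (ph w).val) ^ a.val)⁻¹) ?_) (mW_inj _ ?_ _)
    · intro f hf
      refine ⟨fun w hw => ?_, fun w => ?_⟩
      · show _ * f w = 0
        rw [hf.1 w hw, mul_zero]
      · show ((z ^ (ph (fun l => w (l + 1))).val) ^ a.val)⁻¹ * f (fun l => w (l + 1)) =
          1 * (((z ^ (ph w).val) ^ a.val)⁻¹ * f w)
        by_cases hw : CstW w
        · rw [hf.1 w (fun h => h.2 hw), hf.1 (fun l => w (l + 1))
            (fun h => h.2 ((cst_iff w).2 hw)), mul_zero, mul_zero, mul_zero]
        · rw [hu w hw, hf.2 w, mul_pow, mul_inv, one_mul]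
          have h2 : z ^ a.val ≠ 0 := pow_ne_zero _ hz0
          field_simp
    · intro w
      exact inv_ne_zero (pow_ne_zero _ (hu0 w))
  · refine LinearMap.finrank_le_finrank_of_injective
      (f := mW (fun w => (z ^ (ph w).val) ^ a.val) ?_) (mW_inj _ ?_ _)
    · intro f hf
      refine ⟨fun w hw => ?_, fun w => ?_⟩
      · show _ * f w = 0
        rw [hf.1 w hw, mul_zero]
      · show (z ^ (ph (fun l => w (l + 1))).val) ^ a.val * f (fun l => w (l + 1)) =
          z ^ a.val * ((z ^ (ph w).val) ^ a.val * f w)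
        by_cases hw : CstW w
        · rw [hf.1 w (fun h => h.2 hw), hf.1 (fun l => w (l + 1))
            (fun h => h.2 ((cst_iff w).2 hw)), mul_zero, mul_zero, mul_zero]
        · rw [hu w hw, hf.2 w, mul_pow, one_mul, mul_assoc]
    · intro w
      exact pow_ne_zero _ (hu0 w)

private theorem dim_cst (z : L) (hz : IsPrimitiveRoot z k) (s : Set (ZMod k → ι)) (hs : s.Finite)
    (a : ZMod k) : Module.finrank L (fxW {w | w ∈ s ∧ CstW w} (z ^ a.val)) =
      if a = 0 then Nat.card {w : ZMod k → ι // w ∈ s ∧ CstW w} else 0 := by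
  classical
  split_ifs with ha
  · subst ha
    have hf : Finite {w : ZMod k → ι // w ∈ s ∧ CstW w} := hs.subset fun w hw => hw.1
    have hft := Fintype.ofFinite {w : ZMod k → ι // w ∈ s ∧ CstW w}
    rw [ZMod.val_zero, pow_zero, Nat.card_eq_fintype_card, ← Module.finrank_fintype_fun_eq_card L]
    refine LinearEquiv.finrank_eq
      { toFun := fun f w => f.1 w.1
        map_add' := fun _ _ => rfl
        map_smul' := fun _ _ => rfl
        invFun := fun g => ⟨fun w => if h : w ∈ s ∧ CstW w then g ⟨w, h⟩ else 0, ?_, ?_⟩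
        left_inv := ?_
        right_inv := ?_ }
    · intro w hw
      exact dif_neg hw
    · intro w
      by_cases h : CstW w
      · rw [cst_sh h, one_mul]
      · show (if h : (fun l => w (l + 1)) ∈ s ∧ CstW (fun l => w (l + 1)) then g ⟨_, h⟩ else 0) =
          1 * (if h : w ∈ s ∧ CstW w then g ⟨w, h⟩ else 0)
        rw [dif_neg (fun h' => h ((cst_iff w).1 h'.2)), dif_neg (fun h' => h h'.2), mul_zero]
    · intro f
      apply Subtype.ext
      funext w
      show (if h : w ∈ s ∧ CstW w then f.1 w else 0) = f.1 w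
      split_ifs with h
      · rfl
      · exact (f.2.1 w h).symm
    · intro g
      funext w
      exact dif_pos w.2
  · have hne : z ^ a.val ≠ 1 := by
      intro h
      have h1 := (hz.pow_eq_one_iff_dvd _).1 h
      have h2 : a.val < k := ZMod.val_lt a
      have h3 : a.val = 0 := Nat.eq_zero_of_dvd_of_lt h1 h2
      exact ha ((ZMod.val_eq_zero a).1 h3)
    have hbot : fxW {w | w ∈ s ∧ CstW w} (z ^ a.val) = ⊥ := by
      rw [eq_bot_iff]
      intro f hf
      rw [Submodule.mem_bot]
      funext w
      by_cases hw : CstW w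
      · have h1 := hf.2 w
        rw [cst_sh hw] at h1
        have h2 : (z ^ a.val - 1) * f w = 0 := by linear_combination -h1
        exact (mul_eq_zero.1 h2).resolve_left (sub_ne_zero.2 hne)
      · exact hf.1 w fun h => hw h.2
    rw [hbot, finrank_bot]

theorem fxW_dim (z : L) (hz : IsPrimitiveRoot z k) (s : Set (ZMod k → ι)) (hs : s.Finite)
    (hst : ∀ w ∈ s, (fun l => w (l + 1)) ∈ s) (a b : ZMod k) :
    (Module.finrank L (fxW s (z ^ a.val)) : ℤ) - (Module.finrank L (fxW s (z ^ b.val)) : ℤ) =
      ((if a = 0 then 1 else 0) - (if b = 0 then 1 else 0)) *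
        (Nat.card {w : ZMod k → ι // w ∈ s ∧ CstW w} : ℤ) := by
  rw [dim_split s hs, dim_split s hs, dim_non z hz s hs, dim_non z hz s hs,
    dim_cst z hz s hs, dim_cst z hz s hs]
  push_cast
  split_ifs <;> simp

end MSA
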