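import Mathlib
import Pool.Agent.MSA.Wt

/-!
# Homogeneous bases

PROOFS. Every `D.wtL M n` is a finite dimensional `L`-space (`hM.fd`); choose a basis of it, indexed by a finite type
`κ n`. The spaces `wtL M n` are independent with sum `⊤`: `wt_indep` and `wt_decomp` of MSA/Wt (with
`hM.wts`; `Infinite D.F` is `D.hinf`, `FixF` is `Dat.fixF`). Put `ι = Σ n, κ n`, `dg = Sigma.fst`; the family of
all basis vectors is linearly independent over `L` (a relation gives elements of the `wt M n` with sum `0`) and spans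
(`DirectSum.IsInternal.collectedBasis` or `Basis.mk` directly). `HB.hf`: the `β i` with `dg i = n` lie in `wtL M n`,
are independent, and span it: if `x` has weight `n` and `x = ∑ c_i β i` then grouping by weight and `wt_indep` give
`∑_(dg i = n) c_i β i = x`.
-/

set_option autoImplicit false
set_option linter.unusedSectionVars false

noncomputable section

namespace MSA

universe u

variable {D : Dat.{u}} {M : Type u} [AddCommGroup M] [Module D.R M]

variable (D M) in
/-- a homogeneous basis of a graded module over `L` -/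
structure HB where
  ι : Type u
  β : Module.Basis ι D.L (UL D M)
  dg : ι → ℤ
  mem : ∀ i, (β i : M) ∈ wt D.F D.ph M (dg i)
  fin : ∀ n : ℤ, {i | dg i = n}.Finite
  n₀ : ℤ
  bd : ∀ i, n₀ ≤ dg i

variable (D M) in
/-- the weight space as a subspace of `UL D M` -/
private def hbW (n : ℤ) : Submodule D.L (UL D M) := D.wtL M n

private theorem hbW_mem (n : ℤ) (x : UL D M) : x ∈ hbW D M n ↔ (x : M) ∈ wt D.F D.ph M n := Iff.rfl

private theorem hbW_internal (hM : D.IsW M) : DirectSum.IsInternal (hbW D M) := by
  classical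
  constructor
  · rw [injective_iff_map_eq_zero]
    intro x hx
    rw [DirectSum.coeAddMonoidHom_eq_dfinsuppSum] at hx
    obtain ⟨f, hf⟩ : ∃ f : ℤ →₀ M, ∀ n, f n = (x n : UL D M) :=
      ⟨Finsupp.onFinset (DFinsupp.support x) (fun n => (x n : UL D M)) (fun n hn => by
        rw [DFinsupp.mem_support_toFun]
        intro h0
        apply hn
        show ((x n : UL D M)) = 0
        rw [h0]
        rfl), fun n => rfl⟩
    have h1 : f.sum (fun _ y => y) = 0 := by
      have h2 : f.support = DFinsupp.support x := by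
        ext n
        rw [Finsupp.mem_support_iff, DFinsupp.mem_support_toFun, hf]
        exact not_congr Submodule.coe_eq_zero
      rw [Finsupp.sum, h2, Finset.sum_congr rfl fun n _ => hf n]
      exact hx
    have h3 := wt_indep (F := D.F) (φ := D.ph) f (fun n => by
      rw [hf]
      exact (x n).2) h1
    refine DFinsupp.ext fun n => ?_
    apply Subtype.ext
    have h4 := hf n
    rw [h3] at h4
    exact h4.symm
  · intro m
    obtain ⟨f, hf, hfm⟩ := wt_decomp hM.wts (m : M)
    refine ⟨∑ n ∈ f.support, DirectSum.of (fun n => hbW D M n) n ⟨f n, hf n⟩, ?_⟩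
    rw [map_sum]
    refine Eq.trans (Finset.sum_congr rfl fun n _ => ?_) hfm
    exact DirectSum.coeAddMonoidHom_of _ _ _

theorem hb_exists (hM : D.IsW M) : Nonempty (HB D M) := by
  classical
  have hfd : ∀ n, Module.Finite D.L (hbW D M n) := hM.fd
  obtain ⟨n₀, hn₀⟩ := hM.bd
  obtain ⟨B, hB⟩ : ∃ B : Module.Basis (Σ n : ℤ, Module.Free.ChooseBasisIndex D.L (hbW D M n)) D.L
      (UL D M), ∀ i, B i = (Module.Free.chooseBasis D.L (hbW D M i.1) i.2 : UL D M) :=
    ⟨(hbW_internal hM).collectedBasis (fun n => Module.Free.chooseBasis D.L (hbW D M n)),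
      fun i => by rw [DirectSum.IsInternal.collectedBasis_coe]⟩
  have hmem : ∀ i, (B i : M) ∈ wt D.F D.ph M i.1 := by
    intro i
    rw [hB]
    exact (Module.Free.chooseBasis D.L (hbW D M i.1) i.2).2
  refine ⟨⟨_, B, Sigma.fst, hmem, ?_, n₀, ?_⟩⟩
  · intro n
    refine (Set.finite_range (fun a : Module.Free.ChooseBasisIndex D.L (hbW D M n) =>
      (⟨n, a⟩ : Σ n : ℤ, Module.Free.ChooseBasisIndex D.L (hbW D M n)))).subset ?_
    rintro ⟨m, a⟩ h
    have h1 : m = n := h
    subst h1
    exact ⟨a, rfl⟩
  · intro i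
    by_contra h
    rw [not_le] at h
    have h1 := hmem i
    rw [hn₀ _ h] at h1
    exact B.ne_zero i ((AddSubgroup.mem_bot).1 h1)

private theorem hb_span (B : HB D M) (n : ℤ) :
    hbW D M n = Submodule.span D.L (Set.range (fun i : {i : B.ι // B.dg i = n} => B.β i)) := by
  classical
  have hU : ∀ k, Submodule.span D.L (Set.range (fun i : {i : B.ι // B.dg i = k} => B.β i)) ≤
      hbW D M k := by
    intro k
    rw [Submodule.span_le]
    rintro _ ⟨⟨i, rfl⟩, rfl⟩
    exact B.mem i
  refine le_antisymm (fun x hx => ?_) (hU n)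
  obtain ⟨y, hy⟩ : ∃ y : B.ι → M, y = fun i => ((B.β.repr x i) • B.β i : UL D M) := ⟨_, rfl⟩
  obtain ⟨x', hx'⟩ : ∃ x' : M, x' = x := ⟨_, rfl⟩
  have hyk : ∀ i, (y i : UL D M) ∈
      Submodule.span D.L (Set.range (fun j : {j : B.ι // B.dg j = B.dg i} => B.β j)) := by
    intro i
    rw [hy]
    exact Submodule.smul_mem (M := UL D M) _ _
      (Submodule.subset_span (M := UL D M) ⟨⟨i, rfl⟩, rfl⟩)
  have hys : ∑ i ∈ (B.β.repr x).support, y i = x' := by
    rw [hy, hx']
    exact B.β.linearCombination_repr x
  obtain ⟨g, hg⟩ : ∃ g : ℤ →₀ M, g = ∑ i ∈ (B.β.repr x).support,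
      Finsupp.single (B.dg i) (y i) := ⟨_, rfl⟩
  have hgk : ∀ k, (g k : UL D M) ∈
      Submodule.span D.L (Set.range (fun i : {i : B.ι // B.dg i = k} => B.β i)) := by
    intro k
    have h1 : g k = ∑ i ∈ (B.β.repr x).support, (Finsupp.single (B.dg i) (y i)) k := by
      rw [hg, Finsupp.finsetSum_apply]
    rw [h1]
    refine Submodule.sum_mem (M := UL D M) _ fun i _ => ?_
    by_cases hk : B.dg i = k
    · subst hk
      rw [Finsupp.single_eq_same]
      exact hyk i
    · rw [Finsupp.single_eq_of_ne (fun h => hk h.symm)]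
      exact Submodule.zero_mem _
  have hgs : g.sum (fun _ y => y) = x' := by
    rw [hg, ← Finsupp.sum_finsetSum_index (fun _ => rfl) (fun _ _ _ => rfl)]
    have h2 : ∀ i ∈ (B.β.repr x).support,
        (Finsupp.single (B.dg i) (y i)).sum (fun _ y => y) = y i :=
      fun i _ => Finsupp.sum_single_index rfl
    rw [Finset.sum_congr rfl h2, hys]
  have h3 : g - Finsupp.single n x' = 0 := by
    apply wt_indep (F := D.F) (φ := D.ph)
    · intro k
      rw [Finsupp.sub_apply]
      refine AddSubgroup.sub_mem _ (hU k (hgk k)) ?_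
      by_cases hk : k = n
      · subst hk
        rw [Finsupp.single_eq_same, hx']
        exact hx
      · rw [Finsupp.single_eq_of_ne hk]
        exact AddSubgroup.zero_mem _
    · rw [Finsupp.sum_sub_index (fun _ _ _ => rfl), Finsupp.sum_single_index rfl, hgs, sub_self]
  have h4 := DFunLike.congr_fun h3 n
  rw [Finsupp.sub_apply, Finsupp.single_eq_same, Finsupp.zero_apply, sub_eq_zero] at h4
  have h5 := hgk n
  rw [h4, hx'] at h5
  exact h5

theorem HB.hf (B : HB D M) (n : ℤ) : D.hf M n = Nat.card {i : B.ι // B.dg i = n} := by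
  classical
  have hfin : Finite {i : B.ι // B.dg i = n} := (B.fin n).to_subtype
  have := Fintype.ofFinite {i : B.ι // B.dg i = n}
  have h1 : D.hf M n = Module.finrank D.L (hbW D M n) := rfl
  have h2 : LinearIndependent D.L (fun i : {i : B.ι // B.dg i = n} => B.β i) :=
    B.β.linearIndependent.comp _ Subtype.val_injective
  rw [h1, hb_span, finrank_span_eq_card h2, Nat.card_eq_fintype_card]

end MSA
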