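import Mathlib
import Pool.Agent.MSA.PwHb
import Pool.Agent.MSA.PwPh

/-!
# The tensor basis of `M^{⊗ k}`

PROOFS. `tb_apply`: `Basis.piTensorProduct_apply`. `tb_th`, `tb_cyc`: the action of the generators is `A.pkg M`
(`rgModule_gam`), `A.smp_tp`; `gam (th c) • β i = c ^ dg i • β i` (`B.mem`), and `tprod` is multilinear
(`MultilinearMap.map_smul_univ`; `∏ c ^ dg (w l) = c ^ ∑ dg (w l)`). `pk_C`: `rgModule_iot`, `A.pka_C`.
`tb_wt`: write `x = ∑ x_w T_w` (`Basis.linearCombination_repr`, `Basis.sum_repr`-like finsupp sum);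
`gam (th c) • x = ∑ x_w c ^ (deg w) T_w` because `gam (th c)` is `L`-linear on `Pk M` (`gam_mul_iot`, `ph (th c) (C l) = C l`);
compare coordinates: `x_w (c ^ deg w - c ^ n) = 0` for all `c : Fˣ`; if `deg w ≠ n` there is `c` with
`c ^ (deg w - n) ≠ 1` (`F` is infinite, finitely many roots). `tb_eig`: `gam cyc` is `L`-linear and
`gam cyc • x = ∑ x_w T_(w (· - 1))` has the coordinate `x_(w (· + 1))` at `w`. `words_fin`: every `dg (w l)` is at least
`n₀` and at most `n - (k-1) n₀`, so each letter lies in a finite set (`B.fin`), `Set.Finite.pi`.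
-/

set_option autoImplicit false
set_option linter.unusedSectionVars false

noncomputable section

namespace MSA

universe u

variable {D : Dat.{u}} (A : Adm D) {M : Type u} [AddCommGroup M] [Module D.R M] (B : HB D M)

namespace Adm

/-- the tensor basis, indexed by words -/
def tb : Module.Basis (ZMod A.k → B.ι) D.L (A.Pk M) :=
  Basis.piTensorProduct (fun _ : ZMod A.k => B.β)

/-- the degree of a word -/
def wdg' (w : ZMod A.k → B.ι) : ℤ := ∑ l, B.dg (w l)

theorem tb_apply (w : ZMod A.k → B.ι) : A.tb B w = A.tp (fun l => B.β (w l)) :=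
  Basis.piTensorProduct_apply (fun _ : ZMod A.k => B.β) w

theorem pk_C (c : D.L) (x : A.Pk M) :
    iot A.ph (MvPolynomial.C c) • x = c • x :=
  (rgModule_iot A.ph (A.pks M) (A.pkg M) (A.pk_compat M) (MvPolynomial.C c) x).trans
    (A.pka_C (UL D M) (xop D M) (xop_comm D M) c x)

private theorem pk_F (c : D.F) (x : A.Pk M) :
    iot A.ph (algebraMap D.F A.S c) • x = algebraMap D.F D.L c • x :=
  A.pk_C (algebraMap D.F D.L c) x

private theorem tb_zpow (c : D.Fˣ) (s : Finset (ZMod A.k)) (f : ZMod A.k → ℤ) :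
    ∏ l ∈ s, algebraMap D.F D.L ((c ^ f l : D.Fˣ) : D.F) =
      algebraMap D.F D.L ((c ^ (∑ l ∈ s, f l) : D.Fˣ) : D.F) := by
  classical
  induction s using Finset.induction_on with
  | empty => simp
  | insert a s ha ih =>
    rw [Finset.prod_insert ha, Finset.sum_insert ha, ih, zpow_add, Units.val_mul, map_mul]

theorem tb_th (c : D.Fˣ) (w : ZMod A.k → B.ι) : gam A.ph (HasTh.th c) • A.tb B w =
    iot A.ph (algebraMap D.F A.S ((c ^ A.wdg' B w : D.Fˣ) : D.F)) • A.tb B w := by
  rw [pk_F, tb_apply]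
  have h1 : (gam A.ph (HasTh.th c) • (show A.Pk M from A.tp (fun l => B.β (w l))) : A.Pk M) =
      A.tp (fun l => genA D M (Gn.th c) (B.β (w l))) :=
    (rgModule_gam A.ph (A.pks M) (A.pkg M) (A.pk_compat M) (Gk.bs (Gn.th c))
      (A.tp (fun l => B.β (w l)))).trans
      (A.smp_tp (V := UL D M) (W := UL D M) (RingHom.id D.L) (genA D M (Gn.th c)) (genA_th D M c)
        (Equiv.refl _) (fun l => B.β (w l)))
  rw [h1]
  have h2 : (fun l => genA D M (Gn.th c) (B.β (w l))) =
      fun l => algebraMap D.F D.L ((c ^ B.dg (w l) : D.Fˣ) : D.F) • B.β (w l) := by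
    funext l
    exact B.mem (w l) c
  rw [h2]
  refine ((PiTensorProduct.tprod D.L (s := fun _ : ZMod A.k => UL D M)).map_smul_univ
    (fun l => algebraMap D.F D.L ((c ^ B.dg (w l) : D.Fˣ) : D.F)) (fun l => B.β (w l))).trans ?_
  rw [tb_zpow]
  rfl

theorem tb_cyc (w : ZMod A.k → B.ι) :
    gam A.ph Gk.cyc • A.tb B w = A.tb B (fun l => w (l - 1)) := by
  rw [tb_apply, tb_apply]
  exact (rgModule_gam A.ph (A.pks M) (A.pkg M) (A.pk_compat M) Gk.cyc
      (A.tp (fun l => B.β (w l)))).trans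
      (A.smp_tp (V := UL D M) (W := UL D M) (RingHom.id D.L) (AddMonoidHom.id (UL D M))
        (fun _ _ => rfl) (Equiv.subRight 1) (fun l => B.β (w l)))

/-- a generator that fixes the constants, as a linear map -/
private def tbL (g : Gk D.F) (hg : ∀ c : D.L, A.ph g (MvPolynomial.C c) = MvPolynomial.C c) :
    A.Pk M →ₗ[D.L] A.Pk M where
  toFun x := gam A.ph g • x
  map_add' := smul_add _
  map_smul' c x := by
    rw [← A.pk_C, ← mul_smul, gam_mul_iot, hg, mul_smul, A.pk_C]
    rfl

private theorem tb_hth (c' : D.Fˣ) (c : D.L) :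
    A.ph (HasTh.th c') (MvPolynomial.C c) = MvPolynomial.C c := by
  show MvPolynomial.eval₂Hom _ _ (MvPolynomial.C c) = _
  simp

private theorem tb_hcyc (c : D.L) : A.ph Gk.cyc (MvPolynomial.C c) = MvPolynomial.C c := by
  show MvPolynomial.eval₂Hom _ _ (MvPolynomial.C c) = _
  simp

private theorem tb_repr_th (c : D.Fˣ) (x : A.Pk M) (w : ZMod A.k → B.ι) :
    (A.tb B).repr (gam A.ph (HasTh.th c) • x) w =
      algebraMap D.F D.L ((c ^ A.wdg' B w : D.Fˣ) : D.F) * (A.tb B).repr x w := by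
  classical
  have h : ((A.tb B).coord w).comp (A.tbL (M := M) (HasTh.th c) (A.tb_hth c)) =
      algebraMap D.F D.L ((c ^ A.wdg' B w : D.Fˣ) : D.F) • (A.tb B).coord w := by
    refine (A.tb B).ext fun w' => ?_
    show (A.tb B).repr (gam A.ph (HasTh.th c) • A.tb B w') w =
      algebraMap D.F D.L ((c ^ A.wdg' B w : D.Fˣ) : D.F) * (A.tb B).repr (A.tb B w') w
    rw [tb_th, pk_F, map_smul, Finsupp.smul_apply, Module.Basis.repr_self, smul_eq_mul]
    by_cases hw : w = w'
    · rw [hw]
    · rw [Finsupp.single_eq_of_ne hw, mul_zero, mul_zero]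
  exact LinearMap.congr_fun h x

private theorem tb_repr_cyc (x : A.Pk M) (w : ZMod A.k → B.ι) :
    (A.tb B).repr (gam A.ph Gk.cyc • x) w = (A.tb B).repr x (fun l => w (l + 1)) := by
  classical
  have h : ((A.tb B).coord w).comp (A.tbL (M := M) Gk.cyc A.tb_hcyc) =
      (A.tb B).coord (fun l => w (l + 1)) := by
    refine (A.tb B).ext fun w' => ?_
    show (A.tb B).repr (gam A.ph Gk.cyc • A.tb B w') w =
      (A.tb B).repr (A.tb B w') (fun l => w (l + 1))
    rw [tb_cyc, Module.Basis.repr_self, Module.Basis.repr_self]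
    by_cases hw : w = fun l => w' (l - 1)
    · have hw' : (fun l => w (l + 1)) = w' := by
        funext l
        rw [hw]
        show w' (l + 1 - 1) = w' l
        rw [add_sub_cancel_right]
      rw [← hw, hw', Finsupp.single_eq_same, Finsupp.single_eq_same]
    · have hw' : (fun l => w (l + 1)) ≠ w' := by
        intro h
        apply hw
        funext l
        rw [← h]
        show w l = w (l - 1 + 1)
        rw [sub_add_cancel]
      rw [Finsupp.single_eq_of_ne hw, Finsupp.single_eq_of_ne hw']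
  exact LinearMap.congr_fun h x

theorem tb_wt (x : A.Pk M) (n : ℤ) : x ∈ wt D.F A.ph (A.Pk M) n ↔
    ∀ w, (A.tb B).repr x w ≠ 0 → A.wdg' B w = n := by
  constructor
  · intro hx w hw
    by_contra hne
    obtain ⟨c, hc⟩ := wt_exists_unit (F := D.F) {A.wdg' B w - n}
    have h1 := hc (A.wdg' B w - n) (Finset.mem_singleton_self _) (sub_ne_zero.2 hne)
    apply h1
    have h2 : (A.tb B).repr (gam A.ph (HasTh.th c) • x) w = (A.tb B).repr
        (iot A.ph (algebraMap D.F A.S ((c ^ n : D.Fˣ) : D.F)) • x) w := by rw [hx c]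
    rw [A.tb_repr_th, A.pk_F, map_smul, Finsupp.smul_apply, smul_eq_mul] at h2
    have h3 := mul_right_cancel₀ hw h2
    have h4 := Units.ext ((algebraMap D.F D.L).injective h3)
    rw [zpow_sub, h4, mul_inv_cancel]
  · intro h c
    apply (A.tb B).repr.injective
    ext w
    rw [A.tb_repr_th, A.pk_F, map_smul, Finsupp.smul_apply, smul_eq_mul]
    by_cases hw : (A.tb B).repr x w = 0
    · rw [hw, mul_zero, mul_zero]
    · rw [h w hw]

theorem tb_eig (x : A.Pk M) (a : ZMod A.k) :
    gam A.ph Gk.cyc • x = iot A.ph (algebraMap D.F A.S (A.zp a)) • x ↔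
      ∀ w, (A.tb B).repr x (fun l => w (l + 1)) =
        algebraMap D.F D.L (A.zp a) * (A.tb B).repr x w := by
  constructor
  · intro h w
    rw [← A.tb_repr_cyc, h, A.pk_F, map_smul, Finsupp.smul_apply, smul_eq_mul]
  · intro h
    apply (A.tb B).repr.injective
    ext w
    rw [A.tb_repr_cyc, A.pk_F, map_smul, Finsupp.smul_apply, smul_eq_mul]
    exact h w

theorem words_fin (n : ℤ) : {w : ZMod A.k → B.ι | A.wdg' B w = n}.Finite := by
  classical
  have h1 : {i : B.ι | ∃ m ∈ Finset.Icc B.n₀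
      (n - (((Finset.univ : Finset (ZMod A.k)).card : ℤ) - 1) * B.n₀), B.dg i = m}.Finite := by
    have h2 : {i : B.ι | ∃ m ∈ Finset.Icc B.n₀
      (n - (((Finset.univ : Finset (ZMod A.k)).card : ℤ) - 1) * B.n₀), B.dg i = m} =
        ⋃ m ∈ Finset.Icc B.n₀
          (n - (((Finset.univ : Finset (ZMod A.k)).card : ℤ) - 1) * B.n₀), {i | B.dg i = m} := by
      ext i
      simp only [Set.mem_ofPred_eq, Set.mem_iUnion, exists_prop]
    rw [h2]
    exact Set.Finite.biUnion (Finset.finite_toSet _) (fun m _ => B.fin m)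
  refine (Set.Finite.pi (fun _ : ZMod A.k => h1)).subset ?_
  intro w hw
  rw [Set.mem_univ_pi]
  intro l
  refine ⟨B.dg (w l), ?_, rfl⟩
  rw [Finset.mem_Icc]
  refine ⟨B.bd _, ?_⟩
  have h3 : ∑ l', B.dg (w l') = n := hw
  rw [← Finset.add_sum_erase _ _ (Finset.mem_univ l)] at h3
  have h4 : ((Finset.univ.erase l : Finset (ZMod A.k)).card : ℤ) * B.n₀ ≤
      ∑ l' ∈ Finset.univ.erase l, B.dg (w l') := by
    have h5 := Finset.card_nsmul_le_sum (Finset.univ.erase l) (fun l' => B.dg (w l')) B.n₀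
      (fun l' _ => B.bd _)
    rw [nsmul_eq_mul] at h5
    exact h5
  have h6 : ((Finset.univ.erase l : Finset (ZMod A.k)).card : ℤ) =
      ((Finset.univ : Finset (ZMod A.k)).card : ℤ) - 1 := by
    have h7 := Finset.card_erase_add_one (Finset.mem_univ l)
    omega
  rw [h6] at h4
  linarith

end Adm

end MSA
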