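import Mathlib
import Pool.Agent.MSA.EgG

/-!
# Weights of the eigenspaces

`res_iot`, `res_gam`, `eg_wt`, `eg_wts` are in MSA/EgG.
-/
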