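import Mathlib
import Pool.Agent.MSA.PwTb
import Pool.Agent.MSA.PwFx
import Pool.Agent.MSA.PwW

/-!
# Hilbert functions of the eigenspaces of the tensor power

PROOFS. `egPk`: by `eg_mem` (MSA/EgA) and `eg_wt` (MSA/PwW) the elements of weight `n` of `Eg a (Pk M)` are the
`x : Pk M` with `x ∈ wt n` and `gam cyc • x = ζ^a • x`; by `tb_wt`, `tb_eig` the coordinate map `x ↦ (tb B).repr x`
is an `L`-linear bijection onto `fxW {w | wdg' w = n} (algebraMap (zp a))` (surjective because the set of words is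
finite, `words_fin`, `Finsupp.ofSupportFinite`; `algebraMap (zp a) = z' ^ a.val`, `z' = algebraMap D.F D.L A.z`, a
primitive root in `L`: `IsPrimitiveRoot.map_of_injective`). The action of `L` on `Eg a (Pk M)` is through
`iot (C l)`, on `Pk M` this is `l • x` (`pk_C`).
`isW_eg_pk`: `eg_wts`, `fxW_fin`; weights below `k n₀` vanish. `hf_eg_pk`: `fxW_dim` and: the constant words of degree
`n` correspond to the `i` with `k * dg i = n`, i.e. `dg i = n / k` if `k ∣ n`, none otherwise; `HB.hf`.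
-/

set_option autoImplicit false
set_option linter.unusedSectionVars false

noncomputable section

namespace MSA

universe u

namespace Adm

variable {D : Dat.{u}} (A : Adm D) {M : Type u} [AddCommGroup M] [Module D.R M]

private theorem pk_zp (a : ZMod A.k) :
    algebraMap D.F D.L (A.zp a) = (algebraMap D.F D.L A.z) ^ a.val := by
  rw [zp, map_pow]

/-- the weight space as a subspace -/
private def pkW (a : ZMod A.k) (n : ℤ) : Submodule D.L (UL D (A.Eg a (A.Pk M))) :=
  D.wtL (A.Eg a (A.Pk M)) n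

private theorem pk_egi (a : ZMod A.k) (c : D.L) (x : A.Eg a (A.Pk M)) :
    A.egi a (iot D.ph (MvPolynomial.C c) • x) = c • A.egi a x := by
  have h1 : A.avg (MvPolynomial.C c) = MvPolynomial.C c := by simp [avg]
  rw [egi_smul, res_iot, h1, pk_C]

/-- coordinates -/
private def pkT (_hK : A.IsK (A.Pk M)) (B : HB D M) (a : ZMod A.k) :
    UL D (A.Eg a (A.Pk M)) →ₗ[D.L] ((ZMod A.k → B.ι) →₀ D.L) where
  toFun x := (A.tb B).repr (A.egi a x)
  map_add' x y := by
    have h1 : A.egi a (x + y) = A.egi a x + A.egi a y := map_add (A.egi a) x y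
    rw [h1, map_add]
  map_smul' c x := by
    have h1 : A.egi a (c • x) = c • A.egi a x := A.pk_egi a c x
    rw [h1, map_smul]
    rfl

private theorem pkT_inj (hK : A.IsK (A.Pk M)) (B : HB D M) (a : ZMod A.k) :
    Function.Injective (A.pkT hK B a) := fun _ _ h =>
  A.egi_inj a ((A.tb B).repr.injective h)

private theorem pkT_apply (hK : A.IsK (A.Pk M)) (B : HB D M) (a : ZMod A.k)
    (x : A.Eg a (A.Pk M)) : A.pkT hK B a x = (A.tb B).repr (A.egi a x) := rfl

private theorem pkT_wt (hK : A.IsK (A.Pk M)) (B : HB D M) (a : ZMod A.k) (n : ℤ)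
    (x : A.Eg a (A.Pk M)) : x ∈ wt D.F D.ph (A.Eg a (A.Pk M)) n ↔
      ∀ w, A.pkT hK B a x w ≠ 0 → A.wdg' B w = n := by
  rw [eg_wt, tb_wt]
  exact Iff.rfl

private theorem pkT_shift (hK : A.IsK (A.Pk M)) (B : HB D M) (a : ZMod A.k)
    (x : A.Eg a (A.Pk M)) (w : ZMod A.k → B.ι) :
    A.pkT hK B a x (fun l => w (l + 1)) = (algebraMap D.F D.L A.z) ^ a.val * A.pkT hK B a x w := by
  have h1 := A.egi_mem a x 1
  rw [map_one, one_smul] at h1
  have h2 := (A.tb_eig B (A.egi a x) a).1 h1 w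
  rw [pk_zp] at h2
  exact h2

private theorem pkT_mem (hK : A.IsK (A.Pk M)) (B : HB D M) (a : ZMod A.k) (n : ℤ)
    (x : A.pkW (M := M) a n) : (⇑(A.pkT hK B a x.1) : (ZMod A.k → B.ι) → D.L) ∈
      fxW (k := A.k) (ι := B.ι) {w | A.wdg' B w = n} ((algebraMap D.F D.L A.z) ^ a.val) := by
  refine ⟨fun w hw => ?_, fun w => A.pkT_shift hK B a x.1 w⟩
  by_contra h
  exact hw ((A.pkT_wt hK B a n x.1).1 x.2 w h)

/-- coordinates of the weight space -/
private def pkP (hK : A.IsK (A.Pk M)) (B : HB D M) (a : ZMod A.k) (n : ℤ) :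
    A.pkW (M := M) a n →ₗ[D.L]
      fxW (k := A.k) (ι := B.ι) {w | A.wdg' B w = n} ((algebraMap D.F D.L A.z) ^ a.val) where
  toFun x := ⟨⇑(A.pkT hK B a x.1), A.pkT_mem hK B a n x⟩
  map_add' x y := by
    apply Subtype.ext
    funext w
    show A.pkT hK B a (x.1 + y.1) w = A.pkT hK B a x.1 w + A.pkT hK B a y.1 w
    rw [map_add]
    rfl
  map_smul' c x := by
    apply Subtype.ext
    funext w
    show A.pkT hK B a (c • x.1) w = c * A.pkT hK B a x.1 w
    rw [map_smul]
    rfl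

private theorem pkP_bij (hK : A.IsK (A.Pk M)) (B : HB D M) (a : ZMod A.k) (n : ℤ) :
    Function.Bijective (A.pkP hK B a n) := by
  constructor
  · intro x y h
    apply Subtype.ext
    apply A.pkT_inj hK B a
    apply DFunLike.coe_injective
    exact congrArg Subtype.val h
  · intro f
    have hfin : (Function.support f.1).Finite :=
      (A.words_fin B n).subset fun w hw => by
        by_contra h
        exact hw (f.2.1 w h)
    obtain ⟨z, hz⟩ : ∃ z : A.Pk M, (A.tb B).repr z = Finsupp.ofSupportFinite f.1 hfin :=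
      ⟨(A.tb B).repr.symm (Finsupp.ofSupportFinite f.1 hfin), LinearEquiv.apply_symm_apply _ _⟩
    have hz' : ∀ w, (A.tb B).repr z w = f.1 w := by
      intro w
      rw [hz]
      rfl
    have h1 : gam A.ph Gk.cyc • z = iot A.ph (algebraMap D.F A.S (A.zp a)) • z := by
      rw [tb_eig A B]
      intro w
      rw [hz', hz', pk_zp]
      exact f.2.2 w
    have h2 := (A.eg_mem hK a z).2 h1
    have h3 : A.egk a z h2 ∈ wt D.F D.ph (A.Eg a (A.Pk M)) n := by
      rw [A.pkT_wt hK B a n]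
      intro w hw
      by_contra h
      apply hw
      rw [pkT_apply, egi_egk, hz']
      exact f.2.1 w h
    refine ⟨⟨A.egk a z h2, h3⟩, ?_⟩
    apply Subtype.ext
    funext w
    exact hz' w

theorem egPk (hK : A.IsK (A.Pk M)) (B : HB D M) (a : ZMod A.k) (n : ℤ) :
    D.FdW (A.Eg a (A.Pk M)) n ∧ D.hf (A.Eg a (A.Pk M)) n =
      Module.finrank D.L (fxW (k := A.k) (ι := B.ι) {w | A.wdg' B w = n}
        ((algebraMap D.F D.L A.z) ^ a.val)) := by
  obtain ⟨e⟩ : Nonempty (A.pkW (M := M) a n ≃ₗ[D.L]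
      fxW (k := A.k) (ι := B.ι) {w | A.wdg' B w = n} ((algebraMap D.F D.L A.z) ^ a.val)) :=
    ⟨LinearEquiv.ofBijective (A.pkP hK B a n) (A.pkP_bij hK B a n)⟩
  have h0 := fxW_fin (k := A.k) {w | A.wdg' B w = n} (A.words_fin B n)
    ((algebraMap D.F D.L A.z) ^ a.val)
  have h1 : Module.Finite D.L (A.pkW (M := M) a n) := Module.Finite.equiv e.symm
  have h2 : D.hf (A.Eg a (A.Pk M)) n = Module.finrank D.L (A.pkW (M := M) a n) := rfl
  exact ⟨h1, by rw [h2, e.finrank_eq]⟩

private theorem wdg_ge (B : HB D M) (w : ZMod A.k → B.ι) : (A.k : ℤ) * B.n₀ ≤ A.wdg' B w := by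
  have h1 : ∑ _l : ZMod A.k, B.n₀ ≤ ∑ l, B.dg (w l) := Finset.sum_le_sum fun l _ => B.bd _
  rwa [Finset.sum_const, Finset.card_univ, ZMod.card, nsmul_eq_mul] at h1

theorem isW_eg_pk (hM : D.IsW M) (hK : A.IsK (A.Pk M)) (a : ZMod A.k) :
    D.IsW (A.Eg a (A.Pk M)) := by
  obtain ⟨B⟩ := hb_exists hM
  refine ⟨A.eg_wts hK a, fun n => (A.egPk hK B a n).1, A.k * B.n₀, fun n hn => ?_⟩
  rw [eq_bot_iff]
  intro x hx
  rw [A.pkT_wt hK B a n] at hx
  rw [AddSubgroup.mem_bot]
  apply A.pkT_inj hK B a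
  refine Finsupp.ext fun w => ?_
  by_contra h
  have h1 : A.pkT hK B a x w ≠ 0 := fun h0 => h (by
    rw [h0]
    have h2 : A.pkT hK B a (0 : UL D (A.Eg a (A.Pk M))) = 0 := map_zero _
    exact (DFunLike.congr_fun h2 w).symm)
  have h2 := hx w h1
  have h3 := A.wdg_ge B w
  omega

private theorem cst_card (B : HB D M) (n : ℤ) :
    (Nat.card {w : ZMod A.k → B.ι // w ∈ {w | A.wdg' B w = n} ∧ CstW w} : ℤ) =
      if (A.k : ℤ) ∣ n then (D.hf M (n / A.k) : ℤ) else 0 := by
  have hk0 : (A.k : ℤ) ≠ 0 := by exact_mod_cast A.hk.out.ne_zero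
  have hc : ∀ i : B.ι, A.wdg' B (fun _ => i) = A.k * B.dg i := by
    intro i
    unfold wdg'
    rw [Finset.sum_const, Finset.card_univ, ZMod.card, nsmul_eq_mul]
  have hw : ∀ w : ZMod A.k → B.ι, CstW w → w = fun _ => w 0 := fun w h => funext fun l => h l 0
  split_ifs with hd
  · obtain ⟨m, rfl⟩ := hd
    rw [Int.mul_ediv_cancel_left _ hk0, B.hf]
    congr 1
    refine Nat.card_congr
      { toFun := fun w => ⟨w.1 0, ?_⟩
        invFun := fun i => ⟨fun _ => i.1, ?_, fun _ _ => rfl⟩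
        left_inv := fun w => ?_
        right_inv := fun i => rfl }
    · have h1 : A.wdg' B w.1 = A.k * m := w.2.1
      rw [hw w.1 w.2.2, hc] at h1
      exact mul_left_cancel₀ hk0 h1
    · show A.wdg' B (fun _ => i.1) = A.k * m
      rw [hc, i.2]
    · apply Subtype.ext
      exact (hw w.1 w.2.2).symm
  · have h0 : IsEmpty {w : ZMod A.k → B.ι // w ∈ {w | A.wdg' B w = n} ∧ CstW w} := by
      refine ⟨fun w => hd ?_⟩
      have h1 : A.wdg' B w.1 = n := w.2.1
      rw [hw w.1 w.2.2, hc] at h1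
      exact ⟨_, h1.symm⟩
    rw [Nat.card_of_isEmpty, Nat.cast_zero]

theorem hf_eg_pk (hM : D.IsW M) (hK : A.IsK (A.Pk M)) (a b : ZMod A.k) (n : ℤ) :
    (D.hf (A.Eg a (A.Pk M)) n : ℤ) - (D.hf (A.Eg b (A.Pk M)) n : ℤ) =
      ((if a = 0 then 1 else 0) - (if b = 0 then 1 else 0)) *
        (if (A.k : ℤ) ∣ n then (D.hf M (n / A.k) : ℤ) else 0) := by
  obtain ⟨B⟩ := hb_exists hM
  rw [(A.egPk hK B a n).2, (A.egPk hK B b n).2,
    fxW_dim (k := A.k) (algebraMap D.F D.L A.z)
      (A.hz.map_of_injective (algebraMap D.F D.L).injective) {w | A.wdg' B w = n}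
      (A.words_fin B n) (fun w hw => ?_) a b, cst_card]
  have h1 : A.wdg' B (fun l => w (l + 1)) = A.wdg' B w :=
    Equiv.sum_comp (Equiv.addRight (1 : ZMod A.k)) (fun l => B.dg (w l))
  show A.wdg' B (fun l => w (l + 1)) = n
  rw [h1]
  exact hw

end Adm

end MSA
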