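import Mathlib
import Pool.Agent.MSA.Par

/-!
# Diagonal operators on the exterior algebra

PROOF. `bE F J B` is the product (in increasing order) of the `ι (Pi.single j 1)`, `j ∈ B`: by
`ExteriorAlgebra.basis_eq_coe_basis` it is the image of the basis vector of `⋀^n`, `n = B.card`, which is
`ιMulti_family` applied to the increasing enumeration of `B` (`exteriorPower.basis_apply`), and `ExteriorAlgebra.map f`
maps `ιMulti v` to `ιMulti (f ∘ v)` (`ExteriorAlgebra.map_apply_ιMulti`); `ιMulti` is multilinear, so the scalars come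
out (`MultilinearMap.map_smul_univ`).
-/

set_option autoImplicit false
set_option linter.unusedSectionVars false

noncomputable section

namespace MSA

universe u v w

variable {F : Type u} [Field F] {J : Type} [Fintype J] [LinearOrder J]

theorem pw_mpE_diag (v : J → F) (f : (J → F) →ₗ[F] (J → F))
    (hf : ∀ j, f (Pi.single j 1) = v j • (Pi.single j 1 : J → F)) (B : Finset J) :
    mpE f (bE F J B) = (∏ j ∈ B, v j) • bE F J B := by
  have h1 : bE F J B = ExteriorAlgebra.ιMulti F B.card
      ((Pi.basisFun F J) ∘ (B.orderEmbOfFin rfl)) :=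
    ExteriorAlgebra.basis_apply_ofCard (Pi.basisFun F J) (s := B) rfl
  have h2 : mpE f (bE F J B) = ExteriorAlgebra.ιMulti F B.card
      (f ∘ ((Pi.basisFun F J) ∘ (B.orderEmbOfFin rfl))) := by
    rw [h1]
    exact ExteriorAlgebra.map_apply_ιMulti f _
  have h3 : (f ∘ ((Pi.basisFun F J) ∘ (B.orderEmbOfFin rfl))) =
      fun k => v (B.orderEmbOfFin rfl k) • ((Pi.basisFun F J) ∘ (B.orderEmbOfFin rfl)) k := by
    funext k
    simp only [Function.comp_apply, Pi.basisFun_apply]
    exact hf _
  have h4 : ∏ j ∈ B, v j = ∏ k : Fin B.card, v (B.orderEmbOfFin rfl k) := by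
    conv_lhs => rw [← Finset.map_orderEmbOfFin_univ B rfl, Finset.prod_map]
    rfl
  rw [h2, h3, h4, h1]
  exact MultilinearMap.map_smul_univ (ExteriorAlgebra.ιMulti F B.card :
    (J → F) [⋀^Fin B.card]→ₗ[F] ExteriorAlgebra F (J → F)).toMultilinearMap _ _

/-- matrix of a diagonal operator -/
theorem repr_mpE_diag (v : J → F) (f : (J → F) →ₗ[F] (J → F))
    (hf : ∀ j, f (Pi.single j 1) = v j • (Pi.single j 1 : J → F)) (A B : Finset J) :
    (bE F J).repr (mpE f (bE F J A)) B = if A = B then ∏ j ∈ B, v j else 0 := by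
  rw [pw_mpE_diag v f hf A, map_smul, Module.Basis.repr_self, Finsupp.smul_apply]
  by_cases h : A = B
  · subst h
    rw [if_pos rfl, Finsupp.single_eq_same, smul_eq_mul, mul_one]
  · rw [if_neg h, Finsupp.single_eq_of_ne (Ne.symm h), smul_zero]

end MSA
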