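import Mathlib
import Pool.Agent.MSA.PwDg
import Pool.Agent.MSA.PwW

/-!
# Hilbert functions of the terms of the complex `T(Z)`

PROOFS. For `x : A.kT.Tot Z` and `B : Finset A.JT`: `(gam cyc • x) B = ζ^(∑ x ∈ B, x.1.2) • gam cyc • x B` and
`(gam (th c) • x) B = c ^ B.card • gam (th c) • x B` (`KS.gam_smul`, `repr_mpE_diag`: `rhoT cyc` is diagonal with
entries `zp x.1.2`, `rhoT (th c)` is `c`; `A.zp_add`), `(iot s • x) B = iot s • x B`. So (with `eg_mem` for
`A.kT.part Z i` and for `Z`, and `eg_wt`) an element `x` of `A.kT.part Z i` lies in the weight space `n` of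
`Eg j` iff for every `B` (with `B.card = i` mod `2`; the other coordinates are `0`) `x B` lies in the weight space
`n - B.card` of `Eg (j - ∑ x ∈ B, x.1.2) Z`: an `L`-linear isomorphism with a finite product;
`Module.finrank_pi_fintype` (finite dimensional factors by `hW`) and `Finset.sum_subtype` / `Finset.sum_coe_sort`.
-/

set_option autoImplicit false
set_option linter.unusedSectionVars false

noncomputable section

namespace MSA

universe u

namespace Adm

variable {D : Dat.{u}} (A : Adm D) {Z : Type u} [AddCommGroup Z] [Module A.R Z]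

private theorem pwx_diag {F : Type u} [Field F] {S : Type u} [CommRing S] [Algebra F S]
    {Γ : Type u} {φ : Γ → S →+* S} (K : KS F φ) {Z : Type u} [AddCommGroup Z] [Module (Rg φ) Z]
    (g : Γ) (v : K.J → F)
    (hv : ∀ j, K.rho g (Pi.single j 1) = v j • (Pi.single j 1 : K.J → F)) (x : K.Tot Z)
    (B : Finset K.J) : (gam φ g • x : K.Tot Z) B =
      iot φ (algebraMap F S (∏ j ∈ B, v j)) • gam φ g • x B := by
  rw [K.gam_smul, Finset.sum_eq_single B]
  · rw [repr_mpE_diag v (K.rho g) hv, if_pos rfl]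
  · intro A' _ hA
    rw [repr_mpE_diag v (K.rho g) hv, if_neg hA, map_zero, map_zero, zero_smul]
  · intro hB
    exact absurd (Finset.mem_univ _) hB

private theorem pwx_cancel {a b : D.F} (ha : a ≠ 0) (w z : Z) :
    iot A.ph (algebraMap D.F A.S a) • w = iot A.ph (algebraMap D.F A.S (a * b)) • z ↔
      w = iot A.ph (algebraMap D.F A.S b) • z := by
  constructor
  · intro h
    have h1 := congrArg (fun t => iot A.ph (algebraMap D.F A.S a⁻¹) • t) h
    simp only [← mul_smul, ← map_mul] at h1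
    rw [inv_mul_cancel₀ ha, ← mul_assoc, inv_mul_cancel₀ ha, one_mul, map_one, map_one,
      one_smul] at h1
    exact h1
  · intro h
    rw [h, ← mul_smul, ← map_mul, ← map_mul]

private theorem pwx_th (c : D.Fˣ) (x : A.kT.Tot Z) (B : Finset A.JT) :
    (gam A.ph (Gk.bs (Gn.th c)) • x : A.kT.Tot Z) B =
      iot A.ph (algebraMap D.F A.S ((c : D.F) ^ B.card)) • gam A.ph (Gk.bs (Gn.th c)) • x B := by
  have h := pwx_diag A.kT (Gk.bs (Gn.th c)) (fun _ => (c : D.F)) (fun j => rfl) x B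
  rw [Finset.prod_const] at h
  exact h

private theorem pwx_zp_sum (B : Finset A.JT) :
    ∏ x ∈ B, A.zp x.1.2 = A.zp (∑ x ∈ B, x.1.2) := by
  induction B using Finset.induction_on with
  | empty => rw [Finset.prod_empty, Finset.sum_empty, zp_zero]
  | insert a s ha ih => rw [Finset.prod_insert ha, Finset.sum_insert ha, ih, zp_add]

private theorem pwx_zp_ne (j : ZMod A.k) : A.zp j ≠ 0 := by
  intro h
  have h1 : A.zp (j + -j) = A.zp j * A.zp (-j) := A.zp_add j (-j)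
  rw [h, zero_mul, add_neg_cancel, zp_zero] at h1
  exact one_ne_zero h1

private theorem pwx_cyc (x : A.kT.Tot Z) (B : Finset A.JT) :
    (gam A.ph Gk.cyc • x : A.kT.Tot Z) B =
      iot A.ph (algebraMap D.F A.S (A.zp (∑ x ∈ B, x.1.2))) • gam A.ph Gk.cyc • x B := by
  have hv : ∀ j : A.kT.J, A.kT.rho Gk.cyc (Pi.single j 1) =
      (A.zp (show A.JT from j).1.2) • (Pi.single j 1 : A.kT.J → D.F) := by
    intro j
    funext y
    show A.zp (show A.JT from y).1.2 * (Pi.single j 1 : A.kT.J → D.F) y =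
      A.zp (show A.JT from j).1.2 * (Pi.single j 1 : A.kT.J → D.F) y
    by_cases hy : y = j
    · rw [hy]
    · rw [Pi.single_eq_of_ne hy, mul_zero, mul_zero]
  have h := pwx_diag A.kT Gk.cyc (fun j => A.zp (show A.JT from j).1.2) hv x B
  rw [← pwx_zp_sum]
  exact h

/-- weights of the terms -/
private theorem pwx_wt (i : ZMod 2) (n : ℤ) (x : A.kT.part Z i) :
    x ∈ wt D.F A.ph (A.kT.part Z i) n ↔
      ∀ B : Finset A.JT, x.1 B ∈ wt D.F A.ph Z (n - B.card) := by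
  have hc : ∀ (c : D.Fˣ) (B : Finset A.JT), ((c ^ n : D.Fˣ) : D.F) =
      (c : D.F) ^ B.card * ((c ^ (n - B.card) : D.Fˣ) : D.F) := by
    intro c B
    rw [← Units.val_pow_eq_pow_val, ← Units.val_mul, ← zpow_natCast, ← zpow_add]
    congr 2
    ring
  constructor
  · intro hx B c
    have h1 := congrFun (congrArg Subtype.val (hx c)) B
    have h2 : (gam A.ph (Gk.bs (Gn.th c)) • x.1 : A.kT.Tot Z) B =
        (iot A.ph (algebraMap D.F A.S ((c ^ n : D.Fˣ) : D.F)) • x.1 : A.kT.Tot Z) B := h1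
    rw [A.pwx_th, A.kT.iot_smul, hc c B] at h2
    exact (A.pwx_cancel (pow_ne_zero _ c.ne_zero) _ _).1 h2
  · intro hx c
    refine Subtype.ext (funext fun B => ?_)
    show (gam A.ph (Gk.bs (Gn.th c)) • x.1 : A.kT.Tot Z) B =
        (iot A.ph (algebraMap D.F A.S ((c ^ n : D.Fˣ) : D.F)) • x.1 : A.kT.Tot Z) B
    rw [A.pwx_th, A.kT.iot_smul, hc c B]
    exact (A.pwx_cancel (pow_ne_zero _ c.ne_zero) _ _).2 (hx B c)

/-- eigenvectors of the terms -/
private theorem pwx_eg (i : ZMod 2) (j : ZMod A.k) (x : A.kT.part Z i) :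
    gam A.ph Gk.cyc • x = iot A.ph (algebraMap D.F A.S (A.zp j)) • x ↔
      ∀ B : Finset A.JT, gam A.ph Gk.cyc • x.1 B =
        iot A.ph (algebraMap D.F A.S (A.zp (j - ∑ x ∈ B, x.1.2))) • x.1 B := by
  have hc : ∀ B : Finset A.JT, A.zp j =
      A.zp (∑ x ∈ B, x.1.2) * A.zp (j - ∑ x ∈ B, x.1.2) := by
    intro B
    rw [← zp_add]
    congr 1
    ring
  constructor
  · intro hx B
    have h1 := congrFun (congrArg Subtype.val hx) B
    have h2 : (gam A.ph Gk.cyc • x.1 : A.kT.Tot Z) B =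
        (iot A.ph (algebraMap D.F A.S (A.zp j)) • x.1 : A.kT.Tot Z) B := h1
    rw [A.pwx_cyc, A.kT.iot_smul, hc B] at h2
    exact (A.pwx_cancel (A.pwx_zp_ne _) _ _).1 h2
  · intro hx
    refine Subtype.ext (funext fun B => ?_)
    show (gam A.ph Gk.cyc • x.1 : A.kT.Tot Z) B =
        (iot A.ph (algebraMap D.F A.S (A.zp j)) • x.1 : A.kT.Tot Z) B
    rw [A.pwx_cyc, A.kT.iot_smul, hc B]
    exact (A.pwx_cancel (A.pwx_zp_ne _) _ _).2 (hx B)

/-- the weight space as a subspace of `UL` -/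
private def pwxW (D : Dat.{u}) (M : Type u) [AddCommGroup M] [Module D.R M] (n : ℤ) :
    Submodule D.L (UL D M) := D.wtL M n

private theorem pwx_egi_smul {H : Type u} [AddCommGroup H] [Module A.R H] (j : ZMod A.k) (c : D.L)
    (y : A.Eg j H) : A.egi j (iot D.ph (MvPolynomial.C c) • y) =
      iot A.ph (A.avg (MvPolynomial.C c)) • A.egi j y := by
  rw [A.egi_smul, A.res_iot]

private theorem pwx_coe (hK : A.IsK Z) (i : ZMod 2) (j : ZMod A.k) (B : Finset A.JT)
    (y : A.Eg j (A.kT.part Z i)) (r : D.R) :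
    gam A.ph Gk.cyc • A.res r • (A.egi j y).1 B =
      iot A.ph (algebraMap D.F A.S (A.zp (j - ∑ x ∈ B, x.1.2))) • A.res r • (A.egi j y).1 B := by
  refine (A.eg_mem hK _ _).2 ?_ r
  have h1 := A.egi_mem j y 1
  rw [map_one, one_smul] at h1
  exact (A.pwx_eg i j _).1 h1 B

/-- the coordinate `B` -/
private def pwxC (hK : A.IsK Z) (i : ZMod 2) (j : ZMod A.k) (B : Finset A.JT) :
    UL D (A.Eg j (A.kT.part Z i)) →ₗ[D.L] UL D (A.Eg (j - ∑ x ∈ B, x.1.2) Z) where
  toFun := fun y => A.egk (j - ∑ x ∈ B, x.1.2) ((A.egi j y).1 B) (A.pwx_coe hK i j B y)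
  map_add' := fun y y' => by
    refine A.egi_inj _ ?_
    show (A.egi j (y + y' : A.Eg j (A.kT.part Z i))).1 B =
      (A.egi j y).1 B + (A.egi j y').1 B
    exact congrFun (congrArg Subtype.val (map_add (A.egi j) y y')) B
  map_smul' := fun c y => by
    refine A.egi_inj _ ?_
    show (A.egi j (iot D.ph (MvPolynomial.C c) • (show A.Eg j (A.kT.part Z i) from y))).1 B =
      A.egi _ (iot D.ph (MvPolynomial.C c) •
        A.egk (j - ∑ x ∈ B, x.1.2) ((A.egi j y).1 B) (A.pwx_coe hK i j B y))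
    rw [A.pwx_egi_smul, A.pwx_egi_smul, A.egi_egk]
    exact A.kT.iot_smul _ _ B

private theorem pwx_mem (hK : A.IsK Z) (i : ZMod 2) (j : ZMod A.k) (n : ℤ) (B : Finset A.JT)
    (y : UL D (A.Eg j (A.kT.part Z i))) (hy : y ∈ pwxW D (A.Eg j (A.kT.part Z i)) n) :
    A.pwxC hK i j B y ∈ pwxW D (A.Eg (j - ∑ x ∈ B, x.1.2) Z) (n - B.card) := by
  have h1 : A.egi j y ∈ wt D.F A.ph (A.kT.part Z i) n := (A.eg_wt j n y).1 hy
  exact (A.eg_wt _ _ _).2 ((A.pwx_wt i n _).1 h1 B)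

/-- all coordinates -/
private def pwxP (hK : A.IsK Z) (i : ZMod 2) (j : ZMod A.k) (n : ℤ) :
    pwxW D (A.Eg j (A.kT.part Z i)) n →ₗ[D.L]
      ∀ B : {B : Finset A.JT // (B.card : ZMod 2) = i},
        pwxW D (A.Eg (j - ∑ x ∈ B.1, x.1.2) Z) (n - B.1.card) :=
  LinearMap.pi fun B => (A.pwxC hK i j B.1).restrict (A.pwx_mem hK i j n B.1)

private theorem pwx_inj (hK : A.IsK Z) (i : ZMod 2) (j : ZMod A.k) (n : ℤ) :
    Function.Injective (A.pwxP hK i j n) := by
  intro y y' h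
  refine Subtype.ext (A.egi_inj j (Subtype.ext (funext fun B => ?_)))
  by_cases hB : (B.card : ZMod 2) = i
  · have h1 := congrArg Subtype.val (congrFun h ⟨B, hB⟩)
    exact congrArg (A.egi (j - ∑ x ∈ B, x.1.2)) h1
  · rw [(A.egi j y.1).2 B hB, (A.egi j y'.1).2 B hB]

private theorem pwx_surj (hK : A.IsK Z) (i : ZMod 2) (hP : A.IsK (A.kT.part Z i)) (j : ZMod A.k)
    (n : ℤ) : Function.Surjective (A.pwxP hK i j n) := by
  intro z
  let x : A.kT.Tot Z := fun B : Finset A.JT => if h : (B.card : ZMod 2) = i then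
    A.egi (j - ∑ x ∈ B, x.1.2) (z ⟨B, h⟩).1 else 0
  have hx1 : ∀ (B : Finset A.JT) (h : (B.card : ZMod 2) = i), x B =
      A.egi (j - ∑ x ∈ B, x.1.2) (z ⟨B, h⟩).1 := fun B h => dif_pos h
  have hx0 : ∀ (B : Finset A.JT), (B.card : ZMod 2) ≠ i → x B = 0 := fun B h => dif_neg h
  let x' : A.kT.part Z i := ⟨x, hx0⟩
  have he : gam A.ph Gk.cyc • x' = iot A.ph (algebraMap D.F A.S (A.zp j)) • x' := by
    refine (A.pwx_eg i j x').2 fun B => ?_
    show gam A.ph Gk.cyc • x B = _ • x B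
    by_cases hB : (B.card : ZMod 2) = i
    · rw [hx1 B hB]
      have h1 := A.egi_mem (j - ∑ x ∈ B, x.1.2) (z ⟨B, hB⟩).1 1
      rw [map_one, one_smul] at h1
      exact h1
    · rw [hx0 B hB, smul_zero, smul_zero]
  have hw : x' ∈ wt D.F A.ph (A.kT.part Z i) n := by
    refine (A.pwx_wt i n x').2 fun B => ?_
    show x B ∈ _
    by_cases hB : (B.card : ZMod 2) = i
    · rw [hx1 B hB]
      exact (A.eg_wt _ _ _).1 (z ⟨B, hB⟩).2
    · rw [hx0 B hB]
      exact AddSubgroup.zero_mem _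
  let y : A.Eg j (A.kT.part Z i) := A.egk j x' ((A.eg_mem hP j x').2 he)
  have hy : y ∈ wt D.F D.ph (A.Eg j (A.kT.part Z i)) n := (A.eg_wt j n y).2 hw
  refine ⟨⟨y, hy⟩, ?_⟩
  funext B
  refine Subtype.ext (A.egi_inj _ ?_)
  show x B.1 = _
  rw [hx1 B.1 B.2]

theorem part_hf (hK : A.IsK Z) (hW : ∀ a, D.IsW (A.Eg a Z)) (i : ZMod 2)
    (hP : A.IsK (A.kT.part Z i)) (j : ZMod A.k) (n : ℤ) :
    D.FdW (A.Eg j (A.kT.part Z i)) n ∧
    D.hf (A.Eg j (A.kT.part Z i)) n = ∑ B : Finset A.JT, if (B.card : ZMod 2) = i then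
      D.hf (A.Eg (j - ∑ x ∈ B, x.1.2) Z) (n - B.card) else 0 := by
  have hf : ∀ B : {B : Finset A.JT // (B.card : ZMod 2) = i}, Module.Finite D.L
      (pwxW D (A.Eg (j - ∑ x ∈ B.1, x.1.2) Z) (n - B.1.card)) := fun B => (hW _).fd _
  let e := LinearEquiv.ofBijective (A.pwxP hK i j n) ⟨A.pwx_inj hK i j n, A.pwx_surj hK i hP j n⟩
  constructor
  · exact Module.Finite.equiv e.symm
  · have h1 : D.hf (A.Eg j (A.kT.part Z i)) n =
        Module.finrank D.L (pwxW D (A.Eg j (A.kT.part Z i)) n) := rfl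
    rw [h1, e.finrank_eq, Module.finrank_pi_fintype, ← Finset.sum_filter]
    exact (Finset.sum_subtype _ (fun x => by simp) (fun B : Finset A.JT =>
      D.hf (A.Eg (j - ∑ x ∈ B, x.1.2) Z) (n - B.card))).symm

theorem part_isW (hK : A.IsK Z) (hW : ∀ a, D.IsW (A.Eg a Z)) (i : ZMod 2)
    (hP : A.IsK (A.kT.part Z i)) (j : ZMod A.k) :
    D.IsW (A.Eg j (A.kT.part Z i)) := by
  refine ⟨A.eg_wts hP j, fun n => (A.part_hf hK hW i hP j n).1, ?_⟩
  choose n0 h0 using fun a => (hW a).bd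
  obtain ⟨N, hN⟩ := (Set.finite_range n0).bddBelow
  refine ⟨N, fun n hn => ?_⟩
  rw [eq_bot_iff]
  intro y hy
  have h1 : A.egi j y ∈ wt D.F A.ph (A.kT.part Z i) n := (A.eg_wt j n y).1 hy
  have h2 : A.egi j y = 0 := by
    refine Subtype.ext (funext fun B => ?_)
    have h3 : A.egk (j - ∑ x ∈ B, x.1.2) ((A.egi j y).1 B) (A.pwx_coe hK i j B y) ∈
        wt D.F D.ph (A.Eg (j - ∑ x ∈ B, x.1.2) Z) (n - B.card) :=
      (A.eg_wt _ _ _).2 ((A.pwx_wt i n _).1 h1 B)
    have h4 : N ≤ n0 (j - ∑ x ∈ B, x.1.2) := hN ⟨_, rfl⟩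
    rw [h0 _ _ (by omega)] at h3
    have h5 := congrArg (A.egi (j - ∑ x ∈ B, x.1.2)) (AddSubgroup.mem_bot.1 h3)
    rw [A.egi_egk, map_zero] at h5
    exact h5
  have h6 : y = 0 := A.egi_inj j (by rw [h2, map_zero])
  rw [h6]
  exact AddSubgroup.zero_mem _

end Adm

end MSA
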