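import Mathlib
import Pool.Agent.MSA.PwCl
import Pool.Agent.MSA.PwPk
import Pool.Agent.MSA.PwX
import Pool.Agent.MSA.PwKap
import Pool.Agent.MSA.PkA
import Pool.Agent.MSA.CA

/-!
# Weights of the Adams operation

PROOFS. `Z = A.Pk M`, `hW = h.isW` (part NUM, `Dat.IsG.isW`), `hK = A.isK_pk h.wts`, `A.IsK (A.kT.part Z i)` =
`A.isK_sub (A.isK_tot A.kT A.kTw A.kTc hK) _`. `psi_euler`: `chi_eq (A.hfE j n) (A.tch Z)`, the terms are in
the class `cW` by `part_isW` (with `isW_eg_pk`). `psi_hf`: `psi_euler` for `j = 0, 1` and `part_hf` for `i = 0, 1`: the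
alternating sum over `i` is `∑_B (-1)^|B| (hf (Eg (j - ∑B) Z) (n - |B|))` (`(B.card : ZMod 2) = 0` iff `B.card` is even);
subtract `j = 1` from `j = 0` and use `hf_eg_pk` with `a = 0 - ∑B`, `b = 1 - ∑B` (`a = 0 ↔ ∑B = 0`, `b = 0 ↔ ∑B = 1`).
`psi_mom`: the four eigenspaces `E` satisfy `D.IsG E` (`pk_egG0`, `pk_egG1`), so `D.kap E` has finite support
(`Dat.IsG.kapFin`) and the `finsum`s can be combined (`finsum_add_distrib`, `finsum_sub_distrib`): the left side is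
`∑ᶠ n, kapf p (χ) n * n^c` with `χ` the left side of `psi_hf` (`D.kap E = kapf p (hf E)` by definition, `kapf_sub`), which
is `∑ᶠ n, dil k (kapf p (hf M)) n * n^c` by `psi_hf` and `pw_kap`; `dil_mom`.
-/

set_option autoImplicit false
set_option linter.unusedSectionVars false

noncomputable section

namespace MSA

universe u

namespace Adm

variable {D : Dat.{u}} (A : Adm D) {M : Type u} [AddCommGroup M] [Module D.R M]

theorem psi_euler (h : D.IsG M) (j : ZMod A.k) (n : ℤ) :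
    (D.hf (A.Eg j (A.tch (A.Pk M)).H0) n : ℤ) - (D.hf (A.Eg j (A.tch (A.Pk M)).H1) n : ℤ) =
      (D.hf (A.Eg j (A.kT.part (A.Pk M) 0)) n : ℤ) -
        (D.hf (A.Eg j (A.kT.part (A.Pk M) 1)) n : ℤ) := by
  have hW := h.isW
  have hK : A.IsK (A.Pk M) := A.isK_pk h.wts
  have hP : ∀ i, A.IsK (A.kT.part (A.Pk M) i) := fun i =>
    A.isK_sub (A.isK_tot A.kT A.kTw A.kTc hK) _
  have hE : ∀ a, D.IsW (A.Eg a (A.Pk M)) := fun a => A.isW_eg_pk hW hK a
  have h0 : A.InW (A.kT.part (A.Pk M) 0) := ⟨hP 0, fun j => A.part_isW hK hE 0 (hP 0) j⟩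
  have h1 : A.InW (A.kT.part (A.Pk M) 1) := ⟨hP 1, fun j => A.part_isW hK hE 1 (hP 1) j⟩
  exact chi_eq (A.hfE j n) (A.tch (A.Pk M)) h0 h1

private theorem card_cast_zero (m : ℕ) : ((m : ZMod 2) = 0) ↔ Even m := by
  rw [ZMod.natCast_eq_zero_iff, even_iff_two_dvd]

private theorem card_cast_one (m : ℕ) : ((m : ZMod 2) = 1) ↔ ¬ Even m := by
  rw [← card_cast_zero]
  have : ∀ x : ZMod 2, x = 1 ↔ ¬ x = 0 := by decide
  exact this _

private theorem psi_alt (h : D.IsG M) (j : ZMod A.k) (n : ℤ) :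
    (D.hf (A.Eg j (A.tch (A.Pk M)).H0) n : ℤ) - (D.hf (A.Eg j (A.tch (A.Pk M)).H1) n : ℤ) =
      ∑ B : Finset A.JT, (-1) ^ B.card *
        (D.hf (A.Eg (j - ∑ x ∈ B, x.1.2) (A.Pk M)) (n - B.card) : ℤ) := by
  have hW := h.isW
  have hK : A.IsK (A.Pk M) := A.isK_pk h.wts
  have hP : ∀ i, A.IsK (A.kT.part (A.Pk M) i) := fun i =>
    A.isK_sub (A.isK_tot A.kT A.kTw A.kTc hK) _
  have hE : ∀ a, D.IsW (A.Eg a (A.Pk M)) := fun a => A.isW_eg_pk hW hK a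
  rw [A.psi_euler h j n, (A.part_hf hK hE 0 (hP 0) j n).2, (A.part_hf hK hE 1 (hP 1) j n).2]
  push_cast
  rw [← Finset.sum_sub_distrib]
  refine Finset.sum_congr rfl fun B _ => ?_
  by_cases hB : Even B.card
  · rw [if_pos ((card_cast_zero _).2 hB), if_neg (fun h => (card_cast_one _).1 h hB),
      hB.neg_one_pow]
    ring
  · rw [if_neg (fun h => hB ((card_cast_zero _).1 h)), if_pos ((card_cast_one _).2 hB),
      (Nat.not_even_iff_odd.1 hB).neg_one_pow]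
    ring

theorem psi_hf (h : D.IsG M) (n : ℤ) :
    ((D.hf (A.Eg 0 (A.tch (A.Pk M)).H0) n : ℤ) - (D.hf (A.Eg 1 (A.tch (A.Pk M)).H0) n : ℤ)) -
      ((D.hf (A.Eg 0 (A.tch (A.Pk M)).H1) n : ℤ) - (D.hf (A.Eg 1 (A.tch (A.Pk M)).H1) n : ℤ)) =
    ∑ B : Finset {x : Fin D.p × ZMod A.k // x.2 ≠ 0},
      (-1) ^ B.card * (((if ∑ x ∈ B, x.1.2 = 0 then 1 else 0) -
        (if ∑ x ∈ B, x.1.2 = 1 then 1 else 0)) *
          dil A.k (fun m => (D.hf M m : ℤ)) (n - B.card)) := by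
  have hW := h.isW
  have hK : A.IsK (A.Pk M) := A.isK_pk h.wts
  have e1 : ((D.hf (A.Eg 0 (A.tch (A.Pk M)).H0) n : ℤ) -
      (D.hf (A.Eg 1 (A.tch (A.Pk M)).H0) n : ℤ)) -
      ((D.hf (A.Eg 0 (A.tch (A.Pk M)).H1) n : ℤ) - (D.hf (A.Eg 1 (A.tch (A.Pk M)).H1) n : ℤ)) =
      ((D.hf (A.Eg 0 (A.tch (A.Pk M)).H0) n : ℤ) - (D.hf (A.Eg 0 (A.tch (A.Pk M)).H1) n : ℤ)) -
      ((D.hf (A.Eg 1 (A.tch (A.Pk M)).H0) n : ℤ) -
        (D.hf (A.Eg 1 (A.tch (A.Pk M)).H1) n : ℤ)) := by ring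
  rw [e1, A.psi_alt h 0 n, A.psi_alt h 1 n, ← Finset.sum_sub_distrib]
  refine Finset.sum_congr rfl fun B _ => ?_
  rw [← mul_sub, A.hf_eg_pk hW hK]
  have e2 : (0 - ∑ x ∈ B, x.1.2 = 0) ↔ (∑ x ∈ B, x.1.2 = 0) := by
    rw [zero_sub, neg_eq_zero]
  have e3 : (1 - ∑ x ∈ B, x.1.2 = 0) ↔ (∑ x ∈ B, x.1.2 = 1) := by
    rw [sub_eq_zero]
    exact eq_comm
  simp only [e2, e3]
  rfl

private theorem kap_eq (N : Type u) [AddCommGroup N] [Module D.R N] (n : ℤ) :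
    D.kap N n = kapf D.p (fun m => (D.hf N m : ℤ)) n := rfl

/-- The Adams operation multiplies the `c`-th moment by `k^c`. -/
theorem psi_mom (h : D.IsG M) (c : ℕ) :
    (D.mom (A.Eg 0 (A.tch (A.Pk M)).H0) c - D.mom (A.Eg 1 (A.tch (A.Pk M)).H0) c) -
      (D.mom (A.Eg 0 (A.tch (A.Pk M)).H1) c - D.mom (A.Eg 1 (A.tch (A.Pk M)).H1) c) =
    (A.k : ℤ) ^ c * D.mom M c := by
  have g : ∀ (N : Type u) [AddCommGroup N] [Module D.R N], D.IsG N →
      (Function.support fun n : ℤ => D.kap N n * n ^ c).Finite := by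
    intro N _ _ hN
    refine hN.kapFin.subset fun n hn => ?_
    intro h0
    apply hn
    show D.kap N n * n ^ c = 0
    rw [h0, zero_mul]
  have g00 := g _ (A.pk_egG0 h 0)
  have g10 := g _ (A.pk_egG0 h 1)
  have g01 := g _ (A.pk_egG1 h 0)
  have g11 := g _ (A.pk_egG1 h 1)
  unfold Dat.mom
  rw [← finsum_sub_distrib g00 g10, ← finsum_sub_distrib g01 g11,
    ← finsum_sub_distrib ((g00.union g10).subset (Function.support_sub _ _))
      ((g01.union g11).subset (Function.support_sub _ _)),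
    ← dil_mom A.k (NeZero.ne _)]
  refine finsum_congr fun n => ?_
  rw [show dil A.k (D.kap M) n = dil A.k (kapf D.p (fun m => (D.hf M m : ℤ))) n from rfl,
    ← pw_kap D.p A.k (fun m => (D.hf M m : ℤ)) n, ← sub_mul, ← sub_mul, ← sub_mul]
  congr 1
  rw [kap_eq, kap_eq, kap_eq, kap_eq, ← kapf_sub, ← kapf_sub, ← kapf_sub]
  congr 1
  funext m
  exact A.psi_hf h m

end Adm

end MSA
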