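import Mathlib
import Pool.Agent.MSA.Psi
import Pool.Agent.MSA.PsiW

/-!
# Weights of the Adams operation: reduction to prime objects
-/

set_option autoImplicit false
set_option linter.unusedSectionVars false

noncomputable section

namespace MSA

universe u v w

namespace Adm

variable {D : Dat.{u}} (A : Adm D)

variable {Cl : Cls.{u} D.R} {B : Type v} [AddCommGroup B] (e : Adf Cl B)

theorem psiv_eq (M : Type u) [AddCommGroup M] [Module D.R M] : A.psiv e M =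
    (e.e (A.Eg 0 (A.tch (A.Pk M)).H0) - e.e (A.Eg 1 (A.tch (A.Pk M)).H0)) -
      (e.e (A.Eg 0 (A.tch (A.Pk M)).H1) - e.e (A.Eg 1 (A.tch (A.Pk M)).H1)) := rfl

/-- if `e` vanishes on a class then so does `psi e` -/
theorem psi_van {C : Cls.{u} D.R} (hS : D.Spp C)
    (he : ∀ (X : Type u) [AddCommGroup X] [Module D.R X], C.P X → e.e X = 0)
    {M : Type u} [AddCommGroup M] [Module D.R M] (hM : C.P M) : A.psiv e M = 0 := by
  obtain ⟨h0, h1⟩ := A.psi_in hS hM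
  rw [psiv_eq, he _ (h0.e 0), he _ (h0.e 1), he _ (h1.e 0), he _ (h1.e 1), sub_zero, sub_zero]

theorem cy_kil (q : Ideal D.S) (hq : StI D.ph q) (s : D.S) (hs : s ∈ q) (x : D.Cy q) :
    iot D.ph s • x = 0 := by
  obtain ⟨f, rfl⟩ := (idl D.ph q).mkQ_surjective x
  rw [← map_smul]
  have h : iot D.ph s • f ∈ idl D.ph q := by
    have h1 : f = toSr D.ph ((toSr D.ph).symm f) := ((toSr D.ph).apply_symm_apply f).symm
    rw [h1, sr_iot, mem_idl D.ph hq]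
    exact q.mul_mem_right _ hs
  exact (Submodule.Quotient.mk_eq_zero _).mpr h

/-- the weight of `psi` on a prime object -/
theorem psi_prime {C : Cls.{u} D.R} (hS : D.Spp C) {c : ℕ} {q : Ideal D.S} (hq : StI D.ph q)
    (hP : C.P (D.Cy q)) (h0 : D.mom (D.Cy q) c ≠ 0)
    (hrk : ∀ (N : Type u) [AddCommGroup N] [Module D.R N], C.P N →
      (∀ s ∈ q, ∀ x : N, iot D.ph s • x = 0) →
      ∃ m : ℤ, D.mom N c = m * D.mom (D.Cy q) c ∧ e.e N = m • e.e (D.Cy q)) :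
    A.psiv e (D.Cy q) = (A.k : ℤ) ^ c • e.e (D.Cy q) := by
  obtain ⟨hg, hcl⟩ := hS _ hP
  obtain ⟨i0, i1⟩ := A.psi_in hS hP
  have hz : A.Kil0 (A.Pk (D.Cy q)) q := A.kil0_pk q (cy_kil q hq)
  obtain ⟨k0, k1⟩ := A.tch_kil0 q hz
  obtain ⟨a, ha, ha'⟩ := hrk _ (i0.e 0) (A.eg_kil i0.y q k0 0)
  obtain ⟨b, hb, hb'⟩ := hrk _ (i0.e 1) (A.eg_kil i0.y q k0 1)
  obtain ⟨c', hc, hc'⟩ := hrk _ (i1.e 0) (A.eg_kil i1.y q k1 0)
  obtain ⟨d, hd, hd'⟩ := hrk _ (i1.e 1) (A.eg_kil i1.y q k1 1)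
  have h := A.psi_mom hg c
  rw [ha, hb, hc, hd] at h
  have h2 : ((a - b) - (c' - d)) * D.mom (D.Cy q) c = (A.k : ℤ) ^ c * D.mom (D.Cy q) c := by
    rw [← h]
    ring
  have h3 := mul_right_cancel₀ h0 h2
  rw [psiv_eq, ha', hb', hc', hd', ← h3]
  simp only [sub_smul]

end Adm

end MSA
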