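import Mathlib
import Pool.Agent.MSA.WeiA
import Pool.Agent.MSA.Dv

/-!
# Weights of the Adams operation
-/

set_option autoImplicit false
set_option linter.unusedSectionVars false

noncomputable section

namespace MSA

universe u v w

namespace Adm

variable {D : Dat.{u}} (A : Adm D)

/-- The Adams operation has weight `k^j` on objects of codimension `j`, modulo codimension `j + 1`. -/
theorem psi_wei {B : Type v} [AddCommGroup B] (e : Adf (D.cA 2) B) (j : ℕ) (h2 : 2 ≤ j)
    (hp : j < D.p) (he : ∀ (N : Type u) [AddCommGroup N] [Module D.R N], D.IsA N (j + 1) → e.e N = 0)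
    {M : Type u} [AddCommGroup M] [Module D.R M] (hM : D.IsA M j) :
    A.psiv e M = (A.k : ℤ) ^ j • e.e M := by
  obtain ⟨l, hq, _, _, hl⟩ := Dat.devissage.{u, v} D h2 hp hM
  have h3 := hl B e he
  have h4 := hl B (A.psiA (D.cA_spp 2) e)
    (fun N _ _ hN => A.psi_van e (D.cA_spp (j + 1)) (fun X _ _ hX => he X hX) hN)
  have h5 : A.psiv e M = (A.psiA (D.cA_spp 2) e).e M := rfl
  rw [h5, h4, h3, List.smul_sum, List.map_map]
  congr 1
  refine List.map_congr_left fun q hql => ?_
  have hQ := hq q hql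
  have hk : A.psiv e (D.Cy q) = (A.k : ℤ) ^ j • e.e (D.Cy q) := by
    refine A.psi_prime e (D.cA_spp j) hQ.st hQ.a ?_ ?_
    · intro h0
      exact hQ.na (D.isA_succ hQ.a h0)
    · intro N _ _ hN hk
      obtain ⟨m, h6, h7⟩ := Dat.rk.{u, v} D h2 hp hQ hN hk
      refine ⟨m, h6, ?_⟩
      rw [h7 B e he, natCast_zsmul]
  exact hk

end Adm

end MSA
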