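import Mathlib
import Pool.Agent.MSA.Mn2
import Pool.Agent.MSA.Tf
import Pool.Agent.MSA.Twv
import Pool.Agent.MSA.Fl
import Pool.Agent.MSA.Wei
import Pool.Agent.MSA.CiZ

/-!
# The main theorem of the ADM part (part CLO)

If `n` times a sum of families `(y; g / h)` is the tame symbol of an element of `K₂` of the function field, then
`N * ∑ (e (S / (y, g)) - e (S / (y, h))) = 0` for every additive function `e` on the modules of codimension
at least two, `N = ∏_{3 ≤ j < p} (k^2 - k^j)`.
-/

set_option autoImplicit false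
set_option linter.unusedSectionVars false

noncomputable section

namespace MSA

universe u v w v'

namespace Dat

variable (D : Dat.{u})

/-- Additive functions that vanish in codimension three vanish on closed families. -/
theorem rho_closed (hp : 2 < D.p) (l : List D.X.Trip) (n : ℕ) (hn : 0 < n)
    (w : Pool.Agent.MK.K2 D.X.K)
    (hw : n • (l.map Pool.Agent.MSX.Dat.Trip.fam).sum = D.X.tmK w)
    {B : Type v} [AddCommGroup B] (e : Adf (D.cA 2) B) (he : e.Van (D.cA 3)) :
    D.rho l e = 0 := by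
  rw [D.rho_fam]
  refine D.torfree hp (fun i : Bool × Fin l.length =>
    D.CI (l.get i.2).y (bif i.1 then (l.get i.2).g else (l.get i.2).h)) ?_ _ (2 * n : ℤ)
    (by positivity) ?_ e he
  · rintro ⟨b, i⟩
    have T := l.get i
    cases b
    · exact D.isA_CI (l.get i).hy (l.get i).hh (l.get i).y0 (l.get i).h0
        (D.rp_of_pt (l.get i).hy.1 (l.get i).y0 (l.get i).ch)
    · exact D.isA_CI (l.get i).hy (l.get i).hg (l.get i).y0 (l.get i).g0
        (D.rp_of_pt (l.get i).hy.1 (l.get i).y0 (l.get i).cg)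
  · intro e' he'
    have h1 := D.closed_k2 e' D.gcA (fun m M _ _ hM => D.tw_van le_rfl hp e' he' hM m) l n w hw
    rw [D.rho_fam] at h1
    exact h1

/-- The main theorem. -/
theorem main (A : Adm D) (hp : 2 < D.p) (l : List D.X.Trip) (n : ℕ) (hn : 0 < n)
    (w : Pool.Agent.MK.K2 D.X.K)
    (hw : n • (l.map Pool.Agent.MSX.Dat.Trip.fam).sum = D.X.tmK w)
    {B : Type v} [AddCommGroup B] (e : Adf (D.cA 2) B) :
    (∏ j ∈ Finset.Ico 3 D.p, ((A.k : ℤ) ^ 2 - (A.k : ℤ) ^ j)) •
      (l.map (fun T => e.e (D.CI T.y T.g) - e.e (D.CI T.y T.h))).sum = 0 :=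
  D.main_closed hp (fun e => A.psiA (D.cA_spp 2) e)
    (fun e _ _ _ _ hy hg y0 g0 h => A.psi_ci e hy hg y0 g0 h)
    (fun e j h3 hj he M _ _ hM => A.psi_wei e j (by omega) hj he hM)
    (fun e _ _ _ _ _ _ hM hM' h => D.fl hM hM' h e) l
    (fun e he => D.rho_closed hp l n hn w hw e he) e

end Dat

end MSA
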