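import Mathlib
import Pool.Agent.MSA.Ch

/-!
# Subcomplexes, quotients, cones
-/

set_option autoImplicit false

noncomputable section

namespace MSA

universe u v w

namespace Ch

variable {R : Type w} [Ring R]

/-- subcomplex -/
def sub (X : Ch.{u} R) (A0 : Submodule R X.X0) (A1 : Submodule R X.X1)
    (h0 : ∀ x ∈ A0, X.d0 x ∈ A1) (h1 : ∀ x ∈ A1, X.d1 x ∈ A0) : Ch.{u} R where
  X0 := A0
  X1 := A1
  d0 := X.d0.restrict h0
  d1 := X.d1.restrict h1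
  h10 := fun x => Subtype.ext (X.h10 x.1)
  h01 := fun x => Subtype.ext (X.h01 x.1)

/-- quotient complex -/
def quo (X : Ch.{u} R) (A0 : Submodule R X.X0) (A1 : Submodule R X.X1)
    (h0 : ∀ x ∈ A0, X.d0 x ∈ A1) (h1 : ∀ x ∈ A1, X.d1 x ∈ A0) : Ch.{u} R where
  X0 := X.X0 ⧸ A0
  X1 := X.X1 ⧸ A1
  d0 := A0.mapQ A1 X.d0 h0
  d1 := A1.mapQ A0 X.d1 h1
  h10 := fun x => by
    obtain ⟨x, rfl⟩ := A0.mkQ_surjective x
    rw [Submodule.mkQ_apply, Submodule.mapQ_apply, Submodule.mapQ_apply, X.h10,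
      Submodule.Quotient.mk_zero]
  h01 := fun x => by
    obtain ⟨x, rfl⟩ := A1.mkQ_surjective x
    rw [Submodule.mkQ_apply, Submodule.mapQ_apply, Submodule.mapQ_apply, X.h01,
      Submodule.Quotient.mk_zero]

section

variable (X : Ch.{u} R) (A0 : Submodule R X.X0) (A1 : Submodule R X.X1)
variable (h0 : ∀ x ∈ A0, X.d0 x ∈ A1) (h1 : ∀ x ∈ A1, X.d1 x ∈ A0)

theorem sub_d0 (x : A0) : A1.subtype ((X.sub A0 A1 h0 h1).d0 x) = X.d0 x.1 := rfl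

theorem sub_d1 (x : A1) : A0.subtype ((X.sub A0 A1 h0 h1).d1 x) = X.d1 x.1 := rfl

theorem quo_d0 (x : X.X0) : (X.quo A0 A1 h0 h1).d0 (A0.mkQ x) = A1.mkQ (X.d0 x) := rfl

theorem quo_d1 (x : X.X1) : (X.quo A0 A1 h0 h1).d1 (A1.mkQ x) = A0.mkQ (X.d1 x) := rfl

/-- the short exact sequence of a subcomplex -/
def sesSub : Ses (X.sub A0 A1 h0 h1) X (X.quo A0 A1 h0 h1) where
  i := ⟨A0.subtype, A1.subtype, fun _ => rfl, fun _ => rfl⟩
  q := ⟨A0.mkQ, A1.mkQ, fun _ => rfl, fun _ => rfl⟩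
  inj0 := A0.injective_subtype
  inj1 := A1.injective_subtype
  sur0 := A0.mkQ_surjective
  sur1 := A1.mkQ_surjective
  ex0 := fun y => by
    show A0.mkQ y = 0 ↔ _
    rw [Submodule.mkQ_apply, Submodule.Quotient.mk_eq_zero]
    exact ⟨fun h => ⟨⟨y, h⟩, rfl⟩, fun ⟨x, hx⟩ => hx ▸ x.2⟩
  ex1 := fun y => by
    show A1.mkQ y = 0 ↔ _
    rw [Submodule.mkQ_apply, Submodule.Quotient.mk_eq_zero]
    exact ⟨fun h => ⟨⟨y, h⟩, rfl⟩, fun ⟨x, hx⟩ => hx ▸ x.2⟩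

end

/-- The cone of a morphism: `(y, x) ↦ (d y + f x, - d x)`. -/
def cone {X Y : Ch.{u} R} (f : Hom X Y) : Ch.{u} R where
  X0 := Y.X0 × X.X1
  X1 := Y.X1 × X.X0
  d0 := LinearMap.prod (Y.d0.coprod f.f1) (- (X.d1 ∘ₗ LinearMap.snd R Y.X0 X.X1))
  d1 := LinearMap.prod (Y.d1.coprod f.f0) (- (X.d0 ∘ₗ LinearMap.snd R Y.X1 X.X0))
  h10 := fun x => by
    refine Prod.ext ?_ ?_
    · show Y.d1 (Y.d0 x.1 + f.f1 x.2) + f.f0 (- X.d1 x.2) = 0
      rw [map_add, Y.h10, zero_add, f.c1, map_neg, add_neg_cancel]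
    · show - X.d0 (- X.d1 x.2) = 0
      rw [map_neg, X.h01, neg_zero, neg_zero]
  h01 := fun x => by
    refine Prod.ext ?_ ?_
    · show Y.d0 (Y.d1 x.1 + f.f0 x.2) + f.f1 (- X.d0 x.2) = 0
      rw [map_add, Y.h01, zero_add, f.c0, map_neg, add_neg_cancel]
    · show - X.d1 (- X.d0 x.2) = 0
      rw [map_neg, X.h10, neg_zero, neg_zero]

theorem cone_d0 {X Y : Ch.{u} R} (f : Hom X Y) (y : Y.X0) (x : X.X1) :
    (cone f).d0 (y, x) = (Y.d0 y + f.f1 x, - X.d1 x) := rfl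

theorem cone_d1 {X Y : Ch.{u} R} (f : Hom X Y) (y : Y.X1) (x : X.X0) :
    (cone f).d1 (y, x) = (Y.d1 y + f.f0 x, - X.d0 x) := rfl

/-- the short exact sequence `Y → cone f → X[1]` -/
def sesCone {X Y : Ch.{u} R} (f : Hom X Y) : Ses Y (cone f) X.sh where
  i := ⟨LinearMap.inl R Y.X0 X.X1, LinearMap.inl R Y.X1 X.X0, fun x => by
      show (cone f).d0 (x, 0) = (Y.d0 x, 0)
      rw [cone_d0, map_zero, map_zero, add_zero, neg_zero], fun x => by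
      show (cone f).d1 (x, 0) = (Y.d1 x, 0)
      rw [cone_d1, map_zero, map_zero, add_zero, neg_zero]⟩
  q := ⟨LinearMap.snd R Y.X0 X.X1,
    (- LinearMap.snd R Y.X1 X.X0 : (Y.X1 × X.X0) →ₗ[R] X.X0), fun x => by
      show X.d1 x.2 = - (- X.d1 x.2)
      rw [neg_neg], fun x => by
      show X.d0 (- x.2) = - X.d0 x.2
      rw [map_neg]⟩
  inj0 := LinearMap.inl_injective
  inj1 := LinearMap.inl_injective
  sur0 := fun x => ⟨(0, x), rfl⟩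
  sur1 := fun x => ⟨(0, - x), by
    show - (- x) = x
    rw [neg_neg]⟩
  ex0 := fun y => by
    constructor
    · intro h
      exact ⟨y.1, Prod.ext rfl (Eq.symm h)⟩
    · rintro ⟨x, rfl⟩
      rfl
  ex1 := fun y => by
    constructor
    · intro h
      have h2 : - y.2 = 0 := h
      exact ⟨y.1, Prod.ext rfl (neg_eq_zero.1 h2).symm⟩
    · rintro ⟨x, rfl⟩
      show - (0 : X.X0) = 0
      rw [neg_zero]

/-- the identity -/
def Hom.id (X : Ch.{u} R) : Hom X X := ⟨LinearMap.id, LinearMap.id, fun _ => rfl, fun _ => rfl⟩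

/-- composition -/
def Hom.comp {X Y Z : Ch.{u} R} (g : Hom Y Z) (f : Hom X Y) : Hom X Z :=
  ⟨g.f0 ∘ₗ f.f0, g.f1 ∘ₗ f.f1, fun x => by
    show Z.d0 (g.f0 (f.f0 x)) = g.f1 (f.f1 (X.d0 x))
    rw [g.c0, f.c0], fun x => by
    show Z.d1 (g.f1 (f.f1 x)) = g.f0 (f.f0 (X.d1 x))
    rw [g.c1, f.c1]⟩

/-- shift of a morphism -/
def Hom.sh {X Y : Ch.{u} R} (f : Hom X Y) : Hom X.sh Y.sh := ⟨f.f1, f.f0, f.c1, f.c0⟩

/-- shift of a short exact sequence -/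
def Ses.sh {X Y Z : Ch.{u} R} (s : Ses X Y Z) : Ses X.sh Y.sh Z.sh where
  i := s.i.sh
  q := s.q.sh
  inj0 := s.inj1
  inj1 := s.inj0
  sur0 := s.sur1
  sur1 := s.sur0
  ex0 := s.ex1
  ex1 := s.ex0

end Ch

end MSA
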