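import Mathlib
import Pool.Agent.MSA.Rdf
import Pool.Agent.MSA.Rcx
import Pool.Agent.MSA.Wt

/-!
# The maximal ideal, the filtration by weights, exactness in a weight
-/

set_option autoImplicit false
set_option linter.unusedSectionVars false

noncomputable section

namespace MSA

universe u v w

namespace Dat

variable (D : Dat.{u})

section

variable (X : Type u) [AddCommGroup X] [Module D.R X]

/-- `(x_0, ..., x_{p-1}) X` -/
def mP : Submodule D.R X :=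
  Submodule.span D.R {z | ∃ (j : Fin D.p) (x : X), z = iot D.ph (MvPolynomial.X j) • x}

/-- the submodule generated by the weights `≤ N` -/
def fil (N : ℤ) : Submodule D.R X :=
  Submodule.span D.R {x | ∃ n ≤ N, x ∈ wt D.F D.ph X n}

end

variable {X Y : Type u} [AddCommGroup X] [Module D.R X] [AddCommGroup Y] [Module D.R Y]

theorem mem_mP_of (j : Fin D.p) (x : X) : iot D.ph (MvPolynomial.X j) • x ∈ D.mP X :=
  Submodule.subset_span ⟨j, x, rfl⟩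

theorem mem_fil_of {N n : ℤ} (hn : n ≤ N) {x : X} (hx : x ∈ wt D.F D.ph X n) : x ∈ D.fil X N :=
  Submodule.subset_span ⟨n, hn, hx⟩

theorem mP_map (f : X →ₗ[D.R] Y) {x : X} (hx : x ∈ D.mP X) : f x ∈ D.mP Y := by
  have h : D.mP X ≤ (D.mP Y).comap f := by
    refine Submodule.span_le.2 ?_
    rintro _ ⟨j, x, rfl⟩
    show f _ ∈ D.mP Y
    rw [map_smul]
    exact D.mem_mP_of j (f x)
  exact h hx

theorem fil_map (f : X →ₗ[D.R] Y) {N : ℤ} {x : X} (hx : x ∈ D.fil X N) : f x ∈ D.fil Y N := by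
  have h : D.fil X N ≤ (D.fil Y N).comap f := by
    refine Submodule.span_le.2 ?_
    rintro x ⟨n, hn, hx⟩
    exact D.mem_fil_of hn (wt_map f hx)
  exact h hx

theorem fil_mono {N N' : ℤ} (h : N ≤ N') : D.fil X N ≤ D.fil X N' := by
  refine Submodule.span_le.2 ?_
  rintro x ⟨n, hn, hx⟩
  exact D.mem_fil_of (hn.trans h) hx

/-- the filtration on complexes -/
def filC (X : Ch.{u} D.R) (N : ℤ) : Ch.{u} D.R :=
  X.sub (D.fil X.X0 N) (D.fil X.X1 N) (fun _ => D.fil_map X.d0) (fun _ => D.fil_map X.d1)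

/-- the quotient by the filtration -/
def quoC (X : Ch.{u} D.R) (N : ℤ) : Ch.{u} D.R :=
  X.quo (D.fil X.X0 N) (D.fil X.X1 N) (fun _ => D.fil_map X.d0) (fun _ => D.fil_map X.d1)

/-- the short exact sequence of the filtration -/
def sesFil (X : Ch.{u} D.R) (N : ℤ) : Ch.Ses (D.filC X N) X (D.quoC X N) :=
  X.sesSub _ _ _ _

/-- the filtration is functorial -/
def filH {X Y : Ch.{u} D.R} (f : Ch.Hom X Y) (N : ℤ) : Ch.Hom (D.filC X N) (D.filC Y N) :=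
  ⟨f.f0.restrict (fun _ => D.fil_map f.f0), f.f1.restrict (fun _ => D.fil_map f.f1),
    fun x => Subtype.ext (f.c0 x.1), fun x => Subtype.ext (f.c1 x.1)⟩

/-- inclusion of one step into another -/
def filI (X : Ch.{u} D.R) {N N' : ℤ} (h : N ≤ N') : Ch.Hom (D.filC X N) (D.filC X N') :=
  ⟨Submodule.inclusion (D.fil_mono h), Submodule.inclusion (D.fil_mono h),
    fun _ => rfl, fun _ => rfl⟩

/-- exactness in weight `n` -/
def ExW (X : Ch.{u} D.R) (n : ℤ) : Prop :=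
  (∀ x ∈ wt D.F D.ph X.X0 n, X.d0 x = 0 → ∃ y ∈ wt D.F D.ph X.X1 n, X.d1 y = x) ∧
    (∀ x ∈ wt D.F D.ph X.X1 n, X.d1 x = 0 → ∃ y ∈ wt D.F D.ph X.X0 n, X.d0 y = x)

/-- exactness in weight `n` modulo `mP` -/
def ExM (X : Ch.{u} D.R) (n : ℤ) : Prop :=
  (∀ x ∈ wt D.F D.ph X.X0 n, X.d0 x ∈ D.mP X.X1 →
      ∃ y ∈ wt D.F D.ph X.X1 n, x - X.d1 y ∈ D.mP X.X0) ∧
    (∀ x ∈ wt D.F D.ph X.X1 n, X.d1 x ∈ D.mP X.X0 →
      ∃ y ∈ wt D.F D.ph X.X0 n, x - X.d0 y ∈ D.mP X.X1)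

/-- Morphisms which are, modulo `mP`, surjective with acyclic kernel. -/
structure SQ {X Y : Ch.{u} D.R} (f : Ch.Hom X Y) : Prop where
  s0 : ∀ n, ∀ y ∈ wt D.F D.ph Y.X0 n, ∃ x ∈ wt D.F D.ph X.X0 n, f.f0 x - y ∈ D.mP Y.X0
  s1 : ∀ n, ∀ y ∈ wt D.F D.ph Y.X1 n, ∃ x ∈ wt D.F D.ph X.X1 n, f.f1 x - y ∈ D.mP Y.X1
  k0 : ∀ n, ∀ x ∈ wt D.F D.ph X.X0 n, f.f0 x ∈ D.mP Y.X0 → X.d0 x ∈ D.mP X.X1 →
    ∃ y ∈ wt D.F D.ph X.X1 n, f.f1 y ∈ D.mP Y.X1 ∧ x - X.d1 y ∈ D.mP X.X0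
  k1 : ∀ n, ∀ x ∈ wt D.F D.ph X.X1 n, f.f1 x ∈ D.mP Y.X1 → X.d1 x ∈ D.mP X.X0 →
    ∃ y ∈ wt D.F D.ph X.X0 n, f.f0 y ∈ D.mP Y.X0 ∧ x - X.d0 y ∈ D.mP X.X1

end Dat

end MSA
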