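import Mathlib
import Pool.Agent.MSA.Mo
import Pool.Agent.MSA.Rmp
import Pool.Agent.MSX.Ami

/-!
# Modules of codimension two vanish at the points of codimension one (MS, PART RES, section 7c)

PROOFS.
`kp_kc`: induction on `p`: `nu1_kp_succ`, `nu1_kc_sub` (and `nu1_kp_zero`, `nu1_kc_z` for `p = 0`).
`finrank_hom`: the space is `Finsupp.supported` on the exponents of degree `k`
(`MvPolynomial.homogeneousSubmodule_eq_finsupp_supported`), their number is `(p + k - 1).choose k`
(`Finset.card_finsuppAntidiag_nat_eq_choose`, or an equivalence with `Sym (Fin p) k`: `Finsupp.degree`, `Sym.card_sym_eq_choose`;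
`p ≥ 1`), and `nu1_kc p k = (k + (p - 1)).choose (p - 1)` (`nu1_kc_nat`, `Nat.choose_symm_add`).
`dlt_hb`: `nn`: `nu1_kc p` is nondecreasing (`nu1_kc_sub` with `p - 1`, the values of `nu1_kc` are `≥ 0`; `p ≥ 1`); `bd`: `n₀ = a`;
`fin`: `kp_dlt`. `kp_dlt`: `kp` is additive (`kp_add` with the negative, or unfold), `kp_shift`, `kp_kc`.
`mo_dlt`: `mo κ j = ∑ᶠ κ n n^j`, the support of `κ` is `{a, a + d}`: `a^j - (a + d)^j`.
`dlt_not_le`: if `dlt p a d n ≤ h n` for all `n`, then by `mo_van` with one index and `c = 2` the moment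
`mo (kp p (dlt p a d)) 1 = - d` is zero: contradiction.
`hf_ge`: for `k ≥ 0` the `L`-linear map `evG k m : homogeneousSubmodule k → wL M (n₀ + k)`, `f ↦ iot f • m` (`D.iot_wt`; `evG` is in
MSA/HfG) has its kernel contained in `{f | P.gen ∣ f}` (`hle`), that is in the image of the injective `L`-linear map
`homogeneousSubmodule (k - deg) → homogeneousSubmodule k`, `g ↦ P.gen * g` if `k ≥ deg` (a factor of a homogeneous
polynomial by a homogeneous one is homogeneous: take `homogeneousComponent`), and is `0` if `k < deg`; so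
`hf M (n₀ + k) ≥ finrank (range) = dim S_k - finrank (ker) ≥ dim S_k - dim S_(k-deg)` (`LinearMap.finrank_range_add_finrank_ker`,
`finrank_hom`). For `n < n₀` the left side is `0`.
`ann_wt`: otherwise `D.annI m ≤ P.I`, and `hf_ge`, `dlt_not_le` with `h n = hf M n` (`D.hb`, `D.mom_mo`), `gen_deg_pos` (MSX/Ami).
`ann_all`: `gens` (MSA/HfG): generators `g i`, `s i ∉ P.I` with `iot (s i) • g i = 0`, `s = ∏ s i` (`P.I` is prime).
-/

set_option autoImplicit false
set_option linter.unusedSectionVars false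

noncomputable section

namespace MSA

universe u v w

open MvPolynomial

theorem kp_kc (p : ℕ) (n : ℤ) : kp p (nu1_kc p) n = if n = 0 then 1 else 0 := by
  induction p generalizing n with
  | zero => rw [nu1_kp_zero, nu1_kc_z]
  | succ p ih =>
    rw [nu1_kp_succ]
    have h : (fun n => nu1_kc (p + 1) n - nu1_kc (p + 1) (n - 1)) = nu1_kc p :=
      funext (nu1_kc_sub p)
    rw [h, ih]

/-- the Hilbert function of `S/(f)` generated in degree `a`, `deg f = d` -/
def dlt (p : ℕ) (a : ℤ) (d : ℕ) (n : ℤ) : ℤ := nu1_kc p (n - a) - nu1_kc p (n - a - d)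

private theorem ran_kp_sub (p : ℕ) (h h' : ℤ → ℤ) (n : ℤ) :
    kp p (fun n => h n - h' n) n = kp p h n - kp p h' n := by
  unfold kp
  rw [← Finset.sum_sub_distrib]
  refine Finset.sum_congr rfl fun j _ => ?_
  rw [mul_sub]

theorem kp_dlt (p : ℕ) (a : ℤ) (d : ℕ) (n : ℤ) :
    kp p (dlt p a d) n = (if n = a then 1 else 0) - if n = a + d then 1 else 0 := by
  have h1 : dlt p a d = fun n => (fun n => nu1_kc p (n - a)) n -
      (fun n => nu1_kc p (n - (a + d))) n := by
    funext n
    show nu1_kc p (n - a) - nu1_kc p (n - a - d) = nu1_kc p (n - a) - nu1_kc p (n - (a + d))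
    rw [sub_sub]
  rw [h1, ran_kp_sub, kp_shift, kp_shift, kp_kc, kp_kc]
  simp only [sub_eq_zero]

private theorem ran_mono {p : ℕ} (hp : 0 < p) {m n : ℤ} (h : m ≤ n) : nu1_kc p m ≤ nu1_kc p n := by
  obtain ⟨q, rfl⟩ : ∃ q, p = q + 1 := ⟨p - 1, by omega⟩
  rw [nu1_kc_s, nu1_kc_s]
  by_cases hm : 0 ≤ m
  · rw [if_pos hm, if_pos (hm.trans h)]
    have h1 : (m.toNat + q).choose q ≤ (n.toNat + q).choose q :=
      Nat.choose_le_choose q (by omega)
    exact_mod_cast h1
  · rw [if_neg hm]
    by_cases hn : 0 ≤ n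
    · rw [if_pos hn]
      exact Int.natCast_nonneg _
    · rw [if_neg hn]

theorem dlt_hb {p : ℕ} (hp : 0 < p) (a : ℤ) (d : ℕ) : Hb p (dlt p a d) := by
  refine ⟨fun n => ?_, ⟨a, fun n hn => ?_⟩, ?_⟩
  · exact sub_nonneg.2 (ran_mono hp (by omega))
  · unfold dlt
    rw [nu1_kc_neg _ (by omega), nu1_kc_neg _ (by omega), sub_zero]
  · refine Set.Finite.subset (Set.toFinite {a, a + (d : ℤ)}) fun n hn => ?_
    by_contra h1
    apply hn
    have h2 : n ≠ a := fun h => h1 (Or.inl h)
    have h3 : n ≠ a + d := fun h => h1 (Or.inr h)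
    rw [kp_dlt, if_neg h2, if_neg h3, sub_zero]

private theorem ran_single (a c : ℤ) : ∑ᶠ n : ℤ, (if n = a then c else 0) = c := by
  rw [finsum_eq_single (fun n : ℤ => if n = a then c else 0) a (fun n hn => if_neg hn), if_pos rfl]

private theorem ran_fin (a c : ℤ) : (Function.support fun n : ℤ => if n = a then c else 0).Finite := by
  refine Set.Finite.subset (Set.finite_singleton a) fun n hn => ?_
  by_contra h1
  exact hn (if_neg h1)

theorem mo_dlt (p : ℕ) (a : ℤ) (d : ℕ) (j : ℕ) :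
    mo (kp p (dlt p a d)) j = a ^ j - (a + d) ^ j := by
  unfold mo
  have h1 : ∀ n : ℤ, kp p (dlt p a d) n * n ^ j =
      (if n = a then a ^ j else 0) - (if n = a + d then (a + d) ^ j else 0) := by
    intro n
    rw [kp_dlt, sub_mul]
    congr 1
    · by_cases h : n = a
      · rw [if_pos h, if_pos h, one_mul, h]
      · rw [if_neg h, if_neg h, zero_mul]
    · by_cases h : n = a + d
      · rw [if_pos h, if_pos h, one_mul, h]
      · rw [if_neg h, if_neg h, zero_mul]
  rw [finsum_congr h1, finsum_sub_distrib (ran_fin _ _) (ran_fin _ _), ran_single, ran_single]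

theorem dlt_not_le {p : ℕ} (hp : 0 < p) {h : ℤ → ℤ} (H : Hb p h)
    (hm : ∀ j < 2, mo (kp p h) j = 0) (a : ℤ) {d : ℕ} (hd : 0 < d)
    (hle : ∀ n, dlt p a d n ≤ h n) : False := by
  have h1 := mo_van H (dlt_hb hp a d) (Finset.univ : Finset Unit) (fun _ => 0) (fun n => by
    rw [Finset.univ_unique, Finset.sum_singleton, add_zero]
    exact hle n) 2 hm 1 (by norm_num)
  rw [mo_dlt, pow_one, pow_one] at h1
  omega

private theorem ran_finrank (E : Type*) [Field E] {n : ℕ} (hn : 0 < n) (k : ℕ) :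
    (Module.finrank E (homogeneousSubmodule (Fin n) E k) : ℤ) = nu1_kc n k := by
  classical
  obtain ⟨q, rfl⟩ : ∃ q, n = q + 1 := ⟨n - 1, by omega⟩
  have hset : ({e : Fin (q + 1) →₀ ℕ | e.degree = k} : Set (Fin (q + 1) →₀ ℕ)) =
      ((Finset.univ : Finset (Fin (q + 1))).finsuppAntidiag k : Finset (Fin (q + 1) →₀ ℕ)) := by
    ext e
    rw [Set.mem_ofPred_eq, Finset.mem_coe, Finset.mem_finsuppAntidiag, Finsupp.degree_eq_sum]
    constructor
    · intro h
      exact ⟨h, Finset.subset_univ _⟩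
    · intro h
      exact h.1
  rw [homogeneousSubmodule_eq_finsupp_supported, hset,
    (AddMonoidAlgebra.supportedEquivFinsupp (R := E) (S := E) _).finrank_eq,
    Module.finrank_finsupp_self]
  have hc : Fintype.card
      ((((Finset.univ : Finset (Fin (q + 1))).finsuppAntidiag k : Finset (Fin (q + 1) →₀ ℕ)) :
        Set (Fin (q + 1) →₀ ℕ)) : Type) =
      ((Finset.univ : Finset (Fin (q + 1))).finsuppAntidiag k).card := by
    exact Fintype.card_coe _
  rw [hc, Finset.card_finsuppAntidiag_nat_eq_choose, Finset.card_univ, Fintype.card_fin, nu1_kc_nat]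
  have h1 : q + 1 + k - 1 = q + k := by omega
  rw [h1, add_comm k q, ← Nat.choose_symm_add]

private theorem ran_ker {E : Type*} [Field E] {n : ℕ} (hn : 0 < n) {g : MvPolynomial (Fin n) E} {d : ℕ}
    (hg : g.IsHomogeneous d) (hg0 : g ≠ 0) (k : ℕ) (K : Submodule E (homogeneousSubmodule (Fin n) E k))
    (hK : ∀ f ∈ K, g ∣ (f : MvPolynomial (Fin n) E)) :
    (Module.finrank E K : ℤ) ≤ nu1_kc n ((k : ℤ) - d) := by
  have hfin : ∀ l, Module.Finite E (homogeneousSubmodule (Fin n) E l) := fun l =>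
    Module.Finite.iff_fg.2 (homogeneousSubmodule_fg _ _ l)
  have key : ∀ f ∈ K, (f : MvPolynomial (Fin n) E) ≠ 0 → d ≤ k ∧
      ∃ q : MvPolynomial (Fin n) E, q.IsHomogeneous (k - d) ∧ (f : MvPolynomial (Fin n) E) = g * q := by
    intro f hf hf0
    obtain ⟨q, hq⟩ := hK f hf
    have hfk : (g * q).IsHomogeneous k := by
      rw [← hq]
      exact f.2
    obtain ⟨i, j, hij, hi, hj⟩ := Pool.Agent.MSX.hom_of_mul hfk (by rw [← hq]; exact hf0)
    have hid : i = d := hi.inj_right hg hg0
    refine ⟨by omega, q, ?_, hq⟩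
    have : k - d = j := by omega
    rw [this]
    exact hj
  by_cases hdk : d ≤ k
  · let m : homogeneousSubmodule (Fin n) E (k - d) →ₗ[E] homogeneousSubmodule (Fin n) E k :=
      { toFun := fun q => ⟨g * q, by
          have h1 := hg.mul q.2
          rw [Nat.add_sub_cancel' hdk] at h1
          exact h1⟩
        map_add' := fun a b => Subtype.ext (by
          show g * ((a : MvPolynomial (Fin n) E) + b) = g * a + g * b
          rw [mul_add])
        map_smul' := fun c a => Subtype.ext (by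
          show g * (c • (a : MvPolynomial (Fin n) E)) = c • (g * a)
          rw [mul_smul_comm]) }
    have h1 : K ≤ LinearMap.range m := by
      intro f hf
      by_cases hf0 : (f : MvPolynomial (Fin n) E) = 0
      · have : f = 0 := Subtype.ext hf0
        rw [this]
        exact Submodule.zero_mem _
      · obtain ⟨-, q, hq, hfq⟩ := key f hf hf0
        exact ⟨⟨q, hq⟩, Subtype.ext hfq.symm⟩
    have := hfin k
    have := hfin (k - d)
    have h2 : Module.finrank E K ≤ Module.finrank E (LinearMap.range m) := Submodule.finrank_mono h1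
    have h3 := LinearMap.finrank_range_le m
    have h4 := ran_finrank E hn (k - d)
    have h5 : ((k - d : ℕ) : ℤ) = (k : ℤ) - d := Nat.cast_sub hdk
    rw [← h5, ← h4]
    exact_mod_cast h2.trans h3
  · have h1 : K = ⊥ := by
      rw [eq_bot_iff]
      intro f hf
      by_contra h2
      have h3 : (f : MvPolynomial (Fin n) E) ≠ 0 := fun h4 => h2 (Subtype.ext h4)
      exact hdk (key f hf h3).1
    rw [h1, finrank_bot, nu1_kc_neg _ (by omega)]
    exact le_refl _

namespace Dat

variable (D : Dat.{u})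

theorem finrank_hom (k : ℕ) : (Module.finrank D.L (homogeneousSubmodule (Fin D.p) D.L k) : ℤ) =
    nu1_kc D.p k := by
  exact ran_finrank D.L D.X.hp.pos k

variable {M : Type u} [AddCommGroup M] [Module D.R M]

theorem hf_ge (h : D.IsW M) (P : Pool.Agent.MSX.HP D.p D.L) {a : ℤ} {m : M}
    (hm : m ∈ wt D.F D.ph M a) (hle : ∀ s : D.S, iot D.ph s • m = 0 → s ∈ P.I) (n : ℤ) :
    dlt D.p a P.deg n ≤ D.hf M n := by
  by_cases hn : n < a
  · unfold dlt
    rw [nu1_kc_neg _ (by omega), nu1_kc_neg _ (by omega), sub_zero]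
    exact Int.natCast_nonneg _
  obtain ⟨k, rfl⟩ : ∃ k : ℕ, n = a + k := ⟨(n - a).toNat, by omega⟩
  have hfk := D.fin_hom k
  have hfw : Module.Finite D.L (D.wL M (a + k)) := (D.fd_wL _).1 (h.fd _)
  have h1 := LinearMap.finrank_range_add_finrank_ker (D.evG k m)
  have h2 : LinearMap.range (D.evG k m) ≤ D.wL M (a + k) := by
    rintro _ ⟨f, rfl⟩
    exact D.iot_wt f.2 hm
  have h3 := Submodule.finrank_mono h2
  rw [← D.hf_wL] at h3
  have h4 := ran_ker D.X.hp.pos P.gen_hom P.gen_irr.ne_zero k (LinearMap.ker (D.evG k m)) (by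
    intro f hf
    rw [← Ideal.mem_span_singleton, ← P.I_eq]
    exact hle _ hf)
  have h5 := D.finrank_hom k
  unfold dlt
  have e1 : a + (k : ℤ) - a = k := by ring
  rw [e1, ← h5, ← h1]
  push_cast
  have h6 : (Module.finrank D.L (LinearMap.range (D.evG k m)) : ℤ) ≤ D.hf M (a + k) := by
    exact_mod_cast h3
  linarith

theorem ann_wt (h : D.IsA M 2) (P : Pool.Agent.MSX.HP D.p D.L) {a : ℤ} {m : M}
    (hm : m ∈ wt D.F D.ph M a) : ∃ s : D.S, s ∉ P.I ∧ iot D.ph s • m = 0 := by
  by_contra hcon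
  have hle : ∀ s : D.S, iot D.ph s • m = 0 → s ∈ P.I := by
    intro s hs
    by_contra h1
    exact hcon ⟨s, h1, hs⟩
  exact dlt_not_le D.X.hp.pos (D.hb h.g) (fun j hj => by
    rw [← D.mom_mo]
    exact h.mom j hj) a (Pool.Agent.MSX.gen_deg_pos P) (D.hf_ge h.g.isW P hm hle)

theorem ann_all (h : D.IsA M 2) (P : Pool.Agent.MSX.HP D.p D.L) :
    ∃ s : D.S, s ∉ P.I ∧ ∀ m : M, iot D.ph s • m = 0 := by
  classical
  obtain ⟨G⟩ := D.gens h.g
  choose s hs hsg using fun i => D.ann_wt h P (G.mem i)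
  refine ⟨∏ i, s i, ?_, fun m => ?_⟩
  · intro h1
    rw [P.I_eq, Ideal.mem_span_singleton, P.gen_prime.dvd_finsetProd_iff] at h1
    obtain ⟨i, -, hi⟩ := h1
    apply hs i
    rw [P.I_eq, Ideal.mem_span_singleton]
    exact hi
  · obtain ⟨f, hf⟩ := G.gen m
    rw [hf, Finset.smul_sum]
    refine Finset.sum_eq_zero fun i _ => ?_
    have e : (∏ i, s i) * f i = (f i * ∏ x ∈ Finset.univ.erase i, s x) * s i := by
      rw [← Finset.mul_prod_erase Finset.univ s (Finset.mem_univ i)]
      ring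
    rw [← mul_smul, ← map_mul, e, map_mul, mul_smul, hsg, smul_zero]

end Dat

end MSA
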