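import Mathlib
import Pool.Agent.MSA.Rmp

/-!
# Coordinates with respect to a homogeneous basis
-/

set_option autoImplicit false
set_option linter.unusedSectionVars false

noncomputable section

namespace MSA

universe u v w

open MvPolynomial

namespace Fbs

variable {D : Dat.{u}} {X : Type u} [AddCommGroup X] [Module D.R X] {ι : Type} (h : Fbs D X ι)

/-- coordinates -/
def rp (x : X) : ι →₀ D.S := (h.span x).choose

theorem rp_sum (x : X) : (h.rp x).sum (fun i s => iot D.ph s • h.w i) = x :=
  (h.span x).choose_spec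

/-- the sum with given coordinates -/
def lc : (ι →₀ D.S) →+ X where
  toFun f := f.sum (fun i s => iot D.ph s • h.w i)
  map_zero' := Finsupp.sum_zero_index
  map_add' f g := by
    refine Finsupp.sum_add_index' (fun i => ?_) (fun i s t => ?_)
    · rw [map_zero, zero_smul]
    · rw [map_add, add_smul]

theorem lc_apply (f : ι →₀ D.S) : h.lc f = f.sum (fun i s => iot D.ph s • h.w i) := rfl

theorem lc_inj : Function.Injective h.lc := by
  rw [injective_iff_map_eq_zero]
  exact h.ind

theorem lc_rp (x : X) : h.lc (h.rp x) = x := h.rp_sum x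

theorem rp_lc (f : ι →₀ D.S) : h.rp (h.lc f) = f := h.lc_inj (h.lc_rp _)

theorem rp_eq {x : X} {f : ι →₀ D.S} (hf : h.lc f = x) : h.rp x = f := by
  rw [← hf, rp_lc]

theorem rp_inj {x y : X} (e : h.rp x = h.rp y) : x = y := by
  rw [← h.lc_rp x, e, h.lc_rp]

theorem rp_add (x y : X) : h.rp (x + y) = h.rp x + h.rp y :=
  h.rp_eq (by rw [map_add, lc_rp, lc_rp])

theorem rp_zero : h.rp 0 = 0 := h.rp_eq (map_zero _)

/-- coordinates as an additive map -/
def rpa : X →+ (ι →₀ D.S) := ⟨⟨h.rp, h.rp_zero⟩, h.rp_add⟩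

theorem rpa_apply (x : X) : h.rpa x = h.rp x := rfl

theorem rp_neg (x : X) : h.rp (-x) = - h.rp x := map_neg h.rpa x

theorem rp_sub (x y : X) : h.rp (x - y) = h.rp x - h.rp y := map_sub h.rpa x y

theorem rp_finset {α : Type*} (t : Finset α) (f : α → X) :
    h.rp (∑ a ∈ t, f a) = ∑ a ∈ t, h.rp (f a) := map_sum h.rpa f t

theorem lc_smul (s : D.S) (f : ι →₀ D.S) : h.lc (s • f) = iot D.ph s • h.lc f := by
  rw [lc_apply, lc_apply, Finsupp.sum_smul_index (fun i => by rw [map_zero, zero_smul]),
    Finsupp.sum, Finsupp.sum, Finset.smul_sum]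
  refine Finset.sum_congr rfl fun i _ => ?_
  rw [map_mul, mul_smul]

theorem rp_iot (s : D.S) (x : X) : h.rp (iot D.ph s • x) = s • h.rp x :=
  h.rp_eq (by rw [lc_smul, lc_rp])

theorem lc_single (i : ι) (s : D.S) : h.lc (Finsupp.single i s) = iot D.ph s • h.w i := by
  rw [lc_apply, Finsupp.sum_single_index]
  rw [map_zero, zero_smul]

theorem rp_w (i : ι) : h.rp (h.w i) = Finsupp.single i 1 :=
  h.rp_eq (by rw [lc_single, map_one, one_smul])

/-- an additive subgroup which contains the `s w_i` is everything -/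
theorem ind_on {P : X → Prop} (x : X) (h0 : P 0) (hw : ∀ i (s : D.S), P (iot D.ph s • h.w i))
    (ha : ∀ x y, P x → P y → P (x + y)) : P x := by
  have key : ∀ f : ι →₀ D.S, P (h.lc f) := by
    intro f
    induction f using Finsupp.induction_linear with
    | zero => rw [map_zero]; exact h0
    | add f g hf hg => rw [map_add]; exact ha _ _ hf hg
    | single i s => rw [lc_single]; exact hw i s
  rw [← h.lc_rp x]
  exact key _

/-- coordinates of `θ_c x` -/
theorem rp_th (c : D.Fˣ) (x : X) (i : ι) : h.rp (gam D.ph (Gn.th c) • x) i =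
    algebraMap D.F D.S ((c ^ h.n i : D.Fˣ) : D.F) * D.thS c (h.rp x i) := by
  classical
  refine h.ind_on (P := fun x => h.rp (gam D.ph (Gn.th c) • x) i =
    algebraMap D.F D.S ((c ^ h.n i : D.Fˣ) : D.F) * D.thS c (h.rp x i)) x ?_ ?_ ?_
  · rw [smul_zero, rp_zero, Finsupp.zero_apply, map_zero, mul_zero]
  · intro j s
    have hj : gam D.ph (Gn.th c) • h.w j =
      iot D.ph (algebraMap D.F D.S ((c ^ h.n j : D.Fˣ) : D.F)) • h.w j := h.hw j c
    have hp : D.ph (Gn.th c) s = D.thS c s := rfl
    rw [← mul_smul, gam_mul_iot, mul_smul, hj, hp, rp_iot, rp_iot, rp_iot, rp_w,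
      Finsupp.smul_apply, Finsupp.smul_apply, Finsupp.smul_apply, smul_eq_mul, smul_eq_mul,
      smul_eq_mul]
    by_cases hij : j = i
    · subst hij
      rw [Finsupp.single_eq_same, mul_one, mul_one, mul_comm]
    · rw [Finsupp.single_eq_of_ne (Ne.symm hij), mul_zero, mul_zero, mul_zero, map_zero, mul_zero]
  · intro x y hx hy
    rw [smul_add, rp_add, rp_add, Finsupp.add_apply, Finsupp.add_apply, hx, hy, map_add, mul_add]

end Fbs

end MSA
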