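import Mathlib
import Pool.Agent.MSA.Rb1

/-!
# Weights, the maximal ideal and the filtration in coordinates

PROOFS. `wt_monomial`: `gam (th c) • x = iot (algebraMap (c^n)) • x`; compare the coordinates (`rp_th`,
`rp_iot`): `c^(n_i) thS c f = c^n f` for `f = rp x i` and all `c ∈ Fˣ`. The coefficient of `thS c f` at `e` is
`c^|e| coeff e f` (induction on `f`, `MvPolynomial.induction_on'` or `DvD.thS_hom` for the homogeneous
components), so `c^(n_i + |e| - n) = 1` for all `c` if `coeff e f ≠ 0`; `wt_exists_unit` (file Wt) for the set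
`{n_i + |e| - n}` gives `n_i + |e| = n`.
`wt_lt`, `wt_hom`: from `wt_monomial` (`IsHomogeneous`: `coeff e f ≠ 0 → Finsupp.weight 1 e = k`,
`Finsupp.weight 1 e = ∑ e i = Finsupp.degree e`).
`wt_of`: the same computation backwards (`D.thS_hom`), `rp_inj`.
`wt_smul_w`: `iot f • w i` has weight `n_i + k` for `f` homogeneous of degree `k`.
`mem_mP_iff`: `→`: the set of `x` with all constant coefficients zero is an additive subgroup stable under
`iot s` and `gam g` (constant coefficient of `∑_i (ph g f_i) * rp (gam g • w i)`: `D.ph g f` has constant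
coefficient `phL g (constantCoeff f)`; `x = ∑ iot f_i • w_i`, `gam g • iot f_i • w_i = iot (ph g f_i) • gam g • w_i`),
so `mkSub` gives a `D.R`-submodule; it contains `iot (X j) • x`. `←`: `f ∈ (X_0, ..)` iff the constant
coefficient vanishes (`MvPolynomial` : `f = ∑ monomials`, every monomial `≠ 1` is `X j * ..`), so
`iot f • w ∈ mP`.
`mem_fil_iff`: `→`: the `x` with `rp x i = 0` for `n_i > N` form a submodule (`gam g • w i` is a combination
of the `w j` with `n_j = n_i`: `h.hc`, `h.tau`, `h.hw`), which contains the weights `n ≤ N` by `wt_lt`.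
`←`: `w i ∈ wt X (n i)`, `x = ∑ iot (rp x i) • w i`.
`wt_fil_mP`: for `n_i ≤ N < n` the coordinate is homogeneous of degree `n - n_i > 0`, the others vanish.
`wt_mP_fil`: the coordinates at `n_i = n` are constants with zero constant coefficient.
`top_part`: `u a = ∑_{i ∈ support, n_i = m} iot (C (coeff a (rp x i))) • w i`, `t` = union of the supports.
`top_indep`: coordinate at `i` with `n_i = m`: `∑_a monomial a (c_(a,i)) = 0`, so `c_(a,i) = 0` for `a ∈ t`; for
`n_i < m` homogeneous of positive degree, for `n_i > m` zero; `mem_mP_iff`.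
-/

set_option autoImplicit false
set_option linter.unusedSectionVars false

noncomputable section

namespace MSA

universe u v w

open MvPolynomial

namespace Fbs

variable {D : Dat.{u}} {X : Type u} [AddCommGroup X] [Module D.R X] {ι : Type} (h : Fbs D X ι)

private theorem coeff_thS (c : D.Fˣ) (f : D.S) (e : Fin D.p →₀ ℕ) :
    coeff e (D.thS c f) = algebraMap D.F D.L ((c : D.F) ^ (Finsupp.degree e)) * coeff e f := by
  classical
  induction f using MvPolynomial.induction_on' with
  | monomial d r =>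
    have h1 : D.thS c (monomial d r) =
        C (algebraMap D.F D.L ((c : D.F) ^ (Finsupp.degree d))) * monomial d r :=
      D.thS_hom c (isHomogeneous_monomial r rfl)
    rw [h1, coeff_C_mul, coeff_monomial]
    split_ifs with hd
    · rw [hd]
    · rw [mul_zero, mul_zero]
  | add p q hp hq => rw [map_add, coeff_add, coeff_add, hp, hq, mul_add]

private theorem cc_tau (f : D.S) : constantCoeff (D.tauS f) = D.s (constantCoeff f) := by
  have h1 : (constantCoeff : D.S →+* D.L).comp D.tauS =
      ((D.s : D.L ≃ₐ[D.F] D.L) : D.L →+* D.L).comp (constantCoeff : D.S →+* D.L) := by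
    apply MvPolynomial.ringHom_ext
    · intro r
      rw [RingHom.comp_apply, RingHom.comp_apply, D.tauS_C, constantCoeff_C, constantCoeff_C]
      rfl
    · intro i
      rw [RingHom.comp_apply, RingHom.comp_apply, D.tauS_X, map_mul, constantCoeff_X,
        constantCoeff_X, mul_zero, map_zero]
  exact congrArg (fun t => t f) h1

private theorem cc_th (c : D.Fˣ) (f : D.S) : constantCoeff (D.thS c f) = constantCoeff f := by
  rw [constantCoeff_eq, coeff_thS, map_zero, pow_zero, map_one, one_mul]

private theorem mP_cc (x : X) (f : D.S) : iot D.ph (f - C (constantCoeff f)) • x ∈ D.mP X := by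
  induction f using MvPolynomial.induction_on with
  | C a => rw [constantCoeff_C, sub_self, map_zero, zero_smul]; exact Submodule.zero_mem _
  | add p q hp hq =>
    have h1 : p + q - C (constantCoeff (p + q)) =
        (p - C (constantCoeff p)) + (q - C (constantCoeff q)) := by
      rw [map_add, map_add]
      ring
    rw [h1, map_add, add_smul]
    exact Submodule.add_mem _ hp hq
  | mul_X p j _ =>
    rw [map_mul, constantCoeff_X, mul_zero, map_zero, sub_zero, mul_comm, map_mul, mul_smul]
    exact D.mem_mP_of j _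

private theorem deg_zero {e : Fin D.p →₀ ℕ} (he : Finsupp.degree e = 0) : e = 0 :=
  (Finsupp.degree_eq_zero_iff e).1 he

/-- the coordinates of `τ w_i` -/
private def cS (i : ι) : ι →₀ D.S := (h.c i).mapRange C (map_zero C)

private theorem tau_w (i : ι) : gam D.ph Gn.tau • h.w i = h.lc (cS h i) := by
  rw [h.tau i, lc_apply, cS, Finsupp.sum_mapRange_index (fun i => by rw [map_zero, zero_smul])]

private theorem rp_tau (x : X) : h.rp (gam D.ph Gn.tau • x) =
    (h.rp x).sum (fun i s => D.tauS s • cS h i) := by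
  apply h.rp_eq
  conv_rhs => rw [← h.rp_sum x]
  rw [Finsupp.sum, Finsupp.sum, map_sum, Finset.smul_sum]
  refine Finset.sum_congr rfl fun i _ => ?_
  rw [lc_smul, ← tau_w, ← mul_smul, ← mul_smul, gam_mul_iot]
  rfl

private theorem rp_tau_apply (x : X) (j : ι) : h.rp (gam D.ph Gn.tau • x) j =
    (h.rp x).sum (fun i s => D.tauS s * C (h.c i j)) := by
  rw [rp_tau, Finsupp.sum, Finsupp.sum, Finsupp.finsetSum_apply]
  refine Finset.sum_congr rfl fun i _ => ?_
  rw [Finsupp.smul_apply, smul_eq_mul, cS, Finsupp.mapRange_apply]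

private theorem rp_smul_w (i : ι) (f : D.S) : h.rp (iot D.ph f • h.w i) = Finsupp.single i f :=
  h.rp_eq (h.lc_single i f)

include h

theorem wt_monomial {n : ℤ} {x : X} (hx : x ∈ wt D.F D.ph X n) (i : ι) (e : Fin D.p →₀ ℕ)
    (he : coeff e (h.rp x i) ≠ 0) : ((Finsupp.degree e : ℕ) : ℤ) + h.n i = n := by
  obtain ⟨c, hc⟩ := wt_exists_unit (F := D.F) {((Finsupp.degree e : ℕ) : ℤ) + h.n i - n}
  by_contra hne
  have h0 : ((Finsupp.degree e : ℕ) : ℤ) + h.n i - n ≠ 0 := sub_ne_zero.2 hne
  refine hc _ (Finset.mem_singleton_self _) h0 ?_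
  have h1 : h.rp (gam D.ph (Gn.th c) • x) i =
      algebraMap D.F D.S ((c ^ n : D.Fˣ) : D.F) * h.rp x i := by
    have h2 : gam D.ph (Gn.th c) • x =
      iot D.ph (algebraMap D.F D.S ((c ^ n : D.Fˣ) : D.F)) • x := hx c
    rw [h2, rp_iot, Finsupp.smul_apply, smul_eq_mul]
  rw [h.rp_th] at h1
  have h3 := congrArg (coeff e) h1
  have h4 : ∀ (a : D.F) (g : D.S), coeff e (algebraMap D.F D.S a * g) =
      algebraMap D.F D.L a * coeff e g := fun a g => coeff_C_mul _ _ _
  rw [h4, h4, coeff_thS, ← mul_assoc, ← map_mul] at h3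
  have h5 := (algebraMap D.F D.L).injective (mul_right_cancel₀ he h3)
  have h6 : c ^ h.n i * c ^ (Finsupp.degree e) = c ^ n := by
    apply Units.ext
    rw [Units.val_mul, Units.val_pow_eq_pow_val]
    exact h5
  rw [zpow_sub, zpow_add, zpow_natCast, mul_comm (c ^ Finsupp.degree e), h6, mul_inv_cancel]

theorem wt_lt {n : ℤ} {x : X} (hx : x ∈ wt D.F D.ph X n) (i : ι) (hi : n < h.n i) :
    h.rp x i = 0 := by
  ext e
  rw [coeff_zero]
  by_contra he
  have := h.wt_monomial hx i e he
  omega

theorem wt_hom {n : ℤ} {x : X} (hx : x ∈ wt D.F D.ph X n) (i : ι) (k : ℕ) (hk : n = h.n i + k) :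
    (h.rp x i).IsHomogeneous k := by
  intro e he
  have h1 := h.wt_monomial hx i e he
  have h2 : Finsupp.weight (1 : Fin D.p → ℕ) e = Finsupp.degree e := by
    rw [Finsupp.degree_eq_weight_one]
    rfl
  rw [h2]
  omega

theorem wt_of {n : ℤ} {x : X} (hx : ∀ i, h.rp x i ≠ 0 → ∃ k : ℕ, n = h.n i + k ∧
    (h.rp x i).IsHomogeneous k) : x ∈ wt D.F D.ph X n := by
  intro c
  show gam D.ph (Gn.th c) • x = iot D.ph (algebraMap D.F D.S ((c ^ n : D.Fˣ) : D.F)) • x
  apply h.rp_inj
  ext1 i
  rw [h.rp_th, rp_iot, Finsupp.smul_apply, smul_eq_mul]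
  by_cases h0 : h.rp x i = 0
  · rw [h0, map_zero, mul_zero, mul_zero]
  · obtain ⟨k, hk, hh⟩ := hx i h0
    rw [D.thS_hom c hh, ← mul_assoc, ← map_mul, hk, zpow_add, zpow_natCast, Units.val_mul,
      Units.val_pow_eq_pow_val]

theorem wt_smul_w (i : ι) {k : ℕ} {f : D.S} (hf : f.IsHomogeneous k) {n : ℤ}
    (hn : n = h.n i + k) : iot D.ph f • h.w i ∈ wt D.F D.ph X n := by
  refine h.wt_of fun j hj => ?_
  rw [rp_smul_w] at hj ⊢
  by_cases hij : j = i
  · subst hij
    rw [Finsupp.single_eq_same]
    exact ⟨k, hn, hf⟩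
  · exact absurd (Finsupp.single_eq_of_ne hij) hj

theorem mem_mP_iff (x : X) : x ∈ D.mP X ↔ ∀ i, constantCoeff (h.rp x i) = 0 := by
  constructor
  · intro hx
    let N : AddSubgroup X :=
      { carrier := {x : X | ∀ i, constantCoeff (h.rp x i) = 0}
        zero_mem' := fun i => by rw [rp_zero, Finsupp.zero_apply, map_zero]
        add_mem' := fun {x y} hx hy i => by
          rw [rp_add, Finsupp.add_apply, map_add, hx i, hy i, add_zero]
        neg_mem' := fun {x} hx i => by
          rw [rp_neg, Finsupp.neg_apply, map_neg, hx i, neg_zero] }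
    have hS : ∀ (s : D.S), ∀ m ∈ N, iot D.ph s • m ∈ N := by
      intro s m hm i
      rw [rp_iot, Finsupp.smul_apply, smul_eq_mul, map_mul, hm i, mul_zero]
    have hg : ∀ (g : Gn D.F), ∀ m ∈ N, gam D.ph g • m ∈ N := by
      intro g m hm i
      cases g with
      | tau =>
        rw [rp_tau_apply, Finsupp.sum, map_sum]
        refine Finset.sum_eq_zero fun j _ => ?_
        rw [map_mul, cc_tau, hm j, map_zero, zero_mul]
      | th c => rw [h.rp_th, map_mul, cc_th, hm i, mul_zero]
    have hle : D.mP X ≤ mkSub N hS hg := by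
      refine Submodule.span_le.2 ?_
      rintro _ ⟨j, y, rfl⟩ i
      rw [rp_iot, Finsupp.smul_apply, smul_eq_mul, map_mul, constantCoeff_X, zero_mul]
    exact hle hx
  · intro hx
    rw [← h.rp_sum x, Finsupp.sum]
    refine Submodule.sum_mem _ fun i _ => ?_
    have h1 := mP_cc (D := D) (h.w i) (h.rp x i)
    rwa [hx i, map_zero, sub_zero] at h1

theorem mem_fil_iff (N : ℤ) (x : X) : x ∈ D.fil X N ↔ ∀ i, N < h.n i → h.rp x i = 0 := by
  constructor
  · intro hx
    let M : AddSubgroup X :=
      { carrier := {x : X | ∀ i, N < h.n i → h.rp x i = 0}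
        zero_mem' := fun i _ => by rw [rp_zero, Finsupp.zero_apply]
        add_mem' := fun {x y} hx hy i hi => by
          rw [rp_add, Finsupp.add_apply, hx i hi, hy i hi, add_zero]
        neg_mem' := fun {x} hx i hi => by
          rw [rp_neg, Finsupp.neg_apply, hx i hi, neg_zero] }
    have hS : ∀ (s : D.S), ∀ m ∈ M, iot D.ph s • m ∈ M := by
      intro s m hm i hi
      rw [rp_iot, Finsupp.smul_apply, hm i hi, smul_zero]
    have hg : ∀ (g : Gn D.F), ∀ m ∈ M, gam D.ph g • m ∈ M := by
      intro g m hm i hi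
      cases g with
      | tau =>
        rw [rp_tau_apply, Finsupp.sum]
        refine Finset.sum_eq_zero fun j _ => ?_
        by_cases hc : h.c j i = 0
        · rw [hc, map_zero, mul_zero]
        · rw [hm j (by rw [← h.hc j i hc]; exact hi), map_zero, zero_mul]
      | th c => rw [h.rp_th, hm i hi, map_zero, mul_zero]
    have hle : D.fil X N ≤ mkSub M hS hg := by
      refine Submodule.span_le.2 ?_
      rintro y ⟨n, hn, hy⟩ i hi
      exact h.wt_lt hy i (lt_of_le_of_lt hn hi)
    exact hle hx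
  · intro hx
    rw [← h.rp_sum x, Finsupp.sum]
    refine Submodule.sum_mem _ fun i hi => ?_
    have h1 : h.n i ≤ N := by
      by_contra hc
      exact Finsupp.mem_support_iff.1 hi (hx i (not_le.1 hc))
    exact Submodule.smul_mem _ _ (D.mem_fil_of h1 (h.hw i))

theorem exists_mem_fil (x : X) : ∃ N, x ∈ D.fil X N := by
  classical
  obtain ⟨N, hN⟩ := ((h.rp x).support.image h.n).bddAbove
  refine ⟨N, (h.mem_fil_iff N x).2 fun i hi => ?_⟩
  by_contra hc
  have h1 := hN (Finset.mem_coe.2 (Finset.mem_image_of_mem h.n (Finsupp.mem_support_iff.2 hc)))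
  omega

theorem wt_fil_mP {N n : ℤ} (hn : N < n) {x : X} (hx : x ∈ wt D.F D.ph X n)
    (hN : x ∈ D.fil X N) : x ∈ D.mP X := by
  rw [h.mem_mP_iff]
  intro i
  by_contra hc
  rw [constantCoeff_eq] at hc
  have h1 := h.wt_monomial hx i 0 hc
  rw [map_zero] at h1
  apply hc
  rw [(h.mem_fil_iff N x).1 hN i (by push_cast at h1; omega), coeff_zero]

theorem wt_mP_fil {n : ℤ} {x : X} (hx : x ∈ wt D.F D.ph X n) (hm : x ∈ D.mP X) :
    x ∈ D.fil X (n - 1) := by
  rw [h.mem_fil_iff]
  intro i hi
  ext e
  rw [coeff_zero]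
  by_contra he
  have h1 := h.wt_monomial hx i e he
  have h2 : e = 0 := deg_zero (by omega)
  rw [h2, ← constantCoeff_eq] at he
  exact he ((h.mem_mP_iff x).1 hm i)

theorem top_part {m : ℤ} {x : X} (hx : x ∈ D.fil X m) :
    ∃ (t : Finset (Fin D.p →₀ ℕ)) (u : (Fin D.p →₀ ℕ) → X), (∀ a, u a ∈ wt D.F D.ph X m) ∧
      x - ∑ a ∈ t, iot D.ph (monomial a 1) • u a ∈ D.fil X (m - 1) := by
  classical
  let s : Finset ι := (h.rp x).support.filter (fun i => h.n i = m)
  let t : Finset (Fin D.p →₀ ℕ) := s.biUnion (fun i => (h.rp x i).support)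
  let u : (Fin D.p →₀ ℕ) → X := fun a => ∑ i ∈ s, iot D.ph (C (coeff a (h.rp x i))) • h.w i
  have hsum : ∑ a ∈ t, iot D.ph (monomial a 1) • u a = ∑ i ∈ s, iot D.ph (h.rp x i) • h.w i := by
    have h1 : ∀ a ∈ t, iot D.ph (monomial a 1) • u a =
        ∑ i ∈ s, iot D.ph (monomial a (coeff a (h.rp x i))) • h.w i := by
      intro a _
      show iot D.ph (monomial a 1) • (∑ i ∈ s, iot D.ph (C (coeff a (h.rp x i))) • h.w i) = _
      rw [Finset.smul_sum]
      refine Finset.sum_congr rfl fun i _ => ?_
      rw [← mul_smul, ← map_mul, mul_comm, C_mul_monomial, mul_one]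
    rw [Finset.sum_congr rfl h1, Finset.sum_comm]
    refine Finset.sum_congr rfl fun i hi => ?_
    rw [← Finset.sum_smul, ← map_sum]
    congr 2
    conv_rhs => rw [(h.rp x i).as_sum]
    symm
    refine Finset.sum_subset (Finset.subset_biUnion_of_mem (fun i => (h.rp x i).support) hi) ?_
    intro a _ ha
    rw [MvPolynomial.notMem_support_iff.1 ha, monomial_zero]
  refine ⟨t, u, fun a => ?_, ?_⟩
  · refine AddSubgroup.sum_mem _ fun i hi => ?_
    refine h.wt_smul_w i (isHomogeneous_C _ _) ?_
    rw [Nat.cast_zero, add_zero]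
    exact (Finset.mem_filter.1 hi).2.symm
  · rw [hsum, h.mem_fil_iff]
    intro j hj
    rw [rp_sub, rp_finset, Finsupp.sub_apply, Finsupp.finsetSum_apply]
    have h2 : ∑ i ∈ s, h.rp (iot D.ph (h.rp x i) • h.w i) j = h.rp x j := by
      by_cases hjs : j ∈ s
      · rw [Finset.sum_eq_single j]
        · rw [rp_smul_w, Finsupp.single_eq_same]
        · intro i _ hij
          rw [rp_smul_w, Finsupp.single_eq_of_ne (Ne.symm hij)]
        · intro hc
          exact absurd hjs hc
      · have h3 : h.rp x j = 0 := by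
          by_cases hjm : h.n j = m
          · by_contra hc
            exact hjs (Finset.mem_filter.2 ⟨Finsupp.mem_support_iff.2 hc, hjm⟩)
          · exact (h.mem_fil_iff m x).1 hx j (by omega)
        rw [h3]
        refine Finset.sum_eq_zero fun i hi => ?_
        have hij : j ≠ i := by
          rintro rfl
          exact hjs hi
        rw [rp_smul_w, Finsupp.single_eq_of_ne hij]
    rw [h2, sub_self]

theorem top_indep {m : ℤ} (t : Finset (Fin D.p →₀ ℕ)) (u : (Fin D.p →₀ ℕ) → X)
    (hu : ∀ a, u a ∈ wt D.F D.ph X m)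
    (hs : ∑ a ∈ t, iot D.ph (monomial a 1) • u a ∈ D.fil X (m - 1)) :
    ∀ a ∈ t, u a ∈ D.mP X := by
  classical
  intro a ha
  rw [h.mem_mP_iff]
  intro i
  by_contra hc
  rw [constantCoeff_eq] at hc
  have h1 := h.wt_monomial (hu a) i 0 hc
  rw [map_zero] at h1
  have h2 : h.n i = m := by push_cast at h1; omega
  have h3 : ∀ b, h.rp (u b) i = C (coeff 0 (h.rp (u b) i)) := by
    intro b
    ext e
    rw [coeff_C]
    split_ifs with h4
    · rw [← h4]
    · by_contra h5
      have h6 := h.wt_monomial (hu b) i e h5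
      exact h4 (deg_zero (by omega)).symm
  have h4 := (h.mem_fil_iff (m - 1) _).1 hs i (by omega)
  rw [rp_finset, Finsupp.finsetSum_apply] at h4
  have h5 : ∀ b ∈ t, h.rp (iot D.ph (monomial b 1) • u b) i =
      monomial b (coeff 0 (h.rp (u b) i)) := by
    intro b _
    rw [rp_iot, Finsupp.smul_apply, smul_eq_mul]
    conv_lhs => rw [h3 b]
    rw [mul_comm, C_mul_monomial, mul_one]
  rw [Finset.sum_congr rfl h5] at h4
  have h6 := congrArg (coeff a) h4
  rw [coeff_sum, coeff_zero, Finset.sum_eq_single a] at h6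
  · rw [coeff_monomial, if_pos rfl] at h6
    exact hc h6
  · intro b _ hb
    rw [coeff_monomial, if_neg hb]
  · intro hc
    exact absurd ha hc

end Fbs

end MSA
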