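import Mathlib
import Pool.Agent.MSA.Rb2

/-!
# Bases of the steps of the filtration, of quotients and of products

PROOFS. `exists_iso`: transport along `e` (all fields are equations or membership in `wt`: `wt_map`).
`exists_reindex`: `w' j = w (e.symm j)`, `c' j = (c (e.symm j)).mapDomain e`, sums with `Finsupp.sum_mapDomain_index`
or `Finsupp.domLCongr`.
`exists_fil`: `w' i = ⟨w i, mem_fil_of⟩`, `c' i = (c i).subtypeDomain _` (its support lies in `n_j = n_i ≤ N` by
`hc`); independence: push forward (`Finsupp.embDomain` along the subtype embedding); span: `mem_fil_iff`, the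
coordinates of `x ∈ fil N` vanish outside of the subtype (`Finsupp.subtypeDomain`).
`exists_quo`: `w' i = mkQ (w i)`; independence: if `∑ f_i mkQ (w i) = 0` then `∑ f_i w_i ∈ fil N`, so `f_i = 0`
by `mem_fil_iff`; span: `mkQ x = mkQ (∑_{n_i > N} rp x i • w i)`.
`exists_prod`: basis `(w i, 0)`, `(0, w' j)`; `c` block diagonal (`Finsupp.mapDomain Sum.inl/inr`).
`wts`: `span`: `x = ∑ iot (rp x i) • w i`, and `iot f • w i` is a sum of weight vectors (homogeneous components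
of `f`, `wt_smul_w`). `tau`: for `x ∈ wt n` the coordinates of `gam tau • x` (`gam tau • iot f • w i =
iot (tauS f) • ∑ iot (C c_ij) • w j`, `tauS` preserves homogeneous polynomials of degree `k`; `n_j = n_i`), `wt_of`.
`taup`: `(gam tau)^p • iot f • w i = iot (tauS^p f) • iot (b^(n_i)) • w i` and `tauS^p f = b^k f` for `f` homogeneous
of degree `k` (`tauS^p (X i) = b X i`, `s^p = 1`).
`isF_of_finite`: `Finite.equivFin`, `exists_reindex`. The remaining ones combine the previous ones.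
`fil_top`/`fil_bot`: `N` larger (smaller) than all `n i`, `mem_fil_iff`.
`mP_fil`: `mem_mP_iff` for `exists_fil` and for `h`; the coordinates agree (`rp_eq`).
`mem_wt_prod`, `mem_mP_prod`, `mem_fil_prod`: clear from the definitions (for `←` of the last two use `inl`, `inr`
and `mP_map`, `fil_map`; for `→` use `fst`, `snd`).
-/

set_option autoImplicit false
set_option linter.unusedSectionVars false

noncomputable section

namespace MSA

universe u v w

open MvPolynomial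

namespace Fbs

variable {D : Dat.{u}} {X : Type u} [AddCommGroup X] [Module D.R X] {ι : Type} (h : Fbs D X ι)
variable {Y : Type u} [AddCommGroup Y] [Module D.R Y]

private theorem builder {κ : Type} (w : κ → Y) (n : κ → ℤ)
    (hw : ∀ i, w i ∈ wt D.F D.ph Y (n i))
    (hc : ∀ i, ∃ c : κ →₀ D.L, (∀ j, c j ≠ 0 → n j = n i) ∧
      gam D.ph Gn.tau • w i = c.sum (fun j a => iot D.ph (C a) • w j))
    (taup : ∀ i, (gam D.ph Gn.tau) ^ D.p • w i = iot D.ph (algebraMap D.F D.S (D.b ^ n i)) • w i)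
    (ind : ∀ f : κ →₀ D.S, f.sum (fun i s => iot D.ph s • w i) = 0 → f = 0)
    (span : ∀ x : Y, ∃ f : κ →₀ D.S, f.sum (fun i s => iot D.ph s • w i) = x) :
    ∃ h' : Fbs D Y κ, ∀ i, h'.n i = n i ∧ h'.w i = w i := by
  choose c hc1 hc2 using hc
  exact ⟨⟨w, n, c, hw, hc1, hc2, taup, ind, span⟩, fun i => ⟨rfl, rfl⟩⟩

theorem exists_iso (e : X ≃ₗ[D.R] Y) : ∃ h' : Fbs D Y ι, ∀ i, h'.n i = h.n i ∧
    h'.w i = e (h.w i) := by
  have hs : ∀ f : ι →₀ D.S, f.sum (fun i s => iot D.ph s • e (h.w i)) = e (h.lc f) := by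
    intro f
    rw [lc_apply, Finsupp.sum, Finsupp.sum, map_sum]
    exact Finset.sum_congr rfl fun i _ => (map_smul e _ _).symm
  refine builder (fun i => e (h.w i)) h.n (fun i => wt_map e.toLinearMap (h.hw i))
    (fun i => ⟨h.c i, h.hc i, ?_⟩) (fun i => ?_) (fun f hf => ?_) (fun y => ?_)
  · show gam D.ph Gn.tau • e (h.w i) = (h.c i).sum (fun j a => iot D.ph (C a) • e (h.w j))
    rw [← map_smul, h.tau, Finsupp.sum, Finsupp.sum, map_sum]
    exact Finset.sum_congr rfl fun i _ => map_smul e _ _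
  · show (gam D.ph Gn.tau) ^ D.p • e (h.w i) = iot D.ph (algebraMap D.F D.S (D.b ^ h.n i)) • e (h.w i)
    rw [← map_smul, h.taup, map_smul]
  · rw [hs] at hf
    exact h.ind f ((map_eq_zero_iff e e.injective).1 hf)
  · exact ⟨h.rp (e.symm y), by rw [hs, lc_rp, LinearEquiv.apply_symm_apply]⟩

private theorem sum_mapD {κ : Type} (w : κ → Y) (g : ι → κ) (f : ι →₀ D.S) :
    (f.mapDomain g).sum (fun j s => iot D.ph s • w j) = f.sum (fun i s => iot D.ph s • w (g i)) := by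
  refine Finsupp.sum_mapDomain_index (fun j => ?_) (fun j a b => ?_)
  · rw [map_zero, zero_smul]
  · rw [map_add, add_smul]

private theorem sum_mapDC {κ : Type} (w : κ → Y) (g : ι → κ) (f : ι →₀ D.L) :
    (f.mapDomain g).sum (fun j a => iot D.ph (C a) • w j) =
      f.sum (fun i a => iot D.ph (C a) • w (g i)) := by
  refine Finsupp.sum_mapDomain_index (fun j => ?_) (fun j a b => ?_)
  · rw [C_0, map_zero, zero_smul]
  · rw [C_add, map_add, add_smul]

theorem exists_reindex {κ : Type} (e : ι ≃ κ) : ∃ h' : Fbs D X κ, ∀ i, h'.n (e i) = h.n i ∧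
    h'.w (e i) = h.w i := by
  have hs : ∀ f : κ →₀ D.S, f.sum (fun j s => iot D.ph s • h.w (e.symm j)) =
      h.lc (f.mapDomain e.symm) := fun f => (sum_mapD h.w e.symm f).symm
  suffices key : ∃ h' : Fbs D X κ, ∀ j, h'.n j = h.n (e.symm j) ∧ h'.w j = h.w (e.symm j) by
    obtain ⟨h', hh⟩ := key
    refine ⟨h', fun i => ?_⟩
    have h1 := hh (e i)
    simp only [Equiv.symm_apply_apply] at h1
    exact h1
  refine builder (fun j => h.w (e.symm j)) (fun j => h.n (e.symm j))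
    (fun j => h.hw (e.symm j))
    (fun j => ⟨(h.c (e.symm j)).mapDomain e, ?_, ?_⟩) (fun j => h.taup (e.symm j))
    (fun f hf => ?_) (fun x => ⟨(h.rp x).mapDomain e, ?_⟩)
  · intro k hk
    obtain ⟨k, rfl⟩ := e.surjective k
    rw [Finsupp.mapDomain_apply e.injective] at hk
    simp only [Equiv.symm_apply_apply]
    exact h.hc _ _ hk
  · show gam D.ph Gn.tau • h.w (e.symm j) = _
    rw [h.tau, sum_mapDC (fun j => h.w (e.symm j)) e]
    simp only [Equiv.symm_apply_apply]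
  · rw [hs] at hf
    have h1 := h.ind _ hf
    exact Finsupp.mapDomain_injective e.symm.injective (h1.trans Finsupp.mapDomain_zero.symm)
  · rw [hs, ← Finsupp.mapDomain_comp]
    have h1 : e.symm ∘ e = id := by
      funext i
      exact e.symm_apply_apply i
    rw [h1, Finsupp.mapDomain_id, lc_rp]

private theorem wt_sub (N : Submodule D.R X) (n : ℤ) (x : N) :
    x ∈ wt D.F D.ph N n ↔ (x : X) ∈ wt D.F D.ph X n := by
  constructor
  · intro hx
    exact wt_map N.subtype hx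
  · intro hx c
    exact Subtype.ext (hx c)

theorem exists_fil (N : ℤ) : ∃ h' : Fbs D (D.fil X N) {i // h.n i ≤ N},
    ∀ i, h'.n i = h.n i.1 ∧ ((h'.w i : D.fil X N) : X) = h.w i.1 := by
  have hs : ∀ f : {i // h.n i ≤ N} →₀ D.S,
      ((f.sum (fun i s => iot D.ph s • (⟨h.w i.1, D.mem_fil_of i.2 (h.hw i.1)⟩ : D.fil X N)) :
        D.fil X N) : X) = h.lc (f.mapDomain Subtype.val) := by
    intro f
    rw [lc_apply, sum_mapD, Finsupp.sum, Finsupp.sum, Submodule.coe_sum]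
    rfl
  suffices key : ∃ h' : Fbs D (D.fil X N) {i // h.n i ≤ N}, ∀ i, h'.n i = h.n i.1 ∧
      h'.w i = ⟨h.w i.1, D.mem_fil_of i.2 (h.hw i.1)⟩ by
    obtain ⟨h', hh⟩ := key
    exact ⟨h', fun i => ⟨(hh i).1, congrArg Subtype.val (hh i).2⟩⟩
  refine builder (Y := D.fil X N) (κ := {i // h.n i ≤ N})
    (fun i => ⟨h.w i.1, D.mem_fil_of i.2 (h.hw i.1)⟩) (fun i => h.n i.1)
    (fun i => (wt_sub _ _ _).2 (h.hw i.1))
    (fun i => ⟨(h.c i.1).subtypeDomain (fun j => h.n j ≤ N), ?_, ?_⟩)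
    (fun i => Subtype.ext (h.taup i.1)) (fun f hf => ?_)
    (fun x => ⟨(h.rp x.1).subtypeDomain (fun j => h.n j ≤ N), Subtype.ext ?_⟩)
  · intro j hj
    exact h.hc i.1 j.1 hj
  · apply Subtype.ext
    rw [Finsupp.sum, Submodule.coe_sum]
    show gam D.ph Gn.tau • h.w i.1 = _
    rw [h.tau]
    refine (Finsupp.sum_subtypeDomain_index (p := fun j => h.n j ≤ N)
      (h := fun j a => iot D.ph (C a) • h.w j) ?_).symm
    intro j hj
    rw [h.hc i.1 j (Finsupp.mem_support_iff.1 hj)]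
    exact i.2
  · have h1 := hs f
    rw [hf] at h1
    have h2 := h.ind _ h1.symm
    exact Finsupp.mapDomain_injective Subtype.val_injective (h2.trans Finsupp.mapDomain_zero.symm)
  · rw [hs, lc_apply, sum_mapD]
    refine (Finsupp.sum_subtypeDomain_index (p := fun j => h.n j ≤ N)
      (h := fun j s => iot D.ph s • h.w j) ?_).trans (h.lc_rp x.1)
    intro j hj
    by_contra hn
    exact (Finsupp.mem_support_iff.1 hj) ((h.mem_fil_iff N x.1).1 x.2 j (not_le.1 hn))

theorem exists_quo (N : ℤ) : ∃ h' : Fbs D (X ⧸ D.fil X N) {i // N < h.n i},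
    ∀ i, h'.n i = h.n i.1 ∧ h'.w i = (D.fil X N).mkQ (h.w i.1) := by
  have hs : ∀ f : {i // N < h.n i} →₀ D.S,
      f.sum (fun i s => iot D.ph s • (D.fil X N).mkQ (h.w i.1)) =
        (D.fil X N).mkQ (h.lc (f.mapDomain Subtype.val)) := by
    intro f
    rw [lc_apply, sum_mapD, Finsupp.sum, Finsupp.sum, map_sum]
    exact Finset.sum_congr rfl fun i _ => (map_smul _ _ _).symm
  refine builder (Y := X ⧸ D.fil X N) (κ := {i // N < h.n i})
    (fun i => (D.fil X N).mkQ (h.w i.1)) (fun i => h.n i.1)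
    (fun i => wt_map (D.fil X N).mkQ (h.hw i.1))
    (fun i => ⟨(h.c i.1).subtypeDomain (fun j => N < h.n j), ?_, ?_⟩)
    (fun i => ?_) (fun f hf => ?_)
    (fun x => ?_)
  · intro j hj
    exact h.hc i.1 j.1 hj
  · show gam D.ph Gn.tau • (D.fil X N).mkQ (h.w i.1) = _
    rw [← map_smul, h.tau, Finsupp.sum, map_sum]
    have h1 : ∀ j ∈ (h.c i.1).support, (D.fil X N).mkQ (iot D.ph (C (h.c i.1 j)) • h.w j) =
        iot D.ph (C (h.c i.1 j)) • (D.fil X N).mkQ (h.w j) := fun j _ => map_smul _ _ _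
    rw [Finset.sum_congr rfl h1]
    refine (Finsupp.sum_subtypeDomain_index (p := fun j => N < h.n j)
      (h := fun j a => iot D.ph (C a) • (D.fil X N).mkQ (h.w j)) ?_).symm
    intro j hj
    rw [h.hc i.1 j (Finsupp.mem_support_iff.1 hj)]
    exact i.2
  · show (gam D.ph Gn.tau) ^ D.p • (D.fil X N).mkQ (h.w i.1) = _ • (D.fil X N).mkQ (h.w i.1)
    rw [← map_smul, h.taup, map_smul]
  · rw [hs, Submodule.mkQ_apply, Submodule.Quotient.mk_eq_zero] at hf
    have h1 := (h.mem_fil_iff N _).1 hf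
    rw [rp_lc] at h1
    ext1 i
    have h2 := h1 i.1 i.2
    rwa [Finsupp.mapDomain_apply Subtype.val_injective] at h2
  · obtain ⟨y, rfl⟩ := (D.fil X N).mkQ_surjective x
    refine ⟨(h.rp y).subtypeDomain (fun j => N < h.n j), ?_⟩
    rw [hs, ← sub_eq_zero, ← map_sub, Submodule.mkQ_apply, Submodule.Quotient.mk_eq_zero,
      h.mem_fil_iff]
    intro i hi
    rw [rp_sub, rp_lc, Finsupp.sub_apply,
      Finsupp.mapDomain_apply (f := Subtype.val) Subtype.val_injective _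
        (⟨i, hi⟩ : {i // N < h.n i}), Finsupp.subtypeDomain_apply, sub_self]

private theorem sum_el {κ : Type} {Z : Type u} [AddCommGroup Z] [Module D.R Z] (w : ι ⊕ κ → Z)
    (f : ι →₀ D.S) (g : κ →₀ D.S) :
    (f.sumElim g).sum (fun j s => iot D.ph s • w j) =
      f.sum (fun i s => iot D.ph s • w (Sum.inl i)) +
        g.sum (fun i s => iot D.ph s • w (Sum.inr i)) := Finsupp.sum_sumElim _ _ _

private theorem split_el {κ : Type} (f : ι ⊕ κ →₀ D.S) : ∃ (f1 : ι →₀ D.S) (f2 : κ →₀ D.S),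
    f = f1.sumElim f2 := by
  refine ⟨f.comapDomain Sum.inl Sum.inl_injective.injOn,
    f.comapDomain Sum.inr Sum.inr_injective.injOn, ?_⟩
  ext (i | i) <;> rfl

theorem exists_prod {κ : Type} (h2 : Fbs D Y κ) : ∃ h' : Fbs D (X × Y) (ι ⊕ κ),
    (∀ i, h'.n (Sum.inl i) = h.n i ∧ h'.w (Sum.inl i) = (h.w i, 0)) ∧
      (∀ j, h'.n (Sum.inr j) = h2.n j ∧ h'.w (Sum.inr j) = (0, h2.w j)) := by
  have a1 : ∀ f : ι →₀ D.S, f.sum (fun i s => iot D.ph s • ((h.w i, 0) : X × Y)) =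
      LinearMap.inl D.R X Y (h.lc f) := by
    intro f
    rw [lc_apply, Finsupp.sum, Finsupp.sum, map_sum]
    exact Finset.sum_congr rfl fun i _ => (map_smul (LinearMap.inl D.R X Y) _ _).symm
  have a2 : ∀ f : κ →₀ D.S, f.sum (fun i s => iot D.ph s • ((0, h2.w i) : X × Y)) =
      LinearMap.inr D.R X Y (h2.lc f) := by
    intro f
    rw [lc_apply, Finsupp.sum, Finsupp.sum, map_sum]
    exact Finset.sum_congr rfl fun i _ => (map_smul (LinearMap.inr D.R X Y) _ _).symm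
  have hs : ∀ (f : ι →₀ D.S) (g : κ →₀ D.S), (f.sumElim g).sum (fun j s => iot D.ph s •
      (Sum.elim (fun i => (h.w i, 0)) (fun j => (0, h2.w j)) j : X × Y)) = (h.lc f, h2.lc g) := by
    intro f g
    rw [sum_el]
    refine (congrArg₂ (· + ·) (a1 f) (a2 g)).trans ?_
    rw [LinearMap.inl_apply, LinearMap.inr_apply, Prod.mk_add_mk, add_zero, zero_add]
  suffices key : ∃ h' : Fbs D (X × Y) (ι ⊕ κ), ∀ j, h'.n j = Sum.elim h.n h2.n j ∧
      h'.w j = Sum.elim (fun i => (h.w i, 0)) (fun j => (0, h2.w j)) j by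
    obtain ⟨h', hh⟩ := key
    exact ⟨h', fun i => hh (Sum.inl i), fun j => hh (Sum.inr j)⟩
  refine builder (Y := X × Y) (Sum.elim (fun i => (h.w i, 0)) (fun j => (0, h2.w j)))
    (Sum.elim h.n h2.n) ?_ ?_ ?_ (fun f hf => ?_) (fun x => ⟨(h.rp x.1).sumElim (h2.rp x.2), ?_⟩)
  · rintro (i | j)
    · exact wt_map (LinearMap.inl D.R X Y) (h.hw i)
    · exact wt_map (LinearMap.inr D.R X Y) (h2.hw j)
  · rintro (i | j)
    · refine ⟨(h.c i).sumElim 0, ?_, ?_⟩
      · rintro (k | k) hk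
        · exact h.hc i k hk
        · exact absurd rfl hk
      · rw [Finsupp.sum_sumElim, Finsupp.sum_zero_index, add_zero]
        show gam D.ph Gn.tau • LinearMap.inl D.R X Y (h.w i) = _
        rw [← map_smul, h.tau, Finsupp.sum, Finsupp.sum, map_sum]
        exact Finset.sum_congr rfl fun i _ => map_smul (LinearMap.inl D.R X Y) _ _
    · refine ⟨(0 : ι →₀ D.L).sumElim (h2.c j), ?_, ?_⟩
      · rintro (k | k) hk
        · exact absurd rfl hk
        · exact h2.hc j k hk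
      · rw [Finsupp.sum_sumElim, Finsupp.sum_zero_index, zero_add]
        show gam D.ph Gn.tau • LinearMap.inr D.R X Y (h2.w j) = _
        rw [← map_smul, h2.tau, Finsupp.sum, Finsupp.sum, map_sum]
        exact Finset.sum_congr rfl fun i _ => map_smul (LinearMap.inr D.R X Y) _ _
  · rintro (i | j)
    · show (gam D.ph Gn.tau) ^ D.p • LinearMap.inl D.R X Y (h.w i) =
        iot D.ph (algebraMap D.F D.S (D.b ^ h.n i)) • LinearMap.inl D.R X Y (h.w i)
      rw [← map_smul, h.taup, map_smul]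
    · show (gam D.ph Gn.tau) ^ D.p • LinearMap.inr D.R X Y (h2.w j) =
        iot D.ph (algebraMap D.F D.S (D.b ^ h2.n j)) • LinearMap.inr D.R X Y (h2.w j)
      rw [← map_smul, h2.taup, map_smul]
  · obtain ⟨f1, f2, rfl⟩ := split_el f
    rw [hs, Prod.mk_eq_zero] at hf
    rw [h.ind f1 hf.1, h2.ind f2 hf.2, Finsupp.sumElim_zero_zero]
  · rw [hs, lc_rp, lc_rp]

private theorem tau_smul_w {n : ℤ} {k : ℕ} {f : D.S} (i : ι) (hf : f.IsHomogeneous k)
    (hn : n = h.n i + k) : gam D.ph Gn.tau • iot D.ph f • h.w i ∈ wt D.F D.ph X n := by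
  rw [← mul_smul, gam_mul_iot, mul_smul, h.tau, Finsupp.sum, Finset.smul_sum]
  refine AddSubgroup.sum_mem _ fun j hj => ?_
  rw [← mul_smul, ← map_mul]
  refine h.wt_smul_w j (k := k) ?_ ?_
  · have h1 : (D.ph Gn.tau f).IsHomogeneous k := D.X.sig_hom hf
    have h2 := h1.mul (isHomogeneous_C (Fin D.p) (h.c i j))
    rwa [add_zero] at h2
  · rw [hn, h.hc i j (Finsupp.mem_support_iff.1 hj)]

private theorem taup_iot (k : ℕ) (f : D.S) (x : X) : (gam D.ph Gn.tau) ^ k • iot D.ph f • x =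
    iot D.ph (D.tauS^[k] f) • (gam D.ph Gn.tau) ^ k • x := by
  induction k with
  | zero => simp
  | succ k ih =>
    rw [pow_succ', mul_smul, ih, ← mul_smul, gam_mul_iot, mul_smul, ← mul_smul, mul_smul,
      Function.iterate_succ_apply', mul_smul]
    rfl

private theorem taup_smul_w {n : ℤ} {k : ℕ} {f : D.S} (i : ι) (hf : f.IsHomogeneous k)
    (hn : n = h.n i + k) : (gam D.ph Gn.tau) ^ D.p • iot D.ph f • h.w i =
      iot D.ph (algebraMap D.F D.S (D.b ^ n)) • iot D.ph f • h.w i := by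
  rw [taup_iot, h.taup, ← mul_smul, ← mul_smul, ← map_mul, ← map_mul]
  have h1 : D.tauS^[D.p] f = algebraMap D.F D.S (D.b ^ k) * f := by
    refine (D.X.sig_iter hf).trans ?_
    show C (D.X.bL ^ k) * f = C (algebraMap D.F D.L (D.b ^ k)) * f
    rw [map_pow (algebraMap D.F D.L)]
    rfl
  rw [h1]
  have h2 : D.b ^ n = D.b ^ k * D.b ^ h.n i := by
    rw [hn, zpow_add₀ D.X.b_ne, zpow_natCast, mul_comm]
  rw [h2, map_mul (algebraMap D.F D.S)]
  congr 2
  ring

private theorem coord_sum (x : X) : x = ∑ i ∈ (h.rp x).support, iot D.ph (h.rp x i) • h.w i :=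
  (h.lc_rp x).symm

include h in
theorem wts : Wts D.F D.ph X D.p D.b := by
  refine ⟨?_, ?_, ?_⟩
  · rw [eq_top_iff]
    intro x _
    refine h.ind_on (P := fun x => x ∈ ⨆ n, wt D.F D.ph X n) x (AddSubgroup.zero_mem _) ?_
      (fun x y hx hy => AddSubgroup.add_mem _ hx hy)
    intro i s
    rw [← MvPolynomial.sum_homogeneousComponent s, map_sum, Finset.sum_smul]
    refine AddSubgroup.sum_mem _ fun k _ => AddSubgroup.mem_iSup_of_mem (h.n i + k) ?_
    exact h.wt_smul_w i (MvPolynomial.homogeneousComponent_isHomogeneous k s) rfl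
  · intro n x hx
    rw [h.coord_sum x, Finset.smul_sum]
    refine AddSubgroup.sum_mem _ fun i hi => ?_
    rcases lt_or_ge n (h.n i) with h1 | h1
    · rw [h.wt_lt hx i h1, map_zero, zero_smul, smul_zero]
      exact AddSubgroup.zero_mem _
    · obtain ⟨k, hk⟩ := Int.eq_ofNat_of_zero_le (sub_nonneg.2 h1)
      have hk' : n = h.n i + k := by omega
      exact h.tau_smul_w i (h.wt_hom hx i k hk') hk'
  · intro n x hx
    show (gam D.ph Gn.tau) ^ D.p • x = _
    conv_lhs => rw [h.coord_sum x, Finset.smul_sum]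
    conv_rhs => rw [h.coord_sum x, Finset.smul_sum]
    refine Finset.sum_congr rfl fun i hi => ?_
    rcases lt_or_ge n (h.n i) with h1 | h1
    · rw [h.wt_lt hx i h1, map_zero, zero_smul, smul_zero, smul_zero]
    · obtain ⟨k, hk⟩ := Int.eq_ofNat_of_zero_le (sub_nonneg.2 h1)
      have hk' : n = h.n i + k := by omega
      exact h.taup_smul_w i (h.wt_hom hx i k hk') hk'

include h in
theorem mP_fil (N : ℤ) (x : D.fil X N) : x ∈ D.mP (D.fil X N) ↔ (x : X) ∈ D.mP X := by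
  obtain ⟨h', hh⟩ := h.exists_fil N
  have h1 : h.rp x.1 = (h'.rp x).mapDomain Subtype.val := by
    refine h.rp_eq ?_
    rw [lc_apply, sum_mapD]
    have h2 := congrArg (Subtype.val) (h'.lc_rp x)
    rw [lc_apply, Finsupp.sum, Submodule.coe_sum] at h2
    rw [← h2]
    refine Finset.sum_congr rfl fun i _ => ?_
    show iot D.ph (h'.rp x i) • h.w i.1 = iot D.ph (h'.rp x i) • ((h'.w i : D.fil X N) : X)
    rw [(hh i).2]
  rw [h'.mem_mP_iff, h.mem_mP_iff, h1]
  constructor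
  · intro h2 i
    by_cases hi : h.n i ≤ N
    · have h3 := h2 ⟨i, hi⟩
      rwa [← Finsupp.mapDomain_apply Subtype.val_injective] at h3
    · rw [Finsupp.mapDomain_of_notMem_range, map_zero]
      rintro ⟨j, rfl⟩
      exact hi j.2
  · intro h2 i
    have h3 := h2 i.1
    rwa [Finsupp.mapDomain_apply Subtype.val_injective] at h3

include h in
theorem isF_of_finite [Finite ι] : D.IsF X := by
  obtain ⟨r, ⟨e⟩⟩ := Finite.exists_equiv_fin ι
  obtain ⟨h', _⟩ := h.exists_reindex e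
  exact ⟨r, ⟨h'⟩⟩

theorem isF_fil {N : ℤ} (hN : {i | h.n i ≤ N}.Finite) : D.IsF (D.fil X N) := by
  obtain ⟨h', _⟩ := h.exists_fil N
  have : Finite {i // h.n i ≤ N} := hN
  exact h'.isF_of_finite

end Fbs

namespace Dat

variable (D : Dat.{u})
variable {X Y : Type u} [AddCommGroup X] [Module D.R X] [AddCommGroup Y] [Module D.R Y]

theorem isF_iso (e : X ≃ₗ[D.R] Y) (h : D.IsF X) : D.IsF Y := by
  obtain ⟨r, ⟨h⟩⟩ := h
  obtain ⟨h', _⟩ := h.exists_iso e
  exact ⟨r, ⟨h'⟩⟩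

theorem isF_prod (h : D.IsF X) (h' : D.IsF Y) : D.IsF (X × Y) := by
  obtain ⟨r, ⟨h⟩⟩ := h
  obtain ⟨r', ⟨h'⟩⟩ := h'
  obtain ⟨h2, _⟩ := h.exists_prod h'
  exact h2.isF_of_finite

theorem isF_filF (h : D.IsF X) (N : ℤ) : D.IsF (D.fil X N) := by
  obtain ⟨r, ⟨h⟩⟩ := h
  exact h.isF_fil (Set.toFinite _)

theorem isF_quoF (h : D.IsF X) (N : ℤ) : D.IsF (X ⧸ D.fil X N) := by
  obtain ⟨r, ⟨h⟩⟩ := h
  obtain ⟨h', _⟩ := h.exists_quo N
  exact h'.isF_of_finite

theorem isF_zero [Subsingleton X] : D.IsF X :=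
  ⟨0, ⟨{
    w := fun i => i.elim0
    n := fun i => i.elim0
    c := fun i => i.elim0
    hw := fun i => i.elim0
    hc := fun i => i.elim0
    tau := fun i => i.elim0
    taup := fun i => i.elim0
    ind := fun f _ => Finsupp.ext fun i => i.elim0
    span := fun x => ⟨0, Subsingleton.elim _ _⟩ }⟩⟩

theorem isF_fil_top (h : D.IsF X) : ∃ N, ∀ N' ≥ N, D.fil X N' = ⊤ := by
  obtain ⟨r, ⟨h⟩⟩ := h
  obtain ⟨N, hN⟩ := (Set.finite_range h.n).bddAbove
  refine ⟨N, fun N' hN' => ?_⟩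
  rw [eq_top_iff]
  intro x _
  rw [h.mem_fil_iff]
  intro i hi
  have h1 := hN ⟨i, rfl⟩
  omega

theorem isF_fil_bot (h : D.IsF X) : ∃ N, ∀ N' ≤ N, D.fil X N' = ⊥ := by
  obtain ⟨r, ⟨h⟩⟩ := h
  obtain ⟨N, hN⟩ := (Set.finite_range h.n).bddBelow
  refine ⟨N - 1, fun N' hN' => ?_⟩
  rw [eq_bot_iff]
  intro x hx
  rw [h.mem_fil_iff] at hx
  rw [Submodule.mem_bot]
  apply h.rp_inj
  rw [h.rp_zero]
  ext1 i
  refine hx i ?_
  have h1 := hN ⟨i, rfl⟩
  omega

theorem mem_wt_prod (n : ℤ) (x : X × Y) : x ∈ wt D.F D.ph (X × Y) n ↔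
    x.1 ∈ wt D.F D.ph X n ∧ x.2 ∈ wt D.F D.ph Y n := by
  constructor
  · intro hx
    exact ⟨wt_map (LinearMap.fst D.R X Y) hx, wt_map (LinearMap.snd D.R X Y) hx⟩
  · rintro ⟨h1, h2⟩ c
    exact Prod.ext (h1 c) (h2 c)

theorem mem_mP_prod (x : X × Y) : x ∈ D.mP (X × Y) ↔ x.1 ∈ D.mP X ∧ x.2 ∈ D.mP Y := by
  constructor
  · intro hx
    exact ⟨D.mP_map (LinearMap.fst D.R X Y) hx, D.mP_map (LinearMap.snd D.R X Y) hx⟩
  · rintro ⟨h1, h2⟩
    have h3 := (D.mP (X × Y)).add_mem (D.mP_map (LinearMap.inl D.R X Y) h1)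
      (D.mP_map (LinearMap.inr D.R X Y) h2)
    rwa [LinearMap.inl_apply, LinearMap.inr_apply, Prod.mk_add_mk, add_zero, zero_add] at h3

theorem mem_fil_prod (N : ℤ) (x : X × Y) : x ∈ D.fil (X × Y) N ↔
    x.1 ∈ D.fil X N ∧ x.2 ∈ D.fil Y N := by
  constructor
  · intro hx
    exact ⟨D.fil_map (LinearMap.fst D.R X Y) hx, D.fil_map (LinearMap.snd D.R X Y) hx⟩
  · rintro ⟨h1, h2⟩
    have h3 := (D.fil (X × Y) N).add_mem (D.fil_map (LinearMap.inl D.R X Y) h1)
      (D.fil_map (LinearMap.inr D.R X Y) h2)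
    rwa [LinearMap.inl_apply, LinearMap.inr_apply, Prod.mk_add_mk, add_zero, zero_add] at h3

theorem mem_wt_sub (N : Submodule D.R X) (n : ℤ) (x : N) :
    x ∈ wt D.F D.ph N n ↔ (x : X) ∈ wt D.F D.ph X n := by
  constructor
  · intro hx
    exact wt_map N.subtype hx
  · intro hx c
    exact Subtype.ext (hx c)

end Dat

end MSA
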