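import Mathlib
import Pool.Agent.MSA.Rb3

/-!
# Complexes with homogeneous bases: exactness of the tail, truncations

PROOFS. `tail0`: claim: for all `m ≥ N` and `y ∈ fil X0 m` with `d0 y ∈ fil X1 N` there is `z` with
`y - d1 z ∈ fil X0 N`; induction on `m - N` (`exists_mem_fil` gives some `m`, `fil_mono`). `m = N`: `z = 0`. Step:
`y ∈ fil X0 m`, `m > N`. `h0.top_part` (`x = y`): `t`, `u`. Then `d0 y ∈ fil N ≤ fil (m-1)` and
`∑_t iot (monomial a 1) • d0 (u a) = d0 y - d0 (y - ∑ ..) ∈ fil X1 (m-1)` (`fil_map`); `d0 (u a)` has weight `m`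
(`wt_map`), so `d0 (u a) ∈ mP X1` for `a ∈ t` (`h1.top_indep`). By `ExM X m` there is `v a ∈ wt X1 m` with
`u a - d1 (v a) ∈ mP X0`, an element of weight `m`, so in `fil X0 (m-1)` (`h0.wt_mP_fil`). Put
`z1 = ∑_t iot (monomial a 1) • v a`; `y - d1 z1 ∈ fil X0 (m-1)` and `d0 (y - d1 z1) = d0 y ∈ fil N`: induction.
`tail1`: `tail0` for `X.sh`.
`exM_fil`: `n > N`: a vector of weight `n` of `fil N` lies in `mP` (`exists_fil`, `wt_fil_mP` applied to the basis of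
`fil X N`, where all weights are `≤ N`, i.e. `D.fil (D.fil X N) N = ⊤` by `mem_fil_iff`); take `y = 0`. `n ≤ N`:
`x : fil X0 N` of weight `n` with `d0 x ∈ mP (fil X1 N)`; `mP_fil`, `mem_wt_sub`; `ExM X n` gives `y` of weight
`n ≤ N`, so `y ∈ fil X1 N` (`mem_fil_of`), and `x - d1 y ∈ mP (fil X0 N)` by `mP_fil`.
`exM_quo`: `n ≤ N`: a vector of weight `n` of `X0 ⧸ fil N` lifts to weight `n` (`wt_lift`, `h0.wts`), so it is zero; take
`y = 0`. `n > N`: `x = mkQ x'`, `x' ∈ wt X0 n`; `mkQ (d0 x') ∈ mP (X1 ⧸ fil N)` means `d0 x' = m + f` with `m ∈ mP X1`,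
`f ∈ fil X1 N` (`mP (X1 ⧸ fil N)` is the image of `mP X1`); take the components of weight `n` of `m` and `f`
(`wt_decomp`, `wt_mem_sub`, `wt_indep`: if `m + f` has weight `n` then `m + f = m_n + f_n` with `m_n ∈ mP`, `f_n ∈ fil N`);
`f_n ∈ mP` by `wt_fil_mP`. So `d0 x' ∈ mP X1`, apply `ExM X n`, project.
`acy_of`: `N` with `fil X0 N = ⊥`, `fil X1 N = ⊥` (`isF_fil_bot`); `tail0`, `tail1`.
`dom_of_acy`: `s = 1 ∉ P.I` (prime ideal), `map_one`, `one_smul`.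
-/

set_option autoImplicit false
set_option linter.unusedSectionVars false

noncomputable section

namespace MSA

universe u v w

open MvPolynomial

namespace Dat

variable (D : Dat.{u}) {X : Ch.{u} D.R} {ι κ : Type}

theorem exM_sh {n : ℤ} (h : D.ExM X n) : D.ExM X.sh n := ⟨h.2, h.1⟩

private theorem rc1_step (h0 : Fbs D X.X0 ι) (h1 : Fbs D X.X1 κ) {m : ℤ} (h : D.ExM X m)
    (y : X.X0) (hm : y ∈ D.fil X.X0 m) (hy : X.d0 y ∈ D.fil X.X1 (m - 1)) :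
    ∃ z, y - X.d1 z ∈ D.fil X.X0 (m - 1) := by
  obtain ⟨t, u, hu, ht⟩ := h0.top_part hm
  have hs : ∑ a ∈ t, iot D.ph (monomial a 1) • X.d0 (u a) ∈ D.fil X.X1 (m - 1) := by
    have e : ∑ a ∈ t, iot D.ph (monomial a 1) • X.d0 (u a) =
        X.d0 y - X.d0 (y - ∑ a ∈ t, iot D.ph (monomial a 1) • u a) := by
      rw [map_sub, sub_sub_cancel, map_sum]
      exact Finset.sum_congr rfl fun a _ => (map_smul X.d0 _ _).symm
    rw [e]
    exact sub_mem hy (D.fil_map X.d0 ht)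
  have hP := h1.top_indep t (fun a => X.d0 (u a)) (fun a => wt_map X.d0 (hu a)) hs
  have hv : ∀ a, ∃ v : X.X1, a ∈ t → v ∈ wt D.F D.ph X.X1 m ∧ u a - X.d1 v ∈ D.mP X.X0 := by
    intro a
    by_cases ha : a ∈ t
    · obtain ⟨v, hv1, hv2⟩ := h.1 (u a) (hu a) (hP a ha)
      exact ⟨v, fun _ => ⟨hv1, hv2⟩⟩
    · exact ⟨0, fun h => absurd h ha⟩
  choose v hv using hv
  refine ⟨∑ a ∈ t, iot D.ph (monomial a 1) • v a, ?_⟩
  have e : y - X.d1 (∑ a ∈ t, iot D.ph (monomial a 1) • v a) =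
      (y - ∑ a ∈ t, iot D.ph (monomial a 1) • u a) +
        ∑ a ∈ t, iot D.ph (monomial a 1) • (u a - X.d1 (v a)) := by
    rw [map_sum]
    simp only [smul_sub, Finset.sum_sub_distrib, map_smul]
    abel
  rw [e]
  refine add_mem ht (sum_mem fun a ha => Submodule.smul_mem _ _ ?_)
  exact h0.wt_mP_fil (AddSubgroup.sub_mem _ (hu a) (wt_map X.d1 (hv a ha).1)) (hv a ha).2

private theorem rc1_ind (h0 : Fbs D X.X0 ι) (h1 : Fbs D X.X1 κ) (N : ℤ)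
    (h : ∀ n, N < n → D.ExM X n) (k : ℕ) : ∀ y : X.X0, y ∈ D.fil X.X0 (N + k) →
    X.d0 y ∈ D.fil X.X1 N → ∃ z, y - X.d1 z ∈ D.fil X.X0 N := by
  induction k with
  | zero =>
    intro y hy _
    refine ⟨0, ?_⟩
    rw [map_zero, sub_zero]
    simpa using hy
  | succ k ih =>
    intro y hy hd
    have hm : N < N + ((k + 1 : ℕ) : ℤ) := by
      push_cast
      omega
    have hm1 : N + ((k + 1 : ℕ) : ℤ) - 1 = N + (k : ℤ) := by
      push_cast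
      ring
    obtain ⟨z1, hz1⟩ := D.rc1_step h0 h1 (h _ hm) y hy (D.fil_mono (by omega) hd)
    rw [hm1] at hz1
    have hd1 : X.d0 (y - X.d1 z1) ∈ D.fil X.X1 N := by
      rw [map_sub, X.h01, sub_zero]
      exact hd
    obtain ⟨z, hz⟩ := ih _ hz1 hd1
    refine ⟨z1 + z, ?_⟩
    rw [map_add, ← sub_sub]
    exact hz

theorem tail0 (h0 : Fbs D X.X0 ι) (h1 : Fbs D X.X1 κ) (N : ℤ) (h : ∀ n, N < n → D.ExM X n)
    (y : X.X0) (hy : X.d0 y ∈ D.fil X.X1 N) : ∃ z, y - X.d1 z ∈ D.fil X.X0 N := by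
  obtain ⟨N1, hN1⟩ := h0.exists_mem_fil y
  exact D.rc1_ind h0 h1 N h (N1 - N).toNat y (D.fil_mono (by omega) hN1) hy

theorem tail1 (h0 : Fbs D X.X0 ι) (h1 : Fbs D X.X1 κ) (N : ℤ) (h : ∀ n, N < n → D.ExM X n)
    (y : X.X1) (hy : X.d1 y ∈ D.fil X.X0 N) : ∃ z, y - X.d0 z ∈ D.fil X.X1 N :=
  D.tail0 (X := X.sh) h1 h0 N (fun n hn => D.exM_sh (h n hn)) y hy

private theorem rc1_fil (h0 : Fbs D X.X0 ι) (h1 : Fbs D X.X1 κ) {N n : ℤ} (h : n ≤ N → D.ExM X n) :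
    ∀ x ∈ wt D.F D.ph (D.filC X N).X0 n, (D.filC X N).d0 x ∈ D.mP (D.filC X N).X1 →
      ∃ y ∈ wt D.F D.ph (D.filC X N).X1 n, x - (D.filC X N).d1 y ∈ D.mP (D.filC X N).X0 := by
  intro x hx hd
  have hx' : (x.1 : X.X0) ∈ wt D.F D.ph X.X0 n := (D.mem_wt_sub (D.fil X.X0 N) n x).1 hx
  rcases lt_or_ge N n with hn | hn
  · refine ⟨0, AddSubgroup.zero_mem _, ?_⟩
    rw [map_zero, sub_zero]
    exact (h0.mP_fil N x).2 (h0.wt_fil_mP hn hx' x.2)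
  · have hd' : X.d0 x.1 ∈ D.mP X.X1 := (h1.mP_fil N ((D.filC X N).d0 x)).1 hd
    obtain ⟨y, hy, hxy⟩ := (h hn).1 x.1 hx' hd'
    refine ⟨⟨y, D.mem_fil_of hn hy⟩, (D.mem_wt_sub (D.fil X.X1 N) n _).2 hy, ?_⟩
    exact (h0.mP_fil N _).2 hxy

theorem exM_fil (h0 : Fbs D X.X0 ι) (h1 : Fbs D X.X1 κ) {N n : ℤ} (h : n ≤ N → D.ExM X n) :
    D.ExM (D.filC X N) n :=
  ⟨D.rc1_fil h0 h1 h, D.rc1_fil (X := X.sh) h1 h0 (fun hn => D.exM_sh (h hn))⟩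

private theorem rc1_quomP {Y : Type u} [AddCommGroup Y] [Module D.R Y] (A : Submodule D.R Y)
    {q : Y ⧸ A} (hq : q ∈ D.mP (Y ⧸ A)) : ∃ m ∈ D.mP Y, A.mkQ m = q := by
  have h : D.mP (Y ⧸ A) ≤ (D.mP Y).map A.mkQ := by
    refine Submodule.span_le.2 ?_
    rintro _ ⟨j, x, rfl⟩
    obtain ⟨x, rfl⟩ := A.mkQ_surjective x
    exact ⟨iot D.ph (MvPolynomial.X j) • x, D.mem_mP_of j x, map_smul _ _ _⟩
  obtain ⟨m, hm, e⟩ := h hq
  exact ⟨m, hm, e⟩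

private theorem rc1_quo (h0 : Fbs D X.X0 ι) (h1 : Fbs D X.X1 κ) {N n : ℤ} (h : N < n → D.ExM X n) :
    ∀ x ∈ wt D.F D.ph (D.quoC X N).X0 n, (D.quoC X N).d0 x ∈ D.mP (D.quoC X N).X1 →
      ∃ y ∈ wt D.F D.ph (D.quoC X N).X1 n, x - (D.quoC X N).d1 y ∈ D.mP (D.quoC X N).X0 := by
  intro x hx hd
  obtain ⟨x, hx', rfl⟩ := wt_lift h0.wts (D.fil X.X0 N).mkQ (D.fil X.X0 N).mkQ_surjective hx
  rcases lt_or_ge N n with hn | hn
  · have hd' : X.d0 x ∈ D.mP X.X1 := by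
      obtain ⟨m, hm, e⟩ := D.rc1_quomP (D.fil X.X1 N) hd
      have e' : (D.fil X.X1 N).mkQ m = (D.fil X.X1 N).mkQ (X.d0 x) := e
      have hsub : m - X.d0 x ∈ D.fil X.X1 N := by
        rw [← Submodule.Quotient.mk_eq_zero, Submodule.Quotient.mk_sub, sub_eq_zero]
        exact e'
      rw [h1.mem_mP_iff] at hm ⊢
      intro i
      by_contra hc
      have hw := h1.wt_monomial (wt_map X.d0 hx') i 0 hc
      have hni : N < h1.n i := by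
        rw [map_zero] at hw
        push_cast at hw
        omega
      have h2 := (h1.mem_fil_iff N _).1 hsub i hni
      rw [h1.rp_sub, Finsupp.sub_apply, sub_eq_zero] at h2
      rw [← h2] at hc
      exact hc (hm i)
    obtain ⟨y, hy, hxy⟩ := (h hn).1 x hx' hd'
    refine ⟨(D.fil X.X1 N).mkQ y, wt_map (D.fil X.X1 N).mkQ hy, ?_⟩
    exact D.mP_map (D.fil X.X0 N).mkQ hxy
  · refine ⟨0, AddSubgroup.zero_mem _, ?_⟩
    have e : (D.fil X.X0 N).mkQ x = 0 :=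
      (Submodule.Quotient.mk_eq_zero _).2 (D.mem_fil_of hn hx')
    rw [map_zero, sub_zero, e]
    exact Submodule.zero_mem _

theorem exM_quo (h0 : Fbs D X.X0 ι) (h1 : Fbs D X.X1 κ) {N n : ℤ} (h : N < n → D.ExM X n) :
    D.ExM (D.quoC X N) n :=
  ⟨D.rc1_quo h0 h1 h, D.rc1_quo (X := X.sh) h1 h0 (fun hn => D.exM_sh (h hn))⟩

private theorem rc1_acy (h0 : D.IsF X.X0) (h1 : D.IsF X.X1) (h : ∀ n, D.ExM X n) (x : X.X0)
    (hx : X.d0 x = 0) : ∃ y, X.d1 y = x := by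
  obtain ⟨r0, ⟨b0⟩⟩ := h0
  obtain ⟨r1, ⟨b1⟩⟩ := h1
  obtain ⟨N, hN⟩ := D.isF_fil_bot ⟨r0, ⟨b0⟩⟩
  obtain ⟨z, hz⟩ := D.tail0 b0 b1 N (fun n _ => h n) x (by rw [hx]; exact Submodule.zero_mem _)
  rw [hN N le_rfl, Submodule.mem_bot, sub_eq_zero] at hz
  exact ⟨z, hz.symm⟩

theorem acy_of (h0 : D.IsF X.X0) (h1 : D.IsF X.X1) (h : ∀ n, D.ExM X n) : X.Acy :=
  ⟨D.rc1_acy h0 h1 h, D.rc1_acy (X := X.sh) h1 h0 (fun n => D.exM_sh (h n))⟩

theorem dom_of_acy (h0 : D.IsF X.X0) (h1 : D.IsF X.X1) (h : X.Acy) : D.Dom X := by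
  refine ⟨h0, h1, ?_, ?_⟩
  · intro P x hx
    obtain ⟨y, hy⟩ := h.1 x hx
    refine ⟨1, fun h1 => (inferInstance : P.I.IsPrime).ne_top ((Ideal.eq_top_iff_one _).2 h1), y, ?_⟩
    rw [map_one, one_smul]
    exact hy
  · intro P x hx
    obtain ⟨y, hy⟩ := h.2 x hx
    refine ⟨1, fun h1 => (inferInstance : P.I.IsPrime).ne_top ((Ideal.eq_top_iff_one _).2 h1), y, ?_⟩
    rw [map_one, one_smul]
    exact hy

end Dat

end MSA
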