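import Mathlib
import Pool.Agent.MSA.Rc1

/-!
# Exact complexes have value zero

PROOF. `v_zero`: strong induction on the number of elements of the finite set
`W = {h0.n i} ∪ {h1.n j}` of weights of finite bases of `X0` and `X1` (state it as: for all `k`, all `X` with bases
`h0 : Fbs D X.X0 (Fin r)`, `h1 : Fbs D X.X1 (Fin s)` with `card W ≤ k`). All complexes that occur are in `Dom`
(`acy_of`, `dom_of_acy`). If `card W ≤ 1` choose `n` with `W ⊆ {n}` and use `Ψ.zero`. Otherwise let `N` be the smallest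
element of `W`. `D.filC X N` has terms with bases of weight `N` only (`exists_fil`, index type `{i // n i ≤ N}`, finite;
`exists_reindex` with `Finite.equivFin`), `D.quoC X N` has terms with bases with weights in `W \ {N}` (`exists_quo`).
Both satisfy `ExM` in all weights (`exM_fil`, `exM_quo`). `Ψ.add` for `D.sesFil X N` and the induction hypothesis.
-/

set_option autoImplicit false
set_option linter.unusedSectionVars false

noncomputable section

namespace MSA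

universe u v w

namespace Dat

variable (D : Dat.{u}) {X : Ch.{u} D.R} {H : Type v} [AddCommGroup H] (Ψ : PsiT D H)

private theorem rc_fin {Y : Type u} [AddCommGroup Y] [Module D.R Y] {ι : Type} [Finite ι]
    (h : Fbs D Y ι) (W : Finset ℤ) (hW : ∀ i, h.n i ∈ W) :
    ∃ (r : ℕ) (h' : Fbs D Y (Fin r)), ∀ i, h'.n i ∈ W := by
  obtain ⟨h', hh'⟩ := h.exists_reindex (Finite.equivFin ι)
  refine ⟨_, h', fun i => ?_⟩
  have h1 := (hh' ((Finite.equivFin ι).symm i)).1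
  rw [Equiv.apply_symm_apply] at h1
  rw [h1]
  exact hW _

private theorem rc_aux (W : Finset ℤ) : ∀ (X : Ch.{u} D.R) {r s : ℕ} (h0 : Fbs D X.X0 (Fin r))
    (h1 : Fbs D X.X1 (Fin s)), (∀ i, h0.n i ∈ W) → (∀ j, h1.n j ∈ W) → (∀ n, D.ExM X n) →
    Ψ.v X = 0 := by
  induction W using Finset.strongInduction with
  | H W ih =>
  intro X r s h0 h1 hW0 hW1 h
  have hF0 : D.IsF X.X0 := ⟨r, ⟨h0⟩⟩
  have hF1 : D.IsF X.X1 := ⟨s, ⟨h1⟩⟩
  have hA : X.Acy := D.acy_of hF0 hF1 h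
  by_cases hc : W.card ≤ 1
  · obtain ⟨n, hn⟩ := Finset.card_le_one_iff_subset_singleton.1 hc
    exact Ψ.zero X n (D.dom_of_acy hF0 hF1 hA) hA
      ⟨r, h0, fun i => Finset.mem_singleton.1 (hn (hW0 i))⟩
      ⟨s, h1, fun i => Finset.mem_singleton.1 (hn (hW1 i))⟩
  · have hne : W.Nonempty := by
      rw [← Finset.card_pos]
      omega
    set N := W.min' hne with hN
    have hNW : N ∈ W := Finset.min'_mem _ _
    have hNle : ∀ n ∈ W, N ≤ n := fun n hn => Finset.min'_le _ _ hn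
    -- the sub
    have hs1 : ({N} : Finset ℤ) ⊂ W := by
      refine Finset.ssubset_iff_subset_ne.2 ⟨Finset.singleton_subset_iff.2 hNW, fun h' => ?_⟩
      rw [← h', Finset.card_singleton] at hc
      exact hc le_rfl
    have hs2 : W.erase N ⊂ W := Finset.erase_ssubset hNW
    obtain ⟨f0, hf0⟩ := h0.exists_fil N
    obtain ⟨f1, hf1⟩ := h1.exists_fil N
    obtain ⟨q0, hq0⟩ := h0.exists_quo N
    obtain ⟨q1, hq1⟩ := h1.exists_quo N
    obtain ⟨r1, f0', hf0'⟩ := D.rc_fin f0 {N} (fun i => by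
      rw [(hf0 i).1, Finset.mem_singleton]
      exact le_antisymm i.2 (hNle _ (hW0 i.1)))
    obtain ⟨s1, f1', hf1'⟩ := D.rc_fin f1 {N} (fun i => by
      rw [(hf1 i).1, Finset.mem_singleton]
      exact le_antisymm i.2 (hNle _ (hW1 i.1)))
    obtain ⟨r2, q0', hq0'⟩ := D.rc_fin q0 (W.erase N) (fun i => by
      rw [(hq0 i).1, Finset.mem_erase]
      exact ⟨ne_of_gt i.2, hW0 i.1⟩)
    obtain ⟨s2, q1', hq1'⟩ := D.rc_fin q1 (W.erase N) (fun i => by
      rw [(hq1 i).1, Finset.mem_erase]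
      exact ⟨ne_of_gt i.2, hW1 i.1⟩)
    have hEf : ∀ n, D.ExM (D.filC X N) n := fun n => D.exM_fil h0 h1 (fun _ => h n)
    have hEq : ∀ n, D.ExM (D.quoC X N) n := fun n => D.exM_quo h0 h1 (fun _ => h n)
    have hv1 : Ψ.v (D.filC X N) = 0 := ih {N} hs1 (D.filC X N) f0' f1' hf0' hf1' hEf
    have hv2 : Ψ.v (D.quoC X N) = 0 := ih (W.erase N) hs2 (D.quoC X N) q0' q1' hq0' hq1' hEq
    have hFf0 : D.IsF (D.filC X N).X0 := ⟨r1, ⟨f0'⟩⟩
    have hFf1 : D.IsF (D.filC X N).X1 := ⟨s1, ⟨f1'⟩⟩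
    have hFq0 : D.IsF (D.quoC X N).X0 := ⟨r2, ⟨q0'⟩⟩
    have hFq1 : D.IsF (D.quoC X N).X1 := ⟨s2, ⟨q1'⟩⟩
    have hadd := Ψ.add (D.dom_of_acy hFf0 hFf1 (D.acy_of hFf0 hFf1 hEf))
      (D.dom_of_acy hF0 hF1 hA) (D.dom_of_acy hFq0 hFq1 (D.acy_of hFq0 hFq1 hEq)) (D.sesFil X N)
    rw [hadd, hv1, hv2, add_zero]

theorem v_zero (h0 : D.IsF X.X0) (h1 : D.IsF X.X1) (h : ∀ n, D.ExM X n) : Ψ.v X = 0 := by
  classical
  obtain ⟨r, ⟨b0⟩⟩ := h0
  obtain ⟨s, ⟨b1⟩⟩ := h1
  exact D.rc_aux Ψ (Finset.univ.image b0.n ∪ Finset.univ.image b1.n) X b0 b1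
    (fun i => Finset.mem_union_left _ (Finset.mem_image_of_mem _ (Finset.mem_univ i)))
    (fun i => Finset.mem_union_right _ (Finset.mem_image_of_mem _ (Finset.mem_univ i))) h

end Dat

end MSA
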