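import Mathlib
import Pool.Agent.MSA.Rc2

/-!
# Cones and quasi-isomorphisms

PROOFS. Membership in `wt`, `mP` of the terms `Y0 × X1` of the cone: `mem_wt_prod`, `mem_mP_prod`.
`exM_cone_id`: `(y, x)` of weight `n` with `d y + x ∈ mP`, `- d x ∈ mP`: take `(0, y)`:
`(y, x) - d (0, y) = (y, x) - (y, - d y) = (0, x + d y) ∈ mP`.
`exM_cone`: `(y, x)` of weight `n` with `d y + f x ∈ mP`, `d x ∈ mP`. By (s) there is `x1` of weight `n` with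
`f x1 - y ∈ mP`. Then `z = d x1 + x` satisfies `f z = d (f x1) + f x ∈ mP` (`mP_map` for `d`), `d z = d x ∈ mP`. By (k) there
is `x2` of weight `n` with `f x2 ∈ mP`, `z - d x2 ∈ mP`. Take `(0, x1 - x2)`: `d (0, x1 - x2) = (f x1 - f x2, - d x1 + d x2)` and
`(y, x) - d (0, x1 - x2) = (y - f x1 + f x2, x + d x1 - d x2) ∈ mP`.
`exM_cone_incl`: `(y, x)`, `y ∈ fil N'`, `x ∈ fil N`, weight `n`. If `n ≤ N`: `y ∈ fil N` (`mem_fil_of`), take `(0, y)` as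
in `exM_cone_id` (`mP_fil` to compare `mP (fil N)` and `mP (fil N')` with `mP X`). If `N < n ≤ N'`: `x ∈ mP (fil N)`
(`wt_fil_mP`), so `d y ∈ mP`; `ExM X n` gives `y'` of weight `n` (so in `fil N'`), take `(y', 0)`. If `N' < n` everything lies in
`mP` (`wt_fil_mP`), take `0`.
`dom_sh`: swap. `isF_cone0/1`: `isF_prod`.
`v_sh`: the cone of the identity has value `0` (`v_zero`), `Ψ.add` for `sesCone`: `0 = v X + v X.sh`.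
`dom_right`: the cone is exact (`acy_of`). `y ∈ Y0`, `d0 y = 0`: `(y, 0)` is a cycle, so `(y, 0) = d1 (y', x')`:
`y = d1 y' + f x'`, `d0 x' = 0`; choose `s ∉ P.I` with `iot s • x' = d1 x2`; then `iot s • y = d1 (iot s • y' + f x2)`.
`dom_left`: `x ∈ X0`, `d0 x = 0`: `f x ∈ Y0` is a cycle, `iot s • f x = d1 y`; `(-y, iot s • x)` in `Y1 × X0` is a cycle of the cone,
so `= d0 (y', x')`, hence `iot s • x = - d1 x'`. The other degrees in the same way (or with `Ch.sh`).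
`v_eq`: `0 = v (cone f) = v Y + v X.sh = v Y - v X`; the cone is in `Dom` (`acy_of`, `dom_of_acy`).
-/

set_option autoImplicit false
set_option linter.unusedSectionVars false

noncomputable section

namespace MSA

universe u v w

namespace Dat

variable (D : Dat.{u}) {X Y : Ch.{u} D.R} {H : Type v} [AddCommGroup H] (Ψ : PsiT D H)

private theorem rc3_mk (f : Ch.Hom X Y) (n : ℤ)
    (h : ∀ (y : Y.X0) (x : X.X1), y ∈ wt D.F D.ph Y.X0 n → x ∈ wt D.F D.ph X.X1 n →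
      Y.d0 y + f.f1 x ∈ D.mP Y.X1 → - X.d1 x ∈ D.mP X.X0 →
      ∃ (a : Y.X1) (b : X.X0), a ∈ wt D.F D.ph Y.X1 n ∧ b ∈ wt D.F D.ph X.X0 n ∧
        y - (Y.d1 a + f.f0 b) ∈ D.mP Y.X0 ∧ x - (- X.d0 b) ∈ D.mP X.X1) :
    ∀ z ∈ wt D.F D.ph (Ch.cone f).X0 n, (Ch.cone f).d0 z ∈ D.mP (Ch.cone f).X1 →
      ∃ w ∈ wt D.F D.ph (Ch.cone f).X1 n, z - (Ch.cone f).d1 w ∈ D.mP (Ch.cone f).X0 := by
  intro z hz hd
  obtain ⟨k1, k2⟩ := (D.mem_mP_prod (X := Y.X1) (Y := X.X0) ((Ch.cone f).d0 z)).1 hd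
  obtain ⟨hy, hx⟩ := (D.mem_wt_prod (X := Y.X0) (Y := X.X1) n z).1 hz
  obtain ⟨a, b, ha, hb, e1, e2⟩ := h z.1 z.2 hy hx k1 k2
  exact ⟨((a, b) : Y.X1 × X.X0), (D.mem_wt_prod (X := Y.X1) (Y := X.X0) n (a, b)).2 ⟨ha, hb⟩,
    (D.mem_mP_prod (X := Y.X0) (Y := X.X1) _).2 ⟨e1, e2⟩⟩

private theorem rc3_id (X : Ch.{u} D.R) (n : ℤ) :
    ∀ z ∈ wt D.F D.ph (Ch.cone (Ch.Hom.id X)).X0 n,
      (Ch.cone (Ch.Hom.id X)).d0 z ∈ D.mP (Ch.cone (Ch.Hom.id X)).X1 →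
      ∃ w ∈ wt D.F D.ph (Ch.cone (Ch.Hom.id X)).X1 n,
        z - (Ch.cone (Ch.Hom.id X)).d1 w ∈ D.mP (Ch.cone (Ch.Hom.id X)).X0 := by
  refine D.rc3_mk _ n fun y x hy hx h1 h2 => ⟨0, y, AddSubgroup.zero_mem _, hy, ?_, ?_⟩
  · show y - (X.d1 0 + y) ∈ D.mP X.X0
    rw [map_zero, zero_add, sub_self]
    exact Submodule.zero_mem _
  · have h3 : X.d0 y + x ∈ D.mP X.X1 := h1
    rw [sub_neg_eq_add, add_comm]
    exact h3

theorem exM_cone_id (X : Ch.{u} D.R) (n : ℤ) : D.ExM (Ch.cone (Ch.Hom.id X)) n :=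
  ⟨D.rc3_id X n, D.rc3_id X.sh n⟩

private theorem rc3_cone (f : Ch.Hom X Y) (h : D.SQ f) (n : ℤ) :
    ∀ z ∈ wt D.F D.ph (Ch.cone f).X0 n, (Ch.cone f).d0 z ∈ D.mP (Ch.cone f).X1 →
      ∃ w ∈ wt D.F D.ph (Ch.cone f).X1 n, z - (Ch.cone f).d1 w ∈ D.mP (Ch.cone f).X0 := by
  refine D.rc3_mk _ n fun y x hy hx h1 h2 => ?_
  obtain ⟨x1, hx1, hm1⟩ := h.s0 n y hy
  have hw : X.d0 x1 + x ∈ wt D.F D.ph X.X1 n := AddSubgroup.add_mem _ (wt_map X.d0 hx1) hx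
  have e1 : f.f1 (X.d0 x1 + x) ∈ D.mP Y.X1 := by
    have e2 : f.f1 (X.d0 x1 + x) = Y.d0 (f.f0 x1 - y) + (Y.d0 y + f.f1 x) := by
      rw [map_add, ← f.c0, map_sub]
      abel
    rw [e2]
    exact Submodule.add_mem _ (D.mP_map Y.d0 hm1) h1
  have e3 : X.d1 (X.d0 x1 + x) ∈ D.mP X.X0 := by
    rw [map_add, X.h10, zero_add, ← neg_neg (X.d1 x)]
    exact Submodule.neg_mem _ h2
  obtain ⟨x2, hx2, hm2, hm3⟩ := h.k1 n _ hw e1 e3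
  refine ⟨0, x1 - x2, AddSubgroup.zero_mem _, AddSubgroup.sub_mem _ hx1 hx2, ?_, ?_⟩
  · have e4 : y - (Y.d1 0 + f.f0 (x1 - x2)) = - (f.f0 x1 - y) + f.f0 x2 := by
      rw [map_zero, zero_add, map_sub]
      abel
    rw [e4]
    exact Submodule.add_mem _ (Submodule.neg_mem _ hm1) hm2
  · have e5 : x - (- X.d0 (x1 - x2)) = X.d0 x1 + x - X.d0 x2 := by
      rw [map_sub]
      abel
    rw [e5]
    exact hm3

private theorem rc3_sq_sh {f : Ch.Hom X Y} (h : D.SQ f) : D.SQ f.sh :=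
  ⟨h.s1, h.s0, h.k1, h.k0⟩

theorem exM_cone (f : Ch.Hom X Y) (h : D.SQ f) (n : ℤ) : D.ExM (Ch.cone f) n :=
  ⟨D.rc3_cone f h n, D.rc3_cone f.sh (D.rc3_sq_sh h) n⟩

private theorem rc3_incl {X : Ch.{u} D.R} {ι κ : Type} (h0 : Fbs D X.X0 ι) (h1 : Fbs D X.X1 κ)
    {N N' : ℤ} (hN : N ≤ N') (n : ℤ) (h : N < n → n ≤ N' → D.ExM X n) :
    ∀ z ∈ wt D.F D.ph (Ch.cone (D.filI X hN)).X0 n,
      (Ch.cone (D.filI X hN)).d0 z ∈ D.mP (Ch.cone (D.filI X hN)).X1 →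
      ∃ w ∈ wt D.F D.ph (Ch.cone (D.filI X hN)).X1 n,
        z - (Ch.cone (D.filI X hN)).d1 w ∈ D.mP (Ch.cone (D.filI X hN)).X0 := by
  refine D.rc3_mk _ n ?_
  show ∀ (y : D.fil X.X0 N') (x : D.fil X.X1 N), _ → _ → _ → _ → _
  intro y x hy hx k1 k2
  replace hy : y.1 ∈ wt D.F D.ph X.X0 n := (D.mem_wt_sub _ n y).1 hy
  replace hx : x.1 ∈ wt D.F D.ph X.X1 n := (D.mem_wt_sub _ n x).1 hx
  have k1' : X.d0 y.1 + x.1 ∈ D.mP X.X1 := (h1.mP_fil N' _).1 k1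
  rcases le_or_gt n N with hn | hn
  · have hyN : y.1 ∈ D.fil X.X0 N := D.mem_fil_of hn hy
    refine ⟨(0 : D.fil X.X1 N'), (⟨y.1, hyN⟩ : D.fil X.X0 N), AddSubgroup.zero_mem _,
      (D.mem_wt_sub _ n _).2 hy, ?_, ?_⟩
    · refine (h0.mP_fil N' _).2 ?_
      show y.1 - (X.d1 0 + y.1) ∈ D.mP X.X0
      rw [map_zero, zero_add, sub_self]
      exact Submodule.zero_mem _
    · refine (h1.mP_fil N _).2 ?_
      show x.1 - (- X.d0 y.1) ∈ D.mP X.X1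
      rw [sub_neg_eq_add, add_comm]
      exact k1'
  rcases le_or_gt n N' with hn' | hn'
  · have hxm : x.1 ∈ D.mP X.X1 := h1.wt_fil_mP hn hx x.2
    have hdy : X.d0 y.1 ∈ D.mP X.X1 := by
      have e1 : X.d0 y.1 = X.d0 y.1 + x.1 - x.1 := (add_sub_cancel_right _ _).symm
      rw [e1]
      exact Submodule.sub_mem _ k1' hxm
    obtain ⟨y', hy', hm⟩ := (h hn hn').1 y.1 hy hdy
    refine ⟨(⟨y', D.mem_fil_of hn' hy'⟩ : D.fil X.X1 N'), (0 : D.fil X.X0 N),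
      (D.mem_wt_sub _ n _).2 hy', AddSubgroup.zero_mem _, ?_, ?_⟩
    · refine (h0.mP_fil N' _).2 ?_
      show y.1 - (X.d1 y' + 0) ∈ D.mP X.X0
      rw [add_zero]
      exact hm
    · refine (h1.mP_fil N _).2 ?_
      show x.1 - (- X.d0 0) ∈ D.mP X.X1
      rw [map_zero, neg_zero, sub_zero]
      exact hxm
  · refine ⟨(0 : D.fil X.X1 N'), (0 : D.fil X.X0 N), AddSubgroup.zero_mem _,
      AddSubgroup.zero_mem _, ?_, ?_⟩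
    · refine (h0.mP_fil N' _).2 ?_
      show y.1 - (X.d1 0 + 0) ∈ D.mP X.X0
      rw [map_zero, add_zero, sub_zero]
      exact h0.wt_fil_mP hn' hy y.2
    · refine (h1.mP_fil N _).2 ?_
      show x.1 - (- X.d0 0) ∈ D.mP X.X1
      rw [map_zero, neg_zero, sub_zero]
      exact h1.wt_fil_mP hn hx x.2

theorem exM_cone_incl {ι κ : Type} (h0 : Fbs D X.X0 ι) (h1 : Fbs D X.X1 κ) {N N' : ℤ}
    (hN : N ≤ N') (h : ∀ n, N < n → n ≤ N' → D.ExM X n) (n : ℤ) :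
    D.ExM (Ch.cone (D.filI X hN)) n :=
  ⟨D.rc3_incl h0 h1 hN n (h n),
    D.rc3_incl (X := X.sh) h1 h0 hN n (fun k1 k2 => D.exM_sh (h n k1 k2))⟩

theorem dom_sh (h : D.Dom X) : D.Dom X.sh := ⟨h.f1, h.f0, h.ex1, h.ex0⟩

private theorem rc3_acy {f : Ch.Hom X Y} (h : ∀ n, D.ExM (Ch.cone f) n) (hX0 : D.IsF X.X0)
    (hX1 : D.IsF X.X1) (hY0 : D.IsF Y.X0) (hY1 : D.IsF Y.X1) :
    (Ch.cone f).Acy ∧ D.Dom (Ch.cone f) := by
  have h0 : D.IsF (Ch.cone f).X0 := D.isF_prod hY0 hX1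
  have h1 : D.IsF (Ch.cone f).X1 := D.isF_prod hY1 hX0
  exact ⟨D.acy_of h0 h1 h, D.dom_of_acy h0 h1 (D.acy_of h0 h1 h)⟩

private theorem rc3_v {f : Ch.Hom X Y} (h : ∀ n, D.ExM (Ch.cone f) n) (hX : D.Dom X)
    (hY : D.Dom Y) : Ψ.v Y + Ψ.v X.sh = 0 := by
  have h0 : D.IsF (Ch.cone f).X0 := D.isF_prod hY.f0 hX.f1
  have h1 : D.IsF (Ch.cone f).X1 := D.isF_prod hY.f1 hX.f0
  have h2 := D.v_zero Ψ h0 h1 h
  rw [Ψ.add hY (D.rc3_acy h hX.f0 hX.f1 hY.f0 hY.f1).2 (D.dom_sh hX) (Ch.sesCone f)] at h2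
  exact h2

theorem v_sh (h : D.Dom X) : Ψ.v X.sh = - Ψ.v X :=
  eq_neg_of_add_eq_zero_right (D.rc3_v Ψ (f := Ch.Hom.id X) (D.exM_cone_id X) h h)

private theorem rc3_right (f : Ch.Hom X Y) (hc : (Ch.cone f).Acy)
    (hX : ∀ (P : Pool.Agent.MSX.HP D.p D.L) (x : X.X0), X.d0 x = 0 →
      ∃ s : D.S, s ∉ P.I ∧ ∃ y, X.d1 y = iot D.ph s • x)
    (P : Pool.Agent.MSX.HP D.p D.L) (y : Y.X0) (hy : Y.d0 y = 0) :
    ∃ s : D.S, s ∉ P.I ∧ ∃ z, Y.d1 z = iot D.ph s • y := by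
  obtain ⟨⟨y', x'⟩, hyx⟩ := hc.1 ((y, 0) : Y.X0 × X.X1) (by
    rw [Ch.cone_d0, hy, map_zero, map_zero, neg_zero, add_zero]
    rfl)
  rw [Ch.cone_d1] at hyx
  have e1 : Y.d1 y' + f.f0 x' = y := congrArg Prod.fst hyx
  have e2 : - X.d0 x' = 0 := congrArg Prod.snd hyx
  obtain ⟨s, hs, x2, hx2⟩ := hX P x' (neg_eq_zero.1 e2)
  refine ⟨s, hs, iot D.ph s • y' + f.f1 x2, ?_⟩
  rw [map_add, map_smul, f.c1, hx2, map_smul, ← smul_add, e1]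

theorem dom_right (f : Ch.Hom X Y) (h : ∀ n, D.ExM (Ch.cone f) n) (hX : D.Dom X)
    (h0 : D.IsF Y.X0) (h1 : D.IsF Y.X1) : D.Dom Y := by
  have hc := (D.rc3_acy h hX.f0 hX.f1 h0 h1).1
  exact ⟨h0, h1, fun P y hy => D.rc3_right f hc hX.ex0 P y hy,
    fun P y hy => D.rc3_right f.sh ⟨hc.2, hc.1⟩ hX.ex1 P y hy⟩

private theorem rc3_left (f : Ch.Hom X Y) (hc : (Ch.cone f).Acy)
    (hY : ∀ (P : Pool.Agent.MSX.HP D.p D.L) (x : Y.X0), Y.d0 x = 0 →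
      ∃ s : D.S, s ∉ P.I ∧ ∃ y, Y.d1 y = iot D.ph s • x)
    (P : Pool.Agent.MSX.HP D.p D.L) (x : X.X0) (hx : X.d0 x = 0) :
    ∃ s : D.S, s ∉ P.I ∧ ∃ z, X.d1 z = iot D.ph s • x := by
  obtain ⟨s, hs, y, hy⟩ := hY P (f.f0 x) (by rw [f.c0, hx, map_zero])
  obtain ⟨⟨y', x'⟩, hyx⟩ := hc.2 ((-y, iot D.ph s • x) : Y.X1 × X.X0) (by
    rw [Ch.cone_d1, map_neg, hy, map_smul, map_smul, hx, smul_zero, neg_zero, neg_add_cancel]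
    rfl)
  rw [Ch.cone_d0] at hyx
  have e2 : - X.d1 x' = iot D.ph s • x := congrArg Prod.snd hyx
  exact ⟨s, hs, - x', by rw [map_neg, e2]⟩

theorem dom_left (f : Ch.Hom X Y) (h : ∀ n, D.ExM (Ch.cone f) n) (hY : D.Dom Y)
    (h0 : D.IsF X.X0) (h1 : D.IsF X.X1) : D.Dom X := by
  have hc := (D.rc3_acy h h0 h1 hY.f0 hY.f1).1
  exact ⟨h0, h1, fun P y hy => D.rc3_left f hc hY.ex0 P y hy,
    fun P y hy => D.rc3_left f.sh ⟨hc.2, hc.1⟩ hY.ex1 P y hy⟩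

theorem v_eq (f : Ch.Hom X Y) (h : ∀ n, D.ExM (Ch.cone f) n) (hX : D.Dom X) (hY : D.Dom Y) :
    Ψ.v X = Ψ.v Y := by
  have h2 := D.rc3_v Ψ h hX hY
  rw [D.v_sh Ψ hX, ← sub_eq_add_neg] at h2
  exact (sub_eq_zero.1 h2).symm

end Dat

end MSA
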