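import Mathlib
import Pool.Agent.MSA.Kex
import Pool.Agent.MSA.KHo

/-!
# Koszul complexes: supports, components, the value at the empty set (MS, PART RES, 5a)

Everything here is proved. `K.Tot Z = (Finset K.J → Z)`, `K.d x = ∑ j, y_j • (ctr j) x`.
`K.cc j = K.op (ctr j)` (contraction), `K.ww j = K.op (wdg e_j)` (multiplication by `e_j`).
`K.ev Z`: the value at the empty set (linear over the skew ring). `K.crd k x`: the component of cardinality `k`.
`K.ppj i x`: the component of parity `i`. `K.cst z`: the element with value `z` at the empty set.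
-/

set_option autoImplicit false
set_option linter.unusedSectionVars false

noncomputable section

namespace MSA

universe u v w

section

variable {F : Type u} [Field F] {J : Type} [Fintype J] [LinearOrder J]

private theorem rkc_bE_eq (A : Finset J) : bE F J A = ExteriorAlgebra.ιMulti F A.card
    (fun i => (Pi.single (A.orderEmbOfFin rfl i) 1 : J → F)) := by
  have h := ExteriorAlgebra.basis_apply (Pi.basisFun F J) A
  refine h.trans ?_
  show ExteriorAlgebra.ιMulti F A.card _ = _
  congr 1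
  funext i
  simp [Set.powersetCard.ofFinEmbEquiv_symm_apply]

theorem bE_empty' : bE F J ∅ = 1 := by
  rw [rkc_bE_eq]
  exact ExteriorAlgebra.ιMulti_zero_apply _

private theorem rkc_bE_sing (j : J) : bE F J {j} = ExteriorAlgebra.ι F (Pi.single j 1 : J → F) := by
  rw [rkc_bE_eq]
  have h : ∀ (n : ℕ) (hn : n = 1) (v : Fin n → (J → F)),
      ExteriorAlgebra.ιMulti F n v = ExteriorAlgebra.ι F (v ⟨0, by omega⟩) := by
    rintro n rfl v
    rw [ExteriorAlgebra.ιMulti_succ_apply, ExteriorAlgebra.ιMulti_zero_apply, mul_one]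
    rfl
  rw [h _ (Finset.card_singleton j)]
  congr 2
  exact Finset.orderEmbOfFin_singleton j _

private theorem rkc_wdg_in (j : J) (C : Finset J) (hj : j ∈ C) :
    (wdg (Pi.single j 1 : J → F)) (bE F J C) = 0 := by
  show ExteriorAlgebra.ι F (Pi.single j 1 : J → F) * bE F J C = 0
  rw [← rkc_bE_sing]
  exact ExteriorAlgebra.basis_mul_of_not_disjoint (Pi.basisFun F J)
    (⟨{j}, rfl⟩ : Set.powersetCard J (Finset.card {j})) (⟨C, rfl⟩ : Set.powersetCard J C.card)
    (by simpa using hj)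

private theorem rkc_wdg_out (j : J) (C : Finset J) (hj : j ∉ C) :
    ∃ u : ℤˣ, (wdg (Pi.single j 1 : J → F)) (bE F J C) = u • bE F J (insert j C) := by
  have hd : Disjoint ({j} : Finset J) C := by simpa using hj
  have h1 := ExteriorAlgebra.basis_mul_of_disjoint (Pi.basisFun F J)
    (⟨{j}, rfl⟩ : Set.powersetCard J (Finset.card {j})) (⟨C, rfl⟩ : Set.powersetCard J C.card) hd
  have h2 : bE F J {j} * bE F J C =
    (Set.powersetCard.permOfDisjoint (s := (⟨{j}, rfl⟩ : Set.powersetCard J (Finset.card {j})))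
      (t := (⟨C, rfl⟩ : Set.powersetCard J C.card)) hd).sign • bE F J (({j} : Finset J).disjUnion C hd) := h1
  have h3 : ({j} : Finset J).disjUnion C hd = insert j C := by
    ext x
    simp
  rw [rkc_bE_sing, h3] at h2
  exact ⟨_, h2⟩

private theorem rkc_units (u : ℤˣ) (x : EA F J) : u • u • x = x := by
  rcases Int.units_eq_one_or u with h | h
  · rw [h, one_smul, one_smul]
  · rw [h, Units.neg_smul, one_smul, Units.neg_smul, one_smul, neg_neg]

private theorem rkc_units_map (u : ℤˣ) (f : EA F J →ₗ[F] EA F J) (x : EA F J) :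
    f (u • x) = u • f x := by
  rcases Int.units_eq_one_or u with h | h
  · rw [h, one_smul, one_smul]
  · rw [h, Units.neg_smul, one_smul, Units.neg_smul, one_smul, map_neg]

private theorem rkc_repr_units (u : ℤˣ) (x : EA F J) (B : Finset J) :
    (bE F J).repr (u • x) B ≠ 0 → (bE F J).repr x B ≠ 0 := by
  rcases Int.units_eq_one_or u with h | h
  · rw [h, one_smul]
    exact id
  · rw [h, Units.neg_smul, one_smul, map_neg, Finsupp.neg_apply, neg_ne_zero]
    exact id

theorem wdg_supp (j : J) (A B : Finset J)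
    (h : (bE F J).repr (wdg (Pi.single j 1 : J → F) (bE F J A)) B ≠ 0) :
    j ∉ A ∧ B = insert j A := by
  by_cases hj : j ∈ A
  · rw [rkc_wdg_in j A hj, map_zero, Finsupp.zero_apply] at h
    exact absurd rfl h
  · obtain ⟨u, hu⟩ := rkc_wdg_out (F := F) j A hj
    rw [hu] at h
    have h1 := rkc_repr_units u _ _ h
    rw [Module.Basis.repr_self] at h1
    refine ⟨hj, ?_⟩
    by_contra hB
    exact h1 (Finsupp.single_eq_of_ne hB)

private theorem rkc_ctr_wdg (i j : J) (x : EA F J) :
    (ctr i : EA F J →ₗ[F] EA F J) (wdg (Pi.single j 1 : J → F) x) =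
      (if i = j then x else 0) - wdg (Pi.single j 1 : J → F) ((ctr i : EA F J →ₗ[F] EA F J) x) := by
  have h := LinearMap.congr_fun (ctr_wdg i (Pi.single j 1 : J → F)) x
  have h' : (ctr i : EA F J →ₗ[F] EA F J) (wdg (Pi.single j 1 : J → F) x) +
    wdg (Pi.single j 1 : J → F) ((ctr i : EA F J →ₗ[F] EA F J) x) =
      (Pi.single j 1 : J → F) i • x := h
  rw [eq_sub_iff_add_eq, h']
  by_cases hij : i = j
  · subst hij
    rw [Pi.single_eq_same, one_smul, if_pos rfl]
  · rw [Pi.single_eq_of_ne hij, zero_smul, if_neg hij]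

private theorem rkc_ctr_out (j : J) (A : Finset J) (hj : j ∉ A) :
    (ctr j : EA F J →ₗ[F] EA F J) (bE F J A) = 0 := by
  induction A using Finset.induction_on with
  | empty =>
    rw [bE_empty']
    exact CliffordAlgebra.contractLeft_one (Q := (0 : QuadraticForm F (J → F))) _
  | insert i A hi ih =>
    obtain ⟨u, hu⟩ := rkc_wdg_out (F := F) i A hi
    have h1 : bE F J (insert i A) = u • (wdg (Pi.single i 1 : J → F)) (bE F J A) := by
      rw [hu, rkc_units]
    have h2 : j ≠ i := fun h => hj (h ▸ Finset.mem_insert_self i A)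
    have h3 : j ∉ A := fun h => hj (Finset.mem_insert_of_mem h)
    rw [h1, rkc_units_map, rkc_ctr_wdg, if_neg h2, ih h3, map_zero, sub_zero, smul_zero]

theorem ctr_supp (j : J) (A B : Finset J)
    (h : (bE F J).repr ((ctr j : EA F J →ₗ[F] EA F J) (bE F J A)) B ≠ 0) :
    j ∉ B ∧ A = insert j B := by
  by_cases hj : j ∈ A
  · have h0 : insert j (A.erase j) = A := Finset.insert_erase hj
    have h0' : j ∉ A.erase j := Finset.notMem_erase j A
    obtain ⟨u, hu⟩ := rkc_wdg_out (F := F) j (A.erase j) h0'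
    have h1 : bE F J A = u • (wdg (Pi.single j 1 : J → F)) (bE F J (A.erase j)) := by
      rw [hu, rkc_units, h0]
    rw [h1, rkc_units_map, rkc_ctr_wdg, if_pos rfl, rkc_ctr_out j _ h0', map_zero, sub_zero] at h
    have h2 := rkc_repr_units u _ _ h
    rw [Module.Basis.repr_self] at h2
    have h3 : B = A.erase j := by
      by_contra hB
      exact h2 (Finsupp.single_eq_of_ne hB)
    rw [h3]
    exact ⟨h0', h0.symm⟩
  · rw [rkc_ctr_out j A hj, map_zero, Finsupp.zero_apply] at h
    exact absurd rfl h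

theorem mpE_empty (f : (J → F) →ₗ[F] (J → F)) (A : Finset J) :
    (bE F J).repr (mpE f (bE F J A)) ∅ = if A = ∅ then 1 else 0 := by
  by_cases hA : A = ∅
  · subst hA
    rw [if_pos rfl]
    have h1 : mpE f (bE F J ∅) = bE F J ∅ := by
      rw [bE_empty']
      exact map_one (ExteriorAlgebra.map f)
    rw [h1, Module.Basis.repr_self, Finsupp.single_eq_same]
  · rw [if_neg hA]
    by_contra h
    apply hA
    have h1 : mpE f (bE F J A) ∈ (⋀[F]^A.card (J → F) : Submodule F (EA F J)) := by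
      have h2 : mpE f (bE F J A) ∈ Submodule.map (ExteriorAlgebra.map f).toLinearMap
          ((LinearMap.range (ExteriorAlgebra.ι F : (J → F) →ₗ[F] EA F J)) ^ A.card) :=
        ⟨bE F J A, bE_mem A, rfl⟩
      rw [Submodule.map_pow] at h2
      suffices h3 : Submodule.map (ExteriorAlgebra.map f).toLinearMap
          (LinearMap.range (ExteriorAlgebra.ι F : (J → F) →ₗ[F] EA F J)) ≤
          LinearMap.range (ExteriorAlgebra.ι F : (J → F) →ₗ[F] EA F J) from
        SetLike.le_def.mp (pow_le_pow_left' h3 A.card) h2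
      rintro y ⟨z, ⟨v, rfl⟩, rfl⟩
      exact ⟨f v, (ExteriorAlgebra.map_apply_ι f v).symm⟩
    have h2 := repr_of_mem A.card _ h1 ∅ h
    rw [Finset.card_empty] at h2
    exact Finset.card_eq_zero.1 h2.symm

end

section

variable {F : Type u} [Field F] {S : Type u} [CommRing S] [Algebra F S] {Γ : Type u}
variable {φ : Γ → S →+* S} (K : KS F φ)
variable {Z Z' : Type u} [AddCommGroup Z] [Module (Rg φ) Z] [AddCommGroup Z'] [Module (Rg φ) Z']

/-- contraction -/
def KS.cc (j : K.J) : K.Tot Z →+ K.Tot Z := K.op (ctr j)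

/-- multiplication by a basis vector -/
def KS.ww (j : K.J) : K.Tot Z →+ K.Tot Z := K.op (wdg (Pi.single j 1))

theorem KS.cc_iot (j : K.J) (s : S) (x : K.Tot Z) : K.cc j (iot φ s • x) = iot φ s • K.cc j x :=
  K.op_iot _ s x

theorem KS.ww_iot (j : K.J) (s : S) (x : K.Tot Z) : K.ww j (iot φ s • x) = iot φ s • K.ww j x :=
  K.op_iot _ s x

private theorem rkc_zero (x : K.Tot Z) : K.op (0 : EA F K.J →ₗ[F] EA F K.J) x = 0 := by
  letI := modF F φ Z
  exact opE_zero_left x

theorem KS.cc_cc (i j : K.J) (x : K.Tot Z) : K.cc i (K.cc j x) + K.cc j (K.cc i x) = 0 := by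
  show K.op (ctr i) (K.op (ctr j) x) + K.op (ctr j) (K.op (ctr i) x) = 0
  rw [K.op_comp, K.op_comp, ← K.op_add, ctr_comm i j, neg_add_cancel]
  exact rkc_zero K x

theorem KS.cc_sq (j : K.J) (x : K.Tot Z) : K.cc j (K.cc j x) = 0 := by
  show K.op (ctr j) (K.op (ctr j) x) = 0
  rw [K.op_comp, ctr_sq]
  exact rkc_zero K x

theorem KS.cc_ww_self (j : K.J) (x : K.Tot Z) : K.cc j (K.ww j x) + K.ww j (K.cc j x) = x := by
  show K.op (ctr j) (K.op (wdg _) x) + K.op (wdg _) (K.op (ctr j) x) = x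
  rw [K.op_comp, K.op_comp, ← K.op_add, ctr_wdg, Pi.single_eq_same, one_smul, K.op_id]

theorem KS.cc_ww_ne {i j : K.J} (h : i ≠ j) (x : K.Tot Z) :
    K.cc i (K.ww j x) + K.ww j (K.cc i x) = 0 := by
  show K.op (ctr i) (K.op (wdg _) x) + K.op (wdg _) (K.op (ctr i) x) = 0
  rw [K.op_comp, K.op_comp, ← K.op_add, ctr_wdg, Pi.single_eq_of_ne h, zero_smul]
  exact rkc_zero K x

theorem KS.d_apply [FixF F φ] (x : K.Tot Z) : K.d x = ∑ j, iot φ (K.y j) • K.cc j x := rfl

theorem KS.d_cc [FixF F φ] (j : K.J) (x : K.Tot Z) : K.d (K.cc j x) + K.cc j (K.d x) = 0 := by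
  rw [K.d_apply, K.d_apply, map_sum, ← Finset.sum_add_distrib]
  refine Finset.sum_eq_zero fun i _ => ?_
  rw [K.cc_iot, ← smul_add, K.cc_cc, smul_zero]

theorem KS.d_ww [FixF F φ] (j : K.J) (x : K.Tot Z) :
    K.d (K.ww j x) + K.ww j (K.d x) = iot φ (K.y j) • x := d_wdg K j x

theorem KS.cc_gam [FixF F φ] (j : K.J) (g : Γ) (x : K.Tot Z) : K.cc j (gam φ g • x) =
    ∑ i, iot φ (algebraMap F S (K.rho g (Pi.single i 1) j)) • gam φ g • K.cc i x := by
  show K.op (ctr j) (gam φ g • x) = ∑ i, iot φ _ • gam φ g • K.op (ctr i) x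
  rw [K.gam_smul', K.op_comp, ctr_mpE, K.op_sum]
  refine Finset.sum_congr rfl fun i _ => ?_
  rw [K.op_smul]
  congr 1
  rw [K.gam_smul', ← K.op_comp, K.op_gam_pt (ctr i)]

theorem KS.cc_mem {i : ZMod 2} (j : K.J) {x : K.Tot Z} (hx : x ∈ K.part Z i) :
    K.cc j x ∈ K.part Z (i + 1) := by
  letI := modF F φ Z
  intro A hA
  exact parE_opE (parE_ctr j) x i hx A hA

theorem KS.ww_mem {i : ZMod 2} (j : K.J) {x : K.Tot Z} (hx : x ∈ K.part Z i) :
    K.ww j x ∈ K.part Z (i + 1) := by
  letI := modF F φ Z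
  intro A hA
  exact parE_opE (parE_wdg _) x i hx A hA

theorem KS.cc_tmap (q : Z →ₗ[Rg φ] Z') (j : K.J) (x : K.Tot Z) :
    K.cc j (K.tmap q x) = K.tmap q (K.cc j x) := (K.tma_op q (ctr j) x).symm

theorem KS.ww_tmap (q : Z →ₗ[Rg φ] Z') (j : K.J) (x : K.Tot Z) :
    K.ww j (K.tmap q x) = K.tmap q (K.ww j x) := (K.tma_op q _ x).symm

/-! ## supports -/

theorem KS.cc_of_mem (j : K.J) (x : K.Tot Z) {A : Finset K.J} (h : j ∈ A) : K.cc j x A = 0 := by
  show K.op (ctr j) x A = 0
  rw [K.op_apply]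
  refine Finset.sum_eq_zero fun B _ => ?_
  by_cases h1 : (bE F K.J).repr ((ctr j : EA F K.J →ₗ[F] EA F K.J) (bE F K.J B)) A = 0
  · rw [h1, map_zero, map_zero, zero_smul]
  · exact absurd h (ctr_supp j B A h1).1

theorem KS.ww_of_not_mem (j : K.J) (x : K.Tot Z) {A : Finset K.J} (h : j ∉ A) : K.ww j x A = 0 := by
  show K.op (wdg (Pi.single j 1)) x A = 0
  rw [K.op_apply]
  refine Finset.sum_eq_zero fun B _ => ?_
  by_cases h1 : (bE F K.J).repr (wdg (Pi.single j 1 : K.J → F) (bE F K.J B)) A = 0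
  · rw [h1, map_zero, map_zero, zero_smul]
  · rw [(wdg_supp j B A h1).2] at h
    exact absurd (Finset.mem_insert_self j B) h

/-- `(ctr j x) A` depends only on `x (insert j A)` -/
theorem KS.cc_congr (j : K.J) {x y : K.Tot Z} {A : Finset K.J} (h : x (insert j A) = y (insert j A)) :
    K.cc j x A = K.cc j y A := by
  show K.op (ctr j) x A = K.op (ctr j) y A
  rw [K.op_apply, K.op_apply]
  refine Finset.sum_congr rfl fun B _ => ?_
  by_cases h1 : (bE F K.J).repr ((ctr j : EA F K.J →ₗ[F] EA F K.J) (bE F K.J B)) A = 0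
  · rw [h1, map_zero, map_zero, zero_smul, zero_smul]
  · rw [(ctr_supp j B A h1).2, h]

theorem KS.zero_apply (A : Finset K.J) : (0 : K.Tot Z) A = 0 := rfl

theorem KS.add_apply (x y : K.Tot Z) (A : Finset K.J) : (x + y) A = x A + y A := rfl

theorem KS.sub_apply (x y : K.Tot Z) (A : Finset K.J) : (x - y) A = x A - y A := rfl

theorem KS.neg_apply (x : K.Tot Z) (A : Finset K.J) : (-x) A = - x A := rfl

theorem KS.sum_apply {α : Type*} (s : Finset α) (f : α → K.Tot Z) (A : Finset K.J) :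
    (∑ a ∈ s, f a) A = ∑ a ∈ s, f a A :=
  Finset.sum_apply A s (fun a => (f a : Finset K.J → Z))

theorem KS.d_val [FixF F φ] (x : K.Tot Z) (A : Finset K.J) :
    K.d x A = ∑ j, iot φ (K.y j) • K.cc j x A := by
  rw [K.d_apply, K.sum_apply]
  exact Finset.sum_congr rfl fun j _ => K.iot_smul _ _ _

/-- the value of `K.d x` at `A` depends only on the values of `x` on the sets with one element more -/
theorem KS.d_congr [FixF F φ] {x y : K.Tot Z} {A : Finset K.J}
    (h : ∀ B : Finset K.J, B.card = A.card + 1 → x B = y B) : K.d x A = K.d y A := by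
  rw [K.d_val, K.d_val]
  refine Finset.sum_congr rfl fun j _ => ?_
  congr 1
  by_cases hj : j ∈ A
  · rw [K.cc_of_mem j x hj, K.cc_of_mem j y hj]
  · exact K.cc_congr j (h _ (Finset.card_insert_of_notMem hj))

/-! ## the value at the empty set -/

theorem KS.gam_empty (g : Γ) (x : K.Tot Z) : (gam φ g • x) ∅ = gam φ g • x ∅ := by
  rw [K.gam_smul, Finset.sum_eq_single ∅]
  · rw [mpE_empty, if_pos rfl, map_one, map_one, one_smul]
  · intro A _ hA
    rw [mpE_empty, if_neg hA, map_zero, map_zero, zero_smul]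
  · intro h
    exact absurd (Finset.mem_univ _) h

variable (Z) in
/-- the value at the empty set -/
def KS.ev : K.Tot Z →ₗ[Rg φ] Z :=
  mkLin (M := K.Tot Z) (N := Z)
    { toFun := fun x => x ∅
      map_zero' := rfl
      map_add' := fun _ _ => rfl }
    (fun s x => K.iot_smul s x ∅) (fun g x => K.gam_empty g x)

theorem KS.ev_apply (x : K.Tot Z) : K.ev Z x = x ∅ := rfl

theorem KS.ev_ww (j : K.J) (x : K.Tot Z) : K.ev Z (K.ww j x) = 0 :=
  K.ww_of_not_mem j x (Finset.notMem_empty j)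

theorem KS.ev_tmap (q : Z →ₗ[Rg φ] Z') (x : K.Tot Z) : K.ev Z' (K.tmap q x) = q (K.ev Z x) := rfl

theorem KS.ev_d [FixF F φ] (x : K.Tot Z) :
    K.ev Z (K.d x) = ∑ j, iot φ (K.y j) • K.ev Z (K.cc j x) := K.d_val x ∅

theorem KS.ev_odd {x : K.Tot Z} (hx : x ∈ K.part Z 1) : K.ev Z x = 0 :=
  hx ∅ (by rw [Finset.card_empty, Nat.cast_zero]; decide)

/-! ## components -/

/-- the component of cardinality `k` -/
def KS.crd (k : ℕ) : K.Tot Z →+ K.Tot Z where
  toFun x := fun A => if A.card = k then x A else 0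
  map_zero' := by
    funext A
    show (if A.card = k then (0 : Z) else 0) = 0
    rw [ite_self]
  map_add' x y := by
    funext A
    show (if A.card = k then x A + y A else 0) =
      (if A.card = k then x A else 0) + (if A.card = k then y A else 0)
    split_ifs
    · rfl
    · rw [add_zero]

theorem KS.crd_apply (k : ℕ) (x : K.Tot Z) (A : Finset K.J) :
    K.crd k x A = if A.card = k then x A else 0 := rfl

theorem KS.crd_d [FixF F φ] (k : ℕ) (x : K.Tot Z) : K.crd k (K.d x) = K.d (K.crd (k + 1) x) := by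
  funext A
  rw [K.crd_apply]
  by_cases h : A.card = k
  · rw [if_pos h]
    refine K.d_congr fun B hB => ?_
    rw [K.crd_apply, if_pos (by rw [hB, h])]
  · rw [if_neg h]
    have h1 : K.d (K.crd (k + 1) x) A = K.d (0 : K.Tot Z) A := K.d_congr fun B hB => by
      rw [K.crd_apply, if_neg (by rw [hB]; omega)]
      rfl
    rw [h1, map_zero]
    rfl

theorem KS.crd_tmap (q : Z →ₗ[Rg φ] Z') (k : ℕ) (x : K.Tot Z) :
    K.crd k (K.tmap q x) = K.tmap q (K.crd k x) := by
  funext A
  rw [K.crd_apply, K.tmap_apply, K.tmap_apply, K.crd_apply]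
  split_ifs
  · rfl
  · rw [map_zero]

theorem KS.crd_mem {i : ZMod 2} (k : ℕ) {x : K.Tot Z} (hx : x ∈ K.part Z i) :
    K.crd k x ∈ K.part Z i := by
  intro A hA
  rw [K.crd_apply, hx A hA, ite_self]

/-- the component of parity `i` -/
def KS.ppj (i : ZMod 2) : K.Tot Z →+ K.Tot Z where
  toFun x := fun A => if (A.card : ZMod 2) = i then x A else 0
  map_zero' := by
    funext A
    show (if (A.card : ZMod 2) = i then (0 : Z) else 0) = 0
    rw [ite_self]
  map_add' x y := by
    funext A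
    show (if (A.card : ZMod 2) = i then x A + y A else 0) =
      (if (A.card : ZMod 2) = i then x A else 0) + (if (A.card : ZMod 2) = i then y A else 0)
    split_ifs
    · rfl
    · rw [add_zero]

theorem KS.ppj_apply (i : ZMod 2) (x : K.Tot Z) (A : Finset K.J) :
    K.ppj i x A = if (A.card : ZMod 2) = i then x A else 0 := rfl

theorem KS.ppj_mem (i : ZMod 2) (x : K.Tot Z) : K.ppj i x ∈ K.part Z i :=
  fun A hA => if_neg hA

theorem KS.ppj_of_mem {i : ZMod 2} {x : K.Tot Z} (hx : x ∈ K.part Z i) : K.ppj i x = x := by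
  funext A
  rw [K.ppj_apply]
  by_cases h : (A.card : ZMod 2) = i
  · rw [if_pos h]
  · rw [if_neg h, hx A h]

theorem KS.ppj_d [FixF F φ] (i : ZMod 2) (x : K.Tot Z) : K.ppj i (K.d x) = K.d (K.ppj (i + 1) x) := by
  funext A
  rw [K.ppj_apply]
  have h0 : ∀ B : Finset K.J, B.card = A.card + 1 → ((B.card : ZMod 2) = i + 1 ↔
      (A.card : ZMod 2) = i) := by
    intro B hB
    rw [hB, Nat.cast_add, Nat.cast_one]
    exact add_left_inj 1
  by_cases h : (A.card : ZMod 2) = i
  · rw [if_pos h]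
    refine K.d_congr fun B hB => ?_
    rw [K.ppj_apply, if_pos ((h0 B hB).2 h)]
  · rw [if_neg h]
    have h1 : K.d (K.ppj (i + 1) x) A = K.d (0 : K.Tot Z) A := K.d_congr fun B hB => by
      rw [K.ppj_apply, if_neg (fun h2 => h ((h0 B hB).1 h2))]
      rfl
    rw [h1, map_zero]
    rfl

theorem KS.ppj_tmap (q : Z →ₗ[Rg φ] Z') (i : ZMod 2) (x : K.Tot Z) :
    K.ppj i (K.tmap q x) = K.tmap q (K.ppj i x) := by
  funext A
  rw [K.ppj_apply, K.tmap_apply, K.tmap_apply, K.ppj_apply]
  split_ifs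
  · rfl
  · rw [map_zero]

theorem KS.ev_ppj0 (x : K.Tot Z) : K.ev Z (K.ppj 0 x) = K.ev Z x := by
  show K.ppj 0 x ∅ = x ∅
  rw [K.ppj_apply, if_pos (by rw [Finset.card_empty, Nat.cast_zero])]

/-- the element with value `z` at the empty set -/
def KS.cst (z : Z) : K.Tot Z := fun A => if A = ∅ then z else 0

theorem KS.cst_mem (z : Z) : K.cst z ∈ K.part Z 0 := by
  intro A hA
  show (if A = ∅ then z else 0) = 0
  rw [if_neg]
  rintro rfl
  exact hA (by rw [Finset.card_empty, Nat.cast_zero])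

theorem KS.ev_cst (z : Z) : K.ev Z (K.cst z) = z := by
  show (if (∅ : Finset K.J) = ∅ then z else 0) = z
  rw [if_pos rfl]

theorem KS.cc_cst (j : K.J) (z : Z) : K.cc j (K.cst z) = 0 := by
  funext A
  have h1 : K.cc j (K.cst z) A = K.cc j (0 : K.Tot Z) A := K.cc_congr j (by
    show (if insert j A = ∅ then z else 0) = 0
    rw [if_neg (Finset.insert_ne_empty j A)])
  rw [h1, map_zero]

theorem KS.d_cst [FixF F φ] (z : Z) : K.d (K.cst z) = 0 := by
  rw [K.d_apply]
  refine Finset.sum_eq_zero fun j _ => ?_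
  rw [K.cc_cst, smul_zero]

/-- an element killed by all contractions is supported at the empty set -/
theorem KS.of_cc {x : K.Tot Z} (h : ∀ j, K.cc j x = 0) {A : Finset K.J} (hA : A ≠ ∅) : x A = 0 := by
  obtain ⟨j, hj⟩ := Finset.nonempty_iff_ne_empty.2 hA
  have h1 := K.cc_ww_self j x
  rw [h j, map_zero, add_zero] at h1
  rw [← h1]
  exact K.cc_of_mem j _ hj

end

end MSA
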