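import Mathlib
import Pool.Agent.MSA.Rkc

/-!
# Koszul complexes of regular sequences (MS, PART RES, 5b)

`K.yid T z`: `z` lies in `∑_(i ∈ T) y_i Z`. `K.Reg Z`: for all `j`, `z`: if `y_j z` lies in `∑_(i < j) y_i Z` then so does `z`.
`reg_ex`: then every cycle whose value at the empty set lies in `∑_j y_j Z` is a boundary.

PROOF. For a lower subset `T` of `K.J` (induction `Finset.induction_on_max`): every `x` with `cc j x = 0` for `j ∉ T`,
`K.d x = 0` and `x ∅ ∈ ∑_(i ∈ T) y_i Z` is `K.d y` for some `y` with `cc j y = 0` for `j ∉ T`. Write `E_T` for the kernel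
of all `cc j`, `j ∉ T`.
`T = ∅`: `x = 0` (`of_cc`, and `x ∅ = 0`). Step `T ∪ {j}`, `j` larger than `T`: `a = cc j (ww j x)`, `b = cc j x` in `E_T`
(`cc_cc`, `cc_ww_ne`), `x = a + ww j b` (`cc_ww_self`), `0 = K.d x = K.d a + y_j b - ww j (K.d b)` (`d_ww`); apply `cc j`:
`K.d b = 0`, and `K.d a + y_j b = 0`. The value of `b` at `∅` lies in `∑_(i ∈ T) y_i Z` by regularity (`K.d a ∅` is in
`∑_(i ∈ T) y_i Z`, `ev_d`), so `b = K.d b'`. `a ∅ = x ∅ = u + y_j z`, `u ∈ ∑_(i ∈ T) y_i Z`. Let
`b'' = b' - cst (z + b' ∅)`: `K.d b'' = b` (`d_cst`), `b'' ∅ = - z`, so `a + y_j b''` is a cycle with value `u` at `∅`; it is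
`K.d e`. Then `x = K.d (e - ww j b'')`.
-/

set_option autoImplicit false
set_option linter.unusedSectionVars false

noncomputable section

namespace MSA

universe u v w

variable {F : Type u} [Field F] {S : Type u} [CommRing S] [Algebra F S] {Γ : Type u}
variable {φ : Γ → S →+* S} (K : KS F φ)
variable {Z : Type u} [AddCommGroup Z] [Module (Rg φ) Z]

/-- `z ∈ ∑_(i ∈ T) y_i Z` -/
def KS.yid (T : Finset K.J) (z : Z) : Prop := ∃ u : K.J → Z, z = ∑ i ∈ T, iot φ (K.y i) • u i

variable (Z) in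
/-- the sequence `y` is regular on `Z` (no condition on the quotient) -/
def KS.Reg : Prop := ∀ (j : K.J) (z : Z), K.yid (Finset.univ.filter (· < j)) (iot φ (K.y j) • z) →
  K.yid (Finset.univ.filter (· < j)) z

theorem KS.yid_zero (T : Finset K.J) : K.yid T (0 : Z) :=
  ⟨0, by simp⟩

theorem KS.yid_add {T : Finset K.J} {z z' : Z} (h : K.yid T z) (h' : K.yid T z') :
    K.yid T (z + z') := by
  obtain ⟨u, rfl⟩ := h
  obtain ⟨v, rfl⟩ := h'
  refine ⟨fun i => u i + v i, ?_⟩
  rw [← Finset.sum_add_distrib]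
  exact Finset.sum_congr rfl fun i _ => (smul_add _ _ _).symm

theorem KS.yid_neg {T : Finset K.J} {z : Z} (h : K.yid T z) : K.yid T (-z) := by
  obtain ⟨u, rfl⟩ := h
  refine ⟨fun i => - u i, ?_⟩
  rw [← Finset.sum_neg_distrib]
  exact Finset.sum_congr rfl fun i _ => (smul_neg _ _).symm

theorem KS.yid_iot {T : Finset K.J} {z : Z} (s : S) (h : K.yid T z) :
    K.yid T (iot φ s • z) := by
  obtain ⟨u, rfl⟩ := h
  refine ⟨fun i => iot φ s • u i, ?_⟩
  rw [Finset.smul_sum]
  refine Finset.sum_congr rfl fun i _ => ?_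
  rw [← mul_smul, ← mul_smul, ← map_mul, ← map_mul, mul_comm]

theorem KS.yid_of_mem {T : Finset K.J} {i : K.J} (hi : i ∈ T) (z : Z) :
    K.yid T (iot φ (K.y i) • z) := by
  classical
  refine ⟨Pi.single i z, ?_⟩
  rw [Finset.sum_eq_single i]
  · rw [Pi.single_eq_same]
  · intro j _ hj
    rw [Pi.single_eq_of_ne hj, smul_zero]
  · intro h
    exact absurd hi h

theorem KS.yid_sum {T : Finset K.J} {α : Type*} (s : Finset α) (f : α → Z)
    (h : ∀ a ∈ s, K.yid T (f a)) : K.yid T (∑ a ∈ s, f a) := by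
  classical
  induction s using Finset.induction_on with
  | empty => exact K.yid_zero T
  | insert a s ha ih =>
    rw [Finset.sum_insert ha]
    exact K.yid_add (h a (Finset.mem_insert_self a s))
      (ih fun b hb => h b (Finset.mem_insert_of_mem hb))

theorem KS.yid_mono {T T' : Finset K.J} (h : T ⊆ T') {z : Z} (hz : K.yid T z) : K.yid T' z := by
  obtain ⟨u, rfl⟩ := hz
  exact K.yid_sum T _ fun i hi => K.yid_of_mem (h hi) (u i)

/-- `∑_j y_j Z` is stable under the skew ring -/
theorem KS.yid_smul (r : Rg φ) {z : Z} (h : K.yid Finset.univ z) :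
    K.yid Finset.univ (r • z) := by
  suffices key : ∀ z : Z, K.yid Finset.univ z → K.yid Finset.univ (r • z) from key z h
  refine rg_induction φ (P := fun r => ∀ z : Z, K.yid Finset.univ z → K.yid Finset.univ (r • z))
    r ?_ ?_ ?_ ?_
  · intro s z h
    exact K.yid_iot s h
  · rintro g z ⟨u, rfl⟩
    rw [Finset.smul_sum]
    refine K.yid_sum _ _ fun i _ => ?_
    rw [← mul_smul, gam_mul_iot, K.hy, map_sum, mul_smul, Finset.sum_smul]
    refine K.yid_sum _ _ fun j _ => ?_
    rw [mul_comm, map_mul, mul_smul]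
    exact K.yid_of_mem (Finset.mem_univ j) _
  · intro x y hx hy z h
    rw [add_smul]
    exact K.yid_add (hx z h) (hy z h)
  · intro x y hx hy z h
    rw [mul_smul]
    exact hx _ (hy z h)

private theorem rkr_step [FixF F φ] (h : K.Reg Z) (T : Finset K.J) :
    (∀ i ∈ T, ∀ j, j < i → j ∈ T) → ∀ x : K.Tot Z, (∀ j, j ∉ T → K.cc j x = 0) → K.d x = 0 →
      K.yid T (K.ev Z x) → ∃ y : K.Tot Z, (∀ j, j ∉ T → K.cc j y = 0) ∧ K.d y = x := by
  classical
  refine Finset.induction_on_max T ?_ ?_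
  · rintro - x hx - ⟨u, hu⟩
    refine ⟨0, fun j _ => map_zero _, ?_⟩
    rw [map_zero]
    symm
    funext A
    by_cases hA : A = ∅
    · subst hA
      rw [Finset.sum_empty] at hu
      exact hu
    · exact K.of_cc (fun j => hx j (Finset.notMem_empty j)) hA
  · intro j T hj ih hl x hx hd h0
    have hjT : j ∉ T := fun h1 => lt_irrefl _ (hj j h1)
    have hlT : ∀ i ∈ T, ∀ k, k < i → k ∈ T := by
      intro i hi k hk
      rcases Finset.mem_insert.1 (hl i (Finset.mem_insert_of_mem hi) k hk) with h1 | h1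
      · subst h1
        exact absurd (hk.trans (hj i hi)) (lt_irrefl _)
      · exact h1
    have hT : T = Finset.univ.filter (· < j) := by
      ext i
      rw [Finset.mem_filter]
      constructor
      · intro hi
        exact ⟨Finset.mem_univ i, hj i hi⟩
      · rintro ⟨-, hi⟩
        rcases Finset.mem_insert.1 (hl j (Finset.mem_insert_self j T) i hi) with h1 | h1
        · exact absurd h1 (ne_of_lt hi)
        · exact h1
    have ih' := ih hlT
    -- the two parts
    obtain ⟨a, ha⟩ : ∃ a, a = K.cc j (K.ww j x) := ⟨_, rfl⟩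
    obtain ⟨b, hb⟩ : ∃ b, b = K.cc j x := ⟨_, rfl⟩
    have hxab : x = a + K.ww j b := by rw [ha, hb, K.cc_ww_self]
    have hcb : ∀ i, i ∉ T → K.cc i b = 0 := by
      intro i hi
      by_cases hij : i = j
      · rw [hij, hb, K.cc_sq]
      · have h1 := K.cc_cc i j x
        rw [hx i (by rw [Finset.mem_insert]; tauto), map_zero, add_zero] at h1
        rw [hb]
        exact h1
    have hca : ∀ i, i ∉ T → K.cc i a = 0 := by
      intro i hi
      by_cases hij : i = j
      · rw [hij, ha, K.cc_sq]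
      · have h1 := K.cc_cc i j (K.ww j x)
        have h2 := K.cc_ww_ne hij x
        rw [hx i (by rw [Finset.mem_insert]; tauto), map_zero, add_zero] at h2
        rw [h2, map_zero, add_zero] at h1
        rw [ha]
        exact h1
    have hwb : K.d (K.ww j b) = iot φ (K.y j) • b - K.ww j (K.d b) :=
      eq_sub_of_add_eq (K.d_ww j b)
    have hd1 : K.d a + (iot φ (K.y j) • b - K.ww j (K.d b)) = 0 := by
      rw [← hwb, ← map_add, ← hxab, hd]
    have hcd : ∀ i (z : K.Tot Z), K.cc i z = 0 → K.cc i (K.d z) = 0 := by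
      intro i z hz
      have h1 := K.d_cc i z
      rw [hz, map_zero, zero_add] at h1
      exact h1
    have hdb : K.d b = 0 := by
      have h1 := congrArg (K.cc j) hd1
      rw [map_add, map_sub, K.cc_iot, hcb j hjT, hcd j a (hca j hjT), smul_zero, zero_sub,
        zero_add, map_zero, neg_eq_zero] at h1
      have h2 := K.cc_ww_self j (K.d b)
      rw [h1, hcd j b (hcb j hjT), map_zero, zero_add] at h2
      exact h2.symm
    rw [hdb, map_zero, sub_zero] at hd1
    have hb0 : K.yid T (K.ev Z b) := by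
      rw [hT]
      refine h j _ ?_
      rw [← hT]
      have h1 : iot φ (K.y j) • K.ev Z b = - K.ev Z (K.d a) := by
        rw [← map_smul, eq_neg_of_add_eq_zero_right hd1, map_neg]
      rw [h1, K.ev_d]
      refine K.yid_neg (K.yid_sum _ _ fun i _ => ?_)
      by_cases hi : i ∈ T
      · exact K.yid_of_mem hi _
      · rw [hca i hi, map_zero, smul_zero]
        exact K.yid_zero T
    obtain ⟨b', hb', hdb'⟩ := ih' b hcb hdb hb0
    obtain ⟨u, hu⟩ := h0
    have hxa : K.ev Z x = K.ev Z a := by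
      rw [hxab, map_add, K.ev_ww, add_zero]
    rw [Finset.sum_insert hjT, hxa] at hu
    obtain ⟨b'', hb''⟩ : ∃ b'', b'' = b' - K.cst (u j + K.ev Z b') := ⟨_, rfl⟩
    have hcb'' : ∀ i, i ∉ T → K.cc i b'' = 0 := by
      intro i hi
      rw [hb'', map_sub, hb' i hi, K.cc_cst, sub_zero]
    have hdb'' : K.d b'' = b := by
      rw [hb'', map_sub, hdb', K.d_cst, sub_zero]
    have heb'' : K.ev Z b'' = - u j := by
      rw [hb'', map_sub, K.ev_cst]
      abel
    obtain ⟨e, he, hde⟩ := ih' (a + iot φ (K.y j) • b'') (fun i hi => by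
        rw [map_add, K.cc_iot, hca i hi, hcb'' i hi, smul_zero, add_zero]) (by
        rw [map_add, map_smul, hdb'', hd1]) (by
        rw [map_add, map_smul, heb'', hu, smul_neg]
        rw [show iot φ (K.y j) • u j + ∑ i ∈ T, iot φ (K.y i) • u i + -(iot φ (K.y j) • u j) =
          ∑ i ∈ T, iot φ (K.y i) • u i by abel]
        exact ⟨u, rfl⟩)
    refine ⟨e - K.ww j b'', fun i hi => ?_, ?_⟩
    · have hiT : i ∉ T := fun h1 => hi (Finset.mem_insert_of_mem h1)
      have hij : i ≠ j := fun h1 => hi (h1 ▸ Finset.mem_insert_self i T)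
      have h1 := K.cc_ww_ne hij b''
      rw [hcb'' i hiT, map_zero, add_zero] at h1
      rw [map_sub, he i hiT, h1, sub_zero]
    · have h1 := K.d_ww j b''
      rw [hdb''] at h1
      rw [map_sub, hde, eq_sub_of_add_eq h1, hxab]
      abel

theorem KS.reg_ex [FixF F φ] (h : K.Reg Z) (x : K.Tot Z) (hx : K.d x = 0)
    (h0 : K.yid Finset.univ (K.ev Z x)) : ∃ y : K.Tot Z, K.d y = x := by
  obtain ⟨y, -, hy⟩ := rkr_step K h Finset.univ (fun _ _ j _ => Finset.mem_univ j) x
    (fun j hj => absurd (Finset.mem_univ j) hj) hx h0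
  exact ⟨y, hy⟩

end MSA
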