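import Mathlib
import Pool.Agent.MSA.Rkr
import Pool.Agent.MSA.Rb1

/-!
# The Koszul data of the variables and of two invariants are regular (MS, PART RES, 5c)

Everything here is proved.
-/

set_option autoImplicit false
set_option linter.unusedSectionVars false

noncomputable section

namespace MSA

universe u v w

open MvPolynomial

namespace Dat

variable {D : Dat.{u}} {X : Type u} [AddCommGroup X] [Module D.R X]

theorem mem_mP_iff_yid (x : X) : x ∈ D.mP X ↔ D.kV.yid Finset.univ x := by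
  constructor
  · intro hx
    let N : Submodule D.R X :=
      { carrier := {x | D.kV.yid Finset.univ x}
        add_mem' := fun ha hb => D.kV.yid_add ha hb
        zero_mem' := D.kV.yid_zero _
        smul_mem' := fun r _ h => D.kV.yid_smul r h }
    have h : D.mP X ≤ N := by
      refine Submodule.span_le.2 ?_
      rintro _ ⟨j, x, rfl⟩
      exact D.kV.yid_of_mem (Finset.mem_univ (j : D.kV.J)) x
    exact h hx
  · rintro ⟨u, rfl⟩
    exact Submodule.sum_mem _ fun j _ => D.mem_mP_of j (u j)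

private theorem rkv_yid {ι : Type} (h : Fbs D X ι) (T : Finset (Fin D.p)) (x : X) :
    D.kV.yid T x ↔
      ∀ i, h.rp x i ∈ Ideal.span (MvPolynomial.X '' (T : Set (Fin D.p)) : Set D.S) := by
  classical
  constructor
  · rintro ⟨u, rfl⟩ i
    rw [h.rp_finset, Finsupp.finsetSum_apply]
    refine Ideal.sum_mem _ fun j hj => ?_
    rw [h.rp_iot, Finsupp.smul_apply, smul_eq_mul]
    exact Ideal.mul_mem_right _ _ (Ideal.subset_span ⟨j, hj, rfl⟩)
  · intro hx
    rw [← h.rp_sum x]
    refine D.kV.yid_sum _ _ fun i _ => ?_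
    have h2 : ∀ s : D.S, s ∈ Ideal.span (MvPolynomial.X '' (T : Set (Fin D.p)) : Set D.S) →
        D.kV.yid T (iot D.ph s • h.w i) := by
      intro s hs
      induction hs using Submodule.span_induction with
      | mem s hs =>
        obtain ⟨j, hj, rfl⟩ := hs
        exact D.kV.yid_of_mem (i := (j : D.kV.J)) hj _
      | zero =>
        rw [map_zero, zero_smul]
        exact D.kV.yid_zero T
      | add a b _ _ ha hb =>
        rw [map_add, add_smul]
        exact D.kV.yid_add ha hb
      | smul a b _ hb =>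
        rw [smul_eq_mul, map_mul, mul_smul]
        exact D.kV.yid_iot a hb
    exact h2 _ (hx i)

theorem reg_kV {ι : Type} (h : Fbs D X ι) : D.kV.Reg X := by
  intro j x hx
  have hx' := (rkv_yid h _ _).1 hx
  refine (rkv_yid h _ _).2 fun i => ?_
  have h1 := hx' i
  rw [h.rp_iot, Finsupp.smul_apply, smul_eq_mul] at h1
  rw [MvPolynomial.mem_ideal_span_X_image] at h1 ⊢
  intro m hm
  obtain ⟨j', hj'⟩ : ∃ j' : Fin D.p, j' = j := ⟨j, rfl⟩
  have h2 : m + Finsupp.single j' 1 ∈ (D.kV.y j * h.rp x i).support := by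
    have e : D.kV.y j = MvPolynomial.X j' := by rw [hj']; rfl
    rw [e]
    rw [MvPolynomial.mem_support_iff] at hm ⊢
    rw [add_comm, MvPolynomial.coeff_X_mul]
    exact hm
  obtain ⟨l, hl, hl2⟩ := h1 _ h2
  refine ⟨l, hl, ?_⟩
  have h3 : l ≠ j' := by
    have h4 := hl
    rw [Finset.mem_coe] at h4
    have h5 := (@Finset.mem_filter D.kV.J (fun x => x < j) _ Finset.univ l).1 h4
    have h4 := h5.2
    rw [hj']
    exact ne_of_lt h4
  rw [Finsupp.add_apply, Finsupp.single_eq_of_ne h3, add_zero] at hl2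
  exact hl2

theorem reg_kCI {m n : ℕ} {y g : D.S} (hy : D.Iv m y) (hg : D.Iv n g) (y0 : y ≠ 0)
    (hr : IsRelPrime y g) : (D.kCI hy hg).Reg (Sr D.ph) := by
  intro j z hz
  obtain ⟨f, rfl⟩ := (toSr D.ph).surjective z
  have hj : j = (0 : Fin 2) ∨ j = (1 : Fin 2) := by
    have : ∀ j : Fin 2, j = 0 ∨ j = 1 := by decide
    exact this j
  rcases hj with h | h
  · obtain ⟨u, hu⟩ := hz
    have hlt : ∀ i : (D.kCI hy hg).J, ¬ i < j := by
      rw [h]
      exact fun i => Fin.not_lt_zero i
    have hy' : (D.kCI hy hg).y j = y := by rw [h]; rfl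
    rw [Finset.sum_eq_zero (fun i hi => absurd (Finset.mem_filter.1 hi).2 (hlt i)), hy', sr_iot,
      map_eq_zero_iff _ (toSr D.ph).injective, mul_eq_zero] at hu
    rw [hu.resolve_left y0, map_zero]
    exact (D.kCI hy hg).yid_zero _
  · obtain ⟨u, hu⟩ := hz
    obtain ⟨i₀, hi₀⟩ : ∃ i₀ : (D.kCI hy hg).J, i₀ = (0 : Fin 2) := ⟨(0 : Fin 2), rfl⟩
    have hlt : i₀ < j := by
      rw [h, hi₀]
      exact Fin.zero_lt_one
    have hlt' : ∀ i : (D.kCI hy hg).J, i < j → i = i₀ := by
      rw [h, hi₀]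
      have : ∀ i : Fin 2, i < 1 → i = 0 := by decide
      exact this
    have hy' : (D.kCI hy hg).y j = g := by rw [h]; rfl
    have hy0 : (D.kCI hy hg).y i₀ = y := by rw [hi₀]; rfl
    have hmem : i₀ ∈ Finset.univ.filter (· < j) := Finset.mem_filter.2 ⟨Finset.mem_univ _, hlt⟩
    rw [Finset.sum_eq_single i₀ (fun i hi hne => absurd (hlt' i (Finset.mem_filter.1 hi).2) hne)
      (fun hn => absurd hmem hn), hy', hy0] at hu
    obtain ⟨t, ht⟩ := (toSr D.ph).surjective (u i₀)
    rw [← ht, sr_iot, sr_iot] at hu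
    have h1 : y ∣ g * f := ⟨t, (toSr D.ph).injective hu⟩
    obtain ⟨r, rfl⟩ := hr.dvd_of_dvd_mul_left h1
    have h2 : toSr D.ph (y * r) = iot D.ph ((D.kCI hy hg).y i₀) • toSr D.ph r := by
      rw [hy0, sr_iot]
    rw [h2]
    exact (D.kCI hy hg).yid_of_mem hmem _

end Dat

end MSA
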