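import Mathlib
import Pool.Agent.MSA.Rkc

/-!
# The complex `K ⊗ C` for a Koszul datum `K` and a complex `C` (MS, PART RES, section 5)

Everything here is proved.
`K.tk C`: the elements are the pairs `(a, b)`, `a : K.Tot C.X0`, `b : K.Tot C.X1`; degree `0`: `a` even, `b` odd; degree `1`:
`a` odd, `b` even. `D (a, b) = (K.d a + C.d1 b, - K.d b + C.d0 a)`.
`K.ck0 j`, `K.ck1 j`: contraction on the Koszul complex `K.ch Z`. `K.tk0 j`, `K.tk1 j`: contraction on `K.tk C`,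
`(a, b) ↦ (cc j a, - cc j b)`.
`K.qtk C q hq : K.tk C → K.ch M`, `(a, b) ↦ q a`, for `q : C.X0 → M` with `q d1 = 0`.
`K.ev0 C`, `K.ev1 C`: the values `a ∅` and `b ∅`.
-/

set_option autoImplicit false
set_option linter.unusedSectionVars false

noncomputable section

namespace MSA

universe u v w

variable {F : Type u} [Field F] {S : Type u} [CommRing S] [Algebra F S] {Γ : Type u}
variable {φ : Γ → S →+* S} [FixF F φ] (K : KS F φ)

/-! ## contraction on the Koszul complex -/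

section

variable {Z Z' : Type u} [AddCommGroup Z] [Module (Rg φ) Z] [AddCommGroup Z'] [Module (Rg φ) Z']

/-- contraction, even part -/
def KS.ck0 (j : K.J) : (K.ch Z).X0 →+ (K.ch Z).X1 where
  toFun x := ⟨K.cc j x.1, by
    have h := K.cc_mem j x.2
    rwa [zero_add] at h⟩
  map_zero' := Subtype.ext (map_zero (K.cc j))
  map_add' x y := Subtype.ext (map_add (K.cc j) x.1 y.1)

/-- contraction, odd part -/
def KS.ck1 (j : K.J) : (K.ch Z).X1 →+ (K.ch Z).X0 where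
  toFun x := ⟨K.cc j x.1, by
    have h := K.cc_mem j x.2
    rwa [show (1 : ZMod 2) + 1 = 0 from rfl] at h⟩
  map_zero' := Subtype.ext (map_zero (K.cc j))
  map_add' x y := Subtype.ext (map_add (K.cc j) x.1 y.1)

/-- multiplication by `e_j`, even part -/
def KS.cw0 (j : K.J) : (K.ch Z).X0 →+ (K.ch Z).X1 where
  toFun x := ⟨K.ww j x.1, by
    have h := K.ww_mem j x.2
    rwa [zero_add] at h⟩
  map_zero' := Subtype.ext (map_zero (K.ww j))
  map_add' x y := Subtype.ext (map_add (K.ww j) x.1 y.1)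

/-- multiplication by `e_j`, odd part -/
def KS.cw1 (j : K.J) : (K.ch Z).X1 →+ (K.ch Z).X0 where
  toFun x := ⟨K.ww j x.1, by
    have h := K.ww_mem j x.2
    rwa [show (1 : ZMod 2) + 1 = 0 from rfl] at h⟩
  map_zero' := Subtype.ext (map_zero (K.ww j))
  map_add' x y := Subtype.ext (map_add (K.ww j) x.1 y.1)

theorem KS.ck0_val (j : K.J) (x : (K.ch Z).X0) : (K.ck0 j x).1 = K.cc j x.1 := rfl

theorem KS.ck1_val (j : K.J) (x : (K.ch Z).X1) : (K.ck1 j x).1 = K.cc j x.1 := rfl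

theorem KS.ck0_iot (j : K.J) (s : S) (x : (K.ch Z).X0) :
    K.ck0 j (iot φ s • x) = iot φ s • K.ck0 j x := Subtype.ext (K.cc_iot j s x.1)

theorem KS.ck1_iot (j : K.J) (s : S) (x : (K.ch Z).X1) :
    K.ck1 j (iot φ s • x) = iot φ s • K.ck1 j x := Subtype.ext (K.cc_iot j s x.1)

private theorem rtk_sum {i : ZMod 2} {α : Type*} (s : Finset α) (f : α → K.part Z i) :
    (∑ a ∈ s, f a).1 = ∑ a ∈ s, (f a).1 := map_sum (K.part Z i).subtype f s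

theorem KS.ck0_gam (j : K.J) (g : Γ) (x : (K.ch Z).X0) : K.ck0 j (gam φ g • x) =
    ∑ i, iot φ (algebraMap F S (K.rho g (Pi.single i 1) j)) • gam φ g • K.ck0 i x := by
  refine Subtype.ext ((K.cc_gam j g x.1).trans ?_)
  exact (rtk_sum K (i := 1) Finset.univ (fun i =>
    iot φ (algebraMap F S (K.rho g (Pi.single i 1) j)) • gam φ g • K.ck0 i x)).symm

theorem KS.ck1_gam (j : K.J) (g : Γ) (x : (K.ch Z).X1) : K.ck1 j (gam φ g • x) =
    ∑ i, iot φ (algebraMap F S (K.rho g (Pi.single i 1) j)) • gam φ g • K.ck1 i x := by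
  refine Subtype.ext ((K.cc_gam j g x.1).trans ?_)
  exact (rtk_sum K (i := 0) Finset.univ (fun i =>
    iot φ (algebraMap F S (K.rho g (Pi.single i 1) j)) • gam φ g • K.ck1 i x)).symm

theorem KS.ck_ck0 (i j : K.J) (x : (K.ch Z).X0) :
    K.ck1 i (K.ck0 j x) + K.ck1 j (K.ck0 i x) = 0 := Subtype.ext (K.cc_cc i j x.1)

theorem KS.ck_ck1 (i j : K.J) (x : (K.ch Z).X1) :
    K.ck0 i (K.ck1 j x) + K.ck0 j (K.ck1 i x) = 0 := Subtype.ext (K.cc_cc i j x.1)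

theorem KS.ck_sq0 (j : K.J) (x : (K.ch Z).X0) : K.ck1 j (K.ck0 j x) = 0 :=
  Subtype.ext (K.cc_sq j x.1)

theorem KS.ck_sq1 (j : K.J) (x : (K.ch Z).X1) : K.ck0 j (K.ck1 j x) = 0 :=
  Subtype.ext (K.cc_sq j x.1)

theorem KS.d_ck0 (j : K.J) (x : (K.ch Z).X0) :
    (K.ch Z).d1 (K.ck0 j x) + K.ck1 j ((K.ch Z).d0 x) = 0 := Subtype.ext (K.d_cc j x.1)

theorem KS.d_ck1 (j : K.J) (x : (K.ch Z).X1) :
    (K.ch Z).d0 (K.ck1 j x) + K.ck0 j ((K.ch Z).d1 x) = 0 := Subtype.ext (K.d_cc j x.1)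

theorem KS.cw0_iot (j : K.J) (s : S) (x : (K.ch Z).X0) :
    K.cw0 j (iot φ s • x) = iot φ s • K.cw0 j x := Subtype.ext (K.ww_iot j s x.1)

theorem KS.cw1_iot (j : K.J) (s : S) (x : (K.ch Z).X1) :
    K.cw1 j (iot φ s • x) = iot φ s • K.cw1 j x := Subtype.ext (K.ww_iot j s x.1)

theorem KS.ck_cw0_self (j : K.J) (x : (K.ch Z).X0) :
    K.ck1 j (K.cw0 j x) + K.cw1 j (K.ck0 j x) = x := Subtype.ext (K.cc_ww_self j x.1)

theorem KS.ck_cw1_self (j : K.J) (x : (K.ch Z).X1) :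
    K.ck0 j (K.cw1 j x) + K.cw0 j (K.ck1 j x) = x := Subtype.ext (K.cc_ww_self j x.1)

theorem KS.ck_cw0_ne {i j : K.J} (h : i ≠ j) (x : (K.ch Z).X0) :
    K.ck1 i (K.cw0 j x) + K.cw1 j (K.ck0 i x) = 0 := Subtype.ext (K.cc_ww_ne h x.1)

theorem KS.ck_cw1_ne {i j : K.J} (h : i ≠ j) (x : (K.ch Z).X1) :
    K.ck0 i (K.cw1 j x) + K.cw0 j (K.ck1 i x) = 0 := Subtype.ext (K.cc_ww_ne h x.1)

theorem KS.d_cw0 (j : K.J) (x : (K.ch Z).X0) :
    (K.ch Z).d1 (K.cw0 j x) + K.cw1 j ((K.ch Z).d0 x) = iot φ (K.y j) • x :=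
  Subtype.ext (K.d_ww j x.1)

theorem KS.d_cw1 (j : K.J) (x : (K.ch Z).X1) :
    (K.ch Z).d0 (K.cw1 j x) + K.cw0 j ((K.ch Z).d1 x) = iot φ (K.y j) • x :=
  Subtype.ext (K.d_ww j x.1)

theorem KS.ck0_map (q : Z →ₗ[Rg φ] Z') (j : K.J) (x : (K.ch Z).X0) :
    K.ck0 j ((K.map q).f0 x) = (K.map q).f1 (K.ck0 j x) := Subtype.ext (K.cc_tmap q j x.1)

theorem KS.ck1_map (q : Z →ₗ[Rg φ] Z') (j : K.J) (x : (K.ch Z).X1) :
    K.ck1 j ((K.map q).f1 x) = (K.map q).f0 (K.ck1 j x) := Subtype.ext (K.cc_tmap q j x.1)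

end

/-! ## the complex `K ⊗ C` -/

variable (C : Ch.{u} (Rg φ))

/-- the differential on all pairs -/
def KS.tkD : (K.Tot C.X0 × K.Tot C.X1) →ₗ[Rg φ] (K.Tot C.X0 × K.Tot C.X1) :=
  LinearMap.prod
    (K.d.comp (LinearMap.fst (Rg φ) (K.Tot C.X0) (K.Tot C.X1)) +
      (K.tmap C.d1).comp (LinearMap.snd (Rg φ) (K.Tot C.X0) (K.Tot C.X1)))
    (-(K.d.comp (LinearMap.snd (Rg φ) (K.Tot C.X0) (K.Tot C.X1))) +
      (K.tmap C.d0).comp (LinearMap.fst (Rg φ) (K.Tot C.X0) (K.Tot C.X1)))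

theorem KS.tkD_apply (a : K.Tot C.X0) (b : K.Tot C.X1) :
    K.tkD C (a, b) = (K.d a + K.tmap C.d1 b, - K.d b + K.tmap C.d0 a) := rfl

private theorem rtk_cc0 (x : K.Tot C.X0) : K.tmap C.d1 (K.tmap C.d0 x) = 0 := by
  funext A
  exact C.h10 (x A)

private theorem rtk_cc1 (x : K.Tot C.X1) : K.tmap C.d0 (K.tmap C.d1 x) = 0 := by
  funext A
  exact C.h01 (x A)

theorem KS.tkD_tkD (x : K.Tot C.X0 × K.Tot C.X1) : K.tkD C (K.tkD C x) = 0 := by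
  obtain ⟨a, b⟩ := x
  have h0 : K.d (K.d a) = 0 := K.da_da a
  have h1 : K.d (K.d b) = 0 := K.da_da b
  rw [K.tkD_apply, K.tkD_apply, map_add, map_add, map_add, map_add, map_neg, map_neg, h0, h1,
    rtk_cc0, rtk_cc1, K.tmap_d, K.tmap_d, add_zero, zero_add, neg_zero, zero_add, add_zero,
    add_neg_cancel, neg_add_cancel]
  rfl

/-- the pairs of parity `i` -/
def KS.tkP (i : ZMod 2) : Submodule (Rg φ) (K.Tot C.X0 × K.Tot C.X1) :=
  (K.part C.X0 i).prod (K.part C.X1 (i + 1))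

theorem KS.tkD_mem {i : ZMod 2} {x : K.Tot C.X0 × K.Tot C.X1} (hx : x ∈ K.tkP C i) :
    K.tkD C x ∈ K.tkP C (i + 1) := by
  obtain ⟨ha, hb⟩ := hx
  have h2 : i + 1 + 1 = i := by rw [add_assoc, show (1 : ZMod 2) + 1 = 0 from rfl, add_zero]
  refine ⟨Submodule.add_mem _ (K.d_mem C.X0 ha) (K.tmap_mem C.d1 _ _ hb),
    Submodule.add_mem _ (Submodule.neg_mem _ (K.d_mem C.X1 hb)) ?_⟩
  rw [h2]
  exact K.tmap_mem C.d0 _ _ ha

/-- the complex `K ⊗ C` -/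
def KS.tk : Ch.{u} (Rg φ) where
  X0 := K.tkP C 0
  X1 := K.tkP C 1
  d0 := (K.tkD C).restrict (fun x hx => by
    have := K.tkD_mem C (i := 0) hx
    rwa [zero_add] at this)
  d1 := (K.tkD C).restrict (fun x hx => by
    have := K.tkD_mem C (i := 1) hx
    rwa [show (1 : ZMod 2) + 1 = 0 from rfl] at this)
  h10 := fun x => Subtype.ext (K.tkD_tkD C x.1)
  h01 := fun x => Subtype.ext (K.tkD_tkD C x.1)

theorem KS.tk_d0_val (x : (K.tk C).X0) : ((K.tk C).d0 x).1 = K.tkD C x.1 := rfl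

theorem KS.tk_d1_val (x : (K.tk C).X1) : ((K.tk C).d1 x).1 = K.tkD C x.1 := rfl

/-! ## contraction on `K ⊗ C` -/

/-- contraction on all pairs -/
def KS.tkc (j : K.J) : (K.Tot C.X0 × K.Tot C.X1) →+ (K.Tot C.X0 × K.Tot C.X1) where
  toFun x := (K.cc j x.1, - K.cc j x.2)
  map_zero' := by
    show (K.cc j (0 : K.Tot C.X0), - K.cc j (0 : K.Tot C.X1)) = 0
    rw [map_zero, map_zero, neg_zero]
    rfl
  map_add' x y := by
    show (K.cc j (x.1 + y.1), - K.cc j (x.2 + y.2)) = (K.cc j x.1 + K.cc j y.1, - K.cc j x.2 + - K.cc j y.2)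
    rw [map_add, map_add, neg_add]

theorem KS.tkc_apply (j : K.J) (a : K.Tot C.X0) (b : K.Tot C.X1) :
    K.tkc C j (a, b) = (K.cc j a, - K.cc j b) := rfl

theorem KS.tkc_mem {i : ZMod 2} (j : K.J) {x : K.Tot C.X0 × K.Tot C.X1} (hx : x ∈ K.tkP C i) :
    K.tkc C j x ∈ K.tkP C (i + 1) :=
  ⟨K.cc_mem j hx.1, Submodule.neg_mem _ (K.cc_mem j hx.2)⟩

theorem KS.tkc_iot (j : K.J) (s : S) (x : K.Tot C.X0 × K.Tot C.X1) :
    K.tkc C j (iot φ s • x) = iot φ s • K.tkc C j x := by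
  obtain ⟨a, b⟩ := x
  show (K.cc j (iot φ s • a), - K.cc j (iot φ s • b)) = (iot φ s • K.cc j a, iot φ s • - K.cc j b)
  rw [K.cc_iot, K.cc_iot, smul_neg]

theorem KS.tkc_gam (j : K.J) (g : Γ) (x : K.Tot C.X0 × K.Tot C.X1) : K.tkc C j (gam φ g • x) =
    ∑ i, iot φ (algebraMap F S (K.rho g (Pi.single i 1) j)) • gam φ g • K.tkc C i x := by
  obtain ⟨a, b⟩ := x
  apply Prod.ext
  · rw [Prod.fst_sum]
    exact K.cc_gam j g a
  · rw [Prod.snd_sum]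
    show - K.cc j (gam φ g • b) = ∑ i, iot φ _ • gam φ g • (- K.cc i b)
    rw [K.cc_gam j g b, ← Finset.sum_neg_distrib]
    refine Finset.sum_congr rfl fun i _ => ?_
    rw [smul_neg, smul_neg]

theorem KS.tkc_tkc (i j : K.J) (x : K.Tot C.X0 × K.Tot C.X1) :
    K.tkc C i (K.tkc C j x) + K.tkc C j (K.tkc C i x) = 0 := by
  obtain ⟨a, b⟩ := x
  apply Prod.ext
  · exact K.cc_cc i j a
  · show - K.cc i (- K.cc j b) + - K.cc j (- K.cc i b) = 0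
    rw [map_neg, map_neg, neg_neg, neg_neg]
    exact K.cc_cc i j b

theorem KS.tkc_sq (j : K.J) (x : K.Tot C.X0 × K.Tot C.X1) : K.tkc C j (K.tkc C j x) = 0 := by
  obtain ⟨a, b⟩ := x
  apply Prod.ext
  · exact K.cc_sq j a
  · show - K.cc j (- K.cc j b) = 0
    rw [map_neg, neg_neg]
    exact K.cc_sq j b

theorem KS.tkD_tkc (j : K.J) (x : K.Tot C.X0 × K.Tot C.X1) :
    K.tkD C (K.tkc C j x) + K.tkc C j (K.tkD C x) = 0 := by
  obtain ⟨a, b⟩ := x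
  have h0 := K.d_cc j a
  have h1 := K.d_cc j b
  apply Prod.ext
  · show (K.d (K.cc j a) + K.tmap C.d1 (- K.cc j b)) + K.cc j (K.d a + K.tmap C.d1 b) = 0
    rw [map_neg, map_add, K.cc_tmap, add_comm (K.cc j (K.d a))]
    rw [show K.d (K.cc j a) + - K.tmap C.d1 (K.cc j b) + (K.tmap C.d1 (K.cc j b) + K.cc j (K.d a)) =
      K.d (K.cc j a) + K.cc j (K.d a) by abel]
    exact h0
  · show (- K.d (- K.cc j b) + K.tmap C.d0 (K.cc j a)) + - K.cc j (- K.d b + K.tmap C.d0 a) = 0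
    rw [map_neg, map_add, map_neg, K.cc_tmap]
    rw [show - -K.d (K.cc j b) + K.tmap C.d0 (K.cc j a) + -(-K.cc j (K.d b) + K.tmap C.d0 (K.cc j a)) =
      K.d (K.cc j b) + K.cc j (K.d b) by abel]
    exact h1

/-- contraction on `K ⊗ C`, degree `0` -/
def KS.tk0 (j : K.J) : (K.tk C).X0 →+ (K.tk C).X1 where
  toFun x := ⟨K.tkc C j x.1, by
    have h := K.tkc_mem C j x.2
    rwa [zero_add] at h⟩
  map_zero' := Subtype.ext (map_zero (K.tkc C j))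
  map_add' x y := Subtype.ext (map_add (K.tkc C j) x.1 y.1)

/-- contraction on `K ⊗ C`, degree `1` -/
def KS.tk1 (j : K.J) : (K.tk C).X1 →+ (K.tk C).X0 where
  toFun x := ⟨K.tkc C j x.1, by
    have h := K.tkc_mem C j x.2
    rwa [show (1 : ZMod 2) + 1 = 0 from rfl] at h⟩
  map_zero' := Subtype.ext (map_zero (K.tkc C j))
  map_add' x y := Subtype.ext (map_add (K.tkc C j) x.1 y.1)

theorem KS.tk0_iot (j : K.J) (s : S) (x : (K.tk C).X0) :
    K.tk0 C j (iot φ s • x) = iot φ s • K.tk0 C j x := Subtype.ext (K.tkc_iot C j s x.1)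

theorem KS.tk1_iot (j : K.J) (s : S) (x : (K.tk C).X1) :
    K.tk1 C j (iot φ s • x) = iot φ s • K.tk1 C j x := Subtype.ext (K.tkc_iot C j s x.1)

private theorem rtk_sum' {i : ZMod 2} {α : Type*} (s : Finset α) (f : α → K.tkP C i) :
    (∑ a ∈ s, f a).1 = ∑ a ∈ s, (f a).1 := map_sum (K.tkP C i).subtype f s

theorem KS.tk0_gam (j : K.J) (g : Γ) (x : (K.tk C).X0) : K.tk0 C j (gam φ g • x) =
    ∑ i, iot φ (algebraMap F S (K.rho g (Pi.single i 1) j)) • gam φ g • K.tk0 C i x := by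
  refine Subtype.ext ((K.tkc_gam C j g x.1).trans ?_)
  exact (rtk_sum' K C (i := 1) Finset.univ (fun i =>
    iot φ (algebraMap F S (K.rho g (Pi.single i 1) j)) • gam φ g • K.tk0 C i x)).symm

theorem KS.tk1_gam (j : K.J) (g : Γ) (x : (K.tk C).X1) : K.tk1 C j (gam φ g • x) =
    ∑ i, iot φ (algebraMap F S (K.rho g (Pi.single i 1) j)) • gam φ g • K.tk1 C i x := by
  refine Subtype.ext ((K.tkc_gam C j g x.1).trans ?_)
  exact (rtk_sum' K C (i := 0) Finset.univ (fun i =>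
    iot φ (algebraMap F S (K.rho g (Pi.single i 1) j)) • gam φ g • K.tk1 C i x)).symm

theorem KS.tk_tk0 (i j : K.J) (x : (K.tk C).X0) :
    K.tk1 C i (K.tk0 C j x) + K.tk1 C j (K.tk0 C i x) = 0 := Subtype.ext (K.tkc_tkc C i j x.1)

theorem KS.tk_tk1 (i j : K.J) (x : (K.tk C).X1) :
    K.tk0 C i (K.tk1 C j x) + K.tk0 C j (K.tk1 C i x) = 0 := Subtype.ext (K.tkc_tkc C i j x.1)

theorem KS.tk_sq0 (j : K.J) (x : (K.tk C).X0) : K.tk1 C j (K.tk0 C j x) = 0 :=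
  Subtype.ext (K.tkc_sq C j x.1)

theorem KS.tk_sq1 (j : K.J) (x : (K.tk C).X1) : K.tk0 C j (K.tk1 C j x) = 0 :=
  Subtype.ext (K.tkc_sq C j x.1)

theorem KS.d_tk0 (j : K.J) (x : (K.tk C).X0) :
    (K.tk C).d1 (K.tk0 C j x) + K.tk1 C j ((K.tk C).d0 x) = 0 := Subtype.ext (K.tkD_tkc C j x.1)

theorem KS.d_tk1 (j : K.J) (x : (K.tk C).X1) :
    (K.tk C).d0 (K.tk1 C j x) + K.tk0 C j ((K.tk C).d1 x) = 0 := Subtype.ext (K.tkD_tkc C j x.1)

/-! ## the map to the Koszul complex of the quotient -/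

section

variable {M : Type u} [AddCommGroup M] [Module (Rg φ) M] (q : C.X0 →ₗ[Rg φ] M)

/-- `(a, b) ↦ q a` -/
def KS.qt (i : ZMod 2) : K.tkP C i →ₗ[Rg φ] K.part M i :=
  ((K.tmap q).comp ((LinearMap.fst (Rg φ) (K.Tot C.X0) (K.Tot C.X1)).comp
    (K.tkP C i).subtype)).codRestrict (K.part M i) (fun x => K.tmap_mem q i _ x.2.1)

theorem KS.qt_val (i : ZMod 2) (x : K.tkP C i) : (K.qt C q i x).1 = K.tmap q x.1.1 := rfl

private theorem rtk_q (hq : ∀ c, q (C.d1 c) = 0) (x : K.Tot C.X1) :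
    K.tmap q (K.tmap C.d1 x) = 0 := by
  funext A
  exact hq (x A)

/-- the map `K ⊗ C → K.ch M` for `q : C.X0 → M` with `q d1 = 0` -/
def KS.qtk (hq : ∀ c, q (C.d1 c) = 0) : Ch.Hom (K.tk C) (K.ch M) where
  f0 := K.qt C q 0
  f1 := K.qt C q 1
  c0 := fun x => Subtype.ext (by
    show K.d (K.tmap q x.1.1) = K.tmap q (K.d x.1.1 + K.tmap C.d1 x.1.2)
    rw [map_add, rtk_q K C q hq, add_zero, K.tmap_d])
  c1 := fun x => Subtype.ext (by
    show K.d (K.tmap q x.1.1) = K.tmap q (K.d x.1.1 + K.tmap C.d1 x.1.2)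
    rw [map_add, rtk_q K C q hq, add_zero, K.tmap_d])

theorem KS.qtk_f0_val (hq : ∀ c, q (C.d1 c) = 0) (x : (K.tk C).X0) :
    ((K.qtk C q hq).f0 x).1 = K.tmap q x.1.1 := rfl

theorem KS.qtk_f1_val (hq : ∀ c, q (C.d1 c) = 0) (x : (K.tk C).X1) :
    ((K.qtk C q hq).f1 x).1 = K.tmap q x.1.1 := rfl

theorem KS.qtk_k0 (hq : ∀ c, q (C.d1 c) = 0) (j : K.J) (x : (K.tk C).X0) :
    (K.qtk C q hq).f1 (K.tk0 C j x) = K.ck0 j ((K.qtk C q hq).f0 x) :=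
  Subtype.ext (K.cc_tmap q j x.1.1).symm

theorem KS.qtk_k1 (hq : ∀ c, q (C.d1 c) = 0) (j : K.J) (x : (K.tk C).X1) :
    (K.qtk C q hq).f0 (K.tk1 C j x) = K.ck1 j ((K.qtk C q hq).f1 x) :=
  Subtype.ext (K.cc_tmap q j x.1.1).symm

theorem KS.qt_surj (hs : Function.Surjective q) (i : ZMod 2) :
    Function.Surjective (K.qt C q i) := by
  intro y
  obtain ⟨x, hx⟩ := K.pmap_surj q hs i y
  exact ⟨⟨(x.1, 0), x.2, Submodule.zero_mem _⟩, Subtype.ext (congrArg Subtype.val hx)⟩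

theorem KS.qtk_s0 (hq : ∀ c, q (C.d1 c) = 0) (hs : Function.Surjective q) :
    Function.Surjective (K.qtk C q hq).f0 := K.qt_surj C q hs 0

theorem KS.qtk_s1 (hq : ∀ c, q (C.d1 c) = 0) (hs : Function.Surjective q) :
    Function.Surjective (K.qtk C q hq).f1 := K.qt_surj C q hs 1

end

/-! ## the values at the empty set -/

/-- `(a, b) ↦ a ∅` -/
def KS.ev0 : (K.tk C).X0 →ₗ[Rg φ] C.X0 :=
  (K.ev C.X0).comp ((LinearMap.fst (Rg φ) (K.Tot C.X0) (K.Tot C.X1)).comp (K.tkP C 0).subtype)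

/-- `(a, b) ↦ b ∅` -/
def KS.ev1 : (K.tk C).X1 →ₗ[Rg φ] C.X1 :=
  (K.ev C.X1).comp ((LinearMap.snd (Rg φ) (K.Tot C.X0) (K.Tot C.X1)).comp (K.tkP C 1).subtype)

theorem KS.ev0_val (x : (K.tk C).X0) : K.ev0 C x = K.ev C.X0 x.1.1 := rfl

theorem KS.ev1_val (x : (K.tk C).X1) : K.ev1 C x = K.ev C.X1 x.1.2 := rfl

theorem KS.ev1_d (x : (K.tk C).X0) : K.ev1 C ((K.tk C).d0 x) =
    C.d0 (K.ev0 C x) + ∑ j, iot φ (K.y j) • K.ev1 C (K.tk0 C j x) := by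
  show K.ev C.X1 (- K.d x.1.2 + K.tmap C.d0 x.1.1) =
    C.d0 (K.ev C.X0 x.1.1) + ∑ j, iot φ (K.y j) • K.ev C.X1 (- K.cc j x.1.2)
  rw [map_add, map_neg, K.ev_d, K.ev_tmap, add_comm, ← Finset.sum_neg_distrib]
  congr 1
  refine Finset.sum_congr rfl fun j _ => ?_
  rw [map_neg, smul_neg]

theorem KS.ev0_d (x : (K.tk C).X1) : K.ev0 C ((K.tk C).d1 x) =
    C.d1 (K.ev1 C x) + ∑ j, iot φ (K.y j) • K.ev0 C (K.tk1 C j x) := by
  show K.ev C.X0 (K.d x.1.1 + K.tmap C.d1 x.1.2) =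
    C.d1 (K.ev C.X1 x.1.2) + ∑ j, iot φ (K.y j) • K.ev C.X0 (K.cc j x.1.1)
  rw [map_add, K.ev_d, K.ev_tmap, add_comm]

/-- the pair `(cst c, 0)` -/
def KS.in0 (c : C.X0) : (K.tk C).X0 := ⟨(K.cst c, 0), K.cst_mem c, Submodule.zero_mem _⟩

/-- the pair `(0, cst c)` -/
def KS.in1 (c : C.X1) : (K.tk C).X1 := ⟨(0, K.cst c), Submodule.zero_mem _, by
  have h := K.cst_mem c
  rwa [show (0 : ZMod 2) = 1 + 1 from rfl] at h⟩

theorem KS.ev0_in0 (c : C.X0) : K.ev0 C (K.in0 C c) = c := K.ev_cst c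

theorem KS.ev1_in1 (c : C.X1) : K.ev1 C (K.in1 C c) = c := K.ev_cst c

end MSA
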