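import Mathlib
import Pool.Agent.MSA.Rtk

/-!
# The kernel of `K ⊗ C → K.ch M` is exact (MS, PART RES, 5d)

`Tk1 C q`: `q : C.X0 → M` kills the boundaries, cycles of `C.X0` in the kernel of `q` are boundaries, cycles of `C.X1`
are boundaries of elements of the kernel of `q`.

PROOF. On all pairs: if `K.tkD C (a, b) = 0`, `q a = 0` and `a`, `b` are supported on sets of cardinality `< k` then
`(a, b) = K.tkD C (a', b')` with `q a' = 0`; induction on `k`. Step `k + 1`: at a set `A` with `k` elements `K.d a A = 0`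
(`d_congr`), so `C.d1 (b A) = 0`, `C.d0 (a A) = 0`; choose `b' A` with `C.d1 (b' A) = a A` and `a' A` with `C.d0 (a' A) = b A`,
`q (a' A) = 0` for `A.card = k` and `0` otherwise; `(a, b) - K.tkD C (a', b')` is supported on sets with `< k` elements
(values of `K.d a'` at sets with `k - 1` elements). Parity: `ppj`, `ppj_d`.
-/

set_option autoImplicit false
set_option linter.unusedSectionVars false

noncomputable section

namespace MSA

universe u v w

variable {F : Type u} [Field F] {S : Type u} [CommRing S] [Algebra F S] {Γ : Type u}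
variable {φ : Γ → S →+* S} [FixF F φ] (K : KS F φ)
variable {C : Ch.{u} (Rg φ)} {M : Type u} [AddCommGroup M] [Module (Rg φ) M]

/-- Hypotheses: `C` resolves `M` through `q` up to the kernel. -/
structure Tk1 (C : Ch.{u} (Rg φ)) {M : Type u} [AddCommGroup M] [Module (Rg φ) M]
    (q : C.X0 →ₗ[Rg φ] M) : Prop where
  hq : ∀ c, q (C.d1 c) = 0
  e0 : ∀ c, C.d0 c = 0 → q c = 0 → ∃ c', C.d1 c' = c
  e1 : ∀ c, C.d1 c = 0 → ∃ c', C.d0 c' = c ∧ q c' = 0

variable {q : C.X0 →ₗ[Rg φ] M}

private theorem rt1_ind (h : Tk1 C q) (k : ℕ) : ∀ (a : K.Tot C.X0) (b : K.Tot C.X1),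
    (∀ A : Finset K.J, k ≤ A.card → a A = 0) → (∀ A : Finset K.J, k ≤ A.card → b A = 0) →
    K.tkD C (a, b) = 0 → K.tmap q a = 0 →
    ∃ (a' : K.Tot C.X0) (b' : K.Tot C.X1), K.tkD C (a', b') = (a, b) ∧ K.tmap q a' = 0 := by
  classical
  induction k with
  | zero =>
    intro a b ha hb _ _
    have h1 : a = 0 := by
      funext A
      exact ha A (Nat.zero_le _)
    have h2 : b = 0 := by
      funext A
      exact hb A (Nat.zero_le _)
    exact ⟨0, 0, by rw [h1, h2]; exact map_zero (K.tkD C), map_zero _⟩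
  | succ k ih =>
    intro a b ha hb hd hqa
    have hd0 : K.d a + K.tmap C.d1 b = 0 := congrArg Prod.fst hd
    have hd1 : - K.d b + K.tmap C.d0 a = 0 := congrArg Prod.snd hd
    have hda : ∀ A : Finset K.J, k ≤ A.card → K.d a A = 0 := by
      intro A hA
      have h1 : K.d a A = K.d (0 : K.Tot C.X0) A := K.d_congr fun B hB => by
        rw [ha B (by omega)]
        rfl
      rw [h1, map_zero]
      rfl
    have hdb : ∀ A : Finset K.J, k ≤ A.card → K.d b A = 0 := by
      intro A hA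
      have h1 : K.d b A = K.d (0 : K.Tot C.X1) A := K.d_congr fun B hB => by
        rw [hb B (by omega)]
        rfl
      rw [h1, map_zero]
      rfl
    have hb1 : ∀ A : Finset K.J, k ≤ A.card → C.d1 (b A) = 0 := by
      intro A hA
      have h1 := congrFun hd0 A
      have h2 : K.d a A + C.d1 (b A) = 0 := h1
      rwa [hda A hA, zero_add] at h2
    have ha1 : ∀ A : Finset K.J, k ≤ A.card → C.d0 (a A) = 0 := by
      intro A hA
      have h1 := congrFun hd1 A
      have h2 : - K.d b A + C.d0 (a A) = 0 := h1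
      rwa [hdb A hA, neg_zero, zero_add] at h2
    have hexb : ∀ A : Finset K.J, ∃ c : C.X1, k ≤ A.card → C.d1 c = a A := by
      intro A
      by_cases hA : k ≤ A.card
      · obtain ⟨c, hc⟩ := h.e0 (a A) (ha1 A hA) (congrFun hqa A)
        exact ⟨c, fun _ => hc⟩
      · exact ⟨0, fun h1 => absurd h1 hA⟩
    have hexa : ∀ A : Finset K.J, ∃ c : C.X0, k ≤ A.card → C.d0 c = b A ∧ q c = 0 := by
      intro A
      by_cases hA : k ≤ A.card
      · obtain ⟨c, hc⟩ := h.e1 (b A) (hb1 A hA)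
        exact ⟨c, fun _ => hc⟩
      · exact ⟨0, fun h1 => absurd h1 hA⟩
    choose fb hfb using hexb
    choose fa hfa using hexa
    obtain ⟨b', hb'⟩ : ∃ b' : K.Tot C.X1, ∀ A, b' A = if A.card = k then fb A else 0 :=
      ⟨fun A => if A.card = k then fb A else 0, fun _ => rfl⟩
    obtain ⟨a', ha'⟩ : ∃ a' : K.Tot C.X0, ∀ A, a' A = if A.card = k then fa A else 0 :=
      ⟨fun A => if A.card = k then fa A else 0, fun _ => rfl⟩
    have hqa' : K.tmap q a' = 0 := by
      funext A
      show q (a' A) = 0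
      rw [ha']
      by_cases hA : A.card = k
      · rw [if_pos hA]
        exact (hfa A (le_of_eq hA.symm)).2
      · rw [if_neg hA, map_zero]
    have hda' : ∀ A : Finset K.J, k ≤ A.card → K.d a' A = 0 := by
      intro A hA
      have h1 : K.d a' A = K.d (0 : K.Tot C.X0) A := K.d_congr fun B hB => by
        rw [ha', if_neg (by omega)]
        rfl
      rw [h1, map_zero]
      rfl
    have hdb' : ∀ A : Finset K.J, k ≤ A.card → K.d b' A = 0 := by
      intro A hA
      have h1 : K.d b' A = K.d (0 : K.Tot C.X1) A := K.d_congr fun B hB => by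
        rw [hb', if_neg (by omega)]
        rfl
      rw [h1, map_zero]
      rfl
    obtain ⟨a'', b'', h1, h2⟩ := ih (a - (K.d a' + K.tmap C.d1 b'))
      (b - (- K.d b' + K.tmap C.d0 a')) (by
        intro A hA
        show a A - (K.d a' A + C.d1 (b' A)) = 0
        rw [hda' A hA, zero_add, hb']
        by_cases hk : A.card = k
        · rw [if_pos hk, hfb A hA, sub_self]
        · rw [if_neg hk, map_zero, sub_zero]
          exact ha A (by omega)) (by
        intro A hA
        show b A - (- K.d b' A + C.d0 (a' A)) = 0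
        rw [hdb' A hA, neg_zero, zero_add, ha']
        by_cases hk : A.card = k
        · rw [if_pos hk, (hfa A hA).1, sub_self]
        · rw [if_neg hk, map_zero, sub_zero]
          exact hb A (by omega)) (by
        have h3 : ((a - (K.d a' + K.tmap C.d1 b'), b - (- K.d b' + K.tmap C.d0 a')) :
            K.Tot C.X0 × K.Tot C.X1) = (a, b) - K.tkD C (a', b') := rfl
        rw [h3, map_sub, hd, K.tkD_tkD, sub_zero]) (by
        have h3 : K.tmap q (K.tmap C.d1 b') = 0 := by
          funext A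
          exact h.hq (b' A)
        rw [map_sub, map_add, hqa, ← K.tmap_d, hqa', h3, map_zero, add_zero, sub_zero])
    refine ⟨a' + a'', b' + b'', ?_, ?_⟩
    · have h3 : ((a' + a'', b' + b'') : K.Tot C.X0 × K.Tot C.X1) = (a', b') + (a'', b'') := rfl
      rw [h3, map_add, h1, K.tkD_apply]
      exact Prod.ext (add_sub_cancel _ _) (add_sub_cancel _ _)
    · rw [map_add, hqa', h2, add_zero]

private theorem rt1_par (h : Tk1 C q) (i : ZMod 2) (x : K.Tot C.X0 × K.Tot C.X1)
    (hx : x ∈ K.tkP C i) (hd : K.tkD C x = 0) (hq : K.tmap q x.1 = 0) :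
    ∃ y ∈ K.tkP C (i + 1), K.tkD C y = x ∧ K.tmap q y.1 = 0 := by
  obtain ⟨a, b⟩ := x
  obtain ⟨a', b', h1, h2⟩ := rt1_ind K h (Fintype.card K.J + 1) a b
    (fun A hA => absurd (Finset.card_le_univ A) (by omega))
    (fun A hA => absurd (Finset.card_le_univ A) (by omega)) hd hq
  have hi : i + 1 + 1 = i := by rw [add_assoc, show (1 : ZMod 2) + 1 = 0 from rfl, add_zero]
  have e0 : K.d a' + K.tmap C.d1 b' = a := congrArg Prod.fst h1
  have e1 : - K.d b' + K.tmap C.d0 a' = b := congrArg Prod.snd h1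
  refine ⟨(K.ppj (i + 1) a', K.ppj i b'), ⟨K.ppj_mem _ _, ?_⟩, ?_, ?_⟩
  · show K.ppj i b' ∈ K.part C.X1 (i + 1 + 1)
    rw [hi]
    exact K.ppj_mem _ _
  · apply Prod.ext
    · show K.d (K.ppj (i + 1) a') + K.tmap C.d1 (K.ppj i b') = a
      rw [← K.ppj_d, ← K.ppj_tmap, ← map_add, e0]
      exact K.ppj_of_mem hx.1
    · show - K.d (K.ppj i b') + K.tmap C.d0 (K.ppj (i + 1) a') = b
      have h3 : K.d (K.ppj i b') = K.ppj (i + 1) (K.d b') := by
        rw [K.ppj_d, hi]
      rw [h3, ← K.ppj_tmap, ← map_neg, ← map_add, e1]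
      exact K.ppj_of_mem hx.2
  · show K.tmap q (K.ppj (i + 1) a') = 0
    rw [← K.ppj_tmap, h2, map_zero]

theorem tk1_ex0 (h : Tk1 C q) (x : (K.tk C).X0) (hd : (K.tk C).d0 x = 0)
    (hq : (K.qtk C q h.hq).f0 x = 0) :
    ∃ y : (K.tk C).X1, (K.tk C).d1 y = x ∧ (K.qtk C q h.hq).f1 y = 0 := by
  obtain ⟨y, hy, h1, h2⟩ := rt1_par K h 0 x.1 x.2 (congrArg Subtype.val hd)
    (congrArg Subtype.val hq)
  rw [zero_add] at hy
  exact ⟨⟨y, hy⟩, Subtype.ext h1, Subtype.ext h2⟩

theorem tk1_ex1 (h : Tk1 C q) (x : (K.tk C).X1) (hd : (K.tk C).d1 x = 0)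
    (hq : (K.qtk C q h.hq).f1 x = 0) :
    ∃ y : (K.tk C).X0, (K.tk C).d0 y = x ∧ (K.qtk C q h.hq).f0 y = 0 := by
  obtain ⟨y, hy, h1, h2⟩ := rt1_par K h 1 x.1 x.2 (congrArg Subtype.val hd)
    (congrArg Subtype.val hq)
  rw [show (1 : ZMod 2) + 1 = 0 from rfl] at hy
  exact ⟨⟨y, hy⟩, Subtype.ext h1, Subtype.ext h2⟩

end MSA
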