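import Mathlib
import Pool.Agent.MSA.Rkv
import Pool.Agent.MSA.Rt1
import Pool.Agent.MSA.CIx

/-!
# The Koszul complex of two invariants resolves `S / (y, g)` (MS, PART RES, 5f)

Everything here is proved. `D.qci hy hg : ((D.kCI hy hg).ch (Sr D.ph)).X0 → D.CI y g`, `c ↦` class of `c ∅`.
-/

set_option autoImplicit false
set_option linter.unusedSectionVars false

noncomputable section

namespace MSA

universe u v w

open MvPolynomial

namespace Dat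

variable (D : Dat.{u}) {m n : ℕ} {y g : D.S}

/-- `c ↦ c ∅` modulo `(y, g)` -/
def qci (hy : D.Iv m y) (hg : D.Iv n g) :
    ((D.kCI hy hg).ch (Sr D.ph)).X0 →ₗ[D.R] D.CI y g :=
  (idl D.ph (Ideal.span {y, g})).mkQ ∘ₗ (D.kCI hy hg).ev (Sr D.ph) ∘ₗ
    ((D.kCI hy hg).part (Sr D.ph) 0).subtype

theorem qci_apply (hy : D.Iv m y) (hg : D.Iv n g) (c : ((D.kCI hy hg).ch (Sr D.ph)).X0) :
    D.qci hy hg c = (idl D.ph (Ideal.span {y, g})).mkQ ((D.kCI hy hg).ev (Sr D.ph) c.1) := rfl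

theorem qci_surj (hy : D.Iv m y) (hg : D.Iv n g) : Function.Surjective (D.qci hy hg) := by
  intro z
  obtain ⟨x, rfl⟩ := (idl D.ph (Ideal.span {y, g})).mkQ_surjective z
  refine ⟨⟨(D.kCI hy hg).cst x, (D.kCI hy hg).cst_mem x⟩, ?_⟩
  rw [qci_apply]
  show (idl D.ph (Ideal.span {y, g})).mkQ ((D.kCI hy hg).ev (Sr D.ph) ((D.kCI hy hg).cst x)) = _
  rw [(D.kCI hy hg).ev_cst]

private theorem rci_y (hy : D.Iv m y) (hg : D.Iv n g) (j : (D.kCI hy hg).J) :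
    (D.kCI hy hg).y j ∈ Ideal.span {y, g} := by
  have hj : j = (0 : Fin 2) ∨ j = (1 : Fin 2) := by
    have : ∀ j : Fin 2, j = 0 ∨ j = 1 := by decide
    exact this j
  rcases hj with h | h
  · have h1 : (D.kCI hy hg).y j = y := by rw [h]; rfl
    rw [h1]
    exact Ideal.subset_span (Set.mem_insert _ _)
  · have h1 : (D.kCI hy hg).y j = g := by rw [h]; rfl
    rw [h1]
    exact Ideal.subset_span (Set.mem_insert_of_mem _ rfl)

theorem mk_ci_eq_zero (hy : D.Iv m y) (hg : D.Iv n g) (x : Sr D.ph) :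
    (idl D.ph (Ideal.span {y, g})).mkQ x = 0 ↔ (D.kCI hy hg).yid Finset.univ x := by
  constructor
  · intro h
    obtain ⟨f, rfl⟩ := (toSr D.ph).surjective x
    rw [D.cy_mk_eq_zero (D.st_span2 hy hg), Ideal.mem_span_pair] at h
    obtain ⟨a, b, rfl⟩ := h
    have e0 : toSr D.ph (a * y + b * g) =
        iot D.ph ((D.kCI hy hg).y (0 : Fin 2)) • toSr D.ph a +
        iot D.ph ((D.kCI hy hg).y (1 : Fin 2)) • toSr D.ph b := by
      show _ = iot D.ph y • toSr D.ph a + iot D.ph g • toSr D.ph b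
      rw [sr_iot, sr_iot, ← map_add, mul_comm a, mul_comm b]
    rw [e0]
    exact (D.kCI hy hg).yid_add
      ((D.kCI hy hg).yid_of_mem (Finset.mem_univ ((0 : Fin 2) : (D.kCI hy hg).J)) _)
      ((D.kCI hy hg).yid_of_mem (Finset.mem_univ ((1 : Fin 2) : (D.kCI hy hg).J)) _)
  · rintro ⟨u, rfl⟩
    rw [map_sum]
    refine Finset.sum_eq_zero fun j _ => ?_
    obtain ⟨t, ht⟩ := (toSr D.ph).surjective (u j)
    rw [← ht, sr_iot, D.cy_mk_eq_zero (D.st_span2 hy hg)]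
    exact Ideal.mul_mem_right _ _ (D.rci_y hy hg j)

/-- The Koszul complex is a resolution. -/
theorem tk1_ci (hy : D.Iv m y) (hg : D.Iv n g) (y0 : y ≠ 0) (hr : IsRelPrime y g) :
    Tk1 ((D.kCI hy hg).ch (Sr D.ph)) (D.qci hy hg) where
  hq := fun c => by
    show (idl D.ph (Ideal.span {y, g})).mkQ
      ((D.kCI hy hg).ev (Sr D.ph) ((D.kCI hy hg).d c.1)) = 0
    rw [D.mk_ci_eq_zero hy hg, (D.kCI hy hg).ev_d]
    exact ⟨_, rfl⟩
  e0 := fun c hc hq => by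
    have h1 : (D.kCI hy hg).d c.1 = 0 := congrArg Subtype.val hc
    obtain ⟨x, hx⟩ := (D.kCI hy hg).reg_ex (D.reg_kCI hy hg y0 hr) c.1 h1
      ((D.mk_ci_eq_zero hy hg _).1 hq)
    refine ⟨⟨(D.kCI hy hg).ppj 1 x, (D.kCI hy hg).ppj_mem 1 x⟩, Subtype.ext ?_⟩
    show (D.kCI hy hg).d ((D.kCI hy hg).ppj 1 x) = c.1
    have h2 := (D.kCI hy hg).ppj_d 0 x
    rw [zero_add] at h2
    rw [← h2, hx]
    exact (D.kCI hy hg).ppj_of_mem c.2
  e1 := fun c hc => by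
    have h1 : (D.kCI hy hg).d c.1 = 0 := congrArg Subtype.val hc
    obtain ⟨x, hx⟩ := (D.kCI hy hg).reg_ex (D.reg_kCI hy hg y0 hr) c.1 h1 (by
      rw [(D.kCI hy hg).ev_odd c.2]
      exact (D.kCI hy hg).yid_zero _)
    obtain ⟨z, hz⟩ : ∃ z, z = (D.kCI hy hg).ppj 0 x -
      (D.kCI hy hg).cst ((D.kCI hy hg).ev (Sr D.ph) ((D.kCI hy hg).ppj 0 x)) := ⟨_, rfl⟩
    refine ⟨⟨z, ?_⟩, Subtype.ext ?_, ?_⟩
    · rw [hz]
      exact Submodule.sub_mem _ ((D.kCI hy hg).ppj_mem 0 x) ((D.kCI hy hg).cst_mem _)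
    · show (D.kCI hy hg).d z = c.1
      rw [hz, map_sub, (D.kCI hy hg).d_cst, sub_zero]
      have h2 := (D.kCI hy hg).ppj_d 1 x
      rw [show (1 : ZMod 2) + 1 = 0 from rfl] at h2
      rw [← h2, hx]
      exact (D.kCI hy hg).ppj_of_mem c.2
    · show (idl D.ph (Ideal.span {y, g})).mkQ ((D.kCI hy hg).ev (Sr D.ph) z) = 0
      rw [hz, map_sub, (D.kCI hy hg).ev_cst, sub_self, map_zero]

end Dat

end MSA
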