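import Mathlib
import Pool.Agent.MSA.Rdf
import Pool.Agent.MSA.Pk

/-!
# Induced modules `Fr D Z = S ⊗_L Z`

`ft s z` is the pure tensor; `S` acts on the left factor, the generators act on both.
`Fr.lift`: the universal property.
-/

set_option autoImplicit false
set_option linter.unusedSectionVars false

noncomputable section

namespace MSA

universe u v w

open MvPolynomial TensorProduct

/-- The induced module `S ⊗_L Z`. -/
def Fr (D : Dat.{u}) (Z : Type u) [AddCommGroup Z] [Module D.R Z] : Type u :=
  TensorProduct D.L D.S (UL D Z)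

namespace Dat

variable (D : Dat.{u}) (Z : Type u) [AddCommGroup Z] [Module D.R Z]

/-- generators on `L` -/
def phL : Gn D.F → D.L →+* D.L
  | Gn.tau => (D.s : D.L →+* D.L)
  | Gn.th _ => RingHom.id D.L

theorem ph_C (g : Gn D.F) (l : D.L) : D.ph g (C l) = C (D.phL g l) := by
  cases g with
  | tau => exact D.tauS_C l
  | th c => simp [ph, thS, phL]

end Dat

namespace Fr

variable {D : Dat.{u}} {Z : Type u} [AddCommGroup Z] [Module D.R Z]

instance : AddCommGroup (Fr D Z) := inferInstanceAs (AddCommGroup (TensorProduct D.L D.S (UL D Z)))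

/-- pure tensors -/
def ft (s : D.S) (z : Z) : Fr D Z := (TensorProduct.tmul D.L s (z : UL D Z))

theorem ft_add_left (s t : D.S) (z : Z) : (ft (s + t) z : Fr D Z) = ft s z + ft t z :=
  TensorProduct.add_tmul (R := D.L) (N := UL D Z) s t z

theorem ft_add_right (s : D.S) (z z' : Z) : (ft s (z + z') : Fr D Z) = ft s z + ft s z' :=
  TensorProduct.tmul_add (R := D.L) (N := UL D Z) s z z'

theorem ft_zero_left (z : Z) : (ft (0 : D.S) z : Fr D Z) = 0 :=
  TensorProduct.zero_tmul (R := D.L) (N := UL D Z) D.S z

theorem ft_zero_right (s : D.S) : (ft s (0 : Z) : Fr D Z) = 0 :=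
  TensorProduct.tmul_zero (UL D Z) s

theorem ft_C (l : D.L) (s : D.S) (z : Z) :
    (ft (C l * s) z : Fr D Z) = ft s (iot D.ph (C l) • z) := by
  have h := TensorProduct.smul_tmul (R := D.L) (R' := D.L) (N := UL D Z) l s z
  rw [MvPolynomial.smul_eq_C_mul] at h
  exact h

theorem ind {P : Fr D Z → Prop} (x : Fr D Z) (h0 : P 0) (h : ∀ s z, P (ft s z))
    (ha : ∀ x y, P x → P y → P (x + y)) : P x :=
  TensorProduct.induction_on x h0 h ha

theorem hom_ext {A : Type*} [AddCommGroup A] {f g : Fr D Z →+ A}
    (h : ∀ s z, f (ft s z) = g (ft s z)) : f = g := by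
  refine AddMonoidHom.ext fun x => ?_
  refine ind (P := fun x => f x = g x) x ?_ h ?_
  · rw [map_zero, map_zero]
  · intro x y hx hy
    rw [map_add, map_add, hx, hy]

/-- additive maps from balanced biadditive maps -/
def bi {A : Type v} [AddCommGroup A] (f : D.S →+ Z →+ A)
    (hf : ∀ (l : D.L) (s : D.S) (z : Z), f (C l * s) z = f s (iot D.ph (C l) • z)) :
    Fr D Z →+ A :=
  TensorProduct.liftAddHom (R := D.L) (M := D.S) (N := UL D Z) (P := A) f (fun l s z => by
    have h := hf l s z
    rw [← MvPolynomial.smul_eq_C_mul] at h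
    exact h)

theorem bi_ft {A : Type v} [AddCommGroup A] (f : D.S →+ Z →+ A)
    (hf : ∀ (l : D.L) (s : D.S) (z : Z), f (C l * s) z = f s (iot D.ph (C l) • z)) (s : D.S)
    (z : Z) : bi f hf (ft s z) = f s z := rfl

/-- `S` acts on the left factor -/
def sa : D.S →+* AddMonoid.End (Fr D Z) where
  toFun t := bi
    { toFun := fun s =>
        { toFun := fun z => ft (t * s) z
          map_zero' := ft_zero_right _
          map_add' := ft_add_right _ }
      map_zero' := by
        refine AddMonoidHom.ext fun z => ?_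
        show ft (t * 0) z = (0 : Fr D Z)
        rw [mul_zero, ft_zero_left]
      map_add' := fun x y => by
        refine AddMonoidHom.ext fun z => ?_
        show ft (t * (x + y)) z = (ft (t * x) z + ft (t * y) z : Fr D Z)
        rw [mul_add, ft_add_left] }
    (fun l s z => by
      show ft (t * (C l * s)) z = (ft (t * s) (iot D.ph (C l) • z) : Fr D Z)
      rw [← ft_C]
      congr 1
      ring)
  map_one' := by
    refine hom_ext fun s z => ?_
    show ft (1 * s) z = (ft s z : Fr D Z)
    rw [one_mul]
  map_mul' a b := by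
    refine hom_ext fun s z => ?_
    show ft (a * b * s) z = (ft (a * (b * s)) z : Fr D Z)
    rw [mul_assoc]
  map_zero' := by
    refine hom_ext fun s z => ?_
    show ft (0 * s) z = (0 : Fr D Z)
    rw [zero_mul, ft_zero_left]
  map_add' a b := by
    refine hom_ext fun s z => ?_
    show ft ((a + b) * s) z = (ft (a * s) z + ft (b * s) z : Fr D Z)
    rw [add_mul, ft_add_left]

theorem gam_C (g : Gn D.F) (l : D.L) (z : Z) : gam D.ph g • iot D.ph (C l) • z =
    iot D.ph (C (D.phL g l)) • gam D.ph g • z := by
  rw [← mul_smul, gam_mul_iot, D.ph_C, mul_smul]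

/-- the generators -/
def ga (g : Gn D.F) : AddMonoid.End (Fr D Z) := bi
    { toFun := fun s =>
        { toFun := fun z => ft (D.ph g s) (gam D.ph g • z)
          map_zero' := by rw [smul_zero, ft_zero_right]
          map_add' := fun x y => by rw [smul_add, ft_add_right] }
      map_zero' := by
        refine AddMonoidHom.ext fun z => ?_
        show ft (D.ph g 0) (gam D.ph g • z) = (0 : Fr D Z)
        rw [map_zero, ft_zero_left]
      map_add' := fun x y => by
        refine AddMonoidHom.ext fun z => ?_
        show ft (D.ph g (x + y)) (gam D.ph g • z) =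
          (ft (D.ph g x) (gam D.ph g • z) + ft (D.ph g y) (gam D.ph g • z) : Fr D Z)
        rw [map_add, ft_add_left] }
    (fun l s z => by
      show ft (D.ph g (C l * s)) (gam D.ph g • z) =
        (ft (D.ph g s) (gam D.ph g • iot D.ph (C l) • z) : Fr D Z)
      rw [gam_C, ← ft_C, map_mul, D.ph_C])

theorem ga_sa (g : Gn D.F) (s : D.S) (x : Fr D Z) : ga g (sa s x) = sa (D.ph g s) (ga g x) := by
  have h : (ga g).comp (sa (Z := Z) s) = (sa (D.ph g s)).comp (ga g) := by
    refine hom_ext fun t z => ?_
    show ft (D.ph g (s * t)) (gam D.ph g • z) =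
      (ft (D.ph g s * D.ph g t) (gam D.ph g • z) : Fr D Z)
    rw [map_mul]
  exact congrArg (fun f : Fr D Z →+ Fr D Z => f x) h

instance : Module D.R (Fr D Z) := rgModule D.ph sa ga ga_sa

theorem iot_ft (t s : D.S) (z : Z) : iot D.ph t • (ft s z : Fr D Z) = ft (t * s) z :=
  rgModule_iot D.ph sa ga ga_sa t (ft s z)

theorem gam_ft (g : Gn D.F) (s : D.S) (z : Z) :
    gam D.ph g • (ft s z : Fr D Z) = ft (D.ph g s) (gam D.ph g • z) :=
  rgModule_gam D.ph sa ga ga_sa g (ft s z)

theorem ft_eq (s : D.S) (z : Z) : (ft s z : Fr D Z) = iot D.ph s • ft 1 z := by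
  rw [iot_ft, mul_one]

section lift

variable {X : Type u} [AddCommGroup X] [Module D.R X]

/-- the additive map behind `lift` -/
def lifa (h : Z →+ X) (hL : ∀ (l : D.L) z, h (iot D.ph (C l) • z) = iot D.ph (C l) • h z) :
    Fr D Z →+ X := bi
    { toFun := fun s =>
        { toFun := fun z => iot D.ph s • h z
          map_zero' := by rw [map_zero, smul_zero]
          map_add' := fun x y => by rw [map_add, smul_add] }
      map_zero' := by
        refine AddMonoidHom.ext fun z => ?_
        show iot D.ph 0 • h z = 0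
        rw [map_zero, zero_smul]
      map_add' := fun x y => by
        refine AddMonoidHom.ext fun z => ?_
        show iot D.ph (x + y) • h z = iot D.ph x • h z + iot D.ph y • h z
        rw [map_add, add_smul] }
    (fun l s z => by
      show iot D.ph (C l * s) • h z = iot D.ph s • h (iot D.ph (C l) • z)
      rw [hL, ← mul_smul, ← map_mul, mul_comm])

/-- The universal property of the induced module. -/
def lift (h : Z →+ X) (hL : ∀ (l : D.L) z, h (iot D.ph (C l) • z) = iot D.ph (C l) • h z)
    (hg : ∀ (g : Gn D.F) z, h (gam D.ph g • z) = gam D.ph g • h z) : Fr D Z →ₗ[D.R] X :=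
  mkLin (lifa h hL)
    (fun t x => by
      refine ind (P := fun x => lifa h hL (iot D.ph t • x) = iot D.ph t • lifa h hL x) x ?_ ?_ ?_
      · rw [smul_zero, map_zero, smul_zero]
      · intro s z
        rw [iot_ft]
        show iot D.ph (t * s) • h z = iot D.ph t • iot D.ph s • h z
        rw [map_mul, mul_smul]
      · intro x y hx hy
        rw [smul_add, map_add, map_add, smul_add, hx, hy])
    (fun g x => by
      refine ind (P := fun x => lifa h hL (gam D.ph g • x) = gam D.ph g • lifa h hL x) x ?_ ?_ ?_
      · rw [smul_zero, map_zero, smul_zero]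
      · intro s z
        rw [gam_ft]
        show iot D.ph (D.ph g s) • h (gam D.ph g • z) = gam D.ph g • iot D.ph s • h z
        rw [hg, ← mul_smul, ← mul_smul, gam_mul_iot]
      · intro x y hx hy
        rw [smul_add, map_add, map_add, smul_add, hx, hy])

theorem lift_ft (h : Z →+ X) (hL : ∀ (l : D.L) z, h (iot D.ph (C l) • z) = iot D.ph (C l) • h z)
    (hg : ∀ (g : Gn D.F) z, h (gam D.ph g • z) = gam D.ph g • h z) (s : D.S) (z : Z) :
    lift h hL hg (ft s z) = iot D.ph s • h z := rfl

theorem lin_ext {f g : Fr D Z →ₗ[D.R] X} (h : ∀ z, f (ft 1 z) = g (ft 1 z)) : f = g := by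
  refine LinearMap.ext fun x => ?_
  refine ind (P := fun x => f x = g x) x ?_ ?_ ?_
  · rw [map_zero, map_zero]
  · intro s z
    rw [ft_eq, map_smul, map_smul, h]
  · intro x y hx hy
    rw [map_add, map_add, hx, hy]

end lift

/-- functoriality -/
def map {Z' : Type u} [AddCommGroup Z'] [Module D.R Z'] (f : Z →ₗ[D.R] Z') :
    Fr D Z →ₗ[D.R] Fr D Z' :=
  lift
    { toFun := fun z => ft 1 (f z)
      map_zero' := by rw [map_zero, ft_zero_right]
      map_add' := fun x y => by rw [map_add, ft_add_right] }
    (fun l z => by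
      show ft 1 (f (iot D.ph (C l) • z)) = iot D.ph (C l) • ft 1 (f z)
      rw [map_smul, iot_ft, ft_C])
    (fun g z => by
      show ft 1 (f (gam D.ph g • z)) = gam D.ph g • ft 1 (f z)
      rw [map_smul, gam_ft, map_one])

theorem map_ft {Z' : Type u} [AddCommGroup Z'] [Module D.R Z'] (f : Z →ₗ[D.R] Z') (s : D.S)
    (z : Z) : map f (ft s z) = ft s (f z) := by
  show iot D.ph s • ft 1 (f z) = ft s (f z)
  rw [iot_ft, mul_one]

end Fr

end MSA
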