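import Mathlib
import Pool.Agent.MSA.Rmp
import Pool.Agent.MSA.Rfr
import Pool.Agent.MSA.HfG

/-!
# The evaluation `S ⊗_L Z → Z` at the origin (MS, PART RES, section 3b)

PROOFS.
`phL_cc`: `constantCoeff (ph g s) = phL g (constantCoeff s)`: both sides are ring homomorphisms `D.S →+* D.L`; compare them
on constants (`D.ph_C`) and on the variables (`D.tauS_X`; `thS` of a variable is `C c * X i`; both sides are `0`):
`MvPolynomial.ringHom_ext`.
`iot_mP`: a polynomial with constant coefficient `0` is `∑ X j * t j` (`MvPolynomial.mem_ideal_span_X_image` or induction: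
every monomial of its support contains a variable; e.g. `s - C (constantCoeff s)` lies in `Ideal.span (range X)`, by
`MvPolynomial.induction_on`), and `iot (X j * t) • x = iot (X j) • (iot t • x)` lies in `mP` (`mem_mP_of`; `mP X` is a submodule).
`ev0`: `Fr.bi` for `s ↦ z ↦ iot (C (constantCoeff s)) • z` (given below). `ev0_iot`, `ev0_gam`: on pure tensors
(`Fr.ind`; `iot_ft`, `gam_ft`, `map_mul`; for `ev0_gam` use `phL_cc` and `Fr.gam_C`).
`ev0_mP`: `{x | ev0 x = 0}` is stable under `iot` and `gam` (`mkSub`), and contains `iot (X j) • x` because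
`constantCoeff (X j) = 0`; `Submodule.span_le`.
`sub_ev0`: `Fr.ind`: `x = ft s z`: `ft s z - ft 1 (iot (C c) • z) = ft (s - C c) z = iot (s - C c) • ft 1 z`, `c = constantCoeff s`
(`ft_C`, `ft_eq`), then `iot_mP`.
`ev0_eq_zero`: `sub_ev0` and `ev0_mP`.
`ev0_wt`: `ev0_gam` for `th c`, `phL (th c) = id`, and `ev0_iot` for `s = algebraMap D.F D.S a` which is
`C (algebraMap D.F D.L a)` (`rfl`). `ft_wt1`: `gam_ft`, `map_one`, and `ft 1 (iot (C l) • z) = ft (C l) z = iot (C l) • ft 1 z`.
`ft_wt`: `ft_eq`, `iot_wt` (MSA/DeS). `wts_fr`: span: every `ft s z` is a sum of `ft s_k z_n` with `s_k` homogeneous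
(`sum_homogeneousComponent`) and `z_n` a weight vector (`wt_decomp`); for `tau` and `taup` decompose an element `x` of
weight `n` of `Fr D Z` as follows: the sum of the pure tensors `ft s z` with `s` homogeneous of degree `k`, `z ∈ wt Z (n - k)`
(collect the terms of weight `n`, the other ones cancel by `wt_indep`): `fr_wt_span`. On such a tensor
`gam tau • ft s z = ft (ph tau s) (gam tau • z)` (`D.X.sig_hom` for the degree) and `(gam tau)^p • ft s z = ft (sig^[p] s) ((gam tau)^p • z)
= ft (C (b^k) * s) (iot (algebraMap (b^(n-k))) • z)` (`D.X.sig_iter` in MSX/Sig, see `wts_sr` in MSA/HfS).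
-/

set_option autoImplicit false
set_option linter.unusedSectionVars false

noncomputable section

namespace MSA

universe u v w

open MvPolynomial

namespace Dat

variable (D : Dat.{u})

theorem phL_cc (g : Gn D.F) (s : D.S) :
    constantCoeff (D.ph g s) = D.phL g (constantCoeff s) := by
  have h : (constantCoeff.comp (D.ph g) : D.S →+* D.L) = (D.phL g).comp constantCoeff := by
    refine MvPolynomial.ringHom_ext ?_ ?_
    · intro c
      rw [RingHom.comp_apply, D.ph_C, RingHom.comp_apply, constantCoeff_C, constantCoeff_C]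
    · intro i
      rw [RingHom.comp_apply, RingHom.comp_apply, constantCoeff_X, map_zero]
      cases g with
      | tau =>
        have h1 : D.ph Gn.tau (MvPolynomial.X i) =
            C (algebraMap D.F D.L (D.cf (i + 1))) * MvPolynomial.X (i + 1) :=
          D.tauS_X i
        rw [h1, map_mul, constantCoeff_X, mul_zero]
      | th c =>
        have h1 : D.ph (Gn.th c) (MvPolynomial.X i) =
            C (algebraMap D.F D.L (c : D.F)) * MvPolynomial.X i := by
          simp [ph, thS]
        rw [h1, map_mul, constantCoeff_X, mul_zero]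
  exact congrArg (fun f : D.S →+* D.L => f s) h

private theorem iot_mP_aux {X : Type u} [AddCommGroup X] [Module D.R X] (s : D.S) :
    ∀ x : X, iot D.ph (s - C (constantCoeff s)) • x ∈ D.mP X := by
  induction s using MvPolynomial.induction_on with
  | C a =>
    intro x
    rw [constantCoeff_C, sub_self, map_zero, zero_smul]
    exact Submodule.zero_mem _
  | add f g hf hg =>
    intro x
    have h : f + g - C (constantCoeff (f + g)) =
        (f - C (constantCoeff f)) + (g - C (constantCoeff g)) := by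
      rw [map_add, map_add]
      ring
    rw [h, map_add, add_smul]
    exact Submodule.add_mem _ (hf x) (hg x)
  | mul_X f n hf =>
    intro x
    have h : f * MvPolynomial.X n - C (constantCoeff (f * MvPolynomial.X n)) =
        MvPolynomial.X n * f := by
      rw [map_mul, constantCoeff_X, mul_zero, map_zero, sub_zero, mul_comm]
    rw [h, map_mul, mul_smul]
    exact D.mem_mP_of n _

theorem iot_mP {X : Type u} [AddCommGroup X] [Module D.R X] {s : D.S}
    (hs : constantCoeff s = 0) (x : X) : iot D.ph s • x ∈ D.mP X := by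
  have h := D.iot_mP_aux s x
  rw [hs, map_zero, sub_zero] at h
  exact h

end Dat

namespace Fr

variable {D : Dat.{u}} {Z : Type u} [AddCommGroup Z] [Module D.R Z]

/-- evaluation at the origin -/
def ev0 : Fr D Z →+ Z := bi
    { toFun := fun s =>
        { toFun := fun z => iot D.ph (C (constantCoeff s)) • z
          map_zero' := smul_zero _
          map_add' := smul_add _ }
      map_zero' := by
        refine AddMonoidHom.ext fun z => ?_
        show iot D.ph (C (constantCoeff 0)) • z = 0
        rw [map_zero, map_zero, map_zero, zero_smul]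
      map_add' := fun x y => by
        refine AddMonoidHom.ext fun z => ?_
        show iot D.ph (C (constantCoeff (x + y))) • z =
          iot D.ph (C (constantCoeff x)) • z + iot D.ph (C (constantCoeff y)) • z
        rw [map_add, map_add, map_add, add_smul] }
    (fun l s z => by
      show iot D.ph (C (constantCoeff (C l * s))) • z =
        iot D.ph (C (constantCoeff s)) • iot D.ph (C l) • z
      rw [← mul_smul, ← map_mul, ← map_mul, map_mul, constantCoeff_C, mul_comm])

theorem ev0_ft (s : D.S) (z : Z) :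
    ev0 (ft s z : Fr D Z) = iot D.ph (C (constantCoeff s)) • z := rfl

theorem ev0_ft1 (z : Z) : ev0 (ft 1 z : Fr D Z) = z := by
  rw [ev0_ft, map_one, map_one, map_one, one_smul]

theorem ev0_iot (t : D.S) (x : Fr D Z) :
    ev0 (iot D.ph t • x) = iot D.ph (C (constantCoeff t)) • ev0 x := by
  refine ind (P := fun x => ev0 (iot D.ph t • x) = iot D.ph (C (constantCoeff t)) • ev0 x) x
    ?_ ?_ ?_
  · rw [smul_zero, map_zero, smul_zero]
  · intro s z
    rw [iot_ft, ev0_ft, ev0_ft, map_mul, map_mul, map_mul, mul_smul]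
  · intro x y hx hy
    rw [smul_add, map_add, map_add, smul_add, hx, hy]

theorem ev0_gam (g : Gn D.F) (x : Fr D Z) : ev0 (gam D.ph g • x) = gam D.ph g • ev0 x := by
  refine ind (P := fun x => ev0 (gam D.ph g • x) = gam D.ph g • ev0 x) x ?_ ?_ ?_
  · rw [smul_zero, map_zero, smul_zero]
  · intro s z
    rw [gam_ft, ev0_ft, ev0_ft, D.phL_cc, gam_C]
  · intro x y hx hy
    rw [smul_add, map_add, map_add, smul_add, hx, hy]

theorem ev0_mP {x : Fr D Z} (hx : x ∈ D.mP (Fr D Z)) : ev0 x = 0 := by
  have h : D.mP (Fr D Z) ≤ mkSub (ev0 : Fr D Z →+ Z).ker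
      (fun s m hm => by
        rw [AddMonoidHom.mem_ker] at hm ⊢
        rw [ev0_iot, hm, smul_zero])
      (fun g m hm => by
        rw [AddMonoidHom.mem_ker] at hm ⊢
        rw [ev0_gam, hm, smul_zero]) := by
    refine Submodule.span_le.2 ?_
    rintro _ ⟨j, y, rfl⟩
    show ev0 (iot D.ph (MvPolynomial.X j) • y) = 0
    rw [ev0_iot, constantCoeff_X, map_zero, map_zero, zero_smul]
  exact h hx

theorem sub_ev0 (x : Fr D Z) : x - ft 1 (ev0 x) ∈ D.mP (Fr D Z) := by
  refine ind (P := fun x => x - ft 1 (ev0 x) ∈ D.mP (Fr D Z)) x ?_ ?_ ?_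
  · rw [map_zero, ft_zero_right, sub_zero]
    exact Submodule.zero_mem _
  · intro s z
    have h : (ft s z - ft 1 (ev0 (ft s z)) : Fr D Z) =
        iot D.ph (s - C (constantCoeff s)) • ft 1 z := by
      rw [ev0_ft, ← ft_C, mul_one, map_sub, sub_smul, ← ft_eq, ← ft_eq]
    rw [h]
    exact D.iot_mP (by rw [map_sub, constantCoeff_C, sub_self]) _
  · intro x y hx hy
    have h : x + y - ft 1 (ev0 (x + y)) = (x - ft 1 (ev0 x)) + (y - ft 1 (ev0 y)) := by
      rw [map_add, ft_add_right]
      abel
    rw [h]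
    exact Submodule.add_mem _ hx hy

theorem ev0_eq_zero (x : Fr D Z) : ev0 x = 0 ↔ x ∈ D.mP (Fr D Z) := by
  constructor
  · intro h
    have h1 := sub_ev0 x
    rw [h, ft_zero_right, sub_zero] at h1
    exact h1
  · exact ev0_mP

theorem ev0_wt {n : ℤ} {x : Fr D Z} (hx : x ∈ wt D.F D.ph (Fr D Z) n) :
    ev0 x ∈ wt D.F D.ph Z n := by
  intro c
  have h1 := congrArg (fun y : Fr D Z => ev0 y) (hx c)
  rw [ev0_iot] at h1
  have h2 : ev0 (gam D.ph (HasTh.th c) • x) = gam D.ph (HasTh.th c) • ev0 x := ev0_gam (Gn.th c) x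
  rw [h2] at h1
  have h3 : (C (constantCoeff (algebraMap D.F D.S ((c ^ n : D.Fˣ) : D.F))) : D.S) =
      algebraMap D.F D.S ((c ^ n : D.Fˣ) : D.F) := by
    show C (constantCoeff (C (algebraMap D.F D.L ((c ^ n : D.Fˣ) : D.F)))) = _
    rw [constantCoeff_C]
    rfl
  rw [h3] at h1
  exact h1

theorem ft_wt1 {n : ℤ} {z : Z} (hz : z ∈ wt D.F D.ph Z n) :
    (ft 1 z : Fr D Z) ∈ wt D.F D.ph (Fr D Z) n := by
  intro c
  have h1 : gam D.ph (HasTh.th c) • (ft 1 z : Fr D Z) =
      ft (D.ph (Gn.th c) 1) (gam D.ph (HasTh.th c) • z) := gam_ft (Gn.th c) 1 z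
  rw [h1, map_one, hz c]
  have h2 : algebraMap D.F D.S ((c ^ n : D.Fˣ) : D.F) =
      C (algebraMap D.F D.L ((c ^ n : D.Fˣ) : D.F)) := rfl
  rw [h2, iot_ft, ft_C]

theorem ft_wt {n : ℤ} {z : Z} (hz : z ∈ wt D.F D.ph Z n) {k : ℕ} {s : D.S}
    (hs : s.IsHomogeneous k) : (ft s z : Fr D Z) ∈ wt D.F D.ph (Fr D Z) (n + k) := by
  rw [ft_eq]
  exact D.iot_wt hs (ft_wt1 hz)

/-- sums of pure tensors of homogeneous elements of total weight `n` -/
private def FA (D : Dat.{u}) (Z : Type u) [AddCommGroup Z] [Module D.R Z] (n : ℤ) :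
    AddSubgroup (Fr D Z) := AddSubgroup.closure
      {y : Fr D Z | ∃ (k : ℕ) (s : D.S) (z : Z), s.IsHomogeneous k ∧
        z ∈ wt D.F D.ph Z (n - k) ∧ y = ft s z}

private theorem FA_wt (n : ℤ) : FA D Z n ≤ wt D.F D.ph (Fr D Z) n := by
  refine (AddSubgroup.closure_le _).2 ?_
  rintro _ ⟨k, s, z, hs, hz, rfl⟩
  have h := ft_wt hz hs
  rw [sub_add_cancel] at h
  exact h

private theorem FA_top (h : Wts D.F D.ph Z D.p D.b) (x : Fr D Z) : x ∈ ⨆ n, FA D Z n := by
  refine ind (P := fun x => x ∈ ⨆ n, FA D Z n) x ?_ ?_ ?_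
  · exact AddSubgroup.zero_mem _
  · intro s z
    obtain ⟨f, hf, hfz⟩ := wt_decomp h z
    have h1 : (ft s z : Fr D Z) = ∑ k ∈ Finset.range (s.totalDegree + 1),
        ∑ n ∈ f.support, ft (homogeneousComponent k s) (f n) := by
      have h2 : ∀ t : D.S, (ft t z : Fr D Z) = ∑ n ∈ f.support, ft t (f n) := by
        intro t
        let g : Z →+ Fr D Z :=
          { toFun := fun z => ft t z
            map_zero' := ft_zero_right t
            map_add' := ft_add_right t }
        have h3 : g z = ∑ n ∈ f.support, g (f n) := by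
          rw [← map_sum]
          exact congrArg g hfz.symm
        exact h3
      let g' : D.S →+ Fr D Z :=
        { toFun := fun t => ft t z
          map_zero' := ft_zero_left z
          map_add' := fun a b => ft_add_left a b z }
      have h4 : g' s = ∑ k ∈ Finset.range (s.totalDegree + 1), g' (homogeneousComponent k s) := by
        rw [← map_sum, MvPolynomial.sum_homogeneousComponent]
      have h5 : (ft s z : Fr D Z) = ∑ k ∈ Finset.range (s.totalDegree + 1),
          ft (homogeneousComponent k s) z := h4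
      rw [h5]
      exact Finset.sum_congr rfl fun k _ => h2 _
    rw [h1]
    refine AddSubgroup.sum_mem _ fun k _ => AddSubgroup.sum_mem _ fun n _ => ?_
    refine AddSubgroup.mem_iSup_of_mem (n + k) (AddSubgroup.subset_closure ?_)
    refine ⟨k, _, _, homogeneousComponent_isHomogeneous k s, ?_, rfl⟩
    rw [add_sub_cancel_right]
    exact hf n
  · intro x y hx hy
    exact AddSubgroup.add_mem _ hx hy

private theorem FA_decomp {x : Fr D Z} (hx : x ∈ ⨆ n, FA D Z n) :
    ∃ f : ℤ →₀ Fr D Z, (∀ n, f n ∈ FA D Z n) ∧ f.sum (fun _ x => x) = x := by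
  classical
  induction hx using AddSubgroup.iSup_induction' with
  | hp i x hx =>
    refine ⟨Finsupp.single i x, ?_, ?_⟩
    · intro n
      by_cases hn : n = i
      · subst hn
        rw [Finsupp.single_eq_same]
        exact hx
      · rw [Finsupp.single_eq_of_ne hn]
        exact AddSubgroup.zero_mem _
    · rw [Finsupp.sum_single_index rfl]
  | h1 =>
    refine ⟨0, ?_, ?_⟩
    · intro n
      rw [Finsupp.zero_apply]
      exact AddSubgroup.zero_mem _
    · rw [Finsupp.sum_zero_index]
  | hadd x y hx hy h1 h2 =>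
    obtain ⟨f, hf, hf2⟩ := h1
    obtain ⟨g, hg, hg2⟩ := h2
    refine ⟨f + g, ?_, ?_⟩
    · intro n
      rw [Finsupp.add_apply]
      exact AddSubgroup.add_mem _ (hf n) (hg n)
    · rw [Finsupp.sum_add_index' (fun _ => rfl) (fun _ _ _ => rfl), hf2, hg2]

/-- Weight vectors are sums of pure tensors of homogeneous elements. -/
theorem fr_wt_span (h : Wts D.F D.ph Z D.p D.b) {n : ℤ} {x : Fr D Z}
    (hx : x ∈ wt D.F D.ph (Fr D Z) n) : x ∈ AddSubgroup.closure
      {y : Fr D Z | ∃ (k : ℕ) (s : D.S) (z : Z), s.IsHomogeneous k ∧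
        z ∈ wt D.F D.ph Z (n - k) ∧ y = ft s z} := by
  obtain ⟨f, hf, hfx⟩ := FA_decomp (FA_top h x)
  have h1 : (f - Finsupp.single n x : ℤ →₀ Fr D Z) = 0 := by
    apply wt_indep (F := D.F) (φ := D.ph)
    · intro k
      rw [Finsupp.sub_apply]
      refine AddSubgroup.sub_mem _ (FA_wt k (hf k)) ?_
      by_cases hk : k = n
      · subst hk
        rw [Finsupp.single_eq_same]
        exact hx
      · rw [Finsupp.single_eq_of_ne hk]
        exact AddSubgroup.zero_mem _
    · rw [Finsupp.sum_sub_index (fun _ _ _ => rfl), Finsupp.sum_single_index rfl, hfx, sub_self]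
  have h2 := DFunLike.congr_fun h1 n
  rw [Finsupp.sub_apply, Finsupp.single_eq_same, Finsupp.zero_apply, sub_eq_zero] at h2
  have h3 := hf n
  rw [h2] at h3
  exact h3

private theorem ft_tau_iter (k : ℕ) (s : D.S) (z : Z) :
    (gam D.ph (HasTh.tau D.F)) ^ k • (ft s z : Fr D Z) =
      ft (D.X.sig^[k] s) ((gam D.ph (HasTh.tau D.F)) ^ k • z) := by
  induction k with
  | zero => rw [pow_zero, one_smul, one_smul]; rfl
  | succ k ih =>
    rw [pow_succ', mul_smul, ih, mul_smul, Function.iterate_succ_apply']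
    exact gam_ft Gn.tau _ _

theorem wts_fr (h : Wts D.F D.ph Z D.p D.b) : Wts D.F D.ph (Fr D Z) D.p D.b := by
  refine ⟨?_, ?_, ?_⟩
  · rw [eq_top_iff]
    intro x _
    have h1 : (⨆ n, FA D Z n) ≤ ⨆ n, wt D.F D.ph (Fr D Z) n :=
      iSup_mono fun n => FA_wt n
    exact h1 (FA_top h x)
  · intro n x hx
    have h1 := fr_wt_span h hx
    induction h1 using AddSubgroup.closure_induction with
    | mem y hy =>
      obtain ⟨k, s, z, hs, hz, rfl⟩ := hy
      have h2 : gam D.ph (HasTh.tau D.F) • (ft s z : Fr D Z) =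
          ft (D.ph Gn.tau s) (gam D.ph (HasTh.tau D.F) • z) := gam_ft Gn.tau s z
      rw [h2]
      have h3 := ft_wt (h.tau _ z hz) (D.X.sig_hom hs)
      rw [sub_add_cancel] at h3
      exact h3
    | zero =>
      rw [smul_zero]
      exact AddSubgroup.zero_mem _
    | add y y' hy hy' e e' =>
      rw [smul_add]
      exact AddSubgroup.add_mem _ (e (FA_wt n hy)) (e' (FA_wt n hy'))
    | neg y hy e =>
      rw [smul_neg]
      exact AddSubgroup.neg_mem _ (e (FA_wt n hy))
  · intro n x hx
    have h1 := fr_wt_span h hx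
    induction h1 using AddSubgroup.closure_induction with
    | mem y hy =>
      obtain ⟨k, s, z, hs, hz, rfl⟩ := hy
      have h3 : ∀ m : ℤ, algebraMap D.F D.S (D.b ^ m) = C (D.X.bL ^ m) := by
        intro m
        show C (algebraMap D.F D.L (D.b ^ m)) = C (D.X.bL ^ m)
        rw [map_zpow₀ (algebraMap D.F D.L)]
        rfl
      have h4 : D.X.sig^[D.p] s = C (D.X.bL ^ k) * s := D.X.sig_iter hs
      rw [ft_tau_iter, h.taup _ z hz, h4, h3, h3, ← ft_C, iot_ft]
      congr 1
      have h5 : D.X.bL ^ n = D.X.bL ^ (n - (k : ℤ)) * D.X.bL ^ k := by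
        rw [← zpow_natCast, ← zpow_add₀ D.X.bL_ne, sub_add_cancel]
      rw [h5, map_mul, mul_assoc]
    | zero => rw [smul_zero, smul_zero]
    | add y y' hy hy' e e' =>
      rw [smul_add, smul_add, e (FA_wt n hy), e' (FA_wt n hy')]
    | neg y hy e => rw [smul_neg, smul_neg, e (FA_wt n hy)]

end Fr

end MSA
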