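import Mathlib
import Pool.Agent.MSA.Rev

/-!
# The homogeneous basis of `S ⊗_L Z` (MS, PART RES, section 3a)

PROOFS.
`wL_int`: `UL D Z` is the internal direct sum of the weight spaces `wL Z n`
(`DirectSum.isInternal_submodule_iff_iSupIndep_and_iSup_eq_top`): independent: `iSupIndep_of_dfinsupp_lsum_injective`, and
`wt_indep` (for `f : Π₀ n, wL Z n` with sum `0` take the `Finsupp` `n ↦ f n` with the same support); the supremum is `⊤` by
`h.wts.span` (`AddSubgroup.iSup_induction'` or `wt_decomp`).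
`zb`: the collected basis (`DirectSum.IsInternal.collectedBasis`) of the bases `Module.finBasis D.L (D.wL Z n)`, indexed by
`Σ n, Fin (hf Z n)` (`hf Z n` is `finrank (wL Z n)` by `rfl`); `zb_mem`: `DirectSum.IsInternal.collectedBasis_coe`.
`zb_repr`: for `z` of weight `n` the coordinates with `j.1 ≠ n` vanish: expand `z` in the basis of `wL Z n`.
`toT_iot`: the `S`-module structure of the tensor product `D.S ⊗[D.L] UL D Z` (left factor) is given by `iot`: `Fr.ind`, `iot_ft`
(`TensorProduct.smul_tmul'`; the type `Fr D Z` is the tensor product by definition).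
`fr_fbs`: the basis `(zb).baseChange D.S` (`Algebra.TensorProduct.basis` or `Module.Basis.baseChange`) of `D.S ⊗[D.L] UL D Z`
over `D.S`, its vectors are `1 ⊗ zb i = ft 1 (zb i)`. `w i = ft 1 (zb i)`, `n i = i.1`, `c i = zb.repr (gam tau • zb i)`.
`hw`: `ft_wt1`. `hc`: `zb_repr`, `h.wts.tau`. `tau`: `gam_ft`, `map_one`, expand `gam tau • zb i` in the basis (`ft 1` is additive and
`ft 1 (iot (C l) • z) = iot (C l) • ft 1 z`). `taup`: `(gam tau)^k • ft 1 z = ft 1 ((gam tau)^k • z)` by induction, `h.wts.taup`.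
`ind`, `span`: linear independence and spanning of the base changed basis (`toT_iot`).
`fr_ix_fin`: `hf Z n = 0` for `n < n₀`, so the index set is contained in the finite union over `n₀ ≤ n ≤ N`.
-/

set_option autoImplicit false
set_option linter.unusedSectionVars false

noncomputable section

namespace MSA

universe u v w

open MvPolynomial TensorProduct

namespace Dat

variable (D : Dat.{u}) {Z : Type u} [AddCommGroup Z] [Module D.R Z]

theorem wL_int (h : D.IsW Z) : DirectSum.IsInternal (fun n : ℤ => D.wL Z n) := by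
  classical
  refine DirectSum.isInternal_submodule_of_iSupIndep_of_iSup_eq_top ?_ ?_
  · rw [iSupIndep_iff_finsetSum_eq_zero_imp_eq_zero]
    intro s v hv h0 i hi
    let f : ℤ →₀ Z := Finsupp.onFinset s (fun n => if n ∈ s then (v n : Z) else 0) (by
      intro n hn
      by_contra hcon
      exact hn (if_neg hcon))
    have hf : ∀ n, f n = if n ∈ s then (v n : Z) else 0 := fun n => rfl
    have h1 : f.sum (fun _ x => x) = 0 := by
      rw [Finsupp.sum_of_support_subset f (s := s) Finsupp.support_onFinset_subset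
        (fun _ x => x) (fun _ _ => rfl)]
      refine Eq.trans (Finset.sum_congr rfl fun n hn => ?_) h0
      rw [hf, if_pos hn]
    have h2 := wt_indep (F := D.F) (φ := D.ph) f (fun n => by
      rw [hf]
      by_cases hn : n ∈ s
      · rw [if_pos hn]
        exact hv n hn
      · rw [if_neg hn]
        exact AddSubgroup.zero_mem _) h1
    have h3 : f i = 0 := by rw [h2]; rfl
    rw [hf, if_pos hi] at h3
    exact h3
  · rw [eq_top_iff]
    intro x _
    obtain ⟨f, hf, hfx⟩ := wt_decomp h.wts (x : Z)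
    exact (Submodule.mem_iSup_iff_exists_finsupp (fun n : ℤ => D.wL Z n) x).2 ⟨f, hf, hfx⟩

/-- A homogeneous basis of `Z` over `L`. -/
theorem exists_zb (h : D.IsW Z) :
    ∃ e : Module.Basis (Σ n : ℤ, Fin (D.hf Z n)) D.L (UL D Z),
      (∀ i, (e i : Z) ∈ wt D.F D.ph Z i.1) ∧
      ∀ (n : ℤ) (z : Z), z ∈ wt D.F D.ph Z n → ∀ j, e.repr z j ≠ 0 → j.1 = n := by
  have hfin : ∀ n, Module.Finite D.L (D.wL Z n) := fun n => (D.fd_wL n).1 (h.fd n)
  let b : ∀ n : ℤ, Module.Basis (Fin (D.hf Z n)) D.L (D.wL Z n) := fun n =>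
    Module.finBasis D.L (D.wL Z n)
  refine ⟨(D.wL_int h).collectedBasis b, fun i => (D.wL_int h).collectedBasis_mem b i, ?_⟩
  rintro n z hz ⟨m, a⟩ hj
  by_contra hcon
  exact hj ((D.wL_int h).collectedBasis_repr_of_mem_ne b (Ne.symm hcon) hz)

theorem fr_ix_fin (h : D.IsW Z) (N : ℤ) :
    Finite {i : Σ n : ℤ, Fin (D.hf Z n) // i.1 ≤ N} := by
  obtain ⟨n₀, hn₀⟩ := h.bd
  have h0 : ∀ n < n₀, D.hf Z n = 0 := by
    intro n hn
    have hb : D.wL Z n = ⊥ := by
      rw [eq_bot_iff]
      intro x hx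
      have hx' : ∀ z : Z, z ∈ wt D.F D.ph Z n → z = 0 := by
        intro z hz
        rw [hn₀ n hn, AddSubgroup.mem_bot] at hz
        exact hz
      exact (Submodule.mem_bot D.L).2 (hx' x hx)
    rw [D.hf_wL, hb, finrank_bot]
  have hge : ∀ i : {i : Σ n : ℤ, Fin (D.hf Z n) // i.1 ≤ N}, n₀ ≤ i.1.1 := by
    intro i
    by_contra hcon
    have h1 := h0 i.1.1 (not_le.1 hcon)
    have h2 := i.1.2.isLt
    omega
  let f : {i : Σ n : ℤ, Fin (D.hf Z n) // i.1 ≤ N} →
      Σ n : Set.Icc n₀ N, Fin (D.hf Z (n : ℤ)) := fun i => ⟨⟨i.1.1, hge i, i.2⟩, i.1.2⟩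
  refine Finite.of_injective f ?_
  rintro ⟨⟨n, a⟩, h1⟩ ⟨⟨n', a'⟩, h1'⟩ e
  simp only [f, Sigma.mk.injEq, Subtype.mk.injEq] at e
  obtain ⟨rfl, e2⟩ := e
  have e3 := eq_of_heq e2
  subst e3
  rfl

end Dat

namespace Fr

variable {D : Dat.{u}} {Z : Type u} [AddCommGroup Z] [Module D.R Z]

/-- the induced module as a tensor product -/
def toT : Fr D Z ≃+ TensorProduct D.L D.S (UL D Z) := AddEquiv.refl _

theorem toT_ft (s : D.S) (z : Z) :
    toT (ft s z : Fr D Z) = TensorProduct.tmul D.L (N := UL D Z) s z := rfl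

/-- the structure of `S`-module of the tensor product -/
theorem toT_iot (s : D.S) (x : Fr D Z) : toT (iot D.ph s • x) = s • toT x := by
  refine ind (P := fun x => toT (iot D.ph s • x) = s • toT x) x ?_ ?_ ?_
  · rw [smul_zero, map_zero, smul_zero]
  · intro t z
    rw [iot_ft, toT_ft, toT_ft, TensorProduct.smul_tmul', smul_eq_mul]
  · intro x y hx hy
    rw [smul_add, map_add, map_add, smul_add, hx, hy]

theorem pow_ft1 (g : Gn D.F) (k : ℕ) (z : Z) :
    (gam D.ph g) ^ k • (ft 1 z : Fr D Z) = ft 1 ((gam D.ph g) ^ k • z) := by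
  induction k with
  | zero => rw [pow_zero, one_smul, one_smul]
  | succ k ih => rw [pow_succ', mul_smul, ih, gam_ft, map_one, mul_smul]

/-- `z ↦ 1 ⊗ z` -/
private def ft1A : Z →+ Fr D Z where
  toFun z := ft 1 z
  map_zero' := ft_zero_right _
  map_add' := ft_add_right _

private theorem ft1_C (l : D.L) (z : Z) :
    (ft 1 (iot D.ph (C l) • z) : Fr D Z) = iot D.ph (C l) • ft 1 z := by
  rw [← ft_C, iot_ft]

theorem fr_fbs (h : D.IsW Z) : ∃ hb : Fbs D (Fr D Z) (Σ n : ℤ, Fin (D.hf Z n)),
    (∀ i, hb.n i = i.1) ∧ ∀ i, ∃ z ∈ wt D.F D.ph Z i.1, hb.w i = ft 1 z := by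
  obtain ⟨e, he1, he2⟩ := D.exists_zb h
  let B := e.baseChange D.S
  have hB : ∀ i, B i = toT (ft 1 (e i : Z) : Fr D Z) := fun i => by
    rw [toT_ft]
    exact e.baseChange_apply D.S i
  have hlin : ∀ f : (Σ n : ℤ, Fin (D.hf Z n)) →₀ D.S,
      toT (f.sum (fun i s => iot D.ph s • (ft 1 (e i : Z) : Fr D Z))) =
        Finsupp.linearCombination D.S B f := by
    intro f
    rw [Finsupp.linearCombination_apply, Finsupp.sum, Finsupp.sum, map_sum]
    refine Finset.sum_congr rfl fun i _ => ?_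
    rw [toT_iot, hB]
  refine ⟨{ w := fun i => ft 1 (e i : Z)
            n := fun i => i.1
            c := fun i => e.repr (gam D.ph Gn.tau • (e i : Z) : Z)
            hw := fun i => ft_wt1 (he1 i)
            hc := fun i j hj => he2 i.1 _ (h.wts.tau i.1 _ (he1 i)) j hj
            tau := fun i => ?_
            taup := fun i => ?_
            ind := fun f hf => ?_
            span := fun x => ?_ }, fun i => rfl, fun i => ⟨e i, he1 i, rfl⟩⟩
  · rw [gam_ft, map_one]
    have h1 := e.linearCombination_repr (gam D.ph Gn.tau • (e i : Z) : Z)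
    rw [Finsupp.linearCombination_apply] at h1
    have h2 := congrArg (fun z : Z => (ft1A z : Fr D Z)) h1.symm
    refine Eq.trans h2 ?_
    show ft1A (Finsupp.sum _ _) = _
    unfold Finsupp.sum
    rw [map_sum]
    exact Finset.sum_congr rfl fun j _ => ft1_C _ _
  · rw [pow_ft1]
    have h1 := h.wts.taup i.1 _ (he1 i)
    have h2 : (gam D.ph Gn.tau) ^ D.p • (e i : Z) =
        iot D.ph (C (algebraMap D.F D.L (D.b ^ i.1))) • (e i : Z) := h1
    refine (congrArg (fun z : Z => (ft 1 z : Fr D Z)) h2).trans ?_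
    exact ft1_C _ _
  · have h1 := hlin f
    rw [hf, map_zero] at h1
    exact (linearIndependent_iff.1 B.linearIndependent) f h1.symm
  · refine ⟨B.repr (toT x), toT.injective ?_⟩
    rw [hlin, B.linearCombination_repr]

end Fr

end MSA
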