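import Mathlib
import Pool.Agent.MSA.Rtk

/-!
# Cycles of `K ⊗ C` (MS, PART RES, 5e)

Let `N0`, `N1` be predicates on `C.X0`, `C.X1` which hold for `0`, such that every cycle `x : K.Tot C.Xi` with
`Ni (x ∅)` is a boundary. Then every cycle `(a, b)` of `K ⊗ C` with `N0 (a ∅)` (degree `0`), `N1 (b ∅)` (degree `1`) is the
boundary of a pair `(a', b')` with `a' ∅ = 0`, `b' ∅ = 0`.

PROOF. On all pairs, for `(a, b)` supported on sets with at least `k` elements, by descending induction on `k`. `crd k a` is a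
cycle: its boundary at `A` with `k - 1` elements is `K.d a A = - C.d1 (b A) = 0`. So `crd k a = K.d y`, take
`a' = crd (k + 1) y`; `b'` with `- K.d b' = crd k b`. Then `(a, b) - K.tkD C (a', b')` is supported on sets with more than
`k` elements. Parity: `ppj`, `ppj_d`.
-/

set_option autoImplicit false
set_option linter.unusedSectionVars false

noncomputable section

namespace MSA

universe u v w

variable {F : Type u} [Field F] {S : Type u} [CommRing S] [Algebra F S] {Γ : Type u}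
variable {φ : Γ → S →+* S} [FixF F φ] (K : KS F φ)
variable {C : Ch.{u} (Rg φ)} {N0 : C.X0 → Prop} {N1 : C.X1 → Prop}

private theorem rt2_low {Z : Type u} [AddCommGroup Z] [Module (Rg φ) Z] {N : Z → Prop} (z : N 0)
    (h : ∀ x : K.Tot Z, K.d x = 0 → N (K.ev Z x) → ∃ y, K.d y = x) (k : ℕ) (a : K.Tot Z)
    (hN : N (K.ev Z a)) (hd : ∀ A : Finset K.J, A.card + 1 = k → K.d a A = 0) :
    ∃ a' : K.Tot Z, K.d a' = K.crd k a ∧ ∀ A : Finset K.J, A.card ≠ k + 1 → a' A = 0 := by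
  have h1 : K.d (K.crd k a) = 0 := by
    funext A
    by_cases hA : A.card + 1 = k
    · have h2 : K.d (K.crd k a) A = K.d a A := K.d_congr fun B hB => by
        rw [K.crd_apply, if_pos (by omega)]
      rw [h2, hd A hA]
      rfl
    · have h2 : K.d (K.crd k a) A = K.d (0 : K.Tot Z) A := K.d_congr fun B hB => by
        rw [K.crd_apply, if_neg (by omega)]
        rfl
      rw [h2, map_zero]
  have h2 : N (K.ev Z (K.crd k a)) := by
    have h3 : K.ev Z (K.crd k a) = if (∅ : Finset K.J).card = k then a ∅ else 0 := rfl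
    rw [h3]
    by_cases hk : (∅ : Finset K.J).card = k
    · rw [if_pos hk]
      exact hN
    · rw [if_neg hk]
      exact z
  obtain ⟨y, hy⟩ := h _ h1 h2
  refine ⟨K.crd (k + 1) y, ?_, fun A hA => ?_⟩
  · rw [← K.crd_d, hy]
    funext A
    rw [K.crd_apply, K.crd_apply]
    split_ifs
    · rfl
    · rfl
  · rw [K.crd_apply, if_neg hA]

private theorem rt2_ind (z0 : N0 0) (z1 : N1 0)
    (h0 : ∀ x : K.Tot C.X0, K.d x = 0 → N0 (K.ev C.X0 x) → ∃ y, K.d y = x)
    (h1 : ∀ x : K.Tot C.X1, K.d x = 0 → N1 (K.ev C.X1 x) → ∃ y, K.d y = x) (m : ℕ) :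
    ∀ k : ℕ, k + m = Fintype.card K.J + 1 → ∀ (a : K.Tot C.X0) (b : K.Tot C.X1),
    (∀ A : Finset K.J, A.card < k → a A = 0) → (∀ A : Finset K.J, A.card < k → b A = 0) →
    K.tkD C (a, b) = 0 → N0 (K.ev C.X0 a) → N1 (K.ev C.X1 b) →
    ∃ (a' : K.Tot C.X0) (b' : K.Tot C.X1), K.tkD C (a', b') = (a, b) ∧ a' ∅ = 0 ∧ b' ∅ = 0 := by
  classical
  induction m with
  | zero =>
    intro k hk a b ha hb _ _ _
    have e1 : a = 0 := by
      funext A
      exact ha A (by have := Finset.card_le_univ A; omega)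
    have e2 : b = 0 := by
      funext A
      exact hb A (by have := Finset.card_le_univ A; omega)
    exact ⟨0, 0, by rw [e1, e2]; exact map_zero (K.tkD C), rfl, rfl⟩
  | succ m ih =>
    intro k hk a b ha hb hd hna hnb
    have hd0 : K.d a + K.tmap C.d1 b = 0 := congrArg Prod.fst hd
    have hd1 : - K.d b + K.tmap C.d0 a = 0 := congrArg Prod.snd hd
    have hda : ∀ A : Finset K.J, A.card + 1 = k → K.d a A = 0 := by
      intro A hA
      have e1 : K.d a A + C.d1 (b A) = 0 := congrFun hd0 A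
      rwa [hb A (by omega), map_zero, add_zero] at e1
    have hdb : ∀ A : Finset K.J, A.card + 1 = k → K.d b A = 0 := by
      intro A hA
      have e1 : - K.d b A + C.d0 (a A) = 0 := congrFun hd1 A
      rwa [ha A (by omega), map_zero, add_zero, neg_eq_zero] at e1
    obtain ⟨a', ha', ha0⟩ := rt2_low K z0 h0 k a hna hda
    obtain ⟨b₀, hb₀, hb0⟩ := rt2_low K z1 h1 k b hnb hdb
    obtain ⟨b', hb'⟩ : ∃ b', b' = - b₀ := ⟨_, rfl⟩
    have hb1 : - K.d b' = K.crd k b := by rw [hb', map_neg, neg_neg, hb₀]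
    have hb2 : ∀ A : Finset K.J, A.card ≠ k + 1 → b' A = 0 := by
      intro A hA
      rw [hb']
      show - b₀ A = 0
      rw [hb0 A hA, neg_zero]
    have va : ∀ A : Finset K.J, A.card < k + 1 → a A - (K.crd k a A + C.d1 (b' A)) = 0 := by
      intro A hA
      rw [hb2 A (by omega), map_zero, add_zero, K.crd_apply]
      by_cases hk' : A.card = k
      · rw [if_pos hk', sub_self]
      · rw [if_neg hk', sub_zero]
        exact ha A (by omega)
    have vb : ∀ A : Finset K.J, A.card < k + 1 → b A - (K.crd k b A + C.d0 (a' A)) = 0 := by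
      intro A hA
      rw [ha0 A (by omega), map_zero, add_zero, K.crd_apply]
      by_cases hk' : A.card = k
      · rw [if_pos hk', sub_self]
      · rw [if_neg hk', sub_zero]
        exact hb A (by omega)
    have hc : (∅ : Finset K.J).card < k + 1 := by
      rw [Finset.card_empty]
      omega
    obtain ⟨a'', b'', g1, g2, g3⟩ := ih (k + 1) (by omega) (a - (K.d a' + K.tmap C.d1 b'))
      (b - (- K.d b' + K.tmap C.d0 a')) (by
        intro A hA
        rw [ha']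
        exact va A hA) (by
        intro A hA
        rw [hb1]
        exact vb A hA) (by
        have e3 : ((a - (K.d a' + K.tmap C.d1 b'), b - (- K.d b' + K.tmap C.d0 a')) :
            K.Tot C.X0 × K.Tot C.X1) = (a, b) - K.tkD C (a', b') := rfl
        rw [e3, map_sub, hd, K.tkD_tkD, sub_zero]) (by
        rw [ha']
        have e3 : K.ev C.X0 (a - (K.crd k a + K.tmap C.d1 b')) = 0 := va ∅ hc
        rw [e3]
        exact z0) (by
        rw [hb1]
        have e3 : K.ev C.X1 (b - (K.crd k b + K.tmap C.d0 a')) = 0 := vb ∅ hc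
        rw [e3]
        exact z1)
    have hc' : (∅ : Finset K.J).card ≠ k + 1 := by
      rw [Finset.card_empty]
      omega
    refine ⟨a' + a'', b' + b'', ?_, ?_, ?_⟩
    · have e3 : ((a' + a'', b' + b'') : K.Tot C.X0 × K.Tot C.X1) = (a', b') + (a'', b'') := rfl
      rw [e3, map_add, g1, K.tkD_apply]
      exact Prod.ext (add_sub_cancel _ _) (add_sub_cancel _ _)
    · show a' ∅ + a'' ∅ = 0
      rw [ha0 ∅ hc', g2, add_zero]
    · show b' ∅ + b'' ∅ = 0
      rw [hb2 ∅ hc', g3, add_zero]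

private theorem rt2_par (z0 : N0 0) (z1 : N1 0)
    (h0 : ∀ x : K.Tot C.X0, K.d x = 0 → N0 (K.ev C.X0 x) → ∃ y, K.d y = x)
    (h1 : ∀ x : K.Tot C.X1, K.d x = 0 → N1 (K.ev C.X1 x) → ∃ y, K.d y = x) (i : ZMod 2)
    (x : K.Tot C.X0 × K.Tot C.X1) (hx : x ∈ K.tkP C i) (hd : K.tkD C x = 0)
    (hna : N0 (K.ev C.X0 x.1)) (hnb : N1 (K.ev C.X1 x.2)) :
    ∃ y ∈ K.tkP C (i + 1), K.tkD C y = x ∧ y.1 ∅ = 0 ∧ y.2 ∅ = 0 := by
  obtain ⟨a, b⟩ := x
  obtain ⟨a', b', g1, g2, g3⟩ := rt2_ind K z0 z1 h0 h1 (Fintype.card K.J + 1) 0 (zero_add _) a b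
    (fun A hA => absurd hA (Nat.not_lt_zero _)) (fun A hA => absurd hA (Nat.not_lt_zero _))
    hd hna hnb
  have hi : i + 1 + 1 = i := by rw [add_assoc, show (1 : ZMod 2) + 1 = 0 from rfl, add_zero]
  have e0 : K.d a' + K.tmap C.d1 b' = a := congrArg Prod.fst g1
  have e1 : - K.d b' + K.tmap C.d0 a' = b := congrArg Prod.snd g1
  refine ⟨(K.ppj (i + 1) a', K.ppj i b'), ⟨K.ppj_mem _ _, ?_⟩, ?_, ?_, ?_⟩
  · show K.ppj i b' ∈ K.part C.X1 (i + 1 + 1)
    rw [hi]
    exact K.ppj_mem _ _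
  · apply Prod.ext
    · show K.d (K.ppj (i + 1) a') + K.tmap C.d1 (K.ppj i b') = a
      rw [← K.ppj_d, ← K.ppj_tmap, ← map_add, e0]
      exact K.ppj_of_mem hx.1
    · show - K.d (K.ppj i b') + K.tmap C.d0 (K.ppj (i + 1) a') = b
      have h3 : K.d (K.ppj i b') = K.ppj (i + 1) (K.d b') := by
        rw [K.ppj_d, hi]
      rw [h3, ← K.ppj_tmap, ← map_neg, ← map_add, e1]
      exact K.ppj_of_mem hx.2
  · show K.ppj (i + 1) a' ∅ = 0
    rw [K.ppj_apply, g2, ite_self]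
  · show K.ppj i b' ∅ = 0
    rw [K.ppj_apply, g3, ite_self]

theorem tk2_ex0 (z0 : N0 0) (z1 : N1 0)
    (h0 : ∀ x : K.Tot C.X0, K.d x = 0 → N0 (K.ev C.X0 x) → ∃ y, K.d y = x)
    (h1 : ∀ x : K.Tot C.X1, K.d x = 0 → N1 (K.ev C.X1 x) → ∃ y, K.d y = x)
    (x : (K.tk C).X0) (hd : (K.tk C).d0 x = 0) (hn : N0 (K.ev0 C x)) :
    ∃ y : (K.tk C).X1, (K.tk C).d1 y = x ∧ K.ev1 C y = 0 := by
  have hb : K.ev C.X1 x.1.2 = 0 := K.ev_odd x.2.2
  obtain ⟨y, hy, g1, -, g3⟩ := rt2_par K z0 z1 h0 h1 0 x.1 x.2 (congrArg Subtype.val hd) hn (by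
    rw [hb]
    exact z1)
  rw [zero_add] at hy
  exact ⟨⟨y, hy⟩, Subtype.ext g1, g3⟩

theorem tk2_ex1 (z0 : N0 0) (z1 : N1 0)
    (h0 : ∀ x : K.Tot C.X0, K.d x = 0 → N0 (K.ev C.X0 x) → ∃ y, K.d y = x)
    (h1 : ∀ x : K.Tot C.X1, K.d x = 0 → N1 (K.ev C.X1 x) → ∃ y, K.d y = x)
    (x : (K.tk C).X1) (hd : (K.tk C).d1 x = 0) (hn : N1 (K.ev1 C x)) :
    ∃ y : (K.tk C).X0, (K.tk C).d0 y = x ∧ K.ev0 C y = 0 := by
  have ha : K.ev C.X0 x.1.1 = 0 := K.ev_odd x.2.1
  obtain ⟨y, hy, g1, g2, -⟩ := rt2_par K z0 z1 h0 h1 1 x.1 x.2 (congrArg Subtype.val hd) (by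
    rw [ha]
    exact z0) hn
  rw [show (1 : ZMod 2) + 1 = 0 from rfl] at hy
  exact ⟨⟨y, hy⟩, Subtype.ext g1, g2⟩

end MSA
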