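import Mathlib
import Pool.Agent.MSA.Rfr
import Pool.Agent.MSA.Rmp

/-!
# The complex `P(B)`

`B` a complex with contractions `k_j`, `j : Fin p`. `P(B)_i = Fr B_i = S ⊗_L B_i` with the
differential `D (s ⊗ z) = s ⊗ d z - ∑_j s x_j ⊗ k_j z`.
-/

set_option autoImplicit false
set_option linter.unusedSectionVars false

noncomputable section

namespace MSA

universe u v w

open MvPolynomial

/-- Contractions on a complex. -/
structure Kp (D : Dat.{u}) (B : Ch.{u} D.R) where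
  k0 : Fin D.p → (B.X0 →+ B.X1)
  k1 : Fin D.p → (B.X1 →+ B.X0)
  s0 : ∀ j (s : D.S) x, k0 j (iot D.ph s • x) = iot D.ph s • k0 j x
  s1 : ∀ j (s : D.S) x, k1 j (iot D.ph s • x) = iot D.ph s • k1 j x
  g0 : ∀ (g : Gn D.F) j x, k0 j (gam D.ph g • x) =
    ∑ i, iot D.ph (algebraMap D.F D.S (D.rhoV g (Pi.single i 1) j)) • gam D.ph g • k0 i x
  g1 : ∀ (g : Gn D.F) j x, k1 j (gam D.ph g • x) =
    ∑ i, iot D.ph (algebraMap D.F D.S (D.rhoV g (Pi.single i 1) j)) • gam D.ph g • k1 i x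
  sq0 : ∀ j x, k1 j (k0 j x) = 0
  sq1 : ∀ j x, k0 j (k1 j x) = 0
  an0 : ∀ i j x, k1 i (k0 j x) + k1 j (k0 i x) = 0
  an1 : ∀ i j x, k0 i (k1 j x) + k0 j (k1 i x) = 0
  d0 : ∀ j x, k1 j (B.d0 x) + B.d1 (k0 j x) = 0
  d1 : ∀ j x, k0 j (B.d1 x) + B.d0 (k1 j x) = 0

namespace Kp

variable {D : Dat.{u}}

section half

/-- one half of the differential: `z ↦ 1 ⊗ d z - ∑_j x_j ⊗ k_j z` -/
def hh {Z Z' : Type u} [AddCommGroup Z] [Module D.R Z] [AddCommGroup Z'] [Module D.R Z']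
    (d : Z →ₗ[D.R] Z') (k : Fin D.p → (Z →+ Z')) : Z →+ Fr D Z' where
  toFun z := Fr.ft 1 (d z) - ∑ j, Fr.ft (MvPolynomial.X j) (k j z)
  map_zero' := by
    simp only [map_zero, Fr.ft_zero_right, Finset.sum_const_zero, sub_zero]
  map_add' x y := by
    simp only [map_add, Fr.ft_add_right, Finset.sum_add_distrib]
    abel

variable {Z Z' Z'' : Type u} [AddCommGroup Z] [Module D.R Z] [AddCommGroup Z'] [Module D.R Z']
variable [AddCommGroup Z''] [Module D.R Z'']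

theorem hh_apply (d : Z →ₗ[D.R] Z') (k : Fin D.p → (Z →+ Z')) (z : Z) :
    hh d k z = Fr.ft 1 (d z) - ∑ j, Fr.ft (MvPolynomial.X j) (k j z) := rfl

theorem ft_sum {ι : Type*} (t : Finset ι) (s : D.S) (z : ι → Z) :
    (Fr.ft s (∑ i ∈ t, z i) : Fr D Z) = ∑ i ∈ t, Fr.ft s (z i) := by
  classical
  induction t using Finset.induction_on with
  | empty => rw [Finset.sum_empty, Finset.sum_empty, Fr.ft_zero_right]
  | insert a t ha ih => rw [Finset.sum_insert ha, Finset.sum_insert ha, Fr.ft_add_right, ih]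

theorem ft_sum_left {ι : Type*} (t : Finset ι) (s : ι → D.S) (z : Z) :
    (Fr.ft (∑ i ∈ t, s i) z : Fr D Z) = ∑ i ∈ t, Fr.ft (s i) z := by
  classical
  induction t using Finset.induction_on with
  | empty => rw [Finset.sum_empty, Finset.sum_empty, Fr.ft_zero_left]
  | insert a t ha ih => rw [Finset.sum_insert ha, Finset.sum_insert ha, Fr.ft_add_left, ih]

theorem hh_C (d : Z →ₗ[D.R] Z') (k : Fin D.p → (Z →+ Z'))
    (hs : ∀ j (s : D.S) x, k j (iot D.ph s • x) = iot D.ph s • k j x) (l : D.L) (z : Z) :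
    hh d k (iot D.ph (C l) • z) = iot D.ph (C l) • hh d k z := by
  rw [hh_apply, hh_apply, smul_sub, Finset.smul_sum, map_smul, Fr.iot_ft, Fr.ft_C]
  congr 1
  refine Finset.sum_congr rfl fun j _ => ?_
  rw [hs, Fr.iot_ft, Fr.ft_C]

theorem hh_gam (d : Z →ₗ[D.R] Z') (k : Fin D.p → (Z →+ Z'))
    (hg : ∀ (g : Gn D.F) j x, k j (gam D.ph g • x) =
      ∑ i, iot D.ph (algebraMap D.F D.S (D.rhoV g (Pi.single i 1) j)) • gam D.ph g • k i x)
    (g : Gn D.F) (z : Z) : hh d k (gam D.ph g • z) = gam D.ph g • hh d k z := by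
  rw [hh_apply, hh_apply, smul_sub, Finset.smul_sum, map_smul, Fr.gam_ft, map_one]
  congr 1
  have h1 : ∀ j, Fr.ft (MvPolynomial.X j) (k j (gam D.ph g • z)) =
      (∑ i, Fr.ft (algebraMap D.F D.S (D.rhoV g (Pi.single i 1) j) * MvPolynomial.X j)
        (gam D.ph g • k i z) : Fr D Z') := by
    intro j
    rw [hg, ft_sum]
    refine Finset.sum_congr rfl fun i _ => ?_
    have ha : algebraMap D.F D.S (D.rhoV g (Pi.single i 1) j) =
      C (algebraMap D.F D.L (D.rhoV g (Pi.single i 1) j)) := rfl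
    rw [ha, Fr.ft_C]
  rw [Finset.sum_congr rfl fun j _ => h1 j, Finset.sum_comm]
  refine Finset.sum_congr rfl fun i _ => ?_
  rw [Fr.gam_ft, D.kV_hy, ft_sum_left]

/-- one half of the differential -/
def Dh (d : Z →ₗ[D.R] Z') (k : Fin D.p → (Z →+ Z'))
    (hs : ∀ j (s : D.S) x, k j (iot D.ph s • x) = iot D.ph s • k j x)
    (hg : ∀ (g : Gn D.F) j x, k j (gam D.ph g • x) =
      ∑ i, iot D.ph (algebraMap D.F D.S (D.rhoV g (Pi.single i 1) j)) • gam D.ph g • k i x) :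
    Fr D Z →ₗ[D.R] Fr D Z' :=
  Fr.lift (hh d k) (hh_C d k hs) (hh_gam d k hg)

theorem Dh_ft (d : Z →ₗ[D.R] Z') (k : Fin D.p → (Z →+ Z'))
    (hs : ∀ j (s : D.S) x, k j (iot D.ph s • x) = iot D.ph s • k j x)
    (hg : ∀ (g : Gn D.F) j x, k j (gam D.ph g • x) =
      ∑ i, iot D.ph (algebraMap D.F D.S (D.rhoV g (Pi.single i 1) j)) • gam D.ph g • k i x)
    (s : D.S) (z : Z) : Dh d k hs hg (Fr.ft s z) =
      Fr.ft s (d z) - ∑ j, Fr.ft (s * MvPolynomial.X j) (k j z) := by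
  unfold Dh
  rw [Fr.lift_ft, hh_apply, smul_sub, Finset.smul_sum, Fr.iot_ft, mul_one]
  congr 1
  refine Finset.sum_congr rfl fun j _ => ?_
  rw [Fr.iot_ft]

theorem Dh_Dh (d : Z →ₗ[D.R] Z') (k : Fin D.p → (Z →+ Z'))
    (hs : ∀ j (s : D.S) x, k j (iot D.ph s • x) = iot D.ph s • k j x)
    (hg : ∀ (g : Gn D.F) j x, k j (gam D.ph g • x) =
      ∑ i, iot D.ph (algebraMap D.F D.S (D.rhoV g (Pi.single i 1) j)) • gam D.ph g • k i x)
    (d' : Z' →ₗ[D.R] Z'') (k' : Fin D.p → (Z' →+ Z''))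
    (hs' : ∀ j (s : D.S) x, k' j (iot D.ph s • x) = iot D.ph s • k' j x)
    (hg' : ∀ (g : Gn D.F) j x, k' j (gam D.ph g • x) =
      ∑ i, iot D.ph (algebraMap D.F D.S (D.rhoV g (Pi.single i 1) j)) • gam D.ph g • k' i x)
    (hdd : ∀ z, d' (d z) = 0) (hdk : ∀ j z, k' j (d z) + d' (k j z) = 0)
    (hsq : ∀ j z, k' j (k j z) = 0) (han : ∀ i j z, k' i (k j z) + k' j (k i z) = 0)
    (x : Fr D Z) : Dh d' k' hs' hg' (Dh d k hs hg x) = 0 := by
  have key : (Dh d' k' hs' hg') ∘ₗ (Dh d k hs hg) = 0 := by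
    refine Fr.lin_ext fun z => ?_
    rw [LinearMap.comp_apply, Dh_ft, map_sub, map_sum, Dh_ft, hdd, Fr.ft_zero_right, zero_sub,
      LinearMap.zero_apply]
    have h1 : ∀ j, Dh d' k' hs' hg' (Fr.ft (1 * MvPolynomial.X j) (k j z)) =
        Fr.ft (1 * MvPolynomial.X j) (d' (k j z)) -
          ∑ i, Fr.ft (1 * MvPolynomial.X j * MvPolynomial.X i) (k' i (k j z)) :=
      fun j => Dh_ft d' k' hs' hg' _ _
    rw [Finset.sum_congr rfl fun j _ => h1 j, Finset.sum_sub_distrib]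
    have h2 : ∀ j, (Fr.ft (1 * MvPolynomial.X j) (k' j (d z)) : Fr D Z'') =
        - Fr.ft (1 * MvPolynomial.X j) (d' (k j z)) := by
      intro j
      rw [eq_neg_iff_add_eq_zero, ← Fr.ft_add_right, hdk, Fr.ft_zero_right]
    rw [Finset.sum_congr rfl fun j _ => h2 j, Finset.sum_neg_distrib, neg_neg,
      sub_sub_cancel, ← Finset.sum_product']
    refine Finset.sum_involution (fun q _ => (q.2, q.1)) ?_ ?_
      (fun _ _ => Finset.mem_product.2 ⟨Finset.mem_univ _, Finset.mem_univ _⟩) (fun _ _ => rfl)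
    · rintro ⟨i, j⟩ _
      show Fr.ft (1 * MvPolynomial.X i * MvPolynomial.X j) (k' j (k i z)) +
        Fr.ft (1 * MvPolynomial.X j * MvPolynomial.X i) (k' i (k j z)) = 0
      rw [show (1 * MvPolynomial.X j * MvPolynomial.X i : D.S) =
        1 * MvPolynomial.X i * MvPolynomial.X j by ring, ← Fr.ft_add_right, han,
        Fr.ft_zero_right]
    · rintro ⟨i, j⟩ _ h h2
      have h3 : j = i := congrArg Prod.fst h2
      subst h3
      apply h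
      show Fr.ft (1 * MvPolynomial.X j * MvPolynomial.X j) (k' j (k j z)) = 0
      rw [hsq, Fr.ft_zero_right]
  exact congrArg (fun f : Fr D Z →ₗ[D.R] Fr D Z'' => f x) key

end half

variable {B : Ch.{u} D.R} (k : Kp D B)

/-- The complex `P(B)`. -/
def P : Ch.{u} D.R where
  X0 := Fr D B.X0
  X1 := Fr D B.X1
  d0 := Dh B.d0 k.k0 k.s0 k.g0
  d1 := Dh B.d1 k.k1 k.s1 k.g1
  h10 := Dh_Dh _ _ _ _ _ _ _ _ B.h10 k.d0 k.sq0 k.an0
  h01 := Dh_Dh _ _ _ _ _ _ _ _ B.h01 k.d1 k.sq1 k.an1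

theorem P_d0 (s : D.S) (z : B.X0) : k.P.d0 (Fr.ft s z) =
    (Fr.ft s (B.d0 z) - ∑ j, Fr.ft (s * MvPolynomial.X j) (k.k0 j z) : Fr D B.X1) :=
  Dh_ft B.d0 k.k0 k.s0 k.g0 s z

theorem P_d1 (s : D.S) (z : B.X1) : k.P.d1 (Fr.ft s z) =
    (Fr.ft s (B.d1 z) - ∑ j, Fr.ft (s * MvPolynomial.X j) (k.k1 j z) : Fr D B.X0) :=
  Dh_ft B.d1 k.k1 k.s1 k.g1 s z

/-- the truncation of `P(B)` at the weight `N` -/
def PN (N : ℤ) : Ch.{u} D.R := D.filC k.P N

/-- the shift -/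
def sh : Kp D B.sh where
  k0 := k.k1
  k1 := k.k0
  s0 := k.s1
  s1 := k.s0
  g0 := k.g1
  g1 := k.g0
  sq0 := k.sq1
  sq1 := k.sq0
  an0 := k.an1
  an1 := k.an0
  d0 := k.d1
  d1 := k.d0

/-- morphisms that commute with the contractions -/
structure Hm {B B' : Ch.{u} D.R} (k : Kp D B) (k' : Kp D B') where
  f : Ch.Hom B B'
  c0 : ∀ j x, k'.k0 j (f.f0 x) = f.f1 (k.k0 j x)
  c1 : ∀ j x, k'.k1 j (f.f1 x) = f.f0 (k.k1 j x)

/-- functoriality of `P(B)` -/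
def mapP {B B' : Ch.{u} D.R} {k : Kp D B} {k' : Kp D B'} (f : Hm k k') : Ch.Hom k.P k'.P where
  f0 := Fr.map f.f.f0
  f1 := Fr.map f.f.f1
  c0 := fun x => by
    have key : k'.P.d0 ∘ₗ (Fr.map f.f.f0 : Fr D B.X0 →ₗ[D.R] Fr D B'.X0) =
        (Fr.map f.f.f1 : Fr D B.X1 →ₗ[D.R] Fr D B'.X1) ∘ₗ k.P.d0 := by
      refine Fr.lin_ext fun z => ?_
      show k'.P.d0 (Fr.map f.f.f0 (Fr.ft 1 z)) = Fr.map f.f.f1 (k.P.d0 (Fr.ft 1 z))
      rw [Fr.map_ft, P_d0, P_d0, map_sub, map_sum, Fr.map_ft, f.f.c0]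
      congr 1
      refine Finset.sum_congr rfl fun j _ => ?_
      rw [Fr.map_ft, f.c0]
    exact congrArg (fun g : Fr D B.X0 →ₗ[D.R] Fr D B'.X1 => g x) key
  c1 := fun x => by
    have key : k'.P.d1 ∘ₗ (Fr.map f.f.f1 : Fr D B.X1 →ₗ[D.R] Fr D B'.X1) =
        (Fr.map f.f.f0 : Fr D B.X0 →ₗ[D.R] Fr D B'.X0) ∘ₗ k.P.d1 := by
      refine Fr.lin_ext fun z => ?_
      show k'.P.d1 (Fr.map f.f.f1 (Fr.ft 1 z)) = Fr.map f.f.f0 (k.P.d1 (Fr.ft 1 z))
      rw [Fr.map_ft, P_d1, P_d1, map_sub, map_sum, Fr.map_ft, f.f.c1]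
      congr 1
      refine Finset.sum_congr rfl fun j _ => ?_
      rw [Fr.map_ft, f.c1]
    exact congrArg (fun g : Fr D B.X1 →ₗ[D.R] Fr D B'.X0 => g x) key

/-- functoriality of the truncations -/
def mapN {B B' : Ch.{u} D.R} {k : Kp D B} {k' : Kp D B'} (f : Hm k k') (N : ℤ) :
    Ch.Hom (k.PN N) (k'.PN N) := D.filH (mapP f) N

end Kp

/-- Homotopies for the variables. -/
structure Ko {D : Dat.{u}} {B : Ch.{u} D.R} (k : Kp D B) where
  o0 : Fin D.p → (B.X0 →+ B.X1)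
  o1 : Fin D.p → (B.X1 →+ B.X0)
  s0 : ∀ j (s : D.S) x, o0 j (iot D.ph s • x) = iot D.ph s • o0 j x
  s1 : ∀ j (s : D.S) x, o1 j (iot D.ph s • x) = iot D.ph s • o1 j x
  k0 : ∀ i j x, k.k1 i (o0 j x) + o1 j (k.k0 i x) = if i = j then x else 0
  k1 : ∀ i j x, k.k0 i (o1 j x) + o0 j (k.k1 i x) = if i = j then x else 0
  d0 : ∀ j x, B.d1 (o0 j x) + o1 j (B.d0 x) = iot D.ph (MvPolynomial.X j) • x
  d1 : ∀ j x, B.d0 (o1 j x) + o0 j (B.d1 x) = iot D.ph (MvPolynomial.X j) • x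

end MSA
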