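import Mathlib
import Pool.Agent.MSA.Rpb
import Pool.Agent.MSA.Rtk

/-!
# Contractions on `kV.ch Z` and on `kV ⊗ C`; the map `eps` (MS, PART RES)

Everything here is proved.
`D.kpV Z : Kp D (D.kV.ch Z)`, `D.koV Z : Ko (D.kpV Z)`, `D.kpT C : Kp D (D.kV.tk C)`,
`D.qHm C q hq : Kp.Hm (D.kpT C) (D.kpV M)` for `q : C.X0 → M` with `q d1 = 0`,
`D.eps C : Ch.Hom (D.kpT C).P C`, `s ⊗ (a, b) ↦ s * a ∅` in degree `0`, `s * b ∅` in degree `1`.
-/

set_option autoImplicit false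
set_option linter.unusedSectionVars false

noncomputable section

namespace MSA

universe u v w

namespace Dat

variable (D : Dat.{u})

theorem kV_rho (g : Gn D.F) (i j : Fin D.p) :
    D.kV.rho g (Pi.single (M := fun _ : D.kV.J => D.F) (i : D.kV.J) 1) j =
      D.rhoV g (Pi.single i 1) j := by
  have h : (Pi.single (M := fun _ : D.kV.J => D.F) (i : D.kV.J) 1 : D.kV.J → D.F) =
      (Pi.single i 1 : Fin D.p → D.F) :=
    congrFun (congrFun (congrArg (fun inst => @Pi.single (Fin D.p) (fun _ => D.F) _ inst)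
      (Subsingleton.elim _ _)) i) 1
  rw [h]
  rfl

section

variable (Z : Type u) [AddCommGroup Z] [Module D.R Z]

/-- contractions on the Koszul complex of the variables -/
def kpV : Kp D (D.kV.ch Z) where
  k0 := fun j => D.kV.ck0 (Z := Z) j
  k1 := fun j => D.kV.ck1 (Z := Z) j
  s0 := fun j s x => D.kV.ck0_iot j s x
  s1 := fun j s x => D.kV.ck1_iot j s x
  g0 := fun g j x => by
    refine (D.kV.ck0_gam j g x).trans (Finset.sum_congr rfl fun i _ => ?_)
    rw [D.kV_rho g i j]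
  g1 := fun g j x => by
    refine (D.kV.ck1_gam j g x).trans (Finset.sum_congr rfl fun i _ => ?_)
    rw [D.kV_rho g i j]
  sq0 := fun j x => D.kV.ck_sq0 j x
  sq1 := fun j x => D.kV.ck_sq1 j x
  an0 := fun i j x => D.kV.ck_ck0 i j x
  an1 := fun i j x => D.kV.ck_ck1 i j x
  d0 := fun j x => by
    rw [add_comm]
    exact D.kV.d_ck0 j x
  d1 := fun j x => by
    rw [add_comm]
    exact D.kV.d_ck1 j x

/-- homotopies on the Koszul complex of the variables -/
def koV : Ko (D.kpV Z) where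
  o0 := fun j => D.kV.cw0 (Z := Z) j
  o1 := fun j => D.kV.cw1 (Z := Z) j
  s0 := fun j s x => D.kV.cw0_iot j s x
  s1 := fun j s x => D.kV.cw1_iot j s x
  k0 := fun i j x => by
    by_cases h : i = j
    · subst h
      rw [if_pos rfl]
      exact D.kV.ck_cw0_self i x
    · rw [if_neg h]
      exact D.kV.ck_cw0_ne h x
  k1 := fun i j x => by
    by_cases h : i = j
    · subst h
      rw [if_pos rfl]
      exact D.kV.ck_cw1_self i x
    · rw [if_neg h]
      exact D.kV.ck_cw1_ne h x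
  d0 := fun j x => D.kV.d_cw0 j x
  d1 := fun j x => D.kV.d_cw1 j x

end

variable (C : Ch.{u} D.R)

/-- contractions on `kV ⊗ C` -/
def kpT : Kp D (D.kV.tk C) where
  k0 := fun j => D.kV.tk0 C j
  k1 := fun j => D.kV.tk1 C j
  s0 := fun j s x => D.kV.tk0_iot C j s x
  s1 := fun j s x => D.kV.tk1_iot C j s x
  g0 := fun g j x => by
    refine (D.kV.tk0_gam C j g x).trans (Finset.sum_congr rfl fun i _ => ?_)
    rw [D.kV_rho g i j]
  g1 := fun g j x => by
    refine (D.kV.tk1_gam C j g x).trans (Finset.sum_congr rfl fun i _ => ?_)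
    rw [D.kV_rho g i j]
  sq0 := fun j x => D.kV.tk_sq0 C j x
  sq1 := fun j x => D.kV.tk_sq1 C j x
  an0 := fun i j x => D.kV.tk_tk0 C i j x
  an1 := fun i j x => D.kV.tk_tk1 C i j x
  d0 := fun j x => by
    rw [add_comm]
    exact D.kV.d_tk0 C j x
  d1 := fun j x => by
    rw [add_comm]
    exact D.kV.d_tk1 C j x

/-- the map to the Koszul complex of the quotient -/
def qHm {M : Type u} [AddCommGroup M] [Module D.R M] (q : C.X0 →ₗ[D.R] M)
    (hq : ∀ c, q (C.d1 c) = 0) : Kp.Hm (D.kpT C) (D.kpV M) where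
  f := D.kV.qtk C q hq
  c0 := fun j x => (D.kV.qtk_k0 C q hq j x).symm
  c1 := fun j x => (D.kV.qtk_k1 C q hq j x).symm

/-- `s ⊗ (a, b) ↦ s * a ∅` -/
def eps0 : Fr D (D.kV.tk C).X0 →ₗ[D.R] C.X0 :=
  Fr.lift (D.kV.ev0 C : (D.kV.tk C).X0 →+ C.X0) (fun _ _ => map_smul (D.kV.ev0 C) _ _)
    (fun _ _ => map_smul (D.kV.ev0 C) _ _)

/-- `s ⊗ (a, b) ↦ s * b ∅` -/
def eps1 : Fr D (D.kV.tk C).X1 →ₗ[D.R] C.X1 :=
  Fr.lift (D.kV.ev1 C : (D.kV.tk C).X1 →+ C.X1) (fun _ _ => map_smul (D.kV.ev1 C) _ _)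
    (fun _ _ => map_smul (D.kV.ev1 C) _ _)

theorem eps0_ft (s : D.S) (z : (D.kV.tk C).X0) :
    D.eps0 C (Fr.ft s z) = iot D.ph s • D.kV.ev0 C z := rfl

theorem eps1_ft (s : D.S) (z : (D.kV.tk C).X1) :
    D.eps1 C (Fr.ft s z) = iot D.ph s • D.kV.ev1 C z := rfl

/-- the map `eps` -/
def eps : Ch.Hom (D.kpT C).P C where
  f0 := D.eps0 C
  f1 := D.eps1 C
  c0 := fun x => by
    have key : C.d0 ∘ₗ D.eps0 C = D.eps1 C ∘ₗ (D.kpT C).P.d0 := by
      refine Fr.lin_ext fun z => ?_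
      show C.d0 (D.eps0 C (Fr.ft 1 z)) = D.eps1 C ((D.kpT C).P.d0 (Fr.ft 1 z))
      rw [Kp.P_d0, map_sub, map_sum, eps0_ft, eps1_ft, map_one, one_smul, one_smul,
        D.kV.ev1_d C z]
      have h1 : ∀ j : Fin D.p, D.eps1 C (Fr.ft (1 * MvPolynomial.X j) ((D.kpT C).k0 j z)) =
          iot D.ph (D.kV.y j) • D.kV.ev1 C (D.kV.tk0 C j z) := by
        intro j
        rw [one_mul]
        rfl
      rw [Finset.sum_congr rfl fun j _ => h1 j]
      exact (add_sub_cancel_right _ _).symm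
    exact congrArg (fun f : Fr D (D.kV.tk C).X0 →ₗ[D.R] C.X1 => f x) key
  c1 := fun x => by
    have key : C.d1 ∘ₗ D.eps1 C = D.eps0 C ∘ₗ (D.kpT C).P.d1 := by
      refine Fr.lin_ext fun z => ?_
      show C.d1 (D.eps1 C (Fr.ft 1 z)) = D.eps0 C ((D.kpT C).P.d1 (Fr.ft 1 z))
      rw [Kp.P_d1, map_sub, map_sum, eps0_ft, eps1_ft, map_one, one_smul, one_smul,
        D.kV.ev0_d C z]
      have h1 : ∀ j : Fin D.p, D.eps0 C (Fr.ft (1 * MvPolynomial.X j) ((D.kpT C).k1 j z)) =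
          iot D.ph (D.kV.y j) • D.kV.ev0 C (D.kV.tk1 C j z) := by
        intro j
        rw [one_mul]
        rfl
      rw [Finset.sum_congr rfl fun j _ => h1 j]
      exact (add_sub_cancel_right _ _).symm
    exact congrArg (fun f : Fr D (D.kV.tk C).X1 →ₗ[D.R] C.X0 => f x) key

end Dat

end MSA
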