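import Mathlib
import Pool.Agent.MSA.Rtm
import Pool.Agent.MSA.Rkv
import Pool.Agent.MSA.Rt2
import Pool.Agent.MSA.Rfb
import Pool.Agent.MSA.Rb3

/-!
# The map `eps` is a quasi-isomorphism modulo the maximal ideal (MS, PART RES, section 6)

Everything here is proved from the statements of Rb2, Rb3, Rev, Rfb.
`D.epsN C N : Ch.Hom ((D.kpT C).PN N) C`, `D.sq_eps`.
-/

set_option autoImplicit false
set_option linter.unusedSectionVars false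

noncomputable section

namespace MSA

universe u v w

open MvPolynomial

section gen

variable {F : Type u} [Field F] {S : Type u} [CommRing S] [Algebra F S] {Γ : Type u}
variable {φ : Γ → S →+* S} (K : KS F φ)
variable {Z : Type u} [AddCommGroup Z] [Module (Rg φ) Z]

theorem KS.iot_cst (s : S) (z : Z) : iot φ s • K.cst z = K.cst (iot φ s • z) := by
  funext A
  rw [K.iot_smul]
  show iot φ s • (if A = ∅ then z else 0) = if A = ∅ then iot φ s • z else 0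
  rw [smul_ite, smul_zero]

theorem KS.gam_cst (g : Γ) (z : Z) : gam φ g • K.cst z = K.cst (gam φ g • z) := by
  classical
  funext B
  rw [K.gam_smul, Finset.sum_eq_single ∅]
  · have h1 : mpE (K.rho g) (bE F K.J ∅) = bE F K.J ∅ := by
      rw [bE_empty']
      exact map_one (ExteriorAlgebra.map (K.rho g))
    rw [h1, Module.Basis.repr_self]
    show _ • gam φ g • (if (∅ : Finset K.J) = ∅ then z else 0) =
      if B = ∅ then gam φ g • z else 0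
    rw [if_pos rfl]
    by_cases hB : B = ∅
    · subst hB
      rw [if_pos rfl, Finsupp.single_eq_same, map_one, map_one, one_smul]
    · rw [if_neg hB, Finsupp.single_eq_of_ne hB, map_zero, map_zero, zero_smul]
  · intro A _ hA
    show _ • gam φ g • (if A = ∅ then z else 0) = 0
    rw [if_neg hA, smul_zero, smul_zero]
  · intro h
    exact absurd (Finset.mem_univ _) h

variable [HasTh F Γ]

theorem KS.wt_in0 [FixF F φ] (C : Ch.{u} (Rg φ)) {n : ℤ} {c : C.X0} (hc : c ∈ wt F φ C.X0 n) :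
    K.in0 C c ∈ wt F φ (K.tk C).X0 n := by
  intro t
  refine Subtype.ext (Prod.ext ?_ ?_)
  · show gam φ (HasTh.th t) • K.cst c = iot φ _ • K.cst c
    rw [K.gam_cst, K.iot_cst, hc t]
  · show gam φ (HasTh.th t) • (0 : K.Tot C.X1) = iot φ _ • (0 : K.Tot C.X1)
    rw [smul_zero, smul_zero]

theorem KS.wt_in1 [FixF F φ] (C : Ch.{u} (Rg φ)) {n : ℤ} {c : C.X1} (hc : c ∈ wt F φ C.X1 n) :
    K.in1 C c ∈ wt F φ (K.tk C).X1 n := by
  intro t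
  refine Subtype.ext (Prod.ext ?_ ?_)
  · show gam φ (HasTh.th t) • (0 : K.Tot C.X0) = iot φ _ • (0 : K.Tot C.X0)
    rw [smul_zero, smul_zero]
  · show gam φ (HasTh.th t) • K.cst c = iot φ _ • K.cst c
    rw [K.gam_cst, K.iot_cst, hc t]

/-- Components of weight `n` of preimages. -/
theorem wt_comp_ex [Infinite F] [FixF F φ] {p : ℕ} {b : F} {M M' M'' : Type u} [AddCommGroup M] [Module (Rg φ) M]
    [AddCommGroup M'] [Module (Rg φ) M'] [AddCommGroup M''] [Module (Rg φ) M'']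
    (hM : Wts F φ M p b) (q : M →ₗ[Rg φ] M') (r : M →ₗ[Rg φ] M'') {n : ℤ} {m : M}
    (hm : q m ∈ wt F φ M' n) (hr : r m = 0) :
    ∃ m' ∈ wt F φ M n, q m' = q m ∧ r m' = 0 := by
  have h1 := wts_sub hM (LinearMap.ker r)
  obtain ⟨m', hm', he⟩ := wt_lift h1 (q ∘ₗ (LinearMap.ker r).subtype).rangeRestrict
    (LinearMap.surjective_rangeRestrict _) (n := n) (m' := ⟨q m, ⟨⟨m, hr⟩, rfl⟩⟩)
    (fun c => Subtype.ext (hm c))
  exact ⟨m'.1, wt_map (LinearMap.ker r).subtype hm', congrArg Subtype.val he, m'.2⟩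

end gen

namespace Dat

variable (D : Dat.{u})

private theorem rep_ev0 {Z Z' : Type u} [AddCommGroup Z] [Module D.R Z] [AddCommGroup Z']
    [Module D.R Z'] (f : Fr D Z →ₗ[D.R] Fr D Z') (d : Z →ₗ[D.R] Z') (k : Fin D.p → (Z →+ Z'))
    (hf : ∀ s z, f (Fr.ft s z) = Fr.ft s (d z) - ∑ j, Fr.ft (s * MvPolynomial.X j) (k j z))
    (x : Fr D Z) : Fr.ev0 (f x) = d (Fr.ev0 x) := by
  refine Fr.ind (P := fun x => Fr.ev0 (f x) = d (Fr.ev0 x)) x ?_ ?_ ?_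
  · rw [map_zero, map_zero, map_zero, map_zero]
  · intro s z
    rw [hf, map_sub, map_sum, Fr.ev0_ft, Fr.ev0_ft, map_smul, Finset.sum_eq_zero, sub_zero]
    intro j _
    rw [Fr.ev0_ft, map_mul, constantCoeff_X, mul_zero, map_zero, map_zero, zero_smul]
  · intro x y hx hy
    rw [map_add, map_add, map_add, map_add, hx, hy]

private theorem rep_cyc {Z Z' : Type u} [AddCommGroup Z] [Module D.R Z] [AddCommGroup Z']
    [Module D.R Z'] (f : Fr D Z →ₗ[D.R] Fr D Z') (d : Z →ₗ[D.R] Z') (k : Fin D.p → (Z →+ Z'))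
    (hf : ∀ s z, f (Fr.ft s z) = Fr.ft s (d z) - ∑ j, Fr.ft (s * MvPolynomial.X j) (k j z))
    (x : Fr D Z) (h : f x ∈ D.mP (Fr D Z')) : d (Fr.ev0 x) = 0 := by
  rw [← D.rep_ev0 f d k hf]
  exact Fr.ev0_mP h

private theorem rep_bd {Z Z' : Type u} [AddCommGroup Z] [Module D.R Z] [AddCommGroup Z']
    [Module D.R Z'] (f : Fr D Z' →ₗ[D.R] Fr D Z) (d : Z' →ₗ[D.R] Z) (k : Fin D.p → (Z' →+ Z))
    (hf : ∀ s z, f (Fr.ft s z) = Fr.ft s (d z) - ∑ j, Fr.ft (s * MvPolynomial.X j) (k j z))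
    (x : Fr D Z) (w : Z') (h : d w = Fr.ev0 x) : x - f (Fr.ft 1 w) ∈ D.mP (Fr D Z) := by
  rw [← Fr.ev0_eq_zero, map_sub, D.rep_ev0 f d k hf, Fr.ev0_ft1, h, sub_self]

variable (C : Ch.{u} D.R)

/-- `eps` on the truncation -/
def epsN (N : ℤ) : Ch.Hom ((D.kpT C).PN N) C where
  f0 := (D.eps C).f0 ∘ₗ (D.fil (D.kpT C).P.X0 N).subtype
  f1 := (D.eps C).f1 ∘ₗ (D.fil (D.kpT C).P.X1 N).subtype
  c0 := fun x => (D.eps C).c0 x.1
  c1 := fun x => (D.eps C).c1 x.1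

variable {C}

private theorem rep_s0 (h : D.IsF C.X0) {N : ℤ} (hN : D.fil C.X0 N = ⊤) (n : ℤ) (y : C.X0)
    (hy : y ∈ wt D.F D.ph C.X0 n) :
    ∃ x ∈ wt D.F D.ph ((D.kpT C).PN N).X0 n, (D.epsN C N).f0 x - y ∈ D.mP C.X0 := by
  by_cases hn : n ≤ N
  · have h1 := Fr.ft_wt1 (D.kV.wt_in0 C hy)
    refine ⟨⟨Fr.ft 1 (D.kV.in0 C y), D.mem_fil_of hn h1⟩, (D.mem_wt_sub _ _ _).2 h1, ?_⟩
    have h2 : (D.epsN C N).f0 ⟨Fr.ft 1 (D.kV.in0 C y), D.mem_fil_of hn h1⟩ = y := by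
      show D.eps0 C (Fr.ft 1 (D.kV.in0 C y)) = y
      rw [eps0_ft, map_one, one_smul, D.kV.ev0_in0]
    rw [h2, sub_self]
    exact Submodule.zero_mem _
  · obtain ⟨r, ⟨hb⟩⟩ := h
    refine ⟨0, AddSubgroup.zero_mem _, ?_⟩
    rw [map_zero, zero_sub]
    refine Submodule.neg_mem _ (hb.wt_fil_mP (lt_of_not_ge hn) hy ?_)
    rw [hN]
    exact Submodule.mem_top

private theorem rep_s1 (h : D.IsF C.X1) {N : ℤ} (hN : D.fil C.X1 N = ⊤) (n : ℤ) (y : C.X1)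
    (hy : y ∈ wt D.F D.ph C.X1 n) :
    ∃ x ∈ wt D.F D.ph ((D.kpT C).PN N).X1 n, (D.epsN C N).f1 x - y ∈ D.mP C.X1 := by
  by_cases hn : n ≤ N
  · have h1 := Fr.ft_wt1 (D.kV.wt_in1 C hy)
    refine ⟨⟨Fr.ft 1 (D.kV.in1 C y), D.mem_fil_of hn h1⟩, (D.mem_wt_sub _ _ _).2 h1, ?_⟩
    have h2 : (D.epsN C N).f1 ⟨Fr.ft 1 (D.kV.in1 C y), D.mem_fil_of hn h1⟩ = y := by
      show D.eps1 C (Fr.ft 1 (D.kV.in1 C y)) = y
      rw [eps1_ft, map_one, one_smul, D.kV.ev1_in1]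
    rw [h2, sub_self]
    exact Submodule.zero_mem _
  · obtain ⟨r, ⟨hb⟩⟩ := h
    refine ⟨0, AddSubgroup.zero_mem _, ?_⟩
    rw [map_zero, zero_sub]
    refine Submodule.neg_mem _ (hb.wt_fil_mP (lt_of_not_ge hn) hy ?_)
    rw [hN]
    exact Submodule.mem_top

/-- Cycles of the Koszul complex with value in `mP` at the empty set. -/
theorem kV_ex_mP {X : Type u} [AddCommGroup X] [Module D.R X] (h : D.IsF X)
    (x : D.kV.Tot X) (hx : D.kV.d x = 0) (h0 : D.kV.ev X x ∈ D.mP X) :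
    ∃ y : D.kV.Tot X, D.kV.d y = x := by
  obtain ⟨r, ⟨hb⟩⟩ := h
  exact D.kV.reg_ex (reg_kV hb) x hx ((mem_mP_iff_yid _).1 h0)

private theorem rep_k0 (h0 : D.IsF C.X0) (h1 : D.IsF C.X1) (i0 : D.IsW (D.kV.tk C).X0)
    (i1 : D.IsW (D.kV.tk C).X1) {N : ℤ} (n : ℤ) (x : ((D.kpT C).PN N).X0)
    (hx : x ∈ wt D.F D.ph ((D.kpT C).PN N).X0 n) (hf : (D.epsN C N).f0 x ∈ D.mP C.X0)
    (hd : ((D.kpT C).PN N).d0 x ∈ D.mP ((D.kpT C).PN N).X1) :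
    ∃ y ∈ wt D.F D.ph ((D.kpT C).PN N).X1 n, (D.epsN C N).f1 y ∈ D.mP C.X1 ∧
      x - ((D.kpT C).PN N).d1 y ∈ D.mP ((D.kpT C).PN N).X0 := by
  obtain ⟨hb, -⟩ := Fr.fr_fbs i0
  have hx' : x.1 ∈ wt D.F D.ph (D.kpT C).P.X0 n := (D.mem_wt_sub _ _ _).1 hx
  by_cases hn : n ≤ N
  · obtain ⟨z, hz⟩ : ∃ z, z = Fr.ev0 x.1 := ⟨_, rfl⟩
    have hzw : z ∈ wt D.F D.ph (D.kV.tk C).X0 n := by
      rw [hz]
      exact Fr.ev0_wt hx'
    have hz0 : D.kV.ev0 C z ∈ D.mP C.X0 := by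
      have e1 := D.mP_map (D.eps0 C) (Fr.sub_ev0 x.1)
      rw [map_sub, eps0_ft, map_one, one_smul, ← hz] at e1
      have e2 : D.eps0 C x.1 ∈ D.mP C.X0 := hf
      have e3 := Submodule.sub_mem _ e2 e1
      rwa [sub_sub_cancel] at e3
    have hzd : (D.kV.tk C).d0 z = 0 := by
      have e1 : (D.kpT C).P.d0 x.1 ∈ D.mP (D.kpT C).P.X1 :=
        D.mP_map (D.fil (D.kpT C).P.X1 N).subtype hd
      rw [hz]
      exact D.rep_cyc (D.kpT C).P.d0 (D.kV.tk C).d0 _ (fun s z => (D.kpT C).P_d0 s z) x.1 e1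
    obtain ⟨w, hw, hw0⟩ := tk2_ex0 D.kV (N0 := fun c => c ∈ D.mP C.X0)
      (N1 := fun c => c ∈ D.mP C.X1) (Submodule.zero_mem _) (Submodule.zero_mem _)
      (D.kV_ex_mP h0) (D.kV_ex_mP h1) z hzd hz0
    obtain ⟨w', hw', g1, g2⟩ := wt_comp_ex i1.wts (D.kV.tk C).d1 (D.kV.ev1 C) (n := n) (m := w)
      (by rw [hw]; exact hzw) hw0
    have h3 : (Fr.ft 1 w' : Fr D (D.kV.tk C).X1) ∈ wt D.F D.ph (D.kpT C).P.X1 n := Fr.ft_wt1 hw'
    refine ⟨⟨Fr.ft 1 w', D.mem_fil_of hn h3⟩, (D.mem_wt_sub _ _ _).2 h3, ?_, ?_⟩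
    · have h4 : (D.epsN C N).f1 ⟨Fr.ft 1 w', D.mem_fil_of hn h3⟩ = 0 := by
        show D.eps1 C (Fr.ft 1 w') = 0
        rw [eps1_ft, g2, smul_zero]
      rw [h4]
      exact Submodule.zero_mem _
    · refine (hb.mP_fil N _).2 ?_
      exact D.rep_bd (D.kpT C).P.d1 (D.kV.tk C).d1 _ (fun s z => (D.kpT C).P_d1 s z) x.1 w'
        (by rw [g1, hw, hz])
  · refine ⟨0, AddSubgroup.zero_mem _, ?_, ?_⟩
    · rw [map_zero]
      exact Submodule.zero_mem _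
    · rw [map_zero, sub_zero]
      exact (hb.mP_fil N _).2 (hb.wt_fil_mP (lt_of_not_ge hn) hx' x.2)

private theorem rep_k1 (h0 : D.IsF C.X0) (h1 : D.IsF C.X1) (i0 : D.IsW (D.kV.tk C).X0)
    (i1 : D.IsW (D.kV.tk C).X1) {N : ℤ} (n : ℤ) (x : ((D.kpT C).PN N).X1)
    (hx : x ∈ wt D.F D.ph ((D.kpT C).PN N).X1 n) (hf : (D.epsN C N).f1 x ∈ D.mP C.X1)
    (hd : ((D.kpT C).PN N).d1 x ∈ D.mP ((D.kpT C).PN N).X0) :
    ∃ y ∈ wt D.F D.ph ((D.kpT C).PN N).X0 n, (D.epsN C N).f0 y ∈ D.mP C.X0 ∧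
      x - ((D.kpT C).PN N).d0 y ∈ D.mP ((D.kpT C).PN N).X1 := by
  obtain ⟨hb, -⟩ := Fr.fr_fbs i1
  have hx' : x.1 ∈ wt D.F D.ph (D.kpT C).P.X1 n := (D.mem_wt_sub _ _ _).1 hx
  by_cases hn : n ≤ N
  · obtain ⟨z, hz⟩ : ∃ z, z = Fr.ev0 x.1 := ⟨_, rfl⟩
    have hzw : z ∈ wt D.F D.ph (D.kV.tk C).X1 n := by
      rw [hz]
      exact Fr.ev0_wt hx'
    have hz0 : D.kV.ev1 C z ∈ D.mP C.X1 := by
      have e1 := D.mP_map (D.eps1 C) (Fr.sub_ev0 x.1)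
      rw [map_sub, eps1_ft, map_one, one_smul, ← hz] at e1
      have e2 : D.eps1 C x.1 ∈ D.mP C.X1 := hf
      have e3 := Submodule.sub_mem _ e2 e1
      rwa [sub_sub_cancel] at e3
    have hzd : (D.kV.tk C).d1 z = 0 := by
      have e1 : (D.kpT C).P.d1 x.1 ∈ D.mP (D.kpT C).P.X0 :=
        D.mP_map (D.fil (D.kpT C).P.X0 N).subtype hd
      rw [hz]
      exact D.rep_cyc (D.kpT C).P.d1 (D.kV.tk C).d1 _ (fun s z => (D.kpT C).P_d1 s z) x.1 e1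
    obtain ⟨w, hw, hw0⟩ := tk2_ex1 D.kV (N0 := fun c => c ∈ D.mP C.X0)
      (N1 := fun c => c ∈ D.mP C.X1) (Submodule.zero_mem _) (Submodule.zero_mem _)
      (D.kV_ex_mP h0) (D.kV_ex_mP h1) z hzd hz0
    obtain ⟨w', hw', g1, g2⟩ := wt_comp_ex i0.wts (D.kV.tk C).d0 (D.kV.ev0 C) (n := n) (m := w)
      (by rw [hw]; exact hzw) hw0
    have h3 : (Fr.ft 1 w' : Fr D (D.kV.tk C).X0) ∈ wt D.F D.ph (D.kpT C).P.X0 n := Fr.ft_wt1 hw'
    refine ⟨⟨Fr.ft 1 w', D.mem_fil_of hn h3⟩, (D.mem_wt_sub _ _ _).2 h3, ?_, ?_⟩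
    · have h4 : (D.epsN C N).f0 ⟨Fr.ft 1 w', D.mem_fil_of hn h3⟩ = 0 := by
        show D.eps0 C (Fr.ft 1 w') = 0
        rw [eps0_ft, g2, smul_zero]
      rw [h4]
      exact Submodule.zero_mem _
    · refine (hb.mP_fil N _).2 ?_
      exact D.rep_bd (D.kpT C).P.d0 (D.kV.tk C).d0 _ (fun s z => (D.kpT C).P_d0 s z) x.1 w'
        (by rw [g1, hw, hz])
  · refine ⟨0, AddSubgroup.zero_mem _, ?_, ?_⟩
    · rw [map_zero]
      exact Submodule.zero_mem _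
    · rw [map_zero, sub_zero]
      exact (hb.mP_fil N _).2 (hb.wt_fil_mP (lt_of_not_ge hn) hx' x.2)

/-- `eps` is, modulo the maximal ideal, surjective with acyclic kernel. -/
theorem sq_eps (C : Ch.{u} D.R) (f0 : D.IsF C.X0) (f1 : D.IsF C.X1)
    (i0 : D.IsW (D.kV.tk C).X0) (i1 : D.IsW (D.kV.tk C).X1) (N : ℤ)
    (h0 : D.fil C.X0 N = ⊤) (h1 : D.fil C.X1 N = ⊤) : D.SQ (D.epsN C N) where
  s0 := D.rep_s0 f0 h0
  s1 := D.rep_s1 f1 h1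
  k0 := D.rep_k0 f0 f1 i0 i1
  k1 := D.rep_k1 f0 f1 i0 i1

end Dat

end MSA
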