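import Mathlib
import Pool.Agent.MSA.Hs
import Pool.Agent.MSA.Rmp
import Pool.Agent.MSA.ChA
import Pool.Agent.MSA.PwEu

/-!
# The Koszul complex of a finitely generated module is exact in large weights (MS, PART RES, section 7a)

PROOFS.
`wt_killed`: `fin_of_killed` (a finite set of integers is bounded above), `hf_eq_zero` with `IsG.isW`.
`exw_of_hom`: `x ∈ wt X0 n`, `d0 x = 0`: the class of `⟨x, _⟩ ∈ ker d0` in `X.H0` lies in `wt X.H0 n = ⊥` (`wt_map` for `mkQ`;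
the weight of the element `⟨x, _⟩` of the submodule: `Subtype.ext`), so `x = d1 y'`; `x` as an element of `LinearMap.range X.d1` has
weight `n`, and `wt_lift` for the surjection `X.d1.rangeRestrict` gives `y ∈ wt X1 n` with `d1 y = x`. The same for `H1`.
`isG_h0`, `isG_h1`: `fin`: `hom_fin0`, `hom_fin1` (MSA/KHo; `D.S` is noetherian); `wts`: `wts_tot`, `wts_sub`, `wts_quo`.
`exw_kV`: `hom_y0`, `hom_y1` (for the datum `D.kV` the element `K.y j` is `X j`), `wt_killed`, `exw_of_hom`; the maximum of the two bounds.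
-/

set_option autoImplicit false
set_option linter.unusedSectionVars false

noncomputable section

namespace MSA

universe u v w

open MvPolynomial

namespace Dat

variable (D : Dat.{u})

variable {M : Type u} [AddCommGroup M] [Module D.R M]

private theorem rfd_hm {X Y Z : Type u} [AddCommGroup X] [AddCommGroup Y] [AddCommGroup Z]
    [Module D.R X] [Module D.R Y] [Module D.R Z] (g : X →ₗ[D.R] Y) (f : Y →ₗ[D.R] Z)
    (hX : Wts D.F D.ph X D.p D.b) {n : ℤ} (e : wt D.F D.ph (Hm g f) n = ⊥) {x : Y}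
    (hx : x ∈ wt D.F D.ph Y n) (hfx : f x = 0) : ∃ y ∈ wt D.F D.ph X n, g y = x := by
  have h1 : (⟨x, hfx⟩ : LinearMap.ker f) ∈ wt D.F D.ph (LinearMap.ker f) n :=
    fun c => Subtype.ext (hx c)
  have h2 := wt_map ((LinearMap.range g).submoduleOf (LinearMap.ker f)).mkQ h1
  have h3 : ((LinearMap.range g).submoduleOf (LinearMap.ker f)).mkQ ⟨x, hfx⟩ = 0 := by
    have h4 : ((LinearMap.range g).submoduleOf (LinearMap.ker f)).mkQ ⟨x, hfx⟩ ∈
        (⊥ : AddSubgroup (Hm g f)) := by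
      rw [← e]
      exact h2
    exact AddSubgroup.mem_bot.1 h4
  have h5' : (⟨x, hfx⟩ : LinearMap.ker f) ∈ (LinearMap.range g).submoduleOf (LinearMap.ker f) :=
    (Submodule.Quotient.mk_eq_zero _).1 h3
  have h5 : x ∈ LinearMap.range g := h5'
  have h6 : (⟨x, h5⟩ : LinearMap.range g) ∈ wt D.F D.ph (LinearMap.range g) n :=
    fun c => Subtype.ext (hx c)
  obtain ⟨y, hy, hgy⟩ := wt_lift hX g.rangeRestrict g.surjective_rangeRestrict h6
  exact ⟨y, hy, congrArg Subtype.val hgy⟩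

theorem wt_killed (h : D.IsG M) (hX : ∀ (i : Fin D.p) (m : M), iot D.ph (MvPolynomial.X i) • m = 0) :
    ∃ N : ℤ, ∀ n > N, wt D.F D.ph M n = ⊥ := by
  obtain ⟨N, hN⟩ := (D.fin_of_killed h hX).bddAbove
  refine ⟨N, fun n hn => ?_⟩
  by_contra hc
  have h1 : D.hf M n ≠ 0 := fun h2 => hc ((D.hf_eq_zero h.isW n).1 h2)
  exact absurd (hN h1) (not_le.2 hn)

theorem exw_of_hom (X : Ch.{u} D.R) (h0 : Wts D.F D.ph X.X0 D.p D.b)
    (h1 : Wts D.F D.ph X.X1 D.p D.b) (n : ℤ) (e0 : wt D.F D.ph X.H0 n = ⊥)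
    (e1 : wt D.F D.ph X.H1 n = ⊥) : D.ExW X n := by
  exact ⟨fun x hx hdx => D.rfd_hm X.d1 X.d0 h1 e0 hx hdx,
    fun x hx hdx => D.rfd_hm X.d0 X.d1 h0 e1 hx hdx⟩

theorem isG_h0 (h : D.IsG M) : D.IsG (D.kV.ch M).H0 := by
  have i1 : IsNoetherianRing D.S := MvPolynomial.isNoetherianRing
  have w0 : D.IsW (D.kV.ch M).X0 := D.isW_sub (D.isW_tot h.isW) _
  have c0 : D.IsW (D.kV.ch M).H0 := cls_H0 (C := D.cW) (D.kV.ch M) w0
  exact ⟨hom_fin0 D.kV h.fin, c0.wts⟩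

theorem isG_h1 (h : D.IsG M) : D.IsG (D.kV.ch M).H1 := by
  have i1 : IsNoetherianRing D.S := MvPolynomial.isNoetherianRing
  have w1 : D.IsW (D.kV.ch M).X1 := D.isW_sub (D.isW_tot h.isW) _
  have c1 : D.IsW (D.kV.ch M).H1 := cls_H1 (C := D.cW) (D.kV.ch M) w1
  exact ⟨hom_fin1 D.kV h.fin, c1.wts⟩

theorem exw_kV (h : D.IsG M) : ∃ N : ℤ, ∀ n > N, D.ExW (D.kV.ch M) n := by
  obtain ⟨N0, h0⟩ := D.wt_killed (D.isG_h0 h) (fun i m => hom_y0 D.kV i m)
  obtain ⟨N1, h1⟩ := D.wt_killed (D.isG_h1 h) (fun i m => hom_y1 D.kV i m)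
  have w0 : D.IsW (D.kV.ch M).X0 := D.isW_sub (D.isW_tot h.isW) _
  have w1 : D.IsW (D.kV.ch M).X1 := D.isW_sub (D.isW_tot h.isW) _
  refine ⟨max N0 N1, fun n hn => D.exw_of_hom (D.kV.ch M) w0.wts w1.wts n
    (h0 n (lt_of_le_of_lt (le_max_left _ _) hn)) (h1 n (lt_of_le_of_lt (le_max_right _ _) hn))⟩

end Dat

end MSA
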