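import Mathlib
import Pool.Agent.MSA.Rpb

/-!
# An element which kills `B` acts as zero on the homology of `P(B)` (MS, PART RES, section 4b)

`rt f`: the additive map `s ⊗ z ↦ s ⊗ f z` for an `S`-linear `f` (not compatible with the generators).
`rs t = rt (iot t • ·)`. `Hty k t`: a homotopy between `rs t` and the multiplication by `t`, compatible with both actions
of `S`.

PROOFS.
`rt_iot`: `Fr.ind`, `iot_ft`. `rs_one` etc.: `Fr.hom_ext` or `Fr.ind`, `rt_ft`.
`D0`, `D1` are the differentials of `k.P` with the types spelled out (`k.P.d0 x = k.D0 x` is `rfl`).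
`rs_d0`: `rs t (D (ft s z)) = ft s (t d z) - ∑ ft (s X_j) (t k_j z) = D (ft s (t z))` (`Fr.ind`, `D0_ft`, `k.s0`, `map_smul`).
`Hty` exists for every `t : S` (`MvPolynomial.induction_on`):
* `t = C l`: `h = 0`; `rs (C l) x = iot (C l) • x` on pure tensors (`ft_C`, `iot_ft`).
* `t + t'`: the sum of the homotopies.
* `t' * X j`: first `X j`: `h0 = rt (o.o0 j)`, `h1 = rt (o.o1 j)`: `D (ft s (o z)) + rt o (D (ft s z)) = ft s ((d o + o d) z) - ∑_i ft (s X_i) ((k_i o_j + o_j k_i) z)`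
  `= ft s (X_j z) - ft (s X_j) z` (`o.d0`, `o.k0`); compatible with `rs t'` by `o.s0`.
  Products: if `h`, `h'` are homotopies for `t`, `t'`, then `h'' x = h (rs t' x) + iot t • h' x` is one for `t t'`:
  `D h'' + h'' D = (rs t - t) rs t' + t (rs t' - t') = rs (t t') - t t'` (`rs t'` commutes with `D`, `D` and `h'` are compatible with `iot t`; `rs t` commutes
  with `iot`).
`hty0`: `rs s = 0` because `iot s • z = 0` for all `z`; so `D (h x) = - iot s • x` for a cycle `x`, `y = - h x`.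
-/

set_option autoImplicit false
set_option linter.unusedSectionVars false

noncomputable section

namespace MSA

universe u v w

open MvPolynomial

namespace Fr

variable {D : Dat.{u}} {Z Z' : Type u} [AddCommGroup Z] [Module D.R Z] [AddCommGroup Z']
variable [Module D.R Z']

/-- `s ⊗ z ↦ s ⊗ f z` -/
def rt (f : Z →+ Z') (hf : ∀ (s : D.S) z, f (iot D.ph s • z) = iot D.ph s • f z) :
    Fr D Z →+ Fr D Z' := bi
    { toFun := fun s =>
        { toFun := fun z => ft s (f z)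
          map_zero' := by rw [map_zero, ft_zero_right]
          map_add' := fun x y => by rw [map_add, ft_add_right] }
      map_zero' := by
        refine AddMonoidHom.ext fun z => ?_
        show ft 0 (f z) = (0 : Fr D Z')
        rw [ft_zero_left]
      map_add' := fun x y => by
        refine AddMonoidHom.ext fun z => ?_
        show ft (x + y) (f z) = (ft x (f z) + ft y (f z) : Fr D Z')
        rw [ft_add_left] }
    (fun l s z => by
      show ft (C l * s) (f z) = (ft s (f (iot D.ph (C l) • z)) : Fr D Z')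
      rw [hf, ft_C])

theorem rt_ft (f : Z →+ Z') (hf : ∀ (s : D.S) z, f (iot D.ph s • z) = iot D.ph s • f z) (s : D.S)
    (z : Z) : rt f hf (ft s z) = ft s (f z) := rfl

theorem rt_iot (f : Z →+ Z') (hf : ∀ (s : D.S) z, f (iot D.ph s • z) = iot D.ph s • f z)
    (t : D.S) (x : Fr D Z) : rt f hf (iot D.ph t • x) = iot D.ph t • rt f hf x := by
  refine ind (P := fun x => rt f hf (iot D.ph t • x) = iot D.ph t • rt f hf x) x ?_ ?_ ?_
  · show rt f hf (iot D.ph t • (0 : Fr D Z)) = iot D.ph t • rt f hf 0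
    rw [smul_zero, map_zero, smul_zero]
  · intro s z
    show rt f hf (iot D.ph t • ft s z) = iot D.ph t • rt f hf (ft s z)
    rw [iot_ft, rt_ft, rt_ft, iot_ft]
  · intro a b ha hb
    show rt f hf (iot D.ph t • (a + b)) = iot D.ph t • rt f hf (a + b)
    rw [smul_add, map_add, map_add, smul_add, ha, hb]

/-- the action of `S` on the right factor -/
def rs (t : D.S) : Fr D Z →+ Fr D Z :=
  rt (DistribSMul.toAddMonoidHom Z (iot D.ph t)) (fun s z => by
    show iot D.ph t • iot D.ph s • z = iot D.ph s • iot D.ph t • z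
    rw [← mul_smul, ← mul_smul, ← map_mul, ← map_mul, mul_comm])

theorem rs_ft (t s : D.S) (z : Z) : rs t (ft s z : Fr D Z) = ft s (iot D.ph t • z) := rfl

theorem rs_iot (t s : D.S) (x : Fr D Z) : rs t (iot D.ph s • x) = iot D.ph s • rs t x :=
  rt_iot _ _ _ _

theorem rs_add (t t' : D.S) (x : Fr D Z) : rs (t + t') x = rs t x + rs t' x := by
  have h : rs (Z := Z) (t + t') = rs t + rs t' := by
    refine hom_ext fun s z => ?_
    show (ft s (iot D.ph (t + t') • z) : Fr D Z) =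
      ft s (iot D.ph t • z) + ft s (iot D.ph t' • z)
    rw [map_add, add_smul, ft_add_right]
  exact congrArg (fun f : Fr D Z →+ Fr D Z => f x) h

theorem rs_mul (t t' : D.S) (x : Fr D Z) : rs (t * t') x = rs t (rs t' x) := by
  have h : rs (Z := Z) (t * t') = (rs t).comp (rs t') := by
    refine hom_ext fun s z => ?_
    show (ft s (iot D.ph (t * t') • z) : Fr D Z) = ft s (iot D.ph t • iot D.ph t' • z)
    rw [map_mul, mul_smul]
  exact congrArg (fun f : Fr D Z →+ Fr D Z => f x) h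

private theorem rs_comm (t t' : D.S) (x : Fr D Z) : rs t (rs t' x) = rs t' (rs t x) := by
  rw [← rs_mul, ← rs_mul, mul_comm]

private theorem rt_rs (f : Z →+ Z') (hf : ∀ (s : D.S) z, f (iot D.ph s • z) = iot D.ph s • f z)
    (t : D.S) (x : Fr D Z) : rt f hf (rs t x) = rs t (rt f hf x) := by
  have h : (rt f hf).comp (rs t) = (rs t).comp (rt f hf) := by
    refine hom_ext fun s z => ?_
    show (ft s (f (iot D.ph t • z)) : Fr D Z') = ft s (iot D.ph t • f z)
    rw [hf]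
  exact congrArg (fun f : Fr D Z →+ Fr D Z' => f x) h

theorem rs_C (l : D.L) (x : Fr D Z) : rs (C l) x = iot D.ph (C l) • x := by
  have h : rs (Z := Z) (C l) = DistribSMul.toAddMonoidHom (Fr D Z) (iot D.ph (C l)) := by
    refine hom_ext fun s z => ?_
    show (ft s (iot D.ph (C l) • z) : Fr D Z) = iot D.ph (C l) • ft s z
    rw [iot_ft, ft_C]
  exact congrArg (fun f : Fr D Z →+ Fr D Z => f x) h

theorem rs_eq_zero (t : D.S) (h : ∀ z : Z, iot D.ph t • z = 0) (x : Fr D Z) : rs t x = 0 := by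
  have h : rs (Z := Z) t = 0 := by
    refine hom_ext fun s z => ?_
    show (ft s (iot D.ph t • z) : Fr D Z) = 0
    rw [h, ft_zero_right]
  exact congrArg (fun f : Fr D Z →+ Fr D Z => f x) h

end Fr

namespace Kp

variable {D : Dat.{u}} {B : Ch.{u} D.R} (k : Kp D B)

/-- the differential of `P(B)` on `Fr D B.X0` -/
def D0 : Fr D B.X0 →ₗ[D.R] Fr D B.X1 := k.P.d0

/-- the differential of `P(B)` on `Fr D B.X1` -/
def D1 : Fr D B.X1 →ₗ[D.R] Fr D B.X0 := k.P.d1

theorem D0_ft (s : D.S) (z : B.X0) : k.D0 (Fr.ft s z) =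
    (Fr.ft s (B.d0 z) - ∑ j, Fr.ft (s * MvPolynomial.X j) (k.k0 j z) : Fr D B.X1) := k.P_d0 s z

theorem D1_ft (s : D.S) (z : B.X1) : k.D1 (Fr.ft s z) =
    (Fr.ft s (B.d1 z) - ∑ j, Fr.ft (s * MvPolynomial.X j) (k.k1 j z) : Fr D B.X0) := k.P_d1 s z

theorem rs_d0 (t : D.S) (x : Fr D B.X0) : Fr.rs t (k.D0 x) = k.D0 (Fr.rs t x) := by
  have h : (Fr.rs (Z := B.X1) t).comp (k.D0 : Fr D B.X0 →+ Fr D B.X1) =
      (k.D0 : Fr D B.X0 →+ Fr D B.X1).comp (Fr.rs t) := by
    refine Fr.hom_ext fun s z => ?_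
    show Fr.rs t (k.D0 (Fr.ft s z)) = k.D0 (Fr.rs t (Fr.ft s z))
    rw [D0_ft, Fr.rs_ft, D0_ft, map_sub, map_sum, Fr.rs_ft, map_smul]
    congr 1
    refine Finset.sum_congr rfl fun j _ => ?_
    rw [Fr.rs_ft, k.s0]
  exact congrArg (fun f : Fr D B.X0 →+ Fr D B.X1 => f x) h

theorem rs_d1 (t : D.S) (x : Fr D B.X1) : Fr.rs t (k.D1 x) = k.D1 (Fr.rs t x) := by
  have h : (Fr.rs (Z := B.X0) t).comp (k.D1 : Fr D B.X1 →+ Fr D B.X0) =
      (k.D1 : Fr D B.X1 →+ Fr D B.X0).comp (Fr.rs t) := by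
    refine Fr.hom_ext fun s z => ?_
    show Fr.rs t (k.D1 (Fr.ft s z)) = k.D1 (Fr.rs t (Fr.ft s z))
    rw [D1_ft, Fr.rs_ft, D1_ft, map_sub, map_sum, Fr.rs_ft, map_smul]
    congr 1
    refine Finset.sum_congr rfl fun j _ => ?_
    rw [Fr.rs_ft, k.s1]
  exact congrArg (fun f : Fr D B.X1 →+ Fr D B.X0 => f x) h

/-- a homotopy between the two actions of `t` -/
structure Hty (t : D.S) where
  h0 : Fr D B.X0 →+ Fr D B.X1
  h1 : Fr D B.X1 →+ Fr D B.X0
  i0 : ∀ (s : D.S) x, h0 (iot D.ph s • x) = iot D.ph s • h0 x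
  i1 : ∀ (s : D.S) x, h1 (iot D.ph s • x) = iot D.ph s • h1 x
  r0 : ∀ (s : D.S) x, h0 (Fr.rs s x) = Fr.rs s (h0 x)
  r1 : ∀ (s : D.S) x, h1 (Fr.rs s x) = Fr.rs s (h1 x)
  e0 : ∀ x, k.D1 (h0 x) + h1 (k.D0 x) = Fr.rs t x - iot D.ph t • x
  e1 : ∀ x, k.D0 (h1 x) + h0 (k.D1 x) = Fr.rs t x - iot D.ph t • x

variable {k}

theorem hty_C (l : D.L) : Nonempty (Hty k (C l)) := by
  refine ⟨⟨0, 0, ?_, ?_, ?_, ?_, ?_, ?_⟩⟩
  · intro s x
    rw [AddMonoidHom.zero_apply, AddMonoidHom.zero_apply, smul_zero]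
  · intro s x
    rw [AddMonoidHom.zero_apply, AddMonoidHom.zero_apply, smul_zero]
  · intro s x
    rw [AddMonoidHom.zero_apply, AddMonoidHom.zero_apply, map_zero]
  · intro s x
    rw [AddMonoidHom.zero_apply, AddMonoidHom.zero_apply, map_zero]
  · intro x
    rw [AddMonoidHom.zero_apply, AddMonoidHom.zero_apply, map_zero, add_zero, Fr.rs_C, sub_self]
  · intro x
    rw [AddMonoidHom.zero_apply, AddMonoidHom.zero_apply, map_zero, add_zero, Fr.rs_C, sub_self]

theorem Hty.add {t t' : D.S} (h : Hty k t) (h' : Hty k t') : Nonempty (Hty k (t + t')) := by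
  refine ⟨⟨h.h0 + h'.h0, h.h1 + h'.h1, ?_, ?_, ?_, ?_, ?_, ?_⟩⟩
  · intro s x
    rw [AddMonoidHom.add_apply, AddMonoidHom.add_apply, smul_add, h.i0, h'.i0]
  · intro s x
    rw [AddMonoidHom.add_apply, AddMonoidHom.add_apply, smul_add, h.i1, h'.i1]
  · intro s x
    rw [AddMonoidHom.add_apply, AddMonoidHom.add_apply, map_add, h.r0, h'.r0]
  · intro s x
    rw [AddMonoidHom.add_apply, AddMonoidHom.add_apply, map_add, h.r1, h'.r1]
  · intro x
    have e := h.e0 x
    have e' := h'.e0 x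
    rw [AddMonoidHom.add_apply, AddMonoidHom.add_apply, map_add, Fr.rs_add, map_add, add_smul,
      add_sub_add_comm, ← e, ← e']
    abel
  · intro x
    have e := h.e1 x
    have e' := h'.e1 x
    rw [AddMonoidHom.add_apply, AddMonoidHom.add_apply, map_add, Fr.rs_add, map_add, add_smul,
      add_sub_add_comm, ← e, ← e']
    abel

private theorem smul_iot_comm {Y : Type u} [AddCommGroup Y] [Module D.R Y] (s t : D.S) (y : Y) :
    iot D.ph s • iot D.ph t • y = iot D.ph t • iot D.ph s • y := by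
  rw [← mul_smul, ← mul_smul, ← map_mul, ← map_mul, mul_comm]

theorem Hty.mul {t t' : D.S} (h : Hty k t) (h' : Hty k t') : Nonempty (Hty k (t * t')) := by
  have a0 : ∀ x, (h.h0.comp (Fr.rs t') +
      (DistribSMul.toAddMonoidHom (Fr D B.X1) (iot D.ph t)).comp h'.h0) x =
      h.h0 (Fr.rs t' x) + iot D.ph t • h'.h0 x := fun x => rfl
  have a1 : ∀ x, (h.h1.comp (Fr.rs t') +
      (DistribSMul.toAddMonoidHom (Fr D B.X0) (iot D.ph t)).comp h'.h1) x =
      h.h1 (Fr.rs t' x) + iot D.ph t • h'.h1 x := fun x => rfl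
  refine ⟨⟨h.h0.comp (Fr.rs t') +
      (DistribSMul.toAddMonoidHom (Fr D B.X1) (iot D.ph t)).comp h'.h0,
    h.h1.comp (Fr.rs t') +
      (DistribSMul.toAddMonoidHom (Fr D B.X0) (iot D.ph t)).comp h'.h1, ?_, ?_, ?_, ?_, ?_, ?_⟩⟩
  · intro s x
    rw [a0, a0, Fr.rs_iot, h.i0, h'.i0, smul_add, smul_iot_comm t s]
  · intro s x
    rw [a1, a1, Fr.rs_iot, h.i1, h'.i1, smul_add, smul_iot_comm t s]
  · intro s x
    rw [a0, a0, Fr.rs_comm t' s, h.r0, h'.r0, map_add, Fr.rs_iot]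
  · intro s x
    rw [a1, a1, Fr.rs_comm t' s, h.r1, h'.r1, map_add, Fr.rs_iot]
  · intro x
    have e := h.e0 (Fr.rs t' x)
    have e' := congrArg (fun y => iot D.ph t • y) (h'.e0 x)
    beta_reduce at e'
    rw [smul_add, smul_sub] at e'
    rw [a0, a1, map_add, map_smul, rs_d0, Fr.rs_mul, map_mul, mul_smul]
    rw [eq_sub_iff_add_eq] at e e' ⊢
    rw [← e, ← sub_eq_zero]
    have e2 := sub_eq_zero.2 e'
    rw [← e2]
    abel
  · intro x
    have e := h.e1 (Fr.rs t' x)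
    have e' := congrArg (fun y => iot D.ph t • y) (h'.e1 x)
    beta_reduce at e'
    rw [smul_add, smul_sub] at e'
    rw [a0, a1, map_add, map_smul, rs_d1, Fr.rs_mul, map_mul, mul_smul]
    rw [eq_sub_iff_add_eq] at e e' ⊢
    rw [← e, ← sub_eq_zero]
    have e2 := sub_eq_zero.2 e'
    rw [← e2]
    abel

theorem hty_X (o : Ko k) (j : Fin D.p) : Nonempty (Hty k (MvPolynomial.X j)) := by
  refine ⟨⟨Fr.rt (o.o0 j) (o.s0 j), Fr.rt (o.o1 j) (o.s1 j), fun s x => Fr.rt_iot _ _ _ _,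
    fun s x => Fr.rt_iot _ _ _ _, fun s x => Fr.rt_rs _ _ _ _, fun s x => Fr.rt_rs _ _ _ _,
    ?_, ?_⟩⟩
  · intro x
    have h : (k.D1 : Fr D B.X1 →+ Fr D B.X0).comp (Fr.rt (o.o0 j) (o.s0 j)) +
        (Fr.rt (o.o1 j) (o.s1 j)).comp (k.D0 : Fr D B.X0 →+ Fr D B.X1) =
        Fr.rs (MvPolynomial.X j) -
          DistribSMul.toAddMonoidHom (Fr D B.X0) (iot D.ph (MvPolynomial.X j)) := by
      refine Fr.hom_ext fun s z => ?_
      show k.D1 (Fr.rt (o.o0 j) (o.s0 j) (Fr.ft s z)) +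
        Fr.rt (o.o1 j) (o.s1 j) (k.D0 (Fr.ft s z)) =
          Fr.rs (MvPolynomial.X j) (Fr.ft s z) - iot D.ph (MvPolynomial.X j) • Fr.ft s z
      rw [Fr.rt_ft, D1_ft, D0_ft, map_sub, map_sum, Fr.rt_ft, Fr.rs_ft, Fr.iot_ft,
        Finset.sum_congr rfl (fun i _ => Fr.rt_ft (o.o1 j) (o.s1 j) _ _), sub_add_sub_comm,
        ← Fr.ft_add_right, o.d0, ← Finset.sum_add_distrib]
      congr 1
      rw [Finset.sum_congr rfl (fun i _ => (Fr.ft_add_right (s * MvPolynomial.X i) _ _).symm),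
        Finset.sum_eq_single j]
      · rw [o.k0, if_pos rfl, mul_comm]
      · intro i _ hij
        rw [o.k0, if_neg hij, Fr.ft_zero_right]
      · intro hj
        exact absurd (Finset.mem_univ j) hj
    exact congrArg (fun f : Fr D B.X0 →+ Fr D B.X0 => f x) h
  · intro x
    have h : (k.D0 : Fr D B.X0 →+ Fr D B.X1).comp (Fr.rt (o.o1 j) (o.s1 j)) +
        (Fr.rt (o.o0 j) (o.s0 j)).comp (k.D1 : Fr D B.X1 →+ Fr D B.X0) =
        Fr.rs (MvPolynomial.X j) -
          DistribSMul.toAddMonoidHom (Fr D B.X1) (iot D.ph (MvPolynomial.X j)) := by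
      refine Fr.hom_ext fun s z => ?_
      show k.D0 (Fr.rt (o.o1 j) (o.s1 j) (Fr.ft s z)) +
        Fr.rt (o.o0 j) (o.s0 j) (k.D1 (Fr.ft s z)) =
          Fr.rs (MvPolynomial.X j) (Fr.ft s z) - iot D.ph (MvPolynomial.X j) • Fr.ft s z
      rw [Fr.rt_ft, D0_ft, D1_ft, map_sub, map_sum, Fr.rt_ft, Fr.rs_ft, Fr.iot_ft,
        Finset.sum_congr rfl (fun i _ => Fr.rt_ft (o.o0 j) (o.s0 j) _ _), sub_add_sub_comm,
        ← Fr.ft_add_right, o.d1, ← Finset.sum_add_distrib]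
      congr 1
      rw [Finset.sum_congr rfl (fun i _ => (Fr.ft_add_right (s * MvPolynomial.X i) _ _).symm),
        Finset.sum_eq_single j]
      · rw [o.k1, if_pos rfl, mul_comm]
      · intro i _ hij
        rw [o.k1, if_neg hij, Fr.ft_zero_right]
      · intro hj
        exact absurd (Finset.mem_univ j) hj
    exact congrArg (fun f : Fr D B.X1 →+ Fr D B.X1 => f x) h

theorem exists_hty (o : Ko k) (t : D.S) : Nonempty (Hty k t) := by
  refine MvPolynomial.induction_on (motive := fun t => Nonempty (Hty k t)) t (fun l => hty_C l)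
    ?_ ?_
  · rintro a b ⟨ha⟩ ⟨hb⟩
    exact ha.add hb
  · rintro a j ⟨ha⟩
    obtain ⟨hj⟩ := hty_X o j
    exact ha.mul hj

private theorem hty0_aux (o : Ko k) (s : D.S) (a0 : ∀ x : B.X0, iot D.ph s • x = 0)
    (x : Fr D B.X0) (hx : k.D0 x = 0) : ∃ y : Fr D B.X1, k.D1 y = iot D.ph s • x := by
  obtain ⟨h⟩ := exists_hty o s
  have e := h.e0 x
  rw [hx, map_zero, add_zero, Fr.rs_eq_zero s a0, zero_sub] at e
  refine ⟨-(h.h0 x), ?_⟩
  rw [map_neg, e, neg_neg]

private theorem hty1_aux (o : Ko k) (s : D.S) (a1 : ∀ x : B.X1, iot D.ph s • x = 0)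
    (x : Fr D B.X1) (hx : k.D1 x = 0) : ∃ y : Fr D B.X0, k.D0 y = iot D.ph s • x := by
  obtain ⟨h⟩ := exists_hty o s
  have e := h.e1 x
  rw [hx, map_zero, add_zero, Fr.rs_eq_zero s a1, zero_sub] at e
  refine ⟨-(h.h1 x), ?_⟩
  rw [map_neg, e, neg_neg]

theorem hty0 (o : Ko k) (s : D.S) (a0 : ∀ x : B.X0, iot D.ph s • x = 0)
    (a1 : ∀ x : B.X1, iot D.ph s • x = 0) (x : k.P.X0) (hx : k.P.d0 x = 0) :
    ∃ y, k.P.d1 y = iot D.ph s • x :=
  hty0_aux o s a0 x hx

theorem hty1 (o : Ko k) (s : D.S) (a0 : ∀ x : B.X0, iot D.ph s • x = 0)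
    (a1 : ∀ x : B.X1, iot D.ph s • x = 0) (x : k.P.X1) (hx : k.P.d1 x = 0) :
    ∃ y, k.P.d0 y = iot D.ph s • x :=
  hty1_aux o s a1 x hx

end Kp

end MSA
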