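import Mathlib
import Pool.Agent.MSA.Rev

/-!
# Truncation of `S ⊗_L Z` (MS, PART RES, section 3c)

PROOFS.
`exists_trunc`: choose for every `z` the decomposition `f` of `wt_decomp` and put `π z = ∑ f n` over `n ≤ N` in the support;
by `wt_indep` the components are unique (the difference of two decompositions), which gives additivity and
the compatibility with `iot (C l)` and `gam g` (all of these preserve weights: `wtL` or `iot_wt` for `k = 0`, `h.tau`, and `th c` acts by
a scalar). A short way: for `z ∈ wt n` the value is `z` or `0`, and a decomposition of `z + z'` is the sum of the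
decompositions.
`trunc_nat`: `Z` is the sum of its weight spaces (`wt_decomp`, `Finsupp.sum`, `map_sum`), on `wt n` both sides are `f z` or `0`.
`tr`: below. `tr_ft`: `Fr.lift_ft`, `ft_eq`. `tr_mem`: pure tensor `ft s z`: decompose `z`: for `z` of weight `n > N` it is `0`,
for `n ≤ N` it is `iot s • ft 1 z` (`ft_wt1`, `mem_fil_of`). `tr_id`: `fil` is the span of the elements of weights `≤ N`, and on
`fr_wt_span`-generators `ft s z` of weight `n ≤ N` with `z` of weight `n - k ≤ N` the map is the identity (`Submodule.span_induction`;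
`tr` is linear). `tr_nat`: on pure tensors, `trunc_nat`.
`map_inj`: `Fr.map f` is the map `LinearMap.lTensor D.S (D.lL f)` (on pure tensors), injective by flatness over the field `D.L`
(`Module.Flat.lTensor_preserves_injective_linearMap`). `map_surj`: `ft s z = map (ft s z')`. `map_ex`: `lTensor_exact`
(`Function.Exact`). `map_surj_fil`: `y = tr y = tr (map f x) = map f (tr x)`. `map_ex_fil`: `x = map i x'`, `x = tr x = map i (tr x')`.
-/

set_option autoImplicit false
set_option linter.unusedSectionVars false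

noncomputable section

namespace MSA

universe u v w

open MvPolynomial TensorProduct

/-- A truncation of the graded module `Z`: identity in weights `≤ N`, zero in weights `> N`. -/
structure Trn (D : Dat.{u}) (Z : Type u) [AddCommGroup Z] [Module D.R Z] (N : ℤ) where
  π : Z →+ Z
  hL : ∀ (l : D.L) (z : Z), π (iot D.ph (C l) • z) = iot D.ph (C l) • π z
  hg : ∀ (g : Gn D.F) (z : Z), π (gam D.ph g • z) = gam D.ph g • π z
  le : ∀ n ≤ N, ∀ z ∈ wt D.F D.ph Z n, π z = z
  gt : ∀ n > N, ∀ z ∈ wt D.F D.ph Z n, π z = 0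

namespace Fr

variable {D : Dat.{u}} {Z Z' Z'' : Type u} [AddCommGroup Z] [Module D.R Z] [AddCommGroup Z']
variable [Module D.R Z'] [AddCommGroup Z''] [Module D.R Z'']

private theorem wt_ind (h : Wts D.F D.ph Z D.p D.b) {P : Z → Prop} (z : Z) (h0 : P 0)
    (hw : ∀ n, ∀ z ∈ wt D.F D.ph Z n, P z) (ha : ∀ x y, P x → P y → P (x + y)) : P z := by
  have hm : z ∈ ⨆ n, wt D.F D.ph Z n := by
    rw [h.span]
    exact AddSubgroup.mem_top z
  exact AddSubgroup.iSup_induction (fun n => wt D.F D.ph Z n) (C := P) hm hw h0 ha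

private theorem wt_ext (h : Wts D.F D.ph Z D.p D.b) {A : Type*} [AddCommGroup A] (f g : Z →+ A)
    (hw : ∀ n, ∀ z ∈ wt D.F D.ph Z n, f z = g z) (z : Z) : f z = g z := by
  refine wt_ind h (P := fun z => f z = g z) z ?_ hw ?_
  · show f 0 = g 0
    rw [map_zero, map_zero]
  · intro x y hx hy
    show f (x + y) = g (x + y)
    rw [map_add, map_add, hx, hy]

/-- the components of `z` -/
private def dcm (h : Wts D.F D.ph Z D.p D.b) (z : Z) : ℤ →₀ Z := (wt_decomp h z).choose

private theorem dcm_wt (h : Wts D.F D.ph Z D.p D.b) (z : Z) (n : ℤ) :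
    dcm h z n ∈ wt D.F D.ph Z n := (wt_decomp h z).choose_spec.1 n

private theorem dcm_sum (h : Wts D.F D.ph Z D.p D.b) (z : Z) :
    (dcm h z).sum (fun _ x => x) = z := (wt_decomp h z).choose_spec.2

private theorem dcm_eq (h : Wts D.F D.ph Z D.p D.b) {z : Z} {f : ℤ →₀ Z}
    (hf : ∀ n, f n ∈ wt D.F D.ph Z n) (hs : f.sum (fun _ x => x) = z) : dcm h z = f := by
  rw [← sub_eq_zero]
  apply wt_indep (F := D.F) (φ := D.ph)
  · intro n
    rw [Finsupp.sub_apply]
    exact (wt D.F D.ph Z n).sub_mem (dcm_wt h z n) (hf n)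
  · rw [Finsupp.sum_sub_index (fun _ _ _ => rfl), dcm_sum, hs, sub_self]

/-- the part in the weights `≤ N` -/
private def trs (N : ℤ) (f : ℤ →₀ Z) : Z := f.sum (fun n x => if n ≤ N then x else 0)

private theorem trs_add (N : ℤ) (f g : ℤ →₀ Z) : trs N (f + g) = trs N f + trs N g := by
  unfold trs
  refine Finsupp.sum_add_index' (fun n => ?_) (fun n x y => ?_)
  · rw [ite_self]
  · by_cases hn : n ≤ N
    · rw [if_pos hn, if_pos hn, if_pos hn]
    · rw [if_neg hn, if_neg hn, if_neg hn, add_zero]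

private theorem trs_single (N n : ℤ) (z : Z) :
    trs N (Finsupp.single n z) = if n ≤ N then z else 0 := by
  unfold trs
  rw [Finsupp.sum_single_index (by rw [ite_self])]

/-- the truncation as an additive map -/
private def tpi (h : Wts D.F D.ph Z D.p D.b) (N : ℤ) : Z →+ Z where
  toFun z := trs N (dcm h z)
  map_zero' := by
    rw [dcm_eq h (f := 0) (fun n => (wt D.F D.ph Z n).zero_mem) Finsupp.sum_zero_index]
    exact Finsupp.sum_zero_index
  map_add' x y := by
    rw [← trs_add, dcm_eq h (z := x + y) (f := dcm h x + dcm h y)]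
    · intro n
      rw [Finsupp.add_apply]
      exact (wt D.F D.ph Z n).add_mem (dcm_wt h x n) (dcm_wt h y n)
    · rw [Finsupp.sum_add_index' (fun _ => rfl) (fun _ _ _ => rfl), dcm_sum, dcm_sum]

private theorem tpi_wt (h : Wts D.F D.ph Z D.p D.b) (N : ℤ) {n : ℤ} {z : Z}
    (hz : z ∈ wt D.F D.ph Z n) : tpi h N z = if n ≤ N then z else 0 := by
  show trs N (dcm h z) = _
  rw [dcm_eq h (z := z) (f := Finsupp.single n z), trs_single]
  · intro m
    by_cases hm : n = m
    · subst hm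
      rw [Finsupp.single_eq_same]
      exact hz
    · rw [Finsupp.single_eq_of_ne (Ne.symm hm)]
      exact (wt D.F D.ph Z m).zero_mem
  · exact Finsupp.sum_single_index rfl

private theorem smulC_wt {n : ℤ} {z : Z} (hz : z ∈ wt D.F D.ph Z n) (l : D.L) :
    iot D.ph (C l) • z ∈ wt D.F D.ph Z n := by
  have h1 := D.iot_wt (k := 0) (f := C l) (isHomogeneous_C _ _) hz
  rwa [Nat.cast_zero, add_zero] at h1

private theorem gam_wt (h : Wts D.F D.ph Z D.p D.b) {n : ℤ} {z : Z} (hz : z ∈ wt D.F D.ph Z n)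
    (g : Gn D.F) : gam D.ph g • z ∈ wt D.F D.ph Z n := by
  cases g with
  | tau => exact h.tau n z hz
  | th c =>
    have h1 := hz c
    have h2 : gam D.ph (Gn.th c) • z = iot D.ph (algebraMap D.F D.S ((c ^ n : D.Fˣ) : D.F)) • z := h1
    rw [h2]
    exact smulC_wt hz _

theorem exists_trunc (h : Wts D.F D.ph Z D.p D.b) (N : ℤ) : Nonempty (Trn D Z N) := by
  refine ⟨⟨tpi h N, fun l z => ?_, fun g z => ?_, fun n hn z hz => ?_, fun n hn z hz => ?_⟩⟩
  · refine wt_ext h ((tpi h N).comp (DistribSMul.toAddMonoidHom Z (iot D.ph (C l))))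
      ((DistribSMul.toAddMonoidHom Z (iot D.ph (C l))).comp (tpi h N)) (fun n z hz => ?_) z
    show tpi h N (iot D.ph (C l) • z) = iot D.ph (C l) • tpi h N z
    rw [tpi_wt h N hz, tpi_wt h N (smulC_wt hz l)]
    by_cases hn : n ≤ N
    · rw [if_pos hn, if_pos hn]
    · rw [if_neg hn, if_neg hn, smul_zero]
  · refine wt_ext h ((tpi h N).comp (DistribSMul.toAddMonoidHom Z (gam D.ph g)))
      ((DistribSMul.toAddMonoidHom Z (gam D.ph g)).comp (tpi h N)) (fun n z hz => ?_) z
    show tpi h N (gam D.ph g • z) = gam D.ph g • tpi h N z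
    rw [tpi_wt h N hz, tpi_wt h N (gam_wt h hz g)]
    by_cases hn : n ≤ N
    · rw [if_pos hn, if_pos hn]
    · rw [if_neg hn, if_neg hn, smul_zero]
  · rw [tpi_wt h N hz, if_pos hn]
  · rw [tpi_wt h N hz, if_neg (not_le.2 hn)]

theorem trunc_nat (h : Wts D.F D.ph Z D.p D.b) {N : ℤ} (t : Trn D Z N) (t' : Trn D Z' N)
    (f : Z →ₗ[D.R] Z') (z : Z) : f (t.π z) = t'.π (f z) := by
  refine wt_ext h (f.toAddMonoidHom.comp t.π) (t'.π.comp f.toAddMonoidHom) (fun n z hz => ?_) z
  show f (t.π z) = t'.π (f z)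
  by_cases hn : n ≤ N
  · rw [t.le n hn z hz, t'.le n hn (f z) (wt_map f hz)]
  · rw [t.gt n (not_le.1 hn) z hz, t'.gt n (not_le.1 hn) (f z) (wt_map f hz), map_zero]

/-- the truncation of the induced module -/
def tr {N : ℤ} (t : Trn D Z N) : Fr D Z →ₗ[D.R] Fr D Z :=
  lift
    { toFun := fun z => ft 1 (t.π z)
      map_zero' := by rw [map_zero, ft_zero_right]
      map_add' := fun x y => by rw [map_add, ft_add_right] }
    (fun l z => by
      show ft 1 (t.π (iot D.ph (C l) • z)) = iot D.ph (C l) • ft 1 (t.π z)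
      rw [t.hL, iot_ft, ft_C])
    (fun g z => by
      show ft 1 (t.π (gam D.ph g • z)) = gam D.ph g • ft 1 (t.π z)
      rw [t.hg, gam_ft, map_one])

theorem tr_ft {N : ℤ} (t : Trn D Z N) (s : D.S) (z : Z) :
    tr t (ft s z) = (ft s (t.π z) : Fr D Z) := by
  show iot D.ph s • ft 1 (t.π z) = (ft s (t.π z) : Fr D Z)
  rw [iot_ft, mul_one]

theorem tr_mem (h : Wts D.F D.ph Z D.p D.b) {N : ℤ} (t : Trn D Z N) (x : Fr D Z) :
    tr t x ∈ D.fil (Fr D Z) N := by
  refine ind (P := fun x => tr t x ∈ D.fil (Fr D Z) N) x ?_ ?_ ?_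
  · show tr t 0 ∈ D.fil (Fr D Z) N
    rw [map_zero]
    exact Submodule.zero_mem _
  · intro s z
    show tr t (ft s z) ∈ D.fil (Fr D Z) N
    rw [tr_ft]
    refine wt_ind h (P := fun z => (ft s (t.π z) : Fr D Z) ∈ D.fil (Fr D Z) N) z ?_ ?_ ?_
    · show (ft s (t.π 0) : Fr D Z) ∈ D.fil (Fr D Z) N
      rw [map_zero, ft_zero_right]
      exact Submodule.zero_mem _
    · intro n z hz
      show (ft s (t.π z) : Fr D Z) ∈ D.fil (Fr D Z) N
      by_cases hn : n ≤ N
      · rw [t.le n hn z hz, ft_eq]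
        exact Submodule.smul_mem _ _ (D.mem_fil_of hn (ft_wt1 hz))
      · rw [t.gt n (not_le.1 hn) z hz, ft_zero_right]
        exact Submodule.zero_mem _
    · intro a b ha hb
      show (ft s (t.π (a + b)) : Fr D Z) ∈ D.fil (Fr D Z) N
      rw [map_add, ft_add_right]
      exact Submodule.add_mem _ ha hb
  · intro a b ha hb
    show tr t (a + b) ∈ D.fil (Fr D Z) N
    rw [map_add]
    exact Submodule.add_mem _ ha hb

theorem tr_id (h : Wts D.F D.ph Z D.p D.b) {N : ℤ} (t : Trn D Z N) {x : Fr D Z}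
    (hx : x ∈ D.fil (Fr D Z) N) : tr t x = x := by
  have key : ∀ y ∈ D.fil (Fr D Z) N, tr t y = y := by
    intro y hy
    unfold Dat.fil at hy
    induction hy using Submodule.span_induction with
    | mem y hy =>
      obtain ⟨n, hn, hyn⟩ := hy
      have h1 := fr_wt_span h hyn
      clear hyn
      induction h1 using AddSubgroup.closure_induction with
      | mem y hy2 =>
        obtain ⟨k, s, z, -, hz, rfl⟩ := hy2
        rw [tr_ft, t.le (n - k) (by omega) z hz]
      | zero => rw [map_zero]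
      | add a b _ _ ha hb => rw [map_add, ha, hb]
      | neg a _ ha => rw [map_neg, ha]
    | zero => rw [map_zero]
    | add a b _ _ ha hb => rw [map_add, ha, hb]
    | smul r a _ ha => rw [map_smul, ha]
  exact key x hx

theorem tr_nat (h : Wts D.F D.ph Z D.p D.b) {N : ℤ} (t : Trn D Z N) (t' : Trn D Z' N)
    (f : Z →ₗ[D.R] Z') (x : Fr D Z) : map f (tr t x) = tr t' (map f x) := by
  refine ind (P := fun x => map f (tr t x) = tr t' (map f x)) x ?_ ?_ ?_
  · show map f (tr t 0) = tr t' (map f 0)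
    rw [map_zero, map_zero, map_zero]
  · intro s z
    show map f (tr t (ft s z)) = tr t' (map f (ft s z))
    rw [tr_ft, map_ft, map_ft, tr_ft, trunc_nat h t t' f z]
  · intro a b ha hb
    show map f (tr t (a + b)) = tr t' (map f (a + b))
    rw [map_add, map_add, map_add, map_add, ha, hb]

private theorem map_lt (f : Z →ₗ[D.R] Z') (x : Fr D Z) :
    map f x = (LinearMap.lTensor D.S (D.lL f) x : Fr D Z') := by
  refine ind (P := fun x => map f x = (LinearMap.lTensor D.S (D.lL f) x : Fr D Z')) x ?_ ?_ ?_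
  · show map f 0 = _
    rw [map_zero]
    exact (map_zero (LinearMap.lTensor D.S (D.lL f))).symm
  · intro s z
    show map f (ft s z) = _
    rw [map_ft]
    rfl
  · intro a b ha hb
    show map f (a + b) = _
    rw [map_add, ha, hb]
    exact (map_add (LinearMap.lTensor D.S (D.lL f)) a b).symm

theorem map_inj (f : Z →ₗ[D.R] Z') (hf : Function.Injective f) :
    Function.Injective (map f : Fr D Z →ₗ[D.R] Fr D Z') := by
  have h1 : Function.Injective (LinearMap.lTensor D.S (D.lL f)) :=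
    Module.Flat.lTensor_preserves_injective_linearMap (M := D.S) (D.lL f) hf
  intro x y hxy
  rw [map_lt, map_lt] at hxy
  exact h1 hxy

theorem map_surj (f : Z →ₗ[D.R] Z') (hf : Function.Surjective f) :
    Function.Surjective (map f : Fr D Z →ₗ[D.R] Fr D Z') := by
  intro y
  refine ind (P := fun y => ∃ x : Fr D Z, map f x = y) y ⟨0, map_zero _⟩ ?_ ?_
  · intro s z
    obtain ⟨z', rfl⟩ := hf z
    exact ⟨ft s z', map_ft f s z'⟩
  · rintro a b ⟨a', rfl⟩ ⟨b', rfl⟩
    exact ⟨a' + b', map_add _ _ _⟩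

theorem map_ex (i : Z' →ₗ[D.R] Z) (q : Z →ₗ[D.R] Z'') (h : ∀ z, q z = 0 ↔ ∃ z', i z' = z)
    (x : Fr D Z) : map q x = 0 ↔ ∃ x', map i x' = x := by
  have h1 : Function.Exact (D.lL i) (D.lL q) := fun z => h z
  have h2 := Module.Flat.lTensor_exact D.S h1 x
  rw [map_lt]
  refine h2.trans ⟨?_, ?_⟩
  · rintro ⟨x', hx'⟩
    exact ⟨x', (map_lt i (x' : Fr D Z')).trans hx'⟩
  · rintro ⟨x', hx'⟩
    exact ⟨x', by rw [map_lt] at hx'; exact hx'⟩

theorem map_surj_fil (h : Wts D.F D.ph Z D.p D.b) (h' : Wts D.F D.ph Z' D.p D.b)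
    (f : Z →ₗ[D.R] Z') (hf : Function.Surjective f) {N : ℤ} {y : Fr D Z'}
    (hy : y ∈ D.fil (Fr D Z') N) : ∃ x ∈ D.fil (Fr D Z) N, map f x = y := by
  obtain ⟨t⟩ := exists_trunc h N
  obtain ⟨t'⟩ := exists_trunc h' N
  obtain ⟨x, hx⟩ := map_surj f hf y
  exact ⟨tr t x, tr_mem h t x, by rw [tr_nat h t t', hx, tr_id h' t' hy]⟩

theorem map_ex_fil (h : Wts D.F D.ph Z D.p D.b) (h' : Wts D.F D.ph Z' D.p D.b)
    (i : Z' →ₗ[D.R] Z) (q : Z →ₗ[D.R] Z'') (hex : ∀ z, q z = 0 ↔ ∃ z', i z' = z) {N : ℤ}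
    {x : Fr D Z} (hx : x ∈ D.fil (Fr D Z) N) (hq : map q x = 0) :
    ∃ x' ∈ D.fil (Fr D Z') N, map i x' = x := by
  obtain ⟨t⟩ := exists_trunc h N
  obtain ⟨t'⟩ := exists_trunc h' N
  obtain ⟨x', hx'⟩ := (map_ex i q hex x).1 hq
  exact ⟨tr t' x', tr_mem h' t' x', by rw [tr_nat h' t' t, hx', tr_id h t hx]⟩

end Fr

end MSA
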