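import Mathlib
import Pool.Agent.MSA.HsA

/-!
# Weights of Koszul complexes: two invariants, general data (MS, PART RES, section 7b)

`kIw`: the weights of the Koszul datum of invariants, `dg j = p e_j`.
`isW_totK`: `K.Tot M` and the terms of `K.ch M` are of class `IsW` if `M` is.
-/

set_option autoImplicit false
set_option linter.unusedSectionVars false

noncomputable section

namespace MSA

universe u v w

open MvPolynomial

namespace Dat

variable (D : Dat.{u})

section inv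

variable {k : ℕ} (e : Fin k → ℕ) (y : Fin k → D.S) (h : ∀ j, D.Iv (e j) (y j))

theorem kIw_th (c : D.Fˣ) (j : (D.kI e y h).J) :
    (D.kI e y h).rho (HasTh.th c) (Pi.single j 1) =
      ((c ^ ((D.p : ℤ) * (e j : ℤ)) : D.Fˣ) : D.F) • (Pi.single j 1 : (D.kI e y h).J → D.F) := by
  funext x
  have hr : (D.kI e y h).rho (HasTh.th c) (Pi.single j 1) x =
      D.chi (e x) (Gn.th c) * (Pi.single j 1 : (D.kI e y h).J → D.F) x := rfl
  have hc : D.chi (e x) (Gn.th c) = ((c ^ ((D.p : ℤ) * (e x : ℤ)) : D.Fˣ) : D.F) := by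
    show (c : D.F) ^ ((D.p : ℤ) * (e x : ℤ)) = _
    rw [Units.val_zpow_eq_zpow_val]
  rw [hr, Pi.smul_apply, smul_eq_mul, hc]
  by_cases hx : x = j
  · rw [hx]
  · have h1 : (Pi.single j 1 : (D.kI e y h).J → D.F) x = 0 := Pi.single_eq_of_ne hx _
    rw [h1, mul_zero, mul_zero]

theorem kIw_tau (j i : (D.kI e y h).J)
    (hne : (D.kI e y h).rho (HasTh.tau D.F) (Pi.single j 1) i ≠ 0) :
    (D.p : ℤ) * (e i : ℤ) = (D.p : ℤ) * (e j : ℤ) := by
  have hij : i = j := by
    by_contra hx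
    apply hne
    have h1 : (Pi.single j 1 : (D.kI e y h).J → D.F) i = 0 := Pi.single_eq_of_ne hx _
    show D.chi (e i) Gn.tau * (Pi.single j 1 : (D.kI e y h).J → D.F) i = 0
    rw [h1, mul_zero]
  rw [hij]

private theorem rhoI_pow (m : ℕ) (v : Fin k → D.F) (x : Fin k) :
    ((D.rhoI e Gn.tau) ^ m) v x = (D.b ^ (e x : ℤ)) ^ m * v x := by
  induction m generalizing v with
  | zero => rw [pow_zero, pow_zero, one_mul]; rfl
  | succ m ih =>
    rw [pow_succ, Module.End.mul_apply, ih, pow_succ, mul_assoc]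
    rfl

theorem kIw_tp (j : (D.kI e y h).J) :
    ((D.kI e y h).rho (HasTh.tau D.F) ^ D.p) (Pi.single j 1) =
      (D.b ^ ((D.p : ℤ) * (e j : ℤ))) • (Pi.single j 1 : (D.kI e y h).J → D.F) := by
  funext x
  have h2 : ((D.kI e y h).rho (HasTh.tau D.F) ^ D.p) (Pi.single j 1) x =
      (D.b ^ (e x : ℤ)) ^ D.p * (Pi.single j 1 : (D.kI e y h).J → D.F) x :=
    D.rhoI_pow e D.p (Pi.single j 1 : (D.kI e y h).J → D.F) x
  rw [h2, Pi.smul_apply, smul_eq_mul]
  by_cases hx : x = j
  · rw [hx, ← zpow_natCast, ← zpow_mul, mul_comm (e j : ℤ)]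
  · have h1 : (Pi.single j 1 : (D.kI e y h).J → D.F) x = 0 := Pi.single_eq_of_ne hx _
    rw [h1, mul_zero, mul_zero]

/-- the weights of the invariants -/
def kIw : KW (D.kI e y h) D.p D.b where
  dg := fun j => (D.p : ℤ) * (e j : ℤ)
  hth := D.kIw_th e y h
  htau := D.kIw_tau e y h
  htp := D.kIw_tp e y h

end inv

/-- the weights of two invariants -/
def kCIw {m n : ℕ} {y g : D.S} (hy : D.Iv m y) (hg : D.Iv n g) : KW (D.kCI hy hg) D.p D.b :=
  D.kIw ![m, n] ![y, g] _

section tot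

variable (K : KS D.F D.ph) (w : KW K D.p D.b)
variable {M : Type u} [AddCommGroup M] [Module D.R M]

/-- the components of a weight vector -/
private def rwC (n : ℤ) : D.wL (K.Tot M) n →ₗ[D.L]
    ((B : Finset K.J) → D.wL M (n - ∑ j ∈ B, w.dg j)) where
  toFun x B := ⟨(x.1 : K.Tot M) B, (wt_comp K w n x.1).1 x.2 B⟩
  map_add' _ _ := rfl
  map_smul' c x := by
    funext B
    exact Subtype.ext (K.iot_smul (MvPolynomial.C c) x.1 B)

include w in
theorem isW_totK (h : D.IsW M) : D.IsW (K.Tot M) where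
  wts := wts_tot K w D.X.b_ne h.wts
  fd := by
    intro n
    have h1 : ∀ B : Finset K.J, Module.Finite D.L (D.wL M (n - ∑ j ∈ B, w.dg j)) :=
      fun B => h.fd _
    refine Module.Finite.of_injective (D.rwC K w (M := M) n) ?_
    intro x y hxy
    apply Subtype.ext
    funext B
    exact congrArg Subtype.val (congrFun hxy B)
  bd := by
    obtain ⟨n₀, hn⟩ := h.bd
    refine ⟨n₀ - ∑ j : K.J, |w.dg j|, fun n hlt => ?_⟩
    rw [eq_bot_iff]
    intro x hx
    rw [AddSubgroup.mem_bot]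
    funext B
    have h1 := (wt_comp K w n x).1 hx B
    have h2 : -∑ j ∈ B, w.dg j ≤ ∑ j : K.J, |w.dg j| := by
      rw [← Finset.sum_neg_distrib]
      calc ∑ j ∈ B, -w.dg j ≤ ∑ j ∈ B, |w.dg j| := Finset.sum_le_sum fun j _ => neg_le_abs _
        _ ≤ ∑ j : K.J, |w.dg j| :=
          Finset.sum_le_univ_sum_of_nonneg fun j => abs_nonneg _
    rw [hn _ (by omega), AddSubgroup.mem_bot] at h1
    exact h1

include w in
theorem isW_ch0 (h : D.IsW M) : D.IsW (K.ch M).X0 := D.isW_sub (D.isW_totK K w h) _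

include w in
theorem isW_ch1 (h : D.IsW M) : D.IsW (K.ch M).X1 := D.isW_sub (D.isW_totK K w h) _

end tot

end Dat

end MSA
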