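import Mathlib
import Pool.Agent.MSA.Rtm
import Pool.Agent.MSA.Rtr
import Pool.Agent.MSA.Rww
import Pool.Agent.MSA.Kex

/-!
# Short exact sequences of truncations of `P(B)` (MS, PART RES, section 4c)

PROOFS.
`sesN`: `i = mapN i N`, `q = mapN q N`. `inj0`: `Fr.map_inj` (`mapN` is the restriction of `Fr.map`: `Subtype.ext`). `sur0`: `map_surj_fil`. `ex0`: an element
`y` of `fil` with `Fr.map q y = 0` is `Fr.map i x'` with `x' ∈ fil` (`map_ex_fil`), and conversely `Fr.map q (Fr.map i x) = 0` (`map_ex`). Degree `1`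
in the same way.
`kmap`: the morphism of Koszul complexes `D.kV.map f` (MSA/Kex) commutes with the contractions: `ck0_map`, `ck1_map` of MSA/Rtk (proved below).
`kses`: `KS.ses` of MSA/Kex (proved below).
`kv_ses`: `sesN` for `kses`, `kmap N.subtype`, `kmap N.mkQ`, with the weights `wts_tot` (`D.kVw`), `wts_sub`, `wts_quo`.
`kv_iso`: `mapN (kmap e) n`: bijective with inverse `mapN (kmap e.symm) n` (`Fr.map` is functorial: on pure tensors), or: `Fr.map_inj`,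
`map_surj_fil` for `D.kV.pmap e i`, which is bijective (`pmap_inj`, `pmap_surj`).
-/

set_option autoImplicit false
set_option linter.unusedSectionVars false

noncomputable section

namespace MSA

universe u v w

open MvPolynomial

namespace Kp

variable {D : Dat.{u}} {B B' B'' : Ch.{u} D.R} {k : Kp D B} {k' : Kp D B'} {k'' : Kp D B''}

section

variable {Z Z' Z'' : Type u} [AddCommGroup Z] [Module D.R Z] [AddCommGroup Z'] [Module D.R Z']
variable [AddCommGroup Z''] [Module D.R Z'']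

/-- the restriction of `Fr.map f` to the filtration -/
def rseN (f : Z →ₗ[D.R] Z') (N : ℤ) : D.fil (Fr D Z) N →ₗ[D.R] D.fil (Fr D Z') N :=
  (Fr.map f : Fr D Z →ₗ[D.R] Fr D Z').restrict (fun _ => D.fil_map (Fr.map f))

theorem rse_inj (f : Z →ₗ[D.R] Z') (hf : Function.Injective f) (N : ℤ) :
    Function.Injective (rseN f N) := by
  intro x y h
  apply Subtype.ext
  exact Fr.map_inj f hf (congrArg Subtype.val h)

theorem rse_sur (h : Wts D.F D.ph Z D.p D.b) (h' : Wts D.F D.ph Z' D.p D.b)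
    (f : Z →ₗ[D.R] Z') (hf : Function.Surjective f) (N : ℤ) :
    Function.Surjective (rseN f N) := by
  intro y
  obtain ⟨x, hx, hxy⟩ := Fr.map_surj_fil h h' f hf y.2
  exact ⟨⟨x, hx⟩, Subtype.ext hxy⟩

theorem rse_ex (h : Wts D.F D.ph Z D.p D.b) (h' : Wts D.F D.ph Z' D.p D.b)
    (i : Z' →ₗ[D.R] Z) (q : Z →ₗ[D.R] Z'') (hex : ∀ z, q z = 0 ↔ ∃ z', i z' = z) (N : ℤ)
    (y : D.fil (Fr D Z) N) : rseN q N y = 0 ↔ ∃ x, rseN i N x = y := by
  constructor
  · intro hy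
    obtain ⟨x, hx, hxy⟩ := Fr.map_ex_fil h h' i q hex y.2 (congrArg Subtype.val hy)
    exact ⟨⟨x, hx⟩, Subtype.ext hxy⟩
  · rintro ⟨x, rfl⟩
    apply Subtype.ext
    exact (Fr.map_ex i q hex _).2 ⟨x.1, rfl⟩

theorem rse_sur' (f : Z →ₗ[D.R] Z') (g : Z' →ₗ[D.R] Z) (hfg : ∀ z, f (g z) = z) (N : ℤ) :
    Function.Surjective (rseN f N) := by
  intro y
  refine ⟨rseN g N y, Subtype.ext ?_⟩
  have key : (Fr.map f : Fr D Z →ₗ[D.R] Fr D Z') ∘ₗ (Fr.map g : Fr D Z' →ₗ[D.R] Fr D Z) =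
      LinearMap.id := by
    refine Fr.lin_ext fun z => ?_
    show Fr.map f (Fr.map g (Fr.ft 1 z)) = Fr.ft 1 z
    rw [Fr.map_ft, Fr.map_ft, hfg]
  exact congrArg (fun t : Fr D Z' →ₗ[D.R] Fr D Z' => t y.1) key

end

theorem sesN (s : Ch.Ses B B' B'') (i : Hm k k') (q : Hm k' k'') (hi : i.f = s.i) (hq : q.f = s.q)
    (w0 : Wts D.F D.ph B.X0 D.p D.b) (w1 : Wts D.F D.ph B.X1 D.p D.b)
    (w0' : Wts D.F D.ph B'.X0 D.p D.b) (w1' : Wts D.F D.ph B'.X1 D.p D.b)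
    (w0'' : Wts D.F D.ph B''.X0 D.p D.b) (w1'' : Wts D.F D.ph B''.X1 D.p D.b) (N : ℤ) :
    Nonempty (Ch.Ses (k.PN N) (k'.PN N) (k''.PN N)) := by
  have hi0 : i.f.f0 = s.i.f0 := by rw [hi]
  have hi1 : i.f.f1 = s.i.f1 := by rw [hi]
  have hq0 : q.f.f0 = s.q.f0 := by rw [hq]
  have hq1 : q.f.f1 = s.q.f1 := by rw [hq]
  exact ⟨{
    i := mapN i N
    q := mapN q N
    inj0 := rse_inj i.f.f0 (by rw [hi0]; exact s.inj0) N
    inj1 := rse_inj i.f.f1 (by rw [hi1]; exact s.inj1) N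
    sur0 := rse_sur w0' w0'' q.f.f0 (by rw [hq0]; exact s.sur0) N
    sur1 := rse_sur w1' w1'' q.f.f1 (by rw [hq1]; exact s.sur1) N
    ex0 := rse_ex w0' w0 i.f.f0 q.f.f0 (by rw [hq0, hi0]; exact s.ex0) N
    ex1 := rse_ex w1' w1 i.f.f1 q.f.f1 (by rw [hq1, hi1]; exact s.ex1) N }⟩

end Kp

namespace Dat

variable (D : Dat.{u}) {M M' : Type u} [AddCommGroup M] [Module D.R M] [AddCommGroup M']
variable [Module D.R M']

/-- functoriality of the Koszul complex of the variables, with the contractions -/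
def kmap (f : M →ₗ[D.R] M') : Kp.Hm (D.kpV M) (D.kpV M') where
  f := D.kV.map f
  c0 := fun j x => D.kV.ck0_map f j x
  c1 := fun j x => D.kV.ck1_map f j x

/-- the short exact sequence of Koszul complexes of a submodule -/
def kses (N : Submodule D.R M) : Ch.Ses (D.kV.ch N) (D.kV.ch M) (D.kV.ch (M ⧸ N)) :=
  D.kV.ses N.subtype N.mkQ N.injective_subtype N.mkQ_surjective (fun m => by
    rw [Submodule.mkQ_apply, Submodule.Quotient.mk_eq_zero]
    exact ⟨fun h => ⟨⟨m, h⟩, rfl⟩, fun ⟨x, hx⟩ => hx ▸ x.2⟩)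

theorem kv_ses (hM : Wts D.F D.ph M D.p D.b) (N : Submodule D.R M) (n : ℤ) :
    Nonempty (Ch.Ses ((D.kpV N).PN n) ((D.kpV M).PN n) ((D.kpV (M ⧸ N)).PN n)) := by
  have hN := wts_tot D.kV D.kVw D.X.b_ne (wts_sub hM N)
  have hM' := wts_tot D.kV D.kVw D.X.b_ne hM
  have hQ := wts_tot D.kV D.kVw D.X.b_ne (wts_quo hM N)
  exact Kp.sesN (D.kses N) (D.kmap N.subtype) (D.kmap N.mkQ) rfl rfl
    (wts_sub hN _) (wts_sub hN _) (wts_sub hM' _) (wts_sub hM' _) (wts_sub hQ _) (wts_sub hQ _) n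

/-- isomorphic modules have isomorphic complexes, written as a short exact sequence -/
theorem kv_iso (hM : Wts D.F D.ph M D.p D.b) (e : M ≃ₗ[D.R] M') (n : ℤ) :
    ∃ f : Ch.Hom ((D.kpV M).PN n) ((D.kpV M').PN n),
      Function.Bijective f.f0 ∧ Function.Bijective f.f1 := by
  refine ⟨Kp.mapN (D.kmap (e : M →ₗ[D.R] M')) n,
    ⟨Kp.rse_inj (D.kV.pmap (e : M →ₗ[D.R] M') 0) (D.kV.pmap_inj _ e.injective 0) n,
      Kp.rse_sur' (D.kV.pmap (e : M →ₗ[D.R] M') 0) (D.kV.pmap (e.symm : M' →ₗ[D.R] M) 0)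
        (fun z => ?_) n⟩,
    ⟨Kp.rse_inj (D.kV.pmap (e : M →ₗ[D.R] M') 1) (D.kV.pmap_inj _ e.injective 1) n,
      Kp.rse_sur' (D.kV.pmap (e : M →ₗ[D.R] M') 1) (D.kV.pmap (e.symm : M' →ₗ[D.R] M) 1)
        (fun z => ?_) n⟩⟩
  · apply Subtype.ext
    funext A
    exact e.apply_symm_apply (z.1 A)
  · apply Subtype.ext
    funext A
    exact e.apply_symm_apply (z.1 A)

end Dat

end MSA
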