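import Mathlib
import Pool.Agent.MSA.Rpb
import Pool.Agent.MSA.Rtr

/-!
# `P(B)` modulo the maximal ideal (MS, PART RES, sections 4a, 4d)

Modulo `mP` the complex `P(B)` is `B`: `ev0 : Fr B_i → B_i` commutes with the differentials and `ker ev0 = mP`.

PROOFS.
`ev0_d0`: `Fr.ind`; on `ft s z`: `P_d0`, `map_sub`, `map_sum`, `ev0_ft`; the constant coefficient of `s * X j` is `0`
(`map_mul`, `constantCoeff_X`), and `B.d0 (iot (C c) • z) = iot (C c) • B.d0 z`. `ev0_map`: `map_ft`, `ev0_ft`, `map_smul`.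
`ev0_tr`: `tr_ft`, `ev0_ft`, `t.hL`.
`ev0_gt`: choose `t : Trn D Z N` (`exists_trunc`): `ev0 x = ev0 (tr t x) = t.π (ev0 x) = 0` (`tr_id`, `ev0_tr`, `ev0_wt`, `t.gt`).
`mP_fil`: for the linear map `g : Fr D Z → fil (Fr D Z) N`, `g x = ⟨tr t x, tr_mem ..⟩` (`LinearMap.codRestrict`), `g x = ⟨x, hx⟩` (`tr_id`), and
`g` maps `mP` to `mP` (`D.mP_map`).
`mP_fil_iff`: `mP_fil` and `D.mP_map` for the inclusion `(fil ..).subtype`. `wt_fil`: `Subtype.ext`.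
`exm_P`: `x ∈ wt (Fr B_0) n`, `D x ∈ mP`; `b = ev0 x ∈ wt B_0 n` (`ev0_wt`), `d b = ev0 (D x) = 0` (`ev0_mP`); `b = d b'` with `b' ∈ wt B_1 n`;
`y = ft 1 b'` (`ft_wt1`); `ev0 (x - D y) = b - d b' = 0` (`ev0_ft1`), so `x - D y ∈ mP` (`ev0_eq_zero`).
`exm_PN`: the same for `n ≤ N` (`mP_fil_iff`; `ft 1 b' ∈ fil` by `mem_fil_of`); for `n > N` every `x` of weight `n` in `fil` is in `mP`
(`ev0_gt`, `ev0_eq_zero`, `mP_fil_iff`), take `y = 0`.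
`ker_wt0`: `x ∈ wt B_0 n` with `f x = 0`, `d x = 0` is `d y'` with `f y' = 0`; decompose `y'` (`wt_decomp`), the component `y` of weight `n`
satisfies `f y = 0` (it lies in the submodule `ker f`: `wt_mem_sub`) and `d y = x` (compare the components of weight `n`: `wt_indep`;
or `wt_lift` for the surjection from the submodule `ker f1` onto its image under `d1`, with `wts_sub`).
`sq_mapN`: SURJECTIVITY `s0`: `y ∈ wt (fil ..) n`. If `n > N` then `y ∈ mP` and `x = 0`. If `n ≤ N`, let `b' = ev0 y ∈ wt B'_0 n`, `b' = f b` with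
`b ∈ wt B_0 n` (`wt_lift`), `x = ft 1 b`; `ev0 (ft 1 (f b) - y) = 0`. KERNEL `k0`: `x ∈ wt n`, `f x ∈ mP`, `d x ∈ mP`; if `n > N` take `y = 0`; if `n ≤ N`
let `b = ev0 x`; `f b = ev0 (f x) = 0`, `d b = ev0 (D x) = 0`, so `b = d b'`, `f b' = 0`, `b' ∈ wt B_1 n` (`ker_wt0`), `y = ft 1 b'`: `f y = ft 1 (f b') = 0`
and `ev0 (x - D y) = 0`. Degree `1` in the same way.
-/

set_option autoImplicit false
set_option linter.unusedSectionVars false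

noncomputable section

namespace MSA

universe u v w

open MvPolynomial

namespace Fr

variable {D : Dat.{u}} {Z Z' : Type u} [AddCommGroup Z] [Module D.R Z] [AddCommGroup Z']
variable [Module D.R Z']

theorem ev0_map (f : Z →ₗ[D.R] Z') (x : Fr D Z) : ev0 (map f x) = f (ev0 x) := by
  refine ind (P := fun x => ev0 (map f x) = f (ev0 x)) x ?_ ?_ ?_
  · rw [map_zero, map_zero, map_zero, map_zero]
  · intro s z
    rw [map_ft, ev0_ft, ev0_ft, map_smul]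
  · intro x y hx hy
    rw [map_add, map_add, map_add, map_add, hx, hy]

theorem ev0_tr {N : ℤ} (t : Trn D Z N) (x : Fr D Z) : ev0 (tr t x) = t.π (ev0 x) := by
  refine ind (P := fun x => ev0 (tr t x) = t.π (ev0 x)) x ?_ ?_ ?_
  · rw [map_zero, map_zero, map_zero]
  · intro s z
    rw [tr_ft, ev0_ft, ev0_ft, t.hL]
  · intro x y hx hy
    rw [map_add, map_add, map_add, map_add, hx, hy]

theorem ev0_gt (h : Wts D.F D.ph Z D.p D.b) {N n : ℤ} (hn : N < n) {x : Fr D Z}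
    (hx : x ∈ D.fil (Fr D Z) N) (hw : x ∈ wt D.F D.ph (Fr D Z) n) : ev0 x = 0 := by
  obtain ⟨t⟩ := exists_trunc h N
  have h1 := ev0_tr t x
  rw [tr_id h t hx, t.gt n hn _ (ev0_wt hw)] at h1
  exact h1

theorem mP_fil (h : Wts D.F D.ph Z D.p D.b) {N : ℤ} {x : Fr D Z}
    (hx : x ∈ D.fil (Fr D Z) N) (hm : x ∈ D.mP (Fr D Z)) :
    (⟨x, hx⟩ : D.fil (Fr D Z) N) ∈ D.mP (D.fil (Fr D Z) N) := by
  obtain ⟨t⟩ := exists_trunc h N
  have h1 := D.mP_map ((tr t).codRestrict (D.fil (Fr D Z) N) (fun x => tr_mem h t x)) hm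
  have h2 : (tr t).codRestrict (D.fil (Fr D Z) N) (fun x => tr_mem h t x) x = ⟨x, hx⟩ :=
    Subtype.ext (tr_id h t hx)
  rwa [h2] at h1

theorem mP_fil_iff (h : Wts D.F D.ph Z D.p D.b) {N : ℤ} (x : D.fil (Fr D Z) N) :
    x ∈ D.mP (D.fil (Fr D Z) N) ↔ ev0 (x : Fr D Z) = 0 := by
  constructor
  · intro hm
    exact ev0_mP (D.mP_map (D.fil (Fr D Z) N).subtype hm)
  · intro hm
    exact mP_fil h x.2 ((ev0_eq_zero _).1 hm)

theorem wt_fil {N n : ℤ} (x : D.fil (Fr D Z) N) :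
    x ∈ wt D.F D.ph (D.fil (Fr D Z) N) n ↔ (x : Fr D Z) ∈ wt D.F D.ph (Fr D Z) n := by
  constructor
  · intro hx
    exact wt_map (D.fil (Fr D Z) N).subtype hx
  · intro hx c
    exact Subtype.ext (hx c)

end Fr

namespace Kp

variable {D : Dat.{u}} {B : Ch.{u} D.R} (k : Kp D B)

private theorem kp_zero {Z Z' : Type u} [AddCommGroup Z] [Module D.R Z] [AddCommGroup Z']
    [Module D.R Z'] (d : Fr D Z →ₗ[D.R] Fr D Z') (d' : Z →ₗ[D.R] Z')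
    (e : Fr D Z →+ Z) (e' : Fr D Z' →+ Z') : e' (d 0) = d' (e 0) := by
  rw [map_zero, map_zero, map_zero, map_zero]

private theorem kp_add {Z Z' : Type u} [AddCommGroup Z] [Module D.R Z] [AddCommGroup Z']
    [Module D.R Z'] (d : Fr D Z →ₗ[D.R] Fr D Z') (d' : Z →ₗ[D.R] Z')
    (e : Fr D Z →+ Z) (e' : Fr D Z' →+ Z') (x y : Fr D Z) (hx : e' (d x) = d' (e x))
    (hy : e' (d y) = d' (e y)) : e' (d (x + y)) = d' (e (x + y)) := by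
  rw [map_add, map_add, map_add, map_add, hx, hy]

private theorem kp_ft {Z : Type u} [AddCommGroup Z] [Module D.R Z] (s : D.S) (j : Fin D.p)
    (z : Z) : Fr.ev0 (Fr.ft (s * MvPolynomial.X j) z : Fr D Z) = 0 := by
  rw [Fr.ev0_ft, map_mul, constantCoeff_X, mul_zero, map_zero, map_zero, zero_smul]

theorem ev0_d0 (x : k.P.X0) : Fr.ev0 (k.P.d0 x : Fr D B.X1) = B.d0 (Fr.ev0 (x : Fr D B.X0)) := by
  refine Fr.ind (P := fun x => Fr.ev0 (k.P.d0 x : Fr D B.X1) = B.d0 (Fr.ev0 (x : Fr D B.X0)))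
    x ?_ ?_ ?_
  · exact kp_zero _ _ _ _
  · intro s z
    rw [P_d0, map_sub, map_sum, Fr.ev0_ft, Fr.ev0_ft, map_smul, Finset.sum_eq_zero, sub_zero]
    intro j _
    exact kp_ft s j _
  · intro x y hx hy
    exact kp_add _ _ _ _ x y hx hy

theorem ev0_d1 (x : k.P.X1) : Fr.ev0 (k.P.d1 x : Fr D B.X0) = B.d1 (Fr.ev0 (x : Fr D B.X1)) := by
  refine Fr.ind (P := fun x => Fr.ev0 (k.P.d1 x : Fr D B.X0) = B.d1 (Fr.ev0 (x : Fr D B.X1)))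
    x ?_ ?_ ?_
  · exact kp_zero _ _ _ _
  · intro s z
    rw [P_d1, map_sub, map_sum, Fr.ev0_ft, Fr.ev0_ft, map_smul, Finset.sum_eq_zero, sub_zero]
    intro j _
    exact kp_ft s j _
  · intro x y hx hy
    exact kp_add _ _ _ _ x y hx hy

private theorem kp_fin {Z : Type u} [AddCommGroup Z] [Module D.R Z] (x y : Fr D Z)
    (h : Fr.ev0 y = Fr.ev0 x) : Fr.ev0 (x - y) = 0 := by
  rw [map_sub, h, sub_self]

private theorem kp_fin0 (x : Fr D B.X0) (b : B.X1) (h : B.d1 b = Fr.ev0 x) (y : Fr D B.X0)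
    (hy : y = k.P.d1 (Fr.ft 1 b : Fr D B.X1)) : Fr.ev0 (x - y) = 0 :=
  kp_fin x y ((congrArg Fr.ev0 hy).trans ((k.ev0_d1 _).trans
    ((congrArg B.d1 (Fr.ev0_ft1 b)).trans h)))

private theorem kp_fin1 (x : Fr D B.X1) (b : B.X0) (h : B.d0 b = Fr.ev0 x) (y : Fr D B.X1)
    (hy : y = k.P.d0 (Fr.ft 1 b : Fr D B.X0)) : Fr.ev0 (x - y) = 0 :=
  kp_fin x y ((congrArg Fr.ev0 hy).trans ((k.ev0_d0 _).trans
    ((congrArg B.d0 (Fr.ev0_ft1 b)).trans h)))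

theorem exm_P {n : ℤ} (h : D.ExW B n) : D.ExM k.P n := by
  constructor
  · intro x hx hd
    obtain ⟨b, hb, hbx⟩ := h.1 _ (Fr.ev0_wt hx) (by
      rw [← k.ev0_d0]
      exact Fr.ev0_mP hd)
    refine ⟨(Fr.ft 1 b : Fr D B.X1), Fr.ft_wt1 hb, ?_⟩
    exact (Fr.ev0_eq_zero _).1 (kp_fin0 k x b hbx _ rfl)
  · intro x hx hd
    obtain ⟨b, hb, hbx⟩ := h.2 _ (Fr.ev0_wt hx) (by
      rw [← k.ev0_d1]
      exact Fr.ev0_mP hd)
    refine ⟨(Fr.ft 1 b : Fr D B.X0), Fr.ft_wt1 hb, ?_⟩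
    exact (Fr.ev0_eq_zero _).1 (kp_fin1 k x b hbx _ rfl)

theorem exm_PN (h0 : Wts D.F D.ph B.X0 D.p D.b) (h1 : Wts D.F D.ph B.X1 D.p D.b) (N n : ℤ)
    (h : D.ExW B n) : D.ExM (k.PN N) n := by
  by_cases hn : n ≤ N
  · constructor
    · intro x hx hd
      have hx' : (x.1 : Fr D B.X0) ∈ wt D.F D.ph (Fr D B.X0) n := (Fr.wt_fil x).1 hx
      have hd' : Fr.ev0 (k.P.d0 x.1 : Fr D B.X1) = 0 := (Fr.mP_fil_iff h1 _).1 hd
      obtain ⟨b, hb, hbx⟩ := h.1 _ (Fr.ev0_wt hx') (by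
        rw [← k.ev0_d0]
        exact hd')
      refine ⟨⟨Fr.ft 1 b, D.mem_fil_of hn (Fr.ft_wt1 hb)⟩, (Fr.wt_fil _).2 (Fr.ft_wt1 hb), ?_⟩
      exact (Fr.mP_fil_iff h0 _).2 (kp_fin0 k x.1 b hbx _ rfl)
    · intro x hx hd
      have hx' : (x.1 : Fr D B.X1) ∈ wt D.F D.ph (Fr D B.X1) n := (Fr.wt_fil x).1 hx
      have hd' : Fr.ev0 (k.P.d1 x.1 : Fr D B.X0) = 0 := (Fr.mP_fil_iff h0 _).1 hd
      obtain ⟨b, hb, hbx⟩ := h.2 _ (Fr.ev0_wt hx') (by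
        rw [← k.ev0_d1]
        exact hd')
      refine ⟨⟨Fr.ft 1 b, D.mem_fil_of hn (Fr.ft_wt1 hb)⟩, (Fr.wt_fil _).2 (Fr.ft_wt1 hb), ?_⟩
      exact (Fr.mP_fil_iff h1 _).2 (kp_fin1 k x.1 b hbx _ rfl)
  · have hn' : N < n := not_le.1 hn
    constructor
    · intro x hx _
      refine ⟨0, AddSubgroup.zero_mem _, ?_⟩
      rw [map_zero, sub_zero]
      exact (Fr.mP_fil_iff h0 x).2 (Fr.ev0_gt h0 hn' x.2 ((Fr.wt_fil x).1 hx))
    · intro x hx _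
      refine ⟨0, AddSubgroup.zero_mem _, ?_⟩
      rw [map_zero, sub_zero]
      exact (Fr.mP_fil_iff h1 x).2 (Fr.ev0_gt h1 hn' x.2 ((Fr.wt_fil x).1 hx))

private theorem kp_ker {M M' M'' : Type u} [AddCommGroup M] [Module D.R M] [AddCommGroup M']
    [Module D.R M'] [AddCommGroup M''] [Module D.R M''] (hM : Wts D.F D.ph M D.p D.b)
    (f : M →ₗ[D.R] M'') (d : M →ₗ[D.R] M') {n : ℤ} {x : M'} (hx : x ∈ wt D.F D.ph M' n) {y : M}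
    (hf : f y = 0) (hd : d y = x) : ∃ y ∈ wt D.F D.ph M n, f y = 0 ∧ d y = x := by
  classical
  obtain ⟨g, hg, hgy⟩ := wt_decomp hM y
  have h1 : g n ∈ LinearMap.ker f := wt_mem_sub (LinearMap.ker f) g hg (by
    rw [hgy]
    exact LinearMap.mem_ker.2 hf) n
  refine ⟨g n, hg n, LinearMap.mem_ker.1 h1, ?_⟩
  have h2 : (g.mapRange d (map_zero d) - Finsupp.single n x : ℤ →₀ M') = 0 := by
    apply wt_indep (F := D.F) (φ := D.ph)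
    · intro j
      rw [Finsupp.sub_apply, Finsupp.mapRange_apply]
      refine AddSubgroup.sub_mem _ (wt_map d (hg j)) ?_
      by_cases hj : j = n
      · subst hj
        rw [Finsupp.single_eq_same]
        exact hx
      · rw [Finsupp.single_eq_of_ne hj]
        exact AddSubgroup.zero_mem _
    · rw [Finsupp.sum_sub_index (fun _ _ _ => rfl), Finsupp.sum_mapRange_index (fun _ => rfl),
        Finsupp.sum_single_index rfl, sub_eq_zero, ← hd]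
      conv_rhs => rw [← hgy]
      rw [Finsupp.sum, Finsupp.sum, map_sum]
  have h3 := DFunLike.congr_fun h2 n
  rw [Finsupp.sub_apply, Finsupp.mapRange_apply, Finsupp.single_eq_same, Finsupp.zero_apply,
    sub_eq_zero] at h3
  exact h3

/-- Acyclic kernels are acyclic in every weight. -/
theorem ker_wt0 {B B' : Ch.{u} D.R} (h1 : Wts D.F D.ph B.X1 D.p D.b) (f : Ch.Hom B B')
    (hk : ∀ x, f.f0 x = 0 → B.d0 x = 0 → ∃ y, f.f1 y = 0 ∧ B.d1 y = x) {n : ℤ} (x : B.X0)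
    (hx : x ∈ wt D.F D.ph B.X0 n) (hf : f.f0 x = 0) (hd : B.d0 x = 0) :
    ∃ y ∈ wt D.F D.ph B.X1 n, f.f1 y = 0 ∧ B.d1 y = x := by
  obtain ⟨y, hy1, hy2⟩ := hk x hf hd
  exact kp_ker h1 f.f1 B.d1 hx hy1 hy2

theorem ker_wt1 {B B' : Ch.{u} D.R} (h0 : Wts D.F D.ph B.X0 D.p D.b) (f : Ch.Hom B B')
    (hk : ∀ x, f.f1 x = 0 → B.d1 x = 0 → ∃ y, f.f0 y = 0 ∧ B.d0 y = x) {n : ℤ} (x : B.X1)
    (hx : x ∈ wt D.F D.ph B.X1 n) (hf : f.f1 x = 0) (hd : B.d1 x = 0) :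
    ∃ y ∈ wt D.F D.ph B.X0 n, f.f0 y = 0 ∧ B.d0 y = x := by
  obtain ⟨y, hy1, hy2⟩ := hk x hf hd
  exact kp_ker h0 f.f0 B.d0 hx hy1 hy2

private theorem kp_sur {Z Z' : Type u} [AddCommGroup Z] [Module D.R Z] [AddCommGroup Z']
    [Module D.R Z'] (h : Wts D.F D.ph Z D.p D.b) (h' : Wts D.F D.ph Z' D.p D.b)
    (f : Z →ₗ[D.R] Z') (hf : Function.Surjective f) (N n : ℤ) (y : D.fil (Fr D Z') N)
    (hy : y ∈ wt D.F D.ph (D.fil (Fr D Z') N) n) :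
    ∃ x ∈ wt D.F D.ph (D.fil (Fr D Z) N) n,
      (⟨Fr.map f (x : Fr D Z), D.fil_map (Fr.map f) x.2⟩ : D.fil (Fr D Z') N) - y ∈
        D.mP (D.fil (Fr D Z') N) := by
  have hy' : (y : Fr D Z') ∈ wt D.F D.ph (Fr D Z') n := (Fr.wt_fil y).1 hy
  by_cases hn : n ≤ N
  · obtain ⟨b, hb, hby⟩ := wt_lift h f hf (Fr.ev0_wt hy')
    refine ⟨⟨Fr.ft 1 b, D.mem_fil_of hn (Fr.ft_wt1 hb)⟩, (Fr.wt_fil _).2 (Fr.ft_wt1 hb), ?_⟩
    refine (Fr.mP_fil_iff h' _).2 ?_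
    show Fr.ev0 (Fr.map f (Fr.ft 1 b) - (y : Fr D Z')) = 0
    rw [map_sub, Fr.ev0_map, Fr.ev0_ft1, hby, sub_self]
  · refine ⟨0, AddSubgroup.zero_mem _, ?_⟩
    refine (Fr.mP_fil_iff h' _).2 ?_
    show Fr.ev0 (Fr.map f (0 : Fr D Z) - (y : Fr D Z')) = 0
    rw [map_zero, zero_sub, map_neg, Fr.ev0_gt h' (not_le.1 hn) y.2 hy', neg_zero]

theorem sq_mapN {B B' : Ch.{u} D.R} {k : Kp D B} {k' : Kp D B'} (f : Hm k k')
    (w0 : Wts D.F D.ph B.X0 D.p D.b) (w1 : Wts D.F D.ph B.X1 D.p D.b)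
    (w0' : Wts D.F D.ph B'.X0 D.p D.b) (w1' : Wts D.F D.ph B'.X1 D.p D.b)
    (hs0 : Function.Surjective f.f.f0) (hs1 : Function.Surjective f.f.f1)
    (hk0 : ∀ x, f.f.f0 x = 0 → B.d0 x = 0 → ∃ y, f.f.f1 y = 0 ∧ B.d1 y = x)
    (hk1 : ∀ x, f.f.f1 x = 0 → B.d1 x = 0 → ∃ y, f.f.f0 y = 0 ∧ B.d0 y = x) (N : ℤ) :
    D.SQ (mapN f N) := by
  refine ⟨fun n y hy => kp_sur w0 w0' f.f.f0 hs0 N n y hy,
    fun n y hy => kp_sur w1 w1' f.f.f1 hs1 N n y hy, ?_, ?_⟩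
  · intro n x hx hfx hdx
    have hx' : (x.1 : Fr D B.X0) ∈ wt D.F D.ph (Fr D B.X0) n := (Fr.wt_fil x).1 hx
    by_cases hn : n ≤ N
    · have hd' : Fr.ev0 (k.P.d0 x.1 : Fr D B.X1) = 0 := (Fr.mP_fil_iff w1 _).1 hdx
      have hf' : Fr.ev0 (Fr.map f.f.f0 x.1 : Fr D B'.X0) = 0 := (Fr.mP_fil_iff w0' _).1 hfx
      rw [k.ev0_d0] at hd'
      rw [Fr.ev0_map] at hf'
      obtain ⟨b, hb, hfb, hbx⟩ := ker_wt0 w1 f.f hk0 _ (Fr.ev0_wt hx') hf' hd'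
      refine ⟨⟨Fr.ft 1 b, D.mem_fil_of hn (Fr.ft_wt1 hb)⟩, (Fr.wt_fil _).2 (Fr.ft_wt1 hb),
        (Fr.mP_fil_iff w1' _).2 ?_, (Fr.mP_fil_iff w0 _).2 ?_⟩
      · show Fr.ev0 (Fr.map f.f.f1 (Fr.ft 1 b) : Fr D B'.X1) = 0
        rw [Fr.ev0_map, Fr.ev0_ft1, hfb]
      · exact kp_fin0 k x.1 b hbx _ rfl
    · refine ⟨0, AddSubgroup.zero_mem _, ?_, ?_⟩
      · rw [map_zero]
        exact Submodule.zero_mem _
      · rw [map_zero, sub_zero]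
        exact (Fr.mP_fil_iff w0 x).2 (Fr.ev0_gt w0 (not_le.1 hn) x.2 hx')
  · intro n x hx hfx hdx
    have hx' : (x.1 : Fr D B.X1) ∈ wt D.F D.ph (Fr D B.X1) n := (Fr.wt_fil x).1 hx
    by_cases hn : n ≤ N
    · have hd' : Fr.ev0 (k.P.d1 x.1 : Fr D B.X0) = 0 := (Fr.mP_fil_iff w0 _).1 hdx
      have hf' : Fr.ev0 (Fr.map f.f.f1 x.1 : Fr D B'.X1) = 0 := (Fr.mP_fil_iff w1' _).1 hfx
      rw [k.ev0_d1] at hd'
      rw [Fr.ev0_map] at hf'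
      obtain ⟨b, hb, hfb, hbx⟩ := ker_wt1 w0 f.f hk1 _ (Fr.ev0_wt hx') hf' hd'
      refine ⟨⟨Fr.ft 1 b, D.mem_fil_of hn (Fr.ft_wt1 hb)⟩, (Fr.wt_fil _).2 (Fr.ft_wt1 hb),
        (Fr.mP_fil_iff w0' _).2 ?_, (Fr.mP_fil_iff w1 _).2 ?_⟩
      · show Fr.ev0 (Fr.map f.f.f0 (Fr.ft 1 b) : Fr D B'.X0) = 0
        rw [Fr.ev0_map, Fr.ev0_ft1, hfb]
      · exact kp_fin1 k x.1 b hbx _ rfl
    · refine ⟨0, AddSubgroup.zero_mem _, ?_, ?_⟩
      · rw [map_zero]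
        exact Submodule.zero_mem _
      · rw [map_zero, sub_zero]
        exact (Fr.mP_fil_iff w1 x).2 (Fr.ev0_gt w1 (not_le.1 hn) x.2 hx')

end Kp

end MSA
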