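import Mathlib
import Pool.Agent.MSA.Rsq
import Pool.Agent.MSA.Rho
import Pool.Agent.MSA.Rse

/-!
# The statements of MSA/Rsq, Rho, Rse in the form used in the assembly (MS, PART RES)
-/

set_option autoImplicit false
set_option linter.unusedSectionVars false

noncomputable section

namespace MSA

universe u v w

namespace Kp

variable {D : Dat.{u}} {B B' B'' : Ch.{u} D.R} {k : Kp D B} {k' : Kp D B'} {k'' : Kp D B''}

theorem exM_P (_h0 : Wts D.F D.ph B.X0 D.p D.b) (_h1 : Wts D.F D.ph B.X1 D.p D.b) {n : ℤ}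
    (h : D.ExW B n) : D.ExM k.P n := k.exm_P h

theorem sq_N (f : Hm k k') (s0 : Function.Surjective f.f.f0) (s1 : Function.Surjective f.f.f1)
    (a0 : ∀ x, f.f.f0 x = 0 → B.d0 x = 0 → ∃ y, f.f.f1 y = 0 ∧ B.d1 y = x)
    (a1 : ∀ x, f.f.f1 x = 0 → B.d1 x = 0 → ∃ y, f.f.f0 y = 0 ∧ B.d0 y = x)
    (hB0 : D.IsW B.X0) (hB1 : D.IsW B.X1) (hB0' : D.IsW B'.X0) (hB1' : D.IsW B'.X1) (N : ℤ) :
    D.SQ (mapN f N) :=
  sq_mapN f hB0.wts hB1.wts hB0'.wts hB1'.wts s0 s1 a0 a1 N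

theorem loc0 (o : Ko k) (s : D.S) (h0 : ∀ x : B.X0, iot D.ph s • x = 0)
    (h1 : ∀ x : B.X1, iot D.ph s • x = 0) (x : k.P.X0) (hx : k.P.d0 x = 0) :
    ∃ y, k.P.d1 y = iot D.ph s • x := hty0 o s h0 h1 x hx

theorem loc1 (o : Ko k) (s : D.S) (h0 : ∀ x : B.X0, iot D.ph s • x = 0)
    (h1 : ∀ x : B.X1, iot D.ph s • x = 0) (x : k.P.X1) (hx : k.P.d1 x = 0) :
    ∃ y, k.P.d0 y = iot D.ph s • x := hty1 o s h0 h1 x hx

theorem ses_N (f : Hm k' k) (g : Hm k k'') (inj0 : Function.Injective f.f.f0)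
    (inj1 : Function.Injective f.f.f1) (sur0 : Function.Surjective g.f.f0)
    (sur1 : Function.Surjective g.f.f1) (ex0 : ∀ y, g.f.f0 y = 0 ↔ ∃ x, f.f.f0 x = y)
    (ex1 : ∀ y, g.f.f1 y = 0 ↔ ∃ x, f.f.f1 x = y)
    (w0' : Wts D.F D.ph B'.X0 D.p D.b) (w1' : Wts D.F D.ph B'.X1 D.p D.b)
    (w0 : Wts D.F D.ph B.X0 D.p D.b) (w1 : Wts D.F D.ph B.X1 D.p D.b)
    (w0'' : Wts D.F D.ph B''.X0 D.p D.b) (w1'' : Wts D.F D.ph B''.X1 D.p D.b) (N : ℤ) :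
    Nonempty (Ch.Ses (k'.PN N) (k.PN N) (k''.PN N)) :=
  sesN ⟨f.f, g.f, inj0, inj1, sur0, sur1, ex0, ex1⟩ f g rfl rfl w0' w1' w0 w1 w0'' w1'' N

end Kp

end MSA
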