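import Mathlib
import Pool.Agent.MSA.Rb3
import Pool.Agent.MSA.Rtk
import Pool.Agent.MSA.KWt
import Pool.Agent.MSA.HfS
import Pool.Agent.MSA.HfB
import Pool.Agent.MSA.HsA

/-!
# Free modules: the regular module, the parts of the Koszul total space; finiteness of `K ⊗ C`

Everything here is proved (from `Fbs.wts` and `Fbs.isF_of_finite` of MSA/Rb3).
`isF_sr`: the basis `toSr 1`. `isF_part`: the basis `e_A ⊗ w_j`, `card A = i`. `isW_tk0`, `isW_tk1`:
`(K ⊗ C)_i` is a submodule of `Tot C.X0 × Tot C.X1`.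
-/

set_option autoImplicit false
set_option linter.unusedSectionVars false

noncomputable section

namespace MSA

universe u v w

open MvPolynomial

namespace Dat

variable (D : Dat.{u})

/-- the basis of the regular module -/
def fbsSr : Fbs D (Sr D.ph) (Fin 1) where
  w _ := toSr D.ph 1
  n _ := 0
  c i := Finsupp.single i 1
  hw _ c := by
    rw [sr_gam, map_one, zpow_zero, Units.val_one, map_one, map_one, map_one, one_smul]
  hc _ _ _ := rfl
  tau i := by
    rw [Finsupp.sum_single_index (by rw [map_zero, map_zero, zero_smul]), sr_gam, map_one, map_one,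
      map_one, map_one, one_smul]
  taup i := by
    have hp : ∀ k : ℕ, (gam D.ph Gn.tau) ^ k • toSr D.ph 1 = toSr D.ph 1 := by
      intro k
      induction k with
      | zero => rw [pow_zero, one_smul]
      | succ k ih => rw [pow_succ, mul_smul, sr_gam, map_one, ih]
    rw [hp, zpow_zero, map_one, map_one, map_one, one_smul]
  ind f hf := by
    rw [Finsupp.sum_fintype _ _ (fun i => by rw [map_zero, zero_smul]), Fin.sum_univ_one, sr_iot,
      mul_one] at hf
    have h1 : f 0 = 0 := (toSr D.ph).injective (by rw [hf, map_zero])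
    ext1
    exact h1
  span x := by
    refine ⟨Finsupp.single 0 ((toSr D.ph).symm x), ?_⟩
    rw [Finsupp.sum_single_index (by rw [map_zero, zero_smul]), sr_iot, mul_one,
      RingEquiv.apply_symm_apply]

theorem isF_sr : D.IsF (Sr D.ph) := ⟨1, ⟨D.fbsSr⟩⟩

section part

variable {D}
variable (K : KS D.F D.ph) {X : Type u} [AddCommGroup X] [Module D.R X]

/-- the subsets of parity `i` -/
abbrev PI (i : ZMod 2) : Type := {A : Finset K.J // (A.card : ZMod 2) = i}

/-- a pure element -/
def pe (A : Finset K.J) (z : X) : K.Tot X := (Pi.single A z : Finset K.J → X)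

theorem pe_same (A : Finset K.J) (z : X) : pe K A z A = z :=
  Pi.single_eq_same (M := fun _ : Finset K.J => X) A z

theorem pe_ne {A B : Finset K.J} (h : B ≠ A) (z : X) : pe K A z B = 0 :=
  Pi.single_eq_of_ne (M := fun _ : Finset K.J => X) h z

theorem pe_mem {i : ZMod 2} (A : PI K i) (z : X) : pe K A.1 z ∈ K.part X i := by
  intro B hB
  refine pe_ne K ?_ z
  rintro rfl
  exact hB A.2

theorem pe_gam (g : Gn D.F) (A : Finset K.J) (z : X) (B : Finset K.J) :
    (gam D.ph g • pe K A z) B = iot D.ph (algebraMap D.F D.S ((bE D.F K.J).repr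
      (mpE (K.rho g) (bE D.F K.J A)) B)) • gam D.ph g • z := by
  rw [K.gam_smul, Finset.sum_eq_single A]
  · rw [pe_same]
  · intro A' _ hA
    rw [pe_ne K hA, smul_zero, smul_zero]
  · intro h
    exact absurd (Finset.mem_univ A) h

variable {ι : Type} [Fintype ι] (h : Fbs D X ι)

/-- coefficients of the operators -/
def co (A B : Finset K.J) : D.F :=
  (bE D.F K.J).repr (mpE (K.rho Gn.tau) (bE D.F K.J A)) B

theorem psum (i : ZMod 2) (f : PI K i × ι → D.S) (B : Finset K.J) :
    ((∑ q : PI K i × ι, iot D.ph (f q) • (⟨pe K q.1.1 (h.w q.2), pe_mem K q.1 _⟩ : K.part X i) :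
      K.part X i).1 : K.Tot X) B =
      if hB : (B.card : ZMod 2) = i then ∑ l, iot D.ph (f (⟨B, hB⟩, l)) • h.w l else 0 := by
  classical
  have h1 : ((∑ q : PI K i × ι, iot D.ph (f q) • (⟨pe K q.1.1 (h.w q.2), pe_mem K q.1 _⟩ :
      K.part X i) : K.part X i).1 : K.Tot X) =
      ∑ q : PI K i × ι, iot D.ph (f q) • pe K q.1.1 (h.w q.2) :=
    map_sum (K.part X i).subtype _ _
  rw [h1]
  have h2 : (∑ q : PI K i × ι, iot D.ph (f q) • pe K q.1.1 (h.w q.2) : K.Tot X) B =
      ∑ q : PI K i × ι, (iot D.ph (f q) • pe K q.1.1 (h.w q.2)) B :=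
    Finset.sum_apply B Finset.univ
      (fun q : PI K i × ι => (iot D.ph (f q) • pe K q.1.1 (h.w q.2) : Finset K.J → X))
  rw [h2, Fintype.sum_prod_type]
  split_ifs with hB
  · rw [Finset.sum_eq_single (⟨B, hB⟩ : PI K i)]
    · refine Finset.sum_congr rfl fun l _ => ?_
      rw [K.iot_smul, pe_same]
    · intro A _ hA
      refine Finset.sum_eq_zero fun l _ => ?_
      rw [K.iot_smul, pe_ne K (fun e => hA (Subtype.ext e.symm)), smul_zero]
    · intro hn
      exact absurd (Finset.mem_univ _) hn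
  · refine Finset.sum_eq_zero fun A _ => Finset.sum_eq_zero fun l _ => ?_
    rw [K.iot_smul, pe_ne K (fun e => hB (by rw [e]; exact A.2)), smul_zero]

theorem pe_wt (w : KW K D.p D.b) (A : Finset K.J) {z : X} {n : ℤ} (hz : z ∈ wt D.F D.ph X n) :
    pe K A z ∈ wt D.F D.ph (K.Tot X) (n + ∑ a ∈ A, w.dg a) := by
  have : Infinite D.F := D.hinf
  rw [wt_comp K w]
  intro B
  by_cases hB : B = A
  · subst hB
    rw [pe_same, add_sub_cancel_right]
    exact hz
  · rw [pe_ne K hB]
    exact AddSubgroup.zero_mem _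

/-- the basis of a part of the Koszul total space -/
def fbsPart (w : KW K D.p D.b) (i : ZMod 2) : Fbs D (K.part X i) (PI K i × ι) where
  w q := ⟨pe K q.1.1 (h.w q.2), pe_mem K q.1 _⟩
  n q := h.n q.2 + ∑ a ∈ q.1.1, w.dg a
  c q := Finsupp.equivFunOnFinite.symm (fun q' =>
    algebraMap D.F D.L (co K q.1.1 q'.1.1) * h.c q.2 q'.2)
  hw q c := Subtype.ext (pe_wt K w q.1.1 (h.hw q.2) c)
  hc q q' hq := by
    have hq' : algebraMap D.F D.L (co K q.1.1 q'.1.1) * h.c q.2 q'.2 ≠ 0 := hq
    have h1 : h.c q.2 q'.2 ≠ 0 := right_ne_zero_of_mul hq'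
    have h2 : co K q.1.1 q'.1.1 ≠ 0 := by
      intro h0
      rw [h0, map_zero, zero_mul] at hq'
      exact hq' rfl
    have h3 := mpE_dg (K.rho Gn.tau) w.dg w.htau q.1.1 q'.1.1 h2
    rw [h.hc _ _ h1, h3]
  tau q := by
    classical
    rw [Finsupp.sum_fintype _ _ (fun q' => by rw [map_zero, map_zero, zero_smul])]
    refine Subtype.ext ?_
    funext B
    rw [psum K h i (fun q' => C ((Finsupp.equivFunOnFinite.symm (fun q' : PI K i × ι =>
      algebraMap D.F D.L (co K q.1.1 q'.1.1) * h.c q.2 q'.2) : PI K i × ι →₀ D.L) q')) B]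
    show (gam D.ph Gn.tau • pe K q.1.1 (h.w q.2)) B = _
    split_ifs with hB
    · rw [pe_gam, h.tau, Finsupp.sum_fintype _ _ (fun q' => by rw [map_zero, map_zero, zero_smul]),
        Finset.smul_sum]
      refine Finset.sum_congr rfl fun l _ => ?_
      rw [← mul_smul, ← map_mul]
      congr 2
      show C (algebraMap D.F D.L (co K q.1.1 B)) * C (h.c q.2 l) = _
      rw [← C_mul]
      rfl
    · exact ((K.part X i).smul_mem (gam D.ph Gn.tau) (pe_mem K q.1 (h.w q.2))) B hB
  taup q := by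
    have : Infinite D.F := D.hinf
    have h1 := (wts_tot K w D.X.b_ne h.wts).taup _ _ (pe_wt K w q.1.1 (h.hw q.2))
    exact Subtype.ext h1
  ind f hf := by
    classical
    rw [Finsupp.sum_fintype _ _ (fun q' => by rw [map_zero, zero_smul])] at hf
    have h1 : ∀ (A : PI K i) (l : ι), f (A, l) = 0 := by
      intro A
      have h2 := psum K h i (fun q' => f q') A.1
      rw [hf, dif_pos A.2] at h2
      have h3 : (Finsupp.equivFunOnFinite.symm (fun l => f (A, l)) : ι →₀ D.S) = 0 := by
        refine h.ind _ ?_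
        rw [Finsupp.sum_fintype _ _ (fun q' => by rw [map_zero, zero_smul])]
        exact h2.symm
      intro l
      exact DFunLike.congr_fun h3 l
    ext1 q
    exact h1 q.1 q.2
  span x := by
    classical
    refine ⟨Finsupp.equivFunOnFinite.symm (fun q => h.rp (x.1 q.1.1) q.2), ?_⟩
    rw [Finsupp.sum_fintype _ _ (fun q' => by rw [map_zero, zero_smul])]
    refine Subtype.ext ?_
    funext B
    rw [psum K h i (fun q => (Finsupp.equivFunOnFinite.symm (fun q : PI K i × ι =>
      h.rp (x.1 q.1.1) q.2) : PI K i × ι →₀ D.S) q) B]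
    split_ifs with hB
    · have h2 := h.rp_sum (x.1 B)
      rw [Finsupp.sum_fintype _ _ (fun q' => by rw [map_zero, zero_smul])] at h2
      exact h2
    · exact (x.2 B hB).symm

end part

theorem isF_part (K : KS D.F D.ph) (w : KW K D.p D.b) {X : Type u} [AddCommGroup X]
    [Module D.R X] (h : D.IsF X) (i : ZMod 2) : D.IsF (K.part X i) := by
  obtain ⟨r, ⟨h⟩⟩ := h
  exact (fbsPart K h w i).isF_of_finite

theorem isW_tk0 {C : Ch.{u} D.R} (h0 : D.IsW C.X0) (h1 : D.IsW C.X1) : D.IsW (D.kV.tk C).X0 :=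
  D.isW_sub (D.isW_prod (D.isW_tot h0) (D.isW_tot h1)) _

theorem isW_tk1 {C : Ch.{u} D.R} (h0 : D.IsW C.X0) (h1 : D.IsW C.X1) : D.IsW (D.kV.tk C).X1 :=
  D.isW_sub (D.isW_prod (D.isW_tot h0) (D.isW_tot h1)) _

end Dat

end MSA
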