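import Mathlib
import Pool.Agent.MSA.CA
import Pool.Agent.MSA.Ran
import Pool.Agent.MSA.Rfd
import Pool.Agent.MSA.Rfb
import Pool.Agent.MSA.Rtm
import Pool.Agent.MSA.Rww
import Pool.Agent.MSA.Rfm
import Pool.Agent.MSA.Rc3

/-!
# Values of `P_N(M)`

`D.GdN M N`: the Koszul complex of the variables on `M` is exact in all weights `> N`.
`rv Ψ M`: the value of `P_N(M)` for such `N`.
-/

set_option autoImplicit false
set_option linter.unusedSectionVars false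

noncomputable section

namespace MSA

universe u v w

open MvPolynomial

namespace Kp

variable {D : Dat.{u}} {B : Ch.{u} D.R} (k : Kp D B)

theorem isF_PN0 (h : D.IsW B.X0) (N : ℤ) : D.IsF (k.PN N).X0 := by
  obtain ⟨hb, hn, -⟩ := Fr.fr_fbs h
  refine hb.isF_fil ?_
  have h1 := D.fr_ix_fin h N
  have h2 : {i : Σ n : ℤ, Fin (D.hf B.X0 n) | hb.n i ≤ N} = {i | i.1 ≤ N} := by
    ext i
    rw [Set.mem_setOf_eq, Set.mem_setOf_eq, hn]
  rw [h2]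
  exact h1

theorem isF_PN1 (h : D.IsW B.X1) (N : ℤ) : D.IsF (k.PN N).X1 := by
  obtain ⟨hb, hn, -⟩ := Fr.fr_fbs h
  refine hb.isF_fil ?_
  have h1 := D.fr_ix_fin h N
  have h2 : {i : Σ n : ℤ, Fin (D.hf B.X1 n) | hb.n i ≤ N} = {i | i.1 ≤ N} := by
    ext i
    rw [Set.mem_setOf_eq, Set.mem_setOf_eq, hn]
  rw [h2]
  exact h1

end Kp

namespace Dat

variable (D : Dat.{u}) {H : Type v} [AddCommGroup H] (Ψ : PsiT D H)

section

variable (M : Type u) [AddCommGroup M] [Module D.R M]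

/-- the Koszul complex of `M` is exact in all weights `> N` -/
def GdN (N : ℤ) : Prop := ∀ n > N, D.ExW (D.kV.ch M) n

/-- `P_N(M)` -/
def PM (N : ℤ) : Ch.{u} D.R := (D.kpV M).PN N

end

variable {M : Type u} [AddCommGroup M] [Module D.R M]

theorem gdN_mono {N N' : ℤ} (h : N ≤ N') (hN : D.GdN M N) : D.GdN M N' :=
  fun n hn => hN n (lt_of_le_of_lt h hn)

theorem kills_ch0 {K : KS D.F D.ph} {s : D.S} (hs : ∀ m : M, iot D.ph s • m = 0)
    (x : (K.ch M).X0) : iot D.ph s • x = 0 := by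
  refine Subtype.ext (funext fun A => ?_)
  show (iot D.ph s • x.1) A = 0
  rw [K.iot_smul, hs]

theorem kills_ch1 {K : KS D.F D.ph} {s : D.S} (hs : ∀ m : M, iot D.ph s • m = 0)
    (x : (K.ch M).X1) : iot D.ph s • x = 0 := by
  refine Subtype.ext (funext fun A => ?_)
  show (iot D.ph s • x.1) A = 0
  rw [K.iot_smul, hs]

section

variable (hM : D.IsW M)

include hM

theorem isW_kV0 : D.IsW (D.kV.ch M).X0 := D.isW_ch0 D.kV D.kVw hM

theorem isW_kV1 : D.IsW (D.kV.ch M).X1 := D.isW_ch1 D.kV D.kVw hM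

theorem exM_kV {N : ℤ} (hN : D.GdN M N) (n : ℤ) (hn : N < n) : D.ExM (D.kpV M).P n :=
  Kp.exM_P (k := D.kpV M) (D.isW_kV0 hM).wts (D.isW_kV1 hM).wts (hN n hn)

end

theorem isG_of_isA {c : ℕ} (h : D.IsA M c) : D.IsG M := h.g

theorem dom_PM (hM : D.IsA M 2) {N : ℤ} (hN : D.GdN M N) : D.Dom (D.PM M N) := by
  have hW : D.IsW M := hM.g.isW
  obtain ⟨hb0, -, -⟩ := Fr.fr_fbs (D.isW_kV0 hW)
  obtain ⟨hb1, -, -⟩ := Fr.fr_fbs (D.isW_kV1 hW)
  refine ⟨(D.kpV M).isF_PN0 (D.isW_kV0 hW) N, (D.kpV M).isF_PN1 (D.isW_kV1 hW) N, ?_, ?_⟩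
  · intro P x hx
    obtain ⟨s, hs, hk⟩ := D.ann_all hM P
    obtain ⟨y, hy⟩ := Kp.loc0 (D.koV M) s (D.kills_ch0 hk) (D.kills_ch1 hk) x.1
      (congrArg Subtype.val hx)
    obtain ⟨z, hz⟩ := D.tail1 (X := (D.kpV M).P) hb0 hb1 N (D.exM_kV hW hN) y
      (hy ▸ Submodule.smul_mem _ _ x.2)
    refine ⟨s, hs, ⟨y - (D.kpV M).P.d0 z, hz⟩, Subtype.ext ?_⟩
    show (D.kpV M).P.d1 (y - (D.kpV M).P.d0 z) = iot D.ph s • x.1
    rw [map_sub, hy, (D.kpV M).P.h10, sub_zero]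
  · intro P x hx
    obtain ⟨s, hs, hk⟩ := D.ann_all hM P
    obtain ⟨y, hy⟩ := Kp.loc1 (D.koV M) s (D.kills_ch0 hk) (D.kills_ch1 hk) x.1
      (congrArg Subtype.val hx)
    obtain ⟨z, hz⟩ := D.tail0 (X := (D.kpV M).P) hb0 hb1 N (D.exM_kV hW hN) y
      (hy ▸ Submodule.smul_mem _ _ x.2)
    refine ⟨s, hs, ⟨y - (D.kpV M).P.d1 z, hz⟩, Subtype.ext ?_⟩
    show (D.kpV M).P.d0 (y - (D.kpV M).P.d1 z) = iot D.ph s • x.1
    rw [map_sub, hy, (D.kpV M).P.h01, sub_zero]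

theorem v_PM_le (hM : D.IsA M 2) {N N' : ℤ} (h : N ≤ N') (hN : D.GdN M N) :
    Ψ.v (D.PM M N) = Ψ.v (D.PM M N') := by
  have hW : D.IsW M := hM.g.isW
  obtain ⟨hb0, -, -⟩ := Fr.fr_fbs (D.isW_kV0 hW)
  obtain ⟨hb1, -, -⟩ := Fr.fr_fbs (D.isW_kV1 hW)
  exact D.v_eq Ψ (D.filI (D.kpV M).P h)
    (D.exM_cone_incl (X := (D.kpV M).P) hb0 hb1 h (fun n hn _ => D.exM_kV hW hN n hn))
    (D.dom_PM hM hN) (D.dom_PM hM (D.gdN_mono h hN))

theorem v_PM_eq (hM : D.IsA M 2) {N N' : ℤ} (hN : D.GdN M N) (hN' : D.GdN M N') :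
    Ψ.v (D.PM M N) = Ψ.v (D.PM M N') := by
  rcases le_total N N' with h | h
  · exact D.v_PM_le Ψ hM h hN
  · exact (D.v_PM_le Ψ hM h hN').symm

open Classical in
variable (M) in
/-- the additive function attached to `Ψ` -/
def rv : H := if h : ∃ N, D.GdN M N then Ψ.v (D.PM M h.choose) else 0

theorem rv_eq (hM : D.IsA M 2) {N : ℤ} (hN : D.GdN M N) : D.rv Ψ M = Ψ.v (D.PM M N) := by
  have h : ∃ N, D.GdN M N := ⟨N, hN⟩
  unfold rv
  rw [dif_pos h]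
  exact D.v_PM_eq Ψ hM h.choose_spec hN

theorem exists_gdN (hM : D.IsA M 2) : ∃ N, D.GdN M N := D.exw_kV hM.g

theorem rv_add (hM : D.IsA M 2) (N : Submodule D.R M) :
    D.rv Ψ M = D.rv Ψ N + D.rv Ψ (M ⧸ N) := by
  have h1 := D.isA_sub hM N
  have h2 := D.isA_quo hM N
  obtain ⟨n0, hn0⟩ := D.exists_gdN hM
  obtain ⟨n1, hn1⟩ := D.exists_gdN h1
  obtain ⟨n2, hn2⟩ := D.exists_gdN h2
  obtain ⟨n, h0, h1', h2'⟩ : ∃ n : ℤ, n0 ≤ n ∧ n1 ≤ n ∧ n2 ≤ n :=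
    ⟨max n0 (max n1 n2), le_max_left _ _, (le_max_left _ _).trans (le_max_right _ _),
      (le_max_right _ _).trans (le_max_right _ _)⟩
  have g0 := D.gdN_mono h0 hn0
  have g1 := D.gdN_mono h1' hn1
  have g2 := D.gdN_mono h2' hn2
  rw [D.rv_eq Ψ hM g0, D.rv_eq Ψ h1 g1, D.rv_eq Ψ h2 g2]
  obtain ⟨s⟩ := D.kv_ses hM.g.wts N n
  exact Ψ.add (D.dom_PM h1 g1) (D.dom_PM hM g0) (D.dom_PM h2 g2) s

theorem exM_cone_bij {X Y : Ch.{u} D.R} (f : Ch.Hom X Y) (h0 : Function.Bijective f.f0)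
    (h1 : Function.Bijective f.f1) (n : ℤ) : D.ExM (Ch.cone f) n := by
  have i0 : ∀ {n : ℤ} {y : Y.X0}, y ∈ wt D.F D.ph Y.X0 n → ∃ x ∈ wt D.F D.ph X.X0 n, f.f0 x = y := by
    intro n y hy
    refine ⟨(LinearEquiv.ofBijective f.f0 h0).symm y,
      wt_map (LinearEquiv.ofBijective f.f0 h0).symm.toLinearMap hy, ?_⟩
    exact (LinearEquiv.ofBijective f.f0 h0).apply_symm_apply y
  have i1 : ∀ {n : ℤ} {y : Y.X1}, y ∈ wt D.F D.ph Y.X1 n → ∃ x ∈ wt D.F D.ph X.X1 n, f.f1 x = y := by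
    intro n y hy
    refine ⟨(LinearEquiv.ofBijective f.f1 h1).symm y,
      wt_map (LinearEquiv.ofBijective f.f1 h1).symm.toLinearMap hy, ?_⟩
    exact (LinearEquiv.ofBijective f.f1 h1).apply_symm_apply y
  have j0 : ∀ {x : X.X0}, f.f0 x ∈ D.mP Y.X0 → x ∈ D.mP X.X0 := by
    intro x hx
    have h := D.mP_map (LinearEquiv.ofBijective f.f0 h0).symm.toLinearMap hx
    have h2 : (LinearEquiv.ofBijective f.f0 h0).symm.toLinearMap (f.f0 x) = x :=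
      (LinearEquiv.ofBijective f.f0 h0).symm_apply_apply x
    rwa [h2] at h
  have j1 : ∀ {x : X.X1}, f.f1 x ∈ D.mP Y.X1 → x ∈ D.mP X.X1 := by
    intro x hx
    have h := D.mP_map (LinearEquiv.ofBijective f.f1 h1).symm.toLinearMap hx
    have h2 : (LinearEquiv.ofBijective f.f1 h1).symm.toLinearMap (f.f1 x) = x :=
      (LinearEquiv.ofBijective f.f1 h1).symm_apply_apply x
    rwa [h2] at h
  refine D.exM_cone f ⟨?_, ?_, ?_, ?_⟩ n
  · intro n y hy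
    obtain ⟨x, hx, rfl⟩ := i0 hy
    exact ⟨x, hx, by rw [sub_self]; exact Submodule.zero_mem _⟩
  · intro n y hy
    obtain ⟨x, hx, rfl⟩ := i1 hy
    exact ⟨x, hx, by rw [sub_self]; exact Submodule.zero_mem _⟩
  · intro n x hx hf _
    exact ⟨0, AddSubgroup.zero_mem _, by rw [map_zero]; exact Submodule.zero_mem _, by
      rw [map_zero, sub_zero]; exact j0 hf⟩
  · intro n x hx hf _
    exact ⟨0, AddSubgroup.zero_mem _, by rw [map_zero]; exact Submodule.zero_mem _, by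
      rw [map_zero, sub_zero]; exact j1 hf⟩

theorem rv_iso {M' : Type u} [AddCommGroup M'] [Module D.R M'] (e : M ≃ₗ[D.R] M')
    (hM : D.IsA M 2) : D.rv Ψ M = D.rv Ψ M' := by
  have hM' := D.isA_iso e hM
  obtain ⟨n0, hn0⟩ := D.exists_gdN hM
  obtain ⟨n1, hn1⟩ := D.exists_gdN hM'
  have g0 := D.gdN_mono (le_max_left n0 n1) hn0
  have g1 := D.gdN_mono (le_max_right n0 n1) hn1
  rw [D.rv_eq Ψ hM g0, D.rv_eq Ψ hM' g1]
  obtain ⟨f, h0, h1⟩ := D.kv_iso hM.g.wts e (max n0 n1)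
  exact D.v_eq Ψ f (D.exM_cone_bij f h0 h1) (D.dom_PM hM g0) (D.dom_PM hM' g1)

/-- the additive function on `cA 2` attached to `Ψ` -/
def eP : Adf (D.cA 2) H where
  e := fun M _ _ => D.rv Ψ M
  iso := fun e h => D.rv_iso Ψ e h
  add := fun N h => D.rv_add Ψ h N

end Dat

end MSA
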