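import Mathlib
import Pool.Agent.MSA.Rvl
import Pool.Agent.MSA.Rci
import Pool.Agent.MSA.Rt1
import Pool.Agent.MSA.Rtw
import Pool.Agent.MSA.Rep

/-!
# PART RES, final theorem

`D.eP Ψ : Adf (D.cA 2) H` with `(D.eP Ψ).e (D.CI y g) = Ψ.v ((D.kCI hy hg).ch (Sr D.ph))`.
-/

set_option autoImplicit false
set_option linter.unusedSectionVars false

noncomputable section

namespace MSA

universe u v w

open MvPolynomial

namespace Dat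

variable (D : Dat.{u}) {H : Type v} [AddCommGroup H] (Ψ : PsiT D H) {m n : ℕ} {y g : D.S}

/-- the Koszul complex of two invariants -/
abbrev KC2 (hy : D.Iv m y) (hg : D.Iv n g) : Ch.{u} D.R := (D.kCI hy hg).ch (Sr D.ph)

theorem isW_kc0 (hy : D.Iv m y) (hg : D.Iv n g) : D.IsW (D.KC2 hy hg).X0 :=
  D.isW_ch0 (D.kCI hy hg) (D.kCIw hy hg) D.isG_sr.isW

theorem isW_kc1 (hy : D.Iv m y) (hg : D.Iv n g) : D.IsW (D.KC2 hy hg).X1 :=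
  D.isW_ch1 (D.kCI hy hg) (D.kCIw hy hg) D.isG_sr.isW

theorem isF_kc0 (hy : D.Iv m y) (hg : D.Iv n g) : D.IsF (D.KC2 hy hg).X0 :=
  D.isF_part (D.kCI hy hg) (D.kCIw hy hg) D.isF_sr 0

theorem isF_kc1 (hy : D.Iv m y) (hg : D.Iv n g) : D.IsF (D.KC2 hy hg).X1 :=
  D.isF_part (D.kCI hy hg) (D.kCIw hy hg) D.isF_sr 1

theorem kc_fin (hy : D.Iv m y) (hg : D.Iv n g) (y0 : y ≠ 0) (g0 : g ≠ 0)
    (hr : IsRelPrime y g) :
    D.Dom (D.KC2 hy hg) ∧ D.rv Ψ (D.CI y g) = Ψ.v (D.KC2 hy hg) := by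
  have hA : D.IsA (D.CI y g) 2 := D.isA_CI hy hg y0 g0 hr
  obtain ⟨N0, hN0⟩ := D.exists_gdN hA
  obtain ⟨N1, hN1⟩ := D.isF_fil_top (D.isF_kc0 hy hg)
  obtain ⟨N2, hN2⟩ := D.isF_fil_top (D.isF_kc1 hy hg)
  obtain ⟨N, h0, h1, h2⟩ : ∃ n : ℤ, N0 ≤ n ∧ N1 ≤ n ∧ N2 ≤ n :=
    ⟨max N0 (max N1 N2), le_max_left _ _, (le_max_left _ _).trans (le_max_right _ _),
      (le_max_right _ _).trans (le_max_right _ _)⟩
  have hN : D.GdN (D.CI y g) N := D.gdN_mono h0 hN0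
  have hT := D.tk1_ci hy hg y0 hr
  have w0 := D.isW_kc0 hy hg
  have w1 := D.isW_kc1 hy hg
  have wM : D.IsW (D.CI y g) := hA.g.isW
  have t0 := D.isW_tk0 w0 w1
  have t1 := D.isW_tk1 w0 w1
  -- the comparison with `P_N (CI)`
  have s1 : D.SQ (Kp.mapN (D.qHm (D.KC2 hy hg) (D.qci hy hg) hT.hq) N) :=
    Kp.sq_N _ (D.kV.qtk_s0 _ _ hT.hq (D.qci_surj hy hg)) (D.kV.qtk_s1 _ _ hT.hq (D.qci_surj hy hg))
      (fun x hq hd => by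
        obtain ⟨z, hz, hz2⟩ := tk1_ex0 D.kV hT x hd hq
        exact ⟨z, hz2, hz⟩)
      (fun x hq hd => by
        obtain ⟨z, hz, hz2⟩ := tk1_ex1 D.kV hT x hd hq
        exact ⟨z, hz2, hz⟩) t0 t1 (D.isW_kV0 wM) (D.isW_kV1 wM) N
  have dM := D.dom_PM hA hN
  have c1 := D.exM_cone _ s1
  have dT : D.Dom ((D.kpT (D.KC2 hy hg)).PN N) :=
    D.dom_left _ c1 dM ((D.kpT (D.KC2 hy hg)).isF_PN0 t0 N) ((D.kpT (D.KC2 hy hg)).isF_PN1 t1 N)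
  have e1 := D.v_eq Ψ _ c1 dT dM
  -- the comparison with the Koszul complex
  have s2 := D.sq_eps (D.KC2 hy hg) (D.isF_kc0 hy hg) (D.isF_kc1 hy hg) t0 t1 N (hN1 N h1)
    (hN2 N h2)
  have c2 := D.exM_cone _ s2
  have dC : D.Dom (D.KC2 hy hg) :=
    D.dom_right _ c2 dT (D.isF_kc0 hy hg) (D.isF_kc1 hy hg)
  have e2 := D.v_eq Ψ _ c2 dT dC
  exact ⟨dC, by rw [D.rv_eq Ψ hA hN, ← e2, e1]; rfl⟩

/-- The Koszul complex of two relatively prime invariants lies in `Dom`. -/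
theorem dom_KC (hy : D.Iv m y) (hg : D.Iv n g) (y0 : y ≠ 0) (g0 : g ≠ 0) (hr : IsRelPrime y g) :
    D.Dom ((D.kCI hy hg).ch (Sr D.ph)) := by
  let Ψ : PsiT D ℤ := ⟨fun _ => 0, fun _ _ _ _ => rfl, fun _ _ _ _ _ _ => rfl⟩
  exact (D.kc_fin Ψ hy hg y0 g0 hr).1

/-- FINAL THEOREM of PART RES. -/
theorem exists_adf : ∃ E : Adf (D.cA 2) H, ∀ (m n : ℕ) (y g : D.S) (hy : D.Iv m y)
    (hg : D.Iv n g), y ≠ 0 → g ≠ 0 → IsRelPrime y g →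
      E.e (D.CI y g) = Ψ.v ((D.kCI hy hg).ch (Sr D.ph)) :=
  ⟨D.eP Ψ, fun _ _ _ _ hy hg y0 g0 hr => (D.kc_fin Ψ hy hg y0 g0 hr).2⟩

end Dat

end MSA
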